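import Pool.Agent.Lib.MP_5ceaf9_gt.ABQ

/-! Charts of the quotient. -/

open scoped Manifold ContDiff Topology
open Filter

noncomputable section

namespace Pool.Agent.Lib.MP_5ceaf9_gt

theorem exists_dsc (Ψ : OpenPartialHomeomorph (Fin 5 → ℝ) E5)
    (h : ∀ y ∈ Ψ.source, fl η5 y ∉ Ψ.source) :
    ∃ Φ : OpenPartialHomeomorph (QR η5) E5, Dsc Ψ Φ := by
  classical
  let F : QR η5 → E5 := fun q => if q.out ∈ Ψ.source then Ψ q.out else Ψ (fl η5 q.out)
  have ap : ∀ x ∈ Ψ.source, F (pr η5 x) = Ψ x := by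
    intro x hx
    have e : pr η5 x = pr η5 (pr η5 x).out := (Quotient.out_eq _).symm
    rcases (pr_eq_iff η5).1 e with h1 | h1
    · simp only [F, h1, if_pos hx]
    · simp only [F, h1, if_neg (h x hx), fl_fl]
  refine ⟨{ toFun := F
            invFun := fun y => pr η5 (Ψ.symm y)
            source := pr η5 '' Ψ.source
            target := Ψ.target
            map_source' := ?_
            map_target' := fun y hy => ⟨_, Ψ.map_target hy, rfl⟩
            left_inv' := ?_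
            right_inv' := fun y hy => (ap _ (Ψ.map_target hy)).trans (Ψ.right_inv hy)
            open_source := isOpenMap_pr η5 _ Ψ.open_source
            open_target := Ψ.open_target
            continuousOn_toFun := ?_
            continuousOn_invFun := (continuous_pr η5).comp_continuousOn Ψ.continuousOn_symm },
    rfl, rfl, ap, fun _ => rfl⟩
  · rintro _ ⟨x, hx, rfl⟩
    rw [ap x hx]
    exact Ψ.map_source hx
  · rintro _ ⟨x, hx, rfl⟩
    rw [ap x hx, Ψ.left_inv hx]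
  · rintro _ ⟨x, hx, rfl⟩
    refine ((isOpenQuotientMap_pr η5).continuousAt_comp_iff.1 ?_).continuousWithinAt
    refine (Ψ.continuousAt hx).congr ?_
    filter_upwards [Ψ.open_source.mem_nhds hx] with z hz
    exact (ap z hz).symm

theorem dsc_compat {Ψ Ψ' : OpenPartialHomeomorph (Fin 5 → ℝ) E5}
    {Φ Φ' : OpenPartialHomeomorph (QR η5) E5} (h : Dsc Ψ Φ) (h' : Dsc Ψ' Φ')
    (sm : ContDiffOn ℝ ∞ Ψ.symm Ψ.target) (sm' : ContDiffOn ℝ ∞ Ψ' Ψ'.source) :
    ContDiffOn ℝ ∞ (fun y => Φ' (Φ.symm y)) (Φ.target ∩ Φ.symm ⁻¹' Φ'.source) := by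
  rintro y ⟨hy, hy'⟩
  rw [h.tgt] at hy
  have key : ∀ κ : (Fin 5 → ℝ) → Fin 5 → ℝ, ContDiff ℝ ∞ κ → (∀ x, pr η5 (κ x) = pr η5 x) →
      κ (Ψ.symm y) ∈ Ψ'.source → ContDiffAt ℝ ∞ (fun y => Φ' (Φ.symm y)) y := by
    intro κ h1 h2 h3
    have h4 : ContDiffAt ℝ ∞ (fun z => κ (Ψ.symm z)) y :=
      h1.contDiffAt.comp y (sm.contDiffAt (Ψ.open_target.mem_nhds hy))
    refine ((sm'.contDiffAt (Ψ'.open_source.mem_nhds h3)).comp y h4).congr_of_eventuallyEq ?_
    filter_upwards [h4.continuousAt.eventually_mem (Ψ'.open_source.mem_nhds h3)] with z hz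
    rw [h.sy, ← h2, h'.ap _ hz]
    rfl
  rw [Set.mem_preimage, h.sy, h'.src, pr_mem_image] at hy'
  exact (hy'.elim (key id contDiff_id fun _ => rfl)
    (key _ (contDiff_fl η5) (pr_fl η5))).contDiffWithinAt

end Pool.Agent.Lib.MP_5ceaf9_gt
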