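import Pool.Agent.Lib.MP_5ceaf9_gt.ABDefs

/-! Adapted charts from the inverse function theorem. -/

open scoped Manifold ContDiff Topology
open Filter

noncomputable section

namespace Pool.Agent.Lib.MP_5ceaf9_gt

/-- The map whose first coordinate is `H` and whose other coordinates are those different
from `i`. -/
def abloc_Th (H : (Fin 5 → ℝ) → ℝ) (i : Fin 5) (y : Fin 5 → ℝ) : E5 :=
  (EuclideanSpace.equiv (Fin 5) ℝ).symm fun j => if j = 0 then H y else y (Equiv.swap 0 i j)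

theorem abloc_contDiff {H : (Fin 5 → ℝ) → ℝ} (hH : ContDiff ℝ ∞ H) (i : Fin 5) :
    ContDiff ℝ ∞ (abloc_Th H i) := by
  refine (EuclideanSpace.equiv (Fin 5) ℝ).symm.contDiff.comp (contDiff_pi.2 fun j => ?_)
  split_ifs
  exacts [hH, contDiff_apply ℝ ℝ _]

theorem abloc_deriv {H : (Fin 5 → ℝ) → ℝ} (hH : ContDiff ℝ ∞ H) (i : Fin 5) {y : Fin 5 → ℝ}
    (hy : fderiv ℝ H y (Pi.single i 1) ≠ 0) :
    ∃ L : (Fin 5 → ℝ) ≃L[ℝ] E5, HasFDerivAt (abloc_Th H i) (L : (Fin 5 → ℝ) →L[ℝ] E5) y := by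
  let φ : Fin 5 → (Fin 5 → ℝ) →L[ℝ] ℝ := fun j =>
    if j = 0 then fderiv ℝ H y else ContinuousLinearMap.proj (Equiv.swap 0 i j)
  have h1 : HasFDerivAt (fun (y : Fin 5 → ℝ) (j : Fin 5) =>
      if j = 0 then H y else y (Equiv.swap 0 i j)) (ContinuousLinearMap.pi φ) y := by
    refine hasFDerivAt_pi.2 fun j => ?_
    simp only [φ]
    split_ifs
    exacts [(hH.differentiable (by simp) y).hasFDerivAt, hasFDerivAt_apply _ _]
  have h2 : Function.Injective (ContinuousLinearMap.pi φ).toLinearMap := by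
    refine (injective_iff_map_eq_zero _).2 fun v hv => ?_
    have h3 : ∀ j, φ j v = 0 := fun j => congrFun hv j
    have h4 : ∀ k, k ≠ i → v k = 0 := fun k hk => by
      have h5 : Equiv.swap 0 i k ≠ 0 := fun h => hk (by simpa using congrArg (Equiv.swap 0 i) h)
      simpa [φ, h5] using h3 (Equiv.swap 0 i k)
    have h5 : v = v i • Pi.single i 1 := by
      funext k
      by_cases hk : k = i
      · simp [hk]
      · simp [hk, h4 k hk]
    have h6 : fderiv ℝ H y v = 0 := by simpa [φ] using h3 0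
    rw [h5, map_smul, smul_eq_mul, mul_eq_zero] at h6
    rw [h5, h6.resolve_right hy, zero_smul]
  refine ⟨(LinearMap.linearEquivOfInjective _ h2 rfl).toContinuousLinearEquiv.trans
    (EuclideanSpace.equiv (Fin 5) ℝ).symm, ?_⟩
  exact (EuclideanSpace.equiv (Fin 5) ℝ).symm.hasFDerivAt.comp y h1

theorem abloc_chart {H : (Fin 5 → ℝ) → ℝ} (hH : ContDiff ℝ ∞ H) (i : Fin 5)
    {W : Set (Fin 5 → ℝ)} (hW : IsOpen W) {x : Fin 5 → ℝ} (hx : x ∈ W)
    (hd : ∀ y ∈ W, fderiv ℝ H y (Pi.single i 1) ≠ 0) :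
    ∃ Ψ : OpenPartialHomeomorph (Fin 5 → ℝ) E5, ContDiffOn ℝ ∞ Ψ Ψ.source ∧
      ContDiffOn ℝ ∞ Ψ.symm Ψ.target ∧ (∀ y, Ψ y 0 = H y) ∧ x ∈ Ψ.source ∧ Ψ.source ⊆ W := by
  have hT := abloc_contDiff hH i
  obtain ⟨L, hL⟩ := abloc_deriv hH i (hd x hx)
  let Ψ := (hT.contDiffAt.toOpenPartialHomeomorph (abloc_Th H i) hL (by simp)).restrOpen W hW
  refine ⟨Ψ, hT.contDiffOn, fun z hz => ?_, fun y => rfl,
    ⟨hT.contDiffAt.mem_toOpenPartialHomeomorph_source hL (by simp), hx⟩, fun y hy => hy.2⟩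
  obtain ⟨L', hL'⟩ := abloc_deriv hH i (hd _ (Ψ.map_target hz).2)
  exact (Ψ.contDiffAt_symm hz hL' hT.contDiffAt).contDiffWithinAt

theorem exists_adp {G : (Fin 5 → ℝ) → ℝ} (hG : ContDiff ℝ ∞ G) {x : Fin 5 → ℝ} (hx : 0 ≤ G x)
    (hr : G x = 0 → fderiv ℝ G x ≠ 0) {U : Set (Fin 5 → ℝ)} (hU : IsOpen U) (hxU : x ∈ U) :
    ∃ Ψ : OpenPartialHomeomorph (Fin 5 → ℝ) E5, Adp G Ψ ∧ x ∈ Ψ.source ∧ Ψ.source ⊆ U := by
  rcases hx.eq_or_lt with h | h
  · obtain ⟨i, hi⟩ : ∃ i, fderiv ℝ G x (Pi.single i 1) ≠ 0 := by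
      by_contra h'
      push Not at h'
      refine hr h.symm (ContinuousLinearMap.coe_injective (LinearMap.pi_ext fun i t => ?_))
      have e : (Pi.single i t : Fin 5 → ℝ) = t • Pi.single i 1 := by
        rw [← Pi.single_smul, smul_eq_mul, mul_one]
      simp [e, h' i]
    have hc : Continuous fun y => fderiv ℝ G y (Pi.single i 1) :=
      (hG.continuous_fderiv (by simp)).clm_apply continuous_const
    obtain ⟨Ψ, h1, h2, h3, h4, h5⟩ := abloc_chart hG i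
      (hU.inter (isOpen_ne_fun hc continuous_const)) ⟨hxU, hi⟩ fun y hy => hy.2
    exact ⟨Ψ, ⟨h1, h2, fun y _ => by rw [h3], fun y _ => by rw [h3]⟩, h4, fun y hy => (h5 hy).1⟩
  · have hH : ContDiff ℝ ∞ fun y : Fin 5 → ℝ => y 0 + (1 - x 0) :=
      (contDiff_apply ℝ ℝ 0).add contDiff_const
    obtain ⟨Ψ, h1, h2, h3, h4, h5⟩ := abloc_chart hH 0
      (hU.inter ((isOpen_lt continuous_const hG.continuous).inter
        (isOpen_lt continuous_const hH.continuous))) (x := x) ⟨hxU, h, show (0 : ℝ) < _ by simp⟩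
      fun y _ => by
        rw [((hasFDerivAt_apply (𝕜 := ℝ) (0 : Fin 5) y).add_const (1 - x 0)).fderiv]
        simp
    have h6 : ∀ y ∈ Ψ.source, 0 < G y ∧ 0 < Ψ y 0 := fun y hy => h3 y ▸ (h5 hy).2
    exact ⟨Ψ, ⟨h1, h2, fun y hy => iff_of_true (h6 y hy).1.le (h6 y hy).2.le,
      fun y hy => iff_of_false (h6 y hy).1.ne' (h6 y hy).2.ne'⟩, h4, fun y hy => (h5 hy).1⟩

end Pool.Agent.Lib.MP_5ceaf9_gt
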