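import Pool.Agent.Lib.MP_5ceaf9_gt.ABAtlas
import Pool.Agent.Lib.MP_5ceaf9_gt.ABLoc
import Pool.Agent.Lib.MP_5ceaf9_gt.ABDsc

/-! The quotient of a regular superlevel set of an invariant smooth function. -/

open scoped Manifold ContDiff Topology
open Set

noncomputable section

namespace Pool.Agent.Lib.MP_5ceaf9_gt

theorem thmA {G : (Fin 5 → ℝ) → ℝ} (hG : ContDiff ℝ ∞ G) (hi : ∀ x, G (fl η5 x) = G x)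
    {W T0 T1 : Set (Fin 5 → ℝ)} (hW : ∀ x, x ∈ W ↔ 0 ≤ G x) (hT : ∀ x, x ∈ T0 ∨ x ∈ T1 ↔ G x = 0)
    (cW : IsCompact W) (c0 : IsCompact T0) (c1 : IsCompact T1) (dj : ∀ x ∈ T0, x ∉ T1)
    (i0 : ∀ x ∈ T0, fl η5 x ∈ T0) (i1 : ∀ x ∈ T1, fl η5 x ∈ T1)
    (fr : ∀ x ∈ W, fl η5 x ≠ x) (rg : ∀ x, G x = 0 → fderiv ℝ G x ≠ 0)
    (s0 : pr η5 '' T0 ⊆ pr η5 '' W) (s1 : pr η5 '' T1 ⊆ pr η5 '' W)
    (he0 : IsHE (ContinuousMap.inclusion s0)) (he1 : IsHE (ContinuousMap.inclusion s1)) :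
    ∃ A B : Closed4, Nonempty (HCob A B) ∧ Nonempty (pr η5 '' T0 ≃ₜ A.M) ∧
      Nonempty (pr η5 '' T1 ≃ₜ B.M) := by
  have iW : ∀ x ∈ W, fl η5 x ∈ W := fun x hx => by rw [hW, hi, ← hW]; exact hx
  have key : ∀ x ∈ W, ∀ U : Set (Fin 5 → ℝ), IsOpen U → x ∈ U →
      ∃ Φ ∈ {Φ | ∃ Ψ, Adp G Ψ ∧ Dsc Ψ Φ}, pr η5 x ∈ Φ.source ∧ Φ.source ⊆ pr η5 '' U := by
    intro x hx U hU hxU
    obtain ⟨V, V', hV, hV', h1, h2, h3⟩ := t2_separation (fr x hx)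
    obtain ⟨Ψ, ha, hs, hsub⟩ := exists_adp hG ((hW x).1 hx) (rg x)
      (hU.inter (hV'.inter (hV.preimage (continuous_fl η5)))) ⟨hxU, h2, h1⟩
    obtain ⟨Φ, hΦ⟩ := exists_dsc Ψ fun y hy hy' =>
      Set.disjoint_left.1 h3 (hsub hy).2.2 (hsub hy').2.1
    refine ⟨Φ, ⟨Ψ, ha, hΦ⟩, ?_, ?_⟩
    · rw [hΦ.src]
      exact ⟨x, hs, rfl⟩
    · rw [hΦ.src]
      exact image_mono fun y hy => (hsub hy).1
  have sW0 : ∀ x ∈ T0, x ∈ W := fun x hx => (hW x).2 ((hT x).1 (Or.inl hx)).ge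
  have sW1 : ∀ x ∈ T1, x ∈ W := fun x hx => (hW x).2 ((hT x).1 (Or.inr hx)).ge
  refine cob_of_atlas {Φ | ∃ Ψ, Adp G Ψ ∧ Dsc Ψ Φ} (cW.image (continuous_pr η5))
    (c0.image (continuous_pr η5)) (c1.image (continuous_pr η5)) s0 s1 ?_ ?_ ?_ ?_ ?_ ?_ ?_ he0 he1
  · rintro _ ⟨x, hx, rfl⟩ h
    exact dj x hx ((pr_mem_image_of_inv η5 i1).1 h)
  · rintro Φ ⟨Ψ, ha, hd⟩ Φ' ⟨Ψ', ha', hd'⟩
    exact dsc_compat hd hd' ha.sm' ha'.sm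
  · rintro Φ ⟨Ψ, ha, hd⟩ q hq
    rw [hd.src] at hq
    obtain ⟨x, hx, rfl⟩ := hq
    rw [pr_mem_image_of_inv η5 iW, hd.ap x hx, hW, ha.ge x hx]
  · rintro Φ ⟨Ψ, ha, hd⟩ q hq
    rw [hd.src] at hq
    obtain ⟨x, hx, rfl⟩ := hq
    rw [pr_mem_image_of_inv η5 i0, pr_mem_image_of_inv η5 i1, hd.ap x hx, hT, ha.eq x hx]
  · rintro _ ⟨x, hx, rfl⟩
    obtain ⟨Φ, h1, h2, -⟩ := key x hx univ isOpen_univ trivial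
    exact ⟨Φ, h1, h2⟩
  · rintro _ ⟨x, hx, rfl⟩
    obtain ⟨Φ, h1, h2, h3⟩ := key x (sW0 x hx) T1ᶜ c1.isClosed.isOpen_compl (dj x hx)
    refine ⟨Φ, h1, h2, fun q hq hq' => ?_⟩
    obtain ⟨y, hy, rfl⟩ := h3 hq
    exact hy ((pr_mem_image_of_inv η5 i1).1 hq')
  · rintro _ ⟨x, hx, rfl⟩
    obtain ⟨Φ, h1, h2, h3⟩ := key x (sW1 x hx) T0ᶜ c0.isClosed.isOpen_compl
      (fun h => dj x h hx)
    refine ⟨Φ, h1, h2, fun q hq hq' => ?_⟩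
    obtain ⟨y, hy, rfl⟩ := h3 hq
    exact hy ((pr_mem_image_of_inv η5 i0).1 hq')

end Pool.Agent.Lib.MP_5ceaf9_gt
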