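import Pool.Agent.Lib.MP_5ceaf9_gt.ABDefs

/-! Subsets that look like a half space or a hyperplane in the charts of a smooth atlas. -/

open scoped Manifold ContDiff Topology
open Set

noncomputable section

namespace Pool.Agent.Lib.MP_5ceaf9_gt

section sub

variable {X E H : Type} [TopologicalSpace X] [TopologicalSpace H]

/-- The chart `c` of the subset `Z` is induced by the chart `Φ` along `ι`. -/
structure SubC [TopologicalSpace E] (ι : H → E) {Z : Set X} (Φ : OpenPartialHomeomorph X E)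
    (c : OpenPartialHomeomorph Z H) : Prop where
  src : c.source = Subtype.val ⁻¹' Φ.source
  tgt : c.target = ι ⁻¹' Φ.target
  ap : ∀ z ∈ c.source, ι (c z) = Φ z
  sy : ∀ h ∈ c.target, (c.symm h : X) = Φ.symm (ι h)

open Classical in
theorem exists_sub [TopologicalSpace E] {ι : H → E} {r : E → H} (cι : Continuous ι)
    (cr : Continuous r) (hr : ∀ h, r (ι h) = h) {Z : Set X} (z0 : Z)
    (Φ : OpenPartialHomeomorph X E) (ad : ∀ x ∈ Φ.source, x ∈ Z ↔ Φ x ∈ range ι) :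
    ∃ c : OpenPartialHomeomorph Z H, SubC ι Φ c := by
  have h1 : ∀ z : Z, (z : X) ∈ Φ.source → ι (r (Φ z)) = Φ z := by
    intro z hz
    obtain ⟨h, hh⟩ := (ad _ hz).1 z.2
    rw [← hh, hr]
  have h2 : ∀ h, ι h ∈ Φ.target → Φ.symm (ι h) ∈ Z := by
    intro h hh
    rw [ad _ (Φ.map_target hh), Φ.right_inv hh]
    exact ⟨h, rfl⟩
  let k : H → Z := fun h => if hh : Φ.symm (ι h) ∈ Z then ⟨_, hh⟩ else z0
  have h3 : ∀ h, ι h ∈ Φ.target → (k h : X) = Φ.symm (ι h) := by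
    intro h hh
    simp only [k, dif_pos (h2 h hh)]
  refine ⟨⟨⟨⟨fun z => r (Φ z), k, Subtype.val ⁻¹' Φ.source, ι ⁻¹' Φ.target, ?_, ?_, ?_, ?_⟩,
    ?_, ?_⟩, Φ.open_source.preimage continuous_subtype_val, Φ.open_target.preimage cι⟩,
    rfl, rfl, h1, h3⟩
  · intro z hz
    change ι (r (Φ z)) ∈ Φ.target
    rw [h1 z hz]
    exact Φ.map_source hz
  · intro h hh
    change (k h : X) ∈ Φ.source
    rw [h3 h hh]
    exact Φ.map_target hh
  · intro z hz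
    apply Subtype.ext
    have : ι (r (Φ z)) ∈ Φ.target := by
      rw [h1 z hz]
      exact Φ.map_source hz
    rw [h3 _ this, h1 z hz, Φ.left_inv hz]
  · intro h hh
    rw [h3 h hh, Φ.right_inv hh, hr]
  · exact cr.comp_continuousOn
      (Φ.continuousOn.comp continuous_subtype_val.continuousOn fun z hz => hz)
  · rw [Topology.IsInducing.subtypeVal.continuousOn_iff]
    exact (Φ.continuousOn_symm.comp cι.continuousOn fun h hh => hh).congr h3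

theorem sub_manifold {E' : Type} [NormedAddCommGroup E] [NormedSpace ℝ E] [NormedAddCommGroup E']
    [NormedSpace ℝ E'] (I : ModelWithCorners ℝ E' H) {ι : H → E} {r : E → H} (cι : Continuous ι)
    (cr : Continuous r) (hr : ∀ h, r (ι h) = h) {j : E' → E} {p : E → E'} (sj : ContDiff ℝ ∞ j)
    (sp : ContDiff ℝ ∞ p) (hj : ∀ h, j (I h) = ι h) (hp : ∀ h, p (ι h) = I h) {Z : Set X}
    (𝒜 : Set (OpenPartialHomeomorph X E))
    (cmp : ∀ Φ ∈ 𝒜, ∀ Φ' ∈ 𝒜,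
      ContDiffOn ℝ ∞ (fun y => Φ' (Φ.symm y)) (Φ.target ∩ Φ.symm ⁻¹' Φ'.source))
    (ad : ∀ Φ ∈ 𝒜, ∀ x ∈ Φ.source, x ∈ Z ↔ Φ x ∈ range ι)
    (cov : ∀ x ∈ Z, ∃ Φ ∈ 𝒜, x ∈ Φ.source) :
    ∃ _ : ChartedSpace H Z, IsManifold I ∞ Z ∧ ∀ c, c ∈ atlas H Z ↔ ∃ Φ ∈ 𝒜, SubC ι Φ c := by
  have hc : ∀ z : Z, ∃ c : OpenPartialHomeomorph Z H, (∃ Φ ∈ 𝒜, SubC ι Φ c) ∧ z ∈ c.source := by
    intro z
    obtain ⟨Φ, hΦ, hz⟩ := cov z z.2
    obtain ⟨c, hc⟩ := exists_sub cι cr hr z Φ (ad Φ hΦ)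
    exact ⟨c, ⟨Φ, hΦ, hc⟩, by rw [hc.src]; exact hz⟩
  choose ch hch1 hch2 using hc
  let cs : ChartedSpace H Z := ⟨{c | ∃ Φ ∈ 𝒜, SubC ι Φ c}, ch, hch2, hch1⟩
  refine ⟨cs, isManifold_of_contDiffOn I ∞ Z ?_, fun c => Iff.rfl⟩
  rintro c c' ⟨Φ, hΦ, h⟩ ⟨Φ', hΦ', h'⟩
  have key : ∀ y ∈ I.symm ⁻¹' (c.symm ≫ₕ c').source ∩ range I,
      j y ∈ Φ.target ∩ Φ.symm ⁻¹' Φ'.source ∧
        (I ∘ (c.symm ≫ₕ c') ∘ I.symm) y = p (Φ' (Φ.symm (j y))) := by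
    rintro _ ⟨hy, z, rfl⟩
    rw [mem_preimage, I.left_inv, OpenPartialHomeomorph.trans_source,
      OpenPartialHomeomorph.symm_source] at hy
    obtain ⟨hy1, hy2⟩ := hy
    have e1 := h.sy z hy1
    have e2 := h'.ap _ hy2
    have hy3 : (c.symm z : X) ∈ Φ'.source := by
      have := hy2
      rw [mem_preimage, h'.src] at this
      exact this
    rw [hj]
    refine ⟨⟨by rw [h.tgt] at hy1; exact hy1, by rw [mem_preimage, ← e1]; exact hy3⟩, ?_⟩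
    rw [← e1, ← e2, hp]
    simp
  exact (sp.comp_contDiffOn ((cmp Φ hΦ Φ' hΦ').comp sj.contDiffOn fun y hy => (key y hy).1)).congr
    fun y hy => (key y hy).2

end sub

/-- Five-space as the product of four-space and the line of the first coordinate. -/
def eq45 : (E4 × ℝ) ≃L[ℝ] E5 :=
  LinearEquiv.toContinuousLinearEquiv
    { toFun := fun p => WithLp.toLp 2 (Fin.cons p.2 (fun i => p.1 i) : Fin 5 → ℝ)
      invFun := fun x => (WithLp.toLp 2 (fun i : Fin 4 => x i.succ), x 0)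
      map_add' := fun p q => by
        ext i
        refine Fin.cases ?_ (fun i => ?_) i <;> simp
      map_smul' := fun a p => by
        ext i
        refine Fin.cases ?_ (fun i => ?_) i <;> simp
      left_inv := fun p => by
        ext <;> simp
      right_inv := fun x => by
        ext i
        refine Fin.cases ?_ (fun i => ?_) i <;> simp }

theorem eq45_symm_snd (x : E5) : (eq45.symm x).2 = x 0 := rfl

theorem mem_range_eq45 (x : E5) : x ∈ range (fun y : E4 => eq45 (y, 0)) ↔ x 0 = 0 := by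
  constructor
  · rintro ⟨y, rfl⟩
    rw [← eq45_symm_snd, eq45.symm_apply_apply]
  · intro h
    refine ⟨(eq45.symm x).1, ?_⟩
    rw [← eq45_symm_snd] at h
    change eq45 ((eq45.symm x).1, 0) = x
    rw [← h]
    exact eq45.apply_symm_apply x

section cob

variable {X : Type} [TopologicalSpace X]

theorem end_manifold {𝒜 ℬ : Set (OpenPartialHomeomorph X E5)} (hℬ : ℬ ⊆ 𝒜) {W T : Set X}
    (s : T ⊆ W) [ChartedSpace (EuclideanHalfSpace 5) W] [IsManifold (𝓡∂ 5) ∞ W]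
    (hat : ∀ c, c ∈ atlas (EuclideanHalfSpace 5) W ↔ ∃ Φ ∈ 𝒜, SubC (𝓡∂ 5) Φ c)
    (cmp : ∀ Φ ∈ 𝒜, ∀ Φ' ∈ 𝒜,
      ContDiffOn ℝ ∞ (fun y => Φ' (Φ.symm y)) (Φ.target ∩ Φ.symm ⁻¹' Φ'.source))
    (adW : ∀ Φ ∈ 𝒜, ∀ x ∈ Φ.source, x ∈ W ↔ 0 ≤ Φ x 0)
    (adT : ∀ Φ ∈ ℬ, ∀ x ∈ Φ.source, x ∈ T ↔ Φ x 0 = 0)
    (cov : ∀ x ∈ T, ∃ Φ ∈ ℬ, x ∈ Φ.source) :
    ∃ _ : ChartedSpace E4 T, IsManifold (𝓡 4) ∞ T ∧
      Manifold.IsSmoothEmbedding (𝓡 4) (𝓡∂ 5) ∞ (ContinuousMap.inclusion s) := by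
  have sι : ContDiff ℝ ∞ (fun y : E4 => eq45 (y, 0)) :=
    eq45.contDiff.comp (contDiff_id.prodMk contDiff_const)
  have sr : ContDiff ℝ ∞ (fun x : E5 => (eq45.symm x).1) := contDiff_fst.comp eq45.symm.contDiff
  have hr : ∀ y : E4, (eq45.symm (eq45 (y, 0))).1 = y := fun y => by
    rw [eq45.symm_apply_apply]
  obtain ⟨cs, hm, hat'⟩ := sub_manifold (Z := T) (𝓡 4) sι.continuous sr.continuous hr sι sr
    (fun _ => rfl) hr ℬ (fun Φ h Φ' h' => cmp Φ (hℬ h) Φ' (hℬ h'))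
    (fun Φ h x hx => by rw [mem_range_eq45]; exact adT Φ h x hx) cov
  refine ⟨cs, hm, Manifold.IsImmersionOfComplement.isImmersion (F := ℝ) fun x => ?_,
    Topology.IsEmbedding.inclusion s⟩
  obtain ⟨Φ, hΦ, h⟩ := (hat' _).1 (chart_mem_atlas E4 x)
  obtain ⟨d, hd⟩ := exists_sub (𝓡∂ 5).continuous (𝓡∂ 5).continuous_symm (𝓡∂ 5).left_inv
    (⟨x, s x.2⟩ : W) Φ (fun y hy => by
      rw [range_modelWithCornersEuclideanHalfSpace]
      exact adW Φ (hℬ hΦ) y hy)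
  have hsrc : (chartAt E4 x).source ⊆ ContinuousMap.inclusion s ⁻¹' d.source := by
    intro y hy
    rw [h.src] at hy
    rw [hd.src]
    exact hy
  refine Manifold.IsImmersionAtOfComplement.mk_of_charts eq45 (chartAt E4 x) d
    (mem_chart_source E4 x) (hsrc (mem_chart_source E4 x))
    (IsManifold.chart_mem_maximalAtlas x)
    (IsManifold.subset_maximalAtlas ((hat d).2 ⟨Φ, hℬ hΦ, hd⟩)) hsrc ?_
  intro y hy
  have hy' : y ∈ (chartAt E4 x).target := by simpa using hy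
  have e1 := h.sy y hy'
  have e2 := hd.ap _ (hsrc ((chartAt E4 x).map_target hy'))
  have hy2 : eq45 (y, 0) ∈ Φ.target := by
    have := hy'
    rw [h.tgt] at this
    exact this
  change (𝓡∂ 5) (d (ContinuousMap.inclusion s ((chartAt E4 x).symm y))) = eq45 (y, 0)
  rw [e2]
  change Φ ((chartAt E4 x).symm y : X) = _
  rw [e1, Φ.right_inv hy2]

/-- A compact set that is a half space in every chart of a smooth atlas, with boundary split into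
two parts whose inclusions are homotopy equivalences, is an h-cobordism. -/
theorem cob_of_atlas [T2Space X] (𝒜 : Set (OpenPartialHomeomorph X E5)) {W T0 T1 : Set X}
    (cW : IsCompact W) (c0 : IsCompact T0) (c1 : IsCompact T1) (s0 : T0 ⊆ W) (s1 : T1 ⊆ W)
    (dj : ∀ x ∈ T0, x ∉ T1)
    (cmp : ∀ Φ ∈ 𝒜, ∀ Φ' ∈ 𝒜,
      ContDiffOn ℝ ∞ (fun y => Φ' (Φ.symm y)) (Φ.target ∩ Φ.symm ⁻¹' Φ'.source))
    (adW : ∀ Φ ∈ 𝒜, ∀ x ∈ Φ.source, x ∈ W ↔ 0 ≤ Φ x 0)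
    (adT : ∀ Φ ∈ 𝒜, ∀ x ∈ Φ.source, x ∈ T0 ∨ x ∈ T1 ↔ Φ x 0 = 0)
    (cov : ∀ x ∈ W, ∃ Φ ∈ 𝒜, x ∈ Φ.source)
    (cov0 : ∀ x ∈ T0, ∃ Φ ∈ 𝒜, x ∈ Φ.source ∧ ∀ y ∈ Φ.source, y ∉ T1)
    (cov1 : ∀ x ∈ T1, ∃ Φ ∈ 𝒜, x ∈ Φ.source ∧ ∀ y ∈ Φ.source, y ∉ T0)
    (he0 : IsHE (ContinuousMap.inclusion s0)) (he1 : IsHE (ContinuousMap.inclusion s1)) :
    ∃ A B : Closed4, Nonempty (HCob A B) ∧ Nonempty (T0 ≃ₜ A.M) ∧ Nonempty (T1 ≃ₜ B.M) := by
  obtain ⟨cs, hm, hat⟩ := sub_manifold (Z := W) (𝓡∂ 5) (𝓡∂ 5).continuous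
    (𝓡∂ 5).continuous_symm (𝓡∂ 5).left_inv contDiff_id contDiff_id (fun _ => rfl) (fun _ => rfl)
    𝒜 cmp (fun Φ h x hx => by
      rw [range_modelWithCornersEuclideanHalfSpace]
      exact adW Φ h x hx) cov
  obtain ⟨cs0, hm0, em0⟩ := end_manifold (ℬ := {Φ | Φ ∈ 𝒜 ∧ ∀ y ∈ Φ.source, y ∉ T1})
    (fun _ h => h.1) s0 hat cmp adW
    (fun Φ h x hx => by
      rw [← adT Φ h.1 x hx]
      exact ⟨Or.inl, fun h' => h'.resolve_right (h.2 x hx)⟩)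
    (fun x hx => by
      obtain ⟨Φ, h1, h2, h3⟩ := cov0 x hx
      exact ⟨Φ, ⟨h1, h3⟩, h2⟩)
  obtain ⟨cs1, hm1, em1⟩ := end_manifold (ℬ := {Φ | Φ ∈ 𝒜 ∧ ∀ y ∈ Φ.source, y ∉ T0})
    (fun _ h => h.1) s1 hat cmp adW
    (fun Φ h x hx => by
      rw [← adT Φ h.1 x hx]
      exact ⟨Or.inr, fun h' => h'.resolve_left (h.2 x hx)⟩)
    (fun x hx => by
      obtain ⟨Φ, h1, h2, h3⟩ := cov1 x hx
      exact ⟨Φ, ⟨h1, h3⟩, h2⟩)
  have : CompactSpace W := isCompact_iff_compactSpace.1 cW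
  have : CompactSpace T0 := isCompact_iff_compactSpace.1 c0
  have : CompactSpace T1 := isCompact_iff_compactSpace.1 c1
  refine ⟨⟨T0⟩, ⟨T1⟩, ⟨⟨W, ContinuousMap.inclusion s0, ContinuousMap.inclusion s1, em0, em1, ?_, ?_,
    he0, he1⟩⟩, ⟨Homeomorph.refl _⟩, ⟨Homeomorph.refl _⟩⟩
  · rw [Set.disjoint_left]
    rintro _ ⟨x, rfl⟩ ⟨y, hy⟩
    have : (y : X) = x := congrArg Subtype.val hy
    exact dj x x.2 (this ▸ y.2)
  · ext w
    obtain ⟨Φ, hΦ, h⟩ := (hat _).1 (chart_mem_atlas (EuclideanHalfSpace 5) w)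
    have hw := mem_chart_source (EuclideanHalfSpace 5) w
    have e := h.ap w hw
    rw [h.src] at hw
    have e2 : w ∈ (𝓡∂ 5).boundary W ↔ Φ w 0 = 0 := by
      change (𝓡∂ 5) (chartAt (EuclideanHalfSpace 5) w w) ∈ frontier (range (𝓡∂ 5)) ↔ _
      rw [e, frontier_range_modelWithCornersEuclideanHalfSpace]
      exact eq_comm
    rw [e2, ← adT Φ hΦ w hw]
    constructor
    · rintro (⟨x, rfl⟩ | ⟨x, rfl⟩)
      · exact Or.inl x.2
      · exact Or.inr x.2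
    · rintro (h | h)
      · exact Or.inl ⟨⟨w, h⟩, rfl⟩
      · exact Or.inr ⟨⟨w, h⟩, rfl⟩

end cob

end Pool.Agent.Lib.MP_5ceaf9_gt
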