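import Pool.Agent.Lib.MP_5ceaf9_gt.ABOne

/-! One bijection of real space that moves both voxel hypersurfaces onto the smooth ones. -/

open scoped Manifold ContDiff Topology
open Filter

noncomputable section

namespace Pool.Agent.Lib.MP_5ceaf9_gt

variable {n : ℕ} {S0 S1 : Finset (Lat n)}

theorem FF_deep (d0 : DnC S0) (d1 : DnC S1) (deep : ∀ a ∈ S0, ∀ b, le1 a b → b ∈ S1)
    {x : Fin n → ℝ} (h : 0 < FF S0 x) : FF S1 x = 1 := by
  obtain ⟨m, ε, t, hx⟩ := exists_NF x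
  refine le_antisymm (FF_le_one _ _) (not_lt.1 ?_)
  rw [hx.FF_lt_one_iff d1, not_not]
  refine deep _ ((hx.FF_pos_iff d0).1 h) _ (hx.cor_mono fun i hi => ?_)
  rw [hi]
  exact one_pos

theorem FF_deep' (d0 : DnC S0) (d1 : DnC S1) (deep : ∀ a ∈ S0, ∀ b, le1 a b → b ∈ S1)
    {x : Fin n → ℝ} (h : FF S1 x < 1) : FF S0 x = 0 := by
  refine le_antisymm (not_lt.1 fun h' => ?_) (FF_nonneg _ _)
  exact h.ne (FF_deep d0 d1 deep h')

theorem exists_push2 (η : Fin n → Bool) (d0 : DnC S0) (d1 : DnC S1) (i0 : Invt η S0)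
    (i1 : Invt η S1) (deep : ∀ a ∈ S0, ∀ b, le1 a b → b ∈ S1) :
    ∃ g : (Fin n → ℝ) → Fin n → ℝ, Continuous g ∧ Function.Bijective g ∧
      (∀ x, g (fl η x) = fl η (g x)) ∧
      (∀ x, 1 / 2 < FF S0 (g x) ↔ x ∈ Inn S0) ∧ (∀ x, FF S0 (g x) < 1 / 2 ↔ x ∉ Nb S0) ∧
      (∀ x, 1 / 2 < FF S1 (g x) ↔ x ∈ Inn S1) ∧ (∀ x, FF S1 (g x) < 1 / 2 ↔ x ∉ Nb S1) := by
  obtain ⟨g0, c0, b0, e0, o0, p0, q0, r0⟩ := exists_push η d0 i0
  obtain ⟨g1, c1, b1, e1, o1, p1, q1, r1⟩ := exists_push η d1 i1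
  have k0 : ∀ y, FF S0 (g1 y) = FF S0 y := by
    intro y
    by_cases h : 0 < FF S1 y ∧ FF S1 y < 1
    · rw [FF_deep' d0 d1 deep h.2, FF_deep' d0 d1 deep (p1 y h).2]
    · rw [o1 y h]
  have k1 : ∀ x, (g0 x ∈ Inn S1 ↔ x ∈ Inn S1) ∧ (g0 x ∈ Nb S1 ↔ x ∈ Nb S1) := by
    intro x
    by_cases h : 0 < FF S0 x ∧ FF S0 x < 1
    · have a1 : x ∈ Inn S1 := mem_Inn_of_FF d1 (FF_deep d0 d1 deep h.1).not_lt
      have a2 : g0 x ∈ Inn S1 := mem_Inn_of_FF d1 (FF_deep d0 d1 deep (p0 x h).1).not_lt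
      exact ⟨iff_of_true a2 a1, iff_of_true (Inn_subset_Nb d1 a2) (Inn_subset_Nb d1 a1)⟩
    · rw [o0 x h]
      exact ⟨Iff.rfl, Iff.rfl⟩
  refine ⟨g1 ∘ g0, c1.comp c0, b1.comp b0, fun x => ?_, fun x => ?_, fun x => ?_, fun x => ?_,
    fun x => ?_⟩
  · simp only [Function.comp, e0, e1]
  · simp only [Function.comp, k0, q0]
  · simp only [Function.comp, k0, r0]
  · simp only [Function.comp, q1, (k1 x).1]
  · simp only [Function.comp, r1, (k1 x).2]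

theorem reg_sub (d0 : DnC S0) (d1 : DnC S1) (deep : ∀ a ∈ S0, ∀ b, le1 a b → b ∈ S1)
    {x : Fin n → ℝ} (h : FF S1 x - FF S0 x - 1 / 2 = 0) :
    fderiv ℝ (fun y => FF S1 y - FF S0 y - 1 / 2) x ≠ 0 := by
  have c0 := (FF_contDiff S0).continuous
  have c1 := (FF_contDiff S1).continuous
  by_cases h0 : 0 < FF S0 x
  · have h1 := FF_deep d0 d1 deep h0
    have e : (fun y => FF S1 y - FF S0 y - 1 / 2) =ᶠ[𝓝 x] fun y => 1 / 2 - FF S0 y := by
      filter_upwards [(isOpen_lt continuous_const c0).mem_nhds h0] with y hy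
      rw [FF_deep d0 d1 deep hy]
      ring
    rw [e.fderiv_eq, fderiv_const_sub, neg_ne_zero]
    exact FF_reg d0 h0 (by linarith)
  · have h0' : FF S0 x = 0 := le_antisymm (not_lt.1 h0) (FF_nonneg _ _)
    have h1 : FF S1 x < 1 := by linarith
    have e : (fun y => FF S1 y - FF S0 y - 1 / 2) =ᶠ[𝓝 x] fun y => FF S1 y - 1 / 2 := by
      filter_upwards [(isOpen_lt c1 continuous_const).mem_nhds h1] with y hy
      rw [FF_deep' d0 d1 deep hy]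
      ring
    rw [e.fderiv_eq, fderiv_sub_const]
    exact FF_reg d1 (by linarith) h1

end Pool.Agent.Lib.MP_5ceaf9_gt
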