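import Pool.Agent.Lib.MP_5ceaf9_gt.ABLat

/-! The cubical neighbourhood, its interior and the voxel complexes, in normal form. -/

open scoped Manifold ContDiff Topology
open Filter

noncomputable section

namespace Pool.Agent.Lib.MP_5ceaf9_gt

variable {n : ℕ}

/-- The admissible lattice points in one coordinate. -/
theorem abcar_one {m ε c : ℤ} {t : ℝ} (hε : ε = 1 ∨ ε = -1) (h0 : 0 ≤ t) (h1 : t ≤ 1) :
    |2 * (m : ℝ) + 2 * (ε : ℝ) * t - 2 * (c : ℝ)| ≤ 1 ↔
      (c = m ∧ t ≤ 1 / 2) ∨ (c = m + ε ∧ 1 / 2 ≤ t) := by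
  rw [abs_le]
  constructor
  · rintro ⟨ha, hb⟩
    rcases hε with rfl | rfl
    · push_cast at ha hb
      have h2 : c < m + 2 := by
        have : (c : ℝ) < m + 2 := by linarith
        exact_mod_cast this
      have h3 : m - 1 < c := by
        have : (m : ℝ) - 1 < c := by linarith
        exact_mod_cast this
      rcases (by omega : c = m ∨ c = m + 1) with rfl | rfl
      · exact Or.inl ⟨rfl, by linarith⟩
      · push_cast at ha hb
        exact Or.inr ⟨rfl, by linarith⟩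
    · push_cast at ha hb
      have h2 : c < m + 1 := by
        have : (c : ℝ) < m + 1 := by linarith
        exact_mod_cast this
      have h3 : m - 2 < c := by
        have : (m : ℝ) - 2 < c := by linarith
        exact_mod_cast this
      rcases (by omega : c = m ∨ c = m + -1) with rfl | rfl
      · exact Or.inl ⟨rfl, by linarith⟩
      · push_cast at ha hb
        exact Or.inr ⟨rfl, by linarith⟩
  · rintro (⟨rfl, h⟩ | ⟨rfl, h⟩) <;> rcases hε with rfl | rfl <;> push_cast <;>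
      constructor <;> linarith

theorem abcar_adm {x t : Fin n → ℝ} {m ε : Lat n} (h : NF x m ε t) (c : Lat n) (i : Fin n) :
    |x i - 2 * (c i : ℝ)| ≤ 1 ↔
      (c i = m i ∧ t i ≤ 1 / 2) ∨ (c i = m i + ε i ∧ 1 / 2 ≤ t i) := by
  rw [h.eq i]
  exact abcar_one (h.sg i) (h.t0 i) (h.t1 i)

theorem abcar_lo {x t : Fin n → ℝ} {m ε : Lat n} (h : NF x m ε t) (i : Fin n) :
    |x i - 2 * (cor m ε (fun i => 1 / 2 < t i) i : ℝ)| ≤ 1 := by
  rw [abcar_adm h]
  by_cases hi : 1 / 2 < t i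
  · exact Or.inr ⟨cor_pos (P := fun i => 1 / 2 < t i) hi, hi.le⟩
  · exact Or.inl ⟨cor_neg (P := fun i => 1 / 2 < t i) hi, not_lt.1 hi⟩

theorem abcar_hi {x t : Fin n → ℝ} {m ε : Lat n} (h : NF x m ε t) (i : Fin n) :
    |x i - 2 * (cor m ε (fun i => 1 / 2 ≤ t i) i : ℝ)| ≤ 1 := by
  rw [abcar_adm h]
  by_cases hi : 1 / 2 ≤ t i
  · exact Or.inr ⟨cor_pos (P := fun i => 1 / 2 ≤ t i) hi, hi⟩
  · exact Or.inl ⟨cor_neg (P := fun i => 1 / 2 ≤ t i) hi, (not_le.1 hi).le⟩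

theorem abcar_lo_le {x t : Fin n → ℝ} {m ε : Lat n} (h : NF x m ε t) {c : Lat n}
    (hc : ∀ i, |x i - 2 * (c i : ℝ)| ≤ 1) : le1 (cor m ε (fun i => 1 / 2 < t i)) c := by
  intro i
  have h1 := h.ev i
  have h2 := h.sg i
  have h3 := (abcar_adm h c i).1 (hc i)
  by_cases hi : 1 / 2 < t i
  · rw [cor_pos (P := fun i => 1 / 2 < t i) hi]
    rcases h3 with ⟨_, h3⟩ | ⟨h3, _⟩
    · exact absurd hi (not_lt.2 h3)
    · exact Or.inl h3.symm
  · rw [cor_neg (P := fun i => 1 / 2 < t i) hi]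
    unfold le0
    rcases h3 with ⟨h3, _⟩ | ⟨h3, _⟩ <;> omega

theorem abcar_le_hi {x t : Fin n → ℝ} {m ε : Lat n} (h : NF x m ε t) {c : Lat n}
    (hc : ∀ i, |x i - 2 * (c i : ℝ)| ≤ 1) : le1 c (cor m ε (fun i => 1 / 2 ≤ t i)) := by
  intro i
  have h1 := h.ev i
  have h2 := h.sg i
  have h3 := (abcar_adm h c i).1 (hc i)
  by_cases hi : 1 / 2 ≤ t i
  · rw [cor_pos (P := fun i => 1 / 2 ≤ t i) hi]
    unfold le0
    rcases h3 with ⟨h3, _⟩ | ⟨h3, _⟩ <;> omega
  · rw [cor_neg (P := fun i => 1 / 2 ≤ t i) hi]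
    rcases h3 with ⟨h3, _⟩ | ⟨_, h3⟩
    · exact Or.inl h3
    · exact absurd h3 hi

theorem abcar_ev (x : ℝ) :
    ∀ᶠ y in 𝓝 x, ∀ c : ℤ, |y - 2 * (c : ℝ)| ≤ 1 → |x - 2 * (c : ℝ)| ≤ 1 := by
  have h1 := Int.floor_le ((x + 1) / 2)
  have h2 := Int.lt_floor_add_one ((x + 1) / 2)
  set j := ⌊(x + 1) / 2⌋
  rcases eq_or_lt_of_le h1 with h | h
  · have hm : Set.Ioo (2 * (j : ℝ) - 3) (2 * (j : ℝ) + 1) ∈ 𝓝 x :=
      Ioo_mem_nhds (by linarith) (by linarith)
    filter_upwards [hm] with y hy c hc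
    rw [abs_le] at hc ⊢
    have h3 : c < j + 1 := by
      have : (c : ℝ) < j + 1 := by linarith [hy.2, hc.1]
      exact_mod_cast this
    have h4 : j - 2 < c := by
      have : (j : ℝ) - 2 < c := by linarith [hy.1, hc.2]
      exact_mod_cast this
    have h5 : (c : ℝ) ≤ j := by exact_mod_cast (by omega : c ≤ j)
    have h6 : (j : ℝ) - 1 ≤ c := by exact_mod_cast (by omega : j - 1 ≤ c)
    constructor <;> linarith
  · have hm : Set.Ioo (2 * (j : ℝ) - 1) (2 * (j : ℝ) + 1) ∈ 𝓝 x :=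
      Ioo_mem_nhds (by linarith) (by linarith)
    filter_upwards [hm] with y hy c hc
    rw [abs_le] at hc ⊢
    have h3 : c < j + 1 := by
      have : (c : ℝ) < j + 1 := by linarith [hy.2, hc.1]
      exact_mod_cast this
    have h4 : j - 1 < c := by
      have : (j : ℝ) - 1 < c := by linarith [hy.1, hc.2]
      exact_mod_cast this
    have h5 : (c : ℝ) = j := by exact_mod_cast (by omega : c = j)
    constructor <;> linarith

theorem abcar_fl (η : Fin n → Bool) (x : Fin n → ℝ) (c : Lat n) (i : Fin n) :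
    |fl η x i - 2 * ((fl η c i : ℤ) : ℝ)| = |x i - 2 * (c i : ℝ)| := by
  by_cases hi : η i
  · simp only [fl_apply, hi, if_true]
    rw [← abs_neg]
    congr 1
    push_cast
    ring
  · simp [fl_apply, hi]

theorem isCompact_Nb (S : Finset (Lat n)) : IsCompact (Nb S) := by
  have : Nb S = ⋃ c ∈ S, Set.pi Set.univ
      (fun i => Set.Icc (2 * (c i : ℝ) - 1) (2 * (c i : ℝ) + 1)) := by
    ext x
    simp only [Nb, Set.mem_ofPred_eq, Set.mem_iUnion, Set.mem_pi, Set.mem_univ, true_imp_iff,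
      Set.mem_Icc, exists_prop, abs_le]
    refine exists_congr fun c => and_congr_right fun _ => forall_congr' fun i => ?_
    constructor <;> rintro ⟨h1, h2⟩ <;> constructor <;> linarith
  rw [this]
  exact S.isCompact_biUnion fun c _ => isCompact_univ_pi fun i => isCompact_Icc

theorem isOpen_Inn (S : Finset (Lat n)) : IsOpen (Inn S) := by
  rw [isOpen_iff_eventually]
  intro x hx
  have h : ∀ᶠ y in 𝓝 x, ∀ i, ∀ c : ℤ, |y i - 2 * (c : ℝ)| ≤ 1 → |x i - 2 * (c : ℝ)| ≤ 1 :=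
    eventually_all.2 fun i => ((continuous_apply i).tendsto x).eventually (abcar_ev (x i))
  filter_upwards [h] with y hy c hc
  exact hx c fun i => hy i _ (hc i)

theorem abcar_Nb_fl (η : Fin n → Bool) {S : Finset (Lat n)} (h : Invt η S) {x : Fin n → ℝ}
    (hx : x ∈ Nb S) : fl η x ∈ Nb S := by
  obtain ⟨c, hc, hx⟩ := hx
  exact ⟨fl η c, h c hc, fun i => (abcar_fl η x c i).trans_le (hx i)⟩

theorem abcar_Inn_fl (η : Fin n → Bool) {S : Finset (Lat n)} (h : Invt η S) {x : Fin n → ℝ}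
    (hx : fl η x ∈ Inn S) : x ∈ Inn S := fun c hc =>
  (invt_iff h).1 (hx (fl η c) fun i => (abcar_fl η x c i).trans_le (hc i))

theorem Nb_fl (η : Fin n → Bool) {S : Finset (Lat n)} (h : Invt η S) (x : Fin n → ℝ) :
    fl η x ∈ Nb S ↔ x ∈ Nb S :=
  ⟨fun hx => by simpa only [fl_fl] using abcar_Nb_fl η h hx, abcar_Nb_fl η h⟩

theorem Inn_fl (η : Fin n → Bool) {S : Finset (Lat n)} (h : Invt η S) (x : Fin n → ℝ) :
    fl η x ∈ Inn S ↔ x ∈ Inn S :=
  ⟨abcar_Inn_fl η h, fun hx => abcar_Inn_fl η h (by rwa [fl_fl])⟩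

theorem NF.mem_Nb {x t : Fin n → ℝ} {m ε : Lat n} (h : NF x m ε t) {S : Finset (Lat n)}
    (d : DnC S) : x ∈ Nb S ↔ cor m ε (fun i => 1 / 2 < t i) ∈ S :=
  ⟨fun ⟨c, hc, hx⟩ => d c hc _ (abcar_lo_le h hx), fun hS => ⟨_, hS, abcar_lo h⟩⟩

theorem NF.mem_Inn {x t : Fin n → ℝ} {m ε : Lat n} (h : NF x m ε t) {S : Finset (Lat n)}
    (d : DnC S) : x ∈ Inn S ↔ cor m ε (fun i => 1 / 2 ≤ t i) ∈ S :=
  ⟨fun hx => hx _ (abcar_hi h), fun hS c hc => d _ hS c (abcar_le_hi h hc)⟩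

theorem abcar_cube {e : Lat n} {x : Fin n → ℝ} (hx : x ∈ cube e) (i : Fin n) {c : ℤ}
    (h0 : e i % 2 = 0 → 2 * c = e i) (h1 : 2 * c ≤ e i + 1) (h2 : e i - 1 ≤ 2 * c) :
    |x i - 2 * (c : ℝ)| ≤ 1 := by
  have h := hx i
  split_ifs at h with he
  · have : 2 * (c : ℝ) = e i := by exact_mod_cast h0 he
    rwa [this]
  · have h1' : 2 * (c : ℝ) ≤ e i + 1 := by exact_mod_cast h1
    have h2' : (e i : ℝ) - 1 ≤ 2 * c := by exact_mod_cast h2
    rw [h, abs_le]
    constructor <;> linarith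

theorem mem_vox_iff {D0 D1 V : Finset (Lat n)} (d0 : DnC D0) (d1 : DnC D1)
    (hV : ∀ e, e ∈ V ↔ cw a1 e ∈ D1 ∧ cw b1 e ∉ D0) (x : Fin n → ℝ) :
    x ∈ vox V ↔ x ∈ Nb D1 ∧ x ∉ Inn D0 := by
  constructor
  · rintro ⟨e, he, hx⟩
    obtain ⟨ha, hb⟩ := (hV e).1 he
    refine ⟨⟨_, ha, fun i => ?_⟩, fun hI => hb (hI _ fun i => ?_)⟩
    · refine abcar_cube hx i ?_ ?_ ?_ <;> simp only [cw, a1] <;> omega
    · refine abcar_cube hx i ?_ ?_ ?_ <;> simp only [cw, b1] <;> omega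
  · rintro ⟨hN, hI⟩
    obtain ⟨m, ε, t, h⟩ := exists_NF x
    rw [h.mem_Nb d1] at hN
    rw [h.mem_Inn d0] at hI
    set a := cor m ε (fun i => 1 / 2 < t i) with ha
    set b := cor m ε (fun i => 1 / 2 ≤ t i) with hb
    have key : ∀ i, a i = b i ∨ (a i = m i ∧ b i = m i + ε i ∧ t i = 1 / 2) := by
      intro i
      rcases lt_trichotomy (t i) (1 / 2) with hi | hi | hi
      · left
        rw [ha, hb, cor_neg (P := fun i => 1 / 2 < t i) (not_lt.2 hi.le),
          cor_neg (P := fun i => 1 / 2 ≤ t i) (not_le.2 hi)]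
      · right
        rw [ha, hb, cor_neg (P := fun i => 1 / 2 < t i) (not_lt.2 hi.le),
          cor_pos (P := fun i => 1 / 2 ≤ t i) hi.ge]
        exact ⟨rfl, rfl, hi⟩
      · left
        rw [ha, hb, cor_pos (P := fun i => 1 / 2 < t i) hi,
          cor_pos (P := fun i => 1 / 2 ≤ t i) hi.le]
    have e1 : cw a1 (fun i => a i + b i) = a := by
      funext i
      have h1 := h.ev i
      have h2 := h.sg i
      simp only [cw, a1]
      rcases key i with hk | ⟨hk, hk', _⟩ <;> omega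
    have e2 : cw b1 (fun i => a i + b i) = b := by
      funext i
      have h1 := h.ev i
      have h2 := h.sg i
      simp only [cw, b1]
      rcases key i with hk | ⟨hk, hk', _⟩ <;> omega
    refine ⟨fun i => a i + b i, (hV _).2 ⟨e1.symm ▸ hN, e2.symm ▸ hI⟩, fun i => ?_⟩
    have h1 := h.ev i
    have h2 := h.sg i
    rcases key i with hk | ⟨hk, hk', ht⟩
    · have h3 : (a i + b i) % 2 = 0 := by omega
      have h4 : ((a i + b i : ℤ) : ℝ) = 2 * (a i : ℝ) := by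
        rw [← hk]
        push_cast
        ring
      simp only [h3, if_true, h4]
      exact abcar_lo h i
    · have h3 : ¬ (a i + b i) % 2 = 0 := by omega
      simp only [h3, if_false]
      rw [h.eq i, hk, hk', ht]
      push_cast
      ring

end Pool.Agent.Lib.MP_5ceaf9_gt
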