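import Pool.Agent.Lib.MP_5ceaf9_gt.Lat

/-! Definitions for the smoothing of voxel complexes and for their triangulation. -/

open scoped Manifold ContDiff Topology

noncomputable section

namespace Pool.Agent.Lib.MP_5ceaf9_gt

/-- Euclidean five-space. -/
abbrev E5 : Type := EuclideanSpace ℝ (Fin 5)

/-- Euclidean four-space. -/
abbrev E4 : Type := EuclideanSpace ℝ (Fin 4)

/-- The position of a lattice point in real space. -/
def dbl {n : ℕ} (c : Lat n) : Fin n → ℝ := fun i => 2 * (c i : ℝ)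

/-- Normal form of a point: in every coordinate an even lattice point `m`, a direction `ε` and a
parameter `t` between zero and one. -/
structure NF {n : ℕ} (x : Fin n → ℝ) (m ε : Lat n) (t : Fin n → ℝ) : Prop where
  ev : ∀ i, m i % 2 = 0
  sg : ∀ i, ε i = 1 ∨ ε i = -1
  t0 : ∀ i, 0 ≤ t i
  t1 : ∀ i, t i ≤ 1
  eq : ∀ i, x i = 2 * (m i : ℝ) + 2 * (ε i : ℝ) * t i

open Classical in
/-- The corner of a box that is at the odd end in the coordinates satisfying `P`. -/
def cor {n : ℕ} (m ε : Lat n) (P : Fin n → Prop) : Lat n :=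
  fun i => if P i then m i + ε i else m i

/-- The smooth bump whose integer translates sum to one. -/
def bmp (t : ℝ) : ℝ := Real.smoothTransition (1 + t) * Real.smoothTransition (1 - t)

/-- The smooth interpolation of the indicator function of `S`. -/
def FF {n : ℕ} (S : Finset (Lat n)) (x : Fin n → ℝ) : ℝ := ∑ c ∈ S, ∏ i, bmp (x i / 2 - c i)

/-- The logistic flow of the interval from minus one to one. -/
def lg (s t : ℝ) : ℝ := Real.exp s * t / (1 - |t| + Real.exp s * |t|)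

/-- The flow of the line that fixes the even integers and moves away from the multiples of
four. -/
def ph1 (s x : ℝ) : ℝ :=
  x + 2 * (lg s (2 * Int.fract (x / 4 + 1 / 2) - 1) - (2 * Int.fract (x / 4 + 1 / 2) - 1))

/-- The product flow. -/
def flw {n : ℕ} (s : ℝ) (x : Fin n → ℝ) : Fin n → ℝ := fun i => ph1 s (x i)

/-- The union of the closed cubes around the points of `S`. -/
def Nb {n : ℕ} (S : Finset (Lat n)) : Set (Fin n → ℝ) :=
  {x | ∃ c ∈ S, ∀ i, |x i - 2 * (c i : ℝ)| ≤ 1}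

/-- The points that lie only in closed cubes around points of `S`. -/
def Inn {n : ℕ} (S : Finset (Lat n)) : Set (Fin n → ℝ) :=
  {x | ∀ c : Lat n, (∀ i, |x i - 2 * (c i : ℝ)| ≤ 1) → c ∈ S}

/-- A continuous action of the real line. -/
structure IsFlow {X : Type} [TopologicalSpace X] (φ : ℝ → X → X) : Prop where
  cont : Continuous (fun p : ℝ × X => φ p.1 p.2)
  zero : ∀ x, φ 0 x = x
  add : ∀ s s' x, φ (s + s') x = φ s (φ s' x)

/-- Every orbit in `Ω` passes from the open set `B` to the open set `A` at a single time. -/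
structure Sec {X : Type} [TopologicalSpace X] (φ : ℝ → X → X) (Ω B A : Set X) : Prop where
  oB : IsOpen B
  oA : IsOpen A
  dj : ∀ x, x ∈ B → x ∉ A
  eB : ∀ x ∈ Ω, ∃ s, φ s x ∈ B
  eA : ∀ x ∈ Ω, ∃ s, φ s x ∈ A
  st : ∀ x ∈ Ω, ∀ s, 0 < s → φ s x ∉ A → x ∈ B

/-- A smooth chart of real space in which the first coordinate has the sign of `G`. -/
structure Adp (G : (Fin 5 → ℝ) → ℝ) (Ψ : OpenPartialHomeomorph (Fin 5 → ℝ) E5) : Prop where
  sm : ContDiffOn ℝ ∞ Ψ Ψ.source
  sm' : ContDiffOn ℝ ∞ Ψ.symm Ψ.target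
  ge : ∀ y ∈ Ψ.source, 0 ≤ G y ↔ 0 ≤ Ψ y 0
  eq : ∀ y ∈ Ψ.source, G y = 0 ↔ Ψ y 0 = 0

/-- The chart `Φ` of the quotient is induced by the chart `Ψ` of real space. -/
structure Dsc (Ψ : OpenPartialHomeomorph (Fin 5 → ℝ) E5)
    (Φ : OpenPartialHomeomorph (QR η5) E5) : Prop where
  src : Φ.source = pr η5 '' Ψ.source
  tgt : Φ.target = Ψ.target
  ap : ∀ x ∈ Ψ.source, Φ (pr η5 x) = Ψ x
  sy : ∀ y, Φ.symm y = pr η5 (Ψ.symm y)

/-- The order complex of `B`, as weight functions supported on chains. -/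
def Dl {n : ℕ} (B : Finset (Lat n)) : Set (Lat n → ℝ) :=
  {u | (∀ e, 0 ≤ u e) ∧ (∀ e, e ∉ B → u e = 0) ∧
    (∀ e f, u e ≠ 0 → u f ≠ 0 → le1 e f ∨ le1 f e) ∧ ∑ e ∈ B, u e = 1}

/-- The barycentre of a weight function. -/
def bary {n : ℕ} (B : Finset (Lat n)) (u : Lat n → ℝ) : Fin n → ℝ :=
  fun i => ∑ e ∈ B, u e * (e i : ℝ)

/-- The weight function induced on the labels of the orbits. -/
def wt {n : ℕ} (η : Fin n → Bool) (B : Finset (Lat n)) (ℓ : QL η → ℕ) (u : Lat n → ℝ) : ℕ → ℝ :=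
  fun v => ∑ e ∈ B.filter (fun e => ℓ (pq η e) = v), u e

end Pool.Agent.Lib.MP_5ceaf9_gt
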