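import Pool.Agent.Lib.MP_5ceaf9_gt.ABSig

/-! Where the interpolation is zero and where it is one. -/

open scoped Manifold ContDiff Topology
open Filter

noncomputable section

namespace Pool.Agent.Lib.MP_5ceaf9_gt

variable {n : ℕ}

/-- The weight of a lattice point. -/
def abf1_W (x : Fin n → ℝ) (c : Lat n) : ℝ := ∏ i, bmp (x i / 2 - c i)

/-- The corners of a box. -/
def abf1_box (m ε : Lat n) : Finset (Lat n) := Fintype.piFinset fun i => {m i, m i + ε i}

theorem abf1_nonneg (x : Fin n → ℝ) (c : Lat n) : 0 ≤ abf1_W x c :=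
  Finset.prod_nonneg fun _ _ => bt_nonneg _

section

variable {x t : Fin n → ℝ} {m ε : Lat n} (h : NF x m ε t)
include h

theorem abf1_ne (i : Fin n) : m i + ε i ≠ m i := by
  have := h.sg i
  omega

theorem abf1_bt (i : Fin n) (c : ℤ) : bmp (x i / 2 - c) =
    if c = m i then 1 - Real.smoothTransition (t i)
    else if c = m i + ε i then Real.smoothTransition (t i) else 0 := by
  rw [h.eq i]
  exact bt_nf (h.sg i) (h.t0 i) (h.t1 i) c

theorem abf1_pos_cor {P : Fin n → Prop} (h1 : ∀ i, t i = 1 → P i) (h0 : ∀ i, P i → 0 < t i) :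
    0 < abf1_W x (cor m ε P) := by
  refine Finset.prod_pos fun i _ => ?_
  rw [abf1_bt h]
  by_cases hP : P i
  · rw [cor_pos hP, if_neg (abf1_ne h i), if_pos rfl]
    exact Real.smoothTransition.pos_of_pos (h0 i hP)
  · rw [cor_neg hP, if_pos rfl]
    exact sub_pos.2 (Real.smoothTransition.lt_one_of_lt_one
      (lt_of_le_of_ne (h.t1 i) fun e => hP (h1 i e)))

theorem abf1_cor_of_ne {c : Lat n} (hc : abf1_W x c ≠ 0) :
    ∃ P : Fin n → Prop, (∀ i, t i = 1 → P i) ∧ (∀ i, P i → 0 < t i) ∧ c = cor m ε P := by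
  have h1 : ∀ i, bmp (x i / 2 - c i) ≠ 0 := fun i =>
    Finset.prod_ne_zero_iff.1 hc i (Finset.mem_univ i)
  refine ⟨fun i => c i ≠ m i, fun i e hi => ?_, fun i hi => ?_, funext fun i => ?_⟩
  · refine h1 i ?_
    rw [abf1_bt h, if_pos hi, e, Real.smoothTransition.one, sub_self]
  · refine lt_of_le_of_ne (h.t0 i) fun e => h1 i ?_
    rw [abf1_bt h, if_neg hi, ← e, Real.smoothTransition.zero, ite_self]
  · by_cases hi : c i = m i
    · rw [cor_neg (P := fun i => c i ≠ m i) (not_not.2 hi), hi]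
    · rw [cor_pos (P := fun i => c i ≠ m i) hi]
      by_contra e
      refine h1 i ?_
      rw [abf1_bt h, if_neg hi, if_neg e]

omit h in
theorem abf1_cor_mem (P : Fin n → Prop) : cor m ε P ∈ abf1_box m ε := by
  refine Fintype.mem_piFinset.2 fun i => ?_
  by_cases hP : P i
  · rw [cor_pos hP]
    exact Finset.mem_insert_of_mem (Finset.mem_singleton_self _)
  · rw [cor_neg hP]
    exact Finset.mem_insert_self _ _

theorem abf1_sum_box : ∑ c ∈ abf1_box m ε, abf1_W x c = 1 := by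
  unfold abf1_box abf1_W
  rw [← Finset.prod_univ_sum (fun i => ({m i, m i + ε i} : Finset ℤ))
    fun i (c : ℤ) => bmp (x i / 2 - c)]
  refine Finset.prod_eq_one fun i _ => ?_
  rw [Finset.sum_pair (abf1_ne h i).symm, abf1_bt h, abf1_bt h, if_pos rfl, if_neg (abf1_ne h i),
    if_pos rfl, sub_add_cancel]

theorem abf1_split (S : Finset (Lat n)) : FF S x + ∑ c ∈ abf1_box m ε \ S, abf1_W x c = 1 := by
  have e : ∑ c ∈ abf1_box m ε ∩ S, abf1_W x c = FF S x := by
    refine Finset.sum_subset Finset.inter_subset_right fun c hc hn => ?_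
    by_contra h0
    obtain ⟨P, -, -, rfl⟩ := abf1_cor_of_ne h h0
    exact hn (Finset.mem_inter.2 ⟨abf1_cor_mem P, hc⟩)
  rw [← e, Finset.sum_inter_add_sum_sdiff, abf1_sum_box h]

end

theorem FF_le_one (S : Finset (Lat n)) (x : Fin n → ℝ) : FF S x ≤ 1 := by
  obtain ⟨m, ε, t, h⟩ := exists_NF x
  have h1 := abf1_split h S
  have h2 : 0 ≤ ∑ c ∈ abf1_box m ε \ S, abf1_W x c := Finset.sum_nonneg fun c _ => abf1_nonneg x c
  linarith

theorem NF.FF_pos_iff {x t : Fin n → ℝ} {m ε : Lat n} (h : NF x m ε t) {S : Finset (Lat n)}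
    (d : DnC S) : 0 < FF S x ↔ cor m ε (fun i => t i = 1) ∈ S := by
  constructor
  · intro h0
    obtain ⟨c, hc, hne⟩ := Finset.exists_ne_zero_of_sum_ne_zero (f := abf1_W x) h0.ne'
    obtain ⟨P, h1, -, rfl⟩ := abf1_cor_of_ne h hne
    exact h.cor_mem d h1 hc
  · intro hc
    exact Finset.sum_pos' (f := abf1_W x) (fun c _ => abf1_nonneg x c)
      ⟨_, hc, abf1_pos_cor h (fun _ e => e) fun i e => by rw [e]; exact one_pos⟩

theorem NF.FF_lt_one_iff {x t : Fin n → ℝ} {m ε : Lat n} (h : NF x m ε t) {S : Finset (Lat n)}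
    (d : DnC S) : FF S x < 1 ↔ cor m ε (fun i => 0 < t i) ∉ S := by
  have h1 := abf1_split h S
  constructor
  · intro h0 hS
    have h2 : ∑ c ∈ abf1_box m ε \ S, abf1_W x c ≠ 0 := fun e => by linarith
    obtain ⟨c, hc, hne⟩ := Finset.exists_ne_zero_of_sum_ne_zero h2
    obtain ⟨P, -, h3, rfl⟩ := abf1_cor_of_ne h hne
    exact (Finset.mem_sdiff.1 hc).2 (h.cor_mem d h3 hS)
  · intro hc
    have h2 : 0 < ∑ c ∈ abf1_box m ε \ S, abf1_W x c :=
      Finset.sum_pos' (fun c _ => abf1_nonneg x c) ⟨_, Finset.mem_sdiff.2 ⟨abf1_cor_mem _, hc⟩,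
        abf1_pos_cor h (fun i e => by rw [e]; exact one_pos) fun _ e => e⟩
    linarith

end Pool.Agent.Lib.MP_5ceaf9_gt
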