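import Pool.Agent.Lib.MP_5ceaf9_gt.ABF1

/-! The interpolation along one coordinate. -/

open scoped Manifold ContDiff Topology
open Filter

noncomputable section

namespace Pool.Agent.Lib.MP_5ceaf9_gt

variable {n : ℕ}

/-- The weight of a lattice point in the coordinates other than `i`. -/
def abf2R (x : Fin n → ℝ) (i : Fin n) (c : Lat n) : ℝ :=
  ∏ j ∈ Finset.univ.erase i, bmp (x j / 2 - c j)

theorem abf2R_nonneg (x : Fin n → ℝ) (i : Fin n) (c : Lat n) : 0 ≤ abf2R x i c :=
  Finset.prod_nonneg fun _ _ => bt_nonneg _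

theorem abf2R_update (x : Fin n → ℝ) (i : Fin n) (c : Lat n) (k : ℤ) :
    abf2R x i (Function.update c i k) = abf2R x i c :=
  Finset.prod_congr rfl fun j hj => by
    rw [Function.update_of_ne (Finset.ne_of_mem_erase hj)]

theorem abf2_FF (S : Finset (Lat n)) (x : Fin n → ℝ) (i : Fin n) (u : ℝ) :
    FF S (Function.update x i u) = ∑ c ∈ S, bmp (u / 2 - c i) * abf2R x i c := by
  refine Finset.sum_congr rfl fun c _ => ?_
  rw [← Finset.mul_prod_erase _ _ (Finset.mem_univ i), Function.update_self]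
  refine congrArg _ (Finset.prod_congr rfl fun j hj => ?_)
  rw [Function.update_of_ne (Finset.ne_of_mem_erase hj)]

theorem abf2_bt0 (m c : ℤ) : bmp (2 * (m : ℝ) / 2 - c) = if c = m then 1 else 0 := by
  have h := bt_nf (m := m) (ε := 1) (t := 0) (Or.inl rfl) le_rfl zero_le_one c
  rw [mul_zero, add_zero, Real.smoothTransition.zero, sub_zero, ite_self] at h
  exact h

theorem abf2_bt1 (m ε c : ℤ) :
    bmp ((2 * (m : ℝ) + 2 * (ε : ℝ)) / 2 - c) = if c = m + ε then 1 else 0 := by
  rw [← abf2_bt0, Int.cast_add, mul_add]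

theorem abf2_end (S : Finset (Lat n)) (x : Fin n → ℝ) (i : Fin n) (k : ℤ) :
    FF S (Function.update x i (2 * (k : ℝ))) = ∑ c ∈ S.filter (fun c => c i = k), abf2R x i c := by
  rw [abf2_FF, Finset.sum_filter]
  refine Finset.sum_congr rfl fun c _ => ?_
  rw [abf2_bt0, ite_mul, one_mul, zero_mul]

theorem abf2_img (S : Finset (Lat n)) (x : Fin n → ℝ) (i : Fin n) (m ε : ℤ) :
    FF S (Function.update x i (2 * (m : ℝ) + 2 * (ε : ℝ))) =
      ∑ c ∈ (S.filter (fun c => c i = m + ε)).image (fun c => Function.update c i m),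
        abf2R x i c := by
  rw [← mul_add, ← Int.cast_add, abf2_end, Finset.sum_image]
  · exact Finset.sum_congr rfl fun c _ => (abf2R_update x i c m).symm
  · intro c hc c' hc' e
    funext j
    by_cases hj : j = i
    · rw [hj, (Finset.mem_filter.1 hc).2, (Finset.mem_filter.1 hc').2]
    · simpa only [Function.update_of_ne hj] using congrFun e j

theorem abf2_sub {S : Finset (Lat n)} (d : DnC S) (i : Fin n) {m ε : ℤ} (ev : m % 2 = 0)
    (sg : ε = 1 ∨ ε = -1) :
    (S.filter (fun c => c i = m + ε)).image (fun c => Function.update c i m) ⊆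
      S.filter (fun c => c i = m) := by
  intro c hc
  obtain ⟨e, he, rfl⟩ := Finset.mem_image.1 hc
  obtain ⟨h1, h2⟩ := Finset.mem_filter.1 he
  refine Finset.mem_filter.2 ⟨d e h1 _ fun j => ?_, Function.update_self ..⟩
  by_cases hj : j = i
  · rw [hj, Function.update_self, h2]
    unfold le0
    omega
  · rw [Function.update_of_ne hj]
    exact Or.inl rfl

theorem abf2_lt {S : Finset (Lat n)} (d : DnC S) (x : Fin n → ℝ) (i : Fin n) {m ε : ℤ}
    (ev : m % 2 = 0) (sg : ε = 1 ∨ ε = -1) {c : Lat n} (hc : c ∈ S) (hi : c i = m)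
    (hc' : Function.update c i (m + ε) ∉ S) (hR : 0 < abf2R x i c) :
    FF S (Function.update x i (2 * (m : ℝ) + 2 * (ε : ℝ))) <
      FF S (Function.update x i (2 * (m : ℝ))) := by
  rw [abf2_img, abf2_end]
  refine Finset.sum_lt_sum_of_subset (abf2_sub d i ev sg) (Finset.mem_filter.2 ⟨hc, hi⟩)
    (fun h => hc' ?_) hR fun j _ _ => abf2R_nonneg x i j
  obtain ⟨e, he, rfl⟩ := Finset.mem_image.1 h
  obtain ⟨h1, h2⟩ := Finset.mem_filter.1 he
  rwa [Function.update_idem, ← h2, Function.update_eq_self]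

theorem abf2_step {p : ℕ → Prop} {N : ℕ} (h0 : p 0) (hN : ¬ p N) :
    ∃ k, k < N ∧ p k ∧ ¬ p (k + 1) := by
  induction N with
  | zero => exact absurd h0 hN
  | succ N ih =>
    by_cases h : p N
    · exact ⟨N, Nat.lt_succ_self N, h, hN⟩
    · obtain ⟨k, h1, h2⟩ := ih h
      exact ⟨k, h1.trans (Nat.lt_succ_self N), h2⟩

theorem abf2_pos {x t : Fin n → ℝ} {m ε : Lat n} (h : NF x m ε t) {P : Fin n → Prop}
    (hP : ∀ j, P j → 0 < t j) (hP' : ∀ j, ¬ P j → t j < 1) (i : Fin n) :
    0 < abf2R x i (cor m ε P) := by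
  refine Finset.prod_pos fun j _ => ?_
  rw [h.eq j, bt_nf (h.sg j) (h.t0 j) (h.t1 j)]
  by_cases hj : P j
  · rw [cor_pos hj, if_neg (by have := h.sg j; omega), if_pos rfl]
    exact Real.smoothTransition.pos_of_pos (hP j hj)
  · rw [cor_neg hj, if_pos rfl]
    exact sub_pos.2 (Real.smoothTransition.lt_one_of_lt_one (hP' j hj))

/-- Along one coordinate the interpolation is a convex combination of its values at the ends. -/
theorem FF_update (S : Finset (Lat n)) (x : Fin n → ℝ) (i : Fin n) {m ε : ℤ}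
    (sg : ε = 1 ∨ ε = -1) {r : ℝ} (r0 : 0 ≤ r) (r1 : r ≤ 1) :
    FF S (Function.update x i (2 * (m : ℝ) + 2 * (ε : ℝ) * r)) =
      (1 - Real.smoothTransition r) * FF S (Function.update x i (2 * (m : ℝ))) +
        Real.smoothTransition r * FF S (Function.update x i (2 * (m : ℝ) + 2 * (ε : ℝ))) := by
  rw [abf2_FF, abf2_FF, abf2_FF, Finset.mul_sum, Finset.mul_sum, ← Finset.sum_add_distrib]
  refine Finset.sum_congr rfl fun c _ => ?_
  rw [bt_nf sg r0 r1, abf2_bt0, abf2_bt1]
  by_cases h1 : c i = m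
  · rw [if_pos h1, if_pos h1, if_neg (by omega)]
    ring
  · rw [if_neg h1, if_neg h1]
    split_ifs <;> ring

/-- The value at the odd end is at most the value at the even end. -/
theorem FF_end_le {S : Finset (Lat n)} (d : DnC S) (x : Fin n → ℝ) (i : Fin n) {m ε : ℤ}
    (ev : m % 2 = 0) (sg : ε = 1 ∨ ε = -1) :
    FF S (Function.update x i (2 * (m : ℝ) + 2 * (ε : ℝ))) ≤
      FF S (Function.update x i (2 * (m : ℝ))) := by
  rw [abf2_img, abf2_end]
  exact Finset.sum_le_sum_of_subset_of_nonneg (abf2_sub d i ev sg)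
    fun j _ _ => abf2R_nonneg x i j

/-- Strictly between zero and one, some coordinate has a strict drop. -/
theorem NF.exists_gap {x t : Fin n → ℝ} {m ε : Lat n} (h : NF x m ε t) {S : Finset (Lat n)}
    (d : DnC S) (h0 : 0 < FF S x) (h1 : FF S x < 1) :
    ∃ i, 0 < t i ∧ t i < 1 ∧ FF S (Function.update x i (2 * (m i : ℝ) + 2 * (ε i : ℝ))) <
      FF S (Function.update x i (2 * (m i : ℝ))) := by
  obtain ⟨k, hk, h2, h3⟩ := abf2_step (N := n)
    (p := fun k => cor m ε (fun j => if (j : ℕ) < k then 0 < t j else t j = 1) ∈ S)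
    (by simpa using (h.FF_pos_iff d).1 h0) (by simpa using (h.FF_lt_one_iff d).1 h1)
  have hne : ∀ j : Fin n, j ≠ ⟨k, hk⟩ →
      cor m ε (fun j => if (j : ℕ) < k + 1 then 0 < t j else t j = 1) j =
        cor m ε (fun j => if (j : ℕ) < k then 0 < t j else t j = 1) j := fun j hj => by
    have h4 : (j : ℕ) < k + 1 ↔ (j : ℕ) < k := by
      have : (j : ℕ) ≠ k := fun e => hj (Fin.ext e)
      omega
    simp only [cor, h4]
    congr
  have ht : 0 < t ⟨k, hk⟩ ∧ t ⟨k, hk⟩ ≠ 1 := by
    by_contra hc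
    refine h3 ?_
    convert h2 using 1
    funext j
    by_cases hj : j = ⟨k, hk⟩
    · have h4 : 0 < t ⟨k, hk⟩ ↔ t ⟨k, hk⟩ = 1 :=
        ⟨fun h4 => not_not.1 fun h5 => hc ⟨h4, h5⟩, fun h4 => h4 ▸ one_pos⟩
      simp [hj, cor, h4]
    · exact hne j hj
  refine ⟨⟨k, hk⟩, ht.1, (h.t1 _).lt_of_ne ht.2,
    abf2_lt d x _ (h.ev _) (h.sg _) h2 (cor_neg (by simpa using ht.2)) (fun h4 => h3 ?_)
      (abf2_pos h (fun j hj => ?_) (fun j hj => ?_) _)⟩
  · convert h4 using 1
    funext j
    by_cases hj : j = ⟨k, hk⟩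
    · rw [hj, Function.update_self]
      exact cor_pos (by simpa using ht.1)
    · rw [Function.update_of_ne hj, hne j hj]
  · split_ifs at hj
    · exact hj
    · exact hj ▸ one_pos
  · split_ifs at hj
    · exact (not_lt.1 hj).trans_lt one_pos
    · exact (h.t1 j).lt_of_ne hj

end Pool.Agent.Lib.MP_5ceaf9_gt
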