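import Pool.Agent.Lib.MP_5ceaf9_gt.ABF2

/-! Monotonicity and regularity of the interpolation. -/

open scoped Manifold ContDiff Topology
open Filter

noncomputable section

namespace Pool.Agent.Lib.MP_5ceaf9_gt

variable {n : ℕ}

theorem abf3_sig_mono {r r' : ℝ} (h0 : 0 ≤ r) (h : r ≤ r') (h1 : r' ≤ 1) :
    Real.smoothTransition r ≤ Real.smoothTransition r' := by
  rcases h.eq_or_lt with rfl | h'
  · exact le_rfl
  · exact (sig_strict h0 h' h1).le

theorem abf3_step {S : Finset (Lat n)} (d : DnC S) (y : Fin n → ℝ) (i : Fin n) {m ε : ℤ}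
    (ev : m % 2 = 0) (sg : ε = 1 ∨ ε = -1) {r r' : ℝ} (h0 : 0 ≤ r) (h : r ≤ r') (h1 : r' ≤ 1) :
    FF S (Function.update y i (2 * (m : ℝ) + 2 * (ε : ℝ) * r')) ≤
      FF S (Function.update y i (2 * (m : ℝ) + 2 * (ε : ℝ) * r)) := by
  rw [FF_update S y i sg h0 (h.trans h1), FF_update S y i sg (h0.trans h) h1]
  have h2 := FF_end_le d y i ev sg
  have h3 := abf3_sig_mono h0 h h1
  nlinarith [mul_nonneg (sub_nonneg.2 h2) (sub_nonneg.2 h3)]

theorem abf3_update {x t : Fin n → ℝ} {m ε : Lat n} (h : NF x m ε t) (i : Fin n) {r : ℝ}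
    (h0 : 0 ≤ r) (h1 : r ≤ 1) :
    NF (Function.update x i (2 * (m i : ℝ) + 2 * (ε i : ℝ) * r)) m ε (Function.update t i r) := by
  refine ⟨h.ev, h.sg, fun j => ?_, fun j => ?_, fun j => ?_⟩
  · by_cases hj : j = i
    · rw [hj, Function.update_self]
      exact h0
    · rw [Function.update_of_ne hj]
      exact h.t0 j
  · by_cases hj : j = i
    · rw [hj, Function.update_self]
      exact h1
    · rw [Function.update_of_ne hj]
      exact h.t1 j
  · by_cases hj : j = i
    · rw [hj, Function.update_self, Function.update_self]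
    · rw [Function.update_of_ne hj, Function.update_of_ne hj]
      exact h.eq j

theorem NF.FF_anti {x x' t t' : Fin n → ℝ} {m ε : Lat n} (h : NF x m ε t) (h' : NF x' m ε t')
    {S : Finset (Lat n)} (d : DnC S) (ht : ∀ i, t i ≤ t' i) : FF S x' ≤ FF S x := by
  have key : ∀ s : Finset (Fin n), FF S (fun i => if i ∈ s then x' i else x i) ≤ FF S x := by
    intro s
    induction s using Finset.induction_on with
    | empty => simp
    | insert i s hi ih =>
      have e1 : (fun j => if j ∈ insert i s then x' j else x j) =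
          Function.update (fun j => if j ∈ s then x' j else x j) i
            (2 * (m i : ℝ) + 2 * (ε i : ℝ) * t' i) := by
        funext j
        by_cases hj : j = i
        · rw [hj, Function.update_self, if_pos (Finset.mem_insert_self i s), h'.eq i]
        · rw [Function.update_of_ne hj]
          simp [hj]
      have e2 : (fun j => if j ∈ s then x' j else x j) =
          Function.update (fun j => if j ∈ s then x' j else x j) i
            (2 * (m i : ℝ) + 2 * (ε i : ℝ) * t i) := by
        funext j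
        by_cases hj : j = i
        · rw [hj, Function.update_self, if_neg hi, h.eq i]
        · rw [Function.update_of_ne hj]
      rw [e1]
      refine le_trans (abf3_step d _ i (h.ev i) (h.sg i) (h.t0 i) (ht i) (h'.t1 i)) ?_
      rw [← e2]
      exact ih
  simpa using key Finset.univ

theorem NF.FF_strict {x x' t t' : Fin n → ℝ} {m ε : Lat n} (h : NF x m ε t) (h' : NF x' m ε t')
    {S : Finset (Lat n)} (d : DnC S) (ht : ∀ i, t i ≤ t' i)
    (hs : ∀ i, 0 < t i → t i < 1 → t i < t' i) (h0 : 0 < FF S x) (h1 : FF S x < 1) :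
    FF S x' < FF S x := by
  obtain ⟨i, hi0, hi1, hg⟩ := h.exists_gap d h0 h1
  have hy := abf3_update h i (h'.t0 i) (h'.t1 i)
  have h2 := hy.FF_anti h' d fun j => by
    by_cases hj : j = i
    · rw [hj, Function.update_self]
    · rw [Function.update_of_ne hj]
      exact ht j
  refine lt_of_le_of_lt h2 ?_
  have e : x = Function.update x i (2 * (m i : ℝ) + 2 * (ε i : ℝ) * t i) := by
    rw [← h.eq i, Function.update_eq_self]
  have e2 : FF S x = FF S (Function.update x i (2 * (m i : ℝ) + 2 * (ε i : ℝ) * t i)) := by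
    rw [← e]
  rw [e2, FF_update S x i (h.sg i) (h.t0 i) (h.t1 i), FF_update S x i (h.sg i) (h'.t0 i) (h'.t1 i)]
  have h3 := sig_strict (h.t0 i) (hs i hi0 hi1) (h'.t1 i)
  nlinarith [mul_pos (sub_pos.2 hg) (sub_pos.2 h3)]

theorem FF_reg {S : Finset (Lat n)} (d : DnC S) {x : Fin n → ℝ} (h0 : 0 < FF S x)
    (h1 : FF S x < 1) : fderiv ℝ (FF S) x ≠ 0 := by
  intro hz
  obtain ⟨m, ε, t, h⟩ := exists_NF x
  obtain ⟨i, hi0, hi1, hg⟩ := h.exists_gap d h0 h1
  obtain ⟨δ, hδ, hd⟩ := sig_deriv_pos hi0 hi1
  set A := FF S (Function.update x i (2 * (m i : ℝ)))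
  set B := FF S (Function.update x i (2 * (m i : ℝ) + 2 * (ε i : ℝ)))
  let γ : ℝ → Fin n → ℝ := fun r => Function.update x i (2 * (m i : ℝ) + 2 * (ε i : ℝ) * r)
  have e : γ (t i) = x := by
    change Function.update x i _ = x
    rw [← h.eq i, Function.update_eq_self]
  have hγ : DifferentiableAt ℝ γ (t i) := by
    refine differentiableAt_pi.2 fun j => ?_
    by_cases hj : j = i
    · subst hj
      simp only [γ, Function.update_self]
      fun_prop
    · simp only [γ, Function.update_of_ne hj]
      fun_prop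
  have hF : HasFDerivAt (FF S) (0 : (Fin n → ℝ) →L[ℝ] ℝ) (γ (t i)) := by
    rw [e, ← hz]
    exact ((FF_contDiff S).differentiable (by simp) x).hasFDerivAt
  have h2 : HasDerivAt (FF S ∘ γ) 0 (t i) := by
    simpa using hF.comp_hasDerivAt (t i) hγ.hasDerivAt
  have h3 : HasDerivAt (fun r => (1 - Real.smoothTransition r) * A + Real.smoothTransition r * B)
      ((0 - δ) * A + δ * B) (t i) :=
    (((hasDerivAt_const _ _).sub hd).mul_const A).add (hd.mul_const B)
  have h4 : (FF S ∘ γ) =ᶠ[𝓝 (t i)]
      fun r => (1 - Real.smoothTransition r) * A + Real.smoothTransition r * B := by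
    filter_upwards [Ioo_mem_nhds hi0 hi1] with r hr
    exact FF_update S x i (h.sg i) hr.1.le hr.2.le
  have h5 := h2.unique (h3.congr_of_eventuallyEq h4)
  nlinarith [mul_pos hδ (sub_pos.2 hg)]

end Pool.Agent.Lib.MP_5ceaf9_gt
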