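import Pool.Agent.Lib.MP_5ceaf9_gt.ABLat

/-! The logistic flow and the product flow. -/

open scoped Manifold ContDiff Topology
open Filter

noncomputable section

namespace Pool.Agent.Lib.MP_5ceaf9_gt

variable {n : ℕ}

theorem abflow_den (s : ℝ) {t : ℝ} (h0 : 0 ≤ t) (h1 : t ≤ 1) : 0 < 1 - t + Real.exp s * t := by
  rcases h0.eq_or_lt with rfl | h
  · simp
  · linarith [mul_pos (Real.exp_pos s) h]

theorem abflow_lg (s : ℝ) {t : ℝ} (h0 : 0 ≤ t) :
    lg s t = Real.exp s * t / (1 - t + Real.exp s * t) := by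
  rw [lg, abs_of_nonneg h0]

theorem abflow_neg (s t : ℝ) : lg s (-t) = -lg s t := by
  rw [lg, lg, abs_neg, mul_neg, neg_div]

theorem abflow_one (s : ℝ) : lg s 1 = 1 := by
  simp [lg]

theorem lg_nonneg {s t : ℝ} (h0 : 0 ≤ t) (h1 : t ≤ 1) : 0 ≤ lg s t := by
  rw [abflow_lg s h0]
  exact div_nonneg (by positivity) (abflow_den s h0 h1).le

theorem lg_le_one {s t : ℝ} (h0 : 0 ≤ t) (h1 : t ≤ 1) : lg s t ≤ 1 := by
  rw [abflow_lg s h0, div_le_one (abflow_den s h0 h1)]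
  linarith

theorem lg_pos_iff {s t : ℝ} (h0 : 0 ≤ t) (h1 : t ≤ 1) : 0 < lg s t ↔ 0 < t := by
  rw [abflow_lg s h0, div_pos_iff_of_pos_right (abflow_den s h0 h1),
    mul_pos_iff_of_pos_left (Real.exp_pos s)]

theorem lg_eq_one_iff {s t : ℝ} (h0 : 0 ≤ t) (h1 : t ≤ 1) : lg s t = 1 ↔ t = 1 := by
  rw [abflow_lg s h0, div_eq_one_iff_eq (abflow_den s h0 h1).ne']
  constructor <;> intro h <;> linarith

theorem le_lg {s t : ℝ} (hs : 0 < s) (h0 : 0 ≤ t) (h1 : t ≤ 1) : t ≤ lg s t := by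
  have h := Real.add_one_le_exp s
  rw [abflow_lg s h0, le_div_iff₀ (abflow_den s h0 h1)]
  nlinarith [mul_nonneg (mul_nonneg h0 (sub_nonneg.2 h1)) (by linarith : 0 ≤ Real.exp s - 1)]

theorem lt_lg {s t : ℝ} (hs : 0 < s) (h0 : 0 < t) (h1 : t < 1) : t < lg s t := by
  have h := Real.add_one_le_exp s
  rw [abflow_lg s h0.le, lt_div_iff₀ (abflow_den s h0.le h1.le)]
  nlinarith [mul_pos (mul_pos h0 (sub_pos.2 h1)) (by linarith : 0 < Real.exp s - 1)]

theorem abflow_add (s s' : ℝ) {t : ℝ} (h0 : 0 ≤ t) (h1 : t ≤ 1) :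
    lg s (lg s' t) = lg (s + s') t := by
  have e1 := (abflow_den s' h0 h1).ne'
  have e2 := (abflow_den (s + s') h0 h1).ne'
  have e3 := (abflow_den s (lg_nonneg (s := s') h0 h1) (lg_le_one h0 h1)).ne'
  rw [abflow_lg s (lg_nonneg h0 h1), abflow_lg (s + s') h0, div_eq_div_iff e3 e2, abflow_lg s' h0,
    Real.exp_add]
  field_simp
  ring

theorem abflow_ph (s : ℝ) (k : ℤ) {u : ℝ} (h0 : -1 ≤ u) (h1 : u ≤ 1) :
    ph1 s (4 * k + 2 * u) = 4 * k + 2 * lg s u := by
  rcases h1.eq_or_lt with rfl | h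
  · have e : (4 * (k : ℝ) + 2 * 1) / 4 + 1 / 2 = ((k + 1 : ℤ) : ℝ) := by
      push_cast
      ring
    rw [ph1, e, Int.fract_intCast, mul_zero, zero_sub, abflow_neg, abflow_one]
    ring
  · have e : (4 * (k : ℝ) + 2 * u) / 4 + 1 / 2 = k + (u + 1) / 2 := by ring
    have e' : 2 * ((u + 1) / 2) - 1 = u := by ring
    rw [ph1, e, Int.fract_intCast_add, Int.fract_eq_self.2 ⟨by linarith, by linarith⟩, e']
    ring

theorem abflow_nf (s : ℝ) {m ε : ℤ} {t : ℝ} (hm : m % 2 = 0) (hε : ε = 1 ∨ ε = -1) (h0 : 0 ≤ t)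
    (h1 : t ≤ 1) : ph1 s (2 * m + 2 * ε * t) = 2 * m + 2 * ε * lg s t := by
  obtain ⟨k, rfl⟩ : ∃ k, m = 2 * k := ⟨m / 2, by omega⟩
  rcases hε with rfl | rfl
  · have h := abflow_ph s k (by linarith : -1 ≤ t) h1
    push_cast
    convert h using 2 <;> ring
  · have h := abflow_ph s k (by linarith : -1 ≤ -t) (by linarith)
    rw [abflow_neg] at h
    push_cast
    convert h using 2 <;> ring

theorem abflow_cont : Continuous fun p : ℝ × ℝ => ph1 p.1 p.2 := by
  have h : Continuous fun p : ℝ × ℝ =>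
      lg p.1 (2 * Int.fract p.2 - 1) - (2 * Int.fract p.2 - 1) := by
    refine ContinuousOn.comp_fract' (f := fun s u : ℝ => lg s (2 * u - 1) - (2 * u - 1)) ?_
      fun s => ?_
    · refine ContinuousOn.sub (f := fun p : ℝ × ℝ => lg p.1 (2 * p.2 - 1)) ?_ (by fun_prop)
      refine ContinuousOn.div (by fun_prop) (by fun_prop) fun p hp => ?_
      exact (abflow_den _ (abs_nonneg _)
        (abs_le.2 ⟨by linarith [hp.2.1], by linarith [hp.2.2]⟩)).ne'
    · rw [mul_zero, zero_sub, abflow_neg, show (2 : ℝ) * 1 - 1 = 1 by norm_num, abflow_one]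
      ring
  exact continuous_snd.add (continuous_const.mul
    (h.comp (f := fun p : ℝ × ℝ => (p.1, p.2 / 4 + 1 / 2)) (by fun_prop)))

theorem NF.flw {x t : Fin n → ℝ} {m ε : Lat n} (h : NF x m ε t) (s : ℝ) :
    NF (flw s x) m ε (fun i => lg s (t i)) := by
  refine ⟨h.ev, h.sg, fun i => lg_nonneg (h.t0 i) (h.t1 i), fun i => lg_le_one (h.t0 i) (h.t1 i),
    fun i => ?_⟩
  rw [MP_5ceaf9_gt.flw, h.eq i, abflow_nf s (h.ev i) (h.sg i) (h.t0 i) (h.t1 i)]

theorem isFlow_ph : IsFlow (flw : ℝ → (Fin n → ℝ) → Fin n → ℝ) := by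
  refine ⟨continuous_pi fun i => abflow_cont.comp
    (f := fun p : ℝ × (Fin n → ℝ) => (p.1, p.2 i)) (by fun_prop), fun x => ?_, fun s s' x => ?_⟩
  · funext i
    simp [flw, ph1, lg]
  · obtain ⟨m, ε, t, h⟩ := exists_NF x
    funext i
    rw [(h.flw (s + s')).eq, ((h.flw s').flw s).eq, abflow_add s s' (h.t0 i) (h.t1 i)]

theorem ph_fl (η : Fin n → Bool) (s : ℝ) (x : Fin n → ℝ) : flw s (fl η x) = fl η (flw s x) := by
  funext i
  by_cases hi : η i
  · obtain ⟨m, ε, t, h1, h2, h3, h4, h5⟩ := exists_NF1 (x i)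
    have h := abflow_nf s (m := -m) (ε := -ε) (by omega) (by omega) h3 h4
    simp only [flw, fl_apply, hi, if_true]
    rw [h5, abflow_nf s h1 h2 h3 h4]
    push_cast at h
    convert h using 2 <;> ring
  · simp [flw, fl_apply, hi]

theorem NF.tendsto_top {x t : Fin n → ℝ} {m ε : Lat n} (h : NF x m ε t) :
    Tendsto (fun s => MP_5ceaf9_gt.flw s x) atTop (𝓝 (dbl (cor m ε (fun i => 0 < t i)))) := by
  refine tendsto_pi_nhds.2 fun i => ?_
  simp only [fun s => (h.flw s).eq i, dbl]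
  by_cases hi : 0 < t i
  · have e : ∀ s, lg s (t i) = t i / ((1 - t i) * Real.exp (-s) + t i) := fun s => by
      rw [abflow_lg s hi.le, Real.exp_neg]
      field_simp
    have h1 := (tendsto_const_nhds (x := t i)).div
      ((Real.tendsto_exp_neg_atTop_nhds_zero.const_mul (1 - t i)).add_const (t i)) (by
        rw [mul_zero, zero_add]
        exact hi.ne')
    rw [mul_zero, zero_add, div_self hi.ne'] at h1
    rw [cor_pos (P := fun i => 0 < t i) hi, Int.cast_add, mul_add, ← mul_one (2 * (ε i : ℝ))]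
    simp only [e, mul_one]
    simpa using (h1.const_mul (2 * (ε i : ℝ))).const_add (2 * (m i : ℝ))
  · rw [cor_neg (P := fun i => 0 < t i) hi, le_antisymm (not_lt.1 hi) (h.t0 i)]
    simp [lg]

theorem NF.tendsto_bot {x t : Fin n → ℝ} {m ε : Lat n} (h : NF x m ε t) :
    Tendsto (fun s => MP_5ceaf9_gt.flw s x) atBot (𝓝 (dbl (cor m ε (fun i => t i = 1)))) := by
  refine tendsto_pi_nhds.2 fun i => ?_
  simp only [fun s => (h.flw s).eq i, dbl]
  by_cases hi : t i = 1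
  · rw [cor_pos (P := fun i => t i = 1) hi, hi]
    simp [abflow_one, mul_add]
  · have h0 := Real.tendsto_exp_atBot.mul_const (t i)
    have h1 := h0.div (h0.const_add (1 - t i)) (by
      rw [zero_mul, add_zero]
      exact sub_ne_zero.2 (Ne.symm hi))
    rw [cor_neg (P := fun i => t i = 1) hi]
    simp only [fun s => abflow_lg s (h.t0 i)]
    simpa using (h1.const_mul (2 * (ε i : ℝ))).const_add (2 * (m i : ℝ))

end Pool.Agent.Lib.MP_5ceaf9_gt
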