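import Pool.Agent.Lib.MP_5ceaf9_gt.ABDefs

/-! Elementary facts on the lattice order, corners and normal forms. -/

noncomputable section

namespace Pool.Agent.Lib.MP_5ceaf9_gt

variable {n : ℕ}

theorem le1_refl (a : Lat n) : le1 a a := fun _ => Or.inl rfl

theorem le0_trans {a b c : ℤ} (h : le0 a b) (h' : le0 b c) : le0 a c := by
  unfold le0 at *
  omega

theorem le1_trans {a b c : Lat n} (h : le1 a b) (h' : le1 b c) : le1 a c :=
  fun i => le0_trans (h i) (h' i)

theorem fl_apply {A : Type} [Neg A] (η : Fin n → Bool) (x : Fin n → A) (i : Fin n) :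
    fl η x i = if η i then -x i else x i := rfl

theorem le1_fl (η : Fin n → Bool) {a b : Lat n} (h : le1 a b) : le1 (fl η a) (fl η b) := by
  intro i
  have := h i
  by_cases hi : η i
  · simp only [fl_apply, hi, if_true]
    unfold le0 at *
    omega
  · simpa [fl_apply, hi] using this

theorem le1_fl_iff (η : Fin n → Bool) {a b : Lat n} : le1 (fl η a) (fl η b) ↔ le1 a b :=
  ⟨fun h => by simpa only [fl_fl] using le1_fl η h, le1_fl η⟩

/-- A point below both `b` and its flip is fixed. -/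
theorem fl_eq_of_le1 (η : Fin n → Bool) {a b : Lat n} (h : le1 a b) (h' : le1 (fl η a) b) :
    fl η a = a := by
  funext i
  have h1 := h i
  have h2 := h' i
  by_cases hi : η i
  · simp only [fl_apply, hi, if_true] at h2 ⊢
    unfold le0 at *
    omega
  · simp [fl_apply, hi]

theorem invt_iff {η : Fin n → Bool} {B : Finset (Lat n)} (h : Invt η B) {a : Lat n} :
    fl η a ∈ B ↔ a ∈ B :=
  ⟨fun h' => by simpa only [fl_fl] using h _ h', h a⟩

theorem dimE_fl (η : Fin n → Bool) (a : Lat n) : dimE (fl η a) = dimE a := by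
  unfold dimE
  congr 1
  refine Finset.filter_congr fun i _ => ?_
  by_cases hi : η i
  · simp only [fl_apply, hi, if_true]
    omega
  · simp [fl_apply, hi]

theorem even_subset_of_le1 {a b : Lat n} (h : le1 a b) :
    Finset.univ.filter (fun j => b j % 2 = 0) ⊆ Finset.univ.filter (fun j => a j % 2 = 0) := by
  intro i hi
  simp only [Finset.mem_filter, Finset.mem_univ, true_and] at hi ⊢
  have := h i
  unfold le0 at this
  omega

theorem dimE_anti {a b : Lat n} (h : le1 a b) : dimE b ≤ dimE a :=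
  Finset.card_le_card (even_subset_of_le1 h)

theorem eq_of_le1_of_dimE {a b : Lat n} (h : le1 a b) (hd : dimE a ≤ dimE b) : a = b := by
  have he := Finset.eq_of_subset_of_card_le (even_subset_of_le1 h) hd
  funext i
  have h1 := h i
  have h2 : i ∈ Finset.univ.filter (fun j => b j % 2 = 0) ↔
      i ∈ Finset.univ.filter (fun j => a j % 2 = 0) := by rw [he]
  simp only [Finset.mem_filter, Finset.mem_univ, true_and] at h2
  unfold le0 at h1
  omega

theorem le1_antisymm {a b : Lat n} (h : le1 a b) (h' : le1 b a) : a = b :=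
  eq_of_le1_of_dimE h (dimE_anti h')

/-- A finite nonempty chain has a least element. -/
theorem exists_least {C : Finset (Lat n)} (hne : C.Nonempty)
    (hc : ∀ a ∈ C, ∀ b ∈ C, le1 a b ∨ le1 b a) : ∃ m ∈ C, ∀ a ∈ C, le1 m a := by
  obtain ⟨m, hm, hmax⟩ := C.exists_max_image dimE hne
  refine ⟨m, hm, fun a ha => ?_⟩
  rcases hc m hm a ha with h | h
  · exact h
  · rw [eq_of_le1_of_dimE h (hmax a ha)]
    exact le1_refl _

theorem pq_eq_iff (η : Fin n → Bool) {a b : Lat n} : pq η a = pq η b ↔ b = a ∨ b = fl η a :=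
  Quotient.eq

theorem pq_fl (η : Fin n → Bool) (a : Lat n) : pq η (fl η a) = pq η a :=
  ((pq_eq_iff η).2 (Or.inr rfl)).symm

theorem pq_out (η : Fin n → Bool) (x : QL η) : pq η x.out = x := Quotient.out_eq x

/-- The order of the quotient, read on arbitrary representatives. -/
theorem lq_pq (η : Fin n → Bool) {a b : Lat n} :
    lq η (pq η a) (pq η b) ↔ le1 a b ∨ le1 (fl η a) b := by
  have ha := (pq_eq_iff η).1 (pq_out η (pq η a)).symm
  have hb := (pq_eq_iff η).1 (pq_out η (pq η b)).symm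
  have key : le1 a (fl η b) ↔ le1 (fl η a) b := by
    rw [← le1_fl_iff η, fl_fl]
  unfold lq
  rcases ha with ha | ha <;> rcases hb with hb | hb <;> rw [ha, hb]
  · rw [le1_fl_iff, key, or_comm]
  · rw [fl_fl, or_comm]
  · rw [fl_fl, le1_fl_iff, key]

theorem cor_pos {m ε : Lat n} {P : Fin n → Prop} {i : Fin n} (h : P i) :
    cor m ε P i = m i + ε i := by simp [cor, h]

theorem cor_neg {m ε : Lat n} {P : Fin n → Prop} {i : Fin n} (h : ¬ P i) :
    cor m ε P i = m i := by simp [cor, h]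

theorem NF.cor_mono {x t : Fin n → ℝ} {m ε : Lat n} (h : NF x m ε t) {P Q : Fin n → Prop}
    (hPQ : ∀ i, P i → Q i) : le1 (cor m ε P) (cor m ε Q) := by
  intro i
  have h1 := h.ev i
  have h2 := h.sg i
  by_cases hP : P i
  · rw [cor_pos hP, cor_pos (hPQ i hP)]
    exact Or.inl rfl
  · by_cases hQ : Q i
    · rw [cor_neg hP, cor_pos hQ]
      unfold le0
      omega
    · rw [cor_neg hP, cor_neg hQ]
      exact Or.inl rfl

theorem NF.cor_mem {x t : Fin n → ℝ} {m ε : Lat n} (h : NF x m ε t) {S : Finset (Lat n)}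
    (d : DnC S) {P Q : Fin n → Prop} (hPQ : ∀ i, P i → Q i) (hQ : cor m ε Q ∈ S) :
    cor m ε P ∈ S :=
  d _ hQ _ (h.cor_mono hPQ)

theorem exists_NF1 (x : ℝ) : ∃ (m ε : ℤ) (t : ℝ), m % 2 = 0 ∧ (ε = 1 ∨ ε = -1) ∧ 0 ≤ t ∧ t ≤ 1 ∧
    x = 2 * (m : ℝ) + 2 * (ε : ℝ) * t := by
  have h1 := Int.floor_le (x / 4 + 1 / 2)
  have h2 := Int.lt_floor_add_one (x / 4 + 1 / 2)
  set k := ⌊x / 4 + 1 / 2⌋
  rcases le_total 0 (x - 4 * k) with h | h
  · refine ⟨2 * k, 1, (x - 4 * k) / 2, by omega, Or.inl rfl, by linarith, by linarith, ?_⟩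
    push_cast
    ring
  · refine ⟨2 * k, -1, -(x - 4 * k) / 2, by omega, Or.inr rfl, by linarith, by linarith, ?_⟩
    push_cast
    ring

theorem exists_NF (x : Fin n → ℝ) : ∃ m ε t, NF x m ε t := by
  choose m ε t h1 h2 h3 h4 h5 using fun i => exists_NF1 (x i)
  exact ⟨m, ε, t, h1, h2, h3, h4, h5⟩

end Pool.Agent.Lib.MP_5ceaf9_gt
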