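import Pool.Agent.Lib.MP_5ceaf9_gt.ABDefs

/-! Moving one section of a flow onto another one. -/

open scoped Manifold ContDiff Topology
open Filter

noncomputable section

namespace Pool.Agent.Lib.MP_5ceaf9_gt

variable {X : Type} [TopologicalSpace X] {φ : ℝ → X → X}

/-- The crossing time is continuous. -/
theorem exists_time (hφ : IsFlow φ) {Ω B A : Set X} (oΩ : IsOpen Ω)
    (inv : ∀ x ∈ Ω, ∀ s, φ s x ∈ Ω) (h : Sec φ Ω B A) :
    ∃ τ : X → ℝ, ContinuousOn τ Ω ∧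
      ∀ x ∈ Ω, ∀ s, (φ s x ∈ B ↔ s < τ x) ∧ (φ s x ∈ A ↔ τ x < s) := by
  have dn : ∀ x ∈ Ω, ∀ s s', s < s' → φ s' x ∉ A → φ s x ∈ B := fun x hx s s' h1 h2 =>
    h.st _ (inv x hx s) (s' - s) (sub_pos.2 h1) (by rwa [← hφ.add, sub_add_cancel])
  have c1 : ∀ x, Continuous fun s => φ s x := fun x => hφ.cont.comp (Continuous.prodMk_left x)
  have c2 : ∀ s, Continuous (φ s) := fun s => hφ.cont.comp (Continuous.prodMk_right s)
  have key : ∀ x ∈ Ω, ∀ s, (φ s x ∈ B ↔ s < sSup {s | φ s x ∈ B}) ∧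
      (φ s x ∈ A ↔ sSup {s | φ s x ∈ B} < s) := fun x hx => by
    obtain ⟨a, ha⟩ := h.eA x hx
    have bd : BddAbove {s | φ s x ∈ B} := ⟨a, fun s hs => not_lt.1 fun e =>
      h.dj _ (dn x hx a s e (h.dj _ hs)) ha⟩
    have k1 : ∀ s, φ s x ∈ B ↔ s < sSup {s | φ s x ∈ B} := fun s => by
      refine ⟨fun hs => ?_, fun hs => ?_⟩
      · obtain ⟨s', e1, e2⟩ := Filter.Eventually.exists_gt
          ((c1 x).continuousAt.eventually (h.oB.mem_nhds hs))
        exact e1.trans_le (le_csSup bd e2)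
      · obtain ⟨s', e1, e2⟩ := exists_lt_of_lt_csSup (h.eB x hx) hs
        exact dn x hx s s' e2 (h.dj _ e1)
    refine fun s => ⟨k1 s, fun hs => ?_, fun hs => by_contra fun e => ?_⟩
    · obtain ⟨s', e1, e2⟩ := Filter.Eventually.exists_lt
        ((c1 x).continuousAt.eventually (h.oA.mem_nhds hs))
      exact (not_lt.1 fun e => h.dj _ ((k1 s').2 e) e2).trans_lt e1
    · exact lt_irrefl _ ((k1 _).1 (dn x hx _ s hs e))
  refine ⟨fun x => sSup {s | φ s x ∈ B}, fun x hx => tendsto_order.2 ⟨fun c hc => ?_, fun c hc => ?_⟩,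
    key⟩
  · filter_upwards [self_mem_nhdsWithin, mem_nhdsWithin_of_mem_nhds
      ((c2 c).continuousAt.eventually (h.oB.mem_nhds ((key x hx c).1.2 hc)))] with y h1 h2
    exact (key y h1 c).1.1 h2
  · filter_upwards [self_mem_nhdsWithin, mem_nhdsWithin_of_mem_nhds
      ((c2 c).continuousAt.eventually (h.oA.mem_nhds ((key x hx c).2.2 hc)))] with y h1 h2
    exact (key y h1 c).2.1 h2

theorem abmove_lip {D a : ℝ} (hD : 0 < D) (ha : |a| ≤ D) (u v : ℝ) :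
    |a * max (1 - |u| / (2 * D)) 0 - a * max (1 - |v| / (2 * D)) 0| ≤ |u - v| / 2 := by
  have h1 := abs_max_sub_max_le_abs (1 - |u| / (2 * D)) (1 - |v| / (2 * D)) 0
  rw [sub_sub_sub_cancel_left, ← sub_div, abs_div, abs_of_pos (by positivity : 0 < 2 * D)] at h1
  have h2 := abs_abs_sub_abs_le_abs_sub v u
  rw [← mul_sub, abs_mul, abs_sub_comm u v]
  calc _ ≤ D * (|v - u| / (2 * D)) := by
        gcongr
        exact h1.trans (by gcongr)
    _ = _ := by field_simp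

/-- A continuous bijection supported in `Ω` that moves one section onto another one and commutes
with a symmetry `ι`. -/
theorem exists_move [T2Space X] (hφ : IsFlow φ) {Ω B A B' A' : Set X} (oΩ : IsOpen Ω)
    (inv : ∀ x ∈ Ω, ∀ s, φ s x ∈ Ω) (h : Sec φ Ω B A) (h' : Sec φ Ω B' A')
    (cp : IsCompact {x | x ∈ Ω ∧ x ∉ B' ∧ x ∉ A'}) (ι : X → X)
    (hι : ∀ s x, φ s (ι x) = ι (φ s x)) (iΩ : ∀ x, ι x ∈ Ω ↔ x ∈ Ω)
    (iB : ∀ x, ι x ∈ B ↔ x ∈ B) (iB' : ∀ x, ι x ∈ B' ↔ x ∈ B') :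
    ∃ g : X → X, Continuous g ∧ Function.Bijective g ∧ (∀ x, g (ι x) = ι (g x)) ∧
      (∀ x, x ∉ Ω → g x = x) ∧
      ∀ x ∈ Ω, g x ∈ Ω ∧ (g x ∈ B ↔ x ∈ B') ∧ (g x ∈ A ↔ x ∈ A') := by
  classical
  obtain ⟨τ, c1, t1⟩ := exists_time hφ oΩ inv h
  obtain ⟨τ', c2, t2⟩ := exists_time hφ oΩ inv h'
  have s1 : ∀ x ∈ Ω, ∀ r, τ (φ r x) = τ x - r := fun x hx r => eq_of_forall_lt_iff fun s => by
    rw [← (t1 _ (inv x hx r) s).1, ← hφ.add, (t1 x hx _).1, lt_sub_iff_add_lt]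
  have s2 : ∀ x ∈ Ω, ∀ r, τ' (φ r x) = τ' x - r := fun x hx r => eq_of_forall_lt_iff fun s => by
    rw [← (t2 _ (inv x hx r) s).1, ← hφ.add, (t2 x hx _).1, lt_sub_iff_add_lt]
  have i1 : ∀ x ∈ Ω, τ (ι x) = τ x := fun x hx => eq_of_forall_lt_iff fun s => by
    rw [← (t1 _ ((iΩ x).2 hx) s).1, hι, iB, (t1 x hx _).1]
  have i2 : ∀ x ∈ Ω, τ' (ι x) = τ' x := fun x hx => eq_of_forall_lt_iff fun s => by
    rw [← (t2 _ ((iΩ x).2 hx) s).1, hι, iB', (t2 x hx _).1]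
  have hZ : ∀ x ∈ Ω, φ (τ' x) x ∈ {x | x ∈ Ω ∧ x ∉ B' ∧ x ∉ A'} := fun x hx =>
    ⟨inv x hx _, fun e => lt_irrefl _ ((t2 x hx _).1.1 e), fun e => lt_irrefl _ ((t2 x hx _).2.1 e)⟩
  obtain ⟨C, hC⟩ := cp.exists_bound_of_continuousOn ((c1.sub c2).mono fun x hx => hx.1)
  have D0 : 0 < max C 1 := lt_max_of_lt_right one_pos
  have hD : ∀ x ∈ Ω, |τ x - τ' x| ≤ max C 1 := fun x hx => by
    have := hC _ (hZ x hx)
    rw [Real.norm_eq_abs, Pi.sub_apply, s1 x hx, s2 x hx, sub_sub_sub_cancel_right] at this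
    exact this.trans (le_max_left _ _)
  generalize max C 1 = D at D0 hD
  set ρ : X → ℝ := fun x => if x ∈ Ω then (τ x - τ' x) * max (1 - |τ' x| / (2 * D)) 0 else 0
    with hρ
  have r0 : ∀ x, x ∉ Ω → φ (ρ x) x = x := fun x hx => by simp only [hρ, if_neg hx, hφ.zero]
  have r1 : ∀ x ∈ Ω, ρ x = (τ x - τ' x) * max (1 - |τ' x| / (2 * D)) 0 := fun x hx => if_pos hx
  have r2 : ∀ x ∈ Ω, ∀ r, ρ (φ r x) = (τ x - τ' x) * max (1 - |τ' x - r| / (2 * D)) 0 :=
    fun x hx r => by rw [r1 _ (inv x hx r), s1 x hx, s2 x hx, sub_sub_sub_cancel_right]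
  have cρ : Continuous ρ := continuous_iff_continuousAt.2 fun x => by
    by_cases hx : x ∈ Ω
    · refine ContinuousOn.continuousAt (ContinuousOn.congr ?_ r1) (oΩ.mem_nhds hx)
      exact (c1.sub c2).mul ((continuousOn_const.sub (c2.abs.div_const _)).sup continuousOn_const)
    · have hK := ((isCompact_Icc (a := -(2 * D)) (b := 2 * D)).prod cp).image hφ.cont
      refine (continuousAt_const (y := (0 : ℝ))).congr ?_
      filter_upwards [hK.isClosed.isOpen_compl.mem_nhds fun ⟨p, e1, e2⟩ =>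
        hx (e2 ▸ inv _ e1.2.1 _)] with y hy
      by_cases hy' : y ∈ Ω
      · rw [r1 y hy', max_eq_right, mul_zero]
        rw [sub_nonpos, le_div_iff₀ (by positivity), one_mul]
        refine not_lt.1 fun e => hy ⟨(-τ' y, φ (τ' y) y), ⟨?_, hZ y hy'⟩, ?_⟩
        · exact abs_le.1 ((abs_neg _).trans_le e.le)
        · show φ _ (φ _ _) = _
          rw [← hφ.add, neg_add_cancel, hφ.zero]
      · exact (if_neg hy').symm
  refine ⟨fun x => φ (ρ x) x, hφ.cont.comp (cρ.prodMk continuous_id), ⟨fun x y e => ?_, fun y => ?_⟩,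
    fun x => ?_, r0, fun x hx => ?_⟩
  · replace e : φ (ρ x) x = φ (ρ y) y := e
    by_cases hx : x ∈ Ω
    · have e1 : y = φ (ρ x - ρ y) x := by
        rw [sub_eq_neg_add, hφ.add, e, ← hφ.add, neg_add_cancel, hφ.zero]
      have e2 := abmove_lip D0 (hD x hx) (τ' x) (τ' x - (ρ x - ρ y))
      rw [← r1 x hx, ← r2 x hx, ← e1, sub_sub_cancel] at e2
      rw [e1, abs_eq_zero.1 (le_antisymm (by linarith) (abs_nonneg (ρ x - ρ y))), hφ.zero]
    · have hy : y ∉ Ω := fun hy => hx (by rw [← r0 x hx, e]; exact inv y hy _)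
      rw [← r0 x hx, e, r0 y hy]
  · by_cases hy : y ∈ Ω
    · have b : ∀ r, |ρ (φ r y)| ≤ D := fun r => by
        rw [r2 y hy, abs_mul, abs_of_nonneg (le_max_right _ (0 : ℝ))]
        refine (mul_le_of_le_one_right (abs_nonneg _) (max_le (sub_le_self _ ?_) zero_le_one)).trans
          (hD y hy)
        positivity
      obtain ⟨r, -, hr⟩ := intermediate_value_Icc (f := fun r => ρ (φ r y) + r) (a := -D) (b := D)
        (by linarith) ((cρ.comp (hφ.cont.comp (Continuous.prodMk_left y))).add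
          continuous_id).continuousOn (show (0 : ℝ) ∈ _ from
          ⟨by linarith [(abs_le.1 (b (-D))).2], by linarith [(abs_le.1 (b D)).1]⟩)
      exact ⟨φ r y, by beta_reduce at hr ⊢; rw [← hφ.add, hr, hφ.zero]⟩
    · exact ⟨y, r0 y hy⟩
  · show φ (ρ (ι x)) (ι x) = _
    rw [hι]
    congr 2
    by_cases hx : x ∈ Ω
    · rw [r1 _ ((iΩ x).2 hx), r1 x hx, i1 x hx, i2 x hx]
    · exact (if_neg fun e => hx ((iΩ x).1 e)).trans (if_neg hx).symm
  · have e1 := abmove_lip D0 (hD x hx) (τ' x) 0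
    rw [← r1 x hx, abs_zero, zero_div, sub_zero, max_eq_left zero_le_one, mul_one, sub_zero] at e1
    obtain ⟨a1, a2⟩ := t1 x hx (ρ x)
    obtain ⟨b1, b2⟩ := t2 x hx 0
    rw [hφ.zero] at b1 b2
    obtain ⟨e2, e3⟩ := abs_le.1 e1
    refine ⟨inv x hx _, ?_, ?_⟩
    · rw [a1, b1]
      rcases abs_cases (τ' x) with e | e <;> constructor <;> intro <;> linarith
    · rw [a2, b2]
      rcases abs_cases (τ' x) with e | e <;> constructor <;> intro <;> linarith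

end Pool.Agent.Lib.MP_5ceaf9_gt
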