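import Pool.Agent.Lib.MP_5ceaf9_gt.ABFlow
import Pool.Agent.Lib.MP_5ceaf9_gt.ABF3
import Pool.Agent.Lib.MP_5ceaf9_gt.ABMove
import Pool.Agent.Lib.MP_5ceaf9_gt.ABCar

/-! The bijection that moves the voxel hypersurface onto the smooth one. -/

open scoped Manifold ContDiff Topology
open Filter

noncomputable section

namespace Pool.Agent.Lib.MP_5ceaf9_gt

variable {n : ℕ}

theorem mem_Inn_of_FF {S : Finset (Lat n)} (d : DnC S) {x : Fin n → ℝ} (h : ¬ FF S x < 1) :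
    x ∈ Inn S := by
  obtain ⟨m, ε, t, hx⟩ := exists_NF x
  rw [hx.FF_lt_one_iff d, not_not] at h
  exact (hx.mem_Inn d).2 (hx.cor_mem d (fun i hi => lt_of_lt_of_le one_half_pos hi) h)

theorem FF_pos_of_Nb {S : Finset (Lat n)} (d : DnC S) {x : Fin n → ℝ} (h : x ∈ Nb S) :
    0 < FF S x := by
  obtain ⟨m, ε, t, hx⟩ := exists_NF x
  exact (hx.FF_pos_iff d).2
    (hx.cor_mem d (fun i hi => by rw [hi]; exact one_half_lt_one) ((hx.mem_Nb d).1 h))

theorem Inn_subset_Nb {S : Finset (Lat n)} (d : DnC S) {x : Fin n → ℝ} (h : x ∈ Inn S) :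
    x ∈ Nb S := by
  obtain ⟨m, ε, t, hx⟩ := exists_NF x
  exact (hx.mem_Nb d).2 (hx.cor_mem d (fun i hi => le_of_lt hi) ((hx.mem_Inn d).1 h))

theorem abone_inv {S : Finset (Lat n)} (d : DnC S) :
    ∀ x ∈ {x | 0 < FF S x ∧ FF S x < 1}, ∀ s, flw s x ∈ {x | 0 < FF S x ∧ FF S x < 1} := by
  rintro x ⟨h0, h1⟩ s
  obtain ⟨m, ε, t, hx⟩ := exists_NF x
  have e1 : (fun i => lg s (t i) = 1) = fun i => t i = 1 :=
    funext fun i => propext (lg_eq_one_iff (hx.t0 i) (hx.t1 i))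
  have e2 : (fun i => 0 < lg s (t i)) = fun i => 0 < t i :=
    funext fun i => propext (lg_pos_iff (hx.t0 i) (hx.t1 i))
  refine ⟨((hx.flw s).FF_pos_iff d).2 ?_, ((hx.flw s).FF_lt_one_iff d).2 ?_⟩
  · rw [e1]
    exact (hx.FF_pos_iff d).1 h0
  · rw [e2]
    exact (hx.FF_lt_one_iff d).1 h1

theorem abone_bot {S : Finset (Lat n)} (d : DnC S) {U : Set (Fin n → ℝ)} (oU : IsOpen U)
    (hU : ∀ y, FF S y = 1 → y ∈ U) :
    ∀ x ∈ {x | 0 < FF S x ∧ FF S x < 1}, ∃ s, flw s x ∈ U := by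
  rintro x ⟨h0, -⟩
  obtain ⟨m, ε, t, hx⟩ := exists_NF x
  refine (hx.tendsto_bot.eventually (oU.mem_nhds (hU _ ?_))).exists
  rw [FF_dbl, if_pos ((hx.FF_pos_iff d).1 h0)]

theorem abone_top {S : Finset (Lat n)} (d : DnC S) {U : Set (Fin n → ℝ)} (oU : IsOpen U)
    (hU : ∀ y, FF S y = 0 → y ∈ U) :
    ∀ x ∈ {x | 0 < FF S x ∧ FF S x < 1}, ∃ s, flw s x ∈ U := by
  rintro x ⟨-, h1⟩
  obtain ⟨m, ε, t, hx⟩ := exists_NF x
  refine (hx.tendsto_top.eventually (oU.mem_nhds (hU _ ?_))).exists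
  rw [FF_dbl, if_neg ((hx.FF_lt_one_iff d).1 h1)]

theorem abone_sec {S : Finset (Lat n)} (d : DnC S) :
    Sec flw {x | 0 < FF S x ∧ FF S x < 1} {x | 1 / 2 < FF S x} {x | FF S x < 1 / 2} := by
  have hc : Continuous (FF S) := (FF_contDiff S).continuous
  have oB : IsOpen {x | 1 / 2 < FF S x} := isOpen_lt continuous_const hc
  have oA : IsOpen {x | FF S x < 1 / 2} := isOpen_lt hc continuous_const
  refine ⟨oB, oA, fun x h h' => lt_asymm (a := FF S x) h' h,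
    abone_bot d oB fun y hy => ?_, abone_top d oA fun y hy => ?_, ?_⟩
  · rw [Set.mem_ofPred_eq, hy]
    exact one_half_lt_one
  · rw [Set.mem_ofPred_eq, hy]
    exact one_half_pos
  · rintro x ⟨h0, h1⟩ s hs h
    obtain ⟨m, ε, t, hx⟩ := exists_NF x
    exact lt_of_le_of_lt (not_lt.1 h) (hx.FF_strict (hx.flw s) d
      (fun i => le_lg hs (hx.t0 i) (hx.t1 i)) (fun i a b => lt_lg hs a b) h0 h1)

theorem abone_sec' {S : Finset (Lat n)} (d : DnC S) :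
    Sec flw {x | 0 < FF S x ∧ FF S x < 1} (Inn S) (Nb S)ᶜ := by
  have oA : IsOpen (Nb S)ᶜ := (isCompact_Nb S).isClosed.isOpen_compl
  refine ⟨isOpen_Inn S, oA, fun x h h' => h' (Inn_subset_Nb d h),
    abone_bot d (isOpen_Inn S) fun y hy => mem_Inn_of_FF d hy.not_lt,
    abone_top d oA fun y hy h => (FF_pos_of_Nb d h).ne' hy, ?_⟩
  rintro x - s hs h
  obtain ⟨m, ε, t, hx⟩ := exists_NF x
  refine (hx.mem_Inn d).2 (hx.cor_mem d (fun i hi => ?_) (((hx.flw s).mem_Nb d).1 (not_not.1 h)))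
  rcases (hx.t1 i).lt_or_eq with h1 | h1
  · exact lt_of_le_of_lt hi (lt_lg hs (lt_of_lt_of_le one_half_pos hi) h1)
  · rw [(lg_eq_one_iff (hx.t0 i) (hx.t1 i)).2 h1]
    exact one_half_lt_one

theorem exists_push (η : Fin n → Bool) {S : Finset (Lat n)} (d : DnC S) (hi : Invt η S) :
    ∃ g : (Fin n → ℝ) → Fin n → ℝ, Continuous g ∧ Function.Bijective g ∧
      (∀ x, g (fl η x) = fl η (g x)) ∧ (∀ x, ¬ (0 < FF S x ∧ FF S x < 1) → g x = x) ∧
      (∀ x, 0 < FF S x ∧ FF S x < 1 → 0 < FF S (g x) ∧ FF S (g x) < 1) ∧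
      (∀ x, 1 / 2 < FF S (g x) ↔ x ∈ Inn S) ∧ ∀ x, FF S (g x) < 1 / 2 ↔ x ∉ Nb S := by
  have hc : Continuous (FF S) := (FF_contDiff S).continuous
  have oΩ : IsOpen {x | 0 < FF S x ∧ FF S x < 1} :=
    (isOpen_lt continuous_const hc).inter (isOpen_lt hc continuous_const)
  have cp : IsCompact {x | x ∈ {x | 0 < FF S x ∧ FF S x < 1} ∧ x ∉ Inn S ∧ x ∉ (Nb S)ᶜ} := by
    have e : {x | x ∈ {x | 0 < FF S x ∧ FF S x < 1} ∧ x ∉ Inn S ∧ x ∉ (Nb S)ᶜ} = Nb S \ Inn S := by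
      ext x
      refine ⟨fun h => ⟨not_not.1 h.2.2, h.2.1⟩, fun h => ⟨⟨FF_pos_of_Nb d h.1, ?_⟩, h.2,
        not_not.2 h.1⟩⟩
      by_contra h1
      exact h.2 (mem_Inn_of_FF d h1)
    rw [e]
    exact (isCompact_Nb S).diff (isOpen_Inn S)
  obtain ⟨g, g1, g2, g3, g4, g5⟩ := exists_move isFlow_ph oΩ (abone_inv d) (abone_sec d)
    (abone_sec' d) cp (fl η) (ph_fl η)
    (fun x => by rw [Set.mem_ofPred_eq, Set.mem_ofPred_eq, FF_fl η hi])
    (fun x => by rw [Set.mem_ofPred_eq, Set.mem_ofPred_eq, FF_fl η hi]) (Inn_fl η hi)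
  refine ⟨g, g1, g2, g3, g4, fun x hx => (g5 x hx).1, fun x => ?_, fun x => ?_⟩
  · by_cases hx : 0 < FF S x ∧ FF S x < 1
    · exact (g5 x hx).2.1
    · rw [g4 x hx]
      rcases not_and_or.1 hx with h | h
      · exact iff_of_false (fun h' => h (one_half_pos.trans h'))
          fun h' => h (FF_pos_of_Nb d (Inn_subset_Nb d h'))
      · exact iff_of_true (lt_of_lt_of_le one_half_lt_one (not_lt.1 h)) (mem_Inn_of_FF d h)
  · by_cases hx : 0 < FF S x ∧ FF S x < 1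
    · exact (g5 x hx).2.2
    · rw [g4 x hx]
      rcases not_and_or.1 hx with h | h
      · exact iff_of_true (lt_of_le_of_lt (not_lt.1 h) one_half_pos)
          fun h' => h (FF_pos_of_Nb d h')
      · exact iff_of_false (fun h' => h (h'.trans one_half_lt_one))
          fun h' => h' (Inn_subset_Nb d (mem_Inn_of_FF d h))

end Pool.Agent.Lib.MP_5ceaf9_gt
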