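import Pool.Agent.Lib.MP_5ceaf9_gt.ABLat

/-! The quotient of real space by the flip. -/

open scoped Manifold ContDiff Topology
open Filter

noncomputable section

namespace Pool.Agent.Lib.MP_5ceaf9_gt

variable {n : ℕ} (η : Fin n → Bool)

theorem contDiff_fl : ContDiff ℝ ∞ (fl η : (Fin n → ℝ) → Fin n → ℝ) := by
  refine contDiff_pi.2 fun i => ?_
  by_cases hi : η i
  · simp only [fl_apply, hi, if_true]
    exact (contDiff_apply ℝ ℝ i).neg
  · simp only [fl_apply, hi]
    exact contDiff_apply ℝ ℝ i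

theorem continuous_fl : Continuous (fl η : (Fin n → ℝ) → Fin n → ℝ) :=
  (contDiff_fl η).continuous

theorem continuous_pr : Continuous (pr η) := continuous_quotient_mk'

theorem pr_eq_iff {x y : Fin n → ℝ} : pr η x = pr η y ↔ y = x ∨ y = fl η x := Quotient.eq

theorem pr_fl (x : Fin n → ℝ) : pr η (fl η x) = pr η x := ((pr_eq_iff η).2 (Or.inr rfl)).symm

theorem pr_surj : Function.Surjective (pr η) := Quotient.mk_surjective

theorem pr_mem_image {A : Set (Fin n → ℝ)} {x : Fin n → ℝ} :
    pr η x ∈ pr η '' A ↔ x ∈ A ∨ fl η x ∈ A := by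
  constructor
  · rintro ⟨y, hy, h⟩
    rcases (pr_eq_iff η).1 h with rfl | rfl
    · exact Or.inl hy
    · exact Or.inr (by rwa [fl_fl])
  · rintro (h | h)
    · exact ⟨x, h, rfl⟩
    · exact ⟨_, h, pr_fl η x⟩

theorem pr_mem_image_of_inv {A : Set (Fin n → ℝ)} (hA : ∀ x ∈ A, fl η x ∈ A) {x : Fin n → ℝ} :
    pr η x ∈ pr η '' A ↔ x ∈ A := by
  rw [pr_mem_image]
  exact ⟨fun h => h.elim id fun h => by simpa only [fl_fl] using hA _ h, Or.inl⟩

theorem isOpenMap_pr : IsOpenMap (pr η) := by
  intro U hU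
  have hq : Topology.IsQuotientMap (pr η) := isQuotientMap_quotient_mk'
  rw [← hq.isOpen_preimage]
  have : pr η ⁻¹' (pr η '' U) = U ∪ fl η ⁻¹' U := by
    ext x
    exact pr_mem_image η
  rw [this]
  exact hU.union (hU.preimage (continuous_fl η))

theorem isOpenQuotientMap_pr : IsOpenQuotientMap (pr η) :=
  ⟨pr_surj η, continuous_pr η, isOpenMap_pr η⟩

instance t2_QR : T2Space (QR η) := by
  rw [t2_iff_isClosed_diagonal,
    ← ((isOpenQuotientMap_pr η).prodMap (isOpenQuotientMap_pr η)).isQuotientMap.isClosed_preimage]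
  have : Prod.map (pr η) (pr η) ⁻¹' Set.diagonal (QR η) =
      {p | p.2 = p.1} ∪ {p | p.2 = fl η p.1} := by
    ext p
    exact pr_eq_iff η
  rw [this]
  exact (isClosed_eq continuous_snd continuous_fst).union
    (isClosed_eq continuous_snd ((continuous_fl η).comp continuous_fst))

/-- Two Hausdorff quotients of a compact space by the same relation are homeomorphic. -/
theorem homeo_of_ker {D X Y : Type} [TopologicalSpace D] [TopologicalSpace X]
    [TopologicalSpace Y] [CompactSpace D] [T2Space X] [T2Space Y] {f : D → X} {g : D → Y}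
    (cf : Continuous f) (cg : Continuous g) (sf : Function.Surjective f)
    (sg : Function.Surjective g) (h : ∀ a b, f a = f b ↔ g a = g b) :
    ∃ e : X ≃ₜ Y, ∀ a, e (f a) = g a := by
  have qf : Topology.IsQuotientMap f := cf.isClosedMap.isQuotientMap cf sf
  have qg : Topology.IsQuotientMap g := cg.isClosedMap.isQuotientMap cg sg
  choose f' hf' using sf
  choose g' hg' using sg
  have h1 : ∀ a, g (f' (f a)) = g a := fun a => (h _ _).1 (hf' _)
  have h2 : ∀ a, f (g' (g a)) = f a := fun a => (h _ _).2 (hg' _)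
  refine ⟨⟨⟨fun x => g (f' x), fun y => f (g' y), fun x => ?_, fun y => ?_⟩, ?_, ?_⟩, h1⟩
  · simp only [h2, hf']
  · simp only [h1, hg']
  · rw [qf.continuous_iff]
    exact cg.congr fun a => (h1 a).symm
  · rw [qg.continuous_iff]
    exact cf.congr fun a => (h2 a).symm

/-- Homotopy equivalences are preserved under homeomorphisms of pairs. -/
theorem IsHE.conj {X Y X' Y' : Type} [TopologicalSpace X] [TopologicalSpace Y]
    [TopologicalSpace X'] [TopologicalSpace Y'] {f : C(X, Y)} {f' : C(X', Y')} (a : X ≃ₜ X')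
    (b : Y ≃ₜ Y') (h : ∀ x, f' (a x) = b (f x)) (hf : IsHE f) : IsHE f' := by
  obtain ⟨g, h1, h2⟩ := hf
  let a1 : C(X, X') := ⟨a, a.continuous⟩
  let a2 : C(X', X) := ⟨a.symm, a.symm.continuous⟩
  let b1 : C(Y, Y') := ⟨b, b.continuous⟩
  let b2 : C(Y', Y) := ⟨b.symm, b.symm.continuous⟩
  refine ⟨a1.comp (g.comp b2), ?_, ?_⟩
  · have e1 : (a1.comp (g.comp b2)).comp f' = a1.comp ((g.comp f).comp a2) := by
      ext x
      obtain ⟨x, rfl⟩ := a.surjective x
      simp [a1, a2, b2, h]
    have e2 : ContinuousMap.id X' = a1.comp ((ContinuousMap.id X).comp a2) := by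
      ext x
      simp [a1, a2]
    rw [e1, e2]
    exact (ContinuousMap.Homotopic.refl a1).comp (h1.comp (ContinuousMap.Homotopic.refl a2))
  · have e1 : f'.comp (a1.comp (g.comp b2)) = b1.comp ((f.comp g).comp b2) := by
      ext y
      simp [a1, b1, b2, h]
    have e2 : ContinuousMap.id Y' = b1.comp ((ContinuousMap.id Y).comp b2) := by
      ext y
      simp [b1, b2]
    rw [e1, e2]
    exact (ContinuousMap.Homotopic.refl b1).comp (h2.comp (ContinuousMap.Homotopic.refl b2))

/-- An equivariant continuous injection induces homeomorphisms of compact sets in the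
quotient. -/
theorem exists_homeo_image {g : (Fin n → ℝ) → Fin n → ℝ} (cg : Continuous g)
    (ig : Function.Injective g) (eg : ∀ x, g (fl η x) = fl η (g x)) {A A' : Set (Fin n → ℝ)}
    (cA : IsCompact A) (hA : g '' A = A') :
    ∃ e : pr η '' A ≃ₜ pr η '' A', ∀ (y : pr η '' A) (x : Fin n → ℝ), (y : QR η) = pr η x →
      (e y : QR η) = pr η (g x) := by
  subst hA
  have : CompactSpace A := isCompact_iff_compactSpace.1 cA
  have key : ∀ x y, pr η x = pr η y ↔ pr η (g x) = pr η (g y) := by
    intro x y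
    rw [pr_eq_iff, pr_eq_iff, ← eg, ig.eq_iff, ig.eq_iff]
  obtain ⟨e, he⟩ := homeo_of_ker (D := A) (X := pr η '' A) (Y := pr η '' (g '' A))
    (f := fun x => ⟨pr η x, x, x.2, rfl⟩) (g := fun x => ⟨pr η (g x), g x, ⟨x, x.2, rfl⟩, rfl⟩)
    (((continuous_pr η).comp continuous_subtype_val).subtype_mk _)
    (((continuous_pr η).comp (cg.comp continuous_subtype_val)).subtype_mk _)
    (by
      rintro ⟨_, x, hx, rfl⟩
      exact ⟨⟨x, hx⟩, rfl⟩)
    (by
      rintro ⟨_, _, ⟨x, hx, rfl⟩, rfl⟩
      exact ⟨⟨x, hx⟩, rfl⟩)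
    (fun a b => by
      rw [Subtype.mk.injEq, Subtype.mk.injEq]
      exact key _ _)
  refine ⟨e, ?_⟩
  rintro ⟨_, z, hz, rfl⟩ x hx
  rw [he ⟨z, hz⟩]
  exact (key _ _).1 hx

theorem isCompact_cube (e : Lat n) : IsCompact (cube e) := by
  have : cube e = Set.pi Set.univ (fun i => if e i % 2 = 0 then Set.Icc ((e i : ℝ) - 1) (e i + 1)
      else {(e i : ℝ)}) := by
    ext x
    simp only [cube, Set.mem_ofPred_eq, Set.mem_pi, Set.mem_univ, true_imp_iff]
    refine forall_congr' fun i => ?_
    split_ifs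
    · rw [abs_le, Set.mem_Icc]
      constructor <;> rintro ⟨h1, h2⟩ <;> constructor <;> linarith
    · simp
  rw [this]
  refine isCompact_univ_pi fun i => ?_
  split_ifs
  · exact isCompact_Icc
  · exact isCompact_singleton

theorem isCompact_vox (A : Finset (Lat n)) : IsCompact (vox A) := by
  have : vox A = ⋃ e ∈ A, cube e := by
    ext x
    simp [vox]
  rw [this]
  exact A.isCompact_biUnion fun e _ => isCompact_cube e

end Pool.Agent.Lib.MP_5ceaf9_gt
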