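import Pool.Agent.Lib.MP_5ceaf9_gt.ABLat

/-! The smooth transition function, the bump and first properties of the interpolation. -/

open scoped Manifold ContDiff Topology
open Filter

noncomputable section

namespace Pool.Agent.Lib.MP_5ceaf9_gt

variable {n : ℕ}

theorem sig_add (t : ℝ) : Real.smoothTransition t + Real.smoothTransition (1 - t) = 1 := by
  have h := (Real.smoothTransition.pos_denom t).ne'
  unfold Real.smoothTransition
  rw [sub_sub_cancel, add_comm (expNegInvGlue (1 - t)), ← add_div, div_self h]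

theorem absig_deriv (x : ℝ) : HasDerivAt expNegInvGlue (x⁻¹ ^ 2 * expNegInvGlue x) x := by
  simpa using expNegInvGlue.hasDerivAt_polynomial_eval_inv_mul 1 x

theorem sig_deriv_pos {t : ℝ} (h0 : 0 < t) (h1 : t < 1) :
    ∃ d : ℝ, 0 < d ∧ HasDerivAt Real.smoothTransition d t := by
  have h2 : 0 < 1 - t := by linarith
  have a := absig_deriv t
  have b := (absig_deriv (1 - t)).comp t ((hasDerivAt_id t).const_sub 1)
  have p := expNegInvGlue.pos_of_pos h0
  have q := expNegInvGlue.pos_of_pos h2
  have c := a.div (a.add b) (Real.smoothTransition.pos_denom t).ne'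
  refine ⟨_, ?_, c⟩
  refine div_pos ?_ (pow_pos (Real.smoothTransition.pos_denom t) 2)
  have e : 0 < expNegInvGlue t * expNegInvGlue (1 - t) * (t⁻¹ ^ 2 + (1 - t)⁻¹ ^ 2) := by positivity
  refine e.trans_eq ?_
  simp only [Pi.add_apply, Function.comp_apply]
  ring

theorem sig_strict {s t : ℝ} (h0 : 0 ≤ s) (hst : s < t) (h1 : t ≤ 1) :
    Real.smoothTransition s < Real.smoothTransition t := by
  refine strictMonoOn_of_deriv_pos (convex_Icc 0 1) Real.smoothTransition.continuous.continuousOn
    (fun x hx => ?_) ⟨h0, by linarith⟩ ⟨by linarith, h1⟩ hst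
  rw [interior_Icc] at hx
  obtain ⟨d, hd, h⟩ := sig_deriv_pos hx.1 hx.2
  rwa [h.deriv]

theorem bt_nonneg (t : ℝ) : 0 ≤ bmp t := by
  exact mul_nonneg (Real.smoothTransition.nonneg _) (Real.smoothTransition.nonneg _)

theorem bt_neg (t : ℝ) : bmp (-t) = bmp t := by
  unfold bmp
  rw [sub_neg_eq_add, ← sub_eq_add_neg, mul_comm]

theorem bt_pos_iff {t : ℝ} : 0 < bmp t ↔ |t| < 1 := by
  rw [(bt_nonneg t).lt_iff_ne', abs_lt]
  unfold bmp
  simp only [ne_eq, mul_eq_zero, Real.smoothTransition.zero_iff_nonpos, not_or, not_le]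
  constructor <;> rintro ⟨a, b⟩ <;> constructor <;> linarith

theorem absig_bt {t : ℝ} (h : 0 ≤ t) : bmp t = Real.smoothTransition (1 - t) := by
  unfold bmp
  rw [Real.smoothTransition.one_of_one_le (by linarith), one_mul]

theorem absig_zero {t : ℝ} (h : 1 ≤ |t|) : bmp t = 0 :=
  (bt_nonneg t).antisymm' (not_lt.1 fun h' => absurd (bt_pos_iff.1 h') (not_lt.2 h))

/-- The weights of the lattice points at a point in normal form. -/
theorem bt_nf {m ε : ℤ} {t : ℝ} (sg : ε = 1 ∨ ε = -1) (t0 : 0 ≤ t) (t1 : t ≤ 1) (c : ℤ) :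
    bmp ((2 * (m : ℝ) + 2 * (ε : ℝ) * t) / 2 - c) =
      if c = m then 1 - Real.smoothTransition t
      else if c = m + ε then Real.smoothTransition t else 0 := by
  have e1 : bmp t = 1 - Real.smoothTransition t := by
    rw [absig_bt t0]
    linarith [sig_add t]
  have e2 : bmp (1 - t) = Real.smoothTransition t := by rw [absig_bt (by linarith), sub_sub_cancel]
  split_ifs with h1 h2
  · rcases sg with rfl | rfl
    · rw [← e1, h1]
      congr 1
      push_cast
      ring
    · rw [← e1, ← bt_neg t, h1]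
      congr 1
      push_cast
      ring
  · rcases sg with rfl | rfl
    · rw [← e2, ← bt_neg (1 - t), h2]
      congr 1
      push_cast
      ring
    · rw [← e2, h2]
      congr 1
      push_cast
      ring
  · refine absig_zero ?_
    have h3 : c ≤ m - 1 ∧ c ≤ m + ε - 1 ∨ m + 1 ≤ c ∧ m + ε + 1 ≤ c := by omega
    rw [le_abs]
    rcases h3 with ⟨a, b⟩ | ⟨a, b⟩
    · have a' : (c : ℝ) ≤ m - 1 := by exact_mod_cast a
      have b' : (c : ℝ) ≤ m + ε - 1 := by exact_mod_cast b
      left
      rcases sg with rfl | rfl <;> push_cast at b' ⊢ <;> linarith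
    · have a' : (m : ℝ) + 1 ≤ c := by exact_mod_cast a
      have b' : (m : ℝ) + ε + 1 ≤ c := by exact_mod_cast b
      right
      rcases sg with rfl | rfl <;> push_cast at b' ⊢ <;> linarith

theorem FF_contDiff (S : Finset (Lat n)) : ContDiff ℝ ∞ (FF S) := by
  unfold FF bmp
  refine ContDiff.sum fun c _ => contDiff_prod fun i _ => ?_
  fun_prop

theorem FF_nonneg (S : Finset (Lat n)) (x : Fin n → ℝ) : 0 ≤ FF S x := by
  exact Finset.sum_nonneg fun _ _ => Finset.prod_nonneg fun _ _ => bt_nonneg _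

theorem FF_fl (η : Fin n → Bool) {S : Finset (Lat n)} (h : Invt η S) (x : Fin n → ℝ) :
    FF S (fl η x) = FF S x := by
  unfold FF
  refine Finset.sum_nbij' (fl η) (fl η) h h (fun c _ => fl_fl η c) (fun c _ => fl_fl η c)
    fun c _ => Finset.prod_congr rfl fun i _ => ?_
  by_cases hi : η i
  · simp only [fl_apply, hi, if_true]
    rw [← bt_neg]
    congr 1
    push_cast
    ring
  · simp [fl_apply, hi]

theorem FF_dbl (S : Finset (Lat n)) (c : Lat n) : FF S (dbl c) = if c ∈ S then 1 else 0 := by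
  have h1 : ∀ d : Lat n, ∏ i, bmp (dbl c i / 2 - d i) = if d = c then 1 else 0 := by
    intro d
    have h2 : ∀ i, bmp (dbl c i / 2 - d i) = if d i = c i then 1 else 0 := fun i => by
      have h3 := bt_nf (m := c i) (Or.inl rfl) le_rfl zero_le_one (d i)
      simpa [dbl] using h3
    simp only [h2, Finset.prod_boole]
    simp [funext_iff]
  unfold FF
  simp only [h1, Finset.sum_ite_eq']

theorem FF_free (η : Fin n → Bool) {S : Finset (Lat n)} (h : Free η S) {x : Fin n → ℝ}
    (hx : 0 < FF S x) : fl η x ≠ x := by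
  intro hfx
  obtain ⟨c, hc, h1⟩ := Finset.exists_ne_zero_of_sum_ne_zero hx.ne'
  refine h c hc (funext fun i => ?_)
  have h2 := bt_pos_iff.1
    ((bt_nonneg _).lt_of_ne' (Finset.prod_ne_zero_iff.1 h1 i (Finset.mem_univ i)))
  by_cases hi : η i
  · have h3 := congrFun hfx i
    simp only [fl_apply, hi, if_true] at h3 ⊢
    have h4 : x i = 0 := by linarith
    rw [h4, zero_div, zero_sub, abs_neg] at h2
    have h5 : |c i| < 1 := by exact_mod_cast h2
    rw [Int.abs_lt_one_iff.1 h5, neg_zero]
  · simp [fl_apply, hi]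

end Pool.Agent.Lib.MP_5ceaf9_gt
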