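import Pool.Agent.Lib.MP_5ceaf9_gt.ABLat

/-! The order complex upstairs: compactness, symmetry, and the barycentre map is onto. -/

open scoped Manifold ContDiff Topology
open Filter

noncomputable section

namespace Pool.Agent.Lib.MP_5ceaf9_gt

variable {n : ℕ}

theorem isCompact_Dl (B : Finset (Lat n)) : IsCompact (Dl B) := by
  refine (isCompact_univ_pi fun _ : Lat n => isCompact_Icc (a := (0 : ℝ)) (b := 1)).of_isClosed_subset
    ?_ ?_
  · have h1 : IsClosed {u : Lat n → ℝ | ∀ e, 0 ≤ u e} := by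
      rw [Set.ofPred_forall]
      exact isClosed_iInter fun e => isClosed_le continuous_const (continuous_apply e)
    have h0 : ∀ e, IsClosed {u : Lat n → ℝ | u e = 0} := fun e =>
      isClosed_eq (continuous_apply e) continuous_const
    have h2 : IsClosed {u : Lat n → ℝ | ∀ e, e ∉ B → u e = 0} := by
      simp only [Set.ofPred_forall]
      exact isClosed_iInter fun e => isClosed_iInter fun _ => h0 e
    have h3 : IsClosed {u : Lat n → ℝ | ∀ e f, u e ≠ 0 → u f ≠ 0 → le1 e f ∨ le1 f e} := by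
      have e3 : {u : Lat n → ℝ | ∀ e f, u e ≠ 0 → u f ≠ 0 → le1 e f ∨ le1 f e} =
          ⋂ e, ⋂ f, ⋂ _ : ¬(le1 e f ∨ le1 f e), {u | u e = 0} ∪ {u | u f = 0} := by
        ext u
        simp only [Set.mem_ofPred_eq, Set.mem_iInter, Set.mem_union]
        refine forall_congr' fun e => forall_congr' fun f => ⟨fun h hn => ?_, fun h he hf => ?_⟩
        · by_contra hc
          exact hn (h (fun h4 => hc (Or.inl h4)) fun h4 => hc (Or.inr h4))
        · by_contra hn
          exact (h hn).elim he hf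
      rw [e3]
      exact isClosed_iInter fun e => isClosed_iInter fun f => isClosed_iInter fun _ =>
        (h0 e).union (h0 f)
    have h4 : IsClosed {u : Lat n → ℝ | ∑ e ∈ B, u e = 1} :=
      isClosed_eq (continuous_finsetSum _ fun e _ => continuous_apply e) continuous_const
    exact h1.inter (h2.inter (h3.inter h4))
  · rintro u ⟨h1, h2, -, h4⟩ e -
    refine ⟨h1 e, ?_⟩
    by_cases he : e ∈ B
    · rw [← h4]
      exact Finset.single_le_sum (fun f _ => h1 f) he
    · rw [h2 e he]
      exact zero_le_one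

theorem continuous_bary (B : Finset (Lat n)) : Continuous (bary B) := by
  exact continuous_pi fun i =>
    continuous_finsetSum _ fun e _ => (continuous_apply e).mul continuous_const

theorem continuous_wt (η : Fin n → Bool) (B : Finset (Lat n)) (ℓ : QL η → ℕ) :
    Continuous (wt η B ℓ) := by
  exact continuous_pi fun v => continuous_finsetSum _ fun e _ => continuous_apply e

theorem abt1_sum (η : Fin n → Bool) {B : Finset (Lat n)} (iB : Invt η B) (g : Lat n → ℝ) :
    ∑ e ∈ B, g (fl η e) = ∑ e ∈ B, g e :=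
  Finset.sum_nbij' (fl η) (fl η) (fun a ha => iB a ha) (fun a ha => iB a ha)
    (fun a _ => fl_fl η a) (fun a _ => fl_fl η a) fun _ _ => rfl

theorem Dl_fl (η : Fin n → Bool) {B : Finset (Lat n)} (iB : Invt η B) {u : Lat n → ℝ}
    (hu : u ∈ Dl B) : (fun e => u (fl η e)) ∈ Dl B := by
  obtain ⟨h1, h2, h3, h4⟩ := hu
  refine ⟨fun e => h1 _, fun e he => h2 _ fun h => he ((invt_iff iB).1 h), fun e f he hf => ?_,
    (abt1_sum η iB u).trans h4⟩
  simpa only [le1_fl_iff] using h3 _ _ he hf

theorem bary_fl (η : Fin n → Bool) {B : Finset (Lat n)} (iB : Invt η B) (u : Lat n → ℝ) :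
    bary B (fun e => u (fl η e)) = fl η (bary B u) := by
  funext i
  have h := abt1_sum η iB fun e => u (fl η e) * (e i : ℝ)
  simp only [fl_fl] at h
  rw [fl_apply, bary, bary, ← h]
  by_cases hi : η i
  · simp [fl_apply, hi]
  · simp [fl_apply, hi]

theorem wt_fl (η : Fin n → Bool) {B : Finset (Lat n)} (iB : Invt η B) (ℓ : QL η → ℕ)
    (u : Lat n → ℝ) : wt η B ℓ (fun e => u (fl η e)) = wt η B ℓ u := by
  funext v
  refine abt1_sum η (fun a ha => ?_) u
  rw [Finset.mem_filter] at ha ⊢
  exact ⟨iB a ha.1, by rw [pq_fl]; exact ha.2⟩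

/-- Radial projection from the centre of a cell to a proper face. -/
theorem abt1_face {e : Lat n} {x : Fin n → ℝ} (hx : x ∈ cube e) (hne : ∃ i, x i ≠ e i) :
    ∃ (r : ℝ) (e' : Lat n) (x' : Fin n → ℝ), 0 < r ∧ r ≤ 1 ∧ le1 e e' ∧ e ≠ e' ∧ x' ∈ cube e' ∧
      ∀ i, x i = (1 - r) * e i + r * x' i := by
  obtain ⟨j, hj⟩ := hne
  obtain ⟨k, -, hk⟩ := Finset.univ.exists_max_image (fun i => |x i - e i|) ⟨j, Finset.mem_univ j⟩
  obtain ⟨r, hr⟩ : ∃ r, r = |x k - e k| := ⟨_, rfl⟩
  have hle : ∀ i, |x i - e i| ≤ r := fun i => hr ▸ hk i (Finset.mem_univ i)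
  have h0 : 0 < r := (abs_pos.2 (sub_ne_zero.2 hj)).trans_le (hle j)
  have hev : ∀ i, x i - e i ≠ 0 → e i % 2 = 0 := fun i hi => by
    by_contra h
    have := hx i
    rw [if_neg h] at this
    exact hi (sub_eq_zero.2 this)
  have h1 : r ≤ 1 := by
    have := hx k
    rw [if_pos (hev k (abs_pos.1 (hr ▸ h0)))] at this
    exact hr ▸ this
  refine ⟨r, fun i => if x i - e i = r then e i + 1 else if x i - e i = -r then e i - 1 else e i,
    fun i => e i + (x i - e i) / r, h0, h1, fun i => ?_, fun h => ?_, fun i => ?_, fun i => ?_⟩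
  · unfold le0
    beta_reduce
    split_ifs with ha hb
    · have := hev i (by rw [ha]; exact h0.ne')
      omega
    · have := hev i (by rw [hb]; exact neg_ne_zero.2 h0.ne')
      omega
    · exact Or.inl rfl
  · have h2 := congrFun h k
    beta_reduce at h2
    split_ifs at h2 with ha hb
    · omega
    · omega
    · rcases abs_choice (x k - e k) with h3 | h3
      · exact ha (by rw [hr, h3])
      · exact hb (by rw [hr, h3, neg_neg])
  · beta_reduce
    by_cases ha : x i - e i = r
    · have := hev i (by rw [ha]; exact h0.ne')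
      rw [if_pos ha, if_neg (by omega), ha, div_self h0.ne']
      push_cast
      rfl
    · by_cases hb : x i - e i = -r
      · have := hev i (by rw [hb]; exact neg_ne_zero.2 h0.ne')
        rw [if_neg ha, if_pos hb, if_neg (by omega), hb, neg_div, div_self h0.ne']
        push_cast
        ring
      · rw [if_neg ha, if_neg hb]
        split_ifs with hc
        · rw [add_sub_cancel_left, abs_div, abs_of_pos h0, div_le_one h0]
          exact hle i
        · have h3 : x i - e i = 0 := by
            by_contra h4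
            exact hc (hev i h4)
          rw [h3, zero_div, add_zero]
  · field_simp
    ring

theorem abt1_cone {B : Finset (Lat n)} {e : Lat n} (he : e ∈ B) {r : ℝ} (h0 : 0 ≤ r) (h1 : r ≤ 1)
    {u : Lat n → ℝ} (hu : u ∈ Dl B) (hl : ∀ f, r * u f ≠ 0 → le1 e f) :
    ∃ v ∈ Dl B, (∀ f, v f ≠ 0 → le1 e f) ∧
      ∀ i, bary B v i = (1 - r) * e i + r * bary B u i := by
  obtain ⟨u1, u2, u3, u4⟩ := hu
  have hs : ∀ f, (if f = e then 1 - r else 0) + r * u f ≠ 0 → le1 e f := fun f hf => by
    by_cases hfe : f = e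
    · rw [hfe]
      exact le1_refl e
    · rw [if_neg hfe, zero_add] at hf
      exact hl f hf
  refine ⟨fun f => (if f = e then 1 - r else 0) + r * u f,
    ⟨fun f => ?_, fun f hf => ?_, fun f g hf hg => ?_, ?_⟩, hs, fun i => ?_⟩
  · refine add_nonneg ?_ (mul_nonneg h0 (u1 f))
    split_ifs
    · exact sub_nonneg.2 h1
    · exact le_rfl
  · beta_reduce
    rw [if_neg fun h : f = e => hf (h ▸ he), u2 f hf, mul_zero, add_zero]
  · by_cases hfe : f = e
    · exact Or.inl (hfe ▸ hs g hg)
    · by_cases hge : g = e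
      · exact Or.inr (hge ▸ hs f hf)
      · beta_reduce at hf hg
        rw [if_neg hfe, zero_add] at hf
        rw [if_neg hge, zero_add] at hg
        exact u3 f g (right_ne_zero_of_mul hf) (right_ne_zero_of_mul hg)
  · rw [Finset.sum_add_distrib, Finset.sum_ite_eq' B e, if_pos he, ← Finset.mul_sum, u4]
    ring
  · simp only [bary, add_mul, Finset.sum_add_distrib, ite_mul, zero_mul, mul_assoc]
    rw [Finset.sum_ite_eq' B e, if_pos he, Finset.mul_sum]

theorem abt1_vertex {B : Finset (Lat n)} {e : Lat n} (he : e ∈ B) :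
    ∃ v ∈ Dl B, (∀ f, v f ≠ 0 → le1 e f) ∧ ∀ i, bary B v i = e i := by
  have hs : ∀ f, (if f = e then (1 : ℝ) else 0) ≠ 0 → f = e := fun f hf => by
    by_contra h
    exact hf (if_neg h)
  refine ⟨fun f => if f = e then 1 else 0, ⟨fun f => ?_, fun f hf => ?_, fun f g hf hg => ?_, ?_⟩,
    fun f hf => ?_, fun i => ?_⟩
  · beta_reduce
    split_ifs
    · exact zero_le_one
    · exact le_rfl
  · exact if_neg fun h : f = e => hf (h ▸ he)
  · rw [hs f hf, hs g hg]
    exact Or.inl (le1_refl e)
  · rw [Finset.sum_ite_eq' B e, if_pos he]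
  · rw [hs f hf]
    exact le1_refl e
  · simp only [bary, ite_mul, zero_mul, one_mul]
    rw [Finset.sum_ite_eq' B e, if_pos he]

theorem abt1_surj {B : Finset (Lat n)} (uB : UpC B) (k : ℕ) : ∀ e ∈ B, dimE e = k →
    ∀ x ∈ cube e, ∃ u ∈ Dl B, (∀ f, u f ≠ 0 → le1 e f) ∧ bary B u = x := by
  induction k using Nat.strong_induction_on with
  | _ k ih =>
    intro e he hk x hx
    by_cases hne : ∃ i, x i ≠ e i
    · obtain ⟨r, e', x', h0, h1, hle, hee, hx', hxe⟩ := abt1_face hx hne
      have hlt : dimE e' < k := by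
        rw [← hk]
        by_contra h
        exact hee (eq_of_le1_of_dimE hle (not_lt.1 h))
      obtain ⟨u, hu, hl, hb⟩ := ih _ hlt e' (uB e he e' hle) rfl x' hx'
      obtain ⟨v, hv, hl', hb'⟩ := abt1_cone he h0.le h1 hu
        fun f hf => le1_trans hle (hl f (right_ne_zero_of_mul hf))
      exact ⟨v, hv, hl', funext fun i => by rw [hb' i, hb, hxe i]⟩
    · obtain ⟨v, hv, hl, hb⟩ := abt1_vertex he
      refine ⟨v, hv, hl, funext fun i => ?_⟩
      by_contra h
      exact hne ⟨i, fun h2 => h ((hb i).trans h2.symm)⟩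

theorem bary_surj {B : Finset (Lat n)} (uB : UpC B) {x : Fin n → ℝ} (hx : x ∈ vox B) :
    ∃ u ∈ Dl B, bary B u = x := by
  obtain ⟨e, he, hx⟩ := hx
  obtain ⟨u, hu, -, hb⟩ := abt1_surj uB _ e he rfl x hx
  exact ⟨u, hu, hb⟩

end Pool.Agent.Lib.MP_5ceaf9_gt
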