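import Pool.Agent.Lib.MP_5ceaf9_gt.ABLat

/-! The barycentre map takes the order complex injectively into the voxel complex. -/

open scoped Manifold ContDiff Topology
open Filter

noncomputable section

namespace Pool.Agent.Lib.MP_5ceaf9_gt

variable {n : ℕ}

theorem abt2_key {B : Finset (Lat n)} {p : Lat n → ℝ} (h0 : ∀ e, 0 ≤ p e)
    (hc : ∀ e f, p e ≠ 0 → p f ≠ 0 → le1 e f ∨ le1 f e) {μ : ℝ} (hμ : ∑ e ∈ B, p e = μ)
    (hpos : 0 < μ) : ∃ m ∈ B, 0 < p m ∧ ∀ i, |bary B p i - μ * m i| < μ ∧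
      (m i % 2 ≠ 0 → bary B p i = μ * m i) := by
  classical
  have hne : (B.filter fun e => p e ≠ 0).Nonempty := by
    obtain ⟨e, he, h⟩ := Finset.exists_ne_zero_of_sum_ne_zero (hμ.symm ▸ hpos.ne')
    exact ⟨e, Finset.mem_filter.2 ⟨he, h⟩⟩
  obtain ⟨m, hm, hle⟩ := exists_least hne fun a ha b hb =>
    hc a b (Finset.mem_filter.1 ha).2 (Finset.mem_filter.1 hb).2
  obtain ⟨hmB, hm0⟩ := Finset.mem_filter.1 hm
  have hpm : 0 < p m := lt_of_le_of_ne (h0 m) hm0.symm
  refine ⟨m, hmB, hpm, fun i => ?_⟩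
  have e1 : bary B p i - μ * m i = ∑ f ∈ B, p f * ((f i : ℝ) - m i) := by
    rw [bary, ← hμ, Finset.sum_mul, ← Finset.sum_sub_distrib]
    exact Finset.sum_congr rfl fun f _ => by ring
  refine ⟨?_, fun hodd => ?_⟩
  · rw [e1, ← hμ]
    refine (Finset.abs_sum_le_sum_abs _ _).trans_lt (Finset.sum_lt_sum (fun f hf => ?_)
      ⟨m, hmB, by rw [sub_self, mul_zero, abs_zero]; exact hpm⟩)
    by_cases hf0 : p f = 0
    · rw [hf0, zero_mul, abs_zero]
    have h1 := hle f (Finset.mem_filter.2 ⟨hf, hf0⟩) i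
    have h2 : |f i - m i| ≤ 1 := by
      unfold le0 at h1
      rw [abs_le]
      omega
    have h3 : |(f i : ℝ) - m i| ≤ 1 := by exact_mod_cast h2
    rw [abs_mul, abs_of_nonneg (h0 f)]
    exact mul_le_of_le_one_right (h0 f) h3
  · rw [← sub_eq_zero, e1]
    refine Finset.sum_eq_zero fun f hf => ?_
    by_cases hf0 : p f = 0
    · rw [hf0, zero_mul]
    have h1 := hle f (Finset.mem_filter.2 ⟨hf, hf0⟩) i
    have h2 : f i = m i := by
      unfold le0 at h1
      omega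
    rw [h2, sub_self, mul_zero]

theorem bary_mem_vox {B : Finset (Lat n)} {u : Lat n → ℝ} (hu : u ∈ Dl B) :
    bary B u ∈ vox B := by
  obtain ⟨h0, -, hc, h1⟩ := hu
  obtain ⟨m, hm, -, h⟩ := abt2_key h0 hc h1 one_pos
  refine ⟨m, hm, fun i => ?_⟩
  obtain ⟨a, b⟩ := h i
  rw [one_mul] at a b
  split_ifs with hi
  · exact a.le
  · exact b hi

theorem abt2_eq {y μ : ℝ} {a b : ℤ} (hμ : 0 < μ) (ha : |y - μ * a| < μ) (hb : |y - μ * b| < μ)
    (ha' : a % 2 ≠ 0 → y = μ * a) (hb' : b % 2 ≠ 0 → y = μ * b) : a = b := by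
  rw [abs_lt] at ha hb
  have key : ∀ (c d k : ℤ), μ * c - μ * d < μ * k → c - d < k := fun c d k h => by
    rw [← mul_sub] at h
    exact_mod_cast lt_of_mul_lt_mul_left h hμ.le
  by_cases h1 : a % 2 = 0
  · by_cases h2 : b % 2 = 0
    · have e1 := key a b 2 (by push_cast; linarith)
      have e2 := key b a 2 (by push_cast; linarith)
      omega
    · have := hb' h2
      have e1 := key a b 1 (by push_cast; linarith)
      have e2 := key b a 1 (by push_cast; linarith)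
      omega
  · have := ha' h1
    have e1 := key a b 1 (by push_cast; linarith)
    have e2 := key b a 1 (by push_cast; linarith)
    omega

theorem bary_inj {B : Finset (Lat n)} {u u' : Lat n → ℝ} (hu : u ∈ Dl B) (hu' : u' ∈ Dl B)
    (h : bary B u = bary B u') : u = u' := by
  obtain ⟨h0, hB, hc, h1⟩ := hu
  obtain ⟨h0', hB', hc', h1'⟩ := hu'
  have p0 : ∀ e, 0 ≤ u e - min (u e) (u' e) := fun e => sub_nonneg.2 (min_le_left _ _)
  have p0' : ∀ e, 0 ≤ u' e - min (u e) (u' e) := fun e => sub_nonneg.2 (min_le_right _ _)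
  have s1 : ∑ e ∈ B, (u e - min (u e) (u' e)) = 1 - ∑ e ∈ B, min (u e) (u' e) := by
    rw [Finset.sum_sub_distrib, h1]
  have s1' : ∑ e ∈ B, (u' e - min (u e) (u' e)) = 1 - ∑ e ∈ B, min (u e) (u' e) := by
    rw [Finset.sum_sub_distrib, h1']
  have hμ : 0 ≤ 1 - ∑ e ∈ B, min (u e) (u' e) := s1 ▸ Finset.sum_nonneg fun e _ => p0 e
  rcases hμ.eq_or_lt with hμ | hμ
  · funext e
    by_cases he : e ∈ B
    · have a := (Finset.sum_eq_zero_iff_of_nonneg fun e _ => p0 e).1 (s1.trans hμ.symm) e he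
      have b := (Finset.sum_eq_zero_iff_of_nonneg fun e _ => p0' e).1 (s1'.trans hμ.symm) e he
      linarith
    · rw [hB e he, hB' e he]
  have n1 : ∀ e, u e - min (u e) (u' e) ≠ 0 → u e ≠ 0 := fun e a b =>
    a (by rw [b, min_eq_left (h0' e), sub_self])
  have n1' : ∀ e, u' e - min (u e) (u' e) ≠ 0 → u' e ≠ 0 := fun e a b =>
    a (by rw [b, min_eq_right (h0 e), sub_self])
  obtain ⟨m, -, hm, k⟩ := abt2_key p0 (fun e f a b => hc e f (n1 e a) (n1 f b)) s1 hμ
  obtain ⟨m', -, hm', k'⟩ := abt2_key p0' (fun e f a b => hc' e f (n1' e a) (n1' f b)) s1' hμ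
  have hb : ∀ i, bary B (fun e => u' e - min (u e) (u' e)) i =
      bary B (fun e => u e - min (u e) (u' e)) i := fun i => by
    have := congrFun h i
    simp only [bary, sub_mul, Finset.sum_sub_distrib] at this ⊢
    rw [this]
  have hmm : m = m' := funext fun i =>
    abt2_eq hμ (k i).1 (hb i ▸ (k' i).1) (k i).2 (hb i ▸ (k' i).2)
  subst hmm
  rcases min_choice (u m) (u' m) with e | e
  · rw [e, sub_self] at hm
    exact absurd hm (lt_irrefl _)
  · rw [e, sub_self] at hm'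
    exact absurd hm' (lt_irrefl _)

end Pool.Agent.Lib.MP_5ceaf9_gt
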