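import Pool.Agent.Lib.MP_5ceaf9_gt.ABLat

/-! The induced weights cover the order complex of the quotient. -/

open scoped Manifold ContDiff Topology
open Filter

noncomputable section

namespace Pool.Agent.Lib.MP_5ceaf9_gt

variable {n : ℕ}

open Classical in
theorem abt3_lift (η : Fin n → Bool) {B : Finset (Lat n)} (iB : Invt η B) (fB : Free η B)
    {σ : Finset (QL η)} (hs : σ ⊆ B.image (pq η)) (hne : σ.Nonempty)
    (hc : ∀ a ∈ σ, ∀ b ∈ σ, lq η a b ∨ lq η b a) :
    ∃ s : QL η → Lat n, (∀ a, pq η (s a) = a) ∧ (∀ a ∈ σ, s a ∈ B) ∧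
      ∀ a ∈ σ, ∀ b ∈ σ, le1 (s a) (s b) ∨ le1 (s b) (s a) := by
  have hout : ∀ a ∈ σ, (a.out : Lat n) ∈ B := by
    intro a ha
    obtain ⟨e, he, rfl⟩ := Finset.mem_image.1 (hs ha)
    rcases (pq_eq_iff η).1 (pq_out η (pq η e)).symm with h | h
    · rw [h]
      exact he
    · rw [h]
      exact iB e he
  obtain ⟨m, hm, hmax⟩ := σ.exists_max_image (fun a => dimE (a.out : Lat n)) hne
  let s : QL η → Lat n := fun a => if le1 m.out a.out then a.out else fl η a.out
  have hpq : ∀ a, pq η (s a) = a := by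
    intro a
    by_cases h : le1 m.out a.out
    · simp only [s, h, if_true]
      exact pq_out η a
    · simp only [s, h, if_false]
      rw [pq_fl]
      exact pq_out η a
  have hB : ∀ a ∈ σ, s a ∈ B := by
    intro a ha
    by_cases h : le1 m.out a.out
    · simp only [s, h, if_true]
      exact hout a ha
    · simp only [s, h, if_false]
      exact iB _ (hout a ha)
  have hle : ∀ a ∈ σ, le1 m.out (s a) := by
    intro a ha
    by_cases h : le1 m.out a.out
    · simp only [s, h, if_true]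
    · simp only [s, h, if_false]
      rcases hc m hm a ha with h1 | h1
      · rcases h1 with h1 | h1
        · exact absurd h1 h
        · have := le1_fl η h1
          rwa [fl_fl] at this
      · rcases h1 with h1 | h1
        · have := eq_of_le1_of_dimE h1 (hmax a ha)
          rw [this] at h
          exact absurd (le1_refl _) h
        · have := eq_of_le1_of_dimE h1 (by rw [dimE_fl]; exact hmax a ha)
          rw [this]
          exact le1_refl _
  have key : ∀ a ∈ σ, ∀ b ∈ σ, lq η a b → le1 (s a) (s b) := by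
    intro a ha b hb hab
    rw [← hpq a, ← hpq b, lq_pq] at hab
    rcases hab with h | h
    · exact h
    · exact absurd (fl_eq_of_le1 η (hle b hb) (le1_trans (le1_fl η (hle a ha)) h))
        (fB _ (hout m hm))
  exact ⟨s, hpq, hB, fun a ha b hb => (hc a ha b hb).imp (key a ha b hb) (key b hb a ha)⟩

open Classical in
theorem wt_mem (η : Fin n → Bool) {B : Finset (Lat n)} (ℓ : QL η → ℕ) (K : SC)
    (hK : ∀ ρ, ρ ∈ K.faces ↔ ∃ σ : Finset (QL η), σ ⊆ B.image (pq η) ∧ σ.Nonempty ∧
      (∀ a ∈ σ, ∀ b ∈ σ, lq η a b ∨ lq η b a) ∧ ρ = σ.image ℓ)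
    {u : Lat n → ℝ} (hu : u ∈ Dl B) : wt η B ℓ u ∈ K.space := by
  obtain ⟨h0, -, hc, h1⟩ := hu
  refine ⟨fun v => Finset.sum_nonneg fun e _ => h0 e, ?_⟩
  let T := B.filter (fun e => u e ≠ 0)
  have hT : ∑ e ∈ T, u e = 1 := by
    rw [← h1]
    exact Finset.sum_filter_ne_zero B
  have hne : T.Nonempty := by
    rw [Finset.nonempty_iff_ne_empty]
    intro h
    rw [h, Finset.sum_empty] at hT
    exact zero_ne_one hT
  refine ⟨(T.image (pq η)).image ℓ, (hK _).2 ⟨T.image (pq η),
    Finset.image_subset_image (Finset.filter_subset _ _), hne.image _, ?_, rfl⟩, ?_, ?_⟩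
  · intro a ha b hb
    obtain ⟨e, he, rfl⟩ := Finset.mem_image.1 ha
    obtain ⟨f, hf, rfl⟩ := Finset.mem_image.1 hb
    rcases hc e f (Finset.mem_filter.1 he).2 (Finset.mem_filter.1 hf).2 with h | h
    · exact Or.inl ((lq_pq η).2 (Or.inl h))
    · exact Or.inr ((lq_pq η).2 (Or.inl h))
  · intro v hv
    refine Finset.sum_eq_zero fun e he => ?_
    by_contra h
    obtain ⟨heB, hev⟩ := Finset.mem_filter.1 he
    exact hv (Finset.mem_image.2 ⟨pq η e,
      Finset.mem_image_of_mem _ (Finset.mem_filter.2 ⟨heB, h⟩), hev⟩)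
  · rw [← hT, ← Finset.sum_fiberwise_of_maps_to (s := T) (t := (T.image (pq η)).image ℓ)
      (g := fun e => ℓ (pq η e))
      (fun e he => Finset.mem_image_of_mem _ (Finset.mem_image_of_mem _ he))]
    refine Finset.sum_congr rfl fun v _ => ?_
    unfold wt
    symm
    refine Finset.sum_subset (Finset.filter_subset_filter _ (Finset.filter_subset _ _)) ?_
    intro e he he'
    by_contra h
    obtain ⟨heB, hev⟩ := Finset.mem_filter.1 he
    exact he' (Finset.mem_filter.2 ⟨Finset.mem_filter.2 ⟨heB, h⟩, hev⟩)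

open Classical in
theorem wt_surj (η : Fin n → Bool) {B : Finset (Lat n)} (iB : Invt η B) (fB : Free η B)
    (ℓ : QL η → ℕ) (hℓ : Set.InjOn ℓ (B.image (pq η))) (K : SC)
    (hK : ∀ ρ, ρ ∈ K.faces ↔ ∃ σ : Finset (QL η), σ ⊆ B.image (pq η) ∧ σ.Nonempty ∧
      (∀ a ∈ σ, ∀ b ∈ σ, lq η a b ∨ lq η b a) ∧ ρ = σ.image ℓ)
    {w : ℕ → ℝ} (hw : w ∈ K.space) : ∃ u ∈ Dl B, wt η B ℓ u = w := by
  obtain ⟨h0, ρ, hρ, hz, h1⟩ := hw
  obtain ⟨σ, hs, hne, hc, rfl⟩ := (hK ρ).1 hρ
  obtain ⟨s, hpq, hB, hcs⟩ := abt3_lift η iB fB hs hne hc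
  have hℓ' : ∀ a ∈ σ, ∀ b ∈ σ, ℓ a = ℓ b → a = b := fun a ha b hb h =>
    hℓ (by simpa using hs ha) (by simpa using hs hb) h
  have hsub : σ.image s ⊆ B := by
    intro e he
    obtain ⟨a, ha, rfl⟩ := Finset.mem_image.1 he
    exact hB a ha
  refine ⟨fun e => if e ∈ σ.image s then w (ℓ (pq η e)) else 0, ⟨?_, ?_, ?_, ?_⟩, ?_⟩
  · intro e
    dsimp only
    split_ifs
    · exact h0 _
    · exact le_rfl
  · intro e he
    exact if_neg fun h => he (hsub h)
  · intro e f he hf
    have he' : e ∈ σ.image s := by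
      by_contra h
      exact he (if_neg h)
    have hf' : f ∈ σ.image s := by
      by_contra h
      exact hf (if_neg h)
    obtain ⟨a, ha, rfl⟩ := Finset.mem_image.1 he'
    obtain ⟨b, hb, rfl⟩ := Finset.mem_image.1 hf'
    exact hcs a ha b hb
  · rw [← h1, Finset.sum_image hℓ', Finset.sum_ite_mem, Finset.inter_eq_right.2 hsub,
      Finset.sum_image (fun a _ b _ h => by rw [← hpq a, ← hpq b, h])]
    simp only [hpq]
  · funext v
    unfold wt
    by_cases hv : v ∈ σ.image ℓ
    · obtain ⟨a, ha, rfl⟩ := Finset.mem_image.1 hv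
      rw [Finset.sum_eq_single (s a)]
      · rw [if_pos (Finset.mem_image_of_mem _ ha), hpq]
      · intro e he hne'
        refine if_neg fun h => hne' ?_
        obtain ⟨b, hb, rfl⟩ := Finset.mem_image.1 h
        have := (Finset.mem_filter.1 he).2
        rw [hpq] at this
        rw [hℓ' b hb a ha this]
      · intro h
        exact absurd (Finset.mem_filter.2 ⟨hB a ha, by rw [hpq]⟩) h
    · rw [hz v hv]
      refine Finset.sum_eq_zero fun e he => if_neg fun h => hv ?_
      obtain ⟨b, hb, rfl⟩ := Finset.mem_image.1 h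
      have := (Finset.mem_filter.1 he).2
      rw [hpq] at this
      exact Finset.mem_image.2 ⟨b, hb, this⟩

end Pool.Agent.Lib.MP_5ceaf9_gt
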