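import Pool.Agent.Lib.MP_5ceaf9_gt.ABLat

/-! The induced weights determine the weights up to the flip. -/

open scoped Manifold ContDiff Topology
open Filter

noncomputable section

namespace Pool.Agent.Lib.MP_5ceaf9_gt

variable {n : ℕ}

theorem abt4_mem {B : Finset (Lat n)} {u : Lat n → ℝ} (hu : u ∈ Dl B) {e : Lat n}
    (h : u e ≠ 0) : e ∈ B := by
  by_contra hb
  exact h (hu.2.1 e hb)

theorem abt4_not_both (η : Fin n → Bool) {B : Finset (Lat n)} (fB : Free η B) {u : Lat n → ℝ}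
    (hu : u ∈ Dl B) {e : Lat n} (h : u e ≠ 0) : u (fl η e) = 0 := by
  by_contra h'
  refine fB e (abt4_mem hu h) ?_
  rcases hu.2.2.1 e (fl η e) h h' with k | k
  · exact (eq_of_le1_of_dimE k (dimE_fl η e).ge).symm
  · exact eq_of_le1_of_dimE k (dimE_fl η e).le

theorem abt4_fl (η : Fin n → Bool) {B : Finset (Lat n)} (iB : Invt η B) {u : Lat n → ℝ}
    (hu : u ∈ Dl B) : (fun e => u (fl η e)) ∈ Dl B := by
  refine ⟨fun e => hu.1 _, fun e he => hu.2.1 _ fun h => he ((invt_iff iB).1 h),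
    fun e f he hf => ?_, ?_⟩
  · simpa only [le1_fl_iff] using hu.2.2.1 _ _ he hf
  · rw [← hu.2.2.2]
    exact Finset.sum_nbij' (fl η) (fl η) (fun a ha => iB a ha) (fun a ha => iB a ha)
      (fun a _ => fl_fl η a) (fun a _ => fl_fl η a) (fun _ _ => rfl)

theorem abt4_core (η : Fin n → Bool) {B : Finset (Lat n)} (fB : Free η B) {u u' : Lat n → ℝ}
    (hu : u ∈ Dl B) (hu' : u' ∈ Dl B)
    (h : ∀ e ∈ B, u e + u (fl η e) = u' e + u' (fl η e)) {m : Lat n}
    (hm : ∀ e, u e ≠ 0 → le1 m e) (hm' : u' m ≠ 0) : u' = u := by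
  have key : ∀ e, u e ≠ 0 → u e = u' e := by
    intro e he
    have h1 := abt4_not_both η fB hu he
    have h2 : u' (fl η e) = 0 := by
      by_contra h'
      have k : le1 m (fl η e) := by
        rcases hu'.2.2.1 m (fl η e) hm' h' with k | k
        · exact k
        · have := eq_of_le1_of_dimE k ((dimE_fl η e).le.trans (dimE_anti (hm e he)))
          rw [this]
          exact le1_refl _
      have k' : le1 (fl η m) e := by simpa only [fl_fl] using le1_fl η k
      exact fB m (abt4_mem hu' hm') (fl_eq_of_le1 η (hm e he) k')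
    have := h e (abt4_mem hu he)
    rwa [h1, h2, add_zero, add_zero] at this
  have hle : ∀ e ∈ B, u e ≤ u' e := by
    intro e _
    by_cases he : u e = 0
    · rw [he]
      exact hu'.1 e
    · exact (key e he).le
  have hs := (Finset.sum_eq_sum_iff_of_le hle).1 (hu.2.2.2.trans hu'.2.2.2.symm)
  funext e
  by_cases he : e ∈ B
  · exact (hs e he).symm
  · rw [hu.2.1 e he, hu'.2.1 e he]

open Classical in
theorem abt4_wt (η : Fin n → Bool) {B : Finset (Lat n)} (iB : Invt η B) (fB : Free η B)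
    (ℓ : QL η → ℕ) (hℓ : Set.InjOn ℓ (B.image (pq η))) (u : Lat n → ℝ) {e : Lat n}
    (he : e ∈ B) : wt η B ℓ u (ℓ (pq η e)) = u e + u (fl η e) := by
  have hf : B.filter (fun f => ℓ (pq η f) = ℓ (pq η e)) = {e, fl η e} := by
    ext f
    simp only [Finset.mem_filter, Finset.mem_insert, Finset.mem_singleton]
    constructor
    · rintro ⟨h1, h2⟩
      exact (pq_eq_iff η).1 (hℓ (Finset.mem_coe.2 (Finset.mem_image_of_mem _ h1))
        (Finset.mem_coe.2 (Finset.mem_image_of_mem _ he)) h2).symm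
    · rintro (rfl | rfl)
      · exact ⟨he, rfl⟩
      · exact ⟨iB e he, by rw [pq_fl]⟩
  unfold wt
  rw [hf, Finset.sum_pair (fB e he).symm]

open Classical in
theorem wt_ker (η : Fin n → Bool) {B : Finset (Lat n)} (iB : Invt η B) (fB : Free η B)
    (ℓ : QL η → ℕ) (hℓ : Set.InjOn ℓ (B.image (pq η))) {u u' : Lat n → ℝ} (hu : u ∈ Dl B)
    (hu' : u' ∈ Dl B) (h : wt η B ℓ u = wt η B ℓ u') : u' = u ∨ u' = fun e => u (fl η e) := by
  have h0 : ∀ e ∈ B, u e + u (fl η e) = u' e + u' (fl η e) := fun e he => by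
    rw [← abt4_wt η iB fB ℓ hℓ u he, ← abt4_wt η iB fB ℓ hℓ u' he, h]
  have hne : (B.filter (fun e => u e ≠ 0)).Nonempty := by
    obtain ⟨e, he, h1⟩ := Finset.exists_ne_zero_of_sum_ne_zero
      (show ∑ e ∈ B, u e ≠ 0 by rw [hu.2.2.2]; exact one_ne_zero)
    exact ⟨e, Finset.mem_filter.2 ⟨he, h1⟩⟩
  obtain ⟨m, hm, hl⟩ := exists_least hne fun a ha b hb =>
    hu.2.2.1 a b (Finset.mem_filter.1 ha).2 (Finset.mem_filter.1 hb).2
  obtain ⟨hmB, hm0⟩ := Finset.mem_filter.1 hm
  have hl' : ∀ e, u e ≠ 0 → le1 m e := fun e he =>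
    hl e (Finset.mem_filter.2 ⟨abt4_mem hu he, he⟩)
  by_cases hc : u' m = 0
  · right
    have h1 : u' (fl η m) ≠ 0 := by
      have := h0 m hmB
      rw [abt4_not_both η fB hu hm0, hc, add_zero, zero_add] at this
      rw [← this]
      exact hm0
    have h2 := abt4_core η fB hu (abt4_fl η iB hu') (fun e he => by
      simp only [fl_fl]
      rw [h0 e he, add_comm]) hl' h1
    funext e
    rw [← h2]
    simp only [fl_fl]
  · exact Or.inl (abt4_core η fB hu hu' h0 hl' hc)

end Pool.Agent.Lib.MP_5ceaf9_gt
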