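import Mathlib

/-! Differential matrices: contractibility, the eighth power of the torsion, mapping cones. -/

noncomputable section

namespace Pool.Agent.Lib.MP_5ceaf9_gt

section defs

variable {ι κ Λ F : Type}

/-- The matrix changes the parity. -/
def OddM [Zero Λ] (p' : κ → Bool) (p : ι → Bool) (d : Matrix κ ι Λ) : Prop :=
  ∀ x y, d x y ≠ 0 → p' x ≠ p y

/-- The matrix keeps the parity. -/
def EvenM [Zero Λ] (p' : κ → Bool) (p : ι → Bool) (f : Matrix κ ι Λ) : Prop :=
  ∀ x y, f x y ≠ 0 → p' x = p y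

/-- The matrix raises the degree by `k`. -/
def Gr [Zero Λ] (g' : κ → ℤ) (g : ι → ℤ) (k : ℤ) (f : Matrix κ ι Λ) : Prop :=
  ∀ x y, f x y ≠ 0 → g' x = g y + k

/-- A differential matrix: odd and of square zero. -/
def Dm [Ring Λ] [Fintype ι] (p : ι → Bool) (d : Matrix ι ι Λ) : Prop :=
  d * d = 0 ∧ OddM p p d

/-- A contractible differential matrix. -/
def Ctr [Ring Λ] [Fintype ι] [DecidableEq ι] (d : Matrix ι ι Λ) : Prop :=
  ∃ s : Matrix ι ι Λ, d * s + s * d = 1

/-- `t` is the eighth power of the determinant of `d + s` from the odd to the even part. -/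
def TorW [Field F] [Fintype ι] [DecidableEq ι] (p : ι → Bool) (d : Matrix ι ι F) (t : F) : Prop :=
  ∃ s : Matrix ι ι F, OddM p p s ∧ s * s = 0 ∧ d * s + s * d = 1 ∧
    ∃ e : {x // p x = true} ≃ {x // p x = false},
      t = (Matrix.det (Matrix.of fun x y : {x // p x = true} => (d + s) (e x).1 y.1)) ^ 8

open Classical in
/-- The eighth power of the torsion; zero when the matrix is not contractible. -/
def tor [Field F] [Fintype ι] [DecidableEq ι] (p : ι → Bool) (d : Matrix ι ι F) : F :=
  if h : ∃ t, TorW p d t then h.choose else 0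

/-- The mapping cone of `f` from the complex `d` to the complex `d'`. -/
def cone [Ring Λ] (d' : Matrix κ κ Λ) (d : Matrix ι ι Λ) (f : Matrix κ ι Λ) :
    Matrix (κ ⊕ ι) (κ ⊕ ι) Λ := Matrix.fromBlocks d' f 0 (-d)

/-- The parity on a mapping cone. -/
def cpar (p' : κ → Bool) (p : ι → Bool) : κ ⊕ ι → Bool := Sum.elim p' (fun x => !p x)

/-- Good at level `l`: differential; contractible from level one on; of trivial torsion under
the ring maps in `Φ` from level two on. -/
def Gd [Ring Λ] [Field F] [Fintype ι] [DecidableEq ι] (l : ℕ) (Φ : Set (Λ →+* F))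
    (p : ι → Bool) (d : Matrix ι ι Λ) : Prop :=
  Dm p d ∧ (1 ≤ l → Ctr d) ∧ (2 ≤ l → ∀ φ ∈ Φ, tor p (d.map φ) = 1)

/-- The matrix of a function of two variables on finite sets. -/
def rs (A : Finset κ) (B : Finset ι) (M : κ → ι → Λ) : Matrix A B Λ :=
  Matrix.of fun x y => M x y

/-- The diagonal block cut out by a predicate. -/
def blk (d : Matrix ι ι Λ) (q : ι → Prop) : Matrix {x // q x} {x // q x} Λ :=
  Matrix.of fun x y => d x y

/-- The indices with `q` span a subcomplex. -/
def Sub [Zero Λ] (d : Matrix ι ι Λ) (q : ι → Prop) : Prop := ∀ x y, d x y ≠ 0 → q y → q x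

/-- The integral group ring. -/
abbrev ZG (Γ : Type) : Type := MonoidAlgebra ℤ Γ

/-- Ring maps from the group ring that send group elements to eighth roots of unity. -/
def PhiG (Γ F : Type) [Group Γ] [Field F] : Set (ZG Γ →+* F) :=
  {φ | ∀ g : Γ, φ (MonoidAlgebra.single g 1) ^ 8 = 1}

end defs

end Pool.Agent.Lib.MP_5ceaf9_gt
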