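import Pool.Agent.Lib.MP_5ceaf9_gt.Alg

/-! Contractible differential matrices. -/

noncomputable section

namespace Pool.Agent.Lib.MP_5ceaf9_gt

variable {ι κ Λ Λ' : Type} [Ring Λ] [Ring Λ'] [Fintype ι] [DecidableEq ι] [Fintype κ]
  [DecidableEq κ] {p : ι → Bool} {d : Matrix ι ι Λ}

theorem Dm.map (h : Dm p d) (φ : Λ →+* Λ') : Dm p (d.map φ) := by
  refine ⟨?_, fun x y hxy => h.2 x y fun h0 => hxy ?_⟩
  · rw [← Matrix.map_mul, h.1]
    exact Matrix.map_zero _ (map_zero φ)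
  · rw [Matrix.map_apply, h0, map_zero]

theorem Ctr.map (h : Ctr d) (φ : Λ →+* Λ') : Ctr (d.map φ) := by
  obtain ⟨s, hs⟩ := h
  refine ⟨s.map φ, ?_⟩
  rw [← Matrix.map_mul, ← Matrix.map_mul, ← Matrix.map_add _ (map_add φ), hs]
  exact Matrix.map_one _ (map_zero φ) (map_one φ)

theorem alga_ne {A B : Matrix ι ι Λ} {x y : ι} (h : (A * B) x y ≠ 0) :
    ∃ z, A x z ≠ 0 ∧ B z y ≠ 0 := by
  rw [Matrix.mul_apply] at h
  obtain ⟨z, -, hz⟩ := Finset.exists_ne_zero_of_sum_ne_zero h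
  exact ⟨z, left_ne_zero_of_mul hz, right_ne_zero_of_mul hz⟩

theorem alga_dm (h : Dm p d) (e : κ ≃ ι) : Dm (fun x => p (e x)) (d.submatrix e e) :=
  ⟨by rw [Matrix.submatrix_mul_equiv, h.1]; rfl, fun _ _ hxy => h.2 _ _ hxy⟩

theorem alga_ctr (h : Ctr d) (e : κ ≃ ι) : Ctr (d.submatrix e e) := by
  obtain ⟨s, hs⟩ := h
  refine ⟨s.submatrix e e, ?_⟩
  rw [Matrix.submatrix_mul_equiv, Matrix.submatrix_mul_equiv, ← Matrix.submatrix_one_equiv e, ← hs]
  rfl

theorem dm_reindex (e : κ ≃ ι) : Dm (fun x => p (e x)) (d.submatrix e e) ↔ Dm p d := by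
  refine ⟨fun h => ?_, fun h => alga_dm h e⟩
  simpa using alga_dm h e.symm

theorem ctr_reindex (e : κ ≃ ι) : Ctr (d.submatrix e e) ↔ Ctr d := by
  refine ⟨fun h => ?_, fun h => alga_ctr h e⟩
  simpa using alga_ctr h e.symm

theorem Dm.neg (h : Dm p d) : Dm p (-d) := by
  exact ⟨by rw [neg_mul_neg, h.1], fun x y hxy => h.2 x y (neg_ne_zero.1 hxy)⟩

theorem Ctr.neg (h : Ctr d) : Ctr (-d) := by
  obtain ⟨s, hs⟩ := h
  exact ⟨-s, by rw [neg_mul_neg, neg_mul_neg, hs]⟩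

theorem alga_blocks (h : d * d = 0) {q : ι → Prop} [DecidablePred q] (hq : Sub d q) :
    ∃ b : Matrix {x // q x} {x // ¬ q x} Λ,
      d.submatrix (Equiv.sumCompl q) (Equiv.sumCompl q) =
        Matrix.fromBlocks (blk d q) b 0 (blk d fun x => ¬ q x) ∧
      blk d q * blk d q = 0 ∧ (blk d q * b + b * blk d fun x => ¬ q x) = 0 ∧
      ((blk d fun x => ¬ q x) * blk d fun x => ¬ q x) = 0 := by
  have h0 : d.submatrix (Equiv.sumCompl q) (Equiv.sumCompl q) = Matrix.fromBlocks (blk d q)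
      (Matrix.of fun x y => d x.1 y.1) 0 (blk d fun x => ¬ q x) := by
    ext (x | x) (y | y)
    · rfl
    · rfl
    · by_contra h1
      exact x.2 (hq x y h1 y.2)
    · rfl
  refine ⟨_, h0, ?_⟩
  have h1 := Matrix.submatrix_mul_equiv d d (Equiv.sumCompl q) (Equiv.sumCompl q) (Equiv.sumCompl q)
  rw [h0, h, Matrix.fromBlocks_multiply, Matrix.submatrix_zero, Pi.zero_apply, Pi.zero_apply,
    ← Matrix.fromBlocks_zero, Matrix.fromBlocks_inj, Matrix.mul_zero, add_zero, Matrix.zero_mul,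
    Matrix.zero_mul, zero_add, zero_add] at h1
  exact ⟨h1.1, h1.2.1, h1.2.2.2⟩

theorem alga_of {a : Matrix ι ι Λ} {b : Matrix ι κ Λ} {c : Matrix κ κ Λ} (h : a * b + b * c = 0)
    (ha : Ctr a) (hc : Ctr c) : Ctr (Matrix.fromBlocks a b 0 c) := by
  obtain ⟨s, ha⟩ := ha
  obtain ⟨t, hc⟩ := hc
  have e : a * -(s * (b * t + s * b)) + b * t + (s * b + -(s * (b * t + s * b)) * c) =
      (1 - (a * s + s * a)) * (b * t + s * b) + s * ((a * b + b * c) * t + (a * s + s * a) * b -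
        b * (c * t + t * c) - s * (a * b + b * c)) := by
    simp only [Matrix.mul_add, Matrix.add_mul, Matrix.mul_sub, Matrix.sub_mul, Matrix.mul_neg,
      Matrix.neg_mul, Matrix.mul_assoc, Matrix.one_mul]
    abel
  refine ⟨Matrix.fromBlocks s (-(s * (b * t + s * b))) 0 t, ?_⟩
  rw [Matrix.fromBlocks_multiply, Matrix.fromBlocks_multiply, Matrix.fromBlocks_add, e, h, ha, hc,
    ← Matrix.fromBlocks_one]
  simp [ha, hc]

theorem alga_split {a : Matrix ι ι Λ} {b : Matrix ι κ Λ} {c : Matrix κ κ Λ}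
    (h : Ctr (Matrix.fromBlocks a b 0 c)) : ∃ (s : Matrix ι ι Λ) (u : Matrix κ ι Λ)
      (t : Matrix κ κ Λ), a * s + b * u + s * a = 1 ∧ c * u + u * a = 0 ∧
        c * t + (u * b + t * c) = 1 := by
  obtain ⟨s, hs⟩ := h
  rw [← Matrix.fromBlocks_toBlocks s, Matrix.fromBlocks_multiply, Matrix.fromBlocks_multiply,
    Matrix.fromBlocks_add, ← Matrix.fromBlocks_one, Matrix.fromBlocks_inj] at hs
  simp only [Matrix.mul_zero, Matrix.zero_mul, add_zero, zero_add] at hs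
  exact ⟨_, _, _, hs.1, hs.2.2.1, hs.2.2.2⟩

theorem alga_quot {a : Matrix ι ι Λ} {b : Matrix ι κ Λ} {c : Matrix κ κ Λ} (h : a * b + b * c = 0)
    (hd : Ctr (Matrix.fromBlocks a b 0 c)) (ha : Ctr a) : Ctr c := by
  obtain ⟨s, ha⟩ := ha
  obtain ⟨-, u, t, -, h1, h2⟩ := alga_split hd
  refine ⟨t - u * (s * b), ?_⟩
  have e : c * (t - u * (s * b)) + (t - u * (s * b)) * c = c * t + (u * b + t * c) -
      (c * u + u * a) * (s * b) - u * (s * (a * b + b * c)) +
        u * ((a * s + s * a - 1) * b) := by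
    simp only [Matrix.mul_add, Matrix.add_mul, Matrix.mul_sub, Matrix.sub_mul, Matrix.mul_assoc,
      Matrix.one_mul]
    abel
  rw [e, h, ha, h1, h2]
  simp

theorem alga_sub {a : Matrix ι ι Λ} {b : Matrix ι κ Λ} {c : Matrix κ κ Λ} (h : a * b + b * c = 0)
    (hd : Ctr (Matrix.fromBlocks a b 0 c)) (hc : Ctr c) : Ctr a := by
  obtain ⟨t, hc⟩ := hc
  obtain ⟨s, u, -, h2, h1, -⟩ := alga_split hd
  refine ⟨s - b * t * u, ?_⟩
  have e : a * (s - b * t * u) + (s - b * t * u) * a = a * s + b * u + s * a -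
      b * t * (c * u + u * a) - (a * b + b * c) * t * u + b * (c * t + t * c - 1) * u := by
    simp only [Matrix.mul_add, Matrix.add_mul, Matrix.mul_sub, Matrix.sub_mul, Matrix.mul_assoc,
      Matrix.mul_one]
    abel
  rw [e, h, hc, h1, h2]
  simp

theorem Dm.blk_sub (h : Dm p d) {q : ι → Prop} [DecidablePred q] (hq : Sub d q) :
    Dm (fun x : {x // q x} => p x) (blk d q) := by
  obtain ⟨b, -, h1, -⟩ := alga_blocks h.1 hq
  exact ⟨h1, fun x y hxy => h.2 x y hxy⟩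

theorem Dm.blk_quot (h : Dm p d) {q : ι → Prop} [DecidablePred q] (hq : Sub d q) :
    Dm (fun x : {x // ¬ q x} => p x) (blk d (fun x => ¬ q x)) := by
  obtain ⟨b, -, -, -, h1⟩ := alga_blocks h.1 hq
  exact ⟨h1, fun x y hxy => h.2 x y hxy⟩

/-- Reindex by `Equiv.sumCompl q` to `fromBlocks a b 0 c`. With `s0 = fromBlocks sa 0 0 sc`,
`d s0 + s0 d = 1 + n`, `n` strictly upper triangular and commuting with `d`; take `s0 (1 - n)`. -/
theorem ctr_of_blocks (h : d * d = 0) {q : ι → Prop} [DecidablePred q] (hq : Sub d q)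
    (ha : Ctr (blk d q)) (hc : Ctr (blk d (fun x => ¬ q x))) : Ctr d := by
  obtain ⟨b, h0, -, h1, -⟩ := alga_blocks h hq
  rw [← ctr_reindex (Equiv.sumCompl q), h0]
  exact alga_of h1 ha hc

/-- With `θ = sa b` one has `b = a θ - θ c`, so `x ↦ (-θ x, x)` is a chain map splitting the
projection to the quotient. -/
theorem ctr_quot (h : d * d = 0) {q : ι → Prop} [DecidablePred q] (hq : Sub d q)
    (hd : Ctr d) (ha : Ctr (blk d q)) : Ctr (blk d (fun x => ¬ q x)) := by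
  obtain ⟨b, h0, -, h1, -⟩ := alga_blocks h hq
  rw [← ctr_reindex (Equiv.sumCompl q), h0] at hd
  exact alga_quot h1 hd ha

/-- Dual to `ctr_quot`, with `θ = b sc`. -/
theorem ctr_sub (h : d * d = 0) {q : ι → Prop} [DecidablePred q] (hq : Sub d q)
    (hd : Ctr d) (hc : Ctr (blk d (fun x => ¬ q x))) : Ctr (blk d q) := by
  obtain ⟨b, h0, -, h1, -⟩ := alga_blocks h hq
  rw [← ctr_reindex (Equiv.sumCompl q), h0] at hd
  exact alga_sub h1 hd hc

theorem Ctr.conj (h : Ctr d) {P Q : Matrix ι ι Λ} (h1 : P * Q = 1) (h2 : Q * P = 1) :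
    Ctr (P * d * Q) := by
  obtain ⟨s, hs⟩ := h
  refine ⟨P * s * Q, ?_⟩
  have e : P * d * Q * (P * s * Q) + P * s * Q * (P * d * Q) =
      P * (d * (Q * P) * s + s * (Q * P) * d) * Q := by
    simp only [mul_add, add_mul, mul_assoc]
  rw [e, h2, mul_one, mul_one, hs, mul_one, h1]

theorem Dm.conj (h : Dm p d) {P Q : Matrix ι ι Λ} (h2 : Q * P = 1) (hP : EvenM p p P)
    (hQ : EvenM p p Q) : Dm p (P * d * Q) := by
  refine ⟨?_, fun x y hxy => ?_⟩
  · have e : P * d * Q * (P * d * Q) = P * (d * (Q * P) * d) * Q := by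
      simp only [mul_assoc]
    rw [e, h2, mul_one, h.1, mul_zero, zero_mul]
  · obtain ⟨z, h3, h4⟩ := alga_ne hxy
    obtain ⟨w, h5, h6⟩ := alga_ne h3
    exact (hP _ _ h5).trans_ne ((h.2 _ _ h6).trans_eq (hQ _ _ h4))

/-- Transposition combined with an anti-homomorphism. -/
theorem Ctr.anti (h : Ctr d) (ψ : Λ →+* Λ'ᵐᵒᵖ) :
    Ctr (Matrix.of fun x y => (ψ (d y x)).unop) := by
  obtain ⟨s, hs⟩ := h
  refine ⟨Matrix.of fun x y => (ψ (s y x)).unop, ?_⟩
  ext x y
  have h1 := congrArg (fun M : Matrix ι ι Λ => (ψ (M y x)).unop) hs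
  simp only [Matrix.add_apply, Matrix.mul_apply, map_add, map_sum, map_mul, MulOpposite.unop_add,
    Finset.unop_sum, MulOpposite.unop_mul] at h1
  simp only [Matrix.add_apply, Matrix.mul_apply, Matrix.of_apply]
  rw [add_comm, h1]
  by_cases hxy : x = y
  · rw [hxy, Matrix.one_apply_eq, Matrix.one_apply_eq, map_one, MulOpposite.unop_one]
  · rw [Matrix.one_apply_ne hxy, Matrix.one_apply_ne' hxy, map_zero, MulOpposite.unop_zero]

/-- Take the odd part `so` of a contraction, then `so d so`. -/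
theorem Ctr.normal (hd : Dm p d) (h : Ctr d) :
    ∃ s : Matrix ι ι Λ, OddM p p s ∧ s * s = 0 ∧ d * s + s * d = 1 := by
  obtain ⟨s, hs⟩ := h
  obtain ⟨t, ht⟩ : ∃ t : Matrix ι ι Λ, ∀ x y, t x y = if p x = p y then 0 else s x y :=
    ⟨Matrix.of fun x y => if p x = p y then 0 else s x y, fun _ _ => rfl⟩
  have b2 : ∀ a b c : Bool, a ≠ b → a ≠ c → b = c := by decide
  have b3 : ∀ a b c e : Bool, a ≠ b → b ≠ c → c ≠ e → a ≠ e := by decide
  have h1 : OddM p p t := fun x y hxy h0 => hxy (by rw [ht, if_pos h0])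
  have h2 : d * t + t * d = 1 := by
    ext x y
    by_cases hxy : p x = p y
    · rw [← hs]
      simp only [Matrix.add_apply, Matrix.mul_apply]
      congr 1 <;> refine Finset.sum_congr rfl fun z _ => ?_
      · by_cases h0 : d x z = 0
        · rw [h0, zero_mul, zero_mul]
        · rw [ht, if_neg ((hd.2 _ _ h0).symm.trans_eq hxy)]
      · by_cases h0 : d z y = 0
        · rw [h0, mul_zero, mul_zero]
        · rw [ht, if_neg (hxy.trans_ne (hd.2 _ _ h0).symm)]
    · have h3 : (d * t) x y = 0 := by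
        by_contra h0
        obtain ⟨z, h4, h5⟩ := alga_ne h0
        exact h1 _ _ h5 (b2 _ _ _ (hd.2 _ _ h4) hxy)
      have h4 : (t * d) x y = 0 := by
        by_contra h0
        obtain ⟨z, h4, h5⟩ := alga_ne h0
        exact hd.2 _ _ h5 (b2 _ _ _ (h1 _ _ h4) hxy)
      rw [Matrix.add_apply, h3, h4, add_zero, Matrix.one_apply_ne fun h0 => hxy (congrArg p h0)]
  have h3 : d * t * d = d := by
    rw [eq_sub_of_add_eq h2, sub_mul, one_mul, mul_assoc, hd.1, mul_zero, sub_zero]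
  have h4 : d * t * t = t * t * d := by
    rw [eq_sub_of_add_eq h2, mul_assoc t t, eq_sub_of_add_eq' h2, mul_sub, mul_one, sub_mul,
      one_mul, ← mul_assoc t d, eq_sub_of_add_eq' h2]
  refine ⟨t * d * t, fun x y hxy => ?_, ?_, ?_⟩
  · obtain ⟨z, h5, h6⟩ := alga_ne hxy
    obtain ⟨w, h7, h8⟩ := alga_ne h5
    exact b3 _ _ _ _ (h1 _ _ h7) (hd.2 _ _ h8) (h1 _ _ h6)
  · have e : t * d * t * (t * d * t) = t * (d * t * t) * d * t := by simp only [mul_assoc]
    rw [e, h4, mul_assoc t, mul_assoc (t * t), hd.1, mul_zero, mul_zero, zero_mul]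
  · have e : d * (t * d * t) + t * d * t * d = d * t * d * t + t * (d * t * d) := by
      simp only [mul_assoc]
    rw [e, h3, h2]

end Pool.Agent.Lib.MP_5ceaf9_gt
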