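import Pool.Agent.Lib.MP_5ceaf9_gt.AlgA

/-! The torsion is well defined. -/

noncomputable section

namespace Pool.Agent.Lib.MP_5ceaf9_gt

variable {ι κ F : Type} [Field F] [Fintype ι] [DecidableEq ι] [Fintype κ]
  [DecidableEq κ] {p : ι → Bool} {d : Matrix ι ι F}

section
variable {Λ : Type} [CommRing Λ]

/-- The block between two parities. -/
def algbB (p : ι → Bool) (M : Matrix ι ι Λ) (a b : Bool) :
    Matrix {x // p x = a} {x // p x = b} Λ := Matrix.of fun x y => M x y

omit [DecidableEq ι] in
theorem algb_mul {M N : Matrix ι ι Λ} {a b : Bool} (c : Bool)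
    (h : ∀ x z y, p x = a → p y = b → p z ≠ c → M x z * N z y = 0) :
    algbB p (M * N) a b = algbB p M a c * algbB p N c b := by
  ext x y
  simp only [algbB, Matrix.of_apply, Matrix.mul_apply]
  rw [← Finset.sum_subtype (Finset.univ.filter fun z => p z = c) (by simp) fun z => M x z * N z y]
  exact (Finset.sum_filter_of_ne fun z _ hz => not_not.1 fun h' => hz (h _ _ _ x.2 y.2 h')).symm

omit [Fintype ι] in
theorem algb_one (b : Bool) : algbB p (1 : Matrix ι ι Λ) b b = 1 := by
  ext x y
  simp [algbB, Matrix.one_apply, Subtype.ext_iff]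

omit [Fintype ι] [DecidableEq ι] in
theorem algb_add {M N : Matrix ι ι Λ} (hM : OddM p p M) (hN : OddM p p N) : OddM p p (M + N) :=
  fun x y h => by
    by_cases h' : M x y = 0
    · exact hN x y (by simpa [h'] using h)
    · exact hM x y h'

theorem algb_unit [Nontrivial Λ] {d : Matrix ι ι Λ} (hd : Dm p d) (h : Ctr d) :
    ∃ s : Matrix ι ι Λ, OddM p p s ∧ s * s = 0 ∧ d * s + s * d = 1 ∧
      ∃ e : {x // p x = true} ≃ {x // p x = false},
        IsUnit ((algbB p (d + s) false true).submatrix e id).det := by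
  obtain ⟨s, h1, h2, h3⟩ := h.normal hd
  have h4 : (d + s) * (d + s) = 1 := by
    rw [add_mul, mul_add, mul_add, hd.1, h2, zero_add, add_zero, h3]
  have h5 : ∀ b, algbB p (d + s) b (!b) * algbB p (d + s) (!b) b = 1 := fun b => by
    rw [← algb_mul (!b) fun x z y hx _ hz => by
      rw [not_not.1 (mt (algb_add hd.2 h1 x z) (by revert hz; rw [hx]; cases p z <;> cases b <;> simp)),
        zero_mul], h4, algb_one]
  let e := Matrix.indexEquivOfInv (h5 true) (h5 false)
  refine ⟨s, h1, h2, h3, e, IsUnit.of_mul_eq_one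
    ((algbB p (d + s) true false).submatrix id e).det ?_⟩
  rw [← Matrix.det_mul, ← Matrix.submatrix_mul _ _ _ _ _ Function.bijective_id]
  exact (congrArg (fun M => (Matrix.submatrix M e e).det) (h5 false)).trans (by simp)

end

/-- An even matrix `1 + N` with `N * N = 0` has diagonal blocks of determinant one. -/
theorem det_blk_unip {N : Matrix ι ι F} (hN : EvenM p p N) (h : N * N = 0) (b : Bool) :
    (blk (1 + N) (fun x => p x = b)).det = 1 := by
  have h1 : algbB p N b b * algbB p N b b = 0 := by
    rw [← algb_mul b fun x z y hx _ hz => by rw [not_not.1 (mt (hN x z) (hx ▸ hz.symm)), zero_mul], h]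
    rfl
  have h2 : blk (1 + N) (fun x => p x = b) = 1 + algbB p N b b := by
    rw [← algb_one (Λ := F) (p := p) b]
    rfl
  obtain ⟨r, -, hr⟩ := Polynomial.isUnit_iff.1
    (Matrix.isUnit_charpolyRev_of_isNilpotent ⟨2, (sq _).trans h1⟩)
  have h3 := Matrix.eval_charpolyRev (M := algbB p N b b)
  have h4 := congrArg (Polynomial.evalRingHom (-1)) hr
  rw [← hr, Polynomial.eval_C] at h3
  rw [Matrix.charpolyRev, RingHom.map_det, h3, map_one, map_one] at h4
  rw [h2, h4]
  congr 1
  ext x y
  simp [Matrix.one_apply, apply_ite]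

/-- For two contractions `s`, `s'` put `P = d s + s' d = 1 + (s' - s) d`; then
`P (d + s) = (d + s') P` and `((s' - s) d)^2 = 0`. A change of `e` changes the determinant by
the sign of a permutation. -/
theorem torW_unique (hd : Dm p d) {t t' : F} (h : TorW p d t) (h' : TorW p d t') : t = t' := by
  obtain ⟨s, o, h1, h2, e, rfl⟩ := h
  obtain ⟨s', o', h1', h2', e', rfl⟩ := h'
  have h0 := hd.1
  have ev : EvenM p p ((s' - s) * d) := fun x y h => by
    obtain ⟨z, -, hz⟩ := Finset.exists_ne_zero_of_sum_ne_zero h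
    have a1 := hd.2 z y (right_ne_zero_of_mul hz)
    have a2 : p x ≠ p z := by
      by_cases h' : s x z = 0
      · exact o' x z (by simpa [h'] using left_ne_zero_of_mul hz)
      · exact o x z h'
    revert a1 a2
    cases p x <;> cases p y <;> cases p z <;> simp
  have sq0 : (s' - s) * d * ((s' - s) * d) = 0 := by
    linear_combination (norm := noncomm_ring) (s' - s) * h2' * d - (s' - s) * h2 * d -
      (s' - s) * (s' - s) * h0
  have hP : (1 + (s' - s) * d) * (d + s) = (d + s') * (1 + (s' - s) * d) := by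
    have e1 : 1 + (s' - s) * d = d * s + s' * d := by
      linear_combination (norm := noncomm_ring) -h2
    rw [e1]
    linear_combination (norm := noncomm_ring) h2 * d - h2' * d + d * h1 - h1' * d +
      (2 * s' - s) * h0 - h0 * s
  have ev1 : ∀ x y, p x ≠ p y → (1 + (s' - s) * d) x y = 0 := fun x y h => by
    rw [Matrix.add_apply, Matrix.one_apply_ne (fun e => h (congrArg p e)), zero_add]
    exact not_not.1 (mt (ev x y) h)
  have h3 := congrArg (fun M => ((algbB p M false true).submatrix e id).det) hP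
  rw [algb_mul false fun x z y hx _ hz => by rw [ev1 x z (hx ▸ hz.symm), zero_mul],
    algb_mul true fun x z y _ hy hz => by rw [ev1 z y (hy ▸ hz), mul_zero],
    Matrix.submatrix_mul _ _ _ e _ e.bijective,
    Matrix.submatrix_mul _ _ _ id _ Function.bijective_id, Matrix.det_mul, Matrix.det_mul,
    Matrix.det_submatrix_equiv_self, Matrix.submatrix_id_id] at h3
  erw [det_blk_unip ev sq0, det_blk_unip ev sq0, one_mul, mul_one] at h3
  have h4 := Matrix.det_permute (e'.trans e.symm) ((algbB p (d + s') false true).submatrix e id)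
  rw [Matrix.submatrix_submatrix] at h4
  have h5 : (e : _ → _) ∘ (e'.trans e.symm) = e' := funext fun x => by simp
  rw [h5] at h4
  change ((algbB p (d + s) false true).submatrix e id).det ^ 8 =
    ((algbB p (d + s') false true).submatrix e' (id ∘ id)).det ^ 8
  rw [h4, h3, mul_pow]
  rcases Int.units_eq_one_or (Equiv.Perm.sign (e'.trans e.symm)) with h | h <;> rw [h] <;> norm_num

theorem tor_eq (hd : Dm p d) {t : F} (h : TorW p d t) : tor p d = t := by
  rw [tor, dif_pos ⟨t, h⟩]
  exact torW_unique hd (Exists.choose_spec _) h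

/-- `(d + s)^2 = 1`, so the two off-diagonal blocks are inverse to each other; in particular the
two parts have the same cardinality. -/
theorem exists_torW (hd : Dm p d) (h : Ctr d) : ∃ t, t ≠ 0 ∧ TorW p d t := by
  obtain ⟨s, h1, h2, h3, e, h4⟩ := algb_unit hd h
  exact ⟨_, pow_ne_zero 8 h4.ne_zero, s, h1, h2, h3, e, rfl⟩

theorem tor_ne_zero_iff (hd : Dm p d) : tor p d ≠ 0 ↔ Ctr d := by
  refine ⟨fun h => by_contra fun hc => h (dif_neg fun ⟨_, s, _, _, h, _⟩ => hc ⟨s, h⟩), fun h => ?_⟩
  obtain ⟨t, h1, h2⟩ := exists_torW hd h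
  rwa [tor_eq hd h2]

theorem tor_reindex (hd : Dm p d) (e : κ ≃ ι) :
    tor (fun x => p (e x)) (d.submatrix e e) = tor p d := by
  have hd' := (dm_reindex e).2 hd
  by_cases h : Ctr d
  · obtain ⟨t, -, s, h1, h2, h3, f, h4⟩ := exists_torW hd h
    rw [tor_eq hd ⟨s, h1, h2, h3, f, h4⟩]
    let g : ∀ b, {x // p (e x) = b} ≃ {x // p x = b} := fun b => e.subtypeEquiv fun _ => Iff.rfl
    refine tor_eq hd' ⟨s.submatrix e e, fun x y => h1 _ _, ?_, ?_,
      (g true).trans (f.trans (g false).symm), ?_⟩
    · rw [Matrix.submatrix_mul_equiv, h2]; rfl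
    · rw [Matrix.submatrix_mul_equiv, Matrix.submatrix_mul_equiv]
      exact (congrArg (fun M => Matrix.submatrix M e e) h3).trans (Matrix.submatrix_one_equiv e)
    · rw [h4, ← Matrix.det_submatrix_equiv_self (g true)]
      congr 2
      ext x y
      simp [g]
  · rw [not_not.1 (mt (tor_ne_zero_iff hd).1 h),
      not_not.1 (mt (tor_ne_zero_iff hd').1 (mt (ctr_reindex e).1 h))]

/-- An integral contraction gives an integral matrix with integral inverse. -/
theorem tor_int {m : Matrix ι ι ℤ} (hm : Dm p m) (h : Ctr m) :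
    tor p (m.map (Int.castRingHom F)) = 1 := by
  obtain ⟨s, h1, h2, h3, e, h4⟩ := algb_unit hm h
  refine tor_eq (hm.map _) ⟨s.map (Int.castRingHom F), fun x y h => h1 x y fun h' => h ?_, ?_, ?_,
    e, ?_⟩
  · simp [h']
  · rw [← Matrix.map_mul, h2, Matrix.map_zero _ (map_zero _)]
  · rw [← Matrix.map_mul, ← Matrix.map_mul, ← Matrix.map_add _ (map_add _), h3,
      Matrix.map_one _ (map_zero _) (map_one _)]
  · have h5 := RingHom.map_det (Int.castRingHom F) ((algbB p (m + s) false true).submatrix e id)
    have h6 : (Int.castRingHom F).mapMatrix ((algbB p (m + s) false true).submatrix e id) =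
        Matrix.of fun x y : {x // p x = true} =>
          (m.map (Int.castRingHom F) + s.map (Int.castRingHom F)) (e x).1 y.1 := by
      ext x y
      simp [algbB]
    rw [← h6, ← h5]
    rcases Int.isUnit_iff.1 h4 with h | h <;> rw [h] <;> norm_num

end Pool.Agent.Lib.MP_5ceaf9_gt
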