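import Pool.Agent.Lib.MP_5ceaf9_gt.AlgB

/-! Behaviour of the torsion under conjugation, transposition and change of parity. -/

noncomputable section

namespace Pool.Agent.Lib.MP_5ceaf9_gt

variable {ι κ F : Type} [Field F] [Fintype ι] [DecidableEq ι] [Fintype κ]
  [DecidableEq κ] {p : ι → Bool} {d : Matrix ι ι F}

omit [DecidableEq ι] in
theorem algc_mul (A B : Matrix ι ι F) (a b c : Bool)
    (h : ∀ x y z, p x = a → p z = c → p y ≠ b → A x y * B y z = 0) :
    (A * B).toBlock (fun x => p x = a) (fun x => p x = c) =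
      A.toBlock (fun x => p x = a) (fun x => p x = b) *
        B.toBlock (fun x => p x = b) (fun x => p x = c) := by
  rw [Matrix.toBlock_mul_eq_add _ (fun x => p x = b), add_eq_left]
  ext x z
  exact Finset.sum_eq_zero fun y _ => h x y z x.2 z.2 y.2

omit [DecidableEq ι] in
theorem algc_left {A : Matrix ι ι F} (hA : EvenM p p A) (B : Matrix ι ι F) (a c : Bool) :
    (A * B).toBlock (fun x => p x = a) (fun x => p x = c) =
      blk A (fun x => p x = a) * B.toBlock (fun x => p x = a) (fun x => p x = c) :=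
  algc_mul A B a a c fun x y z hx _ hy => by
    rw [not_not.1 fun h => hy ((hA x y h).symm.trans hx), zero_mul]

omit [DecidableEq ι] in
theorem algc_right {B : Matrix ι ι F} (hB : EvenM p p B) (A : Matrix ι ι F) (a c : Bool) :
    (A * B).toBlock (fun x => p x = a) (fun x => p x = c) =
      A.toBlock (fun x => p x = a) (fun x => p x = c) * blk B (fun x => p x = c) :=
  algc_mul A B a c c fun x y z _ hz hy => by
    rw [not_not.1 fun h => hy ((hB y z h).trans hz), mul_zero]

theorem algc_inv {s : Matrix ι ι F} (hd : Dm p d) (hs : OddM p p s) (h0 : s * s = 0)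
    (h1 : d * s + s * d = 1) (e : {x // p x = true} ≃ {x // p x = false}) :
    (Matrix.of fun x y : {x // p x = true} => (d + s) x.1 (e y).1).det ^ 8 *
      (Matrix.of fun x y : {x // p x = true} => (d + s) (e x).1 y.1).det ^ 8 = 1 := by
  have h2 : (d + s) * (d + s) = 1 := by
    rw [add_mul, mul_add, mul_add, hd.1, h0, zero_add, add_zero, h1]
  have h3 := algc_mul (p := p) (d + s) (d + s) true false true fun x y z hx _ hy => by
    have h4 : p x = p y := hx.trans (by simpa using hy : p y = true).symm
    rw [Matrix.add_apply, not_not.1 fun h => hd.2 x y h h4, not_not.1 fun h => hs x y h h4,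
      add_zero, zero_mul]
  rw [h2, Matrix.toBlock_one_self] at h3
  rw [← mul_pow, ← Matrix.det_mul]
  have h5 := congrArg Matrix.det (h3.trans (Matrix.submatrix_mul_equiv _ _ id e id).symm)
  rw [Matrix.det_one] at h5
  exact (congrArg (· ^ 8) h5.symm).trans (one_pow 8)

/-- Conjugate the contraction as well. Both sides vanish when `d` is not contractible. -/
theorem tor_conj (hd : Dm p d) {P Q : Matrix ι ι F} (h1 : P * Q = 1) (h2 : Q * P = 1)
    (hP : EvenM p p P) (hQ : EvenM p p Q) :
    tor p (P * d * Q) * (blk P (fun x => p x = true)).det ^ 8 =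
      tor p d * (blk P (fun x => p x = false)).det ^ 8 := by
  have hd' := hd.conj h2 hP hQ
  by_cases h : Ctr d
  · obtain ⟨t, -, ht⟩ := exists_torW hd h
    rw [tor_eq hd ht]
    obtain ⟨s, hs, h0, h3, e, rfl⟩ := ht
    have hs' := Dm.conj (d := s) ⟨h0, hs⟩ h2 hP hQ
    have h4 : P * d * Q * (P * s * Q) + P * s * Q * (P * d * Q) = 1 := by
      have h5 : ∀ a b : Matrix ι ι F, P * a * Q * (P * b * Q) = P * (a * b) * Q := fun a b => by
        rw [mul_assoc (P * a), ← mul_assoc Q, ← mul_assoc Q, h2, one_mul]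
        simp only [mul_assoc]
      rw [h5, h5, ← add_mul, ← mul_add, h3, mul_one, h1]
    rw [tor_eq hd' ⟨P * s * Q, hs'.2, hs'.1, h4, e, rfl⟩]
    have h5 : (Matrix.of fun x y : {x // p x = true} => (P * d * Q + P * s * Q) (e x).1 y.1) =
        (blk P (fun x => p x = false)).submatrix e e *
          (Matrix.of fun x y : {x // p x = true} => (d + s) (e x).1 y.1) *
            blk Q (fun x => p x = true) := by
      have h6 := algc_right hQ (P * (d + s)) false true
      rw [algc_left hP] at h6
      have h7 := congrArg (fun M => Matrix.submatrix M e id) h6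
      rw [← add_mul, ← mul_add]
      refine Eq.trans h7 ?_
      rw [← Matrix.submatrix_mul_equiv _ _ e (Equiv.refl _) id,
        ← Matrix.submatrix_mul_equiv _ _ e e (Equiv.refl _)]
      rfl
    have h6 := algc_left hQ P true true
    rw [h2, Matrix.toBlock_one_self] at h6
    have h7 : (blk Q (fun x => p x = true)).det * (blk P (fun x => p x = true)).det = 1 := by
      rw [← Matrix.det_mul]
      exact (congrArg Matrix.det h6).symm.trans Matrix.det_one
    rw [h5, Matrix.det_mul, Matrix.det_mul, Matrix.det_submatrix_equiv_self, ← mul_pow, mul_assoc,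
      h7, mul_one, mul_comm, mul_pow]
  · have h3 : ¬ Ctr (P * d * Q) := fun h3 => h (by
      have h4 := h3.conj h2 h1
      rwa [← mul_assoc, ← mul_assoc, h2, one_mul, mul_assoc, h2, mul_one] at h4)
    rw [not_not.1 (mt (tor_ne_zero_iff hd).1 h), not_not.1 (mt (tor_ne_zero_iff hd').1 h3),
      zero_mul, zero_mul]

theorem tor_unip (hd : Dm p d) {N : Matrix ι ι F} (hN : EvenM p p N) (h : N * N = 0) :
    tor p ((1 + N) * d * (1 - N)) = tor p d := by
  have h1 : ∀ M : Matrix ι ι F, EvenM p p M → EvenM p p (1 + M) := fun M hM x y hxy => by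
    by_cases h2 : x = y
    · rw [h2]
    · rw [Matrix.add_apply, Matrix.one_apply_ne h2, zero_add] at hxy
      exact hM x y hxy
  have h2 := tor_conj hd (P := 1 + N) (Q := 1 - N)
    (by rw [add_mul, mul_sub, mul_sub, h]; simp) (by rw [sub_mul, mul_add, mul_add, h]; simp)
    (h1 N hN) (by
      rw [sub_eq_add_neg]
      exact h1 _ fun x y hxy => hN x y (neg_ne_zero.1 hxy))
  rwa [det_blk_unip hN h, det_blk_unip hN h, one_pow, mul_one, mul_one] at h2

theorem tor_diag (hd : Dm p d) {g g' : ι → F} (hg : ∀ x, g x * g' x = 1) :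
    tor p (Matrix.of fun x y => g x * d x y * g' y) *
        ∏ x ∈ Finset.univ.filter (fun x => p x = true), g x ^ 8 =
      tor p d * ∏ x ∈ Finset.univ.filter (fun x => p x = false), g x ^ 8 := by
  have h1 : ∀ f : ι → F, EvenM p p (Matrix.diagonal f) := fun f x y hxy => by
    rw [not_not.1 fun h => hxy (Matrix.diagonal_apply_ne f h)]
  have h2 : ∀ b : Bool, (blk (Matrix.diagonal g) (fun x => p x = b)).det ^ 8 =
      ∏ x ∈ Finset.univ.filter (fun x => p x = b), g x ^ 8 := fun b => by
    rw [Finset.prod_pow, Finset.prod_subtype (p := fun x => p x = b) _ (by simp),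
      ← Matrix.det_diagonal]
    exact congrArg (fun M => Matrix.det M ^ 8) (Matrix.toBlock_diagonal_self g _)
  have h3 : Matrix.diagonal g * d * Matrix.diagonal g' =
      Matrix.of fun x y => g x * d x y * g' y := by
    ext x y
    rw [Matrix.mul_diagonal, Matrix.diagonal_mul, Matrix.of_apply]
  have h4 := tor_conj hd (P := Matrix.diagonal g) (Q := Matrix.diagonal g')
    (by simp only [Matrix.diagonal_mul_diagonal, hg, Matrix.diagonal_one])
    (by simp only [Matrix.diagonal_mul_diagonal, mul_comm (g' _), hg, Matrix.diagonal_one])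
    (h1 g) (h1 g')
  rwa [h2, h2, h3] at h4

theorem tor_gauge (hd : Dm p d) {g g' : ι → F} (hg : ∀ x, g x * g' x = 1)
    (h8 : ∀ x, g x ^ 8 = 1) : tor p (Matrix.of fun x y => g x * d x y * g' y) = tor p d := by
  simpa only [h8, Finset.prod_const_one, mul_one] using tor_diag hd hg

theorem tor_neg (hd : Dm p d) : tor p (-d) = tor p d := by
  rw [← tor_gauge hd (g := fun x => if p x then -1 else 1) (g' := fun x => if p x then -1 else 1)
    (fun x => by split_ifs <;> norm_num) fun x => by split_ifs <;> norm_num]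
  refine congrArg (tor p) ?_
  ext x y
  rw [Matrix.neg_apply, Matrix.of_apply]
  by_cases h : d x y = 0
  · rw [h, neg_zero, mul_zero, zero_mul]
  · have h1 := hd.2 x y h
    cases hx : p x <;> cases hy : p y <;> simp_all

theorem tor_not (hd : Dm p d) (h : Ctr d) : tor (fun x => !p x) d * tor p d = 1 := by
  obtain ⟨t, -, ht⟩ := exists_torW hd h
  rw [tor_eq hd ht]
  obtain ⟨s, hs, h0, h3, e, rfl⟩ := ht
  have h1 : ∀ M : Matrix ι ι F, OddM p p M → OddM (fun x => !p x) (fun x => !p x) M :=
    fun M hM x y hxy h => hM x y hxy (Bool.not_inj h)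
  let e1 : {x // (!p x) = true} ≃ {x // p x = false} := Equiv.subtypeEquivRight fun x => by simp
  let e2 : {x // p x = true} ≃ {x // (!p x) = false} := Equiv.subtypeEquivRight fun x => by simp
  rw [tor_eq ⟨hd.1, h1 d hd.2⟩ ⟨s, h1 s hs, h0, h3, (e1.trans e.symm).trans e2, rfl⟩,
    ← algc_inv hd hs h0 h3 e, ← Matrix.det_submatrix_equiv_self (e1.trans e.symm)
      (Matrix.of fun x y : {x // p x = true} => (d + s) x.1 (e y).1)]
  refine congrArg (fun M => Matrix.det M ^ 8 * _) ?_
  ext x y
  simp only [Matrix.of_apply, Matrix.submatrix_apply, Equiv.trans_apply, Equiv.apply_symm_apply]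
  rfl

theorem tor_transpose (hd : Dm p d) (h : Ctr d) : tor p d.transpose * tor p d = 1 := by
  obtain ⟨t, -, ht⟩ := exists_torW hd h
  rw [tor_eq hd ht]
  obtain ⟨s, hs, h0, h3, e, rfl⟩ := ht
  have h1 : ∀ M : Matrix ι ι F, Dm p M → Dm p M.transpose := fun M hM =>
    ⟨by rw [← Matrix.transpose_mul, hM.1, Matrix.transpose_zero],
      fun x y hxy => (hM.2 y x hxy).symm⟩
  have h2 := h1 s ⟨h0, hs⟩
  have h4 : d.transpose * s.transpose + s.transpose * d.transpose = 1 := by
    rw [← Matrix.transpose_mul, ← Matrix.transpose_mul, ← Matrix.transpose_add, add_comm, h3,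
      Matrix.transpose_one]
  rw [tor_eq (h1 d hd) ⟨s.transpose, h2.2, h2.1, h4, e, rfl⟩, ← algc_inv hd hs h0 h3 e,
    ← Matrix.det_transpose (Matrix.of fun x y : {x // p x = true} => (d + s) x.1 (e y).1)]
  rfl

end Pool.Agent.Lib.MP_5ceaf9_gt
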