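import Pool.Agent.Lib.MP_5ceaf9_gt.AlgC

/-! The product formula and two term complexes. -/

noncomputable section

namespace Pool.Agent.Lib.MP_5ceaf9_gt

variable {ι κ F : Type} [Field F] [Fintype ι] [DecidableEq ι] [Fintype κ]
  [DecidableEq κ] {p : ι → Bool} {d : Matrix ι ι F}

omit [Fintype ι] [DecidableEq ι] [Fintype κ] [DecidableEq κ] in
theorem algd_odd {p' : κ → Bool} {a : Matrix ι ι F} {c : Matrix κ κ F} (ha : OddM p p a)
    (hc : OddM p' p' c) : OddM (Sum.elim p p') (Sum.elim p p') (Matrix.fromBlocks a 0 0 c) := by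
  rintro (x | x) (y | y) h
  · exact ha x y h
  · exact absurd rfl h
  · exact absurd rfl h
  · exact hc x y h

omit [DecidableEq ι] [DecidableEq κ] in
theorem algd_dm {p' : κ → Bool} {a : Matrix ι ι F} {c : Matrix κ κ F} (ha : Dm p a)
    (hc : Dm p' c) : Dm (Sum.elim p p') (Matrix.fromBlocks a 0 0 c) :=
  ⟨by simp [Matrix.fromBlocks_multiply, ha.1, hc.1], algd_odd ha.2 hc.2⟩

/-- The indices of a given parity in a sum. -/
def algd_eq (p : ι → Bool) (p' : κ → Bool) (b : Bool) :
    {x // p x = b} ⊕ {x // p' x = b} ≃ {x // Sum.elim p p' x = b} :=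
  (Equiv.subtypeSum (p := fun x => Sum.elim p p' x = b)).symm

theorem tor_diagBlocks {p' : κ → Bool} {d' : Matrix κ κ F} (hd : Dm p d) (hd' : Dm p' d')
    (h : Ctr d) (h' : Ctr d') :
    tor (Sum.elim p p') (Matrix.fromBlocks d 0 0 d') = tor p d * tor p' d' := by
  obtain ⟨t, -, ht⟩ := exists_torW hd h
  obtain ⟨t', -, ht'⟩ := exists_torW hd' h'
  rw [tor_eq hd ht, tor_eq hd' ht']
  obtain ⟨s, s1, s2, s3, e, rfl⟩ := ht
  obtain ⟨s', s1', s2', s3', e', rfl⟩ := ht'
  refine tor_eq (algd_dm hd hd') ⟨Matrix.fromBlocks s 0 0 s', algd_odd s1 s1', ?_, ?_,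
    (algd_eq p p' true).symm.trans ((e.sumCongr e').trans (algd_eq p p' false)), ?_⟩
  · simp [Matrix.fromBlocks_multiply, s2, s2']
  · simp [Matrix.fromBlocks_multiply, Matrix.fromBlocks_add, s3, s3']
  · rw [← mul_pow, ← Matrix.det_fromBlocks_zero₁₂ _ 0,
      ← Matrix.det_submatrix_equiv_self (algd_eq p p' true)]
    congr 2
    ext (x | x) (y | y) <;>
      simp only [Matrix.submatrix_apply, Matrix.of_apply, Equiv.trans_apply,
        Equiv.symm_apply_apply, Equiv.sumCongr_apply, Sum.map_inl, Sum.map_inr]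
    · rfl
    · exact (add_zero _).symm
    · exact (add_zero _).symm
    · rfl

theorem algd_tri {p' : κ → Bool} {a : Matrix ι ι F} {b : Matrix ι κ F} {c : Matrix κ κ F}
    (hd : Dm (Sum.elim p p') (Matrix.fromBlocks a b 0 c)) (da : Dm p a) (dc : Dm p' c)
    (ha : Ctr a) (hc : Ctr c) :
    tor (Sum.elim p p') (Matrix.fromBlocks a b 0 c) = tor p a * tor p' c := by
  obtain ⟨s, s1, -, s3⟩ := ha.normal da
  have h1 : a * b + b * c = 0 := by
    have h2 := hd.1
    rw [Matrix.fromBlocks_multiply, ← Matrix.fromBlocks_zero, Matrix.fromBlocks_inj] at h2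
    exact h2.2.1
  have h2 : -(a * (s * b)) + (b + s * b * c) = 0 := by
    have h3 : b * c = -(a * b) := eq_neg_of_add_eq_zero_right h1
    have h4 : a * (s * b) + s * (a * b) = b := by
      rw [← Matrix.mul_assoc, ← Matrix.mul_assoc, ← Matrix.add_mul, s3, Matrix.one_mul]
    rw [Matrix.mul_assoc s, h3, Matrix.mul_neg]
    nth_rewrite 2 [← h4]
    abel
  have hN : EvenM (Sum.elim p p') (Sum.elim p p') (Matrix.fromBlocks 0 (s * b) 0 0) := by
    rintro (x | x) (y | y) h
    · exact absurd rfl h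
    · obtain ⟨z, -, hz⟩ := Finset.exists_ne_zero_of_sum_ne_zero (s := Finset.univ)
        (f := fun z => s x z * b z y) h
      have k1 : p x ≠ p z := s1 x z (left_ne_zero_of_mul hz)
      have k2 : p z ≠ p' y := hd.2 (Sum.inl z) (Sum.inr y) (right_ne_zero_of_mul hz)
      change p x = p' y
      revert k1 k2
      cases p x <;> cases p z <;> cases p' y <;> simp
    · exact absurd rfl h
    · exact absurd rfl h
  rw [← tor_unip hd hN (by simp [Matrix.fromBlocks_multiply]), ← tor_diagBlocks da dc ha hc,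
    ← Matrix.fromBlocks_one, sub_eq_add_neg, Matrix.fromBlocks_neg, Matrix.fromBlocks_add,
    Matrix.fromBlocks_add, Matrix.fromBlocks_multiply, Matrix.fromBlocks_multiply]
  simp [h2]

/-- With an odd contraction `sa` of the sub-block and `θ = sa b`, the unipotent matrix
`fromBlocks 1 θ 0 1` conjugates `d` to its diagonal part. -/
theorem tor_block (hd : Dm p d) {q : ι → Prop} [DecidablePred q] (hq : Sub d q)
    (ha : Ctr (blk d q)) (hc : Ctr (blk d (fun x => ¬ q x))) :
    tor p d = tor (fun x : {x // q x} => p x) (blk d q) *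
      tor (fun x : {x // ¬ q x} => p x) (blk d (fun x => ¬ q x)) := by
  have e1 : d.submatrix (Equiv.sumCompl q) (Equiv.sumCompl q) = Matrix.fromBlocks (blk d q)
      (Matrix.of fun x y => d x.1 y.1) 0 (blk d (fun x => ¬ q x)) := by
    ext (x | x) (y | y)
    · rfl
    · rfl
    · by_contra h
      exact x.2 (hq x.1 y.1 h y.2)
    · rfl
  have e2 : (fun x => p (Equiv.sumCompl q x)) =
      Sum.elim (fun x : {x // q x} => p x) (fun x : {x // ¬ q x} => p x) := by
    funext x
    cases x <;> rfl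
  have h1 := (dm_reindex (p := p) (d := d) (Equiv.sumCompl q)).2 hd
  have h2 := tor_reindex hd (Equiv.sumCompl q)
  rw [e1, e2] at h1 h2
  rw [← h2]
  exact algd_tri h1 (hd.blk_sub hq) (hd.blk_quot hq) ha hc

theorem algd_ctr {M : Matrix ι ι F} (h : M.det ≠ 0) :
    Matrix.fromBlocks (0 : Matrix ι ι F) M 0 (0 : Matrix ι ι F) * Matrix.fromBlocks 0 0 M⁻¹ 0 +
      Matrix.fromBlocks 0 0 M⁻¹ 0 * Matrix.fromBlocks (0 : Matrix ι ι F) M 0 (0 : Matrix ι ι F) =
        1 := by
  simp [Matrix.fromBlocks_multiply, Matrix.fromBlocks_add, Matrix.mul_nonsing_inv _ h.isUnit,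
    Matrix.nonsing_inv_mul _ h.isUnit]

omit [DecidableEq ι] in
theorem algd_dm2 (M : Matrix ι ι F) (b : Bool) : Dm (Sum.elim (fun _ => !b) (fun _ => b))
    (Matrix.fromBlocks (0 : Matrix ι ι F) M 0 (0 : Matrix ι ι F)) := by
  refine ⟨by simp [Matrix.fromBlocks_multiply], ?_⟩
  rintro (x | x) (y | y) h
  · exact absurd rfl h
  · cases b <;> simp
  · exact absurd rfl h
  · exact absurd rfl h

/-- The odd indices of a two term complex. -/
def algd_eT (ι : Type) : ι ≃ {x : ι ⊕ ι // Sum.elim (fun _ => false) (fun _ => true) x = true} where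
  toFun x := ⟨Sum.inr x, rfl⟩
  invFun z := z.1.elim id id
  left_inv _ := rfl
  right_inv := by
    rintro ⟨x | x, h⟩
    · cases h
    · rfl

/-- The even indices of a two term complex. -/
def algd_eF (ι : Type) : ι ≃ {x : ι ⊕ ι // Sum.elim (fun _ => false) (fun _ => true) x = false} where
  toFun x := ⟨Sum.inl x, rfl⟩
  invFun z := z.1.elim id id
  left_inv _ := rfl
  right_inv := by
    rintro ⟨x | x, h⟩
    · rfl
    · cases h

theorem ctr_two {M : Matrix ι ι F} (h : M.det ≠ 0) :
    Ctr (Matrix.fromBlocks (0 : Matrix ι ι F) M 0 (0 : Matrix ι ι F)) := by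
  exact ⟨_, algd_ctr h⟩

theorem tor_two {M : Matrix ι ι F} (h : M.det ≠ 0) :
    tor (Sum.elim (fun _ => false) (fun _ => true))
      (Matrix.fromBlocks (0 : Matrix ι ι F) M 0 (0 : Matrix ι ι F)) = M.det ^ 8 := by
  refine tor_eq (algd_dm2 M true) ⟨Matrix.fromBlocks 0 0 M⁻¹ 0, ?_,
    by simp [Matrix.fromBlocks_multiply], algd_ctr h, (algd_eT ι).symm.trans (algd_eF ι), ?_⟩
  · rintro (x | x) (y | y) h
    · exact absurd rfl h
    · exact absurd rfl h
    · simp
    · exact absurd rfl h
  · rw [← Matrix.det_submatrix_equiv_self (algd_eT ι)]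
    congr 2
    ext x y
    simp only [Matrix.submatrix_apply, Matrix.of_apply, Equiv.trans_apply, Equiv.symm_apply_apply]
    exact (add_zero _).symm

/-- A complex with an even-to-odd part `M` and an odd-to-even part `N` and nothing else. The
index type is (targets of `M`, sources of `M`), (targets of `N`, sources of `N`). -/
theorem tor_four {M : Matrix ι ι F} {N : Matrix κ κ F} (hM : M.det ≠ 0) (hN : N.det ≠ 0) :
    tor (Sum.elim (Sum.elim (fun _ => true) (fun _ => false))
        (Sum.elim (fun _ => false) (fun _ => true)))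
      (Matrix.fromBlocks (Matrix.fromBlocks (0 : Matrix ι ι F) M 0 (0 : Matrix ι ι F)) 0 0
        (Matrix.fromBlocks (0 : Matrix κ κ F) N 0 (0 : Matrix κ κ F))) * M.det ^ 8 =
      N.det ^ 8 := by
  have e : (Sum.elim (fun _ => true) (fun _ => false) : ι ⊕ ι → Bool) =
      fun x => !(Sum.elim (fun _ => false) (fun _ => true) x) := by
    funext x
    cases x <;> rfl
  have h1 := tor_not (algd_dm2 M true) (ctr_two hM)
  have h2 := tor_diagBlocks (algd_dm2 M false) (algd_dm2 N true) (ctr_two hM) (ctr_two hN)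
  simp only [Bool.not_true, Bool.not_false] at h1 h2
  rw [← e, tor_two hM] at h1
  rw [h2, tor_two hN, mul_right_comm, h1, one_mul]

end Pool.Agent.Lib.MP_5ceaf9_gt
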