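import Pool.Agent.Lib.MP_5ceaf9_gt.AlgD

/-! Good differential matrices. -/

noncomputable section

namespace Pool.Agent.Lib.MP_5ceaf9_gt

variable {ι κ Λ F : Type} [Ring Λ] [Field F] [Fintype ι] [DecidableEq ι] [Fintype κ]
  [DecidableEq κ] {p : ι → Bool} {d : Matrix ι ι Λ} {l : ℕ} {Φ : Set (Λ →+* F)}

theorem Gd.mono (h : Gd l Φ p d) {l' : ℕ} (hl : l' ≤ l) : Gd l' Φ p d :=
  ⟨h.1, fun h1 => h.2.1 (h1.trans hl), fun h2 => h.2.2 (h2.trans hl)⟩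

theorem gd_reindex (e : κ ≃ ι) :
    Gd l Φ (fun x => p (e x)) (d.submatrix e e) ↔ Gd l Φ p d := by
  refine ⟨fun h => ?_, fun h => ⟨(dm_reindex e).2 h.1, fun h1 => (ctr_reindex e).2 (h.2.1 h1),
    fun h2 φ hφ => (tor_reindex (h.1.map φ) e).trans (h.2.2 h2 φ hφ)⟩⟩
  have hd := (dm_reindex e).1 h.1
  exact ⟨hd, fun h1 => (ctr_reindex e).1 (h.2.1 h1),
    fun h2 φ hφ => (tor_reindex (hd.map φ) e).symm.trans (h.2.2 h2 φ hφ)⟩

/-- Transfer along a bijection given with the entries. -/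
theorem Gd.of_equiv {p' : κ → Bool} {d' : Matrix κ κ Λ} (h : Gd l Φ p d) (e : κ ≃ ι)
    (hp : ∀ x, p' x = p (e x)) (hd : ∀ x y, d' x y = d (e x) (e y)) : Gd l Φ p' d' := by
  obtain rfl : p' = fun x => p (e x) := funext hp
  obtain rfl : d' = d.submatrix e e := Matrix.ext hd
  exact (gd_reindex e).2 h

theorem Gd.neg (h : Gd l Φ p d) : Gd l Φ p (-d) := by
  refine ⟨h.1.neg, fun h1 => (h.2.1 h1).neg, fun h2 φ hφ => ?_⟩
  have e : (-d).map φ = -d.map φ := Matrix.ext fun _ _ => map_neg φ _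
  rw [e, tor_neg (h.1.map φ)]
  exact h.2.2 h2 φ hφ

theorem Gd.not (h : Gd l Φ p d) : Gd l Φ (fun x => !p x) d := by
  refine ⟨⟨h.1.1, fun x y h0 e => h.1.2 x y h0 (Bool.not_inj e)⟩, h.2.1, fun h2 φ hφ => ?_⟩
  have e := tor_not (h.1.map φ) ((h.2.1 (one_le_two.trans h2)).map φ)
  rwa [h.2.2 h2 φ hφ, mul_one] at e

theorem gd_empty [IsEmpty ι] : Gd l Φ p d := by
  have hd : Dm p d := ⟨Matrix.ext fun x _ => isEmptyElim x, fun x _ => isEmptyElim x⟩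
  refine ⟨hd, fun _ => ⟨0, Matrix.ext fun x _ => isEmptyElim x⟩, fun _ φ _ => ?_⟩
  refine tor_eq (hd.map φ) ⟨0, fun x _ => isEmptyElim x, mul_zero _,
    Matrix.ext fun x _ => isEmptyElim x, Equiv.equivOfIsEmpty _ _, ?_⟩
  rw [Matrix.det_isEmpty, one_pow]

omit [Fintype ι] [DecidableEq ι] in
theorem alge_sub {q : ι → Prop} (hq : Sub d q) (φ : Λ →+* F) : Sub (d.map φ) q :=
  fun x y h => hq x y fun h0 => h ((congrArg φ h0).trans (map_zero φ))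

theorem alge_block (hd : Dm p d) {q : ι → Prop} [DecidablePred q] (hq : Sub d q)
    (ha : Ctr (blk d q)) (hc : Ctr (blk d (fun x => ¬ q x))) (φ : Λ →+* F) :
    tor p (d.map φ) = tor (fun x : {x // q x} => p x) ((blk d q).map φ) *
      tor (fun x : {x // ¬ q x} => p x) ((blk d (fun x => ¬ q x)).map φ) :=
  tor_block (hd.map φ) (alge_sub hq φ) (ha.map φ) (hc.map φ)

theorem gd_of_blocks (hd : Dm p d) {q : ι → Prop} [DecidablePred q] (hq : Sub d q)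
    (ha : Gd l Φ (fun x : {x // q x} => p x) (blk d q))
    (hc : Gd l Φ (fun x : {x // ¬ q x} => p x) (blk d (fun x => ¬ q x))) : Gd l Φ p d := by
  refine ⟨hd, fun h1 => ctr_of_blocks hd.1 hq (ha.2.1 h1) (hc.2.1 h1), fun h2 φ hφ => ?_⟩
  have h1 := one_le_two.trans h2
  rw [alge_block hd hq (ha.2.1 h1) (hc.2.1 h1), ha.2.2 h2 φ hφ, hc.2.2 h2 φ hφ, mul_one]

theorem Gd.quot (h : Gd l Φ p d) {q : ι → Prop} [DecidablePred q] (hq : Sub d q)
    (ha : Gd l Φ (fun x : {x // q x} => p x) (blk d q)) :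
    Gd l Φ (fun x : {x // ¬ q x} => p x) (blk d (fun x => ¬ q x)) := by
  have hc := fun h1 => ctr_quot h.1.1 hq (h.2.1 h1) (ha.2.1 h1)
  refine ⟨h.1.blk_quot hq, hc, fun h2 φ hφ => ?_⟩
  have h1 := one_le_two.trans h2
  have e := alge_block h.1 hq (ha.2.1 h1) (hc h1) φ
  rw [h.2.2 h2 φ hφ, ha.2.2 h2 φ hφ, one_mul] at e
  exact e.symm

theorem Gd.sub (h : Gd l Φ p d) {q : ι → Prop} [DecidablePred q] (hq : Sub d q)
    (hc : Gd l Φ (fun x : {x // ¬ q x} => p x) (blk d (fun x => ¬ q x))) :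
    Gd l Φ (fun x : {x // q x} => p x) (blk d q) := by
  have ha := fun h1 => ctr_sub h.1.1 hq (h.2.1 h1) (hc.2.1 h1)
  refine ⟨h.1.blk_sub hq, ha, fun h2 φ hφ => ?_⟩
  have h1 := one_le_two.trans h2
  have e := alge_block h.1 hq (ha h1) (hc.2.1 h1) φ
  rw [h.2.2 h2 φ hφ, hc.2.2 h2 φ hφ, mul_one] at e
  exact e.symm

end Pool.Agent.Lib.MP_5ceaf9_gt
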