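import Pool.Agent.Lib.MP_5ceaf9_gt.AlgE

/-! Filtrations, gauge transformations, integral matrices. -/

noncomputable section

namespace Pool.Agent.Lib.MP_5ceaf9_gt

variable {ι κ Λ F : Type} [Ring Λ] [Field F] [Fintype ι] [DecidableEq ι] [Fintype κ]
  [DecidableEq κ] {p : ι → Bool} {d : Matrix ι ι Λ} {l : ℕ} {Φ : Set (Λ →+* F)}

theorem alge2_filt {μ : Type} [DecidableEq μ] (rk : μ → ℕ) (n : ℕ) :
    ∀ (ι : Type) [Fintype ι] [DecidableEq ι] (p : ι → Bool) (d : Matrix ι ι Λ) (π : ι → μ),
      Fintype.card ι = n → Dm p d →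
      (∀ x y, d x y ≠ 0 → π x = π y ∨ rk (π y) < rk (π x)) →
      (∀ k, Gd l Φ (fun x : {x // π x = k} => p x) (blk d (fun x => π x = k))) →
      Gd l Φ p d := by
  induction n using Nat.strong_induction_on with
  | _ n ih =>
    intro ι _ _ p d π hn hd h hk
    rcases isEmpty_or_nonempty ι with he | hne
    · exact gd_empty
    obtain ⟨x0, -, hx0⟩ := Finset.exists_max_image Finset.univ (fun x => rk (π x))
      Finset.univ_nonempty
    have hq : Sub d (fun x => π x = π x0) := by
      intro x y hxy hy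
      rcases h x y hxy with h1 | h1
      · exact h1.trans hy
      · have h2 := hx0 x (Finset.mem_univ x)
        rw [hy] at h1
        omega
    refine gd_of_blocks hd hq (hk (π x0)) ?_
    have hlt : Fintype.card {x // ¬ π x = π x0} < n := by
      rw [← hn]
      exact Fintype.card_subtype_lt (x := x0) (by simp)
    refine ih _ hlt {x // ¬ π x = π x0} _ _ (fun x => π x.1) rfl (hd.blk_quot hq)
      (fun x y hxy => h x.1 y.1 hxy) ?_
    intro k
    by_cases hkk : k = π x0
    · have : IsEmpty {x : {x // ¬ π x = π x0} // π x.1 = k} :=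
        ⟨fun x => x.1.2 (x.2.trans hkk)⟩
      exact gd_empty
    · refine (hk k).of_equiv
        ⟨fun x => ⟨x.1.1, x.2⟩, fun x => ⟨⟨x.1, fun hx => hkk (x.2.symm.trans hx)⟩, x.2⟩,
          fun _ => rfl, fun _ => rfl⟩ (fun _ => rfl) (fun _ _ => rfl)

theorem alge2_diag (h : Gd l Φ p d) {g g' : ι → Λ} (h1 : ∀ x, g x * g' x = 1)
    (h2 : ∀ x, g' x * g x = 1) (h8 : ∀ φ ∈ Φ, ∀ x, φ (g x) ^ 8 = 1) :
    Gd l Φ p (Matrix.of fun x y => g x * d x y * g' y) := by
  have e : (Matrix.of fun x y => g x * d x y * g' y) =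
      Matrix.diagonal g * d * Matrix.diagonal g' := by
    ext x y
    simp [Matrix.mul_diagonal, Matrix.diagonal_mul]
  have e1 : Matrix.diagonal g * Matrix.diagonal g' = 1 := by
    rw [Matrix.diagonal_mul_diagonal]; simp [h1]
  have e2 : Matrix.diagonal g' * Matrix.diagonal g = 1 := by
    rw [Matrix.diagonal_mul_diagonal]; simp [h2]
  have ev : ∀ u : ι → Λ, EvenM p p (Matrix.diagonal u) := by
    intro u x y hxy
    by_cases hx : x = y
    · rw [hx]
    · exact absurd (Matrix.diagonal_apply_ne u hx) hxy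
  refine ⟨?_, fun hl => ?_, fun hl φ hφ => ?_⟩
  · rw [e]; exact h.1.conj e2 (ev g) (ev g')
  · rw [e]; exact (h.2.1 hl).conj e1 e2
  · have e3 : (Matrix.of fun x y => g x * d x y * g' y).map φ =
        Matrix.of fun x y => φ (g x) * d.map φ x y * φ (g' y) := by
      ext x y
      simp
    rw [e3, tor_gauge (h.1.map φ) (fun x => by rw [← map_mul, h1, map_one]) (h8 φ hφ)]
    exact h.2.2 hl φ hφ

/-- Filtration lemma. Induct on the number of values of `π` (generalising the index type):
a value of maximal rank cuts out a sub-block. -/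
theorem gd_filt {μ : Type} [DecidableEq μ] (hd : Dm p d) (π : ι → μ) (rk : μ → ℕ)
    (h : ∀ x y, d x y ≠ 0 → π x = π y ∨ rk (π y) < rk (π x))
    (hk : ∀ k, Gd l Φ (fun x : {x // π x = k} => p x) (blk d (fun x => π x = k))) :
    Gd l Φ p d := by
  exact alge2_filt rk _ ι p d π rfl hd h hk

theorem Gd.unip (h : Gd l Φ p d) {N : Matrix ι ι Λ} (hN : EvenM p p N) (h2 : N * N = 0) :
    Gd l Φ p ((1 + N) * d * (1 - N)) := by
  have e1 : (1 + N) * (1 - N) = 1 := by
    rw [add_mul, mul_sub, mul_sub, h2]; simp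
  have e2 : (1 - N) * (1 + N) = 1 := by
    rw [sub_mul, mul_add, mul_add, h2]; simp
  have ev1 : EvenM p p (1 + N) := by
    intro x y hxy
    by_cases hx : x = y
    · rw [hx]
    · refine hN x y ?_
      simpa [Matrix.one_apply_ne hx] using hxy
  have ev2 : EvenM p p (1 - N) := by
    intro x y hxy
    by_cases hx : x = y
    · rw [hx]
    · refine hN x y ?_
      simpa [Matrix.one_apply_ne hx] using hxy
  refine ⟨h.1.conj e2 ev1 ev2, fun hl => (h.2.1 hl).conj e1 e2, fun hl φ hφ => ?_⟩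
  have e3 : ((1 + N) * d * (1 - N)).map φ = (1 + N.map φ) * d.map φ * (1 - N.map φ) := by
    have : φ.mapMatrix ((1 + N) * d * (1 - N)) =
        (1 + φ.mapMatrix N) * φ.mapMatrix d * (1 - φ.mapMatrix N) := by
      rw [map_mul, map_mul, map_add, map_sub, map_one]
    exact this
  have hN' : EvenM p p (N.map φ) := by
    intro x y hxy
    refine hN x y fun h0 => hxy ?_
    simp [h0]
  have h2' : N.map φ * N.map φ = 0 := by
    rw [← Matrix.map_mul, h2]
    ext x y
    simp
  rw [e3, tor_unip (h.1.map φ) hN' h2']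
  exact h.2.2 hl φ hφ

/-- Conjugation by signs. -/
theorem Gd.sign (h : Gd l Φ p d) (ε : ι → ℤ) (hε : ∀ x, ε x * ε x = 1) :
    Gd l Φ p (Matrix.of fun x y => (ε x * ε y) • d x y) := by
  have hc : ∀ x, (ε x : Λ) * (ε x : Λ) = 1 := fun x => by
    rw [← Int.cast_mul, hε, Int.cast_one]
  have h0 := alge2_diag h (g := fun x => (ε x : Λ)) (g' := fun x => (ε x : Λ)) hc hc
    (fun φ _ x => by
      have : φ (ε x : Λ) * φ (ε x : Λ) = 1 := by rw [← map_mul, hc, map_one]
      calc φ (ε x : Λ) ^ 8 = (φ (ε x : Λ) * φ (ε x : Λ)) ^ 4 := by ring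
        _ = 1 := by rw [this, one_pow])
  have e : (Matrix.of fun x y => (ε x * ε y) • d x y) =
      Matrix.of fun x y => (ε x : Λ) * d x y * (ε y : Λ) := by
    ext x y
    simp only [Matrix.of_apply, zsmul_eq_mul, Int.cast_mul]
    rw [mul_assoc, mul_assoc, (Int.cast_commute (ε y) (d x y)).eq]
  rw [e]
  exact h0

/-- An integral contractible matrix is good over every ring. -/
theorem gd_int {m : Matrix ι ι ℤ} (hm : Dm p m) (h : Ctr m) :
    Gd l Φ p (m.map (Int.castRingHom Λ)) := by
  refine ⟨hm.map _, fun _ => h.map _, fun _ φ _ => ?_⟩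
  have e : (m.map (Int.castRingHom Λ)).map φ = m.map (Int.castRingHom F) := by
    ext x y
    simp
  rw [e]
  exact tor_int hm h

/-- Two indices joined by a sign. -/
theorem gd_pair {x y : ι} (hxy : p x ≠ p y) (hall : ∀ z, z = x ∨ z = y) {ε : ℤ} (hε : ε * ε = 1)
    (h1 : d x y = (ε : Λ)) (h0 : ∀ u v, ¬ (u = x ∧ v = y) → d u v = 0) : Gd l Φ p d := by
  have hne : x ≠ y := fun e => hxy (by rw [e])
  have e : d = (Matrix.single x y ε).map (Int.castRingHom Λ) := by
    ext u v
    by_cases huv : u = x ∧ v = y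
    · obtain ⟨rfl, rfl⟩ := huv
      simp [h1]
    · rw [h0 u v huv]
      have : ¬ (x = u ∧ y = v) := fun hh => huv ⟨hh.1.symm, hh.2.symm⟩
      simp [Matrix.single, this]
  rw [e]
  refine gd_int ⟨?_, ?_⟩ ⟨Matrix.single y x ε, ?_⟩
  · exact Matrix.single_mul_single_of_ne _ _ _ _ hne.symm _
  · intro u v huv
    by_cases hh : x = u ∧ y = v
    · rw [← hh.1, ← hh.2]; exact hxy
    · exact absurd (by simp [Matrix.single, hh]) huv
  · rw [Matrix.single_mul_single_same, Matrix.single_mul_single_same, hε]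
    ext u v
    rcases hall u with rfl | rfl <;> rcases hall v with rfl | rfl <;>
      simp [Matrix.single, hne, hne.symm]

section group

variable {Γ : Type} [Group Γ]

/-- Conjugation by group elements. -/
theorem Gd.gauge {d : Matrix ι ι (ZG Γ)} (h : Gd l (PhiG Γ F) p d) (G : ι → Γ) :
    Gd l (PhiG Γ F) p (Matrix.of fun x y =>
      MonoidAlgebra.single (G x) 1 * d x y * MonoidAlgebra.single (G y)⁻¹ 1) := by
  refine alge2_diag h (g := fun x => MonoidAlgebra.single (G x) 1)
    (g' := fun x => MonoidAlgebra.single (G x)⁻¹ 1) (fun x => ?_) (fun x => ?_)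
    (fun φ hφ x => hφ (G x))
  · rw [MonoidAlgebra.single_mul_single, mul_inv_cancel, mul_one, MonoidAlgebra.one_def]
  · rw [MonoidAlgebra.single_mul_single, inv_mul_cancel, mul_one, MonoidAlgebra.one_def]

/-- A gauge transform of an integral contractible matrix is good. -/
theorem gd_of_int {d : Matrix ι ι (ZG Γ)} {m : Matrix ι ι ℤ} (hm : Dm p m) (h : Ctr m)
    (G : ι → Γ) (hd : ∀ x y, d x y = MonoidAlgebra.single (G x * (G y)⁻¹) (m x y)) :
    Gd l (PhiG Γ F) p d := by
  have h0 : Gd l (PhiG Γ F) p (m.map (Int.castRingHom (ZG Γ))) := gd_int hm h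
  have e : d = Matrix.of fun x y => MonoidAlgebra.single (G x) 1 *
      m.map (Int.castRingHom (ZG Γ)) x y * MonoidAlgebra.single (G y)⁻¹ 1 := by
    ext x y : 2
    have e1 : ((m x y : ℤ) : ZG Γ) = MonoidAlgebra.single 1 (m x y) := by
      rw [MonoidAlgebra.intCast_def]; rfl
    rw [hd, Matrix.of_apply, Matrix.map_apply, eq_intCast, e1, MonoidAlgebra.single_mul_single,
      MonoidAlgebra.single_mul_single]
    simp
  rw [e]
  exact h0.gauge G

end group

end Pool.Agent.Lib.MP_5ceaf9_gt
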