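import Pool.Agent.Lib.MP_5ceaf9_gt.AlgE2

/-! Mapping cones. -/

noncomputable section

namespace Pool.Agent.Lib.MP_5ceaf9_gt

variable {ι κ μ Λ F : Type} [Ring Λ] [Field F] [Fintype ι] [DecidableEq ι] [Fintype κ]
  [DecidableEq κ] [Fintype μ] [DecidableEq μ] {p : ι → Bool} {p' : κ → Bool} {p'' : μ → Bool}
  {l : ℕ} {Φ : Set (Λ →+* F)}

/-- A chain map between differential matrices. -/
structure CM (p' : κ → Bool) (p : ι → Bool) (d' : Matrix κ κ Λ) (d : Matrix ι ι Λ)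
    (f : Matrix κ ι Λ) : Prop where
  dm' : Dm p' d'
  dm : Dm p d
  even : EvenM p' p f
  comm : d' * f = f * d

section ring

variable {d : Matrix ι ι Λ} {d' : Matrix κ κ Λ} {d'' : Matrix μ μ Λ} {f : Matrix κ ι Λ}
  {g : Matrix μ κ Λ}

theorem algf_even_mul {Λ : Type} [Ring Λ] {f : Matrix κ ι Λ} {g : Matrix μ κ Λ}
    (hg : EvenM p'' p' g) (hf : EvenM p' p f) : EvenM p'' p (g * f) := by
  intro x y hxy
  rw [Matrix.mul_apply] at hxy
  obtain ⟨z, -, hz⟩ := Finset.exists_ne_zero_of_sum_ne_zero hxy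
  have h1 : g x z ≠ 0 := fun h0 => hz (by rw [h0, zero_mul])
  have h2 : f z y ≠ 0 := fun h0 => hz (by rw [h0, mul_zero])
  exact (hg x z h1).trans (hf z y h2)

theorem CM.cone (h : CM p' p d' d f) : Dm (cpar p' p) (cone d' d f) := by
  refine ⟨?_, ?_⟩
  · unfold Pool.Agent.Lib.MP_5ceaf9_gt.cone
    rw [Matrix.fromBlocks_multiply]
    have e1 : d' * d' + f * (0 : Matrix ι κ Λ) = 0 := by
      rw [h.dm'.1, Matrix.mul_zero, add_zero]
    have e2 : d' * f + f * -d = 0 := by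
      rw [h.comm, Matrix.mul_neg, add_neg_cancel]
    have e3 : (0 : Matrix ι κ Λ) * d' + -d * (0 : Matrix ι κ Λ) = 0 := by
      rw [Matrix.zero_mul, Matrix.mul_zero, add_zero]
    have e4 : (0 : Matrix ι κ Λ) * f + -d * -d = 0 := by
      rw [Matrix.zero_mul, neg_mul_neg, h.dm.1, add_zero]
    rw [e1, e2, e3, e4, Matrix.fromBlocks_zero]
  · rintro (x | x) (y | y) hxy
    · exact h.dm'.2 x y hxy
    · have := h.even x y hxy
      simp only [cpar, Sum.elim_inl, Sum.elim_inr]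
      rw [this]
      cases p y <;> simp
    · exact absurd rfl hxy
    · have h1 : d x y ≠ 0 := fun h0 => hxy (by
        simp [Pool.Agent.Lib.MP_5ceaf9_gt.cone, h0])
      have := h.dm.2 x y h1
      simp only [cpar, Sum.elim_inr]
      revert this
      cases p x <;> cases p y <;> simp

theorem CM.comp (hg : CM p'' p' d'' d' g) (hf : CM p' p d' d f) : CM p'' p d'' d (g * f) := by
  refine ⟨hg.dm', hf.dm, algf_even_mul hg.even hf.even, ?_⟩
  rw [← Matrix.mul_assoc, hg.comm, Matrix.mul_assoc, hf.comm, Matrix.mul_assoc]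

theorem CM.map {Λ' : Type} [Ring Λ'] (h : CM p' p d' d f) (φ : Λ →+* Λ') :
    CM p' p (d'.map φ) (d.map φ) (f.map φ) := by
  refine ⟨h.dm'.map φ, h.dm.map φ, ?_, ?_⟩
  · intro x y hxy
    refine h.even x y fun h0 => hxy ?_
    rw [Matrix.map_apply, h0, map_zero]
  · rw [← Matrix.map_mul, ← Matrix.map_mul, h.comm]

theorem cone_map {Λ' : Type} [Ring Λ'] (φ : Λ →+* Λ') :
    (cone d' d f).map φ = cone (d'.map φ) (d.map φ) (f.map φ) := by
  ext (x | x) (y | y) <;> simp [cone]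

theorem algf_dm_int :
    Dm (cpar p p) (Matrix.fromBlocks (0 : Matrix ι ι ℤ) 1 0 (0 : Matrix ι ι ℤ)) := by
  refine ⟨?_, ?_⟩
  · rw [Matrix.fromBlocks_multiply]
    simp
  · rintro (x | x) (y | y) hxy
    · exact absurd rfl hxy
    · have hxy' : x = y := by
        by_contra hne
        exact hxy (by simp [Matrix.one_apply_ne hne])
      subst hxy'
      simp only [cpar, Sum.elim_inl, Sum.elim_inr]
      cases p x <;> simp
    · exact absurd rfl hxy
    · exact absurd rfl hxy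

theorem algf_ctr_int :
    Ctr (Matrix.fromBlocks (0 : Matrix ι ι ℤ) 1 0 (0 : Matrix ι ι ℤ)) := by
  refine ⟨Matrix.fromBlocks 0 0 1 0, ?_⟩
  rw [Matrix.fromBlocks_multiply, Matrix.fromBlocks_multiply, Matrix.fromBlocks_add,
    ← Matrix.fromBlocks_one]
  simp

/-- Conjugate by `1 + N`, where `N` is `d` placed in the lower left block, to reach the integral
matrix `fromBlocks 0 1 0 0`. -/
theorem gd_cone_id (hd : Dm p d) : Gd l Φ (cpar p p) (cone d d 1) := by
  have h0 : Gd l Φ (cpar p p)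
      ((Matrix.fromBlocks (0 : Matrix ι ι ℤ) 1 0 (0 : Matrix ι ι ℤ)).map (Int.castRingHom Λ)) :=
    gd_int algf_dm_int algf_ctr_int
  have hm : (Matrix.fromBlocks (0 : Matrix ι ι ℤ) 1 0 (0 : Matrix ι ι ℤ)).map (Int.castRingHom Λ) =
      Matrix.fromBlocks (0 : Matrix ι ι Λ) 1 0 (0 : Matrix ι ι Λ) := by
    rw [Matrix.fromBlocks_map, Matrix.map_zero _ (map_zero _),
      Matrix.map_one _ (map_zero _) (map_one _)]
  rw [hm] at h0
  have hN : EvenM (cpar p p) (cpar p p)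
      (Matrix.fromBlocks (0 : Matrix ι ι Λ) 0 (-d) (0 : Matrix ι ι Λ)) := by
    rintro (x | x) (y | y) hxy
    · exact absurd rfl hxy
    · exact absurd rfl hxy
    · have h1 : d x y ≠ 0 := fun h0 => hxy (by simp [h0])
      have := hd.2 x y h1
      simp only [cpar, Sum.elim_inl, Sum.elim_inr]
      revert this
      cases p x <;> cases p y <;> simp
    · exact absurd rfl hxy
  have h2 : Matrix.fromBlocks (0 : Matrix ι ι Λ) 0 (-d) (0 : Matrix ι ι Λ) *
      Matrix.fromBlocks (0 : Matrix ι ι Λ) 0 (-d) (0 : Matrix ι ι Λ) = 0 := by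
    rw [Matrix.fromBlocks_multiply]
    simp
  have h3 := h0.unip hN h2
  have e1 : (1 : Matrix (ι ⊕ ι) (ι ⊕ ι) Λ) +
      Matrix.fromBlocks (0 : Matrix ι ι Λ) 0 (-d) (0 : Matrix ι ι Λ) =
      Matrix.fromBlocks 1 0 (-d) 1 := by
    rw [← Matrix.fromBlocks_one, Matrix.fromBlocks_add]
    simp
  have e2 : (1 : Matrix (ι ⊕ ι) (ι ⊕ ι) Λ) -
      Matrix.fromBlocks (0 : Matrix ι ι Λ) 0 (-d) (0 : Matrix ι ι Λ) =
      Matrix.fromBlocks 1 0 d 1 := by
    rw [← Matrix.fromBlocks_one, sub_eq_add_neg, Matrix.fromBlocks_neg, Matrix.fromBlocks_add]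
    simp
  rw [e1, e2, Matrix.fromBlocks_multiply, Matrix.fromBlocks_multiply] at h3
  have e3 : cone d d 1 = Matrix.fromBlocks d 1 0 (-d) := rfl
  rw [e3]
  simpa [hd.1] using h3

end ring

end Pool.Agent.Lib.MP_5ceaf9_gt
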