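import Pool.Agent.Lib.MP_5ceaf9_gt.AlgF

/-! Composition of mapping cones. -/

noncomputable section

namespace Pool.Agent.Lib.MP_5ceaf9_gt

variable {ι κ μ Λ F : Type} [Ring Λ] [Field F] [Fintype ι] [DecidableEq ι] [Fintype κ]
  [DecidableEq κ] [Fintype μ] [DecidableEq μ] {p : ι → Bool} {p' : κ → Bool} {p'' : μ → Bool}
  {l : ℕ} {Φ : Set (Λ →+* F)}

omit [Fintype ι] [DecidableEq ι] [Fintype κ] [DecidableEq κ] [Fintype μ] [DecidableEq μ] in
theorem algf2_split (e : κ ⊕ μ ≃ ι) : ∃ (q : ι → Prop) (e1 : κ ≃ {z // q z})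
    (e2 : μ ≃ {z // ¬ q z}), (∀ x, (e1 x).1 = e (Sum.inl x)) ∧ ∀ x, (e2 x).1 = e (Sum.inr x) := by
  refine ⟨fun z => ∃ y, e (Sum.inl y) = z, Equiv.ofBijective (fun y => ⟨e (Sum.inl y), y, rfl⟩) ?_,
    Equiv.ofBijective (fun y => ⟨e (Sum.inr y), by simp⟩) ?_, fun _ => rfl, fun _ => rfl⟩
  · refine ⟨fun x y h => by simpa using h, ?_⟩
    rintro ⟨z, y, rfl⟩
    exact ⟨y, rfl⟩
  · refine ⟨fun x y h => by simpa using h, ?_⟩
    rintro ⟨z, hz⟩
    obtain ⟨y | y, rfl⟩ := e.surjective z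
    · exact absurd ⟨y, rfl⟩ hz
    · exact ⟨y, rfl⟩

omit [Fintype ι] [DecidableEq ι] [Fintype κ] [DecidableEq κ] [Fintype μ] [DecidableEq μ] in
theorem algf2_sub {d : Matrix ι ι Λ} {q : ι → Prop} (e : κ ⊕ μ ≃ ι) (e1 : κ ≃ {z // q z})
    (e2 : μ ≃ {z // ¬ q z}) (h1 : ∀ x, (e1 x).1 = e (Sum.inl x))
    (h2 : ∀ x, (e2 x).1 = e (Sum.inr x)) (h0 : ∀ x y, d (e (Sum.inr x)) (e (Sum.inl y)) = 0) :
    Sub d q := by
  intro x y hxy hy
  by_contra hx
  obtain ⟨u, hu⟩ := e2.surjective ⟨x, hx⟩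
  obtain ⟨v, hv⟩ := e1.surjective ⟨y, hy⟩
  have := h0 u v
  rw [← h1, ← h2, hu, hv] at this
  exact hxy this

/-- Two out of three for a block triangular matrix. -/
theorem algf2_tri {d : Matrix ι ι Λ} (hd : Dm p d) (e : κ ⊕ μ ≃ ι) {a : Matrix κ κ Λ}
    {c : Matrix μ μ Λ} (h0 : ∀ x y, d (e (Sum.inr x)) (e (Sum.inl y)) = 0)
    (hp : ∀ x, p' x = p (e (Sum.inl x))) (hp' : ∀ x, p'' x = p (e (Sum.inr x)))
    (ha : ∀ x y, a x y = d (e (Sum.inl x)) (e (Sum.inl y)))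
    (hc : ∀ x y, c x y = d (e (Sum.inr x)) (e (Sum.inr y))) :
    (Gd l Φ p' a → (Gd l Φ p d ↔ Gd l Φ p'' c)) ∧ (Gd l Φ p'' c → (Gd l Φ p d ↔ Gd l Φ p' a)) := by
  classical
  obtain ⟨q, e1, e2, h1, h2⟩ := algf2_split e
  have hq := algf2_sub e e1 e2 h1 h2 h0
  have k1 : Gd l Φ p' a ↔ Gd l Φ (fun x : {x // q x} => p x) (blk d q) := by
    rw [← gd_reindex e1]
    refine iff_of_eq (congrArg₂ _ (funext fun x => by rw [hp, h1]) ?_)
    ext x y
    rw [ha, ← h1, ← h1]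
    rfl
  have k2 : Gd l Φ p'' c ↔ Gd l Φ (fun x : {x // ¬ q x} => p x) (blk d fun x => ¬ q x) := by
    rw [← gd_reindex e2]
    refine iff_of_eq (congrArg₂ _ (funext fun x => by rw [hp', h2]) ?_)
    ext x y
    rw [hc, ← h2, ← h2]
    rfl
  rw [k1, k2]
  exact ⟨fun h => ⟨fun h' => h'.quot hq h, gd_of_blocks hd hq h⟩,
    fun h => ⟨fun h' => h'.sub hq h, fun h' => gd_of_blocks hd hq h' h⟩⟩

theorem algf2_tor {d : Matrix ι ι F} (hd : Dm p d) (e : κ ⊕ μ ≃ ι) {a : Matrix κ κ F}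
    {c : Matrix μ μ F} (h0 : ∀ x y, d (e (Sum.inr x)) (e (Sum.inl y)) = 0)
    (hp : ∀ x, p' x = p (e (Sum.inl x))) (hp' : ∀ x, p'' x = p (e (Sum.inr x)))
    (ha : ∀ x y, a x y = d (e (Sum.inl x)) (e (Sum.inl y)))
    (hc : ∀ x y, c x y = d (e (Sum.inr x)) (e (Sum.inr y))) (ca : Ctr a) (cc : Ctr c) :
    tor p d = tor p' a * tor p'' c := by
  classical
  obtain ⟨q, e1, e2, h1, h2⟩ := algf2_split e
  have hq := algf2_sub e e1 e2 h1 h2 h0
  obtain rfl : a = (blk d q).submatrix e1 e1 := by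
    ext x y
    rw [ha, ← h1, ← h1]
    rfl
  obtain rfl : c = (blk d fun x => ¬ q x).submatrix e2 e2 := by
    ext x y
    rw [hc, ← h2, ← h2]
    rfl
  obtain rfl : p' = fun x => p (e1 x) := funext fun x => by rw [hp, h1]
  obtain rfl : p'' = fun x => p (e2 x) := funext fun x => by rw [hp', h2]
  rw [tor_block hd hq ((ctr_reindex e1).1 ca) ((ctr_reindex e2).1 cc),
    ← tor_reindex (hd.blk_sub hq) e1, ← tor_reindex (hd.blk_quot hq) e2]

theorem algf2_unip {d N : Matrix ι ι Λ} (hN : EvenM p p N) (h2 : N * N = 0) :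
    Gd l Φ p ((1 + N) * d * (1 - N)) ↔ Gd l Φ p d := by
  refine ⟨fun h => ?_, fun h => h.unip hN h2⟩
  have h3 := h.unip (N := -N) (fun x y hxy => hN x y fun h4 => hxy (by simp [h4])) (by simpa)
  have h4 : (1 + -N) * (1 + N) = 1 := by
    rw [add_mul, mul_add, mul_add, neg_mul, neg_mul, h2]
    simp
  have h5 : (1 + -N) * ((1 + N) * d * (1 - N)) * (1 - -N) =
      (1 + -N) * (1 + N) * d * ((1 + -N) * (1 + N)) := by
    rw [sub_neg_eq_add, sub_eq_add_neg]
    simp only [mul_assoc]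
  rwa [h5, h4, one_mul, mul_one] at h3

theorem algf2_not {d : Matrix ι ι Λ} : Gd l Φ (fun x => !p x) (-d) ↔ Gd l Φ p d :=
  ⟨fun h => by simpa using h.neg.not, fun h => h.neg.not⟩

section ring

variable {d : Matrix ι ι Λ} {d' : Matrix κ κ Λ} {d'' : Matrix μ μ Λ} {f : Matrix κ ι Λ}
  {g : Matrix μ κ Λ}

/-- The matrix on `(κ ⊕ ι) ⊕ (μ ⊕ κ)` with diagonal blocks `cone f`, `cone g` and the identity
from the second `κ` to the first. -/
def octa (d'' : Matrix μ μ Λ) (d' : Matrix κ κ Λ) (d : Matrix ι ι Λ) (g : Matrix μ κ Λ)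
    (f : Matrix κ ι Λ) : Matrix ((κ ⊕ ι) ⊕ (μ ⊕ κ)) ((κ ⊕ ι) ⊕ (μ ⊕ κ)) Λ :=
  Matrix.fromBlocks (cone d' d f) (Matrix.fromBlocks 0 1 0 0) 0 (cone d'' d' g)

theorem octa_dm (hg : CM p'' p' d'' d' g) (hf : CM p' p d' d f) :
    Dm (Sum.elim (cpar p' p) (cpar p'' p')) (octa d'' d' d g f) := by
  refine ⟨?_, ?_⟩
  · unfold octa
    rw [Matrix.fromBlocks_multiply, hg.cone.1, hf.cone.1]
    simp [cone, Matrix.fromBlocks_multiply, Matrix.fromBlocks_add]
  · rintro (x | x) (y | y) h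
    · exact hf.cone.2 x y h
    · rcases x with x | x <;> rcases y with y | y
      · exact absurd rfl h
      · obtain rfl : x = y := by
          by_contra hne
          exact h (Matrix.one_apply_ne hne)
        simp [cpar]
      · exact absurd rfl h
      · exact absurd rfl h
    · exact absurd rfl h
    · exact hg.cone.2 x y h

theorem algf2_sign (h : Gd l Φ (cpar p' p) (cone d' d f)) : Gd l Φ (cpar p' p) (cone d' d (-f)) := by
  have h1 := h.sign (Sum.elim (fun _ => 1) fun _ => -1) (by rintro (x | x) <;> simp)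
  refine h1.of_equiv (Equiv.refl _) (fun _ => rfl) ?_
  rintro (x | x) (y | y) <;> simp [cone]

/-- The nilpotent matrix of the conjugation. -/
def algf2_N (ι : Type) (g : Matrix μ κ Λ) : Matrix ((κ ⊕ ι) ⊕ (μ ⊕ κ)) ((κ ⊕ ι) ⊕ (μ ⊕ κ)) Λ :=
  Matrix.fromBlocks 0 0 (Matrix.fromBlocks (-g) 0 0 0) 0

/-- The regrouping of the indices. -/
def algf2_e (ι κ μ : Type) : (κ ⊕ κ) ⊕ (μ ⊕ ι) ≃ (κ ⊕ ι) ⊕ (μ ⊕ κ) where
  toFun := Sum.elim (Sum.elim (fun x => .inl (.inl x)) fun x => .inr (.inr x))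
    (Sum.elim (fun x => .inr (.inl x)) fun x => .inl (.inr x))
  invFun := Sum.elim (Sum.elim (fun x => .inl (.inl x)) fun x => .inr (.inr x))
    (Sum.elim (fun x => .inr (.inl x)) fun x => .inl (.inr x))
  left_inv := by rintro ((x | x) | (x | x)) <;> rfl
  right_inv := by rintro ((x | x) | (x | x)) <;> rfl

omit [Fintype ι] [DecidableEq ι] [DecidableEq κ] [DecidableEq μ] in
theorem algf2_even (hg : CM p'' p' d'' d' g) : EvenM (Sum.elim (cpar p' p) (cpar p'' p'))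
    (Sum.elim (cpar p' p) (cpar p'' p')) (algf2_N ι g) := by
  rintro ((x | x) | (x | x)) ((y | y) | (y | y)) h <;> try exact absurd rfl h
  exact hg.even x y fun h1 => h (neg_eq_zero.2 h1)

omit [DecidableEq ι] [DecidableEq κ] [DecidableEq μ] in
theorem algf2_sq : algf2_N ι g * algf2_N ι g = 0 := by
  simp [algf2_N, Matrix.fromBlocks_multiply]

theorem algf2_conj (hg : CM p'' p' d'' d' g) :
    (1 + algf2_N ι g) * octa d'' d' d g f * (1 - algf2_N ι g) =
      Matrix.fromBlocks (cone d' d f) (Matrix.fromBlocks 0 1 0 0)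
        (Matrix.fromBlocks 0 (-(g * f)) 0 0) (Matrix.fromBlocks d'' 0 0 (-d')) := by
  rw [sub_eq_add_neg, ← Matrix.fromBlocks_one]
  simp [algf2_N, octa, cone, Matrix.fromBlocks_multiply, Matrix.fromBlocks_add,
    Matrix.fromBlocks_neg, hg.comm, -Matrix.fromBlocks_one]

/-- Conjugate by `1 + N`, where `N` is `-g` from the first `κ` to `μ`. Then the two copies of `κ`
span a sub-block that is the cone of an identity, and the quotient on `ι` and `μ` is the cone of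
`-(g f)`, which a sign gauge turns into the cone of `g f`. -/
theorem gd_octa_iff (hg : CM p'' p' d'' d' g) (hf : CM p' p d' d f) :
    Gd l Φ (Sum.elim (cpar p' p) (cpar p'' p')) (octa d'' d' d g f) ↔
      Gd l Φ (cpar p'' p) (cone d'' d (g * f)) := by
  have h0 : Gd 0 Φ _ (octa d'' d' d g f) := ⟨octa_dm hg hf, by simp, by simp⟩
  have h1 := (h0.unip (algf2_even hg) algf2_sq).1
  rw [← algf2_unip (algf2_even hg) algf2_sq]
  rw [algf2_conj hg] at h1 ⊢
  rw [(algf2_tri h1 (algf2_e ι κ μ) (a := cone d' d' 1) (c := cone d'' d (-(g * f)))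
    (p' := cpar p' p') (p'' := cpar p'' p) (by rintro (x | x) (y | y) <;> rfl)
    (by rintro (x | x) <;> rfl) (by rintro (x | x) <;> rfl) (by rintro (x | x) (y | y) <;> rfl)
    (by rintro (x | x) (y | y) <;> rfl)).1 (gd_cone_id hg.dm)]
  exact ⟨fun h => by simpa using algf2_sign h, algf2_sign⟩

/-- The same conjugation over a field. -/
theorem tor_octa {d : Matrix ι ι F} {d' : Matrix κ κ F} {d'' : Matrix μ μ F} {f : Matrix κ ι F}
    {g : Matrix μ κ F} (hg : CM p'' p' d'' d' g) (hf : CM p' p d' d f)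
    (h : Ctr (cone d'' d (g * f))) :
    tor (Sum.elim (cpar p' p) (cpar p'' p')) (octa d'' d' d g f) =
      tor (cpar p'' p) (cone d'' d (g * f)) := by
  have h0 : Gd 0 {RingHom.id F} _ (octa d'' d' d g f) := ⟨octa_dm hg hf, by simp, by simp⟩
  have h1 := (h0.unip (algf2_even hg) algf2_sq).1
  have h2 : Gd 2 {RingHom.id F} (cpar p' p') (cone d' d' 1) := gd_cone_id hg.dm
  have h3 : tor (cpar p' p') (cone d' d' 1) = 1 := h2.2.2 le_rfl _ rfl
  have h4 : Gd 1 {RingHom.id F} (cpar p'' p) (cone d'' d (g * f)) :=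
    ⟨(hg.comp hf).cone, fun _ => h, by simp⟩
  have h5 := tor_gauge h4.1 (g := Sum.elim (fun _ => 1) fun _ => -1)
    (g' := Sum.elim (fun _ => 1) fun _ => -1) (by rintro (x | x) <;> simp)
    (by rintro (x | x) <;> norm_num)
  rw [← tor_unip h0.1 (algf2_even hg) algf2_sq]
  rw [algf2_conj hg] at h1 ⊢
  rw [algf2_tor h1 (algf2_e ι κ μ) (a := cone d' d' 1) (c := cone d'' d (-(g * f)))
    (p' := cpar p' p') (p'' := cpar p'' p) (by rintro (x | x) (y | y) <;> rfl)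
    (by rintro (x | x) <;> rfl) (by rintro (x | x) <;> rfl) (by rintro (x | x) (y | y) <;> rfl)
    (by rintro (x | x) (y | y) <;> rfl) (h2.2.1 one_le_two) ((algf2_sign h4).2.1 le_rfl), h3,
    one_mul, ← h5]
  congr 1
  ext (x | x) (y | y) <;> simp [cone]

theorem algf2_octa (hg : CM p'' p' d'' d' g) (hf : CM p' p d' d f) :
    (Gd l Φ (cpar p' p) (cone d' d f) →
      (Gd l Φ (cpar p'' p) (cone d'' d (g * f)) ↔ Gd l Φ (cpar p'' p') (cone d'' d' g))) ∧
    (Gd l Φ (cpar p'' p') (cone d'' d' g) →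
      (Gd l Φ (cpar p'' p) (cone d'' d (g * f)) ↔ Gd l Φ (cpar p' p) (cone d' d f))) := by
  rw [← gd_octa_iff hg hf]
  exact algf2_tri (octa_dm hg hf) (Equiv.refl _) (fun _ _ => rfl) (fun _ => rfl) (fun _ => rfl)
    (fun _ _ => rfl) fun _ _ => rfl

theorem gd_cone_comp (hg : CM p'' p' d'' d' g) (hf : CM p' p d' d f)
    (h1 : Gd l Φ (cpar p'' p') (cone d'' d' g)) (h2 : Gd l Φ (cpar p' p) (cone d' d f)) :
    Gd l Φ (cpar p'' p) (cone d'' d (g * f)) :=
  ((algf2_octa hg hf).1 h2).2 h1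

theorem gd_cone_left (hg : CM p'' p' d'' d' g) (hf : CM p' p d' d f)
    (h : Gd l Φ (cpar p'' p) (cone d'' d (g * f))) (h2 : Gd l Φ (cpar p' p) (cone d' d f)) :
    Gd l Φ (cpar p'' p') (cone d'' d' g) :=
  ((algf2_octa hg hf).1 h2).1 h

theorem gd_cone_right (hg : CM p'' p' d'' d' g) (hf : CM p' p d' d f)
    (h : Gd l Φ (cpar p'' p) (cone d'' d (g * f))) (h1 : Gd l Φ (cpar p'' p') (cone d'' d' g)) :
    Gd l Φ (cpar p' p) (cone d' d f) :=
  ((algf2_octa hg hf).2 h1).1 h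

/-- If the cone is good, source and target are good together. -/
theorem gd_iff_of_cone (hf : CM p' p d' d f) (h : Gd l Φ (cpar p' p) (cone d' d f)) :
    Gd l Φ p' d' ↔ Gd l Φ p d := by
  have h1 := algf2_tri (l := l) (Φ := Φ) hf.cone (Equiv.refl _) (a := d') (c := -d) (p' := p')
    (p'' := fun x => !p x) (fun _ _ => rfl) (fun _ => rfl) (fun _ => rfl) (fun _ _ => rfl)
    fun _ _ => rfl
  rw [algf2_not] at h1
  exact ⟨fun h2 => (h1.1 h2).1 h, fun h2 => (h1.2 h2).1 h⟩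

/-- The restriction matrix to the indices without `q`. -/
def resM (Λ : Type) [Ring Λ] (q : ι → Prop) : Matrix {x // ¬ q x} ι Λ :=
  Matrix.of fun x y => if (x : ι) = y then 1 else 0

theorem cm_res (hd : Dm p d) {q : ι → Prop} [DecidablePred q] (hq : Sub d q) :
    CM (fun x : {x // ¬ q x} => p x) p (blk d (fun x => ¬ q x)) d (resM Λ q) := by
  refine ⟨hd.blk_quot hq, hd, fun x y h => ?_, ?_⟩
  · obtain rfl : (x : ι) = y := by
      by_contra hne
      exact h (if_neg hne)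
    rfl
  · ext x y
    simp only [Matrix.mul_apply, resM, blk, Matrix.of_apply, mul_ite, mul_one, mul_zero, ite_mul,
      one_mul, zero_mul, Finset.sum_ite_eq, Finset.mem_univ, if_true]
    by_cases hy : q y
    · rw [Finset.sum_eq_zero fun (z : {x // ¬ q x}) _ =>
        if_neg fun h : (z : ι) = y => z.2 (h ▸ hy)]
      by_contra hne
      exact x.2 (hq x y (Ne.symm hne) hy)
    · rw [Finset.sum_eq_single ⟨y, hy⟩ (fun z _ hz => if_neg fun h => hz (Subtype.ext h))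
        (by simp), if_pos rfl]

/-- In the cone of the restriction the indices `inr x` with `q x` span a sub-block equal to
`-(blk d q)`, and the quotient is the cone of an identity. -/
theorem gd_cone_res (hd : Dm p d) {q : ι → Prop} [DecidablePred q] (hq : Sub d q) :
    Gd l Φ (cpar (fun x : {x // ¬ q x} => p x) p) (cone (blk d (fun x => ¬ q x)) d (resM Λ q)) ↔
      Gd l Φ (fun x : {x // q x} => p x) (blk d q) := by
  let e : {x // q x} ⊕ ({x // ¬ q x} ⊕ {x // ¬ q x}) ≃ {x // ¬ q x} ⊕ ι :=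
    ((Equiv.sumAssoc _ _ _).symm.trans (((Equiv.sumComm _ _).sumCongr (Equiv.refl _)).trans
      (Equiv.sumAssoc _ _ _))).trans ((Equiv.refl _).sumCongr (Equiv.sumCompl q))
  rw [(algf2_tri (cm_res hd hq).cone e (a := -blk d q)
    (c := cone (blk d fun x => ¬ q x) (blk d fun x => ¬ q x) 1)
    (p' := fun x : {x // q x} => !p x)
    (p'' := cpar (fun x : {x // ¬ q x} => p x) fun x : {x // ¬ q x} => p x) ?_
    (fun _ => rfl) (by rintro (x | x) <;> rfl) (fun _ _ => rfl) ?_).2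
    (gd_cone_id (hd.blk_quot hq)), algf2_not]
  · rintro (x | x) y
    · exact if_neg fun h : (x : ι) = y => x.2 (h ▸ y.2)
    · refine neg_eq_zero.2 ?_
      by_contra hne
      exact x.2 (hq x y hne y.2)
  · rintro (x | x) (y | y)
    · rfl
    · exact if_congr Subtype.ext_iff rfl rfl
    · rfl
    · rfl

end ring

end Pool.Agent.Lib.MP_5ceaf9_gt
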