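import Pool.Agent.Lib.MP_5ceaf9_gt.AlgF2

/-! Torsion of complexes with chosen cohomology classes. -/

noncomputable section

namespace Pool.Agent.Lib.MP_5ceaf9_gt

variable {ι κ μ J J' F : Type} [Field F] [Fintype ι] [DecidableEq ι] [Fintype κ]
  [DecidableEq κ] [Fintype μ] [DecidableEq μ] [Fintype J] [DecidableEq J] [Fintype J']
  [DecidableEq J'] {p : ι → Bool} {p' : κ → Bool} {p'' : μ → Bool} {pJ : J → Bool}
  {pJ' : J' → Bool} {d : Matrix ι ι F} {d' : Matrix κ κ F} {d'' : Matrix μ μ F}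

theorem algg_gd (hd : Dm p d) : Gd 1 (∅ : Set (F →+* F)) p d ↔ Ctr d :=
  ⟨fun h => h.2.1 le_rfl, fun h => ⟨hd, fun _ => h, fun _ _ hφ => absurd hφ (Set.notMem_empty _)⟩⟩

theorem algg_block {b : Matrix ι κ F} (hd : Dm (Sum.elim p p') (Matrix.fromBlocks d b 0 d'))
    (h : Ctr d) (h' : Ctr d') :
    tor (Sum.elim p p') (Matrix.fromBlocks d b 0 d') = tor p d * tor p' d' := by
  have hq : Sub (Matrix.fromBlocks d b 0 d') fun x => x.isLeft = true := by
    rintro (x | x) (y | y) hxy hy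
    · rfl
    · rfl
    · exact absurd rfl hxy
    · exact absurd hy (by simp)
  let e : ι ≃ {x : ι ⊕ κ // x.isLeft = true} := Equiv.ofBijective (fun x => ⟨Sum.inl x, rfl⟩)
    ⟨fun x y hxy => Sum.inl_injective (congrArg Subtype.val hxy), by
      rintro ⟨x | x, hx⟩
      · exact ⟨x, rfl⟩
      · exact absurd hx (by simp)⟩
  let e' : κ ≃ {x : ι ⊕ κ // ¬x.isLeft = true} :=
    Equiv.ofBijective (fun x => ⟨Sum.inr x, by simp⟩)
      ⟨fun x y hxy => Sum.inr_injective (congrArg Subtype.val hxy), by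
        rintro ⟨x | x, hx⟩
        · exact absurd rfl hx
        · exact ⟨x, rfl⟩⟩
  rw [tor_block hd hq ((ctr_reindex e).1 h) ((ctr_reindex e').1 h'),
    ← tor_reindex (hd.blk_sub hq) e, ← tor_reindex (hd.blk_quot hq) e']
  rfl

/-- `tor_block` for `octa`, and `tor_octa`. -/
theorem tor_cone_comp {f : Matrix κ ι F} {g : Matrix μ κ F} (hg : CM p'' p' d'' d' g)
    (hf : CM p' p d' d f) (h1 : Ctr (cone d'' d' g)) (h2 : Ctr (cone d' d f)) :
    tor (cpar p'' p) (cone d'' d (g * f)) =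
      tor (cpar p'' p') (cone d'' d' g) * tor (cpar p' p) (cone d' d f) := by
  rw [← tor_octa hg hf ((algg_gd (hg.comp hf).cone).1 (gd_cone_comp hg hf ((algg_gd hg.cone).2 h1)
    ((algg_gd hf.cone).2 h2))), mul_comm]
  exact algg_block (octa_dm hg hf) h2 h1

/-- Transport of classes along a chain map whose cone has trivial torsion. If one side is not
contractible both sides vanish (two out of three at level one). -/
theorem tor_cls_map {h : Matrix κ J F} {g : Matrix μ κ F} (hg : CM p'' p' d'' d' g)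
    (hh : CM p' pJ d' 0 h) (h1 : tor (cpar p'' p') (cone d'' d' g) = 1) :
    tor (cpar p'' pJ) (cone d'' 0 (g * h)) = tor (cpar p' pJ) (cone d' 0 h) := by
  have h2 : Ctr (cone d'' d' g) := (tor_ne_zero_iff hg.cone).1 (by rw [h1]; exact one_ne_zero)
  by_cases h3 : Ctr (cone d' (0 : Matrix J J F) h)
  · rw [tor_cone_comp hg hh h2 h3, h1, one_mul]
  · have h4 : ¬Ctr (cone d'' (0 : Matrix J J F) (g * h)) := fun h4 =>
      h3 ((algg_gd hh.cone).1 (gd_cone_right hg hh ((algg_gd (hg.comp hh).cone).2 h4)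
        ((algg_gd hg.cone).2 h2)))
    rw [not_not.1 (mt (tor_ne_zero_iff hh.cone).1 h3),
      not_not.1 (mt (tor_ne_zero_iff (hg.comp hh).cone).1 h4)]

/-- Changing classes by coboundaries. -/
theorem tor_cls_cob {h θ : Matrix ι J F} (hh : CM p pJ d 0 h) (hθ : OddM p pJ θ) :
    tor (cpar p pJ) (cone d 0 (h + d * θ)) = tor (cpar p pJ) (cone d 0 h) := by
  rw [← tor_unip hh.cone (N := Matrix.fromBlocks 0 (-θ) 0 0) ?_
    (by simp [Matrix.fromBlocks_multiply])]
  · congr 1
    rw [← Matrix.fromBlocks_one, sub_eq_add_neg, Matrix.fromBlocks_neg, Matrix.fromBlocks_add,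
      Matrix.fromBlocks_add, cone, cone, Matrix.fromBlocks_multiply, Matrix.fromBlocks_multiply]
    simp [add_comm]
  · rintro (x | x) (y | y) hxy
    · exact absurd rfl hxy
    · have := hθ x y fun e => hxy (by simp [e])
      simp only [cpar, Sum.elim_inl, Sum.elim_inr]
      exact Bool.eq_not_iff.2 this
    · exact absurd rfl hxy
    · exact absurd rfl hxy

/-- Scaling the classes. -/
theorem tor_cls_scale {h : Matrix ι J F} (hh : CM p pJ d 0 h) {a : J → F} (ha : ∀ j, a j ≠ 0) :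
    tor (cpar p pJ) (cone d 0 (Matrix.of fun x j => h x j * a j)) *
        ∏ j ∈ Finset.univ.filter (fun j => pJ j = true), a j ^ 8 =
      tor (cpar p pJ) (cone d 0 h) *
        ∏ j ∈ Finset.univ.filter (fun j => pJ j = false), a j ^ 8 := by
  have h1 := tor_diag hh.cone (g := Sum.elim (fun _ => 1) fun j => (a j)⁻¹)
    (g' := Sum.elim (fun _ => 1) a) (by
      rintro (x | x)
      · exact one_mul _
      · exact inv_mul_cancel₀ (ha x))
  have e : (Matrix.of fun x y => Sum.elim (fun _ => 1) (fun j => (a j)⁻¹) x *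
      cone d (0 : Matrix J J F) h x y * Sum.elim (fun _ => 1) a y) =
      cone d 0 (Matrix.of fun x j => h x j * a j) := by
    ext (x | x) (y | y) <;> simp [cone]
  have e2 : ∀ b : Bool, ∏ x ∈ Finset.univ.filter (fun x => cpar p pJ x = b),
      Sum.elim (fun _ => 1) (fun j => (a j)⁻¹) x ^ 8 =
      (∏ j ∈ Finset.univ.filter (fun j => pJ j = !b), a j ^ 8)⁻¹ := by
    intro b
    rw [← Finset.prod_inv_distrib, Finset.prod_filter, Finset.prod_filter, Fintype.prod_sum_type]
    simp [cpar]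
  rw [e, e2, e2] at h1
  rwa [← div_eq_mul_inv, ← div_eq_mul_inv, div_eq_div_iff
    (Finset.prod_ne_zero_iff.2 fun j _ => pow_ne_zero 8 (ha j))
    (Finset.prod_ne_zero_iff.2 fun j _ => pow_ne_zero 8 (ha j))] at h1

/-- A gauge transformation by eighth roots of unity. -/
theorem tor_cls_gauge {h : Matrix ι J F} (hh : CM p pJ d 0 h) {g g' : ι → F}
    (hg : ∀ x, g x * g' x = 1) (h8 : ∀ x, g x ^ 8 = 1) :
    tor (cpar p pJ) (cone (Matrix.of fun x y => g x * d x y * g' y) 0
      (Matrix.of fun x j => g x * h x j)) = tor (cpar p pJ) (cone d 0 h) := by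
  rw [← tor_gauge hh.cone (g := Sum.elim g fun _ => 1) (g' := Sum.elim g' fun _ => 1)
    (by rintro (x | x) <;> simp [hg]) (by rintro (x | x) <;> simp [h8])]
  congr 1
  ext (x | x) (y | y) <;> simp [cone]

end Pool.Agent.Lib.MP_5ceaf9_gt
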