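import Pool.Agent.Lib.MP_5ceaf9_gt.AlgG

/-! Dual classes and the short exact sequence. -/

noncomputable section

namespace Pool.Agent.Lib.MP_5ceaf9_gt

variable {ι κ μ J J' F : Type} [Field F] [Fintype ι] [DecidableEq ι] [Fintype κ]
  [DecidableEq κ] [Fintype μ] [DecidableEq μ] [Fintype J] [DecidableEq J] [Fintype J']
  [DecidableEq J'] {p : ι → Bool} {p' : κ → Bool} {p'' : μ → Bool} {pJ : J → Bool}
  {pJ' : J' → Bool} {d : Matrix ι ι F} {d' : Matrix κ κ F} {d'' : Matrix μ μ F}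

theorem algg2_eq (hd : Dm p d) (e : κ ≃ ι) (g : κ → F) (hg : ∀ x, g x * g x = 1)
    (hp : ∀ x, p' x = p (e x)) (h : ∀ x y, d' x y = g x * d (e x) (e y) * g y) :
    tor p' d' = tor p d := by
  obtain rfl : p' = fun x => p (e x) := funext hp
  obtain rfl : d' = Matrix.of fun x y => g x * d.submatrix e e x y * g y := Matrix.ext h
  rw [tor_gauge ((dm_reindex e).2 hd) hg fun x => by
    rw [show g x ^ 8 = (g x * g x) ^ 4 by ring, hg, one_pow], tor_reindex hd]

theorem algg2_blk {q : ι → Prop} [DecidablePred q] (hd : Dm (fun x : {x // q x} => p x) (blk d q))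
    (f : κ → ι) (hf : Function.Injective f) (hq : ∀ x, q x ↔ ∃ y, f y = x)
    (hp : ∀ x, p' x = p (f x)) (h : ∀ x y, d' x y = d (f x) (f y)) :
    tor (fun x : {x // q x} => p x) (blk d q) = tor p' d' ∧ (Ctr (blk d q) ↔ Ctr d') := by
  let e : κ ≃ {x // q x} := Equiv.ofBijective (fun x => ⟨f x, (hq _).2 ⟨x, rfl⟩⟩)
    ⟨fun x y k => hf (congrArg Subtype.val k), fun x => ((hq _).1 x.2).imp fun y k => Subtype.ext k⟩
  obtain rfl : p' = fun x => p (e x) := funext hp
  obtain rfl : d' = (blk d q).submatrix e e := Matrix.ext h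
  exact ⟨(tor_reindex hd e).symm, (ctr_reindex e).symm⟩

theorem algg2_split {P : κ ⊕ μ → Bool} {M : Matrix (κ ⊕ μ) (κ ⊕ μ) F} (hM : Dm P M)
    (h0 : ∀ x y, M (.inr x) (.inl y) = 0) (h1 : ∀ x, p' x = P (.inl x))
    (h2 : ∀ x, p'' x = P (.inr x)) (h3 : ∀ x y, d' x y = M (.inl x) (.inl y))
    (h4 : ∀ x y, d'' x y = M (.inr x) (.inr y)) (ha : Ctr d') :
    (Ctr M ↔ Ctr d'') ∧ (Ctr M → tor P M = tor p' d' * tor p'' d'') := by
  have hq : Sub M fun x => x.isLeft = true := by
    rintro (x | x) (y | y) k hy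
    · rfl
    · rfl
    · exact absurd (h0 x y) k
    · exact hy
  obtain ⟨a1, a2⟩ := algg2_blk (hM.blk_sub hq) Sum.inl Sum.inl_injective
    (by rintro (x | x) <;> simp) h1 h3
  obtain ⟨c1, c2⟩ := algg2_blk (hM.blk_quot hq) Sum.inr Sum.inr_injective
    (by rintro (x | x) <;> simp) h2 h4
  refine ⟨⟨fun k => c2.1 (ctr_quot hM.1 hq k (a2.2 ha)),
    fun k => ctr_of_blocks hM.1 hq (a2.2 ha) (c2.2 k)⟩, fun k => ?_⟩
  rw [tor_block hM hq (a2.2 ha) (ctr_quot hM.1 hq k (a2.2 ha)), a1, c1]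

theorem algg2_id (pJ : J → Bool) : Dm (cpar pJ pJ) (cone 0 0 (1 : Matrix J J F)) ∧
    Ctr (cone 0 0 (1 : Matrix J J F)) ∧ tor (cpar pJ pJ) (cone 0 0 (1 : Matrix J J F)) = 1 := by
  obtain ⟨a, b, c⟩ := gd_cone_id (l := 2) (Φ := {RingHom.id F}) (p := pJ) (d := (0 : Matrix J J F))
    ⟨mul_zero _, fun x y k => absurd rfl k⟩
  exact ⟨a, b (by omega), c le_rfl _ rfl⟩

/-- Dual classes. Apply `tor_cone_comp` to `z` and the transpose of `h`; the cone of the
transpose of `h` is the transpose of the cone of `h` with the parity flipped. -/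
theorem tor_cls_dual {h z : Matrix ι J F} (hh : CM p pJ d 0 h) (hz : CM p pJ d.transpose 0 z)
    (hp : h.transpose * z = 1) (hc : Ctr (cone d 0 h)) :
    tor (cpar p pJ) (cone d.transpose 0 z) * tor (cpar p pJ) (cone d 0 h) = 1 := by
  have hC := hh.cone
  have hT : Dm (cpar p pJ) (cone d 0 h).transpose :=
    ⟨by rw [← Matrix.transpose_mul, hC.1, Matrix.transpose_zero], fun x y k => (hC.2 y x k).symm⟩
  have cT : Ctr (cone d 0 h).transpose := hc.imp' Matrix.transpose fun s k => by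
    rw [← Matrix.transpose_mul, ← Matrix.transpose_mul, ← Matrix.transpose_add, add_comm, k,
      Matrix.transpose_one]
  have hN : Dm (fun x => !cpar p pJ x) (cone d 0 h).transpose :=
    ⟨hT.1, fun x y k e => hT.2 x y k (Bool.not_inj e)⟩
  have hg : CM pJ p 0 d.transpose h.transpose := ⟨hh.dm, hz.dm', fun x y k => (hh.even y x k).symm,
    by rw [← Matrix.transpose_mul, hh.comm]; simp⟩
  have e1 : tor (cpar pJ p) (cone 0 d.transpose h.transpose) = tor (cpar p pJ) (cone d 0 h) := by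
    rw [algg2_eq hN.neg (Equiv.sumComm J ι) (Sum.elim (fun _ => -1) fun _ => 1)
      (by rintro (x | x) <;> simp) (by rintro (x | x) <;> simp [cpar])
      (by rintro (x | x) (y | y) <;> simp [cone]), tor_neg hN]
    have a := tor_not hT cT
    have b := tor_transpose hC hc
    linear_combination (-tor (fun x => !cpar p pJ x) (cone d 0 h).transpose) * b +
      tor (cpar p pJ) (cone d 0 h) * a
  have c1 : Ctr (cone 0 d.transpose h.transpose) := by
    rw [← tor_ne_zero_iff hg.cone, e1, tor_ne_zero_iff hC]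
    exact hc
  obtain ⟨i1, i2, i3⟩ := algg2_id (F := F) pJ
  have c2 := (gd_cone_right (l := 1) (Φ := {RingHom.id F}) hg hz
    (by rw [hp]; exact ⟨i1, fun _ => i2, fun k => by omega⟩)
    ⟨hg.cone, fun _ => c1, fun k => by omega⟩).2.1 le_rfl
  rw [mul_comm, ← e1, ← tor_cone_comp hg hz c1 c2, hp, i3]

/-- The short exact sequence. On `(ι ⊕ J) ⊕ (J' ⊕ J')` let the first `J'` map by `ξ` and by
`-1` to the second `J'`, and the second by `d ξ`. One filtration has `cone h` and a trivial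
quotient, the other has the two cones on the right. -/
theorem tor_cls_ses {q : ι → Prop} [DecidablePred q] (hq : Sub d q) {h : Matrix ι J F}
    {ξ : Matrix ι J' F} (hh : CM p pJ d 0 h) (hξ : EvenM p pJ' ξ)
    (hz : ∀ x j, ¬ q x → (d * ξ) x j = 0) (hc : Ctr (cone d 0 h))
    (hθ : Ctr (cone (blk d q) 0 (Matrix.of fun (x : {x // q x}) j => (d * ξ) x j))) :
    tor (cpar p pJ) (cone d 0 h) =
      tor (cpar (fun x : {x // q x} => p x) (fun j => !pJ' j))
          (cone (blk d q) 0 (Matrix.of fun (x : {x // q x}) j => (d * ξ) x j)) *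
        tor (cpar (fun x : {x // ¬ q x} => p x) (Sum.elim pJ pJ'))
          (cone (blk d (fun x => ¬ q x)) 0
            (Matrix.of fun (x : {x // ¬ q x}) j => Sum.elim (h x) (ξ x) j)) := by
  have hC := hh.cone
  obtain ⟨i1, i2, i3⟩ := algg2_id (F := F) pJ'
  let D : Matrix ((ι ⊕ J) ⊕ (J' ⊕ J')) ((ι ⊕ J) ⊕ (J' ⊕ J')) F :=
    Matrix.fromBlocks (cone d 0 h) (Matrix.fromBlocks (d * ξ) ξ 0 0) 0 (-cone 0 0 1)
  let P : (ι ⊕ J) ⊕ (J' ⊕ J') → Bool := Sum.elim (cpar p pJ) (cpar pJ' pJ')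
  have hD : Dm P D := by
    constructor
    · simp only [D, Matrix.fromBlocks_multiply, hC.1, i1.neg.1]
      simp [cone, Matrix.fromBlocks_multiply, Matrix.fromBlocks_neg, Matrix.fromBlocks_add,
        ← Matrix.mul_assoc, hh.dm'.1]
    · rintro (x | x) (y | y) k
      · exact hC.2 x y k
      · rcases x with x | x
        · rcases y with y | y
          · obtain ⟨u, -, hu⟩ := Finset.exists_ne_zero_of_sum_ne_zero
              (show ∑ u, d x u * ξ u y ≠ 0 from k)
            have a := hh.dm'.2 x u (left_ne_zero_of_mul hu)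
            rw [hξ u y (right_ne_zero_of_mul hu)] at a
            exact a
          · have a := hξ x y k
            simp [P, cpar, a]
        · rcases y with y | y <;> exact absurd rfl k
      · exact absurd rfl k
      · exact i1.neg.2 x y k
  obtain ⟨a1, a2⟩ := algg2_split hD (fun _ _ => rfl) (fun _ => rfl) (fun _ => rfl) (fun _ _ => rfl)
    (fun _ _ => rfl) (d'' := -cone 0 0 1) (p'' := cpar pJ' pJ') (p' := cpar p pJ)
    (d' := cone d 0 h) hc
  have cD := a1.2 i2.neg
  let e : ({x // q x} ⊕ J') ⊕ ({x // ¬ q x} ⊕ (J ⊕ J')) ≃ (ι ⊕ J) ⊕ (J' ⊕ J') :=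
    Equiv.ofBijective (Sum.elim (Sum.elim (fun x => .inl (.inl x.1)) fun j => .inr (.inl j))
      (Sum.elim (fun x => .inl (.inl x.1))
        (Sum.elim (fun j => .inl (.inr j)) fun j => .inr (.inr j)))) ⟨by
      rintro ((⟨x, hx⟩ | x) | (⟨x, hx⟩ | x | x)) ((⟨y, hy⟩ | y) | (⟨y, hy⟩ | y | y)) k <;>
        simp only [Sum.elim_inl, Sum.elim_inr, Sum.inl.injEq, Sum.inr.injEq, reduceCtorEq] at k <;>
        subst k <;> first | rfl | contradiction, by
      rintro ((x | x) | (x | x))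
      · by_cases k : q x
        · exact ⟨.inl (.inl ⟨x, k⟩), rfl⟩
        · exact ⟨.inr (.inl ⟨x, k⟩), rfl⟩
      · exact ⟨.inr (.inr (.inl x)), rfl⟩
      · exact ⟨.inl (.inr x), rfl⟩
      · exact ⟨.inr (.inr (.inr x)), rfl⟩⟩
  have b := (algg2_split ((dm_reindex e).2 hD)
    (p' := cpar (fun x : {x // q x} => p x) fun j => !pJ' j)
    (p'' := cpar (fun x : {x // ¬ q x} => p x) (Sum.elim pJ pJ'))
    (d'' := cone (blk d fun x => ¬ q x) 0
      (Matrix.of fun (x : {x // ¬ q x}) j => Sum.elim (h x) (ξ x) j)) (by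
      rintro (x | x | x) (y | y)
      · exact by_contra fun k => x.2 (hq x y k y.2)
      · exact hz x y x.2
      · rfl
      · rfl
      · rfl
      · exact neg_zero) (by
      rintro (x | x)
      · rfl
      · exact Bool.not_not _) (by rintro (x | x | x) <;> rfl) (by
      rintro (x | x) (y | y) <;> rfl) (by
      rintro (x | x | x) (y | y | y) <;>
        first | rfl | exact neg_zero | exact congrArg Neg.neg neg_zero.symm)
    hθ).2 ((ctr_reindex e).2 cD)
  rw [← b, tor_reindex hD, a2 cD, tor_neg i1, i3, mul_one]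

end Pool.Agent.Lib.MP_5ceaf9_gt
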