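import Pool.Agent.Lib.MP_5ceaf9_gt.AlgG2

/-! Solving equations in contractible cones, with control of degrees. -/

noncomputable section

namespace Pool.Agent.Lib.MP_5ceaf9_gt

variable {ι κ J J' Λ : Type} [Ring Λ] [Fintype ι] [DecidableEq ι] [Fintype κ]
  [DecidableEq κ] [Fintype J] [DecidableEq J] [Fintype J'] [DecidableEq J']
  {g : ι → ℤ} {g' : κ → ℤ} {gJ : J → ℤ} {gJ' : J' → ℤ} {d : Matrix ι ι Λ} {d' : Matrix κ κ Λ}

/-- A contraction of a graded differential can be chosen of degree minus one. -/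
theorem Ctr.graded (h : Ctr d) (hd : Gr g g 1 d) :
    ∃ s : Matrix ι ι Λ, Gr g g (-1) s ∧ d * s + s * d = 1 := by
  obtain ⟨s, hs⟩ := h
  refine ⟨Matrix.of fun x y => if g x = g y + -1 then s x y else 0, fun x y hxy => ?_, ?_⟩
  · by_contra h0
    exact hxy (if_neg h0)
  · ext x y
    by_cases hxy : g x = g y
    · rw [← hs]
      simp only [Matrix.add_apply, Matrix.mul_apply, Matrix.of_apply]
      congr 1
      · refine Finset.sum_congr rfl fun z _ => ?_
        by_cases h0 : d x z = 0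
        · rw [h0, zero_mul, zero_mul]
        · have := hd x z h0
          rw [if_pos (by omega)]
      · refine Finset.sum_congr rfl fun z _ => ?_
        by_cases h0 : d z y = 0
        · rw [h0, mul_zero, mul_zero]
        · have := hd z y h0
          rw [if_pos (by omega)]
    · rw [Matrix.one_apply_ne fun e => hxy (congrArg g e)]
      simp only [Matrix.add_apply, Matrix.mul_apply, Matrix.of_apply]
      rw [Finset.sum_eq_zero, Finset.sum_eq_zero, add_zero]
      · intro z _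
        by_cases h0 : d z y = 0
        · rw [h0, mul_zero]
        · have := hd z y h0
          rw [if_neg (by omega), zero_mul]
      · intro z _
        by_cases h0 : d x z = 0
        · rw [h0, zero_mul]
        · have := hd x z h0
          rw [if_neg (by omega), mul_zero]

omit [Fintype ι] [DecidableEq ι] [DecidableEq κ] in
theorem Gr.mul {μ : Type} {g'' : μ → ℤ} {k k' : ℤ} {a : Matrix μ κ Λ} {b : Matrix κ ι Λ}
    (ha : Gr g'' g' k a) (hb : Gr g' g k' b) : Gr g'' g (k + k') (a * b) := by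
  intro x y hxy
  rw [Matrix.mul_apply] at hxy
  obtain ⟨z, _, hz⟩ := Finset.exists_ne_zero_of_sum_ne_zero hxy
  have h1 := ha x z (left_ne_zero_of_mul hz)
  have h2 := hb z y (right_ne_zero_of_mul hz)
  omega

/-- The blocks of a graded contraction of a cone. -/
theorem algh_blocks {f : Matrix κ ι Λ} (hc : Ctr (cone d' d f)) (hd' : Gr g' g' 1 d')
    (hd : Gr g g 1 d) (hf : Gr g' g 0 f) :
    ∃ (A : Matrix κ κ Λ) (C : Matrix ι κ Λ) (E : Matrix ι ι Λ), Gr g' g' (-1) A ∧ Gr g g' 0 C ∧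
      Gr g g (-1) E ∧ d' * A + f * C + A * d' = 1 ∧ d * C = C * d' ∧
        C * f - d * E - E * d = 1 := by
  have hG : Gr (Sum.elim g' fun x => g x - 1) (Sum.elim g' fun x => g x - 1) 1 (cone d' d f) := by
    rintro (x | x) (y | y) hxy
    · exact hd' x y hxy
    · have := hf x y hxy
      simp only [Sum.elim_inl, Sum.elim_inr]
      omega
    · exact absurd rfl hxy
    · have := hd x y (neg_ne_zero.1 hxy)
      simp only [Sum.elim_inr]
      omega
  obtain ⟨s, gs, hs⟩ := hc.graded hG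
  rw [← Matrix.fromBlocks_toBlocks s, cone, Matrix.fromBlocks_multiply,
    Matrix.fromBlocks_multiply, Matrix.fromBlocks_add, ← Matrix.fromBlocks_one,
    Matrix.fromBlocks_inj] at hs
  obtain ⟨h11, -, h21, h22⟩ := hs
  refine ⟨s.toBlocks₁₁, s.toBlocks₂₁, s.toBlocks₂₂, fun x y hxy => gs (.inl x) (.inl y) hxy,
    fun x y hxy => ?_, fun x y hxy => ?_, ?_, ?_, ?_⟩
  · have := gs (.inr x) (.inl y) hxy
    simp only [Sum.elim_inl, Sum.elim_inr] at this
    omega
  · have := gs (.inr x) (.inr y) hxy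
    simp only [Sum.elim_inr] at this
    omega
  · rw [← h11, Matrix.mul_zero, add_zero]
  · rw [Matrix.zero_mul, Matrix.mul_zero, zero_add, add_zero, Matrix.neg_mul,
      neg_add_eq_zero] at h21
    exact h21
  · rw [← h22, Matrix.zero_mul, zero_add, Matrix.neg_mul, Matrix.mul_neg]
    abel

omit [Fintype J] [DecidableEq J] in
/-- Cocycles of the target lift up to coboundaries. -/
theorem lift_cls {f : Matrix κ ι Λ} (hc : Ctr (cone d' d f)) (hd' : Gr g' g' 1 d')
    (hd : Gr g g 1 d) (hf : Gr g' g 0 f) {z : Matrix κ J Λ} (hz : d' * z = 0)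
    (gz : Gr g' gJ 0 z) :
    ∃ (x : Matrix ι J Λ) (y : Matrix κ J Λ), Gr g gJ 0 x ∧ Gr g' gJ (-1) y ∧ d * x = 0 ∧
      z = f * x + d' * y := by
  obtain ⟨A, C, E, gA, gC, -, h1, h2, -⟩ := algh_blocks hc hd' hd hf
  refine ⟨C * z, A * z, by simpa using gC.mul gz, by simpa using gA.mul gz, ?_, ?_⟩
  · rw [← Matrix.mul_assoc, h2, Matrix.mul_assoc, hz, Matrix.mul_zero]
  · have h3 := congrArg (· * z) h1
    simp only [Matrix.add_mul, Matrix.mul_assoc, hz, Matrix.mul_zero, add_zero,
      Matrix.one_mul] at h3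
    rw [add_comm]
    exact h3.symm

omit [Fintype J] [DecidableEq J] in
/-- Cycles (row vectors) of the source come from the target up to boundaries. -/
theorem lift_cyc {f : Matrix κ ι Λ} (hc : Ctr (cone d' d f)) (hd' : Gr g' g' 1 d')
    (hd : Gr g g 1 d) (hf : Gr g' g 0 f) {z : Matrix J ι Λ} (hz : z * d = 0)
    (gz : Gr gJ g 0 z) :
    ∃ (x : Matrix J κ Λ) (y : Matrix J ι Λ), Gr gJ g' 0 x ∧ Gr gJ g (-1) y ∧ x * d' = 0 ∧
      z = x * f + y * d := by
  obtain ⟨A, C, E, -, gC, gE, -, h2, h3⟩ := algh_blocks hc hd' hd hf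
  refine ⟨z * C, -(z * E), by simpa using gz.mul gC, fun x y hxy => ?_, ?_, ?_⟩
  · simpa using gz.mul gE x y (neg_ne_zero.1 hxy)
  · rw [Matrix.mul_assoc, ← h2, ← Matrix.mul_assoc, hz, Matrix.zero_mul]
  · have h4 := congrArg (z * ·) h3
    simp only [Matrix.mul_sub, ← Matrix.mul_assoc, hz, Matrix.zero_mul, sub_zero,
      Matrix.mul_one] at h4
    rw [Matrix.neg_mul, ← sub_eq_add_neg]
    exact h4.symm

/-- Dual classes exist. -/
theorem exists_dual {F : Type} [Field F] {d : Matrix ι ι F} {h : Matrix ι J F}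
    (hc : Ctr (cone d 0 h)) (hd : Gr g g 1 d) (hh : Gr g gJ 0 h) :
    ∃ z : Matrix ι J F, Gr g gJ 0 z ∧ d.transpose * z = 0 ∧ h.transpose * z = 1 := by
  obtain ⟨A, C, E, -, gC, -, -, h2, h3⟩ :=
    algh_blocks (g := gJ) hc hd (fun x y hxy => absurd rfl hxy) hh
  refine ⟨C.transpose, fun x y hxy => ?_, ?_, ?_⟩
  · have := gC y x hxy
    omega
  · rw [← Matrix.transpose_mul, ← h2, Matrix.zero_mul, Matrix.transpose_zero]
  · rw [Matrix.zero_mul, Matrix.mul_zero, sub_zero, sub_zero] at h3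
    rw [← Matrix.transpose_mul, h3, Matrix.transpose_one]

omit [Fintype J'] [DecidableEq J'] in
/-- A cocycle whose degree is not the degree of a class is a coboundary. -/
theorem cob_of_degree {h : Matrix ι J Λ} (hc : Ctr (cone d 0 h)) (hd : Gr g g 1 d)
    (hh : Gr g gJ 0 h) {z : Matrix ι J' Λ} (hz : d * z = 0) (gz : Gr g gJ' 0 z)
    (hne : ∀ j j', gJ j ≠ gJ' j') : ∃ y : Matrix ι J' Λ, Gr g gJ' (-1) y ∧ z = d * y := by
  obtain ⟨x, y, gx, gy, -, h2⟩ :=
    lift_cls (g := gJ) hc hd (fun x y hxy => absurd rfl hxy) hh hz gz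
  have h0 : x = 0 := by
    ext j j'
    by_contra h1
    exact hne j j' (by simpa using gx j j' h1)
  refine ⟨y, gy, ?_⟩
  rw [h2, h0, Matrix.mul_zero, zero_add]

end Pool.Agent.Lib.MP_5ceaf9_gt
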