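import Pool.Agent.Lib.MP_5ceaf9_gt.CCell

noncomputable section

namespace Pool.Agent.Lib.MP_5ceaf9_gt.OC

open Set

variable {n : ℕ} {Γ A : Type} [Group Γ] [AddCommGroup A] [DistribMulAction Γ A]
  (c : Lat n → Lat n → Γ)

theorem dE_fac (ψ : Lat n → A) (e : Lat n) :
    dE c ψ e = ∑ i ∈ Finset.univ.filter (fun i => e i % 2 = 0),
      sgE e i • (c e (fac e i 1) • ψ (fac e i 1) - c e (fac e i (-1)) • ψ (fac e i (-1))) := by
  simp only [dE, fac, Pi.single_neg, sub_eq_add_neg]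

theorem dE_congr {ψ ψ' : Lat n → A} {e : Lat n}
    (he : ∀ i s, e i % 2 = 0 → s = 1 ∨ s = -1 → ψ (fac e i s) = ψ' (fac e i s)) :
    dE c ψ e = dE c ψ' e := by
  rw [dE_fac, dE_fac]
  refine Finset.sum_congr rfl fun i hi => ?_
  rw [he i 1 (Finset.mem_filter.1 hi).2 (Or.inl rfl), he i (-1) (Finset.mem_filter.1 hi).2 (Or.inr rfl)]

theorem dE_zero (e : Lat n) : dE c (fun _ => (0 : A)) e = 0 := by
  simp [dE]

theorem dE_neg (ψ : Lat n → A) (e : Lat n) : dE c (fun a => -ψ a) e = -dE c ψ e := by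
  rw [dE, dE, ← Finset.sum_neg_distrib]
  refine Finset.sum_congr rfl fun i _ => ?_
  rw [smul_neg, smul_neg, ← smul_neg (sgE e i)]
  congr 1
  abel

theorem calg_even {e : Lat n} {i : Fin n} {s : ℤ} (hi : e i % 2 = 0) (hs : s = 1 ∨ s = -1)
    (l : Fin n) : fac e i s l % 2 = 0 ↔ l ≠ i ∧ e l % 2 = 0 := by
  by_cases h : l = i
  · subst h
    simp only [fac, Pi.add_apply, Pi.single_eq_same]
    omega
  · simp [fac, h]

theorem calg_lt {e : Lat n} {i j : Fin n} {s : ℤ} (hi : e i % 2 = 0) (hs : s = 1 ∨ s = -1)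
    (h : i < j) : sgE (fac e i s) j = -sgE e j := by
  have : Finset.univ.filter (fun l => l < j ∧ e l % 2 = 0) =
      insert i (Finset.univ.filter fun l => l < j ∧ fac e i s l % 2 = 0) := by
    ext l
    by_cases k : l = i <;> simp [-EuclideanDomain.mod_eq_zero, calg_even hi hs, k, h, hi]
  rw [sgE, sgE, this, Finset.card_insert_of_notMem (by simp [calg_even hi hs]), pow_succ]
  ring

theorem calg_gt {e : Lat n} {i j : Fin n} {s : ℤ} (hi : e i % 2 = 0) (hs : s = 1 ∨ s = -1)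
    (h : j < i) : sgE (fac e i s) j = sgE e j := by
  rw [sgE, sgE]
  congr 2
  refine Finset.filter_congr fun l _ => and_congr_right fun k => ?_
  simp [calg_even hi hs, (k.trans h).ne]

/-- Expand; the term of `(i, s, i', s')` is
`(sgE e i * sgE (fac e i s) i' * s * s') • c e d • ψ d` with `d = fac (fac e i s) i' s'`, `i' ≠ i`
both even directions of `e`, and `sgE e i * sgE (fac e i s) i'` is antisymmetric in `(i, i')`.
Split the double sum into `i < i'` and `i' < i`, or use `Finset.sum_involution` on the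
off diagonal. -/
theorem dE_dE (ψ : Lat n → A) {e : Lat n}
    (hc : ∀ b d, le1 e b → le1 b d → c e b * c b d = c e d) : dE c (dE c ψ) e = 0 := by
  let T := Finset.univ.filter (fun i => e i % 2 = 0)
  let w := fun i s j s' => c e (fac (fac e i s) j s') • ψ (fac (fac e i s) j s')
  let F := fun i j => (sgE e i * sgE (fac e i 1) j) •
    (w i 1 j 1 - w i 1 j (-1) - (w i (-1) j 1 - w i (-1) j (-1)))
  have hw : ∀ i s j s', w i s j s' = w j s' i s := fun i s j s' => by
    simp only [w, fac, add_right_comm e (Pi.single i s)]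
  have h1 : ∀ i s, e i % 2 = 0 → s = 1 ∨ s = -1 → c e (fac e i s) • dE c ψ (fac e i s) =
      ∑ j ∈ T.erase i, sgE (fac e i 1) j • (w i s j 1 - w i s j (-1)) := fun i s hi hs => by
    rw [dE_fac, Finset.smul_sum]
    refine Finset.sum_congr (by ext l; simp [T, calg_even hi hs]) fun j hj => ?_
    obtain ⟨a, b⟩ := Finset.mem_erase.1 hj
    have hj' := (calg_even hi hs j).2 ⟨a, (Finset.mem_filter.1 b).2⟩
    rw [smul_comm, smul_sub, ← mul_smul, ← mul_smul,
      hc _ _ (le1_fac hi hs) (le1_fac hj' (Or.inl rfl)),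
      hc _ _ (le1_fac hi hs) (le1_fac hj' (Or.inr rfl))]
    congr 1
    rcases a.lt_or_gt with k | k
    · rw [calg_gt hi hs k, calg_gt hi (Or.inl rfl) k]
    · rw [calg_lt hi hs k, calg_lt hi (Or.inl rfl) k]
  have h2 : dE c (dE c ψ) e = ∑ p ∈ T.offDiag, F p.1 p.2 := by
    rw [dE_fac, Finset.sum_finset_product' T.offDiag T (fun i => T.erase i) (fun p => by
      rw [Finset.mem_offDiag, Finset.mem_erase, ne_comm]; tauto)]
    refine Finset.sum_congr rfl fun i hi => ?_
    have hi' := (Finset.mem_filter.1 hi).2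
    rw [h1 i 1 hi' (Or.inl rfl), h1 i (-1) hi' (Or.inr rfl), ← Finset.sum_sub_distrib,
      Finset.smul_sum]
    exact Finset.sum_congr rfl fun j _ => by rw [← smul_sub, ← mul_smul]
  have h3 : ∀ i ∈ T, ∀ j ∈ T, i < j → F i j + F j i = 0 := fun i hi j hj k => by
    simp only [F]
    rw [calg_lt (Finset.mem_filter.1 hi).2 (Or.inl rfl) k,
      calg_gt (Finset.mem_filter.1 hj).2 (Or.inl rfl) k, hw j 1 i 1, hw j 1 i (-1), hw j (-1) i 1,
      hw j (-1) i (-1), mul_neg, neg_smul, mul_comm, neg_add_eq_zero]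
    congr 1
    abel
  rw [h2]
  refine Finset.sum_involution (fun p _ => p.swap) (fun p hp => ?_) (fun p hp _ k => ?_)
    (fun p hp => ?_) fun p _ => Prod.swap_swap p
  · obtain ⟨a, b, k⟩ := Finset.mem_offDiag.1 hp
    rcases k.lt_or_gt with k | k
    · exact h3 _ a _ b k
    · exact (add_comm _ _).trans (h3 _ b _ a k)
  · exact (Finset.mem_offDiag.1 hp).2.2 (congrArg Prod.snd k)
  · obtain ⟨a, b, k⟩ := Finset.mem_offDiag.1 hp
    exact Finset.mem_offDiag.2 ⟨b, a, k.symm⟩

theorem h3_of_h2 {η : Fin n → Bool} {Q P : Finset (Lat n)} (h : H2 η Q P) : H3 η Q P := by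
  intro Γ A _ _ _ c h1 h2 k
  exact h Γ A c h1 h2 (k + 2)

end Pool.Agent.Lib.MP_5ceaf9_gt.OC
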