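import Pool.Agent.Lib.MP_5ceaf9_gt.CDefs

noncomputable section

namespace Pool.Agent.Lib.MP_5ceaf9_gt.OC

open Set

variable {k : ℕ} {Z : Type}

theorem rf_rf (i : Fin k) (x : E k) : rf i (rf i x) = x := by
  funext j
  by_cases h : j = i
  · subst h
    simp [rf]
  · simp [rf, h]

theorem continuous_rf (i : Fin k) : Continuous (rf i : E k → E k) := by
  exact continuous_id.update i (continuous_apply i).neg

theorem norm_rf (i : Fin k) (x : E k) : ‖rf i x‖ = ‖x‖ := by
  rw [Pi.norm_def, Pi.norm_def]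
  congr 2
  funext j
  by_cases h : j = i
  · subst h
    simp [rf]
  · simp [rf, h]

theorem rf_smul (i : Fin k) (a : ℝ) (x : E k) : rf i (a • x) = a • rf i x := by
  funext j
  by_cases h : j = i
  · subst h
    simp [rf]
  · simp [rf, h]

theorem rf_seg (i : Fin k) (x y : E k) (t : ℝ) :
    rf i (x + t • (y - x)) = rf i x + t • (rf i y - rf i x) := by
  funext j
  by_cases h : j = i
  · subst h
    simp only [rf, Function.update_self, Pi.add_apply, Pi.smul_apply, Pi.sub_apply, smul_eq_mul]
    ring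
  · simp [rf, h]

theorem continuous_fl (θ : Fin k → Bool) : Continuous (fl θ : E k → E k) := by
  refine continuous_pi fun i => ?_
  by_cases h : θ i
  · simp only [fl, h, if_true]
    exact (continuous_apply i).neg
  · simpa [fl, h] using continuous_apply i

theorem norm_fl (θ : Fin k → Bool) (x : E k) : ‖fl θ x‖ = ‖x‖ := by
  rw [Pi.norm_def, Pi.norm_def]
  congr 2
  funext j
  by_cases h : θ j <;> simp [fl, h]

theorem fl_seg (θ : Fin k → Bool) (x y : E k) (t : ℝ) :
    fl θ (x + t • (y - x)) = fl θ x + t • (fl θ y - fl θ x) := by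
  funext j
  by_cases h : θ j
  · simp only [fl, h, if_true, Pi.add_apply, Pi.smul_apply, Pi.sub_apply, smul_eq_mul]
    ring
  · simp [fl, h]

/-- Induction on the set `s` of flipped coordinates (`θ i = decide (i ∈ s)`):
`fl θ' = fl θ ∘ rf i` when `i` is added. -/
theorem fl_sign {X A : Type} [AddCommGroup A] (Φ : (E k → X) → A) (p : (E k → X) → Prop)
    (hp : ∀ V i, p V → p (V ∘ rf i)) (hΦ : ∀ V i, p V → Φ (V ∘ rf i) = -Φ V)
    (θ : Fin k → Bool) (V : E k → X) (hV : p V) : Φ (V ∘ fl θ) = sg θ • Φ V := by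
  have key : ∀ s : Finset (Fin k), p (V ∘ fl fun i => decide (i ∈ s)) ∧
      Φ (V ∘ fl fun i => decide (i ∈ s)) = (-1 : ℤ) ^ s.card • Φ V := by
    intro s
    induction s using Finset.induction_on with
    | empty =>
      have e : (V ∘ fl fun i => decide (i ∈ (∅ : Finset (Fin k)))) = V := by
        funext x
        refine congrArg V (funext fun j => ?_)
        simp [fl]
      rw [e]
      exact ⟨hV, by simp⟩
    | insert i s hi ih =>
      have e : (V ∘ fl fun j => decide (j ∈ insert i s)) =
          (V ∘ fl fun j => decide (j ∈ s)) ∘ rf i := by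
        funext x
        refine congrArg V (funext fun j => ?_)
        by_cases h : j = i
        · subst h
          simp [fl, rf, hi]
        · simp [fl, rf, h]
      rw [e, hΦ _ i ih.1, ih.2, Finset.card_insert_of_notMem hi, pow_succ, mul_neg_one, neg_smul]
      exact ⟨hp _ i ih.1, rfl⟩
  have := (key (Finset.univ.filter fun i => θ i)).2
  simpa [sg] using this

theorem continuous_fold : Continuous (fold : E k → E k) := by
  refine Continuous.smul (Continuous.div (f := fun x : E k => max 0 (min 1 (2 - ‖x‖)))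
    (g := fun x : E k => max 1 ‖x‖) (by fun_prop) (by fun_prop) fun x => ?_) continuous_id
  exact (lt_of_lt_of_le one_pos (le_max_left _ _)).ne'

theorem norm_fold_le (x : E k) : ‖fold x‖ ≤ 1 := by
  have h0 : (0 : ℝ) < max 1 ‖x‖ := lt_of_lt_of_le one_pos (le_max_left _ _)
  have h1 : max 0 (min 1 (2 - ‖x‖)) ≤ (1 : ℝ) := max_le zero_le_one (min_le_left _ _)
  rw [fold, norm_smul, Real.norm_of_nonneg (div_nonneg (le_max_left _ _) h0.le), div_mul_eq_mul_div,
    div_le_one h0]
  exact (mul_le_of_le_one_left (norm_nonneg x) h1).trans (le_max_right _ _)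

theorem fold_of_le {x : E k} (hx : ‖x‖ ≤ 1) : fold x = x := by
  rw [fold, min_eq_left (by linarith), max_eq_right zero_le_one, max_eq_left hx, div_one, one_smul]

theorem fold_of_ge {x : E k} (hx : 2 ≤ ‖x‖) : fold x = 0 := by
  rw [fold, max_eq_left (min_le_of_right_le (by linarith)), zero_div, zero_smul]

theorem fold_rf (i : Fin k) (x : E k) : fold (rf i x) = rf i (fold x) := by
  rw [fold, fold, norm_rf, rf_smul]

variable [TopologicalSpace Z]

theorem EvC.mono {V : E k → Z} {R R' : ℝ} {z : Z} (hV : EvC V R z) (h : R ≤ R') : EvC V R' z := by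
  exact ⟨hV.1, fun x hx => hV.2 x (h.trans hx)⟩

theorem EvC.rf {V : E k → Z} {R : ℝ} {z : Z} (hV : EvC V R z) (i : Fin k) :
    EvC (V ∘ rf i) R z := by
  exact ⟨hV.1.comp (continuous_rf i), fun x hx => hV.2 _ (by rwa [norm_rf])⟩

theorem EvC.lo {V : E (k + 1) → Z} {R c : ℝ} {z : Z} (hV : EvC V R z)
    (h : ∀ x, x 0 = c → V x = z) : EvC (lo c z V) R z := by
  refine ⟨hV.1.if_le continuous_const (continuous_apply 0) continuous_const h, fun x hx => ?_⟩
  simp [OC.lo, hV.2 x hx]

theorem EvC.hi {V : E (k + 1) → Z} {R c : ℝ} {z : Z} (hV : EvC V R z)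
    (h : ∀ x, x 0 = c → V x = z) : EvC (hi c z V) R z := by
  refine ⟨continuous_const.if_le hV.1 (continuous_apply 0) continuous_const
    fun x hx => (h x hx).symm, fun x hx => ?_⟩
  simp [OC.hi, hV.2 x hx]

/-- Gluing over two closed half regions `φ ≤ c`, `c ≤ φ` (use `ContinuousOn.if` or
`ContinuousOn.union_of_isClosed`). -/
theorem contOn_if_le {X : Type} [TopologicalSpace X] {S : Set X} {φ : X → ℝ} {c : ℝ}
    {u v : X → Z} (hφ : Continuous φ) (hu : ContinuousOn u (S ∩ {x | φ x ≤ c}))
    (hv : ContinuousOn v (S ∩ {x | c ≤ φ x})) (he : ∀ x ∈ S, φ x = c → u x = v x) :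
    ContinuousOn (fun x => if φ x ≤ c then u x else v x) S := by
  refine ContinuousOn.if (fun x hx => he x hx.1 (frontier_le_subset_eq hφ continuous_const hx.2))
    ?_ (hv.mono (inter_subset_inter_right _ ?_))
  · rwa [(isClosed_le hφ continuous_const).closure_eq]
  · exact closure_minimal (fun x hx => le_of_not_ge hx) (isClosed_le continuous_const hφ)

theorem Fill.evc {u v : E k → Z} (h : Fill u v) : EvC (glue u v) 2 (u 0) := by
  refine ⟨continuousOn_univ.mp (contOn_if_le (u := v) (v := fun x => u (fold x)) continuous_norm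
    (h.cv.mono fun x hx => mem_closedBall_zero_iff.mpr hx.2)
    (h.cu.comp continuous_fold.continuousOn fun x _ => mem_closedBall_zero_iff.mpr (norm_fold_le x))
    fun x _ hx => ?_), fun x hx => ?_⟩
  · rw [fold_of_le hx.le, h.eq x hx]
  · rw [glue, if_neg (by linarith), fold_of_ge hx]

theorem Fill.rf {u v : E k → Z} (h : Fill u v) (i : Fin k) : Fill (u ∘ rf i) (v ∘ rf i) := by
  have hm : MapsTo (OC.rf i) (Metric.closedBall (0 : E k) 1) (Metric.closedBall 0 1) :=
    fun x hx => by rwa [mem_closedBall_zero_iff, norm_rf, ← mem_closedBall_zero_iff]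
  exact ⟨h.cu.comp (continuous_rf i).continuousOn hm, h.cv.comp (continuous_rf i).continuousOn hm,
    fun x hx => h.eq _ (by rwa [norm_rf])⟩

theorem glue_congr {u v u' v' : E k → Z} (hu : ∀ x, ‖x‖ ≤ 1 → u x = u' x)
    (hv : ∀ x, ‖x‖ ≤ 1 → v x = v' x) : glue u v = glue u' v' := by
  funext x
  by_cases h : ‖x‖ ≤ 1
  · simp [glue, h, hv x h]
  · simp [glue, h, hu _ (norm_fold_le x)]

theorem glue_rf (u v : E k → Z) (i : Fin k) : glue (u ∘ rf i) (v ∘ rf i) = glue u v ∘ rf i := by
  funext x
  simp only [glue, Function.comp, norm_rf, fold_rf]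

end Pool.Agent.Lib.MP_5ceaf9_gt.OC
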