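import Pool.Agent.Lib.MP_5ceaf9_gt.CBasA

noncomputable section

namespace Pool.Agent.Lib.MP_5ceaf9_gt.OC

open Set

variable {m n : ℕ}

theorem cbasb_norm (i : Fin (m + 1)) (a : ℝ) (x : E m) :
    ‖(Fin.insertNth (α := fun _ => ℝ) i a x : E (m + 1))‖ = max |a| ‖x‖ := by
  apply le_antisymm
  · refine (pi_norm_le_iff_of_nonneg (le_max_of_le_right (norm_nonneg _))).2 fun j => ?_
    refine Fin.succAboveCases i ?_ (fun l => ?_) j
    · simp
    · simpa using Or.inr (norm_le_pi_norm x l)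
  · refine max_le ?_ ((pi_norm_le_iff_of_nonneg (norm_nonneg _)).2 fun l => ?_)
    · simpa using norm_le_pi_norm (Fin.insertNth (α := fun _ => ℝ) i a x : E (m + 1)) i
    · simpa using
        norm_le_pi_norm (Fin.insertNth (α := fun _ => ℝ) i a x : E (m + 1)) (i.succAbove l)

theorem cbasb_rf_cons (i : Fin m) (a : ℝ) (x : E m) :
    rf i.succ (Fin.cons a x : E (m + 1)) = Fin.cons a (rf i x) := by
  rw [rf, rf, Fin.cons_update, Fin.cons_succ]

theorem cbasb_abs {s : ℤ} (hs : s = 1 ∨ s = -1) : |(s : ℝ)| = 1 := by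
  rcases hs with rfl | rfl <;> simp

theorem cbasb_one {y : E n} (h : ‖y‖ ≤ 1) {i : Fin n} (hi : |y i| = 1) : ‖y‖ = 1 :=
  le_antisymm h (hi ▸ norm_le_pi_norm y i)

theorem cbasb_ex {y : E n} (h : ‖y‖ = 1) : ∃ i, |y i| = 1 := by
  by_contra h1
  refine ((pi_norm_lt_iff one_pos).2 fun i => ?_).ne h
  exact lt_of_le_of_ne (h ▸ norm_le_pi_norm y i) fun h2 => h1 ⟨i, h2⟩

theorem norm_cons (a : ℝ) (x : E m) : ‖(Fin.cons a x : E (m + 1))‖ = max |a| ‖x‖ := by
  rw [← cbasb_norm 0, Fin.insertNth_zero']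

theorem continuous_kap : Continuous (kap : E m → E (m + 1)) := by
  have h : Continuous fun x : E m => max 0 (min 1 (4 - ‖x‖)) / max 1 ‖x‖ :=
    Continuous.div (by fun_prop) (by fun_prop) fun x => (one_pos.trans_le (le_max_left _ _)).ne'
  exact Continuous.finCons (A := fun _ => ℝ) (by fun_prop) (h.smul continuous_id)

theorem norm_kap (x : E m) : ‖kap x‖ = 1 := by
  have h0 : (0 : ℝ) < max 1 ‖x‖ := one_pos.trans_le (le_max_left _ _)
  have h1 : |max (-1) (min 1 (2 - ‖x‖))| ≤ 1 :=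
    abs_le.2 ⟨le_max_left _ _, max_le (by norm_num) (min_le_left _ _)⟩
  have h2 : max 0 (min 1 (4 - ‖x‖)) * (‖x‖ / max 1 ‖x‖) ≤ 1 :=
    mul_le_one₀ (max_le zero_le_one (min_le_left _ _)) (div_nonneg (norm_nonneg _) h0.le)
      ((div_le_one h0).2 (le_max_right _ _))
  rw [kap, norm_cons, norm_smul, Real.norm_of_nonneg (div_nonneg (le_max_left _ _) h0.le),
    div_mul_eq_mul_div, mul_div_assoc]
  rcases le_total ‖x‖ 1 with h | h
  · rw [min_eq_left (by linarith : 1 ≤ 2 - ‖x‖), max_eq_right (by norm_num : (-1 : ℝ) ≤ 1), abs_one]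
    exact max_eq_left h2
  rcases le_total ‖x‖ 3 with h' | h'
  · rw [min_eq_left (by linarith : 1 ≤ 4 - ‖x‖), max_eq_right zero_le_one, max_eq_right h,
      div_self (by linarith), one_mul]
    exact max_eq_right h1
  · rw [max_eq_left (min_le_of_right_le (by linarith : 2 - ‖x‖ ≤ -1)), abs_neg, abs_one]
    exact max_eq_left h2

theorem kap_of_le {x : E m} (hx : ‖x‖ ≤ 1) : kap x = Fin.cons 1 x := by
  rw [kap, min_eq_left (by linarith : 1 ≤ 2 - ‖x‖), max_eq_right (by norm_num : (-1 : ℝ) ≤ 1),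
    min_eq_left (by linarith : 1 ≤ 4 - ‖x‖), max_eq_right zero_le_one, max_eq_left hx, div_one,
    one_smul]

theorem kap_of_ge {x : E m} (hx : 4 ≤ ‖x‖) : kap x = south m := by
  rw [kap, south, max_eq_left (min_le_of_right_le (by linarith : 2 - ‖x‖ ≤ -1)),
    max_eq_left (min_le_of_right_le (by linarith : 4 - ‖x‖ ≤ 0)), zero_div, zero_smul]

theorem kap_face {x : E m} (hx : 1 ≤ ‖x‖) (h : kap x 0 = 1) :
    ∃ w : E m, ‖w‖ = 1 ∧ kap x = Fin.cons 1 w := by
  have h1 : ‖x‖ ≤ 1 := by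
    by_contra h1
    rw [kap, Fin.cons_zero] at h
    exact (max_lt (by norm_num) (min_lt_of_right_lt (by linarith [not_le.1 h1]))).ne h
  exact ⟨x, le_antisymm h1 hx, kap_of_le h1⟩

theorem kap_rf (i : Fin m) (x : E m) : kap (rf i x) = rf i.succ (kap x) := by
  rw [kap, kap, norm_rf, cbasb_rf_cons, rf_smul]

theorem norm_south : ‖south m‖ = 1 := by
  rw [south, norm_cons]
  simp

theorem rf_south (i : Fin m) : rf i.succ (south m) = south m := by
  rw [south, cbasb_rf_cons]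
  simp [rf]

theorem isClosed_face (i : Fin n) (s : ℤ) : IsClosed (face i s) := by
  exact (isClosed_le continuous_norm continuous_const).inter
    (isClosed_eq (continuous_apply i) continuous_const)

theorem convex_face (i : Fin n) (s : ℤ) : Convex ℝ (face i s) := by
  intro x hx y hy a b ha hb hab
  refine ⟨mem_closedBall_zero_iff.1 (convex_closedBall (0 : E n) 1 (mem_closedBall_zero_iff.2 hx.1)
    (mem_closedBall_zero_iff.2 hy.1) ha hb hab), ?_⟩
  rw [Pi.add_apply, Pi.smul_apply, Pi.smul_apply, hx.2, hy.2, ← add_smul, hab, one_smul]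

theorem norm_eq_one_iff {y : E n} :
    ‖y‖ = 1 ↔ ∃ (i : Fin n) (s : ℤ), (s = 1 ∨ s = -1) ∧ y ∈ face i s := by
  refine ⟨fun h => ?_, fun ⟨i, s, hs, h⟩ => cbasb_one h.1 (i := i) (h.2 ▸ cbasb_abs hs)⟩
  obtain ⟨i, hi⟩ := cbasb_ex h
  rcases (abs_eq zero_le_one).1 hi with h1 | h1
  · exact ⟨i, 1, Or.inl rfl, h.le, by simpa using h1⟩
  · exact ⟨i, -1, Or.inr rfl, h.le, by simpa using h1⟩

theorem continuous_ins (i : Fin (m + 1)) (s : ℤ) : Continuous (ins i s : E m → E (m + 1)) := by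
  exact Continuous.finInsertNth (A := fun _ => ℝ) i continuous_const continuous_id

theorem ins_same (i : Fin (m + 1)) (s : ℤ) (x : E m) : ins i s x i = s := by
  simp [ins]

theorem ins_succAbove (i : Fin (m + 1)) (s : ℤ) (x : E m) (l : Fin m) :
    ins i s x (i.succAbove l) = x l := by
  simp [ins]

theorem norm_ins (i : Fin (m + 1)) (s : ℤ) (x : E m) : ‖ins i s x‖ = max |(s : ℝ)| ‖x‖ := by
  exact cbasb_norm i s x

theorem ins_mem_face (i : Fin (m + 1)) {s : ℤ} (hs : s = 1 ∨ s = -1) {x : E m} (hx : ‖x‖ ≤ 1) :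
    ins i s x ∈ face i s := by
  refine ⟨?_, ins_same i s x⟩
  rw [norm_ins, cbasb_abs hs]
  exact max_le le_rfl hx

theorem exists_ins {i : Fin (m + 1)} {s : ℤ} {y : E (m + 1)} (hy : y ∈ face i s) :
    ∃ x : E m, ‖x‖ ≤ 1 ∧ ins i s x = y := by
  refine ⟨fun l => y (i.succAbove l), (pi_norm_le_iff_of_nonneg zero_le_one).2 fun l =>
    (norm_le_pi_norm y _).trans hy.1, funext fun j => ?_⟩
  refine Fin.succAboveCases i ?_ (fun l => ?_) j
  · rw [ins_same, hy.2]
  · rw [ins_succAbove]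

theorem ins_seg (i : Fin (m + 1)) (s : ℤ) (x y : E m) (t : ℝ) :
    ins i s (x + t • (y - x)) = ins i s x + t • (ins i s y - ins i s x) := by
  funext j
  refine Fin.succAboveCases i ?_ (fun l => ?_) j
  · simp [ins_same]
  · simp [ins_succAbove]

theorem skel_ins (i : Fin (m + 1)) {s : ℤ} (hs : s = 1 ∨ s = -1) {x : E m} (hx : ‖x‖ ≤ 1) :
    Skel (ins i s x) ↔ ‖x‖ = 1 := by
  refine ⟨fun ⟨_, a, b, hab, ha, hb⟩ => ?_, fun h => ?_⟩
  · rcases Fin.eq_self_or_eq_succAbove i a with rfl | ⟨l, rfl⟩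
    · obtain ⟨l, rfl⟩ := Fin.exists_succAbove_eq hab.symm
      exact cbasb_one hx (i := l) (by rwa [ins_succAbove] at hb)
    · exact cbasb_one hx (i := l) (by rwa [ins_succAbove] at ha)
  · obtain ⟨l, hl⟩ := cbasb_ex h
    exact ⟨(ins_mem_face i hs hx).1, i, i.succAbove l, (Fin.succAbove_ne i l).symm,
      by rw [ins_same, cbasb_abs hs], by rwa [ins_succAbove]⟩

theorem ins_face (i : Fin (m + 1)) {s : ℤ} (hs : s = 1 ∨ s = -1) {l : Fin m} {s' : ℤ} {x : E m}
    (hx : x ∈ face l s') : ins i s x ∈ face (i.succAbove l) s' := by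
  exact ⟨(ins_mem_face i hs hx.1).1, (ins_succAbove i s x l).trans hx.2⟩

theorem skel_of_faces {i i' : Fin n} {s s' : ℤ} (hs : s = 1 ∨ s = -1) (hs' : s' = 1 ∨ s' = -1)
    (hne : (i, s) ≠ (i', s')) {y : E n} (hy : y ∈ face i s) (hy' : y ∈ face i' s') : Skel y := by
  refine ⟨hy.1, i, i', fun h => hne ?_, hy.2 ▸ cbasb_abs hs, hy'.2 ▸ cbasb_abs hs'⟩
  subst h
  rw [Int.cast_injective (hy.2.symm.trans hy'.2)]

theorem Skel.norm {y : E n} (hy : Skel y) : ‖y‖ = 1 := by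
  obtain ⟨h, i, _, _, hi, _⟩ := hy
  exact cbasb_one h hi

theorem Skel.cnt {y : E n} (hy : Skel y) : cnt y + 2 ≤ n := by
  obtain ⟨_, i, i', hne, hi, hi'⟩ := hy
  have h1 : Disjoint (Finset.univ.filter (fun j => |y j| < 1)) {i, i'} := by
    simp [hi, hi']
  have h2 := Finset.card_le_univ ((Finset.univ.filter (fun j => |y j| < 1)).disjUnion _ h1)
  rw [Finset.card_disjUnion, Finset.card_pair hne, Fintype.card_fin] at h2
  unfold OC.cnt
  convert h2

theorem rot_cons (i : Fin (m + 1)) (s : ℤ) (x : E m) : rot i s (Fin.cons 1 x) = ins i s x := by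
  simp [rot, ins]

theorem rot_south (i : Fin (m + 1)) (s : ℤ) : rot i s (south m) = ins i (-s) 0 := by
  simp [rot, ins, south]

theorem rot_same (i : Fin (m + 1)) (s : ℤ) (y : E (m + 1)) : rot i s y i = s * y 0 := by
  simp [rot]

/-- `Fin.cycleRange i` sends `i` to `0` and `i.succAbove l` to `l.succ`. -/
theorem rot_one (i : Fin (m + 1)) (y : E (m + 1)) : rot i 1 y = y ∘ Fin.cycleRange i := by
  funext j
  refine Fin.succAboveCases i ?_ (fun l => ?_) j
  · simp [rot]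
  · rw [Function.comp_apply, ← Fin.cycleRange_symm_succ, Equiv.apply_symm_apply,
      Fin.cycleRange_symm_succ]
    simp [rot, Fin.tail]

theorem rot_neg_one (i : Fin (m + 1)) (y : E (m + 1)) : rot i (-1) y = rot i 1 (rf 0 y) := by
  simp [rot, rf]

theorem norm_perm (π : Equiv.Perm (Fin n)) (y : E n) : ‖(y ∘ π : E n)‖ = ‖y‖ := by
  refine le_antisymm ((pi_norm_le_iff_of_nonneg (norm_nonneg _)).2 fun i => norm_le_pi_norm y _)
    ((pi_norm_le_iff_of_nonneg (norm_nonneg _)).2 fun i => ?_)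
  simpa using norm_le_pi_norm (y ∘ π : E n) (π.symm i)

end Pool.Agent.Lib.MP_5ceaf9_gt.OC
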