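import Pool.Agent.Lib.MP_5ceaf9_gt.CBasB

noncomputable section

namespace Pool.Agent.Lib.MP_5ceaf9_gt.OC

open Set

variable {n : ℕ} {η : Fin n → Bool}

theorem ccell_spec (t : ℝ) :
    (car0 t % 2 = 1 ∧ t = car0 t) ∨ (car0 t % 2 = 0 ∧ |t - car0 t| < 1) := by
  have h1 := Int.floor_le ((t + 1) / 2)
  have h2 := Int.lt_floor_add_one ((t + 1) / 2)
  unfold car0
  generalize ⌊(t + 1) / 2⌋ = p at h1 h2 ⊢
  by_cases h : t = 2 * p - 1
  · have hc : ⌈(t - 1) / 2⌉ = p - 1 := by
      rw [Int.ceil_eq_iff]
      push_cast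
      constructor <;> linarith
    rw [hc]
    left
    refine ⟨by omega, ?_⟩
    push_cast
    linarith
  · have hlt : 2 * (p : ℝ) - 1 < t := lt_of_le_of_ne (by linarith) (Ne.symm h)
    have hc : ⌈(t - 1) / 2⌉ = p := by
      rw [Int.ceil_eq_iff]
      constructor <;> linarith
    rw [hc]
    right
    refine ⟨by omega, ?_⟩
    rw [abs_lt]
    push_cast
    constructor <;> linarith

theorem car0_neg (t : ℝ) : car0 (-t) = -car0 t := by
  unfold car0
  have h1 : (-t + 1) / 2 = -((t - 1) / 2) := by ring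
  have h2 : (-t - 1) / 2 = -((t + 1) / 2) := by ring
  rw [h1, h2, Int.floor_neg, Int.ceil_neg]
  ring

theorem car0_int (a : ℤ) : car0 (a : ℝ) = a := by
  rcases ccell_spec (a : ℝ) with h | h
  · exact_mod_cast h.2.symm
  · have h2 : |a - car0 (a : ℝ)| < 1 := by exact_mod_cast h.2
    rw [abs_lt] at h2
    omega

theorem car0_spec (t : ℝ) :
    (car0 t % 2 = 1 ∧ t = car0 t) ∨ (car0 t % 2 = 0 ∧ |t - car0 t| < 1) := by
  exact ccell_spec t

theorem car0_eq {t : ℝ} {a : ℤ} (ha : a % 2 = 0) (ht : |t - a| < 1) : car0 t = a := by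
  rw [abs_lt] at ht
  rcases ccell_spec t with h | h
  · have h1 : ((car0 t - a : ℤ) : ℝ) < 1 := by push_cast; linarith [h.2, ht.2]
    have h2 : (-1 : ℝ) < ((car0 t - a : ℤ) : ℝ) := by push_cast; linarith [h.2, ht.1]
    have h1' : car0 t - a < 1 := by exact_mod_cast h1
    have h2' : -1 < car0 t - a := by exact_mod_cast h2
    omega
  · have h3 := abs_lt.1 h.2
    have h1 : ((car0 t - a : ℤ) : ℝ) < 2 := by push_cast; linarith [h3.1, ht.2]
    have h2 : (-2 : ℝ) < ((car0 t - a : ℤ) : ℝ) := by push_cast; linarith [h3.2, ht.1]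
    have h1' : car0 t - a < 2 := by exact_mod_cast h1
    have h2' : -2 < car0 t - a := by exact_mod_cast h2
    have := h.1
    omega

theorem le1_refl (a : Lat n) : le1 a a := by
  exact fun _ => Or.inl rfl

theorem le1_trans {a b d : Lat n} (h1 : le1 a b) (h2 : le1 b d) : le1 a d := by
  intro i
  have e1 := h1 i
  have e2 := h2 i
  unfold le0 at e1 e2 ⊢
  omega

theorem le1_fl {a b : Lat n} : le1 (fl η a) (fl η b) ↔ le1 a b := by
  refine forall_congr' fun i => ?_
  unfold fl le0
  by_cases h : η i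
  · simp only [h, if_true]
    omega
  · simp only [h]
    rfl

theorem ccell_coord (t : ℝ) (a : ℤ) :
    (if a % 2 = 0 then |t - a| ≤ 1 else t = a) ↔ le0 a (car0 t) := by
  unfold le0
  by_cases ha : a % 2 = 0
  · simp only [ha, if_true]
    constructor
    · intro ht
      rw [abs_le] at ht
      rcases car0_spec t with h | h
      · have h1 : ((car0 t - a : ℤ) : ℝ) ≤ 1 := by push_cast; linarith [h.2, ht.2]
        have h2 : (-1 : ℝ) ≤ ((car0 t - a : ℤ) : ℝ) := by push_cast; linarith [h.2, ht.1]
        have h1' : car0 t - a ≤ 1 := by exact_mod_cast h1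
        have h2' : -1 ≤ car0 t - a := by exact_mod_cast h2
        have := h.1
        omega
      · have h3 := abs_lt.1 h.2
        have h1 : ((car0 t - a : ℤ) : ℝ) < 2 := by push_cast; linarith [h3.1, ht.2]
        have h2 : (-2 : ℝ) < ((car0 t - a : ℤ) : ℝ) := by push_cast; linarith [h3.2, ht.1]
        have h1' : car0 t - a < 2 := by exact_mod_cast h1
        have h2' : -2 < car0 t - a := by exact_mod_cast h2
        have := h.1
        omega
    · intro hle
      rcases car0_spec t with h | h
      · have h1 := h.1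
        have h4 : a = car0 t + 1 ∨ a = car0 t - 1 := by omega
        rw [abs_le]
        rcases h4 with h4 | h4
        · have h5 : (a : ℝ) = (car0 t : ℝ) + 1 := by exact_mod_cast h4
          constructor <;> linarith [h.2]
        · have h5 : (a : ℝ) = (car0 t : ℝ) - 1 := by exact_mod_cast h4
          constructor <;> linarith [h.2]
      · have h1 := h.1
        have h4 : a = car0 t := by omega
        have h5 : (a : ℝ) = (car0 t : ℝ) := by exact_mod_cast h4
        rw [h5]
        exact h.2.le
  · simp only [ha, if_false]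
    constructor
    · intro ht
      left
      rw [ht, car0_int]
    · intro hle
      have h4 : a = car0 t := by omega
      rcases car0_spec t with h | h
      · have h5 : (a : ℝ) = (car0 t : ℝ) := by exact_mod_cast h4
        rw [h5]
        exact h.2
      · have h1 := h.1
        omega

theorem mem_cube_iff {x : E n} {e : Lat n} : x ∈ cube e ↔ le1 e (car x) := by
  exact forall_congr' fun i => ccell_coord (x i) (e i)

theorem car_ctr (e : Lat n) : car (ctr e) = e := by
  funext i
  exact car0_int (e i)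

theorem car_fl (x : E n) : car (fl η x) = fl η (car x) := by
  funext i
  unfold car fl
  by_cases h : η i
  · simp only [h, if_true]
    exact car0_neg _
  · simp only [h]
    rfl

theorem ctr_fl (e : Lat n) : ctr (fl η e) = fl η (ctr e) := by
  funext i
  unfold ctr fl
  by_cases h : η i
  · simp only [h, if_true]
    exact Int.cast_neg _
  · simp only [h]
    rfl

theorem mem_cube_car (x : E n) : x ∈ cube (car x) := by
  exact mem_cube_iff.2 (le1_refl _)

theorem ctr_mem_cube {a b : Lat n} (hab : le1 a b) : ctr b ∈ cube a := by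
  rw [mem_cube_iff, car_ctr]
  exact hab

theorem cube_mono {a b : Lat n} (hab : le1 a b) : cube b ⊆ cube a := by
  intro x hx
  exact mem_cube_iff.2 (le1_trans hab (mem_cube_iff.1 hx))

theorem fl_mem_cube {x : E n} {e : Lat n} : fl η x ∈ cube (fl η e) ↔ x ∈ cube e := by
  rw [mem_cube_iff, mem_cube_iff, car_fl, le1_fl]

theorem isClosed_cube (e : Lat n) : IsClosed (cube e) := by
  have h : cube e = ⋂ i, {x : E n | if e i % 2 = 0 then |x i - e i| ≤ 1 else x i = e i} := by
    ext x
    simp only [cube, mem_ofPred_eq, mem_iInter]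
  rw [h]
  refine isClosed_iInter fun i => ?_
  by_cases hi : e i % 2 = 0
  · simp only [hi, if_true]
    exact isClosed_le (((continuous_apply i).sub continuous_const).abs) continuous_const
  · simp only [hi, if_false]
    exact isClosed_eq (continuous_apply i) continuous_const

theorem convex_cube (e : Lat n) : Convex ℝ (cube e) := by
  intro x hx y hy a b ha hb hab i
  have h1 := hx i
  have h2 := hy i
  by_cases hi : e i % 2 = 0
  · simp only [hi, if_true] at h1 h2 ⊢
    rw [abs_le] at h1 h2 ⊢
    simp only [Pi.add_apply, Pi.smul_apply, smul_eq_mul]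
    have hb' : b = 1 - a := by linarith
    subst hb'
    constructor
    · nlinarith [mul_nonneg ha (sub_nonneg.2 h1.1), mul_nonneg hb (sub_nonneg.2 h2.1)]
    · nlinarith [mul_nonneg ha (sub_nonneg.2 h1.2), mul_nonneg hb (sub_nonneg.2 h2.2)]
  · simp only [hi, if_false] at h1 h2 ⊢
    simp only [Pi.add_apply, Pi.smul_apply, smul_eq_mul]
    rw [h1, h2, ← add_mul, hab, one_mul]

theorem dimE_le_n (e : Lat n) : dimE e ≤ n := by
  unfold dimE
  simpa using Finset.card_filter_le (Finset.univ : Finset (Fin n)) (fun j => e j % 2 = 0)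

theorem ccell_sub {a b : Lat n} (hab : le1 a b) :
    Finset.univ.filter (fun j => b j % 2 = 0) ⊆ Finset.univ.filter (fun j => a j % 2 = 0) := by
  intro j hj
  simp only [Finset.mem_filter, Finset.mem_univ, true_and] at hj ⊢
  have h := hab j
  unfold le0 at h
  omega

theorem dimE_le {a b : Lat n} (hab : le1 a b) : dimE b ≤ dimE a := by
  exact Finset.card_le_card (ccell_sub hab)

theorem dimE_lt {a b : Lat n} (hab : le1 a b) (hne : b ≠ a) : dimE b < dimE a := by
  obtain ⟨i, hi⟩ := Function.ne_iff.1 hne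
  have h := hab i
  unfold le0 at h
  refine Finset.card_lt_card ⟨ccell_sub hab, fun hc => ?_⟩
  have h1 : i ∈ Finset.univ.filter (fun j => a j % 2 = 0) := by
    simp only [Finset.mem_filter, Finset.mem_univ, true_and]
    omega
  have h2 := hc h1
  simp only [Finset.mem_filter, Finset.mem_univ, true_and] at h2
  omega

theorem dimE_fl (e : Lat n) : dimE (fl η e) = dimE e := by
  unfold dimE
  congr 1
  refine Finset.filter_congr fun i _ => ?_
  unfold fl
  by_cases h : η i
  · simp only [h, if_true]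
    omega
  · simp only [h]
    rfl

theorem le1_fac {e : Lat n} {i : Fin n} {s : ℤ} (hi : e i % 2 = 0) (hs : s = 1 ∨ s = -1) :
    le1 e (fac e i s) := by
  intro j
  unfold fac le0
  by_cases hj : j = i
  · subst hj
    simp only [Pi.add_apply, Pi.single_eq_same]
    omega
  · left
    simp only [Pi.add_apply, Pi.single_eq_of_ne hj, add_zero]

theorem dimE_fac {e : Lat n} {i : Fin n} {s : ℤ} (hi : e i % 2 = 0) (hs : s = 1 ∨ s = -1) :
    dimE (fac e i s) + 1 = dimE e := by
  unfold dimE
  have h : Finset.univ.filter (fun j => fac e i s j % 2 = 0) =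
      (Finset.univ.filter (fun j => e j % 2 = 0)).erase i := by
    ext j
    simp only [Finset.mem_filter, Finset.mem_univ, true_and, Finset.mem_erase]
    by_cases hj : j = i
    · subst hj
      have h1 : fac e j s j = e j + s := by simp only [fac, Pi.add_apply, Pi.single_eq_same]
      rw [h1]
      simp only [ne_eq, not_true_eq_false, false_and, iff_false]
      omega
    · have h1 : fac e i s j = e j := by
        simp only [fac, Pi.add_apply, Pi.single_eq_of_ne hj, add_zero]
      rw [h1]
      simp only [ne_eq, hj, not_false_eq_true, true_and]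
  rw [h]
  exact Finset.card_erase_add_one (by simpa using hi)

theorem mem_vox {B : Finset (Lat n)} (hB : UpC B) {x : E n} : x ∈ vox B ↔ car x ∈ B := by
  constructor
  · rintro ⟨e, he, hx⟩
    exact hB e he _ (mem_cube_iff.1 hx)
  · intro h
    exact ⟨_, h, mem_cube_car x⟩

theorem cube_sub_vox {B : Finset (Lat n)} {a : Lat n} (ha : a ∈ B) : cube a ⊆ vox B := by
  exact fun x hx => ⟨a, ha, hx⟩

theorem vox_mono {B D : Finset (Lat n)} (h : B ⊆ D) : vox B ⊆ vox D := by
  rintro x ⟨e, he, hx⟩
  exact ⟨e, h he, hx⟩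

theorem ccell_vox (B : Finset (Lat n)) : vox B = ⋃ e ∈ B, cube e := by
  ext x
  simp only [vox, mem_ofPred_eq, mem_iUnion, exists_prop]

theorem isClosed_vox (B : Finset (Lat n)) : IsClosed (vox B) := by
  rw [ccell_vox]
  exact isClosed_biUnion_finset fun e _ => isClosed_cube e

theorem fl_mem_vox {B : Finset (Lat n)} (hB : Invt η B) {x : E n} : fl η x ∈ vox B ↔ x ∈ vox B := by
  constructor
  · rintro ⟨e, he, hx⟩
    refine ⟨fl η e, hB e he, ?_⟩
    have h := (fl_mem_cube (η := η)).2 hx
    rwa [fl_fl] at h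
  · rintro ⟨e, he, hx⟩
    exact ⟨fl η e, hB e he, fl_mem_cube.2 hx⟩

theorem contOn_vox {Z : Type} [TopologicalSpace Z] {B : Finset (Lat n)} {f : E n → Z}
    (hf : ∀ a ∈ B, ContinuousOn f (cube a)) : ContinuousOn f (vox B) := by
  classical
  induction B using Finset.induction_on with
  | empty =>
    have h : vox (∅ : Finset (Lat n)) = ∅ := by
      ext x
      simp [vox]
    rw [h]
    exact continuousOn_empty f
  | insert a B ha ih =>
    have h : vox (insert a B) = cube a ∪ vox B := by
      ext x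
      simp [vox]
    rw [h]
    exact (hf a (Finset.mem_insert_self a B)).union_of_isClosed
      (ih fun b hb => hf b (Finset.mem_insert_of_mem hb)) (isClosed_cube a) (isClosed_vox B)

theorem seg_fl {Z : Type} {f : E n → Z} (hf : ∀ x, f (fl η x) = f x) (x y : E n) :
    seg f (fl η x) (fl η y) = seg f x y := by
  funext t
  unfold seg
  rw [← hf (x + t • (y - x))]
  congr 1
  funext i
  unfold fl
  by_cases h : η i
  · simp only [h, if_true, Pi.add_apply, Pi.smul_apply, Pi.sub_apply, smul_eq_mul]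
    ring
  · simp only [h, Pi.add_apply, Pi.smul_apply, Pi.sub_apply, smul_eq_mul]
    rfl

variable {Q P : Finset (Lat n)} {m : ℕ}

theorem mem_dom {a : Lat n} : a ∈ dom Q P m ↔ a ∈ P ∧ (a ∈ Q ∨ dimE a < m) := by
  exact Finset.mem_filter

theorem mem_nw {a : Lat n} : a ∈ nw Q P m ↔ a ∈ P ∧ a ∉ Q ∧ dimE a = m := by
  exact Finset.mem_filter

theorem mem_dom_succ {a : Lat n} : a ∈ dom Q P (m + 1) ↔ a ∈ dom Q P m ∨ a ∈ nw Q P m := by
  rw [mem_dom, mem_dom, mem_nw]
  by_cases hq : a ∈ Q
  · simp [hq]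
  · simp only [hq, false_or, not_false_eq_true, true_and, ← and_or_left]
    refine and_congr_right fun _ => ?_
    omega

theorem dom_mono {m' : ℕ} (hm : m ≤ m') : dom Q P m ⊆ dom Q P m' := by
  intro a ha
  rw [mem_dom] at ha ⊢
  exact ⟨ha.1, ha.2.imp id fun h => lt_of_lt_of_le h hm⟩

theorem Pair.upc_dom (hp : Pair η Q P) (m : ℕ) : UpC (dom Q P m) := by
  intro a ha b hab
  rw [mem_dom] at ha ⊢
  exact ⟨hp.uP a ha.1 b hab, ha.2.imp (fun h => hp.uQ a h b hab)
    fun h => lt_of_le_of_lt (dimE_le hab) h⟩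

theorem Pair.invt_dom (hp : Pair η Q P) (m : ℕ) : Invt η (dom Q P m) := by
  intro a ha
  rw [mem_dom] at ha ⊢
  rw [dimE_fl]
  exact ⟨hp.iP a ha.1, ha.2.imp (hp.iQ a) id⟩

theorem Pair.invt_nw (hp : Pair η Q P) (m : ℕ) : Invt η (nw Q P m) := by
  intro a ha
  rw [mem_nw] at ha ⊢
  rw [dimE_fl]
  refine ⟨hp.iP a ha.1, fun h => ha.2.1 ?_, ha.2.2⟩
  have h2 := hp.iQ _ h
  rwa [fl_fl] at h2

theorem Pair.dom_zero (hp : Pair η Q P) : dom Q P 0 = Q := by
  ext a
  rw [mem_dom]
  constructor
  · rintro ⟨_, h | h⟩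
    · exact h
    · omega
  · exact fun h => ⟨hp.sub h, Or.inl h⟩

theorem Pair.sub_dom (hp : Pair η Q P) (m : ℕ) : Q ⊆ dom Q P m := by
  exact fun a h => mem_dom.2 ⟨hp.sub h, Or.inl h⟩

theorem dom_top : dom Q P (n + 1) = P := by
  ext a
  rw [mem_dom]
  exact ⟨fun h => h.1, fun h => ⟨h, Or.inr (Nat.lt_succ_of_le (dimE_le_n a))⟩⟩

theorem Pair.face_dom (hp : Pair η Q P) {a b : Lat n} (ha : a ∈ P) (hab : le1 a b) (hne : b ≠ a)
    (hm : dimE a ≤ m) : b ∈ dom Q P m := by
  exact mem_dom.2 ⟨hp.uP a ha b hab, Or.inr (lt_of_lt_of_le (dimE_lt hab hne) hm)⟩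

end Pool.Agent.Lib.MP_5ceaf9_gt.OC
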