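import Pool.Agent.Lib.MP_5ceaf9_gt.CCell

noncomputable section

namespace Pool.Agent.Lib.MP_5ceaf9_gt.OC

open Set

variable {n k : ℕ} {η : Fin n → Bool} {e : Lat n} {ι : Fin k → Fin n}

/-- `Finset.orderEmbOfFin`. -/
theorem exists_chart (hk : dimE e = k) : ∃ ι : Fin k → Fin n, Chart e ι := by
  rw [dimE] at hk
  refine ⟨(Finset.univ.filter (fun j => e j % 2 = 0)).orderEmbOfFin hk,
    (Finset.orderEmbOfFin _ hk).strictMono, fun i => ?_⟩
  rw [Finset.range_orderEmbOfFin]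
  simp

theorem Chart.unique {ι' : Fin k → Fin n} (h : Chart e ι) (h' : Chart e ι') : ι = ι' := by
  refine (h.1.range_inj h'.1).1 (Set.ext fun i => ?_)
  rw [← h.2, ← h'.2]

theorem cchart_filter (h : Chart e ι) :
    Finset.univ.filter (fun j => e j % 2 = 0) = Finset.univ.map ⟨ι, h.1.injective⟩ := by
  ext i
  simp [h.2]

theorem cchart_card (h : Chart e ι) (p : Fin n → Prop) [DecidablePred p] :
    (Finset.univ.filter (fun j => p j ∧ e j % 2 = 0)).card =
      (Finset.univ.filter (fun l => p (ι l))).card := by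
  rw [← Finset.card_map ⟨ι, h.1.injective⟩]
  congr 1
  ext i
  simp only [Finset.mem_filter, Finset.mem_univ, true_and, Finset.mem_map,
    Function.Embedding.coeFn_mk, h.2]
  constructor
  · rintro ⟨h1, l, rfl⟩
    exact ⟨l, h1, rfl⟩
  · rintro ⟨l, h1, rfl⟩
    exact ⟨h1, l, rfl⟩

theorem cchart_same (i : Fin n) (s : ℤ) : fac e i s i = e i + s := by
  simp [fac]

theorem cchart_ne {i j : Fin n} (hij : j ≠ i) {s : ℤ} : fac e i s j = e j := by
  simp [fac, hij]

theorem cchart_odd (h : Chart e ι) {l : Fin k} {s : ℤ} (hs : s = 1 ∨ s = -1) :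
    ¬ fac e (ι l) s (ι l) % 2 = 0 := by
  have h1 := (h.2 _).2 ⟨l, rfl⟩
  rw [cchart_same]
  omega

theorem Chart.dim (h : Chart e ι) : dimE e = k := by
  rw [dimE, cchart_filter h, Finset.card_map, Finset.card_univ, Fintype.card_fin]

theorem Chart.even (h : Chart e ι) (l : Fin k) : e (ι l) % 2 = 0 := by
  exact (h.2 _).2 ⟨l, rfl⟩

theorem Chart.ch_eq (h : Chart e ι) : ch k e = chi e ι := by
  have h1 : ∃ ι : Fin k → Fin n, Chart e ι := ⟨ι, h⟩
  rw [ch, dif_pos h1, h1.choose_spec.unique h]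

theorem Chart.chi_apply (h : Chart e ι) (x : E k) (l : Fin k) :
    chi e ι x (ι l) = e (ι l) + x l := by
  rw [chi, Pi.add_apply, h.1.injective.extend_apply]
  rfl

theorem Chart.chi_odd (h : Chart e ι) (x : E k) {i : Fin n} (hi : ¬ e i % 2 = 0) :
    chi e ι x i = e i := by
  rw [chi, Pi.add_apply, Function.extend_apply' _ _ _ fun h1 => hi ((h.2 i).2 h1), Pi.zero_apply,
    add_zero]
  rfl

theorem Chart.continuous_chi (h : Chart e ι) : Continuous (chi e ι) := by
  refine continuous_pi fun i => ?_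
  by_cases hi : e i % 2 = 0
  · obtain ⟨l, rfl⟩ := (h.2 i).1 hi
    simp only [h.chi_apply]
    exact continuous_const.add (continuous_apply l)
  · simp only [h.chi_odd _ hi]
    exact continuous_const

theorem continuous_co : Continuous (co e ι) := by
  exact continuous_pi fun l => (continuous_apply (ι l)).sub continuous_const

theorem Chart.chi_zero (h : Chart e ι) : chi e ι 0 = ctr e := by
  funext i
  by_cases hi : e i % 2 = 0
  · obtain ⟨l, rfl⟩ := (h.2 i).1 hi
    rw [h.chi_apply, Pi.zero_apply, add_zero]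
    rfl
  · exact h.chi_odd _ hi

theorem Chart.chi_mem (h : Chart e ι) {x : E k} (hx : ‖x‖ ≤ 1) : chi e ι x ∈ cube e := by
  intro i
  split_ifs with hi
  · obtain ⟨l, rfl⟩ := (h.2 i).1 hi
    rw [h.chi_apply, add_sub_cancel_left]
    exact (norm_le_pi_norm x l).trans hx
  · exact h.chi_odd _ hi

theorem Chart.norm_co (h : Chart e ι) {y : E n} (hy : y ∈ cube e) : ‖co e ι y‖ ≤ 1 := by
  refine (pi_norm_le_iff_of_nonneg zero_le_one).2 fun l => ?_
  have h1 := hy (ι l)
  rw [if_pos (h.even l)] at h1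
  exact h1

theorem Chart.co_chi (h : Chart e ι) (x : E k) : co e ι (chi e ι x) = x := by
  funext l
  rw [co, h.chi_apply, add_sub_cancel_left]

theorem Chart.chi_co (h : Chart e ι) {y : E n} (hy : y ∈ cube e) : chi e ι (co e ι y) = y := by
  funext i
  by_cases hi : e i % 2 = 0
  · obtain ⟨l, rfl⟩ := (h.2 i).1 hi
    rw [h.chi_apply, co, add_sub_cancel]
  · have h1 := hy i
    rw [if_neg hi] at h1
    rw [h.chi_odd _ hi, h1]

theorem Chart.chi_seg (h : Chart e ι) (x y : E k) (t : ℝ) :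
    chi e ι (x + t • (y - x)) = chi e ι x + t • (chi e ι y - chi e ι x) := by
  funext i
  by_cases hi : e i % 2 = 0
  · obtain ⟨l, rfl⟩ := (h.2 i).1 hi
    simp only [Pi.add_apply, Pi.smul_apply, Pi.sub_apply, h.chi_apply, smul_eq_mul]
    ring
  · simp only [Pi.add_apply, Pi.smul_apply, Pi.sub_apply, h.chi_odd _ hi, smul_eq_mul]
    ring

theorem cchart_car (h : Chart e ι) {x : E k} (hx : ‖x‖ ≤ 1) (l : Fin k) :
    car (chi e ι x) (ι l) % 2 = 0 ↔ |x l| < 1 := by
  have h0 := h.even l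
  rw [car, h.chi_apply]
  constructor
  · intro h1
    by_contra h2
    have h3 : |x l| = 1 := le_antisymm ((norm_le_pi_norm x l).trans hx) (not_lt.1 h2)
    rcases (abs_eq zero_le_one).1 h3 with h4 | h4
    · rw [h4, show (e (ι l) : ℝ) + 1 = ((e (ι l) + 1 : ℤ) : ℝ) by push_cast; rfl, car0_int] at h1
      omega
    · rw [h4, show (e (ι l) : ℝ) + -1 = ((e (ι l) + -1 : ℤ) : ℝ) by push_cast; rfl, car0_int] at h1
      omega
  · intro h1
    rw [car0_eq h0 (by rwa [add_sub_cancel_left])]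
    exact h0

theorem Chart.car_ne (h : Chart e ι) {x : E k} (hx : ‖x‖ ≤ 1) :
    car (chi e ι x) ≠ e ↔ ‖x‖ = 1 := by
  have h1 : car (chi e ι x) = e ↔ ‖x‖ < 1 := by
    rw [pi_norm_lt_iff zero_lt_one]
    constructor
    · intro h2 l
      refine (cchart_car h hx l).1 ?_
      rw [h2]
      exact h.even l
    · intro h2
      funext i
      by_cases hi : e i % 2 = 0
      · obtain ⟨l, rfl⟩ := (h.2 i).1 hi
        refine car0_eq hi ?_
        rw [h.chi_apply, add_sub_cancel_left]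
        exact h2 l
      · rw [car, h.chi_odd _ hi, car0_int]
  rw [Ne, h1, not_lt]
  exact ⟨le_antisymm hx, fun h2 => h2.ge⟩

theorem Chart.dim_car (h : Chart e ι) {x : E k} (hx : ‖x‖ ≤ 1) :
    dimE (car (chi e ι x)) = cnt x := by
  rw [dimE, cnt, ← Finset.card_map ⟨ι, h.1.injective⟩]
  congr 1
  ext i
  simp only [Finset.mem_filter, Finset.mem_univ, true_and, Finset.mem_map,
    Function.Embedding.coeFn_mk]
  by_cases hi : e i % 2 = 0
  · obtain ⟨l, rfl⟩ := (h.2 i).1 hi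
    rw [cchart_car h hx l]
    refine ⟨fun h1 => ⟨l, h1, rfl⟩, ?_⟩
    rintro ⟨l', h1, h2⟩
    rwa [← h.1.injective h2]
  · rw [car, h.chi_odd _ hi, car0_int]
    refine ⟨fun h1 => absurd h1 hi, ?_⟩
    rintro ⟨l, -, rfl⟩
    exact h.even l

theorem Chart.face_mem (h : Chart e ι) {l : Fin k} {s : ℤ} (hs : s = 1 ∨ s = -1) {y : E k}
    (hy : y ∈ face l s) : chi e ι y ∈ cube (fac e (ι l) s) := by
  intro i
  by_cases hi : i = ι l
  · subst hi
    rw [if_neg (cchart_odd h hs), h.chi_apply, hy.2, cchart_same, Int.cast_add]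
  · rw [cchart_ne hi]
    exact h.chi_mem hy.1 i

theorem Chart.fac {ι : Fin (k + 1) → Fin n} (h : Chart e ι) (l : Fin (k + 1)) {s : ℤ}
    (hs : s = 1 ∨ s = -1) : Chart (fac e (ι l) s) (ι ∘ l.succAbove) := by
  refine ⟨h.1.comp (Fin.strictMono_succAbove l), fun i => ?_⟩
  by_cases hi : i = ι l
  · subst hi
    refine ⟨fun h1 => absurd h1 (cchart_odd h hs), ?_⟩
    rintro ⟨m, hm⟩
    exact absurd (h.1.injective hm) (Fin.succAbove_ne l m)
  · rw [cchart_ne hi, h.2]
    constructor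
    · rintro ⟨m, rfl⟩
      obtain ⟨m', rfl⟩ := Fin.exists_succAbove_eq (x := m) (y := l) fun h1 => hi (congrArg ι h1)
      exact ⟨m', rfl⟩
    · rintro ⟨m, rfl⟩
      exact ⟨_, rfl⟩

theorem Chart.chi_ins {ι : Fin (k + 1) → Fin n} (h : Chart e ι) (l : Fin (k + 1)) {s : ℤ}
    (hs : s = 1 ∨ s = -1) (x : E k) :
    chi e ι (ins l s x) = chi (OC.fac e (ι l) s) (ι ∘ l.succAbove) x := by
  funext i
  by_cases hl : i = ι l
  · subst hl
    rw [h.chi_apply, (h.fac l hs).chi_odd _ (cchart_odd h hs), cchart_same, Int.cast_add, ins,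
      Fin.insertNth_apply_same]
  by_cases hi : e i % 2 = 0
  · obtain ⟨m, rfl⟩ := (h.2 i).1 hi
    obtain ⟨m', rfl⟩ := Fin.exists_succAbove_eq (x := m) (y := l) fun h1 => hl (congrArg ι h1)
    have h1 := (h.fac l hs).chi_apply x m'
    rw [Function.comp_apply, cchart_ne hl] at h1
    rw [h1, h.chi_apply, ins, Fin.insertNth_apply_succAbove]
  · rw [h.chi_odd _ hi, (h.fac l hs).chi_odd _ (by rwa [cchart_ne hl]), cchart_ne hl]

theorem Chart.fl (h : Chart e ι) : Chart (fl η e) ι := by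
  refine ⟨h.1, fun i => ?_⟩
  rw [← h.2, MP_5ceaf9_gt.fl]
  split_ifs
  · omega
  · rfl

theorem Chart.chi_fl (h : Chart e ι) (x : E k) :
    chi (MP_5ceaf9_gt.fl η e) ι x = MP_5ceaf9_gt.fl η (chi e ι (MP_5ceaf9_gt.fl (η ∘ ι) x)) := by
  funext i
  by_cases hi : e i % 2 = 0
  · obtain ⟨l, rfl⟩ := (h.2 i).1 hi
    rw [h.fl.chi_apply]
    simp only [MP_5ceaf9_gt.fl, h.chi_apply, Function.comp_apply]
    split_ifs
    · push_cast
      ring
    · rfl
  · rw [h.fl.chi_odd _ fun h1 => hi ((h.2 i).2 ((h.fl.2 i).1 h1))]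
    simp only [MP_5ceaf9_gt.fl, h.chi_odd _ hi]
    split_ifs
    · push_cast
      ring
    · rfl

theorem Chart.orE_eq (h : Chart e ι) : orE η e = sg (η ∘ ι) := by
  rw [orE, sg, cchart_card h]
  rfl

theorem Chart.sgE_eq (h : Chart e ι) (l : Fin k) : sgE e (ι l) = (-1) ^ (l : ℕ) := by
  rw [sgE, cchart_card h]
  simp only [h.1.lt_iff_lt]
  rw [Finset.filter_gt_eq_Iio, Fin.card_Iio]

theorem Chart.dE_eq {Γ A : Type} [Group Γ] [AddCommGroup A] [DistribMulAction Γ A]
    (h : Chart e ι) (c : Lat n → Lat n → Γ) (ψ : Lat n → A) :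
    dE c ψ e = ∑ l : Fin k, ((-1) ^ (l : ℕ) : ℤ) •
      (c e (OC.fac e (ι l) 1) • ψ (OC.fac e (ι l) 1) -
        c e (OC.fac e (ι l) (-1)) • ψ (OC.fac e (ι l) (-1))) := by
  rw [dE, cchart_filter h, Finset.sum_map]
  refine Finset.sum_congr rfl fun l _ => ?_
  simp only [Function.Embedding.coeFn_mk, h.sgE_eq, OC.fac, Pi.single_neg, sub_eq_add_neg]

/-- A filling in the model gives a filling of the cell: `G ∘ co e ι`. -/
theorem Chart.fill {Z : Type} [TopologicalSpace Z] (h : Chart e ι) {f : E n → Z} {G : E k → Z}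
    (hG : ContinuousOn G (Metric.closedBall 0 1)) (he : ∀ y, ‖y‖ = 1 → G y = f (chi e ι y)) :
    ContinuousOn (G ∘ co e ι) (cube e) ∧ ∀ x ∈ cube e, car x ≠ e → (G ∘ co e ι) x = f x := by
  refine ⟨hG.comp continuous_co.continuousOn fun y hy => mem_closedBall_zero_iff.2 (h.norm_co hy),
    fun x hx hne => ?_⟩
  have h1 := (h.car_ne (h.norm_co hx)).1 (by rwa [h.chi_co hx])
  rw [Function.comp_apply, he _ h1, h.chi_co hx]

end Pool.Agent.Lib.MP_5ceaf9_gt.OC
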