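import Pool.Agent.Lib.MP_5ceaf9_gt.CBasA

noncomputable section

namespace Pool.Agent.Lib.MP_5ceaf9_gt.OC

open Set

section aux

open scoped unitInterval

variable {k : ℕ} {Z : Type} [TopologicalSpace Z] {z0 : Z}

/-- The affine map from the unit cube to the cube of radius `R`. -/
def cclsex_pt (R : ℝ) (y : Fin k → I) : E k := fun i => R * (2 * (y i : ℝ) - 1)

/-- The clamped inverse of the affine map. -/
def cclsex_bk (R : ℝ) (x : E k) : Fin k → I :=
  fun i => Set.projIcc 0 1 zero_le_one ((x i / R + 1) / 2)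

theorem cclsex_le_norm {R : ℝ} {x : E k} (i : Fin k) (h : x i = R ∨ x i = -R) : R ≤ ‖x‖ := by
  have h1 : ‖x i‖ ≤ ‖x‖ := norm_le_pi_norm x i
  rw [Real.norm_eq_abs] at h1
  rcases h with h | h
  · rw [h] at h1
    exact (le_abs_self R).trans h1
  · rw [h, abs_neg] at h1
    exact (le_abs_self R).trans h1

theorem cclsex_pt_coord (R : ℝ) {y : Fin k → I} {i : Fin k} (h : y i = 0 ∨ y i = 1) :
    cclsex_pt R y i = R ∨ cclsex_pt R y i = -R := by
  rcases h with h | h
  · right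
    simp [cclsex_pt, h]
  · left
    simp only [cclsex_pt, h, Icc.coe_one]
    ring

theorem cclsex_pt_norm (R : ℝ) {y : Fin k → I} (hy : y ∈ Cube.boundary (Fin k)) :
    R ≤ ‖cclsex_pt R y‖ := by
  obtain ⟨i, h⟩ := hy
  exact cclsex_le_norm i (cclsex_pt_coord R h)

theorem cclsex_pt_cont : Continuous fun p : ℝ × (Fin k → I) => cclsex_pt p.1 p.2 := by
  refine continuous_pi fun i => ?_
  unfold cclsex_pt
  fun_prop

theorem cclsex_bk_cont (R : ℝ) : Continuous (cclsex_bk R : E k → Fin k → I) := by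
  refine continuous_pi fun i => ?_
  unfold cclsex_bk
  exact continuous_projIcc.comp (by fun_prop)

theorem cclsex_bk_pt {R : ℝ} (hR : 0 < R) (y : Fin k → I) : cclsex_bk R (cclsex_pt R y) = y := by
  funext i
  have h : (cclsex_pt R y i / R + 1) / 2 = (y i : ℝ) := by
    unfold cclsex_pt
    field_simp
    ring
  unfold cclsex_bk
  rw [h, Set.projIcc_val]

theorem cclsex_pt_bk {R : ℝ} (hR : 0 < R) {x : E k} (hx : ‖x‖ ≤ R) :
    cclsex_pt R (cclsex_bk R x) = x := by
  funext i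
  have h1 : |x i| ≤ R := (norm_le_pi_norm x i).trans hx
  rw [abs_le] at h1
  have h2 : -1 ≤ x i / R := by
    rw [le_div_iff₀ hR]
    linarith [h1.1]
  have h3 : x i / R ≤ 1 := by
    rw [div_le_iff₀ hR]
    linarith [h1.2]
  have h4 : (x i / R + 1) / 2 ∈ Icc (0 : ℝ) 1 := ⟨by linarith, by linarith⟩
  unfold cclsex_pt cclsex_bk
  rw [Set.projIcc_of_mem _ h4]
  field_simp
  ring

theorem cclsex_bk_bdry {R : ℝ} (hR : 0 < R) {x : E k} (hx : R ≤ ‖x‖) :
    cclsex_bk R x ∈ Cube.boundary (Fin k) := by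
  have h : ¬ ∀ i, ‖x i‖ < R := fun h => absurd ((pi_norm_lt_iff hR).2 h) (not_lt.2 hx)
  push Not at h
  obtain ⟨i, hi⟩ := h
  refine ⟨i, ?_⟩
  rw [Real.norm_eq_abs, le_abs] at hi
  rcases hi with hi | hi
  · right
    have h2 : 1 ≤ x i / R := by
      rw [le_div_iff₀ hR]
      linarith
    unfold cclsex_bk
    rw [Set.projIcc_of_right_le _ (by linarith)]
    rfl
  · left
    have h2 : x i / R ≤ -1 := by
      rw [div_le_iff₀ hR]
      linarith
    unfold cclsex_bk
    rw [Set.projIcc_of_le_left _ (by linarith)]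
    rfl

/-- The class of a generalized loop. -/
def cclsex_mk (f : GenLoop (Fin k) Z z0) : HomotopyGroup (Fin k) Z z0 :=
  Quotient.mk (GenLoop.Homotopic.setoid (Fin k) z0) f

theorem cclsex_basic (f g : GenLoop (Fin k) Z z0) (G : ℝ × (Fin k → I) → Z)
    (hG : ContinuousOn G (Icc 0 1 ×ˢ univ))
    (hb : ∀ t ∈ Icc (0 : ℝ) 1, ∀ y ∈ Cube.boundary (Fin k), G (t, y) = z0)
    (h0 : ∀ y, G (0, y) = f y) (h1 : ∀ y, G (1, y) = g y) : cclsex_mk f = cclsex_mk g := by
  refine Quotient.sound ⟨⟨⟨⟨fun p => G ((p.1 : ℝ), p.2), ?_⟩, ?_, ?_⟩, ?_⟩⟩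
  · exact hG.comp_continuous (by fun_prop) fun p => ⟨p.1.2, mem_univ _⟩
  · intro y
    exact h0 y
  · intro y
    exact h1 y
  · intro t y hy
    exact (hb t t.2 y hy).trans (f.2 y hy).symm

/-- The generalized loop of an eventually constant map. -/
def cclsex_gl (V : E k → Z) (R : ℝ) (hV : EvC V R z0) : GenLoop (Fin k) Z z0 :=
  ⟨⟨fun y => V (cclsex_pt R y), hV.1.comp (cclsex_pt_cont.comp (Continuous.prodMk_right R))⟩,
    fun _ hy => hV.2 _ (cclsex_pt_norm R hy)⟩

theorem cclsex_gl_apply (V : E k → Z) (R : ℝ) (hV : EvC V R z0) (y : Fin k → I) :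
    cclsex_gl V R hV y = V (cclsex_pt R y) := rfl

theorem cclsex_indep_le (V : E k → Z) {R R' : ℝ} (hV : EvC V R z0) (hV' : EvC V R' z0)
    (h : R ≤ R') : cclsex_mk (cclsex_gl V R hV) = cclsex_mk (cclsex_gl V R' hV') := by
  refine cclsex_basic _ _ (fun p => V (cclsex_pt (R + p.1 * (R' - R)) p.2)) ?_ ?_ ?_ ?_
  · refine Continuous.continuousOn (hV.1.comp ?_)
    exact cclsex_pt_cont.comp
      (f := fun p : ℝ × (Fin k → I) => (R + p.1 * (R' - R), p.2)) (by fun_prop)
  · intro t ht y hy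
    refine hV.2 _ (le_trans ?_ (cclsex_pt_norm _ hy))
    have := mul_nonneg ht.1 (sub_nonneg.2 h)
    linarith
  · intro y
    simp [cclsex_gl_apply]
  · intro y
    simp [cclsex_gl_apply]

theorem cclsex_indep (V : E k → Z) {R R' : ℝ} (hV : EvC V R z0) (hV' : EvC V R' z0) :
    cclsex_mk (cclsex_gl V R hV) = cclsex_mk (cclsex_gl V R' hV') := by
  rcases le_total R R' with h | h
  · exact cclsex_indep_le V hV hV' h
  · exact (cclsex_indep_le V hV' hV h).symm

open Classical in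
/-- The class of an eventually constant map. -/
def cclsex_cls (z0 : Z) (V : E k → Z) : HomotopyGroup (Fin k) Z z0 :=
  if h : ∃ R, EvC V R z0 then cclsex_mk (cclsex_gl V h.choose h.choose_spec) else default

theorem cclsex_cls_eq (V : E k → Z) {R : ℝ} (hV : EvC V R z0) :
    cclsex_cls z0 V = cclsex_mk (cclsex_gl V R hV) := by
  have h : ∃ R, EvC V R z0 := ⟨R, hV⟩
  unfold cclsex_cls
  rw [dif_pos h]
  exact cclsex_indep V _ _

theorem cclsex_htpy (H : ℝ × E k → Z) (R : ℝ) (hH : ContinuousOn H (Icc 0 1 ×ˢ univ))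
    (hb : ∀ t ∈ Icc (0 : ℝ) 1, ∀ x, R ≤ ‖x‖ → H (t, x) = z0) :
    cclsex_cls z0 (fun x => H (0, x)) = cclsex_cls z0 (fun x => H (1, x)) := by
  have e : ∀ t ∈ Icc (0 : ℝ) 1, EvC (fun x => H (t, x)) R z0 := fun t ht =>
    ⟨hH.comp_continuous (by fun_prop) fun x => ⟨ht, mem_univ _⟩, hb t ht⟩
  rw [cclsex_cls_eq _ (e 0 ⟨le_rfl, zero_le_one⟩), cclsex_cls_eq _ (e 1 ⟨zero_le_one, le_rfl⟩)]
  refine cclsex_basic _ _ (fun p => H (p.1, cclsex_pt R p.2)) ?_ ?_ (fun _ => rfl) (fun _ => rfl)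
  · refine hH.comp (Continuous.continuousOn ?_) fun p hp => ⟨hp.1, mem_univ _⟩
    exact continuous_fst.prodMk
      (cclsex_pt_cont.comp (f := fun p : ℝ × (Fin k → I) => (R, p.2)) (by fun_prop))
  · intro t ht y hy
    exact hb t ht _ (cclsex_pt_norm R hy)

theorem cclsex_gl_rf (V : E k → Z) {R : ℝ} (hV : EvC V R z0) (i : Fin k) :
    cclsex_gl (V ∘ rf i) R (hV.rf i) = GenLoop.symmAt i (cclsex_gl V R hV) := by
  ext y
  change V (rf i (cclsex_pt R y)) =
    V (cclsex_pt R fun l => if l = i then unitInterval.symm (y i) else y l)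
  congr 1
  funext l
  by_cases h : l = i
  · subst h
    simp only [rf, cclsex_pt, Function.update_self, if_true, unitInterval.coe_symm_eq]
    ring
  · simp only [rf, cclsex_pt, Function.update_of_ne h, if_neg h]

theorem cclsex_gl_bk (V : E k → Z) {R : ℝ} (hR : 0 < R) (hV : EvC V R z0) (x : E k) :
    cclsex_gl V R hV (cclsex_bk R x) = V x := by
  rcases le_total ‖x‖ R with h | h
  · rw [cclsex_gl_apply, cclsex_pt_bk hR h]
  · rw [hV.2 x h]
    exact (cclsex_gl V R hV).2 _ (cclsex_bk_bdry hR h)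

theorem cclsex_inj (V W : E k → Z) {R : ℝ} (hR : 0 < R) (hV : EvC V R z0) (hW : EvC W R z0)
    (h : cclsex_cls z0 V = cclsex_cls z0 W) :
    ∃ H : ℝ × E k → Z, Continuous H ∧ (∀ x, H (0, x) = V x) ∧ (∀ x, H (1, x) = W x) ∧
      ∀ t x, R ≤ ‖x‖ → H (t, x) = z0 := by
  rw [cclsex_cls_eq _ hV, cclsex_cls_eq _ hW] at h
  obtain ⟨K⟩ : GenLoop.Homotopic (cclsex_gl V R hV) (cclsex_gl W R hW) := Quotient.exact h
  refine ⟨fun p => K (Set.projIcc 0 1 zero_le_one p.1, cclsex_bk R p.2), ?_, ?_, ?_, ?_⟩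
  · exact K.continuous.comp
      ((continuous_projIcc.comp continuous_fst).prodMk ((cclsex_bk_cont R).comp continuous_snd))
  · intro x
    have e : Set.projIcc (0 : ℝ) 1 zero_le_one 0 = (0 : I) := Set.projIcc_left _
    simp only [e]
    exact (K.apply_zero _).trans (cclsex_gl_bk V hR hV x)
  · intro x
    have e : Set.projIcc (0 : ℝ) 1 zero_le_one 1 = (1 : I) := Set.projIcc_right _
    simp only [e]
    exact (K.apply_one _).trans (cclsex_gl_bk W hR hW x)
  · intro t x hx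
    have hb := cclsex_bk_bdry hR hx
    exact (K.eq_fst _ hb).trans ((cclsex_gl V R hV).2 _ hb)

theorem cclsex_real (a : HomotopyGroup (Fin k) Z z0) :
    ∃ V : E k → Z, EvC V 1 z0 ∧ cclsex_cls z0 V = a := by
  obtain ⟨f⟩ := a
  have hV : EvC (fun x : E k => f (cclsex_bk 1 x)) 1 z0 :=
    ⟨f.1.continuous.comp (cclsex_bk_cont 1), fun x hx => f.2 _ (cclsex_bk_bdry one_pos hx)⟩
  refine ⟨_, hV, ?_⟩
  rw [cclsex_cls_eq _ hV]
  have e : cclsex_gl _ 1 hV = f := by
    ext y
    rw [cclsex_gl_apply, cclsex_bk_pt one_pos]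
  rw [e]
  rfl

/-- The affine map from the unit cube to a slab of the cube of radius `R`. -/
def cclsex_sl (R a b : ℝ) (y : Fin (k + 1) → I) : E (k + 1) :=
  Function.update (cclsex_pt R y) 0 (a + (y 0 : ℝ) * (b - a))

theorem cclsex_sl_cont (R : ℝ) :
    Continuous fun p : (ℝ × ℝ) × (Fin (k + 1) → I) => cclsex_sl R p.1.1 p.1.2 p.2 := by
  unfold cclsex_sl
  refine Continuous.update ?_ 0 (by fun_prop)
  exact cclsex_pt_cont.comp
    (f := fun p : (ℝ × ℝ) × (Fin (k + 1) → I) => (R, p.2)) (by fun_prop)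

theorem cclsex_sl_bdry {W : E (k + 1) → Z} {R a b : ℝ} (hW : EvC W R z0)
    (ha : ∀ x, x 0 = a → W x = z0) (hb : ∀ x, x 0 = b → W x = z0) {y : Fin (k + 1) → I}
    (hy : y ∈ Cube.boundary (Fin (k + 1))) : W (cclsex_sl R a b y) = z0 := by
  obtain ⟨i, h⟩ := hy
  by_cases hi : i = 0
  · subst hi
    rcases h with h | h
    · apply ha
      simp [cclsex_sl, h]
    · apply hb
      simp [cclsex_sl, h]
  · refine hW.2 _ (cclsex_le_norm i ?_)
    unfold cclsex_sl
    rw [Function.update_of_ne hi]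
    exact cclsex_pt_coord R h

theorem cclsex_sl_full (R : ℝ) (y : Fin (k + 1) → I) :
    cclsex_sl R (-R) R y = cclsex_pt R y := by
  unfold cclsex_sl
  rw [Function.update_eq_self_iff]
  unfold cclsex_pt
  ring

/-- The generalized loop of a slab. -/
def cclsex_half (W : E (k + 1) → Z) (R a b : ℝ) (hW : EvC W R z0)
    (ha : ∀ x, x 0 = a → W x = z0) (hb : ∀ x, x 0 = b → W x = z0) :
    GenLoop (Fin (k + 1)) Z z0 :=
  ⟨⟨fun y => W (cclsex_sl R a b y),
    hW.1.comp ((cclsex_sl_cont R).comp (Continuous.prodMk_right (a, b)))⟩,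
    fun _ hy => cclsex_sl_bdry hW ha hb hy⟩

theorem cclsex_half_eq (W : E (k + 1) → Z) (R a b : ℝ) (hW : EvC W R z0)
    (ha : ∀ x, x 0 = a → W x = z0) (hb : ∀ x, x 0 = b → W x = z0)
    (ha' : ∀ t ∈ Icc (0 : ℝ) 1, ∀ x, x 0 = a + t * (-R - a) → W x = z0)
    (hb' : ∀ t ∈ Icc (0 : ℝ) 1, ∀ x, x 0 = b + t * (R - b) → W x = z0) :
    cclsex_mk (cclsex_half W R a b hW ha hb) = cclsex_mk (cclsex_gl W R hW) := by
  refine cclsex_basic _ _
    (fun p => W (cclsex_sl R (a + p.1 * (-R - a)) (b + p.1 * (R - b)) p.2)) ?_ ?_ ?_ ?_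
  · refine Continuous.continuousOn (hW.1.comp ?_)
    exact (cclsex_sl_cont R).comp (f := fun p : ℝ × (Fin (k + 1) → I) =>
      ((a + p.1 * (-R - a), b + p.1 * (R - b)), p.2)) (by fun_prop)
  · intro t ht y hy
    exact cclsex_sl_bdry hW (ha' t ht) (hb' t ht) hy
  · intro y
    simp only [zero_mul, add_zero]
    rfl
  · intro y
    simp only [one_mul, add_sub_cancel]
    rw [cclsex_sl_full]
    rfl

omit [TopologicalSpace Z] in
theorem cclsex_lo_z {V : E (k + 1) → Z} (h : ∀ x, x 0 = 0 → V x = z0) {x : E (k + 1)}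
    (hx : 0 ≤ x 0) : lo 0 z0 V x = z0 := by
  unfold lo
  split_ifs with h1
  · exact h x (le_antisymm h1 hx)
  · rfl

omit [TopologicalSpace Z] in
theorem cclsex_hi_z {V : E (k + 1) → Z} {x : E (k + 1)} (hx : x 0 ≤ 0) : hi 0 z0 V x = z0 := by
  unfold hi
  rw [if_pos hx]

theorem cclsex_split (V : E (k + 1) → Z) {R : ℝ} (hR : 0 < R) (hV : EvC V R z0)
    (h : ∀ x, x 0 = 0 → V x = z0) :
    ∃ f g : GenLoop (Fin (k + 1)) Z z0, cclsex_cls z0 (lo 0 z0 V) = cclsex_mk f ∧
      cclsex_cls z0 (hi 0 z0 V) = cclsex_mk g ∧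
        cclsex_cls z0 V = cclsex_mk (GenLoop.transAt 0 f g) := by
  have hl := hV.lo h
  have hh := hV.hi h
  have l1 : ∀ x : E (k + 1), x 0 = -R → lo 0 z0 V x = z0 := fun x hx =>
    hl.2 x (cclsex_le_norm 0 (Or.inr hx))
  have l2 : ∀ x : E (k + 1), x 0 = 0 → lo 0 z0 V x = z0 := fun x hx => cclsex_lo_z h hx.ge
  have h1 : ∀ x : E (k + 1), x 0 = 0 → hi 0 z0 V x = z0 := fun x hx => cclsex_hi_z hx.le
  have h2 : ∀ x : E (k + 1), x 0 = R → hi 0 z0 V x = z0 := fun x hx =>
    hh.2 x (cclsex_le_norm 0 (Or.inl hx))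
  refine ⟨cclsex_half _ R (-R) 0 hl l1 l2, cclsex_half _ R 0 R hh h1 h2, ?_, ?_, ?_⟩
  · rw [cclsex_cls_eq _ hl]
    refine (cclsex_half_eq _ R _ _ hl l1 l2 ?_ ?_).symm
    · intro t _ x hx
      exact l1 x (by rw [hx]; ring)
    · intro t ht x hx
      refine cclsex_lo_z h ?_
      rw [hx]
      have := mul_nonneg ht.1 hR.le
      linarith
  · rw [cclsex_cls_eq _ hh]
    refine (cclsex_half_eq _ R _ _ hh h1 h2 ?_ ?_).symm
    · intro t ht x hx
      refine cclsex_hi_z ?_
      rw [hx]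
      have := mul_nonneg ht.1 hR.le
      linarith
    · intro t _ x hx
      exact h2 x (by rw [hx]; ring)
  · rw [cclsex_cls_eq _ hV]
    congr 1
    ext y
    change V (cclsex_pt R y) = if (y 0 : ℝ) ≤ 1 / 2 then
        lo 0 z0 V (cclsex_sl R (-R) 0
          (Function.update y 0 (Set.projIcc 0 1 zero_le_one (2 * (y 0 : ℝ)))))
      else hi 0 z0 V (cclsex_sl R 0 R
          (Function.update y 0 (Set.projIcc 0 1 zero_le_one (2 * (y 0 : ℝ) - 1))))
    have y0 := (y 0).2.1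
    have y1 := (y 0).2.2
    split_ifs with hy
    · have hm : 2 * (y 0 : ℝ) ∈ Icc (0 : ℝ) 1 := ⟨by linarith, by linarith⟩
      have e : cclsex_sl R (-R) 0
          (Function.update y 0 (Set.projIcc 0 1 zero_le_one (2 * (y 0 : ℝ)))) = cclsex_pt R y := by
        funext l
        by_cases hl0 : l = 0
        · subst hl0
          simp only [cclsex_sl, cclsex_pt, Function.update_self, Set.projIcc_of_mem _ hm]
          ring
        · simp only [cclsex_sl, cclsex_pt, Function.update_of_ne hl0]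
      rw [e]
      unfold lo
      rw [if_pos]
      unfold cclsex_pt
      exact mul_nonpos_of_nonneg_of_nonpos hR.le (by linarith)
    · push Not at hy
      have hm : 2 * (y 0 : ℝ) - 1 ∈ Icc (0 : ℝ) 1 := ⟨by linarith, by linarith⟩
      have e : cclsex_sl R 0 R
          (Function.update y 0 (Set.projIcc 0 1 zero_le_one (2 * (y 0 : ℝ) - 1))) =
            cclsex_pt R y := by
        funext l
        by_cases hl0 : l = 0
        · subst hl0
          simp only [cclsex_sl, cclsex_pt, Function.update_self, Set.projIcc_of_mem _ hm]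
          ring
        · simp only [cclsex_sl, cclsex_pt, Function.update_of_ne hl0]
      rw [e]
      unfold hi
      rw [if_neg]
      unfold cclsex_pt
      exact not_le.2 (mul_pos hR (by linarith))

theorem cclsex_mul [Nonempty (Fin k)] (i : Fin k) (f g : GenLoop (Fin k) Z z0) :
    cclsex_mk (GenLoop.transAt i f g) = cclsex_mk g * cclsex_mk f :=
  (HomotopyGroup.mul_spec (i := i) (p := g) (q := f)).symm

theorem cclsex_inv [Nonempty (Fin k)] (i : Fin k) (f : GenLoop (Fin k) Z z0) :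
    cclsex_mk (GenLoop.symmAt i f) = (cclsex_mk f)⁻¹ :=
  (HomotopyGroup.inv_spec (i := i) (p := f)).symm

theorem cclsex_comm [Nontrivial (Fin k)] (a b : HomotopyGroup (Fin k) Z z0) :
    (HomotopyGroup.group (Fin k)).mul a b = (HomotopyGroup.group (Fin k)).mul b a :=
  (HomotopyGroup.commGroup (N := Fin k) (X := Z) (x := z0)).mul_comm a b

end aux

/-- `A = Additive (HomotopyGroup (Fin (j + 1)) Z z0)`, commutative by `HomotopyGroup.commGroup`
(`Fin (j + 1)` is nontrivial). For `EvC V R z0` let `gl V R` be the `GenLoop`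
`y ↦ V (R • (2 y - 1))`; `cls V` is its class for a chosen `R > 0` (junk `0`).
Basic lemma: a family `G : ℝ × (Fin (j+1) → I) → Z`, continuous on `[0,1] × univ`, equal to `z0`
on `Cube.boundary`, gives equal classes at `0` and `1`. It gives independence of `R`
(`R t = R + t (R' - R)`), `htpy`, and the comparison of `lo 0 z0 V` with the first half of `gl V R`
(coordinate `0` runs through `-R + y 0 * R * (1 + t)`). `split`: `HomotopyGroup.mul_spec` with
`GenLoop.transAt 0`; `refl`: `HomotopyGroup.inv_spec` with `GenLoop.symmAt i`; `inj`, `real`: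
compose with `x ↦ fun i => Set.projIcc 0 1 _ ((x i / R + 1) / 2)`, which lies in the boundary
when `R ≤ ‖x‖`. -/
theorem exists_cls {Z : Type} [TopologicalSpace Z] (z0 : Z) {j : ℕ} (hj : 1 ≤ j) :
    ∃ (A : Type) (_ : AddCommGroup A), Nonempty (Cls z0 j A) := by
  have : Nontrivial (Fin (j + 1)) := Fin.nontrivial_iff_two_le.2 (by omega)
  let G : CommGroup (HomotopyGroup (Fin (j + 1)) Z z0) :=
    { HomotopyGroup.group (Fin (j + 1)) with mul_comm := cclsex_comm }
  refine ⟨Additive (HomotopyGroup (Fin (j + 1)) Z z0), inferInstance, ⟨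
    { cls := fun V => Additive.ofMul (cclsex_cls z0 V)
      htpy := fun H R hH hb => congrArg Additive.ofMul (cclsex_htpy H R hH hb)
      split := ?_
      refl := ?_
      inj := fun V W R hR hV hW h => cclsex_inj V W hR hV hW (Additive.ofMul.injective h)
      real := fun a => ?_ }⟩⟩
  · intro V R hV h
    obtain ⟨f, g, e1, e2, e3⟩ :=
      cclsex_split V (lt_max_of_lt_right one_pos : 0 < max R 1) (hV.mono (le_max_left _ _)) h
    rw [e1, e2, e3, cclsex_mul]
    exact congrArg Additive.ofMul (cclsex_comm _ _)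
  · intro V R i hV
    rw [cclsex_cls_eq _ (hV.rf i), cclsex_cls_eq _ hV, cclsex_gl_rf V hV, cclsex_inv]
    rfl
  · obtain ⟨V, hV, e⟩ := cclsex_real (Additive.toMul a)
    exact ⟨V, hV, congrArg Additive.ofMul e⟩

end Pool.Agent.Lib.MP_5ceaf9_gt.OC
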