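import Pool.Agent.Lib.MP_5ceaf9_gt.CML

noncomputable section

namespace Pool.Agent.Lib.MP_5ceaf9_gt.OC

open Set

variable {Z Γ : Type} [TopologicalSpace Z] [Group Γ] {h : Hol Z Γ}

theorem ccone_smul {m : ℕ} {w : E m} (hw : w ≠ 0) {r a : ℝ} (h1 : 1 ≤ r)
    (ha : max (-1) (min 1 (2 - r)) = a) (hb : max 0 (min 1 (4 - r)) = ‖w‖) :
    ‖(r / ‖w‖) • w‖ = r ∧ kap ((r / ‖w‖) • w) = Fin.cons a w := by
  have h0 : 0 < ‖w‖ := norm_pos_iff.2 hw
  have h2 : 0 < r := by linarith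
  have e : ‖(r / ‖w‖) • w‖ = r := by
    rw [norm_smul, Real.norm_of_nonneg (by positivity), div_mul_cancel₀ _ h0.ne']
  refine ⟨e, ?_⟩
  rw [kap, e, ha, hb, max_eq_right h1, smul_smul, div_mul_div_comm, mul_comm ‖w‖,
    div_self (by positivity), one_smul]

/-- For `y` on the sphere put `r = 2 - y 0 * (2 - ‖tail y‖)` and `x = (r / ‖tail y‖) • tail y`
(if `tail y = 0`: `x = 0` or any point of norm `4`). -/
theorem kap_surj {m : ℕ} {y : E (m + 2)} (hy : ‖y‖ = 1) :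
    ∃ x : E (m + 1), ‖x‖ ≤ 4 ∧ kap x = y := by
  obtain ⟨a, w, rfl⟩ : ∃ (a : ℝ) (w : E (m + 1)), y = Fin.cons a w :=
    ⟨y 0, Fin.tail y, (Fin.cons_self_tail y).symm⟩
  rw [norm_cons] at hy
  have h1 : |a| ≤ 1 := hy ▸ le_max_left _ _
  have h2 : ‖w‖ ≤ 1 := hy ▸ le_max_right _ _
  have h3 := abs_le.1 h1
  rcases max_choice |a| ‖w‖ with e | e <;> rw [hy] at e
  · rcases (abs_eq zero_le_one).1 e.symm with rfl | rfl
    · exact ⟨w, by linarith, kap_of_le h2⟩
    · rcases eq_or_ne w 0 with rfl | hw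
      · have h4 : ‖(fun _ => 4 : E (m + 1))‖ = 4 := by
          rw [pi_norm_const, Real.norm_of_nonneg (by norm_num)]
        exact ⟨_, h4.le, kap_of_ge h4.ge⟩
      · have h0 := norm_nonneg w
        obtain ⟨e1, e2⟩ := ccone_smul hw (r := 4 - ‖w‖) (a := -1) (by linarith)
          (max_eq_left ((min_le_right _ _).trans (by linarith)))
          (by rw [sub_sub_cancel, min_eq_right h2, max_eq_right h0])
        exact ⟨_, by linarith, e2⟩
  · obtain ⟨e1, e2⟩ := ccone_smul (w := w) (norm_ne_zero_iff.1 (e ▸ one_ne_zero)) (r := 2 - a)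
      (a := a) (by linarith) (by rw [sub_sub_cancel, min_eq_right h3.2, max_eq_right h3.1])
      (by rw [min_eq_left (by linarith), max_eq_right zero_le_one, e])
    exact ⟨_, by linarith, e2⟩

theorem ccone_rad {m : ℕ} {x : E m} (hx : ‖x‖ ≤ 4) :
    ‖x‖ = 2 - kap x 0 * (2 - ‖Fin.tail (kap x)‖) := by
  have h0 := norm_nonneg x
  rw [kap, Fin.cons_zero, Fin.tail_cons, norm_smul, Real.norm_of_nonneg (by positivity)]
  generalize ‖x‖ = r at hx h0
  rcases le_total r 1 with h1 | h1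
  · rw [min_eq_left (by linarith), min_eq_left (by linarith), max_eq_left h1,
      max_eq_right (by norm_num), max_eq_right zero_le_one]
    ring
  rw [max_eq_right h1, div_mul_cancel₀ _ (by linarith), min_eq_right (by linarith)]
  rcases le_total r 3 with h3 | h3
  · rw [max_eq_right (by linarith), min_eq_left (by linarith), max_eq_right zero_le_one]
    ring
  · rw [max_eq_left (by linarith), min_eq_right (by linarith), max_eq_right (by linarith)]
    ring

/-- `‖x‖ = 2 - y 0 * (2 - ‖tail y‖)` for `y = kap x`, `‖x‖ ≤ 4`. -/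
theorem kap_inj {m : ℕ} {x x' : E m} (hx : ‖x‖ ≤ 4) (hx' : ‖x'‖ ≤ 4) (he : kap x = kap x') :
    x = x' ∨ (‖x‖ = 4 ∧ ‖x'‖ = 4) := by
  have e : ‖x'‖ = ‖x‖ := by rw [ccone_rad hx, ccone_rad hx', he]
  rcases hx.eq_or_lt with h4 | h4
  · exact Or.inr ⟨h4, e.trans h4⟩
  · have h1 := congrArg Fin.tail he
    rw [kap, kap, Fin.tail_cons, Fin.tail_cons, e] at h1
    have h2 : 0 < min 1 (4 - ‖x‖) := lt_min one_pos (by linarith)
    exact Or.inl (smul_right_injective _
      (div_pos (h2.trans_le (le_max_right _ _)) (one_pos.trans_le (le_max_left _ _))).ne' h1)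

theorem ccone_norm {m : ℕ} {t : ℝ} (ht : t ≤ 1) (x : E m) : ‖(1 - t) • kap x‖ = 1 - t := by
  rw [norm_smul, norm_kap, mul_one, Real.norm_of_nonneg (by linarith)]

/-- The map `(t, x) ↦ (1 - t) • kap x` from the compact set `[0,1] × closedBall 0 4` onto the unit
ball is a closed continuous surjection, so a quotient map, and `H` is constant on its fibres. -/
theorem cone {m : ℕ} {g : E (m + 2) → Z} {H : ℝ × E (m + 1) → Z} {z : Z} (hH : Continuous H)
    (h0 : ∀ x, H (0, x) = g (kap x)) (h1 : ∀ x, H (1, x) = z)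
    (h4 : ∀ t x, 4 ≤ ‖x‖ → H (t, x) = z) :
    ∃ G : E (m + 2) → Z, ContinuousOn G (Metric.closedBall 0 1) ∧ ∀ y, ‖y‖ = 1 → G y = g y := by
  obtain ⟨q, hq⟩ : ∃ q : ℝ × E (m + 1) → E (m + 2), q = fun p => (1 - p.1) • kap p.2 := ⟨_, rfl⟩
  obtain ⟨K, hK⟩ : ∃ K : Set (ℝ × E (m + 1)), K = Icc 0 1 ×ˢ Metric.closedBall 0 4 := ⟨_, rfl⟩
  have cq : Continuous q := by
    rw [hq]
    exact (continuous_const.sub continuous_fst).smul (continuous_kap.comp continuous_snd)
  have cK : IsCompact K := hK ▸ isCompact_Icc.prod (isCompact_closedBall _ _)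
  have mK : ∀ t x, (t, x) ∈ K ↔ (0 ≤ t ∧ t ≤ 1) ∧ ‖x‖ ≤ 4 := fun t x => by
    rw [hK, mem_prod, mem_Icc, mem_closedBall_zero_iff]
  have fib : ∀ p ∈ K, ∀ p' ∈ K, q p = q p' → H p = H p' := by
    rintro ⟨t, x⟩ hp ⟨t', x'⟩ hp' e
    rw [mK] at hp hp'
    rw [hq] at e
    have e1 := congrArg norm e
    dsimp only at e e1
    rw [ccone_norm hp.1.2, ccone_norm hp'.1.2, sub_right_inj] at e1
    subst e1
    rcases hp.1.2.eq_or_lt with rfl | ht
    · rw [h1, h1]
    · rcases kap_inj hp.2 hp'.2 (smul_right_injective _ (sub_pos.2 ht).ne' e) with rfl | h5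
      · rfl
      · rw [h4 _ _ h5.1.ge, h4 _ _ h5.2.ge]
  have key : ∀ p ∈ K, H (Function.invFunOn q K (q p)) = H p := fun p hp =>
    fib _ (Function.invFunOn_apply_mem hp) p hp (Function.invFunOn_apply_eq hp)
  have sur : ∀ y ∈ Metric.closedBall (0 : E (m + 2)) 1, ∃ p ∈ K, q p = y := fun y hy => by
    rw [mem_closedBall_zero_iff] at hy
    rcases eq_or_ne y 0 with rfl | h5
    · exact ⟨(1, 0), (mK _ _).2 ⟨⟨zero_le_one, le_rfl⟩, by simp⟩, by simp [hq]⟩
    · have h6 : 0 < ‖y‖ := norm_pos_iff.2 h5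
      obtain ⟨x, hx, e⟩ := kap_surj (y := ‖y‖⁻¹ • y) (norm_smul_inv_norm (𝕜 := ℝ) h5)
      refine ⟨(1 - ‖y‖, x), (mK _ _).2 ⟨⟨by linarith, by linarith⟩, hx⟩, ?_⟩
      rw [hq]
      dsimp only
      rw [e, sub_sub_cancel, smul_inv_smul₀ h6.ne']
  refine ⟨fun y => H (Function.invFunOn q K y), continuousOn_iff_isClosed.2 fun T hT =>
    ⟨q '' (K ∩ H ⁻¹' T), ((cK.inter_right (hT.preimage hH)).image cq).isClosed, ?_⟩,
    fun y hy => ?_⟩
  · ext y
    refine and_congr_left fun hy => ⟨fun h5 => ?_, ?_⟩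
    · obtain ⟨p, hp, rfl⟩ := sur y hy
      exact ⟨p, ⟨hp, by rwa [mem_preimage, key p hp] at h5⟩, rfl⟩
    · rintro ⟨p, hp, rfl⟩
      rw [mem_preimage, key p hp.1]
      exact hp.2
  · obtain ⟨x, hx, rfl⟩ := kap_surj hy
    have e : q (0, x) = kap x := by simp [hq]
    rw [← h0, ← key (0, x) ((mK _ _).2 ⟨⟨le_rfl, zero_le_one⟩, hx⟩), e]

theorem evc_kap {m : ℕ} {g : E (m + 1) → Z} (hg : ContinuousOn g (Metric.sphere 0 1)) :
    EvC (g ∘ kap) 4 (g (south m)) :=
  ⟨hg.comp_continuous continuous_kap fun x => mem_sphere_zero_iff_norm.2 (norm_kap x),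
    fun _ hx => congrArg g (kap_of_ge hx)⟩

/-- The loop `t ↦ kap (fun _ => 8 t - 4)` has holonomy one by `Lab.path`; `Hol.null`, `cone`
with `H (s, x) = N (max 0 (min 1 ((x 0 + 4) / 8)), s)`. -/
theorem ext_square {g : E 2 → Z} {lam : E 2 → Γ} (hl : Lab h g lam) :
    ∃ G : E 2 → Z, ContinuousOn G (Metric.closedBall 0 1) ∧ ∀ y, ‖y‖ = 1 → G y = g y := by
  have hn : ∀ c : ℝ, ‖(fun _ => c : E 1)‖ = |c| := fun c => pi_norm_const c
  have hx : ∀ x : E 1, (fun _ => x 0) = x := fun x =>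
    funext fun i => congrArg x (Subsingleton.elim _ _)
  have hs : ∀ c : ℝ, 4 ≤ |c| → kap (fun _ => c : E 1) = south 1 := fun c hc =>
    kap_of_ge (hn c ▸ hc)
  have cτ : Continuous fun t : ℝ => kap (fun _ => 8 * t - 4 : E 1) :=
    continuous_kap.comp (by fun_prop)
  have mτ : MapsTo (fun t : ℝ => kap (fun _ => 8 * t - 4 : E 1)) (Icc 0 1) (Metric.sphere 0 1) :=
    fun t _ => mem_sphere_zero_iff_norm.2 (norm_kap _)
  have e0 := hs (8 * 0 - 4) (by norm_num)
  have e1 := hs (8 * 1 - 4) (by norm_num)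
  have h1 := hl.path _ cτ.continuousOn mτ
  rw [e0, e1, mul_eq_left] at h1
  obtain ⟨N, cN, n0, n1, n2, n3⟩ := h.null _ (hl.cont.comp cτ.continuousOn mτ)
    (congrArg g (e1.trans e0.symm)) h1
  have far : ∀ (s : ℝ) (x : E 1), 4 ≤ ‖x‖ →
      N (max 0 (min 1 ((x 0 + 4) / 8)), s) = g (kap (fun _ => 8 * 0 - 4 : E 1)) := fun s x h4 => by
    rw [← hx x, hn] at h4
    rcases le_abs.1 h4 with h5 | h5
    · rw [min_eq_left (by linarith), max_eq_right zero_le_one]
      exact n3 s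
    · rw [max_eq_left ((min_le_right _ _).trans (by linarith))]
      exact n2 s
  refine cone (m := 0) (H := fun p => N (max 0 (min 1 ((p.2 0 + 4) / 8)), p.1))
    (cN.comp (by fun_prop)) (fun x => ?_) (fun x => n1 _) far
  rcases le_total 4 ‖x‖ with h4 | h4
  · rw [far 0 x h4, e0, kap_of_ge h4]
  · rw [← hx x, hn] at h4
    have h5 := abs_le.1 h4
    dsimp only
    rw [min_eq_right (by linarith), max_eq_right (by linarith), n0 _ ⟨by linarith, by linarith⟩,
      Function.comp_apply, show 8 * ((x 0 + 4) / 8) - 4 = x 0 by ring, hx]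

variable {j : ℕ} {A : Type} [AddCommGroup A] [DistribMulAction Γ A] (F : FC h j A)

theorem FC.oo_congr {g g' : E (j + 2) → Z} (he : ∀ y, ‖y‖ = 1 → g y = g' y) :
    F.oo g = F.oo g' :=
  congrArg F.fc (funext fun x => he _ (norm_kap x))

theorem FC.oo_zero {G : E (j + 2) → Z} (hG : ContinuousOn G (Metric.closedBall 0 1)) :
    F.oo G = 0 := by
  have hm : Mv h (G ∘ kap) (h.hol fun t => G ((1 - t) • south (j + 1))) fun _ => G 0 :=
    ⟨fun p => G ((1 - p.1) • kap p.2), _, 4, hG.comp ((continuous_const.sub continuous_fst).smul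
      (continuous_kap.comp continuous_snd)).continuousOn fun p hp => by
        rw [mem_closedBall_zero_iff, ccone_norm hp.1.2]
        linarith [hp.1.1],
      fun t _ x hx => by simp only [kap_of_ge hx], fun x => by simp, fun x => by simp, rfl⟩
  rw [FC.oo, F.htpy _ _ _ hm, F.const, smul_zero]

theorem FC.ext_of_oo {g : E (j + 2) → Z} (hg : ContinuousOn g (Metric.sphere 0 1))
    (h0 : F.oo g = 0) :
    ∃ G : E (j + 2) → Z, ContinuousOn G (Metric.closedBall 0 1) ∧ ∀ y, ‖y‖ = 1 → G y = g y := by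
  obtain ⟨H, hH, a0, a1, a4⟩ := F.null _ 4 _ (by norm_num) (evc_kap hg) h0
  exact cone hH a0 a1 a4

end Pool.Agent.Lib.MP_5ceaf9_gt.OC
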