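import Pool.Agent.Lib.MP_5ceaf9_gt.CAlg

noncomputable section

namespace Pool.Agent.Lib.MP_5ceaf9_gt.OC

open Set

variable {n : ℕ} {η : Fin n → Bool} {K L : Finset (Lat n)}

theorem mem_cyl {e : Lat (n + 1)} :
    e ∈ cyl L ↔ (e 0 = -1 ∨ e 0 = 0 ∨ e 0 = 1) ∧ Fin.tail e ∈ L := by
  unfold cyl
  rw [Finset.mem_image]
  constructor
  · rintro ⟨q, hq, rfl⟩
    rw [Finset.mem_product] at hq
    simpa using hq
  · rintro ⟨h1, h2⟩
    exact ⟨(e 0, Fin.tail e), Finset.mem_product.2 ⟨by simpa using h1, h2⟩, Fin.cons_self_tail e⟩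

theorem mem_cylQ {e : Lat (n + 1)} :
    e ∈ cylQ K L ↔ e ∈ cyl L ∧ (e 0 ≠ 0 ∨ Fin.tail e ∈ K) := by
  unfold cylQ
  rw [Finset.mem_filter]

theorem fl_cons {X : Type} [Neg X] (a : X) (x : Fin n → X) :
    fl (cη η) (Fin.cons a x : Fin (n + 1) → X) = Fin.cons a (fl η x) := by
  funext i
  refine Fin.cases ?_ (fun j => ?_) i
  · simp [fl, cη]
  · simp [fl, cη]

theorem le1_cons {s t : ℤ} {a b : Lat n} :
    le1 (Fin.cons s a : Lat (n + 1)) (Fin.cons t b) ↔ le0 s t ∧ le1 a b := by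
  unfold le1
  rw [Fin.forall_fin_succ]
  simp only [Fin.cons_zero, Fin.cons_succ]

theorem ccyla_cons (e : Lat (n + 1)) : ∃ (s : ℤ) (a : Lat n), e = Fin.cons s a :=
  ⟨e 0, Fin.tail e, (Fin.cons_self_tail e).symm⟩

theorem ccyla_mem {s : ℤ} {a : Lat n} :
    (Fin.cons s a : Lat (n + 1)) ∈ cyl L ↔ (s = -1 ∨ s = 0 ∨ s = 1) ∧ a ∈ L := by
  rw [mem_cyl, Fin.cons_zero, Fin.tail_cons]

theorem ccyla_memQ {s : ℤ} {a : Lat n} : (Fin.cons s a : Lat (n + 1)) ∈ cylQ K L ↔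
    ((s = -1 ∨ s = 0 ∨ s = 1) ∧ a ∈ L) ∧ (s ≠ 0 ∨ a ∈ K) := by
  rw [mem_cylQ, ccyla_mem, Fin.cons_zero, Fin.tail_cons]

theorem ccyla_inv (h : Invt η K) (a : Lat n) : fl η a ∈ K ↔ a ∈ K :=
  ⟨fun k => fl_fl η a ▸ h _ k, h a⟩

theorem Pair.cyl (hp : Pair η K L) : Pair (cη η) (cylQ K L) (cyl L) := by
  refine ⟨Finset.filter_subset _ _, fun e he e' hle => ?_, fun e he e' hle => ?_,
    fun e he => ?_, fun e he => ?_, fun e he h => ?_⟩
  · obtain ⟨s, a, rfl⟩ := ccyla_cons e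
    obtain ⟨t, b, rfl⟩ := ccyla_cons e'
    rw [ccyla_memQ] at he ⊢
    rw [le1_cons, le0] at hle
    refine ⟨⟨by omega, hp.uP a he.1.2 b hle.2⟩, ?_⟩
    rcases he.2 with h | h
    · exact Or.inl (by omega)
    · exact Or.inr (hp.uQ a h b hle.2)
  · obtain ⟨s, a, rfl⟩ := ccyla_cons e
    obtain ⟨t, b, rfl⟩ := ccyla_cons e'
    rw [ccyla_mem] at he ⊢
    rw [le1_cons, le0] at hle
    exact ⟨by omega, hp.uP a he.2 b hle.2⟩
  · obtain ⟨s, a, rfl⟩ := ccyla_cons e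
    rw [fl_cons, ccyla_memQ]
    rw [ccyla_memQ] at he
    exact ⟨⟨he.1.1, hp.iP a he.1.2⟩, he.2.imp_right (hp.iQ a)⟩
  · obtain ⟨s, a, rfl⟩ := ccyla_cons e
    rw [fl_cons, ccyla_mem]
    rw [ccyla_mem] at he
    exact ⟨he.1, hp.iP a he.2⟩
  · obtain ⟨s, a, rfl⟩ := ccyla_cons e
    rw [fl_cons] at h
    exact hp.free a (ccyla_mem.1 he).2 (Fin.cons_right_injective _ h)

/-- Write `(s, a)` for `Fin.cons s a`. Let `cp a b = c (1,a) (1,b)`, `cm a b = c (-1,a) (-1,b)`,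
`gp a = c (0,a) (1,a)`, `gm a = c (0,a) (-1,a)`, `w a = if a ∈ K then (gp a)⁻¹ * gm a else 1`.
`E2` for `cp` and `w a * cm a b * (w b)⁻¹` gives `g`. Take
`c' e e' = u e * cp (tail e) (tail e') * (u e')⁻¹` with `u (-1, a) = (w a)⁻¹ * g a`,
`u (0, a) = if a ∈ K then gp a else 1` and `u = 1` otherwise. -/
theorem e1_cyl (hp : Pair η K L) (h2 : E2 η K L) : E1 (cη η) (cylQ K L) (cyl L) := by
  intro Γ _ c hi hf
  have iv : ∀ (s t : ℤ) (a b : Lat n), c (Fin.cons s (fl η a)) (Fin.cons t (fl η b)) =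
      c (Fin.cons s a) (Fin.cons t b) := fun s t a b => by rw [← fl_cons, ← fl_cons, hi]
  have l0 : ∀ s : ℤ, le0 s s := fun s => Or.inl rfl
  have fe : ∀ s : ℤ, s = -1 ∨ s = 1 →
      FlatL L fun a b => c (Fin.cons s a) (Fin.cons s b) := fun s hs a ha b hb d hd h1 h2 =>
    hf _ (ccyla_memQ.2 ⟨⟨by omega, ha⟩, Or.inl (by omega)⟩) _
      (ccyla_memQ.2 ⟨⟨by omega, hb⟩, Or.inl (by omega)⟩) _
      (ccyla_memQ.2 ⟨⟨by omega, hd⟩, Or.inl (by omega)⟩) (le1_cons.2 ⟨l0 s, h1⟩)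
      (le1_cons.2 ⟨l0 s, h2⟩)
  have sq : ∀ s : ℤ, s = -1 ∨ s = 1 → ∀ a ∈ K, ∀ b ∈ K, le1 a b →
      c (Fin.cons 0 a) (Fin.cons s a) * c (Fin.cons s a) (Fin.cons s b) =
        c (Fin.cons 0 a) (Fin.cons s b) ∧
      c (Fin.cons 0 a) (Fin.cons 0 b) * c (Fin.cons 0 b) (Fin.cons s b) =
        c (Fin.cons 0 a) (Fin.cons s b) := by
    intro s hs a ha b hb hab
    have m : ∀ t : ℤ, t = -1 ∨ t = 0 ∨ t = 1 → ∀ d ∈ K,
        (Fin.cons t d : Lat (n + 1)) ∈ cylQ K L :=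
      fun t ht d hd => ccyla_memQ.2 ⟨⟨ht, hp.sub hd⟩, Or.inr hd⟩
    have l1 : le0 0 s := Or.inr (by omega)
    exact ⟨hf _ (m 0 (by omega) a ha) _ (m s (by omega) a ha) _ (m s (by omega) b hb)
        (le1_cons.2 ⟨l1, le1_refl a⟩) (le1_cons.2 ⟨l0 s, hab⟩),
      hf _ (m 0 (by omega) a ha) _ (m 0 (by omega) b hb) _ (m s (by omega) b hb)
        (le1_cons.2 ⟨l0 0, hab⟩) (le1_cons.2 ⟨l1, le1_refl b⟩)⟩
  obtain ⟨w, hw⟩ : ∃ w : Lat n → Γ, w = fun a => if a ∈ K then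
    (c (Fin.cons 0 a) (Fin.cons 1 a))⁻¹ * c (Fin.cons 0 a) (Fin.cons (-1) a) else 1 := ⟨_, rfl⟩
  have w1 : ∀ a, w (fl η a) = w a := fun a => by simp only [hw, ccyla_inv hp.iQ, iv]
  have w2 : ∀ a ∈ K, w a =
      (c (Fin.cons 0 a) (Fin.cons 1 a))⁻¹ * c (Fin.cons 0 a) (Fin.cons (-1) a) :=
    fun a ha => by simp only [hw, if_pos ha]
  obtain ⟨g, g1, g2, g3⟩ := h2 Γ (fun a b => c (Fin.cons 1 a) (Fin.cons 1 b))
    (fun a b => w a * c (Fin.cons (-1) a) (Fin.cons (-1) b) * (w b)⁻¹) (fun a b => iv _ _ a b)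
    (fun a b => by simp only [w1, iv]) (fe 1 (Or.inr rfl))
    (fun a ha b hb d hd h1 h2 => by
      have k := fe (-1) (Or.inl rfl) a ha b hb d hd h1 h2
      dsimp only at k ⊢
      rw [← k]
      group)
    (fun a ha b hb hab => by
      obtain ⟨k1, k2⟩ := sq 1 (Or.inr rfl) a ha b hb hab
      obtain ⟨k3, k4⟩ := sq (-1) (Or.inl rfl) a ha b hb hab
      dsimp only
      rw [w2 a ha, w2 b hb, eq_inv_mul_of_mul_eq k1, eq_inv_mul_of_mul_eq k3, ← k2, ← k4]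
      group)
  obtain ⟨u, hu⟩ : ∃ u : ℤ → Lat n → Γ, u = fun s a => if s = -1 then (w a)⁻¹ * g a else
    if s = 0 ∧ a ∈ K then c (Fin.cons 0 a) (Fin.cons 1 a) else 1 := ⟨_, rfl⟩
  have u1 : ∀ s a, u s (fl η a) = u s a := fun s a => by
    simp only [hu, ccyla_inv hp.iQ, iv, w1, g1]
  have u2 : ∀ a, u (-1) a = (w a)⁻¹ * g a := fun a => by simp [hu]
  have u3 : ∀ a ∈ K, u 0 a = c (Fin.cons 0 a) (Fin.cons 1 a) := fun a ha => by simp [hu, ha]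
  have u4 : ∀ a, u 1 a = 1 := fun a => by simp [hu]
  refine ⟨fun e e' => u (e 0) (Fin.tail e) *
    c (Fin.cons 1 (Fin.tail e)) (Fin.cons 1 (Fin.tail e')) * (u (e' 0) (Fin.tail e'))⁻¹,
    fun e e' => ?_, fun e he e' he' e'' he'' h1 h2 => ?_, fun e he e' he' hle => ?_⟩
  · obtain ⟨s, a, rfl⟩ := ccyla_cons e
    obtain ⟨t, b, rfl⟩ := ccyla_cons e'
    simp only [fl_cons, Fin.cons_zero, Fin.tail_cons, u1, iv]
  · obtain ⟨s, a, rfl⟩ := ccyla_cons e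
    obtain ⟨t, b, rfl⟩ := ccyla_cons e'
    obtain ⟨r, d, rfl⟩ := ccyla_cons e''
    have k := fe 1 (Or.inr rfl) a (ccyla_mem.1 he).2 b (ccyla_mem.1 he').2 d (ccyla_mem.1 he'').2
      (le1_cons.1 h1).2 (le1_cons.1 h2).2
    simp only [Fin.cons_zero, Fin.tail_cons] at k ⊢
    rw [← k]
    group
  · obtain ⟨s, a, rfl⟩ := ccyla_cons e
    obtain ⟨t, b, rfl⟩ := ccyla_cons e'
    rw [ccyla_memQ] at he he'
    rw [le1_cons, le0] at hle
    simp only [Fin.cons_zero, Fin.tail_cons]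
    by_cases hs : s = 0
    · subst hs
      have ha : a ∈ K := he.2.resolve_left fun h => h rfl
      have hb : b ∈ K := hp.uQ a ha b hle.2
      obtain ⟨k1, k2⟩ := sq 1 (Or.inr rfl) a ha b hb hle.2
      obtain ⟨k3, k4⟩ := sq (-1) (Or.inl rfl) a ha b hb hle.2
      rw [u3 a ha, k1]
      rcases he'.1.1 with rfl | rfl | rfl
      · rw [u2, g2 b hb, w2 b hb, ← k2, ← k4]
        group
      · rw [u3 b hb, ← k2]
        group
      · rw [u4, inv_one, mul_one]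
    · obtain rfl : s = t := by omega
      rcases he.1.1 with rfl | rfl | rfl
      · have k := g3 a he.1.2 b he'.1.2 hle.2
        dsimp only at k
        rw [u2, u2, eq_inv_mul_of_mul_eq (eq_mul_of_mul_inv_eq k.symm).symm]
        rw [eq_inv_mul_of_mul_eq (eq_mul_of_mul_inv_eq k).symm]
        group
      · exact absurd rfl hs
      · rw [u4, u4, inv_one, mul_one, one_mul]

theorem ccyla_dim (a : Lat n) : dimE (Fin.cons 0 a : Lat (n + 1)) = dimE a + 1 := by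
  unfold dimE
  rw [Fin.card_filter_univ_succ]
  simp

theorem ccyla_or (s : ℤ) (a : Lat n) : orE (cη η) (Fin.cons s a : Lat (n + 1)) = orE η a := by
  unfold orE
  rw [Fin.card_filter_univ_succ]
  simp [cη]

theorem ccyla_sg (a : Lat n) (j : Fin n) :
    sgE (Fin.cons 0 a : Lat (n + 1)) j.succ = -sgE a j := by
  unfold sgE
  rw [Fin.card_filter_univ_succ]
  simp [pow_succ]

theorem ccyla_fac (s t : ℤ) (a : Lat n) (j : Fin n) :
    fac (Fin.cons s a : Lat (n + 1)) j.succ t = Fin.cons s (fac a j t) := by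
  funext i
  refine Fin.cases ?_ (fun l => ?_) i
  · simp [fac, (Fin.succ_ne_zero j).symm]
  · simp [fac, Pi.single_apply]

section cob

variable {Γ A : Type} [Group Γ] [AddCommGroup A] [DistribMulAction Γ A]
  (c : Lat (n + 1) → Lat (n + 1) → Γ) {χ : Lat (n + 1) → A}

theorem ccyla_d0 (h : ∀ e, e 0 ≠ 0 → χ e = 0) (a : Lat n) : dE c χ (Fin.cons 0 a) =
    -dE (fun a b => c (Fin.cons 0 a) (Fin.cons 0 b)) (fun b => χ (Fin.cons 0 b)) a := by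
  rw [dE_fac, dE_fac, Finset.sum_filter, Finset.sum_filter, Fin.sum_univ_succ,
    h (fac _ 0 1) (by simp [fac]), h (fac _ 0 (-1)) (by simp [fac]), smul_zero, smul_zero, sub_self,
    smul_zero, ite_self, zero_add, ← Finset.sum_neg_distrib]
  refine Finset.sum_congr rfl fun j _ => ?_
  rw [ccyla_sg, ccyla_fac, ccyla_fac, Fin.cons_succ]
  split_ifs
  · rw [neg_smul]
  · rw [neg_zero]

theorem ccyla_d1 (h : ∀ e, e 0 ≠ 0 → χ e = 0) {e : Lat (n + 1)} (he : e 0 = -1 ∨ e 0 = 1) :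
    dE c χ e = 0 := by
  rw [← dE_zero (A := A) c e]
  refine dE_congr c fun i s hi _ => h _ ?_
  have h0 : i ≠ 0 := by
    rintro rfl
    omega
  rw [fac, Pi.add_apply, Pi.single_eq_of_ne h0.symm]
  omega

end cob

/-- Use `c0 a b = c (0,a) (0,b)`, `φ0 a = φ (0,a)` (degree one less). For a cochain `ψ` that
vanishes on cells with `e 0 = 1` or `e 0 = -1` one has
`dE c ψ (0,a) = - dE c0 (fun b => ψ (0,b)) a` and `dE c ψ (s,a) = 0` for `s = 1, -1`. Take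
`ψ e = if e 0 = 0 then - ψ0 (tail e) else 0`. -/
theorem h3_cyl (h2 : H2 η K L) : H3 (cη η) (cylQ K L) (cyl L) := by
  intro Γ A _ _ _ c hi hf k φ hφ hd
  have z : ∀ e, e 0 ≠ 0 → φ e = 0 := fun e he => by
    by_contra h0
    obtain ⟨h1, h3, -⟩ := hφ.2 e h0
    exact h3 (mem_cylQ.2 ⟨h1, Or.inl he⟩)
  have m : ∀ a ∈ L, (Fin.cons 0 a : Lat (n + 1)) ∈ cyl L :=
    fun a ha => ccyla_mem.2 ⟨Or.inr (Or.inl rfl), ha⟩
  obtain ⟨ψ, ⟨p1, p2⟩, p3⟩ := h2 Γ A (fun a b => c (Fin.cons 0 a) (Fin.cons 0 b))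
    (fun a b => by simp only [← fl_cons, hi _ _])
    (fun a ha b hb d hd h1 h3 => hf _ (m a ha) _ (m b hb) _ (m d hd)
      (le1_cons.2 ⟨Or.inl rfl, h1⟩) (le1_cons.2 ⟨Or.inl rfl, h3⟩))
    (k + 1) (fun a => φ (Fin.cons 0 a))
    ⟨fun a => by simp only [← fl_cons, hφ.1, ccyla_or], fun a h0 => by
      obtain ⟨h1, h3, h4⟩ := hφ.2 _ h0
      rw [ccyla_dim] at h4
      exact ⟨(ccyla_mem.1 h1).2, fun h5 => h3 (ccyla_memQ.2 ⟨ccyla_mem.1 h1, Or.inr h5⟩),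
        by omega⟩⟩
    (fun a ha => neg_eq_zero.1 ((ccyla_d0 c z a).symm.trans (hd _ (m a ha))))
  have z' : ∀ e : Lat (n + 1), e 0 ≠ 0 → (if e 0 = 0 then -ψ (Fin.tail e) else 0) = 0 :=
    fun e he => if_neg he
  refine ⟨fun e => if e 0 = 0 then -ψ (Fin.tail e) else 0, ⟨fun e => ?_, fun e h0 => ?_⟩,
    fun e he => ?_⟩
  · obtain ⟨s, a, rfl⟩ := ccyla_cons e
    simp only [fl_cons, Fin.cons_zero, Fin.tail_cons, ccyla_or, p1]
    split_ifs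
    · rw [smul_neg]
    · rw [smul_zero]
  · obtain ⟨s, a, rfl⟩ := ccyla_cons e
    simp only [Fin.cons_zero, Fin.tail_cons] at h0
    obtain rfl : s = 0 := by
      by_contra hs
      exact h0 (if_neg hs)
    rw [if_pos rfl, neg_ne_zero] at h0
    obtain ⟨h1, h3, h4⟩ := p2 a h0
    refine ⟨m a h1, fun h5 => h3 ((ccyla_memQ.1 h5).2.resolve_left fun h => h rfl), ?_⟩
    rw [ccyla_dim, h4]
  · obtain ⟨s, a, rfl⟩ := ccyla_cons e
    obtain ⟨h1, h3⟩ := ccyla_mem.1 he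
    by_cases hs : s = 0
    · subst hs
      rw [ccyla_d0 c z']
      simp only [Fin.cons_zero, Fin.tail_cons, if_true]
      rw [dE_neg, neg_neg, p3 a h3]
    · rw [ccyla_d1 c z' (by rw [Fin.cons_zero]; omega), z _ (by rwa [Fin.cons_zero])]

end Pool.Agent.Lib.MP_5ceaf9_gt.OC
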