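import Pool.Agent.Lib.MP_5ceaf9_gt.CDefs

noncomputable section

namespace Pool.Agent.Lib.MP_5ceaf9_gt.OC

open Set

section cholex

open CategoryTheory

variable {Z : Type} [TopologicalSpace Z]

/-- The arrow of a path in the fundamental groupoid. -/
def cholex_ar {x y : Z} (p : Path x y) :
    FundamentalGroupoid.mk x ⟶ FundamentalGroupoid.mk y :=
  FundamentalGroupoid.fromPath (Path.Homotopic.Quotient.mk p)

theorem cholex_ar_trans {x y z : Z} (p : Path x y) (q : Path y z) :
    cholex_ar (p.trans q) = cholex_ar p ≫ cholex_ar q := rfl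

theorem cholex_ar_refl (x : Z) : cholex_ar (Path.refl x) = 𝟙 _ := rfl

theorem cholex_ar_eq {x y : Z} (p q : Path x y) :
    cholex_ar p = cholex_ar q ↔ p.Homotopic q :=
  Path.Homotopic.Quotient.eq

theorem cholex_ar_surj {x y : Z} (a : FundamentalGroupoid.mk x ⟶ FundamentalGroupoid.mk y) :
    ∃ p : Path x y, cholex_ar p = a :=
  Path.Homotopic.Quotient.mk_surjective a

/-- The path of a continuous map on the unit interval. -/
def cholex_pa (f : unitInterval → Z) (hf : Continuous f) : Path (f 0) (f 1) where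
  toFun := f
  continuous_toFun := hf
  source' := rfl
  target' := rfl

variable [PathConnectedSpace Z]

/-- The chosen arrow from the base point. -/
def cholex_om (z0 z : Z) : FundamentalGroupoid.mk z0 ⟶ FundamentalGroupoid.mk z :=
  cholex_ar (PathConnectedSpace.somePath z0 z)

/-- The loop of an arrow. -/
def cholex_lp (z0 : Z) {x y : Z} (a : FundamentalGroupoid.mk x ⟶ FundamentalGroupoid.mk y) :
    FundamentalGroup Z z0 :=
  cholex_om z0 y ≫ inv a ≫ inv (cholex_om z0 x)

theorem cholex_lp_mul (z0 : Z) {x y z : Z}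
    (a : FundamentalGroupoid.mk x ⟶ FundamentalGroupoid.mk y)
    (b : FundamentalGroupoid.mk y ⟶ FundamentalGroupoid.mk z) :
    cholex_lp z0 a * cholex_lp z0 b = cholex_lp z0 (a ≫ b) := by
  rw [End.mul_def]
  simp [cholex_lp]

theorem cholex_lp_surj (z0 x y : Z) (γ : FundamentalGroup Z z0) :
    ∃ a : FundamentalGroupoid.mk x ⟶ FundamentalGroupoid.mk y, cholex_lp z0 a = γ := by
  let γ' : FundamentalGroupoid.mk z0 ⟶ FundamentalGroupoid.mk z0 := γ
  refine ⟨inv (inv (cholex_om z0 y) ≫ γ' ≫ cholex_om z0 x), ?_⟩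
  change _ = γ'
  simp [cholex_lp]

theorem cholex_lp_one (z0 : Z) {x : Z}
    (a : FundamentalGroupoid.mk x ⟶ FundamentalGroupoid.mk x) (h : cholex_lp z0 a = 1) :
    a = 𝟙 _ := by
  have h1 : cholex_om z0 x ≫ inv a ≫ inv (cholex_om z0 x) = 𝟙 _ := h
  have h2 : inv a = 𝟙 _ := by
    have h3 : inv a = inv (cholex_om z0 x) ≫
        (cholex_om z0 x ≫ inv a ≫ inv (cholex_om z0 x)) ≫ cholex_om z0 x := by simp
    rw [h3, h1]
    simp
  have h4 : a ≫ inv a = 𝟙 _ := IsIso.hom_inv_id a
  rw [h2] at h4
  simpa using h4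

open Classical in
/-- The class of a map on the unit interval. -/
def cholex_cl (z0 : Z) (f : unitInterval → Z) : FundamentalGroup Z z0 :=
  if hf : Continuous f then cholex_lp z0 (cholex_ar (cholex_pa f hf)) else 1

theorem cholex_cl_eq (z0 : Z) (f : unitInterval → Z) {x y : Z} (p : Path x y)
    (h : ∀ t, f t = p t) : cholex_cl z0 f = cholex_lp z0 (cholex_ar p) := by
  have hf : Continuous f := by
    have : f = p := funext h
    rw [this]
    exact p.continuous
  have hx : x = f 0 := by rw [h, p.source]
  have hy : y = f 1 := by rw [h, p.target]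
  subst hx
  subst hy
  have : cholex_pa f hf = p := by
    ext t
    exact h t
  rw [cholex_cl, dif_pos hf, this]

end cholex

/-- The segment inside a convex set. -/
def cholex_sg {X : Type} [NormedAddCommGroup X] [NormedSpace ℝ X] {C : Set X} (hC : Convex ℝ C)
    (x y : C) : Path x y where
  toFun := fun t => ⟨x.1 + (t : ℝ) • (y.1 - x.1), hC.add_smul_sub_mem x.2 y.2 t.2⟩
  continuous_toFun := by
    refine Continuous.subtype_mk ?_ _
    fun_prop
  source' := by
    ext
    simp
  target' := by
    ext
    simp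

/-- Fix `z0`, a path `ω z` from `z0` to `z` for every `z`, and `Γ = FundamentalGroup Z z0`
(there `p * q = q.trans p`, so take inverses or the opposite group). For `σ` continuous on
`[0,1]` let `hol σ` be the class of `ω (σ 0)`, then `σ`, then `ω (σ 1)` backwards (junk `1`
otherwise). A convenient tool: if two paths `p`, `q` with the same ends factor through a convex
set (`p t = g (a t)`, `q t = g (b t)`, `a 0 = b 0`, `a 1 = b 1`) they are homotopic (straight
line); apply it to `(p.trans q)` and the third side. `congr`: the ends agree, so `subst` or use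
`Path.Homotopic.hpath_hext`; it helps to define the class for a continuous map `I → Z` and to use
`funext`. `null`: extend the homotopy with `Set.projIcc`. -/
theorem exists_hol (Z : Type) [TopologicalSpace Z] [PathConnectedSpace Z] :
    ∃ (Γ : Type) (_ : Group Γ), Nonempty (Hol Z Γ) := by
  obtain ⟨z0⟩ : Nonempty Z := PathConnectedSpace.nonempty
  refine ⟨FundamentalGroup Z z0, inferInstance,
    ⟨⟨fun σ => cholex_cl z0 (fun t => σ t), ?_, ?_, ?_, ?_⟩⟩⟩
  · intro σ τ h
    have : (fun t : unitInterval => σ t) = fun t : unitInterval => τ t :=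
      funext fun t => h t t.2
    rw [this]
  · intro X _ _ g C hC hg x hx y hy z hz
    have hG : Continuous (C.domRestrict g) := hg.domRestrict
    have key : ∀ a b : C, cholex_cl z0 (fun t : unitInterval => seg g a.1 b.1 t) =
        cholex_lp z0 (cholex_ar ((cholex_sg hC a b).map hG)) := fun a b =>
      cholex_cl_eq z0 _ _ fun t => rfl
    have hcon : ContractibleSpace C := hC.contractibleSpace ⟨x, hx⟩
    have hh : ((cholex_sg hC ⟨x, hx⟩ ⟨y, hy⟩).trans (cholex_sg hC ⟨y, hy⟩ ⟨z, hz⟩)).Homotopic
        (cholex_sg hC ⟨x, hx⟩ ⟨z, hz⟩) := SimplyConnectedSpace.paths_homotopic _ _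
    have hm := hh.map ⟨C.domRestrict g, hG⟩
    rw [Path.map_trans] at hm
    have he := (cholex_ar_eq _ _).2 hm
    rw [cholex_ar_trans] at he
    have e1 := key ⟨x, hx⟩ ⟨y, hy⟩
    have e2 := key ⟨y, hy⟩ ⟨z, hz⟩
    have e3 := key ⟨x, hx⟩ ⟨z, hz⟩
    change cholex_cl z0 (fun t : unitInterval => seg g x y t) *
      cholex_cl z0 (fun t : unitInterval => seg g y z t) =
        cholex_cl z0 (fun t : unitInterval => seg g x z t)
    rw [e1, e2, e3, cholex_lp_mul]
    exact congrArg (cholex_lp z0) he
  · intro z z' γ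
    obtain ⟨a, ha⟩ := cholex_lp_surj z0 z z' γ
    obtain ⟨p, hp⟩ := cholex_ar_surj a
    refine ⟨p.extend, p.continuous_extend, p.extend_zero, p.extend_one, ?_⟩
    rw [cholex_cl_eq z0 _ p fun t => p.extend_extends' t, hp, ha]
  · intro σ hσ h10 h1
    have hf : Continuous (fun t : unitInterval => σ t) := hσ.domRestrict
    let p : Path (σ 0) (σ 0) :=
      { toFun := fun t => σ t
        continuous_toFun := hf
        source' := rfl
        target' := h10 }
    have h2 : cholex_cl z0 (fun t : unitInterval => σ t) = 1 := h1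
    rw [cholex_cl_eq z0 (fun t : unitInterval => σ t) p fun t => rfl] at h2
    have h3 := cholex_lp_one z0 _ h2
    rw [← cholex_ar_refl] at h3
    obtain ⟨H⟩ := (cholex_ar_eq _ _).1 h3
    refine ⟨fun q => H (projIcc 0 1 zero_le_one q.2, projIcc 0 1 zero_le_one q.1), ?_, ?_, ?_,
      ?_, ?_⟩
    · exact H.continuous.comp ((continuous_projIcc.comp continuous_snd).prodMk
        (continuous_projIcc.comp continuous_fst))
    · intro t ht
      have e0 : projIcc (0 : ℝ) 1 zero_le_one 0 = (0 : unitInterval) := projIcc_left _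
      have et : projIcc (0 : ℝ) 1 zero_le_one t = ⟨t, ht⟩ := projIcc_of_mem _ ht
      change H (projIcc 0 1 zero_le_one 0, projIcc 0 1 zero_le_one t) = σ t
      rw [e0, et]
      exact H.apply_zero _
    · intro t
      have e1 : projIcc (0 : ℝ) 1 zero_le_one 1 = (1 : unitInterval) := projIcc_right _
      change H (projIcc 0 1 zero_le_one 1, projIcc 0 1 zero_le_one t) = σ 0
      rw [e1]
      exact H.apply_one _
    · intro s
      have e0 : projIcc (0 : ℝ) 1 zero_le_one 0 = (0 : unitInterval) := projIcc_left _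
      change H (projIcc 0 1 zero_le_one s, projIcc 0 1 zero_le_one 0) = σ 0
      rw [e0]
      exact H.source _
    · intro s
      have e1 : projIcc (0 : ℝ) 1 zero_le_one 1 = (1 : unitInterval) := projIcc_right _
      change H (projIcc 0 1 zero_le_one s, projIcc 0 1 zero_le_one 1) = σ 0
      rw [e1]
      exact H.target _

end Pool.Agent.Lib.MP_5ceaf9_gt.OC
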