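import Pool.Agent.Lib.MP_5ceaf9_gt.CStep
import Pool.Agent.Lib.MP_5ceaf9_gt.CHolEx

noncomputable section

namespace Pool.Agent.Lib.MP_5ceaf9_gt.OC

open Set

variable {n : ℕ} {η : Fin n → Bool} {Q P : Finset (Lat n)} {Z Γ : Type} [TopologicalSpace Z]
  [Group Γ] {h : Hol Z Γ} {m : ℕ} {f : E n → Z} {c : Lat n → Lat n → Γ}


theorem clow_ends {a : Lat n} {ι : Fin 1 → Fin n} (hι : Chart a ι) {x : E n} (hx : x ∈ cube a)
    (hne : car x ≠ a) : x = ctr (fac a (ι 0) (-1)) ∨ x = ctr (fac a (ι 0) 1) := by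
  have h1 := hι.norm_co hx
  have h2 := hι.chi_co hx
  have h3 : ‖co a ι x‖ = 1 := (hι.car_ne h1).1 (by rwa [h2])
  obtain ⟨l, s, hs, -, hl⟩ := norm_eq_one_iff.1 h3
  obtain rfl : l = 0 := Subsingleton.elim _ _
  have h4 : x = ctr (fac a (ι 0) s) := by
    funext i
    by_cases hi : i = ι 0
    · subst hi
      have : x (ι 0) - a (ι 0) = s := hl
      simp only [ctr, fac, Pi.add_apply, Pi.single_eq_same, Int.cast_add]
      linarith
    · have h5 : ¬ a i % 2 = 0 := fun h0 => by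
        obtain ⟨l, hl⟩ := (hι.2 i).1 h0
        exact hi (by rw [← hl, Subsingleton.elim l 0])
      have h6 := hx i
      rw [if_neg h5] at h6
      simp only [ctr, fac, Pi.add_apply, Pi.single_eq_of_ne hi, add_zero]
      exact h6
  rcases hs with rfl | rfl
  · exact Or.inr h4
  · exact Or.inl h4

theorem clow_edge {a : Lat n} (ha : a ∈ nw Q P 1) :
    ∃ G : E n → Z, ContinuousOn G (cube a) ∧ (∀ x ∈ cube a, car x ≠ a → G x = f x) ∧
      ∃ l : Γ, ∀ b, le1 a b → b ≠ a → c a b = l * h.hol (seg G (ctr a) (ctr b)) := by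
  obtain ⟨ι, hι⟩ := exists_chart (mem_nw.1 ha).2.2
  obtain ⟨σ, hσ, h0, h1, hh⟩ := h.real (f (ctr (fac a (ι 0) (-1)))) (f (ctr (fac a (ι 0) 1)))
    ((c a (fac a (ι 0) (-1)))⁻¹ * c a (fac a (ι 0) 1))
  have hG : Continuous fun x : E n => σ ((x (ι 0) - a (ι 0) + 1) / 2) := by fun_prop
  have e0 : ctr (fac a (ι 0) (-1)) (ι 0) = a (ι 0) - 1 := by
    simp [ctr, fac, sub_eq_add_neg]
  have e1 : ctr (fac a (ι 0) 1) (ι 0) = a (ι 0) + 1 := by simp [ctr, fac]
  refine ⟨_, hG.continuousOn, fun x hx hne => ?_, c a (fac a (ι 0) (-1)) *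
    (h.hol (seg (fun x : E n => σ ((x (ι 0) - a (ι 0) + 1) / 2)) (ctr a)
      (ctr (fac a (ι 0) (-1)))))⁻¹, fun b hab hne => ?_⟩
  · rcases clow_ends hι hx hne with rfl | rfl
    · rw [← h0, e0]
      congr 1
      ring
    · rw [← h1, e1]
      congr 1
      ring
  · rcases clow_ends hι (ctr_mem_cube hab) (by rwa [car_ctr]) with hb | hb
    · obtain rfl : b = fac a (ι 0) (-1) := by rw [← car_ctr b, hb, car_ctr]
      simp
    · obtain rfl : b = fac a (ι 0) 1 := by rw [← car_ctr b, hb, car_ctr]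
      rw [← h.tri _ _ univ convex_univ hG.continuousOn (ctr a) trivial (ctr (fac a (ι 0) (-1)))
        trivial (ctr (fac a (ι 0) 1)) trivial]
      have e2 : seg (fun x : E n => σ ((x (ι 0) - a (ι 0) + 1) / 2)) (ctr (fac a (ι 0) (-1)))
          (ctr (fac a (ι 0) 1)) = σ := by
        funext t
        simp only [seg, Pi.add_apply, Pi.smul_apply, Pi.sub_apply, smul_eq_mul, e0, e1]
        congr 1
        ring
      rw [e2, hh]
      group

/-- New vertices go to `z0`. -/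
theorem step0 (z0 : Z) (hp : Pair η Q P) (hs : St h η Q P 0 f c) :
    ∃ f' c', St h η Q P 1 f' c' ∧ ∀ x ∈ vox Q, f' x = f x := by
  obtain ⟨f', h1, h2, h3, -⟩ := step_glue hp hs.cont hs.inv (fun _ _ => True)
    (fun _ _ _ _ => trivial) fun a ha => ⟨fun _ => z0, continuousOn_const, fun x hx hne => by
      have := dimE_lt (mem_cube_iff.1 hx) hne
      rw [(mem_nw.1 ha).2.2] at this
      omega, trivial⟩
  obtain ⟨c', hc⟩ := step_relabel hp hs h1 h2 h3 fun a ha => ⟨1, fun b hab hne => by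
    have := dimE_lt hab hne
    rw [(mem_nw.1 ha).2.2] at this
    omega⟩
  exact ⟨f', c', hc, fun x hx => h3 x (vox_mono (hp.sub_dom 0) hx)⟩

/-- For a new edge `a` in direction `i` with ends `v = fac a i (-1)`, `w = fac a i 1` take `σ` from
`Hol.real` with holonomy `(c a v)⁻¹ * c a w` and `G x = σ ((x i - a i + 1) / 2)`. Use
`Good a G = ∃ l, ∀ b, le1 a b → b ≠ a → c a b = l * hol (seg G (ctr a) (ctr b))`. -/
theorem step1 (hp : Pair η Q P) (hs : St h η Q P 1 f c) :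
    ∃ f' c', St h η Q P 2 f' c' ∧ ∀ x ∈ vox Q, f' x = f x := by
  obtain ⟨f', h1, h2, h3, h4⟩ := step_glue hp hs.cont hs.inv
    (fun a G => ∃ l : Γ, ∀ b, le1 a b → b ≠ a → c a b = l * h.hol (seg G (ctr a) (ctr b)))
    (fun a _ G ⟨l, hl⟩ => ⟨l, fun b hab hne => by
      have k1 : le1 a (fl η b) := by
        rw [← le1_fl (η := η), fl_fl]
        exact hab
      have k2 : fl η b ≠ a := fun h0 => hne (by rw [← h0, fl_fl])
      have k3 := hs.cinv a (fl η b)
      rw [fl_fl] at k3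
      rw [k3, hl _ k1 k2]
      congr 2
      funext t
      simp only [seg, Function.comp, fl_seg, ctr_fl, fl_fl]⟩)
    fun a ha => clow_edge ha
  obtain ⟨c', hc⟩ := step_relabel hp hs h1 h2 h3 fun a ha => by
    obtain ⟨G, ⟨l, hl⟩, hG⟩ := h4 a ha
    exact ⟨l, fun b hab hne => by
      rw [hl b hab hne, h.seg_congr (convex_cube a) hG (ctr_mem_cube (le1_refl a))
        (ctr_mem_cube hab)]⟩
  exact ⟨f', c', hc, fun x hx => h3 x (vox_mono (hp.sub_dom 1) hx)⟩

/-- `St.lab_chart`, `ext_square`, `Chart.fill`, `step_glue`, `St.next`. -/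
theorem step2 (hp : Pair η Q P) (hs : St h η Q P 2 f c) :
    ∃ f' c', St h η Q P 3 f' c' ∧ ∀ x ∈ vox Q, f' x = f x := by
  obtain ⟨f', h1, h2, h3, -⟩ := step_glue hp hs.cont hs.inv (fun _ _ => True)
    (fun _ _ _ _ => trivial) fun a ha => by
      obtain ⟨ι, hι⟩ := exists_chart (mem_nw.1 ha).2.2
      obtain ⟨G, hG, he⟩ := ext_square (hs.lab_chart hp (mem_nw.1 ha).1 hι le_rfl)
      obtain ⟨k1, k2⟩ := hι.fill (f := f) hG he
      exact ⟨_, k1, k2, trivial⟩
  obtain ⟨c', hc⟩ := hs.next hp le_rfl h1 h2 h3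
  exact ⟨f', c', hc, fun x hx => h3 x (vox_mono (hp.sub_dom 2) hx)⟩

/-- The extension theorem: induction on `m`, `dom_top`. -/
theorem ext [PathConnectedSpace Z] (hp : Pair η Q P) (h1 : E1 η Q P) (h3 : H3 η Q P)
    (hf : ContinuousOn f (vox Q)) (hi : ∀ x, f (fl η x) = f x) :
    ∃ g : E n → Z, ContinuousOn g (vox P) ∧ (∀ x, g (fl η x) = g x) ∧ ∀ x ∈ vox Q, g x = f x := by
  obtain ⟨z0⟩ : Nonempty Z := inferInstance
  obtain ⟨Γ, _, ⟨h⟩⟩ := exists_hol Z
  have key : ∀ m : ℕ, ∃ g c, St h η Q P m g c ∧ ∀ x ∈ vox Q, g x = f x := fun m => by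
    induction m with
    | zero =>
      obtain ⟨c, hc⟩ := st_init h hp h1 hf hi
      exact ⟨f, c, hc, fun _ _ => rfl⟩
    | succ m ih =>
      obtain ⟨g, c, hs, he⟩ := ih
      have : ∃ g' c', St h η Q P (m + 1) g' c' ∧ ∀ x ∈ vox Q, g' x = g x := by
        match m, hs with
        | 0, hs => exact step0 z0 hp hs
        | 1, hs => exact step1 hp hs
        | 2, hs => exact step2 hp hs
        | k + 3, hs => exact step_big (j := k + 1) z0 (by omega) hp h3 hs
      obtain ⟨g', c', hs', he'⟩ := this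
      exact ⟨g', c', hs', fun x hx => (he' x hx).trans (he x hx)⟩
  obtain ⟨g, c, hs, he⟩ := key (n + 1)
  have := hs.cont
  rw [dom_top] at this
  exact ⟨g, this, hs.inv, he⟩

end Pool.Agent.Lib.MP_5ceaf9_gt.OC
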