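import Pool.Agent.Lib.MP_5ceaf9_gt.CCylA
import Pool.Agent.Lib.MP_5ceaf9_gt.CLow

noncomputable section

namespace Pool.Agent.Lib.MP_5ceaf9_gt.OC

open Set

variable {n : ℕ} {η : Fin n → Bool} {K L : Finset (Lat n)}

theorem ccylb_cube {x : E (n + 1)} {e : Lat (n + 1)} : x ∈ cube e ↔
    (if e 0 % 2 = 0 then |x 0 - e 0| ≤ 1 else x 0 = e 0) ∧ Fin.tail x ∈ cube (Fin.tail e) :=
  Fin.forall_fin_succ

theorem ccylb_mid {x : E (n + 1)} {a : Lat n} (h0 : x 0 ∈ Icc (-1 : ℝ) 1)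
    (h : Fin.tail x ∈ cube a) : x ∈ cube (Fin.cons 0 a : Lat (n + 1)) := by
  refine ccylb_cube.2 ⟨?_, h⟩
  simpa [abs_le] using h0

theorem ccylb_zero {x : E (n + 1)} {e : Lat (n + 1)} (h : x ∈ cube e) (h0 : e 0 = 0) :
    x 0 ∈ Icc (-1 : ℝ) 1 := by
  have := (ccylb_cube.1 h).1
  rw [h0] at this
  simpa [abs_le] using this

theorem ccylb_end {x : E (n + 1)} {e : Lat (n + 1)} (h : x ∈ cube e) (h0 : e 0 = -1 ∨ e 0 = 1) :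
    x 0 ∈ ({-1, 1} : Set ℝ) := by
  have := (ccylb_cube.1 h).1
  rcases h0 with h0 | h0 <;> rw [h0] at this
  · exact Or.inl (by simpa using this)
  · exact Or.inr (by simpa using this)

theorem ccylb_sub : ({-1, 1} : Set ℝ) ⊆ Icc (-1 : ℝ) 1 := by
  rintro t (rfl | rfl) <;> norm_num

theorem mem_vox_cyl {x : E (n + 1)} :
    x ∈ vox (cyl L) ↔ (x 0, Fin.tail x) ∈ Icc (-1 : ℝ) 1 ×ˢ vox L := by
  refine ⟨?_, ?_⟩
  · rintro ⟨e, he, hx⟩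
    obtain ⟨h0, h1⟩ := mem_cyl.1 he
    refine ⟨?_, _, h1, (ccylb_cube.1 hx).2⟩
    rcases h0 with h0 | h0 | h0
    exacts [ccylb_sub (ccylb_end hx (Or.inl h0)), ccylb_zero hx h0,
      ccylb_sub (ccylb_end hx (Or.inr h0))]
  · rintro ⟨h0, a, ha, hx⟩
    exact ⟨Fin.cons 0 a, mem_cyl.2 ⟨Or.inr (Or.inl rfl), ha⟩, ccylb_mid h0 hx⟩

theorem mem_vox_cylQ (hKL : K ⊆ L) {x : E (n + 1)} : x ∈ vox (cylQ K L) ↔
    (x 0, Fin.tail x) ∈ Icc (-1 : ℝ) 1 ×ˢ vox K ∪ ({-1, 1} : Set ℝ) ×ˢ vox L := by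
  refine ⟨?_, ?_⟩
  · rintro ⟨e, he, hx⟩
    obtain ⟨h2, h3⟩ := mem_cylQ.1 he
    obtain ⟨h0, h1⟩ := mem_cyl.1 h2
    rcases h0 with h0 | h0 | h0
    · exact Or.inr ⟨ccylb_end hx (Or.inl h0), _, h1, (ccylb_cube.1 hx).2⟩
    · exact Or.inl ⟨ccylb_zero hx h0, _, h3.resolve_left (not_not.2 h0), (ccylb_cube.1 hx).2⟩
    · exact Or.inr ⟨ccylb_end hx (Or.inr h0), _, h1, (ccylb_cube.1 hx).2⟩
  · rintro (⟨h0, a, ha, hx⟩ | ⟨h0 | h0, a, ha, hx⟩)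
    · exact ⟨Fin.cons 0 a, mem_cylQ.2 ⟨mem_cyl.2 ⟨Or.inr (Or.inl rfl), hKL ha⟩, Or.inr ha⟩,
        ccylb_mid h0 hx⟩
    · exact ⟨Fin.cons (-1) a, mem_cylQ.2 ⟨mem_cyl.2 ⟨Or.inl rfl, ha⟩, Or.inl (by simp)⟩,
        ccylb_cube.2 ⟨by simpa using h0, hx⟩⟩
    · exact ⟨Fin.cons 1 a, mem_cylQ.2 ⟨mem_cyl.2 ⟨Or.inr (Or.inr rfl), ha⟩, Or.inl (by simp)⟩,
        ccylb_cube.2 ⟨by simpa using h0, hx⟩⟩

/-- `ext` for the pair `Pair.cyl`, `f x = H (x 0, tail x)`, `G (t, x) = g (cons t x)`. -/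
theorem ext2 {Z : Type} [TopologicalSpace Z] [PathConnectedSpace Z] (hp : Pair η K L)
    (h2 : E2 η K L) (h3 : H2 η K L) {H : ℝ × E n → Z}
    (hc : ContinuousOn H (Icc (-1 : ℝ) 1 ×ˢ vox K ∪ ({-1, 1} : Set ℝ) ×ˢ vox L))
    (hi : ∀ t x, H (t, fl η x) = H (t, x)) :
    ∃ G : ℝ × E n → Z, ContinuousOn G (Icc (-1 : ℝ) 1 ×ˢ vox L) ∧
      (∀ t x, G (t, fl η x) = G (t, x)) ∧
      ∀ p ∈ Icc (-1 : ℝ) 1 ×ˢ vox K ∪ ({-1, 1} : Set ℝ) ×ˢ vox L, G p = H p := by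
  have c1 : Continuous fun x : E (n + 1) => ((x 0, Fin.tail x) : ℝ × E n) :=
    (continuous_apply 0).prodMk (continuous_pi fun i => continuous_apply i.succ)
  have c2 : Continuous fun p : ℝ × E n => (Fin.cons p.1 p.2 : E (n + 1)) :=
    continuous_pi fun i => by
      refine Fin.cases ?_ (fun j => ?_) i
      · exact continuous_fst
      · exact (continuous_apply j).comp continuous_snd
  obtain ⟨g, g1, g2, g3⟩ := ext (f := fun x => H (x 0, Fin.tail x)) hp.cyl (e1_cyl hp h2)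
    (h3_cyl h3) (hc.comp c1.continuousOn fun x hx => (mem_vox_cylQ hp.sub).1 hx) fun x => by
      rw [← Fin.cons_self_tail x, fl_cons]
      exact hi _ _
  refine ⟨fun p => g (Fin.cons p.1 p.2), g1.comp c2.continuousOn fun p h => mem_vox_cyl.2 h,
    fun t x => ?_, fun p h => g3 _ ((mem_vox_cylQ hp.sub).2 h)⟩
  exact (congrArg g (fl_cons t x).symm).trans (g2 _)

end Pool.Agent.Lib.MP_5ceaf9_gt.OC
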