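import Pool.Agent.Lib.MP_5ceaf9_gt.CHolB

noncomputable section

namespace Pool.Agent.Lib.MP_5ceaf9_gt.OC

open Set

variable {Z Γ : Type} [TopologicalSpace Z] [Group Γ] {h : Hol Z Γ}


theorem crel_norm {n : ℕ} {i : Fin n} {s : ℤ} (hs : s = 1 ∨ s = -1) {y : E n}
    (hy : y ∈ face i s) : ‖y‖ = 1 := norm_eq_one_iff.2 ⟨i, s, hs, hy⟩

theorem crel_sub {n : ℕ} {i : Fin n} {s : ℤ} (hs : s = 1 ∨ s = -1) :
    face i s ⊆ Metric.sphere 0 1 := fun _ hy => mem_sphere_zero_iff_norm.2 (crel_norm hs hy)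

omit [TopologicalSpace Z] in
theorem crel_seg {m : ℕ} (g : E (m + 1) → Z) (i : Fin (m + 1)) (s : ℤ) (x y : E m) :
    seg (g ∘ ins i s) x y = seg g (ins i s x) (ins i s y) := by
  funext t
  simp only [seg, Function.comp_apply, ins_seg]

theorem crel_cont {n : ℕ} {G : E n → Z}
    (hG : ∀ (i : Fin n) (s : ℤ), s = 1 ∨ s = -1 → ContinuousOn G (face i s)) :
    ContinuousOn G (Metric.sphere 0 1) := by
  have h1 := (locallyFinite_of_finite fun p : Fin n × Bool =>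
    face p.1 (if p.2 then 1 else -1)).continuousOn_iUnion (g := G) (fun p => isClosed_face _ _)
    fun p => hG _ _ (by cases p.2 <;> simp)
  refine h1.mono fun y hy => ?_
  obtain ⟨i, s, hs, hy⟩ := norm_eq_one_iff.1 (mem_sphere_zero_iff_norm.1 hy)
  rcases hs with rfl | rfl
  · exact mem_iUnion.2 ⟨(i, true), hy⟩
  · exact mem_iUnion.2 ⟨(i, false), hy⟩

/-- Faces in different directions meet; opposite faces both meet a third one. -/
theorem const_of_faces {X : Type} {n : ℕ} (hn : 2 ≤ n) {μ : E n → X}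
    (hμ : ∀ (i : Fin n) (s : ℤ), s = 1 ∨ s = -1 → ∀ x ∈ face i s, ∀ y ∈ face i s, μ x = μ y) :
    ∃ l : X, ∀ x, ‖x‖ = 1 → μ x = l := by
  refine ⟨μ fun _ => 1, fun x hx => ?_⟩
  obtain ⟨i, s, hs, hx⟩ := norm_eq_one_iff.1 hx
  have : Nontrivial (Fin n) := Fin.nontrivial_iff_two_le.2 hn
  obtain ⟨i', hi⟩ := exists_ne i
  have hw : ‖(fun l => if l = i then (s : ℝ) else 1 : E n)‖ ≤ 1 := by
    refine (pi_norm_le_iff_of_nonneg zero_le_one).2 fun l => ?_
    split_ifs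
    · rcases hs with rfl | rfl <;> simp
    · simp
  refine (hμ i s hs x hx _ ⟨hw, if_pos rfl⟩).trans (hμ i' 1 (Or.inl rfl) _ ⟨hw, ?_⟩ _ ⟨?_, ?_⟩)
  · simp [hi]
  · exact (pi_norm_le_iff_of_nonneg zero_le_one).2 fun l => by simp
  · simp

/-- `μ x = lam x * (hol (seg u 0 x))⁻¹` is constant on the faces by `Hol.tri` on the ball. -/
theorem Lab.relabel {n : ℕ} (hn : 2 ≤ n) {u : E n → Z} {lam : E n → Γ} (hl : Lab h u lam)
    (hu : ContinuousOn u (Metric.closedBall 0 1)) :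
    ∃ l : Γ, ∀ x, ‖x‖ = 1 → lam x = l * h.hol (seg u 0 x) := by
  obtain ⟨l, h1⟩ := const_of_faces hn (μ := fun x => lam x * (h.hol (seg u 0 x))⁻¹)
    fun i s hs x hx y hy => by
      rw [← hl.flat i s hs x hx y hy, ← h.tri _ u _ (convex_closedBall 0 1) hu 0
        (Metric.mem_closedBall_self zero_le_one) x (mem_closedBall_zero_iff.2 hx.1) y
        (mem_closedBall_zero_iff.2 hy.1)]
      group
  exact ⟨l, fun x hx => by rw [← h1 x hx, inv_mul_cancel_right]⟩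

theorem Lab.congr {n : ℕ} {g g' : E n → Z} {lam lam' : E n → Γ} (hl : Lab h g lam)
    (hg : ∀ y, ‖y‖ = 1 → g' y = g y) (he : ∀ y, ‖y‖ = 1 → lam' y = lam y) : Lab h g' lam' := by
  refine ⟨hl.cont.congr fun y hy => hg y (mem_sphere_zero_iff_norm.1 hy),
    fun i s hs x hx y hy => ?_⟩
  rw [he x (crel_norm hs hx), he y (crel_norm hs hy), ← hl.flat i s hs x hx y hy,
    h.seg_congr (convex_face i s) (fun z hz => hg z (crel_norm hs hz)) hx hy]

/-- Restriction to the boundary of a face (`ins_face`, `ins_seg`). -/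
theorem Lab.ins {m : ℕ} {g : E (m + 1) → Z} {lam : E (m + 1) → Γ} (hl : Lab h g lam)
    (i : Fin (m + 1)) {s : ℤ} (hs : s = 1 ∨ s = -1) : Lab h (g ∘ ins i s) (lam ∘ ins i s) := by
  refine ⟨hl.cont.comp (continuous_ins i s).continuousOn fun x hx =>
    crel_sub hs (ins_mem_face i hs (mem_sphere_zero_iff_norm.1 hx).le), fun l s' hs' x hx y hy => ?_⟩
  rw [crel_seg]
  exact hl.flat _ s' hs' _ (ins_face i hs hx) _ (ins_face i hs hy)

/-- For every face, `Lab.ins`, `Lab.congr` and `Lab.relabel` give `l i s` with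
`lam y = l i s * hol (seg g' (ins i s 0) y)` on the points of the face in `Skel`. Define
`lam' y` by this formula for a chosen face through `y`; by `skel_of_faces` the formula holds for
every face through `y`. -/
theorem Lab.exists {m : ℕ} (hm : 2 ≤ m) {g g' : E (m + 1) → Z} {lam : E (m + 1) → Γ}
    (hl : Lab h g lam) (hg' : ContinuousOn g' (Metric.sphere 0 1))
    (he : ∀ y, Skel y → g' y = g y) :
    ∃ lam' : E (m + 1) → Γ, Lab h g' lam' ∧ ∀ y, Skel y → lam' y = lam y := by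
  classical
  have key : ∀ (i : Fin (m + 1)) (s : ℤ), s = 1 ∨ s = -1 → ∃ l : Γ, ∀ y ∈ face i s, Skel y →
      lam y = l * h.hol (seg g' (OC.ins i s 0) y) := by
    intro i s hs
    have h1 : Lab h (g' ∘ OC.ins i s) (lam ∘ OC.ins i s) :=
      (hl.ins i hs).congr (fun x hx => he _ ((skel_ins i hs hx.le).2 hx)) fun _ _ => rfl
    obtain ⟨l, h2⟩ := h1.relabel hm (hg'.comp (continuous_ins i s).continuousOn fun x hx =>
      crel_sub hs (ins_mem_face i hs (mem_closedBall_zero_iff.1 hx)))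
    refine ⟨l, fun y hy hk => ?_⟩
    obtain ⟨x, hx, rfl⟩ := exists_ins hy
    rw [← crel_seg]
    exact h2 x ((skel_ins i hs hx).1 hk)
  choose! l h1 using key
  obtain ⟨lam', hlam⟩ : ∃ lam' : E (m + 1) → Γ, lam' = fun y => if Skel y then lam y else
      if hy : ∃ p : Fin (m + 1) × ℤ, (p.2 = 1 ∨ p.2 = -1) ∧ y ∈ face p.1 p.2 then
        l hy.choose.1 hy.choose.2 * h.hol (seg g' (OC.ins hy.choose.1 hy.choose.2 0) y) else 1 :=
    ⟨_, rfl⟩
  have h2 : ∀ (i : Fin (m + 1)) (s : ℤ), s = 1 ∨ s = -1 → ∀ y ∈ face i s,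
      lam' y = l i s * h.hol (seg g' (OC.ins i s 0) y) := by
    intro i s hs y hy
    by_cases hk : Skel y
    · simp only [hlam, if_pos hk]
      exact h1 i s hs y hy hk
    · have h3 : ∃ p : Fin (m + 1) × ℤ, (p.2 = 1 ∨ p.2 = -1) ∧ y ∈ face p.1 p.2 := ⟨(i, s), hs, hy⟩
      have h4 : h3.choose = (i, s) := by
        by_contra h5
        exact hk (skel_of_faces h3.choose_spec.1 hs h5 h3.choose_spec.2 hy)
      simp only [hlam, if_neg hk, dif_pos h3, h4]
  refine ⟨lam', ⟨hg', fun i s hs x hx y hy => ?_⟩, fun y hk => by simp only [hlam, if_pos hk]⟩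
  rw [h2 i s hs x hx, h2 i s hs y hy, mul_assoc, h.tri _ g' _ (convex_face i s)
    (hg'.mono (crel_sub hs)) _ (ins_mem_face i hs (by simp)) x hx y hy]

/-- Mixing two labelled maps that agree on `Skel`: on each face the mixture is one of the two. -/
theorem Lab.mix {n : ℕ} {g g' : E n → Z} {lam lam' : E n → Γ} (hl : Lab h g lam)
    (hl' : Lab h g' lam') (he : ∀ y, Skel y → g' y = g y ∧ lam' y = lam y)
    (T : Finset (Fin n × ℤ)) (hT : ∀ p ∈ T, p.2 = 1 ∨ p.2 = -1) :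
    ∃ (G : E n → Z) (Λ : E n → Γ), Lab h G Λ ∧ ∀ (i : Fin n) (s : ℤ), s = 1 ∨ s = -1 →
      ∀ y ∈ face i s, ((i, s) ∈ T → G y = g' y ∧ Λ y = lam' y) ∧
        ((i, s) ∉ T → G y = g y ∧ Λ y = lam y) := by
  classical
  obtain ⟨G, hG⟩ : ∃ G : E n → Z, G = fun y =>
    if ∃ p ∈ T, y ∈ face p.1 p.2 then g' y else g y := ⟨_, rfl⟩
  obtain ⟨Λ, hΛ⟩ : ∃ Λ : E n → Γ, Λ = fun y =>
    if ∃ p ∈ T, y ∈ face p.1 p.2 then lam' y else lam y := ⟨_, rfl⟩
  have key : ∀ (i : Fin n) (s : ℤ), s = 1 ∨ s = -1 → ∀ y ∈ face i s,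
      ((i, s) ∈ T → G y = g' y ∧ Λ y = lam' y) ∧ ((i, s) ∉ T → G y = g y ∧ Λ y = lam y) := by
    intro i s hs y hy
    refine ⟨fun h1 => ?_, fun h1 => ?_⟩
    · have h2 : ∃ p ∈ T, y ∈ face p.1 p.2 := ⟨(i, s), h1, hy⟩
      simp only [hG, hΛ, if_pos h2, and_self]
    · by_cases h2 : ∃ p ∈ T, y ∈ face p.1 p.2
      · simp only [hG, hΛ, if_pos h2]
        obtain ⟨p, p1, p2⟩ := h2
        refine he y (skel_of_faces (hT p p1) hs ?_ p2 hy)
        exact fun e => h1 (e ▸ p1)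
      · simp only [hG, hΛ, if_neg h2, and_self]
  refine ⟨G, Λ, ⟨crel_cont fun i s hs => ?_, fun i s hs x hx y hy => ?_⟩, key⟩
  · by_cases h1 : (i, s) ∈ T
    · exact (hl'.cont.mono (crel_sub hs)).congr fun y hy => ((key i s hs y hy).1 h1).1
    · exact (hl.cont.mono (crel_sub hs)).congr fun y hy => ((key i s hs y hy).2 h1).1
  · by_cases h1 : (i, s) ∈ T
    · rw [((key i s hs x hx).1 h1).2, ((key i s hs y hy).1 h1).2, ← hl'.flat i s hs x hx y hy,
        h.seg_congr (convex_face i s) (fun z hz => ((key i s hs z hz).1 h1).1) hx hy]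
    · rw [((key i s hs x hx).2 h1).2, ((key i s hs y hy).2 h1).2, ← hl.flat i s hs x hx y hy,
        h.seg_congr (convex_face i s) (fun z hz => ((key i s hs z hz).2 h1).1) hx hy]

end Pool.Agent.Lib.MP_5ceaf9_gt.OC
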