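import Pool.Agent.Lib.MP_5ceaf9_gt.CRot
import Pool.Agent.Lib.MP_5ceaf9_gt.CRel

noncomputable section

namespace Pool.Agent.Lib.MP_5ceaf9_gt.OC

open Set

variable {Z Γ : Type} [TopologicalSpace Z] [Group Γ] {h : Hol Z Γ} {j : ℕ} {A : Type}
  [AddCommGroup A] [DistribMulAction Γ A] (F : FC h j A)


theorem FC.OO_congr {g g' : E (j + 2) → Z} {lam lam' : E (j + 2) → Γ}
    (he : ∀ y, ‖y‖ = 1 → g y = g' y ∧ lam y = lam' y) : F.OO g lam = F.OO g' lam' := by
  rw [FC.OO, FC.OO, F.oo_congr fun y hy => (he y hy).1, (he _ norm_south).2]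

theorem cdf_norm_rot {m : ℕ} (i : Fin (m + 1)) {s : ℤ} (hs : s = 1 ∨ s = -1) (y : E (m + 1)) :
    ‖rot i s y‖ = ‖y‖ := by
  rcases hs with rfl | rfl
  · rw [rot_one, norm_perm]
  · rw [rot_neg_one, rot_one, norm_perm, norm_rf]

theorem cdf_sq (i : ℕ) {s : ℤ} (hs : s = 1 ∨ s = -1) : ((-1) ^ i * s) * ((-1) ^ i * s) = 1 := by
  have h1 : ((-1 : ℤ) ^ i) * (-1) ^ i = 1 := by
    rw [← mul_pow, neg_mul_neg, one_mul, one_pow]
  rcases hs with rfl | rfl
  · rw [mul_one, h1]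
  · rw [mul_neg, mul_one, neg_mul_neg, h1]

theorem cdf_ne {s : ℤ} (hs : s = 1 ∨ s = -1) : -s ≠ s := by omega

theorem cdf_neg {s : ℤ} (hs : s = 1 ∨ s = -1) : -s = 1 ∨ -s = -1 := by omega

/-- Compose with `rot i s` (`FC.OO_rot`, the sign squares to one) and apply `FC.ml` to
`W = g ∘ rot i s ∘ kap`, `W' = g' ∘ rot i s ∘ kap`, `R = 4` (`kap_face`, `rot_cons`, `skel_ins`,
`rot_south`); `Lab.path` along `t ↦ kap (p + t • (0 - p))` turns the holonomy into the label. -/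
theorem FC.one_face {g g' : E (j + 2) → Z} {lam lam' : E (j + 2) → Γ} (hl : Lab h g lam)
    (hl' : Lab h g' lam') (i : Fin (j + 2)) {s : ℤ} (hs : s = 1 ∨ s = -1)
    (he : ∀ y, ‖y‖ = 1 → (y i ≠ (s : ℝ) ∨ Skel y) → g' y = g y)
    (hs' : lam' (ins i (-s) 0) = lam (ins i (-s) 0)) :
    F.OO g' lam' = F.OO g lam +
      ((-1) ^ (i : ℕ) * s : ℤ) • lam (ins i s 0) • F.dd (g ∘ ins i s) (g' ∘ ins i s) := by
  have hL := hl.rot i hs
  have hL' := hl'.rot i hs
  have hs0 : (s : ℝ) ≠ 0 := by rcases hs with rfl | rfl <;> norm_num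
  have hW : ∀ x : E (j + 1), 1 ≤ ‖x‖ → ((g' ∘ rot i s) ∘ kap) x = ((g ∘ rot i s) ∘ kap) x := by
    intro x hx
    refine he _ ((cdf_norm_rot i hs _).trans (norm_kap x)) ?_
    by_cases h1 : kap x 0 = 1
    · obtain ⟨w, hw, e⟩ := kap_face hx h1
      rw [e, rot_cons]
      exact Or.inr ((skel_ins i hs hw.le).2 hw)
    · refine Or.inl fun e => h1 ?_
      rw [rot_same] at e
      exact mul_left_cancel₀ hs0 (e.trans (mul_one _).symm)
  have hz : (g' ∘ rot i s) (south (j + 1)) = (g ∘ rot i s) (south (j + 1)) := by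
    have h4 : ‖(fun _ => 4 : E (j + 1))‖ = 4 := by
      rw [pi_norm_const, Real.norm_of_nonneg (by norm_num)]
    have h1 := hW (fun _ => 4) (by rw [h4]; norm_num)
    simp only [Function.comp_apply] at h1 ⊢
    rwa [kap_of_ge h4.ge] at h1
  obtain ⟨p, hp, e⟩ := F.ml (evc_kap hL.cont) (hz ▸ evc_kap hL'.cont) hW
  have hpath := hL.path (fun t => kap (p + t • (0 - p)))
    (continuous_kap.comp (by fun_prop)).continuousOn
    fun t _ => mem_sphere_zero_iff_norm.2 (norm_kap _)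
  have h0 : kap (p + (0 : ℝ) • (0 - p)) = south (j + 1) := by
    rw [zero_smul, add_zero, kap_of_ge hp]
  have h1 : kap (p + (1 : ℝ) • (0 - p)) = Fin.cons 1 0 := by
    rw [one_smul, add_sub_cancel, kap_of_le (by rw [norm_zero]; exact zero_le_one)]
  have hd : F.dd ((g ∘ rot i s) ∘ kap) ((g' ∘ rot i s) ∘ kap) =
      F.dd (g ∘ ins i s) (g' ∘ ins i s) :=
    F.dd_congr (fun x hx => by simp only [Function.comp_apply, kap_of_le hx, rot_cons])
      fun x hx => by simp only [Function.comp_apply, kap_of_le hx, rot_cons]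
  have hlab : (lam ∘ rot i s) (south (j + 1)) * h.hol (seg ((g ∘ rot i s) ∘ kap) p 0) =
      lam (ins i s 0) := by
    rw [← rot_cons, ← h0, ← h1]
    exact hpath
  have hs2 : (lam' ∘ rot i s) (south (j + 1)) = (lam ∘ rot i s) (south (j + 1)) := by
    simp only [Function.comp_apply, rot_south, hs']
  have key : F.OO (g' ∘ rot i s) (lam' ∘ rot i s) = F.OO (g ∘ rot i s) (lam ∘ rot i s) +
      lam (ins i s 0) • F.dd (g ∘ ins i s) (g' ∘ ins i s) := by
    rw [FC.OO, FC.OO, FC.oo, FC.oo, e, hs2, smul_add, ← mul_smul, hlab, hd]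
  rw [F.OO_rot hl i hs, F.OO_rot hl' i hs] at key
  have key2 := congrArg (fun a : A => ((-1) ^ (i : ℕ) * s : ℤ) • a) key
  simp only [smul_add, ← mul_smul (α := ℤ), cdf_sq _ hs, one_smul] at key2
  exact key2

theorem cdf_ind {g g' : E (j + 2) → Z} {lam lam' : E (j + 2) → Γ} (hl : Lab h g lam)
    (hl' : Lab h g' lam') (he : ∀ y, Skel y → g' y = g y ∧ lam' y = lam y)
    (T : Finset (Fin (j + 2) × ℤ)) : (∀ p ∈ T, p.2 = 1 ∨ p.2 = -1) →
    ∀ (G : E (j + 2) → Z) (Λ : E (j + 2) → Γ), Lab h G Λ →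
      (∀ (i : Fin (j + 2)) (s : ℤ), s = 1 ∨ s = -1 → ∀ y ∈ face i s,
        ((i, s) ∈ T → G y = g' y ∧ Λ y = lam' y) ∧ ((i, s) ∉ T → G y = g y ∧ Λ y = lam y)) →
      F.OO G Λ = F.OO g lam + ∑ p ∈ T, ((-1) ^ (p.1 : ℕ) * p.2 : ℤ) • lam (ins p.1 p.2 0) •
        F.dd (g ∘ ins p.1 p.2) (g' ∘ ins p.1 p.2) := by
  induction T using Finset.induction_on with
  | empty =>
    intro _ G Λ _ hG
    rw [Finset.sum_empty, add_zero]
    refine F.OO_congr fun y hy => ?_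
    obtain ⟨i, s, hs, hy'⟩ := norm_eq_one_iff.1 hy
    exact (hG i s hs y hy').2 (Finset.notMem_empty _)
  | insert p T hp ih =>
    intro hT G Λ hL hG
    obtain ⟨i, s⟩ := p
    have hs : s = 1 ∨ s = -1 := hT _ (Finset.mem_insert_self _ _)
    have hT' : ∀ q ∈ T, q.2 = 1 ∨ q.2 = -1 := fun q hq => hT q (Finset.mem_insert_of_mem hq)
    obtain ⟨G₀, Λ₀, hL₀, hG₀⟩ := hl.mix hl' he T hT'
    have same : ∀ (i' : Fin (j + 2)) (s' : ℤ), s' = 1 ∨ s' = -1 → (i', s') ≠ (i, s) →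
        ∀ y ∈ face i' s', G y = G₀ y ∧ Λ y = Λ₀ y := by
      intro i' s' hs' hne y hy
      by_cases hm : (i', s') ∈ T
      · have a1 := (hG i' s' hs' y hy).1 (Finset.mem_insert_of_mem hm)
        have a2 := (hG₀ i' s' hs' y hy).1 hm
        exact ⟨a1.1.trans a2.1.symm, a1.2.trans a2.2.symm⟩
      · have a1 := (hG i' s' hs' y hy).2 fun e => (Finset.mem_insert.1 e).elim hne hm
        have a2 := (hG₀ i' s' hs' y hy).2 hm
        exact ⟨a1.1.trans a2.1.symm, a1.2.trans a2.2.symm⟩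
    have h00 : ‖(0 : E (j + 1))‖ ≤ 1 := by rw [norm_zero]; exact zero_le_one
    have h1 := F.one_face hL₀ hL i hs (fun y hy hc => by
        obtain ⟨i', s', hs', hy'⟩ := norm_eq_one_iff.1 hy
        by_cases hne : (i', s') = (i, s)
        · obtain ⟨rfl, rfl⟩ := Prod.mk.inj hne
          have hk : Skel y := hc.resolve_left fun e => e hy'.2
          rw [((hG i' s' hs y hy').1 (Finset.mem_insert_self _ _)).1,
            ((hG₀ i' s' hs y hy').2 hp).1, (he y hk).1]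
        · exact (same i' s' hs' hne y hy').1)
      (same i (-s) (cdf_neg hs) (fun e => cdf_ne hs (Prod.mk.inj e).2) _
        (ins_mem_face i (cdf_neg hs) h00)).2
    have h2 : F.dd (G₀ ∘ ins i s) (G ∘ ins i s) = F.dd (g ∘ ins i s) (g' ∘ ins i s) :=
      F.dd_congr (fun x hx => ((hG₀ i s hs _ (ins_mem_face i hs hx)).2 hp).1)
        fun x hx => ((hG i s hs _ (ins_mem_face i hs hx)).1 (Finset.mem_insert_self _ _)).1
    rw [h1, ih hT' G₀ Λ₀ hL₀ hG₀, Finset.sum_insert hp, h2,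
      ((hG₀ i s hs _ (ins_mem_face i hs h00)).2 hp).2, add_assoc, add_comm (∑ p ∈ T, _)]

/-- Induction on `T`: for every `(G, Λ)` as in `Lab.mix` the class is `OO g lam` plus the sum over
`T` of the terms of `FC.one_face`. -/
theorem FC.many_faces {g g' : E (j + 2) → Z} {lam lam' : E (j + 2) → Γ} (hl : Lab h g lam)
    (hl' : Lab h g' lam') (he : ∀ y, Skel y → g' y = g y ∧ lam' y = lam y) :
    F.OO g' lam' = F.OO g lam + ∑ p ∈ (Finset.univ : Finset (Fin (j + 2))) ×ˢ ({1, -1} : Finset ℤ),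
      ((-1) ^ (p.1 : ℕ) * p.2 : ℤ) • lam (ins p.1 p.2 0) •
        F.dd (g ∘ ins p.1 p.2) (g' ∘ ins p.1 p.2) := by
  refine cdf_ind F hl hl' he _ (fun p hp => ?_) g' lam' hl' fun i s hs y _ =>
    ⟨fun _ => ⟨rfl, rfl⟩, fun hn => absurd ?_ hn⟩
  · have h1 := (Finset.mem_product.1 hp).2
    rwa [Finset.mem_insert, Finset.mem_singleton] at h1
  · refine Finset.mem_product.2 ⟨Finset.mem_univ _, ?_⟩
    rwa [Finset.mem_insert, Finset.mem_singleton]

/-- The difference formula (`Lab.exists`, `FC.many_faces`). -/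
theorem FC.df (hj : 1 ≤ j) {g g' : E (j + 2) → Z} {lam : E (j + 2) → Γ} (hl : Lab h g lam)
    (hg' : ContinuousOn g' (Metric.sphere 0 1)) (he : ∀ y, Skel y → g' y = g y) :
    ∃ γ : Γ, γ • F.oo g' = F.OO g lam + ∑ i : Fin (j + 2), ((-1) ^ (i : ℕ) : ℤ) •
      (lam (ins i 1 0) • F.dd (g ∘ ins i 1) (g' ∘ ins i 1) -
        lam (ins i (-1) 0) • F.dd (g ∘ ins i (-1)) (g' ∘ ins i (-1))) := by
  obtain ⟨lam', hl', he'⟩ := hl.exists (by omega) hg' he
  refine ⟨lam' (south (j + 1)), (F.many_faces hl hl' fun y hy => ⟨he y hy, he' y hy⟩).trans ?_⟩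
  rw [Finset.sum_product]
  refine congrArg _ (Finset.sum_congr rfl fun i _ => ?_)
  rw [Finset.sum_pair (by norm_num), mul_one, mul_neg, mul_one, neg_smul, smul_sub,
    sub_eq_add_neg]

end Pool.Agent.Lib.MP_5ceaf9_gt.OC
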