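import Pool.Agent.Lib.MP_5ceaf9_gt.Lat

/-! Definitions for cubical obstruction theory. -/

noncomputable section

namespace Pool.Agent.Lib.MP_5ceaf9_gt.OC

open Set

/-- Real space with the sup norm. -/
abbrev E (n : ℕ) : Type := Fin n → ℝ

/-- The map `g` along the segment from `x` to `y`. -/
def seg {X Z : Type} [AddCommGroup X] [Module ℝ X] (g : X → Z) (x y : X) : ℝ → Z :=
  fun t => g (x + t • (y - x))

/-- Holonomy of paths with values in the fundamental group. -/
structure Hol (Z Γ : Type) [TopologicalSpace Z] [Group Γ] where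
  /-- The class of a path parametrised by the unit interval. -/
  hol : (ℝ → Z) → Γ
  congr : ∀ σ τ : ℝ → Z, (∀ t ∈ Icc (0 : ℝ) 1, σ t = τ t) → hol σ = hol τ
  tri : ∀ (X : Type) [NormedAddCommGroup X] [NormedSpace ℝ X] (g : X → Z) (C : Set X),
    Convex ℝ C → ContinuousOn g C → ∀ x ∈ C, ∀ y ∈ C, ∀ z ∈ C,
      hol (seg g x y) * hol (seg g y z) = hol (seg g x z)
  real : ∀ (z z' : Z) (γ : Γ), ∃ σ : ℝ → Z, Continuous σ ∧ σ 0 = z ∧ σ 1 = z' ∧ hol σ = γ
  null : ∀ σ : ℝ → Z, ContinuousOn σ (Icc 0 1) → σ 1 = σ 0 → hol σ = 1 →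
    ∃ N : ℝ × ℝ → Z, Continuous N ∧ (∀ t ∈ Icc (0 : ℝ) 1, N (t, 0) = σ t) ∧
      (∀ t, N (t, 1) = σ 0) ∧ (∀ s, N (0, s) = σ 0) ∧ ∀ s, N (1, s) = σ 0

section maps

variable {Z : Type}

/-- Continuous, and equal to `z` outside the open ball of radius `R`. -/
def EvC [TopologicalSpace Z] {k : ℕ} (V : E k → Z) (R : ℝ) (z : Z) : Prop :=
  Continuous V ∧ ∀ x, R ≤ ‖x‖ → V x = z

/-- The part of `V` below the hyperplane. -/
def lo {j : ℕ} (c : ℝ) (z : Z) (V : E (j + 1) → Z) : E (j + 1) → Z :=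
  fun x => if x 0 ≤ c then V x else z

/-- The part of `V` above the hyperplane. -/
def hi {j : ℕ} (c : ℝ) (z : Z) (V : E (j + 1) → Z) : E (j + 1) → Z :=
  fun x => if x 0 ≤ c then z else V x

/-- Reflection of one coordinate. -/
def rf {k : ℕ} (i : Fin k) (x : E k) : E k := Function.update x i (-x i)

/-- The sign of a flip. -/
def sg {k : ℕ} (θ : Fin k → Bool) : ℤ := (-1) ^ (Finset.univ.filter (fun i => θ i)).card

/-- Identity on the unit ball, then back to the centre. -/
def fold {k : ℕ} (x : E k) : E k := (max 0 (min 1 (2 - ‖x‖)) / max 1 ‖x‖) • x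

/-- `v` on the unit ball and `u` folded outside. -/
def glue {k : ℕ} (u v : E k → Z) : E k → Z := fun x => if ‖x‖ ≤ 1 then v x else u (fold x)

/-- Parametrisation of the boundary of the cube; the unit ball goes to the face `y 0 = 1`. -/
def kap {m : ℕ} (x : E m) : E (m + 1) :=
  Fin.cons (max (-1) (min 1 (2 - ‖x‖))) ((max 0 (min 1 (4 - ‖x‖)) / max 1 ‖x‖) • x)

/-- The centre of the face `y 0 = -1`. -/
def south (m : ℕ) : E (m + 1) := Fin.cons (-1) 0

/-- A face of the cube. -/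
def face {n : ℕ} (i : Fin n) (s : ℤ) : Set (E n) := {y | ‖y‖ ≤ 1 ∧ y i = s}

/-- The chart of a face. -/
def ins {m : ℕ} (i : Fin (m + 1)) (s : ℤ) (x : E m) : E (m + 1) :=
  Fin.insertNth (α := fun _ => ℝ) i (s : ℝ) x

/-- The signed permutation that takes the face `y 0 = 1` to the face `y i = s`. -/
def rot {m : ℕ} (i : Fin (m + 1)) (s : ℤ) (y : E (m + 1)) : E (m + 1) :=
  Fin.insertNth (α := fun _ => ℝ) i (s * y 0) (Fin.tail y)

/-- Points of the cube on two different faces. -/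
def Skel {n : ℕ} (y : E n) : Prop := ‖y‖ ≤ 1 ∧ ∃ i i', i ≠ i' ∧ |y i| = 1 ∧ |y i'| = 1

open Classical in
/-- Number of coordinates inside the open interval. -/
def cnt {n : ℕ} (y : E n) : ℕ := (Finset.univ.filter (fun i => |y i| < 1)).card

end maps

/-- Based classes of eventually constant maps. -/
structure Cls {Z : Type} [TopologicalSpace Z] (z0 : Z) (j : ℕ) (A : Type) [AddCommGroup A] where
  /-- The class. -/
  cls : (E (j + 1) → Z) → A
  htpy : ∀ (H : ℝ × E (j + 1) → Z) (R : ℝ), ContinuousOn H (Icc 0 1 ×ˢ univ) →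
    (∀ t ∈ Icc (0 : ℝ) 1, ∀ x, R ≤ ‖x‖ → H (t, x) = z0) →
      cls (fun x => H (0, x)) = cls (fun x => H (1, x))
  split : ∀ (V : E (j + 1) → Z) (R : ℝ), EvC V R z0 → (∀ x, x 0 = 0 → V x = z0) →
    cls V = cls (lo 0 z0 V) + cls (hi 0 z0 V)
  refl : ∀ (V : E (j + 1) → Z) (R : ℝ) (i : Fin (j + 1)), EvC V R z0 → cls (V ∘ rf i) = -cls V
  inj : ∀ (V W : E (j + 1) → Z) (R : ℝ), 0 < R → EvC V R z0 → EvC W R z0 → cls V = cls W →
    ∃ H : ℝ × E (j + 1) → Z, Continuous H ∧ (∀ x, H (0, x) = V x) ∧ (∀ x, H (1, x) = W x) ∧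
      ∀ t x, R ≤ ‖x‖ → H (t, x) = z0
  real : ∀ a : A, ∃ V : E (j + 1) → Z, EvC V 1 z0 ∧ cls V = a

section labels

variable {Z Γ : Type} [TopologicalSpace Z] [Group Γ] (h : Hol Z Γ)

/-- A homotopy of eventually constant maps whose track at infinity has holonomy `g`. -/
def Mv {k : ℕ} (V : E k → Z) (g : Γ) (W : E k → Z) : Prop :=
  ∃ (H : ℝ × E k → Z) (β : ℝ → Z) (R : ℝ), ContinuousOn H (Icc 0 1 ×ˢ univ) ∧
    (∀ t ∈ Icc (0 : ℝ) 1, ∀ x, R ≤ ‖x‖ → H (t, x) = β t) ∧ (∀ x, H (0, x) = V x) ∧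
      (∀ x, H (1, x) = W x) ∧ h.hol β = g

/-- Free classes of eventually constant maps. -/
structure FC (j : ℕ) (A : Type) [AddCommGroup A] [DistribMulAction Γ A] where
  /-- The class. -/
  fc : (E (j + 1) → Z) → A
  htpy : ∀ (V W : E (j + 1) → Z) (g : Γ), Mv h V g W → fc V = g • fc W
  split : ∀ (V : E (j + 1) → Z) (R c : ℝ) (z : Z), EvC V R z → (∀ x, x 0 = c → V x = z) →
    fc V = fc (lo c z V) + fc (hi c z V)
  refl : ∀ (V : E (j + 1) → Z) (R : ℝ) (z : Z) (i : Fin (j + 1)), EvC V R z →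
    fc (V ∘ rf i) = -fc V
  null : ∀ (V : E (j + 1) → Z) (R : ℝ) (z : Z), 0 < R → EvC V R z → fc V = 0 →
    ∃ H : ℝ × E (j + 1) → Z, Continuous H ∧ (∀ x, H (0, x) = V x) ∧ (∀ x, H (1, x) = z) ∧
      ∀ t x, R ≤ ‖x‖ → H (t, x) = z
  real : ∀ (z : Z) (a : A), ∃ V : E (j + 1) → Z, EvC V 1 z ∧ fc V = a

/-- The labelling `lam` is flat along the segments of `C`. -/
def SegFlat {n : ℕ} (g : E n → Z) (lam : E n → Γ) (C : Set (E n)) : Prop :=
  ∀ x ∈ C, ∀ y ∈ C, lam x * h.hol (seg g x y) = lam y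

/-- The labelling `lam` is flat along all paths in `S`. -/
def Flat {n : ℕ} (g : E n → Z) (lam : E n → Γ) (S : Set (E n)) : Prop :=
  ∀ σ : ℝ → E n, ContinuousOn σ (Icc 0 1) → MapsTo σ (Icc 0 1) S →
    lam (σ 0) * h.hol (g ∘ σ) = lam (σ 1)

/-- A map on the boundary of the cube with a labelling that is flat on every face. -/
structure Lab {n : ℕ} (g : E n → Z) (lam : E n → Γ) : Prop where
  cont : ContinuousOn g (Metric.sphere 0 1)
  flat : ∀ (i : Fin n) (s : ℤ), s = 1 ∨ s = -1 → SegFlat h g lam (face i s)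

variable {h} {j : ℕ} {A : Type} [AddCommGroup A] [DistribMulAction Γ A] (F : FC h j A)

/-- The difference of two fillings. -/
def FC.dd (u v : E (j + 1) → Z) : A := F.fc (glue u v)

/-- The class of a map on the boundary of the cube. -/
def FC.oo (g : E (j + 2) → Z) : A := F.fc (g ∘ kap)

/-- The class of a labelled map on the boundary of the cube. -/
def FC.OO (g : E (j + 2) → Z) (lam : E (j + 2) → Γ) : A := lam (south (j + 1)) • F.oo g

end labels

/-- Two fillings of the same map on the boundary. -/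
structure Fill {Z : Type} [TopologicalSpace Z] {k : ℕ} (u v : E k → Z) : Prop where
  cu : ContinuousOn u (Metric.closedBall 0 1)
  cv : ContinuousOn v (Metric.closedBall 0 1)
  eq : ∀ x, ‖x‖ = 1 → u x = v x

section cells

variable {n : ℕ}

/-- The centre of a cell. -/
def ctr (e : Lat n) : E n := fun i => (e i : ℝ)

/-- An odd integer itself, otherwise the nearest even integer. -/
def car0 (t : ℝ) : ℤ := ⌊(t + 1) / 2⌋ + ⌈(t - 1) / 2⌉

/-- The smallest cell containing a point. -/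
def car (x : E n) : Lat n := fun i => car0 (x i)

/-- `ι` enumerates the directions of `e` in increasing order. -/
def Chart {k : ℕ} (e : Lat n) (ι : Fin k → Fin n) : Prop :=
  StrictMono ι ∧ ∀ i, e i % 2 = 0 ↔ i ∈ range ι

/-- The parametrisation of a cell. -/
def chi {k : ℕ} (e : Lat n) (ι : Fin k → Fin n) (x : E k) : E n :=
  ctr e + Function.extend ι x 0

/-- The coordinates on a cell. -/
def co {k : ℕ} (e : Lat n) (ι : Fin k → Fin n) (y : E n) : E k := fun j => y (ι j) - e (ι j)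

open Classical in
/-- The parametrisation of a cell of dimension `k`. -/
def ch (k : ℕ) (e : Lat n) : E k → E n :=
  if h : ∃ ι : Fin k → Fin n, Chart e ι then chi e h.choose else 0

/-- A face of codimension one. -/
def fac (e : Lat n) (i : Fin n) (s : ℤ) : Lat n := e + Pi.single i s

/-- The cells of `Q` and the cells of dimension less than `m`. -/
def dom (Q P : Finset (Lat n)) (m : ℕ) : Finset (Lat n) := P.filter fun a => a ∈ Q ∨ dimE a < m

/-- The new cells of dimension `m`. -/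
def nw (Q P : Finset (Lat n)) (m : ℕ) : Finset (Lat n) := P.filter fun a => a ∉ Q ∧ dimE a = m

/-- A pair of invariant voxel complexes. -/
structure Pair (η : Fin n → Bool) (Q P : Finset (Lat n)) : Prop where
  sub : Q ⊆ P
  uQ : UpC Q
  uP : UpC P
  iQ : Invt η Q
  iP : Invt η P
  free : Free η P

/-- Vanishing of the twisted cohomology in degrees at least three. -/
def H3 (η : Fin n → Bool) (Q P : Finset (Lat n)) : Prop :=
  ∀ (Γ A : Type) [Group Γ] [AddCommGroup A] [DistribMulAction Γ A] (c : Lat n → Lat n → Γ),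
    InvC η c → FlatL P c → ∀ (k : ℕ) (φ : Lat n → A), CochL η Q P (k + 3) φ →
      (∀ e ∈ P, dE c φ e = 0) → ∃ ψ : Lat n → A, CochL η Q P (k + 2) ψ ∧ ∀ e ∈ P, dE c ψ e = φ e

variable {Z Γ : Type} [TopologicalSpace Z] [Group Γ] (h : Hol Z Γ)

/-- The state of the induction. -/
structure St (η : Fin n → Bool) (Q P : Finset (Lat n)) (m : ℕ) (f : E n → Z)
    (c : Lat n → Lat n → Γ) : Prop where
  cont : ContinuousOn f (vox (dom Q P m))
  inv : ∀ x, f (fl η x) = f x
  cinv : InvC η c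
  flat : FlatL P c
  agree : ∀ a ∈ dom Q P m, ∀ b, le1 a b → c a b = h.hol (seg f (ctr a) (ctr b))

/-- The labelling seen from the cell `a`. -/
def lab (f : E n → Z) (c : Lat n → Lat n → Γ) (a : Lat n) (x : E n) : Γ :=
  c a (car x) * h.hol (seg f (ctr (car x)) x)

variable {h} in
/-- The obstruction of a cell of dimension `j + 2`. -/
def FC.ob {j : ℕ} {A : Type} [AddCommGroup A] [DistribMulAction Γ A] (F : FC h j A) (f : E n → Z)
    (c : Lat n → Lat n → Γ) (a : Lat n) : A :=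
  F.OO (f ∘ ch (j + 2) a) (lab h f c a ∘ ch (j + 2) a)

/-- The product with an interval. -/
def cyl (L : Finset (Lat n)) : Finset (Lat (n + 1)) :=
  (({-1, 0, 1} : Finset ℤ) ×ˢ L).image fun p => Fin.cons p.1 p.2

/-- The two ends and the product of the subcomplex with the interval. -/
def cylQ (K L : Finset (Lat n)) : Finset (Lat (n + 1)) :=
  (cyl L).filter fun e => e 0 ≠ 0 ∨ Fin.tail e ∈ K

/-- The flip of the product. -/
def cη (η : Fin n → Bool) : Fin (n + 1) → Bool := Fin.cons false η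

end cells

end Pool.Agent.Lib.MP_5ceaf9_gt.OC
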