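import Pool.Agent.Lib.MP_5ceaf9_gt.CCell

noncomputable section

namespace Pool.Agent.Lib.MP_5ceaf9_gt.OC

open Set

variable {n : ℕ} {η : Fin n → Bool} {B : Finset (Lat n)} {Z : Type} [TopologicalSpace Z]

theorem cdesc_eq {x y : E n} : pr η x = pr η y ↔ y = x ∨ y = fl η x := Quotient.eq

theorem pr_fl (x : E n) : pr η (fl η x) = pr η x := by
  exact (Quotient.sound (s := fs ℝ η) (Or.inr rfl)).symm

/-- The preimage of the image of `U` is `U ∪ fl η ⁻¹' U`. -/
theorem isOpenQuotientMap_pr : IsOpenQuotientMap (pr η) := by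
  refine ⟨Quotient.mk_surjective, continuous_quotient_mk', fun U hU => ?_⟩
  have e : pr η ⁻¹' (pr η '' U) = U ∪ fl η ⁻¹' U := by
    ext x
    constructor
    · rintro ⟨y, hy, h⟩
      rcases cdesc_eq.1 h with h | h
      · exact Or.inl (h ▸ hy)
      · refine Or.inr ?_
        show fl η x ∈ U
        rwa [h, fl_fl]
    · rintro (h | h)
      · exact ⟨x, h, rfl⟩
      · exact ⟨fl η x, h, pr_fl x⟩
  have hq : Topology.IsQuotientMap (pr η) := isQuotientMap_quotient_mk'
  rw [← hq.isOpen_preimage, e]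
  exact hU.union (hU.preimage (continuous_fl η))

theorem cdesc_res (η : Fin n → Bool) (S : Set (QR η)) :
    IsOpenQuotientMap (S.restrictPreimage (pr η)) :=
  ⟨S.restrictPreimage_surjective isOpenQuotientMap_pr.surjective,
    isOpenQuotientMap_pr.continuous.restrictPreimage,
    isOpenQuotientMap_pr.isOpenMap.restrictPreimage S⟩

theorem pr_mem_vq (hB : Invt η B) {x : E n} : pr η x ∈ vq η B ↔ x ∈ vox B := by
  refine ⟨?_, fun h => ⟨x, h, rfl⟩⟩
  rintro ⟨y, hy, h⟩
  rcases cdesc_eq.1 h with h | h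
  · exact h ▸ hy
  · rw [h]
    exact (fl_mem_vox hB).2 hy

/-- The restriction of `pr` to the saturated set `vox B` is an open quotient map onto `vq η B`,
and so is its product with the identity of the interval. -/
theorem desc2 (hB : Invt η B) {H : ℝ × E n → Z} (hc : ContinuousOn H (Icc (-1 : ℝ) 1 ×ˢ vox B))
    (hi : ∀ t x, H (t, fl η x) = H (t, x)) :
    ∃ G : C(unitInterval × vq η B, Z), ∀ (t : unitInterval) (x : E n) (hx : pr η x ∈ vq η B),
      G (t, ⟨pr η x, hx⟩) = H (2 * (t : ℝ) - 1, x) := by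
  have ho : ∀ t x, H (t, (pr η x).out) = H (t, x) := by
    intro t x
    rcases (cdesc_eq (η := η)).1 (Quotient.out_eq (pr η x)).symm with h | h
    · rw [h]
    · rw [h, hi]
  have hq := (IsOpenQuotientMap.id (X := unitInterval)).prodMap (cdesc_res η (vq η B))
  refine ⟨⟨fun p => H (2 * (p.1 : ℝ) - 1, (p.2 : QR η).out), ?_⟩, fun t x hx => ho _ x⟩
  rw [hq.isQuotientMap.continuous_iff]
  have e : ((fun p : unitInterval × vq η B => H (2 * (p.1 : ℝ) - 1, (p.2 : QR η).out)) ∘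
      Prod.map id ((vq η B).restrictPreimage (pr η))) =
      fun p => H (2 * (p.1 : ℝ) - 1, (p.2 : E n)) := funext fun p => ho _ _
  rw [e]
  refine hc.comp_continuous (by fun_prop) fun p => ⟨⟨?_, ?_⟩, (pr_mem_vq hB).1 p.2.2⟩
  · have := p.1.2.1
    show -1 ≤ 2 * (p.1 : ℝ) - 1
    linarith
  · have := p.1.2.2
    show 2 * (p.1 : ℝ) - 1 ≤ 1
    linarith

theorem desc (hB : Invt η B) {f : E n → Z} (hc : ContinuousOn f (vox B))
    (hi : ∀ x, f (fl η x) = f x) :
    ∃ g : C(vq η B, Z), ∀ (x : E n) (hx : pr η x ∈ vq η B), g ⟨pr η x, hx⟩ = f x := by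
  obtain ⟨G, hG⟩ := desc2 (H := fun p => f p.2) hB
    (hc.comp continuous_snd.continuousOn fun p hp => hp.2) (fun _ x => hi x)
  exact ⟨⟨fun y => G (0, y), by fun_prop⟩, fun x hx => hG 0 x hx⟩

/-- Apply `ConnL` to the set of `a` such that `pr (ctr a)` is joined to a base point in
`vq η B`; cubes are convex. -/
theorem pathConnected_vq (hB : ConnL η B) : PathConnectedSpace (vq η B) := by
  obtain ⟨⟨a0, ha0⟩, hT⟩ := hB
  have hj : ∀ a ∈ B, ∀ x ∈ cube a, ∀ y ∈ cube a, JoinedIn (vq η B) (pr η x) (pr η y) := by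
    intro a ha x hx y hy
    have h1 := ((convex_cube a).isPathConnected ⟨x, hx⟩).joinedIn x hx y hy
    exact (h1.map isOpenQuotientMap_pr.continuous).mono (image_mono (cube_sub_vox ha))
  have hc : ∀ a : Lat n, ctr a ∈ cube a := fun a => ctr_mem_cube (le1_refl a)
  have hall := hT {a | JoinedIn (vq η B) (pr η (ctr a0)) (pr η (ctr a))}
    (fun a ha => by
      show JoinedIn (vq η B) (pr η (ctr a0)) (pr η (ctr (fl η a)))
      rw [ctr_fl, pr_fl]
      exact ha)
    (fun a ha b _ hab =>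
      ⟨fun h => JoinedIn.trans h (hj a ha _ (hc a) _ (ctr_mem_cube hab)),
        fun h => JoinedIn.trans h (hj a ha _ (ctr_mem_cube hab) _ (hc a))⟩)
    ⟨a0, ha0, hj a0 ha0 _ (hc a0) _ (hc a0)⟩
  rw [← isPathConnected_iff_pathConnectedSpace]
  refine ⟨pr η (ctr a0), ⟨_, cube_sub_vox ha0 (hc a0), rfl⟩, ?_⟩
  rintro _ ⟨x, ⟨a, ha, hx⟩, rfl⟩
  exact JoinedIn.trans (hall a ha) (hj a ha _ (hc a) _ hx)

/-- The projection as an ambient map: `if hx : pr η x ∈ vq η B then ⟨_, hx⟩ else z`. -/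
theorem exists_proj (z : vq η B) : ∃ p : E n → vq η B, ContinuousOn p (vox B) ∧
    (∀ x, p (fl η x) = p x) ∧ ∀ (x : E n) (hx : pr η x ∈ vq η B), p x = ⟨pr η x, hx⟩ := by
  classical
  let q : QR η → vq η B := fun y => if hy : y ∈ vq η B then ⟨y, hy⟩ else z
  have hq : ∀ (y : QR η) (hy : y ∈ vq η B), q y = ⟨y, hy⟩ := fun y hy => dif_pos hy
  refine ⟨fun x => q (pr η x), ?_, fun x => by simp only [pr_fl], fun x hx => hq _ hx⟩
  rw [continuousOn_iff_continuous_domRestrict]
  have e : (vox B).domRestrict (fun x => q (pr η x)) =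
      fun x : vox B => (⟨pr η x, ⟨x, x.2, rfl⟩⟩ : vq η B) := funext fun x => hq _ _
  rw [e]
  exact (isOpenQuotientMap_pr.continuous.comp continuous_subtype_val).subtype_mk _

end Pool.Agent.Lib.MP_5ceaf9_gt.OC
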