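import Pool.Agent.Lib.MP_5ceaf9_gt.CMv
import Pool.Agent.Lib.MP_5ceaf9_gt.CClsEx

noncomputable section

namespace Pool.Agent.Lib.MP_5ceaf9_gt.OC

open Set

variable {Z Γ : Type} [TopologicalSpace Z] [Group Γ] {h : Hol Z Γ}

variable {j : ℕ}

/-- `mv_based` and `Cls.htpy`. -/
theorem Cls.of_mv {z0 : Z} {A : Type} [AddCommGroup A] (K : Cls z0 j A) {V W : E (j + 1) → Z}
    {R R' : ℝ} (hV : EvC V R z0) (hW : EvC W R' z0) (hm : Mv h V 1 W) : K.cls V = K.cls W := by
  obtain ⟨H, R'', hc, h0, h1, hz⟩ :=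
    mv_based (hV.mono (le_max_left R R')) (hW.mono (le_max_right R R')) hm
  have := K.htpy H R'' hc.continuousOn fun t _ x hx => hz t x hx
  rwa [funext h0, funext h1] at this

theorem Cls.mv {z0 : Z} {A : Type} [AddCommGroup A] (K : Cls z0 j A) {V W : E (j + 1) → Z}
    {R R' : ℝ} (hV : EvC V R z0) (hW : EvC W R' z0) (he : K.cls V = K.cls W) : Mv h V 1 W := by
  obtain ⟨H, hc, h0, h1, hz⟩ := K.inj V W (max 1 (max R R')) (lt_max_of_lt_left one_pos)
    (hV.mono (le_max_of_le_right (le_max_left R R')))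
    (hW.mono (le_max_of_le_right (le_max_right R R'))) he
  exact ⟨H, fun _ => z0, _, hc.continuousOn, fun t _ x hx => hz t x hx, h0, h1, h.const z0⟩

section aux

variable {z0 : Z} {A : Type} [AddCommGroup A] {K : Cls z0 j A} {V W : E (j + 1) → Z} {g g' : Γ}
  {a b : A} {R c : ℝ} {z : Z}

/-- `a` is the class of a based map that moves to `W` along `g`. -/
def cfcex_P (h : Hol Z Γ) (K : Cls z0 j A) (g : Γ) (W : E (j + 1) → Z) (a : A) : Prop :=
  ∃ V R, EvC V R z0 ∧ Mv h V g W ∧ K.cls V = a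

theorem cfcex_uniq (ha : cfcex_P h K g W a) (hb : cfcex_P h K g W b) : a = b := by
  obtain ⟨V, R, hV, hm, rfl⟩ := ha
  obtain ⟨V', R', hV', hm', rfl⟩ := hb
  have := hm.trans hm'.symm
  rw [mul_inv_cancel] at this
  exact K.of_mv hV hV' this

theorem cfcex_trans (ha : cfcex_P h K g V a) (hm : Mv h V g' W) : cfcex_P h K (g * g') W a := by
  obtain ⟨U, R, hU, hm', e⟩ := ha
  exact ⟨U, R, hU, hm'.trans hm, e⟩

open Classical in
/-- The class of `W` transported along `g`. -/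
def cfcex_T (h : Hol Z Γ) (K : Cls z0 j A) (g : Γ) (W : E (j + 1) → Z) : A :=
  if ha : ∃ a, cfcex_P h K g W a then ha.choose else 0

theorem cfcex_eq (ha : cfcex_P h K g W a) : cfcex_T h K g W = a := by
  have hb : ∃ a, cfcex_P h K g W a := ⟨a, ha⟩
  rw [cfcex_T, dif_pos hb]
  exact cfcex_uniq hb.choose_spec ha

theorem cfcex_spec (K : Cls z0 j A) (g : Γ) (hW : EvC W R z) :
    cfcex_P h K g W (cfcex_T h K g W) := by
  obtain ⟨V, hV, hm⟩ := mv_lift (h := h) hW z0 g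
  have ha : cfcex_P h K g W (K.cls V) := ⟨V, _, hV, hm, rfl⟩
  rwa [cfcex_eq ha]

/-- A representative. -/
def cfcex_rep (K : Cls z0 j A) (a : A) : E (j + 1) → Z := (K.real a).choose

theorem cfcex_rep_evc (K : Cls z0 j A) (a : A) : EvC (cfcex_rep K a) 1 z0 :=
  (K.real a).choose_spec.1

theorem cfcex_rep_cls (K : Cls z0 j A) (a : A) : K.cls (cfcex_rep K a) = a :=
  (K.real a).choose_spec.2

theorem cfcex_key (g : Γ) (hV : EvC V R z0) :
    cfcex_T h K g (cfcex_rep K (K.cls V)) = cfcex_T h K g V := by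
  have := cfcex_trans (cfcex_spec (h := h) K g (cfcex_rep_evc K (K.cls V)))
    (K.mv (cfcex_rep_evc K _) hV (cfcex_rep_cls K _))
  rw [mul_one] at this
  exact (cfcex_eq this).symm

theorem cfcex_split (g : Γ) (hW : EvC W R z) (hc : ∀ x, x 0 = c → W x = z) :
    cfcex_T h K g W = cfcex_T h K g (lo c z W) + cfcex_T h K g (hi c z W) := by
  obtain ⟨V, R', hV, h0, h1, h2, h3⟩ := mv_split (h := h) hW hc z0 g
  rw [cfcex_eq ⟨V, R', hV, h1, rfl⟩, cfcex_eq ⟨_, R', hV.lo h0, h2, rfl⟩,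
    cfcex_eq ⟨_, R', hV.hi h0, h3, rfl⟩]
  exact K.split V R' hV h0

theorem cfcex_shift (h : Hol Z Γ) (K : Cls z0 j A) (a : A) {s : ℝ} (hs : |s| = 1) :
    ∃ V, EvC V 2 z0 ∧ K.cls V = a ∧ ∀ x, 0 ≤ s * x 0 → V x = z0 := by
  have hn : ‖(Pi.single 0 s : E (j + 1))‖ = 1 := by rw [Pi.norm_single, Real.norm_eq_abs, hs]
  have hm : Continuous fun x : E (j + 1) => x + Pi.single 0 s := by fun_prop
  have hV : EvC (cfcex_rep K a ∘ fun x => x + Pi.single 0 s) 2 z0 := by
    refine ⟨(cfcex_rep_evc K a).1.comp hm, fun x hx => (cfcex_rep_evc K a).2 _ ?_⟩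
    have := norm_sub_le (x + Pi.single 0 s) (Pi.single 0 s)
    rw [add_sub_cancel_right, hn] at this
    linarith
  refine ⟨_, hV, ?_, fun x hx => (cfcex_rep_evc K a).2 _ ?_⟩
  · rw [← K.of_mv (cfcex_rep_evc K a) hV (mv_bd (h := h) (C := 1) (cfcex_rep_evc K a) hm
      fun x => by rw [add_sub_cancel_left, hn]), cfcex_rep_cls]
  · refine le_trans ?_ (norm_le_pi_norm (x + Pi.single 0 s) 0)
    rw [Pi.add_apply, Pi.single_eq_same, Real.norm_eq_abs, ← sq_le_sq₀ zero_le_one (abs_nonneg _),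
      sq_abs]
    have : s ^ 2 = 1 := by rw [← sq_abs, hs, one_pow]
    nlinarith [sq_nonneg (x 0)]

theorem cfcex_jux (h : Hol Z Γ) (K : Cls z0 j A) (a b : A) :
    ∃ U, EvC U 2 z0 ∧ (∀ x, x 0 = 0 → U x = z0) ∧ K.cls (lo 0 z0 U) = a ∧
      K.cls (hi 0 z0 U) = b := by
  obtain ⟨V, hV, ea, ha⟩ := cfcex_shift h K a (s := 1) abs_one
  obtain ⟨W, hW, eb, hb⟩ := cfcex_shift h K b (s := -1) (by simp)
  refine ⟨fun x => if x 0 ≤ 0 then V x else W x, ⟨?_, fun x hx => ?_⟩, fun x hx => ?_, ?_, ?_⟩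
  · refine Continuous.if_le hV.1 hW.1 (continuous_apply 0) continuous_const fun x hx => ?_
    rw [ha x (by simp [hx]), hb x (by simp [hx])]
  · simp only [hV.2 x hx, hW.2 x hx, ite_self]
  · simp only [hx, le_refl, if_true]
    exact ha x (by simp [hx])
  · rw [← ea]
    congr 1
    funext x
    by_cases hx : x 0 ≤ 0
    · simp only [lo, hx, if_true]
    · simp only [lo, hx, if_false]
      exact (ha x (by linarith)).symm
  · rw [← eb]
    congr 1
    funext x
    by_cases hx : x 0 ≤ 0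
    · simp only [hi, hx, if_true]
      exact (hb x (by linarith)).symm
    · simp only [hi, hx, if_false]

theorem cfcex_add (g : Γ) (a b : A) : cfcex_T h K g (cfcex_rep K (a + b)) =
    cfcex_T h K g (cfcex_rep K a) + cfcex_T h K g (cfcex_rep K b) := by
  obtain ⟨U, hU, h0, rfl, rfl⟩ := cfcex_jux h K a b
  rw [← K.split U 2 hU h0, cfcex_key g hU, cfcex_key g (hU.lo h0), cfcex_key g (hU.hi h0),
    cfcex_split g hU h0]

theorem cfcex_const (K : Cls z0 j A) : K.cls (fun _ => z0) = 0 := by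
  have := K.split (fun _ => z0) 0 ⟨continuous_const, fun _ _ => rfl⟩ fun _ _ => rfl
  have e1 : lo 0 z0 (fun _ : E (j + 1) => z0) = fun _ => z0 := funext fun x => ite_self _
  have e2 : hi 0 z0 (fun _ : E (j + 1) => z0) = fun _ => z0 := funext fun x => ite_self _
  rw [e1, e2] at this
  exact left_eq_add.1 this

theorem cfcex_null (hR : 0 < R) (hV : EvC V R z) (h0 : cfcex_T h K 1 V = 0) :
    ∃ H : ℝ × E (j + 1) → Z, Continuous H ∧ (∀ x, H (0, x) = V x) ∧ (∀ x, H (1, x) = z) ∧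
      ∀ t x, R ≤ ‖x‖ → H (t, x) = z := by
  obtain ⟨V0, R0, hV0, hm, e⟩ := cfcex_spec (h := h) K 1 hV
  obtain ⟨β, hβ, b0, b1, hb⟩ := h.real z0 z 1
  have h1 := mv_const (h := h) (j := j) hβ.continuousOn
  rw [b0, b1, hb] at h1
  have h2 : Mv h V0 1 fun _ => z0 := K.mv (R' := 0) hV0 ⟨continuous_const, fun _ _ => rfl⟩
    (by rw [e, h0, cfcex_const])
  have h3 := (hm.symm.trans h2).trans h1
  rw [inv_one, mul_one, mul_one] at h3
  obtain ⟨H, R', hc, e0, e1, hz⟩ := mv_based hV ⟨continuous_const, fun _ _ => rfl⟩ h3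
  refine ⟨fun p => H (max 0 (2 * p.1 - 1), max 1 (2 * p.1 * (|R'| / R)) • p.2),
    hc.comp (by fun_prop), fun x => ?_, fun x => ?_, fun t x hx => ?_⟩
  · simp [e0]
  · have : max (0 : ℝ) (2 * 1 - 1) = 1 := by norm_num
    simp only [this, e1]
  · have hn : ‖max 1 (2 * t * (|R'| / R)) • x‖ = max 1 (2 * t * (|R'| / R)) * ‖x‖ := by
      rw [norm_smul, Real.norm_of_nonneg (le_max_of_le_left zero_le_one)]
    rcases le_total (2 * t - 1) 0 with ht | ht
    · simp only [max_eq_left ht, e0]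
      refine hV.2 _ (hx.trans ?_)
      rw [hn]
      exact le_mul_of_one_le_left (norm_nonneg _) (le_max_left _ _)
    · refine hz _ _ ?_
      rw [hn]
      have hq : 0 ≤ |R'| / R := by positivity
      calc R' ≤ |R'| / R * R := by rw [div_mul_cancel₀ _ hR.ne']; exact le_abs_self _
        _ ≤ _ := mul_le_mul (le_max_of_le_right (le_mul_of_one_le_left hq (by linarith))) hx hR.le
          (le_max_of_le_left zero_le_one)

theorem cfcex_real (h : Hol Z Γ) (K : Cls z0 j A) (z : Z) (a : A) :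
    ∃ V : E (j + 1) → Z, EvC V 1 z ∧ cfcex_T h K 1 V = a := by
  obtain ⟨V, hV, hm⟩ := mv_lift (h := h) (cfcex_rep_evc K a) z 1
  have h1 := hm.symm.trans (mv_scale hV two_pos)
  rw [inv_one, mul_one] at h1
  refine ⟨_, ⟨hV.1.comp (by fun_prop), fun x hx => hV.2 _ ?_⟩,
    cfcex_eq ⟨_, 1, cfcex_rep_evc K a, h1, cfcex_rep_cls K a⟩⟩
  rw [norm_smul, Real.norm_two]
  linarith

end aux

/-- Define `T g W = cls V` for a chosen based `V` with `Mv h V g W` (junk `0`); by `Cls.of_mv`,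
`Mv.symm`, `Mv.trans` it does not depend on the choice. Then `g • a = T g (rep a)` with `rep` from
`Cls.real`, and `fc = T 1`. `smul_add`: juxtapose translates of the two representatives and use
`mv_split`, `Cls.split`, `mv_bd`. `null`: `mv_const`, `mv_based`, then shrink: first
`V ((1 + s (a - 1)) • x)`, then `H (s, a • x)` with `a = max 1 (R' / R)`. `real`: `mv_lift` and
`mv_scale`. -/
theorem fc_of_cls {z0 : Z} {A : Type} [AddCommGroup A] (K : Cls z0 j A) :
    ∃ _ : DistribMulAction Γ A, Nonempty (FC h j A) := by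
  have one : ∀ a, cfcex_T h K 1 (cfcex_rep K a) = a := fun a =>
    cfcex_eq ⟨_, 1, cfcex_rep_evc K a, mv_refl (cfcex_rep_evc K a), cfcex_rep_cls K a⟩
  have mul : ∀ g g' a, cfcex_T h K (g * g') (cfcex_rep K a) =
      cfcex_T h K g (cfcex_rep K (cfcex_T h K g' (cfcex_rep K a))) := fun g g' a => by
    obtain ⟨V, R, hV, hm, e⟩ := cfcex_spec (h := h) K g' (cfcex_rep_evc K a)
    rw [← e, cfcex_key g hV]
    exact cfcex_eq (cfcex_trans (cfcex_spec K g hV) hm)
  let I : DistribMulAction Γ A :=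
    { smul := fun g a => cfcex_T h K g (cfcex_rep K a)
      one_smul := one
      mul_smul := mul
      smul_zero := fun g => left_eq_add.1 (by
        have := cfcex_add (h := h) (K := K) g 0 0
        rwa [add_zero] at this)
      smul_add := cfcex_add }
  refine ⟨I, ⟨⟨cfcex_T h K 1, fun V W g hm => ?_, fun V R c z hV hc => cfcex_split 1 hV hc,
    fun V R z i hV => ?_, fun V R z => cfcex_null, cfcex_real h K⟩⟩⟩
  · obtain ⟨R, z, z', hV, hW⟩ := hm.evc
    obtain ⟨W0, R0, hW0, hm0, e⟩ := cfcex_spec (h := h) K 1 hW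
    have := cfcex_trans (cfcex_trans (cfcex_spec K 1 hV) hm) hm0.symm
    rw [inv_one, mul_one, one_mul] at this
    rw [← e, ← cfcex_eq this]
    exact (cfcex_key g hW0).symm
  · obtain ⟨V0, R0, hV0, hm0, e⟩ := cfcex_spec (h := h) K 1 hV
    rw [← e, ← K.refl V0 R0 i hV0]
    exact cfcex_eq ⟨_, R0, hV0.rf i, hm0.rf i, rfl⟩

theorem exists_fc (h : Hol Z Γ) (z0 : Z) (hj : 1 ≤ j) :
    ∃ (A : Type) (_ : AddCommGroup A) (_ : DistribMulAction Γ A), Nonempty (FC h j A) := by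
  obtain ⟨A, _, ⟨K⟩⟩ := exists_cls z0 hj
  obtain ⟨_, hF⟩ := fc_of_cls (h := h) K
  exact ⟨A, _, _, hF⟩

end Pool.Agent.Lib.MP_5ceaf9_gt.OC
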