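import Pool.Agent.Lib.MP_5ceaf9_gt.CBasB

noncomputable section

namespace Pool.Agent.Lib.MP_5ceaf9_gt.OC

open Set

variable {Z Γ : Type} [TopologicalSpace Z] [Group Γ] {h : Hol Z Γ}


theorem Hol.const (h : Hol Z Γ) (z : Z) : h.hol (fun _ => z) = 1 := by
  have h1 := h.tri ℝ (fun _ => z) univ convex_univ continuousOn_const 0 trivial 0 trivial 0 trivial
  exact mul_eq_left.1 h1

theorem Hol.seg_self (h : Hol Z Γ) {X : Type} [AddCommGroup X] [Module ℝ X] (g : X → Z) (x : X) :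
    h.hol (seg g x x) = 1 := by
  rw [← h.const (g x)]
  exact h.congr _ _ fun t _ => by simp [seg]

/-- `tri` on `[0,1]` with the points `0, 1, 0`. -/
theorem Hol.rev (h : Hol Z Γ) {σ : ℝ → Z} (hσ : ContinuousOn σ (Icc 0 1)) :
    h.hol (fun t => σ (1 - t)) = (h.hol σ)⁻¹ := by
  have h0 : (0 : ℝ) ∈ Icc (0 : ℝ) 1 := ⟨le_rfl, zero_le_one⟩
  have h1 := h.tri ℝ σ _ (convex_Icc 0 1) hσ 0 h0 1 ⟨zero_le_one, le_rfl⟩ 0 h0
  rw [h.seg_self, h.congr (seg σ 0 1) σ fun t _ => by simp [seg],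
    h.congr (seg σ 1 0) (fun t => σ (1 - t)) fun t _ => by simp [seg, sub_eq_add_neg]] at h1
  exact eq_inv_of_mul_eq_one_right h1

theorem Hol.halves (h : Hol Z Γ) {σ : ℝ → Z} (hσ : ContinuousOn σ (Icc 0 1)) :
    h.hol (fun t => σ (t / 2)) * h.hol (fun t => σ ((t + 1) / 2)) = h.hol σ := by
  have h1 := h.tri ℝ σ _ (convex_Icc 0 1) hσ 0 ⟨le_rfl, zero_le_one⟩ (1 / 2)
    ⟨by norm_num, by norm_num⟩ 1 ⟨zero_le_one, le_rfl⟩
  rwa [h.congr (seg σ 0 1) σ fun t _ => by simp [seg],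
    h.congr (seg σ 0 (1 / 2)) (fun t => σ (t / 2)) fun t _ => congrArg σ (by
      rw [smul_eq_mul]; ring),
    h.congr (seg σ (1 / 2) 1) (fun t => σ ((t + 1) / 2)) fun t _ => congrArg σ (by
      rw [smul_eq_mul]; ring)] at h1

/-- Both sides are the holonomy along the diagonal. -/
theorem Hol.sq (h : Hol Z Γ) {Φ : ℝ × ℝ → Z} (hΦ : ContinuousOn Φ (Icc 0 1 ×ˢ Icc 0 1)) :
    h.hol (fun t => Φ (t, 0)) * h.hol (fun s => Φ (1, s)) =
      h.hol (fun s => Φ (0, s)) * h.hol (fun t => Φ (t, 1)) := by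
  have h0 : (0 : ℝ) ∈ Icc (0 : ℝ) 1 := ⟨le_rfl, zero_le_one⟩
  have h1 : (1 : ℝ) ∈ Icc (0 : ℝ) 1 := ⟨zero_le_one, le_rfl⟩
  have hC := (convex_Icc (𝕜 := ℝ) (0 : ℝ) 1).prod (convex_Icc (𝕜 := ℝ) (0 : ℝ) 1)
  have h2 := h.tri (ℝ × ℝ) Φ _ hC hΦ (0, 0) ⟨h0, h0⟩ (1, 0) ⟨h1, h0⟩ (1, 1) ⟨h1, h1⟩
  have h3 := h.tri (ℝ × ℝ) Φ _ hC hΦ (0, 0) ⟨h0, h0⟩ (0, 1) ⟨h0, h1⟩ (1, 1) ⟨h1, h1⟩
  rw [← h3, h.congr (seg Φ (0, 0) (1, 0)) (fun t => Φ (t, 0)) fun t _ => by simp [seg],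
    h.congr (seg Φ (1, 0) (1, 1)) (fun t => Φ (1, t)) fun t _ => by simp [seg],
    h.congr (seg Φ (0, 0) (0, 1)) (fun t => Φ (0, t)) fun t _ => by simp [seg],
    h.congr (seg Φ (0, 1) (1, 1)) (fun t => Φ (t, 1)) fun t _ => by simp [seg]] at h2
  exact h2

theorem Hol.seg_congr (h : Hol Z Γ) {n : ℕ} {g g' : E n → Z} {C : Set (E n)} (hC : Convex ℝ C)
    (he : ∀ x ∈ C, g x = g' x) {x y : E n} (hx : x ∈ C) (hy : y ∈ C) :
    h.hol (seg g x y) = h.hol (seg g' x y) := by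
  exact h.congr _ _ fun _ ht => he _ (hC.add_smul_sub_mem hx hy ht)

/-- Let `μ t = lam (σ 0) * hol (seg (g ∘ σ) 0 t) * (lam (σ t))⁻¹`. It is locally constant on
`[0,1]`: near `t0` the point `σ t` lies in no `C i` that misses `x0 = σ t0` (closed, finite), so
for `r` between `t0` and `t` the segment from `x0` to `σ r` lies in the union; `Hol.sq` for
`(r, s) ↦ g (x0 + s • (σ (t0 + r (t - t0)) - x0))` gives
`hol (seg (g ∘ σ) t0 t) = hol (seg g x0 (σ t))`; use `tri` on `[0,1]` and `SegFlat`. Conclude with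
`IsPreconnected.induction₂'` or `isPreconnected_Icc` (`IsPreconnected.constant` needs a topology
on `Γ`: `⊥`). -/
theorem flat_of_cover {n : ℕ} {ι : Type} [Finite ι] (C : ι → Set (E n))
    (hc : ∀ i, IsClosed (C i)) (hv : ∀ i, Convex ℝ (C i)) {g : E n → Z} {lam : E n → Γ}
    (hg : ContinuousOn g (⋃ i, C i)) (hl : ∀ i, SegFlat h g lam (C i)) :
    Flat h g lam (⋃ i, C i) := by
  intro σ hσ hm
  have hτ : ContinuousOn (g ∘ σ) (Icc 0 1) := hg.comp hσ hm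
  have tri := h.tri ℝ (g ∘ σ) _ (convex_Icc 0 1) hτ
  have key : lam (σ 0) * h.hol (seg (g ∘ σ) 0 1) = lam (σ 1) := by
    refine isPreconnected_Icc.induction₂' (s := Icc (0 : ℝ) 1)
      (fun a b => lam (σ a) * h.hol (seg (g ∘ σ) a b) = lam (σ b)) (fun a ha => ?_)
      (fun a b d ha hb hd h1 h2 => ?_) ⟨le_rfl, zero_le_one⟩ ⟨zero_le_one, le_rfl⟩
    swap
    · rw [← h2, ← h1, mul_assoc, tri a ha b hb d hd]
    have hU : ∀ᶠ y in nhds (σ a), ∀ i, y ∈ C i → σ a ∈ C i := Filter.eventually_all.2 fun i => by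
      by_cases hi : σ a ∈ C i
      · exact Filter.Eventually.of_forall fun _ _ => hi
      · exact Filter.Eventually.mono ((hc i).isOpen_compl.mem_nhds hi) fun y hy h1 => absurd h1 hy
    obtain ⟨ε, hε, h1⟩ := Metric.mem_nhdsWithin_iff.1 ((hσ a ha).eventually hU)
    refine Filter.Eventually.mono (inter_mem_nhdsWithin _ (Metric.ball_mem_nhds a hε))
      fun b hb => ?_
    have h2 : ∀ r ∈ Icc (0 : ℝ) 1, a + r • (b - a) ∈ Metric.ball a ε ∩ Icc (0 : ℝ) 1 :=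
      fun r hr => ((convex_ball a ε).inter (convex_Icc 0 1)).add_smul_sub_mem
        ⟨Metric.mem_ball_self hε, ha⟩ ⟨hb.2, hb.1⟩ hr
    have h3 : ContinuousOn (fun p : ℝ × ℝ => g (σ a + p.2 • (σ (a + p.1 • (b - a)) - σ a)))
        (Icc 0 1 ×ˢ Icc 0 1) := by
      refine hg.comp (continuousOn_const.add (continuousOn_snd.smul
        ((hσ.comp (by fun_prop) fun p hp => (h2 _ hp.1).2).sub continuousOn_const))) fun p hp => ?_
      obtain ⟨i, hi⟩ := mem_iUnion.1 (hm (h2 _ hp.1).2)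
      exact mem_iUnion.2 ⟨i, (hv i).add_smul_sub_mem (h1 (h2 _ hp.1) i hi) hi hp.2⟩
    have h4 := h.sq h3
    simp only [zero_smul, add_zero, sub_self, smul_zero, one_smul, add_sub_cancel, h.const,
      one_mul] at h4
    obtain ⟨i, hi⟩ := mem_iUnion.1 (hm hb.1)
    have h5 : lam (σ a) * h.hol (seg (g ∘ σ) a b) = lam (σ b) := by
      rw [← hl i _ (h1 ⟨hb.2, hb.1⟩ i hi) _ hi]
      exact congrArg _ h4.symm
    refine ⟨h5, ?_⟩
    rw [← h5, mul_assoc, tri a ha b hb.1 a ha, h.seg_self, mul_one]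
  rwa [h.congr (seg (g ∘ σ) 0 1) (g ∘ σ) fun t _ => by simp [seg]] at key

theorem Lab.path {n : ℕ} {g : E n → Z} {lam : E n → Γ} (hl : Lab h g lam) :
    Flat h g lam (Metric.sphere 0 1) := by
  have he : Metric.sphere (0 : E n) 1 =
      ⋃ p : Fin n × Bool, face p.1 (if p.2 then 1 else -1) := by
    ext y
    rw [mem_sphere_zero_iff_norm, norm_eq_one_iff, mem_iUnion]
    constructor
    · rintro ⟨i, s, rfl | rfl, hy⟩
      · exact ⟨(i, true), hy⟩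
      · exact ⟨(i, false), hy⟩
    · rintro ⟨⟨i, _ | _⟩, hy⟩
      · exact ⟨i, -1, Or.inr rfl, hy⟩
      · exact ⟨i, 1, Or.inl rfl, hy⟩
  rw [he]
  refine flat_of_cover _ (fun _ => isClosed_face _ _) (fun _ => convex_face _ _)
    (he ▸ hl.cont) ?_
  rintro ⟨i, _ | _⟩
  · exact hl.flat i (-1) (Or.inr rfl)
  · exact hl.flat i 1 (Or.inl rfl)

end Pool.Agent.Lib.MP_5ceaf9_gt.OC
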