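import Pool.Agent.Lib.MP_5ceaf9_gt.CCell
import Pool.Agent.Lib.MP_5ceaf9_gt.CHolB

noncomputable section

namespace Pool.Agent.Lib.MP_5ceaf9_gt.OC

open Set

variable {n : ℕ} {η : Fin n → Bool} {Q P : Finset (Lat n)} {Z Γ : Type} [TopologicalSpace Z]
  [Group Γ] {h : Hol Z Γ} {m : ℕ} {f : E n → Z} {c : Lat n → Lat n → Γ}


theorem cglue_cont (η : Fin n → Bool) : Continuous (fl η : E n → E n) := by
  refine continuous_pi fun i => ?_
  by_cases hη : η i
  · simp only [fl, hη, if_true]
    exact (continuous_apply i).neg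
  · simp only [fl, hη]
    exact continuous_apply i

theorem cglue_inj {a b : Lat n} (hab : fl η a = fl η b) : a = b := by
  have := congrArg (fl η) hab
  rwa [fl_fl, fl_fl] at this

theorem cglue_out (η : Fin n → Bool) (a : Lat n) :
    (pq η a).out = a ∨ (pq η a).out = fl η a := by
  have h1 : (fs ℤ η).r (pq η a).out a := Quotient.exact (Quotient.out_eq (pq η a))
  rcases h1 with h1 | h1
  · exact Or.inl h1.symm
  · right
    have := congrArg (fl η) h1
    rw [fl_fl] at this
    exact this.symm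

theorem cglue_pq (η : Fin n → Bool) (a : Lat n) : pq η (fl η a) = pq η a :=
  (Quotient.sound (s := fs ℤ η) (Or.inr rfl : (fs ℤ η).r a (fl η a))).symm

theorem cglue_nw (hp : Pair η Q P) {a : Lat n} : fl η a ∈ nw Q P m ↔ a ∈ nw Q P m := by
  refine ⟨fun ha => ?_, hp.invt_nw m a⟩
  have := hp.invt_nw m _ ha
  rwa [fl_fl] at this

theorem cglue_disj {a : Lat n} (ha : a ∈ dom Q P m) : a ∉ nw Q P m := by
  intro hb
  rw [mem_dom] at ha
  rw [mem_nw] at hb
  rcases ha.2 with h1 | h1
  · exact hb.2.1 h1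
  · omega

/-- Choose `G0 a` for every new cell. Let `a0 = (pq η a).out` (it is `a` or `fl η a`, and the same
for both) and `G a = if a0 = a then G0 a else G0 (fl η a) ∘ fl η`; by `Free`,
`G (fl η a) = G a ∘ fl η`. Put `f' x = if car x ∈ nw Q P m then G (car x) x else f x`;
`contOn_vox`. -/
theorem step_glue (hp : Pair η Q P) (hf : ContinuousOn f (vox (dom Q P m)))
    (hi : ∀ x, f (fl η x) = f x) (Good : Lat n → (E n → Z) → Prop)
    (hG : ∀ a ∈ nw Q P m, ∀ G, Good a G → Good (fl η a) (G ∘ fl η))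
    (hex : ∀ a ∈ nw Q P m, ∃ G : E n → Z, ContinuousOn G (cube a) ∧
      (∀ x ∈ cube a, car x ≠ a → G x = f x) ∧ Good a G) :
    ∃ f' : E n → Z, ContinuousOn f' (vox (dom Q P (m + 1))) ∧ (∀ x, f' (fl η x) = f' x) ∧
      (∀ x ∈ vox (dom Q P m), f' x = f x) ∧
      ∀ a ∈ nw Q P m, ∃ G, Good a G ∧ ∀ x ∈ cube a, f' x = G x := by
  classical
  have : Nonempty (E n → Z) := ⟨f⟩
  choose! G0 hc he hg using hex
  let G : Lat n → E n → Z := fun a => if (pq η a).out = a then G0 a else G0 (fl η a) ∘ fl η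
  have P1 : ∀ a ∈ nw Q P m, ContinuousOn (G a) (cube a) := by
    intro a ha
    by_cases h0 : (pq η a).out = a
    · simpa only [G, if_pos h0] using hc a ha
    · simp only [G, if_neg h0]
      exact (hc _ (hp.invt_nw m a ha)).comp (cglue_cont η).continuousOn
        fun x hx => fl_mem_cube.2 hx
  have P2 : ∀ a ∈ nw Q P m, ∀ x ∈ cube a, car x ≠ a → G a x = f x := by
    intro a ha x hx hne
    by_cases h0 : (pq η a).out = a
    · simpa only [G, if_pos h0] using he a ha x hx hne
    · simp only [G, if_neg h0, Function.comp_apply]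
      rw [he _ (hp.invt_nw m a ha) _ (fl_mem_cube.2 hx), hi]
      rw [car_fl]
      exact fun h1 => hne (cglue_inj h1)
  have P3 : ∀ a ∈ nw Q P m, Good a (G a) := by
    intro a ha
    by_cases h0 : (pq η a).out = a
    · simpa only [G, if_pos h0] using hg a ha
    · simp only [G, if_neg h0]
      have := hG _ (hp.invt_nw m a ha) _ (hg _ (hp.invt_nw m a ha))
      rwa [fl_fl] at this
  have P4 : ∀ a ∈ nw Q P m, ∀ x, G (fl η a) (fl η x) = G a x := by
    intro a ha x
    have hfree : fl η a ≠ a := hp.free a (mem_nw.1 ha).1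
    by_cases h0 : (pq η a).out = a
    · have h1 : ¬ (pq η (fl η a)).out = fl η a := by
        rw [cglue_pq, h0]
        exact hfree.symm
      simp only [G, if_pos h0, if_neg h1, Function.comp_apply, fl_fl]
    · have h1 : (pq η (fl η a)).out = fl η a := by
        rw [cglue_pq]
        exact (cglue_out η a).resolve_left h0
      simp only [G, if_pos h1, if_neg h0, Function.comp_apply]
  let f' : E n → Z := fun x => if car x ∈ nw Q P m then G (car x) x else f x
  have A : ∀ a ∈ nw Q P m, ∀ x ∈ cube a, f' x = G a x := by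
    intro a ha x hx
    by_cases h0 : car x = a
    · simp only [f', h0, if_pos ha]
    · have h1 : car x ∉ nw Q P m :=
        cglue_disj (hp.face_dom (mem_nw.1 ha).1 (mem_cube_iff.1 hx) h0 (mem_nw.1 ha).2.2.le)
      simp only [f', if_neg h1]
      exact (P2 a ha x hx h0).symm
  have B : ∀ x ∈ vox (dom Q P m), f' x = f x := by
    intro x hx
    have h1 : car x ∉ nw Q P m := cglue_disj ((mem_vox (hp.upc_dom m)).1 hx)
    simp only [f', if_neg h1]
  refine ⟨f', contOn_vox fun a ha => ?_, fun x => ?_, B, fun a ha => ⟨G a, P3 a ha, A a ha⟩⟩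
  · rcases mem_dom_succ.1 ha with h1 | h1
    · exact (hf.mono (cube_sub_vox h1)).congr fun x hx => B x (cube_sub_vox h1 hx)
    · exact (P1 a h1).congr fun x hx => A a h1 x hx
  · by_cases h0 : car x ∈ nw Q P m
    · have h1 : car (fl η x) ∈ nw Q P m := by
        rw [car_fl]
        exact hp.invt_nw m _ h0
      simp only [f', if_pos h0, if_pos h1]
      rw [car_fl]
      exact P4 _ h0 x
    · have h1 : car (fl η x) ∉ nw Q P m := by
        rw [car_fl, cglue_nw hp]
        exact h0
      simp only [f', if_neg h0, if_neg h1]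
      exact hi x

theorem St.mono (hs : St h η Q P (m + 1) f c) : St h η Q P m f c := by
  exact ⟨hs.cont.mono (vox_mono (dom_mono (Nat.le_succ m))), hs.inv, hs.cinv, hs.flat,
    fun a ha => hs.agree a (dom_mono (Nat.le_succ m) ha)⟩

/-- Let `l a` be the (unique) element of `hl` if `a` is new and has a proper face, and `1`
otherwise; uniqueness, `InvC` and `seg_fl` give `l (fl η a) = l a`. Take
`c' a b = (l a)⁻¹ * c a b * l b`; note `c a a = 1` on `P`. -/
theorem step_relabel (hp : Pair η Q P) (hs : St h η Q P m f c) {f' : E n → Z}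
    (hf : ContinuousOn f' (vox (dom Q P (m + 1)))) (hi : ∀ x, f' (fl η x) = f' x)
    (he : ∀ x ∈ vox (dom Q P m), f' x = f x)
    (hl : ∀ a ∈ nw Q P m, ∃ l : Γ, ∀ b, le1 a b → b ≠ a →
      c a b = l * h.hol (seg f' (ctr a) (ctr b))) :
    ∃ c', St h η Q P (m + 1) f' c' := by
  classical
  choose! l0 hl0 using hl
  let l : Lat n → Γ := fun a => if a ∈ nw Q P m ∧ ∃ b, le1 a b ∧ b ≠ a then l0 a else 1
  have L1 : ∀ a ∈ nw Q P m, ∀ b, le1 a b → b ≠ a →
      c a b = l a * h.hol (seg f' (ctr a) (ctr b)) := by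
    intro a ha b hab hne
    have h0 : a ∈ nw Q P m ∧ ∃ b, le1 a b ∧ b ≠ a := ⟨ha, b, hab, hne⟩
    simp only [l, if_pos h0]
    exact hl0 a ha b hab hne
  have L3 : ∀ a, a ∉ nw Q P m → l a = 1 := by
    intro a ha
    have h0 : ¬ (a ∈ nw Q P m ∧ ∃ b, le1 a b ∧ b ≠ a) := fun h1 => ha h1.1
    simp only [l, if_neg h0]
  have L2 : ∀ a, l (fl η a) = l a := by
    intro a
    by_cases h0 : a ∈ nw Q P m ∧ ∃ b, le1 a b ∧ b ≠ a
    · obtain ⟨ha, b, hab, hne⟩ := h0
      have h1 := L1 a ha b hab hne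
      have h2 := L1 _ (hp.invt_nw m a ha) (fl η b) (le1_fl.2 hab) fun h3 => hne (cglue_inj h3)
      rw [hs.cinv, ctr_fl, ctr_fl, seg_fl hi, h1] at h2
      exact (mul_right_cancel h2).symm
    · have h1 : ¬ (fl η a ∈ nw Q P m ∧ ∃ b, le1 (fl η a) b ∧ b ≠ fl η a) := by
        rintro ⟨ha, b, hab, hne⟩
        refine h0 ⟨(cglue_nw hp).1 ha, fl η b, ?_, fun h3 => hne ?_⟩
        · have := (le1_fl (η := η)).2 hab
          rwa [fl_fl] at this
        · rw [← h3, fl_fl]
      simp only [l, if_neg h0, if_neg h1]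
  refine ⟨fun a b => (l a)⁻¹ * c a b * l b, hf, hi, fun a b => ?_,
    fun a ha b hb d hd hab hbd => ?_, fun a ha b hab => ?_⟩
  · simp only [L2, hs.cinv a b]
  · simp only [← hs.flat a ha b hb d hd hab hbd]
    group
  · rcases mem_dom_succ.1 ha with h1 | h1
    · have h2 : b ∈ dom Q P m := hp.upc_dom m a h1 b hab
      simp only [L3 a (cglue_disj h1), L3 b (cglue_disj h2), inv_one, one_mul, mul_one]
      rw [hs.agree a h1 b hab]
      exact h.seg_congr (convex_cube a) (fun x hx => (he x (cube_sub_vox h1 hx)).symm)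
        (ctr_mem_cube (le1_refl a)) (ctr_mem_cube hab)
    · have haP : a ∈ P := (mem_nw.1 h1).1
      by_cases h0 : b = a
      · subst h0
        have h2 : c b b = 1 := by
          have h3 := hs.flat b haP b haP b haP hab hab
          simpa using h3
        simp only [h2, h.seg_self, mul_one, inv_mul_cancel]
      · have h2 : b ∈ dom Q P m := hp.face_dom haP hab h0 (mem_nw.1 h1).2.2.le
        simp only [L3 b (cglue_disj h2), mul_one, L1 a h1 b hab h0, inv_mul_cancel_left]

/-- `c a b = hol (seg f (ctr a) (ctr b))` is invariant and flat on `Q`; extend it by `E1`. -/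
theorem st_init (h : Hol Z Γ) (hp : Pair η Q P) (h1 : E1 η Q P) (hf : ContinuousOn f (vox Q))
    (hi : ∀ x, f (fl η x) = f x) : ∃ c, St h η Q P 0 f c := by
  obtain ⟨c, hc1, hc2, hc3⟩ := h1 Γ (fun a b => h.hol (seg f (ctr a) (ctr b)))
    (fun a b => by simp only [ctr_fl, seg_fl hi])
    (fun a ha b _ d _ hab hbd => h.tri (E n) f (cube a) (convex_cube a)
      (hf.mono (cube_sub_vox ha)) _ (ctr_mem_cube (le1_refl a)) _ (ctr_mem_cube hab) _
      (ctr_mem_cube (le1_trans hab hbd)))
  refine ⟨c, by rwa [hp.dom_zero], hi, hc1, hc2, fun a ha b hab => ?_⟩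
  rw [hp.dom_zero] at ha
  exact (hc3 a ha b (hp.uQ a ha b hab) hab).symm

end Pool.Agent.Lib.MP_5ceaf9_gt.OC
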