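import Pool.Agent.Lib.MP_5ceaf9_gt.CGlue
import Pool.Agent.Lib.MP_5ceaf9_gt.CChart
import Pool.Agent.Lib.MP_5ceaf9_gt.CDF

noncomputable section

namespace Pool.Agent.Lib.MP_5ceaf9_gt.OC

open Set

variable {n : ℕ} {η : Fin n → Bool} {Q P : Finset (Lat n)} {Z Γ : Type} [TopologicalSpace Z]
  [Group Γ] {h : Hol Z Γ} {m : ℕ} {f : E n → Z} {c : Lat n → Lat n → Γ}


theorem clam_ne {a : Lat n} {i : Fin n} {s : ℤ} (hi : a i % 2 = 0) (hs : s = 1 ∨ s = -1) :
    fac a i s ≠ a := fun e => by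
  have := dimE_fac hi hs
  rw [e] at this
  omega

theorem clam_dom (hp : Pair η Q P) {a : Lat n} (ha : a ∈ P) {k : ℕ} {ι : Fin k → Fin n}
    (hι : Chart a ι) (hk : k ≤ m) (l : Fin k) {s : ℤ} (hs : s = 1 ∨ s = -1) :
    fac a (ι l) s ∈ dom Q P m :=
  hp.face_dom ha (le1_fac (hι.even l) hs) (clam_ne (hι.even l) hs) (hι.dim.trans_le hk)

theorem clam_vox (hp : Pair η Q P) {a : Lat n} (ha : a ∈ P) {k : ℕ} {ι : Fin k → Fin n}
    (hι : Chart a ι) (hk : k ≤ m) {y : E k} (hy : ‖y‖ = 1) : chi a ι y ∈ vox (dom Q P m) := by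
  obtain ⟨l, s, h2, h3⟩ := norm_eq_one_iff.1 hy
  exact ⟨_, clam_dom hp ha hι hk l h2, hι.face_mem h2 h3⟩

theorem clam_seg {X : Type} {a : Lat n} {k : ℕ} {ι : Fin k → Fin n} (hι : Chart a ι)
    (g : E n → X) (x y : E k) : seg (g ∘ chi a ι) x y = seg g (chi a ι x) (chi a ι y) :=
  funext fun t => congrArg g (hι.chi_seg x y t)

theorem St.lab_eq (hp : Pair η Q P) (hs : St h η Q P m f c) {a b : Lat n} (ha : a ∈ P)
    (hb : b ∈ dom Q P m) (hab : le1 a b) {x : E n} (hx : x ∈ cube b) :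
    lab h f c a x = c a b * h.hol (seg f (ctr b) x) := by
  have hbx : le1 b (car x) := mem_cube_iff.1 hx
  have hd : car x ∈ dom Q P m := hp.upc_dom m b hb _ hbx
  rw [lab, ← hs.flat a ha b (mem_dom.1 hb).1 _ (mem_dom.1 hd).1 hab hbx, hs.agree b hb _ hbx,
    mul_assoc, h.tri _ f (cube b) (convex_cube b) (hs.cont.mono (cube_sub_vox hb)) _
      (ctr_mem_cube (le1_refl b)) _ (ctr_mem_cube hbx) _ hx]

theorem lab_ctr (h : Hol Z Γ) (f : E n → Z) (c : Lat n → Lat n → Γ) (a b : Lat n) :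
    lab h f c a (ctr b) = c a b := by
  rw [lab, car_ctr, h.seg_self, mul_one]

theorem St.lab_fl (hs : St h η Q P m f c) (a : Lat n) (x : E n) :
    lab h f c (fl η a) (fl η x) = lab h f c a x := by
  rw [lab, lab, car_fl, hs.cinv, ctr_fl, seg_fl hs.inv]

/-- `Chart.face_mem`, `St.lab_eq`, `Hol.tri` on the cube of the face. -/
theorem St.lab_chart (hp : Pair η Q P) (hs : St h η Q P m f c) {a : Lat n} (ha : a ∈ P) {k : ℕ}
    {ι : Fin k → Fin n} (hι : Chart a ι) (hk : k ≤ m) :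
    Lab h (f ∘ chi a ι) (lab h f c a ∘ chi a ι) := by
  refine ⟨hs.cont.comp hι.continuous_chi.continuousOn fun y hy =>
    clam_vox hp ha hι hk (mem_sphere_zero_iff_norm.1 hy), fun l s hs' x hx y hy => ?_⟩
  have hb := clam_dom (Q := Q) hp ha hι hk l hs'
  have hab := le1_fac (hι.even l) hs'
  have h1 := hι.face_mem hs' hx
  have h2 := hι.face_mem hs' hy
  rw [clam_seg hι, Function.comp_apply, Function.comp_apply, hs.lab_eq hp ha hb hab h1,
    hs.lab_eq hp ha hb hab h2, mul_assoc, h.tri _ f _ (convex_cube _)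
      (hs.cont.mono (cube_sub_vox hb)) _ (ctr_mem_cube (le1_refl _)) _ h1 _ h2]

/-- `step_relabel` with `Lab.relabel` applied to `f' ∘ chi a ι` (`Lab.congr`). -/
theorem St.next (hp : Pair η Q P) (hs : St h η Q P m f c) (hm : 2 ≤ m) {f' : E n → Z}
    (hf : ContinuousOn f' (vox (dom Q P (m + 1)))) (hi : ∀ x, f' (fl η x) = f' x)
    (he : ∀ x ∈ vox (dom Q P m), f' x = f x) : ∃ c', St h η Q P (m + 1) f' c' := by
  refine step_relabel hp hs hf hi he fun a ha => ?_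
  obtain ⟨ha1, -, ha3⟩ := mem_nw.1 ha
  obtain ⟨ι, hι⟩ := exists_chart ha3
  have h1 : Lab h (f' ∘ chi a ι) (lab h f c a ∘ chi a ι) :=
    (hs.lab_chart hp ha1 hι le_rfl).congr (fun y hy => he _ (clam_vox hp ha1 hι le_rfl hy))
      fun _ _ => rfl
  obtain ⟨l, hl⟩ := h1.relabel hm (hf.comp hι.continuous_chi.continuousOn fun y hy =>
    cube_sub_vox (mem_dom_succ.2 (Or.inr ha)) (hι.chi_mem (mem_closedBall_zero_iff.1 hy)))
  refine ⟨l, fun b hab hne => ?_⟩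
  have h2 := ctr_mem_cube hab
  have h3 := hl (co a ι (ctr b)) ((hι.car_ne (hι.norm_co h2)).1 (by rwa [hι.chi_co h2, car_ctr]))
  rwa [clam_seg hι, Function.comp_apply, hι.chi_co h2, lab_ctr, hι.chi_zero] at h3

variable {j : ℕ} {A : Type} [AddCommGroup A] [DistribMulAction Γ A] (F : FC h j A)

theorem FC.ob_fl (hp : Pair η Q P) (hs : St h η Q P (j + 2) f c) {a : Lat n} (ha : a ∈ P)
    (hd : dimE a = j + 2) : F.ob f c (fl η a) = orE η a • F.ob f c a := by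
  obtain ⟨ι, hι⟩ := exists_chart hd
  have e1 : f ∘ chi (fl η a) ι = (f ∘ chi a ι) ∘ fl (η ∘ ι) := funext fun x => by
    simp only [Function.comp_apply]
    rw [hι.chi_fl, hs.inv]
  have e2 : lab h f c (fl η a) ∘ chi (fl η a) ι = (lab h f c a ∘ chi a ι) ∘ fl (η ∘ ι) :=
    funext fun x => by
      simp only [Function.comp_apply]
      rw [hι.chi_fl, hs.lab_fl]
  rw [FC.ob, FC.ob, hι.ch_eq, (hι.fl (η := η)).ch_eq, e1, e2,
    F.OO_fl (hs.lab_chart hp ha hι le_rfl), hι.orE_eq]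

theorem FC.oo_cell {a : Lat n} (hd : dimE a = j + 2) (hf : ContinuousOn f (cube a)) :
    F.oo (f ∘ ch (j + 2) a) = 0 := by
  obtain ⟨ι, hι⟩ := exists_chart hd
  rw [hι.ch_eq]
  exact F.oo_zero (hf.comp hι.continuous_chi.continuousOn fun y hy =>
    hι.chi_mem (mem_closedBall_zero_iff.1 hy))

/-- `FC.df` in a chart: `Chart.chi_ins`, `Chart.dE_eq`, `Chart.dim_car`, `Skel.cnt`; continuity
on the sphere face by face. -/
theorem FC.df_cell (hj : 1 ≤ j) (hp : Pair η Q P) (hs : St h η Q P (j + 2) f c) {a : Lat n}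
    (ha : a ∈ P) (hd : dimE a = j + 2) {f' : E n → Z}
    (hf' : ∀ b, le1 a b → b ≠ a → ContinuousOn f' (cube b))
    (he : ∀ x ∈ cube a, dimE (car x) < j + 1 → f' x = f x) {ψ : Lat n → A}
    (hψ : ∀ i s, a i % 2 = 0 → s = 1 ∨ s = -1 → ψ (fac a i s) =
      F.dd (f ∘ ch (j + 1) (fac a i s)) (f' ∘ ch (j + 1) (fac a i s))) :
    ∃ γ : Γ, γ • F.oo (f' ∘ ch (j + 2) a) = F.ob f c a + dE c ψ a := by
  obtain ⟨ι, hι⟩ := exists_chart hd
  have h1 : ContinuousOn f' (vox ((Finset.univ ×ˢ ({1, -1} : Finset ℤ)).image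
      fun p : Fin (j + 2) × ℤ => fac a (ι p.1) p.2)) := contOn_vox fun b hb => by
    obtain ⟨p, hp', rfl⟩ := Finset.mem_image.1 hb
    have h2 : p.2 = 1 ∨ p.2 = -1 := by simpa using hp'
    exact hf' _ (le1_fac (hι.even _) h2) (clam_ne (hι.even _) h2)
  obtain ⟨γ, hγ⟩ := F.df hj (g' := f' ∘ chi a ι) (hs.lab_chart hp ha hι le_rfl)
    (h1.comp hι.continuous_chi.continuousOn fun y hy => by
      obtain ⟨l, s, h2, h3⟩ := norm_eq_one_iff.1 (mem_sphere_zero_iff_norm.1 hy)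
      exact ⟨_, Finset.mem_image.2 ⟨(l, s), by simpa using h2, rfl⟩, hι.face_mem h2 h3⟩)
    fun y hy => he _ (hι.chi_mem hy.1) (by
      have := hy.cnt
      rw [hι.dim_car hy.1]
      omega)
  have key : ∀ (l : Fin (j + 2)) (s : ℤ), s = 1 ∨ s = -1 →
      (lab h f c a ∘ chi a ι) (ins l s 0) •
        F.dd ((f ∘ chi a ι) ∘ ins l s) ((f' ∘ chi a ι) ∘ ins l s) =
      c a (fac a (ι l) s) • ψ (fac a (ι l) s) := fun l s h2 => by
    have e : chi a ι ∘ ins l s = ch (j + 1) (fac a (ι l) s) := by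
      rw [(hι.fac l h2).ch_eq]
      exact funext fun x => hι.chi_ins l h2 x
    rw [Function.comp_apply, hι.chi_ins l h2, (hι.fac l h2).chi_zero, lab_ctr,
      Function.comp_assoc, Function.comp_assoc, e, hψ _ s (hι.even l) h2]
  refine ⟨γ, ?_⟩
  rw [FC.ob, hι.ch_eq, hγ, hι.dE_eq]
  refine congrArg _ (Finset.sum_congr rfl fun l _ => ?_)
  rw [key l 1 (Or.inl rfl), key l (-1) (Or.inr rfl)]

end Pool.Agent.Lib.MP_5ceaf9_gt.OC
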