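import Pool.Agent.Lib.MP_5ceaf9_gt.CMv

noncomputable section

namespace Pool.Agent.Lib.MP_5ceaf9_gt.OC

open Set

variable {Z Γ : Type} [TopologicalSpace Z] [Group Γ] {h : Hol Z Γ} {j : ℕ} {A : Type}
  [AddCommGroup A] [DistribMulAction Γ A] (F : FC h j A)


theorem FC.const (z : Z) : F.fc (fun _ => z) = 0 := by
  have h1 := F.split (fun _ => z) 0 0 z ⟨continuous_const, fun _ _ => rfl⟩ fun _ _ => rfl
  have e1 : OC.lo 0 z (fun _ : E (j + 1) => z) = fun _ => z := funext fun x => ite_self z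
  have e2 : OC.hi 0 z (fun _ : E (j + 1) => z) = fun _ => z := funext fun x => ite_self z
  rw [e1, e2] at h1
  exact left_eq_add.1 h1

theorem FC.bd {W : E (j + 1) → Z} {R C : ℝ} {z : Z} (hW : EvC W R z)
    {m : E (j + 1) → E (j + 1)} (hm : Continuous m) (hC : ∀ x, ‖m x - x‖ ≤ C) :
    F.fc (W ∘ m) = F.fc W := by
  rw [F.htpy _ _ _ (mv_bd hW hm hC), one_smul]

/-- A homotopy with constant track keeps the class. -/
theorem cml_fix {H : ℝ × E (j + 1) → Z} {R : ℝ} {z : Z} {V W : E (j + 1) → Z}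
    (hH : ContinuousOn H (Icc 0 1 ×ˢ univ))
    (hz : ∀ t ∈ Icc (0 : ℝ) 1, ∀ x, R ≤ ‖x‖ → H (t, x) = z) (h0 : ∀ x, H (0, x) = V x)
    (h1 : ∀ x, H (1, x) = W x) : F.fc V = F.fc W := by
  rw [F.htpy V W 1 ⟨H, fun _ => z, R, hH, hz, h0, h1, h.const z⟩, one_smul]

/-- The factor that collapses the ball of radius three. -/
def cml_c {k : ℕ} (x : E k) : ℝ := max 0 (‖x‖ - 3) / max 3 ‖x‖

theorem cml_c_cont {k : ℕ} : Continuous (cml_c : E k → ℝ) :=
  Continuous.div (by fun_prop) (by fun_prop) fun x => (lt_max_of_lt_left (by norm_num)).ne'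

theorem cml_c_nonneg {k : ℕ} (x : E k) : 0 ≤ cml_c x :=
  div_nonneg (le_max_left _ _) (le_max_of_le_left (by norm_num))

theorem cml_c_le {k : ℕ} (x : E k) : cml_c x ≤ 1 := by
  rw [cml_c, div_le_one (lt_max_of_lt_left (by norm_num))]
  exact max_le (le_max_of_le_left (by norm_num)) (le_max_of_le_right (by linarith))

theorem cml_c_zero {k : ℕ} {x : E k} (hx : ‖x‖ ≤ 3) : cml_c x = 0 := by
  rw [cml_c, max_eq_left (by linarith), zero_div]

theorem cml_c_bd {k : ℕ} (x : E k) : ‖cml_c x • x - x‖ ≤ 3 := by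
  have e : cml_c x • x - x = (cml_c x - 1) • x := by rw [sub_smul, one_smul]
  rw [e, norm_smul, Real.norm_eq_abs, abs_of_nonpos (sub_nonpos.2 (cml_c_le x))]
  rcases le_total ‖x‖ 3 with hx | hx
  · rw [cml_c_zero hx]
    linarith
  · have h0 : ‖x‖ ≠ 0 := by linarith
    rw [cml_c, max_eq_right (by linarith), max_eq_right hx]
    field_simp
    linarith

theorem cml_coord (x : E (j + 1)) : -‖x‖ ≤ x 0 :=
  (abs_le.1 (norm_le_pi_norm x 0)).1

/-- Main lemma. Let `e = Pi.single 0 1`, `p = (|R| + 3) • e`,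
`col x = (max 0 (‖x‖ - 3) / max 3 ‖x‖) • x` and
`m x = fold x + max 0 (min 1 (‖x‖ - 2)) • p + col x`. The family
`if ‖x‖ ≤ 1 then W' x else W (x + t • (m x - x))` moves `W'` to
`Φ x = if ‖x‖ ≤ 1 then W' x else W (m x)` with constant track. `Φ = z` on `x 0 = -3`;
`lo (-3) z Φ = W ∘ fun x => p + col x` (use `FC.bd`), and `hi (-3) z Φ` is the time `0` end of
`collar` for `glue W W'`, `R = 2`, `β = seg W p 0`. -/
theorem FC.ml {W W' : E (j + 1) → Z} {R : ℝ} {z : Z} (hW : EvC W R z) (hW' : EvC W' R z)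
    (he : ∀ x, 1 ≤ ‖x‖ → W' x = W x) :
    ∃ p : E (j + 1), R ≤ ‖p‖ ∧ F.fc W' = F.fc W + h.hol (seg W p 0) • F.dd W W' := by
  obtain ⟨p, hp0, hpn⟩ : ∃ p : E (j + 1), p 0 = |R| + 3 ∧ R ≤ ‖p‖ := by
    refine ⟨fun _ => |R| + 3, rfl, ?_⟩
    rw [pi_norm_const, Real.norm_eq_abs]
    linarith [le_abs_self R, le_abs_self (|R| + 3)]
  refine ⟨p, hpn, ?_⟩
  obtain ⟨m, hm⟩ : ∃ m : E (j + 1) → E (j + 1),
      m = fun x => fold x + max 0 (min 1 (‖x‖ - 2)) • p + cml_c x • x := ⟨_, rfl⟩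
  have mc : Continuous m := by
    rw [hm]
    exact (continuous_fold.add (by fun_prop)).add (cml_c_cont.smul continuous_id)
  have m2 : ∀ x, ‖x‖ ≤ 2 → m x = fold x := fun x hx => by
    rw [hm]
    beta_reduce
    rw [max_eq_left (min_le_of_right_le (by linarith)), cml_c_zero (by linarith), zero_smul,
      zero_smul, add_zero, add_zero]
  have m23 : ∀ x, 2 ≤ ‖x‖ → ‖x‖ ≤ 3 → m x = min 1 (‖x‖ - 2) • p := fun x hx hx' => by
    rw [hm]
    beta_reduce
    rw [max_eq_right (le_min zero_le_one (by linarith)), cml_c_zero hx', zero_smul,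
      fold_of_ge hx, zero_add, add_zero]
  have m3 : ∀ x, 3 ≤ ‖x‖ → m x = p + cml_c x • x := fun x hx => by
    rw [hm]
    beta_reduce
    rw [min_eq_left (by linarith), max_eq_right zero_le_one, one_smul, fold_of_ge (by linarith),
      zero_add]
  have mb : ∀ x, ‖m x - x‖ ≤ 1 + ‖p‖ + 3 := fun x => by
    have e : m x - x = fold x + max 0 (min 1 (‖x‖ - 2)) • p + (cml_c x • x - x) := by
      rw [hm, add_sub_assoc]
    have h1 : ‖max 0 (min 1 (‖x‖ - 2)) • p‖ ≤ ‖p‖ := by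
      rw [norm_smul, Real.norm_eq_abs, abs_of_nonneg (le_max_left _ _)]
      exact mul_le_of_le_one_left (norm_nonneg p) (max_le zero_le_one (min_le_left _ _))
    rw [e]
    exact norm_add₃_le.trans (add_le_add (add_le_add (norm_fold_le x) h1) (cml_c_bd x))
  have far : ∀ x : E (j + 1), -3 ≤ x 0 → W (p + cml_c x • x) = z := fun x hx => by
    refine hW.2 _ (le_trans ?_ ((le_abs_self _).trans (norm_le_pi_norm (p + cml_c x • x) 0)))
    rw [Pi.add_apply, Pi.smul_apply, smul_eq_mul, hp0]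
    have h1 := cml_c_nonneg x
    have h2 := cml_c_le x
    nlinarith [le_abs_self R, mul_nonneg h1 (by linarith : 0 ≤ x 0 + 3)]
  obtain ⟨H, hHd⟩ : ∃ H : ℝ × E (j + 1) → Z,
      H = fun q => if ‖q.2‖ ≤ 1 then W' q.2 else W (q.2 + q.1 • (m q.2 - q.2)) := ⟨_, rfl⟩
  have hH : ContinuousOn H (Icc 0 1 ×ˢ univ) := by
    rw [hHd]
    refine contOn_if_le (by fun_prop) (hW'.1.comp continuous_snd).continuousOn
      (hW.1.comp (by fun_prop)).continuousOn fun q _ hq => ?_
    rw [m2 _ (by linarith), fold_of_le hq.le, sub_self, smul_zero, add_zero, he _ hq.ge]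
  have hz : ∀ t ∈ Icc (0 : ℝ) 1, ∀ x, |R| + (1 + ‖p‖ + 3) ≤ ‖x‖ → H (t, x) = z := by
    intro t ht x hx
    have h1 : ‖t • (m x - x)‖ ≤ 1 + ‖p‖ + 3 := by
      rw [norm_smul, Real.norm_eq_abs, abs_of_nonneg ht.1]
      exact (mul_le_of_le_one_left (norm_nonneg _) ht.2).trans (mb x)
    have h2 := norm_le_add_norm_add x (t • (m x - x))
    rw [hHd]
    beta_reduce
    rw [if_neg (by linarith [abs_nonneg R, norm_nonneg p])]
    exact hW.2 _ (by linarith [le_abs_self R])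
  obtain ⟨Φ, hΦ⟩ : ∃ Φ : E (j + 1) → Z, Φ = fun x => if ‖x‖ ≤ 1 then W' x else W (m x) := ⟨_, rfl⟩
  have h1 : ∀ x, H (1, x) = Φ x := fun x => by
    rw [hHd, hΦ]
    beta_reduce
    rw [one_smul, add_sub_cancel]
  have h0 : ∀ x, H (0, x) = W' x := fun x => by
    rw [hHd]
    beta_reduce
    rw [zero_smul, add_zero]
    split_ifs with hx
    · rfl
    · exact (he x (not_le.1 hx).le).symm
  have Φ3 : ∀ x, 3 ≤ ‖x‖ → Φ x = W (p + cml_c x • x) := fun x hx => by
    rw [hΦ]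
    beta_reduce
    rw [if_neg (by linarith), m3 x hx]
  have eΦ : EvC Φ (|R| + (1 + ‖p‖ + 3)) z := by
    refine ⟨?_, fun x hx => (h1 x).symm.trans (hz 1 ⟨zero_le_one, le_rfl⟩ x hx)⟩
    rw [← funext h1]
    exact hH.comp_continuous (by fun_prop) fun x => ⟨⟨zero_le_one, le_rfl⟩, mem_univ x⟩
  have elo : OC.lo (-3) z Φ = W ∘ fun x => p + cml_c x • x := by
    funext x
    rw [OC.lo, Function.comp_apply]
    split_ifs with hx
    · exact Φ3 x (by linarith [cml_coord x])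
    · exact (far x (not_le.1 hx).le).symm
  have fill : Fill W W' := ⟨hW.1.continuousOn, hW'.1.continuousOn, fun x hx => (he x hx.ge).symm⟩
  have β1 : seg W p 0 1 = W 0 := by simp [seg]
  have βs : ∀ s : ℝ, seg W p 0 (1 - s) = W (s • p) := fun s => by
    rw [seg, zero_sub, smul_neg, sub_smul, one_smul]
    congr 1
    abel
  obtain ⟨K, k1, k2, k3, k4, k5⟩ := collar (W := glue W W') (R := 2) (β := seg W p 0)
    (β1 ▸ fill.evc) (hW.1.comp (by fun_prop)).continuousOn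
  have ehi : ∀ x, K (0, x) = OC.hi (-3) z Φ x := fun x => by
    have hc := cml_coord x
    rcases le_total ‖x‖ 2 with hx | hx
    · rw [k4 x hx, OC.hi, if_neg (by linarith), hΦ, glue]
      beta_reduce
      rw [m2 x hx]
    · rw [k5 x hx, βs, OC.hi]
      rcases lt_or_ge ‖x‖ 3 with hx' | hx'
      · rw [if_neg (by linarith), hΦ]
        beta_reduce
        rw [if_neg (by linarith), m23 x hx hx'.le]
      · rw [min_eq_left (by linarith), one_smul, hW.2 p hpn]
        split_ifs with h3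
        · rfl
        · rw [Φ3 x hx', far x (not_le.1 h3).le]
  rw [cml_fix F hH hz h0 h1, F.split Φ _ (-3) z eΦ fun x hx =>
    (Φ3 x (by linarith [cml_coord x])).trans (far x hx.ge), elo,
    F.bd hW (m := fun x => p + cml_c x • x)
      (continuous_const.add (cml_c_cont.smul continuous_id)) (C := ‖p‖ + 3) fun x => ?_,
    F.htpy _ _ _ ⟨K, _, _, k1, k2, ehi, k3, rfl⟩, FC.dd]
  rw [add_sub_assoc]
  exact (norm_add_le _ _).trans (add_le_add le_rfl (cml_c_bd x))

theorem FC.dd_congr {u v u' v' : E (j + 1) → Z} (hu : ∀ x, ‖x‖ ≤ 1 → u x = u' x)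
    (hv : ∀ x, ‖x‖ ≤ 1 → v x = v' x) : F.dd u v = F.dd u' v' := by
  rw [FC.dd, FC.dd, glue_congr hu hv]

theorem cml_ball {k : ℕ} {t : ℝ} (ht : t ∈ Icc (0 : ℝ) 1) {y : E k} (hy : ‖y‖ ≤ 1) :
    (1 - t) • y ∈ Metric.closedBall (0 : E k) 1 := by
  rw [mem_closedBall_zero_iff, norm_smul, Real.norm_eq_abs, abs_of_nonneg (sub_nonneg.2 ht.2)]
  exact (mul_le_of_le_one_left (norm_nonneg y) (by linarith [ht.1])).trans hy

/-- `glue u u = u ∘ fold`; shrink by `u ((1 - t) • fold x)`. -/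
theorem FC.dd_self {u v : E (j + 1) → Z} (hu : ContinuousOn u (Metric.closedBall 0 1))
    (he : ∀ x, ‖x‖ ≤ 1 → v x = u x) : F.dd u v = 0 := by
  rw [FC.dd, ← F.const (u 0)]
  refine cml_fix F (H := fun q => u ((1 - q.1) • fold q.2)) (R := 2) (z := u 0) ?_
    (fun t _ x hx => ?_) (fun x => ?_) fun x => ?_
  · exact hu.comp ((continuous_const.sub continuous_fst).smul
      (continuous_fold.comp continuous_snd)).continuousOn fun q hq => cml_ball hq.1 (norm_fold_le _)
  · rw [fold_of_ge hx, smul_zero]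
  · rw [glue, sub_zero, one_smul]
    split_ifs with hx
    · rw [fold_of_le hx, he x hx]
    · rfl
  · rw [sub_self, zero_smul]

theorem FC.dd_rf {u v : E (j + 1) → Z} (huv : Fill u v) (i : Fin (j + 1)) :
    F.dd (u ∘ rf i) (v ∘ rf i) = -F.dd u v := by
  rw [FC.dd, glue_rf, F.refl _ _ _ i huv.evc, FC.dd]

/-- `fl_sign` for maps to `Z × Z`. -/
theorem FC.dd_fl {u v : E (j + 1) → Z} (huv : Fill u v) (θ : Fin (j + 1) → Bool) :
    Fill (u ∘ fl θ) (v ∘ fl θ) ∧ F.dd (u ∘ fl θ) (v ∘ fl θ) = sg θ • F.dd u v := by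
  have hb : MapsTo (fl θ) (Metric.closedBall (0 : E (j + 1)) 1) (Metric.closedBall 0 1) :=
    fun x hx => by rwa [mem_closedBall_zero_iff, norm_fl, ← mem_closedBall_zero_iff]
  refine ⟨⟨huv.cu.comp (continuous_fl θ).continuousOn hb,
    huv.cv.comp (continuous_fl θ).continuousOn hb,
    fun x hx => huv.eq _ ((norm_fl θ x).trans hx)⟩, ?_⟩
  have e1 : ∀ x : E (j + 1), fold (fl θ x) = fl θ (fold x) := fun x => by
    rw [fold, norm_fl, fold]
    funext i
    by_cases hi : θ i <;> simp [fl, hi]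
  have e2 : glue (u ∘ fl θ) (v ∘ fl θ) = glue u v ∘ fl θ := by
    funext x
    simp only [glue, Function.comp_apply, norm_fl, e1]
  rw [FC.dd, e2, FC.dd]
  exact fl_sign F.fc (fun V => EvC V 2 (u 0)) (fun V i hV => hV.rf i)
    (fun V i hV => F.refl V _ _ i hV) θ _ huv.evc

/-- The collapse of the ball of radius one half. -/
def cml_q {k : ℕ} (x : E k) : E k := (max 0 (2 * ‖x‖ - 1) / max (1 / 2) ‖x‖) • x

theorem cml_q_cont {k : ℕ} : Continuous (cml_q : E k → E k) := by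
  have h1 : Continuous fun x : E k => max 0 (2 * ‖x‖ - 1) / max (1 / 2) ‖x‖ :=
    Continuous.div (by fun_prop) (by fun_prop) fun x => (lt_max_of_lt_left (by norm_num)).ne'
  exact h1.smul continuous_id

theorem cml_q_zero {k : ℕ} {x : E k} (hx : ‖x‖ ≤ 1 / 2) : cml_q x = 0 := by
  rw [cml_q, max_eq_left (by linarith), zero_div, zero_smul]

theorem cml_q_one {k : ℕ} {x : E k} (hx : ‖x‖ = 1) : cml_q x = x := by
  rw [cml_q, hx, max_eq_right (by norm_num), max_eq_right (by norm_num)]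
  norm_num

theorem cml_q_le {k : ℕ} {x : E k} (hx : ‖x‖ ≤ 1) : ‖cml_q x‖ ≤ 1 := by
  rcases le_total ‖x‖ (1 / 2) with h1 | h1
  · rw [cml_q_zero h1, norm_zero]
    exact zero_le_one
  · have h0 : 0 < ‖x‖ := by linarith
    rw [cml_q, max_eq_right (by linarith), max_eq_right h1, norm_smul, Real.norm_eq_abs,
      abs_of_nonneg (div_nonneg (by linarith) h0.le), div_mul_cancel₀ _ h0.ne']
    linarith

/-- Take `V` from `FC.real` at `z = u 0`, `q x = (max 0 (2 ‖x‖ - 1) / max (1/2) ‖x‖) • x` and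
`v x = if ‖x‖ ≤ 1/2 then V (2 • x) else u (q x)`. The family
`if ‖x‖ ≤ 1/2 then V (2 • x) else u ((1 - t) • (if ‖x‖ ≤ 1 then q x else fold x))` moves
`glue u v` to `x ↦ V (2 • x)` with constant track; `mv_scale`. -/
theorem FC.dd_real {u : E (j + 1) → Z} (hu : ContinuousOn u (Metric.closedBall 0 1)) (a : A) :
    ∃ v : E (j + 1) → Z, Fill u v ∧ F.dd u v = a := by
  obtain ⟨V, hV, rfl⟩ := F.real (u 0) a
  have hV2 : ∀ x : E (j + 1), 1 / 2 ≤ ‖x‖ → V ((2 : ℝ) • x) = u 0 := fun x hx => by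
    refine hV.2 _ ?_
    rw [norm_smul, Real.norm_eq_abs, abs_two]
    linarith
  obtain ⟨r, hr⟩ : ∃ r : E (j + 1) → E (j + 1),
      r = fun x => if ‖x‖ ≤ 1 then cml_q x else fold x := ⟨_, rfl⟩
  have rc : Continuous r := by
    rw [hr, ← continuousOn_univ]
    exact contOn_if_le continuous_norm cml_q_cont.continuousOn continuous_fold.continuousOn
      fun x _ hx => (cml_q_one hx).trans (fold_of_le hx.le).symm
  have rb : ∀ x, ‖r x‖ ≤ 1 := fun x => by
    rw [hr]
    beta_reduce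
    split_ifs with hx
    · exact cml_q_le hx
    · exact norm_fold_le x
  refine ⟨fun x => if ‖x‖ ≤ 1 / 2 then V ((2 : ℝ) • x) else u (cml_q x), ⟨hu, ?_, fun x hx => ?_⟩,
    ?_⟩
  · refine contOn_if_le continuous_norm (hV.1.comp (by fun_prop)).continuousOn
      (hu.comp cml_q_cont.continuousOn fun x hx => ?_) fun x _ hx => ?_
    · exact mem_closedBall_zero_iff.2 (cml_q_le (mem_closedBall_zero_iff.1 hx.1))
    · rw [hV2 x hx.ge, cml_q_zero hx.le]
  · rw [if_neg (by linarith), cml_q_one hx]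
  · rw [F.htpy _ _ _ (mv_scale hV two_pos), one_smul, FC.dd]
    refine cml_fix F (R := 2) (z := u 0) (H := fun q =>
      if ‖q.2‖ ≤ 1 / 2 then V ((2 : ℝ) • q.2) else u ((1 - q.1) • r q.2)) ?_
      (fun t _ x hx => ?_) (fun x => ?_) fun x => ?_
    · refine contOn_if_le (by fun_prop) (hV.1.comp (by fun_prop)).continuousOn
        (hu.comp (Continuous.continuousOn (by fun_prop)) fun q hq => cml_ball hq.1.1 (rb _))
        fun q _ hq => ?_
      rw [hV2 _ hq.ge, hr]
      beta_reduce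
      rw [if_pos (by linarith), cml_q_zero hq.le, smul_zero]
    · rw [if_neg (by linarith), hr]
      beta_reduce
      rw [if_neg (by linarith), fold_of_ge hx, smul_zero]
    · rw [glue, sub_zero, one_smul, hr]
      beta_reduce
      by_cases h1 : ‖x‖ ≤ 1
      · rw [if_pos h1, if_pos h1]
      · rw [if_neg h1, if_neg h1, if_neg (by linarith [not_le.1 h1])]
    · rw [sub_self, zero_smul]
      split_ifs with h1
      · rfl
      · exact (hV2 x (not_le.1 h1).le).symm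

end Pool.Agent.Lib.MP_5ceaf9_gt.OC
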