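import Pool.Agent.Lib.MP_5ceaf9_gt.CHolB

noncomputable section

namespace Pool.Agent.Lib.MP_5ceaf9_gt.OC

open Set

variable {Z Γ : Type} [TopologicalSpace Z] [Group Γ] {h : Hol Z Γ}

variable {j : ℕ}

theorem cmv_far (R : ℝ) : ∃ x : E (j + 1), R ≤ ‖x‖ :=
  ⟨fun _ => R, by
    rw [pi_norm_const]
    exact le_abs_self R⟩

theorem cmv_slice {H : ℝ × E (j + 1) → Z} (hH : ContinuousOn H (Icc 0 1 ×ˢ univ)) {t : ℝ}
    (ht : t ∈ Icc (0 : ℝ) 1) : Continuous fun x => H (t, x) :=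
  hH.comp_continuous (continuous_const.prodMk continuous_id) fun _ => ⟨ht, trivial⟩

theorem cmv_zero : (0 : ℝ) ∈ Icc (0 : ℝ) 1 := ⟨le_rfl, zero_le_one⟩

theorem cmv_one : (1 : ℝ) ∈ Icc (0 : ℝ) 1 := ⟨zero_le_one, le_rfl⟩

theorem cmv_move {x y : E (j + 1)} {R C : ℝ} (hx : R + C ≤ ‖x‖) (hy : ‖y‖ ≤ C) :
    R ≤ ‖x + y‖ := by
  have h1 := norm_sub_le (x + y) y
  rw [add_sub_cancel_right] at h1
  linarith

/-- The track is `H (t, x)` for a fixed far point `x`. -/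
theorem track_cont {H : ℝ × E (j + 1) → Z} {β : ℝ → Z} {R : ℝ}
    (hH : ContinuousOn H (Icc 0 1 ×ˢ univ))
    (hβ : ∀ t ∈ Icc (0 : ℝ) 1, ∀ x, R ≤ ‖x‖ → H (t, x) = β t) : ContinuousOn β (Icc 0 1) := by
  obtain ⟨x, hx⟩ := cmv_far (j := j) R
  exact (hH.comp (continuous_id.prodMk (continuous_const (y := x))).continuousOn
    fun t ht => ⟨ht, trivial⟩).congr fun t ht => (hβ t ht x hx).symm

theorem mv_refl {V : E (j + 1) → Z} {R : ℝ} {z : Z} (hV : EvC V R z) : Mv h V 1 V :=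
  ⟨fun p => V p.2, fun _ => z, R, (hV.1.comp continuous_snd).continuousOn,
    fun _ _ x hx => hV.2 x hx, fun _ => rfl, fun _ => rfl, h.const z⟩

theorem Mv.symm {V W : E (j + 1) → Z} {g : Γ} (hm : Mv h V g W) : Mv h W g⁻¹ V := by
  obtain ⟨H, β, R, hH, hβ, h0, h1, rfl⟩ := hm
  have hI : ∀ t ∈ Icc (0 : ℝ) 1, 1 - t ∈ Icc (0 : ℝ) 1 := fun t ht =>
    ⟨by linarith [ht.2], by linarith [ht.1]⟩
  refine ⟨fun p => H (1 - p.1, p.2), fun t => β (1 - t), R,
    hH.comp (by fun_prop : Continuous fun p : ℝ × E (j + 1) => (1 - p.1, p.2)).continuousOn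
      fun p hp => ⟨hI _ hp.1, trivial⟩, fun t ht x hx => hβ _ (hI t ht) x hx, fun x => ?_,
    fun x => ?_, h.rev (track_cont hH hβ)⟩
  · change H (1 - 0, x) = _
    rw [sub_zero, h1]
  · change H (1 - 1, x) = _
    rw [sub_self, h0]

/-- Concatenate with `contOn_if_le`; `Hol.halves`. -/
theorem Mv.trans {U V W : E (j + 1) → Z} {g g' : Γ} (h1 : Mv h U g V) (h2 : Mv h V g' W) :
    Mv h U (g * g') W := by
  obtain ⟨H, β, R, hH, hβ, a0, a1, rfl⟩ := h1
  obtain ⟨H', β', R', hH', hβ', b0, b1, rfl⟩ := h2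
  have hc : ContinuousOn (fun p : ℝ × E (j + 1) =>
      if p.1 ≤ 1 / 2 then H (2 * p.1, p.2) else H' (2 * p.1 - 1, p.2)) (Icc 0 1 ×ˢ univ) := by
    refine contOn_if_le continuous_fst
      (hH.comp (by fun_prop : Continuous fun p : ℝ × E (j + 1) => (2 * p.1, p.2)).continuousOn ?_)
      (hH'.comp
        (by fun_prop : Continuous fun p : ℝ × E (j + 1) => (2 * p.1 - 1, p.2)).continuousOn ?_) ?_
    · rintro p ⟨⟨⟨p0, -⟩, -⟩, p1⟩
      have p2 : p.1 ≤ 1 / 2 := p1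
      exact ⟨⟨by change 0 ≤ 2 * p.1; linarith, by change 2 * p.1 ≤ 1; linarith⟩, trivial⟩
    · rintro p ⟨⟨⟨-, p0⟩, -⟩, p1⟩
      have p2 : 1 / 2 ≤ p.1 := p1
      exact ⟨⟨by change 0 ≤ 2 * p.1 - 1; linarith, by change 2 * p.1 - 1 ≤ 1; linarith⟩, trivial⟩
    · intro p _ hp
      rw [hp, show (2 : ℝ) * (1 / 2) = 1 by norm_num, sub_self, a1, b0]
  have ht : ∀ t ∈ Icc (0 : ℝ) 1, ∀ x, max R R' ≤ ‖x‖ →
      (if t ≤ 1 / 2 then H (2 * t, x) else H' (2 * t - 1, x)) =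
        if t ≤ 1 / 2 then β (2 * t) else β' (2 * t - 1) := fun t ht x hx => by
    split_ifs with h2
    · exact hβ _ ⟨by linarith [ht.1], by linarith⟩ x ((le_max_left _ _).trans hx)
    · exact hβ' _ ⟨by linarith [not_le.1 h2], by linarith [ht.2]⟩ x ((le_max_right _ _).trans hx)
  refine ⟨_, fun t => if t ≤ 1 / 2 then β (2 * t) else β' (2 * t - 1), max R R', hc, ht,
    fun x => ?_, fun x => ?_, ?_⟩
  · change (if (0 : ℝ) ≤ 1 / 2 then H (2 * 0, x) else H' (2 * 0 - 1, x)) = _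
    rw [if_pos (by norm_num), mul_zero, a0]
  · change (if (1 : ℝ) ≤ 1 / 2 then H (2 * 1, x) else H' (2 * 1 - 1, x)) = _
    rw [if_neg (by norm_num), show (2 : ℝ) * 1 - 1 = 1 by norm_num, b1]
  · rw [← h.halves (track_cont hc ht)]
    congr 1
    · refine h.congr _ _ fun t ht => ?_
      rw [if_pos (by linarith [ht.2]), show 2 * (t / 2) = t by ring]
    · refine h.congr _ _ fun t ht => ?_
      split_ifs with h2
      · obtain rfl : t = 0 := le_antisymm (by linarith) ht.1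
        obtain ⟨x, hx⟩ := cmv_far (j := j) (max R R')
        rw [show (2 : ℝ) * ((0 + 1) / 2) = 1 by norm_num,
          ← hβ 1 cmv_one x ((le_max_left _ _).trans hx),
          ← hβ' 0 cmv_zero x ((le_max_right _ _).trans hx), a1, b0]
      · rw [show 2 * ((t + 1) / 2) - 1 = t by ring]

theorem Mv.evc {V W : E (j + 1) → Z} {g : Γ} (hm : Mv h V g W) :
    ∃ R z z', EvC V R z ∧ EvC W R z' := by
  obtain ⟨H, β, R, hH, hβ, h0, h1, -⟩ := hm
  exact ⟨R, β 0, β 1,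
    ⟨(cmv_slice hH cmv_zero).congr h0, fun x hx => (h0 x).symm.trans (hβ 0 cmv_zero x hx)⟩,
    (cmv_slice hH cmv_one).congr h1, fun x hx => (h1 x).symm.trans (hβ 1 cmv_one x hx)⟩

theorem Mv.rf {V W : E (j + 1) → Z} {g : Γ} (hm : Mv h V g W) (i : Fin (j + 1)) :
    Mv h (V ∘ rf i) g (W ∘ rf i) := by
  obtain ⟨H, β, R, hH, hβ, h0, h1, hg⟩ := hm
  exact ⟨fun p => H (p.1, OC.rf i p.2), β, R,
    hH.comp (continuous_fst.prodMk ((continuous_rf i).comp continuous_snd)).continuousOn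
      fun p hp => ⟨hp.1, trivial⟩,
    fun t ht x hx => hβ t ht _ (by rwa [norm_rf]), fun x => h0 _, fun x => h1 _, hg⟩

theorem mv_const {β : ℝ → Z} (hβ : ContinuousOn β (Icc 0 1)) :
    Mv h (fun _ : E (j + 1) => β 0) (h.hol β) (fun _ => β 1) :=
  ⟨fun p => β p.1, β, 0, hβ.comp continuous_fst.continuousOn fun _ hp => hp.1,
    fun _ _ _ _ => rfl, fun _ => rfl, fun _ => rfl, rfl⟩

/-- Straight line homotopy from the identity to `m`. -/
theorem mv_bd {W : E (j + 1) → Z} {R C : ℝ} {z : Z} (hW : EvC W R z) {m : E (j + 1) → E (j + 1)}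
    (hm : Continuous m) (hC : ∀ x, ‖m x - x‖ ≤ C) : Mv h W 1 (W ∘ m) := by
  refine ⟨fun p => W (p.2 + p.1 • (m p.2 - p.2)), fun _ => z, R + C,
    (hW.1.comp (by fun_prop)).continuousOn, fun t ht x hx => hW.2 _ (cmv_move hx ?_),
    fun x => ?_, fun x => ?_, h.const z⟩
  · rw [norm_smul, Real.norm_of_nonneg ht.1]
    exact (mul_le_of_le_one_left (norm_nonneg _) ht.2).trans (hC x)
  · simp
  · simp

theorem mv_scale {W : E (j + 1) → Z} {R a : ℝ} {z : Z} (hW : EvC W R z) (ha : 0 < a) :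
    Mv h W 1 (fun x => W (a • x)) := by
  have hm : 0 < min 1 a := lt_min one_pos ha
  refine ⟨fun p => W ((1 - p.1 + p.1 * a) • p.2), fun _ => z, R / min 1 a,
    (hW.1.comp (by fun_prop)).continuousOn, fun t ht x hx => hW.2 _ ?_,
    fun x => ?_, fun x => ?_, h.const z⟩
  · have h1 : min 1 a ≤ 1 - t + t * a := by
      nlinarith [mul_nonneg ht.1 (sub_nonneg.2 (min_le_right 1 a)),
        mul_nonneg (sub_nonneg.2 ht.2) (sub_nonneg.2 (min_le_left 1 a))]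
    rw [div_le_iff₀ hm, mul_comm] at hx
    rw [norm_smul, Real.norm_of_nonneg (hm.le.trans h1)]
    exact hx.trans (mul_le_mul_of_nonneg_right h1 (norm_nonneg _))
  · simp
  · simp

/-- The collar: `H (t, x) = if ‖x‖ ≤ R then W x else β (1 - (1 - t) * min 1 (‖x‖ - R))`. -/
theorem collar {W : E (j + 1) → Z} {R : ℝ} {β : ℝ → Z} (hW : EvC W R (β 1))
    (hβ : ContinuousOn β (Icc 0 1)) : ∃ H : ℝ × E (j + 1) → Z,
      ContinuousOn H (Icc 0 1 ×ˢ univ) ∧
      (∀ t ∈ Icc (0 : ℝ) 1, ∀ x, R + 1 ≤ ‖x‖ → H (t, x) = β t) ∧ (∀ x, H (1, x) = W x) ∧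
      (∀ x, ‖x‖ ≤ R → H (0, x) = W x) ∧
      ∀ x, R ≤ ‖x‖ → H (0, x) = β (1 - min 1 (‖x‖ - R)) := by
  refine ⟨fun p => if ‖p.2‖ ≤ R then W p.2 else β (1 - (1 - p.1) * min 1 (‖p.2‖ - R)),
    contOn_if_le (by fun_prop) (hW.1.comp continuous_snd).continuousOn
      (hβ.comp (by fun_prop : Continuous fun p : ℝ × E (j + 1) =>
        1 - (1 - p.1) * min 1 (‖p.2‖ - R)).continuousOn ?_) fun p _ hp => ?_,
    fun t _ x hx => ?_, fun x => ?_, fun x hx => if_pos hx, fun x hx => ?_⟩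
  · rintro p ⟨⟨⟨p0, p1⟩, -⟩, p2⟩
    have h1 : 0 ≤ min 1 (‖p.2‖ - R) := le_min zero_le_one (sub_nonneg.2 p2)
    have h2 := min_le_left 1 (‖p.2‖ - R)
    exact ⟨sub_nonneg.2 (mul_le_one₀ (by linarith) h1 h2),
      sub_le_self _ (mul_nonneg (sub_nonneg.2 p1) h1)⟩
  · rw [hW.2 _ hp.ge, hp, sub_self, min_eq_right zero_le_one, mul_zero, sub_zero]
  · change (if ‖x‖ ≤ R then W x else β (1 - (1 - t) * min 1 (‖x‖ - R))) = _
    rw [if_neg (by linarith), min_eq_left (by linarith), mul_one, sub_sub_cancel]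
  · change (if ‖x‖ ≤ R then W x else β (1 - (1 - 1) * min 1 (‖x‖ - R))) = _
    split_ifs with hx
    · rfl
    · rw [sub_self, zero_mul, sub_zero, hW.2 x (not_le.1 hx).le]
  · change (if ‖x‖ ≤ R then W x else β (1 - (1 - 0) * min 1 (‖x‖ - R))) = _
    split_ifs with hx'
    · rw [hW.2 x hx, le_antisymm hx' hx, sub_self, min_eq_right zero_le_one, sub_zero]
    · rw [sub_zero, one_mul]

theorem mv_lift {W : E (j + 1) → Z} {R : ℝ} {z : Z} (hW : EvC W R z) (z0 : Z) (g : Γ) :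
    ∃ V : E (j + 1) → Z, EvC V (R + 1) z0 ∧ Mv h V g W := by
  obtain ⟨β, hβ, rfl, rfl, rfl⟩ := h.real z0 z g
  obtain ⟨H, hH, h1, h2, -⟩ := collar hW hβ.continuousOn
  exact ⟨fun x => H (0, x), ⟨cmv_slice hH cmv_zero, h1 0 cmv_zero⟩, H, β, R + 1, hH, h1,
    fun _ => rfl, h2, rfl⟩

/-- `Hol.null` for the track gives `N`; take `H (t, x)` for `‖x‖ ≤ R'` and
`N (t, min 1 (‖x‖ - R'))` outside, with `t` clamped to `[0,1]`. -/
theorem mv_based {V W : E (j + 1) → Z} {R : ℝ} {z : Z} (hV : EvC V R z) (hW : EvC W R z)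
    (hm : Mv h V 1 W) : ∃ (H : ℝ × E (j + 1) → Z) (R' : ℝ), Continuous H ∧
      (∀ x, H (0, x) = V x) ∧ (∀ x, H (1, x) = W x) ∧ ∀ t x, R' ≤ ‖x‖ → H (t, x) = z := by
  obtain ⟨H, β, R₀, hH, hβ, h0, h1, hg⟩ := hm
  obtain ⟨y, hy⟩ := cmv_far (j := j) (max R R₀)
  have b0 : β 0 = z := by
    rw [← hβ 0 cmv_zero y ((le_max_right _ _).trans hy), h0, hV.2 y ((le_max_left _ _).trans hy)]
  have b1 : β 1 = z := by
    rw [← hβ 1 cmv_one y ((le_max_right _ _).trans hy), h1, hW.2 y ((le_max_left _ _).trans hy)]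
  obtain ⟨N, hN, n0, n1, n2, n3⟩ := h.null β (track_cont hH hβ) (b1.trans b0.symm) hg
  have hI : ∀ t : ℝ, max 0 (min 1 t) ∈ Icc (0 : ℝ) 1 := fun t =>
    ⟨le_max_left _ _, max_le zero_le_one (min_le_left _ _)⟩
  refine ⟨fun p => if ‖p.2‖ ≤ max R R₀ then H (max 0 (min 1 p.1), p.2)
    else N (max 0 (min 1 p.1), min 1 (‖p.2‖ - max R R₀)), max R R₀ + 1, ?_, fun x => ?_,
    fun x => ?_, fun t x hx => ?_⟩
  · refine continuousOn_univ.1 (contOn_if_le (by fun_prop)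
      (hH.comp_continuous (by fun_prop : Continuous fun p : ℝ × E (j + 1) =>
        (max 0 (min 1 p.1), p.2)) fun p => ⟨hI _, trivial⟩).continuousOn
      (hN.comp (by fun_prop)).continuousOn fun p _ hp => ?_)
    rw [hp, sub_self, min_eq_right zero_le_one, n0 _ (hI _),
      hβ _ (hI _) _ ((le_max_right _ _).trans hp.ge)]
  · change (if ‖x‖ ≤ max R R₀ then H (max 0 (min 1 0), x)
      else N (max 0 (min 1 0), min 1 (‖x‖ - max R R₀))) = _
    rw [min_eq_right zero_le_one, max_self, h0, n2, b0]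
    split_ifs with hx
    · rfl
    · exact (hV.2 x ((le_max_left _ _).trans (not_le.1 hx).le)).symm
  · change (if ‖x‖ ≤ max R R₀ then H (max 0 (min 1 1), x)
      else N (max 0 (min 1 1), min 1 (‖x‖ - max R R₀))) = _
    rw [min_self, max_eq_right zero_le_one, h1, n3, b0]
    split_ifs with hx
    · rfl
    · exact (hW.2 x ((le_max_left _ _).trans (not_le.1 hx).le)).symm
  · change (if ‖x‖ ≤ max R R₀ then H (max 0 (min 1 t), x)
      else N (max 0 (min 1 t), min 1 (‖x‖ - max R R₀))) = _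
    rw [if_neg (by linarith), min_eq_left (by linarith : 1 ≤ ‖x‖ - max R R₀), n1, b0]

/-- Translation in the first coordinate. -/
def cmv_sh (a : ℝ) (x : E (j + 1)) : E (j + 1) := x + Pi.single 0 a

theorem cmv_sh_zero (a : ℝ) (x : E (j + 1)) : cmv_sh a x 0 = x 0 + a := by simp [cmv_sh]

theorem cmv_sh_sub (a : ℝ) (x : E (j + 1)) : ‖cmv_sh a x - x‖ = |a| := by
  rw [cmv_sh, add_sub_cancel_left, Pi.norm_single, Real.norm_eq_abs]

theorem cmv_sh_cont {X : Type} [TopologicalSpace X] {a : X → ℝ} {x : X → E (j + 1)}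
    (ha : Continuous a) (hx : Continuous x) : Continuous fun p => cmv_sh (a p) (x p) :=
  hx.add ((continuous_single (A := fun _ : Fin (j + 1) => ℝ) 0).comp ha)

theorem cmv_sh_abs (a : ℝ) (x : E (j + 1)) : |x 0 + a| ≤ ‖cmv_sh a x‖ := by
  rw [← cmv_sh_zero]
  exact norm_le_pi_norm (cmv_sh a x) 0

theorem cmv_sh_far {a R : ℝ} {x : E (j + 1)} (hx : R + |a| ≤ ‖x‖) : R ≤ ‖cmv_sh a x‖ :=
  cmv_move hx (by rw [Pi.norm_single, Real.norm_eq_abs])

theorem cmv_sh_mv {V W : E (j + 1) → Z} {g : Γ} (hm : Mv h V g W) (a : ℝ) :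
    Mv h (fun x => V (cmv_sh a x)) g W := by
  obtain ⟨R, z, -, hV, -⟩ := hm.evc
  have h1 := ((mv_bd (h := h) hV (cmv_sh_cont continuous_const continuous_id)
    fun x => (cmv_sh_sub a x).le).symm).trans hm
  rwa [inv_one, one_mul] at h1

/-- Put `D = |R| + |c| + 2`, `e = Pi.single 0 1`. Take `collar` homotopies `H1`, `H2` of
`lo c z W`, `hi c z W` along one path `β` from `z0` to `z` with holonomy `g`, and
`H (t, x) = if x 0 ≤ 0 then H1 (t, x + (c + D) • e) else H2 (t, x + (c - D) • e)`. At `t = 1` this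
is `W ∘ m`, `m x = x + (c - max (-D) (min D (x 0))) • e`; use `mv_bd` three times. -/
theorem mv_split {W : E (j + 1) → Z} {R c : ℝ} {z : Z} (hW : EvC W R z)
    (hc : ∀ x, x 0 = c → W x = z) (z0 : Z) (g : Γ) :
    ∃ (V : E (j + 1) → Z) (R' : ℝ), EvC V R' z0 ∧ (∀ x, x 0 = 0 → V x = z0) ∧ Mv h V g W ∧
      Mv h (lo 0 z0 V) g (lo c z W) ∧ Mv h (hi 0 z0 V) g (hi c z W) := by
  obtain ⟨β, hβ, rfl, rfl, rfl⟩ := h.real z0 z g
  obtain ⟨H, hH, a1, a2, -⟩ := collar (hW.lo hc) hβ.continuousOn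
  obtain ⟨H', hH', b1, b2, -⟩ := collar (hW.hi hc) hβ.continuousOn
  obtain ⟨D, hD0, hD1, hD2⟩ : ∃ D : ℝ, 0 ≤ D ∧ R + 1 ≤ c + D ∧ R + 1 ≤ D - c :=
    ⟨|R| + |c| + 1, by positivity, by linarith [le_abs_self R, neg_abs_le c],
      by linarith [le_abs_self R, le_abs_self c]⟩
  have up : ∀ x : E (j + 1), 0 ≤ x 0 → R + 1 ≤ ‖cmv_sh (c + D) x‖ := fun x hx =>
    le_trans (by linarith [le_abs_self (x 0 + (c + D))]) (cmv_sh_abs _ x)
  have dn : ∀ x : E (j + 1), x 0 ≤ 0 → R + 1 ≤ ‖cmv_sh (c - D) x‖ := fun x hx =>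
    le_trans (by linarith [neg_le_abs (x 0 + (c - D))]) (cmv_sh_abs _ x)
  have sh : ∀ a : ℝ, Continuous fun p : ℝ × E (j + 1) => (p.1, cmv_sh a p.2) := fun a =>
    continuous_fst.prodMk (cmv_sh_cont continuous_const continuous_snd)
  have hG : ContinuousOn (fun p : ℝ × E (j + 1) => if p.2 0 ≤ 0 then H (p.1, cmv_sh (c + D) p.2)
      else H' (p.1, cmv_sh (c - D) p.2)) (Icc 0 1 ×ˢ univ) :=
    contOn_if_le (by fun_prop) (hH.comp (sh _).continuousOn fun p hp => ⟨hp.1.1, trivial⟩)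
      (hH'.comp (sh _).continuousOn fun p hp => ⟨hp.1.1, trivial⟩) fun p hp h0 =>
      (a1 _ hp.1 _ (up _ h0.ge)).trans (b1 _ hp.1 _ (dn _ h0.le)).symm
  have far : ∀ t ∈ Icc (0 : ℝ) 1, ∀ x : E (j + 1), R + 1 + (|c + D| + |c - D|) ≤ ‖x‖ →
      (if x 0 ≤ 0 then H (t, cmv_sh (c + D) x) else H' (t, cmv_sh (c - D) x)) = β t := by
    intro t ht x hx
    rw [a1 t ht _ (cmv_sh_far (by linarith [abs_nonneg (c - D)])),
      b1 t ht _ (cmv_sh_far (by linarith [abs_nonneg (c + D)])), ite_self]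
  have m1 : Mv h W 1 (W ∘ fun x => cmv_sh (c - max (-D) (min D (x 0))) x) := by
    refine mv_bd (C := |c| + D) hW (cmv_sh_cont (by fun_prop) continuous_id) fun x => ?_
    rw [cmv_sh_sub]
    have h1 := le_max_left (-D) (min D (x 0))
    have h2 : max (-D) (min D (x 0)) ≤ D := max_le (by linarith) (min_le_left _ _)
    exact abs_le.2 ⟨by linarith [neg_abs_le c], by linarith [le_abs_self c]⟩
  have m2 : Mv h (fun x => if x 0 ≤ 0 then H (0, cmv_sh (c + D) x) else H' (0, cmv_sh (c - D) x))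
      (h.hol β) (W ∘ fun x => cmv_sh (c - max (-D) (min D (x 0))) x) := by
    refine ⟨_, β, _, hG, far, fun _ => rfl, fun x => ?_, rfl⟩
    change (if x 0 ≤ 0 then H (1, cmv_sh (c + D) x) else H' (1, cmv_sh (c - D) x)) =
      W (cmv_sh (c - max (-D) (min D (x 0))) x)
    rw [a2, b2, lo, hi, cmv_sh_zero, cmv_sh_zero]
    have mid : -D ≤ x 0 → x 0 ≤ D → W (cmv_sh (c - max (-D) (min D (x 0))) x) = β 1 :=
      fun h1 h2 => hc _ (by
        rw [cmv_sh_zero, min_eq_right h2, max_eq_right h1]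
        ring)
    split_ifs with h1 h2 h2
    · rw [min_eq_right (by linarith), max_eq_left (by linarith), sub_neg_eq_add]
    · exact (mid (by linarith) (by linarith)).symm
    · exact (mid (by linarith) (by linarith)).symm
    · rw [min_eq_left (by linarith), max_eq_right (by linarith)]
  refine ⟨fun x => if x 0 ≤ 0 then H (0, cmv_sh (c + D) x) else H' (0, cmv_sh (c - D) x), _,
    ⟨cmv_slice hG cmv_zero, far 0 cmv_zero⟩,
    fun x hx => (if_pos hx.le).trans (a1 0 cmv_zero _ (up x hx.ge)), ?_, ?_, ?_⟩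
  · have h1 := m2.trans m1.symm
    rwa [inv_one, mul_one] at h1
  · have h1 : Mv h (fun x => H (0, x)) (h.hol β) (lo c (β 1) W) :=
      ⟨H, β, R + 1, hH, a1, fun _ => rfl, a2, rfl⟩
    convert cmv_sh_mv h1 (c + D) using 1
    funext x
    rw [lo]
    split_ifs with hx
    · rfl
    · exact (a1 0 cmv_zero _ (up x (not_le.1 hx).le)).symm
  · have h1 : Mv h (fun x => H' (0, x)) (h.hol β) (hi c (β 1) W) :=
      ⟨H', β, R + 1, hH', b1, fun _ => rfl, b2, rfl⟩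
    convert cmv_sh_mv h1 (c - D) using 1
    funext x
    rw [hi]
    split_ifs with hx
    · exact (b1 0 cmv_zero _ (dn x hx)).symm
    · rfl

end Pool.Agent.Lib.MP_5ceaf9_gt.OC
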