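import Pool.Agent.Lib.MP_5ceaf9_gt.CChart

noncomputable section

namespace Pool.Agent.Lib.MP_5ceaf9_gt.OC

open Set

/-- One coordinate of the retraction. -/
def cret_g (d t x : ℝ) : ℝ := max (-1) (max (-1) (min 1 ((1 + 2 * d) * x)) - 2 * max 0 (min 1 t))

theorem cret_abs (d t x : ℝ) : |cret_g d t x| ≤ 1 := by
  have h1 : max (-1) (min 1 ((1 + 2 * d) * x)) ≤ 1 := max_le (by norm_num) (min_le_left _ _)
  have h2 : 0 ≤ max 0 (min 1 t) := le_max_left _ _
  exact abs_le.2 ⟨le_max_left _ _, max_le (by norm_num) (by linarith)⟩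

theorem cret_id {t x : ℝ} (ht : t ≤ 0) (hx : |x| ≤ 1) : cret_g 0 t x = x := by
  obtain ⟨h1, h2⟩ := abs_le.1 hx
  rw [cret_g, mul_zero, add_zero, one_mul, min_eq_right h2, max_eq_right h1,
    max_eq_left ((min_le_right _ _).trans ht), mul_zero, sub_zero, max_eq_right h1]

theorem cret_hi (d x : ℝ) {t : ℝ} (ht : 1 ≤ t) : ¬ |cret_g d t x| < 1 := by
  have h1 : max (-1) (min 1 ((1 + 2 * d) * x)) ≤ 1 := max_le (by norm_num) (min_le_left _ _)
  rw [cret_g, min_eq_left ht, max_eq_right zero_le_one, max_eq_left (by linarith)]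
  norm_num

theorem cret_lo {d t x : ℝ} (ht : t ≤ 0) (h0 : 0 ≤ d) (h1 : 2 * d ≤ 1) (hx : 1 - |x| ≤ d) :
    ¬ |cret_g d t x| < 1 := by
  rw [cret_g, max_eq_left ((min_le_right _ _).trans ht), mul_zero, sub_zero,
    max_eq_right (le_max_left _ _)]
  have h2 := mul_nonneg h0 (sub_nonneg.2 h1)
  rcases abs_cases x with ⟨h, -⟩ | ⟨h, -⟩
  · rw [min_eq_left (by nlinarith), max_eq_right (by norm_num)]
    norm_num
  · rw [max_eq_left ((min_le_right _ _).trans (by nlinarith))]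
    norm_num

theorem cret_delta (k : ℕ) {m : ℕ} (hm : 0 < m) : ∃ δ : E k → ℝ, Continuous δ ∧
    ∀ y, ‖y‖ ≤ 1 → 0 ≤ δ y ∧ (cnt y < m → δ y = 0) ∧
      ∃ S : Finset (Fin k), Sᶜ.card < m ∧ ∀ i ∈ S, 1 - |y i| ≤ δ y := by
  classical
  have hne : (Finset.univ.filter fun S : Finset (Fin k) => Sᶜ.card < m).Nonempty :=
    ⟨Finset.univ, by simpa using hm⟩
  refine ⟨fun y => Finset.inf' _ hne fun S => ∑ i ∈ S, (1 - |y i|),
    Continuous.finset_inf'_apply hne fun S _ => by fun_prop, fun y hy => ?_⟩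
  have h1 : ∀ i, 0 ≤ 1 - |y i| := fun i => sub_nonneg.2 ((norm_le_pi_norm y i).trans hy)
  have h2 : 0 ≤ Finset.inf' _ hne fun S => ∑ i ∈ S, (1 - |y i|) :=
    Finset.le_inf' _ _ fun S _ => Finset.sum_nonneg fun i _ => h1 i
  refine ⟨h2, fun h => le_antisymm ?_ h2, ?_⟩
  · refine (Finset.inf'_le _ (b := (Finset.univ.filter fun i => |y i| < 1)ᶜ)
      (Finset.mem_filter.2 ⟨Finset.mem_univ _, by rwa [compl_compl]⟩)).trans
      (Finset.sum_nonpos fun i hi => ?_)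
    simpa using hi
  · obtain ⟨S, hS, e⟩ := Finset.exists_mem_eq_inf' hne fun S => ∑ i ∈ S, (1 - |y i|)
    refine ⟨S, (Finset.mem_filter.1 hS).2, fun i hi => ?_⟩
    exact (Finset.single_le_sum (fun i _ => h1 i) hi).trans e.ge

/-- Let `K = {y | ‖y‖ ≤ 1 ∧ cnt y < m}` (compact: a finite union over the sets of extreme
coordinates; it contains the corner `-1`), `δ y = Metric.infDist y K`,
`w y i = max (-1) (min 1 ((1 + 2 δ y) * y i))`, `s y = min 1 (2 δ y)` and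
`r y i = max (-1) (w y i - 2 * max 0 (min 1 (k * s y - i)))`. If `δ y ≤ 1/2` a nearest point of
`K` shows `cnt (w y) < m`; at time `s` at most one coordinate (`i < k s < i + 1`) can stop being
extreme; if `s y = 1` then `r y = -1`. -/
theorem ret_model (k : ℕ) {m : ℕ} (hm : 0 < m) : ∃ r : E k → E k, Continuous r ∧
    ∀ y, ‖y‖ ≤ 1 → ‖r y‖ ≤ 1 ∧ cnt (r y) ≤ m ∧ (cnt y < m → r y = y) := by
  classical
  obtain ⟨δ, hc, hδ⟩ := cret_delta k hm
  refine ⟨fun y i => cret_g (δ y) (k * (2 * δ y) - (i : ℕ)) (y i),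
    continuous_pi fun i => by unfold cret_g; fun_prop, fun y hy => ?_⟩
  obtain ⟨h0, h1, S, hS, h2⟩ := hδ y hy
  refine ⟨(pi_norm_le_iff_of_nonneg zero_le_one).2 fun i => cret_abs _ _ _, ?_, fun h => ?_⟩
  · let T : Finset (Fin k) := Finset.univ.filter fun i =>
      0 < k * (2 * δ y) - (i : ℕ) ∧ k * (2 * δ y) - (i : ℕ) < 1
    have hT : T.card ≤ 1 := Finset.card_le_one.2 fun i hi j hj => by
      obtain ⟨-, a1, a2⟩ := Finset.mem_filter.1 hi
      obtain ⟨-, a3, a4⟩ := Finset.mem_filter.1 hj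
      have b1 : ((i : ℕ) : ℝ) < (j : ℕ) + 1 := by linarith
      have b2 : ((j : ℕ) : ℝ) < (i : ℕ) + 1 := by linarith
      norm_cast at b1 b2
      exact Fin.ext (by omega)
    refine (Finset.card_le_card (t := Sᶜ ∪ T) fun i hi => ?_).trans
      ((Finset.card_union_le _ _).trans (by omega))
    have h3 := (Finset.mem_filter.1 hi).2
    by_contra h4
    rw [Finset.mem_union, not_or, Finset.mem_compl, not_not] at h4
    rcases le_or_gt (k * (2 * δ y) - (i : ℕ)) 0 with h5 | h5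
    · refine cret_lo h5 h0 (not_lt.1 fun h6 => ?_) (h2 i h4.1) h3
      have h7 : ((i : ℕ) : ℝ) < k := by exact_mod_cast i.2
      have h8 := mul_le_mul_of_nonneg_left h6.le (Nat.cast_nonneg (α := ℝ) k)
      linarith
    · exact cret_hi _ _ (not_lt.1 fun h6 => h4.2 (Finset.mem_filter.2
        ⟨Finset.mem_univ _, h5, h6⟩)) h3
  · funext i
    beta_reduce
    rw [h1 h]
    exact cret_id (by simp) ((norm_le_pi_norm y i).trans hy)

/-- `chi ∘ r ∘ co`. -/
theorem ret {n : ℕ} (e : Lat n) {m : ℕ} (hm : 0 < m) : ∃ r : E n → E n, Continuous r ∧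
    ∀ x ∈ cube e, r x ∈ cube e ∧ dimE (car (r x)) ≤ m ∧ (dimE (car x) < m → r x = x) := by
  obtain ⟨ι, h⟩ := exists_chart (e := e) rfl
  obtain ⟨r, hc, hr⟩ := ret_model (dimE e) hm
  refine ⟨chi e ι ∘ r ∘ co e ι, h.continuous_chi.comp (hc.comp continuous_co), fun x hx => ?_⟩
  obtain ⟨h1, h2, h3⟩ := hr _ (h.norm_co hx)
  refine ⟨h.chi_mem h1, (h.dim_car h1).trans_le h2, fun h4 => ?_⟩
  rw [← h.chi_co hx, h.dim_car (h.norm_co hx)] at h4
  exact (congrArg (chi e ι) (h3 h4)).trans (h.chi_co hx)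

end Pool.Agent.Lib.MP_5ceaf9_gt.OC
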