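import Pool.Agent.Lib.MP_5ceaf9_gt.CCone

noncomputable section

namespace Pool.Agent.Lib.MP_5ceaf9_gt.OC

open Set

variable {Z Γ : Type} [TopologicalSpace Z] [Group Γ] {h : Hol Z Γ}


theorem crot_lab {n : ℕ} {g : E n → Z} {lam : E n → Γ} (hl : Lab h g lam) {T : E n → E n}
    (hT : Continuous T) (hn : ∀ y, ‖T y‖ = ‖y‖)
    (hs : ∀ x y (t : ℝ), T (x + t • (y - x)) = T x + t • (T y - T x))
    (hf : ∀ (i : Fin n) (s : ℤ), s = 1 ∨ s = -1 → ∃ (i' : Fin n) (s' : ℤ), (s' = 1 ∨ s' = -1) ∧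
      ∀ y : E n, y i = s → T y i' = s') : Lab h (g ∘ T) (lam ∘ T) := by
  refine ⟨hl.cont.comp hT.continuousOn fun y hy => ?_, fun i s hs' x hx y hy => ?_⟩
  · rwa [mem_sphere_zero_iff_norm, hn, ← mem_sphere_zero_iff_norm]
  · obtain ⟨i', s', h1, h2⟩ := hf i s hs'
    have e : seg (g ∘ T) x y = seg g (T x) (T y) := funext fun t => congrArg g (hs x y t)
    rw [e]
    exact hl.flat i' s' h1 _ ⟨(hn x).trans_le hx.1, h2 x hx.2⟩ _ ⟨(hn y).trans_le hy.1, h2 y hy.2⟩

theorem Lab.rf {n : ℕ} {g : E n → Z} {lam : E n → Γ} (hl : Lab h g lam) (i : Fin n) :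
    Lab h (g ∘ rf i) (lam ∘ rf i) := by
  refine crot_lab hl (continuous_rf i) (norm_rf i) (rf_seg i) fun i' s hs => ?_
  by_cases e : i' = i
  · subst e
    exact ⟨i', -s, by omega, fun y hy => by simp [OC.rf, hy]⟩
  · exact ⟨i', s, hs, fun y hy => by simp [OC.rf, e, hy]⟩

theorem Lab.perm {n : ℕ} {g : E n → Z} {lam : E n → Γ} (hl : Lab h g lam)
    (π : Equiv.Perm (Fin n)) : Lab h (fun y => g (y ∘ π)) (fun y => lam (y ∘ π)) := by
  exact crot_lab hl (T := fun y => y ∘ π) (continuous_pi fun i => continuous_apply (π i))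
    (norm_perm π) (fun _ _ _ => rfl) fun i s hs => ⟨π.symm i, s, hs, fun y hy => by simpa using hy⟩

theorem Lab.rot {m : ℕ} {g : E (m + 1) → Z} {lam : E (m + 1) → Γ} (hl : Lab h g lam)
    (i : Fin (m + 1)) {s : ℤ} (hs : s = 1 ∨ s = -1) : Lab h (g ∘ rot i s) (lam ∘ rot i s) := by
  have e : OC.rot i 1 = fun y => y ∘ Fin.cycleRange i := funext (rot_one i)
  have h1 : Lab h (g ∘ OC.rot i 1) (lam ∘ OC.rot i 1) := e ▸ hl.perm _
  rcases hs with rfl | rfl
  · exact h1
  · rw [show OC.rot i (-1) = OC.rot i 1 ∘ OC.rf 0 from funext (rot_neg_one i)]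
    exact h1.rf 0

variable {j : ℕ} {A : Type} [AddCommGroup A] [DistribMulAction Γ A] (F : FC h j A)
  {g : E (j + 2) → Z} {lam : E (j + 2) → Γ}

/-- `H (t, x) = g (‖w‖⁻¹ • w)` with `w = kap x + t • (T (kap x) - kap x)`; the track is a path in
the sphere from `south` to `T south`, so `Lab.path` absorbs its holonomy. -/
theorem FC.OO_near (hl : Lab h g lam) {T : E (j + 2) → E (j + 2)} (hT : Continuous T)
    (hn : ∀ y, ‖y‖ = 1 → ‖T y‖ = 1)
    (hne : ∀ y, ‖y‖ = 1 → ∀ t ∈ Icc (0 : ℝ) 1, y + t • (T y - y) ≠ 0) :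
    F.OO (g ∘ T) (lam ∘ T) = F.OO g lam := by
  let N : ℝ × E (j + 2) → E (j + 2) := fun p =>
    ‖p.2 + p.1 • (T p.2 - p.2)‖⁻¹ • (p.2 + p.1 • (T p.2 - p.2))
  have c0 : Continuous fun p : ℝ × E (j + 2) => p.2 + p.1 • (T p.2 - p.2) := by fun_prop
  have c1 : ContinuousOn N (Icc 0 1 ×ˢ Metric.sphere 0 1) :=
    (c0.norm.continuousOn.inv₀ fun p hp =>
      norm_ne_zero_iff.2 (hne _ (mem_sphere_zero_iff_norm.1 hp.2) _ hp.1)).smul c0.continuousOn
  have m1 : MapsTo N (Icc 0 1 ×ˢ Metric.sphere 0 1) (Metric.sphere 0 1) := fun p hp =>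
    mem_sphere_zero_iff_norm.2 (norm_smul_inv_norm (hne _ (mem_sphere_zero_iff_norm.1 hp.2) _ hp.1))
  have n0 : ∀ y, ‖y‖ = 1 → N (0, y) = y := fun y hy => by simp [N, hy]
  have n1 : ∀ y, ‖y‖ = 1 → N (1, y) = T y := fun y hy => by simp [N, hn y hy]
  have ms : MapsTo (fun t : ℝ => (t, south (j + 1))) (Icc 0 1) (Icc 0 1 ×ˢ Metric.sphere 0 1) :=
    fun t ht => ⟨ht, mem_sphere_zero_iff_norm.2 norm_south⟩
  have h1 := hl.path (fun t => N (t, south (j + 1))) (c1.comp (by fun_prop) ms) (m1.comp ms)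
  have h2 := F.htpy (g ∘ kap) ((g ∘ T) ∘ kap) _ ⟨fun p => g (N (p.1, kap p.2)),
    g ∘ fun t => N (t, south (j + 1)), 4, (hl.cont.comp c1 m1).comp
      (continuous_fst.prodMk (continuous_kap.comp continuous_snd)).continuousOn
      fun p hp => ⟨hp.1, mem_sphere_zero_iff_norm.2 (norm_kap _)⟩,
    fun t _ x hx => by simp only [kap_of_ge hx, Function.comp],
    fun x => congrArg g (n0 _ (norm_kap x)), fun x => congrArg g (n1 _ (norm_kap x)), rfl⟩
  rw [n0 _ norm_south, n1 _ norm_south] at h1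
  simp only [FC.OO, FC.oo]
  rw [h2, ← mul_smul, h1]
  rfl

/-- `kap_rf`, `rf_south`, `FC.refl`. -/
theorem FC.OO_rf_succ (hl : Lab h g lam) (i : Fin (j + 1)) :
    F.OO (g ∘ rf i.succ) (lam ∘ rf i.succ) = -F.OO g lam := by
  have e : (g ∘ rf i.succ) ∘ kap = (g ∘ kap) ∘ rf i := funext fun x => congrArg g (kap_rf i x).symm
  simp only [FC.OO, FC.oo]
  rw [e, F.refl _ _ _ i (evc_kap hl.cont), smul_neg, Function.comp_apply, rf_south]

/-- For `a ≠ b`, say `b ≠ 0`, the map `T y = (rf b y) ∘ swap a b` is a quarter turn, so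
`FC.OO_near` applies; `y ∘ swap a b = T (rf b y)`. -/
theorem FC.OO_swap (hl : Lab h g lam) {a b : Fin (j + 2)} (hab : a ≠ b) :
    F.OO (fun y => g (y ∘ Equiv.swap a b)) (fun y => lam (y ∘ Equiv.swap a b)) = -F.OO g lam := by
  have key : ∀ (a : Fin (j + 2)) (i : Fin (j + 1)), a ≠ i.succ →
      F.OO (fun y => g (y ∘ Equiv.swap a i.succ)) (fun y => lam (y ∘ Equiv.swap a i.succ)) =
        -F.OO g lam := by
    intro a i ha
    rw [← F.OO_near hl (T := fun y => rf i.succ y ∘ Equiv.swap a i.succ)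
      ((continuous_pi fun l => continuous_apply _).comp (continuous_rf _))
      (fun y hy => by rw [norm_perm, norm_rf, hy]), eq_neg_iff_add_eq_zero, add_comm,
      ← eq_neg_iff_add_eq_zero]
    · exact F.OO_rf_succ (hl.perm _) i
    · intro y hy t _ h0
      have h1 := congrFun h0 a
      have h2 := congrFun h0 i.succ
      simp only [rf, Pi.add_apply, Pi.smul_apply, Pi.sub_apply, Function.comp_apply,
        Equiv.swap_apply_left, Equiv.swap_apply_right, Function.update_self,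
        Function.update_of_ne ha, smul_eq_mul, Pi.zero_apply] at h1 h2
      have h3 : (1 - t) ^ 2 + t ^ 2 ≠ 0 := by nlinarith [sq_nonneg (1 - 2 * t)]
      have h4 : y a = 0 := mul_left_cancel₀ h3 (by linear_combination (1 - t) * h1 + t * h2)
      have h5 : y i.succ = 0 := mul_left_cancel₀ h3 (by linear_combination (1 - t) * h2 - t * h1)
      have h6 : y = 0 := funext fun l => by
        by_cases e1 : l = a
        · rw [e1, h4, Pi.zero_apply]
        by_cases e2 : l = i.succ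
        · rw [e2, h5, Pi.zero_apply]
        simpa [rf, Equiv.swap_apply_of_ne_of_ne e1 e2, e2] using congrFun h0 l
      simp [h6] at hy
  rcases Fin.eq_zero_or_eq_succ b with rfl | ⟨i, rfl⟩
  · obtain ⟨i, rfl⟩ := Fin.exists_succ_eq.2 hab
    rw [Equiv.swap_comm]
    exact key 0 i hab.symm
  · exact key a i hab

/-- The reflection of coordinate `0` is conjugate to that of coordinate `1` by a swap. -/
theorem FC.OO_rf (hl : Lab h g lam) (i : Fin (j + 2)) :
    F.OO (g ∘ rf i) (lam ∘ rf i) = -F.OO g lam := by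
  rcases Fin.eq_zero_or_eq_succ i with rfl | ⟨i, rfl⟩
  · have hn : (0 : Fin (j + 2)) ≠ (0 : Fin (j + 1)).succ := (Fin.succ_ne_zero _).symm
    have e : (rf 0 : E (j + 2) → E (j + 2)) = fun y => rf (0 : Fin (j + 1)).succ
        (y ∘ Equiv.swap 0 (0 : Fin (j + 1)).succ) ∘ Equiv.swap 0 (0 : Fin (j + 1)).succ := by
      funext y l
      by_cases e1 : l = 0
      · simp [rf, e1]
      by_cases e2 : l = (0 : Fin (j + 1)).succ
      · subst e2
        simp only [rf, Function.comp_apply, Equiv.swap_apply_right, Function.update_of_ne hn,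
          Function.update_of_ne hn.symm, Equiv.swap_apply_left]
      · simp only [rf, Function.comp_apply, Equiv.swap_apply_of_ne_of_ne e1 e2,
          Function.update_of_ne e1, Function.update_of_ne e2]
    have h1 := F.OO_swap ((hl.perm (Equiv.swap 0 (0 : Fin (j + 1)).succ)).rf (0 : Fin (j + 1)).succ) hn
    rw [F.OO_rf_succ (hl.perm _), F.OO_swap hl hn, neg_neg] at h1
    rw [e]
    exact h1
  · exact F.OO_rf_succ hl i

/-- `Equiv.Perm.swap_induction_on`, generalising `g` and `lam`. -/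
theorem FC.OO_perm (hl : Lab h g lam) (π : Equiv.Perm (Fin (j + 2))) :
    F.OO (fun y => g (y ∘ π)) (fun y => lam (y ∘ π)) =
      ((Equiv.Perm.sign π : ℤˣ) : ℤ) • F.OO g lam := by
  induction π using Equiv.Perm.swap_induction_on with
  | one => simp
  | swap_mul π a b hab ih =>
    rw [map_mul, Equiv.Perm.sign_swap hab, neg_one_mul, Units.val_neg, neg_smul, ← ih]
    exact F.OO_swap (hl.perm π) hab

/-- `rot_one`, `rot_neg_one`, `Fin.sign_cycleRange`. -/
theorem FC.OO_rot (hl : Lab h g lam) (i : Fin (j + 2)) {s : ℤ} (hs : s = 1 ∨ s = -1) :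
    F.OO (g ∘ rot i s) (lam ∘ rot i s) = ((-1) ^ (i : ℕ) * s : ℤ) • F.OO g lam := by
  have e : OC.rot i 1 = fun y => y ∘ Fin.cycleRange i := funext (rot_one i)
  have h1 : F.OO (g ∘ rot i 1) (lam ∘ rot i 1) = ((-1) ^ (i : ℕ) : ℤ) • F.OO g lam := by
    have := F.OO_perm hl (Fin.cycleRange i)
    rw [Fin.sign_cycleRange, Units.val_pow_eq_pow_val] at this
    rw [e]
    exact this
  rcases hs with rfl | rfl
  · rw [h1, mul_one]
  · rw [show OC.rot i (-1) = OC.rot i 1 ∘ OC.rf 0 from funext (rot_neg_one i), mul_neg_one,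
      neg_smul, ← h1]
    exact F.OO_rf (hl.rot i (Or.inl rfl)) 0

/-- `fl_sign` for maps to `Z × Γ`. -/
theorem FC.OO_fl (hl : Lab h g lam) (θ : Fin (j + 2) → Bool) :
    F.OO (g ∘ fl θ) (lam ∘ fl θ) = sg θ • F.OO g lam := by
  exact fl_sign (X := Z × Γ) (fun V => F.OO (Prod.fst ∘ V) (Prod.snd ∘ V))
    (fun V => Lab h (Prod.fst ∘ V) (Prod.snd ∘ V)) (fun _ i hV => hV.rf i)
    (fun _ i hV => F.OO_rf hV i) θ (fun y => (g y, lam y)) hl

end Pool.Agent.Lib.MP_5ceaf9_gt.OC
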