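import Pool.Agent.Lib.MP_5ceaf9_gt.CLam
import Pool.Agent.Lib.MP_5ceaf9_gt.CAlg
import Pool.Agent.Lib.MP_5ceaf9_gt.CRet
import Pool.Agent.Lib.MP_5ceaf9_gt.CFcEx

noncomputable section

namespace Pool.Agent.Lib.MP_5ceaf9_gt.OC

open Set

variable {n : ℕ} {η : Fin n → Bool} {Q P : Finset (Lat n)} {Z Γ : Type} [TopologicalSpace Z]
  [Group Γ] {h : Hol Z Γ} {m : ℕ} {f : E n → Z} {c : Lat n → Lat n → Γ}

variable {j : ℕ} {A : Type} [AddCommGroup A] [DistribMulAction Γ A] (F : FC h j A)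

theorem cstep_vox (hp : Pair η Q P) {e : Lat n} (he : e ∈ P) {x : E n} (hx : x ∈ cube e)
    (hd : dimE (car x) < m) : x ∈ vox (dom Q P m) :=
  (mem_vox (hp.upc_dom m)).2 (mem_dom.2 ⟨hp.uP e he _ (mem_cube_iff.1 hx), Or.inr hd⟩)

theorem cstep_ball {k : ℕ} {a : Lat n} (hd : dimE a = k) {g : E n → Z}
    (hg : ContinuousOn g (cube a)) : ContinuousOn (g ∘ ch k a) (Metric.closedBall 0 1) := by
  obtain ⟨ι, hι⟩ := exists_chart hd
  rw [hι.ch_eq]
  exact hg.comp hι.continuous_chi.continuousOn fun x hx =>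
    hι.chi_mem (mem_closedBall_zero_iff.1 hx)

theorem cstep_mem {k : ℕ} {a : Lat n} (hd : dimE a = k) {x : E k} (hx : ‖x‖ ≤ 1) :
    ch k a x ∈ cube a := by
  obtain ⟨ι, hι⟩ := exists_chart hd
  rw [hι.ch_eq]
  exact hι.chi_mem hx

/-- Take `r` from `ret e` with `m = j + 1` and `f' = f ∘ r`, continuous on `cube e`. For every
face `a` of codimension one, `FC.df_cell` and `FC.oo_cell` give `ob a = - dE c ψ a` with
`ψ b = dd (f ∘ ch b) (f' ∘ ch b)`; `dE_congr`, `dE_neg`, `dE_dE`. -/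
theorem FC.ob_cocycle (hj : 1 ≤ j) (hp : Pair η Q P) (hs : St h η Q P (j + 2) f c) {e : Lat n}
    (he : e ∈ P) (hd : dimE e = j + 3) : dE c (F.ob f c) e = 0 := by
  obtain ⟨r, hr, hr'⟩ := ret e (Nat.succ_pos j)
  have hf' : ContinuousOn (f ∘ r) (cube e) :=
    hs.cont.comp hr.continuousOn fun x hx =>
      cstep_vox hp he (hr' x hx).1 (Nat.lt_succ_of_le (hr' x hx).2.1)
  let ψ : Lat n → A := fun b => F.dd (f ∘ ch (j + 1) b) ((f ∘ r) ∘ ch (j + 1) b)
  have key : ∀ i s, e i % 2 = 0 → s = 1 ∨ s = -1 →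
      F.ob f c (fac e i s) = (fun a => -dE c ψ a) (fac e i s) := by
    intro i s hi hs1
    have hle := le1_fac hi hs1
    have hda : dimE (fac e i s) = j + 2 := by
      have := dimE_fac hi hs1
      omega
    obtain ⟨γ, hγ⟩ := F.df_cell hj hp hs (hp.uP e he _ hle) hda (f' := f ∘ r)
      (fun b hb _ => hf'.mono (cube_mono (le1_trans hle hb)))
      (fun x hx hx' => congrArg f ((hr' x (cube_mono hle hx)).2.2 hx')) (ψ := ψ)
      (fun _ _ _ _ => rfl)
    rw [F.oo_cell hda (hf'.mono (cube_mono hle)), smul_zero] at hγ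
    exact eq_neg_of_add_eq_zero_left hγ.symm
  rw [dE_congr c (ψ' := fun a => -dE c ψ a) key, dE_neg, dE_dE c ψ, neg_zero]
  intro b d hb hbd
  exact hs.flat e he b (hp.uP e he b hb) d (hp.uP e he d (le1_trans hb hbd)) hb hbd

/-- `H3` applied to `φ a = if a ∈ nw Q P (j + 2) then - ob a else 0`. -/
theorem FC.exists_psi (hj : 1 ≤ j) (hp : Pair η Q P) (h3 : H3 η Q P)
    (hs : St h η Q P (j + 2) f c) : ∃ ψ : Lat n → A, CochL η Q P (j + 1) ψ ∧
      ∀ a ∈ nw Q P (j + 2), F.ob f c a + dE c ψ a = 0 := by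
  obtain ⟨k, rfl⟩ : ∃ k, j = k + 1 := ⟨j - 1, by omega⟩
  let φ : Lat n → A := fun a => if a ∈ nw Q P (k + 1 + 2) then -F.ob f c a else 0
  have h1 : CochL η Q P (k + 3) φ := by
    refine ⟨fun e => ?_, fun e he => ?_⟩
    · by_cases he : e ∈ nw Q P (k + 1 + 2)
      · simp only [φ, if_pos he, if_pos (hp.invt_nw _ e he)]
        rw [F.ob_fl hp hs (mem_nw.1 he).1 (mem_nw.1 he).2.2, smul_neg]
      · have he' : fl η e ∉ nw Q P (k + 1 + 2) := fun h' => he (by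
          have := hp.invt_nw _ _ h'
          rwa [fl_fl] at this)
        simp only [φ, if_neg he, if_neg he', smul_zero]
    · by_cases he' : e ∈ nw Q P (k + 1 + 2)
      · exact mem_nw.1 he'
      · exact absurd (if_neg he') he
  have h2 : ∀ e ∈ P, dE c φ e = 0 := by
    intro e he
    by_cases hd : dimE e = k + 1 + 3
    · rw [dE_congr c (ψ' := fun a => -F.ob f c a), dE_neg, F.ob_cocycle hj hp hs he hd, neg_zero]
      intro i s hi hs1
      have hle := le1_fac hi hs1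
      have hda : dimE (fac e i s) = k + 1 + 2 := by
        have := dimE_fac hi hs1
        omega
      by_cases hq : fac e i s ∈ Q
      · have h0 : F.ob f c (fac e i s) = 0 := by
          unfold FC.ob FC.OO
          rw [F.oo_cell hda (hs.cont.mono (cube_sub_vox (hp.sub_dom _ hq))), smul_zero]
        simp only [φ, h0, neg_zero, ite_self]
      · exact if_pos (mem_nw.2 ⟨hp.uP e he _ hle, hq, hda⟩)
    · rw [dE_congr c (ψ' := fun _ => 0), dE_zero]
      intro i s hi hs1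
      refine if_neg fun h' => hd ?_
      have h4 := dimE_fac hi hs1
      have h5 := (mem_nw.1 h').2.2
      omega
  obtain ⟨ψ, hψ, hψ'⟩ := h3 Γ A c hs.cinv hs.flat k φ h1 h2
  refine ⟨ψ, hψ, fun a ha => ?_⟩
  rw [hψ' a (mem_nw.1 ha).1]
  simp only [φ, if_pos ha, add_neg_cancel]

/-- `step_glue` at level `j + 1` with
`Good b G = Fill (f ∘ ch b) (G ∘ ch b) ∧ dd (f ∘ ch b) (G ∘ ch b) = ψ b` (`FC.dd_real`,
`Chart.fill`, `Chart.chi_fl`, `FC.dd_fl`, `Chart.orE_eq`), then `FC.df_cell` (`FC.dd_self` for the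
faces in `Q`). -/
theorem FC.step_mod (hj : 1 ≤ j) (hp : Pair η Q P) (h3 : H3 η Q P)
    (hs : St h η Q P (j + 2) f c) : ∃ f' : E n → Z, ContinuousOn f' (vox (dom Q P (j + 2))) ∧
      (∀ x, f' (fl η x) = f' x) ∧ (∀ x ∈ vox (dom Q P (j + 1)), f' x = f x) ∧
      ∀ a ∈ nw Q P (j + 2), F.oo (f' ∘ ch (j + 2) a) = 0 := by
  obtain ⟨ψ, hψ, hψ'⟩ := F.exists_psi hj hp h3 hs
  have hcb : ∀ b ∈ P, dimE b = j + 1 → ContinuousOn f (cube b) := fun b hb hd =>
    hs.cont.mono (cube_sub_vox (mem_dom.2 ⟨hb, Or.inr (by omega)⟩))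
  obtain ⟨f', hc, hi, he, hn⟩ := step_glue (m := j + 1) hp hs.mono.cont hs.inv
    (fun b G => Fill (f ∘ ch (j + 1) b) (G ∘ ch (j + 1) b) ∧
      F.dd (f ∘ ch (j + 1) b) (G ∘ ch (j + 1) b) = ψ b)
    (by
      rintro a ha G ⟨h1, h2⟩
      obtain ⟨ι, hι⟩ := exists_chart (mem_nw.1 ha).2.2
      rw [hι.ch_eq] at h1 h2
      rw [(hι.fl (η := η)).ch_eq]
      have e1 : f ∘ chi (fl η a) ι = (f ∘ chi a ι) ∘ fl (η ∘ ι) := by
        funext x
        simp only [Function.comp_apply, hι.chi_fl, hs.inv]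
      have e2 : (G ∘ fl η) ∘ chi (fl η a) ι = (G ∘ chi a ι) ∘ fl (η ∘ ι) := by
        funext x
        simp only [Function.comp_apply, hι.chi_fl, fl_fl]
      rw [e1, e2]
      refine ⟨(F.dd_fl h1 _).1, ?_⟩
      rw [(F.dd_fl h1 _).2, h2, hψ.1 a, hι.orE_eq])
    (by
      intro a ha
      obtain ⟨h1, -, h2⟩ := mem_nw.1 ha
      obtain ⟨v, hv, hv'⟩ := F.dd_real (cstep_ball h2 (hcb a h1 h2)) (ψ a)
      obtain ⟨ι, hι⟩ := exists_chart h2
      have e1 : (v ∘ co a ι) ∘ ch (j + 1) a = v := by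
        funext x
        simp only [hι.ch_eq, Function.comp_apply, hι.co_chi]
      have h4 := hι.fill (f := f) hv.cv fun y hy => by
        have := hv.eq y hy
        rw [hι.ch_eq] at this
        exact this.symm
      refine ⟨v ∘ co a ι, h4.1, h4.2, ?_⟩
      rw [e1]
      exact ⟨hv, hv'⟩)
  refine ⟨f', hc, hi, he, fun a ha => ?_⟩
  obtain ⟨h1, -, h2⟩ := mem_nw.1 ha
  obtain ⟨γ, hγ⟩ := F.df_cell hj hp hs h1 h2 (f' := f')
    (fun b hb hne => hc.mono (cube_sub_vox (hp.face_dom h1 hb hne h2.le)))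
    (fun x hx hx' => he x (cstep_vox hp h1 hx hx')) (ψ := ψ) (by
      intro i s hi' hs1
      have hb := hp.uP a h1 _ (le1_fac hi' hs1)
      have hdb : dimE (fac a i s) = j + 1 := by
        have := dimE_fac hi' hs1
        omega
      by_cases hq : fac a i s ∈ Q
      · rw [F.dd_self (v := f' ∘ ch (j + 1) (fac a i s)) (cstep_ball hdb (hcb _ hb hdb))
          fun x hx => he _ (cube_sub_vox (hp.sub_dom _ hq) (cstep_mem hdb hx))]
        by_contra h0
        exact (hψ.2 _ h0).2.1 hq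
      · obtain ⟨G, hG, hG'⟩ := hn _ (mem_nw.2 ⟨hb, hq, hdb⟩)
        rw [← hG.2]
        exact F.dd_congr (fun _ _ => rfl) fun x hx => (hG' _ (cstep_mem hdb hx)).symm)
  rw [hψ' a ha] at hγ
  exact (smul_eq_zero_iff_eq γ).1 hγ

/-- `exists_fc`, `FC.step_mod`, `St.next` (from `St.mono`), `FC.ext_of_oo`, `Chart.fill`,
`step_glue` with trivial `Good`, `St.next`. -/
theorem step_big (z0 : Z) (hj : 1 ≤ j) (hp : Pair η Q P) (h3 : H3 η Q P)
    (hs : St h η Q P (j + 2) f c) :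
    ∃ f' c', St h η Q P (j + 3) f' c' ∧ ∀ x ∈ vox Q, f' x = f x := by
  obtain ⟨A, _, _, ⟨F⟩⟩ := exists_fc h z0 hj
  obtain ⟨f1, hc1, hi1, he1, ho⟩ := F.step_mod hj hp h3 hs
  obtain ⟨c1, hs1⟩ := St.next hp hs.mono (by omega) hc1 hi1 he1
  obtain ⟨f2, hc2, hi2, he2, -⟩ := step_glue (m := j + 2) hp hc1 hi1 (fun _ _ => True)
    (fun _ _ _ _ => trivial) (by
      intro a ha
      obtain ⟨h1, -, h2⟩ := mem_nw.1 ha
      obtain ⟨ι, hι⟩ := exists_chart h2
      have h0 := ho a ha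
      rw [hι.ch_eq] at h0
      have hg : ContinuousOn (f1 ∘ chi a ι) (Metric.sphere 0 1) :=
        hc1.comp hι.continuous_chi.continuousOn fun y hy => by
          have hy' : ‖y‖ = 1 := mem_sphere_zero_iff_norm.1 hy
          exact (mem_vox (hp.upc_dom _)).2 (hp.face_dom h1
            (mem_cube_iff.1 (hι.chi_mem hy'.le)) ((hι.car_ne hy'.le).2 hy') h2.le)
      obtain ⟨G, hG, hG'⟩ := F.ext_of_oo hg h0
      have h4 := hι.fill (f := f1) hG hG'
      exact ⟨G ∘ co a ι, h4.1, h4.2, trivial⟩)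
  obtain ⟨c2, hs2⟩ := St.next hp hs1 (by omega) hc2 hi2 he2
  exact ⟨f2, c2, hs2, fun x hx => (he2 x (vox_mono (hp.sub_dom _) hx)).trans
    (he1 x (vox_mono (hp.sub_dom _) hx))⟩

end Pool.Agent.Lib.MP_5ceaf9_gt.OC
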