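import Pool.Agent.Lib.MP_5ceaf9_gt.Fld

/-! Complexes of chains of a relation, flat cocycles, twisted coboundary matrices, good
inclusions, cylinders and cell structures. -/

noncomputable section

namespace Pool.Agent.Lib.MP_5ceaf9_gt

open Classical

section defs

variable {α β : Type} [DecidableEq α] [DecidableEq β] (r : α → α → Prop)

/-- `r` is a preorder with antisymmetry on `A`. -/
structure POn (A : Finset α) : Prop where
  refl : ∀ a ∈ A, r a a
  anti : ∀ a ∈ A, ∀ b ∈ A, r a b → r b a → a = b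
  trans : ∀ a ∈ A, ∀ b ∈ A, ∀ d ∈ A, r a b → r b d → r a d

/-- Any two elements are comparable. -/
def Tot (σ : Finset α) : Prop := ∀ a ∈ σ, ∀ b ∈ σ, r a b ∨ r b a

/-- A finite simplicial complex whose simplices are linearly ordered by `r`. -/
structure Cx (K : Finset (Finset α)) : Prop where
  ne : ∀ σ ∈ K, σ.Nonempty
  down : ∀ σ ∈ K, ∀ ρ ⊆ σ, ρ.Nonempty → ρ ∈ K
  po : ∀ σ ∈ K, POn r σ
  tot : ∀ σ ∈ K, Tot r σ

/-- The order complex. -/
def OC (A : Finset α) : Finset (Finset α) :=
  A.powerset.filter (fun σ => σ.Nonempty ∧ Tot r σ)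

/-- The sign of a vertex in a simplex. -/
def sg (σ : Finset α) (v : α) : ℤ := (-1) ^ (σ.filter (fun u => r u v ∧ u ≠ v)).card

/-- The integral coboundary matrix, the empty simplex included. -/
def Dz (σ ρ : Finset α) : ℤ := ∑ v ∈ σ, if ρ = σ.erase v then sg r σ v else 0

/-- The parity of a simplex: true in odd dimension. -/
def ps (σ : Finset α) : Bool := decide (σ.card % 2 = 0)

/-- The least vertex. -/
def bt [Nonempty α] (σ : Finset α) : α := Classical.epsilon (fun m => m ∈ σ ∧ ∀ u ∈ σ, r m u)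

/-- A flat cocycle on a complex. -/
def Flat {Γ : Type} [Group Γ] (K : Finset (Finset α)) (c : α → α → Γ) : Prop :=
  ∀ a b d, ({a, b, d} : Finset α) ∈ K → r a b → r b d → c a b * c b d = c a d

/-- Agreement on the edges and vertices of a complex. -/
def Agree {Γ : Type} (K : Finset (Finset α)) (c c' : α → α → Γ) : Prop :=
  ∀ a b, ({a, b} : Finset α) ∈ K → r a b → c a b = c' a b

/-- Gauge transformation. -/
def gau {Γ : Type} [Group Γ] (g : α → Γ) (c : α → α → Γ) : α → α → Γ :=
  fun a b => g a * c a b * (g b)⁻¹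

/-- The twisted coboundary matrix over the group ring. -/
def DG [Nonempty α] {Γ : Type} (c : α → α → Γ) (σ ρ : Finset α) : ZG Γ :=
  MonoidAlgebra.single (c (bt r σ) (bt r ρ)) (Dz r σ ρ)

/-- Restriction of flat cocycles from `L` to `K` is an equivalence of groupoids. -/
structure Eq1 (K L : Finset (Finset α)) : Prop where
  ext : ∀ (Γ : Type) [Group Γ] (c : α → α → Γ), Flat r K c →
    ∃ c' : α → α → Γ, Flat r L c' ∧ Agree r K c c'
  uniq : ∀ (Γ : Type) [Group Γ] (c c' : α → α → Γ), Flat r L c → Flat r L c' → Agree r K c c' →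
    ∃ g : α → Γ, (∀ a, ({a} : Finset α) ∈ K → g a = 1) ∧ Agree r L (gau g c) c'
  conn : ∀ T : Set α, (∀ a, ({a} : Finset α) ∈ K → a ∈ T) →
    (∀ a b, ({a, b} : Finset α) ∈ L → r a b → (a ∈ T ↔ b ∈ T)) →
    ∀ a, ({a} : Finset α) ∈ L → a ∈ T

/-- A connected complex. -/
def Conn (K : Finset (Finset α)) : Prop :=
  (∃ a, ({a} : Finset α) ∈ K) ∧ ∀ T : Set α,
    (∀ a b, ({a, b} : Finset α) ∈ K → r a b → (a ∈ T ↔ b ∈ T)) →
    (∃ a, ({a} : Finset α) ∈ K ∧ a ∈ T) → ∀ a, ({a} : Finset α) ∈ K → a ∈ T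

/-- A good inclusion of complexes of level `l`. -/
structure GE [Nonempty α] (l : ℕ) (K L : Finset (Finset α)) : Prop where
  cK : Cx r K
  cL : Cx r L
  sub : K ⊆ L
  eq1 : Eq1 r K L
  gd : ∀ (Γ : Type) [Group Γ] (c : α → α → Γ), Flat r L c →
    Gd l (PhiG Γ F25) (fun x : ↥(L \ K) => ps x.1) (rs (L \ K) (L \ K) (DG r c))

/-- A good inclusion of posets. -/
def GP [Nonempty α] (l : ℕ) (A B : Finset α) : Prop :=
  POn r B ∧ A ⊆ B ∧ GE r l (OC r A) (OC r B)

/-- A poset that is contractible at level `l`. -/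
def CT [Nonempty α] (l : ℕ) (A : Finset α) : Prop := ∃ a ∈ A, GP r l {a} A

/-- `f` is monotone from `A` to `B`. -/
structure Mo (r' : β → β → Prop) (A : Finset α) (B : Finset β) (f : α → β) : Prop where
  pA : POn r A
  pB : POn r' B
  maps : ∀ a ∈ A, f a ∈ B
  mono : ∀ a ∈ A, ∀ b ∈ A, r a b → r' (f a) (f b)

/-- The order of the mapping cylinder. -/
def cy (r' : β → β → Prop) (f : α → β) : α ⊕ β → α ⊕ β → Prop
  | .inl a, .inl b => r a b
  | .inl a, .inr b => r' (f a) b
  | .inr _, .inl _ => False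
  | .inr a, .inr b => r' a b

/-- The map `f` is an equivalence of level `l`. -/
def ME [Nonempty α] (r' : β → β → Prop) (l : ℕ) (A : Finset α) (B : Finset β) (f : α → β) :
    Prop :=
  Mo r r' A B f ∧ GP (cy r r' f) l (A.image Sum.inl) (A.disjSum B)

/-- The pullback matrix of a monotone map: nondegenerate images only. -/
def PB (Λ : Type) [Ring Λ] (f : α → β) (ρ : Finset α) (σ : Finset β) : Λ :=
  if ρ.image f = σ ∧ ρ.card = σ.card then 1 else 0

/-- The augmented integral cell matrix. -/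
def aug (dm : α → ℕ) (inc : α → α → ℤ) : Option α → Option α → ℤ
  | some a, some b => inc a b
  | some a, none => if dm a = 0 then 1 else 0
  | none, _ => 0

/-- Parity on the augmented cell complex. -/
def paug (dm : α → ℕ) : Option α → Bool
  | some a => decide (dm a % 2 = 1)
  | none => true

/-- A cell structure on `A` in which the faces of a cell are the elements above it. -/
structure CoCell (A : Finset α) (dm : α → ℕ) (inc : α → α → ℤ) : Prop where
  po : POn r A
  face : ∀ e ∈ A, ∀ f ∈ A, inc e f ≠ 0 → r e f ∧ dm e = dm f + 1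
  lt : ∀ e ∈ A, ∀ f ∈ A, r e f → e ≠ f → dm f < dm e
  sq : ∀ e ∈ A, ∀ g ∈ A, ∑ f ∈ A, inc e f * inc f g = 0
  au : ∀ e ∈ A, dm e = 1 → ∑ f ∈ A, inc e f = 0
  ctr : ∀ e ∈ A, Ctr (rs (Finset.insertNone (A.filter (r e))) (Finset.insertNone (A.filter (r e)))
    (aug dm inc))

/-- Coefficient of a flag in the subdivision of a cell of dimension `n`. -/
def sdN (inc : α → α → ℤ) : ℕ → α → Finset α → ℤ
  | 0, e, σ => if σ = {e} then 1 else 0
  | n + 1, e, σ => if e ∈ σ then ∑ f ∈ σ.erase e, inc e f * sdN inc n f (σ.erase e) else 0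

/-- Coefficient of a flag in the subdivision of a cell. -/
def sd (dm : α → ℕ) (inc : α → α → ℤ) (e : α) (σ : Finset α) : ℤ := sdN inc (dm e) e σ

/-- The twisted cell matrix. -/
def Dc {Γ : Type} (inc : α → α → ℤ) (c : α → α → Γ) (e f : α) : ZG Γ :=
  MonoidAlgebra.single (c e f) (inc e f)

/-- The subdivision matrix. -/
def SD (Γ : Type) [One Γ] (dm : α → ℕ) (inc : α → α → ℤ) (e : α) (σ : Finset α) : ZG Γ :=
  MonoidAlgebra.single 1 (sd dm inc e σ)

/-- The cocycle of the opposite order. -/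
def cop {Γ : Type} [Inv Γ] (c : α → α → Γ) : α → α → Γ := fun a b => (c b a)⁻¹

/-- The sign that reverses the order of the vertices. -/
def eps (σ : Finset α) : ℤ := (-1) ^ (σ.card.choose 2)

/-- Evaluation of a cochain on the subdivision of a cell whose faces are the elements below it. -/
def EV [Nonempty α] {Γ : Type} [Inv Γ] (dm : α → ℕ) (inc : α → α → ℤ) (c : α → α → Γ) (t : α)
    (σ : Finset α) : ZG Γ :=
  MonoidAlgebra.single (c (bt r σ) t)⁻¹ (eps σ * sd dm inc t σ)

/-- Parity of a cell. -/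
def pc (dm : α → ℕ) (a : α) : Bool := decide (dm a % 2 = 1)

end defs

end Pool.Agent.Lib.MP_5ceaf9_gt
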