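import Pool.Agent.Lib.MP_5ceaf9_gt.Defs0

/-! Formal deformations of finite simplicial complexes. -/

open scoped Manifold ContDiff

noncomputable section

namespace Pool.Agent.Lib.MP_5ceaf9_gt

/-- `L` is an elementary expansion of `K`: a new simplex and a new face of codimension one of it
are added. -/
def Expands (K L : SC) : Prop :=
  ∃ (σ : Finset ℕ) (v : ℕ), v ∈ σ ∧ σ ∉ K.faces ∧ σ.erase v ∉ K.faces ∧ (σ.erase v).Nonempty ∧
    L.faces = insert σ (insert (σ.erase v) K.faces)

/-- `L` is obtained from `K` by renaming the vertices with `e`. -/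
def Renames (e : ℕ ≃ ℕ) (K L : SC) : Prop :=
  L.faces = K.faces.image (fun σ => σ.image e)

/-- `K` and `L` are joined by elementary expansions, elementary collapses and renamings. -/
def SimpleEquiv : SC → SC → Prop :=
  Relation.EqvGen (fun K L => Expands K L ∨ ∃ e, Renames e K L)

/-- Simple homotopy equivalences: maps homotopic to a composite of inclusions of elementary
expansions, homotopy inverses of such inclusions, and renamings. -/
inductive IsSimple : (K L : SC) → C(K.space, L.space) → Prop
  | expand {K L : SC} (h : Expands K L) (f : C(K.space, L.space))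
      (hf : ∀ x, (f x : ℕ → ℝ) = x) : IsSimple K L f
  | collapse {K L : SC} (h : Expands L K) (f : C(K.space, L.space)) (g : C(L.space, K.space))
      (hg : ∀ x, (g x : ℕ → ℝ) = x) (hfg : (f.comp g).Homotopic (ContinuousMap.id _)) :
      IsSimple K L f
  | rename {K L : SC} (e : ℕ ≃ ℕ) (h : Renames e K L) (f : C(K.space, L.space))
      (hf : ∀ x v, (f x : ℕ → ℝ) (e v) = (x : ℕ → ℝ) v) : IsSimple K L f
  | comp {K L M : SC} {f : C(K.space, L.space)} {g : C(L.space, M.space)}
      (hf : IsSimple K L f) (hg : IsSimple L M g) : IsSimple K M (g.comp f)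
  | homotopic {K L : SC} {f g : C(K.space, L.space)} (hf : IsSimple K L f)
      (h : f.Homotopic g) : IsSimple K L g

/-- The map `f` read in the triangulations `s` and `t`. -/
def readIn {X Y : Type} [TopologicalSpace X] [TopologicalSpace Y] {K L : SC}
    (s : K.space ≃ₜ X) (t : L.space ≃ₜ Y) (f : C(X, Y)) : C(K.space, L.space) :=
  (⟨t.symm, t.symm.continuous⟩ : C(Y, L.space)).comp (f.comp ⟨s, s.continuous⟩)

/-- An s-cobordism: for some triangulation of the h-cobordism, both ends, read in any
triangulations, are simple homotopy equivalences. -/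
def HCob.IsS {A B : Closed4} (h : HCob A B) : Prop :=
  ∃ (L : SC) (t : L.space ≃ₜ h.W),
    (∀ (K : SC) (s : K.space ≃ₜ A.M), IsSimple K L (readIn s t h.i)) ∧
    (∀ (K : SC) (s : K.space ≃ₜ B.M), IsSimple K L (readIn s t h.j))

end Pool.Agent.Lib.MP_5ceaf9_gt
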