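import Mathlib

/-! Closed smooth four-manifolds, smooth h-cobordisms and finite simplicial complexes. -/

open scoped Manifold ContDiff

noncomputable section

namespace Pool.Agent.Lib.MP_5ceaf9_gt

/-- A finite abstract simplicial complex with vertices in the natural numbers. -/
structure SC where
  /-- The simplices. -/
  faces : Finset (Finset ℕ)
  nonempty : ∀ σ ∈ faces, σ.Nonempty
  down : ∀ σ ∈ faces, ∀ ρ ⊆ σ, ρ.Nonempty → ρ ∈ faces

/-- The geometric realisation, in barycentric coordinates. -/
def SC.space (K : SC) : Set (ℕ → ℝ) :=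
  {w | (∀ v, 0 ≤ w v) ∧ ∃ σ ∈ K.faces, (∀ v, v ∉ σ → w v = 0) ∧ ∑ v ∈ σ, w v = 1}

/-- A closed smooth four-manifold. -/
structure Closed4 where
  /-- The underlying type. -/
  M : Type
  [top : TopologicalSpace M]
  [t2 : T2Space M]
  [cpt : CompactSpace M]
  [chart : ChartedSpace (EuclideanSpace ℝ (Fin 4)) M]
  [smooth : IsManifold (𝓡 4) ∞ M]

attribute [instance] Closed4.top Closed4.t2 Closed4.cpt Closed4.chart Closed4.smooth

/-- A continuous map is a homotopy equivalence. -/
def IsHE {X Y : Type} [TopologicalSpace X] [TopologicalSpace Y] (f : C(X, Y)) : Prop :=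
  ∃ g : C(Y, X), (g.comp f).Homotopic (ContinuousMap.id X) ∧
    (f.comp g).Homotopic (ContinuousMap.id Y)

/-- A smooth h-cobordism: a compact smooth five-manifold with boundary, whose boundary is the
disjoint union of the images of two smooth embeddings, both homotopy equivalences. -/
structure HCob (A B : Closed4) where
  /-- The underlying type. -/
  W : Type
  [top : TopologicalSpace W]
  [t2 : T2Space W]
  [cpt : CompactSpace W]
  [chart : ChartedSpace (EuclideanHalfSpace 5) W]
  [smooth : IsManifold (𝓡∂ 5) ∞ W]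
  /-- The first end. -/
  i : C(A.M, W)
  /-- The second end. -/
  j : C(B.M, W)
  hi : Manifold.IsSmoothEmbedding (𝓡 4) (𝓡∂ 5) ∞ i
  hj : Manifold.IsSmoothEmbedding (𝓡 4) (𝓡∂ 5) ∞ j
  disj : Disjoint (Set.range i) (Set.range j)
  bdry : Set.range i ∪ Set.range j = (𝓡∂ 5).boundary W
  hei : IsHE i
  hej : IsHE j

attribute [instance] HCob.top HCob.t2 HCob.cpt HCob.chart HCob.smooth

end Pool.Agent.Lib.MP_5ceaf9_gt
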