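import Pool.Agent.Lib.MP_5ceaf9_gt.Defs0

/-! Whitehead torsion of a pair of finite simplicial complexes, and s-cobordisms. -/

noncomputable section

namespace Pool.Agent.Lib.MP_5ceaf9_gt

/-- For some choice of paths `γ v` from the base point to the vertices `p v`, the element `c a b`
is the class of the loop that runs along `γ b`, then inside the edge from `b` to `a`, then back
along `γ a`. -/
def EdgeLoops (L : SC) (x0 : L.space) (c : ℕ → ℕ → FundamentalGroup L.space x0) : Prop :=
  ∃ (p : ℕ → L.space) (γ : ∀ v, Path x0 (p v)),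
    (∀ v, {v} ∈ L.faces → (p v : ℕ → ℝ) v = 1) ∧
    ∀ a b, {a, b} ∈ L.faces → ∃ e : Path (p b) (p a),
      (∀ t u, u ≠ a → u ≠ b → (e t : ℕ → ℝ) u = 0) ∧
      c a b = FundamentalGroup.fromPath
        (Path.Homotopic.Quotient.mk (((γ b).trans e).trans (γ a).symm))

/-- The boundary matrix of the simplicial chain complex of the universal cover, in the basis of
the lifts fixed by the least vertices; it acts on row vectors. -/
def bdM {Γ : Type} (c : ℕ → ℕ → Γ) (σ ρ : Finset ℕ) : MonoidAlgebra ℤ Γ :=
  ∑ v ∈ σ, if ρ = σ.erase v then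
    MonoidAlgebra.single (c (sInf (σ : Set ℕ)) (sInf (ρ : Set ℕ)))
      ((-1) ^ (σ.filter (fun u => u < v)).card) else 0

/-- The class of `M` in the Whitehead group vanishes: after adding an identity block, `M` is a
product of elementary matrices and of diagonal matrices whose entries are signed group elements. -/
def WhTriv {Γ ι : Type} [Group Γ] [Fintype ι] [DecidableEq ι]
    (M : Matrix ι ι (MonoidAlgebra ℤ Γ)) : Prop :=
  ∃ n : ℕ, Matrix.fromBlocks M 0 0 (1 : Matrix (Fin n) (Fin n) (MonoidAlgebra ℤ Γ)) ∈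
    Submonoid.closure
      ({A | ∃ i j r, i ≠ j ∧ A = 1 + Matrix.single i j r} ∪
        {A | ∃ (g : ι ⊕ Fin n → Γ) (ε : ι ⊕ Fin n → ℤˣ),
          A = Matrix.diagonal fun i => MonoidAlgebra.single (g i) (ε i : ℤ)})

/-- The matrix `s` has degree one for the grading `n` and is a contraction for the boundary
matrix `D`. -/
def IsContr {R ι : Type} [Ring R] [Fintype ι] [DecidableEq ι] (n : ι → ℕ) (D s : Matrix ι ι R) :
    Prop :=
  (∀ σ ρ, s σ ρ ≠ 0 → n ρ = n σ + 1) ∧ D * s + s * D = 1

/-- The chain complex with basis `ι` and boundary matrix `D`, where `n σ` is the dimension of `σ`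
plus one, has a contraction `s` such that `D + s`, from odd to even dimensions, is trivial in the
Whitehead group. -/
def TorTriv {Γ ι : Type} [Group Γ] [Fintype ι] [DecidableEq ι] (n : ι → ℕ)
    (D : Matrix ι ι (MonoidAlgebra ℤ Γ)) : Prop :=
  ∃ s, IsContr n D s ∧ ∃ e : {σ // n σ % 2 = 0} ≃ {σ // n σ % 2 = 1},
    WhTriv ((D + s).submatrix (fun x : {σ // n σ % 2 = 0} => x.1) fun y => (e y).1)

/-- The simplicial chain complex spanned by the simplices in `S`, twisted by `c`, is contractible
with trivial torsion. -/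
def RelTriv {Γ : Type} [Group Γ] (S : Finset (Finset ℕ)) (c : ℕ → ℕ → Γ) : Prop :=
  TorTriv (fun σ : S => σ.1.card) (Matrix.of fun σ ρ => bdM c σ.1 ρ.1)

/-- The Whitehead torsion of the pair `(L, K)` vanishes: the relative simplicial chain complex of
the universal cover is contractible, with trivial torsion in the Whitehead group of the
fundamental group. -/
def Tau0 (K L : SC) : Prop :=
  ∃ (x0 : L.space) (c : ℕ → ℕ → FundamentalGroup L.space x0),
    EdgeLoops L x0 c ∧ RelTriv (L.faces \ K.faces) c

/-- An s-cobordism: some triangulation of the pair formed by the cobordism and its first end has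
vanishing Whitehead torsion. -/
def HCob.IsSCob {A B : Closed4} (h : HCob A B) : Prop :=
  ∃ (K L : SC) (t : L.space ≃ₜ h.W), K.faces ⊆ L.faces ∧
    (∀ x, t x ∈ Set.range h.i ↔ (x : ℕ → ℝ) ∈ K.space) ∧ Tau0 K L

end Pool.Agent.Lib.MP_5ceaf9_gt
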