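import Pool.Agent.Lib.MP_5ceaf9_gt.FaH

/-! The fundamental relative cycle and its boundary. -/

noncomputable section

namespace Pool.Agent.Lib.MP_5ceaf9_gt

open Classical Function

variable {α : Type} [DecidableEq α] [Nonempty α] {r : α → α → Prop} {N U : Finset α}
  {dm : α → ℕ} {inc : α → α → ℤ} {δ : α → α → ZMod 2} {C : α → α → Aff} {g : α → ZMod 2}
  {σ ρ : Finset α} {e f : α}

/-- The dimension of a cell of the five-dimensional complex. -/
def dmN (dm : α → ℕ) (a : α) : ℕ := 5 - dm a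

/-- The incidence numbers of the five-dimensional complex. -/
def incN (δ : α → α → ZMod 2) (inc : α → α → ℤ) (e f : α) : ℤ := sg2 (δ e f) * inc f e

/-- The simplices that are not in the boundary. -/
abbrev Rl (r : α → α → Prop) (N U : Finset α) : Finset (Finset α) := OC r N \ OC r (N \ U)

/-- The gauge `g` compares the class modulo two with the orientation character. -/
def GG (r : α → α → Prop) (N : Finset α) (C : α → α → Aff) (δ : α → α → ZMod 2)
    (g : α → ZMod 2) : Prop :=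
  Agree r (OC r N) (fun a b => par2 (C a b).k) (fun a b => g a + δ a b + g b)

/-- The fundamental relative cycle. -/
def nu (r : α → α → Prop) (U : Finset α) (dm : α → ℕ) (inc : α → α → ℤ) (δ : α → α → ZMod 2)
    (g : α → ZMod 2) (σ : Finset α) : F25 :=
  if bt r σ ∈ U ∧ dm (bt r σ) = 0 then
    ((sg2 (g (bt r σ)) * sd (dmN dm) (incN δ inc) (bt r σ) σ : ℤ) : F25) else 0

/-- Its boundary. -/
def mu0 (r : α → α → Prop) (N U : Finset α) (dm : α → ℕ) (inc : α → α → ℤ)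
    (δ : α → α → ZMod 2) (g : α → ZMod 2) (C : α → α → Aff) (ρ : Finset α) : F25 :=
  if ρ ∈ OC r (N \ U) then ∑ σ ∈ OC r N, nu r U dm inc δ g σ * DF r 4 C σ ρ else 0

theorem sg2_add (x y : ZMod 2) : sg2 (x + y) = sg2 x * sg2 y := by
  revert x y
  decide

theorem sg2_mul_self (x : ZMod 2) : sg2 x * sg2 x = 1 := by
  revert x
  decide

theorem pw_four (k : ZMod 8) : pw zF (4 * k) = (sg2 (par2 k) : F25) := by
  revert k
  decide

theorem DD.po (h : DD r N U dm inc δ) : POn r N := by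
  exact h.cN.po

theorem DD.cN' (h : DD r N U dm inc δ) : CoCell r N (dmN dm) (incN δ inc) := by
  exact h.cN

theorem DD.up (h : DD r N U dm inc δ) : ∀ a ∈ N \ U, ∀ b ∈ N, r a b → b ∈ N \ U := by
  intro a ha b hb hab
  obtain ⟨h1, h2⟩ := Finset.mem_sdiff.1 ha
  exact Finset.mem_sdiff.2 ⟨hb, fun h3 => h2 (h.down b h3 a h1 hab)⟩

/-- A chain with a strictly monotone function bounded by `n` has at most `n + 1` elements. -/
theorem card_le_of_rank (ht : Tot r σ) {k : α → ℕ} {n : ℕ} (hn : ∀ a ∈ σ, k a ≤ n)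
    (hk : ∀ a ∈ σ, ∀ b ∈ σ, r a b → a ≠ b → k b < k a) : σ.card ≤ n + 1 := by
  rw [← Finset.card_range (n + 1)]
  refine Finset.card_le_card_of_injOn k (fun a ha => by simpa [Nat.lt_succ_iff] using hn a ha)
    fun a ha b hb hab => by_contra fun h1 => ?_
  rcases ht a ha b hb with h2 | h2
  · exact (hk a ha b hb h2 h1).ne' hab
  · exact (hk b hb a ha h2 (Ne.symm h1)).ne hab

theorem DD.card_N (h : DD r N U dm inc δ) (hσ : σ ∈ OC r N) : σ.card ≤ 6 := by
  obtain ⟨h1, -, h2⟩ := mem_OC.1 hσ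
  exact card_le_of_rank h2 (k := dmN dm) (fun a _ => Nat.sub_le _ _)
    fun a ha b hb => h.cN'.lt a (h1 ha) b (h1 hb)

theorem DD.card_B (h : DD r N U dm inc δ) (hσ : σ ∈ OC r (N \ U)) : σ.card ≤ 5 := by
  obtain ⟨h1, -, h2⟩ := mem_OC.1 hσ
  refine card_le_of_rank h2 (k := dmN dm) (fun a ha => ?_) fun a ha b hb =>
    h.cN'.lt a (Finset.sdiff_subset (h1 ha)) b (Finset.sdiff_subset (h1 hb))
  obtain ⟨h3, h4⟩ := Finset.mem_sdiff.1 (h1 ha)
  have h5 : dm a ≠ 0 := fun h5 => h4 (h.zero a h3 h5)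
  rw [dmN]
  omega

theorem DD.card_U (h : DD r N U dm inc δ) (hσ : σ ∈ OC r U) : σ.card ≤ 3 := by
  obtain ⟨h1, -, h2⟩ := mem_OC.1 hσ
  exact card_le_of_rank (r := swap r) (fun a ha b hb => (h2 a ha b hb).symm) (k := dm)
    (fun a ha => h.dimU a (h1 ha)) fun a ha b hb => h.cU.lt a (h1 ha) b (h1 hb)

theorem DD.mem_Rl (h : DD r N U dm inc δ) (hσ : σ ∈ OC r N) : σ ∈ Rl r N U ↔ bt r σ ∈ U := by
  obtain ⟨h1, h2, h3⟩ := mem_OC.1 hσ
  obtain ⟨h4, h5⟩ := bt_spec (h.po.mono h1) h3 h2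
  rw [Finset.mem_sdiff, and_iff_right hσ, not_iff_comm]
  exact ⟨fun h6 => mem_OC.2 ⟨fun u hu => h.up _ (Finset.mem_sdiff.2 ⟨h1 h4, h6⟩) u (h1 hu) (h5 u hu),
    h2, h3⟩, fun h6 => (Finset.mem_sdiff.1 ((mem_OC.1 h6).1 h4)).2⟩

/-- `cm_SD`, with `N \ (N \ U) = U`. -/
theorem DD.cmSD (h : DD r N U dm inc δ) (hC : Flat r (OC r N) C) :
    CM (fun x : ↥U => pc (dmN dm) x.1) (fun x : ↥(Rl r N U) => ps x.1)
      (rs U U (Dc (incN δ inc) C)) (rs (Rl r N U) (Rl r N U) (DG r C))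
      (rs U (Rl r N U) (SD Aff (dmN dm) (incN δ inc))) := by
  have h1 := cm_SD h.cN' Finset.sdiff_subset h.up hC
  rwa [Finset.sdiff_sdiff_eq_self h.sub] at h1

theorem DD.gdSD (h : DD r N U dm inc δ) (hC : Flat r (OC r N) C) :
    Gd 2 (PhiG Aff F25)
      (cpar (fun x : ↥U => pc (dmN dm) x.1) (fun x : ↥(Rl r N U) => ps x.1))
      (cone (rs U U (Dc (incN δ inc) C)) (rs (Rl r N U) (Rl r N U) (DG r C))
        (rs U (Rl r N U) (SD Aff (dmN dm) (incN δ inc)))) := by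
  have h1 := gd_SD (l := 2) h.cN' Finset.sdiff_subset h.up hC
  rwa [Finset.sdiff_sdiff_eq_self h.sub] at h1

theorem dua_par (h : DD r N U dm inc δ) (hg : GG r N C δ g) (he : e ∈ U) (hf : f ∈ U)
    (h0 : inc f e ≠ 0) :
    (sg2 (δ e f) : F25) * pw zF (4 * (C e f).k) = (sg2 (g e) : F25) * (sg2 (g f) : F25) := by
  have h1 : r e f := (h.cU.face f hf e he h0).1
  have h2 : par2 (C e f).k = g e + δ e f + g f :=
    hg e f ((pair_mem_OC h.po h1).2 ⟨h.sub he, h.sub hf⟩) h1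
  rw [pw_four, h2, sg2_add, sg2_add, ← Int.cast_mul, ← Int.cast_mul]
  congr 1
  linear_combination sg2 (g e) * sg2 (g f) * sg2_mul_self (δ e f)

theorem DD.D4_eq (h : DD r N U dm inc δ) (hg : GG r N C δ g) (he : e ∈ U) (hf : f ∈ U) :
    ph 4 (Dc (incN δ inc) C e f) = (sg2 (g e) : F25) * (inc f e : F25) * (sg2 (g f) : F25) := by
  rw [Dc, ph_single, incN, Int.cast_mul]
  by_cases h0 : inc f e = 0
  · simp only [h0, Int.cast_zero, mul_zero, zero_mul]
  linear_combination (inc f e : F25) * dua_par h hg he hf h0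

theorem DD.D1_eq (h : DD r N U dm inc δ) (hg : GG r N C δ g) (he : e ∈ U) (hf : f ∈ U) :
    ph 1 (Dc (incN δ inc) C e f) =
      (sg2 (g e) : F25) * ph 3 (Dc inc (cop C) f e) * (sg2 (g f) : F25) := by
  rw [Dc, Dc, ph_single, ph_single, incN, Int.cast_mul, cop, Aff.inv_k,
    show 1 * (C e f).k = 4 * (C e f).k + 3 * -(C e f).k by ring, pw_add zF8]
  by_cases h0 : inc f e = 0
  · simp only [h0, Int.cast_zero, mul_zero, zero_mul]
  linear_combination (inc f e : F25) * pw zF (3 * -(C e f).k) * dua_par h hg he hf h0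

theorem DD.nu_eq (h : DD r N U dm inc δ) (hσ : σ ∈ OC r N) : nu r U dm inc δ g σ =
    ∑ e ∈ U, (if dm e = 0 then (sg2 (g e) : F25) else 0) *
      (sd (dmN dm) (incN δ inc) e σ : F25) := by
  have h1 := (mem_OC.1 hσ).1
  have h2 : ∀ e ∈ U, e ≠ bt r σ → (if dm e = 0 then (sg2 (g e) : F25) else 0) *
      (sd (dmN dm) (incN δ inc) e σ : F25) = 0 := fun e he h2 => by
    rw [by_contra fun h3 : sd (dmN dm) (incN δ inc) e σ ≠ 0 => h2 (bt_eq (h.po.mono h1)
      (sd_ne h.cN' (h.sub he) h1 h3).1 (sd_ne h.cN' (h.sub he) h1 h3).2.1).symm, Int.cast_zero,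
      mul_zero]
  rw [nu]
  by_cases h3 : bt r σ ∈ U
  · rw [Finset.sum_eq_single_of_mem _ h3 h2]
    simp only [h3, true_and, Int.cast_mul, ite_mul, zero_mul]
  · rw [if_neg fun h4 => h3 h4.1]
    exact (Finset.sum_eq_zero fun e he => h2 e he fun h4 => h3 (h4 ▸ he)).symm

theorem DD.nu_ne (h : DD r N U dm inc δ) (hσ : σ ∈ OC r N) (h0 : nu r U dm inc δ g σ ≠ 0) :
    σ ∈ Rl r N U ∧ σ.card = 6 := by
  rw [nu] at h0
  split_ifs at h0 with h1
  · have h2 : sd (dmN dm) (incN δ inc) (bt r σ) σ ≠ 0 := fun h2 => h0 (by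
      rw [h2, mul_zero, Int.cast_zero])
    have h3 := (sd_ne h.cN' (h.sub h1.1) (mem_OC.1 hσ).1 h2).2.2.2
    rw [dmN, h1.2] at h3
    exact ⟨(h.mem_Rl hσ).2 h1.1, h3⟩
  · exact absurd rfl h0

theorem dua_row (h : DD r N U dm inc δ) (hg : GG r N C δ g) (hf : f ∈ U) :
    ∑ e ∈ U, (if dm e = 0 then (sg2 (g e) : F25) else 0) * ph 4 (Dc (incN δ inc) C e f) = 0 := by
  have h1 : ∀ e ∈ U, (if dm e = 0 then (sg2 (g e) : F25) else 0) * ph 4 (Dc (incN δ inc) C e f) =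
      (if dm f = 1 then (sg2 (g f) : F25) else 0) * (inc f e : F25) := fun e he => by
    rw [h.D4_eq hg he hf]
    by_cases h0 : inc f e = 0
    · simp only [h0, Int.cast_zero, mul_zero, zero_mul]
    have h2 := (h.cU.face f hf e he h0).2
    by_cases h3 : dm e = 0
    · have h4 := congrArg (Int.cast : ℤ → F25) (sg2_mul_self (g e))
      rw [Int.cast_mul, Int.cast_one] at h4
      rw [if_pos h3, if_pos (by omega)]
      linear_combination (inc f e : F25) * (sg2 (g f) : F25) * h4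
    · rw [if_neg h3, if_neg (by omega), zero_mul, zero_mul]
  rw [Finset.sum_congr rfl h1, ← Finset.mul_sum, ← Int.cast_sum]
  split_ifs with h2
  · rw [h.cU.au f hf h2, Int.cast_zero, mul_zero]
  · rw [zero_mul]

theorem dua_SD (j : ZMod 8) {dm : α → ℕ} {inc : α → α → ℤ} :
    ph j (SD Aff dm inc e σ) = (sd dm inc e σ : F25) := by
  rw [SD, ph_single, Aff.one_k, mul_zero, pw_zero, mul_one]

/-- The row vector `if dm e = 0 then sg2 (g e) else 0` is killed by the cell matrix (`D4_eq`,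
`h.cU.au`); use `cmSD` mapped by `ph 4`. -/
theorem DD.nu_rel (h : DD r N U dm inc δ) (hC : Flat r (OC r N) C) (hg : GG r N C δ g)
    (hρ : ρ ∈ Rl r N U) : ∑ σ ∈ OC r N, nu r U dm inc δ g σ * DF r 4 C σ ρ = 0 := by
  have h1 : ∀ e ∈ U, ∑ σ ∈ Rl r N U, (sd (dmN dm) (incN δ inc) e σ : F25) * DF r 4 C σ ρ =
      ∑ f ∈ U, ph 4 (Dc (incN δ inc) C e f) * (sd (dmN dm) (incN δ inc) f ρ : F25) := fun e he => by
    have h2 := congrArg (ph 4) (congrFun₂ (h.cmSD hC).comm ⟨e, he⟩ ⟨ρ, hρ⟩)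
    simp only [Matrix.mul_apply, rs, Matrix.of_apply, map_sum, map_mul, dua_SD] at h2
    rw [← Finset.sum_coe_sort, ← Finset.sum_coe_sort U]
    exact h2.symm
  rw [← Finset.sum_subset (Finset.sdiff_subset (t := OC r (N \ U))) fun σ h2 h3 => by
      rw [by_contra fun h4 : nu r U dm inc δ g σ ≠ 0 => h3 (h.nu_ne h2 h4).1, zero_mul],
    Finset.sum_congr rfl fun σ hσ => by rw [h.nu_eq (Finset.sdiff_subset hσ), Finset.sum_mul],
    Finset.sum_comm, Finset.sum_congr rfl fun e he => by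
      simp only [mul_assoc]
      rw [← Finset.mul_sum, h1 e he, Finset.mul_sum],
    Finset.sum_comm]
  refine Finset.sum_eq_zero fun f hf => ?_
  simp only [← mul_assoc]
  rw [← Finset.sum_mul, dua_row h hg hf, zero_mul]

theorem DD.mu0_hom (h : DD r N U dm inc δ) : Hom 4 (mu0 r N U dm inc δ g C) := by
  intro ρ h0
  rw [mu0] at h0
  split_ifs at h0 with h1
  · obtain ⟨σ, h2, h3⟩ := Finset.exists_ne_zero_of_sum_ne_zero h0
    have h4 : Dz r σ ρ ≠ 0 := fun h4 => h3 (by rw [DF_eq, h4, Int.cast_zero, zero_mul, mul_zero])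
    obtain ⟨v, hv, rfl⟩ := Dz_ne h4
    rw [Finset.card_erase_of_mem hv, (h.nu_ne h2 (left_ne_zero_of_mul h3)).2]
  · exact absurd rfl h0

theorem mu0_rat : mu0 r N U dm inc δ g C σ ^ 5 = mu0 r N U dm inc δ g C σ := by
  obtain ⟨a, ha⟩ : mu0 r N U dm inc δ g C σ ∈ (algebraMap (ZMod 5) F25).range := by
    rw [mu0]
    split_ifs
    · refine sum_mem fun τ _ => mul_mem ?_ ?_
      · rw [nu]
        split_ifs
        exacts [intCast_mem _ _, zero_mem _]
      · rw [DF_eq, kj, pw_four]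
        exact mul_mem (intCast_mem _ _) (intCast_mem _ _)
    · exact zero_mem _
  rw [← ha, ← map_pow, ZMod.pow_card]

theorem dua_sum (h : DD r N U dm inc δ) (hC : Flat r (OC r N) C) (hg : GG r N C δ g)
    (φ : Finset α → F25) : ∑ ρ ∈ OC r (N \ U), mu0 r N U dm inc δ g C ρ * φ ρ =
      ∑ σ ∈ OC r N, nu r U dm inc δ g σ * ∑ ρ ∈ OC r N, DF r 4 C σ ρ * φ ρ := by
  simp only [Finset.mul_sum, ← mul_assoc]
  rw [Finset.sum_comm, ← Finset.sum_subset (OC_mono (Finset.sdiff_subset (s := N) (t := U)))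
    fun ρ h1 h2 => by rw [← Finset.sum_mul, h.nu_rel hC hg (Finset.mem_sdiff.2 ⟨h1, h2⟩), zero_mul]]
  exact Finset.sum_congr rfl fun ρ hρ => by rw [mu0, if_pos hρ, Finset.sum_mul]

theorem DD.mu0_cyc (h : DD r N U dm inc δ) (hC : Flat r (OC r N) C) (hg : GG r N C δ g) :
    ∀ ρ ∈ OC r (N \ U), ∑ σ ∈ OC r (N \ U), mu0 r N U dm inc δ g C σ * DF r 4 C σ ρ = 0 := by
  intro ρ hρ
  rw [dua_sum h hC hg]
  refine Finset.sum_eq_zero fun τ hτ => mul_eq_zero_of_right _ ?_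
  have h2 := congrArg (ph 4) (congrFun₂ (dm_DG_abs (cx_OC h.po) hC).1 ⟨τ, hτ⟩
    ⟨ρ, OC_mono Finset.sdiff_subset hρ⟩)
  simp only [Matrix.mul_apply, rs, Matrix.of_apply, map_sum, map_mul, Matrix.zero_apply,
    map_zero] at h2
  rw [← Finset.sum_coe_sort]
  exact h2

theorem DD.stokes (h : DD r N U dm inc δ) (hC : Flat r (OC r N) C) (hg : GG r N C δ g)
    {φ : Finset α → F25} (h0 : φ ∅ = 0) :
    ev (OC r N) (nu r U dm inc δ g) (dl r zF (kj 4 C) φ) =
      ev (OC r (N \ U)) (mu0 r N U dm inc δ g C) φ := by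
  rw [ev, ev, dua_sum h hC hg]
  exact Finset.sum_congr rfl fun σ hσ => by rw [sum_DF (cx_OC h.po) hσ 4 h0]

end Pool.Agent.Lib.MP_5ceaf9_gt
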