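import Pool.Agent.Lib.MP_5ceaf9_gt.DuS

/-! The torsion of the relative complex. -/

noncomputable section

namespace Pool.Agent.Lib.MP_5ceaf9_gt

open Classical Function

variable {α : Type} [DecidableEq α] [Nonempty α] {r : α → α → Prop} {N U : Finset α}
  {dm : α → ℕ} {inc : α → α → ℤ} {δ : α → α → ZMod 2} {C : α → α → Aff} {g : α → ZMod 2}
  {σ ρ : Finset α} {e f : α}

variable {b : Finset α → F25} {θ : Fin 6 → Finset α → F25}

/-- The cell matrix of the two-dimensional complex for the character three. -/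
def mD3 (U : Finset α) (inc : α → α → ℤ) (C : α → α → Aff) : Matrix U U F25 :=
  (rs U U (Dc inc (cop C))).map (ph 3)

/-- The cell matrix of the five-dimensional complex for the character one. -/
def mD1 (U : Finset α) (inc : α → α → ℤ) (δ : α → α → ZMod 2) (C : α → α → Aff) :
    Matrix U U F25 := (rs U U (Dc (incN δ inc) C)).map (ph 1)

/-- The six classes on the cells. -/
def mH (r : α → α → Prop) (U : Finset α) (dm : α → ℕ) (inc : α → α → ℤ) (C : α → α → Aff)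
    (b : Finset α → F25) : Matrix U (Fin 6) F25 :=
  Matrix.of fun e m => evE r U dm inc C (cls r 3 p3 C b m) e

/-- Relative classes on the cells. -/
def mZ (r : α → α → Prop) (N U : Finset α) (dm : α → ℕ) (inc : α → α → ℤ) (δ : α → α → ZMod 2)
    (θ : Fin 6 → Finset α → F25) : Matrix U (Fin 6) F25 :=
  Matrix.of fun e m => evS r N U dm inc δ (θ m) e

theorem dub_mH : mH r U dm inc C b =
    (rs U (OC r U) (EV r dm inc C)).map (ph 3) * cm (OC r U) (cls r 3 p3 C b) := by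
  ext1 e m
  rw [Matrix.mul_apply]
  exact (Finset.sum_coe_sort (OC r U)
    fun σ => ph 3 (EV r dm inc C e σ) * cls r 3 p3 C b m σ).symm

omit [Nonempty α] in
theorem dub_mZ : mZ r N U dm inc δ θ =
    (rs U (Rl r N U) (SD Aff (dmN dm) (incN δ inc))).map (ph 1) * cm (Rl r N U) θ := by
  ext1 e m
  rw [Matrix.mul_apply]
  refine Eq.trans (Finset.sum_congr rfl fun σ _ => ?_) (Finset.sum_coe_sort (Rl r N U)
    fun σ => ph 1 (SD Aff (dmN dm) (incN δ inc) e σ) * θ m σ).symm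
  rw [SD, ph_single, Aff.one_k, mul_zero, pw_zero, mul_one]

theorem dub_cm (h : DD r N U dm inc δ) (hC : Flat r (OC r N) C) (hb : Bock r (OC r N) 3 C b) :
    CM (fun x : ↥(OC r U) => ps x.1) pj ((rs (OC r U) (OC r U) (DG r C)).map (ph 3)) 0
      (cm (OC r U) (cls r 3 p3 C b)) := by
  have g := h.gpU.2.2
  rw [← rs_DF]
  exact (cls_cls g.cK (hC.mono g.sub) (hb.mono g.sub) p3).isCM g.cK (hC.mono g.sub) fun _ => rfl

theorem dub_par (h : DD r N U dm inc δ) :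
    (fun x : ↥U => !pc dm x.1) = fun x : ↥U => pc (dmN dm) x.1 := by
  funext x
  have := h.dimU x x.2
  unfold pc dmN
  generalize dm x = k at this
  interval_cases k <;> rfl

theorem dub_rel (h : DD r N U dm inc δ) (hC : Flat r (OC r N) C)
    (H : Cls r (OC r N) 1 C (fun m => 5 - dg m) θ) (h0 : ∀ m, ∀ σ ∈ OC r (N \ U), θ m σ = 0) :
    CM (fun x : ↥(Rl r N U) => ps x.1) (fun m => !pj m)
      ((rs (Rl r N U) (Rl r N U) (DG r C)).map (ph 1)) 0 (cm (Rl r N U) θ) := by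
  have g := h.gpB.2.2
  rw [← rs_DF]
  exact H.isCM_rel g.cK g.cL g.sub hC h0 (by decide)

/-- `mH` is the product of the matrix `EV` with the matrix of the classes (`cm_EV`, `CM.comp`). -/
theorem DD.cm_mH (h : DD r N U dm inc δ) (hC : Flat r (OC r N) C) (hb : Bock r (OC r N) 3 C b) :
    CM (fun x : ↥U => pc dm x.1) pj (mD3 U inc C) 0 (mH r U dm inc C b) := by
  rw [dub_mH]
  exact ((cm_EV h.cU (hC.mono h.gpU.2.2.sub)).map (ph 3)).comp (dub_cm h hC hb)

theorem DD.gr_mH (h : DD r N U dm inc δ) (hb : Bock r (OC r N) 3 C b) :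
    Gr (fun x : ↥U => (dm x.1 : ℤ)) (fun m => (dg m : ℤ)) 0 (mH r U dm inc C b) := by
  intro e m h0
  obtain ⟨σ, hσ, h1⟩ := Finset.exists_ne_zero_of_sum_ne_zero h0
  have g := h.gpU.2.2.cK
  have h2 := cls_card (g.po σ hσ) (g.tot σ hσ) hb.1 m (right_ne_zero_of_mul h1)
  have h3 : sd dm inc e σ ≠ 0 := fun h3 => left_ne_zero_of_mul h1 (by
    rw [EV, h3, mul_zero, MonoidAlgebra.single_zero, map_zero])
  have h4 := (sd_ne h.cU e.2 (mem_OC.1 hσ).1 h3).2.2.2
  change (dm e : ℤ) = (dg m : ℤ) + 0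
  omega

theorem DD.gr_mD3 (h : DD r N U dm inc δ) :
    Gr (fun x : ↥U => (dm x.1 : ℤ)) (fun x : ↥U => (dm x.1 : ℤ)) 1 (mD3 U inc C) := by
  intro e f h0
  have h1 : inc e f ≠ 0 := fun h1 => h0 (by simp [mD3, rs, Dc, h1])
  have h2 := (h.cU.face e e.2 f f.2 h1).2
  change (dm e : ℤ) = (dm f : ℤ) + 1
  omega

/-- `tc_restrict`, `gd_EV`, `tor_cls_map`. -/
theorem DD.t3_eq (h : DD r N U dm inc δ) (hC : Flat r (OC r N) C) (hb : Bock r (OC r N) 3 C b) :
    t3 r (OC r N) C b =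
      tor (cpar (fun x : ↥U => pc dm x.1) pj) (cone (mD3 U inc C) 0 (mH r U dm inc C b)) := by
  have g := h.gpU.2.2
  have hU := hC.mono g.sub
  have h1 := (gd_EV (l := 2) h.cU hU).2.2 le_rfl _ (ph_mem 3)
  rw [cone_map] at h1
  rw [t3, ← tc_restrict (pJ := pj) g hC (cls_cls g.cL hC hb p3) fun _ => rfl, tc, rs_DF, dub_mH]
  exact (tor_cls_map ((cm_EV h.cU hU).map (ph 3)) (dub_cm h hC hb) h1).symm

theorem DD.cm_mZ (h : DD r N U dm inc δ) (hC : Flat r (OC r N) C)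
    (H : Cls r (OC r N) 1 C (fun m => 5 - dg m) θ) (h0 : ∀ m, ∀ σ ∈ OC r (N \ U), θ m σ = 0) :
    CM (fun x : ↥U => !pc dm x.1) (fun m => !pj m) (mD1 U inc δ C) 0 (mZ r N U dm inc δ θ) := by
  rw [dub_mZ, dub_par h]
  exact ((h.cmSD hC).map (ph 1)).comp (dub_rel h hC H h0)

theorem DD.gr_mZ (h : DD r N U dm inc δ) (H : Cls r (OC r N) 1 C (fun m => 5 - dg m) θ) :
    Gr (fun x : ↥U => (dm x.1 : ℤ)) (fun m => (dg m : ℤ)) 0 (mZ r N U dm inc δ θ) := by
  intro e m h0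
  obtain ⟨σ, hσ, h1⟩ := Finset.exists_ne_zero_of_sum_ne_zero h0
  have hN := (Finset.mem_sdiff.1 hσ).1
  have h2 := H.card m σ hN (right_ne_zero_of_mul h1)
  have h3 : sd (dmN dm) (incN δ inc) e σ ≠ 0 := fun h3 => left_ne_zero_of_mul h1 (by
    rw [h3, Int.cast_zero])
  have h4 := (sd_ne h.cN' (h.sub e.2) (mem_OC.1 hN).1 h3).2.2.2
  have h5 := h.dimU e e.2
  have h6 := (by decide : ∀ m, dg m ≤ 2) m
  unfold dmN at h4
  change (dm e : ℤ) = (dg m : ℤ) + 0
  omega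

/-- `gdSD`, `tor_cls_map`. -/
theorem DD.trel_eq (h : DD r N U dm inc δ) (hC : Flat r (OC r N) C)
    (H : Cls r (OC r N) 1 C (fun m => 5 - dg m) θ) (h0 : ∀ m, ∀ σ ∈ OC r (N \ U), θ m σ = 0) :
    tc r (Rl r N U) 1 C (fun m => !pj m) θ =
      tor (cpar (fun x : ↥U => !pc dm x.1) (fun m => !pj m))
        (cone (mD1 U inc δ C) 0 (mZ r N U dm inc δ θ)) := by
  have h1 := (h.gdSD hC).2.2 le_rfl _ (ph_mem 1)
  rw [cone_map] at h1
  rw [tc, rs_DF, dub_mZ, dub_par h]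
  exact (tor_cls_map ((h.cmSD hC).map (ph 1)) (dub_rel h hC H h0) h1).symm

end Pool.Agent.Lib.MP_5ceaf9_gt
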