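import Pool.Agent.Lib.MP_5ceaf9_gt.DuB

/-! Duality for the torsion. -/

noncomputable section

namespace Pool.Agent.Lib.MP_5ceaf9_gt

open Classical Function

variable {α : Type} [DecidableEq α] [Nonempty α] {r : α → α → Prop} {N U : Finset α}
  {dm : α → ℕ} {inc : α → α → ℤ} {δ : α → α → ZMod 2} {C : α → α → Aff} {g : α → ZMod 2}
  {σ ρ : Finset α} {e f : α}

variable {b : Finset α → F25} {θ : Fin 6 → Finset α → F25}

section alg

variable {ι J F : Type} [Field F] [Fintype ι] [Fintype J] {p : ι → Bool} {pJ : J → Bool}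
  {d : Matrix ι ι F} {z : Matrix ι J F}

omit [Fintype J] in
theorem dub2_mul {s : ι → F} (hs : ∀ x, s x * s x = 1) (hz : d * z = 0) :
    (Matrix.of fun x y => s x * d x y * s y) * (Matrix.of fun x j => s x * z x j) = 0 := by
  ext x j
  have h := congrFun (congrFun hz x) j
  rw [Matrix.mul_apply, Matrix.zero_apply] at h ⊢
  rw [← mul_zero (s x), ← h, Finset.mul_sum]
  refine Finset.sum_congr rfl fun y _ => ?_
  rw [Matrix.of_apply, Matrix.of_apply]
  linear_combination (s x * d x y * z y j) * hs y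

omit [Fintype J] in
theorem dub2_mul' (c : J → F) (hz : d * z = 0) : d * (Matrix.of fun x j => z x j * c j) = 0 := by
  ext x j
  have h := congrFun (congrFun hz x) j
  rw [Matrix.mul_apply, Matrix.zero_apply] at h ⊢
  rw [← zero_mul (c j), ← h, Finset.sum_mul]
  exact Finset.sum_congr rfl fun y _ => (mul_assoc _ _ _).symm

theorem dub2_zero (h : CM p pJ d 0 z) : d * z = 0 := h.comm.trans (Matrix.mul_zero _)

theorem dub2_scale (h : CM p pJ d 0 z) (c : J → F) :
    CM p pJ d 0 (Matrix.of fun x j => z x j * c j) :=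
  ⟨h.dm', h.dm, fun x j h0 => h.even x j (left_ne_zero_of_mul h0),
    (dub2_mul' c (dub2_zero h)).trans (Matrix.mul_zero _).symm⟩

end alg

/-- The sign of the pairing formula as a function of the degree. -/
def dub2_e (n : ℕ) : F25 := (-1) ^ ((n + 1).choose 2)

theorem dub2_ee (n : ℕ) : dub2_e n * dub2_e n = 1 := by
  rw [dub2_e, ← mul_pow, neg_one_mul, neg_neg, one_pow]

theorem dub2_ss (x : ZMod 2) : (sg2 x : F25) * (sg2 x : F25) = 1 := by
  rw [← Int.cast_mul, sg2_mul_self, Int.cast_one]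

theorem dub2_pow8 {x : F25} (h : x * x = 1) : x ^ 8 = 1 := by
  rw [show 8 = 2 * 4 from rfl, pow_mul, pow_two, h, one_pow]

theorem dub2_D1 (h : DD r N U dm inc δ) (hg : GG r N C δ g) : mD1 U inc δ C =
    Matrix.of fun x y : U => (sg2 (g x) : F25) * (mD3 U inc C).transpose x y * (sg2 (g y) : F25) :=
  Matrix.ext fun x y => h.D1_eq hg x.2 y.2

theorem dub2_D3 (h : DD r N U dm inc δ) (hg : GG r N C δ g) : (mD3 U inc C).transpose =
    Matrix.of fun x y : U => (sg2 (g x) : F25) * mD1 U inc δ C x y * (sg2 (g y) : F25) := by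
  ext1 x y
  rw [dub2_D1 h hg, Matrix.of_apply, Matrix.of_apply]
  linear_combination (-(mD3 U inc C).transpose x y * (sg2 (g y) * sg2 (g y))) * dub2_ss (g x) -
    (mD3 U inc C).transpose x y * dub2_ss (g y)

theorem dub2_pair (h : DD r N U dm inc δ) (hC : Flat r (OC r N) C) (hg : GG r N C δ g)
    (hb : Bock r (OC r N) 3 C b) (h0 : ∀ m, ∀ σ ∈ OC r (N \ U), θ m σ = 0) (m m' : Fin 6) :
    ev (OC r N) (nu r U dm inc δ g) (cup r zF (kj 1 C) (cls r 3 p3 C b m') (θ m)) =
      dub2_e (dg m') * ((mH r U dm inc C b).transpose *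
        Matrix.of fun (x : U) j => (sg2 (g x) : F25) * mZ r N U dm inc δ θ x j) m' m := by
  rw [h.pairing hC hg _ (h0 m), Matrix.mul_apply, Finset.mul_sum, ← Finset.sum_coe_sort U]
  refine Finset.sum_congr rfl fun x _ => ?_
  change (sE dm g x : F25) * mH r U dm inc C b x m' * mZ r N U dm inc δ θ x m =
    _ * (mH r U dm inc C b x m' * (_ * mZ r N U dm inc δ θ x m))
  by_cases h1 : mH r U dm inc C b x m' = 0
  · rw [h1, mul_zero, zero_mul, zero_mul, mul_zero]
  · have h2 : dm x = dg m' := by simpa using h.gr_mH hb x m' h1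
    rw [sE, dub2_e, h2]
    push_cast
    ring

theorem dub2_dg (m : Fin 6) : dg m ≤ 2 := by
  revert m
  decide

/-- Gauge by `sg2 (g e)` to reach the transpose of `mD3` (`D1_eq`, `tor_cls_gauge`). By
`pairing` and the gradings, the transpose of `mH` times the gauged `mZ` is diagonal with entries
`± a m`; scale the columns (`tor_cls_scale`), then `tor_cls_dual` and `tor_not`. -/
theorem DD.trel (h : DD r N U dm inc δ) (hC : Flat r (OC r N) C) (hg : GG r N C δ g)
    (hb : Bock r (OC r N) 3 C b) (t0 : t3 r (OC r N) C b ≠ 0)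
    (H : Cls r (OC r N) 1 C (fun m => 5 - dg m) θ) (h0 : ∀ m, ∀ σ ∈ OC r (N \ U), θ m σ = 0)
    {a : Fin 6 → F25} (ha : ∀ m, a m ^ 8 = 1)
    (hp : ∀ m m', ev (OC r N) (nu r U dm inc δ g)
      (cup r zF (kj 1 C) (cls r 3 p3 C b m') (θ m)) = if m = m' then a m else 0) :
    tc r (Rl r N U) 1 C (fun m => !pj m) θ = t3 r (OC r N) C b := by
  have a0 : ∀ m, a m ≠ 0 := fun m h1 => by simpa [h1] using ha m
  have c8 : ∀ m, (dub2_e (dg m) * (a m)⁻¹) ^ 8 = 1 := fun m => by
    rw [mul_pow, dub2_pow8 (dub2_ee _), inv_pow, ha, inv_one, mul_one]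
  have hH := h.cm_mH hC hb
  have hZ := h.cm_mZ hC H h0
  have k1 := tor_cls_gauge hZ (g := fun x => (sg2 (g x) : F25)) (g' := fun x => (sg2 (g x) : F25))
    (fun x => dub2_ss _) fun x => dub2_pow8 (dub2_ss _)
  have k2 := dub2_mul (s := fun x : U => (sg2 (g x) : F25)) (fun x => dub2_ss _) (dub2_zero hZ)
  rw [← dub2_D3 h hg] at k1 k2
  have hp' := fun m m' => (dub2_pair h hC hg hb h0 m m').symm.trans (hp m m')
  have he : ∀ x j, (Matrix.of fun (x : U) j => (sg2 (g x) : F25) * mZ r N U dm inc δ θ x j) x j ≠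
      0 → pc dm x.1 = pj j := fun x j h1 => Bool.not_inj (hZ.even x j (right_ne_zero_of_mul h1))
  rw [h.trel_eq hC H h0, ← k1]
  rw [h.t3_eq hC hb] at t0 ⊢
  generalize (Matrix.of fun (x : U) j => (sg2 (g x) : F25) * mZ r N U dm inc δ θ x j) = z at *
  have hz : CM (fun x : ↥U => pc dm x.1) pj (mD3 U inc C).transpose 0 z :=
    ⟨⟨by rw [← Matrix.transpose_mul, hH.dm'.1, Matrix.transpose_zero],
      fun x y h1 => (hH.dm'.2 y x h1).symm⟩, hH.dm, he, k2.trans (Matrix.mul_zero _).symm⟩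
  have k3 := tor_cls_scale hz (a := fun m => dub2_e (dg m) * (a m)⁻¹)
    fun m h1 => by simpa [h1] using c8 m
  simp only [c8, Finset.prod_const_one, mul_one] at k3
  have k4 := tor_cls_dual hH (dub2_scale hz fun m => dub2_e (dg m) * (a m)⁻¹) (by
    ext1 m' m
    have h1 := hp' m m'
    rw [Matrix.mul_apply] at h1 ⊢
    simp only [Matrix.of_apply, ← mul_assoc, ← Finset.sum_mul]
    by_cases h2 : m = m'
    · subst h2
      rw [if_pos rfl] at h1
      rw [Matrix.one_apply_eq, mul_comm _ (dub2_e _), h1, mul_inv_cancel₀ (a0 m)]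
    · rw [if_neg h2] at h1
      rw [Matrix.one_apply_ne' h2, (mul_eq_zero.1 h1).resolve_left
        (left_ne_zero_of_mul_eq_one (dub2_ee _)), zero_mul, zero_mul]) (ctr_of_tor t0)
  rw [k3] at k4
  have k5 := tor_not hz.cone (ctr_of_tor (left_ne_zero_of_mul_eq_one k4))
  have e1 : cpar (fun x : ↥U => !pc dm x.1) (fun m => !pj m) =
      fun x => !cpar (fun x : ↥U => pc dm x.1) pj x := funext fun x => by cases x <;> rfl
  rw [e1, ← mul_one (tor _ (cone _ 0 z)), ← k4, ← mul_assoc, k5, one_mul]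

/-- The subdivision matrix over the field. -/
def dub2_S (r : α → α → Prop) (N U : Finset α) (dm : α → ℕ) (inc : α → α → ℤ)
    (δ : α → α → ZMod 2) : Matrix U (Rl r N U) F25 :=
  Matrix.of fun x y => (sd (dmN dm) (incN δ inc) x y : F25)

theorem dub2_ctr (h : DD r N U dm inc δ) (hC : Flat r (OC r N) C) : Ctr (cone (mD1 U inc δ C)
    (rs (Rl r N U) (Rl r N U) (DF r 1 C)) (dub2_S r N U dm inc δ)) := by
  have hc := ((h.gdSD hC).2.1 one_le_two).map (ph 1)
  rw [cone_map] at hc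
  have hS : (rs U (Rl r N U) (SD Aff (dmN dm) (incN δ inc))).map (ph 1) =
      dub2_S r N U dm inc δ := Matrix.ext fun x y => by
    rw [Matrix.map_apply, rs, Matrix.of_apply, SD, ph_single, Aff.one_k, mul_zero, pw_zero, mul_one,
      dub2_S, Matrix.of_apply]
  have hD : (rs (Rl r N U) (Rl r N U) (DG r C)).map (ph 1) =
      rs (Rl r N U) (Rl r N U) (DF r 1 C) := Matrix.ext fun x y => rfl
  rwa [hS, hD] at hc

theorem dub2_gr1 (h : DD r N U dm inc δ) (hg : GG r N C δ g) :
    Gr (fun e : U => 5 - (dm e : ℤ)) (fun e : U => 5 - (dm e : ℤ)) 1 (mD1 U inc δ C) := by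
  intro u v h1
  rw [dub2_D1 h hg] at h1
  have h2 : (dm v : ℤ) = dm u + 1 :=
    h.gr_mD3 (C := C) v u (right_ne_zero_of_mul (left_ne_zero_of_mul h1))
  change 5 - (dm u : ℤ) = 5 - (dm v : ℤ) + 1
  omega

theorem dub2_grS (h : DD r N U dm inc δ) : Gr (fun e : U => 5 - (dm e : ℤ))
    (fun x : Rl r N U => (x.1.card : ℤ) - 1) 0 (dub2_S r N U dm inc δ) := by
  intro u v h1
  have h2 : v.1.card = 5 - dm u + 1 := (sd_ne h.cN' (h.sub u.2)
    (mem_OC.1 (Finset.mem_sdiff.1 v.2).1).1 fun h2 => h1 (by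
      rw [dub2_S, Matrix.of_apply, h2, Int.cast_zero])).2.2.2
  have h3 := h.dimU u u.2
  change 5 - (dm u : ℤ) = (v.1.card : ℤ) - 1 + 0
  omega

omit [Nonempty α] in
theorem dub2_mZ : dub2_S r N U dm inc δ * cm (Rl r N U) θ = mZ r N U dm inc δ θ := by
  ext1 u j
  rw [Matrix.mul_apply, mZ, Matrix.of_apply, evS, ← Finset.sum_coe_sort (Rl r N U)]
  rfl

/-- Take `z` from `exists_dual`; `sE e * a m * z e m` is a cocycle for `mD1`; lift it through
the subdivision map (`lift_cls` with the gradings `5 - dm` and `card - 1`, `cls_of_rel`). The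
coboundary term does not contribute to the pairing because `mD3 * mH = 0`. -/
theorem DD.exists_theta (h : DD r N U dm inc δ) (hC : Flat r (OC r N) C) (hg : GG r N C δ g)
    (hb : Bock r (OC r N) 3 C b) (t0 : t3 r (OC r N) C b ≠ 0) (a : Fin 6 → F25) :
    ∃ θ : Fin 6 → Finset α → F25, Cls r (OC r N) 1 C (fun m => 5 - dg m) θ ∧
      (∀ m, ∀ σ ∈ OC r (N \ U), θ m σ = 0) ∧
      ∀ m m', ev (OC r N) (nu r U dm inc δ g)
        (cup r zF (kj 1 C) (cls r 3 p3 C b m') (θ m)) = if m = m' then a m else 0 := by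
  rw [h.t3_eq hC hb] at t0
  have hH := h.cm_mH hC hb
  obtain ⟨z, gz, z1, z2⟩ := exists_dual (ctr_of_tor t0) h.gr_mD3 (h.gr_mH hb)
  have w1 := dub2_mul (s := fun x : U => (sg2 (g x) : F25)) (fun x => dub2_ss _)
    (dub2_mul' (fun m => dub2_e (dg m) * a m) z1)
  rw [← dub2_D1 h hg] at w1
  obtain ⟨x, y, gx, -, x1, e1⟩ := lift_cls (gJ := fun m => ((5 - dg m : ℕ) : ℤ)) (dub2_ctr h hC)
    (dub2_gr1 h hg) (gr_DF _ _) (dub2_grS h) w1 fun u m h1 => by
      have h2 : (dm u : ℤ) = dg m + 0 := gz u m (left_ne_zero_of_mul (right_ne_zero_of_mul h1))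
      have h3 := dub2_dg m
      change 5 - (dm u : ℤ) = ((5 - dg m : ℕ) : ℤ) + 0
      omega
  obtain ⟨θ, H, h0, e2⟩ := cls_of_rel (n := fun m => 5 - dg m)
    (cx_OC (h.po.mono Finset.sdiff_subset)) (cx_OC h.po) (OC_mono Finset.sdiff_subset) x1 gx
  refine ⟨θ, H, h0, fun m m' => ?_⟩
  rw [← e2, dub2_mZ] at e1
  have e4 : (Matrix.of fun (x : U) j => (sg2 (g x) : F25) * mZ r N U dm inc δ θ x j) =
      (Matrix.of fun x j => z x j * (dub2_e (dg j) * a j)) -
        (mD3 U inc C).transpose * Matrix.of fun (x : U) j => (sg2 (g x) : F25) * y x j := by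
    ext1 u j
    have h1 : (sg2 (g u) : F25) * (z u j * (dub2_e (dg j) * a j)) =
        mZ r N U dm inc δ θ u j + (mD1 U inc δ C * y) u j := congrFun (congrFun e1 u) j
    have h2 : ((mD3 U inc C).transpose * Matrix.of fun (x : U) j =>
        (sg2 (g x) : F25) * y x j) u j = (sg2 (g u) : F25) * (mD1 U inc δ C * y) u j := by
      rw [dub2_D3 h hg, Matrix.mul_apply, Matrix.mul_apply, Finset.mul_sum]
      refine Finset.sum_congr rfl fun v _ => ?_
      rw [Matrix.of_apply, Matrix.of_apply]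
      linear_combination (sg2 (g u) * mD1 U inc δ C u v * y v j) * dub2_ss (g v)
    rw [Matrix.sub_apply, h2, Matrix.of_apply, Matrix.of_apply]
    linear_combination (z u j * (dub2_e (dg j) * a j)) * dub2_ss (g u) - sg2 (g u) * h1
  rw [dub2_pair h hC hg hb h0, e4, Matrix.mul_sub, ← Matrix.mul_assoc, ← Matrix.transpose_mul,
    dub2_zero hH, Matrix.transpose_zero, Matrix.zero_mul, sub_zero, Matrix.mul_apply]
  have h1 := congrFun (congrFun z2 m') m
  rw [Matrix.mul_apply] at h1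
  simp only [Matrix.of_apply, ← mul_assoc, ← Finset.sum_mul, h1]
  by_cases h2 : m = m'
  · subst h2
    rw [if_pos rfl, Matrix.one_apply_eq, mul_one, dub2_ee, one_mul]
  · rw [if_neg h2, Matrix.one_apply_ne' h2, mul_zero, zero_mul, zero_mul]

end Pool.Agent.Lib.MP_5ceaf9_gt
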