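import Pool.Agent.Lib.MP_5ceaf9_gt.DuB2

/-! Uniqueness of the fundamental cycle. -/

noncomputable section

namespace Pool.Agent.Lib.MP_5ceaf9_gt

open Classical Function

variable {α : Type} [DecidableEq α] [Nonempty α] {r : α → α → Prop} {N U : Finset α}
  {dm : α → ℕ} {inc : α → α → ℤ} {δ : α → α → ZMod 2} {C : α → α → Aff} {g : α → ZMod 2}
  {σ ρ : Finset α} {e f : α}

theorem duc_row {ι F : Type} [Ring F] [Fintype ι] [DecidableEq ι] {D : Matrix ι ι F} {k : ι → ℤ}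
    (hc : Ctr D) (hD : Gr k k 1 D) {z : ι → F} {n : ℤ} (hz : ∀ y, ∑ x, z x * D x y = 0)
    (gz : ∀ x, z x ≠ 0 → k x = n) :
    ∃ w : ι → F, (∀ x, w x ≠ 0 → k x = n + 1) ∧ ∀ y, z y = ∑ x, w x * D x y := by
  obtain ⟨s, gs, hs⟩ := hc.graded hD
  refine ⟨Matrix.vecMul z s, fun y hy => ?_, fun y => ?_⟩
  · obtain ⟨x, -, hx⟩ := Finset.exists_ne_zero_of_sum_ne_zero (f := fun x => z x * s x y) hy
    have h1 := gz x (left_ne_zero_of_mul hx)
    have h2 := gs x y (right_ne_zero_of_mul hx)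
    omega
  · have h0 : Matrix.vecMul z D = 0 := funext hz
    have h1 : Matrix.vecMul z (D * s + s * D) = z := by rw [hs, Matrix.vecMul_one]
    rw [Matrix.vecMul_add, ← Matrix.vecMul_vecMul, ← Matrix.vecMul_vecMul, h0, Matrix.zero_vecMul,
      zero_add] at h1
    exact (congrFun h1 y).symm

theorem duc_DF {j : ZMod 8} (h : DF r j C σ ρ ≠ 0) : ρ ⊆ σ ∧ σ.card = ρ.card + 1 := by
  rw [DF_eq] at h
  have h1 : Dz r σ ρ ≠ 0 := fun h0 => left_ne_zero_of_mul h (by rw [h0, Int.cast_zero])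
  obtain ⟨v, hv, rfl⟩ := Dz_ne h1
  exact ⟨Finset.erase_subset _ _, (Finset.card_erase_add_one hv).symm⟩

theorem duc_sg (x : ZMod 2) : (sg2 x : F25) * (sg2 x : F25) = 1 := by
  rw [← Int.cast_mul, sg2_mul_self, Int.cast_one]

/-- Every cell has a vertex: look at the entry `(none, none)` of `d s + s d = 1`. -/
theorem CoCell.exists_vertex {A : Finset α} (h : CoCell r A dm inc) (he : e ∈ A) :
    ∃ v ∈ A, r e v ∧ dm v = 0 := by
  obtain ⟨s, hs⟩ := h.ctr e he
  have hn : (none : Option α) ∈ Finset.insertNone (A.filter (r e)) := Finset.none_mem_insertNone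
  have h1 := congrFun (congrFun hs ⟨none, hn⟩) ⟨none, hn⟩
  rw [Matrix.add_apply, Matrix.one_apply_eq, Matrix.mul_apply, Matrix.mul_apply,
    Finset.sum_eq_zero (fun y _ => by simp [rs, aug]), zero_add] at h1
  obtain ⟨⟨y, hy⟩, -, h2⟩ := Finset.exists_ne_zero_of_sum_ne_zero (h1.trans_ne one_ne_zero)
  have h3 : aug dm inc y none ≠ 0 := right_ne_zero_of_mul h2
  rcases y with _ | v
  · exact absurd rfl h3
  · have hv := Finset.mem_filter.1 (Finset.some_mem_insertNone.1 hy)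
    exact ⟨v, hv.1, hv.2, by_contra fun h4 => h3 (if_neg h4)⟩

/-- A cocycle of degree zero is constant on the vertices of a cell (`Ctr.map`, `Ctr.graded` with
`none` in degree minus one). -/
theorem CoCell.const_cell {A : Finset α} (h : CoCell r A dm inc) {w : α → F25}
    (h0 : ∀ a ∈ A, dm a ≠ 0 → w a = 0) (hw : ∀ a ∈ A, ∑ b ∈ A, (inc a b : F25) * w b = 0)
    (he : e ∈ A) : ∃ κ, ∀ v ∈ A, r e v → dm v = 0 → w v = κ := by
  obtain ⟨s, hs⟩ := (h.ctr e he).map (Int.castRingHom F25)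
  have hn : (none : Option α) ∈ Finset.insertNone (A.filter (r e)) := Finset.none_mem_insertNone
  set D := (rs (Finset.insertNone (A.filter (r e))) (Finset.insertNone (A.filter (r e)))
    (aug dm inc)).map (Int.castRingHom F25) with hD
  let W : ↥(Finset.insertNone (A.filter (r e))) → F25 := fun x => x.1.elim 0 w
  have hrow : ∀ (x : ↥(Finset.insertNone (A.filter (r e)))) (V : Option α → F25),
      D.mulVec (fun y => V y.1) x =
        (aug dm inc x.1 none : F25) * V none +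
          ∑ b ∈ A.filter (r e), (aug dm inc x.1 (some b) : F25) * V (some b) := by
    intro x V
    rw [← Finset.sum_insertNone (fun y => (aug dm inc x.1 y : F25) * V y),
      ← Finset.sum_coe_sort]
    rfl
  have hW : D.mulVec W = 0 := by
    funext x
    refine (hrow x fun y => y.elim 0 w).trans ?_
    obtain ⟨_ | a, hx⟩ := x
    · simp [aug]
    · have ha := Finset.mem_filter.1 (Finset.some_mem_insertNone.1 hx)
      simp only [Option.elim, mul_zero, zero_add, aug, Pi.zero_apply]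
      rw [← hw a ha.1]
      refine Finset.sum_subset (Finset.filter_subset _ _) fun b hb hb' => ?_
      have h1 : inc a b = 0 := by_contra fun h1 => hb' (Finset.mem_filter.2
        ⟨hb, h.po.trans e he a ha.1 b hb ha.2 (h.face a ha.1 b hb h1).1⟩)
      rw [h1, Int.cast_zero, zero_mul]
  have h1 : (D * s + s * D).mulVec W = W := by rw [hs, Matrix.one_mulVec]
  rw [Matrix.add_mulVec, ← Matrix.mulVec_mulVec, ← Matrix.mulVec_mulVec, hW, Matrix.mulVec_zero,
    add_zero] at h1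
  refine ⟨s.mulVec W ⟨none, hn⟩, fun v hv hev hd => ?_⟩
  have hv' : some v ∈ Finset.insertNone (A.filter (r e)) :=
    Finset.some_mem_insertNone.2 (Finset.mem_filter.2 ⟨hv, hev⟩)
  have h2 : D.mulVec (s.mulVec W) ⟨some v, hv'⟩ = w v := congrFun h1 ⟨some v, hv'⟩
  rw [← h2, Matrix.mulVec, dotProduct, Finset.sum_eq_single ⟨none, hn⟩]
  · simp [hD, rs, aug, hd]
  · rintro ⟨_ | b, hb⟩ - hne
    · exact absurd rfl hne
    · have hb' := Finset.mem_filter.1 (Finset.some_mem_insertNone.1 hb)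
      have h3 : inc v b = 0 := by_contra fun h3 => by
        have := (h.face v hv b hb'.1 h3).2
        omega
      simp [hD, rs, aug, h3]
  · exact fun h3 => absurd (Finset.mem_univ _) h3

theorem CoCell.const {A : Finset α} (h : CoCell r A dm inc) (hc : Conn r (OC r A)) {w : α → F25}
    (h0 : ∀ a ∈ A, dm a ≠ 0 → w a = 0) (hw : ∀ a ∈ A, ∑ b ∈ A, (inc a b : F25) * w b = 0) :
    ∃ κ, ∀ v ∈ A, dm v = 0 → w v = κ := by
  obtain ⟨⟨a₀, ha₀⟩, hT⟩ := hc
  obtain ⟨κ, hκ⟩ := h.const_cell h0 hw ((single_mem_OC h.po).1 ha₀)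
  refine ⟨κ, fun v hv hd => ?_⟩
  refine hT {a | ∀ v ∈ A, r a v → dm v = 0 → w v = κ} (fun a b hab hr => ?_) ⟨a₀, ha₀, hκ⟩ v
    ((single_mem_OC h.po).2 hv) v hv (h.po.refl v hv) hd
  obtain ⟨ha, hb⟩ := (pair_mem_OC h.po hr).1 hab
  refine ⟨fun h1 u hu hbu hd' => h1 u hu (h.po.trans a ha b hb u hu hr hbu) hd', fun h1 => ?_⟩
  obtain ⟨u, hu, hbu, hd'⟩ := h.exists_vertex hb
  obtain ⟨κ', hκ'⟩ := h.const_cell h0 hw ha
  have e1 : κ' = κ := by
    rw [← hκ' u hu (h.po.trans a ha b hb u hu hr hbu) hd']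
    exact h1 u hu hbu hd'
  rw [← e1]
  exact hκ'

/-- A cycle on `L` whose degree does not occur in `K` bounds (graded contraction of the relative
matrix). -/
theorem GE.bounds {K L : Finset (Finset α)} (h : GE r 1 K L) (hC : Flat r L C) (j : ZMod 8)
    {n : ℕ} (hK : ∀ σ ∈ K, σ.card ≠ n + 1) {μ : Finset α → F25} (hμ : Hom n μ)
    (hc : ∀ ρ ∈ L, ∑ σ ∈ L, μ σ * DF r j C σ ρ = 0) :
    ∃ ν : Finset α → F25, Hom (n + 1) ν ∧ ∀ ρ ∈ L, μ ρ = ∑ σ ∈ L, ν σ * DF r j C σ ρ := by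
  have hμK : ∀ σ ∈ K, μ σ = 0 := fun σ hσ => by_contra fun h0 => hK σ hσ (hμ σ h0)
  have hctr : Ctr (rs (L \ K) (L \ K) (DF r j C)) := by
    rw [rs_DF]
    exact ((h.gd Aff C hC).2.1 le_rfl).map _
  have hsum : ∀ (φ : Finset α → F25) (ρ : Finset α), (∀ σ ∈ L, σ ∉ L \ K → φ σ = 0) →
      ∑ σ ∈ L, φ σ * DF r j C σ ρ = ∑ x : ↥(L \ K), φ x.1 * DF r j C x.1 ρ := by
    intro φ ρ hφ
    rw [Finset.sum_coe_sort (L \ K) fun σ => φ σ * DF r j C σ ρ]
    exact (Finset.sum_subset Finset.sdiff_subset fun σ h1 h2 => by rw [hφ σ h1 h2, zero_mul]).symm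
  obtain ⟨w, gw, hw⟩ := duc_row hctr (gr_DF (L \ K) (L \ K)) (z := fun x => μ x.1) (n := n)
    (fun y => by
      rw [← hc y.1 (Finset.mem_sdiff.1 y.2).1, hsum μ y.1 fun σ h1 h2 =>
        hμK σ (by_contra fun h3 => h2 (Finset.mem_sdiff.2 ⟨h1, h3⟩))]
      rfl)
    (fun x hx => by
      have := hμ x.1 hx
      omega)
  have hom : Hom (n + 1) fun σ => if hσ : σ ∈ L \ K then w ⟨σ, hσ⟩ else 0 := by
    intro σ h0
    by_cases hσ : σ ∈ L \ K
    · simp only [dif_pos hσ] at h0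
      have := gw _ h0
      simp only at this
      omega
    · exact absurd (dif_neg hσ) h0
  refine ⟨_, hom, fun ρ hρ => ?_⟩
  by_cases hρK : ρ ∈ K
  · rw [hμK ρ hρK]
    refine (Finset.sum_eq_zero fun σ _ => by_contra fun h0 => hK ρ hρK ?_).symm
    have h1 := hom σ (left_ne_zero_of_mul h0)
    have h2 := (duc_DF (right_ne_zero_of_mul h0)).2
    omega
  · rw [hsum _ ρ fun σ _ h2 => dif_neg h2]
    refine (hw ⟨ρ, Finset.mem_sdiff.2 ⟨hρ, hρK⟩⟩).trans (Finset.sum_congr rfl fun x _ => ?_)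
    rw [dif_pos x.2]
    rfl

/-- A relative cycle of degree five is a multiple of `nu`: `lift_cyc` for the cone of `gdSD`
(there are no chains with seven elements), `D4_eq` and `CoCell.const` for `h.cU`. -/
theorem DD.rel_eq (h : DD r N U dm inc δ) (hC : Flat r (OC r N) C) (hg : GG r N C δ g)
    {ν : Finset α → F25} (hν : Hom 5 ν)
    (hc : ∀ ρ ∈ Rl r N U, ∑ σ ∈ OC r N, ν σ * DF r 4 C σ ρ = 0) :
    ∃ κ : F25, ∀ σ ∈ OC r N, ν σ = κ * nu r U dm inc δ g σ := by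
  have hB : ∀ σ ∈ OC r N, σ ∉ Rl r N U → ν σ = 0 := fun σ h1 h2 => by_contra fun h0 => by
    have h3 := h.card_B (σ := σ) (by_contra fun h3 => h2 (Finset.mem_sdiff.2 ⟨h1, h3⟩))
    have h4 := hν σ h0
    omega
  have hctr := ((h.gdSD hC).2.1 (by norm_num)).map (ph 4)
  rw [cone_map, ← rs_DF] at hctr
  have hsd : ∀ (e : α) (σ : Finset α), ph 4 (SD Aff (dmN dm) (incN δ inc) e σ) =
      (sd (dmN dm) (incN δ inc) e σ : F25) := fun e σ => by
    rw [SD, ph_single, Aff.one_k, mul_zero, pw_zero, mul_one]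
  have g1 : Gr (fun x : ↥U => (dmN dm x.1 : ℤ)) (fun x : ↥U => (dmN dm x.1 : ℤ)) 1
      ((rs U U (Dc (incN δ inc) C)).map (ph 4)) := by
    intro x y hxy
    have h1 : incN δ inc x.1 y.1 ≠ 0 := fun h0 => hxy (by
      change ph 4 (Dc (incN δ inc) C x.1 y.1) = 0
      rw [Dc, h0, MonoidAlgebra.single_zero, map_zero])
    have h2 := (h.cN'.face _ (h.sub x.2) _ (h.sub y.2) h1).2
    simp only [h2]
    push_cast
    rfl
  have g2 : Gr (fun x : ↥U => (dmN dm x.1 : ℤ)) (fun x : ↥(Rl r N U) => (x.1.card : ℤ) - 1) 0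
      ((rs U (Rl r N U) (SD Aff (dmN dm) (incN δ inc))).map (ph 4)) := by
    intro x y hxy
    have h1 : sd (dmN dm) (incN δ inc) x.1 y.1 ≠ 0 := fun h0 => hxy (by
      change ph 4 (SD Aff (dmN dm) (incN δ inc) x.1 y.1) = 0
      rw [hsd, h0, Int.cast_zero])
    have h2 := (sd_ne h.cN' (h.sub x.2) (mem_OC.1 (Finset.mem_sdiff.1 y.2).1).1 h1).2.2.2
    simp only [h2]
    push_cast
    ring
  obtain ⟨x, y, gx, gy, hx, hz⟩ := lift_cyc (gJ := fun _ : Unit => 5) hctr g1 (gr_DF _ _) g2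
    (z := Matrix.of fun (_ : Unit) (σ : ↥(Rl r N U)) => ν σ.1)
    (by
      refine Matrix.ext fun u ρ => ?_
      have e1 : ∑ σ ∈ Rl r N U, ν σ * DF r 4 C σ ρ.1 = ∑ σ ∈ OC r N, ν σ * DF r 4 C σ ρ.1 :=
        Finset.sum_subset Finset.sdiff_subset fun σ h1 h2 => by rw [hB σ h1 h2, zero_mul]
      rw [Matrix.mul_apply, Matrix.zero_apply, ← hc ρ.1 ρ.2, ← e1,
        ← Finset.sum_coe_sort (Rl r N U)]
      rfl)
    (fun u σ h0 => by
      have := hν σ.1 h0
      simp only [this]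
      norm_num)
  have y0 : y = 0 := by
    refine Matrix.ext fun u σ => ?_
    by_contra h0
    have h1 := gy u σ h0
    have h2 := h.card_N (Finset.mem_sdiff.1 σ.2).1
    simp only at h1
    omega
  rw [y0, Matrix.zero_mul, add_zero] at hz
  have x0 : ∀ a : ↥U, dm a.1 ≠ 0 → x () a = 0 := fun a ha => by_contra fun h0 => by
    have h1 := gx () a h0
    simp only [dmN] at h1
    omega
  let w : α → F25 := fun a => if ha : a ∈ U then x () ⟨a, ha⟩ * (sg2 (g a) : F25) else 0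
  have hw : ∀ a : ↥U, w a.1 = x () a * (sg2 (g a.1) : F25) := fun a => dif_pos a.2
  obtain ⟨κ, hκ⟩ := h.cU.const (w := w) (by rw [OC_swap]; exact h.conn.swap)
    (fun a ha hd => by rw [hw ⟨a, ha⟩, x0 ⟨a, ha⟩ hd, zero_mul])
    (fun a ha => by
      have h1 := congrFun (congrFun hx ()) ⟨a, ha⟩
      rw [Matrix.mul_apply, Matrix.zero_apply] at h1
      have h2 : (∑ b ∈ U, (inc a b : F25) * w b) * (sg2 (g a) : F25) = 0 := by
        rw [← h1, Finset.sum_mul, ← Finset.sum_coe_sort U]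
        refine Finset.sum_congr rfl fun b _ => ?_
        have e1 : ((rs U U (Dc (incN δ inc) C)).map (ph 4)) b ⟨a, ha⟩ =
          (sg2 (g b.1) : F25) * (inc a b.1 : F25) * (sg2 (g a) : F25) := h.D4_eq hg b.2 ha
        rw [e1, hw b]
        ring
      rw [← mul_one (∑ b ∈ U, (inc a b : F25) * w b), ← duc_sg (g a), ← mul_assoc, h2, zero_mul])
  refine ⟨κ, fun σ hσ => ?_⟩
  by_cases hR : σ ∈ Rl r N U
  · have h1 : ν σ = (x * (rs U (Rl r N U) (SD Aff (dmN dm) (incN δ inc))).map (ph 4)) ()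
        ⟨σ, hR⟩ := congrFun (congrFun hz ()) ⟨σ, hR⟩
    rw [h1, h.nu_eq hσ, Matrix.mul_apply, Finset.mul_sum, ← Finset.sum_coe_sort U]
    refine Finset.sum_congr rfl fun a _ => ?_
    have e1 : ((rs U (Rl r N U) (SD Aff (dmN dm) (incN δ inc))).map (ph 4)) a ⟨σ, hR⟩ =
      (sd (dmN dm) (incN δ inc) a.1 σ : F25) := hsd _ _
    rw [e1]
    by_cases hd : dm a.1 = 0
    · rw [if_pos hd, ← hκ a.1 a.2 hd, hw a, ← mul_assoc, mul_assoc (x () a), duc_sg, mul_one]
    · rw [if_neg hd, x0 a hd, zero_mul, mul_zero]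
  · have h1 : nu r U dm inc δ g σ = 0 := by_contra fun h0 => hR (h.nu_ne hσ h0).1
    rw [hB σ hσ hR, h1, mul_zero]

theorem DD.cycle_eq (h : DD r N U dm inc δ) (hC : Flat r (OC r N) C) (hg : GG r N C δ g)
    {μ : Finset α → F25} (hμ : Hom 4 μ)
    (hc : ∀ ρ ∈ OC r (N \ U), ∑ σ ∈ OC r (N \ U), μ σ * DF r 4 C σ ρ = 0) :
    ∃ κ : F25, ∀ σ ∈ OC r (N \ U), μ σ = κ * mu0 r N U dm inc δ g C σ := by
  have hBN : OC r (N \ U) ⊆ OC r N := OC_mono Finset.sdiff_subset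
  have cB : Cx r (OC r (N \ U)) := cx_OC (h.po.mono Finset.sdiff_subset)
  obtain ⟨ν, hν, hb⟩ := (h.gpU.2.2.mono (l' := 1) (by norm_num)).bounds hC 4 (n := 4)
    (fun σ hσ => by
      have := h.card_U hσ
      omega)
    (μ := fun σ => if σ ∈ OC r (N \ U) then μ σ else 0)
    (fun σ h0 => hμ σ fun h1 => h0 (by simp only [h1, ite_self]))
    (fun ρ hρ => by
      rw [← Finset.sum_subset hBN fun σ _ h2 => by rw [if_neg h2, zero_mul],
        Finset.sum_congr rfl fun σ hσ => by rw [if_pos hσ]]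
      by_cases h1 : ρ ∈ OC r (N \ U)
      · exact hc ρ h1
      · refine Finset.sum_eq_zero fun σ hσ => by_contra fun h0 => h1 ?_
        exact cB.down σ hσ ρ (duc_DF (right_ne_zero_of_mul h0)).1 (mem_OC.1 hρ).2.1)
  obtain ⟨κ, hκ⟩ := h.rel_eq hC hg hν fun ρ hρ => by
    rw [← hb ρ (Finset.mem_sdiff.1 hρ).1, if_neg (Finset.mem_sdiff.1 hρ).2]
  refine ⟨κ, fun ρ hρ => ?_⟩
  have h1 := hb ρ (hBN hρ)
  rw [if_pos hρ] at h1
  rw [h1, mu0, if_pos hρ, Finset.mul_sum]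
  exact Finset.sum_congr rfl fun σ hσ => by rw [hκ σ hσ, mul_assoc]

end Pool.Agent.Lib.MP_5ceaf9_gt
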