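import Pool.Agent.Lib.MP_5ceaf9_gt.DuC

/-! The duality theorem. -/

noncomputable section

namespace Pool.Agent.Lib.MP_5ceaf9_gt

open Classical Function

variable {α : Type} [DecidableEq α] [Nonempty α] {r : α → α → Prop} {N U : Finset α}
  {dm : α → ℕ} {inc : α → α → ℤ} {δ : α → α → ZMod 2} {C : α → α → Aff} {g : α → ZMod 2}
  {σ ρ : Finset α} {e f : α}

variable {b1 b3 : Finset α → F25} {ξ : Fin 6 → Finset α → F25}

theorem dud_sq (k : ℕ) : ((-1 : F25) ^ k) * (-1) ^ k = 1 := by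
  rw [← mul_pow, neg_one_mul, neg_neg, one_pow]

theorem dud_deg : (fun m => 4 - dg m + 1) = fun m => 5 - dg m := by
  funext m
  revert m
  decide

theorem dud_par (m : Fin 6) : pj m = decide ((4 - dg m) % 2 = 1) := by
  revert m
  decide

theorem dud_ne (m m' : Fin 6) : dg m ≠ 4 - dg m' + 1 := by
  revert m m'
  decide

/-- `stokes` and `leibniz`. -/
theorem DD.pair_dl (h : DD r N U dm inc δ) (hC : Flat r (OC r N) C) (hg : GG r N C δ g)
    (hb : Bock r (OC r N) 3 C b3) {φ : Finset α → F25} (h0 : φ ∅ = 0) (m : Fin 6) :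
    ev (OC r (N \ U)) (mu0 r N U dm inc δ g C) (cup r zF (kj 1 C) (cls r 3 p3 C b3 m) φ) =
      (-1) ^ dg m * ev (OC r N) (nu r U dm inc δ g)
        (cup r zF (kj 1 C) (cls r 3 p3 C b3 m) (dl r zF (kj 1 C) φ)) := by
  have hL := cx_OC h.po
  rw [← h.stokes hC hg cup_empty]
  unfold ev
  rw [Finset.mul_sum]
  refine Finset.sum_congr rfl fun σ hσ => ?_
  have e : kj 4 C = fun a b => kj 3 C a b + kj 1 C a b := by
    funext a b
    exact (kj_four a b).symm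
  have e1 : cup r zF (kj 1 C) (dl r zF (kj 3 C) (cls r 3 p3 C b3 m)) φ σ = 0 := by
    rw [cup_congr (f' := fun _ => 0) (g' := φ) (κ' := kj 1 C) (hL.po σ hσ) (hL.tot σ hσ)
      (fun τ hτ hn => cls_coc hL hC hb (hL.down σ hσ τ hτ hn) m) (fun _ _ _ => rfl)
      fun _ _ _ _ _ => rfl]
    simp [cup]
  have e2 : cup r zF (kj 1 C) (sgn (cls r 3 p3 C b3 m)) (dl r zF (kj 1 C) φ) σ =
      (-1) ^ dg m * 1 * cup r zF (kj 1 C) (cls r 3 p3 C b3 m) (dl r zF (kj 1 C) φ) σ := by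
    rw [← cup_smul]
    refine cup_congr (hL.po σ hσ) (hL.tot σ hσ) (fun τ hτ hn => ?_) (fun _ _ _ => (one_mul _).symm)
      fun _ _ _ _ _ => rfl
    have hτ' := hL.down σ hσ τ hτ hn
    unfold sgn
    by_cases h1 : cls r 3 p3 C b3 m τ = 0
    · rw [h1, mul_zero, mul_zero]
    · rw [cls_card (hL.po τ hτ') (hL.tot τ hτ') hb.1 m h1, Nat.add_sub_cancel]
  rw [e, leibniz zF8 (hL.po σ hσ) (hL.tot σ hσ) (hC.kf hL hσ 3) (hC.kf hL hσ 1)
    (cls_empty hb.1 m) h0, e1, e2]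
  ring

/-- `tc_ses`, `trel`, `pair_dl`. -/
theorem DD.ses (h : DD r N U dm inc δ) (H : Adm r (OC r N) C b1 b3) (hg : GG r N C δ g)
    (n1 : t1 r (OC r N) C b1 ≠ 0) (n3 : t3 r (OC r N) C b3 ≠ 0)
    (hξ : ∀ m, Hom (4 - dg m) (ξ m))
    (h0 : ∀ m, ∀ σ ∈ OC r (N \ U), dl r zF (kj 1 C) (ξ m) σ = 0)
    {a : F25} (ha : a ^ 8 = 1)
    (hp : ∀ m m', ev (OC r (N \ U)) (mu0 r N U dm inc δ g C)
      (cup r zF (kj 1 C) (cls r 3 p3 C b3 m') (ξ m)) = if m = m' then a else 0) :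
    t1 r (OC r N) C b1 = t3 r (OC r N) C b3 * t12 r (OC r (N \ U)) C b1 ξ := by
  have hL := cx_OC h.po
  have hK : Cx r (OC r (N \ U)) := cx_OC (h.po.mono Finset.sdiff_subset)
  have hθ : Cls r (OC r N) 1 C (fun m => 5 - dg m) fun m => dl r zF (kj 1 C) (ξ m) := by
    rw [← dud_deg]
    exact cls_dl hL H.flat hξ
  have e := h.trel H.flat hg H.b3 n3 hθ h0 (a := fun m => (-1) ^ dg m * a)
    (fun m => by
      rw [mul_pow, ha, mul_one, ← pow_mul, mul_comm, pow_mul]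
      norm_num)
    (fun m m' => by
      have h1 := h.pair_dl H.flat hg H.b3 (hξ m).empty m'
      rw [hp m m'] at h1
      have h3 := congrArg (fun x => (-1) ^ dg m' * x) h1
      simp only [← mul_assoc, dud_sq, one_mul] at h3
      rw [← h3]
      split_ifs with h2
      · rw [h2]
      · rw [mul_zero])
  have e' := tc_ses hK hL (OC_mono Finset.sdiff_subset) H.flat (cls_cls hL H.flat H.b1 p1)
    (pJ := pj) (pJ' := pj) (fun _ => rfl) hξ dud_par h0 n1 (e.trans_ne n3)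
  rw [← e]
  exact e'

/-- Extend the data to `N` (`Adm.extend`, `Dual.congr`, `Dual.bock`, `t12_congr`, `t12_bock`).
By `cycle_eq` the cycle is `κ mu0`; `κ ≠ 0` and some value of `mu0` is nonzero because of the
pairing, so `κ ^ 5 = κ`. Apply `ses` with `a = κ⁻¹`. -/
theorem dd_not_pd (h : DD r N U dm inc δ) (ht : TV r (OC r N) δ) : ¬ PD r (OC r (N \ U)) := by
  rintro ⟨C, b1, b3, μ, ξ, H, D, h12⟩
  have G := h.gpB.2.2
  obtain ⟨C', b1', b3', hA, H'⟩ := H.extend G.cK G.cL G.sub G.eq1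
  obtain ⟨⟨g, hg⟩, n1, n3, hne⟩ := ht C' b1' b3' H'
  have hF := H'.flat.mono G.sub
  have D' : Dual r (OC r (N \ U)) C' b3' μ ξ :=
    (D.congr G.cK hA).bock G.cK hF (H.b3.congr G.cK hA) (H'.b3.mono G.sub)
  have e12 : t12 r (OC r (N \ U)) C' b1' ξ = 1 := by
    rw [t12_bock G.cK hF D' (H.b1.congr G.cK hA) (H'.b1.mono G.sub),
      ← t12_congr G.cK hA (ξ := ξ) (fun _ _ _ => rfl), h12]
  obtain ⟨κ, hκ⟩ := h.cycle_eq H'.flat hg D'.hom D'.cyc
  have hev : ∀ φ, ev (OC r (N \ U)) μ φ =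
      κ * ev (OC r (N \ U)) (mu0 r N U dm inc δ g C') φ := by
    intro φ
    unfold ev
    rw [Finset.mul_sum]
    exact Finset.sum_congr rfl fun σ hσ => by rw [hκ σ hσ, mul_assoc]
  have h1 := D'.pair 0 0
  rw [if_pos rfl] at h1
  obtain ⟨σ, hσ, h2⟩ := Finset.exists_ne_zero_of_sum_ne_zero (h1.trans_ne one_ne_zero)
  have h3 : μ σ ≠ 0 := left_ne_zero_of_mul h2
  have h4 := D'.rat σ
  rw [hκ σ hσ] at h3 h4
  rw [mul_pow, mu0_rat] at h4
  have h5 : κ ^ 5 = κ := mul_right_cancel₀ (right_ne_zero_of_mul h3) h4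
  have h6 : κ ≠ 0 := left_ne_zero_of_mul h3
  have h7 : κ ^ 4 = 1 := mul_right_cancel₀ h6 (by rw [← pow_succ, h5, one_mul])
  refine hne ?_
  rw [h.ses H' hg n1 n3 D'.deg D'.coc (a := κ⁻¹) ?_ fun m m' => ?_, e12, mul_one]
  · rw [inv_pow, show 8 = 4 * 2 from rfl, pow_mul, h7, one_pow, inv_one]
  · have h8 := D'.pair m m'
    rw [hev] at h8
    rw [← inv_mul_cancel_left₀ h6 (ev _ _ _), h8]
    split_ifs
    · rw [mul_one]
    · rw [mul_zero]

/-- `Adm.restrict`, `exists_theta` with `a m = (-1) ^ dg m`, `exists_prim`, `pair_dl`, `ses`. -/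
theorem dd_pd (h : DD r N U dm inc δ) (ht : EX r (OC r N) δ) : PD r (OC r (N \ U)) := by
  obtain ⟨C, b1, b3, H, ⟨g, hg⟩, n1, e13⟩ := ht
  have G := h.gpB.2.2
  have n3 : t3 r (OC r N) C b3 ≠ 0 := e13 ▸ n1
  obtain ⟨θ, Hθ, h0, hp⟩ := h.exists_theta H.flat hg H.b3 n3 fun m => (-1) ^ dg m
  rw [← dud_deg] at Hθ
  obtain ⟨ξ, hξ, hd⟩ := exists_prim G.cL (cls_cls G.cL H.flat H.b1 p1) n1 Hθ dud_ne
  have hc : ∀ m, ∀ σ ∈ OC r (N \ U), dl r zF (kj 1 C) (ξ m) σ = 0 := fun m σ hσ =>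
    (hd m σ (G.sub hσ)).trans (h0 m σ hσ)
  have hq : ∀ m m', ev (OC r (N \ U)) (mu0 r N U dm inc δ g C)
      (cup r zF (kj 1 C) (cls r 3 p3 C b3 m') (ξ m)) = if m = m' then 1 else 0 := by
    intro m m'
    have e : ev (OC r N) (nu r U dm inc δ g)
        (cup r zF (kj 1 C) (cls r 3 p3 C b3 m') (dl r zF (kj 1 C) (ξ m))) =
        ev (OC r N) (nu r U dm inc δ g) (cup r zF (kj 1 C) (cls r 3 p3 C b3 m') (θ m)) := by
      refine Finset.sum_congr rfl fun σ hσ => ?_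
      rw [cup_congr (G.cL.po σ hσ) (G.cL.tot σ hσ) (fun _ _ _ => rfl)
        (fun τ hτ hn => hd m τ (G.cL.down σ hσ τ hτ hn)) fun _ _ _ _ _ => rfl]
    rw [h.pair_dl H.flat hg H.b3 (hξ m).empty m', e, hp m m']
    split_ifs with h2
    · rw [h2, dud_sq]
    · rw [mul_zero]
  refine ⟨C, b1, b3, mu0 r N U dm inc δ g C, ξ, H.restrict G.cK G.cL G.sub G.eq1,
    ⟨h.mu0_hom, fun _ => mu0_rat, h.mu0_cyc H.flat hg, hξ, hc, hq⟩, ?_⟩
  have e := h.ses H hg n1 n3 hξ hc (one_pow 8) hq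
  rw [e13] at e
  exact mul_left_cancel₀ n3 (e.symm.trans (mul_one _).symm)

end Pool.Agent.Lib.MP_5ceaf9_gt
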