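import Pool.Agent.Lib.MP_5ceaf9_gt.DuA

/-! The pairing formula. -/

noncomputable section

namespace Pool.Agent.Lib.MP_5ceaf9_gt

open Classical Function

variable {α : Type} [DecidableEq α] [Nonempty α] {r : α → α → Prop} {N U : Finset α}
  {dm : α → ℕ} {inc : α → α → ℤ} {δ : α → α → ZMod 2} {C : α → α → Aff} {g : α → ZMod 2}
  {σ ρ : Finset α} {e f : α}

/-- Evaluation on a cell of the two-dimensional complex. -/
def evE (r : α → α → Prop) (U : Finset α) (dm : α → ℕ) (inc : α → α → ℤ) (C : α → α → Aff)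
    (η : Finset α → F25) (e : α) : F25 := ∑ σ ∈ OC r U, ph 3 (EV r dm inc C e σ) * η σ

/-- Evaluation on a cell of the five-dimensional complex. -/
def evS (r : α → α → Prop) (N U : Finset α) (dm : α → ℕ) (inc : α → α → ℤ) (δ : α → α → ZMod 2)
    (θ : Finset α → F25) (e : α) : F25 :=
  ∑ σ ∈ Rl r N U, (sd (dmN dm) (incN δ inc) e σ : F25) * θ σ

/-- The sign in the pairing formula. -/
def sE (dm : α → ℕ) (g : α → ZMod 2) (e : α) : ℤ := sg2 (g e) * (-1) ^ ((dm e + 1).choose 2)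

theorem dup_add (h : DD r N U dm inc δ) {a b d : α} (ha : a ∈ N) (hb : b ∈ N) (hd : d ∈ N)
    (hab : r a b) (hbd : r b d) : δ a b + δ b d = δ a d :=
  (flat_OC h.po).1 h.flat a ha b hb d hd hab hbd

/-- Induct on the number of elements below `v`. If `v` is the least element use `sd_single`.
Otherwise let `u` be the predecessor of `v` in `σ`, and use `sd_step` for `h.cN'` at `(u, v)`
and for `h.cU` at `(v, u)`. -/
theorem DD.sd_split (h : DD r N U dm inc δ) (hσ : σ ∈ OC r N) {v : α} (hv : v ∈ σ) (hU : v ∈ U) :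
    (if dm (bt r σ) = 0 then sd (dmN dm) (incN δ inc) (bt r σ) σ else 0) =
      sg2 (δ (bt r σ) v) * sd dm inc v (σ.filter (fun u => r u v)) *
        sd (dmN dm) (incN δ inc) v (σ.filter (fun u => r v u)) := by
  obtain ⟨hs, hn, ht⟩ := mem_OC.1 hσ
  have hp := h.po.mono hs
  obtain ⟨hb, hb'⟩ := bt_spec hp ht hn
  induction hk : (σ.filter (fun u => r u v)).card using Nat.strong_induction_on
    generalizing v with
  | _ k ih =>
  by_cases hbv : bt r σ = v
  · have e1 : σ.filter (fun u => r u v) = {v} := by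
      ext u
      rw [Finset.mem_filter, Finset.mem_singleton]
      exact ⟨fun h1 => hp.anti u h1.1 v hv h1.2 (hbv ▸ hb' u h1.1),
        fun h1 => h1 ▸ ⟨h1 ▸ hv, hp.refl _ (h1 ▸ hv)⟩⟩
    have e2 : σ.filter (fun u => r v u) = σ := Finset.filter_true_of_mem (hbv ▸ hb')
    have e3 : δ v v = 0 :=
      add_eq_left.1 (dup_add h (hs hv) (hs hv) (hs hv) (hp.refl v hv) (hp.refl v hv))
    rw [e1, e2, hbv, e3, sd_single h.cU hU]
    simp [sg2]
  · have hτ : (σ.filter (fun u => r u v)).erase v ⊆ σ :=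
      (Finset.erase_subset _ _).trans (Finset.filter_subset _ _)
    obtain ⟨hu, hu'⟩ := bt_spec (hp.mono hτ).swap
      (fun a ha b hb => (ht a (hτ ha) b (hτ hb)).symm)
      ⟨bt r σ, Finset.mem_erase.2 ⟨hbv, Finset.mem_filter.2 ⟨hb, hb' v hv⟩⟩⟩
    generalize bt (swap r) ((σ.filter (fun u => r u v)).erase v) = u at hu hu'
    have huσ := hτ hu
    obtain ⟨hne, huv⟩ := Finset.mem_erase.1 hu
    have huv := (Finset.mem_filter.1 huv).2
    have hvv : v ∈ σ.filter (fun u => r u v) := Finset.mem_filter.2 ⟨hv, hp.refl v hv⟩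
    have e1 : σ.filter (fun w => r w u) = (σ.filter (fun u => r u v)).erase v := by
      ext w
      refine ⟨fun h1 => ?_, fun h1 => Finset.mem_filter.2 ⟨hτ h1, hu' w h1⟩⟩
      obtain ⟨h1, h2⟩ := Finset.mem_filter.1 h1
      refine Finset.mem_erase.2 ⟨fun h3 => hne ?_,
        Finset.mem_filter.2 ⟨h1, hp.trans w h1 u huσ v hv h2 huv⟩⟩
      exact hp.anti u huσ v hv huv (h3 ▸ h2)
    have e2 : (σ.filter (fun w => r u w)).erase u = σ.filter (fun w => r v w) := by
      ext w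
      rw [Finset.mem_erase, Finset.mem_filter, Finset.mem_filter]
      constructor
      · rintro ⟨h1, h2, h3⟩
        refine ⟨h2, (ht v hv w h2).elim id fun h4 => ?_⟩
        by_cases h5 : w = v
        · exact h5 ▸ hp.refl w h2
        · exact absurd (hp.anti w h2 u huσ
            (hu' w (Finset.mem_erase.2 ⟨h5, Finset.mem_filter.2 ⟨h2, h4⟩⟩)) h3) h1
      · rintro ⟨h1, h2⟩
        exact ⟨fun h3 => hne (hp.anti u huσ v hv huv (h3 ▸ h2)), h1,
          hp.trans u huσ v hv w h1 huv h2⟩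
    have i1 := ih _ (by rw [e1, ← hk]; exact Finset.card_erase_lt_of_mem hvv) huσ
      (h.down v hU u (hs huσ) huv) rfl
    have s1 := sd_step h.cN' (σ := σ.filter (fun w => r u w)) (e := u) (f := v)
      ((Finset.filter_subset _ _).trans hs) (Finset.mem_filter.2 ⟨huσ, hp.refl u huσ⟩)
      (by rw [e2]; exact Finset.mem_filter.2 ⟨hv, hp.refl v hv⟩)
      (by rw [e2]; exact fun w hw => (Finset.mem_filter.1 hw).2)
    have s2 := sd_step h.cU (σ := σ.filter (fun w => r w v)) (e := v) (f := u)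
      (fun w hw => h.down v hU w (hs (Finset.mem_filter.1 hw).1) (Finset.mem_filter.1 hw).2)
      hvv hu hu'
    rw [i1, s1, s2, e1, e2, ← dup_add h (hs hb) (hs huσ) (hs hv) (hb' u huσ) huv, sg2_add, incN]
    ring

/-- Chains through `v` are pairs of a chain with top `v` and a chain with bottom `v`. -/
theorem sum_split (hp : POn r N) {v : α} (hv : v ∈ N) {A : Type} [AddCommMonoid A]
    (F : Finset α → Finset α → A) :
    ∑ σ ∈ (OC r N).filter (fun σ => v ∈ σ),
        F (σ.filter (fun u => r u v)) (σ.filter (fun u => r v u)) =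
      ∑ a ∈ (OC r N).filter (fun a => v ∈ a ∧ ∀ u ∈ a, r u v),
        ∑ b ∈ (OC r N).filter (fun b => v ∈ b ∧ ∀ u ∈ b, r v u), F a b := by
  rw [← Finset.sum_product']
  have k : ∀ q ∈ (OC r N).filter (fun a => v ∈ a ∧ ∀ u ∈ a, r u v) ×ˢ
      (OC r N).filter (fun b => v ∈ b ∧ ∀ u ∈ b, r v u),
      (q.1 ∪ q.2).filter (fun u => r u v) = q.1 ∧ (q.1 ∪ q.2).filter (fun u => r v u) = q.2 := by
    rintro ⟨a, b⟩ hq
    simp only [Finset.mem_product, Finset.mem_filter, mem_OC] at hq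
    obtain ⟨⟨⟨a1, -, -⟩, a2, a3⟩, ⟨b1, -, -⟩, b2, b3⟩ := hq
    constructor
    · ext u
      rw [Finset.mem_filter, Finset.mem_union]
      refine ⟨fun h => h.1.elim id fun h1 => ?_, fun h => ⟨Or.inl h, a3 u h⟩⟩
      rwa [hp.anti u (b1 h1) v hv h.2 (b3 u h1)]
    · ext u
      rw [Finset.mem_filter, Finset.mem_union]
      refine ⟨fun h => h.1.elim (fun h1 => ?_) id, fun h => ⟨Or.inr h, b3 u h⟩⟩
      rwa [hp.anti u (a1 h1) v hv (a3 u h1) h.2]
  refine Finset.sum_nbij' (fun σ => (σ.filter (fun u => r u v), σ.filter (fun u => r v u)))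
    (fun q => q.1 ∪ q.2) (fun σ hσ => ?_) (fun q hq => ?_) (fun σ hσ => ?_)
    (fun q hq => Prod.ext (k q hq).1 (k q hq).2) fun _ _ => rfl
  · obtain ⟨h1, h2⟩ := Finset.mem_filter.1 hσ
    have m1 : v ∈ σ.filter (fun u => r u v) := Finset.mem_filter.2 ⟨h2, hp.refl v hv⟩
    have m2 : v ∈ σ.filter (fun u => r v u) := Finset.mem_filter.2 ⟨h2, hp.refl v hv⟩
    exact Finset.mem_product.2 ⟨Finset.mem_filter.2
      ⟨(cx_OC hp).down σ h1 _ (Finset.filter_subset _ _) ⟨v, m1⟩, m1,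
        fun u hu => (Finset.mem_filter.1 hu).2⟩, Finset.mem_filter.2
      ⟨(cx_OC hp).down σ h1 _ (Finset.filter_subset _ _) ⟨v, m2⟩, m2,
        fun u hu => (Finset.mem_filter.1 hu).2⟩⟩
  · obtain ⟨a, b⟩ := q
    simp only [Finset.mem_product, Finset.mem_filter, mem_OC] at hq
    obtain ⟨⟨⟨a1, -, a4⟩, a2, a3⟩, ⟨b1, -, b4⟩, b2, b3⟩ := hq
    have m : v ∈ a ∪ b := Finset.mem_union_left _ a2
    refine Finset.mem_filter.2 ⟨mem_OC.2 ⟨Finset.union_subset a1 b1, ⟨v, m⟩,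
      fun x hx y hy => ?_⟩, m⟩
    rcases Finset.mem_union.1 hx with hx | hx <;> rcases Finset.mem_union.1 hy with hy | hy
    · exact a4 x hx y hy
    · exact Or.inl (hp.trans x (a1 hx) v hv y (b1 hy) (a3 x hx) (b3 y hy))
    · exact Or.inr (hp.trans y (a1 hy) v hv x (b1 hx) (a3 y hy) (b3 x hx))
    · exact b4 x hx y hy
  · obtain ⟨h1, h2⟩ := Finset.mem_filter.1 hσ
    rw [← Finset.filter_or]
    exact Finset.filter_true_of_mem fun u hu => (mem_OC.1 h1).2.2 u hu v h2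

/-- The factor that depends on the front face. -/
def dup_A (r : α → α → Prop) (dm : α → ℕ) (inc : α → α → ℤ) (δ : α → α → ZMod 2)
    (C : α → α → Aff) (g : α → ZMod 2) (η : Finset α → F25) (v : α) (a : Finset α) : F25 :=
  ((sg2 (g (bt r a)) * sg2 (δ (bt r a) v) * sd dm inc v a : ℤ) : F25) * η a *
    pw zF (kj 1 C (bt r a) v)

theorem dup_front (h : DD r N U dm inc δ) (hg : GG r N C δ g) (η : Finset α → F25) {v : α}
    (hv : v ∈ U) :
    ∑ a ∈ (OC r N).filter (fun a => v ∈ a ∧ ∀ u ∈ a, r u v), dup_A r dm inc δ C g η v a =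
      (sE dm g v : F25) * evE r U dm inc C η v := by
  rw [evE, Finset.mul_sum]
  refine Finset.sum_subset_zero_on_sdiff (fun a ha => ?_) (fun a ha => ?_) fun a ha => ?_
  · obtain ⟨h1, -, h3⟩ := Finset.mem_filter.1 ha
    obtain ⟨h4, h5⟩ := mem_OC.1 h1
    exact mem_OC.2 ⟨fun u hu => h.down v hv u (h4 hu) (h3 u hu), h5⟩
  · obtain ⟨h1, h2⟩ := Finset.mem_sdiff.1 ha
    have h3 : sd dm inc v a = 0 := by
      by_contra h3
      obtain ⟨h4, h5, -⟩ := sd_ne h.cU hv (mem_OC.1 h1).1 h3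
      exact h2 (Finset.mem_filter.2 ⟨OC_mono h.sub h1, h4, h5⟩)
    rw [EV, ph_single, h3]
    simp
  · obtain ⟨h1, h2, h3⟩ := Finset.mem_filter.1 ha
    obtain ⟨h4, h5, h6⟩ := mem_OC.1 h1
    rw [EV, ph_single, dup_A]
    by_cases h0 : sd dm inc v a = 0
    · rw [h0]
      simp
    have hc := (sd_ne h.cU hv (fun u hu => h.down v hv u (h4 hu) (h3 u hu)) h0).2.2.2
    obtain ⟨hb, -⟩ := bt_spec (h.po.mono h4) h6 h5
    have e1 := (agree_OC h.po).1 hg _ (h4 hb) v (h.sub hv) (h3 _ hb)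
    have e2 : kj 1 C (bt r a) v = 4 * (C (bt r a) v).k + 3 * (C (bt r a) v)⁻¹.k := by
      rw [kj, Aff.inv_k]
      ring
    have e3 : ∀ x, (sg2 x : F25) * (sg2 x : F25) = 1 := fun x => by
      rw [← Int.cast_mul, sg2_mul_self, Int.cast_one]
    have e4 : ((-1 : F25) ^ (dm v + 1).choose 2) * (-1) ^ (dm v + 1).choose 2 = 1 := by
      rw [← mul_pow]
      simp
    rw [e2, pw_add zF8, pw_four, e1, sg2_add, sg2_add, sE, eps, hc]
    push_cast
    generalize pw zF (3 * (C (bt r a) v)⁻¹.k) = P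
    generalize ((-1 : F25) ^ (dm v + 1).choose 2) = E at e4
    have a1 := e3 (g (bt r a))
    have a2 := e3 (δ (bt r a) v)
    generalize (sg2 (g (bt r a)) : F25) = X at a1
    generalize (sg2 (δ (bt r a) v) : F25) = Y at a2
    generalize (sg2 (g v) : F25) = Z
    generalize (sd dm inc v a : F25) = S
    linear_combination (Y * Y * a1 + a2 - e4) * (S * η a * Z * P)

theorem dup_back (h : DD r N U dm inc δ) (θ : Finset α → F25) {v : α} (hv : v ∈ U) :
    ∑ b ∈ (OC r N).filter (fun b => v ∈ b ∧ ∀ u ∈ b, r v u),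
      (sd (dmN dm) (incN δ inc) v b : F25) * θ b = evS r N U dm inc δ θ v := by
  refine Finset.sum_subset (fun b hb => ?_) fun b hb hn => ?_
  · obtain ⟨h1, h2, -⟩ := Finset.mem_filter.1 hb
    exact Finset.mem_sdiff.2 ⟨h1, fun h3 => (Finset.mem_sdiff.1 ((mem_OC.1 h3).1 h2)).2 hv⟩
  · have h1 := (Finset.mem_sdiff.1 hb).1
    have h3 : sd (dmN dm) (incN δ inc) v b = 0 := by
      by_contra h3
      obtain ⟨h4, h5, -⟩ := sd_ne h.cN' (h.sub hv) (mem_OC.1 h1).1 h3
      exact hn (Finset.mem_filter.2 ⟨h1, h4, h5⟩)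
    rw [h3, Int.cast_zero, zero_mul]

/-- Exchange the sums over `σ` and the cut point `v`. For `v ∉ U` the back face lies in the
boundary. For `v ∈ U` use `sd_split`, `sum_split`, `sd_ne` (twice) and
`pw k = pw (4 k) * pw (3 * -k)`. -/
theorem DD.pairing (h : DD r N U dm inc δ) (hC : Flat r (OC r N) C) (hg : GG r N C δ g)
    (η : Finset α → F25) {θ : Finset α → F25} (hθ : ∀ σ ∈ OC r (N \ U), θ σ = 0) :
    ev (OC r N) (nu r U dm inc δ g) (cup r zF (kj 1 C) η θ) =
      ∑ e ∈ U, (sE dm g e : F25) * evE r U dm inc C η e * evS r N U dm inc δ θ e := by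
  have _ := hC
  have e1 : ev (OC r N) (nu r U dm inc δ g) (cup r zF (kj 1 C) η θ) =
      ∑ v ∈ N, ∑ σ ∈ (OC r N).filter (fun σ => v ∈ σ), nu r U dm inc δ g σ *
        (η (σ.filter (fun u => r u v)) * pw zF (kj 1 C (bt r σ) v) *
          θ (σ.filter (fun u => r v u))) := by
    simp only [ev, cup, Finset.mul_sum]
    refine Finset.sum_comm' fun σ v => ?_
    rw [Finset.mem_filter]
    exact ⟨fun h1 => ⟨h1, (mem_OC.1 h1.1).1 h1.2⟩, fun h1 => h1.1⟩
  rw [e1]
  symm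
  refine Finset.sum_subset_zero_on_sdiff h.sub (fun v hv => ?_) fun v hv => ?_
  · refine Finset.sum_eq_zero fun σ hσ => ?_
    obtain ⟨h1, h2⟩ := Finset.mem_filter.1 hσ
    obtain ⟨h3, -, h4⟩ := mem_OC.1 h1
    rw [hθ _ (mem_OC.2 ⟨fun u hu => h.up v hv u (h3 (Finset.mem_filter.1 hu).1)
      (Finset.mem_filter.1 hu).2, ⟨v, Finset.mem_filter.2 ⟨h2, h.po.refl v (h3 h2)⟩⟩,
      fun a ha b hb => h4 a (Finset.mem_filter.1 ha).1 b (Finset.mem_filter.1 hb).1⟩),
      mul_zero, mul_zero]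
  · rw [← dup_front h hg η hv, ← dup_back h θ hv, Finset.sum_mul_sum,
      ← sum_split h.po (h.sub hv) (fun a b => dup_A r dm inc δ C g η v a *
        ((sd (dmN dm) (incN δ inc) v b : F25) * θ b))]
    refine Finset.sum_congr rfl fun σ hσ => ?_
    obtain ⟨h1, h2⟩ := Finset.mem_filter.1 hσ
    obtain ⟨h3, h5, h4⟩ := mem_OC.1 h1
    obtain ⟨hb, hb'⟩ := bt_spec (h.po.mono h3) h4 h5
    have e2 : bt r (σ.filter (fun u => r u v)) = bt r σ :=
      bt_eq (h.po.mono ((Finset.filter_subset _ _).trans h3))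
        (Finset.mem_filter.2 ⟨hb, hb' v h2⟩) fun u hu => hb' u (Finset.mem_filter.1 hu).1
    have e3 : nu r U dm inc δ g σ = ((sg2 (g (bt r σ)) * (if dm (bt r σ) = 0 then
        sd (dmN dm) (incN δ inc) (bt r σ) σ else 0) : ℤ) : F25) := by
      rw [nu]
      by_cases h0 : dm (bt r σ) = 0
      · rw [if_pos ⟨h.down v hv _ (h3 hb) (hb' v h2), h0⟩, if_pos h0]
      · rw [if_neg fun h6 => h0 h6.2, if_neg h0, mul_zero, Int.cast_zero]
    rw [e3, h.sd_split h1 h2 hv, dup_A, e2]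
    push_cast
    ring

end Pool.Agent.Lib.MP_5ceaf9_gt
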