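import Pool.Agent.Lib.MP_5ceaf9_gt.DuP

/-! The short exact sequence of a pair of complexes. -/

noncomputable section

namespace Pool.Agent.Lib.MP_5ceaf9_gt

open Classical Function

variable {α : Type} [DecidableEq α] [Nonempty α] {r : α → α → Prop} {K L : Finset (Finset α)}
  {C : α → α → Aff} {J J' : Type} [Fintype J] [DecidableEq J] [Fintype J'] [DecidableEq J']
  {j : ZMod 8} {pJ : J → Bool} {pJ' : J' → Bool} {n : J → ℕ} {n' : J' → ℕ}
  {h : J → Finset α → F25} {ξ : J' → Finset α → F25}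

omit [Nonempty α] in
theorem dus_sum {F : Finset α → F25} (h0 : ∀ σ ∈ K, F σ = 0) :
    ∑ ρ : ↥(L \ K), F ρ.1 = ∑ ρ ∈ L, F ρ := by
  rw [Finset.sum_coe_sort (L \ K) F]
  exact Finset.sum_subset Finset.sdiff_subset fun ρ h1 h2 =>
    h0 ρ (by_contra fun k => h2 (Finset.mem_sdiff.2 ⟨h1, k⟩))

omit [Fintype J] [DecidableEq J] in
theorem dus_mul (hL : Cx r L) (h0 : ∀ m, h m ∅ = 0) :
    rs L L (DF r j C) * cm L h = cm L (fun m => dl r zF (kj j C) (h m)) := by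
  ext1 x m
  rw [Matrix.mul_apply]
  exact (Finset.sum_coe_sort L fun ρ => DF r j C x.1 ρ * h m ρ).trans (sum_DF hL x.2 j (h0 m))

omit [DecidableEq α] [Nonempty α] in
theorem dus_ps {σ : Finset α} {k : ℕ} (h : σ.card = k + 1) : ps σ = decide (k % 2 = 1) := by
  rw [ps, h, decide_eq_decide]
  omega

theorem dus_blk (q : ↥L → Prop) [DecidablePred q] (hq : ∀ x, x ∈ K ↔ ∃ hx : x ∈ L, q ⟨x, hx⟩)
    (h : J → Finset α → F25) :
    tc r K j C pJ h = tor (cpar (fun x : {x // q x} => ps x.1.1) pJ)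
      (cone (blk (rs L L (DF r j C)) q) 0 (Matrix.of fun (x : {x // q x}) m => h m x.1.1)) := by
  let e : ↥K ≃ {x // q x} :=
    { toFun := fun y => ⟨⟨y.1, ((hq y.1).1 y.2).1⟩, ((hq y.1).1 y.2).2⟩
      invFun := fun x => ⟨x.1.1, (hq x.1.1).2 ⟨x.1.2, x.2⟩⟩
      left_inv := fun _ => rfl
      right_inv := fun _ => rfl }
  rw [← tor_reindex_any _ _ (e.sumCongr (Equiv.refl J)), tc]
  refine congrArg₂ tor ?_ ?_
  · funext x
    rcases x with x | x <;> rfl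
  · ext1 x y
    rcases x with x | x <;> rcases y with y | y <;> rfl

theorem ctr_of_tor {ι F : Type} [Field F] [Fintype ι] [DecidableEq ι] {p : ι → Bool}
    {d : Matrix ι ι F} (h : tor p d ≠ 0) : Ctr d := by
  exact by_contra fun hc => h (dif_neg fun ⟨_, s, _, _, h, _⟩ => hc ⟨s, h⟩)

theorem gr_DF (X Y : Finset (Finset α)) :
    Gr (fun x : ↥X => (x.1.card : ℤ) - 1) (fun x : ↥Y => (x.1.card : ℤ) - 1) 1
      (rs X Y (DF r j C)) := by
  intro x y hxy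
  refine gr_DG (r := r) (c := C) X Y x y fun h0 => hxy ?_
  exact (congrArg (ph j) h0).trans (map_zero _)

/-- Classes that vanish on a subcomplex are relative classes. -/
theorem Cls.isCM_rel (hK : Cx r K) (hL : Cx r L) (hKL : K ⊆ L) (hC : Flat r L C)
    (H : Cls r L j C n h) (h0 : ∀ m, ∀ σ ∈ K, h m σ = 0)
    (hp : ∀ m, pJ m = decide (n m % 2 = 1)) :
    CM (fun x : ↥(L \ K) => ps x.1) pJ (rs (L \ K) (L \ K) (DF r j C)) 0 (cm (L \ K) h) := by
  refine ⟨?_, ⟨Matrix.mul_zero _, fun _ _ k => absurd rfl k⟩, fun x m k => ?_, ?_⟩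
  · rw [rs_DF]
    exact (dm_DG hK hL hC).map _
  · rw [hp]
    exact dus_ps (H.card m x.1 (Finset.mem_sdiff.1 x.2).1 k)
  · ext1 x m
    have hx := (Finset.mem_sdiff.1 x.2).1
    rw [Matrix.mul_zero, Matrix.mul_apply]
    exact ((dus_sum (F := fun ρ => DF r j C x.1 ρ * h m ρ) fun σ k => by
      rw [h0 m σ k, mul_zero]).trans (sum_DF hL hx j (H.empty m))).trans (H.coc m _ hx)

/-- The converse: a graded matrix of relative cocycles, extended by zero. -/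
theorem cls_of_rel (hK : Cx r K) (hL : Cx r L) (hKL : K ⊆ L) {x : Matrix ↥(L \ K) J F25}
    (hx : rs (L \ K) (L \ K) (DF r j C) * x = 0)
    (gx : Gr (fun x : ↥(L \ K) => (x.1.card : ℤ) - 1) (fun m => (n m : ℤ)) 0 x) :
    ∃ θ : J → Finset α → F25, Cls r L j C n θ ∧ (∀ m, ∀ σ ∈ K, θ m σ = 0) ∧
      cm (L \ K) θ = x := by
  let θ : J → Finset α → F25 := fun m σ => if k : σ ∈ L \ K then x ⟨σ, k⟩ m else 0
  have h1 : ∀ m, ∀ σ ∈ K, θ m σ = 0 := fun m σ k => dif_neg fun k' => (Finset.mem_sdiff.1 k').2 k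
  have h2 : ∀ m, θ m ∅ = 0 := fun m =>
    dif_neg fun k => Finset.not_nonempty_empty (hL.ne _ (Finset.mem_sdiff.1 k).1)
  have h3 : cm (L \ K) θ = x := by
    ext1 σ m
    exact dif_pos σ.2
  refine ⟨θ, ⟨h2, fun m σ _ k => ?_, fun m σ hσ => ?_⟩, h1, h3⟩
  · have k1 : σ ∈ L \ K := by_contra fun k1 => k (dif_neg k1)
    have := gx ⟨σ, k1⟩ m fun k2 => k ((dif_pos k1).trans k2)
    simp only at this
    omega
  · by_cases k : σ ∈ K
    · rw [← sum_DF hK k j (h2 m)]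
      exact Finset.sum_eq_zero fun ρ hρ => by rw [h1 m ρ hρ, mul_zero]
    · have := congrFun (congrFun hx ⟨σ, Finset.mem_sdiff.2 ⟨hσ, k⟩⟩) m
      rw [← h3, Matrix.mul_apply] at this
      rw [← sum_DF hL hσ j (h2 m), ← dus_sum (K := K) (F := fun ρ => DF r j C σ ρ * θ m ρ)
        fun ρ hρ => by rw [h1 m ρ hρ, mul_zero]]
      exact this

theorem cls_dl (hL : Cx r L) (hC : Flat r L C) (hξ : ∀ m, Hom (n' m) (ξ m)) :
    Cls r L j C (fun m => n' m + 1) (fun m => dl r zF (kj j C) (ξ m)) := by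
  exact ⟨fun _ => dl_empty, fun m σ _ k => (hξ m).dl_hom σ k, fun m σ hσ =>
    dl_dl zF8 (hL.po σ hσ) (hL.tot σ hσ) (hC.kf hL hσ j) (hξ m).empty⟩

/-- `tor_cls_ses` with `q x = x ∉ K`, and `tor_reindex_any`. -/
theorem tc_ses (hK : Cx r K) (hL : Cx r L) (hKL : K ⊆ L) (hC : Flat r L C)
    (H : Cls r L j C n h) (hp : ∀ m, pJ m = decide (n m % 2 = 1))
    (hξ : ∀ m, Hom (n' m) (ξ m)) (hp' : ∀ m, pJ' m = decide (n' m % 2 = 1))
    (h0 : ∀ m, ∀ σ ∈ K, dl r zF (kj j C) (ξ m) σ = 0) (t0 : tc r L j C pJ h ≠ 0)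
    (t1 : tc r (L \ K) j C (fun m => !pJ' m) (fun m => dl r zF (kj j C) (ξ m)) ≠ 0) :
    tc r L j C pJ h =
      tc r (L \ K) j C (fun m => !pJ' m) (fun m => dl r zF (kj j C) (ξ m)) *
        tc r K j C (Sum.elim pJ pJ') (Sum.elim h ξ) := by
  have hq : Sub (rs L L (DF r j C)) (fun x => x.1 ∉ K) := fun x y k =>
    sub_DG (c := C) hK hL.ne x y fun k0 => k ((congrArg (ph j) k0).trans (map_zero _))
  have e := dus_mul (j := j) (C := C) hL fun m => (hξ m).empty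
  have q1 : ∀ x, x ∈ L \ K ↔ ∃ hx : x ∈ L, (⟨x, hx⟩ : ↥L).1 ∉ K := fun x =>
    Finset.mem_sdiff.trans exists_prop.symm
  have q2 : ∀ x, x ∈ K ↔ ∃ hx : x ∈ L, ¬ (⟨x, hx⟩ : ↥L).1 ∉ K := fun x =>
    ⟨fun k => ⟨hKL k, not_not.2 k⟩, fun k => not_not.1 k.2⟩
  rw [dus_blk (fun x : ↥L => x.1 ∉ K) q1] at t1 ⊢
  rw [dus_blk (fun x : ↥L => ¬ x.1 ∉ K) q2]
  have := tor_cls_ses hq (ξ := cm L ξ) (pJ' := pJ') (H.isCM hL hC hp)
    (fun x m k => by rw [hp']; exact dus_ps (hξ m x.1 k))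
    (fun x m k => by rw [e]; exact h0 m x.1 (not_not.1 k)) (ctr_of_tor t0)
    (by rw [e]; exact ctr_of_tor t1)
  rw [e] at this
  refine this.trans (congrArg₂ _ rfl (congrArg (tor _) (congrArg (cone _ _) ?_)))
  ext1 x m
  rcases m with m | m <;> rfl

/-- `cob_of_degree`. -/
theorem exists_prim (hL : Cx r L) (H : Cls r L j C n h) (t0 : tc r L j C pJ h ≠ 0)
    {θ : J' → Finset α → F25} (Hθ : Cls r L j C (fun m => n' m + 1) θ)
    (hne : ∀ m m', n m ≠ n' m' + 1) :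
    ∃ ξ : J' → Finset α → F25, (∀ m, Hom (n' m) (ξ m)) ∧
      ∀ m, ∀ σ ∈ L, dl r zF (kj j C) (ξ m) σ = θ m σ := by
  obtain ⟨y, gy, hy⟩ := cob_of_degree (ctr_of_tor t0) (gr_DF L L) H.gr (z := cm L θ)
    (by
      rw [dus_mul hL Hθ.empty]
      ext1 x m
      exact Hθ.coc m x.1 x.2) Hθ.gr fun m m' k => hne m m' (by exact_mod_cast k)
  let ξ : J' → Finset α → F25 := fun m σ => if k : σ ∈ L then y ⟨σ, k⟩ m else 0
  have h1 : ∀ m, Hom (n' m) (ξ m) := fun m σ k => by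
    have k1 : σ ∈ L := by_contra fun k1 => k (dif_neg k1)
    have := gy ⟨σ, k1⟩ m fun k2 => k ((dif_pos k1).trans k2)
    simp only at this
    omega
  have h3 : cm L ξ = y := by
    ext1 σ m
    exact dif_pos σ.2
  rw [← h3, dus_mul hL fun m => (h1 m).empty] at hy
  exact ⟨ξ, h1, fun m σ hσ => (congrFun (congrFun hy ⟨σ, hσ⟩) m).symm⟩

end Pool.Agent.Lib.MP_5ceaf9_gt
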