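import Pool.Agent.Lib.MP_5ceaf9_gt.SxF

/-! Fibre lemmas for inclusions of posets. -/

noncomputable section

namespace Pool.Agent.Lib.MP_5ceaf9_gt

open Classical Function

variable {α β : Type} [DecidableEq α] [DecidableEq β] [Nonempty α] [Nonempty β]
  {r : α → α → Prop} {r' : β → β → Prop} {l : ℕ}

variable {P Q : Finset α}

omit [DecidableEq α] [Nonempty α] in
theorem sxh_min {S : Finset α} (hp : POn r S) (hS : S.Nonempty) :
    ∃ y ∈ S, ∀ x ∈ S, r x y → x = y := by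
  obtain ⟨y, hy, h⟩ := S.exists_min_image (fun y => (S.filter (fun x => r x y)).card) hS
  refine ⟨y, hy, fun x hx hxy => ?_⟩
  have h1 : S.filter (fun z => r z x) ⊆ S.filter (fun z => r z y) := fun z hz => by
    rw [Finset.mem_filter] at hz ⊢
    exact ⟨hz.1, hp.trans z hz.1 x hx y hy hz.2 hxy⟩
  have h2 : y ∈ S.filter (fun z => r z x) := by
    rw [Finset.eq_of_subset_of_card_le h1 (h x hx)]
    exact Finset.mem_filter.2 ⟨hy, hp.refl y hy⟩
  exact hp.anti x hx y hy hxy (Finset.mem_filter.1 h2).2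

theorem sxh_erase (hp : POn r P) {y : α} (hy : y ∈ P)
    (h : CT r l ((P.erase y).filter (fun x => r x y))) : GP r l (P.erase y) P := by
  have := gp_add (Finset.notMem_erase y P) (by rwa [Finset.insert_erase hy]) h
  rwa [Finset.insert_erase hy] at this

/-- Add the elements of `P` outside `Q` from the top down. -/
theorem gp_of_lower (hp : POn r P) (hQ : Q ⊆ P)
    (h : ∀ y ∈ P, y ∉ Q → CT r l (Q.filter (fun x => r x y))) : GP r l Q P := by
  induction P using Finset.strongInduction with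
  | H P ih =>
  rcases (P \ Q).eq_empty_or_nonempty with e | e
  · rw [← Finset.Subset.antisymm (Finset.sdiff_eq_empty_iff_subset.1 e) hQ]
    exact GP.refl hp
  obtain ⟨y, hy, hm⟩ := sxh_min (hp.mono Finset.sdiff_subset) e
  obtain ⟨hy, hy'⟩ := Finset.mem_sdiff.1 hy
  have hQ' : Q ⊆ P.erase y := Finset.subset_erase.2 ⟨hQ, hy'⟩
  refine (ih _ (Finset.erase_ssubset hy) (hp.mono (P.erase_subset y)) hQ'
    fun z hz => h z (P.erase_subset y hz)).trans (sxh_erase hp hy ?_)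
  convert h y hy hy' using 1
  ext x
  simp only [Finset.mem_filter]
  refine and_congr_left fun hx => ⟨fun h1 => ?_, fun h1 => hQ' h1⟩
  by_contra h2
  exact (Finset.mem_erase.1 h1).1 (hm x (Finset.mem_sdiff.2 ⟨P.erase_subset y h1, h2⟩) hx)

theorem gp_of_upper (hp : POn r P) (hQ : Q ⊆ P)
    (h : ∀ y ∈ P, y ∉ Q → CT r l (Q.filter (fun x => r y x))) : GP r l Q P := by
  exact (gp_of_lower (r := swap r) hp.swap hQ fun y hy hy' => (h y hy hy').swap).swap

/-- Add the elements of `P` outside `Q` from the bottom up. -/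
theorem gp_of_lower_link (hp : POn r P) (hQ : Q ⊆ P)
    (h : ∀ y ∈ P, y ∉ Q → CT r l (P.filter (fun x => r x y ∧ x ≠ y))) : GP r l Q P := by
  induction P using Finset.strongInduction with
  | H P ih =>
  rcases (P \ Q).eq_empty_or_nonempty with e | e
  · rw [← Finset.Subset.antisymm (Finset.sdiff_eq_empty_iff_subset.1 e) hQ]
    exact GP.refl hp
  obtain ⟨y, hy, hm⟩ := sxh_min (hp.mono Finset.sdiff_subset).swap e
  obtain ⟨hy, hy'⟩ := Finset.mem_sdiff.1 hy
  refine (ih _ (Finset.erase_ssubset hy) (hp.mono (P.erase_subset y))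
    (Finset.subset_erase.2 ⟨hQ, hy'⟩) fun z hz hz' => ?_).trans (sxh_erase hp hy ?_)
  · obtain ⟨h1, h2⟩ := Finset.mem_erase.1 hz
    convert h z h2 hz' using 1
    ext x
    simp only [Finset.mem_filter, Finset.mem_erase]
    refine and_congr_left fun hx => and_iff_right ?_
    rintro rfl
    exact h1 (hm z (Finset.mem_sdiff.2 ⟨h2, hz'⟩) hx.1)
  · convert h y hy hy' using 1
    ext x
    simp only [Finset.mem_filter, Finset.mem_erase]
    tauto

theorem gp_of_upper_link (hp : POn r P) (hQ : Q ⊆ P)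
    (h : ∀ y ∈ P, y ∉ Q → CT r l (P.filter (fun x => r y x ∧ x ≠ y))) : GP r l Q P := by
  exact (gp_of_lower_link (r := swap r) hp.swap hQ fun y hy hy' => (h y hy hy').swap).swap

theorem sxh_bot (hp : POn r P) {m : α} (hm : m ∈ P) (h : ∀ a ∈ P, r m a) : GP r l {m} P := by
  refine gp_of_lower hp (Finset.singleton_subset_iff.2 hm) fun y hy _ => ?_
  rw [Finset.filter_true_of_mem fun x hx => by rw [Finset.mem_singleton.1 hx]; exact h y hy]
  exact ct_single (h m hm)

theorem sxh_top (hp : POn r P) {m : α} (hm : m ∈ P) (h : ∀ a ∈ P, r a m) : GP r l {m} P :=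
  (sxh_bot (r := swap r) hp.swap hm h).swap

theorem ct_top (hp : POn r P) {m : α} (hm : m ∈ P) (h : ∀ a ∈ P, r a m) : CT r l P := by
  exact ⟨m, hm, sxh_top hp hm h⟩

theorem ct_bot (hp : POn r P) {m : α} (hm : m ∈ P) (h : ∀ a ∈ P, r m a) : CT r l P := by
  exact ⟨m, hm, sxh_bot hp hm h⟩

/-- A monotone retraction below the identity. -/
theorem gp_retr_le (hp : POn r P) (hQ : Q ⊆ P) {ρ : α → α} (h1 : ∀ a ∈ P, ρ a ∈ Q)
    (h2 : ∀ a ∈ Q, ρ a = a) (h3 : ∀ a ∈ P, ∀ b ∈ P, r a b → r (ρ a) (ρ b))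
    (h4 : ∀ a ∈ P, r (ρ a) a) : GP r l Q P := by
  refine gp_of_lower hp hQ fun y hy _ => ct_top (hp.mono ((Finset.filter_subset _ _).trans hQ))
    (Finset.mem_filter.2 ⟨h1 y hy, h4 y hy⟩) fun a ha => ?_
  obtain ⟨h5, h6⟩ := Finset.mem_filter.1 ha
  have := h3 a (hQ h5) y hy h6
  rwa [h2 a h5] at this

/-- A monotone retraction above the identity. -/
theorem gp_retr_ge (hp : POn r P) (hQ : Q ⊆ P) {ρ : α → α} (h1 : ∀ a ∈ P, ρ a ∈ Q)
    (h2 : ∀ a ∈ Q, ρ a = a) (h3 : ∀ a ∈ P, ∀ b ∈ P, r a b → r (ρ a) (ρ b))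
    (h4 : ∀ a ∈ P, r a (ρ a)) : GP r l Q P := by
  exact (gp_retr_le (r := swap r) hp.swap hQ h1 h2 (fun a ha b hb => h3 b hb a ha) h4).swap

/-- The base point of a contractible poset is arbitrary. If `a` and `b` are comparable, both are
good in the pair; conclude with `GP.left`, `GP.right`, `GP.trans` and connectedness. -/
theorem CT.base (h : CT r l P) {a : α} (ha : a ∈ P) : GP r l {a} P := by
  have hp := h.po
  obtain ⟨b, hb, h0⟩ := id h
  refine h.conn.2 {a | GP r l {a} P} (fun a b hab hr => ?_) ⟨b, (single_mem_OC hp).2 hb, h0⟩ a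
    ((single_mem_OC hp).2 ha)
  have hs : ({a, b} : Finset α) ⊆ P := (mem_OC.1 hab).1
  obtain ⟨ha, hb⟩ := (pair_mem_OC hp hr).1 hab
  have h1 : GP r l {a} {a, b} := sxh_bot (hp.mono hs) (by simp) (by simp [hr, hp.refl a ha])
  have h2 : GP r l {b} {a, b} := sxh_top (hp.mono hs) (by simp) (by simp [hr, hp.refl b hb])
  exact ⟨fun h3 => h2.trans (GP.right hs h3 h1), fun h3 => h1.trans (GP.right hs h3 h2)⟩

theorem CT.down (h : CT r l P) (h' : GP r l Q P) : CT r l Q := by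
  obtain ⟨b, hb, -⟩ := id h
  obtain ⟨a, ha⟩ : Q.Nonempty := h'.2.2.eq1.conn {_a | Q.Nonempty}
    (fun a ha => ⟨a, Finset.singleton_subset_iff.1 (mem_OC.1 ha).1⟩) (fun _ _ _ _ => Iff.rfl) b
    ((single_mem_OC h.po).2 hb)
  exact ⟨a, ha, GP.left (Finset.singleton_subset_iff.2 ha) (h.base (h'.2.1 ha)) h'⟩

theorem CT.gp (hQ : CT r l Q) (hP : CT r l P) (h : Q ⊆ P) : GP r l Q P := by
  obtain ⟨a, ha, h1⟩ := hQ
  exact GP.right h (hP.base (h ha)) h1

end Pool.Agent.Lib.MP_5ceaf9_gt
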