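import Pool.Agent.Lib.MP_5ceaf9_gt.ABLat
import Pool.Agent.Lib.MP_5ceaf9_gt.SxH

/-! Pushing lattice complexes along a coordinate; boxes; lifting from the quotient. -/

noncomputable section

namespace Pool.Agent.Lib.MP_5ceaf9_gt

open Classical Function

variable {n l : ℕ} {A B : Finset (Lat n)}

theorem ebox_pon (A : Finset (Lat n)) : POn le1 A := by
  exact ⟨fun a _ => le1_refl a, fun _ _ _ _ => le1_antisymm, fun _ _ _ _ _ _ => le1_trans⟩

theorem ebox_layer (i : Fin n) (t s : ℤ) (hs : s = t - 1 ∨ s = t + 1)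
    (ht : ∀ x ∈ A, x i ≠ 2 * t - s) (h : ∀ x ∈ A, x i = t → update x i s ∈ A)
    (hB : ∀ x, x ∈ B ↔ x ∈ A ∧ x i ≠ t) : GP le1 l B A := by
  let ρ : Lat n → Lat n := fun x => if x i = t then update x i s else x
  have e1 : ∀ x, ρ x i = if x i = t then s else x i := fun x => by
    simp only [ρ]
    split_ifs
    · exact update_self _ _ _
    · rfl
  have e2 : ∀ x j, j ≠ i → ρ x j = x j := fun x j hj => by
    simp only [ρ]
    split_ifs
    · exact update_of_ne hj _ _
    · rfl
  have hQ : B ⊆ A := fun x hx => ((hB x).1 hx).1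
  have h1 : ∀ a ∈ A, ρ a ∈ B := fun a ha => by
    refine (hB _).2 ⟨?_, ?_⟩
    · simp only [ρ]
      split_ifs with e
      · exact h a ha e
      · exact ha
    · rw [e1]
      split_ifs with e
      · omega
      · exact e
  have h2 : ∀ a ∈ B, ρ a = a := fun a ha => if_neg ((hB a).1 ha).2
  have h3 : ∀ a ∈ A, ∀ b ∈ A, le1 a b → le1 (ρ a) (ρ b) := fun a ha b hb hab j => by
    by_cases hj : j = i
    · have := hab i
      have := ht a ha
      have := ht b hb
      rw [hj, e1, e1]
      unfold le0 at *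
      split_ifs <;> omega
    · rw [e2 a j hj, e2 b j hj]
      exact hab j
  rcases Int.emod_two_eq_zero_or_one t with e | e
  · refine gp_retr_ge (ebox_pon A) hQ h1 h2 h3 fun a _ j => ?_
    by_cases hj : j = i
    · rw [hj, e1]
      unfold le0
      split_ifs <;> omega
    · rw [e2 a j hj]
      exact Or.inl rfl
  · refine gp_retr_le (ebox_pon A) hQ h1 h2 h3 fun a _ j => ?_
    by_cases hj : j = i
    · rw [hj, e1]
      unfold le0
      split_ifs <;> omega
    · rw [e2 a j hj]
      exact Or.inl rfl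

/-- One layer. Hint: the retraction `ρ x = if x i = t then update x i (t - 1) else x`; for `t` odd
`gp_retr_le`, for `t` even `gp_retr_ge`. -/
theorem gp_layer_dn (i : Fin n) (t : ℤ) (ht : ∀ x ∈ A, x i ≤ t)
    (h : ∀ x ∈ A, x i = t → update x i (t - 1) ∈ A) (hB : ∀ x, x ∈ B ↔ x ∈ A ∧ x i < t) :
    GP le1 l B A := by
  refine ebox_layer i t (t - 1) (Or.inl rfl) (fun x hx => ?_) h fun x => ?_
  · have := ht x hx
    omega
  · rw [hB]
    exact and_congr_right fun hx => ⟨ne_of_lt, lt_of_le_of_ne (ht x hx)⟩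

theorem gp_layer_up (i : Fin n) (t : ℤ) (ht : ∀ x ∈ A, t ≤ x i)
    (h : ∀ x ∈ A, x i = t → update x i (t + 1) ∈ A) (hB : ∀ x, x ∈ B ↔ x ∈ A ∧ t < x i) :
    GP le1 l B A := by
  refine ebox_layer i t (t + 1) (Or.inr rfl) (fun x hx => ?_) h fun x => ?_
  · have := ht x hx
    omega
  · rw [hB]
    exact and_congr_right fun hx => ⟨ne_of_gt, fun e => lt_of_le_of_ne (ht x hx) e.symm⟩

theorem ebox_bound (A : Finset (Lat n)) (f : Lat n → ℤ) : ∃ d : ℕ, ∀ x ∈ A, f x ≤ d :=
  ⟨A.sup fun x => (f x).toNat, fun x hx => (Int.self_le_toNat _).trans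
    (by exact_mod_cast Finset.le_sup (f := fun x => (f x).toNat) hx)⟩

/-- Hint: induction on a natural number `d` with `x i ≤ k + d` on `A`, generalizing `A`. -/
theorem gp_step_dn (i : Fin n) (k : ℤ) (h : ∀ x ∈ A, k < x i → update x i (x i - 1) ∈ A)
    (hB : ∀ x, x ∈ B ↔ x ∈ A ∧ x i ≤ k) : GP le1 l B A := by
  obtain ⟨d, hd⟩ := ebox_bound A fun x => x i - k
  induction d generalizing A with
  | zero =>
    have e : B = A := Finset.ext fun x => (hB x).trans
      ⟨fun hx => hx.1, fun hx => ⟨hx, by have := hd x hx; omega⟩⟩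
    rw [e]
    exact GP.refl (ebox_pon A)
  | succ d ih =>
    refine (ih (A := A.filter fun x => x i < k + d + 1) (fun x hx hk => ?_) (fun x => ?_)
      fun x hx => ?_).trans (gp_layer_dn i (k + d + 1) (fun x hx => ?_) (fun x hx e => ?_)
        fun x => Finset.mem_filter)
    · rw [Finset.mem_filter] at hx ⊢
      exact ⟨h x hx.1 hk, by rw [update_self]; omega⟩
    · rw [hB, Finset.mem_filter]
      exact ⟨fun hx => ⟨⟨hx.1, by omega⟩, hx.2⟩, fun hx => ⟨hx.1.1, hx.2⟩⟩
    · have := (Finset.mem_filter.1 hx).2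
      omega
    · have := hd x hx
      omega
    · rw [← e]
      exact h x hx (by omega)

theorem gp_step_up (i : Fin n) (k : ℤ) (h : ∀ x ∈ A, x i < k → update x i (x i + 1) ∈ A)
    (hB : ∀ x, x ∈ B ↔ x ∈ A ∧ k ≤ x i) : GP le1 l B A := by
  obtain ⟨d, hd⟩ := ebox_bound A fun x => k - x i
  induction d generalizing A with
  | zero =>
    have e : B = A := Finset.ext fun x => (hB x).trans
      ⟨fun hx => hx.1, fun hx => ⟨hx, by have := hd x hx; omega⟩⟩
    rw [e]
    exact GP.refl (ebox_pon A)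
  | succ d ih =>
    refine (ih (A := A.filter fun x => k - d - 1 < x i) (fun x hx hk => ?_) (fun x => ?_)
      fun x hx => ?_).trans (gp_layer_up i (k - d - 1) (fun x hx => ?_) (fun x hx e => ?_)
        fun x => Finset.mem_filter)
    · rw [Finset.mem_filter] at hx ⊢
      exact ⟨h x hx.1 hk, by rw [update_self]; omega⟩
    · rw [hB, Finset.mem_filter]
      exact ⟨fun hx => ⟨⟨hx.1, by omega⟩, hx.2⟩, fun hx => ⟨hx.1.1, hx.2⟩⟩
    · have := (Finset.mem_filter.1 hx).2
      omega
    · have := hd x hx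
      omega
    · rw [← e]
      exact h x hx (by omega)

theorem gp_step_eq (i : Fin n) (k : ℤ) (h : ∀ x ∈ A, k < x i → update x i (x i - 1) ∈ A)
    (h' : ∀ x ∈ A, x i < k → update x i (x i + 1) ∈ A)
    (hB : ∀ x, x ∈ B ↔ x ∈ A ∧ x i = k) : GP le1 l B A := by
  refine (gp_step_up (A := A.filter fun x => x i ≤ k) i k (fun x hx hk => ?_) fun x => ?_).trans
    (gp_step_dn i k h fun x => Finset.mem_filter)
  · rw [Finset.mem_filter] at hx ⊢
    exact ⟨h' x hx.1 hk, by rw [update_self]; omega⟩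
  · rw [hB, Finset.mem_filter]
    exact ⟨fun hx => ⟨⟨hx.1, hx.2.le⟩, hx.2.ge⟩, fun hx => ⟨hx.1.1, le_antisymm hx.1.2 hx.2⟩⟩

/-- A nonempty product of intervals. Hint: fix `p ∈ A`; by induction on a finite set `s` of
coordinates, the points that agree with `p` on `s` form a good subposet (`gp_step_eq`). -/
theorem ct_prod (P : Fin n → ℤ → Prop)
    (hP : ∀ i a b c, P i a → P i c → a ≤ b → b ≤ c → P i b)
    (hA : ∀ x, x ∈ A ↔ ∀ i, P i (x i)) (hne : A.Nonempty) : CT le1 l A := by
  obtain ⟨p, hp⟩ := hne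
  have key : ∀ s : Finset (Fin n), GP le1 l (A.filter fun x => ∀ j ∈ s, x j = p j) A := by
    intro s
    induction s using Finset.induction_on with
    | empty =>
      rw [Finset.filter_true_of_mem fun x _ j hj => absurd hj (Finset.notMem_empty j)]
      exact GP.refl (ebox_pon A)
    | insert i s hi ih =>
      have hu : ∀ x ∈ A.filter fun x => ∀ j ∈ s, x j = p j, ∀ c, P i c →
          update x i c ∈ A.filter fun x => ∀ j ∈ s, x j = p j := fun x hx c hc => by
        rw [Finset.mem_filter] at hx ⊢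
        refine ⟨(hA _).2 fun j => ?_, fun j hj => ?_⟩
        · by_cases e : j = i
          · rwa [e, update_self]
          · rw [update_of_ne e]
            exact (hA x).1 hx.1 j
        · rw [update_of_ne fun e : j = i => hi (e ▸ hj)]
          exact hx.2 j hj
      refine (gp_step_eq i (p i) (fun x hx hk => hu x hx _ ?_) (fun x hx hk => hu x hx _ ?_)
        fun x => ?_).trans ih
      · exact hP i (p i) _ (x i) ((hA p).1 hp i) ((hA x).1 (Finset.mem_filter.1 hx).1 i)
          (by omega) (by omega)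
      · exact hP i (x i) _ (p i) ((hA x).1 (Finset.mem_filter.1 hx).1 i) ((hA p).1 hp i)
          (by omega) (by omega)
      · simp only [Finset.mem_filter, Finset.forall_mem_insert]
        tauto
  have e : (A.filter fun x => ∀ j ∈ (Finset.univ : Finset (Fin n)), x j = p j) = {p} := by
    ext x
    rw [Finset.mem_filter, Finset.mem_singleton]
    exact ⟨fun hx => funext fun j => hx.2 j (Finset.mem_univ j),
      fun hx => by rw [hx]; exact ⟨hp, fun _ _ => rfl⟩⟩
  exact ⟨p, hp, e ▸ key Finset.univ⟩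

/-- Lifting from the quotient. Hint: `ct_image`, `pq_eq_iff`, `lq_pq`. -/
theorem ct_bar {η : Fin n → Bool} (h : ∀ a ∈ A, ∀ b ∈ A, ¬ le1 (fl η a) b) (hA : CT le1 l A)
    {C : Finset (QL η)} (hC : ∀ y, y ∈ C ↔ ∃ x ∈ A, pq η x = y) : CT (lq η) l C := by
  have e : C = A.image (pq η) := Finset.ext fun y => (hC y).trans Finset.mem_image.symm
  rw [e]
  refine (ct_image (fun a ha b hb e' => ?_) fun a ha b hb => ?_).2 hA
  · rcases (pq_eq_iff η).1 e' with e' | e'
    · exact e'.symm
    · exact absurd (e' ▸ le1_refl _) (h a ha b hb)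
  · rw [lq_pq]
    exact or_iff_left (h a ha b hb)

end Pool.Agent.Lib.MP_5ceaf9_gt
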