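import Pool.Agent.Lib.MP_5ceaf9_gt.SxK

/-! Equivalences from cones of pullbacks. -/

noncomputable section

namespace Pool.Agent.Lib.MP_5ceaf9_gt

open Classical Function

variable {α β : Type} [DecidableEq α] [DecidableEq β] [Nonempty α] [Nonempty β]
  {r : α → α → Prop} {r' : β → β → Prop} {l : ℕ}

variable {A : Finset α} {B : Finset β} {f : α → β}

omit [DecidableEq α] [DecidableEq β] [Nonempty α] [Nonempty β] in
theorem sxk2_q (h : Mo r r' A B f) (hp : POn (cy r r' f) (A.disjSum B)) :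
    Mo (cy r r' f) r' (A.disjSum B) B (Sum.elim f id) where
  pA := hp
  pB := h.pB
  maps := by
    rintro (a | b) hx
    · exact h.maps a (Finset.inl_mem_disjSum.1 hx)
    · exact Finset.inr_mem_disjSum.1 hx
  mono := by
    rintro (a | a) ha (b | b) hb hab
    · exact h.mono a (Finset.inl_mem_disjSum.1 ha) b (Finset.inl_mem_disjSum.1 hb) hab
    · exact hab
    · exact hab.elim
    · exact hab

omit [DecidableEq α] [DecidableEq β] [Nonempty α] [Nonempty β] in
theorem sxk2_inl (h : Mo r r' A B f) (hp : POn (cy r r' f) (A.disjSum B)) :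
    Mo r (cy r r' f) A (A.disjSum B) Sum.inl :=
  ⟨h.pA, hp, fun _ ha => Finset.inl_mem_disjSum.2 ha, fun _ _ _ _ hab => hab⟩

omit [DecidableEq α] [DecidableEq β] [Nonempty α] [Nonempty β] in
theorem sxk2_inr (h : Mo r r' A B f) (hp : POn (cy r r' f) (A.disjSum B)) :
    Mo r' (cy r r' f) B (A.disjSum B) Sum.inr :=
  ⟨h.pB, hp, fun _ ha => Finset.inr_mem_disjSum.2 ha, fun _ _ _ _ hab => hab⟩

omit [Nonempty α] [Nonempty β] in
theorem sxk2_sub : A.image (Sum.inl : α → α ⊕ β) ⊆ A.disjSum B := by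
  intro x hx
  obtain ⟨a, ha, rfl⟩ := Finset.mem_image.1 hx
  exact Finset.inl_mem_disjSum.2 ha

/-- A flat cocycle on the cylinder is a gauge transform of a pullback. -/
theorem sxk2_gau (h : Mo r r' A B f) {Γ : Type} [Group Γ] {c : α ⊕ β → α ⊕ β → Γ}
    (hc : Flat (cy r r' f) (OC (cy r r' f) (A.disjSum B)) c) {x y : α ⊕ β}
    (hx : x ∈ A.disjSum B) (hy : y ∈ A.disjSum B) (hxy : cy r r' f x y) :
    c x y = c x (Sum.inr (Sum.elim f id x)) *
      c (Sum.inr (Sum.elim f id x)) (Sum.inr (Sum.elim f id y)) *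
        (c y (Sum.inr (Sum.elim f id y)))⁻¹ := by
  have hq := sxk2_q h h.pon_cy
  have hf := (flat_OC h.pon_cy).1 hc
  have h1 : ∀ z ∈ A.disjSum B, cy r r' f z (Sum.inr (Sum.elim f id z)) := by
    rintro (a | b) hz
    · exact h.pB.refl _ (hq.maps _ hz)
    · exact h.pB.refl _ (hq.maps _ hz)
  have h2 : ∀ z ∈ A.disjSum B, (Sum.inr (Sum.elim f id z) : α ⊕ β) ∈ A.disjSum B :=
    fun z hz => Finset.inr_mem_disjSum.2 (hq.maps z hz)
  rw [hf x hx _ (h2 x hx) _ (h2 y hy) (h1 x hx) (hq.mono x hx y hy hxy),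
    ← hf x hx y hy _ (h2 y hy) hxy (h1 y hy), mul_inv_cancel_right]

/-- Goodness is invariant under gauge transformations of the cocycle. -/
theorem sxk2_tr {L X : Finset (Finset α)} (hL : Cx r L) (hX : X ⊆ L) {Γ : Type} [Group Γ]
    {c c' : α → α → Γ} (g : α → Γ) (h : Agree r L c (gau g c'))
    (h' : Gd l (PhiG Γ F25) (fun x : ↥X => ps x.1) (rs X X (DG r c'))) :
    Gd l (PhiG Γ F25) (fun x : ↥X => ps x.1) (rs X X (DG r c)) := by
  have e := Gd.gauge h' fun x : ↥X => g (bt r x.1)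
  refine e.of_equiv (Equiv.refl _) (fun _ => rfl) fun x y => ?_
  exact (DG_congr hL h (hX x.2) (hX y.2)).trans (DG_gau g)

/-- A cocycle on the cylinder is a gauge transform of the pullback of its restriction to `B`
under the retraction, with gauge `c (inl a) (inr (f a))`. -/
theorem eq1_cyl (h : Mo r r' A B f) (hA : A.Nonempty) (hB : Conn r' (OC r' B))
    (hext : ∀ (Γ : Type) [Group Γ] (c : α → α → Γ), Flat r (OC r A) c →
      ∃ (c' : β → β → Γ) (g : α → Γ), Flat r' (OC r' B) c' ∧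
        Agree r (OC r A) c (gau g (fun a b => c' (f a) (f b))))
    (huniq : ∀ (Γ : Type) [Group Γ] (c c' : β → β → Γ) (g : α → Γ), Flat r' (OC r' B) c →
      Flat r' (OC r' B) c' →
      Agree r (OC r A) (gau g (fun a b => c (f a) (f b))) (fun a b => c' (f a) (f b)) →
      ∃ g' : β → Γ, (∀ a ∈ A, g' (f a) = g a) ∧ Agree r' (OC r' B) (gau g' c) c') :
    Eq1 (cy r r' f) (OC (cy r r' f) (A.image Sum.inl)) (OC (cy r r' f) (A.disjSum B)) := by
  have hp := h.pon_cy
  have hpA : POn (cy r r' f) (A.image Sum.inl) := hp.mono sxk2_sub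
  have hl : ∀ a ∈ A, (Sum.inl a : α ⊕ β) ∈ A.image Sum.inl := fun a ha =>
    Finset.mem_image_of_mem _ ha
  refine ⟨fun Γ _ c hc => ?_, fun Γ _ c c' hc hc' hcc => ?_, fun T h1 h2 x hx => ?_⟩
  · obtain ⟨c', g, h1, h2⟩ := hext Γ (fun a b => c (Sum.inl a) (Sum.inl b))
      ((flat_OC h.pA).2 fun a ha b hb d hd hab hbd =>
        (flat_OC hpA).1 hc _ (hl a ha) _ (hl b hb) _ (hl d hd) hab hbd)
    refine ⟨_, ((sxk2_q h hp).flat h1).gau (Sum.elim g fun _ => 1), (agree_OC hpA).2 ?_⟩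
    intro x hx y hy hxy
    obtain ⟨a, ha, rfl⟩ := Finset.mem_image.1 hx
    obtain ⟨b, hb, rfl⟩ := Finset.mem_image.1 hy
    exact (agree_OC h.pA).1 h2 a ha b hb hxy
  · have hag := (agree_OC hpA).1 hcc
    obtain ⟨g', h1, h2⟩ := huniq Γ (fun a b => c (Sum.inr a) (Sum.inr b))
      (fun a b => c' (Sum.inr a) (Sum.inr b))
      (fun a => (c' (Sum.inl a) (Sum.inr (f a)))⁻¹ * c (Sum.inl a) (Sum.inr (f a)))
      ((sxk2_inr h hp).flat hc) ((sxk2_inr h hp).flat hc')
      ((agree_OC h.pA).2 fun a ha b hb hab => by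
        have e := hag _ (hl a ha) _ (hl b hb) hab
        rw [sxk2_gau h hc (sxk2_sub (hl a ha)) (sxk2_sub (hl b hb)) hab,
          sxk2_gau h hc' (sxk2_sub (hl a ha)) (sxk2_sub (hl b hb)) hab] at e
        simp only [Sum.elim_inl] at e
        simp only [gau]
        rw [mul_inv_rev, inv_inv, mul_assoc _ _ (c (Sum.inr (f a)) (Sum.inr (f b))), mul_assoc,
          ← mul_assoc _ _ (c' (Sum.inl b) (Sum.inr (f b))), e]
        group)
    have h3 := (agree_OC h.pB).1 h2
    refine ⟨Sum.elim (fun _ => 1) g', fun x hx => ?_, (agree_OC hp).2 ?_⟩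
    · obtain ⟨a, _, rfl⟩ := Finset.mem_image.1 ((single_mem_OC hpA).1 hx)
      rfl
    · rintro (a | a) ha (b | b) hb hab
      · simpa [gau] using hag _ (hl a (Finset.inl_mem_disjSum.1 ha)) _
          (hl b (Finset.inl_mem_disjSum.1 hb)) hab
      · have ha' := Finset.inl_mem_disjSum.1 ha
        have hfa := h.maps a ha'
        have e := h3 _ hfa b (Finset.inr_mem_disjSum.1 hb) hab
        have e1 := (flat_OC hp).1 hc _ ha _ (Finset.inr_mem_disjSum.2 hfa) _ hb
          (h.pB.refl _ hfa) hab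
        have e2 := (flat_OC hp).1 hc' _ ha _ (Finset.inr_mem_disjSum.2 hfa) _ hb
          (h.pB.refl _ hfa) hab
        simp only [gau, h1 a ha'] at e
        simp only [gau, Sum.elim_inl, Sum.elim_inr]
        rw [← e1, ← e2, ← e]
        group
      · exact hab.elim
      · exact h3 a (Finset.inr_mem_disjSum.1 ha) b (Finset.inr_mem_disjSum.1 hb) hab
  · have h3 : ∀ a ∈ A, Sum.inl a ∈ T := fun a ha => h1 _ ((single_mem_OC hpA).2 (hl a ha))
    have hx' := (single_mem_OC hp).1 hx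
    rcases x with a | b
    · exact h3 a (Finset.inl_mem_disjSum.1 hx')
    · obtain ⟨a, ha⟩ := hA
      have hfa := h.maps a ha
      have h4 : cy r r' f (Sum.inl a) (Sum.inr (f a)) := h.pB.refl _ hfa
      refine hB.2 {b | Sum.inr b ∈ T} (fun u v huv hr => ?_)
        ⟨f a, (single_mem_OC h.pB).2 hfa, ?_⟩ b
        ((single_mem_OC h.pB).2 (Finset.inr_mem_disjSum.1 hx'))
      · obtain ⟨hu, hv⟩ := (pair_mem_OC h.pB hr).1 huv
        have h5 : cy r r' f (Sum.inr u) (Sum.inr v) := hr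
        exact h2 _ _ ((pair_mem_OC hp h5).2
          ⟨Finset.inr_mem_disjSum.2 hu, Finset.inr_mem_disjSum.2 hv⟩) h5
      · exact (h2 _ _ ((pair_mem_OC hp h4).2
          ⟨Finset.inl_mem_disjSum.2 ha, Finset.inr_mem_disjSum.2 hfa⟩) h4).1 (h3 a ha)

/-- Let `q = Sum.elim f id` be the retraction of the cylinder. Then `q ∘ inr = id` and
`q ∘ inl = f`; use `PB_comp`, `gd_cone_PB_emb` and the two out of three lemmas for cones. A flat
cocycle on the cylinder is first gauged to the pullback under `q` of its restriction to `B`. -/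
theorem me_of_cone (h : Mo r r' A B f)
    (h1 : Eq1 (cy r r' f) (OC (cy r r' f) (A.image Sum.inl)) (OC (cy r r' f) (A.disjSum B)))
    (h2 : ∀ (Γ : Type) [Group Γ] (c : β → β → Γ), Flat r' (OC r' B) c →
      Gd l (PhiG Γ F25) (cpar (fun x : ↥(OC r A) => ps x.1) (fun x : ↥(OC r' B) => ps x.1))
        (cone (rs (OC r A) (OC r A) (DG r (fun a b => c (f a) (f b))))
          (rs (OC r' B) (OC r' B) (DG r' c)) (rs (OC r A) (OC r' B) (PB (ZG Γ) f)))) :
    ME r r' l A B f := by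
  have hp := h.pon_cy
  have hq := sxk2_q h hp
  have hl := sxk2_inl h hp
  have hr := sxk2_inr h hp
  refine ⟨h, hp, sxk2_sub, cx_OC (hp.mono sxk2_sub), cx_OC hp, OC_mono sxk2_sub, h1,
    fun Γ _ c hc => ?_⟩
  have hc0 := hr.flat hc
  have hcq := hq.flat hc0
  have hid : Mo r' r' B B id := ⟨h.pB, h.pB, fun _ ha => ha, fun _ _ _ _ hab => hab⟩
  have e1 := (gd_cone_PB_emb (l := l) hid (Set.injOn_id _) (fun _ _ _ _ => Iff.rfl) hc0).2 (by
    rw [Finset.image_id]
    exact (GE.refl (cx_OC h.pB)).gd Γ _ hc0)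
  have e2 := (gd_cone_PB_emb (l := l) hr Sum.inr_injective.injOn (fun _ _ _ _ => Iff.rfl) hcq).2
    ((h.gp_inr (l := l)).2.2.gd Γ _ hcq)
  have e3 := gd_cone_right (cm_PB hr hcq) (cm_PB hq hc0) (by
    rw [PB_comp hr hq]
    exact e1) e2
  have h3 := h2 Γ _ hc0
  have e4 := gd_cone_left (cm_PB hl hcq) (cm_PB hq hc0) (by
    rw [PB_comp hl hq]
    exact h3) e3
  have e5 := (gd_cone_PB_emb (l := l) hl Sum.inl_injective.injOn (fun _ _ _ _ => Iff.rfl) hcq).1 e4
  exact sxk2_tr (cx_OC hp) Finset.sdiff_subset (fun x => c x (Sum.inr (Sum.elim f id x)))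
    ((agree_OC hp).2 fun x hx y hy hxy => sxk2_gau h hc hx hy hxy) e5

end Pool.Agent.Lib.MP_5ceaf9_gt
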