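import Pool.Agent.Lib.MP_5ceaf9_gt.SxL

/-! The subdivision chain map is a simple equivalence. -/

noncomputable section

namespace Pool.Agent.Lib.MP_5ceaf9_gt

open Classical Function

variable {α β : Type} [DecidableEq α] [DecidableEq β] [Nonempty α] [Nonempty β]
  {r : α → α → Prop} {r' : β → β → Prop} {l : ℕ}

variable {A B : Finset α} {dm : α → ℕ} {inc : α → α → ℤ}

section general

variable {ι κ Λ F : Type} [Ring Λ] [Field F] [Fintype ι] [DecidableEq ι] [Fintype κ]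
  [DecidableEq κ] {Φ : Set (Λ →+* F)} {p : ι → Bool} {p' : κ → Bool} {d : Matrix ι ι Λ}
  {d' : Matrix κ κ Λ}

theorem sxm_blk {q : ι → Prop} [DecidablePred q] (f : κ → ι) (hf : Injective f)
    (hq : ∀ x, q x ↔ ∃ y, f y = x) (hp : ∀ x, p' x = p (f x))
    (h : ∀ x y, d' x y = d (f x) (f y)) :
    Gd l Φ p' d' ↔ Gd l Φ (fun x : {x // q x} => p x) (blk d q) := by
  let e : κ ≃ {x // q x} := Equiv.ofBijective (fun y => ⟨f y, (hq _).2 ⟨y, rfl⟩⟩)
    ⟨fun a b hab => hf (congrArg Subtype.val hab), fun x => by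
      obtain ⟨y, hy⟩ := (hq x.1).1 x.2
      exact ⟨y, Subtype.ext hy⟩⟩
  have e1 : p' = fun x => p (e x).1 := funext hp
  have e2 : d' = (blk d q).submatrix e e := Matrix.ext h
  rw [← gd_reindex e, e1, e2]

theorem sxm_top {μ : Type} [DecidableEq μ] (hd : Gd l Φ p d) (π : ι → μ) (rk : μ → ℕ)
    (h : ∀ x y, d x y ≠ 0 → π x = π y ∨ rk (π y) < rk (π x)) {k0 : μ}
    (h0 : ∀ x, rk (π x) ≤ rk k0)
    (hk : ∀ k, k ≠ k0 → Gd l Φ (fun x : {x // π x = k} => p x) (blk d (fun x => π x = k))) :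
    Gd l Φ (fun x : {x // π x = k0} => p x) (blk d (fun x => π x = k0)) := by
  have hq : Sub d (fun x => π x = k0) := by
    intro x y hxy hy
    rcases h x y hxy with h1 | h1
    · exact h1.trans hy
    · have h2 := h0 x
      rw [hy] at h1
      omega
  refine hd.sub hq (gd_filt (hd.1.blk_quot hq) (fun x => π x.1) rk
    (fun x y hxy => h x.1 y.1 hxy) fun k => ?_)
  by_cases hkk : k = k0
  · have : IsEmpty {x : {x // ¬ π x = k0} // π x.1 = k} := ⟨fun x => x.1.2 (x.2.trans hkk)⟩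
    exact gd_empty
  · exact (hk k hkk).of_equiv
      ⟨fun x => ⟨x.1.1, x.2⟩, fun x => ⟨⟨x.1, fun hx => hkk (x.2.symm.trans hx)⟩, x.2⟩,
        fun _ => rfl, fun _ => rfl⟩ (fun _ => rfl) (fun _ _ => rfl)

end general

theorem sxm_mul {ι κ μ Λ : Type} [Ring Λ] (X : Finset ι) (Y : Finset κ) (Z : Finset μ)
    (M : ι → κ → Λ) (N : κ → μ → Λ) (x : ↥X) (z : ↥Z) :
    (rs X Y M * rs Y Z N) x z = ∑ y ∈ Y, M x y * N y z := by
  rw [Matrix.mul_apply]
  exact Finset.sum_coe_sort Y fun y => M x y * N y z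

theorem sxm_bt (hp : POn r A) {σ : Finset α} (hσ : σ ∈ OC r A) :
    bt r σ ∈ σ ∧ bt r σ ∈ A ∧ ∀ u ∈ σ, r (bt r σ) u := by
  obtain ⟨h1, h2, h3⟩ := mem_OC.1 hσ
  have h4 := bt_spec (hp.mono h1) h3 h2
  exact ⟨h4.1, h1 h4.1, h4.2⟩

theorem sxm_sd (h : CoCell r A dm inc) {e : α} (he : e ∈ A) {σ : Finset α} (hσ : σ ⊆ A)
    (h0 : sd dm inc e σ ≠ 0) : σ ≠ ∅ ∧ bt r σ = e ∧ pc dm e = ps σ := by
  obtain ⟨h1, h2, -, h3⟩ := sd_ne h he hσ h0
  refine ⟨Finset.ne_empty_of_mem h1, bt_eq (h.po.mono hσ) h1 h2, ?_⟩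
  unfold pc ps
  rw [h3, decide_eq_decide]
  omega

theorem sxm_Dz (h : CoCell r A dm inc) {σ ρ : Finset α} (hσ : σ ∈ OC r A) (hρ : ρ ∈ OC r A)
    (h0 : Dz r σ ρ ≠ 0) : bt r σ = bt r ρ ∨ dm (bt r ρ) < dm (bt r σ) := by
  obtain ⟨v, -, hv⟩ := Dz_ne h0
  obtain ⟨-, h1, h2⟩ := sxm_bt h.po hσ
  obtain ⟨h3, h4, -⟩ := sxm_bt h.po hρ
  by_cases hh : bt r σ = bt r ρ
  · exact Or.inl hh
  · exact Or.inr (h.lt _ h1 _ h4 (h2 _ ((hv.le.trans (Finset.erase_subset v σ)) h3)) hh)

omit [Nonempty α] in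
theorem sxm_up (h : CoCell r A dm inc) (hBA : B ⊆ A) (hB : ∀ a ∈ B, ∀ b ∈ A, r a b → b ∈ B)
    (hp : POn r B) : CoCell r B dm inc := by
  have h1 : ∀ e ∈ B, ∀ f ∈ A, f ∉ B → inc e f = 0 := fun e he f hf hfB =>
    by_contra fun h0 => hfB (hB e he f hf (h.face e (hBA he) f hf h0).1)
  refine ⟨hp, fun e he f hf => h.face e (hBA he) f (hBA hf),
    fun e he f hf => h.lt e (hBA he) f (hBA hf), fun e he g hg => ?_, fun e he h2 => ?_,
    fun e he => ?_⟩
  · rw [← h.sq e (hBA he) g (hBA hg)]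
    exact Finset.sum_subset hBA fun f hf hfB => by rw [h1 e he f hf hfB, zero_mul]
  · rw [← h.au e (hBA he) h2]
    exact Finset.sum_subset hBA (h1 e he)
  · have h2 : B.filter (r e) = A.filter (r e) := by
      ext f
      simp only [Finset.mem_filter]
      exact ⟨fun hf => ⟨hBA hf.1, hf.2⟩, fun hf => ⟨hB e he f hf.1 hf.2, hf.2⟩⟩
    rw [h2]
    exact h.ctr e (hBA he)

/-- The augmented subdivision matrix. -/
def sxmS (dm : α → ℕ) (inc : α → α → ℤ) : Option α → Finset α → ℤ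
  | some a, τ => sd dm inc a τ
  | none, τ => if τ = ∅ then 1 else 0

omit [Nonempty α] in
theorem sxm_aug (h : CoCell r A dm inc) : Dm (fun x : ↥(Finset.insertNone A) => paug dm x.1)
    (rs (Finset.insertNone A) (Finset.insertNone A) (aug dm inc)) := by
  constructor
  · ext ⟨x, hx⟩ ⟨y, hy⟩
    rw [sxm_mul, Finset.sum_insertNone]
    rcases x with _ | a
    · simp [aug]
    have ha := Finset.some_mem_insertNone.1 hx
    rcases y with _ | b
    · by_cases h1 : dm a = 1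
      · simp only [aug, mul_zero, zero_add, Matrix.zero_apply]
        rw [← h.au a ha h1]
        refine Finset.sum_congr rfl fun f hf => ?_
        by_cases h2 : inc a f = 0
        · rw [h2, zero_mul]
        · rw [if_pos (by have := (h.face a ha f hf h2).2; omega), mul_one]
      · simp only [aug, mul_zero, zero_add, Matrix.zero_apply]
        refine Finset.sum_eq_zero fun f hf => ?_
        by_cases h2 : inc a f = 0
        · rw [h2, zero_mul]
        · rw [if_neg (by have := (h.face a ha f hf h2).2; omega), mul_zero]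
    · simp only [aug, mul_zero, zero_add, Matrix.zero_apply]
      exact h.sq a ha b (Finset.some_mem_insertNone.1 hy)
  · rintro ⟨_ | a, hx⟩ ⟨_ | b, hy⟩ h0
    · exact absurd rfl h0
    · exact absurd rfl h0
    · have h1 : dm a = 0 := by_contra fun h1 => h0 (if_neg h1)
      simp [paug, h1]
    · have h1 := (h.face a (Finset.some_mem_insertNone.1 hx) b
        (Finset.some_mem_insertNone.1 hy) h0).2
      simp only [paug, ne_eq, decide_eq_decide]
      omega

theorem sxm_ne {σ : Finset α} (hσ : σ ∈ OC r A) : σ ≠ ∅ := (mem_OC.1 hσ).2.1.ne_empty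

theorem sxm_cm (h : CoCell r A dm inc) :
    CM (fun x : ↥(Finset.insertNone A) => paug dm x.1) (fun x : ↥(insert ∅ (OC r A)) => ps x.1)
      (rs (Finset.insertNone A) (Finset.insertNone A) (aug dm inc))
      (rs (insert ∅ (OC r A)) (insert ∅ (OC r A)) (Dz r))
      (rs (Finset.insertNone A) (insert ∅ (OC r A)) (sxmS dm inc)) := by
  have hY : ∀ σ ∈ insert ∅ (OC r A), σ ⊆ A ∧ Tot r σ := by
    intro σ hσ
    rcases Finset.mem_insert.1 hσ with rfl | hσ
    · exact ⟨Finset.empty_subset _, fun a ha => absurd ha (Finset.notMem_empty a)⟩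
    · exact ⟨(mem_OC.1 hσ).1, (mem_OC.1 hσ).2.2⟩
  refine ⟨sxm_aug h, dm_Dz (fun σ hσ => ⟨h.po.mono (hY σ hσ).1, (hY σ hσ).2⟩)
    fun σ hσ τ _ ρ _ h2 => ?_, ?_, ?_⟩
  · rcases ρ.eq_empty_or_nonempty with rfl | h3
    · exact Finset.mem_insert_self _ _
    · exact Finset.mem_insert_of_mem (mem_OC.2 ⟨h2.trans (hY σ hσ).1, h3,
        fun a ha b hb => (hY σ hσ).2 a (h2 ha) b (h2 hb)⟩)
  · rintro ⟨_ | a, hx⟩ ⟨σ, hσ⟩ h0
    · have h1 : σ = ∅ := by_contra fun h1 => h0 (if_neg h1)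
      subst h1
      rfl
    · exact (sxm_sd h (Finset.some_mem_insertNone.1 hx) (hY σ hσ).1 h0).2.2
  · ext ⟨x, hx⟩ ⟨ρ, hρ⟩
    have h1 : Dz r ∅ ρ = 0 := Finset.sum_empty
    rw [sxm_mul, sxm_mul, Finset.sum_insertNone, Finset.sum_insert fun h0 => sxm_ne h0 rfl]
    rcases x with _ | a
    · simp only [aug, sxmS, zero_mul, Finset.sum_const_zero, h1, mul_zero, zero_add]
      exact (Finset.sum_eq_zero fun σ hσ => by rw [if_neg (sxm_ne hσ), zero_mul]).symm
    have ha := Finset.some_mem_insertNone.1 hx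
    simp only [aug, sxmS, h1, mul_zero, zero_add]
    rcases Finset.mem_insert.1 hρ with rfl | h2
    · rw [sd_aug h ha, if_pos rfl, mul_one, Finset.sum_eq_zero, add_zero]
      intro f hf
      have h3 : sd dm inc f ∅ = 0 :=
        by_contra fun h3 => (sxm_sd h hf (Finset.empty_subset _) h3).1 rfl
      rw [h3, mul_zero]
    · rw [sd_boundary h ha h2, if_neg (sxm_ne h2), mul_zero, zero_add]

/-- The least element, if there is one. -/
def sxmPi (r : α → α → Prop) (A : Finset α) :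
    ↥(Finset.insertNone A) ⊕ ↥(insert ∅ (OC r A)) → Option α :=
  Sum.elim (fun x => x.1) (fun τ => if τ.1 = ∅ then none else some (bt r τ.1))

/-- The statement on the piece of a cell. -/
def sxmP (r : α → α → Prop) (dm : α → ℕ) (inc : α → α → ℤ) (e : α) (X : Finset (Finset α)) : Prop :=
  Gd 1 (∅ : Set (ℤ →+* F25)) (cpar (fun _ : Unit => pc dm e) (fun σ : ↥X => ps σ.1))
    (cone (0 : Matrix Unit Unit ℤ) (rs X X (Dz r))
      (Matrix.of fun _ (σ : ↥X) => sd dm inc e σ.1))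

omit [Nonempty α] in
theorem sxm_inc (h : CoCell r A dm inc) {e : α} (he : e ∈ A) : inc e e = 0 :=
  by_contra fun h0 => by
    have := (h.face e he e he h0).2
    omega

theorem sxm_piece (h : CoCell r A dm inc) {e : α} (he : e ∈ A) :
    sxmP r dm inc e ((OC r A).filter (fun σ => bt r σ = e)) ↔
      Gd 1 (∅ : Set (ℤ →+* F25)) (fun x : {x // sxmPi r A x = some e} =>
        cpar (fun x : ↥(Finset.insertNone A) => paug dm x.1)
          (fun x : ↥(insert ∅ (OC r A)) => ps x.1) x)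
        (blk (cone (rs (Finset.insertNone A) (Finset.insertNone A) (aug dm inc))
          (rs (insert ∅ (OC r A)) (insert ∅ (OC r A)) (Dz r))
          (rs (Finset.insertNone A) (insert ∅ (OC r A)) (sxmS dm inc)))
          fun x => sxmPi r A x = some e) := by
  refine sxm_blk (Sum.map (fun _ => ⟨some e, Finset.some_mem_insertNone.2 he⟩)
    fun σ => ⟨σ.1, Finset.mem_insert_of_mem (Finset.mem_filter.1 σ.2).1⟩)
    (Sum.map_injective.2 ⟨fun _ _ _ => rfl, fun _ _ h0 => Subtype.ext (congrArg (·.1) h0)⟩)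
    ?_ ?_ ?_
  · rintro (⟨x, hx⟩ | ⟨σ, hσ⟩)
    · constructor
      · rintro rfl
        exact ⟨Sum.inl (), rfl⟩
      · rintro ⟨_ | _, h0⟩
        · exact (congrArg (sxmPi r A) h0).symm
        · cases h0
    · constructor
      · intro h0
        have h1 : σ ≠ ∅ := fun h1 => by simp [sxmPi, h1] at h0
        refine ⟨Sum.inr ⟨σ, Finset.mem_filter.2 ⟨(Finset.mem_insert.1 hσ).resolve_left h1, ?_⟩⟩, rfl⟩
        simpa [sxmPi, h1] using h0
      · rintro ⟨_ | ⟨ρ, hρ⟩, h0⟩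
        · cases h0
        · cases h0
          simp [sxmPi, sxm_ne (Finset.mem_filter.1 hρ).1, (Finset.mem_filter.1 hρ).2]
  · rintro (_ | _) <;> rfl
  · rintro (_ | _) (_ | _)
    · exact (sxm_inc h he).symm
    all_goals rfl

theorem sxm_step (h : CoCell r A dm inc) {e : α} (he : e ∈ A) (hm : ∀ a ∈ A, r e a)
    (ih : ∀ a ∈ A, a ≠ e → sxmP r dm inc a ((OC r A).filter (fun σ => bt r σ = a))) :
    sxmP r dm inc e ((OC r A).filter (fun σ => bt r σ = e)) := by
  have cm := sxm_cm h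
  have h1 := h.ctr e he
  rw [Finset.filter_true_of_mem hm] at h1
  have h2 : ∀ x a, sxmPi r A x = some a → a ∈ A := by
    rintro (⟨x, hx⟩ | ⟨σ, hσ⟩) a h0
    · cases h0
      exact Finset.some_mem_insertNone.1 hx
    · have h3 : σ ≠ ∅ := fun h3 => by simp [sxmPi, h3] at h0
      have h4 : bt r σ = a := by simpa [sxmPi, h3] using h0
      exact h4 ▸ (sxm_bt h.po ((Finset.mem_insert.1 hσ).resolve_left h3)).2.1
  refine (sxm_piece h he).2 (sxm_top ⟨cm.cone, fun _ => alga_of ?_ h1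
    (CT.ctr_aug (ct_bot h.po he hm)).neg, fun h0 => absurd h0 (by omega)⟩ (sxmPi r A)
    (fun o => o.elim 0 (dm · + 1)) ?_ (fun x => ?_) fun k hk => ?_)
  · rw [Matrix.mul_neg, cm.comm, add_neg_cancel]
  · rintro (⟨_ | a, hx⟩ | ⟨σ, hσ⟩) (⟨_ | b, hy⟩ | ⟨ρ, hρ⟩) h0
    · exact absurd rfl h0
    · exact absurd rfl h0
    · have h3 : ρ = ∅ := by_contra fun h3 => h0 (if_neg h3)
      exact Or.inl (by simp [sxmPi, h3])
    · exact Or.inr (Nat.succ_pos _)
    · have h3 := (h.face a (Finset.some_mem_insertNone.1 hx) b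
        (Finset.some_mem_insertNone.1 hy) h0).2
      exact Or.inr (Nat.succ_lt_succ (h3 ▸ Nat.lt_succ_self _))
    · have h3 : ρ ⊆ A := by
        rcases Finset.mem_insert.1 hρ with rfl | h3
        · exact Finset.empty_subset _
        · exact (mem_OC.1 h3).1
      obtain ⟨h4, h5, -⟩ := sxm_sd h (Finset.some_mem_insertNone.1 hx) h3 h0
      exact Or.inl (by simp [sxmPi, h4, h5])
    · exact absurd rfl h0
    · exact absurd rfl h0
    · have h3 : Dz r σ ρ ≠ 0 := neg_ne_zero.1 h0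
      have h4 : σ ≠ ∅ := fun h4 => h3 (h4 ▸ Finset.sum_empty)
      by_cases h5 : ρ = ∅
      · exact Or.inr (by simp [sxmPi, h4, h5])
      · simpa [sxmPi, h4, h5] using sxm_Dz h ((Finset.mem_insert.1 hσ).resolve_left h4)
          ((Finset.mem_insert.1 hρ).resolve_left h5) h3
  · rcases h3 : sxmPi r A x with _ | a
    · exact Nat.zero_le _
    · by_cases h4 : e = a
      · rw [h4]
      · exact Nat.succ_le_succ (h.lt e he a (h2 x a h3) (hm a (h2 x a h3)) h4).le
  · rcases k with _ | a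
    · refine (sxm_blk (Sum.map (fun _ => ⟨none, Finset.none_mem_insertNone⟩)
        fun _ => ⟨∅, Finset.mem_insert_self _ _⟩)
        (Sum.map_injective.2 ⟨fun _ _ _ => rfl, fun _ _ _ => rfl⟩) ?_ ?_ ?_).1
        (gd_cone_id (p := fun _ : Unit => true) (d := 0) ⟨mul_zero _, fun _ _ h0 => absurd rfl h0⟩)
      · rintro (⟨x, hx⟩ | ⟨σ, hσ⟩)
        · constructor
          · rintro rfl
            exact ⟨Sum.inl (), rfl⟩
          · rintro ⟨_ | _, h0⟩ <;> cases h0
            rfl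
        · constructor
          · intro h0
            obtain rfl : σ = ∅ := by simpa [sxmPi] using h0
            exact ⟨Sum.inr (), rfl⟩
          · rintro ⟨_ | _, h0⟩ <;> cases h0
            simp [sxmPi]
      · rintro (_ | _) <;> rfl
      · rintro (_ | _) (_ | _) <;> simp [cone, rs, aug, sxmS, Dz]
    · by_cases ha : a ∈ A
      · exact (sxm_piece h ha).1 (ih a ha fun h0 => hk (congrArg some h0))
      · have : IsEmpty {x // sxmPi r A x = some a} := ⟨fun x => ha (h2 x.1 a x.2)⟩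
        exact gd_empty

theorem sxm_all (n : ℕ) : ∀ (A : Finset α) (e : α), CoCell r A dm inc → e ∈ A → dm e = n →
    sxmP r dm inc e ((OC r A).filter (fun σ => bt r σ = e)) := by
  induction n using Nat.strong_induction_on with
  | _ n ih =>
    intro A e h he hn
    have h1 : e ∈ A.filter (r e) := Finset.mem_filter.2 ⟨he, h.po.refl e he⟩
    have h2 : CoCell r (A.filter (r e)) dm inc := sxm_up h (Finset.filter_subset _ _)
      (fun a ha b hb hab => Finset.mem_filter.2 ⟨hb, h.po.trans e he a (Finset.mem_filter.1 ha).1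
        b hb (Finset.mem_filter.1 ha).2 hab⟩) (h.po.mono (Finset.filter_subset _ _))
    have h3 : (OC r A).filter (fun σ => bt r σ = e) =
        (OC r (A.filter (r e))).filter (fun σ => bt r σ = e) := by
      ext σ
      simp only [Finset.mem_filter]
      refine ⟨fun hσ => ⟨mem_OC.2 ⟨fun u hu => Finset.mem_filter.2 ⟨(mem_OC.1 hσ.1).1 hu, ?_⟩,
        (mem_OC.1 hσ.1).2⟩, hσ.2⟩, fun hσ => ⟨OC_mono (Finset.filter_subset _ _) hσ.1, hσ.2⟩⟩
      exact hσ.2 ▸ (sxm_bt h.po hσ.1).2.2 u hu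
    rw [h3]
    refine sxm_step h2 h1 (fun a ha => (Finset.mem_filter.1 ha).2) fun a ha hae => ?_
    exact ih (dm a) (hn ▸ h2.lt e h1 a ha (Finset.mem_filter.1 ha).2 hae.symm) _ a h2 ha rfl

/-- The piece of a cell `e`: the cell and the chains with least element `e`. Strong induction on
the dimension. The chains are the augmented complex of the elements strictly above `e`; by the
induction hypothesis and `gd_filt` the subdivision map is an equivalence there; compose it with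
the map from the one cell `e` to the augmented cell complex of its boundary, whose cone is
contractible by `h.ctr` (`gd_cone_comp` at level one over the integers). -/
theorem ctr_sd_piece (h : CoCell r A dm inc) {e : α} (he : e ∈ A) :
    Ctr (cone (0 : Matrix Unit Unit ℤ)
      (rs ((OC r A).filter (fun σ => bt r σ = e)) ((OC r A).filter (fun σ => bt r σ = e)) (Dz r))
      (Matrix.of fun _ (σ : ↥((OC r A).filter (fun σ => bt r σ = e))) => sd dm inc e σ.1)) := by
  exact (sxm_all _ A e h he rfl).2.1 le_rfl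

/-- Filter by the least element, with rank `dm`. On a piece all group elements are trivial. -/
theorem gd_SD (h : CoCell r A dm inc) (hBA : B ⊆ A) (hB : ∀ a ∈ B, ∀ b ∈ A, r a b → b ∈ B)
    {Γ : Type} [Group Γ] {c : α → α → Γ} (hc : Flat r (OC r A) c) :
    Gd l (PhiG Γ F25)
      (cpar (fun x : ↥(A \ B) => pc dm x.1) (fun x : ↥(OC r A \ OC r B) => ps x.1))
      (cone (rs (A \ B) (A \ B) (Dc inc c)) (rs (OC r A \ OC r B) (OC r A \ OC r B) (DG r c))
        (rs (A \ B) (OC r A \ OC r B) (SD Γ dm inc))) := by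
  have h1 : ∀ σ ∈ OC r A \ OC r B, bt r σ ∈ A \ B := by
    intro σ hσ
    obtain ⟨h2, h3⟩ := Finset.mem_sdiff.1 hσ
    obtain ⟨-, h4, h5⟩ := sxm_bt h.po h2
    exact Finset.mem_sdiff.2 ⟨h4, fun h6 => h3 (mem_OC.2
      ⟨fun u hu => hB _ h6 u ((mem_OC.1 h2).1 hu) (h5 u hu), (mem_OC.1 h2).2⟩)⟩
  refine gd_filt (cm_SD h hBA hB hc).cone (Sum.elim (fun x => x.1) fun σ => bt r σ.1) dm ?_
    fun k => ?_
  · rintro (⟨a, ha⟩ | ⟨σ, hσ⟩) (⟨b, hb⟩ | ⟨ρ, hρ⟩) h0
    · have h2 : inc a b ≠ 0 := fun h2 => h0 (by simp [cone, rs, Dc, h2])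
      have h3 := (h.face a (Finset.mem_sdiff.1 ha).1 b (Finset.mem_sdiff.1 hb).1 h2).2
      exact Or.inr (h3 ▸ Nat.lt_succ_self _)
    · have h2 : sd dm inc a ρ ≠ 0 := fun h2 => h0 (by simp [cone, rs, SD, h2])
      exact Or.inl (sxm_sd h (Finset.mem_sdiff.1 ha).1 (mem_OC.1 (Finset.mem_sdiff.1 hρ).1).1
        h2).2.1.symm
    · exact absurd rfl h0
    · have h2 : Dz r σ ρ ≠ 0 := fun h2 => h0 (by simp [cone, rs, DG, h2])
      exact sxm_Dz h (Finset.mem_sdiff.1 hσ).1 (Finset.mem_sdiff.1 hρ).1 h2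
  by_cases hk : k ∈ A \ B
  · obtain ⟨hkA, hkB⟩ := Finset.mem_sdiff.1 hk
    have h2 := sxm_all _ A k h hkA rfl
    have h3 : ∀ σ ∈ (OC r A).filter (fun σ => bt r σ = k), σ ∈ OC r A \ OC r B := fun σ hσ =>
      Finset.mem_sdiff.2 ⟨(Finset.mem_filter.1 hσ).1, fun h4 => hkB ((mem_OC.1 h4).1
        ((Finset.mem_filter.1 hσ).2 ▸ (sxm_bt h.po (Finset.mem_filter.1 hσ).1).1))⟩
    have h4 : c k k = 1 := hc.refl (cx_OC h.po) ((single_mem_OC h.po).2 hkA)
    refine (sxm_blk (Sum.map (fun _ => ⟨k, hk⟩) fun σ => ⟨σ.1, h3 σ.1 σ.2⟩)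
      (Sum.map_injective.2 ⟨fun _ _ _ => rfl, fun _ _ h0 => Subtype.ext (congrArg (·.1) h0)⟩)
      ?_ ?_ (fun _ _ => rfl)).1 (gd_of_int h2.1 (h2.2.1 le_rfl) (fun _ => 1) ?_)
    · rintro (⟨x, hx⟩ | ⟨σ, hσ⟩)
      · constructor
        · rintro rfl
          exact ⟨Sum.inl (), rfl⟩
        · rintro ⟨_ | _, h0⟩ <;> cases h0
          rfl
      · constructor
        · exact fun h0 => ⟨Sum.inr ⟨σ, Finset.mem_filter.2 ⟨(Finset.mem_sdiff.1 hσ).1, h0⟩⟩, rfl⟩
        · rintro ⟨_ | ⟨ρ, hρ⟩, h0⟩ <;> cases h0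
          exact (Finset.mem_filter.1 hρ).2
    · rintro (_ | _) <;> rfl
    · rintro (_ | ⟨σ, hσ⟩) (_ | ⟨ρ, hρ⟩)
      · simp [cone, rs, Dc, sxm_inc h hkA]
      · simp [cone, rs, SD]
      · simp [cone]
      · simp [cone, rs, DG, (Finset.mem_filter.1 hσ).2, (Finset.mem_filter.1 hρ).2, h4]
  · have : IsEmpty {x : ↥(A \ B) ⊕ ↥(OC r A \ OC r B) //
        Sum.elim (fun x => x.1) (fun σ => bt r σ.1) x = k} := ⟨by
      rintro ⟨x | σ, rfl⟩
      · exact hk x.2
      · exact hk (h1 σ.1 σ.2)⟩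
    exact gd_empty

/-- The cellular complex of a good pair is good. -/
theorem gd_Dc (h : CoCell r A dm inc) (hB : ∀ a ∈ B, ∀ b ∈ A, r a b → b ∈ B)
    (hg : GP r l B A) {Γ : Type} [Group Γ] {c : α → α → Γ} (hc : Flat r (OC r A) c) :
    Gd l (PhiG Γ F25) (fun x : ↥(A \ B) => pc dm x.1) (rs (A \ B) (A \ B) (Dc inc c)) := by
  exact (gd_iff_of_cone (cm_SD h hg.2.1 hB hc) (gd_SD h hg.2.1 hB hc)).2 (hg.2.2.gd Γ c hc)

theorem sxm_EV (h : CoCell (swap r) A dm inc) {Γ : Type} [Group Γ] (c : α → α → Γ) {t : α}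
    (ht : t ∈ A) {σ : Finset α} (hσ : σ ∈ OC r A) :
    SD Γ dm inc t σ * Gop r c σ = EV r dm inc c t σ := by
  unfold SD Gop EV
  rw [MonoidAlgebra.single_mul_single, one_mul, mul_comm (eps σ)]
  by_cases h0 : sd dm inc t σ = 0
  · simp [h0]
  · rw [(sxm_sd h ht (mem_OC.1 hσ).1 h0).2.1]

theorem sxm_empty : OC (swap r) A \ OC (swap r) ∅ = OC r A := by
  rw [OC_swap, Finset.sdiff_eq_self_iff_disjoint, Finset.disjoint_right]
  exact fun σ h0 _ => sxm_ne h0 (Finset.subset_empty.1 (mem_OC.1 h0).1)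

/-- `EV` is the product of `SD` for the opposite order with the diagonal matrix `Gop`. -/
theorem cm_EV (h : CoCell (swap r) A dm inc) {Γ : Type} [Group Γ] {c : α → α → Γ}
    (hc : Flat r (OC r A) c) :
    CM (fun x : ↥A => pc dm x.1) (fun x : ↥(OC r A) => ps x.1)
      (rs A A (Dc inc (cop c))) (rs (OC r A) (OC r A) (DG r c))
      (rs A (OC r A) (EV r dm inc c)) := by
  have hL : Cx r (OC r A) := cx_OC h.po.swap
  have hc' : Flat (swap r) (OC (swap r) A) (cop c) := by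
    rw [OC_swap]
    exact hc.cop hL
  have h1 := cm_SD h (Finset.empty_subset A) (fun a ha => absurd ha (Finset.notMem_empty a)) hc'
  rw [sxm_empty, Finset.sdiff_empty] at h1
  have h2 : CM (fun x : ↥(OC r A) => ps x.1) (fun x : ↥(OC r A) => ps x.1)
      (rs (OC r A) (OC r A) (DG (swap r) (cop c))) (rs (OC r A) (OC r A) (DG r c))
      (Matrix.diagonal fun x => Gop r c x.1) := by
    refine ⟨h1.dm, dm_DG_abs hL hc, fun x y h0 => ?_, Matrix.ext fun x y => ?_⟩
    · rw [by_contra fun hx : x ≠ y => h0 (Matrix.diagonal_apply_ne _ hx)]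
    · rw [Matrix.mul_diagonal, Matrix.diagonal_mul]
      exact DG_swap hL hc x.2 y.2
  have h3 := h1.comp h2
  rwa [show rs A (OC r A) (SD Γ dm inc) * (Matrix.diagonal fun x : ↥(OC r A) => Gop r c x.1) =
    rs A (OC r A) (EV r dm inc c) from Matrix.ext fun x y => by
      rw [Matrix.mul_diagonal]
      exact sxm_EV h c x.2 y.2] at h3

theorem gd_EV (h : CoCell (swap r) A dm inc) {Γ : Type} [Group Γ] {c : α → α → Γ}
    (hc : Flat r (OC r A) c) :
    Gd l (PhiG Γ F25) (cpar (fun x : ↥A => pc dm x.1) (fun x : ↥(OC r A) => ps x.1))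
      (cone (rs A A (Dc inc (cop c))) (rs (OC r A) (OC r A) (DG r c))
        (rs A (OC r A) (EV r dm inc c))) := by
  have hL : Cx r (OC r A) := cx_OC h.po.swap
  have hc' : Flat (swap r) (OC (swap r) A) (cop c) := by
    rw [OC_swap]
    exact hc.cop hL
  have h1 := gd_SD (l := l) h (Finset.empty_subset A)
    (fun a ha => absurd ha (Finset.notMem_empty a)) hc'
  rw [sxm_empty, Finset.sdiff_empty] at h1
  let g : Finset α → ZG Γ := fun σ => MonoidAlgebra.single (c (bt r σ) (bt (swap r) σ)) (eps σ)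
  have e1 : ∀ σ, g σ * Gop r c σ = 1 := fun σ => by
    simp only [g, Gop, MonoidAlgebra.single_mul_single, mul_inv_cancel, eps_mul_self,
      MonoidAlgebra.one_def]
  have e2 : ∀ σ, Gop r c σ * g σ = 1 := fun σ => by
    simp only [g, Gop, MonoidAlgebra.single_mul_single, inv_mul_cancel, eps_mul_self,
      MonoidAlgebra.one_def]
  refine (alge2_diag h1 (g := Sum.elim (fun _ => 1) fun σ => g σ.1)
    (g' := Sum.elim (fun _ => 1) fun σ => Gop r c σ.1) ?_ ?_ ?_).of_equiv (Equiv.refl _)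
    (fun _ => rfl) ?_
  · rintro (_ | σ)
    · exact one_mul 1
    · exact e1 σ.1
  · rintro (_ | σ)
    · exact one_mul 1
    · exact e2 σ.1
  · rintro φ hφ (_ | σ)
    · simp
    · have e3 : g σ.1 = eps σ.1 • MonoidAlgebra.single (c (bt r σ.1) (bt (swap r) σ.1)) 1 := by
        simp [g]
      have e4 : ((eps σ.1 : ℤ) : F25) ^ 8 = 1 := by
        rw [show (8 : ℕ) = 2 * 4 from rfl, pow_mul, sq, ← Int.cast_mul, eps_mul_self, Int.cast_one,
          one_pow]
      rw [Sum.elim_inr, e3, map_zsmul, zsmul_eq_mul, mul_pow, e4, hφ, one_mul]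
  · rintro (t | σ) (u | ρ)
    · simp [cone]
    · simpa [cone, rs] using (sxm_EV h c t.2 ρ.2).symm
    · simp [cone]
    · have e3 := DG_swap hL hc σ.2 ρ.2
      simp only [cone, rs, Equiv.refl_apply, Matrix.of_apply, Matrix.fromBlocks_apply₂₂,
        Matrix.neg_apply, Sum.elim_inr, mul_neg, neg_mul, mul_assoc, e3]
      rw [← mul_assoc, e1, one_mul]

end Pool.Agent.Lib.MP_5ceaf9_gt
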