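import Pool.Agent.Lib.MP_5ceaf9_gt.Inv
import Pool.Agent.Lib.MP_5ceaf9_gt.SxK2
import Pool.Agent.Lib.MP_5ceaf9_gt.SxM

/-! Definitions shared by the parts E, F and G. -/

noncomputable section

namespace Pool.Agent.Lib.MP_5ceaf9_gt

open Classical Function

/-- The sign of a class modulo two. -/
def sg2 (x : ZMod 2) : ℤ := if x = 0 then 1 else -1

/-- Duality data: `N` is a five-dimensional cell complex whose cells have their faces above them,
`U` the set of interior cells, which is at the same time a two-dimensional cell complex whose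
cells have their faces below them; `δ` is the orientation character. -/
structure DD {α : Type} [DecidableEq α] [Nonempty α] (r : α → α → Prop) (N U : Finset α)
    (dm : α → ℕ) (inc : α → α → ℤ) (δ : α → α → ZMod 2) : Prop where
  sub : U ⊆ N
  down : ∀ b ∈ U, ∀ a ∈ N, r a b → a ∈ U
  dimU : ∀ a ∈ U, dm a ≤ 2
  dimN : ∀ a ∈ N, dm a ≤ 5
  zero : ∀ a ∈ N, dm a = 0 → a ∈ U
  cU : CoCell (swap r) U dm inc
  cN : CoCell r N (fun a => 5 - dm a) (fun e f => sg2 (δ e f) * inc f e)
  flat : Flat2 r (OC r N) δ
  gpU : GP r 2 U N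
  gpB : GP r 0 (N \ U) N
  conn : Conn r (OC r U)

/-- A rank function with values at most two. -/
structure Rk {α : Type} (r : α → α → Prop) (A : Finset α) (k : α → ℕ) : Prop where
  le : ∀ a ∈ A, k a ≤ 2
  lt : ∀ a ∈ A, ∀ b ∈ A, r a b → a ≠ b → k a < k b

/-- The output of part G: two posets of height two and a map between them. -/
structure GData {α β : Type} [DecidableEq α] [DecidableEq β] [Nonempty α] [Nonempty β]
    (r : α → α → Prop) (r' : β → β → Prop) (Y : Finset α) (X : Finset β) (kY : α → ℕ)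
    (kX : β → ℕ) (f : α → β) (ω : β → β → ZMod 2) : Prop where
  rkY : Rk r Y kY
  rkX : Rk r' X kX
  me : ME r r' 1 Y X f
  flat : Flat2 r' (OC r' X) ω
  conn : Conn r' (OC r' X)
  tv : TV r' (OC r' X) ω
  ex : EX r (OC r Y) (fun a b => ω (f a) (f b))

end Pool.Agent.Lib.MP_5ceaf9_gt
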