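import Pool.Agent.Lib.MP_5ceaf9_gt.ABLat
import Pool.Agent.Lib.MP_5ceaf9_gt.Shared

/-! Definitions for the lattice models: stretch maps, the tripled poset, labelled posets and their
lattice complexes. -/

noncomputable section

namespace Pool.Agent.Lib.MP_5ceaf9_gt

open Classical Function

/-- Stretch maps of the line. -/
structure St (θ : ℤ → ℤ) : Prop where
  mono : Monotone θ
  surj : Surjective θ
  odd : ∀ a, θ (-a) = -θ a
  le : ∀ a b, le0 a b → le0 (θ a) (θ b)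

/-- The stretch map with blocks of length `2 M - 1` around the multiples of `2 M`. -/
def th (M x : ℤ) : ℤ := (x + M) / (2 * M) - (M - x) / (2 * M)

/-- The map induced on intervals. -/
def th2 (θ : ℤ → ℤ) (e : ℤ) : ℤ := θ (a1 e) + θ (b1 e)

/-- The map induced on the quotient lattice. -/
def cq {n : ℕ} (η : Fin n → Bool) (θ : ℤ → ℤ) (x : QL η) : QL η := pq η (cw θ x.out)

/-- The order of the tripled poset. -/
def r3 {β : Type} (r : β → β → Prop) (a b : β × ℕ) : Prop := a = b ∨ (a.2 < b.2 ∧ r a.1 b.1)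

/-- The tripled poset. -/
def X3 {β : Type} (X : Finset β) : Finset (β × ℕ) := X ×ˢ Finset.range 3

/-- The sheet of a signed label. -/
def sh (z : ℤ) : ZMod 2 := if 0 < z then 0 else 1

/-- A poset with rank function, class modulo two and labels, and two sizes. -/
structure LD (α : Type) where
  /-- The order. -/
  r : α → α → Prop
  /-- The elements. -/
  R : Finset α
  /-- The rank. -/
  k : α → ℕ
  /-- The class modulo two. -/
  ω : α → α → ZMod 2
  /-- The labels. -/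
  lam : α → ℤ
  /-- The bound for the labels. -/
  Lb : ℤ
  /-- The side of the square. -/
  m : ℤ

namespace LD

variable {α γ : Type} [DecidableEq α] [Nonempty α] [DecidableEq γ] [Nonempty γ] (D : LD α)

/-- The conditions on labelled posets. -/
structure Ok : Prop where
  po : POn D.r D.R
  rk : Rk D.r D.R D.k
  flat : Flat2 D.r (OC D.r D.R) D.ω
  pos : ∀ v ∈ D.R, 0 < D.lam v
  ev : ∀ v ∈ D.R, D.lam v % 2 = 0
  le : ∀ v ∈ D.R, D.lam v ≤ D.Lb
  inj : Set.InjOn D.lam D.R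
  mpos : 0 < D.m
  mev : D.m % 2 = 0
  Lev : D.Lb % 2 = 0

/-- The element with label `|z|`. -/
def el (z : ℤ) : α := invFunOn D.lam D.R |z|

/-- `z` is a signed label of an element of rank `i`. -/
def O (i : ℕ) (z : ℤ) : Prop := ∃ v ∈ D.R, D.k v = i ∧ D.lam v = |z|

/-- The order of the double cover, on signed labels. -/
def Rl (z w : ℤ) : Prop := D.r (D.el z) (D.el w) ∧ sh w = sh z + D.ω (D.el z) (D.el w)

/-- The points of the lattice complex. -/
structure In (x : Lat 5) : Prop where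
  l3 : 0 ≤ x 3
  u3 : x 3 ≤ D.m
  l4 : 0 ≤ x 4
  u4 : x 4 ≤ D.m
  b0 : |x 0| ≤ D.Lb
  b1 : |x 1| ≤ D.Lb
  b2 : |x 2| ≤ D.Lb
  o0 : x 4 ≠ 0 → D.O 0 (x 0)
  o1 : x 3 ≠ D.m → D.O 1 (x 1)
  o2 : x 3 ≠ 0 → x 4 ≠ D.m → D.O 2 (x 2)
  r01 : x 4 ≠ 0 → x 3 ≠ D.m → D.Rl (x 0) (x 1)
  r02 : x 4 ≠ 0 → x 3 ≠ 0 → x 4 ≠ D.m → D.Rl (x 0) (x 2)
  r12 : x 3 ≠ D.m → x 3 ≠ 0 → x 4 ≠ D.m → D.Rl (x 1) (x 2)

/-- The lattice complex. -/
def S : Finset (Lat 5) :=
  (Fintype.piFinset fun _ => Finset.Icc (-(D.Lb + D.m)) (D.Lb + D.m)).filter D.In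

/-- The largest signed label of a point. -/
def top (x : Lat 5) : ℤ :=
  if x 3 ≠ 0 ∧ x 4 ≠ D.m then x 2 else if x 3 ≠ D.m then x 1 else x 0

/-- The map from the quotient of the lattice complex to the poset. -/
def psi (x : QL η5) : α := D.el (D.top x.out)

/-- The complex of `E` lies deep in the stretched complex of `D`, along `F`. -/
structure Nest (D : LD γ) (E : LD α) (F : α → γ) (M : ℤ) : Prop where
  okD : D.Ok
  okE : E.Ok
  mD : D.m = 2
  mE : E.m = 2 * M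
  odd : M % 2 = 1
  three : 3 ≤ M
  mo : Mo E.r D.r E.R D.R F
  rk : ∀ v ∈ E.R, D.k (F v) = E.k v
  om : ∀ u ∈ E.R, ∀ v ∈ E.R, E.r u v → E.ω u v = D.ω (F u) (F v)
  lam : ∀ v ∈ E.R, |E.lam v - M * D.lam (F v)| ≤ M - 2
  Lb : E.Lb ≤ M * D.Lb + M - 2

end LD

end Pool.Agent.Lib.MP_5ceaf9_gt
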