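import Pool.Agent.Lib.MP_5ceaf9_gt.EIDefs

/-! Images of invariant sets in the quotient of the lattice. -/

noncomputable section

namespace Pool.Agent.Lib.MP_5ceaf9_gt

open Classical Function

variable {n : ℕ} (η : Fin n → Bool)

theorem rp_zero : (rp 0 : Lat n → Lat n → Prop) = le1 := by
  funext x y
  refine propext (forall_congr' fun i => ?_)
  unfold le0
  omega

theorem rp_one : (rp 1 : Lat n → Lat n → Prop) = swap le1 := by
  funext x y
  refine propext (forall_congr' fun i => ?_)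
  unfold le0
  omega

theorem dp_zero : (dp 0 : Lat n → ℕ) = dimE := rfl

theorem dimE_add_odE (e : Lat n) : dimE e + odE e = n := by
  have h := Finset.card_filter_add_card_filter_not (s := (Finset.univ : Finset (Fin n)))
    (fun j => e j % 2 = 0)
  rw [Finset.card_univ, Fintype.card_fin] at h
  have h2 : Finset.univ.filter (fun j => ¬ e j % 2 = 0) =
      Finset.univ.filter (fun j => e j % 2 = 1) := Finset.filter_congr fun j _ => by omega
  rw [h2] at h
  exact h

theorem odE_fl (e : Lat n) : odE (fl η e) = odE e := by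
  have h1 := dimE_add_odE e
  have h2 := dimE_add_odE (fl η e)
  rw [dimE_fl] at h2
  omega

theorem out_pq (a : Lat n) : (pq η a).out = a ∨ (pq η a).out = fl η a :=
  (pq_eq_iff η).1 (pq_out η (pq η a)).symm

theorem dimE_out (a : Lat n) : dimE (pq η a).out = dimE a := by
  rcases out_pq η a with h | h <;> rw [h]
  exact dimE_fl η a

theorem dmQ_pq (a : Lat n) : dmQ η (pq η a) = odE a := by
  unfold dmQ
  rcases out_pq η a with h | h <;> rw [h]
  exact odE_fl η a

theorem le1_fl_comm {a b : Lat n} : le1 a (fl η b) ↔ le1 (fl η a) b := by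
  rw [← le1_fl_iff η, fl_fl]

theorem lq_pq' {a b : Lat n} : lq η (pq η a) (pq η b) ↔ le1 a b ∨ le1 a (fl η b) := by
  rw [lq_pq, le1_fl_comm]

theorem mem_bar {A : Finset (Lat n)} (iA : Invt η A) {a : Lat n} :
    pq η a ∈ A.image (pq η) ↔ a ∈ A := by
  rw [Finset.mem_image]
  constructor
  · rintro ⟨b, hb, h⟩
    rcases (pq_eq_iff η).1 h with rfl | rfl
    · exact hb
    · exact iA _ hb
  · exact fun h => ⟨a, h, rfl⟩

theorem out_mem {A : Finset (Lat n)} (iA : Invt η A) {x : QL η} :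
    x.out ∈ A ↔ x ∈ A.image (pq η) := by
  rw [← mem_bar η iA, pq_out]

theorem bar_sdiff {A B : Finset (Lat n)} (iA : Invt η A) (iB : Invt η B) :
    (A \ B).image (pq η) = A.image (pq η) \ B.image (pq η) := by
  have iAB : Invt η (A \ B) := fun a ha => by
    rw [Finset.mem_sdiff] at ha ⊢
    exact ⟨iA a ha.1, fun h => ha.2 ((invt_iff iB).1 h)⟩
  ext x
  rw [Finset.mem_sdiff, ← out_mem η iAB, ← out_mem η iA, ← out_mem η iB, Finset.mem_sdiff]

theorem invt_sdiff {A B : Finset (Lat n)} (iA : Invt η A) (iB : Invt η B) : Invt η (A \ B) :=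
  fun a ha => by
    rw [Finset.mem_sdiff] at ha ⊢
    exact ⟨iA a ha.1, fun h => ha.2 ((invt_iff iB).1 h)⟩

theorem pon_le1 (A : Finset (Lat n)) : POn le1 A :=
  ⟨fun a _ => le1_refl a, fun _ _ _ _ => le1_antisymm, fun _ _ _ _ _ _ => le1_trans⟩

/-- Every relation in the quotient lifts with a prescribed lower end. -/
theorem lift_up {a : Lat n} {y : QL η} (h : lq η (pq η a) y) : ∃ b, pq η b = y ∧ le1 a b := by
  rw [← pq_out η y, lq_pq'] at h
  rcases h with h | h
  · exact ⟨_, pq_out η y, h⟩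
  · exact ⟨_, by rw [pq_fl, pq_out], h⟩

/-- Every relation in the quotient lifts with a prescribed upper end. -/
theorem lift_dn {b : Lat n} {x : QL η} (h : lq η x (pq η b)) : ∃ a, pq η a = x ∧ le1 a b := by
  rw [← pq_out η x, lq_pq] at h
  rcases h with h | h
  · exact ⟨_, pq_out η x, h⟩
  · exact ⟨_, by rw [pq_fl, pq_out], h⟩

theorem lq_of_le1 {a b : Lat n} (h : le1 a b) : lq η (pq η a) (pq η b) := (lq_pq η).2 (Or.inl h)

theorem pon_lq (A : Finset (QL η)) : POn (lq η) A := by
  refine ⟨fun a _ => Or.inl (le1_refl _), fun x _ y _ h h' => ?_, fun x _ y _ z _ h h' => ?_⟩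
  · rw [← pq_out η x] at h h'
    obtain ⟨b, rfl, hb⟩ := lift_up η h
    obtain ⟨c, hc, hbc⟩ := lift_up η h'
    have h1 := dimE_anti hbc
    have h2 : dimE c = dimE x.out := by
      rcases (pq_eq_iff η).1 hc with h | h <;> rw [h]
      exact (dimE_fl η c).symm
    rw [← eq_of_le1_of_dimE hb (by omega), pq_out]
  · rw [← pq_out η x] at h ⊢
    obtain ⟨b, rfl, hb⟩ := lift_up η h
    obtain ⟨c, rfl, hc⟩ := lift_up η h'
    exact lq_of_le1 η (le1_trans hb hc)

/-- A free point is not below both a point and its flip. -/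
theorem not_le1_fl {a b : Lat n} (ha : fl η a ≠ a) (h : le1 a b) : ¬ le1 a (fl η b) :=
  fun h' => ha (fl_eq_of_le1 η h ((le1_fl_comm η).1 h'))

/-- Points above a free point are free. -/
theorem free_of_le1 {a b : Lat n} (ha : fl η a ≠ a) (h : le1 a b) : fl η b ≠ b :=
  fun h' => not_le1_fl η ha h (by rw [h']; exact h)

/-- A sum over a free invariant set, orbit by orbit. -/
theorem sum_orbit {M : Type} [AddCommMonoid M] {A : Finset (Lat n)} (iA : Invt η A)
    (fA : Free η A) (F : Lat n → M) :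
    ∑ b ∈ A, F b = ∑ x ∈ A.image (pq η), (F x.out + F (fl η x.out)) := by
  rw [← Finset.sum_fiberwise_of_maps_to (s := A) (t := A.image (pq η)) (g := pq η)
    (fun a ha => Finset.mem_image_of_mem _ ha)]
  refine Finset.sum_congr rfl fun x hx => ?_
  have hx' := (out_mem η iA).2 hx
  rw [← Finset.sum_pair (fA _ hx').symm]
  refine Finset.sum_congr ?_ fun _ _ => rfl
  ext a
  rw [Finset.mem_filter, Finset.mem_insert, Finset.mem_singleton, ← pq_eq_iff, pq_out]
  refine ⟨fun h => h.2.symm, fun h => ⟨?_, h.symm⟩⟩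
  rw [← mem_bar η iA, ← h]
  exact hx

theorem cb_pq {Γ : Type} {c : Lat n → Lat n → Γ} (hc : InvC η c) {a b : Lat n} (ha : fl η a ≠ a)
    (h : le1 a b) : cb η c (pq η a) (pq η b) = c a b := by
  have h1 := not_le1_fl η ha h
  unfold cb
  rcases out_pq η a with e1 | e1 <;> rcases out_pq η b with e2 | e2 <;> rw [e1, e2]
  · rw [if_pos h]
  · rw [if_neg h1, fl_fl]
  · rw [if_neg (fun h' => h1 ((le1_fl_comm η).2 h')), hc]
  · rw [if_pos (le1_fl η h), hc]

theorem flat2_dlt {A : Finset (Lat n)} (iA : Invt η A) (fA : Free η A) :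
    Flat2 (lq η) (OC (lq η) (A.image (pq η))) (dlt η) := by
  unfold Flat2
  rw [flat_OC (pon_lq η _)]
  intro x hx y hy z _ h h'
  have fx := fA _ ((out_mem η iA).2 hx)
  have fy := fA _ ((out_mem η iA).2 hy)
  rw [← ofAdd_add]
  congr 1
  unfold dlt
  by_cases h1 : le1 x.out y.out <;> by_cases h2 : le1 y.out z.out
  · rw [if_pos h1, if_pos h2, if_pos (le1_trans h1 h2), add_zero]
  · have h3 : le1 y.out (fl η z.out) := (le1_fl_comm η).2 (h'.resolve_left h2)
    rw [if_pos h1, if_neg h2, if_neg, zero_add]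
    exact fun h4 => not_le1_fl η fx h4 (le1_trans h1 h3)
  · have h3 : le1 x.out (fl η y.out) := (le1_fl_comm η).2 (h.resolve_left h1)
    rw [if_neg h1, if_pos h2, if_neg, add_zero]
    exact fun h4 => not_le1_fl η fx h4 (le1_trans h3 (le1_fl η h2))
  · rw [if_neg h1, if_neg h2, if_pos]
    · decide
    · exact le1_trans ((le1_fl_comm η).2 (h.resolve_left h1)) (h'.resolve_left h2)

theorem mem_NN {S : Finset (Lat n)} {e : Lat n} : e ∈ NN S ↔ cw a1 e ∈ S := by
  rw [NN, Finset.mem_filter, and_iff_right_iff_imp]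
  intro h
  refine Finset.mem_biUnion.2 ⟨_, h, Fintype.mem_piFinset.2 fun i => ?_⟩
  simp only [Finset.mem_Icc, cw, a1]
  omega

theorem mem_UU {S : Finset (Lat n)} {e : Lat n} : e ∈ UU S ↔ cw b1 e ∈ S := by
  rw [UU, Finset.mem_filter, and_iff_right_iff_imp]
  intro h
  refine Finset.mem_biUnion.2 ⟨_, h, Fintype.mem_piFinset.2 fun i => ?_⟩
  simp only [Finset.mem_Icc, cw, b1]
  omega

theorem cwa_le_cwb (e : Lat n) : le1 (cw a1 e) (cw b1 e) := fun i => by
  simp only [cw, a1, b1, le0]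
  omega

theorem cwa_anti {e f : Lat n} (h : le1 e f) : le1 (cw a1 f) (cw a1 e) := fun i => by
  have := h i
  simp only [cw, a1, le0] at this ⊢
  omega

theorem cwb_mono {e f : Lat n} (h : le1 e f) : le1 (cw b1 e) (cw b1 f) := fun i => by
  have := h i
  simp only [cw, b1, le0] at this ⊢
  omega

theorem cwa_fl (e : Lat n) : cw a1 (fl η e) = fl η (cw a1 e) := by
  funext i
  by_cases hi : η i
  · simp only [cw, fl_apply, hi, if_true, a1]
    omega
  · simp [cw, fl_apply, hi]

theorem cwb_fl (e : Lat n) : cw b1 (fl η e) = fl η (cw b1 e) := by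
  funext i
  by_cases hi : η i
  · simp only [cw, fl_apply, hi, if_true, b1]
    omega
  · simp [cw, fl_apply, hi]

theorem odE_le_cwb (e : Lat n) : odE e ≤ odE (cw b1 e) := by
  unfold odE dp
  refine Finset.card_le_card fun i hi => ?_
  have h := (Finset.mem_filter.1 hi).2
  refine Finset.mem_filter.2 ⟨Finset.mem_univ _, ?_⟩
  change b1 (e i) % 2 = 1
  unfold b1
  omega

variable {η} {S : Finset (Lat n)}

theorem upC_NN (d : DnC S) : UpC (NN S) :=
  fun _ ha _ h => mem_NN.2 (d _ (mem_NN.1 ha) _ (cwa_anti h))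

theorem dnC_UU (d : DnC S) : DnC (UU S) :=
  fun _ hb _ h => mem_UU.2 (d _ (mem_UU.1 hb) _ (cwb_mono h))

theorem UU_subset_NN (d : DnC S) : UU S ⊆ NN S :=
  fun e he => mem_NN.2 (d _ (mem_UU.1 he) _ (cwa_le_cwb e))

theorem invt_NN (i : Invt η S) : Invt η (NN S) :=
  fun e he => mem_NN.2 (by rw [cwa_fl]; exact i _ (mem_NN.1 he))

theorem invt_UU (i : Invt η S) : Invt η (UU S) :=
  fun e he => mem_UU.2 (by rw [cwb_fl]; exact i _ (mem_UU.1 he))

theorem free_NN (f : Free η S) : Free η (NN S) :=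
  fun e he h => f _ (mem_NN.1 he) (by rw [← cwa_fl, h])

theorem free_UU (f : Free η S) : Free η (UU S) :=
  fun e he h => f _ (mem_UU.1 he) (by rw [← cwb_fl, h])

theorem NN_mono {S' : Finset (Lat n)} (h : S ⊆ S') : NN S ⊆ NN S' :=
  fun _ he => mem_NN.2 (h (mem_NN.1 he))

theorem UU_mono {S' : Finset (Lat n)} (h : S ⊆ S') : UU S ⊆ UU S' :=
  fun _ he => mem_UU.2 (h (mem_UU.1 he))

end Pool.Agent.Lib.MP_5ceaf9_gt
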