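import Pool.Agent.Lib.MP_5ceaf9_gt.EIBar

/-! From good inclusions in the quotient to invariant cocycles upstairs. -/

noncomputable section

namespace Pool.Agent.Lib.MP_5ceaf9_gt

open Classical Function

variable {n : ℕ} (η : Fin n → Bool) {K L : Finset (Lat n)}

theorem flat_cb (iL : Invt η L) (fL : Free η L) {Γ : Type} [Group Γ] {c : Lat n → Lat n → Γ}
    (hc : InvC η c) (h : FlatL L c) :
    Flat (lq η) (OC (lq η) (L.image (pq η))) (cb η c) := by
  refine (flat_OC (pon_lq η _)).2 fun x hx y hy z hz hxy hyz => ?_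
  obtain ⟨a, ha, rfl⟩ := Finset.mem_image.1 hx
  obtain ⟨b, rfl, hab⟩ := lift_up η hxy
  obtain ⟨d, rfl, hbd⟩ := lift_up η hyz
  have hb := (mem_bar η iL).1 hy
  rw [cb_pq η hc (fL a ha) hab, cb_pq η hc (fL b hb) hbd,
    cb_pq η hc (fL a ha) (le1_trans hab hbd)]
  exact h a ha b hb d ((mem_bar η iL).1 hz) hab hbd

theorem e1_of_gp (hKL : K ⊆ L) (iK : Invt η K) (iL : Invt η L) (fL : Free η L)
    (h : GP (lq η) 0 (K.image (pq η)) (L.image (pq η))) : E1 η K L := by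
  intro Γ _ c hc hf
  have fK : Free η K := fun a ha => fL a (hKL ha)
  obtain ⟨c', h1, h2⟩ := h.2.2.eq1.ext Γ (cb η c) (flat_cb η iK fK hc hf)
  refine ⟨fun a b => c' (pq η a) (pq η b), fun a b => by simp only [pq_fl],
    fun a ha b hb d hd hab hbd => (flat_OC (pon_lq η _)).1 h1 _ (Finset.mem_image_of_mem _ ha) _
      (Finset.mem_image_of_mem _ hb) _ (Finset.mem_image_of_mem _ hd) (lq_of_le1 η hab)
      (lq_of_le1 η hbd), fun a ha b hb hab => ?_⟩
  rw [← cb_pq η hc (fK a ha) hab]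
  exact (agree_OC (pon_lq η _)).1 h2 _ (Finset.mem_image_of_mem _ ha) _
    (Finset.mem_image_of_mem _ hb) (lq_of_le1 η hab)

theorem e2_of_gp (hKL : K ⊆ L) (iK : Invt η K) (iL : Invt η L) (fL : Free η L)
    (h : GP (lq η) 0 (K.image (pq η)) (L.image (pq η))) : E2 η K L := by
  intro Γ _ c c' hc hc' hf hf' hag
  obtain ⟨g, h1, h2⟩ := h.2.2.eq1.uniq Γ (cb η c) (cb η c') (flat_cb η iL fL hc hf)
    (flat_cb η iL fL hc' hf') ((agree_OC (pon_lq η _)).2 fun x hx y hy hxy => by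
      obtain ⟨a, ha, rfl⟩ := Finset.mem_image.1 hx
      obtain ⟨b, rfl, hab⟩ := lift_up η hxy
      rw [cb_pq η hc (fL a (hKL ha)) hab, cb_pq η hc' (fL a (hKL ha)) hab]
      exact hag a ha b ((mem_bar η iK).1 hy) hab)
  refine ⟨fun a => g (pq η a), fun a => by simp only [pq_fl], fun a ha =>
    h1 _ ((single_mem_OC (pon_lq η _)).2 (Finset.mem_image_of_mem _ ha)), fun a ha b hb hab => ?_⟩
  have h3 := (agree_OC (pon_lq η _)).1 h2 _ (Finset.mem_image_of_mem _ ha) _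
    (Finset.mem_image_of_mem _ hb) (lq_of_le1 η hab)
  rwa [gau, cb_pq η hc (fL a ha) hab, cb_pq η hc' (fL a ha) hab] at h3

theorem connL_of_conn (iK : Invt η K) (h : Conn (lq η) (OC (lq η) (K.image (pq η)))) :
    ConnL η K := by
  obtain ⟨⟨x, hx⟩, h2⟩ := h
  refine ⟨Finset.image_nonempty.1 ⟨x, (single_mem_OC (pon_lq η _)).1 hx⟩, ?_⟩
  rintro T hT hr ⟨a0, ha0, h0⟩ a ha
  have key : ∀ b, (pq η b).out ∈ T ↔ b ∈ T := fun b => by
    rcases out_pq η b with e | e <;> rw [e]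
    exact ⟨fun h => fl_fl η b ▸ hT _ h, hT b⟩
  refine (key a).1 (h2 {y | y.out ∈ T} (fun y z hm hyz => ?_)
    ⟨pq η a0, (single_mem_OC (pon_lq η _)).2 (Finset.mem_image_of_mem _ ha0), (key a0).2 h0⟩ _
    ((single_mem_OC (pon_lq η _)).2 (Finset.mem_image_of_mem _ ha)))
  obtain ⟨hy, hz⟩ := (pair_mem_OC (pon_lq η _) hyz).1 hm
  obtain ⟨b, hb, rfl⟩ := Finset.mem_image.1 hy
  obtain ⟨d, rfl, hbd⟩ := lift_up η hyz
  exact (key b).trans ((hr b hb d ((mem_bar η iK).1 hz) hbd).trans (key d).symm)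

end Pool.Agent.Lib.MP_5ceaf9_gt
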