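import Pool.Agent.Lib.MP_5ceaf9_gt.EIDefs

/-! Contractions of relative cell complexes, directly and by duality. -/

noncomputable section

namespace Pool.Agent.Lib.MP_5ceaf9_gt

open Classical Function

variable {α : Type} [DecidableEq α] [Nonempty α] {r : α → α → Prop} {dm : α → ℕ}
  {inc : α → α → ℤ} {Γ : Type} [Group Γ] {c : α → α → Γ}

theorem ctr_of_up {N0 N1 L : Finset α} (h : CoCell r N1 dm inc)
    (hB : ∀ a ∈ N0, ∀ b ∈ N1, r a b → b ∈ N0) (g1 : GP r 1 N0 N1) (g0 : GP r 0 L N1)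
    (hX : N1 \ N0 ⊆ L) (hc : Flat r (OC r L) c) :
    Ctr (rs (N1 \ N0) (N1 \ N0) (Dc inc c)) := by
  obtain ⟨c', h1, h2⟩ := g0.2.2.eq1.ext Γ c hc
  rw [agree_OC (g0.1.mono g0.2.1)] at h2
  have e : rs (N1 \ N0) (N1 \ N0) (Dc inc c) = rs (N1 \ N0) (N1 \ N0) (Dc inc c') := by
    refine Matrix.ext fun x y => ?_
    change MonoidAlgebra.single (c x y) (inc x y) = MonoidAlgebra.single (c' x y) (inc x y)
    by_cases h0 : inc x y = 0
    · rw [h0, MonoidAlgebra.single_zero, MonoidAlgebra.single_zero]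
    · rw [h2 _ (hX x.2) _ (hX y.2)
        (h.face _ (Finset.mem_sdiff.1 x.2).1 _ (Finset.mem_sdiff.1 y.2).1 h0).1]
  rw [e]
  exact (gd_Dc h hB g1 h1).2.1 le_rfl

theorem eictr_add : ∀ a b : ZMod 2, sg2 (a + b) = sg2 b * sg2 a := by decide

theorem eictr_neg : ∀ a : ZMod 2, sg2 (-a) = sg2 a := by decide

/-- The anti-involution twisted by the sign. -/
def eictrHom (Γ : Type) [Group Γ] : Γ × Multiplicative (ZMod 2) →* (ZG Γ)ᵐᵒᵖ where
  toFun x := MulOpposite.op (MonoidAlgebra.single x.1⁻¹ (sg2 x.2.toAdd))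
  map_one' := by
    rw [Prod.fst_one, inv_one]
    rfl
  map_mul' x y := by
    rw [← MulOpposite.op_mul, MonoidAlgebra.single_mul_single, Prod.fst_mul, Prod.snd_mul,
      mul_inv_rev, toAdd_mul, eictr_add]

theorem ctr_of_dn {U0 U1 N1 L : Finset α} {δ : α → α → ZMod 2} (h : CoCell (swap r) U1 dm inc)
    (hB : ∀ a ∈ U0, ∀ b ∈ U1, r b a → b ∈ U0) (g1 : GP r 1 U0 U1) (sub : U1 ⊆ N1)
    (g0 : GP r 0 L N1) (hX : U1 \ U0 ⊆ L) (hδ : Flat2 r (OC r N1) δ) (hc : Flat r (OC r L) c) :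
    Ctr (rs (U1 \ U0) (U1 \ U0) (Dc (fun e f => sg2 (δ e f) * inc f e) c)) := by
  obtain ⟨c', h1, h2⟩ := g0.2.2.eq1.ext Γ c hc
  rw [agree_OC (g0.1.mono g0.2.1)] at h2
  have h3 : Flat r (OC r U1) fun a b => (c' a b, Multiplicative.ofAdd (δ a b)) :=
    fun a b d hm hab hbd => Prod.ext (h1 a b d (OC_mono sub hm) hab hbd)
      (hδ a b d (OC_mono sub hm) hab hbd)
  have h4 := h3.cop (cx_OC g1.1)
  rw [← OC_swap] at h4
  have h5 := ((gd_Dc h hB g1.swap h4).2.1 le_rfl).anti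
    (MonoidAlgebra.lift ℤ _ _ (eictrHom Γ)).toRingHom
  refine Eq.subst (motive := Ctr) (Matrix.ext fun x y => ?_) h5
  change (MonoidAlgebra.lift ℤ _ _ (eictrHom Γ) (MonoidAlgebra.single
    (c' x y, Multiplicative.ofAdd (δ x y))⁻¹ (inc y x))).unop =
      MonoidAlgebra.single (c x y) (sg2 (δ x y) * inc y x)
  rw [MonoidAlgebra.lift_single, MulOpposite.unop_smul]
  change inc y x • MonoidAlgebra.single (c' x y)⁻¹⁻¹ (sg2 (-δ x y)) = _
  rw [inv_inv, eictr_neg, MonoidAlgebra.smul_single, smul_eq_mul, mul_comm]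
  by_cases h0 : inc y x = 0
  · rw [h0, mul_zero, MonoidAlgebra.single_zero, MonoidAlgebra.single_zero]
  · rw [h2 _ (hX x.2) _ (hX y.2)
      (h.face _ (Finset.mem_sdiff.1 y.2).1 _ (Finset.mem_sdiff.1 x.2).1 h0).1]

theorem conn_insert {J : Finset α} {t f : α} (hp : POn r (insert t J)) (h : Conn r (OC r J))
    (hf : f ∈ J) (htf : r t f) : Conn r (OC r (insert t J)) := by
  have hJ := hp.mono (Finset.subset_insert t J)
  refine ⟨⟨t, (single_mem_OC hp).2 (Finset.mem_insert_self _ _)⟩, ?_⟩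
  rintro S hS ⟨a, ha, haS⟩ b hb
  have h1 : t ∈ S ↔ f ∈ S := hS t f ((pair_mem_OC hp htf).2
    ⟨Finset.mem_insert_self _ _, Finset.mem_insert_of_mem hf⟩) htf
  have h2 : ∀ x ∈ J, x ∈ S := fun x hx => by
    refine h.2 S (fun u v huv => hS u v (OC_mono (Finset.subset_insert t J) huv)) ?_ x
      ((single_mem_OC hJ).2 hx)
    rcases Finset.mem_insert.1 ((single_mem_OC hp).1 ha) with rfl | h3
    · exact ⟨f, (single_mem_OC hJ).2 hf, h1.1 haS⟩
    · exact ⟨a, (single_mem_OC hJ).2 h3, haS⟩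
  rcases Finset.mem_insert.1 ((single_mem_OC hp).1 hb) with rfl | h3
  · exact h1.2 (h2 f hf)
  · exact h2 b h3

theorem eictr_triv {J T : Finset α} {t : α} (hp : POn r (insert t J)) (h : CT r 0 J)
    (hmin : ∀ f ∈ J, ¬ r f t) (hT : ∀ f, f ∈ T ↔ f ∈ J ∧ r t f) (hc : Conn r (OC r T))
    (hf : Flat r (OC r (insert t J)) c) :
    ∃ g : α → Γ, ∀ a ∈ insert t J, ∀ b ∈ insert t J, r a b → c a b = g a * (g b)⁻¹ := by
  have ht := Finset.mem_insert_self t J
  have hs : T ⊆ insert t J := fun x hx => Finset.mem_insert_of_mem ((hT x).1 hx).1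
  have hpT := hp.mono hs
  obtain ⟨g, hg⟩ := h.triv (hf.mono (OC_mono (Finset.subset_insert t J)))
  obtain ⟨f, hf0⟩ := hc.1
  have h1 : ∀ x ∈ T, c t x * g x = c t f * g f := fun x hx =>
    hc.2 {x | c t x * g x = c t f * g f} (fun a b hm hab => by
      obtain ⟨ha, hb⟩ := (pair_mem_OC hpT hab).1 hm
      rw [Set.mem_ofPred, Set.mem_ofPred,
        ← (flat_OC hp).1 hf t ht a (hs ha) b (hs hb) ((hT a).1 ha).2 hab,
        hg a ((hT a).1 ha).1 b ((hT b).1 hb).1 hab, mul_assoc, inv_mul_cancel_right])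
      ⟨f, hf0, rfl⟩ x ((single_mem_OC hpT).2 hx)
  have hn : ∀ x ∈ J, x ≠ t := fun x hx e => hmin x hx (e ▸ hp.refl t ht)
  refine ⟨update g t (c t f * g f), fun a ha b hb hab => ?_⟩
  rcases Finset.mem_insert.1 ha with rfl | ha' <;> rcases Finset.mem_insert.1 hb with rfl | hb'
  · rw [mul_inv_cancel, hf.refl (cx_OC hp) ((single_mem_OC hp).2 ht)]
  · rw [update_self, update_of_ne (hn b hb'), ← h1 b ((hT b).2 ⟨hb', hab⟩), mul_inv_cancel_right]
  · exact absurd hab (hmin a ha')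
  · rw [update_of_ne (hn a ha'), update_of_ne (hn b hb'), hg a ha' b hb' hab]

/-- Adding a minimal element with connected upper link keeps level zero. -/
theorem ct0_insert {J T : Finset α} {t : α} (hp : POn r (insert t J)) (h : CT r 0 J)
    (hmin : ∀ f ∈ J, ¬ r f t) (hT : ∀ f, f ∈ T ↔ f ∈ J ∧ r t f) (hc : Conn r (OC r T)) :
    CT r 0 (insert t J) := by
  obtain ⟨f, hf⟩ := hc.1
  have hf' := (hT f).1 (Finset.singleton_subset_iff.1 (mem_OC.1 hf).1)
  have ha := Finset.mem_insert_self t J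
  have hs : {t} ⊆ insert t J := Finset.singleton_subset_iff.2 ha
  have hpt := hp.mono hs
  have ht := (single_mem_OC hpt).2 (Finset.mem_singleton_self t)
  refine ⟨t, ha, hp, hs, ge_zero (cx_OC hpt) (cx_OC hp) (OC_mono hs) ⟨fun Γ _ c hc => ?_,
    fun Γ _ c c' h1 h2 _ => ?_, fun S h1 h2 =>
      (conn_insert hp h.conn hf'.1 hf'.2).2 S h2 ⟨t, OC_mono hs ht, h1 t ht⟩⟩⟩
  · refine ⟨fun _ _ => 1, fun _ _ _ _ _ _ => mul_one 1, (agree_OC hpt).2 fun a ha b hb _ => ?_⟩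
    rw [Finset.mem_singleton.1 ha, Finset.mem_singleton.1 hb, hc.refl (cx_OC hpt) ht]
  · obtain ⟨g, hg⟩ := eictr_triv hp h hmin hT hc h1
    obtain ⟨g', hg'⟩ := eictr_triv hp h hmin hT hc h2
    refine ⟨fun x => g' x * ((g' t)⁻¹ * g t) * (g x)⁻¹, fun a ha => ?_,
      (agree_OC hp).2 fun a ha b hb hab => ?_⟩
    · rw [Finset.mem_singleton.1 ((single_mem_OC hpt).1 ha)]
      group
    · rw [gau, hg a ha b hb hab, hg' a ha b hb hab]
      group

end Pool.Agent.Lib.MP_5ceaf9_gt
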