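import Pool.Agent.Lib.MP_5ceaf9_gt.EICube

/-! The augmented cell complex of a cube is contractible. -/

noncomputable section

namespace Pool.Agent.Lib.MP_5ceaf9_gt

open Classical Function

variable {n : ℕ} {p : ℤ} {s : Lat n → Fin n → ℤ}

section alg

variable {ι κ : Type} [DecidableEq ι] [DecidableEq κ] {X : Finset ι} {M : ι → ι → ℤ}

theorem eictrc_rs (H : ι → ι → ℤ) (h : ∀ x ∈ X, ∀ z ∈ X,
    ∑ y ∈ X, M x y * H y z + ∑ y ∈ X, H x y * M y z = if x = z then 1 else 0) :
    Ctr (rs X X M) := by
  refine ⟨rs X X H, ?_⟩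
  ext x z
  rw [Matrix.add_apply, Matrix.mul_apply, Matrix.mul_apply, Matrix.one_apply]
  simp only [rs, Matrix.of_apply, Subtype.ext_iff]
  rw [Finset.sum_coe_sort X fun y => M x y * H y z, Finset.sum_coe_sort X fun y => H x y * M y z]
  exact h x x.2 z z.2

theorem eictrc_blk (q : ι → Prop) [DecidablePred fun x : ↥X => q x.1] {G : Finset κ} (φ : κ → ι)
    (hφ : Injective φ) (h : ∀ x, (x ∈ X ∧ q x) ↔ ∃ a ∈ G, φ a = x)
    {N : κ → κ → ℤ} (hG : Ctr (rs G G N)) (hN : ∀ a b, N a b = M (φ a) (φ b)) :
    Ctr (blk (rs X X M) fun x => q x.1) := by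
  obtain rfl : N = fun a b => M (φ a) (φ b) := funext₂ hN
  let e : ↥G ≃ {x : ↥X // q x.1} := Equiv.ofBijective
    (fun a => ⟨⟨φ a, ((h _).2 ⟨a, a.2, rfl⟩).1⟩, ((h _).2 ⟨a, a.2, rfl⟩).2⟩)
    ⟨fun a b k => Subtype.ext (hφ (congrArg (fun x => x.1.1) k)), fun x => by
      obtain ⟨a, ha, k⟩ := (h x.1.1).1 ⟨x.1.2, x.2⟩
      exact ⟨⟨a, ha⟩, Subtype.ext (Subtype.ext k)⟩⟩
  exact (ctr_reindex e).1 hG

end alg

theorem eictrc_trans {x y z : Lat n} (h : rp p x y) (h' : rp p y z) : rp p x z := fun i => by
  have h1 := h i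
  have h2 := h' i
  omega

theorem eictrc_one (hs : SgS s) {x v : Lat n} {i : Fin n} (hx : x i % 2 = p)
    (hv : v i = x i + 1) : MM p s x v * s x i = if v = x + Pi.single i 1 then 1 else 0 := by
  split_ifs with h
  · rw [h, MM_add hx, hs.sq]
  · refine mul_eq_zero_of_left ?_ _
    by_contra h0
    obtain ⟨j, -, h1⟩ := MM_ne h0
    by_cases hj : i = j
    · subst hj
      have h2 := congrFun (h1.resolve_left h) i
      rw [Pi.sub_apply, Pi.single_eq_same] at h2
      omega
    · rcases h1 with h1 | h1 <;> have h2 := congrFun h1 i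
      · rw [Pi.add_apply, Pi.single_eq_of_ne hj] at h2
        omega
      · rw [Pi.sub_apply, Pi.single_eq_of_ne hj] at h2
        omega

theorem eictrc_four (hs : SgS s) {x v : Lat n} {i : Fin n} (hv : v i = x i) :
    MM p s (x + Pi.single i 1) (v + Pi.single i 1) * s v i + s x i * MM p s x v = 0 := by
  have key : ∀ j, (v = x + Pi.single j 1 ∨ v = x - Pi.single j 1) → j ≠ i := by
    rintro j (h | h) rfl <;> have h2 := congrFun h j
    · rw [Pi.add_apply, Pi.single_eq_same] at h2
      omega
    · rw [Pi.sub_apply, Pi.single_eq_same] at h2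
      omega
  have alg : ∀ A B C D : ℤ, B * B = 1 → C * C = 1 → A * B = -(C * D) → B * D + A * C = 0 := by
    intro A B C D h1 h2 h3
    linear_combination B * C * h3 - A * C * h1 - B * D * h2
  by_cases h : ∃ j, x j % 2 = p ∧ (v = x + Pi.single j 1 ∨ v = x - Pi.single j 1)
  · obtain ⟨j, h1, h2⟩ := h
    have hj := key j h2
    have h3 : (x + Pi.single i 1 : Lat n) j % 2 = p := by
      rwa [Pi.add_apply, Pi.single_eq_of_ne hj, add_zero]
    rcases h2 with rfl | rfl
    · rw [add_right_comm, MM_add h3, MM_add h1]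
      exact alg _ _ _ _ (hs.sq _ _) (hs.sq _ _) (hs.anti x i j hj.symm 1 1 rfl rfl)
    · have h4 := hs.anti x i j hj.symm 1 (-1) rfl rfl
      rw [Pi.single_neg, ← sub_eq_add_neg] at h4
      rw [sub_add_eq_add_sub, MM_sub h3, MM_sub h1]
      linear_combination -alg _ _ _ _ (hs.sq _ _) (hs.sq _ _) h4
  · have h1 : MM p s x v = 0 := by
      by_contra h0
      exact h (MM_ne h0)
    have h2 : MM p s (x + Pi.single i 1) (v + Pi.single i 1) = 0 := by
      by_contra h0
      obtain ⟨j, h3, h4⟩ := MM_ne h0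
      rw [add_right_comm, ← sub_add_eq_add_sub, add_left_inj, add_left_inj] at h4
      rw [Pi.add_apply, Pi.single_eq_of_ne (key j h4), add_zero] at h3
      exact h ⟨j, h3, h4⟩
    rw [h1, h2, zero_mul, mul_zero, add_zero]

/-- The cells outside the lower face have an exact contraction. -/
theorem eictrc_up (hs : SgS s) {e : Lat n} {i : Fin n} (hi : e i % 2 = p) {G : Finset (Lat n)}
    (hG : ∀ y, y ∈ G ↔ rp p e y ∧ y i ≠ e i - 1) : Ctr (rs G G (MM p s)) := by
  have c1 : ∀ u ∈ G, u i = e i ∨ u i = e i + 1 := fun u hu => by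
    have h1 := ((hG u).1 hu).1 i
    have h2 := ((hG u).1 hu).2
    omega
  have c2 : ∀ u ∈ G, ∀ v : Lat n, (∀ j ≠ i, v j = u j) → v i = e i ∨ v i = e i + 1 → v ∈ G := by
    intro u hu v h1 h2
    refine (hG v).2 ⟨fun j => ?_, by omega⟩
    by_cases hj : j = i
    · subst hj
      omega
    · rw [h1 j hj]
      exact ((hG u).1 hu).1 j
  refine eictrc_rs (fun u v => if v i = e i ∧ u = v + Pi.single i 1 then s v i else 0)
    fun u hu v hv => ?_
  have a1 : ∑ y ∈ G, MM p s u y * (if v i = e i ∧ y = v + Pi.single i 1 then s v i else 0) =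
      if v i = e i then MM p s u (v + Pi.single i 1) * s v i else 0 := by
    split_ifs with h
    · simp only [h, true_and, mul_ite, mul_zero]
      rw [Finset.sum_ite_eq', if_pos]
      refine c2 v hv _ (fun j hj => ?_) (Or.inr ?_)
      · rw [Pi.add_apply, Pi.single_eq_of_ne hj, add_zero]
      · rw [Pi.add_apply, Pi.single_eq_same, h]
    · simp only [h, false_and, if_false, mul_zero, Finset.sum_const_zero]
  have a2 : ∑ y ∈ G, (if y i = e i ∧ u = y + Pi.single i 1 then s y i else 0) * MM p s y v =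
      if u i = e i + 1 then s (u - Pi.single i 1) i * MM p s (u - Pi.single i 1) v else 0 := by
    have b1 : ∀ y : Lat n, (y i = e i ∧ u = y + Pi.single i 1) ↔
        (u i = e i + 1 ∧ y = u - Pi.single i 1) := by
      intro y
      rw [eq_sub_iff_add_eq, eq_comm (a := y + _)]
      refine and_congr_left fun h => ?_
      rw [h, Pi.add_apply, Pi.single_eq_same, add_left_inj]
    simp only [b1]
    split_ifs with h
    · simp only [h, true_and, ite_mul, zero_mul]
      rw [Finset.sum_ite_eq', if_pos]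
      refine c2 u hu _ (fun j hj => ?_) (Or.inl ?_)
      · rw [Pi.sub_apply, Pi.single_eq_of_ne hj, sub_zero]
      · rw [Pi.sub_apply, Pi.single_eq_same, h, add_sub_cancel_right]
    · simp only [h, false_and, if_false, zero_mul, Finset.sum_const_zero]
  rw [a1, a2]
  have a3 : (u - Pi.single i 1 : Lat n) i = u i - 1 := by rw [Pi.sub_apply, Pi.single_eq_same]
  rcases c1 u hu with h1 | h1 <;> rcases c1 v hv with h2 | h2
  · rw [if_pos h2, if_neg (by omega), add_zero]
    have h3 := eictrc_one (p := p) hs (x := u) (v := v + Pi.single i 1) (i := i) (by omega)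
      (by rw [Pi.add_apply, Pi.single_eq_same]; omega)
    by_cases h : u = v
    · rw [← h, if_pos rfl] at h3 ⊢
      exact h3
    · rw [if_neg (fun k => h (add_right_cancel k).symm)] at h3
      rw [if_neg h, (mul_eq_zero.1 h3).resolve_right fun k => ?_, zero_mul]
      have := hs.sq u i
      rw [k] at this
      omega
  · rw [if_neg (by omega), if_neg (by omega), add_zero, if_neg]
    rintro rfl
    omega
  · have h3 := eictrc_four (p := p) hs (x := u - Pi.single i 1) (v := v) (i := i) (by omega)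
    rw [sub_add_cancel] at h3
    rw [if_pos h2, if_pos h1, h3, if_neg]
    rintro rfl
    omega
  · rw [if_neg (by omega), if_pos h1, zero_add, mul_comm,
      eictrc_one hs (by omega) (by omega), sub_add_cancel]
    simp only [eq_comm]

theorem eictrc_sq (hs : SgS s) {e : Lat n} {F : Finset (Lat n)} (hF : ∀ y, y ∈ F ↔ rp p e y) :
    rs (Finset.insertNone F) (Finset.insertNone F) (aug (dp p) (MM p s)) *
      rs (Finset.insertNone F) (Finset.insertNone F) (aug (dp p) (MM p s)) = 0 := by
  ext x z
  rw [Matrix.mul_apply, Matrix.zero_apply]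
  simp only [rs, Matrix.of_apply]
  rw [Finset.sum_coe_sort (Finset.insertNone F)
    fun y => aug (dp p) (MM p s) x y * aug (dp p) (MM p s) y z, Finset.sum_insertNone]
  obtain ⟨_ | a, hx⟩ := x
  · simp only [aug, zero_mul, Finset.sum_const_zero, add_zero]
  · have ha : ∀ y, rp p a y → y ∈ F := fun y hy =>
      (hF y).2 (eictrc_trans ((hF a).1 (Finset.some_mem_insertNone.1 hx)) hy)
    obtain ⟨_ | b, hz⟩ := z
    · have h1 : ∀ y ∈ F, MM p s a y * (if dp p y = 0 then (1 : ℤ) else 0) =
          MM p s a y * (if dp p a = 1 then (1 : ℤ) else 0) := by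
        intro y _
        by_cases h : MM p s a y = 0
        · rw [h, zero_mul, zero_mul]
        · have h2 := (MM_face h).2
          simp only [show dp p y = 0 ↔ dp p a = 1 by omega]
      simp only [aug, mul_zero, zero_add]
      rw [Finset.sum_congr rfl h1, ← Finset.sum_mul, MM_au ha, zero_mul]
    · simp only [aug, mul_zero, zero_add]
      exact MM_sq hs ha b

theorem ctr_cube (hp : p = 0 ∨ p = 1) (hs : SgS s) (e : Lat n) (F : Finset (Lat n))
    (hF : ∀ y, y ∈ F ↔ rp p e y) :
    Ctr (rs (Finset.insertNone F) (Finset.insertNone F) (aug (dp p) (MM p s))) := by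
  obtain ⟨k, hk⟩ : ∃ k, dp p e = k := ⟨_, rfl⟩
  induction k generalizing e F with
  | zero =>
    have h1 : F = {e} := by
      ext y
      rw [hF, Finset.mem_singleton]
      refine ⟨fun h => ?_, fun h i => Or.inl (by rw [h])⟩
      by_contra h2
      have := dp_lt h (Ne.symm h2)
      omega
    have h2 : MM p s e e = 0 := by
      by_contra h
      have := (MM_face h).2
      omega
    subst h1
    refine eictrc_rs (fun x z => if x = none ∧ z ≠ none then 1 else 0) fun x hx z hz => ?_
    rw [Finset.sum_insertNone, Finset.sum_insertNone, Finset.sum_singleton, Finset.sum_singleton]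
    rcases x with _ | a <;> rcases z with _ | b
    · simp [aug, hk]
    · rw [Finset.mem_singleton.1 (Finset.some_mem_insertNone.1 hz)]
      simp [aug, h2]
    · simp [aug]
    · rw [Finset.mem_singleton.1 (Finset.some_mem_insertNone.1 hz),
        Finset.mem_singleton.1 (Finset.some_mem_insertNone.1 hx)]
      simp [aug, hk]
  | succ k ih =>
    obtain ⟨i, hi⟩ := Finset.card_pos.1 (show 0 < dp p e by omega)
    replace hi := (Finset.mem_filter.1 hi).2
    have h1 : MM p s e (e - Pi.single i 1) ≠ 0 := by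
      rw [MM_sub hi]
      intro h
      have := hs.sq e i
      rw [neg_eq_zero.1 h] at this
      omega
    obtain ⟨h2, h3⟩ := MM_face h1
    have h4 : (e - Pi.single i 1 : Lat n) i = e i - 1 := by rw [Pi.sub_apply, Pi.single_eq_same]
    have h5 := ih (e - Pi.single i 1) (F.filter fun y => y i = e i - 1) (fun y => by
      rw [Finset.mem_filter, hF]
      refine ⟨fun h j => ?_, fun h => ⟨eictrc_trans h2 h, ?_⟩⟩
      · by_cases hj : j = i
        · rw [hj, h4]
          exact Or.inl h.2
        · rw [Pi.sub_apply, Pi.single_eq_of_ne hj, sub_zero]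
          exact h.1 j
      · have := h i
        omega) (by omega)
    refine ctr_of_blocks (q := fun x => ∃ f, x.1 = some f ∧ f i ≠ e i - 1) (eictrc_sq hs hF) ?_
      (eictrc_blk (fun x => ∃ f, x = some f ∧ f i ≠ e i - 1) (G := F.filter fun y => y i ≠ e i - 1)
        some (Option.some_injective _) (fun x => ?_)
        (eictrc_up hs hi fun y => by rw [Finset.mem_filter, hF]) fun _ _ => rfl)
      (eictrc_blk (fun x => ¬ ∃ f, x = some f ∧ f i ≠ e i - 1) id injective_id (fun x => ?_) h5
        fun _ _ => rfl)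
    · rintro ⟨_ | a, hx⟩ ⟨y, hy⟩ h ⟨f, rfl, hf⟩
      · exact absurd rfl h
      · refine ⟨a, rfl, fun h6 => ?_⟩
        have := (MM_face (show MM p s a f ≠ 0 from h)).1 i
        omega
    · constructor
      · rintro ⟨h6, f, rfl, h7⟩
        exact ⟨f, Finset.mem_filter.2 ⟨Finset.some_mem_insertNone.1 h6, h7⟩, rfl⟩
      · rintro ⟨f, h6, rfl⟩
        exact ⟨Finset.some_mem_insertNone.2 (Finset.mem_filter.1 h6).1, f, rfl,
          (Finset.mem_filter.1 h6).2⟩
    · rcases x with _ | a
      · simp
      · simp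

theorem cocell_cube (hp : p = 0 ∨ p = 1) (hs : SgS s) {A : Finset (Lat n)}
    (hA : ∀ a ∈ A, ∀ b, rp p a b → b ∈ A) : CoCell (rp p) A (dp p) (MM p s) := by
  exact ⟨pon_rp hp A, fun _ _ _ _ h => MM_face h, fun _ _ _ _ h h' => dp_lt h h',
    fun e he g _ => MM_sq hs (hA e he) g, fun e he _ => MM_au (hA e he), fun e he =>
      ctr_cube hp hs e _ fun y => by
        rw [Finset.mem_filter]
        exact ⟨fun h => h.2, fun h => ⟨hA e he y h, h⟩⟩⟩

end Pool.Agent.Lib.MP_5ceaf9_gt
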