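import Pool.Agent.Lib.MP_5ceaf9_gt.EIBar

/-! Cubical incidence numbers: faces, square zero, augmentation. -/

noncomputable section

namespace Pool.Agent.Lib.MP_5ceaf9_gt

open Classical Function

variable {n : ℕ} {p : ℤ} {s : Lat n → Fin n → ℤ} {A : Finset (Lat n)} {x y e : Lat n}

theorem pon_rp (hp : p = 0 ∨ p = 1) (A : Finset (Lat n)) : POn (rp p) A := by
  refine ⟨fun a _ i => Or.inl rfl, fun a _ b _ h1 h2 => funext fun i => ?_,
    fun a _ b _ d _ h1 h2 i => ?_⟩
  all_goals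
    have h3 := h1 i
    have h4 := h2 i
    omega

theorem MM_ne (h : MM p s x y ≠ 0) :
    ∃ i, x i % 2 = p ∧ (y = x + Pi.single i 1 ∨ y = x - Pi.single i 1) := by
  obtain ⟨i, hi, h1⟩ := Finset.exists_ne_zero_of_sum_ne_zero h
  refine ⟨i, (Finset.mem_filter.1 hi).2, by_contra fun h2 => h1 ?_⟩
  rw [if_neg fun k => h2 (Or.inl k), if_neg fun k => h2 (Or.inr k), sub_zero, mul_zero]

theorem eicube_sub (x : Lat n) (i : Fin n) : x - Pi.single i 1 = x + Pi.single i (-1) := by
  rw [sub_eq_add_neg, Pi.single_neg]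

theorem eicube_eq {i j : Fin n} {a b : ℤ} (ha : a ≠ 0) :
    x + Pi.single i a = x + Pi.single j b ↔ i = j ∧ a = b := by
  refine ⟨fun h => ?_, fun h => by rw [h.1, h.2]⟩
  have h1 := congrFun (add_left_cancel h) i
  rw [Pi.single_eq_same] at h1
  by_cases k : i = j
  · exact ⟨k, by rwa [k, Pi.single_eq_same] at h1⟩
  · exact absurd (h1.trans (Pi.single_eq_of_ne k _)) ha

theorem eicube_one {i : Fin n} (h : x i % 2 = p) {a : ℤ} (ha : a ≠ 0) :
    MM p s x (x + Pi.single i a) =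
      s x i * ((if a = 1 then 1 else 0) - if a = -1 then 1 else 0) := by
  rw [MM, Finset.sum_eq_single_of_mem i (Finset.mem_filter.2 ⟨Finset.mem_univ _, h⟩)]
  · simp only [eicube_sub, eicube_eq ha, true_and]
  · intro j _ hj
    simp only [eicube_sub, eicube_eq ha, hj.symm, false_and, if_false, sub_zero, mul_zero]

theorem eicube_face {i : Fin n} (h : x i % 2 = p) {a : ℤ} (ha : a = 1 ∨ a = -1) :
    rp p x (x + Pi.single i a) ∧
      Finset.univ.filter (fun j => (x + Pi.single i a : Lat n) j % 2 = p) =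
        (Finset.univ.filter fun j => x j % 2 = p).erase i := by
  refine ⟨fun j => ?_, Finset.ext fun j => ?_⟩
  · by_cases k : j = i
    · rw [k, Pi.add_apply, Pi.single_eq_same]
      omega
    · rw [Pi.add_apply, Pi.single_eq_of_ne k, add_zero]
      exact Or.inl rfl
  · simp only [Finset.mem_erase, Finset.mem_filter, Finset.mem_univ, true_and, Pi.add_apply]
    by_cases k : j = i
    · rw [k, Pi.single_eq_same]
      exact iff_of_false (by omega) fun k => k.1 rfl
    · rw [Pi.single_eq_of_ne k, add_zero]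
      exact (and_iff_right k).symm

theorem MM_add {i : Fin n} (h : x i % 2 = p) : MM p s x (x + Pi.single i 1) = s x i := by
  rw [eicube_one h (by norm_num), if_pos rfl, if_neg (by norm_num), sub_zero, mul_one]

theorem MM_sub {i : Fin n} (h : x i % 2 = p) : MM p s x (x - Pi.single i 1) = -s x i := by
  rw [eicube_sub, eicube_one h (by norm_num), if_neg (by norm_num), if_pos rfl, zero_sub,
    mul_neg_one]

theorem MM_face (h : MM p s x y ≠ 0) : rp p x y ∧ dp p x = dp p y + 1 := by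
  obtain ⟨i, hi, h1⟩ := MM_ne h
  obtain ⟨a, ha, rfl⟩ : ∃ a : ℤ, (a = 1 ∨ a = -1) ∧ y = x + Pi.single i a :=
    h1.elim (fun k => ⟨1, Or.inl rfl, k⟩) fun k => ⟨-1, Or.inr rfl, k.trans (eicube_sub x i)⟩
  refine ⟨(eicube_face hi ha).1, ?_⟩
  rw [dp, dp, (eicube_face hi ha).2, Finset.card_erase_add_one]
  exact Finset.mem_filter.2 ⟨Finset.mem_univ _, hi⟩

theorem dp_lt (h : rp p x y) (hne : x ≠ y) : dp p y < dp p x := by
  obtain ⟨i, hi⟩ := Function.ne_iff.1 hne
  refine Finset.card_lt_card ((Finset.ssubset_iff_of_subset fun j => ?_).2 ⟨i, ?_⟩)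
  · have := h j
    simp only [Finset.mem_filter, Finset.mem_univ, true_and]
    omega
  · have := h i
    simp only [Finset.mem_filter, Finset.mem_univ, true_and]
    omega

/-- A sum against the incidence numbers is a sum over the directions. -/
theorem sum_MM {V : Type} [AddCommGroup V] (F : Lat n → V)
    (hF : ∀ y, rp p x y → y ∉ A → F y = 0) :
    ∑ y ∈ A, MM p s x y • F y = ∑ i ∈ Finset.univ.filter (fun i => x i % 2 = p),
      s x i • (F (x + Pi.single i 1) - F (x - Pi.single i 1)) := by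
  simp only [MM, Finset.sum_smul]
  rw [Finset.sum_comm]
  refine Finset.sum_congr rfl fun i hi => ?_
  have h1 : ∀ a : ℤ, a = 1 ∨ a = -1 →
      (if x + Pi.single i a ∈ A then F (x + Pi.single i a) else 0) = F (x + Pi.single i a) :=
    fun a ha => by
      split_ifs with k
      · rfl
      · exact (hF _ (eicube_face (Finset.mem_filter.1 hi).2 ha).1 k).symm
  simp only [mul_smul, sub_smul, ite_smul, one_smul, zero_smul, ← Finset.smul_sum,
    Finset.sum_sub_distrib, Finset.sum_ite_eq', eicube_sub]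
  rw [h1 1 (Or.inl rfl), h1 (-1) (Or.inr rfl)]

theorem MM_sq (hs : SgS s) (hA : ∀ y, rp p x y → y ∈ A) (z : Lat n) :
    ∑ y ∈ A, MM p s x y * MM p s y z = 0 := by
  have h1 := sum_MM (s := s) (fun y => MM p s y z) fun y h h' => absurd (hA y h) h'
  obtain ⟨G, hG⟩ : ∃ G : Fin n → ℤ → Fin n → ℤ → ℤ, ∀ i a j b, G i a j b =
      s x i * s (x + Pi.single i a) j *
        if z = x + Pi.single i a + Pi.single j b then 1 else 0 := ⟨_, fun _ _ _ _ => rfl⟩
  have h2 : ∀ i j, i ≠ j → ∀ a b : ℤ, a % 2 = 1 → b % 2 = 1 → G i a j b = -G j b i a :=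
    fun i j hij a b ha hb => by rw [hG, hG, hs.anti x i j hij a b ha hb, add_right_comm, neg_mul]
  obtain ⟨D, hD⟩ : ∃ D, D = Finset.univ.filter (fun i => x i % 2 = p) := ⟨_, rfl⟩
  have h3 : ∀ i ∈ D, ∀ a : ℤ, a = 1 ∨ a = -1 → s x i * MM p s (x + Pi.single i a) z =
      ∑ j ∈ D.erase i, (G i a j 1 - G i a j (-1)) := fun i hi a ha => by
    rw [hD] at hi
    rw [MM, (eicube_face (Finset.mem_filter.1 hi).2 ha).2, ← hD, Finset.mul_sum]
    refine Finset.sum_congr rfl fun j _ => ?_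
    rw [hG, hG, eicube_sub]
    ring
  have h4 : ∑ y ∈ A, MM p s x y * MM p s y z = ∑ i ∈ D, ∑ j ∈ D.erase i,
      ((G i 1 j 1 - G i 1 j (-1)) - (G i (-1) j 1 - G i (-1) j (-1))) := by
    refine h1.trans ?_
    rw [← hD]
    refine Finset.sum_congr rfl fun i hi => ?_
    rw [smul_eq_mul, mul_sub, eicube_sub, h3 i hi 1 (Or.inl rfl), h3 i hi (-1) (Or.inr rfl),
      ← Finset.sum_sub_distrib]
  have h5 := h4.trans (Finset.sum_comm' (t' := D) (s' := fun j => D.erase j) fun i j => by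
    simp only [Finset.mem_erase]
    exact ⟨fun k => ⟨⟨k.2.1.symm, k.1⟩, k.2.2⟩, fun k => ⟨k.1.2, k.1.1.symm, k.2⟩⟩)
  have h6 := congrArg₂ (· + ·) h4 h5
  rw [← Finset.sum_add_distrib (s := D), Finset.sum_eq_zero (s := D) fun i _ => by
    rw [← Finset.sum_add_distrib]
    refine Finset.sum_eq_zero fun j hj => ?_
    have k := h2 j i (Finset.mem_erase.1 hj).1
    rw [k 1 1 rfl rfl, k 1 (-1) rfl rfl, k (-1) 1 rfl rfl, k (-1) (-1) rfl rfl]
    ring] at h6
  omega

theorem MM_au (hA : ∀ y, rp p x y → y ∈ A) : ∑ y ∈ A, MM p s x y = 0 := by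
  have h1 := sum_MM (s := s) (fun _ => (1 : ℤ)) fun y h h' => absurd (hA y h) h'
  simpa using h1

end Pool.Agent.Lib.MP_5ceaf9_gt
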