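import Pool.Agent.Lib.MP_5ceaf9_gt.ABLat
import Pool.Agent.Lib.MP_5ceaf9_gt.Shared

/-! Incidence numbers of cubical cells, upstairs and in the quotient. -/

noncomputable section

namespace Pool.Agent.Lib.MP_5ceaf9_gt

open Classical Function

/-- The hypotheses of the obstruction theorem for a pair of voxel complexes. -/
structure CHyp (K L : Finset (Lat 5)) : Prop where
  sub : K ⊆ L
  uK : UpC K
  uL : UpC L
  iK : Invt η5 K
  iL : Invt η5 L
  fL : Free η5 L
  cK : ConnL η5 K
  cL : ConnL η5 L
  e1 : E1 η5 K L
  e2 : E2 η5 K L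
  h2 : H2 η5 K L

variable {n : ℕ}

/-- The number of coordinates of parity `p`. -/
def dp (p : ℤ) (e : Lat n) : ℕ := (Finset.univ.filter (fun j => e j % 2 = p)).card

/-- The number of odd coordinates. -/
def odE (e : Lat n) : ℕ := dp 1 e

/-- `y` is a face of the cell `x` whose directions are the coordinates of parity `p`. -/
def rp (p : ℤ) (x y : Lat n) : Prop :=
  ∀ i, y i = x i ∨ (x i % 2 = p ∧ (y i = x i + 1 ∨ y i = x i - 1))

/-- The incidence number of the cell `x` and the face `y`, for the sign system `s`. -/
def MM (p : ℤ) (s : Lat n → Fin n → ℤ) (x y : Lat n) : ℤ :=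
  ∑ i ∈ Finset.univ.filter (fun i => x i % 2 = p),
    s x i * ((if y = x + Pi.single i 1 then 1 else 0) - (if y = x - Pi.single i 1 then 1 else 0))

/-- A sign system. -/
structure SgS (s : Lat n → Fin n → ℤ) : Prop where
  sq : ∀ x i, s x i * s x i = 1
  anti : ∀ x i j, i ≠ j → ∀ a b : ℤ, a % 2 = 1 → b % 2 = 1 →
    s x i * s (x + Pi.single i a) j = -(s x j * s (x + Pi.single j b) i)

/-- Orientation sign of the flip on a cell whose directions are the odd coordinates. -/
def orO (η : Fin n → Bool) (e : Lat n) : ℤ :=
  (-1) ^ (Finset.univ.filter (fun j => η j ∧ e j % 2 = 1)).card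

/-- Incidence numbers in the quotient. -/
def QI (η : Fin n → Bool) (M : Lat n → Lat n → ℤ) (o : Lat n → ℤ) (t s : QL η) : ℤ :=
  M t.out s.out + o s.out * M t.out (fl η s.out)

/-- Incidence numbers in the quotient, odd coordinates as directions. -/
def incQ (η : Fin n → Bool) : QL η → QL η → ℤ := QI η (MM 1 (fun x i => -sgE x i)) (orO η)

/-- Incidence numbers in the quotient, even coordinates as directions. -/
def incE (η : Fin n → Bool) : QL η → QL η → ℤ := QI η (MM 0 sgE) (orE η)

/-- The number of odd coordinates of an orbit. -/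
def dmQ (η : Fin n → Bool) (x : QL η) : ℕ := odE x.out

/-- The class of the double cover. -/
def dlt (η : Fin n → Bool) (x y : QL η) : ZMod 2 := if le1 x.out y.out then 0 else 1

/-- The function on pairs of orbits induced by an invariant function. -/
def cb (η : Fin n → Bool) {Γ : Type} (c : Lat n → Lat n → Γ) (x y : QL η) : Γ :=
  if le1 x.out y.out then c x.out y.out else c x.out (fl η y.out)

/-- The lattice points next to the doubles of the points of `S`. -/
def nearS (S : Finset (Lat n)) : Finset (Lat n) :=
  S.biUnion (fun s => Fintype.piFinset (fun i => Finset.Icc (2 * s i - 1) (2 * s i + 1)))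

/-- The intervals whose lower end lies in `S`. -/
def NN (S : Finset (Lat n)) : Finset (Lat n) := (nearS S).filter (fun e => cw a1 e ∈ S)

/-- The intervals whose upper end lies in `S`. -/
def UU (S : Finset (Lat n)) : Finset (Lat n) := (nearS S).filter (fun e => cw b1 e ∈ S)

end Pool.Agent.Lib.MP_5ceaf9_gt
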