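import Pool.Agent.Lib.MP_5ceaf9_gt.EISgn
import Pool.Agent.Lib.MP_5ceaf9_gt.EIBr

/-! Vanishing of the equivariant cohomology from a contraction in the quotient. -/

noncomputable section

namespace Pool.Agent.Lib.MP_5ceaf9_gt

open Classical Function

variable {n : ℕ} (η : Fin n → Bool) {K L : Finset (Lat n)}

section aux

variable {Γ A : Type} [Group Γ] [AddCommGroup A] [DistribMulAction Γ A] {c : Lat n → Lat n → Γ}
  {ψ : Lat n → A} {D : Finset (Lat n)}

/-- The action of the group ring. -/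
def eih2_act (Γ A : Type) [Group Γ] [AddCommGroup A] [DistribMulAction Γ A] :
    ZG Γ →ₐ[ℤ] Module.End ℤ A := (Representation.ofDistribMulAction ℤ Γ A).asAlgebraHom

theorem eih2_act_single (g : Γ) (m : ℤ) (v : A) :
    eih2_act Γ A (MonoidAlgebra.single g m) v = m • g • v := by
  rw [eih2_act, Representation.asAlgebraHom_single]
  rfl

theorem eih2_mul {ι : Type} [Fintype ι] (m m' : Matrix ι ι (ZG Γ)) (v : ι → A) (x : ι) :
    ∑ z, eih2_act Γ A ((m * m') x z) (v z) =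
      ∑ y, eih2_act Γ A (m x y) (∑ z, eih2_act Γ A (m' y z) (v z)) := by
  simp only [Matrix.mul_apply, map_sum, map_mul, LinearMap.sum_apply, Module.End.mul_apply]
  exact Finset.sum_comm

theorem eih2_solve {ι : Type} [Fintype ι] [DecidableEq ι] {d s : Matrix ι ι (ZG Γ)}
    (h : d * s + s * d = 1) {v : ι → A} (hv : ∀ y, ∑ z, eih2_act Γ A (d y z) (v z) = 0) (x : ι) :
    ∑ y, eih2_act Γ A (d x y) (∑ z, eih2_act Γ A (s y z) (v z)) = v x := by
  have h1 : ∑ z, eih2_act Γ A ((d * s + s * d) x z) (v z) = v x := by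
    rw [h, Finset.sum_eq_single x]
    · rw [Matrix.one_apply_eq, map_one, Module.End.one_apply]
    · intro z _ hz
      rw [Matrix.one_apply_ne hz.symm, map_zero, LinearMap.zero_apply]
    · exact fun h => absurd (Finset.mem_univ x) h
  simp only [Matrix.add_apply, map_add, LinearMap.add_apply, Finset.sum_add_distrib] at h1
  rw [eih2_mul, eih2_mul] at h1
  simpa only [hv, map_zero, Finset.sum_const_zero, add_zero] using h1

theorem eih2_le {a b : Lat n} (h : MM 0 sgE a b ≠ 0) : le1 a b := by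
  rw [← rp_zero]
  exact (MM_face h).1

theorem eih2_dE (hψ : ∀ e, ψ e ≠ 0 → e ∈ D) (e : Lat n) :
    dE c ψ e = ∑ b ∈ D, MM 0 sgE e b • c e b • ψ b := by
  rw [sum_MM (fun b => c e b • ψ b) fun y _ hy => by
    rw [not_not.1 (mt (hψ y) hy), smul_zero]]
  rfl

theorem eih2_fl (iD : Invt η D) (hc : InvC η c) (h1 : ∀ e, ψ (fl η e) = orE η e • ψ e)
    (hψ : ∀ e, ψ e ≠ 0 → e ∈ D) (e : Lat n) : dE c ψ (fl η e) = orE η e • dE c ψ e := by
  rw [eih2_dE hψ, eih2_dE hψ, Finset.smul_sum]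
  refine (Finset.sum_nbij' (fl η) (fl η) iD iD (fun a _ => fl_fl η a) (fun a _ => fl_fl η a)
    fun b _ => ?_).symm
  rw [MM0_fl, hc, h1, smul_comm (c e b), smul_smul, smul_smul]
  congr 1
  linear_combination (-(orE η e * MM 0 sgE e b)) * orE_sq η b

theorem eih2_out (iD : Invt η D) (fD : Free η D) (h1 : ∀ e, ψ (fl η e) = orE η e • ψ e)
    (hψ : ∀ e, ψ e ≠ 0 → e ∈ D) {X : Finset (QL η)} (hX : D.image (pq η) = X) (x : ↥X) :
    dE c ψ x.1.out = ∑ y : ↥X, eih2_act Γ A (rs X X (Dc (incE η) (cb η c)) x y) (ψ y.1.out) := by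
  subst hX
  have fx := fD _ ((out_mem η iD).2 x.2)
  rw [eih2_dE hψ, sum_orbit η iD fD, ← Finset.sum_coe_sort]
  refine Finset.sum_congr rfl fun y _ => ?_
  change _ = eih2_act Γ A (MonoidAlgebra.single (cb η c x.1 y.1) (incE η x.1 y.1)) _
  rw [eih2_act_single, incE, QI, cb, h1]
  split_ifs with h
  · have h2 : MM 0 sgE x.1.out (fl η y.1.out) = 0 :=
      by_contra fun h2 => not_le1_fl η fx h (eih2_le h2)
    rw [h2, zero_smul, mul_zero, add_zero, add_zero]
  · have h2 : MM 0 sgE x.1.out y.1.out = 0 := by_contra fun h2 => h (eih2_le h2)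
    rw [h2, zero_smul, zero_add, zero_add, smul_comm (c _ _), smul_smul, mul_comm]

end aux

theorem h2_of_ctr (uK : UpC K) (iK : Invt η K) (iL : Invt η L) (fL : Free η L)
    (hc : ∀ (Γ : Type) [Group Γ] (c : QL η → QL η → Γ),
      Flat (lq η) (OC (lq η) (L.image (pq η))) c →
      Ctr (rs (L.image (pq η) \ K.image (pq η)) (L.image (pq η) \ K.image (pq η))
        (Dc (incE η) c))) : H2 η K L := by
  intro Γ A _ _ _ c ic fc k φ hφ h0
  have h1 := hc Γ (cb η c) (flat_cb η iL fL ic fc)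
  have hX := bar_sdiff η iL iK
  generalize L.image (pq η) \ K.image (pq η) = X at h1 hX
  have iD := invt_sdiff η iL iK
  have fD : Free η (L \ K) := fun a ha => fL a (Finset.mem_sdiff.1 ha).1
  have mX : ∀ {e : Lat n}, pq η e ∈ X ↔ e ∈ L \ K := fun {e} => by rw [← hX, mem_bar η iD]
  have sφ : ∀ e, φ e ≠ 0 → e ∈ L \ K := fun e he =>
    Finset.mem_sdiff.2 ⟨(hφ.2 e he).1, (hφ.2 e he).2.1⟩
  obtain ⟨s, hs, hds⟩ := h1.graded (g := fun x : ↥X => (dimE x.1.out : ℤ)) fun x y h => by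
    have h2 : incE η x.1 y.1 ≠ 0 := fun h2 => h (by
      change MonoidAlgebra.single _ (incE η x.1 y.1) = 0
      rw [h2, MonoidAlgebra.single_zero])
    rw [incE, QI] at h2
    beta_reduce
    by_cases h3 : MM 0 sgE x.1.out y.1.out = 0
    · rw [h3, zero_add] at h2
      have h4 := (MM_face (right_ne_zero_of_mul h2)).2
      rw [dp_zero, dimE_fl] at h4
      exact_mod_cast h4
    · have h4 := (MM_face h3).2
      rw [dp_zero] at h4
      exact_mod_cast h4
  obtain ⟨w, hw⟩ : ∃ w : ↥X → A, w = fun x => ∑ y, eih2_act Γ A (s x y) (φ y.1.out) := ⟨_, rfl⟩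
  obtain ⟨ψ, hψ⟩ : ∃ ψ : Lat n → A, ∀ e, ψ e = if h : pq η e ∈ X then
    (if e = (pq η e).out then 1 else orE η e) • w ⟨pq η e, h⟩ else 0 := ⟨_, fun _ => rfl⟩
  have sψ : ∀ e, ψ e ≠ 0 → e ∈ L \ K := fun e he => mX.1 <| by_contra fun h =>
    he (by rw [hψ, dif_neg h])
  have eψ : ∀ e, ψ (fl η e) = orE η e • ψ e := fun e => by
    rw [hψ, hψ]
    simp only [pq_fl]
    by_cases h : pq η e ∈ X
    · have fe := fD e (mX.1 h)
      rw [dif_pos h, dif_pos h, smul_smul]
      rcases out_pq η e with h2 | h2 <;> rw [h2]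
      · rw [if_neg fe, if_pos rfl, orE_fl, mul_one]
      · rw [if_pos rfl, if_neg fe.symm, orE_sq]
    · rw [dif_neg h, dif_neg h, smul_zero]
  have oψ : ∀ x : ↥X, ψ x.1.out = w x := fun x => by
    rw [hψ]
    simp only [pq_out, x.2, dif_pos, if_true, one_smul]
  have key : ∀ x : ↥X, dE c ψ x.1.out = φ x.1.out := fun x => by
    rw [eih2_out η iD fD eψ sψ hX]
    simp only [oψ, hw]
    refine eih2_solve hds (v := fun y => φ y.1.out) (fun y => ?_) x
    rw [← eih2_out η iD fD hφ.1 sφ hX]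
    exact h0 _ (Finset.mem_sdiff.1 (mX.1 (by rw [pq_out]; exact y.2))).1
  refine ⟨ψ, ⟨eψ, fun e he => ?_⟩, fun e he => ?_⟩
  · have h2 := sψ e he
    refine ⟨(Finset.mem_sdiff.1 h2).1, (Finset.mem_sdiff.1 h2).2, ?_⟩
    rw [hψ, dif_pos (mX.2 h2), hw] at he
    obtain ⟨y, -, hy⟩ := Finset.exists_ne_zero_of_sum_ne_zero (right_ne_zero_of_smul he)
    have h3 := hs _ y fun h => hy (by rw [h, map_zero, LinearMap.zero_apply])
    have h4 := (hφ.2 y.1.out fun h => hy (by rw [h, map_zero])).2.2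
    simp only [dimE_out, h4] at h3
    omega
  · by_cases hK : e ∈ K
    · rw [not_not.1 (mt (hφ.2 e) fun h => h.2.1 hK), eih2_dE sψ]
      refine Finset.sum_eq_zero fun b hb => ?_
      rw [not_not.1 (mt eih2_le fun h => (Finset.mem_sdiff.1 hb).2 (uK e hK b h)), zero_smul]
    · have h2 := key ⟨pq η e, mX.2 (Finset.mem_sdiff.2 ⟨he, hK⟩)⟩
      rcases out_pq η e with h3 | h3 <;> simp only [h3] at h2
      · exact h2
      · rw [← fl_fl η e, eih2_fl η iD ic eψ sψ, h2, hφ.1 (fl η e)]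

end Pool.Agent.Lib.MP_5ceaf9_gt
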