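import Pool.Agent.Lib.MP_5ceaf9_gt.EIBar
import Pool.Agent.Lib.MP_5ceaf9_gt.EICtr

/-! The upper link of a lattice point. -/

noncomputable section

namespace Pool.Agent.Lib.MP_5ceaf9_gt

open Classical Function

variable {n : ℕ} {e : Lat n}

theorem eilink_upd {a b : Lat n} (h : le1 a b) (i : Fin n) {x y : ℤ} (h' : le0 x y) :
    le1 (update a i x) (update b i y) := fun j => by
  by_cases e : j = i
  · rwa [e, update_self, update_self]
  · rw [update_of_ne e, update_of_ne e]
    exact h j

theorem eilink_add (e : Lat n) (i : Fin n) : e + Pi.single i 1 = update e i (e i + 1) := by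
  funext j
  by_cases h : j = i
  · rw [h, update_self, Pi.add_apply, Pi.single_eq_same]
  · rw [update_of_ne h, Pi.add_apply, Pi.single_eq_of_ne h, add_zero]

theorem eilink_ne {a b : Lat n} {i : Fin n} {x : ℤ} (h : x ≠ b i) : update a i x ≠ b :=
  fun e => h (by rw [← e, update_self])

theorem eilink_up {i : Fin n} (hi : e i % 2 = 0) {x : ℤ} (h : x = e i + 1 ∨ x = e i - 1) :
    le1 e (update e i x) := by
  simpa only [update_eq_self] using
    eilink_upd (le1_refl e) i (x := e i) (y := x) (by unfold le0; omega)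

/-- The link without one of its minimal elements is contractible. -/
theorem ct_link_erase {i : Fin n} (hi : e i % 2 = 0) {J : Finset (Lat n)}
    (hJ : ∀ f, f ∈ J ↔ le1 e f ∧ f ≠ e ∧ f ≠ e + Pi.single i 1) (l : ℕ) : CT le1 l J := by
  rw [eilink_add] at hJ
  have key : ∀ f ∈ J, ∀ x, le0 (e i) x → x ≠ e i + 1 →
      (x = e i → update f i x ≠ e) → update f i x ∈ J := fun f hf x h1 h2 h3 =>
    (hJ _).2 ⟨by simpa only [update_eq_self] using eilink_upd ((hJ f).1 hf).1 i h1,
      fun h => h3 (by rw [← h, update_self]) h, eilink_ne (by rwa [update_self])⟩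
  have co : ∀ f ∈ J, le0 (e i) (f i) := fun f hf => ((hJ f).1 hf).1 i
  have g1 : GP le1 l (J.filter fun f => f i ≠ e i + 1) J := by
    refine gp_retr_le (pon_le1 J) (Finset.filter_subset _ _)
      (ρ := fun f => update f i (if f i = e i + 1 then e i else f i)) (fun f hf => ?_)
      (fun f hf => ?_) (fun a ha b hb h => eilink_upd h i ?_) fun f hf => ?_
    · have h := co f hf
      refine Finset.mem_filter.2 ⟨key f hf _ ?_ ?_ fun _ h' => ?_, ?_⟩
      · split_ifs
        exacts [Or.inl rfl, h]
      · omega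
      · split_ifs at h' with h1
        · exact ((hJ f).1 hf).2.2 (by rw [← h', update_idem, update_self, ← h1, update_eq_self])
        · exact ((hJ f).1 hf).2.1 ((update_eq_self i f).symm.trans h')
      · rw [update_self]
        omega
    · rw [if_neg (Finset.mem_filter.1 hf).2, update_eq_self]
    · have h1 := co a ha
      have h2 := co b hb
      have h3 := h i
      unfold le0 at *
      omega
    · have := eilink_upd (le1_refl f) i (x := if f i = e i + 1 then e i else f i) (y := f i)
        (by unfold le0; omega)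
      rwa [update_eq_self] at this
  have g2 : GP le1 l (J.filter fun f => f i = e i - 1) (J.filter fun f => f i ≠ e i + 1) := by
    refine gp_retr_ge (pon_le1 _) (Finset.monotone_filter_right _ fun f _ h => by omega)
      (ρ := fun f => update f i (e i - 1)) (fun f hf => ?_) (fun f hf => ?_)
      (fun a _ b _ h => eilink_upd h i (Or.inl rfl)) fun f hf => ?_
    · exact Finset.mem_filter.2 ⟨key f (Finset.mem_filter.1 hf).1 _ (by unfold le0; omega)
        (by omega) (by omega), update_self _ _ _⟩
    · rw [← (Finset.mem_filter.1 hf).2, update_eq_self]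
    · obtain ⟨h1, h2⟩ := Finset.mem_filter.1 hf
      have h3 := co f h1
      have := eilink_upd (le1_refl f) i (x := f i) (y := e i - 1) (by unfold le0 at *; omega)
      rwa [update_eq_self] at this
  refine ((ct_bot (pon_le1 _) (m := update e i (e i - 1)) (Finset.mem_filter.2
    ⟨(hJ _).2 ⟨eilink_up hi (Or.inr rfl), eilink_ne (by omega), eilink_ne ?_⟩, update_self _ _ _⟩)
    fun f hf => ?_).up g2).up g1
  · rw [update_self]
    omega
  · obtain ⟨h1, h2⟩ := Finset.mem_filter.1 hf
    have := eilink_upd ((hJ f).1 h1).1 i (x := e i - 1) (y := f i) (Or.inl h2.symm)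
    rwa [update_eq_self] at this

theorem conn_link (hd : 2 ≤ dimE e) {T : Finset (Lat n)} (hT : ∀ f, f ∈ T ↔ le1 e f ∧ f ≠ e) :
    Conn le1 (OC le1 T) := by
  obtain ⟨i, hi, j, hj, hij⟩ := Finset.one_lt_card.1 hd
  replace hi := (Finset.mem_filter.1 hi).2
  replace hj := (Finset.mem_filter.1 hj).2
  have h1 := eilink_up hi (Or.inl rfl)
  have h2 : update e i (e i + 1) j = e j := update_of_ne hij.symm _ _
  have h3 := eilink_up (e := update e i (e i + 1)) (i := j) (x := e j + 1) (by omega) (by omega)
  have ht : update e i (e i + 1) ∈ T := (hT _).2 ⟨h1, eilink_ne (by omega)⟩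
  rw [← Finset.insert_erase ht]
  refine conn_insert (pon_le1 _) (ct_link_erase hi (fun f => ?_) 0).conn (Finset.mem_erase.2
    ⟨eilink_ne (by omega), (hT _).2 ⟨le1_trans h1 h3, eilink_ne (by omega)⟩⟩) h3
  rw [Finset.mem_erase, hT, eilink_add]
  tauto

theorem ct0_link (hd : 3 ≤ dimE e) {T : Finset (Lat n)} (hT : ∀ f, f ∈ T ↔ le1 e f ∧ f ≠ e) :
    CT le1 0 T := by
  obtain ⟨i, hi⟩ := Finset.card_pos.1 (lt_of_lt_of_le (by norm_num) hd)
  replace hi := (Finset.mem_filter.1 hi).2
  have h1 := eilink_up hi (Or.inl rfl)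
  have ht : update e i (e i + 1) ∈ T := (hT _).2 ⟨h1, eilink_ne (by omega)⟩
  have h2 : dimE e ≤ dimE (update e i (e i + 1)) + 1 := by
    refine le_trans (Finset.card_le_card fun j hj => ?_) (Finset.card_insert_le i _)
    refine Finset.mem_insert.2 ((eq_or_ne j i).imp_right fun h => ?_)
    simpa only [Finset.mem_filter, update_of_ne h] using hj
  rw [← Finset.insert_erase ht]
  refine ct0_insert (T := (T.erase (update e i (e i + 1))).filter (le1 (update e i (e i + 1))))
    (pon_le1 _) (ct_link_erase hi (fun f => ?_) 0) (fun f hf h => ?_) (fun f => Finset.mem_filter)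
    (conn_link (e := update e i (e i + 1)) (by omega) fun f => ?_)
  · rw [Finset.mem_erase, hT, eilink_add]
    tauto
  · obtain ⟨h3, h4⟩ := Finset.mem_erase.1 hf
    obtain ⟨h5, h6⟩ := (hT f).1 h4
    have h7 : f = update e i (f i) := funext fun j => by
      by_cases k : j = i
      · rw [k, update_self]
      · have a := h5 j
        have b := h j
        rw [update_of_ne k] at b ⊢
        unfold le0 at a b
        omega
    have a := h5 i
    have b := h i
    rw [update_self] at b
    have : f i = e i ∨ f i = e i + 1 := by unfold le0 at a b; omega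
    rcases this with k | k <;> rw [k] at h7
    exacts [h6 (h7.trans (update_eq_self _ _)), h3 h7]
  · rw [Finset.mem_filter, Finset.mem_erase, hT]
    refine ⟨fun h => ⟨h.2, h.1.1⟩, fun h => ⟨⟨h.2, le1_trans h1 h.1, fun k => ?_⟩, h.1⟩⟩
    have a := h.1 i
    rw [update_self, k] at a
    unfold le0 at a
    omega

theorem gp_link0 (η : Fin n → Bool) {B N : Finset (Lat n)} (uN : UpC N) (iN : Invt η N)
    (fN : Free η N) (hB : B ⊆ N) (hd : ∀ e ∈ N, e ∉ B → 3 ≤ dimE e) :
    GP (lq η) 0 (B.image (pq η)) (N.image (pq η)) := by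
  have _ := iN
  refine gp_of_upper_link (pon_lq η _) (Finset.image_subset_image hB) fun y hy hy' => ?_
  obtain ⟨e, he, rfl⟩ := Finset.mem_image.1 hy
  have hT : ∀ f, f ∈ N.filter (fun f => le1 e f ∧ f ≠ e) ↔ le1 e f ∧ f ≠ e := fun f => by
    rw [Finset.mem_filter]
    exact and_iff_right_of_imp fun h => uN e he f h.1
  have nf := fun {b} => not_le1_fl η (b := b) (fN e he)
  have := (ct_image (f := pq η) (r' := lq η) (fun a ha b hb h => ?_) fun a ha b hb => ?_).2
    (ct0_link (hd e he fun h => hy' (Finset.mem_image_of_mem _ h)) hT)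
  · convert this using 1
    ext x
    rw [Finset.mem_filter, Finset.mem_image, Finset.mem_image]
    refine ⟨fun ⟨_, h1, h2⟩ => ?_, ?_⟩
    · obtain ⟨b, rfl, hb⟩ := lift_up η h1
      exact ⟨b, (hT b).2 ⟨hb, fun k => h2 (by rw [k])⟩, rfl⟩
    · rintro ⟨f, hf, rfl⟩
      obtain ⟨h1, h2⟩ := (hT f).1 hf
      refine ⟨⟨f, uN e he f h1, rfl⟩, lq_of_le1 η h1, fun k => ?_⟩
      rcases (pq_eq_iff η).1 k with k | k
      exacts [h2 k.symm, nf h1 (k ▸ le1_refl e)]
  · rcases (pq_eq_iff η).1 h with k | k
    exacts [k.symm, absurd (k ▸ ((hT b).1 hb).1) (nf ((hT a).1 ha).1)]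
  · rw [lq_pq']
    exact or_iff_left fun k => nf ((hT b).1 hb).1 (le1_trans ((hT a).1 ha).1 k)

end Pool.Agent.Lib.MP_5ceaf9_gt
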