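import Pool.Agent.Lib.MP_5ceaf9_gt.EIBar

/-! Cell structures descend to the quotient by a free flip. -/

noncomputable section

namespace Pool.Agent.Lib.MP_5ceaf9_gt

open Classical Function

theorem CoCell.congr {α : Type} [DecidableEq α] {r : α → α → Prop} {A : Finset α}
    {dm dm' : α → ℕ} {inc inc' : α → α → ℤ} (h : CoCell r A dm inc)
    (h1 : ∀ a ∈ A, dm' a = dm a) (h2 : ∀ a ∈ A, ∀ b ∈ A, inc' a b = inc a b) :
    CoCell r A dm' inc' := by
  refine ⟨h.po, fun e he f hf hi => ?_, fun e he f hf hr hne => ?_, fun e he g hg => ?_,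
    fun e he hd => ?_, fun e he => ?_⟩
  · rw [h1 e he, h1 f hf]
    exact h.face e he f hf (h2 e he f hf ▸ hi)
  · rw [h1 e he, h1 f hf]
    exact h.lt e he f hf hr hne
  · rw [← h.sq e he g hg]
    exact Finset.sum_congr rfl fun f hf => by rw [h2 e he f hf, h2 f hf g hg]
  · rw [← h.au e he (h1 e he ▸ hd)]
    exact Finset.sum_congr rfl fun f hf => h2 e he f hf
  · convert h.ctr e he using 1
    refine Matrix.ext fun x y => ?_
    obtain ⟨_ | a, ha⟩ := x
    · rfl
    · have ha' := (Finset.mem_filter.1 (Finset.some_mem_insertNone.1 ha)).1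
      obtain ⟨_ | b, hb⟩ := y
      · change (if dm' a = 0 then 1 else 0) = if dm a = 0 then 1 else 0
        rw [h1 a ha']
      · exact h2 a ha' b (Finset.mem_filter.1 (Finset.some_mem_insertNone.1 hb)).1

/-- The symmetrised incidence number. -/
def eiquotQ {n : ℕ} (η : Fin n → Bool) (M : Lat n → Lat n → ℤ) (o : Lat n → ℤ) (a b : Lat n) :
    ℤ := M a b + o b * M a (fl η b)

/-- The sign that compares a point with the chosen point of its orbit. -/
def eiquotU {n : ℕ} (η : Fin n → Bool) (o : Lat n → ℤ) : Option (Lat n) → ℤ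
  | none => 1
  | some b => if (pq η b).out = b then 1 else o b

section sign

variable {n : ℕ} (η : Fin n → Bool) {M : Lat n → Lat n → ℤ} {o : Lat n → ℤ}

theorem eiquot_u (o2 : ∀ a, o a * o a = 1) (x : Option (Lat n)) :
    eiquotU η o x * eiquotU η o x = 1 := by
  rcases x with _ | b
  · rfl
  · rw [eiquotU]
    split_ifs
    · rfl
    · exact o2 b

theorem eiquot_l (o2 : ∀ a, o a * o a = 1) (ofl : ∀ a, o (fl η a) = o a)
    (hM : ∀ a b, M (fl η a) (fl η b) = o a * o b * M a b) (a b : Lat n) :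
    eiquotQ η M o (fl η a) b = o a * eiquotQ η M o a b := by
  have h := hM a (fl η b)
  rw [fl_fl, ofl] at h
  rw [eiquotQ, eiquotQ, h, hM]
  linear_combination (o a * M a b) * o2 b

theorem eiquot_r (o2 : ∀ a, o a * o a = 1) (ofl : ∀ a, o (fl η a) = o a) (a b : Lat n) :
    eiquotQ η M o a (fl η b) = o b * eiquotQ η M o a b := by
  rw [eiquotQ, eiquotQ, fl_fl, ofl]
  linear_combination (-M a (fl η b)) * o2 b

theorem eiquot_out (o2 : ∀ a, o a * o a = 1) (ofl : ∀ a, o (fl η a) = o a)
    (hM : ∀ a b, M (fl η a) (fl η b) = o a * o b * M a b) (a b : Lat n) :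
    eiquotQ η M o (pq η a).out (pq η b).out =
      eiquotU η o (some a) * eiquotQ η M o a b * eiquotU η o (some b) := by
  rw [eiquotU, eiquotU]
  split_ifs with h1 h2 h2
  · rw [h1, h2, one_mul, mul_one]
  · rw [h1, (out_pq η b).resolve_left h2, eiquot_r η o2 ofl]
    ring
  · rw [h2, (out_pq η a).resolve_left h1, eiquot_l η o2 ofl hM, mul_one]
  · rw [(out_pq η a).resolve_left h1, (out_pq η b).resolve_left h2, eiquot_l η o2 ofl hM,
      eiquot_r η o2 ofl]
    ring

end sign

theorem cocell_quot {n : ℕ} (η : Fin n → Bool) {ρ : Lat n → Lat n → Prop}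
    {r : QL η → QL η → Prop} {A : Finset (Lat n)} {dm : Lat n → ℕ} {M : Lat n → Lat n → ℤ}
    {o : Lat n → ℤ} (h : CoCell ρ A dm M) (iA : Invt η A)
    (hr : ∀ a b, r (pq η a) (pq η b) ↔ ρ a b ∨ ρ a (fl η b))
    (uq : ∀ a ∈ A, ∀ b ∈ A, ρ a b → ¬ ρ a (fl η b)) (po : POn r (A.image (pq η)))
    (hdm : ∀ a, dm (fl η a) = dm a) (o2 : ∀ a, o a * o a = 1) (ofl : ∀ a, o (fl η a) = o a)
    (o0 : ∀ a, dm a = 0 → o a = 1) (hM : ∀ a b, M (fl η a) (fl η b) = o a * o b * M a b) :
    CoCell r (A.image (pq η)) (fun x => dm x.out) (QI η M o) := by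
  have om : ∀ x ∈ A.image (pq η), x.out ∈ A := fun x hx => (out_mem η iA).2 hx
  have fA : Free η A := fun a ha e => uq a ha a ha (h.po.refl a ha) (by
    rw [e]
    exact h.po.refl a ha)
  have hr' : ∀ x y, r x y ↔ ρ x.out y.out ∨ ρ x.out (fl η y.out) := fun x y => by
    rw [← hr, pq_out, pq_out]
  refine ⟨po, fun x hx y hy hi => ?_, fun x hx y hy hxy hne => ?_, fun x hx z hz => ?_,
    fun x hx hd => ?_, fun e he => ?_⟩
  · by_cases h1 : M x.out y.out = 0
    · rw [QI, h1, zero_add] at hi
      obtain ⟨h2, h3⟩ := h.face _ (om x hx) _ (iA _ (om y hy)) (right_ne_zero_of_mul hi)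
      exact ⟨(hr' x y).2 (Or.inr h2), h3.trans (by rw [hdm])⟩
    · obtain ⟨h2, h3⟩ := h.face _ (om x hx) _ (om y hy) h1
      exact ⟨(hr' x y).2 (Or.inl h2), h3⟩
  · rcases (hr' x y).1 hxy with h1 | h1
    · exact h.lt _ (om x hx) _ (om y hy) h1 fun e => hne (by rw [← pq_out η x, e, pq_out])
    · exact (hdm _).symm.trans_lt (h.lt _ (om x hx) _ (iA _ (om y hy)) h1
        fun e => hne (by rw [← pq_out η x, e, pq_fl, pq_out]))
  · have h1 : ∑ b ∈ A, M x.out b * eiquotQ η M o b z.out = 0 := by
      simp only [eiquotQ, mul_add, Finset.sum_add_distrib, mul_left_comm _ (o z.out),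
        ← Finset.mul_sum, h.sq _ (om x hx) _ (om z hz), h.sq _ (om x hx) _ (iA _ (om z hz)),
        mul_zero, add_zero]
    rw [sum_orbit η iA fA] at h1
    rw [← h1]
    refine Finset.sum_congr rfl fun y _ => ?_
    rw [eiquot_l η o2 ofl hM]
    change eiquotQ η M o x.out y.out * eiquotQ η M o y.out z.out = _
    rw [eiquotQ]
    ring
  · have h1 := h.au _ (om x hx) hd
    rw [sum_orbit η iA fA] at h1
    rw [← h1]
    refine Finset.sum_congr rfl fun y hy => ?_
    rw [QI]
    by_cases h2 : M x.out (fl η y.out) = 0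
    · rw [h2, mul_zero]
    · have h3 := (h.face _ (om x hx) _ (iA _ (om y hy)) h2).2
      rw [hdm] at h3
      rw [o0 y.out (by omega), one_mul]
  · have ha := om e he
    have hF : ∀ {b}, some b ∈ Finset.insertNone (A.filter (ρ e.out)) → b ∈ A ∧ ρ e.out b :=
      fun hb => Finset.mem_filter.1 (Finset.some_mem_insertNone.1 hb)
    have hE : ∀ x ∈ Finset.insertNone (A.filter (ρ e.out)), x.map (pq η) ∈
        Finset.insertNone ((A.image (pq η)).filter (r e)) := by
      rintro (_ | b) hb
      · exact Finset.none_mem_insertNone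
      · refine Finset.some_mem_insertNone.2 (Finset.mem_filter.2
          ⟨Finset.mem_image_of_mem _ (hF hb).1, ?_⟩)
        rw [← pq_out η e]
        exact (hr _ _).2 (Or.inl (hF hb).2)
    have hb : Bijective (fun x : ↥(Finset.insertNone (A.filter (ρ e.out))) =>
        (⟨x.1.map (pq η), hE x.1 x.2⟩ :
          ↥(Finset.insertNone ((A.image (pq η)).filter (r e))))) := by
      constructor
      · rintro ⟨_ | b, hb⟩ ⟨_ | b', hb'⟩ e1
        · rfl
        · exact absurd (congrArg Subtype.val e1) (by simp)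
        · exact absurd (congrArg Subtype.val e1) (by simp)
        · rcases (pq_eq_iff η).1 (Option.some.inj (congrArg Subtype.val e1)) with rfl | rfl
          · rfl
          · exact absurd (hF hb').2 (uq _ ha b (hF hb).1 (hF hb).2)
      · rintro ⟨_ | y, hy⟩
        · exact ⟨⟨none, Finset.none_mem_insertNone⟩, rfl⟩
        · obtain ⟨h1, h2⟩ := Finset.mem_filter.1 (Finset.some_mem_insertNone.1 hy)
          rcases (hr' e y).1 h2 with h3 | h3
          · exact ⟨⟨some y.out, Finset.some_mem_insertNone.2 (Finset.mem_filter.2 ⟨om y h1, h3⟩)⟩,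
              Subtype.ext (congrArg some (pq_out η y))⟩
          · exact ⟨⟨some (fl η y.out), Finset.some_mem_insertNone.2
              (Finset.mem_filter.2 ⟨iA _ (om y h1), h3⟩)⟩,
              Subtype.ext (congrArg some ((pq_fl η _).trans (pq_out η y)))⟩
    have hu : Matrix.diagonal (fun x : ↥(Finset.insertNone (A.filter (ρ e.out))) =>
        eiquotU η o x.1) * Matrix.diagonal (fun x => eiquotU η o x.1) = 1 := by
      rw [Matrix.diagonal_mul_diagonal, ← Matrix.diagonal_one]
      exact congrArg _ (funext fun x => eiquot_u η o2 x.1)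
    refine (ctr_reindex (Equiv.ofBijective _ hb)).1 ?_
    convert (h.ctr _ ha).conj hu hu using 1
    refine Matrix.ext fun x y => ?_
    rw [Matrix.mul_diagonal, Matrix.diagonal_mul]
    obtain ⟨_ | b, hb⟩ := x
    · exact ((congrArg (· * _) (mul_zero _)).trans (zero_mul _)).symm
    · obtain ⟨_ | b', hb'⟩ := y
      · change (if dm (pq η b).out = 0 then 1 else 0) =
          (if (pq η b).out = b then 1 else o b) * (if dm b = 0 then 1 else 0) * 1
        have h1 : dm (pq η b).out = dm b := by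
          rcases out_pq η b with h1 | h1 <;> rw [h1]
          exact hdm b
        rw [h1]
        by_cases h2 : dm b = 0
        · rw [if_pos h2, o0 b h2, ite_self, mul_one, mul_one]
        · rw [if_neg h2, mul_zero, zero_mul]
      · have h1 : M b (fl η b') = 0 := by
          by_contra h1
          exact uq _ ha _ (hF hb').1 (hF hb').2 (h.po.trans _ ha _ (hF hb).1 _ (iA _ (hF hb').1)
            (hF hb).2 (h.face _ (hF hb).1 _ (iA _ (hF hb').1) h1).1)
        refine (eiquot_out η o2 ofl hM b b').trans ?_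
        rw [eiquotQ, h1, mul_zero, add_zero]
        rfl

end Pool.Agent.Lib.MP_5ceaf9_gt
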