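import Pool.Agent.Lib.MP_5ceaf9_gt.EIBar

/-! The interior cells are a good subposet of the neighbourhood. -/

noncomputable section

namespace Pool.Agent.Lib.MP_5ceaf9_gt

open Classical Function

variable {n : ℕ} {S : Finset (Lat n)}

theorem eiun_val (x : ℤ) : (x % 2 = 0 ∧ 2 * a1 x = x ∧ 2 * b1 x = x) ∨
    (x % 4 = 1 ∧ 2 * a1 x = x - 1 ∧ 2 * b1 x = x + 1) ∨
    (x % 4 = 3 ∧ 2 * a1 x = x + 1 ∧ 2 * b1 x = x - 1) := by
  unfold a1 b1
  omega

theorem eiun_rho {x y : ℤ} (h : le0 y x) : le0 (a1 x + b1 y) x ∧ b1 (a1 x + b1 y) = b1 y ∧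
    a1 (a1 x + b1 y) = a1 x ∧ le0 y (a1 x + b1 y) := by
  have h1 := eiun_val x
  have h2 := eiun_val y
  have h3 := eiun_val (a1 x + b1 y)
  unfold le0 at *
  omega

theorem eiun_mono {x y z : ℤ} (h : le0 y z) (h' : le0 z x) : le0 (a1 x + b1 y) (a1 x + b1 z) := by
  unfold le0 a1 b1 at *
  omega

theorem eiun_sum (y : ℤ) : a1 y + b1 y = y := by
  unfold a1 b1
  omega

theorem eiun_bot (x : ℤ) : le0 (2 * a1 x) x ∧ b1 (2 * a1 x) = a1 x ∧ a1 (2 * a1 x) = a1 x := by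
  unfold le0 a1 b1
  omega

theorem ct_below_UU {e : Lat n} (he : cw a1 e ∈ S) {D : Finset (Lat n)}
    (hD : ∀ f, f ∈ D ↔ le1 f e ∧ cw b1 f ∈ S) (l : ℕ) : CT le1 l D := by
  have hQ : D.filter (fun f => cw a1 f = cw a1 e) ⊆ D := Finset.filter_subset _ _
  refine CT.up (ct_bot (pon_le1 _) (m := fun i => 2 * a1 (e i)) ?_ fun f hf i => ?_)
    (gp_retr_ge (pon_le1 D) hQ (ρ := fun f i => a1 (e i) + b1 (f i)) (fun f hf => ?_)
      (fun f hf => funext fun i => ?_) (fun f _ g hg h i => eiun_mono (h i) (((hD g).1 hg).1 i))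
      fun f hf i => (eiun_rho (((hD f).1 hf).1 i)).2.2.2)
  · refine Finset.mem_filter.2 ⟨(hD _).2 ⟨fun i => (eiun_bot (e i)).1, ?_⟩,
      funext fun i => (eiun_bot (e i)).2.2⟩
    rwa [show cw b1 (fun i => 2 * a1 (e i)) = cw a1 e from funext fun i => (eiun_bot (e i)).2.1]
  · have h : a1 (f i) = a1 (e i) := congrFun (Finset.mem_filter.1 hf).2 i
    exact (h ▸ (eiun_bot (f i)).1 : le0 (2 * a1 (e i)) (f i))
  · obtain ⟨h1, h2⟩ := (hD f).1 hf
    refine Finset.mem_filter.2 ⟨(hD _).2 ⟨fun i => (eiun_rho (h1 i)).1, ?_⟩,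
      funext fun i => (eiun_rho (h1 i)).2.2.1⟩
    rwa [show cw b1 (fun i => a1 (e i) + b1 (f i)) = cw b1 f from
      funext fun i => (eiun_rho (h1 i)).2.1]
  · rw [show a1 (e i) = a1 (f i) from (congrFun (Finset.mem_filter.1 hf).2 i).symm, eiun_sum]

theorem gp_UN (η : Fin n → Bool) (d : DnC S) (i : Invt η S) (f : Free η S) (l : ℕ) :
    GP (lq η) l ((UU S).image (pq η)) ((NN S).image (pq η)) := by
  refine gp_of_lower (pon_lq η _) (Finset.image_subset_image (UU_subset_NN d)) fun y hy _ => ?_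
  obtain ⟨e, he, rfl⟩ := Finset.mem_image.1 hy
  have hr : ∀ a ∈ (UU S).filter (fun a => le1 a e), ∀ b ∈ (UU S).filter (fun a => le1 a e),
      ¬ le1 (fl η a) b := fun a ha b hb h =>
    free_UU f a (Finset.mem_filter.1 ha).1 (fl_eq_of_le1 η (Finset.mem_filter.1 ha).2
      (le1_trans h (Finset.mem_filter.1 hb).2))
  have h1 : CT (lq η) l (((UU S).filter (fun a => le1 a e)).image (pq η)) := by
    refine (ct_image (r := le1) (fun a ha b hb h => ?_) fun a ha b hb => ?_).2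
      (ct_below_UU (mem_NN.1 he) (fun a => by rw [Finset.mem_filter, mem_UU, and_comm]) l)
    · rcases (pq_eq_iff η).1 h with h | h
      · exact h.symm
      · exact (hr a ha b hb (h ▸ le1_refl b)).elim
    · rw [lq_pq, or_iff_left (hr a ha b hb)]
  refine Eq.subst (motive := fun T => CT (lq η) l T) (Finset.ext fun x => ?_) h1
  rw [Finset.mem_filter]
  constructor
  · intro hx
    obtain ⟨a, ha, rfl⟩ := Finset.mem_image.1 hx
    exact ⟨Finset.mem_image_of_mem _ (Finset.mem_filter.1 ha).1,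
      lq_of_le1 η (Finset.mem_filter.1 ha).2⟩
  · rintro ⟨hx, h⟩
    obtain ⟨a, rfl, ha⟩ := lift_dn η h
    exact Finset.mem_image_of_mem _ (Finset.mem_filter.2 ⟨(mem_bar η (invt_UU i)).1 hx, ha⟩)

end Pool.Agent.Lib.MP_5ceaf9_gt
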