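import Pool.Agent.Lib.MP_5ceaf9_gt.EICtrC
import Pool.Agent.Lib.MP_5ceaf9_gt.EIQuot
import Pool.Agent.Lib.MP_5ceaf9_gt.EIH2
import Pool.Agent.Lib.MP_5ceaf9_gt.EILink
import Pool.Agent.Lib.MP_5ceaf9_gt.EIUN

/-! Duality data and the hypotheses of the obstruction theorem. -/

noncomputable section

namespace Pool.Agent.Lib.MP_5ceaf9_gt

open Classical Function

theorem cocell_dn {n : ℕ} (η : Fin n → Bool) {U : Finset (Lat n)} (d : DnC U) (i : Invt η U)
    (f : Free η U) : CoCell (swap (lq η)) (U.image (pq η)) (dmQ η) (incQ η) := by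
  have h := cocell_cube (Or.inr rfl) (sgS_sgE (n := n)).neg (A := U)
    (fun a ha b hab => d a ha b (by rw [rp_one] at hab; exact hab))
  rw [rp_one] at h
  exact cocell_quot η h i (fun a b => lq_pq η)
    (fun a _ b hb h1 h2 => f b hb (fl_eq_of_le1 η h1 h2)) (pon_lq η _).swap (odE_fl η)
    (orO_sq η) (orO_fl η) (fun _ => orO_of_dim η) (MM1_fl η)

theorem cocell_upE {n : ℕ} (η : Fin n → Bool) {N : Finset (Lat n)} (u : UpC N) (i : Invt η N)
    (f : Free η N) : CoCell (lq η) (N.image (pq η)) (fun x => dimE x.out) (incE η) := by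
  have h := cocell_cube (Or.inl rfl) (sgS_sgE (n := n)) (A := N)
    (fun a ha b hab => u a ha b (by rw [rp_zero] at hab; exact hab))
  rw [rp_zero] at h
  exact cocell_quot η h i (fun a b => lq_pq' η)
    (fun a ha b _ h1 => not_le1_fl η (f a ha) h1) (pon_lq η _) (dimE_fl η)
    (orE_sq η) (orE_fl η) (fun _ => orE_of_dim η) (MM0_fl η)

theorem cocell_up {N : Finset (Lat 5)} (u : UpC N) (i : Invt η5 N) (f : Free η5 N) :
    CoCell (lq η5) (N.image (pq η5)) (fun a => 5 - dmQ η5 a)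
      (fun e f => sg2 (dlt η5 e f) * incQ η5 f e) :=
  (cocell_upE η5 u i f).congr
    (fun a _ => by
      have := dimE_add_odE a.out
      unfold dmQ
      omega)
    (fun a ha _ _ => sg2_incQ (f _ ((out_mem η5 i).2 ha)))

theorem three_le_dimE {S : Finset (Lat 5)} (dim : ∀ a ∈ S, odE a ≤ 2) {e : Lat 5}
    (he : e ∈ UU S) : 3 ≤ dimE e := by
  have h1 := dim _ (mem_UU.1 he)
  have h2 := odE_le_cwb e
  have h3 := dimE_add_odE e
  omega

theorem dd_of {S : Finset (Lat 5)} (d : DnC S) (i : Invt η5 S) (f : Free η5 S)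
    (dim : ∀ a ∈ S, odE a ≤ 2) (cn : Conn (lq η5) (OC (lq η5) ((UU S).image (pq η5)))) :
    DD (lq η5) ((NN S).image (pq η5)) ((UU S).image (pq η5)) (dmQ η5) (incQ η5) (dlt η5) where
  sub := Finset.image_subset_image (UU_subset_NN d)
  down := fun b hb a _ h => by
    obtain ⟨b, hb', rfl⟩ := Finset.mem_image.1 hb
    obtain ⟨a, rfl, h'⟩ := lift_dn η5 h
    exact Finset.mem_image_of_mem _ (dnC_UU d b hb' a h')
  dimU := fun a ha => by
    have h1 := three_le_dimE dim ((out_mem η5 (invt_UU i)).2 ha)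
    have h2 := dimE_add_odE a.out
    unfold dmQ
    omega
  dimN := fun a _ => by
    have h2 := dimE_add_odE a.out
    unfold dmQ
    omega
  cU := cocell_dn η5 (dnC_UU d) (invt_UU i) (free_UU f)
  cN := cocell_up (upC_NN d) (invt_NN i) (free_NN f)
  flat := flat2_dlt η5 (invt_NN i) (free_NN f)
  gpU := gp_UN η5 d i f 2
  gpB := by
    rw [← bar_sdiff η5 (invt_NN i) (invt_UU i)]
    refine gp_link0 η5 (upC_NN d) (invt_NN i) (free_NN f) Finset.sdiff_subset fun e he he' => ?_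
    exact three_le_dimE dim (by simpa [he] using he')
  conn := cn
  zero := fun a ha h => by
    rw [← out_mem η5 (invt_UU i), mem_UU]
    rw [← out_mem η5 (invt_NN i), mem_NN] at ha
    have e : cw b1 a.out = cw a1 a.out := by
      funext j
      have h1 : ¬ a.out j % 2 = 1 := fun h1 =>
        Finset.card_ne_zero_of_mem (Finset.mem_filter.2 ⟨Finset.mem_univ j, h1⟩) h
      change b1 (a.out j) = a1 (a.out j)
      unfold a1 b1
      omega
    rw [e]
    exact ha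

theorem chyp_pair {S0 S1 L B0 B1 : Finset (Lat 5)} (d0 : DnC S0) (d1 : DnC S1) (i0 : Invt η5 S0)
    (i1 : Invt η5 S1) (f1 : Free η5 S1) (sub : S0 ⊆ S1) (dim : ∀ a ∈ S0, odE a ≤ 2)
    (hL : ∀ e, e ∈ L ↔ cw a1 e ∈ S1 ∧ cw b1 e ∉ S0)
    (hB0 : ∀ e, e ∈ B0 ↔ cw a1 e ∈ S0 ∧ cw b1 e ∉ S0)
    (hB1 : ∀ e, e ∈ B1 ↔ cw a1 e ∈ S1 ∧ cw b1 e ∉ S1)
    (gU : GP (lq η5) 1 ((UU S0).image (pq η5)) ((UU S1).image (pq η5)))
    (gB : GP (lq η5) 0 (B1.image (pq η5)) ((NN S1).image (pq η5)))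
    (cn : Conn (lq η5) (OC (lq η5) ((NN S1).image (pq η5)))) : CHyp B0 L ∧ CHyp B1 L := by
  have f0 : Free η5 S0 := fun a ha => f1 a (sub ha)
  obtain rfl : L = NN S1 \ UU S0 := by
    ext e
    rw [hL, Finset.mem_sdiff, mem_NN, mem_UU]
  obtain rfl : B0 = NN S0 \ UU S0 := by
    ext e
    rw [hB0, Finset.mem_sdiff, mem_NN, mem_UU]
  obtain rfl : B1 = NN S1 \ UU S1 := by
    ext e
    rw [hB1, Finset.mem_sdiff, mem_NN, mem_UU]
  have up : ∀ {S S' : Finset (Lat 5)}, DnC S → DnC S' → UpC (NN S \ UU S') := by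
    intro S S' d d' a ha b hab
    rw [Finset.mem_sdiff] at ha ⊢
    exact ⟨upC_NN d a ha.1 b hab, fun h => ha.2 (dnC_UU d' b h a hab)⟩
  have iL := invt_sdiff η5 (invt_NN i1) (invt_UU i0)
  have iB0 := invt_sdiff η5 (invt_NN i0) (invt_UU i0)
  have iB1 := invt_sdiff η5 (invt_NN i1) (invt_UU i1)
  have fL : Free η5 (NN S1 \ UU S0) := fun a ha => free_NN f1 a (Finset.mem_sdiff.1 ha).1
  have s0 : NN S0 \ UU S0 ⊆ NN S1 \ UU S0 := Finset.sdiff_subset_sdiff (NN_mono sub) le_rfl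
  have s1 : NN S1 \ UU S1 ⊆ NN S1 \ UU S0 := Finset.sdiff_subset_sdiff le_rfl (UU_mono sub)
  have gL : GP (lq η5) 0 ((NN S1 \ UU S0).image (pq η5)) ((NN S1).image (pq η5)) :=
    gp_link0 η5 (upC_NN d1) (invt_NN i1) (free_NN f1) Finset.sdiff_subset fun e he he' =>
      three_le_dimE dim (by simpa [he] using he')
  have gB0 : GP (lq η5) 0 ((NN S0 \ UU S0).image (pq η5)) ((NN S0).image (pq η5)) :=
    gp_link0 η5 (upC_NN d0) (invt_NN i0) (free_NN f0) Finset.sdiff_subset fun e he he' =>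
      three_le_dimE dim (by simpa [he] using he')
  have gN : GP (lq η5) 1 ((NN S0).image (pq η5)) ((NN S1).image (pq η5)) :=
    GP.right (Finset.image_subset_image (NN_mono sub)) (gU.trans (gp_UN η5 d1 i1 f1 1))
      (gp_UN η5 d0 i0 f0 1)
  have g0 : GP (lq η5) 0 ((NN S0 \ UU S0).image (pq η5)) ((NN S1 \ UU S0).image (pq η5)) :=
    GP.left (Finset.image_subset_image s0) (gB0.trans (gN.mono (by omega))) gL
  have g1 : GP (lq η5) 0 ((NN S1 \ UU S1).image (pq η5)) ((NN S1 \ UU S0).image (pq η5)) :=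
    GP.left (Finset.image_subset_image s1) gB gL
  have cx : ∀ {A B : Finset (QL η5)}, GP (lq η5) 0 A B → Conn (lq η5) (OC (lq η5) B) →
      Conn (lq η5) (OC (lq η5) A) :=
    fun g h => (g.2.2.eq1.conn_iff g.2.2.cK g.2.2.cL g.2.2.sub).2 h
  have cL := cx gL cn
  have bN0 : (UU S0).image (pq η5) ⊆ (NN S0).image (pq η5) :=
    Finset.image_subset_image (UU_subset_NN d0)
  have bN1 : (UU S1).image (pq η5) ⊆ (NN S1).image (pq η5) :=
    Finset.image_subset_image (UU_subset_NN d1)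
  have x0 : (NN S1 \ UU S0).image (pq η5) \ (NN S0 \ UU S0).image (pq η5) =
      (NN S1).image (pq η5) \ (NN S0).image (pq η5) := by
    rw [bar_sdiff η5 (invt_NN i1) (invt_UU i0), bar_sdiff η5 (invt_NN i0) (invt_UU i0)]
    ext x
    have := @bN0 x
    simp only [Finset.mem_sdiff]
    tauto
  have x1 : (NN S1 \ UU S0).image (pq η5) \ (NN S1 \ UU S1).image (pq η5) =
      (UU S1).image (pq η5) \ (UU S0).image (pq η5) := by
    rw [bar_sdiff η5 (invt_NN i1) (invt_UU i0), bar_sdiff η5 (invt_NN i1) (invt_UU i1)]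
    ext x
    have := @bN1 x
    simp only [Finset.mem_sdiff]
    tauto
  refine ⟨⟨s0, up d0 d0, up d1 d0, iB0, iL, fL, connL_of_conn η5 iB0 (cx g0 cL),
    connL_of_conn η5 iL cL, e1_of_gp η5 s0 iB0 iL fL g0, e2_of_gp η5 s0 iB0 iL fL g0,
    h2_of_ctr η5 (up d0 d0) iB0 iL fL fun Γ _ c hc => ?_⟩,
    ⟨s1, up d1 d1, up d1 d0, iB1, iL, fL, connL_of_conn η5 iB1 (cx g1 cL),
    connL_of_conn η5 iL cL, e1_of_gp η5 s1 iB1 iL fL g1, e2_of_gp η5 s1 iB1 iL fL g1,
    h2_of_ctr η5 (up d1 d1) iB1 iL fL fun Γ _ c hc => ?_⟩⟩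
  · have hX := Finset.sdiff_subset (s := (NN S1 \ UU S0).image (pq η5))
      (t := (NN S0 \ UU S0).image (pq η5))
    rw [x0] at hX ⊢
    refine ctr_of_up (cocell_upE η5 (upC_NN d1) (invt_NN i1) (free_NN f1)) ?_ gN gL hX hc
    intro a ha b _ h
    obtain ⟨a, ha', rfl⟩ := Finset.mem_image.1 ha
    obtain ⟨b, rfl, h'⟩ := lift_up η5 h
    exact Finset.mem_image_of_mem _ (upC_NN d0 a ha' b h')
  · have hX := Finset.sdiff_subset (s := (NN S1 \ UU S0).image (pq η5))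
      (t := (NN S1 \ UU S1).image (pq η5))
    rw [x1] at hX ⊢
    have h := ctr_of_dn (cocell_dn η5 (dnC_UU d1) (invt_UU i1) (free_UU f1))
      (fun a ha b _ h => by
        obtain ⟨a, ha', rfl⟩ := Finset.mem_image.1 ha
        obtain ⟨b, rfl, h'⟩ := lift_dn η5 h
        exact Finset.mem_image_of_mem _ (dnC_UU d0 a ha' b h'))
      gU bN1 gL hX (flat2_dlt η5 (invt_NN i1) (free_NN f1)) hc
    have e : rs ((UU S1).image (pq η5) \ (UU S0).image (pq η5))
        ((UU S1).image (pq η5) \ (UU S0).image (pq η5)) (Dc (incE η5) c) =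
        rs _ _ (Dc (fun e f => sg2 (dlt η5 e f) * incQ η5 f e) c) := by
      ext1 x y
      change MonoidAlgebra.single _ _ = MonoidAlgebra.single _ (sg2 _ * _)
      rw [sg2_incQ (free_UU f1 _ ((out_mem η5 (invt_UU i1)).2 (Finset.mem_sdiff.1 x.2).1))]
    rw [e]
    exact h

end Pool.Agent.Lib.MP_5ceaf9_gt
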