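import Pool.Agent.Lib.MP_5ceaf9_gt.EICube

/-! The sign systems and the flip. -/

noncomputable section

namespace Pool.Agent.Lib.MP_5ceaf9_gt

open Classical Function

variable {n : ℕ} (η : Fin n → Bool)

/-- The sign of the coordinates of parity `p` that satisfy `P`. -/
def eisgnO (P : Fin n → Prop) (p : ℤ) (e : Lat n) : ℤ :=
  ∏ j, if P j ∧ e j % 2 = p then -1 else 1

theorem eisgn_prod (P : Fin n → Prop) [DecidablePred P] :
    (-1 : ℤ) ^ (Finset.univ.filter P).card = ∏ j, if P j then -1 else 1 := by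
  rw [← Finset.prod_filter, Finset.prod_const]

theorem eisgn_sgE (e : Lat n) (i : Fin n) : sgE e i = eisgnO (fun j => j < i) 0 e := by
  rw [sgE, eisgn_prod]
  exact Finset.prod_congr rfl fun j _ => by congr

theorem eisgn_orE (e : Lat n) : orE η e = eisgnO (fun j => η j) 0 e := by
  rw [orE, eisgn_prod]
  exact Finset.prod_congr rfl fun j _ => by congr

theorem eisgn_orO (e : Lat n) : orO η e = eisgnO (fun j => η j) 1 e := by
  rw [orO, eisgn_prod]
  exact Finset.prod_congr rfl fun j _ => by congr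

theorem eisgn_sq (P : Fin n → Prop) (p : ℤ) (e : Lat n) : eisgnO P p e * eisgnO P p e = 1 := by
  rw [eisgnO, ← Finset.prod_mul_distrib]
  refine Finset.prod_eq_one fun j _ => ?_
  split_ifs <;> rfl

theorem eisgn_fl (P : Fin n → Prop) (p : ℤ) (e : Lat n) :
    eisgnO P p (fl η e) = eisgnO P p e := by
  refine Finset.prod_congr rfl fun j _ => ?_
  have h : fl η e j % 2 = e j % 2 := by
    rw [fl_apply]
    split_ifs
    · omega
    · rfl
  rw [h]

theorem eisgn_dim (P : Fin n → Prop) {p : ℤ} {e : Lat n} (h : dp p e = 0) : eisgnO P p e = 1 := by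
  refine Finset.prod_eq_one fun j _ => if_neg fun hj => ?_
  rw [dp, Finset.card_eq_zero, Finset.filter_eq_empty_iff] at h
  exact h (Finset.mem_univ j) hj.2

theorem eisgn_add (P : Fin n → Prop) (x : Lat n) (i : Fin n) {a : ℤ} (ha : a % 2 = 1) :
    eisgnO P 0 (x + Pi.single i a) = (if P i then -1 else 1) * eisgnO P 0 x := by
  unfold eisgnO
  rw [← Finset.mul_prod_erase _ _ (Finset.mem_univ i),
    ← Finset.mul_prod_erase _ (fun j => if P j ∧ x j % 2 = 0 then (-1 : ℤ) else 1)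
      (Finset.mem_univ i), ← mul_assoc]
  refine congrArg₂ _ ?_ (Finset.prod_congr rfl fun j hj => ?_)
  · rw [Pi.add_apply, Pi.single_eq_same]
    by_cases h : P i
    · by_cases h' : x i % 2 = 0
      · rw [if_neg (fun h1 => by omega), if_pos h, if_pos ⟨h, h'⟩]
        rfl
      · rw [if_pos ⟨h, by omega⟩, if_pos h, if_neg fun h1 => h' h1.2]
        rfl
    · rw [if_neg fun h1 => h h1.1, if_neg h, if_neg fun h1 => h h1.1]
      rfl
  · rw [Pi.add_apply, Pi.single_eq_of_ne (Finset.ne_of_mem_erase hj), add_zero]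

theorem eisgn_mul (e : Lat n) : orE η e * orO η e = ∏ j, if η j then -1 else 1 := by
  rw [eisgn_orE, eisgn_orO, eisgnO, eisgnO, ← Finset.prod_mul_distrib]
  refine Finset.prod_congr rfl fun j _ => ?_
  rcases Int.emod_two_eq_zero_or_one (e j) with h | h <;> by_cases h' : η j <;> simp [h, h']

theorem eisgn_fl_add (x : Lat n) (i : Fin n) (a : ℤ) :
    fl η (x + Pi.single i a) = fl η x + Pi.single i (if η i then -a else a) := by
  funext j
  by_cases h : j = i
  · subst h
    by_cases h' : η j <;> simp [fl_apply, h', add_comm]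
  · simp [fl_apply, Pi.single_eq_of_ne h]

theorem eisgn_pm {p : ℤ} {s : Lat n → Fin n → ℤ} {x : Lat n} {i : Fin n} (h : x i % 2 = p) {a : ℤ}
    (ha : a = 1 ∨ a = -1) : MM p s x (x + Pi.single i a) = a * s x i := by
  rcases ha with rfl | rfl
  · rw [MM_add h, one_mul]
  · rw [Pi.single_neg, ← sub_eq_add_neg, MM_sub h, neg_one_mul]

theorem eisgn_ne {p : ℤ} {s : Lat n → Fin n → ℤ} {x y : Lat n} (h : MM p s x y ≠ 0) :
    ∃ (i : Fin n) (a : ℤ), x i % 2 = p ∧ (a = 1 ∨ a = -1) ∧ y = x + Pi.single i a := by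
  obtain ⟨i, h1, h2 | h2⟩ := MM_ne h
  · exact ⟨i, 1, h1, Or.inl rfl, h2⟩
  · exact ⟨i, -1, h1, Or.inr rfl, by rw [h2, Pi.single_neg, sub_eq_add_neg]⟩

theorem eisgn_par (x : Lat n) (i : Fin n) : fl η x i % 2 = x i % 2 := by
  rw [fl_apply]
  split_ifs
  · omega
  · rfl

theorem sgS_sgE : SgS (sgE : Lat n → Fin n → ℤ) := by
  refine ⟨fun x i => ?_, fun x i j hij a b ha hb => ?_⟩
  · rw [eisgn_sgE, eisgn_sq]
  · simp only [eisgn_sgE]
    rw [eisgn_add _ _ _ ha, eisgn_add _ _ _ hb]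
    rcases lt_or_gt_of_ne hij with h | h
    · rw [if_pos h, if_neg h.not_gt]
      ring
    · rw [if_neg h.not_gt, if_pos h]
      ring

theorem SgS.neg {s : Lat n → Fin n → ℤ} (h : SgS s) : SgS (fun x i => -s x i) := by
  refine ⟨fun x i => ?_, fun x i j hij a b ha hb => ?_⟩
  · rw [neg_mul_neg, h.sq]
  · rw [neg_mul_neg, neg_mul_neg, h.anti x i j hij a b ha hb]

theorem orE_sq (e : Lat n) : orE η e * orE η e = 1 := by
  rw [eisgn_orE, eisgn_sq]

theorem orO_sq (e : Lat n) : orO η e * orO η e = 1 := by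
  rw [eisgn_orO, eisgn_sq]

theorem orE_fl (e : Lat n) : orE η (fl η e) = orE η e := by
  rw [eisgn_orE, eisgn_orE, eisgn_fl]

theorem orO_fl (e : Lat n) : orO η (fl η e) = orO η e := by
  rw [eisgn_orO, eisgn_orO, eisgn_fl]

theorem orE_of_dim {e : Lat n} (h : dp 0 e = 0) : orE η e = 1 := by
  rw [eisgn_orE, eisgn_dim _ h]

theorem orO_of_dim {e : Lat n} (h : dp 1 e = 0) : orO η e = 1 := by
  rw [eisgn_orO, eisgn_dim _ h]

theorem orE_mul_orO (e : Lat 5) : orE η5 e * orO η5 e = -1 := by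
  rw [eisgn_mul]
  decide

theorem MM0_fl (x y : Lat n) :
    MM 0 sgE (fl η x) (fl η y) = orE η x * orE η y * MM 0 sgE x y := by
  by_cases h : ∃ (i : Fin n) (a : ℤ), x i % 2 = 0 ∧ (a = 1 ∨ a = -1) ∧ y = x + Pi.single i a
  · obtain ⟨i, a, h1, h2, rfl⟩ := h
    have h3 : sgE (fl η x) i = sgE x i := by rw [eisgn_sgE, eisgn_sgE, eisgn_fl]
    have h4 := orE_sq η x
    rw [eisgn_fl_add, eisgn_pm ((eisgn_par η x i).trans h1) (by split_ifs <;> omega),
      eisgn_pm h1 h2, h3, eisgn_orE η (x + _), eisgn_add _ _ _ (by omega), ← eisgn_orE]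
    by_cases h5 : η i
    · rw [if_pos h5, if_pos h5]
      linear_combination (a * sgE x i) * h4
    · rw [if_neg h5, if_neg h5]
      linear_combination (-(a * sgE x i)) * h4
  · have h1 : MM 0 sgE x y = 0 := by_contra fun h1 => h (eisgn_ne h1)
    rw [h1, mul_zero]
    by_contra h2
    obtain ⟨i, a, h3, h4, h5⟩ := eisgn_ne h2
    refine h ⟨i, if η i then -a else a, (eisgn_par η x i).symm.trans h3,
      by split_ifs <;> omega, ?_⟩
    rw [← fl_fl η y, h5, eisgn_fl_add, fl_fl]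

theorem eisgn_eq (x y : Lat n) : MM 1 (fun x i => -sgE x i) y x = MM 0 sgE x y := by
  have e : ∀ (z : Lat n) (i : Fin n) (a : ℤ), z = z + Pi.single i a + Pi.single i (-a) :=
    fun z i a => by rw [Pi.single_neg, add_neg_cancel_right]
  by_cases h : ∃ (i : Fin n) (a : ℤ), x i % 2 = 0 ∧ (a = 1 ∨ a = -1) ∧ y = x + Pi.single i a
  · obtain ⟨i, a, h1, h2, h3⟩ := h
    have h4 : y i % 2 = 1 := by
      rw [h3, Pi.add_apply, Pi.single_eq_same]
      omega
    have h5 : x = y + Pi.single i (-a) := by rw [h3, ← e]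
    have h6 : sgE y i = sgE x i := by
      rw [h3, eisgn_sgE, eisgn_add _ _ _ (by omega), if_neg (lt_irrefl i), one_mul, eisgn_sgE]
    have h7 := eisgn_pm (s := fun x i => -sgE x i) h4 (a := -a) (by omega)
    have h8 := eisgn_pm (s := sgE) h1 h2
    rw [← h5] at h7
    rw [← h3] at h8
    rw [h7, h8, h6, neg_mul_neg]
  · have h1 : MM 0 sgE x y = 0 := by_contra fun h1 => h (eisgn_ne h1)
    rw [h1]
    by_contra h2
    obtain ⟨i, a, h3, h4, h5⟩ := eisgn_ne h2
    refine h ⟨i, -a, ?_, by omega, by rw [h5, ← e]⟩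
    rw [h5, Pi.add_apply, Pi.single_eq_same]
    omega

theorem MM1_fl (x y : Lat n) :
    MM 1 (fun x i => -sgE x i) (fl η x) (fl η y) =
      orO η x * orO η y * MM 1 (fun x i => -sgE x i) x y := by
  rw [eisgn_eq, eisgn_eq, MM0_fl]
  have h1 := (eisgn_mul η x).trans (eisgn_mul η y).symm
  have h2 := orE_sq η y
  have h3 := orO_sq η x
  refine congrArg (· * _) ?_
  linear_combination (orE η y * orO η x) * h1 - (orE η y * orE η x) * h3 +
    (orO η x * orO η y) * h2

theorem MM1_eq (x y : Lat n) : MM 1 (fun x i => -sgE x i) y x = MM 0 sgE x y := by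
  exact eisgn_eq x y

theorem sg2_incQ {x y : QL η5} (hx : fl η5 x.out ≠ x.out) :
    sg2 (dlt η5 x y) * incQ η5 y x = incE η5 x y := by
  have z : ∀ a b : Lat 5, ¬le1 a b → MM 0 sgE a b = 0 := fun a b h =>
    by_contra fun h1 => h (rp_zero ▸ (MM_face h1).1)
  have h1 := MM0_fl η5 x.out (fl η5 y.out)
  have h2 := orE_mul_orO x.out
  rw [fl_fl, orE_fl] at h1
  unfold incQ incE QI dlt
  rw [MM1_eq, MM1_eq, h1]
  by_cases h : le1 x.out y.out
  · rw [if_pos h, z _ _ (not_le1_fl η5 hx h), sg2, if_pos rfl]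
    ring
  · rw [if_neg h, z _ _ h, sg2, if_neg (by decide)]
    linear_combination (-(orE η5 y.out * MM 0 sgE x.out (fl η5 y.out))) * h2

end Pool.Agent.Lib.MP_5ceaf9_gt
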