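import Pool.Agent.Lib.MP_5ceaf9_gt.EDefs

/-! Stretch maps. -/

noncomputable section

namespace Pool.Agent.Lib.MP_5ceaf9_gt

open Classical Function

variable {n : ℕ} {θ : ℤ → ℤ} {η : Fin n → Bool} {A A' : Finset (Lat n)}

/-- Hint: `omega` (division by literals); for `surj` use `2 * y`. -/
theorem st_b1 : St b1 := by
  refine ⟨fun a b h => ?_, fun y => ⟨2 * y, ?_⟩, fun a => ?_, fun a b h => ?_⟩
  · unfold b1
    omega
  · unfold b1
    omega
  · unfold b1
    omega
  · unfold b1 le0 at *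
    omega

/-- The two ends of an interval. Hint: `unfold a1 b1 le0; omega`. -/
theorem a1_add_b1 (e : ℤ) : a1 e + b1 e = e := by
  unfold a1 b1
  omega

theorem a1_le0_b1 (e : ℤ) : le0 (a1 e) (b1 e) := by
  unfold a1 b1 le0
  omega

theorem a1_of_le0 {p q : ℤ} (h : le0 p q) : a1 (p + q) = p := by
  unfold a1 le0 at *
  omega

theorem b1_of_le0 {p q : ℤ} (h : le0 p q) : b1 (p + q) = q := by
  unfold b1 le0 at *
  omega

theorem a1_anti {e e' : ℤ} (h : le0 e e') : le0 (a1 e') (a1 e) := by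
  unfold a1 le0 at *
  omega

/-- Inclusion of intervals. -/
theorem le0_add {p q p' q' : ℤ} (h : le0 p q) (h1 : le0 p' p) (h2 : le0 q q') :
    le0 (p + q) (p' + q') := by
  unfold le0 at *
  omega

theorem est_div {M x q : ℤ} (h1 : 2 * M * q ≤ x) (h2 : x < 2 * M * q + 2 * M) :
    x / (2 * M) = q := by
  have h0 : 2 * M ≠ 0 := by
    intro h
    rw [h] at h1 h2
    linarith
  have e : x = x - 2 * M * q + q * (2 * M) := by ring
  rw [e, Int.add_mul_ediv_right _ _ h0, Int.ediv_eq_zero_of_lt (by linarith) (by linarith),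
    zero_add]

/-- The block of `2 k`. Hint: both quotients by `Int.ediv_eq_iff` style lemmas, e.g.
`Int.ediv_emod_unique` or `Int.add_mul_ediv_right` with `Int.ediv_eq_zero_of_lt`. -/
theorem th_blk {M x k : ℤ} (h : |x - M * (2 * k)| < M) : th M x = 2 * k := by
  obtain ⟨h1, h2⟩ := abs_lt.1 h
  unfold th
  rw [est_div (q := k) (by linarith) (by linarith), est_div (q := -k) (by linarith) (by linarith)]
  ring

theorem th_odd {M : ℤ} (hM : 0 < M) (k : ℤ) : th M (M * (2 * k) + M) = 2 * k + 1 := by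
  unfold th
  rw [est_div (q := k + 1) (by linarith) (by linarith),
    est_div (q := -k) (by linarith) (by linarith)]
  ring

theorem th_cover {M : ℤ} (hM : 0 < M) (x : ℤ) :
    (∃ k, |x - M * (2 * k)| < M) ∨ ∃ k, x = M * (2 * k) + M := by
  have h1 := Int.mul_ediv_add_emod (x + M) (2 * M)
  have h2 := Int.emod_nonneg (x + M) (by linarith : 2 * M ≠ 0)
  have h3 := Int.emod_lt_of_pos (x + M) (by linarith : 0 < 2 * M)
  generalize (x + M) / (2 * M) = k at *
  generalize (x + M) % (2 * M) = s at *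
  rcases h2.eq_or_lt with h4 | h4
  · exact Or.inr ⟨k - 1, by linarith⟩
  · exact Or.inl ⟨k, abs_lt.2 ⟨by linarith, by linarith⟩⟩

/-- Hint for `le`: for `b` odd use `th_cover` at `b`; in a block `b - M * (2 * k)` and `M` are both
odd, so `b + 1` and `b - 1` ... careful: `|b - 2 M k| < M` with both odd gives `≤ M - 2`, so the
neighbours are in the same block; at `b = 2 M k + M` the neighbours are in the blocks of `2 k` and
`2 k + 2` (for `M = 1` too). -/
theorem st_th {M : ℤ} (hM : 0 < M) (ho : M % 2 = 1) : St (th M) := by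
  refine ⟨fun a b h => ?_, fun y => ?_, fun a => ?_, fun a b h => ?_⟩
  · unfold th
    have h1 := Int.ediv_le_ediv (by linarith : 0 < 2 * M) (by linarith : a + M ≤ b + M)
    have h2 := Int.ediv_le_ediv (by linarith : 0 < 2 * M) (by linarith : M - b ≤ M - a)
    linarith
  · rcases Int.even_or_odd' y with ⟨k, rfl | rfl⟩
    · exact ⟨M * (2 * k), th_blk (by simpa using hM)⟩
    · exact ⟨_, th_odd hM k⟩
  · unfold th
    rw [show -a + M = M - a by ring, show M - -a = a + M by ring]
    ring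
  · rcases h with rfl | ⟨hb, hab⟩
    · exact Or.inl rfl
    · rcases th_cover hM b with ⟨k, hk⟩ | ⟨k, hk⟩
      · refine Or.inl ?_
        rw [th_blk hk]
        refine th_blk ?_
        rw [show M * (2 * k) = 2 * (M * k) by ring, abs_lt] at hk ⊢
        generalize M * k = t at *
        omega
      · rw [hk, th_odd hM]
        refine Or.inr ⟨by omega, ?_⟩
        rcases hab with hab | hab
        · refine Or.inl ?_
          rw [th_blk (k := k + 1) (abs_lt.2 ⟨by linarith, by linarith⟩)]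
          ring
        · refine Or.inr ?_
          rw [th_blk (k := k) (abs_lt.2 ⟨by linarith, by linarith⟩)]
          ring

theorem St.a1_th2 (h : St θ) (e : ℤ) : a1 (th2 θ e) = θ (a1 e) := by
  exact a1_of_le0 (h.le _ _ (a1_le0_b1 e))

theorem St.b1_th2 (h : St θ) (e : ℤ) : b1 (th2 θ e) = θ (b1 e) := by
  exact b1_of_le0 (h.le _ _ (a1_le0_b1 e))

theorem est_lift (h : St θ) {q : ℤ} (hq : q % 2 = 1) :
    ∃ a b, le0 a b ∧ θ a = q + 1 ∧ θ b = q := by
  obtain ⟨c, hc⟩ := h.surj (q + 1)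
  have hb : ∀ z, θ z = q → z + 1 ≤ c := by
    intro z hz
    by_contra hn
    have := h.mono (show c ≤ z by omega)
    omega
  obtain ⟨b, h1, h2⟩ := Int.exists_greatest_of_bdd (P := fun z => θ z = q)
    ⟨c, fun z hz => by have := hb z hz; omega⟩ (h.surj q)
  have h3 := h.mono (hb b h1)
  have h4 := h.mono (show b ≤ b + 1 by omega)
  have h5 : θ (b + 1) ≠ q := fun e => by have := h2 _ e; omega
  have h6 : θ (b + 1) = q + 1 := by omega
  refine ⟨b + 1, b, Or.inr ⟨?_, Or.inl rfl⟩, h6, h1⟩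
  by_contra hn
  have h7 := h.le b (b + 1) (Or.inr ⟨by omega, Or.inr (by omega)⟩)
  rw [h1, h6] at h7
  unfold le0 at h7
  omega

/-- Every comparable pair lifts. Hint: for `p = q + 1`, `q` odd, let `b` be the largest point of
the fibre of `q` (bounded by a preimage of `q + 1`) and `a = b + 1`; `θ a = q + 1` by `mono` and
`surj`; `b` is odd, since otherwise `le0 b (b + 1)` gives `le0 q (q + 1)`. The case `p = q - 1`
follows with `odd`. -/
theorem St.lift (h : St θ) {p q : ℤ} (hpq : le0 p q) : ∃ a b, le0 a b ∧ θ a = p ∧ θ b = q := by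
  rcases hpq with rfl | ⟨hq, rfl | rfl⟩
  · obtain ⟨a, ha⟩ := h.surj p
    exact ⟨a, a, Or.inl rfl, ha, ha⟩
  · exact est_lift h hq
  · obtain ⟨a, b, h1, h2, h3⟩ := est_lift h (q := -q) (by omega)
    refine ⟨-a, -b, ?_, ?_, ?_⟩
    · unfold le0 at *
      omega
    · rw [h.odd, h2]
      ring
    · rw [h.odd, h3, neg_neg]

theorem St.st_th2 (h : St θ) : St (th2 θ) := by
  refine ⟨fun a b hab => ?_, fun y => ?_, fun a => ?_, fun a b hab => ?_⟩
  · refine add_le_add (h.mono ?_) (h.mono (st_b1.mono hab))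
    unfold a1
    omega
  · obtain ⟨a, b, h1, h2, h3⟩ := h.lift (a1_le0_b1 y)
    refine ⟨a + b, ?_⟩
    unfold th2
    rw [a1_of_le0 h1, b1_of_le0 h1, h2, h3, a1_add_b1]
  · have e : a1 (-a) = -a1 a := by
      unfold a1
      omega
    unfold th2
    rw [e, st_b1.odd, h.odd, h.odd]
    ring
  · exact le0_add (h.le _ _ (a1_le0_b1 a)) (h.le _ _ (a1_anti hab)) (h.le _ _ (st_b1.le _ _ hab))

theorem St.cw_fl (h : St θ) (x : Lat n) : cw θ (fl η x) = fl η (cw θ x) := by
  funext i
  by_cases hi : η i <;> simp [cw, fl, hi, h.odd]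

theorem St.cw_le (h : St θ) {x y : Lat n} (hxy : le1 x y) : le1 (cw θ x) (cw θ y) := by
  exact fun i => h.le _ _ (hxy i)

/-- Fibres are finite: the fibre of `y` lies between preimages of `y - 1` and `y + 1`. -/
theorem St.fin (h : St θ) (y : ℤ) : {x | θ x = y}.Finite := by
  obtain ⟨a, ha⟩ := h.surj (y - 1)
  obtain ⟨b, hb⟩ := h.surj (y + 1)
  refine (Set.finite_Icc a b).subset fun x hx => ?_
  have hx' : θ x = y := hx
  constructor
  · by_contra hc
    have := h.mono (not_le.1 hc).le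
    omega
  · by_contra hc
    have := h.mono (not_le.1 hc).le
    omega

theorem St.exists_pre (h : St θ) (A : Finset (Lat n)) :
    ∃ A' : Finset (Lat n), ∀ x, x ∈ A' ↔ cw θ x ∈ A := by
  have hf : ((cw θ) ⁻¹' (A : Set (Lat n))).Finite := by
    refine A.finite_toSet.preimage' fun y _ => ?_
    refine (Set.Finite.pi' fun i => h.fin (y i)).subset fun x hx i => ?_
    exact congrFun hx i
  exact ⟨hf.toFinset, fun x => by simp⟩

theorem St.dnc (h : St θ) (hA' : ∀ x, x ∈ A' ↔ cw θ x ∈ A) (hA : DnC A) : DnC A' := by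
  exact fun b hb a hab => (hA' a).2 (hA _ ((hA' b).1 hb) _ (h.cw_le hab))

theorem St.upc (h : St θ) (hA' : ∀ x, x ∈ A' ↔ cw θ x ∈ A) (hA : UpC A) : UpC A' := by
  exact fun a ha b hab => (hA' b).2 (hA _ ((hA' a).1 ha) _ (h.cw_le hab))

theorem St.invt (h : St θ) (hA' : ∀ x, x ∈ A' ↔ cw θ x ∈ A) (hA : Invt η A) : Invt η A' := by
  intro a ha
  rw [hA', h.cw_fl]
  exact hA _ ((hA' a).1 ha)

theorem St.free (h : St θ) (hA' : ∀ x, x ∈ A' ↔ cw θ x ∈ A) (hA : Free η A) : Free η A' := by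
  intro a ha e
  refine hA _ ((hA' a).1 ha) ?_
  rw [← h.cw_fl, e]

theorem St.cq_pq (h : St θ) (x : Lat n) : cq η θ (pq η x) = pq η (cw θ x) := by
  unfold cq
  rcases (pq_eq_iff η).1 (pq_out η (pq η x)).symm with e | e
  · rw [e]
  · rw [e, h.cw_fl, pq_fl]

end Pool.Agent.Lib.MP_5ceaf9_gt
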