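import Pool.Agent.Lib.MP_5ceaf9_gt.EDefs

/-! The tripled poset. -/

noncomputable section

namespace Pool.Agent.Lib.MP_5ceaf9_gt

open Classical Function

variable {β : Type} [DecidableEq β] [Nonempty β] {r : β → β → Prop} {X : Finset β} {k : β → ℕ}
  {l : ℕ}

theorem mem_X3 {a : β × ℕ} : a ∈ X3 X ↔ a.1 ∈ X ∧ a.2 < 3 := by
  rw [X3, Finset.mem_product, Finset.mem_range]

theorem pon_X3 (h : POn r X) : POn (r3 r) (X3 X) := by
  refine ⟨fun a _ => Or.inl rfl, ?_, ?_⟩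
  · rintro a - b - (h1 | h1) (h2 | h2)
    · exact h1
    · exact h1
    · exact h2.symm
    · exact absurd h1.1 (not_lt.2 h2.1.le)
  · rintro a ha b hb d hd (rfl | h1) (rfl | h2)
    · exact Or.inl rfl
    · exact Or.inr h2
    · exact Or.inr h1
    · exact Or.inr ⟨h1.1.trans h2.1,
        h.trans _ (mem_X3.1 ha).1 _ (mem_X3.1 hb).1 _ (mem_X3.1 hd).1 h1.2 h2.2⟩

theorem rk_X3 : Rk (r3 r) (X3 X) Prod.snd := by
  refine ⟨fun a ha => Nat.lt_succ_iff.1 (mem_X3.1 ha).2, ?_⟩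
  rintro a - b - (h1 | h1) hne
  · exact absurd h1 hne
  · exact h1.1

theorem mo_X3 (h : POn r X) : Mo (r3 r) r (X3 X) X Prod.fst := by
  refine ⟨pon_X3 h, h, fun a ha => (mem_X3.1 ha).1, ?_⟩
  rintro a ha b - (rfl | h1)
  · exact h.refl _ (mem_X3.1 ha).1
  · exact h1.2

/-- A monotone map followed by the rank. -/
theorem mo_graph {α : Type} [DecidableEq α] {s : α → α → Prop} {Y : Finset α} {j : α → ℕ}
    {f : α → β} (hj : Rk s Y j) (h : Mo s r Y X f) :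
    Mo s (r3 r) Y (X3 X) (fun v => (f v, j v)) := by
  refine ⟨h.pA, pon_X3 h.pB, fun a ha => mem_X3.2 ⟨h.maps a ha, Nat.lt_succ_of_le (hj.le a ha)⟩,
    fun a ha b hb hab => ?_⟩
  by_cases e : a = b
  · exact Or.inl (by rw [e])
  · exact Or.inr ⟨hj.lt a ha b hb hab e, h.mono a ha b hb hab⟩

theorem ex3_low (h : POn r X) (hk : Rk r X k) {v : β} (hv : v ∈ X) (h1 : k v ≤ 1)
    {S : Finset (β × ℕ)} (hS : ∀ a, a ∈ S ↔ a.1 ∈ X ∧ a.2 < 2 ∧ r a.1 v) : CT (r3 r) l S := by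
  have hp : POn (r3 r) S := (pon_X3 h).mono fun a ha =>
    mem_X3.2 ⟨((hS a).1 ha).1, ((hS a).1 ha).2.1.trans (by omega)⟩
  refine CT.up (A := S.filter fun a => a.1 = v ∨ a.2 = 0)
    (ct_top (hp.mono (Finset.filter_subset _ _)) (m := (v, 1))
      (Finset.mem_filter.2 ⟨(hS _).2 ⟨hv, by omega, h.refl v hv⟩, Or.inl rfl⟩) ?_)
    (gp_retr_le hp (Finset.filter_subset _ _) (ρ := fun a => if a.1 = v then a else (a.1, 0))
      ?_ ?_ ?_ ?_)
  · rintro ⟨u, j⟩ ha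
    obtain ⟨h2, h3⟩ := Finset.mem_filter.1 ha
    obtain ⟨-, h4, h5⟩ := (hS _).1 h2
    by_cases e : j = 0
    · exact Or.inr ⟨by omega, h5⟩
    · exact Or.inl (Prod.ext (h3.resolve_right e) (by dsimp only at h4 ⊢; omega))
  · intro a ha
    split_ifs with e
    · exact Finset.mem_filter.2 ⟨ha, Or.inl e⟩
    · exact Finset.mem_filter.2 ⟨(hS _).2 ⟨((hS _).1 ha).1, by omega, ((hS _).1 ha).2.2⟩, Or.inr rfl⟩
  · intro a ha
    split_ifs with e
    · rfl
    · exact Prod.ext rfl ((Finset.mem_filter.1 ha).2.resolve_left e).symm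
  · rintro a ha b hb (rfl | hab)
    · exact Or.inl rfl
    · obtain ⟨a1, a2, a3⟩ := (hS _).1 ha
      obtain ⟨b1, b2, b3⟩ := (hS _).1 hb
      have e0 : a.2 = 0 := by have := hab.1; omega
      have e1 : (if a.1 = v then a else (a.1, 0)) = a := by
        split_ifs
        · rfl
        · exact Prod.ext rfl e0.symm
      rw [e1]
      split_ifs with e
      · exact Or.inr hab
      · have h6 := hk.lt _ b1 _ hv b3 e
        refine Or.inl (Prod.ext ?_ e0)
        by_contra e'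
        have := hk.lt _ a1 _ b1 hab.2 e'
        omega
  · intro a ha
    split_ifs with e
    · exact Or.inl rfl
    · by_cases e0 : a.2 = 0
      · exact Or.inl (Prod.ext rfl e0.symm)
      · exact Or.inr ⟨Nat.pos_of_ne_zero e0, h.refl _ ((hS _).1 ha).1⟩

theorem ex3_upp (h : POn r X) (hk : Rk r X k) {v : β} (hv : v ∈ X) (h1 : 1 ≤ k v)
    {S : Finset (β × ℕ)}
    (hS : ∀ a, a ∈ S ↔ a.1 ∈ X ∧ 0 < a.2 ∧ a.2 < 3 ∧ (a.2 = 2 → k a.1 = 2) ∧ r v a.1) :
    CT (r3 r) l S := by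
  have hp : POn (r3 r) S := (pon_X3 h).mono fun a ha =>
    mem_X3.2 ⟨((hS a).1 ha).1, ((hS a).1 ha).2.2.1⟩
  have h2 : ∀ a ∈ S, a.1 ≠ v → k a.1 = 2 := fun a ha e => by
    obtain ⟨a1, -, -, -, a3⟩ := (hS _).1 ha
    have := hk.lt _ hv _ a1 a3 e.symm
    have := hk.le _ a1
    omega
  refine CT.up (A := S.filter fun a => a.1 = v ∨ a.2 = 2)
    (ct_bot (hp.mono (Finset.filter_subset _ _)) (m := (v, 1))
      (Finset.mem_filter.2 ⟨(hS _).2 ⟨hv, by omega, by omega, by omega, h.refl v hv⟩,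
        Or.inl rfl⟩) ?_)
    (gp_retr_ge hp (Finset.filter_subset _ _) (ρ := fun a => if a.1 = v then a else (a.1, 2))
      ?_ ?_ ?_ ?_)
  · rintro ⟨u, j⟩ ha
    obtain ⟨h3, h4⟩ := Finset.mem_filter.1 ha
    obtain ⟨-, h5, h6, -, h7⟩ := (hS _).1 h3
    by_cases e : j = 2
    · exact Or.inr ⟨by omega, h7⟩
    · exact Or.inl (Prod.ext (h4.resolve_right e).symm (by dsimp only at h5 h6 ⊢; omega))
  · intro a ha
    split_ifs with e
    · exact Finset.mem_filter.2 ⟨ha, Or.inl e⟩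
    · exact Finset.mem_filter.2 ⟨(hS _).2 ⟨((hS _).1 ha).1, by omega, by omega,
        fun _ => h2 a ha e, ((hS _).1 ha).2.2.2.2⟩, Or.inr rfl⟩
  · intro a ha
    split_ifs with e
    · rfl
    · exact Prod.ext rfl ((Finset.mem_filter.1 ha).2.resolve_left e).symm
  · rintro a ha b hb (rfl | hab)
    · exact Or.inl rfl
    · obtain ⟨a1, a2, -, -, -⟩ := (hS _).1 ha
      obtain ⟨b1, -, b2, -, -⟩ := (hS _).1 hb
      have e0 : b.2 = 2 := by have := hab.1; omega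
      have e1 : (if b.1 = v then b else (b.1, 2)) = b := by
        split_ifs
        · rfl
        · exact Prod.ext rfl e0.symm
      rw [e1]
      split_ifs with e
      · exact Or.inr hab
      · have h6 := h2 a ha e
        refine Or.inl (Prod.ext ?_ e0.symm)
        by_contra e'
        have := hk.lt _ a1 _ b1 hab.2 e'
        have := hk.le _ b1
        omega
  · intro a ha
    split_ifs with e
    · exact Or.inl rfl
    · obtain ⟨a1, -, a2, -, -⟩ := (hS _).1 ha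
      by_cases e0 : a.2 = 2
      · exact Or.inl (Prod.ext rfl e0)
      · exact Or.inr ⟨by dsimp only; omega, h.refl _ a1⟩

/-- Remove the points `(v, 2)` with `k v < 2`. Hint: `gp_of_lower`; the points below `(v, 2)` are
the `(u, j)` with `u ≤ v`, `j < 2`; retract down by `(u, 1) ↦ (u, 0)` for `u ≠ v` (such `u` have
rank zero, so are minimal) to a set with top `(v, 1)`; `ct_top`, `CT.up`, `gp_retr_le`. -/
theorem gp_X3_a (h : POn r X) (hk : Rk r X k) {Q : Finset (β × ℕ)}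
    (hQ : ∀ a, a ∈ Q ↔ a ∈ X3 X ∧ (a.2 = 2 → k a.1 = 2)) : GP (r3 r) l Q (X3 X) := by
  refine gp_of_lower (pon_X3 h) (fun a ha => ((hQ a).1 ha).1) fun y hy hn => ?_
  obtain ⟨y1, y2⟩ := mem_X3.1 hy
  have h1 : y.2 = 2 ∧ k y.1 ≠ 2 := by
    by_contra hc
    exact hn ((hQ y).2 ⟨hy, fun e => by_contra fun e' => hc ⟨e, e'⟩⟩)
  have h2 := hk.le _ y1
  refine ex3_low h hk y1 (by omega) fun a => ?_
  rw [Finset.mem_filter, hQ, mem_X3]
  constructor
  · rintro ⟨h3, rfl | h4⟩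
    · exact absurd (h3.2 h1.1) h1.2
    · exact ⟨h3.1.1, by omega, h4.2⟩
  · rintro ⟨h3, h4, h5⟩
    exact ⟨⟨⟨h3, by omega⟩, by omega⟩, Or.inr ⟨by omega, h5⟩⟩

/-- Remove the points `(v, 0)` with `0 < k v`. Hint: `gp_of_upper`; retract up by
`(w, 1) ↦ (w, 2)` for `w ≠ v` (such `w` have rank two) to a set with bottom `(v, 1)`. -/
theorem gp_X3_b (h : POn r X) (hk : Rk r X k) {Q P : Finset (β × ℕ)}
    (hP : ∀ a, a ∈ P ↔ a ∈ X3 X ∧ (a.2 = 2 → k a.1 = 2))
    (hQ : ∀ a, a ∈ Q ↔ a ∈ P ∧ (a.2 = 0 → k a.1 = 0)) : GP (r3 r) l Q P := by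
  refine gp_of_upper ((pon_X3 h).mono fun a ha => ((hP a).1 ha).1) (fun a ha => ((hQ a).1 ha).1)
    fun y hy hn => ?_
  obtain ⟨y1, y2⟩ := mem_X3.1 ((hP y).1 hy).1
  have h1 : y.2 = 0 ∧ k y.1 ≠ 0 := by
    by_contra hc
    exact hn ((hQ y).2 ⟨hy, fun e => by_contra fun e' => hc ⟨e, e'⟩⟩)
  refine ex3_upp h hk y1 (by omega) fun a => ?_
  rw [Finset.mem_filter, hQ, hP, mem_X3]
  constructor
  · rintro ⟨h3, rfl | h4⟩
    · exact absurd (h3.2 h1.1) h1.2
    · exact ⟨h3.1.1.1, by omega, h3.1.1.2, h3.1.2, h4.2⟩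
  · rintro ⟨h3, h4, h5, h6, h7⟩
    exact ⟨⟨⟨⟨h3, h5⟩, h6⟩, by omega⟩, Or.inr ⟨by omega, h7⟩⟩

/-- Remove the points `(v, 1)` with `k v ≠ 1`. Hint: first those with `k v = 0` (`gp_of_lower`,
the only point below is `(v, 0)`), then those with `k v = 2` (`gp_of_upper`, the only point above
is `(v, 2)`). -/
theorem gp_X3_c (h : POn r X) (hk : Rk r X k) {Q P : Finset (β × ℕ)}
    (hP : ∀ a, a ∈ P ↔ a ∈ X3 X ∧ (a.2 = 2 → k a.1 = 2) ∧ (a.2 = 0 → k a.1 = 0))
    (hQ : ∀ a, a ∈ Q ↔ a.1 ∈ X ∧ a.2 = k a.1) : GP (r3 r) l Q P := by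
  have hp : POn (r3 r) P := (pon_X3 h).mono fun a ha => ((hP a).1 ha).1
  have hM : ∀ a, a ∈ P.filter (fun a => a.2 = 1 → k a.1 ≠ 0) ↔ (a.1 ∈ X ∧ a.2 < 3) ∧
      (a.2 = 2 → k a.1 = 2) ∧ (a.2 = 0 → k a.1 = 0) ∧ (a.2 = 1 → k a.1 ≠ 0) := fun a => by
    rw [Finset.mem_filter, hP, mem_X3]
    simp only [and_assoc]
  have hQM : Q ⊆ P.filter (fun a => a.2 = 1 → k a.1 ≠ 0) := fun a ha => by
    obtain ⟨a1, a2⟩ := (hQ a).1 ha
    have := hk.le _ a1
    exact (hM a).2 ⟨⟨a1, by omega⟩, by omega, by omega, by omega⟩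
  have hpM := hp.mono (Finset.filter_subset (fun a => a.2 = 1 → k a.1 ≠ 0) P)
  refine GP.trans (gp_of_upper hpM hQM fun y hy hn => ?_)
    (gp_of_lower hp (Finset.filter_subset _ _) fun y hy hn => ?_)
  · obtain ⟨⟨y1, y2⟩, y3, y4, y5⟩ := (hM y).1 hy
    have y6 : y.2 ≠ k y.1 := fun e => hn ((hQ y).2 ⟨y1, e⟩)
    have y7 := hk.le _ y1
    have y8 : y.2 = 1 ∧ k y.1 = 2 := by omega
    refine ct_bot (hpM.mono ((Finset.filter_subset _ _).trans hQM)) (m := (y.1, 2))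
      (Finset.mem_filter.2 ⟨(hQ _).2 ⟨y1, y8.2.symm⟩, Or.inr ⟨by omega, h.refl _ y1⟩⟩)
      fun a ha => ?_
    obtain ⟨a1, rfl | a2⟩ := Finset.mem_filter.1 ha
    · exact absurd a1 hn
    · obtain ⟨a3, a4⟩ := (hQ a).1 a1
      have a5 := hk.le _ a3
      have a6 := a2.1
      refine Or.inl (Prod.ext ?_ (by dsimp only; omega))
      by_contra e
      have := hk.lt _ y1 _ a3 a2.2 e
      omega
  · obtain ⟨y0, y3, y4⟩ := (hP y).1 hy
    obtain ⟨y1, y2⟩ := mem_X3.1 y0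
    have y8 : y.2 = 1 ∧ k y.1 = 0 := by
      by_contra hc
      exact hn (Finset.mem_filter.2 ⟨hy, fun e e' => hc ⟨e, e'⟩⟩)
    refine ct_top (hpM.mono (Finset.filter_subset _ _)) (m := (y.1, 0))
      (Finset.mem_filter.2 ⟨(hM _).2 ⟨⟨y1, by omega⟩, by omega, fun _ => y8.2, by omega⟩,
        Or.inr ⟨by omega, h.refl _ y1⟩⟩) fun a ha => ?_
    obtain ⟨a1, rfl | a2⟩ := Finset.mem_filter.1 ha
    · exact absurd a1 hn
    · have a6 := a2.1
      refine Or.inl (Prod.ext ?_ (by dsimp only; omega))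
      by_contra e
      have := hk.lt _ ((hM a).1 a1).1.1 _ y1 a2.2 e
      omega

/-- Hint: the graph `s v = (v, k v)` is an order embedding with good image (`me_emb_iff` and the
three lemmas above), `Prod.fst ∘ s = id` (`me_incl_iff`, `GP.refl`), then `ME.right`. -/
theorem me_X3 (h : POn r X) (hk : Rk r X k) : ME (r3 r) r l (X3 X) X Prod.fst := by
  have h1 : ME r (r3 r) l X (X3 X) (fun v => (v, k v)) := by
    refine (me_emb_iff h (pon_X3 h) (fun a _ b _ e => congrArg Prod.fst e) (fun a ha b hb => ?_)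
      fun a ha => mem_X3.2 ⟨ha, Nat.lt_succ_of_le (hk.le a ha)⟩).2 ?_
    · constructor
      · rintro (e | e)
        · obtain rfl : a = b := congrArg Prod.fst e
          exact h.refl a ha
        · exact e.2
      · intro hab
        by_cases e : a = b
        · exact Or.inl (by rw [e])
        · exact Or.inr ⟨hk.lt a ha b hb hab e, hab⟩
    · refine (gp_X3_c h hk (P := ((X3 X).filter fun a => a.2 = 2 → k a.1 = 2).filter
          fun a => a.2 = 0 → k a.1 = 0) (fun a => ?_) fun a => ?_).trans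
        ((gp_X3_b h hk (fun a => Finset.mem_filter) fun a => Finset.mem_filter).trans
          (gp_X3_a h hk fun a => Finset.mem_filter))
      · rw [Finset.mem_filter, Finset.mem_filter, and_assoc]
      · rw [Finset.mem_image]
        constructor
        · rintro ⟨v, hv, rfl⟩
          exact ⟨hv, rfl⟩
        · rintro ⟨a1, a2⟩
          exact ⟨a.1, a1, Prod.ext rfl a2.symm⟩
  exact h1.right (mo_X3 h) ((me_incl_iff h (Finset.Subset.refl X)).2 (GP.refl h))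

end Pool.Agent.Lib.MP_5ceaf9_gt
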