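import Pool.Agent.Lib.MP_5ceaf9_gt.ESa
import Pool.Agent.Lib.MP_5ceaf9_gt.ESt
import Pool.Agent.Lib.MP_5ceaf9_gt.EX3

/-! Nested lattice complexes. -/

noncomputable section

namespace Pool.Agent.Lib.MP_5ceaf9_gt

open Classical Function

namespace LD

variable {α γ : Type} [DecidableEq α] [Nonempty α] [DecidableEq γ] [Nonempty γ] {D : LD γ}
  {E : LD α} {F : α → γ} {M : ℤ}

theorem enest_st (h : Nest D E F M) : St (th M) :=
  st_th (by have := h.three; omega) h.odd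

theorem enest_near {a b : ℤ} (h : le0 a b) : |b - a| ≤ 1 := by
  unfold le0 at h
  rw [abs_le]
  omega

theorem enest_pos (h : Nest D E F M) {v : α} (hv : v ∈ E.R) {b : ℤ} (hb : |b - E.lam v| ≤ 1) :
    th M b = D.lam (F v) := by
  have h1 := h.lam v hv
  obtain ⟨k, hk⟩ : ∃ k, D.lam (F v) = 2 * k :=
    ⟨D.lam (F v) / 2, by have := h.okD.ev _ (h.mo.maps v hv); omega⟩
  rw [hk] at h1 ⊢
  refine th_blk ?_
  rw [abs_le] at h1 hb
  rw [abs_lt]
  constructor <;> linarith [h1.1, h1.2, hb.1, hb.2]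

/-- Near a signed label the stretch map gives the signed label of the image. Hint: `th_blk` with
`D.lam (F v) = 2 * k`, for `z = lam v` and `z = - lam v` (`St.odd`). -/
theorem Nest.lab (h : Nest D E F M) {i : ℕ} {z b : ℤ} (hz : E.O i z) (hb : |b - z| ≤ 1) :
    D.O i (th M b) ∧ D.el (th M b) = F (E.el z) ∧ sh (th M b) = sh z := by
  obtain ⟨v, hv, hk, hl⟩ := hz
  have hF := h.mo.maps v hv
  have p1 := h.okD.pos _ hF
  have p2 := h.okE.pos _ hv
  have key : D.lam (F v) = |th M b| ∧ sh (th M b) = sh z := by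
    rcases abs_cases z with ⟨e, -⟩ | ⟨e, -⟩
    · rw [e] at hl
      rw [enest_pos h hv (hl ▸ hb), abs_of_pos p1, sh, sh, if_pos p1, if_pos (hl ▸ p2)]
      exact ⟨rfl, rfl⟩
    · rw [e] at hl
      have h1 := enest_pos h hv (b := -b) (by
        rw [hl, show -b - -z = -(b - z) by ring, abs_neg]
        exact hb)
      rw [(enest_st h).odd, neg_eq_iff_eq_neg] at h1
      rw [h1, abs_neg, abs_of_pos p1, sh, sh, if_neg (by omega), if_neg (by omega)]
      exact ⟨rfl, rfl⟩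
  refine ⟨⟨F v, hF, (h.rk v hv).trans hk, key.1⟩, ?_, key.2⟩
  rw [h.okD.el_lam hF key.1, h.okE.el_lam hv hl]

theorem Nest.rl (h : Nest D E F M) {i j : ℕ} {z w b c : ℤ} (hz : E.O i z) (hw : E.O j w)
    (hb : |b - z| ≤ 1) (hc : |c - w| ≤ 1) (hr : E.Rl z w) : D.Rl (th M b) (th M c) := by
  obtain ⟨-, e1, s1⟩ := h.lab hz hb
  obtain ⟨-, e2, s2⟩ := h.lab hw hc
  have m1 := (h.okE.O_el hz).1
  have m2 := (h.okE.O_el hw).1
  refine ⟨?_, ?_⟩
  · rw [e1, e2]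
    exact h.mo.mono _ m1 _ m2 hr.1
  · rw [e1, e2, s1, s2, ← h.om _ m1 _ m2 hr.1]
    exact hr.2

/-- Hint: monotonicity of `th M` and `th_blk` at `M * Lb + M - 1`. -/
theorem Nest.bd (h : Nest D E F M) {z b : ℤ} (hz : |z| ≤ E.Lb) (hb : |b - z| ≤ 1) :
    |th M b| ≤ D.Lb := by
  have hs := enest_st h
  have h3 := h.three
  have h4 := h.Lb
  obtain ⟨k, hk⟩ : ∃ k, D.Lb = 2 * k := ⟨D.Lb / 2, by have := h.okD.Lev; omega⟩
  have h1 : th M (M * D.Lb + M - 1) = D.Lb := by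
    rw [hk]
    refine th_blk ?_
    rw [abs_lt]
    constructor <;> linarith
  rw [abs_le] at hz hb ⊢
  constructor
  · have := hs.mono (show -b ≤ M * D.Lb + M - 1 by linarith [hz.1, hb.1])
    rw [hs.odd, h1] at this
    linarith
  · exact (hs.mono (show b ≤ M * D.Lb + M - 1 by linarith [hz.2, hb.2])).trans h1.le

/-- The square coordinates. Hint: `th M` is monotone, `0` on `[-1, 1]`, `2` on `[2M-1, 2M+1]`. -/
theorem Nest.sq (h : Nest D E F M) {z b : ℤ} (h0 : 0 ≤ z) (h1 : z ≤ E.m) (hb : |b - z| ≤ 1) :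
    0 ≤ th M b ∧ th M b ≤ D.m ∧ (th M b ≠ 0 → z ≠ 0) ∧ (th M b ≠ D.m → z ≠ E.m) := by
  have hs := enest_st h
  have h3 := h.three
  have a0 : ∀ x : ℤ, -1 ≤ x → x ≤ 1 → th M x = 0 := fun x p q =>
    th_blk (k := 0) (by rw [abs_lt]; constructor <;> linarith)
  have a2 : ∀ x : ℤ, 2 * M - 1 ≤ x → x ≤ 2 * M + 1 → th M x = 2 := fun x p q =>
    th_blk (k := 1) (by rw [abs_lt]; constructor <;> linarith)
  rw [h.mE] at h1 ⊢
  rw [h.mD]
  rw [abs_le] at hb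
  refine ⟨?_, ?_, fun p q => p (a0 b (by omega) (by omega)),
    fun p q => p (a2 b (by omega) (by omega))⟩
  · exact (a0 (-1) le_rfl (by norm_num)).ge.trans (hs.mono (by omega))
  · exact (hs.mono (by omega)).trans (a2 (2 * M + 1) (by omega) le_rfl).le

theorem Nest.deep (h : Nest D E F M) {a b : Lat 5} (ha : E.In a) (hab : le1 a b) :
    D.In (cw (th M) b) := by
  have n := fun i => enest_near (hab i)
  obtain ⟨p1, p2, p3, p4⟩ := h.sq ha.l3 ha.u3 (n 3)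
  obtain ⟨q1, q2, q3, q4⟩ := h.sq ha.l4 ha.u4 (n 4)
  exact ⟨p1, p2, q1, q2, h.bd ha.b0 (n 0), h.bd ha.b1 (n 1), h.bd ha.b2 (n 2),
    fun x => (h.lab (ha.o0 (q3 x)) (n 0)).1, fun x => (h.lab (ha.o1 (p4 x)) (n 1)).1,
    fun x y => (h.lab (ha.o2 (p3 x) (q4 y)) (n 2)).1,
    fun x y => h.rl (ha.o0 (q3 x)) (ha.o1 (p4 y)) (n 0) (n 1) (ha.r01 (q3 x) (p4 y)),
    fun x y z => h.rl (ha.o0 (q3 x)) (ha.o2 (p3 y) (q4 z)) (n 0) (n 2)
      (ha.r02 (q3 x) (p3 y) (q4 z)),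
    fun x y z => h.rl (ha.o1 (p4 x)) (ha.o2 (p3 y) (q4 z)) (n 1) (n 2)
      (ha.r12 (p4 x) (p3 y) (q4 z))⟩

/-- Hint: the index of `D.top (cw (th M) a)` is active for `a`; `Nest.lab`, `Ok.le_top` for `E`,
`h.mo.mono`. -/
theorem Nest.le (h : Nest D E F M) {a : Lat 5} (ha : E.In a) :
    D.r (D.el (D.top (cw (th M) a))) (F (E.el (E.top a))) := by
  have n := fun i => enest_near (le1_refl a i)
  obtain ⟨-, -, p3, p4⟩ := h.sq ha.l3 ha.u3 (n 3)
  obtain ⟨-, -, q3, q4⟩ := h.sq ha.l4 ha.u4 (n 4)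
  obtain ⟨j, hj⟩ := h.okE.top_O ha
  obtain ⟨t0, t1, t2⟩ := h.okE.le_top ha
  have key : ∀ (i : ℕ) (c : Fin 5), E.O i (a c) → E.Rl (a c) (E.top a) →
      D.r (D.el (th M (a c))) (F (E.el (E.top a))) := fun i c ho hr => by
    rw [(h.lab ho (n c)).2.1]
    exact h.mo.mono _ (h.okE.O_el ho).1 _ (h.okE.O_el hj).1 hr.1
  show D.r (D.el (if th M (a 3) ≠ 0 ∧ th M (a 4) ≠ D.m then th M (a 2)
    else if th M (a 3) ≠ D.m then th M (a 1) else th M (a 0))) _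
  split_ifs with c1 c2
  · exact key 2 2 (ha.o2 (p3 c1.1) (q4 c1.2)) (t2 (p3 c1.1) (q4 c1.2))
  · exact key 1 1 (ha.o1 (p4 c2)) (t1 (p4 c2))
  · have hm := h.mD
    have c3 : a 4 ≠ 0 := q3 (by omega)
    exact key 0 0 (ha.o0 c3) (t0 c3)

/-- An injective numbering of a finite set. -/
theorem exists_idx (Y : Finset α) :
    ∃ g : α → ℤ, Set.InjOn g Y ∧ ∀ v ∈ Y, 0 ≤ g v ∧ g v < Y.card := by
  refine ⟨fun v => if h : v ∈ Y then ((Y.equivFin ⟨v, h⟩ : ℕ) : ℤ) else 0,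
    fun u hu v hv e => ?_, fun v hv => ?_⟩
  · simp only [dif_pos (Finset.mem_coe.1 hu), dif_pos (Finset.mem_coe.1 hv), Nat.cast_inj] at e
    exact congrArg Subtype.val (Y.equivFin.injective (Fin.ext e))
  · simp only [dif_pos hv]
    exact ⟨Nat.cast_nonneg _, Nat.cast_lt.2 (Fin.is_lt _)⟩

/-- Labels exist. Hint: with numberings `gX`, `gY` put `lamX v = 2 * (gX v + 1)`,
`LX = 2 * card X`, `M = 2 * card Y + 3`, `lamY v = M * lamX (F v) + 2 * gY v`,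
`LY = M * LX + M - 3`; `lamY` is injective by reduction modulo `M`. -/
theorem exists_nest {r : α → α → Prop} {r' : γ → γ → Prop} {Y : Finset α} {X : Finset γ}
    {kY : α → ℕ} {kX : γ → ℕ} {ω : γ → γ → ZMod 2} (hY : Rk r Y kY) (hX : Rk r' X kX)
    (hF : Mo r r' Y X F) (hk : ∀ v ∈ Y, kX (F v) = kY v) (hω : Flat2 r' (OC r' X) ω) :
    ∃ (lamX : γ → ℤ) (lamY : α → ℤ) (LX LY M : ℤ),
      Nest ⟨r', X, kX, ω, lamX, LX, 2⟩ ⟨r, Y, kY, fun a b => ω (F a) (F b), lamY, LY, 2 * M⟩ F M := by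
  obtain ⟨gX, iX, bX⟩ := exists_idx X
  obtain ⟨gY, iY, bY⟩ := exists_idx Y
  obtain ⟨M, hM⟩ : ∃ M : ℤ, M = 2 * Y.card + 3 := ⟨_, rfl⟩
  have c0 : (0 : ℤ) ≤ Y.card := Nat.cast_nonneg _
  have M0 : 0 < M := by omega
  refine ⟨fun v => 2 * (gX v + 1), fun v => M * (2 * (gX (F v) + 1)) + 2 * gY v, 2 * X.card,
    M * (2 * X.card) + M - 3, M,
    ⟨hF.pB, hX, hω, fun v hv => ?_, fun v _ => ?_, fun v hv => ?_, fun u hu v hv e => ?_,
      by norm_num, by norm_num, ?_⟩,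
    ⟨hF.pA, hY, ?_, fun v hv => ?_, fun v _ => ?_, fun v hv => ?_, fun u hu v hv e => ?_,
      ?_, ?_, ?_⟩, rfl, rfl, by omega, by omega, hF, hk, fun _ _ _ _ _ => rfl,
    fun v hv => ?_, ?_⟩
  · have := bX v hv
    show 0 < 2 * (gX v + 1)
    omega
  · show 2 * (gX v + 1) % 2 = 0
    omega
  · have := bX v hv
    show 2 * (gX v + 1) ≤ 2 * (X.card : ℤ)
    omega
  · have e' : 2 * (gX u + 1) = 2 * (gX v + 1) := e
    exact iX hu hv (by omega)
  · show 2 * (X.card : ℤ) % 2 = 0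
    omega
  · exact (flat_OC hF.pA).2 fun a ha b hb d hd hab hbd => (flat_OC hF.pB).1 hω _ (hF.maps a ha) _
      (hF.maps b hb) _ (hF.maps d hd) (hF.mono a ha b hb hab) (hF.mono b hb d hd hbd)
  · have h1 := bX _ (hF.maps v hv)
    have h2 := bY v hv
    have := mul_pos M0 (show 0 < 2 * (gX (F v) + 1) by omega)
    show 0 < M * (2 * (gX (F v) + 1)) + 2 * gY v
    omega
  · show (M * (2 * (gX (F v) + 1)) + 2 * gY v) % 2 = 0
    rw [mul_left_comm]
    omega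
  · have h1 := bX _ (hF.maps v hv)
    have h2 := bY v hv
    have := mul_le_mul_of_nonneg_left (show 2 * (gX (F v) + 1) ≤ 2 * (X.card : ℤ) by omega) M0.le
    show M * (2 * (gX (F v) + 1)) + 2 * gY v ≤ M * (2 * X.card) + M - 3
    omega
  · have e' : M * (2 * (gX (F u) + 1)) + 2 * gY u = M * (2 * (gX (F v) + 1)) + 2 * gY v := e
    have h1 := bY u hu
    have h2 := bY v hv
    have h3 := congrArg (· % M) e'
    simp only [Int.mul_add_emod_self_left] at h3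
    rw [Int.emod_eq_of_lt (by omega) (by omega), Int.emod_eq_of_lt (by omega) (by omega)] at h3
    exact iY hu hv (by omega)
  · show 0 < 2 * M
    omega
  · show 2 * M % 2 = 0
    omega
  · show (M * (2 * X.card) + M - 3) % 2 = 0
    rw [mul_left_comm]
    omega
  · have h2 := bY v hv
    show |M * (2 * (gX (F v) + 1)) + 2 * gY v - M * (2 * (gX (F v) + 1))| ≤ M - 2
    rw [add_sub_cancel_left, abs_le]
    omega
  · show M * (2 * X.card) + M - 3 ≤ M * (2 * X.card) + M - 2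
    omega

end LD

end Pool.Agent.Lib.MP_5ceaf9_gt
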