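import Pool.Agent.Lib.MP_5ceaf9_gt.ETr
import Pool.Agent.Lib.MP_5ceaf9_gt.ENest

/-! The lattice models of a rank preserving map. -/

noncomputable section

namespace Pool.Agent.Lib.MP_5ceaf9_gt

open Classical Function

namespace LD

variable {α γ : Type} [DecidableEq α] [Nonempty α] [DecidableEq γ] [Nonempty γ] {D : LD γ}
  {E : LD α} {F : α → γ} {M : ℤ} {S1 : Finset (Lat 5)}

theorem Nest.st (h : Nest D E F M) : St (th M) := st_th (by have := h.three; omega) h.odd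

theorem Nest.sub (h : Nest D E F M) (h1 : ∀ x, x ∈ S1 ↔ cw (th M) x ∈ D.S) : E.S ⊆ S1 :=
  fun a ha => (h1 a).2 (mem_S.2 (h.deep (mem_S.1 ha) (le1_refl a)))

theorem Nest.gp (h : Nest D E F M) (h1 : ∀ x, x ∈ S1 ↔ cw (th M) x ∈ D.S)
    (hF : ME E.r D.r 1 E.R D.R F) :
    GP (lq η5) 1 (E.S.image (pq η5)) (S1.image (pq η5)) := by
  have hs : E.S.image (pq η5) ⊆ S1.image (pq η5) := Finset.image_subset_image (h.sub h1)
  have m1 : ME (lq η5) D.r 1 (S1.image (pq η5)) D.R (D.psi ∘ cq η5 (th M)) :=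
    (h.st.me_dn h1 h.okD.dnc h.okD.free).comp h.okD.me_psi
  have m0 : Mo (lq η5) (lq η5) (E.S.image (pq η5)) (S1.image (pq η5)) id :=
    ⟨pon_lq η5 _, pon_lq η5 _, fun a ha => hs ha, fun _ _ _ _ e => e⟩
  have m2 : ME (lq η5) D.r 1 (E.S.image (pq η5)) D.R (F ∘ E.psi) := h.okE.me_psi.comp hF
  refine (me_incl_iff (pon_lq η5 _) hs).1 (ME.left m0 m1 ?_)
  refine (me_homotopy (m0.comp m1.1) m2.1 ?_).2 m2
  intro a ha
  show D.r (D.psi (pq η5 (cw (th M) a.out))) (F (E.el (E.top a.out)))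
  rw [psi_pq]
  exact h.le (h.okE.In_out ha)

theorem Nest.main (h : Nest D E F M) (hF : ME E.r D.r 1 E.R D.R F)
    (hc : Conn D.r (OC D.r D.R)) (ht : TV D.r (OC D.r D.R) D.ω) (he : EX E.r (OC E.r E.R) E.ω) :
    ∃ S0 S1 L B0 B1 : Finset (Lat 5), DnC S0 ∧ DnC S1 ∧ Invt η5 S0 ∧ Invt η5 S1 ∧ Free η5 S1 ∧
      (∀ a ∈ S0, ∀ b, le1 a b → b ∈ S1) ∧
      (∀ e, e ∈ L ↔ cw a1 e ∈ S1 ∧ cw b1 e ∉ S0) ∧
      (∀ e, e ∈ B0 ↔ cw a1 e ∈ S0 ∧ cw b1 e ∉ S0) ∧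
      (∀ e, e ∈ B1 ↔ cw a1 e ∈ S1 ∧ cw b1 e ∉ S1) ∧ CHyp B0 L ∧ CHyp B1 L ∧
      POn (lq η5) (L.image (pq η5)) ∧
      PD (lq η5) (OC (lq η5) (B0.image (pq η5))) ∧
      ¬ PD (lq η5) (OC (lq η5) (B1.image (pq η5))) := by
  obtain ⟨S1, h1⟩ := h.st.exists_pre D.S
  have hD := h.okD
  have hE := h.okE
  have d1 : DnC S1 := h.st.dnc h1 hD.dnc
  have i1 : Invt η5 S1 := h.st.invt h1 hD.invt
  have f1 : Free η5 S1 := h.st.free h1 hD.free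
  have hL : ∀ (P Q : Finset (Lat 5)) e, e ∈ NN P \ UU Q ↔ cw a1 e ∈ P ∧ cw b1 e ∉ Q :=
    fun P Q e => by rw [Finset.mem_sdiff, mem_NN, mem_UU]
  have ca : ∀ e : Lat 5, cw a1 (cw (th2 (th M)) e) = cw (th M) (cw a1 e) :=
    fun e => funext fun j => h.st.a1_th2 (e j)
  have cb : ∀ e : Lat 5, cw b1 (cw (th2 (th M)) e) = cw (th M) (cw b1 e) :=
    fun e => funext fun j => h.st.b1_th2 (e j)
  have pN : ∀ e, e ∈ NN S1 ↔ cw (th2 (th M)) e ∈ NN D.S :=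
    fun e => by rw [mem_NN, mem_NN, ca, h1]
  have pB : ∀ e, e ∈ NN S1 \ UU S1 ↔ cw (th2 (th M)) e ∈ NN D.S \ UU D.S :=
    fun e => by rw [hL, hL, ca, cb, h1, h1]
  have uB : UpC (NN D.S \ UU D.S) := fun a ha b hab =>
    Finset.mem_sdiff.2 ⟨upC_NN hD.dnc a (Finset.mem_sdiff.1 ha).1 b hab,
      fun hb => (Finset.mem_sdiff.1 ha).2 (dnC_UU hD.dnc b hb a hab)⟩
  have fB : Free η5 (NN D.S \ UU D.S) := fun a ha => free_NN hD.free a (Finset.mem_sdiff.1 ha).1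
  have mN : ∀ l, ME (swap (lq η5)) (swap (lq η5)) l ((NN S1).image (pq η5))
      ((NN D.S).image (pq η5)) (cq η5 (th2 (th M))) :=
    fun l => h.st.st_th2.me_up pN (upC_NN hD.dnc) (free_NN hD.free)
  have mB : ∀ l, ME (swap (lq η5)) (swap (lq η5)) l ((NN S1 \ UU S1).image (pq η5))
      ((NN D.S \ UU D.S).image (pq η5)) (cq η5 (th2 (th M))) :=
    fun l => h.st.st_th2.me_up pB uB fB
  have gU : GP (lq η5) 1 ((UU E.S).image (pq η5)) ((UU S1).image (pq η5)) :=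
    (gp_pair_iff (Finset.image_subset_image (UU_mono (h.sub h1)))
      (Finset.image_subset_image (h.sub h1)) (me_UU hE.dnc hE.free) (me_UU d1 f1)).2 (h.gp h1 hF)
  have gX : GP (lq η5) 0 ((NN D.S \ UU D.S).image (pq η5)) ((NN D.S).image (pq η5)) := by
    rw [bar_sdiff η5 (invt_NN hD.invt) (invt_UU hD.invt)]
    exact (hD.dd hc).gpB
  have gB : GP (lq η5) 0 ((NN S1 \ UU S1).image (pq η5)) ((NN S1).image (pq η5)) :=
    GP.swap ((gp_pair_iff (Finset.image_subset_image Finset.sdiff_subset)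
      (Finset.image_subset_image Finset.sdiff_subset) (mB 0) (mN 0)).2 gX.swap)
  have cE : Conn E.r (OC E.r E.R) := hF.conn_iff.2 hc
  have cn : Conn (lq η5) (OC (lq η5) ((NN S1).image (pq η5))) :=
    (gp_UN η5 d1 i1 f1 0).conn_iff.1 (gU.conn_iff.1 (hE.conn_U cE))
  obtain ⟨c0, c1⟩ := chyp_pair hE.dnc d1 hE.invt i1 f1 (h.sub h1) hE.odE (hL S1 E.S) (hL E.S E.S)
    (hL S1 S1) gU gB cn
  exact ⟨E.S, S1, _, _, _, hE.dnc, d1, hE.invt, i1, f1,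
    fun a ha b hab => (h1 b).2 (mem_S.2 (h.deep (mem_S.1 ha) hab)), hL S1 E.S, hL E.S E.S,
    hL S1 S1, c0, c1, pon_lq η5 _, hE.pd cE he, fun hp => hD.not_pd hc ht ((mB 2).pd_iff.1 hp)⟩

end LD

end Pool.Agent.Lib.MP_5ceaf9_gt
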