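import Pool.Agent.Lib.MP_5ceaf9_gt.EDefs

/-! The lattice complex of a labelled poset: elementary properties. -/

noncomputable section

namespace Pool.Agent.Lib.MP_5ceaf9_gt

open Classical Function

theorem sh_neg {z : ℤ} (hz : z ≠ 0) : sh (-z) = sh z + 1 := by
  unfold sh
  split_ifs <;> first | omega | decide

theorem sh_eq {z w : ℤ} (h : |z| = |w|) (hs : sh z = sh w) : z = w := by
  rcases abs_eq_abs.1 h with e | rfl
  · exact e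
  · by_contra e
    rw [sh_neg (by omega)] at hs
    exact absurd (add_eq_left.1 hs) (by decide)

namespace LD

variable {α : Type} [DecidableEq α] [Nonempty α] {D : LD α} {i j i' : ℕ} {z w u : ℤ}
  {x y : Lat 5}

/-- Hint: `Set.InjOn.leftInvOn_invFunOn`. -/
theorem Ok.el_lam (h : D.Ok) {v : α} (hv : v ∈ D.R) (e : D.lam v = |z|) : D.el z = v := by
  rw [el, ← e]
  exact h.inj.leftInvOn_invFunOn hv

theorem el_neg (D : LD α) (z : ℤ) : D.el (-z) = D.el z := by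
  rw [el, el, abs_neg]

theorem Ok.O_el (h : D.Ok) (hz : D.O i z) :
    D.el z ∈ D.R ∧ D.k (D.el z) = i ∧ D.lam (D.el z) = |z| := by
  obtain ⟨v, h1, h2, h3⟩ := hz
  rw [h.el_lam h1 h3]
  exact ⟨h1, h2, h3⟩

theorem Ok.O_lam (h : D.Ok) {v : α} (hv : v ∈ D.R) : D.O (D.k v) (D.lam v) := by
  exact ⟨v, hv, rfl, (abs_of_pos (h.pos v hv)).symm⟩

theorem O.neg (hz : D.O i z) : D.O i (-z) := by
  rw [O, abs_neg]
  exact hz

theorem Ok.O_ev (h : D.Ok) (hz : D.O i z) : z % 2 = 0 ∧ z ≠ 0 ∧ |z| ≤ D.Lb ∧ i ≤ 2 := by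
  obtain ⟨v, h1, h2, h3⟩ := hz
  have h4 := h.pos v h1
  have h5 := h.ev v h1
  refine ⟨?_, ?_, h3 ▸ h.le v h1, h2 ▸ h.rk.le v h1⟩ <;>
    rcases abs_cases z with e | e <;> omega

/-- Hint: `flat_OC`. -/
theorem Ok.om_add (h : D.Ok) {a b d : α} (ha : a ∈ D.R) (hb : b ∈ D.R) (hd : d ∈ D.R)
    (hab : D.r a b) (hbd : D.r b d) : D.ω a b + D.ω b d = D.ω a d := by
  exact (flat_OC h.po).1 h.flat a ha b hb d hd hab hbd

theorem Ok.om_self (h : D.Ok) {a : α} (ha : a ∈ D.R) : D.ω a a = 0 := by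
  exact add_eq_left.1 (h.om_add ha ha ha (h.po.refl a ha) (h.po.refl a ha))

theorem Ok.Rl_refl (h : D.Ok) (hz : D.O i z) : D.Rl z z := by
  exact ⟨h.po.refl _ (h.O_el hz).1, by rw [h.om_self (h.O_el hz).1, add_zero]⟩

theorem Ok.Rl_trans (h : D.Ok) (hz : D.O i z) (hw : D.O j w) (hu : D.O i' u) (h1 : D.Rl z w)
    (h2 : D.Rl w u) : D.Rl z u := by
  exact ⟨h.po.trans _ (h.O_el hz).1 _ (h.O_el hw).1 _ (h.O_el hu).1 h1.1 h2.1, by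
    rw [h2.2, h1.2, add_assoc, h.om_add (h.O_el hz).1 (h.O_el hw).1 (h.O_el hu).1 h1.1 h2.1]⟩

theorem Rl.neg (h : D.Rl z w) (hz : z ≠ 0) (hw : w ≠ 0) : D.Rl (-z) (-w) := by
  rw [Rl, el_neg, el_neg, sh_neg hz, sh_neg hw, h.2, add_right_comm]
  exact ⟨h.1, rfl⟩

theorem Rl.not_neg (h : D.Rl z w) (hz : z ≠ 0) : ¬ D.Rl (-z) w := by
  rintro ⟨-, h1⟩
  rw [el_neg, sh_neg hz, h.2, add_left_inj, left_eq_add] at h1
  exact absurd h1 (by decide)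

theorem Ok.Rl_rank (h : D.Ok) (hz : D.O i z) (hw : D.O j w) (h1 : D.Rl z w) :
    (z = w ∧ i = j) ∨ i < j := by
  obtain ⟨a1, a2, a3⟩ := h.O_el hz
  obtain ⟨b1, b2, b3⟩ := h.O_el hw
  by_cases e : D.el z = D.el w
  · refine Or.inl ⟨sh_eq (by rw [← a3, ← b3, e]) ?_, by rw [← a2, ← b2, e]⟩
    rw [h1.2, ← e, h.om_self a1, add_zero]
  · exact Or.inr (a2 ▸ b2 ▸ h.rk.lt _ a1 _ b1 h1.1 e)

/-- The bounds `0 ≤ D.Lb` and `0 ≤ D.m` follow from `D.In x`. -/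
theorem mem_S : x ∈ D.S ↔ D.In x := by
  rw [S, Finset.mem_filter, and_iff_right_iff_imp, Fintype.mem_piFinset]
  intro h i
  have h0 := abs_le.1 h.b0
  have h1 := abs_le.1 h.b1
  have h2 := abs_le.1 h.b2
  have h3 := h.l3
  have h4 := h.u3
  have h5 := h.l4
  have h6 := h.u4
  rw [Finset.mem_Icc]
  fin_cases i <;> simp only [Fin.zero_eta, Fin.mk_one, Fin.reduceFinMk] <;> omega

omit [Nonempty α] in
theorem Ok.esa_act (h : D.Ok) (hxy : le1 x y) : (x 4 ≠ 0 → y 4 ≠ 0) ∧ (x 3 ≠ D.m → y 3 ≠ D.m) ∧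
    (x 3 ≠ 0 → y 3 ≠ 0) ∧ (x 4 ≠ D.m → y 4 ≠ D.m) := by
  have h1 := h.mev
  have k3 := hxy 3
  have k4 := hxy 4
  unfold le0 at k3 k4
  omega

theorem Ok.esa_eq (h : D.Ok) (hy : D.In y) (hxy : le1 x y) : (x 4 ≠ 0 → x 0 = y 0) ∧
    (x 3 ≠ D.m → x 1 = y 1) ∧ (x 3 ≠ 0 → x 4 ≠ D.m → x 2 = y 2) := by
  obtain ⟨a0, a1, a2, a3⟩ := h.esa_act hxy
  have k : ∀ i, y i % 2 = 0 → x i = y i := fun i e => (hxy i).resolve_right (by omega)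
  exact ⟨fun p => k 0 (h.O_ev (hy.o0 (a0 p))).1, fun p => k 1 (h.O_ev (hy.o1 (a1 p))).1,
    fun p q => k 2 (h.O_ev (hy.o2 (a2 p) (a3 q))).1⟩

theorem Ok.esa_top (h : D.Ok) (x : Lat 5) : (x 3 ≠ 0 ∧ x 4 ≠ D.m ∧ D.top x = x 2) ∨
    (x 3 ≠ D.m ∧ ¬ (x 3 ≠ 0 ∧ x 4 ≠ D.m) ∧ D.top x = x 1) ∨
      (x 4 ≠ 0 ∧ x 3 = D.m ∧ x 4 = D.m ∧ D.top x = x 0) := by
  have h1 := h.mpos
  unfold top
  split_ifs <;> omega

/-- Hint: from `le1 x y` and parity, `x 4 ≠ 0 → y 4 ≠ 0`, `x 3 ≠ m → y 3 ≠ m`, and so on; a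
coordinate of `y` that is a label is even, so equals that of `x`; the bounds are even. -/
theorem Ok.In_dn (h : D.Ok) (hy : D.In y) (hxy : le1 x y) : D.In x := by
  obtain ⟨a0, a1, a2, a3⟩ := h.esa_act hxy
  obtain ⟨e0, e1, e2⟩ := h.esa_eq hy hxy
  have h0 := abs_le.1 hy.b0
  have h1 := abs_le.1 hy.b1
  have h2 := abs_le.1 hy.b2
  have h3 := hy.l3
  have h4 := hy.u3
  have h5 := hy.l4
  have h6 := hy.u4
  have h7 := h.mev
  have h8 := h.Lev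
  have k0 := hxy 0
  have k1 := hxy 1
  have k2 := hxy 2
  have k3 := hxy 3
  have k4 := hxy 4
  unfold le0 at k0 k1 k2 k3 k4
  refine ⟨by omega, by omega, by omega, by omega, abs_le.2 (by omega), abs_le.2 (by omega),
    abs_le.2 (by omega), fun p => e0 p ▸ hy.o0 (a0 p), fun p => e1 p ▸ hy.o1 (a1 p),
    fun p q => e2 p q ▸ hy.o2 (a2 p) (a3 q), fun p q => ?_, fun p q r => ?_, fun p q r => ?_⟩
  · rw [e0 p, e1 q]
    exact hy.r01 (a0 p) (a1 q)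
  · rw [e0 p, e2 q r]
    exact hy.r02 (a0 p) (a2 q) (a3 r)
  · rw [e1 p, e2 q r]
    exact hy.r12 (a1 p) (a2 q) (a3 r)

theorem Ok.In_fl (h : D.Ok) (hx : D.In x) : D.In (fl η5 x) := by
  exact ⟨hx.l3, hx.u3, hx.l4, hx.u4, (abs_neg _).trans_le hx.b0, (abs_neg _).trans_le hx.b1,
    (abs_neg _).trans_le hx.b2, fun p => (hx.o0 p).neg, fun p => (hx.o1 p).neg,
    fun p q => (hx.o2 p q).neg,
    fun p q => (hx.r01 p q).neg (h.O_ev (hx.o0 p)).2.1 (h.O_ev (hx.o1 q)).2.1,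
    fun p q r => (hx.r02 p q r).neg (h.O_ev (hx.o0 p)).2.1 (h.O_ev (hx.o2 q r)).2.1,
    fun p q r => (hx.r12 p q r).neg (h.O_ev (hx.o1 p)).2.1 (h.O_ev (hx.o2 q r)).2.1⟩

theorem Ok.top_O (h : D.Ok) (hx : D.In x) : ∃ i, D.O i (D.top x) := by
  rcases h.esa_top x with ⟨p, q, e⟩ | ⟨p, -, e⟩ | ⟨p, -, -, e⟩ <;> rw [e]
  exacts [⟨_, hx.o2 p q⟩, ⟨_, hx.o1 p⟩, ⟨_, hx.o0 p⟩]

theorem top_fl (D : LD α) (x : Lat 5) : D.top (fl η5 x) = -D.top x := by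
  change (if x 3 ≠ 0 ∧ x 4 ≠ D.m then -x 2 else if x 3 ≠ D.m then -x 1 else -x 0) = _
  unfold top
  split_ifs <;> rfl

theorem Ok.dnc (h : D.Ok) : DnC D.S := by
  exact fun _ hb _ hab => mem_S.2 (h.In_dn (mem_S.1 hb) hab)

theorem Ok.invt (h : D.Ok) : Invt η5 D.S := by
  exact fun _ ha => mem_S.2 (h.In_fl (mem_S.1 ha))

/-- Hint: `top_fl` and `top_O`. -/
theorem Ok.free (h : D.Ok) : Free η5 D.S := by
  intro a ha e
  obtain ⟨i, hi⟩ := h.top_O (mem_S.1 ha)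
  have h1 := (h.O_ev hi).2.1
  have h2 := D.top_fl a
  rw [e] at h2
  omega

/-- At most two coordinates are odd. Hint: `Finset.card_filter`, `Fin.sum_univ_five`, cases on
`x 3 = 0`, `x 3 = m`, `x 4 = 0`, `x 4 = m`. -/
theorem Ok.dim (h : D.Ok) (hx : D.In x) :
    (Finset.univ.filter (fun j => x j % 2 = 1)).card ≤ 2 := by
  have h0 := fun p => (h.O_ev (hx.o0 p)).1
  have h1 := fun p => (h.O_ev (hx.o1 p)).1
  have h2 := fun p q => (h.O_ev (hx.o2 p q)).1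
  have h3 := h.mpos
  have h4 := h.mev
  rw [Finset.card_filter, Fin.sum_univ_five]
  split_ifs <;> omega

/-- Every label of a point is below the largest one. -/
theorem Ok.le_top (h : D.Ok) (hx : D.In x) :
    (x 4 ≠ 0 → D.Rl (x 0) (D.top x)) ∧ (x 3 ≠ D.m → D.Rl (x 1) (D.top x)) ∧
      (x 3 ≠ 0 → x 4 ≠ D.m → D.Rl (x 2) (D.top x)) := by
  rcases h.esa_top x with ⟨p, q, e⟩ | ⟨p, q, e⟩ | ⟨p, q, r, e⟩ <;> rw [e]
  · exact ⟨fun r => hx.r02 r p q, fun r => hx.r12 r p q, fun _ _ => h.Rl_refl (hx.o2 p q)⟩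
  · exact ⟨fun r => hx.r01 r p, fun _ => h.Rl_refl (hx.o1 p), fun r s => absurd ⟨r, s⟩ q⟩
  · exact ⟨fun _ => h.Rl_refl (hx.o0 p), fun s => absurd q s, fun _ s => absurd r s⟩

/-- Hint: `top x` is a coordinate `x i = y i` whose index is also active for `y`; `le_top`. -/
theorem Ok.top_mono (h : D.Ok) (hy : D.In y) (hxy : le1 x y) : D.Rl (D.top x) (D.top y) := by
  obtain ⟨a0, a1, a2, a3⟩ := h.esa_act hxy
  obtain ⟨e0, e1, e2⟩ := h.esa_eq hy hxy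
  obtain ⟨t0, t1, t2⟩ := h.le_top hy
  rcases h.esa_top x with ⟨p, q, e⟩ | ⟨p, -, e⟩ | ⟨p, -, -, e⟩ <;> rw [e]
  exacts [e2 p q ▸ t2 (a2 p) (a3 q), e1 p ▸ t1 (a1 p), e0 p ▸ t0 (a0 p)]

/-- Being below `w` in terms of all labels. -/
theorem Ok.top_le_iff (h : D.Ok) (hx : D.In x) (hw : D.O j w) : D.Rl (D.top x) w ↔
    (x 4 ≠ 0 → D.Rl (x 0) w) ∧ (x 3 ≠ D.m → D.Rl (x 1) w) ∧
      (x 3 ≠ 0 → x 4 ≠ D.m → D.Rl (x 2) w) := by
  obtain ⟨i, hi⟩ := h.top_O hx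
  obtain ⟨t0, t1, t2⟩ := h.le_top hx
  refine ⟨fun e => ⟨fun p => h.Rl_trans (hx.o0 p) hi hw (t0 p) e,
    fun p => h.Rl_trans (hx.o1 p) hi hw (t1 p) e,
    fun p q => h.Rl_trans (hx.o2 p q) hi hw (t2 p q) e⟩, fun ⟨s0, s1, s2⟩ => ?_⟩
  rcases h.esa_top x with ⟨p, q, e⟩ | ⟨p, -, e⟩ | ⟨p, -, -, e⟩ <;> rw [e]
  exacts [s2 p q, s1 p, s0 p]

theorem psi_pq (D : LD α) (x : Lat 5) : D.psi (pq η5 x) = D.el (D.top x) := by
  rcases (pq_eq_iff η5).1 (pq_out η5 (pq η5 x)).symm with e | e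
  · rw [psi, e]
  · rw [psi, e, top_fl, el_neg]

end LD

end Pool.Agent.Lib.MP_5ceaf9_gt
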