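import Pool.Agent.Lib.MP_5ceaf9_gt.ESa
import Pool.Agent.Lib.MP_5ceaf9_gt.EBox

/-! The fibres of the map from the lattice complex to the poset are contractible. -/

noncomputable section

namespace Pool.Agent.Lib.MP_5ceaf9_gt

open Classical Function

theorem esb_box {l : ℕ} {A : Finset (Lat 5)} (a b : Lat 5) (hab : ∀ i, a i ≤ b i)
    (hA : ∀ x, x ∈ A ↔ (a 0 ≤ x 0 ∧ x 0 ≤ b 0) ∧ (a 1 ≤ x 1 ∧ x 1 ≤ b 1) ∧
      (a 2 ≤ x 2 ∧ x 2 ≤ b 2) ∧ (a 3 ≤ x 3 ∧ x 3 ≤ b 3) ∧ (a 4 ≤ x 4 ∧ x 4 ≤ b 4)) :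
    CT le1 l A := by
  refine ct_prod (fun i z => a i ≤ z ∧ z ≤ b i)
    (fun _ _ _ _ h1 h2 h3 h4 => ⟨h1.1.trans h3, h4.trans h2.2⟩) (fun x => ?_)
    ⟨a, (hA a).2 ⟨⟨le_rfl, hab 0⟩, ⟨le_rfl, hab 1⟩, ⟨le_rfl, hab 2⟩, ⟨le_rfl, hab 3⟩, le_rfl,
      hab 4⟩⟩
  rw [hA]
  refine ⟨fun h i => ?_, fun h => ⟨h 0, h 1, h 2, h 3, h 4⟩⟩
  fin_cases i
  exacts [h.1, h.2.1, h.2.2.1, h.2.2.2.1, h.2.2.2.2]

theorem esb_one {l : ℕ} {A : Finset (Lat 5)} {L m w : ℤ} (hm : 0 < m) (h1 : -L ≤ w) (h2 : w ≤ L)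
    {Q : ℤ → Prop}
    (hA : ∀ x, x ∈ A ↔ ((0 ≤ x 3 ∧ x 3 ≤ m) ∧ (0 ≤ x 4 ∧ x 4 ≤ m) ∧ (-L ≤ x 0 ∧ x 0 ≤ L) ∧
      (-L ≤ x 1 ∧ x 1 ≤ L) ∧ (-L ≤ x 2 ∧ x 2 ≤ L) ∧ (x 3 = 0 ∨ x 4 = m) ∧ (x 3 = m ∨ x 1 = w)) ∧
      (x 4 ≠ 0 → Q (x 0))) : CT le1 l A := by
  have g1 : GP le1 l (A.filter fun x => x 1 = w) A := by
    refine gp_step_eq 1 w (fun x hx k => ?_) (fun x hx k => ?_) (fun x => Finset.mem_filter)
    all_goals
      rw [hA] at hx ⊢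
      simp only [update_apply, Fin.reduceEq, if_true, if_false]
      exact ⟨by omega, hx.2⟩
  have g2 : GP le1 l ((A.filter fun x => x 1 = w).filter fun x => x 3 ≤ 0)
      (A.filter fun x => x 1 = w) := by
    refine gp_step_dn 3 0 (fun x hx k => ?_) (fun x => Finset.mem_filter)
    rw [Finset.mem_filter, hA] at hx ⊢
    simp only [update_apply, Fin.reduceEq, if_true, if_false]
    exact ⟨⟨by omega, hx.1.2⟩, hx.2⟩
  have g3 : GP le1 l (((A.filter fun x => x 1 = w).filter fun x => x 3 ≤ 0).filter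
      fun x => x 4 ≤ 0) ((A.filter fun x => x 1 = w).filter fun x => x 3 ≤ 0) := by
    refine gp_step_dn 4 0 (fun x hx k => ?_) (fun x => Finset.mem_filter)
    rw [Finset.mem_filter, Finset.mem_filter, hA] at hx ⊢
    simp only [update_apply, Fin.reduceEq, if_true, if_false]
    exact ⟨⟨⟨by omega, fun _ => hx.1.1.2 (by omega)⟩, hx.1.2⟩, hx.2⟩
  refine CT.up (esb_box ![-L, w, -L, 0, 0] ![L, w, L, 0, 0] (fun i => ?_) fun x => ?_)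
    (g3.trans (g2.trans g1))
  · fin_cases i <;> simp <;> omega
  · rw [Finset.mem_filter, Finset.mem_filter, Finset.mem_filter, hA]
    change _ ↔ (-L ≤ x 0 ∧ x 0 ≤ L) ∧ (w ≤ x 1 ∧ x 1 ≤ w) ∧ (-L ≤ x 2 ∧ x 2 ≤ L) ∧
      (0 ≤ x 3 ∧ x 3 ≤ 0) ∧ (0 ≤ x 4 ∧ x 4 ≤ 0)
    exact ⟨fun ⟨⟨⟨⟨h, _⟩, _⟩, _⟩, _⟩ => by omega,
      fun h => ⟨⟨⟨⟨by omega, fun k => absurd (by omega) k⟩, by omega⟩, by omega⟩, by omega⟩⟩

theorem esb_two {l : ℕ} {A : Finset (Lat 5)} {L m w : ℤ} (hm : 0 < m) (h1 : -L ≤ w) (h2 : w ≤ L)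
    {Q Q' : ℤ → Prop} {R : ℤ → ℤ → Prop}
    (hA : ∀ x, x ∈ A ↔ ((0 ≤ x 3 ∧ x 3 ≤ m) ∧ (0 ≤ x 4 ∧ x 4 ≤ m) ∧ (-L ≤ x 0 ∧ x 0 ≤ L) ∧
      (-L ≤ x 1 ∧ x 1 ≤ L) ∧ (-L ≤ x 2 ∧ x 2 ≤ L) ∧ (x 3 = 0 ∨ x 4 = m ∨ x 2 = w)) ∧
      (x 4 ≠ 0 → Q (x 0)) ∧ (x 3 ≠ m → Q' (x 1)) ∧ (x 4 ≠ 0 → x 3 ≠ m → R (x 0) (x 1))) :
    CT le1 l A := by
  have g1 : GP le1 l (A.filter fun x => x 2 = w) A := by
    refine gp_step_eq 2 w (fun x hx k => ?_) (fun x hx k => ?_) (fun x => Finset.mem_filter)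
    all_goals
      rw [hA] at hx ⊢
      simp only [update_apply, Fin.reduceEq, if_true, if_false]
      exact ⟨by omega, hx.2⟩
  have g2 : GP le1 l ((A.filter fun x => x 2 = w).filter fun x => m ≤ x 3)
      (A.filter fun x => x 2 = w) := by
    refine gp_step_up 3 m (fun x hx k => ?_) (fun x => Finset.mem_filter)
    rw [Finset.mem_filter, hA] at hx ⊢
    simp only [update_apply, Fin.reduceEq, if_true, if_false]
    exact ⟨⟨by omega, hx.1.2.1, fun _ => hx.1.2.2.1 k.ne, fun e _ => hx.1.2.2.2 e k.ne⟩, hx.2⟩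
  have g3 : GP le1 l (((A.filter fun x => x 2 = w).filter fun x => m ≤ x 3).filter
      fun x => x 4 ≤ 0) ((A.filter fun x => x 2 = w).filter fun x => m ≤ x 3) := by
    refine gp_step_dn 4 0 (fun x hx k => ?_) (fun x => Finset.mem_filter)
    rw [Finset.mem_filter, Finset.mem_filter, hA] at hx ⊢
    simp only [update_apply, Fin.reduceEq, if_true, if_false]
    exact ⟨⟨⟨by omega, fun _ => hx.1.1.2.1 k.ne', hx.1.1.2.2.1, fun _ => hx.1.1.2.2.2 k.ne'⟩,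
      hx.1.2⟩, hx.2⟩
  refine CT.up (esb_box ![-L, -L, w, m, 0] ![L, L, w, m, 0] (fun i => ?_) fun x => ?_)
    (g3.trans (g2.trans g1))
  · fin_cases i <;> simp <;> omega
  · rw [Finset.mem_filter, Finset.mem_filter, Finset.mem_filter, hA]
    change _ ↔ (-L ≤ x 0 ∧ x 0 ≤ L) ∧ (-L ≤ x 1 ∧ x 1 ≤ L) ∧ (w ≤ x 2 ∧ x 2 ≤ w) ∧
      (m ≤ x 3 ∧ x 3 ≤ m) ∧ (0 ≤ x 4 ∧ x 4 ≤ 0)
    exact ⟨fun ⟨⟨⟨⟨h, _⟩, _⟩, _⟩, _⟩ => by omega,
      fun h => ⟨⟨⟨⟨by omega, fun k => absurd (by omega) k, fun k => absurd (by omega) k,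
        fun k => absurd (by omega) k⟩, by omega⟩, by omega⟩, by omega⟩⟩

namespace LD

variable {α : Type} [DecidableEq α] [Nonempty α] {D : LD α} {l : ℕ} {w : ℤ} {A : Finset (Lat 5)}

/-- Rank zero. Hint: by `top_le_iff` and `Rl_rank` the set is the box `x 0 = w`, `|x 1| ≤ Lb`,
`|x 2| ≤ Lb`, `x 3 = m`, `x 4 = m` (indices one and two are not active, so `x 3 = m`, `x 4 = m`);
`ct_prod`. -/
theorem Ok.ct_fib0 (h : D.Ok) (hw : D.O 0 w)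
    (hA : ∀ x, x ∈ A ↔ D.In x ∧ D.Rl (D.top x) w) : CT le1 l A := by
  have hm := h.mpos
  have hb := abs_le.1 (h.O_ev hw).2.2.1
  refine esb_box ![w, -D.Lb, -D.Lb, D.m, D.m] ![w, D.Lb, D.Lb, D.m, D.m] (fun i => ?_) fun x => ?_
  · fin_cases i <;> simp <;> omega
  · rw [hA]
    change _ ↔ (w ≤ x 0 ∧ x 0 ≤ w) ∧ (-D.Lb ≤ x 1 ∧ x 1 ≤ D.Lb) ∧ (-D.Lb ≤ x 2 ∧ x 2 ≤ D.Lb) ∧
      (D.m ≤ x 3 ∧ x 3 ≤ D.m) ∧ (D.m ≤ x 4 ∧ x 4 ≤ D.m)
    constructor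
    · rintro ⟨hx, ht⟩
      obtain ⟨t0, t1, t2⟩ := (h.top_le_iff hx hw).1 ht
      have e3 : x 3 = D.m := by_contra fun k => by
        have := h.Rl_rank (hx.o1 k) hw (t1 k)
        omega
      have e4 : x 4 = D.m := by_contra fun k => by
        have := h.Rl_rank (hx.o2 (by omega) k) hw (t2 (by omega) k)
        omega
      have e0 := h.Rl_rank (hx.o0 (by omega)) hw (t0 (by omega))
      have b1 := abs_le.1 hx.b1
      have b2 := abs_le.1 hx.b2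
      omega
    · intro k
      have e0 : x 0 = w := by omega
      have e3 : x 3 = D.m := by omega
      have e4 : x 4 = D.m := by omega
      have hx : D.In x := ⟨by omega, by omega, by omega, by omega, abs_le.2 (by omega),
        abs_le.2 k.2.1, abs_le.2 k.2.2.1, fun _ => e0 ▸ hw, fun c => absurd e3 c,
        fun _ c => absurd e4 c, fun _ c => absurd e3 c, fun _ _ c => absurd e4 c,
        fun c => absurd e3 c⟩
      exact ⟨hx, (h.top_le_iff hx hw).2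
        ⟨fun _ => by rw [e0]; exact h.Rl_refl hw, fun c => absurd e3 c,
          fun _ c => absurd e4 c⟩⟩

/-- Rank one. Hint: index two is never active (`x 3 = 0 ∨ x 4 = m`). Push `x 1` to `w`
(`gp_step_eq`; it differs from `w` only when `x 3 = m`), then `x 3` down to `0` (`gp_step_dn`), then
`x 4` down to `0`; the rest is the box `x 1 = w`, `x 3 = 0`, `x 4 = 0`. `CT.up`, `GP.trans`. -/
theorem Ok.ct_fib1 (h : D.Ok) (hw : D.O 1 w)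
    (hA : ∀ x, x ∈ A ↔ D.In x ∧ D.Rl (D.top x) w) : CT le1 l A := by
  have hm := h.mpos
  have hb := abs_le.1 (h.O_ev hw).2.2.1
  refine esb_one (Q := fun z => D.O 0 z ∧ D.Rl z w) hm hb.1 hb.2 fun x => ?_
  rw [hA]
  constructor
  · rintro ⟨hx, ht⟩
    obtain ⟨t0, t1, t2⟩ := (h.top_le_iff hx hw).1 ht
    refine ⟨⟨⟨hx.l3, hx.u3⟩, ⟨hx.l4, hx.u4⟩, abs_le.1 hx.b0, abs_le.1 hx.b1, abs_le.1 hx.b2,
      by_contra fun k => ?_, by_contra fun k => ?_⟩, fun k => ⟨hx.o0 k, t0 k⟩⟩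
    · rw [not_or] at k
      have := h.Rl_rank (hx.o2 k.1 k.2) hw (t2 k.1 k.2)
      omega
    · rw [not_or] at k
      have := h.Rl_rank (hx.o1 k.1) hw (t1 k.1)
      omega
  · rintro ⟨⟨b3, b4, b0, b1, b2, c2, c1⟩, q⟩
    have e1 : x 3 ≠ D.m → x 1 = w := c1.resolve_left
    have e2 : x 3 ≠ 0 → x 4 ≠ D.m → False := fun a b => b (c2.resolve_left a)
    have hx : D.In x := ⟨b3.1, b3.2, b4.1, b4.2, abs_le.2 b0, abs_le.2 b1, abs_le.2 b2,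
      fun c => (q c).1, fun c => e1 c ▸ hw, fun a b => (e2 a b).elim,
      fun a b => e1 b ▸ (q a).2, fun _ a b => (e2 a b).elim, fun _ a b => (e2 a b).elim⟩
    exact ⟨hx, (h.top_le_iff hx hw).2
      ⟨fun c => (q c).2, fun c => by rw [e1 c]; exact h.Rl_refl hw,
        fun a b => (e2 a b).elim⟩⟩

/-- Rank two. Hint: push `x 2` to `w` (it differs from `w` only when index two is not active), then
`x 3` up to `m` (`gp_step_up`), then `x 4` down to `0`; the rest is the box `x 2 = w`, `x 3 = m`,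
`x 4 = 0`. Use `top_le_iff` to describe the sets. -/
theorem Ok.ct_fib2 (h : D.Ok) (hw : D.O 2 w)
    (hA : ∀ x, x ∈ A ↔ D.In x ∧ D.Rl (D.top x) w) : CT le1 l A := by
  have hm := h.mpos
  have hb := abs_le.1 (h.O_ev hw).2.2.1
  refine esb_two (Q := fun z => D.O 0 z ∧ D.Rl z w) (Q' := fun z => D.O 1 z ∧ D.Rl z w)
    (R := D.Rl) hm hb.1 hb.2 fun x => ?_
  rw [hA]
  constructor
  · rintro ⟨hx, ht⟩
    obtain ⟨t0, t1, t2⟩ := (h.top_le_iff hx hw).1 ht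
    refine ⟨⟨⟨hx.l3, hx.u3⟩, ⟨hx.l4, hx.u4⟩, abs_le.1 hx.b0, abs_le.1 hx.b1, abs_le.1 hx.b2,
      by_contra fun k => ?_⟩, fun k => ⟨hx.o0 k, t0 k⟩, fun k => ⟨hx.o1 k, t1 k⟩, hx.r01⟩
    rw [not_or, not_or] at k
    have := h.Rl_rank (hx.o2 k.1 k.2.1) hw (t2 k.1 k.2.1)
    omega
  · rintro ⟨⟨b3, b4, b0, b1, b2, c2⟩, q, q', r⟩
    have e2 : x 3 ≠ 0 → x 4 ≠ D.m → x 2 = w := fun a b => (c2.resolve_left a).resolve_left b
    have hx : D.In x := ⟨b3.1, b3.2, b4.1, b4.2, abs_le.2 b0, abs_le.2 b1, abs_le.2 b2,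
      fun c => (q c).1, fun c => (q' c).1, fun a b => e2 a b ▸ hw, r,
      fun c a b => e2 a b ▸ (q c).2, fun c a b => e2 a b ▸ (q' c).2⟩
    exact ⟨hx, (h.top_le_iff hx hw).2
      ⟨fun c => (q c).2, fun c => (q' c).2, fun a b => by rw [e2 a b]; exact h.Rl_refl hw⟩⟩

theorem Ok.ct_fib (h : D.Ok) {j : ℕ} (hw : D.O j w)
    (hA : ∀ x, x ∈ A ↔ D.In x ∧ D.Rl (D.top x) w) : CT le1 l A := by
  have hj := (h.O_ev hw).2.2.2
  interval_cases j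
  · exact h.ct_fib0 hw hA
  · exact h.ct_fib1 hw hA
  · exact h.ct_fib2 hw hA

end LD

end Pool.Agent.Lib.MP_5ceaf9_gt
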