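import Pool.Agent.Lib.MP_5ceaf9_gt.ESt
import Pool.Agent.Lib.MP_5ceaf9_gt.EBox
import Pool.Agent.Lib.MP_5ceaf9_gt.EIBar

/-! Stretch maps induce equivalences. -/

noncomputable section

namespace Pool.Agent.Lib.MP_5ceaf9_gt

open Classical Function

variable {n l : ℕ} {η : Fin n → Bool} {θ : ℤ → ℤ} {A A' : Finset (Lat n)}

theorem St.lq_cq (h : St θ) {x y : QL η} (hxy : lq η x y) : lq η (cq η θ x) (cq η θ y) := by
  refine (lq_pq η).2 ?_
  rcases hxy with e | e
  · exact Or.inl (h.cw_le e)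
  · exact Or.inr (by rw [← h.cw_fl]; exact h.cw_le e)

theorem St.mo (h : St θ) (hA' : ∀ x ∈ A', cw θ x ∈ A) :
    Mo (lq η) (lq η) (A'.image (pq η)) (A.image (pq η)) (cq η θ) := by
  refine ⟨pon_lq η _, pon_lq η _, ?_, fun a _ b _ hab => h.lq_cq hab⟩
  intro a ha
  obtain ⟨x, hx, rfl⟩ := Finset.mem_image.1 ha
  rw [h.cq_pq]
  exact Finset.mem_image_of_mem _ (hA' x hx)

theorem estr_dn (y a b c : ℤ) (ha : le0 a y) (hc : le0 c y) (h1 : a ≤ b) (h2 : b ≤ c) :
    le0 b y := by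
  unfold le0 at *
  omega

theorem estr_up (y a b c : ℤ) (ha : le0 y a) (hc : le0 y c) (h1 : a ≤ b) (h2 : b ≤ c) :
    le0 y b := by
  unfold le0 at *
  omega

theorem St.cw_surj (h : St θ) (y : Lat n) : ∃ x, cw θ x = y := by
  choose g hg using h.surj
  exact ⟨fun i => g (y i), funext fun i => hg (y i)⟩

theorem St.me_dn (h : St θ) (hA' : ∀ x, x ∈ A' ↔ cw θ x ∈ A) (d : DnC A)
    (f : Free η A) : ME (lq η) (lq η) l (A'.image (pq η)) (A.image (pq η)) (cq η θ) := by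
  refine me_of_fibres (h.mo fun x hx => (hA' x).1 hx) ?_
  intro y hy
  obtain ⟨y, hyA, rfl⟩ := Finset.mem_image.1 hy
  have hm : ∀ x, x ∈ A'.filter (fun x => le1 (cw θ x) y) ↔ ∀ j, le0 (θ (x j)) (y j) := by
    intro x
    rw [Finset.mem_filter, hA']
    exact ⟨fun hx => hx.2, fun hx => ⟨d y hyA _ hx, hx⟩⟩
  refine ct_bar (A := A'.filter (fun x => le1 (cw θ x) y)) ?_ ?_ ?_
  · intro a ha b hb hab
    have ha' : le1 (cw θ a) y := (hm a).1 ha
    have hb' : le1 (cw θ b) y := (hm b).1 hb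
    have h1 := h.cw_le hab
    rw [h.cw_fl] at h1
    exact f _ (d y hyA _ ha') (fl_eq_of_le1 η ha' (le1_trans h1 hb'))
  · refine ct_prod (fun j z => le0 (θ z) (y j)) ?_ hm ?_
    · intro j a b c ha hc h1 h2
      exact estr_dn _ _ _ _ ha hc (h.mono h1) (h.mono h2)
    · obtain ⟨x, hx⟩ := h.cw_surj y
      exact ⟨x, (hm x).2 (by rw [← hx]; exact le1_refl _)⟩
  · intro z
    rw [Finset.mem_filter]
    constructor
    · rintro ⟨hz, hl⟩
      obtain ⟨x, hx, rfl⟩ := Finset.mem_image.1 hz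
      rw [h.cq_pq, lq_pq] at hl
      rcases hl with hl | hl
      · exact ⟨x, (hm x).2 hl, rfl⟩
      · rw [← h.cw_fl] at hl
        exact ⟨fl η x, (hm _).2 hl, pq_fl η x⟩
    · rintro ⟨x, hx, rfl⟩
      refine ⟨Finset.mem_image_of_mem _ (Finset.mem_filter.1 hx).1, ?_⟩
      rw [h.cq_pq]
      exact lq_of_le1 η ((hm x).1 hx)

theorem St.me_up (h : St θ) (hA' : ∀ x, x ∈ A' ↔ cw θ x ∈ A) (u : UpC A)
    (f : Free η A) :
    ME (swap (lq η)) (swap (lq η)) l (A'.image (pq η)) (A.image (pq η)) (cq η θ) := by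
  refine me_of_fibres (h.mo fun x hx => (hA' x).1 hx).swap ?_
  intro y hy
  obtain ⟨y, hyA, rfl⟩ := Finset.mem_image.1 hy
  have hm : ∀ x, x ∈ A'.filter (fun x => le1 y (cw θ x)) ↔ ∀ j, le0 (y j) (θ (x j)) := by
    intro x
    rw [Finset.mem_filter, hA']
    exact ⟨fun hx => hx.2, fun hx => ⟨u y hyA _ hx, hx⟩⟩
  refine CT.swap (ct_bar (A := A'.filter (fun x => le1 y (cw θ x))) ?_ ?_ ?_)
  · intro a ha b hb hab
    have ha' : le1 y (cw θ a) := (hm a).1 ha
    have hb' : le1 y (cw θ b) := (hm b).1 hb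
    have h1 := h.cw_le hab
    rw [h.cw_fl] at h1
    exact f _ hyA (fl_eq_of_le1 η hb' (le1_trans (le1_fl η ha') h1))
  · refine ct_prod (fun j z => le0 (y j) (θ z)) ?_ hm ?_
    · intro j a b c ha hc h1 h2
      exact estr_up _ _ _ _ ha hc (h.mono h1) (h.mono h2)
    · obtain ⟨x, hx⟩ := h.cw_surj y
      exact ⟨x, (hm x).2 (by rw [← hx]; exact le1_refl _)⟩
  · intro z
    rw [Finset.mem_filter]
    constructor
    · rintro ⟨hz, hl⟩
      obtain ⟨x, hx, rfl⟩ := Finset.mem_image.1 hz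
      have hl' : lq η (pq η y) (cq η θ (pq η x)) := hl
      rw [h.cq_pq, lq_pq'] at hl'
      rcases hl' with hl | hl
      · exact ⟨x, (hm x).2 hl, rfl⟩
      · rw [← h.cw_fl] at hl
        exact ⟨fl η x, (hm _).2 hl, pq_fl η x⟩
    · rintro ⟨x, hx, rfl⟩
      refine ⟨Finset.mem_image_of_mem _ (Finset.mem_filter.1 hx).1, ?_⟩
      show lq η (pq η y) (cq η θ (pq η x))
      rw [h.cq_pq]
      exact lq_of_le1 η ((hm x).1 hx)

/-- The sheet of the chosen representative. -/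
def estr_g (η : Fin n → Bool) (a : Lat n) : ZMod 2 := if (pq η a).out = a then 0 else 1

theorem estr_dlt {a b : Lat n} (ha : fl η a ≠ a) (hab : le1 a b) :
    dlt η (pq η a) (pq η b) = estr_g η a + estr_g η b := by
  have hb : fl η b ≠ b := free_of_le1 η ha hab
  have h1 : ¬ le1 a (fl η b) := not_le1_fl η ha hab
  have h2 : ¬ le1 (fl η a) b := fun e => h1 ((le1_fl_comm η).2 e)
  have h3 : le1 (fl η a) (fl η b) := le1_fl η hab
  unfold dlt estr_g
  rcases out_pq η a with e | e <;> rcases out_pq η b with e' | e' <;> rw [e, e'] <;>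
    simp only [ha, hb, hab, h1, h2, h3, if_true, if_false] <;> decide

theorem estr_g_fl {a : Lat n} (ha : fl η a ≠ a) : estr_g η (fl η a) = estr_g η a + 1 := by
  unfold estr_g
  rw [pq_fl]
  rcases out_pq η a with e | e <;> rw [e] <;>
    simp only [ha, ha.symm, if_true, if_false] <;> decide

theorem St.agree (h : St θ) (hA' : ∀ x ∈ A', cw θ x ∈ A) (i : Invt η A') (f : Free η A) :
    ∃ g : QL η → ZMod 2, Agree (lq η) (OC (lq η) (A'.image (pq η))) (dlt η)
      (fun a b => g a + dlt η (cq η θ a) (cq η θ b) + g b) := by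
  refine ⟨fun a => estr_g η (cw θ a.out), (agree_OC (pon_lq η _)).2 ?_⟩
  intro a ha b _ hab
  have ha' : fl η (cw θ a.out) ≠ cw θ a.out := f _ (hA' _ ((out_mem η i).2 ha))
  have key : ∀ u v : ZMod 2, u + (u + v) + v = 0 ∧ u + (u + 1 + v) + v = 1 := by decide
  show dlt η a b = _ + dlt η (pq η (cw θ a.out)) (pq η (cw θ b.out)) + _
  by_cases e : le1 a.out b.out
  · rw [estr_dlt ha' (h.cw_le e), (key _ _).1]
    exact if_pos e
  · have e' : le1 (fl η a.out) b.out := hab.resolve_left e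
    have h1 := h.cw_le e'
    rw [h.cw_fl] at h1
    rw [← pq_fl η (cw θ a.out), estr_dlt (by rw [fl_fl]; exact ha'.symm) h1, estr_g_fl ha',
      (key _ _).2]
    exact if_neg e

end Pool.Agent.Lib.MP_5ceaf9_gt
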