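import Pool.Agent.Lib.MP_5ceaf9_gt.DuD

/-! Part F: transfer of the invariants and the duality theorem. -/

noncomputable section

namespace Pool.Agent.Lib.MP_5ceaf9_gt

open Classical Function

variable {α β : Type} [DecidableEq α] [DecidableEq β] [Nonempty α] [Nonempty β]
  {r : α → α → Prop} {r' : β → β → Prop} {K L : Finset (Finset α)}

variable {A : Finset α} {B : Finset β} {f : α → β}

theorem GE.pd_iff (h : GE r 2 K L) : PD r K ↔ PD r L :=
  ⟨ge_pd_up h, ge_pd_down h⟩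

theorem Emb.pd_iff (h : Emb r r' L f) (hL : Cx r L) : PD r' (im f L) ↔ PD r L :=
  emb_pd_iff h hL

theorem ME.pd_iff (h : ME (swap r) (swap r') 2 A B f) : PD r (OC r A) ↔ PD r' (OC r' B) :=
  me_pd_iff h

theorem GE.tv_iff (h : GE r 2 K L) {ω : α → α → ZMod 2} (hω : Flat2 r L ω) :
    TV r K ω ↔ TV r L ω :=
  ge_tv_iff h hω

theorem GE.ex_iff (h : GE r 2 K L) {ω : α → α → ZMod 2} (hω : Flat2 r L ω) :
    EX r K ω ↔ EX r L ω :=
  ge_ex_iff h hω

theorem ME.tv_iff (h : ME r r' 2 A B f) {ω : β → β → ZMod 2} (hω : Flat2 r' (OC r' B) ω) :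
    TV r (OC r A) (fun a b => ω (f a) (f b)) ↔ TV r' (OC r' B) ω :=
  me_tv_iff h hω

theorem ME.ex_iff (h : ME r r' 2 A B f) {ω : β → β → ZMod 2} (hω : Flat2 r' (OC r' B) ω) :
    EX r (OC r A) (fun a b => ω (f a) (f b)) ↔ EX r' (OC r' B) ω :=
  me_ex_iff h hω

theorem TV.gauge {ω ω' : α → α → ZMod 2} (h : TV r K ω) (g : α → ZMod 2)
    (hg : Agree r K ω' (fun a b => g a + ω a b + g b)) : TV r K ω' := by
  intro C b1 b3 H
  obtain ⟨h1, h2⟩ := h C b1 b3 H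
  exact ⟨h1.gauge g hg, h2⟩

theorem EX.gauge {ω ω' : α → α → ZMod 2} (h : EX r K ω) (g : α → ZMod 2)
    (hg : Agree r K ω' (fun a b => g a + ω a b + g b)) : EX r K ω' := by
  obtain ⟨C, b1, b3, H, h1, h2⟩ := h
  exact ⟨C, b1, b3, H, h1.gauge g hg, h2⟩

theorem DD.not_pd {N U : Finset α} {dm : α → ℕ} {inc : α → α → ℤ} {δ : α → α → ZMod 2}
    (h : DD r N U dm inc δ) (ht : TV r (OC r N) δ) : ¬ PD r (OC r (N \ U)) :=
  dd_not_pd h ht

theorem DD.pd {N U : Finset α} {dm : α → ℕ} {inc : α → α → ℤ} {δ : α → α → ZMod 2}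
    (h : DD r N U dm inc δ) (ht : EX r (OC r N) δ) : PD r (OC r (N \ U)) :=
  dd_pd h ht

end Pool.Agent.Lib.MP_5ceaf9_gt
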