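import Pool.Agent.Lib.MP_5ceaf9_gt.ESb
import Pool.Agent.Lib.MP_5ceaf9_gt.EStr
import Pool.Agent.Lib.MP_5ceaf9_gt.EIMain
import Pool.Agent.Lib.MP_5ceaf9_gt.IfF

/-! Transfer of the invariants from a labelled poset to its lattice complex. -/

noncomputable section

namespace Pool.Agent.Lib.MP_5ceaf9_gt

open Classical Function

theorem GP.conn_iff {α : Type} [DecidableEq α] [Nonempty α] {r : α → α → Prop} {l : ℕ}
    {A B : Finset α} (h : GP r l A B) : Conn r (OC r A) ↔ Conn r (OC r B) :=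
  h.2.2.eq1.conn_iff h.2.2.cK h.2.2.cL h.2.2.sub

theorem me_UU {n l : ℕ} {η : Fin n → Bool} {S : Finset (Lat n)} (d : DnC S) (f : Free η S) :
    ME (lq η) (lq η) l ((UU S).image (pq η)) (S.image (pq η)) (cq η b1) :=
  st_b1.me_dn (fun _ => mem_UU) d f

theorem tv_NN {n : ℕ} {η : Fin n → Bool} {S : Finset (Lat n)} (d : DnC S) (i : Invt η S)
    (f : Free η S) (h : TV (lq η) (OC (lq η) (S.image (pq η))) (dlt η)) :
    TV (lq η) (OC (lq η) ((NN S).image (pq η))) (dlt η) := by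
  obtain ⟨g, hg⟩ := st_b1.agree (A := S) (A' := UU S) (fun _ hx => mem_UU.1 hx) (invt_UU i) f
  have h1 := (((me_UU d f).tv_iff (flat2_dlt η i f)).2 h).gauge g hg
  exact ((gp_UN η d i f 2).2.2.tv_iff (flat2_dlt η (invt_NN i) (free_NN f))).1 h1

theorem ex_NN {n : ℕ} {η : Fin n → Bool} {S : Finset (Lat n)} (d : DnC S) (i : Invt η S)
    (f : Free η S) (h : EX (lq η) (OC (lq η) (S.image (pq η))) (dlt η)) :
    EX (lq η) (OC (lq η) ((NN S).image (pq η))) (dlt η) := by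
  obtain ⟨g, hg⟩ := st_b1.agree (A := S) (A' := UU S) (fun _ hx => mem_UU.1 hx) (invt_UU i) f
  have h1 := (((me_UU d f).ex_iff (flat2_dlt η i f)).2 h).gauge g hg
  exact ((gp_UN η d i f 2).2.2.ex_iff (flat2_dlt η (invt_NN i) (free_NN f))).1 h1

namespace LD

variable {α : Type} [DecidableEq α] [Nonempty α] {D : LD α} {l : ℕ}

theorem Ok.In_out (h : D.Ok) {a : QL η5} (ha : a ∈ D.S.image (pq η5)) : D.In a.out :=
  mem_S.1 ((out_mem η5 h.invt).2 ha)

theorem Ok.top_ne (h : D.Ok) {x : Lat 5} (hx : D.In x) : D.top x ≠ 0 := by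
  obtain ⟨i, hi⟩ := h.top_O hx
  exact (h.O_ev hi).2.1

theorem Ok.mo_psi (h : D.Ok) : Mo (lq η5) D.r (D.S.image (pq η5)) D.R D.psi := by
  refine ⟨pon_lq η5 _, h.po, ?_, ?_⟩
  · intro a ha
    obtain ⟨i, hi⟩ := h.top_O (h.In_out ha)
    exact (h.O_el hi).1
  · intro a _ b hb hab
    rcases hab with e | e
    · exact (h.top_mono (h.In_out hb) e).1
    · have h1 := (h.top_mono (h.In_out hb) e).1
      rw [top_fl, el_neg] at h1
      exact h1

theorem Ok.me_psi (h : D.Ok) : ME (lq η5) D.r l (D.S.image (pq η5)) D.R D.psi := by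
  refine me_of_fibres h.mo_psi ?_
  intro y hy
  have hw := h.O_lam hy
  have hel : D.el (D.lam y) = y := h.el_lam hy (abs_of_pos (h.pos y hy)).symm
  have hm : ∀ x, x ∈ D.S.filter (fun x => D.Rl (D.top x) (D.lam y)) ↔
      D.In x ∧ D.Rl (D.top x) (D.lam y) := fun x => by rw [Finset.mem_filter, mem_S]
  refine ct_bar ?_ (h.ct_fib hw hm) ?_
  · intro a ha b hb hab
    obtain ⟨ha1, ha2⟩ := (hm a).1 ha
    obtain ⟨hb1, hb2⟩ := (hm b).1 hb
    obtain ⟨i, hi⟩ := h.top_O ha1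
    obtain ⟨j, hj⟩ := h.top_O hb1
    have h1 := h.top_mono hb1 hab
    rw [top_fl] at h1
    exact ha2.not_neg (h.top_ne ha1) (h.Rl_trans hi.neg hj hw h1 hb2)
  · intro z
    rw [Finset.mem_filter]
    constructor
    · rintro ⟨hz, hl⟩
      obtain ⟨x, hx, rfl⟩ := Finset.mem_image.1 hz
      have hx' := mem_S.1 hx
      rw [psi_pq] at hl
      by_cases e : sh (D.lam y) = sh (D.top x) + D.ω (D.el (D.top x)) y
      · exact ⟨x, (hm x).2 ⟨hx', by rw [Rl, hel]; exact ⟨hl, e⟩⟩, rfl⟩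
      · refine ⟨fl η5 x, (hm _).2 ⟨h.In_fl hx', ?_⟩, pq_fl η5 x⟩
        rw [Rl, hel, top_fl, el_neg, sh_neg (h.top_ne hx')]
        have key : ∀ u v w : ZMod 2, u ≠ v + w → u = v + 1 + w := by decide
        exact ⟨hl, key _ _ _ e⟩
    · rintro ⟨x, hx, rfl⟩
      obtain ⟨h1, h2⟩ := (hm x).1 hx
      refine ⟨Finset.mem_image_of_mem _ (mem_S.2 h1), ?_⟩
      rw [psi_pq, ← hel]
      exact h2.1

theorem Ok.agree_psi (h : D.Ok) : Agree (lq η5) (OC (lq η5) (D.S.image (pq η5))) (dlt η5)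
    (fun a b => sh (D.top a.out) + D.ω (D.psi a) (D.psi b) + sh (D.top b.out)) := by
  refine (agree_OC (pon_lq η5 _)).2 ?_
  intro a ha b hb hab
  have key : ∀ u v : ZMod 2, u + v + (u + v) = 0 ∧ u + v + (u + 1 + v) = 1 := by decide
  show dlt η5 a b = _ + D.ω (D.el (D.top a.out)) (D.el (D.top b.out)) + _
  by_cases e : le1 a.out b.out
  · rw [(h.top_mono (h.In_out hb) e).2, (key _ _).1]
    exact if_pos e
  · have h1 := (h.top_mono (h.In_out hb) (hab.resolve_left e)).2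
    rw [top_fl, el_neg, sh_neg (h.top_ne (h.In_out ha))] at h1
    rw [h1, (key _ _).2]
    exact if_neg e

theorem Ok.odE (h : D.Ok) : ∀ a ∈ D.S, odE a ≤ 2 := fun _ ha => h.dim (mem_S.1 ha)

theorem Ok.conn_U (h : D.Ok) (hc : Conn D.r (OC D.r D.R)) :
    Conn (lq η5) (OC (lq η5) ((UU D.S).image (pq η5))) :=
  (me_UU (l := 0) h.dnc h.free).conn_iff.2 ((h.me_psi (l := 0)).conn_iff.2 hc)

theorem Ok.dd (h : D.Ok) (hc : Conn D.r (OC D.r D.R)) :
    DD (lq η5) ((NN D.S).image (pq η5)) ((UU D.S).image (pq η5)) (dmQ η5) (incQ η5) (dlt η5) :=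
  dd_of h.dnc h.invt h.free h.odE (h.conn_U hc)

theorem Ok.not_pd (h : D.Ok) (hc : Conn D.r (OC D.r D.R)) (ht : TV D.r (OC D.r D.R) D.ω) :
    ¬ PD (lq η5) (OC (lq η5) ((NN D.S \ UU D.S).image (pq η5))) := by
  rw [bar_sdiff η5 (invt_NN h.invt) (invt_UU h.invt)]
  exact (h.dd hc).not_pd (tv_NN h.dnc h.invt h.free
    (((h.me_psi.tv_iff h.flat).2 ht).gauge _ h.agree_psi))

theorem Ok.pd (h : D.Ok) (hc : Conn D.r (OC D.r D.R)) (ht : EX D.r (OC D.r D.R) D.ω) :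
    PD (lq η5) (OC (lq η5) ((NN D.S \ UU D.S).image (pq η5))) := by
  rw [bar_sdiff η5 (invt_NN h.invt) (invt_UU h.invt)]
  exact (h.dd hc).pd (ex_NN h.dnc h.invt h.free
    (((h.me_psi.ex_iff h.flat).2 ht).gauge _ h.agree_psi))

end LD

end Pool.Agent.Lib.MP_5ceaf9_gt
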