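import Pool.Agent.Lib.MP_5ceaf9_gt.Shared

/-! Coboundary and cup product. -/

noncomputable section

namespace Pool.Agent.Lib.MP_5ceaf9_gt

open Classical Function

variable {α β : Type} [DecidableEq α] [DecidableEq β] [Nonempty α] [Nonempty β]
  {r : α → α → Prop} {r' : β → β → Prop} {K L : Finset (Finset α)} {σ ρ : Finset α}
  {C C' : α → α → Aff}

omit [DecidableEq α] [Nonempty α] in
theorem faa_tot (ht : Tot r σ) (h : ρ ⊆ σ) : Tot r ρ := fun a ha b hb => ht a (h ha) b (h hb)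

theorem faa_bt (hp : POn r σ) (ht : Tot r σ) (h : ρ ⊆ σ) (hn : ρ.Nonempty) :
    bt r σ ∈ σ ∧ bt r ρ ∈ σ ∧ r (bt r σ) (bt r ρ) := by
  obtain ⟨h1, h2⟩ := bt_spec hp ht (hn.mono h)
  have h3 := h (bt_spec (hp.mono h) (faa_tot ht h) hn).1
  exact ⟨h1, h3, h2 _ h3⟩

theorem faa_bt1 {a : α} (ha : r a a) : bt r {a} = a :=
  bt_eq ⟨by simpa using ha, by simp, by simp +contextual⟩ (by simp) (by simpa using ha)

theorem faa_bt2 {a b : α} (ha : r a a) (hab : r a b) (hp : POn r {a, b}) : bt r {a, b} = a :=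
  bt_eq hp (by simp) (by simp [ha, hab])

theorem faa_bt3 {a b d : α} (ha : r a a) (hab : r a b) (had : r a d) (hp : POn r {a, b, d}) :
    bt r {a, b, d} = a :=
  bt_eq hp (by simp) (by simp [ha, hab, had])

omit [Nonempty α] in
theorem faa_tri {a b d : α} (hp : POn r {a, b, d}) (hab : r a b) (hbd : r b d) (h1 : a ≠ b)
    (h2 : b ≠ d) : r a a ∧ r b b ∧ r d d ∧ r a d ∧ a ≠ d ∧ ¬ r b a ∧ ¬ r d b ∧ ¬ r d a := by
  have hba : ¬ r b a := fun h => h1 (hp.anti a (by simp) b (by simp) hab h)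
  exact ⟨hp.refl a (by simp), hp.refl b (by simp), hp.refl d (by simp),
    hp.trans a (by simp) b (by simp) d (by simp) hab hbd, fun h => hba (h ▸ hbd), hba,
    fun h => h2 (hp.anti b (by simp) d (by simp) hbd h),
    fun h => hba (hp.trans b (by simp) d (by simp) a (by simp) hbd h)⟩

section ring

variable {A : Type} [CommRing A] {z : A} {κ κ' : α → α → ZMod 8} {f f' g g' : Finset α → A}

/-- `κ` is additive along the chain `σ`. -/
def KF (r : α → α → Prop) (κ : α → α → ZMod 8) (σ : Finset α) : Prop :=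
  ∀ a ∈ σ, ∀ b ∈ σ, ∀ d ∈ σ, r a b → r b d → κ a b + κ b d = κ a d

/-- The sign of the degree. -/
def sgn (f : Finset α → A) (σ : Finset α) : A := (-1) ^ (σ.card - 1) * f σ

theorem Flat.kf (hK : Cx r K) (h : Flat r K C) (hσ : σ ∈ K) (j : ZMod 8) : KF r (kj j C) σ := by
  intro a ha b hb d hd hab hbd
  simp only [kj, ← h.mul hK hσ ha hb hd hab hbd, Aff.mul_k, mul_add]

theorem dl_add : dl r z κ (fun τ => f τ + g τ) σ = dl r z κ f σ + dl r z κ g σ := by
  simp only [dl, mul_add, Finset.sum_add_distrib]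

theorem dl_smul (a : A) : dl r z κ (fun τ => a * f τ) σ = a * dl r z κ f σ := by
  simp only [dl, Finset.mul_sum]
  exact Finset.sum_congr rfl fun v _ => by ring

theorem dl_empty : dl r z κ f ∅ = 0 := by
  exact Finset.sum_empty

/-- When `σ` has one element the exponent multiplies `f ∅ = 0`. -/
theorem dl_congr (hp : POn r σ) (ht : Tot r σ) (h0 : f ∅ = 0)
    (h : ∀ τ ⊆ σ, f τ = g τ) (hκ : ∀ a ∈ σ, ∀ b ∈ σ, r a b → κ a b = κ' a b) :
    dl r z κ f σ = dl r z κ' g σ := by
  refine Finset.sum_congr rfl fun v hv => ?_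
  rw [← h _ (Finset.erase_subset v σ)]
  rcases (σ.erase v).eq_empty_or_nonempty with he | he
  · rw [he, h0, mul_zero, mul_zero]
  · obtain ⟨h1, h2, h3⟩ := faa_bt hp ht (Finset.erase_subset v σ) he
    rw [hκ _ h1 _ h2 h3]

theorem dl_map {B : Type} [CommRing B] (φ : A →+* B) :
    φ (dl r z κ f σ) = dl r (φ z) κ (fun τ => φ (f τ)) σ := by
  simp only [dl, map_sum, map_mul, map_intCast, pw, map_pow]

theorem Hom.dl_hom {n : ℕ} (h : Hom n f) : Hom (n + 1) (dl r z κ f) := by
  intro σ hσ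
  obtain ⟨v, hv, h1⟩ := Finset.exists_ne_zero_of_sum_ne_zero hσ
  rw [← Finset.card_erase_add_one hv, h _ (right_ne_zero_of_mul h1)]

theorem Hom.empty {n : ℕ} (h : Hom n f) : f ∅ = 0 := by
  by_contra h0
  exact absurd (h _ h0) (by simp)

theorem dl_dl (hz : z ^ 8 = 1) (hp : POn r σ) (ht : Tot r σ) (hκ : KF r κ σ) (h0 : f ∅ = 0) :
    dl r z κ (dl r z κ f) σ = 0 := by
  have e : dl r z κ (dl r z κ f) σ = ∑ p ∈ σ ×ˢ σ, if p.2 ≠ p.1 then
      ((sg r σ p.1 * sg r (σ.erase p.1) p.2 : ℤ) : A) *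
        (pw z (κ (bt r σ) (bt r ((σ.erase p.1).erase p.2))) * f ((σ.erase p.1).erase p.2))
      else 0 := by
    rw [Finset.sum_product]
    refine Finset.sum_congr rfl fun v _ => ?_
    rw [← Finset.sum_filter, Finset.filter_ne', dl, Finset.mul_sum]
    refine Finset.sum_congr rfl fun u _ => ?_
    rcases ((σ.erase v).erase u).eq_empty_or_nonempty with he | he
    · simp only [he, h0, mul_zero]
    · have hs := Finset.erase_subset v σ
      have hs' := Finset.erase_subset u (σ.erase v)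
      obtain ⟨h1, h2, h3⟩ := faa_bt hp ht hs (he.mono hs')
      obtain ⟨-, h4, h5⟩ := faa_bt (hp.mono hs) (faa_tot ht hs) hs' he
      simp only [← hκ _ h1 _ h2 _ (hs h4) h3 h5, pw_add hz]
      push_cast
      ring
  rw [e]
  refine Finset.sum_involution (fun p _ => p.swap) (fun p hp' => ?_) (fun p _ h1 h2 => ?_)
    (fun p hp' => ?_) fun p _ => rfl
  · obtain ⟨h1, h2⟩ := Finset.mem_product.1 hp'
    rw [Prod.fst_swap, Prod.snd_swap]
    by_cases h3 : p.2 = p.1
    · rw [if_neg (not_not.2 h3), if_neg (not_not.2 h3.symm), add_zero]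
    · rw [if_pos h3, if_pos (Ne.symm h3), sg_erase hp ht h2 h1 h3,
        Finset.erase_right_comm (a := p.2)]
      push_cast
      ring
  · exact h1 (if_neg (not_not.2 (congrArg Prod.fst h2)))
  · exact Finset.mem_product.2 (Finset.mem_product.1 hp').symm

theorem dl_pair {a b : α} (hp : POn r {a, b}) (hab : r a b) (hne : a ≠ b)
    (hκ : κ a a = 0) : dl r z κ f {a, b} = pw z (κ a b) * f {b} - f {a} := by
  have ha := hp.refl a (by simp)
  have hb := hp.refl b (by simp)
  have hba : ¬ r b a := fun h => hne (hp.anti a (by simp) b (by simp) hab h)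
  have s1 : sg r {a, b} a = 1 := by simp [sg, Finset.filter_insert, Finset.filter_singleton, hba]
  have s2 : sg r {a, b} b = -1 := by
    simp [sg, Finset.filter_insert, Finset.filter_singleton, hab, hne]
  have e1 : ({a, b} : Finset α).erase a = {b} := Finset.erase_insert (by simpa using hne)
  have e2 : ({a, b} : Finset α).erase b = {a} := by
    rw [Finset.pair_comm]
    exact Finset.erase_insert (by simpa using hne.symm)
  rw [dl, Finset.sum_pair hne, s1, s2, e1, e2, faa_bt2 ha hab hp, faa_bt1 ha, faa_bt1 hb, hκ,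
    pw_zero]
  push_cast
  ring

theorem dl_tri {a b d : α} (hp : POn r {a, b, d}) (hab : r a b) (hbd : r b d) (h1 : a ≠ b)
    (h2 : b ≠ d) (hκ : κ a a = 0) :
    dl r z κ f {a, b, d} = pw z (κ a b) * f {b, d} - f {a, d} + f {a, b} := by
  obtain ⟨ha, hb, -, had, h3, hba, hdb, hda⟩ := faa_tri hp hab hbd h1 h2
  have s1 : sg r {a, b, d} a = 1 := by
    simp [sg, Finset.filter_insert, Finset.filter_singleton, hba, hda]
  have s2 : sg r {a, b, d} b = -1 := by
    simp [sg, Finset.filter_insert, Finset.filter_singleton, hab, h1, hdb]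
  have s3 : sg r {a, b, d} d = 1 := by
    simp [sg, Finset.filter_insert, Finset.filter_singleton, had, hbd, h1, h2, h3]
  have e1 : ({a, b, d} : Finset α).erase a = {b, d} := Finset.erase_insert (by simp [h1, h3])
  have e2 : ({a, b, d} : Finset α).erase b = {a, d} := by
    rw [Finset.insert_comm]
    exact Finset.erase_insert (by simp [h1.symm, h2])
  have e3 : ({a, b, d} : Finset α).erase d = {a, b} := by
    rw [Finset.pair_comm b d, Finset.insert_comm]
    exact Finset.erase_insert (by simp [h2.symm, h3.symm])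
  rw [dl, Finset.sum_insert (by simp [h1, h3]), Finset.sum_pair h2, s1, s2, s3, e1, e2, e3,
    faa_bt3 ha hab had hp, faa_bt2 hb hbd (hp.mono (e1.ge.trans (Finset.erase_subset _ _))),
    faa_bt2 ha had (hp.mono (e2.ge.trans (Finset.erase_subset _ _))),
    faa_bt2 ha hab (hp.mono (e3.ge.trans (Finset.erase_subset _ _))), hκ, pw_zero]
  push_cast
  ring

theorem cup_add_left :
    cup r z κ (fun τ => f τ + f' τ) g σ = cup r z κ f g σ + cup r z κ f' g σ := by
  simp only [cup, add_mul, Finset.sum_add_distrib]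

theorem cup_add_right :
    cup r z κ f (fun τ => g τ + g' τ) σ = cup r z κ f g σ + cup r z κ f g' σ := by
  simp only [cup, mul_add, Finset.sum_add_distrib]

theorem cup_smul (a b : A) :
    cup r z κ (fun τ => a * f τ) (fun τ => b * g τ) σ = a * b * cup r z κ f g σ := by
  simp only [cup, Finset.mul_sum]
  exact Finset.sum_congr rfl fun v _ => by ring

theorem cup_empty : cup r z κ f g ∅ = 0 := by
  exact Finset.sum_empty

theorem cup_congr (hp : POn r σ) (ht : Tot r σ) (hf : ∀ τ ⊆ σ, τ.Nonempty → f τ = f' τ)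
    (hg : ∀ τ ⊆ σ, τ.Nonempty → g τ = g' τ) (hκ : ∀ a ∈ σ, ∀ b ∈ σ, r a b → κ a b = κ' a b) :
    cup r z κ f g σ = cup r z κ' f' g' σ := by
  refine Finset.sum_congr rfl fun v hv => ?_
  obtain ⟨h1, h2⟩ := bt_spec hp ht ⟨v, hv⟩
  rw [hf _ (Finset.filter_subset (fun u => r u v) _) ⟨v, Finset.mem_filter.2 ⟨hv, hp.refl v hv⟩⟩,
    hg _ (Finset.filter_subset _ _) ⟨v, Finset.mem_filter.2 ⟨hv, hp.refl v hv⟩⟩,
    hκ _ h1 v hv (h2 v hv)]

/-- Degrees add on chains. -/
theorem cup_card (hp : POn r σ) (ht : Tot r σ) {m n : ℕ}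
    (hf : ∀ τ ⊆ σ, f τ ≠ 0 → τ.card = m + 1) (hg : ∀ τ ⊆ σ, g τ ≠ 0 → τ.card = n + 1)
    (h : cup r z κ f g σ ≠ 0) : σ.card = m + n + 1 := by
  obtain ⟨v, hv, h1⟩ := Finset.exists_ne_zero_of_sum_ne_zero h
  have h2 := hf _ (Finset.filter_subset _ _) (left_ne_zero_of_mul (left_ne_zero_of_mul h1))
  have h3 := hg _ (Finset.filter_subset _ _) (right_ne_zero_of_mul h1)
  have h4 := Finset.card_union_add_card_inter (σ.filter (fun u => r u v))
    (σ.filter (fun u => r v u))
  have h5 : σ.filter (fun u => r u v) ∪ σ.filter (fun u => r v u) = σ := by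
    rw [← Finset.filter_or]
    exact Finset.filter_true_of_mem fun u hu => ht u hu v hv
  have h6 : σ.filter (fun u => r u v) ∩ σ.filter (fun u => r v u) = {v} := by
    ext u
    simp only [Finset.mem_inter, Finset.mem_filter, Finset.mem_singleton]
    exact ⟨fun e => hp.anti u e.1.1 v hv e.1.2 e.2.2,
      fun e => e ▸ ⟨⟨e ▸ hv, hp.refl u (e ▸ hv)⟩, e ▸ hv, hp.refl u (e ▸ hv)⟩⟩
  rw [h5, h6, Finset.card_singleton] at h4
  omega

theorem cup_tri {a b d : α} (hp : POn r {a, b, d}) (hab : r a b) (hbd : r b d) (h1 : a ≠ b)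
    (h2 : b ≠ d) (hf : Hom 1 f) (hg : Hom 1 g) :
    cup r z κ f g {a, b, d} = f {a, b} * pw z (κ a b) * g {b, d} := by
  obtain ⟨ha, hb, hd, had, h3, hba, hdb, hda⟩ := faa_tri hp hab hbd h1 h2
  have f1 : f {a} = 0 := by_contra fun h => absurd (hf _ h) (by simp)
  have g1 : g {d} = 0 := by_contra fun h => absurd (hg _ h) (by simp)
  rw [cup, Finset.sum_insert (by simp [h1, h3]), Finset.sum_pair h2, faa_bt3 ha hab had hp]
  simp only [Finset.filter_insert, Finset.filter_singleton, ha, hb, hd, hab, hbd, had, hba, hdb,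
    hda, if_true, if_false, insert_empty_eq, f1, g1, zero_mul, mul_zero, zero_add, add_zero]

end ring

theorem DF_eq (j : ZMod 8) :
    DF r j C σ ρ = (Dz r σ ρ : F25) * pw zF (kj j C (bt r σ) (bt r ρ)) := by
  exact ph_single j _ _

/-- The coboundary as a matrix product. -/
theorem sum_DF (hK : Cx r K) (hσ : σ ∈ K) (j : ZMod 8) {f : Finset α → F25} (h0 : f ∅ = 0) :
    ∑ ρ ∈ K, DF r j C σ ρ * f ρ = dl r zF (kj j C) f σ := by
  have e : ∀ ρ, DF r j C σ ρ * f ρ = ∑ v ∈ σ, if ρ = σ.erase v then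
      (sg r σ v : F25) * pw zF (kj j C (bt r σ) (bt r (σ.erase v))) * f (σ.erase v) else 0 := by
    intro ρ
    rw [DF_eq, Dz, Int.cast_sum, Finset.sum_mul, Finset.sum_mul]
    refine Finset.sum_congr rfl fun v _ => ?_
    split_ifs with h
    · rw [h]
    · rw [Int.cast_zero, zero_mul, zero_mul]
  rw [Finset.sum_congr rfl fun ρ _ => e ρ, Finset.sum_comm]
  refine Finset.sum_congr rfl fun v _ => ?_
  rw [Finset.sum_ite_eq']
  split_ifs with h
  · rfl
  · rw [Finset.not_nonempty_iff_eq_empty.1 fun hn => h (hK.down σ hσ _ (Finset.erase_subset _ _) hn),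
      h0, mul_zero]

theorem hom_yc (i : ZMod 8) : Hom 1 (yc r C i) := by
  exact fun σ h => by_contra fun h2 => h (if_neg h2)

theorem yc_pair {a b : α} (hp : POn r {a, b}) (hab : r a b) (hne : a ≠ b) (i : ZMod 8) :
    yc r C i {a, b} = (C a b).y i := by
  have hb := hp.refl b (by simp)
  have e : bt (swap r) {a, b} = b := bt_eq hp.swap (by simp) (by simp [swap, hab, hb])
  rw [yc, if_pos (Finset.card_pair hne), faa_bt2 (hp.refl a (by simp)) hab hp, e]

/-- Every simplex with two vertices is an ordered pair, and similarly for three. -/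
theorem exists_pair (hp : POn r σ) (ht : Tot r σ) (h : σ.card = 2) :
    ∃ a b, σ = {a, b} ∧ r a b ∧ a ≠ b := by
  obtain ⟨a, b, hne, rfl⟩ := Finset.card_eq_two.1 h
  rcases ht a (by simp) b (by simp) with h1 | h1
  · exact ⟨a, b, rfl, h1, hne⟩
  · exact ⟨b, a, Finset.pair_comm a b, h1, hne.symm⟩

theorem exists_tri (hp : POn r σ) (ht : Tot r σ) (h : σ.card = 3) :
    ∃ a b d, σ = {a, b, d} ∧ r a b ∧ r b d ∧ a ≠ b ∧ b ≠ d := by
  obtain ⟨h1, h2⟩ := bt_spec hp ht (Finset.card_pos.1 (by omega))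
  have hs := Finset.erase_subset (bt r σ) σ
  obtain ⟨b, d, e, hbd, hne⟩ := exists_pair (hp.mono hs) (faa_tot ht hs)
    (by have := Finset.card_erase_add_one h1; omega)
  have hb : b ∈ σ.erase (bt r σ) := by rw [e]; simp
  exact ⟨bt r σ, b, d, by rw [← e, Finset.insert_erase h1], h2 b (hs hb), hbd,
    (Finset.ne_of_mem_erase hb).symm, hne⟩

end Pool.Agent.Lib.MP_5ceaf9_gt
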