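import Pool.Agent.Lib.MP_5ceaf9_gt.FaL

/-! The classes are cocycles; the Bockstein relation. -/

noncomputable section

namespace Pool.Agent.Lib.MP_5ceaf9_gt

open Classical Function

variable {α β : Type} [DecidableEq α] [DecidableEq β] [Nonempty α] [Nonempty β]
  {r : α → α → Prop} {r' : β → β → Prop} {K L : Finset (Finset α)} {σ ρ : Finset α}
  {C C' : α → α → Aff}

variable {j : ZMod 8} {b b' : Finset α → F25} {p : Fin 4 → ZMod 8}

theorem fab_five (y : R25) : 5 * y = ⟨5 * y.re, 5 * y.im⟩ := by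
  ext <;> simp [QuadraticAlgebra.re_ofNat, QuadraticAlgebra.im_ofNat]

theorem fab_red_iff {x : R25} : red x = 0 ↔
    ZMod.castHom (by norm_num : 5 ∣ 25) (ZMod 5) x.re = 0 ∧
      ZMod.castHom (by norm_num : 5 ∣ 25) (ZMod 5) x.im = 0 :=
  QuadraticAlgebra.ext_iff

theorem red_surj : Surjective red := by
  intro y
  obtain ⟨a, ha⟩ := ZMod.castHom_surjective (by norm_num : 5 ∣ 25) y.re
  obtain ⟨c, hc⟩ := ZMod.castHom_surjective (by norm_num : 5 ∣ 25) y.im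
  exact ⟨⟨a, c⟩, QuadraticAlgebra.ext ha hc⟩

theorem red_eq_zero {x : R25} : red x = 0 ↔ ∃ y, x = 5 * y := by
  have key : ∀ a : ZMod 25, ZMod.castHom (by norm_num : 5 ∣ 25) (ZMod 5) a = 0 ↔
      ∃ c, a = 5 * c := by decide
  rw [fab_red_iff, key, key]
  constructor
  · rintro ⟨⟨a, ha⟩, c, hc⟩
    exact ⟨⟨a, c⟩, by rw [fab_five]; exact QuadraticAlgebra.ext ha hc⟩
  · rintro ⟨y, rfl⟩
    rw [fab_five]
    exact ⟨⟨_, rfl⟩, _, rfl⟩

theorem five_mul_eq_zero {x : R25} : 5 * x = 0 ↔ red x = 0 := by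
  have key : ∀ a : ZMod 25, ZMod.castHom (by norm_num : 5 ∣ 25) (ZMod 5) a = 0 ↔ 5 * a = 0 := by
    decide
  rw [fab_red_iff, key, key, fab_five]
  exact QuadraticAlgebra.ext_iff

omit [DecidableEq α] [Nonempty α] in
/-- A property of the empty set and of all simplices holds for all subsets of a simplex. -/
theorem fab_sub (hK : Cx r K) (hσ : σ ∈ K) {P : Finset α → Prop} (h0 : P ∅) (h : ∀ τ ∈ K, P τ) :
    ∀ τ ⊆ σ, P τ := fun τ hτ => by
  rcases τ.eq_empty_or_nonempty with rfl | hn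
  · exact h0
  · exact h τ (hK.down σ hσ τ hτ hn)

theorem fab_red_dl {κ : α → α → ZMod 8} (f : Finset α → R25) :
    red (dl r zR κ f σ) = dl r zF κ (fun τ => red (f τ)) σ := by
  rw [dl_map, red_zR]

theorem yc_coc (hK : Cx r K) (h : Flat r K C) (hσ : σ ∈ K) (i : ZMod 8) :
    dl r zF (kj i C) (yc r C i) σ = 0 := by
  by_contra h0
  have hp := hK.po σ hσ
  obtain ⟨a, c, d, rfl, hac, hcd, h1, h2⟩ := exists_tri hp (hK.tot σ hσ) ((hom_yc i).dl_hom σ h0)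
  have had : r a d := hp.trans a (by simp) c (by simp) d (by simp) hac hcd
  have h3 : a ≠ d := fun e => h1 (hp.anti a (by simp) c (by simp) hac (e ▸ hcd))
  have h4 : C a a = 1 := h.refl hK (hK.down _ hσ _ (by simp) (Finset.singleton_nonempty a))
  refine h0 ?_
  rw [dl_tri hp hac hcd h1 h2 (by rw [kj, h4, Aff.one_k, mul_zero]),
    yc_pair (hp.mono (by simp)) hcd h2,
    yc_pair (hp.mono (by simp [Finset.insert_subset_iff])) had h3,
    yc_pair (hp.mono (by simp [Finset.insert_subset_iff])) hac h1, ← h a c d hσ hac hcd, Aff.mul_y,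
    kj]
  ring

theorem yy_coc (hK : Cx r K) (h : Flat r K C) (hσ : σ ∈ K) (j i : ZMod 8) :
    dl r zF (kj j C) (yy r C j i) σ = 0 := by
  have e : kj j C = fun a c => kj i C a c + kj (j - i) C a c := by
    funext a c
    simp only [kj]
    ring
  have z : ∀ i, ∀ τ ⊆ σ, dl r zF (kj i C) (yc r C i) τ = 0 := fun i =>
    fab_sub hK hσ dl_empty fun τ hτ => yc_coc hK h hτ i
  rw [e, yy, leibniz zF8 (hK.po σ hσ) (hK.tot σ hσ) (h.kf hK hσ i) (h.kf hK hσ (j - i))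
    (hom_yc i).empty (hom_yc (j - i)).empty, cup, cup, Finset.sum_eq_zero, Finset.sum_eq_zero,
    add_zero]
  · exact fun v _ => by rw [z _ _ (Finset.filter_subset _ _), mul_zero]
  · exact fun v _ => by rw [z _ _ (Finset.filter_subset _ _), zero_mul, zero_mul]

theorem Bock.coc (hK : Cx r K) (h : Flat r K C) (hb : Bock r K j C b) (hσ : σ ∈ K) :
    dl r zF (kj j C) b σ = 0 := by
  obtain ⟨h2, y, t, hy, ht⟩ := hb
  have ne : ∀ τ ∈ K, τ ≠ ∅ := fun τ hτ => (hK.ne τ hτ).ne_empty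
  rw [dl_congr (g := fun τ => red (if τ = ∅ then 0 else t τ)) (κ' := kj j C) (hK.po σ hσ)
    (hK.tot σ hσ) h2.empty (fab_sub hK hσ (by rw [h2.empty, if_pos rfl, map_zero])
      fun τ hτ => by rw [if_neg (ne τ hτ), (ht τ hτ).2.1]) fun _ _ _ _ _ => rfl, ← fab_red_dl,
    ← five_mul_eq_zero, ← dl_smul,
    dl_congr (g := dl r zR (kj j C) y) (κ' := kj j C) (hK.po σ hσ) (hK.tot σ hσ) (by simp)
      (fab_sub hK hσ (by simp [dl_empty]) fun τ hτ => by rw [if_neg (ne τ hτ), (ht τ hτ).2.2])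
      fun _ _ _ _ _ => rfl]
  exact dl_dl zR8 (hK.po σ hσ) (hK.tot σ hσ) (h.kf hK hσ j) hy.empty

theorem exists_bock (hK : Cx r K) (h : Flat r K C) (j : ZMod 8) : ∃ b, Bock r K j C b := by
  have h1 : ∀ τ, ∃ t : R25, (t ≠ 0 → τ.card = 1 + 1) ∧ red t = yc r C j τ := fun τ => by
    by_cases h0 : yc r C j τ = 0
    · exact ⟨0, fun e => absurd rfl e, by rw [h0, map_zero]⟩
    · obtain ⟨t, ht⟩ := red_surj (yc r C j τ)
      exact ⟨t, fun _ => hom_yc j τ h0, ht⟩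
  choose y hy hy' using h1
  have h2 : ∀ τ, ∃ t : R25, (t ≠ 0 → τ.card = 2 + 1) ∧
      (τ ∈ K → dl r zR (kj j C) y τ = 5 * t) := fun τ => by
    by_cases h0 : τ ∈ K ∧ dl r zR (kj j C) y τ ≠ 0
    · obtain ⟨t, ht⟩ := (red_eq_zero (x := dl r zR (kj j C) y τ)).1 (by
        rw [fab_red_dl, funext hy']
        exact yc_coc hK h h0.1 j)
      exact ⟨t, fun _ => Hom.dl_hom (n := 1) hy τ h0.2, fun _ => ht⟩
    · exact ⟨0, fun e => absurd rfl e, fun hτ => by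
        rw [mul_zero]
        exact not_not.1 fun e => h0 ⟨hτ, e⟩⟩
  choose t ht ht' using h2
  exact ⟨fun τ => red (t τ), fun τ h0 => ht τ fun e => h0 ((congrArg red e).trans red.map_zero),
    y, t, hy, fun τ hτ => ⟨hy' τ, rfl, ht' τ hτ⟩⟩

theorem Bock.unique (hK : Cx r K) (hb : Bock r K j C b) (hb' : Bock r K j C b') :
    ∃ w : Finset α → F25, Hom 1 w ∧ ∀ σ ∈ K, b' σ = b σ + dl r zF (kj j C) w σ := by
  obtain ⟨-, y, t, hy, ht⟩ := hb
  obtain ⟨-, y', t', hy', ht'⟩ := hb'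
  have h1 : ∀ τ, ∃ u : R25, (u ≠ 0 → τ.card = 1 + 1) ∧ (τ ∈ K → y' τ = y τ + 5 * u) := fun τ => by
    by_cases h0 : τ ∈ K ∧ τ.card = 1 + 1
    · obtain ⟨u, hu⟩ := (red_eq_zero (x := y' τ - y τ)).1 (by
        rw [map_sub, (ht τ h0.1).1, (ht' τ h0.1).1, sub_self])
      exact ⟨u, fun _ => h0.2, fun _ => by rw [← hu, add_sub_cancel]⟩
    · refine ⟨0, fun e => absurd rfl e, fun hτ => ?_⟩
      rw [not_not.1 fun e => h0 ⟨hτ, hy τ e⟩, not_not.1 fun e => h0 ⟨hτ, hy' τ e⟩, mul_zero,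
        add_zero]
  choose u hu hu' using h1
  refine ⟨fun τ => red (u τ), fun τ h0 => hu τ fun e => h0 ((congrArg red e).trans red.map_zero),
    fun τ hτ => ?_⟩
  have h2 : dl r zR (kj j C) y' τ = dl r zR (kj j C) (fun ρ => y ρ + 5 * u ρ) τ :=
    dl_congr (hK.po τ hτ) (hK.tot τ hτ) hy'.empty (fab_sub hK hτ (by
      rw [hy'.empty, hy.empty, Hom.empty (n := 1) hu, mul_zero, add_zero])
      fun ρ hρ => hu' ρ hρ) fun _ _ _ _ _ => rfl
  rw [dl_add, dl_smul, (ht τ hτ).2.2, (ht' τ hτ).2.2] at h2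
  have h3 : red (t' τ - (t τ + dl r zR (kj j C) u τ)) = 0 :=
    five_mul_eq_zero.1 (by linear_combination h2)
  rwa [map_sub, map_add, (ht τ hτ).2.1, (ht' τ hτ).2.1, fab_red_dl, sub_eq_zero] at h3

theorem Bock.mono (hb : Bock r L j C b) (h : K ⊆ L) : Bock r K j C b := by
  obtain ⟨h2, y, t, hy, ht⟩ := hb
  exact ⟨h2, y, t, hy, fun τ hτ => ht τ (h hτ)⟩

theorem yc_congr (hK : Cx r K) (h : Agree r K C C') (hσ : σ ∈ K) (i : ZMod 8) :
    yc r C i σ = yc r C' i σ := by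
  by_cases h2 : σ.card = 2
  · obtain ⟨a, c, rfl, hac, hne⟩ := exists_pair (hK.po σ hσ) (hK.tot σ hσ) h2
    rw [yc_pair (hK.po _ hσ) hac hne, yc_pair (hK.po _ hσ) hac hne, h a c hσ hac]
  · rw [yc, yc, if_neg h2, if_neg h2]

omit [Nonempty α] in
theorem kj_congr (hK : Cx r K) (h : Agree r K C C') (hσ : σ ∈ K) (i : ZMod 8) :
    ∀ a ∈ σ, ∀ b ∈ σ, r a b → kj i C a b = kj i C' a b := by
  intro a ha c hc hac
  rw [kj, kj, h a c (hK.down σ hσ _ (Finset.insert_subset ha (Finset.singleton_subset_iff.2 hc))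
    (Finset.insert_nonempty _ _)) hac]

theorem fab_yy_congr (hK : Cx r K) (h : Agree r K C C') (hσ : σ ∈ K) (j i : ZMod 8) :
    yy r C j i σ = yy r C' j i σ :=
  cup_congr (hK.po σ hσ) (hK.tot σ hσ)
    (fun τ hτ hn => yc_congr hK h (hK.down σ hσ τ hτ hn) i)
    (fun τ hτ hn => yc_congr hK h (hK.down σ hσ τ hτ hn) (j - i)) (kj_congr hK h hσ (j - i))

omit [DecidableEq α] in
/-- The three kinds of classes. -/
theorem fab_cls (r : α → α → Prop) (j : ZMod 8) (p : Fin 4 → ZMod 8) (m : Fin 6) :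
    (m ≠ 5 ∧ dg m = 1 ∧ ∀ C b, cls r j p C b m = yc r C j) ∨
      (m ≠ 5 ∧ dg m = 2 ∧ ∃ i, ∀ C b, cls r j p C b m = yy r C j i) ∨
      (m = 5 ∧ dg m = 2 ∧ ∀ C b, cls r j p C b m = b) := by
  fin_cases m
  · exact Or.inl ⟨by decide, rfl, fun _ _ => rfl⟩
  · exact Or.inr (Or.inl ⟨by decide, rfl, p 0, fun _ _ => rfl⟩)
  · exact Or.inr (Or.inl ⟨by decide, rfl, p 1, fun _ _ => rfl⟩)
  · exact Or.inr (Or.inl ⟨by decide, rfl, p 2, fun _ _ => rfl⟩)
  · exact Or.inr (Or.inl ⟨by decide, rfl, p 3, fun _ _ => rfl⟩)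
  · exact Or.inr (Or.inr ⟨rfl, rfl, fun _ _ => rfl⟩)

theorem cls_congr (hK : Cx r K) (h : Agree r K C C') (hσ : σ ∈ K) (m : Fin 6) :
    cls r j p C b m σ = cls r j p C' b m σ := by
  rcases fab_cls r j p m with ⟨-, -, e⟩ | ⟨-, -, i, e⟩ | ⟨-, -, e⟩ <;> rw [e, e]
  · exact yc_congr hK h hσ j
  · exact fab_yy_congr hK h hσ j i

theorem Bock.congr (hK : Cx r K) (hb : Bock r K j C b) (h : Agree r K C C') :
    Bock r K j C' b := by
  obtain ⟨h2, y, t, hy, ht⟩ := hb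
  exact ⟨h2, y, t, hy, fun τ hτ => ⟨(ht τ hτ).1.trans (yc_congr hK h hτ j), (ht τ hτ).2.1,
    (dl_congr (hK.po τ hτ) (hK.tot τ hτ) hy.empty (fun _ _ => rfl)
      (kj_congr hK h hτ j)).symm.trans (ht τ hτ).2.2⟩⟩

theorem cls_coc (hK : Cx r K) (h : Flat r K C) (hb : Bock r K j C b) (hσ : σ ∈ K) (m : Fin 6) :
    dl r zF (kj j C) (cls r j p C b m) σ = 0 := by
  rcases fab_cls r j p m with ⟨-, -, e⟩ | ⟨-, -, i, e⟩ | ⟨-, -, e⟩ <;> rw [e]
  · exact yc_coc hK h hσ j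
  · exact yy_coc hK h hσ j i
  · exact hb.coc hK h hσ

theorem cls_card (hp : POn r σ) (ht : Tot r σ) (hb : Hom 2 b) (m : Fin 6)
    (h : cls r j p C b m σ ≠ 0) : σ.card = dg m + 1 := by
  rcases fab_cls r j p m with ⟨-, d, e⟩ | ⟨-, d, i, e⟩ | ⟨-, d, e⟩ <;> rw [e] at h <;> rw [d]
  · exact hom_yc j σ h
  · exact cup_card hp ht (fun τ _ => hom_yc i τ) (fun τ _ => hom_yc (j - i) τ) h
  · exact hb σ h

theorem cls_empty (hb : Hom 2 b) (m : Fin 6) : cls r j p C b m ∅ = 0 := by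
  rcases fab_cls r j p m with ⟨-, -, e⟩ | ⟨-, -, i, e⟩ | ⟨-, -, e⟩ <;> rw [e]
  · exact (hom_yc j).empty
  · rw [yy, cup_empty]
  · exact hb.empty

/-- Two choices of the Bockstein class change the six classes by coboundaries. -/
theorem cls_bock (hK : Cx r K) (hb : Bock r K j C b) (hb' : Bock r K j C b') :
    ∃ w : Fin 6 → Finset α → F25, (∀ m, Hom (dg m - 1) (w m)) ∧
      ∀ m, ∀ σ ∈ K, cls r j p C b' m σ = cls r j p C b m σ + dl r zF (kj j C) (w m) σ := by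
  obtain ⟨w, hw, hw'⟩ := hb.unique hK hb'
  have z : ∀ τ : Finset α, dl r zF (kj j C) (fun _ => 0) τ = 0 := fun τ => by simp [dl]
  refine ⟨fun m => if m = 5 then w else fun _ => 0, fun m => ?_, fun m τ hτ => ?_⟩ <;>
    beta_reduce
  · by_cases hm : m = 5
    · rw [if_pos hm, hm]
      exact hw
    · rw [if_neg hm]
      exact fun _ e => absurd rfl e
  · rcases fab_cls r j p m with ⟨hm, -, e⟩ | ⟨hm, -, i, e⟩ | ⟨hm, -, e⟩ <;> rw [e, e]
    · rw [if_neg hm, z, add_zero]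
    · rw [if_neg hm, z, add_zero]
    · rw [if_pos hm]
      exact hw' τ hτ

end Pool.Agent.Lib.MP_5ceaf9_gt
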