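import Pool.Agent.Lib.MP_5ceaf9_gt.FaB

/-! The torsion with respect to classes. -/

noncomputable section

namespace Pool.Agent.Lib.MP_5ceaf9_gt

open Classical Function

variable {α β : Type} [DecidableEq α] [DecidableEq β] [Nonempty α] [Nonempty β]
  {r : α → α → Prop} {r' : β → β → Prop} {K L : Finset (Finset α)} {σ ρ : Finset α}
  {C C' : α → α → Aff}

variable {J : Type} [Fintype J] [DecidableEq J] {j : ZMod 8} {pJ : J → Bool} {n : J → ℕ}
  {h h' : J → Finset α → F25}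

/-- A family of homogeneous cocycles on `K`. -/
structure Cls (r : α → α → Prop) (K : Finset (Finset α)) (j : ZMod 8) (C : α → α → Aff)
    (n : J → ℕ) (h : J → Finset α → F25) : Prop where
  empty : ∀ m, h m ∅ = 0
  card : ∀ m, ∀ σ ∈ K, h m σ ≠ 0 → σ.card = n m + 1
  coc : ∀ m, ∀ σ ∈ K, dl r zF (kj j C) (h m) σ = 0

theorem Cls.mono (H : Cls r L j C n h) (hKL : K ⊆ L) : Cls r K j C n h := by
  exact ⟨H.empty, fun m σ hσ => H.card m σ (hKL hσ), fun m σ hσ => H.coc m σ (hKL hσ)⟩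

theorem cls_cls (hK : Cx r K) (hC : Flat r K C) {b : Finset α → F25} (hb : Bock r K j C b)
    (p : Fin 4 → ZMod 8) : Cls r K j C dg (cls r j p C b) := by
  exact ⟨cls_empty hb.1, fun m σ hσ => cls_card (hK.po _ hσ) (hK.tot _ hσ) hb.1 m,
    fun m σ hσ => cls_coc hK hC hb hσ m⟩

theorem rs_DF (X Y : Finset (Finset α)) :
    rs X Y (DF r j C) = (rs X Y (DG r C)).map (ph j) := by
  rfl

theorem fac_mul (hK : Cx r K) {w : J → Finset α → F25} (w0 : ∀ m, w m ∅ = 0) :
    rs K K (DF r j C) * cm K w = cm K fun m => dl r zF (kj j C) (w m) := by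
  ext1 x m
  rw [Matrix.mul_apply]
  exact (Finset.sum_coe_sort K fun ρ => DF r j C x ρ * w m ρ).trans (sum_DF hK x.2 j (w0 m))

theorem Cls.isCM (hK : Cx r K) (hC : Flat r K C) (H : Cls r K j C n h)
    (hp : ∀ m, pJ m = decide (n m % 2 = 1)) :
    CM (fun x : ↥K => ps x.1) pJ (rs K K (DF r j C)) 0 (cm K h) := by
  refine ⟨(dm_DG_abs hK hC).map (ph j), ⟨mul_zero _, fun x y k => absurd rfl k⟩,
    fun x m k => ?_, ?_⟩
  · rw [hp, ps, H.card m x x.2 k]
    exact decide_eq_decide.2 (by omega)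
  · rw [fac_mul hK H.empty, Matrix.mul_zero]
    exact Matrix.ext fun x m => H.coc m x x.2

theorem Cls.gr (H : Cls r K j C n h) :
    Gr (fun x : ↥K => (x.1.card : ℤ) - 1) (fun m => (n m : ℤ)) 0 (cm K h) := by
  intro x m k
  have h1 := H.card m x x.2 k
  dsimp only
  omega

theorem tc_congr (hK : Cx r K) (hC : Agree r K C C') (hh : ∀ m, ∀ σ ∈ K, h m σ = h' m σ) :
    tc r K j C pJ h = tc r K j C' pJ h' := by
  have e1 : rs K K (DF r j C) = rs K K (DF r j C') :=
    Matrix.ext fun x y => congrArg (ph j) (DG_congr hK hC x.2 y.2)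
  have e2 : cm K h = cm K h' := Matrix.ext fun x m => hh m x x.2
  rw [tc, tc, e1, e2]

/-- `tor_cls_cob`. -/
theorem tc_cob (hK : Cx r K) (hC : Flat r K C) (H : Cls r K j C n h)
    (hp : ∀ m, pJ m = decide (n m % 2 = 1)) {w : J → Finset α → F25} (w0 : ∀ m, w m ∅ = 0)
    (hw : ∀ m, ∀ σ ∈ K, w m σ ≠ 0 → σ.card = n m)
    (hh : ∀ m, ∀ σ ∈ K, h' m σ = h m σ + dl r zF (kj j C) (w m) σ) :
    tc r K j C pJ h' = tc r K j C pJ h := by
  have e : cm K h' = cm K h + rs K K (DF r j C) * cm K w := by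
    rw [fac_mul hK w0]
    exact Matrix.ext fun x m => hh m x x.2
  rw [tc, tc, e]
  refine tor_cls_cob (H.isCM hK hC hp) fun x m k e => ?_
  rw [hp, ps, hw m x x.2 k] at e
  have := decide_eq_decide.1 e
  omega

/-- `tor_cls_map` for the restriction matrix, `gd_cone_res`, and reindexing. -/
theorem tc_restrict (hg : GE r 2 K L) (hC : Flat r L C) (H : Cls r L j C n h)
    (hp : ∀ m, pJ m = decide (n m % 2 = 1)) : tc r K j C pJ h = tc r L j C pJ h := by
  have hd := dm_DG_abs hg.cL hC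
  have hq := sub_DG (c := C) hg.cK hg.cL.ne
  have h1 := ((gd_cone_res hd hq).2 ((gd_blk_rs (X := L) (fun x => x.1 ∉ K) fun x => by
    simp only [Finset.mem_sdiff, exists_prop]).2 (hg.gd Aff C hC))).2.2 le_rfl _ (ph_mem j)
  rw [cone_map] at h1
  have h2 := (cm_res hd hq).map (ph j)
  have h3 := H.isCM hg.cL hC hp
  let e : ↥K ≃ {x : ↥L // ¬ x.1 ∉ K} :=
    { toFun := fun y => ⟨⟨y.1, hg.sub y.2⟩, not_not.2 y.2⟩
      invFun := fun x => ⟨x.1.1, not_not.1 x.2⟩
      left_inv := fun _ => rfl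
      right_inv := fun _ => rfl }
  refine Eq.trans ?_ ((tor_reindex (h2.comp h3).cone (e.sumCongr (Equiv.refl J))).trans
    (tor_cls_map h2 h3 h1))
  rw [tc]
  congr 1
  · funext x
    rcases x with x | x <;> rfl
  · refine Matrix.ext ?_
    rintro (x | x) (y | y)
    · rfl
    · change h y x = ∑ z : ↥L, ph j (if (e x).1 = z then 1 else 0) * h y z
      rw [Finset.sum_eq_single (e x).1, if_pos rfl, map_one, one_mul]
      · rfl
      · intro z _ hz
        rw [if_neg hz.symm, map_zero, zero_mul]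
      · exact fun k => absurd (Finset.mem_univ _) k
    · rfl
    · rfl

theorem tc_bock (hK : Cx r K) (hC : Flat r K C) {b b' : Finset α → F25} (hb : Bock r K j C b)
    (hb' : Bock r K j C b') (p : Fin 4 → ZMod 8) :
    tc r K j C pj (cls r j p C b') = tc r K j C pj (cls r j p C b) := by
  obtain ⟨w, h1, h2⟩ := cls_bock (p := p) hK hb hb'
  have e : ∀ m, dg m - 1 + 1 = dg m := by decide
  exact tc_cob hK hC (cls_cls hK hC hb p) (fun _ => rfl) (fun m => (h1 m).empty)
    (fun m σ _ k => (h1 m σ k).trans (e m)) h2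

end Pool.Agent.Lib.MP_5ceaf9_gt
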