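import Pool.Agent.Lib.MP_5ceaf9_gt.FaC

/-! Gauge invariance of the torsion. -/

noncomputable section

namespace Pool.Agent.Lib.MP_5ceaf9_gt

open Classical Function

variable {α β : Type} [DecidableEq α] [DecidableEq β] [Nonempty α] [Nonempty β]
  {r : α → α → Prop} {r' : β → β → Prop} {K L : Finset (Finset α)} {σ ρ : Finset α}
  {C C' : α → α → Aff}

variable {j : ZMod 8} {b b' : Finset α → F25} {p : Fin 4 → ZMod 8}

theorem fac2_dl {A : Type} [CommRing A] {z : A} (hz : z ^ 8 = 1) (u : α → ZMod 8)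
    (κ : α → α → ZMod 8) (f : Finset α → A) :
    dl r z (fun a d => u a + κ a d - u d) (fun τ => pw z (u (bt r τ)) * f τ) σ =
      pw z (u (bt r σ)) * dl r z κ f σ := by
  unfold dl
  rw [Finset.mul_sum]
  refine Finset.sum_congr rfl fun v _ => ?_
  have h := pw_add hz (u (bt r σ) + κ (bt r σ) (bt r (σ.erase v)) - u (bt r (σ.erase v)))
    (u (bt r (σ.erase v)))
  rw [sub_add_cancel, pw_add hz] at h
  linear_combination (-(sg r σ v : A) * f (σ.erase v)) * h

omit [DecidableEq α] [Nonempty α] in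
theorem fac2_rk (g : α → ZMod 8) (i : ZMod 8) :
    kj i (gau (fun a => (⟨g a, fun _ => 0⟩ : Aff)) C) =
      fun a d => i * g a + kj i C a d - i * g d := by
  funext a d
  simp only [kj, gau, Aff.mul_k, Aff.inv_k]
  ring

omit [DecidableEq α] in
theorem fac2_ry (g : α → ZMod 8) (i : ZMod 8) :
    yc r (gau (fun a => (⟨g a, fun _ => 0⟩ : Aff)) C) i σ =
      pw zF (i * g (bt r σ)) * yc r C i σ := by
  unfold yc
  split_ifs
  · simp [gau]
  · simp

theorem fac2_ryy (hp : POn r σ) (ht : Tot r σ) (g : α → ZMod 8) (i : ZMod 8) :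
    yy r (gau (fun a => (⟨g a, fun _ => 0⟩ : Aff)) C) j i σ =
      pw zF (j * g (bt r σ)) * yy r C j i σ := by
  unfold yy cup
  rw [Finset.mul_sum]
  refine Finset.sum_congr rfl fun v hv => ?_
  have h0 := bt_spec hp ht ⟨v, hv⟩
  have h1 : bt r (σ.filter fun u => r u v) = bt r σ :=
    bt_eq (hp.mono (Finset.filter_subset _ _)) (Finset.mem_filter.2 ⟨h0.1, h0.2 v hv⟩)
      fun u hu => h0.2 u (Finset.mem_filter.1 hu).1
  have h2 : bt r (σ.filter fun u => r v u) = v :=
    bt_eq (hp.mono (Finset.filter_subset _ _)) (Finset.mem_filter.2 ⟨hv, hp.refl v hv⟩)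
      fun u hu => (Finset.mem_filter.1 hu).2
  rw [fac2_ry, fac2_ry, fac2_rk, h1, h2]
  have h3 : pw zF (i * g (bt r σ)) * pw zF ((j - i) * g (bt r σ) + kj (j - i) C (bt r σ) v -
      (j - i) * g v) * pw zF ((j - i) * g v) =
      pw zF (j * g (bt r σ)) * pw zF (kj (j - i) C (bt r σ) v) := by
    rw [← pw_add zF8, ← pw_add zF8, ← pw_add zF8]
    congr 1
    ring
  linear_combination (yc r C i (σ.filter fun u => r u v) *
    yc r C (j - i) (σ.filter fun u => r v u)) * h3

theorem fac2_rb (g : α → ZMod 8) (hb : Bock r K j C b) :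
    Bock r K j (gau (fun a => (⟨g a, fun _ => 0⟩ : Aff)) C)
      fun σ => pw zF (j * g (bt r σ)) * b σ := by
  obtain ⟨h2, y, c, h1, h⟩ := hb
  have hr : ∀ k, red (pw zR k) = pw zF k := fun k => by rw [pw, map_pow, red_zR, pw]
  refine ⟨fun σ hσ => h2 σ (right_ne_zero_of_mul hσ), fun σ => pw zR (j * g (bt r σ)) * y σ,
    fun σ => pw zR (j * g (bt r σ)) * c σ, fun σ hσ => h1 σ (right_ne_zero_of_mul hσ),
    fun σ hσ => ⟨?_, ?_, ?_⟩⟩
  · rw [map_mul, hr, (h σ hσ).1, fac2_ry]
  · rw [map_mul, hr, (h σ hσ).2.1]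
  · rw [fac2_rk, fac2_dl zR8 (fun a => j * g a), (h σ hσ).2.2, mul_left_comm]

/-- A gauge without translation part multiplies every class by `pw zF (j * g (bt σ))`
(`tor_cls_gauge`); the same factor, lifted, gives a Bockstein class. -/
theorem tc_rot (hK : Cx r K) (hC : Flat r K C) (g : α → ZMod 8) (hb : Bock r K j C b)
    (hb' : Bock r K j (gau (fun a => (⟨g a, fun _ => 0⟩ : Aff)) C) b') :
    tc r K j (gau (fun a => (⟨g a, fun _ => 0⟩ : Aff)) C) pj
      (cls r j p (gau (fun a => (⟨g a, fun _ => 0⟩ : Aff)) C) b') =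
      tc r K j C pj (cls r j p C b) := by
  rw [tc_bock hK (hC.gau _) (fac2_rb g hb) hb', tc, tc,
    ← tor_cls_gauge ((cls_cls hK hC hb p).isCM (pJ := pj) hK hC fun _ => rfl)
      (g := fun x => pw zF (j * g (bt r x.1))) (g' := fun x => pw zF (-(j * g (bt r x.1))))
      (fun x => by rw [← pw_add zF8, add_neg_cancel, pw_zero]) fun x => pw_pow8 zF8 _]
  congr 2
  · ext1 x y
    simp only [rs, Matrix.of_apply, DF_eq, fac2_rk, sub_eq_add_neg, pw_add zF8]
    ring
  · ext1 x m
    have h := fun i => fac2_ryy (j := j) (C := C) (hK.po _ x.2) (hK.tot _ x.2) g i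
    fin_cases m <;> simp [cm, cls, h, fac2_ry]

omit [DecidableEq α] [Nonempty α] in
theorem fac2_tk (g : α → ZMod 8 → F25) (i : ZMod 8) :
    kj i (gau (fun a => (⟨0, g a⟩ : Aff)) C) = kj i C := by
  funext a d
  simp [kj, gau]

/-- The zero-cochain with given values. -/
def fac2_u {A : Type} [Zero A] (r : α → α → Prop) (u : α → A) (τ : Finset α) : A :=
  if τ.card = 1 then u (bt r τ) else 0

omit [DecidableEq α] in
theorem fac2_u_hom {A : Type} [Zero A] (u : α → A) : Hom 0 (fac2_u r u) := fun τ h => by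
  by_contra h1
  exact h (if_neg h1)

theorem fac2_ty (hK : Cx r K) (hC : Flat r K C) (hσ : σ ∈ K) (g : α → ZMod 8 → F25)
    (i : ZMod 8) : yc r (gau (fun a => (⟨0, g a⟩ : Aff)) C) i σ =
      yc r C i σ + dl r zF (kj i C) (fac2_u r fun a => -g a i) σ := by
  by_cases h : σ.card = 2
  · have hp := hK.po σ hσ
    have hk := hC.kf hK hσ i
    obtain ⟨a, d, rfl, had, hne⟩ := exists_pair hp (hK.tot _ hσ) h
    have ha : a ∈ ({a, d} : Finset α) := by simp
    have hd : d ∈ ({a, d} : Finset α) := by simp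
    have h0 : kj i C a a = 0 := add_eq_left.1 (hk a ha a ha a ha (hp.refl a ha) (hp.refl a ha))
    have h1 : ∀ x ∈ ({a, d} : Finset α), bt r {x} = x := fun x hx =>
      bt_eq (hp.mono (Finset.singleton_subset_iff.2 hx)) (Finset.mem_singleton_self x)
        fun u hu => by rw [Finset.mem_singleton.1 hu]; exact hp.refl x hx
    rw [yc_pair hp had hne, yc_pair hp had hne, dl_pair hp had hne h0]
    simp only [fac2_u, Finset.card_singleton, if_true, h1 a ha, h1 d hd, gau, Aff.mul_y, Aff.mul_k,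
      Aff.inv_y, neg_zero, mul_zero, pw_zero, zero_add, kj]
    ring
  · have h1 : dl r zF (kj i C) (fac2_u r fun a => -g a i) σ = 0 := by
      by_contra h2
      exact h ((fac2_u_hom _).dl_hom σ h2)
    rw [h1, yc, yc, if_neg h, if_neg h, add_zero]

theorem fac2_tb (hK : Cx r K) (hC : Flat r K C) (g : α → ZMod 8 → F25) (hb : Bock r K j C b) :
    Bock r K j (gau (fun a => (⟨0, g a⟩ : Aff)) C) b := by
  obtain ⟨h2, y, c, h1, h⟩ := hb
  choose u hu using fun a => red_surj (-g a j)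
  have h3 : (fun τ => red (fac2_u r u τ)) = fac2_u r fun a => -g a j := by
    funext τ
    unfold fac2_u
    split_ifs
    · exact hu _
    · exact map_zero _
  refine ⟨h2, fun σ => y σ + dl r zR (kj j C) (fac2_u r u) σ, c, fun σ hσ => ?_,
    fun σ hσ => ⟨?_, (h σ hσ).2.1, ?_⟩⟩
  · by_cases h4 : y σ = 0
    · exact (fac2_u_hom u).dl_hom σ (by simpa only [h4, zero_add] using hσ)
    · exact h1 σ h4
  · rw [map_add, dl_map, red_zR, h3, (h σ hσ).1, fac2_ty hK hC hσ]
  · rw [fac2_tk, dl_add, (h σ hσ).2.2, dl_dl zR8 (hK.po σ hσ) (hK.tot σ hσ) (hC.kf hK hσ j)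
      (fac2_u_hom u).empty, add_zero]

/-- The cochain whose coboundary is the change of a product. -/
def fac2_w (r : α → α → Prop) (C : α → α → Aff) (g : α → ZMod 8 → F25) (j i : ZMod 8)
    (τ : Finset α) : F25 :=
  cup r zF (kj (j - i) C) (fac2_u r fun a => -g a i)
      (yc r (gau (fun a => (⟨0, g a⟩ : Aff)) C) (j - i)) τ +
    -1 * cup r zF (kj (j - i) C) (yc r C i) (fac2_u r fun a => -g a (j - i)) τ

theorem fac2_w_card (hp : POn r σ) (ht : Tot r σ) {g : α → ZMod 8 → F25} {i : ZMod 8}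
    (h : fac2_w r C g j i σ ≠ 0) : σ.card = 2 := by
  by_contra h1
  refine h ?_
  have h2 : cup r zF (kj (j - i) C) (fac2_u r fun a => -g a i)
      (yc r (gau (fun a => (⟨0, g a⟩ : Aff)) C) (j - i)) σ = 0 := by
    by_contra h2
    exact h1 (cup_card hp ht (fun τ _ => fac2_u_hom _ τ) (fun τ _ => hom_yc _ τ) h2)
  have h3 : cup r zF (kj (j - i) C) (yc r C i) (fac2_u r fun a => -g a (j - i)) σ = 0 := by
    by_contra h3
    exact h1 (cup_card hp ht (fun τ _ => hom_yc _ τ) (fun τ _ => fac2_u_hom _ τ) h3)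
  rw [fac2_w, h2, h3, mul_zero, add_zero]

theorem fac2_tyy (hK : Cx r K) (hC : Flat r K C) (hσ : σ ∈ K) (g : α → ZMod 8 → F25)
    (i : ZMod 8) : yy r (gau (fun a => (⟨0, g a⟩ : Aff)) C) j i σ =
      yy r C j i σ + dl r zF (kj j C) (fac2_w r C g j i) σ := by
  have hp := hK.po σ hσ
  have ht := hK.tot σ hσ
  have hk : kj j C = fun a d => kj i C a d + kj (j - i) C a d := by
    funext a d
    simp only [kj]
    ring
  have e1 : cup r zF (kj (j - i) C) (sgn (fac2_u r fun a => -g a i)) (dl r zF (kj (j - i) C)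
      (yc r (gau (fun a => (⟨0, g a⟩ : Aff)) C) (j - i))) σ = 0 := by
    refine Finset.sum_eq_zero fun v hv => ?_
    have h := yc_coc hK (hC.gau fun a => (⟨0, g a⟩ : Aff)) (hK.down σ hσ (σ.filter fun u => r v u)
      (Finset.filter_subset _ _) ⟨v, Finset.mem_filter.2 ⟨hv, hp.refl v hv⟩⟩) (j - i)
    rw [fac2_tk] at h
    rw [h, mul_zero]
  have e2 : cup r zF (kj (j - i) C) (dl r zF (kj i C) (yc r C i))
      (fac2_u r fun a => -g a (j - i)) σ = 0 := by
    refine Finset.sum_eq_zero fun v hv => ?_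
    rw [yc_coc hK hC (hK.down σ hσ (σ.filter fun u => r u v) (Finset.filter_subset _ _)
      ⟨v, Finset.mem_filter.2 ⟨hv, hp.refl v hv⟩⟩) i, zero_mul, zero_mul]
  have e3 : (sgn (yc r C i)) = fun τ => -1 * yc r C i τ := by
    funext τ
    by_cases h : yc r C i τ = 0
    · rw [sgn, h, mul_zero, mul_zero]
    · rw [sgn, hom_yc i τ h]
      norm_num
  have e4 := cup_smul (r := r) (σ := σ) (z := zF) (κ := kj (j - i) C) (f := yc r C i)
    (g := dl r zF (kj (j - i) C) (fac2_u r fun a => -g a (j - i))) (-1) 1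
  simp only [one_mul] at e4
  have e5 : cup r zF (kj (j - i) C) (yc r (gau (fun a => (⟨0, g a⟩ : Aff)) C) i)
      (yc r (gau (fun a => (⟨0, g a⟩ : Aff)) C) (j - i)) σ = _ :=
    (cup_congr hp ht (fun τ h1 h2 => fac2_ty hK hC (hK.down σ hσ τ h1 h2) g i)
      (fun _ _ _ => rfl) fun _ _ _ _ _ => rfl).trans cup_add_left
  have e6 : cup r zF (kj (j - i) C) (yc r C i)
      (yc r (gau (fun a => (⟨0, g a⟩ : Aff)) C) (j - i)) σ = _ :=
    (cup_congr hp ht (fun _ _ _ => rfl)
      (fun τ h1 h2 => fac2_ty hK hC (hK.down σ hσ τ h1 h2) g (j - i))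
      fun _ _ _ _ _ => rfl).trans cup_add_right
  unfold fac2_w
  rw [dl_add, dl_smul, hk,
    leibniz zF8 hp ht (hC.kf hK hσ i) (hC.kf hK hσ (j - i)) (fac2_u_hom _).empty (hom_yc _).empty,
    leibniz zF8 hp ht (hC.kf hK hσ i) (hC.kf hK hσ (j - i)) (hom_yc _).empty (fac2_u_hom _).empty,
    e1, e2, e3, e4, yy, yy, fac2_tk, e5, e6]
  ring

/-- A gauge by translations keeps `k` and subtracts from `yc i` the coboundary of the
zero-cochain `{a} ↦ g a i`. The products change by coboundaries (`leibniz`), and `b` is still a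
Bockstein class (`dl_dl` over `R25`). -/
theorem tc_trans (hK : Cx r K) (hC : Flat r K C) (g : α → ZMod 8 → F25) (hb : Bock r K j C b)
    (hb' : Bock r K j (gau (fun a => (⟨0, g a⟩ : Aff)) C) b') :
    tc r K j (gau (fun a => (⟨0, g a⟩ : Aff)) C) pj
      (cls r j p (gau (fun a => (⟨0, g a⟩ : Aff)) C) b') = tc r K j C pj (cls r j p C b) := by
  have hD : DF r j (gau (fun a => (⟨0, g a⟩ : Aff)) C) = DF r j C := by
    funext σ ρ
    rw [DF_eq, DF_eq, fac2_tk]
  rw [tc_bock hK (hC.gau _) (fac2_tb hK hC g hb) hb', tc, hD, ← tc]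
  have h0 : ∀ i, fac2_w r C g j i ∅ = 0 := fun i => by
    rw [fac2_w, cup_empty, cup_empty, mul_zero, add_zero]
  refine tc_cob hK hC (cls_cls hK hC hb p) (fun _ => rfl)
    (w := ![fac2_u r fun a => -g a j, fac2_w r C g j (p 0), fac2_w r C g j (p 1),
      fac2_w r C g j (p 2), fac2_w r C g j (p 3), fun _ => 0]) (fun m => ?_) (fun m σ hσ => ?_)
    fun m σ hσ => ?_
  · fin_cases m
    exacts [(fac2_u_hom (r := r) fun a => -g a j).empty, h0 _, h0 _, h0 _, h0 _, rfl]
  · have h := fun i => fac2_w_card (C := C) (j := j) (hK.po σ hσ) (hK.tot σ hσ) (g := g) (i := i)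
    fin_cases m
    exacts [fac2_u_hom (r := r) (fun a => -g a j) σ, h _, h _, h _, h _, fun h => absurd rfl h]
  · have h := fac2_tyy (j := j) hK hC hσ g
    fin_cases m
    exacts [fac2_ty hK hC hσ g j, h _, h _, h _, h _, by simp [cls, dl]]

/-- Every gauge is a rotation followed by a translation. -/
theorem tc_gauge (hK : Cx r K) (hC : Flat r K C) (g : α → Aff) (hC' : Agree r K (gau g C) C')
    (hb : Bock r K j C b) (hb' : Bock r K j C' b') :
    tc r K j C' pj (cls r j p C' b') = tc r K j C pj (cls r j p C b) := by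
  have e : gau g C = gau (fun a => (⟨0, (g a).y⟩ : Aff))
      (gau (fun a => (⟨(g a).k, fun _ => 0⟩ : Aff)) C) := by
    rw [sxb_gau]
    congr 1
    funext a
    exact Aff.ext (by simp) (funext fun i => by simp)
  have h1 := hb'.congr hK (C' := gau g C) fun a d h h' => (hC' a d h h').symm
  rw [← tc_congr hK hC' fun m σ hσ => cls_congr hK hC' hσ m]
  rw [e] at h1 ⊢
  rw [tc_trans hK (hC.gau _) _ (fac2_rb _ hb) h1, tc_rot hK hC _ hb (fac2_rb _ hb)]

end Pool.Agent.Lib.MP_5ceaf9_gt
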