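import Pool.Agent.Lib.MP_5ceaf9_gt.FaC2

/-! Transfer of admissible data. -/

noncomputable section

namespace Pool.Agent.Lib.MP_5ceaf9_gt

open Classical Function

variable {α β : Type} [DecidableEq α] [DecidableEq β] [Nonempty α] [Nonempty β]
  {r : α → α → Prop} {r' : β → β → Prop} {K L : Finset (Finset α)} {σ ρ : Finset α}
  {C C' : α → α → Aff}

variable {ω ω' : α → α → ZMod 2} {b1 b3 : Finset α → F25}

omit [Nonempty α] in
theorem fad_symm {T : Type} {c c' : α → α → T} (h : Agree r K c c') : Agree r K c' c :=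
  fun a b hab hr => (h a b hab hr).symm

omit [DecidableEq α] [Nonempty α] in
theorem fad_gau (g : α → Aff) : gau (fun a => (g a)⁻¹) (gau g C) = C := by
  funext a b
  simp only [gau]
  group

omit [Nonempty α] in
theorem fad_geq (g : α → Aff) (h : Geq r K C ω) : Geq r K (gau g C) ω := by
  obtain ⟨g', hg'⟩ := h
  refine ⟨fun a => g' a + par2 (g a).k, fun a b hab hr => ?_⟩
  have h1 := hg' a b hab hr
  simp only [gau, Aff.mul_k, Aff.inv_k, map_add, map_neg] at h1 ⊢
  rw [h1]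
  generalize g' a = x
  generalize g' b = y
  generalize par2 (g a).k = z
  generalize par2 (g b).k = t
  generalize ω a b = u
  revert x y z t u
  decide

omit [Nonempty α] in
theorem fad_triv (g : α → Aff) (i : ZMod 8) (h : Triv r K C i) : Triv r K (gau g C) i := by
  obtain ⟨g', hg'⟩ := h
  refine ⟨fun a => (g a).y i + pw zF (i * (g a).k) * g' a, fun a b hab hr => ?_⟩
  have h1 := hg' a b hab hr
  have h2 : pw zF (i * -(g b).k) * pw zF (i * (g b).k) = 1 := by
    rw [← pw_add zF8, ← mul_add, neg_add_cancel, mul_zero, pw_zero]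
  simp only [gau, kj, Aff.mul_k, Aff.inv_k, Aff.mul_y, Aff.inv_y, mul_add, pw_add zF8] at h1 ⊢
  rw [h1]
  linear_combination (pw zF (i * (g a).k) * pw zF (i * (C a b).k) * g' b) * h2

theorem Geq.congr (h : Geq r K C ω) (hC : Agree r K C C') : Geq r K C' ω := by
  obtain ⟨g, hg⟩ := h
  refine ⟨g, fun a b hab hr => ?_⟩
  have h1 := hg a b hab hr
  simp only at h1 ⊢
  rw [← hC a b hab hr]
  exact h1

theorem Triv.congr {i : ZMod 8} (h : Triv r K C i) (hC : Agree r K C C') : Triv r K C' i := by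
  obtain ⟨g, hg⟩ := h
  refine ⟨g, fun a b hab hr => ?_⟩
  have h1 := hg a b hab hr
  simp only [kj] at h1 ⊢
  rw [← hC a b hab hr]
  exact h1

theorem geq_gau (g : α → Aff) : Geq r K (gau g C) ω ↔ Geq r K C ω := by
  refine ⟨fun h => ?_, fad_geq g⟩
  have h1 := fad_geq (fun a => (g a)⁻¹) h
  rwa [fad_gau] at h1

theorem triv_gau (g : α → Aff) (i : ZMod 8) : Triv r K (gau g C) i ↔ Triv r K C i := by
  refine ⟨fun h => ?_, fad_triv g i⟩
  have h1 := fad_triv (fun a => (g a)⁻¹) i h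
  rwa [fad_gau] at h1

theorem Geq.gauge (h : Geq r K C ω) (g : α → ZMod 2)
    (hg : Agree r K ω' (fun a b => g a + ω a b + g b)) : Geq r K C ω' := by
  obtain ⟨g', hg'⟩ := h
  refine ⟨fun a => g' a + g a, fun a b hab hr => ?_⟩
  have h1 := hg' a b hab hr
  have h2 := hg a b hab hr
  simp only at h1 h2 ⊢
  rw [h1, h2]
  generalize g' a = x
  generalize g' b = y
  generalize g a = z
  generalize g b = t
  generalize ω a b = u
  revert x y z t u
  decide

theorem flat2_zero : Flat2 r K (fun _ _ => 0) := by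
  intro a b d _ _ _
  rfl

omit [Nonempty α] in
theorem fad_geq_iff : Geq r K C ω ↔ ∃ g : α → Multiplicative (ZMod 2),
    (∀ a, g a ∈ (⊤ : Subgroup (Multiplicative (ZMod 2)))) ∧ Agree r K (gau g (fun a b => Multiplicative.ofAdd (ω a b)))
      (fun a b => Multiplicative.ofAdd (par2 (C a b).k)) := by
  have e : ∀ x : ZMod 2, -x = x := by decide
  constructor
  · rintro ⟨g, hg⟩
    refine ⟨fun a => Multiplicative.ofAdd (g a), fun _ => Subgroup.mem_top _,
      fun a b hab hr => ?_⟩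
    have h1 := hg a b hab hr
    simp only [gau] at h1 ⊢
    rw [h1, ← ofAdd_neg, e, ofAdd_add, ofAdd_add]
  · rintro ⟨g, -, hg⟩
    refine ⟨fun a => (g a).toAdd, fun a b hab hr => ?_⟩
    have h1 := congrArg Multiplicative.toAdd (hg a b hab hr)
    simp only [gau, toAdd_mul, toAdd_inv, toAdd_ofAdd, e] at h1 ⊢
    exact h1.symm

/-- `Eq1.geq_iff` with the group `Multiplicative (ZMod 2)` and the subgroup `⊤`. -/
theorem Eq1.geq (cK : Cx r K) (cL : Cx r L) (hKL : K ⊆ L) (h : Eq1 r K L) (hC : Flat r L C)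
    (hω : Flat2 r L ω) : Geq r K C ω ↔ Geq r L C ω := by
  have hc' : Flat r L (fun a b => Multiplicative.ofAdd (par2 (C a b).k)) := by
    intro a b d hm hab hbd
    simp only
    rw [← hC a b d hm hab hbd, Aff.mul_k, map_add, ofAdd_add]
  rw [fad_geq_iff, fad_geq_iff]
  exact h.geq_iff cK cL hKL ⊤ hω hc' fun _ _ _ _ => Subgroup.mem_top _

/-- The class modulo eight as a homomorphism. -/
def fad_k : Aff →* Multiplicative (ZMod 8) where
  toFun a := Multiplicative.ofAdd a.k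
  map_one' := rfl
  map_mul' _ _ := rfl

theorem fad_mem {a : Aff} : a ∈ fad_k.ker ↔ a.k = 0 := by
  rw [MonoidHom.mem_ker]
  exact Iff.rfl

/-- The rotation part. -/
def fad_rot : Aff →* Aff where
  toFun a := ⟨a.k, fun _ => 0⟩
  map_one' := rfl
  map_mul' a b := Aff.ext rfl (funext fun j => by simp)

/-- Keep one of the twisted classes. -/
def fad_one (i : ZMod 8) : Aff →* Aff where
  toFun a := ⟨a.k, fun j => if j = i then a.y j else 0⟩
  map_one' := Aff.ext rfl (funext fun j => by simp)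
  map_mul' a b := Aff.ext rfl (funext fun j => by
    by_cases h : j = i <;> simp [h])

omit [Nonempty α] in
theorem fad_triv_iff {i : ZMod 8} : Triv r K C i ↔ ∃ g : α → Aff, (∀ a, g a ∈ fad_k.ker) ∧
    Agree r K (gau g (fun a b => fad_rot (C a b))) (fun a b => fad_one i (C a b)) := by
  constructor
  · rintro ⟨g, hg⟩
    refine ⟨fun a => ⟨0, fun j => if j = i then g a else 0⟩, fun _ => fad_mem.2 rfl,
      fun a b hab hr => ?_⟩
    have h1 := hg a b hab hr
    simp only [kj] at h1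
    refine Aff.ext (by simp [gau, fad_rot, fad_one]) (funext fun j => ?_)
    by_cases h : j = i
    · subst h
      simp [gau, fad_rot, fad_one, h1, pw_zero, sub_eq_add_neg]
    · simp [gau, fad_rot, fad_one, h]
  · rintro ⟨g, h0, hg⟩
    refine ⟨fun a => (g a).y i, fun a b hab hr => ?_⟩
    have h1 := congrArg (fun x : Aff => x.y i) (hg a b hab hr)
    have ha := fad_mem.1 (h0 a)
    have hb := fad_mem.1 (h0 b)
    simp [gau, fad_rot, fad_one, ha, hb, pw_zero] at h1
    simp only [kj]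
    rw [← h1, sub_eq_add_neg]

/-- `Eq1.geq_iff` in `Aff`, for the cocycle `⟨k, 0⟩` and the cocycle that keeps only `y i`, with
the normal subgroup of translations. -/
theorem Eq1.triv (cK : Cx r K) (cL : Cx r L) (hKL : K ⊆ L) (h : Eq1 r K L) (hC : Flat r L C)
    (i : ZMod 8) : Triv r K C i ↔ Triv r L C i := by
  rw [fad_triv_iff, fad_triv_iff]
  refine h.geq_iff cK cL hKL fad_k.ker (hC.hom fad_rot) (hC.hom (fad_one i)) fun a b _ _ => ?_
  rw [fad_mem]
  simp [fad_rot, fad_one]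

theorem Adm.restrict (cK : Cx r K) (cL : Cx r L) (hKL : K ⊆ L) (h : Eq1 r K L)
    (H : Adm r L C b1 b3) : Adm r K C b1 b3 := by
  exact ⟨H.flat.mono hKL, fun k => H.odd ((h.geq cK cL hKL H.flat flat2_zero).1 k),
    fun i k => H.nt i ((h.triv cK cL hKL H.flat i).1 k), H.b1.mono hKL, H.b3.mono hKL⟩

theorem Adm.congr (cK : Cx r K) (H : Adm r K C b1 b3) (hC : Agree r K C C') :
    Adm r K C' b1 b3 := by
  exact ⟨H.flat.of_agree cK hC, fun k => H.odd (k.congr (fad_symm hC)),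
    fun i k => H.nt i (k.congr (fad_symm hC)), H.b1.congr cK hC, H.b3.congr cK hC⟩

theorem Adm.extend (cK : Cx r K) (cL : Cx r L) (hKL : K ⊆ L) (h : Eq1 r K L)
    (H : Adm r K C b1 b3) : ∃ C' b1' b3', Agree r K C C' ∧ Adm r L C' b1' b3' := by
  obtain ⟨C', k1, k2⟩ := h.ext Aff C H.flat
  obtain ⟨b1', k3⟩ := exists_bock cL k1 1
  obtain ⟨b3', k4⟩ := exists_bock cL k1 3
  exact ⟨C', b1', b3', k2, k1,
    fun k => H.odd (((h.geq cK cL hKL k1 flat2_zero).2 k).congr (fad_symm k2)),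
    fun i k => H.nt i (((h.triv cK cL hKL k1 i).2 k).congr (fad_symm k2)), k3, k4⟩

theorem fad_tc (h : GE r 2 K L) (hC : Agree r K C C') (hF : Flat r L C') {j : ZMod 8}
    {b b' : Finset α → F25} (hb : Bock r K j C b) (hb' : Bock r L j C' b') (p : Fin 4 → ZMod 8) :
    tc r K j C pj (cls r j p C b) = tc r L j C' pj (cls r j p C' b') := by
  rw [← tc_restrict (pJ := pj) h hF (cls_cls h.cL hF hb' p) fun _ => rfl,
    tc_bock h.cK (hF.mono h.sub) (hb.congr h.cK hC) (hb'.mono h.sub) p]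
  exact tc_congr h.cK hC fun m σ hσ => cls_congr h.cK hC hσ m

theorem fad_t {b1' b3' : Finset α → F25} (h : GE r 2 K L) (hC : Agree r K C C')
    (A : Adm r K C b1 b3) (A' : Adm r L C' b1' b3') :
    t1 r K C b1 = t1 r L C' b1' ∧ t3 r K C b3 = t3 r L C' b3' :=
  ⟨fad_tc h hC A'.flat A.b1 A'.b1 p1, fad_tc h hC A'.flat A.b3 A'.b3 p3⟩

theorem ge_tv_iff (h : GE r 2 K L) (hω : Flat2 r L ω) : TV r K ω ↔ TV r L ω := by
  constructor
  · intro H C b1 b3 A
    have A' := A.restrict h.cK h.cL h.sub h.eq1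
    obtain ⟨k1, k2⟩ := H C b1 b3 A'
    obtain ⟨e1, e3⟩ := fad_t h (fun _ _ _ _ => rfl) A' A
    rw [e1, e3] at k2
    exact ⟨(h.eq1.geq h.cK h.cL h.sub A.flat hω).1 k1, k2⟩
  · intro H C b1 b3 A
    obtain ⟨C', b1', b3', k, A'⟩ := A.extend h.cK h.cL h.sub h.eq1
    obtain ⟨k1, k2⟩ := H C' b1' b3' A'
    obtain ⟨e1, e3⟩ := fad_t h k A A'
    rw [← e1, ← e3] at k2
    exact ⟨((h.eq1.geq h.cK h.cL h.sub A'.flat hω).2 k1).congr (fad_symm k), k2⟩

theorem ge_ex_iff (h : GE r 2 K L) (hω : Flat2 r L ω) : EX r K ω ↔ EX r L ω := by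
  constructor
  · rintro ⟨C, b1, b3, A, k1, k2⟩
    obtain ⟨C', b1', b3', k, A'⟩ := A.extend h.cK h.cL h.sub h.eq1
    obtain ⟨e1, e3⟩ := fad_t h k A A'
    rw [e1, e3] at k2
    exact ⟨C', b1', b3', A', (h.eq1.geq h.cK h.cL h.sub A'.flat hω).1 (k1.congr k), k2⟩
  · rintro ⟨C, b1, b3, A, k1, k2⟩
    have A' := A.restrict h.cK h.cL h.sub h.eq1
    obtain ⟨e1, e3⟩ := fad_t h (fun _ _ _ _ => rfl) A' A
    rw [← e1, ← e3] at k2
    exact ⟨C, b1, b3, A', (h.eq1.geq h.cK h.cL h.sub A.flat hω).2 k1, k2⟩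

end Pool.Agent.Lib.MP_5ceaf9_gt
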