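import Pool.Agent.Lib.MP_5ceaf9_gt.FaD

/-! Cochains under order embeddings. -/

noncomputable section

namespace Pool.Agent.Lib.MP_5ceaf9_gt

open Classical Function

variable {α β : Type} [DecidableEq α] [DecidableEq β] [Nonempty α] [Nonempty β]
  {r : α → α → Prop} {r' : β → β → Prop} {K L : Finset (Finset α)} {σ ρ : Finset α}
  {C C' : α → α → Aff}

variable {f : α → β} {D : β → β → Aff}

/-- Pullback of a cochain. -/
def pb {A : Type} (f : α → β) (φ : Finset β → A) : Finset α → A := fun σ => φ (σ.image f)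

/-- Pullback of a cochain, cut off outside `L`. -/
def pbL {A : Type} [Zero A] (L : Finset (Finset α)) (f : α → β) (φ : Finset β → A) :
    Finset α → A := fun σ => if σ ∈ L then φ (σ.image f) else 0

/-- Pullback of a function of two variables. -/
def pb2 {T : Type} (f : α → β) (D : β → β → T) : α → α → T := fun a b => D (f a) (f b)

theorem fae_torW {ι κ F : Type} [Field F] [Fintype ι] [DecidableEq ι] [Fintype κ]
    [DecidableEq κ] {p : ι → Bool} {d : Matrix ι ι F} (e : κ ≃ ι) {t : F} (h : TorW p d t) :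
    TorW (fun x => p (e x)) (d.submatrix e e) t := by
  obtain ⟨s, h1, h2, h3, f, h4⟩ := h
  let g : ∀ b, {x // p (e x) = b} ≃ {x // p x = b} := fun b => e.subtypeEquiv fun _ => Iff.rfl
  refine ⟨s.submatrix e e, fun x y => h1 _ _, ?_, ?_, (g true).trans (f.trans (g false).symm), ?_⟩
  · rw [Matrix.submatrix_mul_equiv, h2]; rfl
  · rw [Matrix.submatrix_mul_equiv, Matrix.submatrix_mul_equiv]
    exact (congrArg (fun M => Matrix.submatrix M e e) h3).trans (Matrix.submatrix_one_equiv e)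
  · rw [h4, ← Matrix.det_submatrix_equiv_self (g true)]
    congr 2
    ext x y
    simp [g]

/-- Reindexing without any hypothesis: the two predicates `TorW` are equal as functions of `t`,
and `tor` is a function of that predicate. -/
theorem tor_reindex_any {ι κ F : Type} [Field F] [Fintype ι] [DecidableEq ι] [Fintype κ]
    [DecidableEq κ] (p : ι → Bool) (d : Matrix ι ι F) (e : κ ≃ ι) :
    tor (fun x => p (e x)) (d.submatrix e e) = tor p d := by
  have h : TorW (fun x => p (e x)) (d.submatrix e e) = TorW p d :=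
    funext fun t => propext ⟨fun h => by simpa using fae_torW e.symm h, fae_torW e⟩
  exact congrArg (fun P : F → Prop =>
    @dite _ (∃ t, P t) (Classical.propDecidable _) (fun h => h.choose) fun _ => 0) h

theorem Emb.dl_eq (h : Emb r r' L f) (hL : Cx r L) (hσ : σ ∈ L) {A : Type} [CommRing A] (z : A)
    (κ : β → β → ZMod 8) {φ : Finset β → A} (h0 : φ ∅ = 0) :
    dl r' z κ φ (σ.image f) = dl r z (pb2 f κ) (pb f φ) σ := by
  have hi := sxe_injOn h hL hσ
  unfold dl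
  rw [Finset.sum_image hi]
  refine Finset.sum_congr rfl fun v hv => ?_
  have e : (σ.image f).erase (f v) = (σ.erase v).image f := by
    ext y
    simp only [Finset.mem_erase, Finset.mem_image]
    constructor
    · rintro ⟨h1, a, ha, rfl⟩
      exact ⟨a, ⟨fun e => h1 (congrArg f e), ha⟩, rfl⟩
    · rintro ⟨a, ⟨h1, ha⟩, rfl⟩
      exact ⟨fun e => h1 (hi ha hv e), a, ha, rfl⟩
  rw [e, h.sg hL hσ hv, h.bt hL hσ, pb, pb2]
  rcases (σ.erase v).eq_empty_or_nonempty with h1 | h1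
  · rw [h1, Finset.image_empty, h0, mul_zero, mul_zero]
  · rw [h.bt hL (hL.down σ hσ _ (Finset.erase_subset _ _) h1)]

theorem Emb.cup_eq (h : Emb r r' L f) (hL : Cx r L) (hσ : σ ∈ L) {A : Type} [CommRing A] (z : A)
    (κ : β → β → ZMod 8) (φ ψ : Finset β → A) :
    cup r' z κ φ ψ (σ.image f) = cup r z (pb2 f κ) (pb f φ) (pb f ψ) σ := by
  unfold cup
  rw [Finset.sum_image (sxe_injOn h hL hσ)]
  refine Finset.sum_congr rfl fun v hv => ?_
  rw [h.bt hL hσ, Finset.filter_image, Finset.filter_image,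
    Finset.filter_congr fun u hu => h.rel σ hσ u hu v hv,
    Finset.filter_congr fun u hu => h.rel σ hσ v hv u hu]
  rfl

theorem Emb.yc_eq (h : Emb r r' L f) (hL : Cx r L) (hσ : σ ∈ L) (i : ZMod 8) :
    yc r' D i (σ.image f) = yc r (pb2 f D) i σ := by
  have h' : Emb (swap r) (swap r') L f := ⟨h.inj, fun σ hσ a ha b hb => h.rel σ hσ b hb a ha⟩
  rw [yc, yc, h.card hL hσ, h.bt hL hσ, h'.bt hL.swap hσ, pb2]

theorem Emb.cls_eq (h : Emb r r' L f) (hL : Cx r L) (hσ : σ ∈ L) (j : ZMod 8) (p : Fin 4 → ZMod 8)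
    (b : Finset β → F25) (m : Fin 6) :
    cls r' j p D b m (σ.image f) = cls r j p (pb2 f D) (pbL L f b) m σ := by
  have k : ∀ i, yy r' D j i (σ.image f) = yy r (pb2 f D) j i σ := fun i =>
    (h.cup_eq hL hσ _ _ _ _).trans (cup_congr (hL.po σ hσ) (hL.tot σ hσ)
      (fun τ h1 h2 => h.yc_eq hL (hL.down σ hσ τ h1 h2) _)
      (fun τ h1 h2 => h.yc_eq hL (hL.down σ hσ τ h1 h2) _) fun _ _ _ _ _ => rfl)
  fin_cases m
  exacts [h.yc_eq hL hσ j, k _, k _, k _, k _, (if_pos hσ).symm]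

theorem Emb.DF_eq (h : Emb r r' L f) (hL : Cx r L) (hσ : σ ∈ L) (hρ : ρ ∈ L) (j : ZMod 8) :
    DF r' j D (σ.image f) (ρ.image f) = DF r j (pb2 f D) σ ρ := by
  rw [DF, DF, DG, DG, h.Dz hL hσ hρ, h.bt hL hσ, h.bt hL hρ, pb2]

theorem Emb.sum_eq (h : Emb r r' L f) (hL : Cx r L) {A : Type} [AddCommMonoid A]
    (φ : Finset β → A) : ∑ τ ∈ im f L, φ τ = ∑ σ ∈ L, φ (σ.image f) := by
  exact Finset.sum_image fun σ hσ ρ hρ e => h.image_inj hL hσ hρ e

theorem Emb.tc_eq (h : Emb r r' L f) (hL : Cx r L) (hD : Flat r' (im f L) D) {J : Type} [Fintype J]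
    [DecidableEq J] (j : ZMod 8) (pJ : J → Bool) {φ : J → Finset β → F25}
    {ψ : J → Finset α → F25} (e : ∀ m, ∀ σ ∈ L, φ m (σ.image f) = ψ m σ) :
    tc r' (im f L) j D pJ φ = tc r L j (pb2 f D) pJ ψ := by
  have hb : Bijective fun σ : ↥L => (⟨σ.1.image f, Finset.mem_image_of_mem _ σ.2⟩ : ↥(im f L)) := by
    refine ⟨fun σ ρ e => Subtype.ext (h.image_inj hL σ.2 ρ.2 (congrArg Subtype.val e)), ?_⟩
    rintro ⟨τ, hτ⟩
    obtain ⟨σ, hσ, rfl⟩ := Finset.mem_image.1 hτ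
    exact ⟨⟨σ, hσ⟩, rfl⟩
  rw [tc, tc, ← tor_reindex_any _ _ ((Equiv.ofBijective _ hb).sumCongr (Equiv.refl J))]
  congr 1
  · funext x
    rcases x with σ | m
    · change ps (σ.1.image f) = ps σ.1
      rw [ps, ps, h.card hL σ.2]
    · rfl
  · refine Matrix.ext ?_
    rintro (σ | m) (ρ | m')
    exacts [h.DF_eq hL σ.2 ρ.2 j, e m' σ σ.2, rfl, rfl]

omit [Nonempty α] [Nonempty β] in
theorem fae_hom (h : Emb r r' L f) (hL : Cx r L) {A : Type} [Zero A] {n : ℕ} {φ : Finset β → A}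
    (hφ : Hom n φ) : Hom n (pbL L f φ) := fun σ h0 => by
  by_cases hσ : σ ∈ L
  · rw [← Finset.card_image_of_injOn (sxe_injOn h hL hσ)]
    exact hφ _ fun e => h0 ((if_pos hσ).trans e)
  · exact absurd (if_neg hσ) h0

theorem Emb.bock (h : Emb r r' L f) (hL : Cx r L) {j : ZMod 8} {b : Finset β → F25}
    (hb : Bock r' (im f L) j D b) : Bock r L j (pb2 f D) (pbL L f b) := by
  obtain ⟨h1, y, b', h2, h3⟩ := hb
  refine ⟨fae_hom h hL h1, pbL L f y, pb f b', fae_hom h hL h2, fun σ hσ => ?_⟩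
  obtain ⟨k1, k2, k3⟩ := h3 _ (Finset.mem_image_of_mem _ hσ)
  refine ⟨?_, k2.trans (if_pos hσ).symm, ?_⟩
  · rw [pbL, if_pos hσ, k1, h.yc_eq hL hσ]
  · rw [h.dl_eq hL hσ _ _ h2.empty] at k3
    rw [pb, ← k3]
    refine dl_congr (hL.po σ hσ) (hL.tot σ hσ) (fae_hom h hL h2).empty (fun τ hτ => ?_)
      fun a _ b _ _ => by rw [pb2, kj, kj, pb2]
    rcases τ.eq_empty_or_nonempty with rfl | h4
    · rw [(fae_hom h hL h2).empty, pb, Finset.image_empty, h2.empty]
    · rw [pbL, if_pos (hL.down σ hσ τ hτ h4), pb]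

theorem Emb.geq (h : Emb r r' L f) (hL : Cx r L) {ω : β → β → ZMod 2} :
    Geq r' (im f L) D ω ↔ Geq r L (pb2 f D) (pb2 f ω) := by
  obtain ⟨i, hi⟩ := h.exists_inv
  refine ⟨fun ⟨g, hg⟩ => ⟨fun a => g (f a), (h.agree hL).1 hg⟩,
    fun ⟨g, hg⟩ => ⟨fun x => g (i x), (h.agree hL).2 fun a b hab hr => ?_⟩⟩
  beta_reduce
  rw [(sxe2_pair hL hi hab).1, (sxe2_pair hL hi hab).2]
  exact hg a b hab hr

theorem Emb.triv (h : Emb r r' L f) (hL : Cx r L) (i : ZMod 8) :
    Triv r' (im f L) D i ↔ Triv r L (pb2 f D) i := by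
  obtain ⟨k, hi⟩ := h.exists_inv
  refine ⟨fun ⟨g, hg⟩ => ⟨fun a => g (f a), (h.agree hL).1 hg⟩,
    fun ⟨g, hg⟩ => ⟨fun x => g (k x), (h.agree hL).2 fun a b hab hr => ?_⟩⟩
  beta_reduce
  rw [(sxe2_pair hL hi hab).1, (sxe2_pair hL hi hab).2]
  exact hg a b hab hr

theorem Emb.adm (h : Emb r r' L f) (hL : Cx r L) {b1 b3 : Finset β → F25}
    (H : Adm r' (im f L) D b1 b3) : Adm r L (pb2 f D) (pbL L f b1) (pbL L f b3) := by
  exact ⟨(h.flat hL).1 H.flat, fun k => H.odd ((h.geq hL).2 k),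
    fun i k => H.nt i ((h.triv hL i).2 k), h.bock hL H.b1, h.bock hL H.b3⟩

/-- The inverse embedding. -/
theorem Emb.symm (h : Emb r r' L f) (hL : Cx r L) :
    ∃ g : β → α, Emb r' r (im f L) g ∧ im g (im f L) = L ∧
      ∀ a, ({a} : Finset α) ∈ L → g (f a) = a := by
  obtain ⟨g, hg⟩ := h.exists_inv
  exact ⟨g, sxe2_inv h hL hg, sxe2_im_im hL hg, hg⟩

end Pool.Agent.Lib.MP_5ceaf9_gt
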