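import Pool.Agent.Lib.MP_5ceaf9_gt.FaE

/-! The invariants under order embeddings and monotone maps. -/

noncomputable section

namespace Pool.Agent.Lib.MP_5ceaf9_gt

open Classical Function

variable {α β : Type} [DecidableEq α] [DecidableEq β] [Nonempty α] [Nonempty β]
  {r : α → α → Prop} {r' : β → β → Prop} {K L : Finset (Finset α)} {σ ρ : Finset α}
  {C C' : α → α → Aff}

variable {f : α → β} {A : Finset α} {B : Finset β}

omit [Nonempty α] in
theorem faf_geq {ω ω' : α → α → ZMod 2} (h : Geq r K C ω) (e : Agree r K ω ω') :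
    Geq r K C ω' := by
  obtain ⟨g, hg⟩ := h
  exact ⟨g, fun a b hm hab => (hg a b hm hab).trans (by simp only [e a b hm hab])⟩

theorem TV.congr {ω ω' : α → α → ZMod 2} (h : TV r K ω) (e : Agree r K ω ω') : TV r K ω' := by
  exact fun C b1 b3 H => ⟨faf_geq (h C b1 b3 H).1 e, (h C b1 b3 H).2⟩

theorem EX.congr {ω ω' : α → α → ZMod 2} (h : EX r K ω) (e : Agree r K ω ω') : EX r K ω' := by
  obtain ⟨C, b1, b3, H, h1, h2⟩ := h
  exact ⟨C, b1, b3, H, faf_geq h1 e, h2⟩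

theorem faf_t1 (h : Emb r r' L f) (hL : Cx r L) {D : β → β → Aff} (hD : Flat r' (im f L) D)
    (b : Finset β → F25) : t1 r' (im f L) D b = t1 r L (pb2 f D) (pbL L f b) :=
  h.tc_eq hL hD 1 pj fun m _ hσ => h.cls_eq hL hσ 1 p1 b m

theorem faf_t3 (h : Emb r r' L f) (hL : Cx r L) {D : β → β → Aff} (hD : Flat r' (im f L) D)
    (b : Finset β → F25) : t3 r' (im f L) D b = t3 r L (pb2 f D) (pbL L f b) :=
  h.tc_eq hL hD 3 pj fun m _ hσ => h.cls_eq hL hσ 3 p3 b m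

theorem faf_tv (h : Emb r r' L f) (hL : Cx r L) {ω : β → β → ZMod 2} (H : TV r L (pb2 f ω)) :
    TV r' (im f L) ω := by
  intro D b1 b3 hA
  rw [h.geq hL, faf_t1 h hL hA.flat, faf_t3 h hL hA.flat]
  exact H _ _ _ (h.adm hL hA)

theorem faf_ex (h : Emb r r' L f) (hL : Cx r L) {ω : β → β → ZMod 2} (H : EX r' (im f L) ω) :
    EX r L (pb2 f ω) := by
  obtain ⟨D, b1, b3, hA, H⟩ := H
  rw [h.geq hL, faf_t1 h hL hA.flat, faf_t3 h hL hA.flat] at H
  exact ⟨_, _, _, h.adm hL hA, H⟩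

theorem faf_agree (h : Emb r r' L f) (hL : Cx r L) {g : β → α}
    (hg : ∀ a, ({a} : Finset α) ∈ L → g (f a) = a) (ω : β → β → ZMod 2) :
    Agree r' (im f L) ω (pb2 g (pb2 f ω)) := by
  refine (h.agree hL).2 fun a b hm _ => ?_
  simp only [pb2, hg a (hL.down _ hm _ (by simp) (by simp)),
    hg b (hL.down _ hm _ (by simp) (by simp))]

/-- One direction by pullback, the other by pullback along the inverse embedding. -/
theorem Emb.tv_iff (h : Emb r r' L f) (hL : Cx r L) {ω : β → β → ZMod 2} :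
    TV r' (im f L) ω ↔ TV r L (pb2 f ω) := by
  refine ⟨fun H => ?_, faf_tv h hL⟩
  obtain ⟨g, hg, e, hi⟩ := h.symm hL
  have := faf_tv hg (h.cx hL) (H.congr (faf_agree h hL hi ω))
  rwa [e] at this

theorem Emb.ex_iff (h : Emb r r' L f) (hL : Cx r L) {ω : β → β → ZMod 2} :
    EX r' (im f L) ω ↔ EX r L (pb2 f ω) := by
  refine ⟨faf_ex h hL, fun H => ?_⟩
  obtain ⟨g, hg, e, hi⟩ := h.symm hL
  have H' : EX r (im g (im f L)) (pb2 f ω) := by rwa [e]
  exact (faf_ex hg (h.cx hL) H').congr fun a b hm hab => (faf_agree h hL hi ω a b hm hab).symm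

theorem faf_hom (h : Emb r r' L f) (hL : Cx r L) {n : ℕ} {φ : Finset β → F25} (H : Hom n φ) :
    Hom n (pbL L f φ) := by
  intro σ hσ
  unfold pbL at hσ
  split_ifs at hσ with e
  · rw [← h.card hL e]
    exact H _ hσ
  · exact absurd rfl hσ

theorem emb_pd (h : Emb r r' L f) (hL : Cx r L) (H : PD r' (im f L)) : PD r L := by
  obtain ⟨D, b1, b3, μ, ξ, hA, hD, ht⟩ := H
  have e : ∀ (φ : Finset β → F25), ∀ σ ∈ L, pbL L f φ σ = φ (σ.image f) := fun φ σ hσ => if_pos hσ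
  refine ⟨pb2 f D, pbL L f b1, pbL L f b3, pbL L f μ, fun m => pbL L f (ξ m), h.adm hL hA,
    ⟨faf_hom h hL hD.hom, fun σ => ?_, fun ρ hρ => ?_, fun m => faf_hom h hL (hD.deg m),
      fun m σ hσ => ?_, fun m m' => ?_⟩, ?_⟩
  · unfold pbL
    split_ifs
    · exact hD.rat _
    · exact zero_pow (by norm_num)
  · rw [← hD.cyc _ (Finset.mem_image_of_mem _ hρ), h.sum_eq hL]
    exact Finset.sum_congr rfl fun σ hσ => by rw [e μ σ hσ, h.DF_eq hL hσ hρ]
  · have h0 := (hD.deg m).empty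
    rw [← hD.coc m _ (Finset.mem_image_of_mem _ hσ), h.dl_eq hL hσ _ _ h0]
    refine dl_congr (hL.po σ hσ) (hL.tot σ hσ) (faf_hom h hL (hD.deg m)).empty (fun τ hτ => ?_)
      fun _ _ _ _ _ => rfl
    rcases τ.eq_empty_or_nonempty with rfl | hn
    · exact (faf_hom h hL (hD.deg m)).empty.trans h0.symm
    · exact e _ τ (hL.down σ hσ τ hτ hn)
  · rw [← hD.pair m m', ev, ev, h.sum_eq hL]
    refine Finset.sum_congr rfl fun σ hσ => ?_
    rw [e μ σ hσ, h.cup_eq hL hσ]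
    exact congrArg _ (cup_congr (hL.po σ hσ) (hL.tot σ hσ)
      (fun τ hτ hn => (h.cls_eq hL (hL.down σ hσ τ hτ hn) 3 p3 b3 m').symm)
      (fun τ hτ hn => e _ τ (hL.down σ hσ τ hτ hn)) fun _ _ _ _ _ => rfl)
  · rw [← ht]
    refine (h.tc_eq hL hA.flat 1 _ ?_).symm
    rintro (m | m) σ hσ
    · exact h.cls_eq hL hσ 1 p1 b1 m
    · exact (e _ σ hσ).symm

theorem emb_pd_iff (h : Emb r r' L f) (hL : Cx r L) : PD r' (im f L) ↔ PD r L := by
  refine ⟨emb_pd h hL, fun H => ?_⟩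
  obtain ⟨g, hg, e, -⟩ := h.symm hL
  exact emb_pd hg (h.cx hL) (by rwa [e])

theorem faf_flat (h : Mo r r' A B f) {ω : β → β → ZMod 2} (hω : Flat2 r' (OC r' B) ω) :
    Flat2 (cy r r' f) (OC (cy r r' f) (A.disjSum B)) (pb2 (Sum.elim f id) ω) :=
  (sxj_mo h ⟨h.pB, h.pB, fun _ h => h, fun _ _ _ _ h => h⟩ (g := id)).flat hω

theorem faf_inl (h : Mo r r' A B f) : Emb r (cy r r' f) (OC r A) Sum.inl ∧
    OC (cy r r' f) (A.image Sum.inl) = im Sum.inl (OC r A) :=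
  ⟨emb_OC Sum.inl_injective.injOn (fun _ _ _ _ => Iff.rfl) h.pA,
    OC_image Sum.inl_injective.injOn fun _ _ _ _ => Iff.rfl⟩

omit [Nonempty α] in
theorem faf_inr (h : Mo r r' A B f) : Emb r' (cy r r' f) (OC r' B) Sum.inr ∧
    OC (cy r r' f) (B.image Sum.inr) = im Sum.inr (OC r' B) :=
  ⟨emb_OC Sum.inr_injective.injOn (fun _ _ _ _ => Iff.rfl) h.pB,
    OC_image Sum.inr_injective.injOn fun _ _ _ _ => Iff.rfl⟩

/-- Use the cocycle `pb2 (Sum.elim f id) ω` on the cylinder. -/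
theorem me_tv_iff (h : ME r r' 2 A B f) {ω : β → β → ZMod 2} (hω : Flat2 r' (OC r' B) ω) :
    TV r (OC r A) (fun a b => ω (f a) (f b)) ↔ TV r' (OC r' B) ω := by
  have h1 := ge_tv_iff h.2.2.2 (faf_flat h.1 hω)
  have h2 := ge_tv_iff (h.1.gp_inr (l := 2)).2.2 (faf_flat h.1 hω)
  rw [(faf_inl h.1).2, (faf_inl h.1).1.tv_iff (cx_OC h.1.pA)] at h1
  rw [(faf_inr h.1).2, (faf_inr h.1).1.tv_iff (cx_OC h.1.pB)] at h2
  exact h1.trans h2.symm

theorem me_ex_iff (h : ME r r' 2 A B f) {ω : β → β → ZMod 2} (hω : Flat2 r' (OC r' B) ω) :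
    EX r (OC r A) (fun a b => ω (f a) (f b)) ↔ EX r' (OC r' B) ω := by
  have h1 := ge_ex_iff h.2.2.2 (faf_flat h.1 hω)
  have h2 := ge_ex_iff (h.1.gp_inr (l := 2)).2.2 (faf_flat h.1 hω)
  rw [(faf_inl h.1).2, (faf_inl h.1).1.ex_iff (cx_OC h.1.pA)] at h1
  rw [(faf_inr h.1).2, (faf_inr h.1).1.ex_iff (cx_OC h.1.pB)] at h2
  exact h1.trans h2.symm

end Pool.Agent.Lib.MP_5ceaf9_gt
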