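import Pool.Agent.Lib.MP_5ceaf9_gt.FaF

/-! Cycles and pairings. -/

noncomputable section

namespace Pool.Agent.Lib.MP_5ceaf9_gt

open Classical Function

variable {α β : Type} [DecidableEq α] [DecidableEq β] [Nonempty α] [Nonempty β]
  {r : α → α → Prop} {r' : β → β → Prop} {K L : Finset (Finset α)} {σ ρ : Finset α}
  {C C' : α → α → Aff}

variable {μ φ : Finset α → F25} {b b' : Finset α → F25} {ξ : Fin 6 → Finset α → F25}

omit [DecidableEq α] [Nonempty α] in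
theorem kj_four (a b : α) : kj 3 C a b + kj 1 C a b = kj 4 C a b := by
  unfold kj
  ring

/-- Entries of the matrices for the character four lie in the prime field. -/
theorem ph4_rat (x : ZG Aff) : ph 4 x ^ 5 = ph 4 x := by
  have h1 : (ph 4 x).im = 0 := by
    induction x using MonoidAlgebra.induction_linear with
    | zero => rw [map_zero]; rfl
    | add a b ha hb => rw [map_add, QuadraticAlgebra.im_add, ha, hb, add_zero]
    | single a n =>
      have h2 : ∀ k : ZMod 8, (pw zF (4 * k)).im = 0 := by decide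
      rw [ph_single, QuadraticAlgebra.im_mul, h2, QuadraticAlgebra.im_intCast]
      simp
  have h2 : ∀ a : ZMod 5, (⟨a, 0⟩ : F25) ^ 5 = ⟨a, 0⟩ := by decide
  have h3 : ph 4 x = ⟨(ph 4 x).re, 0⟩ := QuadraticAlgebra.ext rfl h1
  rw [h3]
  exact h2 _

theorem ev_dl (hK : Cx r K) (h0 : φ ∅ = 0) (j : ZMod 8) (μ : Finset α → F25) :
    ev K μ (dl r zF (kj j C) φ) = ∑ ρ ∈ K, (∑ σ ∈ K, μ σ * DF r j C σ ρ) * φ ρ := by
  simp only [Finset.sum_mul]
  rw [Finset.sum_comm]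
  refine Finset.sum_congr rfl fun σ hσ => ?_
  rw [← sum_DF hK hσ j h0, Finset.mul_sum]
  exact Finset.sum_congr rfl fun ρ _ => (mul_assoc _ _ _).symm

omit [DecidableEq α] in
theorem fag_cup0 (hK : Cx r K) (hσ : σ ∈ K) {κ : α → α → ZMod 8} {f g : Finset α → F25}
    (h : (∀ τ ∈ K, f τ = 0) ∨ ∀ τ ∈ K, g τ = 0) : cup r zF κ f g σ = 0 :=
  Finset.sum_eq_zero fun v hv => by
    have h1 : ∀ (q : α → Prop) [DecidablePred q], q v → σ.filter q ∈ K := fun q _ hq =>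
      hK.down σ hσ _ (Finset.filter_subset _ _) ⟨v, Finset.mem_filter.2 ⟨hv, hq⟩⟩
    rcases h with h | h
    · rw [h _ (h1 (fun u => r u v) ((hK.po σ hσ).refl v hv)), zero_mul, zero_mul]
    · rw [h _ (h1 _ ((hK.po σ hσ).refl v hv)), mul_zero]

theorem fag_leib (hK : Cx r K) (hC : Flat r K C) {η : Finset α → F25} (η0 : η ∅ = 0)
    (φ0 : φ ∅ = 0) (hφ : ∀ σ ∈ K, dl r zF (kj 1 C) φ σ = 0) (hσ : σ ∈ K) :
    dl r zF (kj 4 C) (cup r zF (kj 1 C) η φ) σ =
      cup r zF (kj 1 C) (dl r zF (kj 3 C) η) φ σ := by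
  have h1 : kj 4 C = fun a b => kj 3 C a b + kj 1 C a b :=
    funext fun a => funext fun b => (kj_four a b).symm
  rw [h1, leibniz zF8 (hK.po σ hσ) (hK.tot σ hσ) (hC.kf hK hσ 3) (hC.kf hK hσ 1) η0 φ0,
    fag_cup0 hK hσ (Or.inr hφ), add_zero]

/-- The product of a class for three with a cocycle for one is a cocycle for four. -/
theorem cup_coc (hK : Cx r K) (hC : Flat r K C) {η : Finset α → F25} (η0 : η ∅ = 0)
    (φ0 : φ ∅ = 0) (hη : ∀ σ ∈ K, dl r zF (kj 3 C) η σ = 0)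
    (hφ : ∀ σ ∈ K, dl r zF (kj 1 C) φ σ = 0) (hσ : σ ∈ K) :
    dl r zF (kj 4 C) (cup r zF (kj 1 C) η φ) σ = 0 := by
  rw [fag_leib hK hC η0 φ0 hφ hσ]
  exact fag_cup0 hK hσ (Or.inl hη)

theorem Dual.congr (hK : Cx r K) (H : Dual r K C b μ ξ) (hC : Agree r K C C') :
    Dual r K C' b μ ξ := by
  refine ⟨H.hom, H.rat, fun ρ hρ => ?_, H.deg, fun m σ hσ => ?_, fun m m' => ?_⟩
  · rw [← H.cyc ρ hρ]
    exact Finset.sum_congr rfl fun σ hσ => by rw [DF, DF, DG_congr hK hC hσ hρ]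
  · rw [← H.coc m σ hσ]
    exact (dl_congr (hK.po σ hσ) (hK.tot σ hσ) (H.deg m).empty (fun _ _ => rfl)
      (kj_congr hK hC hσ 1)).symm
  · rw [← H.pair m m']
    exact Finset.sum_congr rfl fun σ hσ => congrArg _ (cup_congr (hK.po σ hσ) (hK.tot σ hσ)
      (fun τ h1 h2 => cls_congr hK hC (hK.down σ hσ τ h1 h2) m') (fun _ _ _ => rfl)
      (kj_congr hK hC hσ 1)).symm

/-- The pairing does not see the choice of the Bockstein class. -/
theorem Dual.bock (hK : Cx r K) (hC : Flat r K C) (H : Dual r K C b μ ξ) (hb : Bock r K 3 C b)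
    (hb' : Bock r K 3 C b') : Dual r K C b' μ ξ := by
  refine ⟨H.hom, H.rat, H.cyc, H.deg, H.coc, fun m m' => ?_⟩
  obtain ⟨w, hw, e⟩ := cls_bock (p := p3) hK hb hb'
  have h1 : ev K μ (dl r zF (kj 4 C) (cup r zF (kj 1 C) (w m') (ξ m))) = 0 := by
    rw [ev_dl hK cup_empty]
    exact Finset.sum_eq_zero fun ρ hρ => by rw [H.cyc ρ hρ, zero_mul]
  rw [← H.pair m m', ← add_zero (ev K μ (cup r zF (kj 1 C) (cls r 3 p3 C b m') (ξ m))), ← h1, ev,
    ev, ev, ← Finset.sum_add_distrib]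
  refine Finset.sum_congr rfl fun σ hσ => ?_
  rw [← mul_add, fag_leib hK hC (hw m').empty (H.deg m).empty (H.coc m) hσ, ← cup_add_left]
  exact congrArg _ (cup_congr (hK.po σ hσ) (hK.tot σ hσ)
    (fun τ h1 h2 => e m' τ (hK.down σ hσ τ h1 h2)) (fun _ _ _ => rfl) fun _ _ _ _ _ => rfl)

theorem Dual.isCls (hK : Cx r K) (hC : Flat r K C) (H : Dual r K C b μ ξ) (hb : Bock r K 1 C b') :
    Cls r K 1 C (Sum.elim dg (fun m => 4 - dg m)) (Sum.elim (cls r 1 p1 C b') ξ) := by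
  have h1 := cls_cls hK hC hb p1
  refine ⟨?_, ?_, ?_⟩ <;> rintro (m | m)
  · exact h1.empty m
  · exact (H.deg m).empty
  · exact h1.card m
  · exact fun σ _ => H.deg m σ
  · exact h1.coc m
  · exact H.coc m

theorem pj12 (m : Fin 6 ⊕ Fin 6) :
    Sum.elim pj pj m = decide (Sum.elim dg (fun m => 4 - dg m) m % 2 = 1) := by
  revert m
  decide

theorem t12_congr (hK : Cx r K) (hC : Agree r K C C') {ξ' : Fin 6 → Finset α → F25}
    (e : ∀ m, ∀ σ ∈ K, ξ m σ = ξ' m σ) : t12 r K C b ξ = t12 r K C' b ξ' := by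
  refine tc_congr hK hC ?_
  rintro (m | m) σ hσ
  · exact cls_congr hK hC hσ m
  · exact e m σ hσ

theorem t12_bock (hK : Cx r K) (hC : Flat r K C) {b3 : Finset α → F25} (H : Dual r K C b3 μ ξ)
    (hb : Bock r K 1 C b) (hb' : Bock r K 1 C b') : t12 r K C b' ξ = t12 r K C b ξ := by
  obtain ⟨w, hw, e⟩ := cls_bock (p := p1) hK hb hb'
  have h1 : ∀ m, dg m - 1 + 1 = dg m := by decide
  refine tc_cob hK hC (H.isCls hK hC hb) pj12 (w := Sum.elim w fun _ τ => 0 * μ τ) ?_ ?_ ?_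
  · rintro (m | m)
    · exact (hw m).empty
    · exact zero_mul _
  · rintro (m | m) σ _ h
    · exact (hw m σ h).trans (h1 m)
    · exact absurd (zero_mul _) h
  · rintro (m | m) σ hσ
    · exact e m σ hσ
    · change ξ m σ = ξ m σ + dl r zF (kj 1 C) (fun τ => 0 * μ τ) σ
      rw [dl_smul, zero_mul, add_zero]

end Pool.Agent.Lib.MP_5ceaf9_gt
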