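import Pool.Agent.Lib.MP_5ceaf9_gt.FaG

/-! The invariant under good inclusions. -/

noncomputable section

namespace Pool.Agent.Lib.MP_5ceaf9_gt

open Classical Function

variable {α β : Type} [DecidableEq α] [DecidableEq β] [Nonempty α] [Nonempty β]
  {r : α → α → Prop} {r' : β → β → Prop} {K L : Finset (Finset α)} {σ ρ : Finset α}
  {C C' : α → α → Aff}

theorem fah_face {j : ZMod 8} (h : DF r j C σ ρ ≠ 0) : ∃ v ∈ σ, ρ = σ.erase v :=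
  Dz_ne fun e => h (by rw [DF_eq, e, Int.cast_zero, zero_mul])

theorem fah_zero (hK : Cx r K) (hL : Cx r L) (hσ : σ ∈ K) (hρ : ρ ∈ L) (hn : ρ ∉ K) (j : ZMod 8) :
    DF r j C σ ρ = 0 := by
  by_contra h
  obtain ⟨v, -, rfl⟩ := fah_face h
  exact hn (hK.down σ hσ _ (Finset.erase_subset _ _) (hL.ne _ hρ))

theorem fah_sq (hL : Cx r L) (hC : Flat r L C) (hσ : σ ∈ L) (hρ : ρ ∈ L) (j : ZMod 8) :
    ∑ τ ∈ L, DF r j C σ τ * DF r j C τ ρ = 0 := by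
  have h := congrFun₂ ((dm_DG_abs hL hC).map (ph j)).1 ⟨σ, hσ⟩ ⟨ρ, hρ⟩
  rw [← rs_DF, Matrix.mul_apply] at h
  exact (Finset.sum_coe_sort L fun τ => DF r j C σ τ * DF r j C τ ρ).symm.trans h

/-- a graded contraction, extended by zero -/
theorem fah_ctr (h : GE r 1 K L) (hC : Flat r L C) : ∃ s : Finset α → Finset α → ZG Aff,
    (∀ σ ρ, s σ ρ ≠ 0 → σ ∈ L \ K ∧ ρ ∈ L \ K ∧ σ.card + 1 = ρ.card) ∧
    ∀ j, ∀ σ ∈ L \ K, ∀ ρ ∈ L \ K, ∑ τ ∈ L \ K, DF r j C σ τ * ph j (s τ ρ) +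
      ∑ τ ∈ L \ K, ph j (s σ τ) * DF r j C τ ρ = if σ = ρ then 1 else 0 := by
  obtain ⟨s, gs, hs⟩ := ((h.gd Aff C hC).2.1 le_rfl).graded (gr_DG _ _)
  refine ⟨fun σ ρ => if h : σ ∈ L \ K ∧ ρ ∈ L \ K then s ⟨σ, h.1⟩ ⟨ρ, h.2⟩ else 0,
    fun σ ρ h0 => ?_, fun j σ hσ ρ hρ => ?_⟩
  · by_cases h1 : σ ∈ L \ K ∧ ρ ∈ L \ K
    · simp only [dif_pos h1] at h0
      have h2 : (σ.card : ℤ) - 1 = (ρ.card : ℤ) - 1 + -1 := gs _ _ h0
      exact ⟨h1.1, h1.2, by omega⟩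
    · exact absurd (dif_neg h1) h0
  · have h1 := congrArg (ph j) (congrFun₂ hs ⟨σ, hσ⟩ ⟨ρ, hρ⟩)
    rw [Matrix.add_apply, Matrix.mul_apply, Matrix.mul_apply, map_add, map_sum, map_sum,
      Matrix.one_apply, apply_ite (ph j), map_one, map_zero] at h1
    simp only [Subtype.mk.injEq] at h1
    rw [← h1, ← Finset.sum_coe_sort (L \ K), ← Finset.sum_coe_sort (L \ K)]
    refine congrArg₂ _ (Finset.sum_congr rfl fun τ _ => ?_) (Finset.sum_congr rfl fun τ _ => ?_)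
    · simp only [dif_pos (And.intro τ.2 hρ), map_mul]
      rfl
    · simp only [dif_pos (And.intro hσ τ.2), map_mul]
      rfl

omit [Nonempty α] in
theorem fah_sum (hKL : K ⊆ L) {u : Finset α → F25} (h : ∀ σ ∈ K, u σ = 0) :
    ∑ σ ∈ L \ K, u σ = ∑ σ ∈ L, u σ := by
  rw [← Finset.sum_sdiff hKL, Finset.sum_eq_zero h, add_zero]

omit [Nonempty α] in
theorem fah_sum' (hKL : K ⊆ L) {u : Finset α → F25} (h : ∀ σ ∈ L \ K, u σ = 0) :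
    ∑ σ ∈ K, u σ = ∑ σ ∈ L, u σ := by
  rw [← Finset.sum_sdiff hKL, Finset.sum_eq_zero h, zero_add]

/-- Extend by zero and correct by a graded contraction of the relative complex. -/
theorem GE.ext_cocycle (h : GE r 1 K L) (hC : Flat r L C) (j : ZMod 8) {n : ℕ}
    {φ : Finset α → F25} (hφ : Hom n φ) (hc : ∀ σ ∈ K, dl r zF (kj j C) φ σ = 0) :
    ∃ ψ : Finset α → F25, Hom n ψ ∧ (∀ σ ∈ K, ψ σ = φ σ) ∧
      ∀ σ ∈ L, dl r zF (kj j C) ψ σ = 0 := by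
  obtain ⟨s, s1, s2⟩ := fah_ctr h hC
  obtain ⟨e, he⟩ : ∃ e, e = dl r zF (kj j C) φ := ⟨_, rfl⟩
  obtain ⟨w, hw⟩ : ∃ w : Finset α → F25, ∀ σ, w σ = ∑ ρ ∈ L \ K, ph j (s σ ρ) * e ρ :=
    ⟨_, fun _ => rfl⟩
  have w1 : ∀ σ, w σ ≠ 0 → σ ∈ L \ K ∧ σ.card = n + 1 := fun σ h0 => by
    obtain ⟨ρ, -, h1⟩ := Finset.exists_ne_zero_of_sum_ne_zero (hw σ ▸ h0)
    have h2 := s1 σ ρ fun e => left_ne_zero_of_mul h1 (by rw [e, map_zero])
    have h3 := hφ.dl_hom ρ (he ▸ right_ne_zero_of_mul h1)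
    exact ⟨h2.1, by omega⟩
  have w2 : ∀ σ ∈ K, w σ = 0 := fun σ hσ =>
    not_not.1 fun h0 => (Finset.mem_sdiff.1 (w1 σ h0).1).2 hσ
  have w0 : w ∅ = 0 := Hom.empty (n := n) fun σ h0 => (w1 σ h0).2
  have e1 : ∀ τ ∈ L \ K, ∑ ρ ∈ L \ K, DF r j C τ ρ * e ρ = 0 := fun τ hτ => by
    have hτ' := (Finset.mem_sdiff.1 hτ).1
    rw [fah_sum h.sub fun ρ hρ => by rw [he, hc ρ hρ, mul_zero], he, sum_DF h.cL hτ' j dl_empty]
    exact dl_dl zF8 (h.cL.po τ hτ') (h.cL.tot τ hτ') (hC.kf h.cL hτ' j) hφ.empty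
  refine ⟨fun σ => φ σ + -1 * w σ, fun σ h0 => ?_, fun σ hσ => by
    simp only [w2 σ hσ, mul_zero, add_zero], fun σ hσ => ?_⟩
  · by_cases h1 : w σ = 0
    · exact hφ σ fun h2 => h0 (by simp only [h1, h2, mul_zero, add_zero])
    · exact (w1 σ h1).2
  rw [dl_add, dl_smul, ← he, neg_one_mul, ← sub_eq_add_neg, sub_eq_zero]
  by_cases hK : σ ∈ K
  · rw [he, hc σ hK, ← sum_DF h.cK hK j w0]
    exact (Finset.sum_eq_zero fun ρ hρ => by rw [w2 ρ hρ, mul_zero]).symm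
  have hX := Finset.mem_sdiff.2 ⟨hσ, hK⟩
  have e2 : ∑ ρ ∈ L \ K, (if σ = ρ then 1 else 0) * e ρ = e σ := by
    simp only [ite_mul, one_mul, zero_mul, Finset.sum_ite_eq, if_pos hX]
  rw [← sum_DF h.cL hσ j w0, ← fah_sum h.sub fun ρ hρ => by rw [w2 ρ hρ, mul_zero], ← e2,
    ← Finset.sum_congr rfl fun ρ hρ => congrArg (· * e ρ) (s2 j σ hX ρ hρ)]
  simp only [hw, add_mul, Finset.sum_add_distrib, Finset.sum_mul, Finset.mul_sum, mul_assoc]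
  rw [Finset.sum_comm, Finset.sum_comm (f := fun ρ τ => ph j (s σ τ) * (DF r j C τ ρ * e ρ)),
    Finset.sum_eq_zero (f := fun τ => ∑ ρ ∈ L \ K, ph j (s σ τ) * (DF r j C τ ρ * e ρ))
      fun τ hτ => by rw [← Finset.mul_sum, e1 τ hτ, mul_zero], add_zero]

theorem fah_rat : ∃ S : Subring F25, ∀ x, x ∈ S ↔ x ^ 5 = x := by
  have : CharP F25 5 := charP_of_injective_algebraMap (algebraMap (ZMod 5) F25).injective 5
  exact ⟨(frobenius F25 5).eqLocus (RingHom.id _), fun _ => Iff.rfl⟩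

/-- With a graded contraction `s` over the group ring put `ν = μ s` on `L \ K` and subtract the
boundary of `ν`. -/
theorem GE.push_cycle (h : GE r 1 K L) (hC : Flat r L C) {μ : Finset α → F25} (hμ : Hom 4 μ)
    (hr : ∀ σ, μ σ ^ 5 = μ σ) (hc : ∀ ρ ∈ L, ∑ σ ∈ L, μ σ * DF r 4 C σ ρ = 0) :
    ∃ μ' : Finset α → F25, Hom 4 μ' ∧ (∀ σ, μ' σ ^ 5 = μ' σ) ∧
      (∀ ρ ∈ K, ∑ σ ∈ K, μ' σ * DF r 4 C σ ρ = 0) ∧
      ∀ φ : Finset α → F25, φ ∅ = 0 → (∀ σ ∈ L, dl r zF (kj 4 C) φ σ = 0) →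
        ev K μ' φ = ev L μ φ := by
  obtain ⟨s, s1, s2⟩ := fah_ctr h hC
  obtain ⟨S, hS⟩ := fah_rat
  obtain ⟨ν, hν⟩ : ∃ ν : Finset α → F25, ∀ τ, ν τ = ∑ σ ∈ L \ K, μ σ * ph 4 (s σ τ) :=
    ⟨_, fun _ => rfl⟩
  have n1 : ∀ τ, ν τ ≠ 0 → τ ∈ L \ K ∧ τ.card = 6 := fun τ h0 => by
    obtain ⟨σ, -, h1⟩ := Finset.exists_ne_zero_of_sum_ne_zero (hν τ ▸ h0)
    have h2 := s1 σ τ fun e => right_ne_zero_of_mul h1 (by rw [e, map_zero])
    have h3 := hμ σ (left_ne_zero_of_mul h1)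
    exact ⟨h2.2.1, by omega⟩
  have n2 : ∀ τ ∈ K, ν τ = 0 := fun τ hτ =>
    not_not.1 fun h0 => (Finset.mem_sdiff.1 (n1 τ h0).1).2 hτ
  have e1 : ∀ τ ∈ L \ K, ∑ σ ∈ L \ K, μ σ * DF r 4 C σ τ = 0 := fun τ hτ => by
    have hτ' := Finset.mem_sdiff.1 hτ
    rw [fah_sum h.sub fun σ hσ => by rw [fah_zero h.cK h.cL hσ hτ'.1 hτ'.2, mul_zero], hc τ hτ'.1]
  obtain ⟨μ', hμ'⟩ : ∃ μ' : Finset α → F25, ∀ ρ, μ' ρ = μ ρ - ∑ τ ∈ L, ν τ * DF r 4 C τ ρ :=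
    ⟨_, fun _ => rfl⟩
  have m1 : ∀ ρ ∈ L \ K, μ' ρ = 0 := fun ρ hρ => by
    have e2 : ∑ σ ∈ L \ K, μ σ * (if σ = ρ then 1 else 0) = μ ρ := by
      simp only [mul_ite, mul_one, mul_zero, Finset.sum_ite_eq', if_pos hρ]
    rw [hμ', sub_eq_zero, ← fah_sum h.sub fun τ hτ => by rw [n2 τ hτ, zero_mul], ← e2,
      ← Finset.sum_congr rfl fun σ hσ => congrArg (μ σ * ·) (s2 4 σ hσ ρ hρ)]
    simp only [hν, mul_add, Finset.sum_add_distrib, Finset.sum_mul, Finset.mul_sum, ← mul_assoc]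
    rw [Finset.sum_comm, Finset.sum_eq_zero fun τ hτ => by rw [← Finset.sum_mul, e1 τ hτ, zero_mul],
      zero_add, Finset.sum_comm]
  have m2 : ∀ φ : Finset α → F25, (∀ τ ∈ L, ∑ ρ ∈ L, DF r 4 C τ ρ * φ ρ = 0) →
      ∑ ρ ∈ K, μ' ρ * φ ρ = ∑ ρ ∈ L, μ ρ * φ ρ := fun φ hφ => by
    rw [fah_sum' h.sub fun ρ hρ => by rw [m1 ρ hρ, zero_mul]]
    simp only [hμ', sub_mul, Finset.sum_sub_distrib, Finset.sum_mul, mul_assoc]
    rw [Finset.sum_comm, Finset.sum_eq_zero (f := fun τ => ∑ ρ ∈ L, ν τ * (DF r 4 C τ ρ * φ ρ))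
      fun τ hτ => by rw [← Finset.mul_sum, hφ τ hτ, mul_zero], sub_zero]
  refine ⟨μ', fun ρ h0 => ?_, fun ρ => (hS _).1 ?_, fun ρ hρ => ?_,
    fun φ h0 hφ => m2 φ fun τ hτ => (sum_DF h.cL hτ 4 h0).trans (hφ τ hτ)⟩
  · by_cases h1 : μ ρ = 0
    · rw [hμ', h1, zero_sub, neg_ne_zero] at h0
      obtain ⟨τ, -, h2⟩ := Finset.exists_ne_zero_of_sum_ne_zero h0
      obtain ⟨v, hv, rfl⟩ := fah_face (right_ne_zero_of_mul h2)
      rw [Finset.card_erase_of_mem hv, (n1 τ (left_ne_zero_of_mul h2)).2]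
    · exact hμ ρ h1
  · rw [hμ']
    refine sub_mem ((hS _).2 (hr ρ)) (sum_mem fun τ _ => mul_mem ?_ ((hS _).2 (ph4_rat _)))
    rw [hν]
    exact sum_mem fun σ _ => mul_mem ((hS _).2 (hr σ)) ((hS _).2 (ph4_rat _))
  · rw [m2 _ fun τ hτ => fah_sq h.cL hC hτ (h.sub hρ) 4, hc ρ (h.sub hρ)]

theorem ge_pd_down (h : GE r 2 K L) (H : PD r L) : PD r K := by
  obtain ⟨C, b1, b3, μ, ξ, ha, hd, ht⟩ := H
  obtain ⟨μ', m1, m2, m3, m4⟩ := (h.mono one_le_two).push_cycle ha.flat hd.hom hd.rat hd.cyc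
  refine ⟨C, b1, b3, μ', ξ, ha.restrict h.cK h.cL h.sub h.eq1,
    ⟨m1, m2, m3, hd.deg, fun m σ hσ => hd.coc m σ (h.sub hσ), fun m m' => ?_⟩,
    (tc_restrict h ha.flat (hd.isCls h.cL ha.flat ha.b1) pj12).trans ht⟩
  rw [m4 _ cup_empty fun σ hσ => cup_coc h.cL ha.flat (cls_empty ha.b3.1 m') (hd.deg m).empty
    (fun τ hτ => cls_coc h.cL ha.flat ha.b3 hτ m') (hd.coc m) hσ, hd.pair]

theorem ge_pd_up (h : GE r 2 K L) (H : PD r K) : PD r L := by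
  obtain ⟨C, b1, b3, μ, ξ, ha, hd, ht⟩ := H
  obtain ⟨C', b1', b3', hC, ha'⟩ := ha.extend h.cK h.cL h.sub h.eq1
  have hf := ha'.flat.mono h.sub
  have hd' := (hd.congr h.cK hC).bock h.cK hf (ha.b3.congr h.cK hC) (ha'.b3.mono h.sub)
  choose ξ' x1 x2 x3 using fun m =>
    (h.mono one_le_two).ext_cocycle ha'.flat 1 (hd'.deg m) (hd'.coc m)
  have e1 : ∀ φ : Finset α → F25, ∑ σ ∈ L, (if σ ∈ K then μ σ else 0) * φ σ = ∑ σ ∈ K, μ σ * φ σ :=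
    fun φ => by
      rw [← fah_sum' h.sub fun σ hσ => by rw [if_neg (Finset.mem_sdiff.1 hσ).2, zero_mul]]
      exact Finset.sum_congr rfl fun σ hσ => by rw [if_pos hσ]
  have hD : Dual r L C' b3' (fun σ => if σ ∈ K then μ σ else 0) ξ' := by
    refine ⟨fun σ h0 => hd.hom σ fun e => h0 (by simp only [e, ite_self]), fun σ => ?_,
      fun ρ hρ => ?_, x1, x3, fun m m' => ?_⟩
    · split_ifs
      exacts [hd.rat σ, zero_pow (by norm_num)]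
    · rw [e1]
      by_cases hK : ρ ∈ K
      · exact hd'.cyc ρ hK
      · exact Finset.sum_eq_zero fun σ hσ => by rw [fah_zero h.cK h.cL hσ hρ hK, mul_zero]
    · rw [ev, e1, ← hd'.pair m m']
      exact Finset.sum_congr rfl fun σ hσ => congrArg _ (cup_congr (h.cK.po σ hσ) (h.cK.tot σ hσ)
        (fun _ _ _ => rfl) (fun τ h1 h2 => x2 m τ (h.cK.down σ hσ τ h1 h2)) fun _ _ _ _ _ => rfl)
  refine ⟨C', b1', b3', _, ξ', ha', hD, ?_⟩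
  rw [← ht, t12_congr h.cK hC fun _ _ _ => rfl,
    ← t12_bock h.cK hf hd' (ha.b1.congr h.cK hC) (ha'.b1.mono h.sub),
    t12_congr h.cK (C' := C') (ξ' := ξ') (fun _ _ _ _ => rfl) fun m σ hσ => (x2 m σ hσ).symm]
  exact (tc_restrict h ha'.flat (hD.isCls h.cL ha'.flat ha'.b1) pj12).symm

/-- The opposite of the order of the cylinder restricts to `r` and `r'`. -/
theorem me_pd_iff {A : Finset α} {B : Finset β} {f : α → β}
    (h : ME (swap r) (swap r') 2 A B f) : PD r (OC r A) ↔ PD r' (OC r' B) := by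
  have hA : POn r A := h.1.pA.swap
  have hB : POn r' B := h.1.pB.swap
  have g1 := h.2.swap.2.2
  have g2 := (h.1.gp_inr (l := 2)).swap.2.2
  rw [OC_image (r := r) Sum.inl_injective.injOn fun _ _ _ _ => Iff.rfl] at g1
  rw [OC_image (r := r') Sum.inr_injective.injOn fun _ _ _ _ => Iff.rfl] at g2
  rw [← emb_pd_iff (emb_OC (r := r) (r' := swap (cy (swap r) (swap r') f))
      Sum.inl_injective.injOn (fun _ _ _ _ => Iff.rfl) hA) (cx_OC hA),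
    ← emb_pd_iff (emb_OC (r := r') (r' := swap (cy (swap r) (swap r') f))
      Sum.inr_injective.injOn (fun _ _ _ _ => Iff.rfl) hB) (cx_OC hB)]
  exact ⟨fun H => ge_pd_down g2 (ge_pd_up g1 H), fun H => ge_pd_down g1 (ge_pd_up g2 H)⟩

end Pool.Agent.Lib.MP_5ceaf9_gt
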