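import Pool.Agent.Lib.MP_5ceaf9_gt.FaA

/-! The Leibniz rule. -/

noncomputable section

namespace Pool.Agent.Lib.MP_5ceaf9_gt

open Classical Function

variable {α β : Type} [DecidableEq α] [DecidableEq β] [Nonempty α] [Nonempty β]
  {r : α → α → Prop} {r' : β → β → Prop} {K L : Finset (Finset α)} {σ ρ : Finset α}
  {C C' : α → α → Aff}

theorem fal_four {A : Type} [AddCommGroup A] {a b c d a' b' c' d' : A} (h1 : a = a') (h2 : b = b')
    (h3 : c = c') (h4 : -d = d') : a + b + (c - d) = c' + a' + (d' + b') := by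
  rw [← h1, ← h2, ← h3, ← h4]
  abel

omit [DecidableEq α] [Nonempty α] in
theorem fal_tot (ht : Tot r σ) (h : ρ ⊆ σ) : Tot r ρ := fun a ha b hb => ht a (h ha) b (h hb)

theorem fal_tel {A : Type} [AddCommGroup A] (E : Finset α → A) (hp : POn r σ) (ht : Tot r σ) :
    ∑ v ∈ σ, (E ((σ.filter (fun u => r u v)).erase v) - E (σ.filter (fun u => r u v))) =
      E ∅ - E σ := by
  induction σ using Finset.strongInduction with
  | H σ ih =>
    rcases σ.eq_empty_or_nonempty with rfl | hn
    · simp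
    obtain ⟨h1, h2⟩ := bt_spec hp.swap (fun a ha b hb => (ht a ha b hb).symm) hn
    generalize bt (swap r) σ = t at h1 h2
    have h3 : σ.filter (fun u => r u t) = σ := Finset.filter_true_of_mem h2
    have h4 := ih (σ.erase t) (Finset.erase_ssubset h1) (hp.mono (Finset.erase_subset _ _))
      (fal_tot ht (Finset.erase_subset _ _))
    have h5 : ∀ v ∈ σ.erase t, (σ.erase t).filter (fun u => r u v) = σ.filter (fun u => r u v) :=
      fun v hv => by
        obtain ⟨h6, h7⟩ := Finset.mem_erase.1 hv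
        rw [Finset.filter_erase]
        exact Finset.erase_eq_of_notMem fun h =>
          h6 (hp.anti v h7 t h1 (h2 v h7) (Finset.mem_filter.1 h).2)
    rw [Finset.sum_congr rfl fun v hv => by rw [h5 v hv]] at h4
    rw [← Finset.add_sum_erase σ _ h1, h3, h4]
    abel

omit [Nonempty α] in
theorem fal_sg_lo (hp : POn r σ) {u v : α} (hu : u ∈ σ) (hv : v ∈ σ) (h : r u v) :
    sg r (σ.filter (fun w => r w v)) u = sg r σ u := by
  rw [sg, sg, Finset.filter_filter, Finset.filter_congr fun w hw =>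
    and_iff_right_of_imp fun h1 => hp.trans w hw u hu v hv h1.1 h]

omit [DecidableEq α] [Nonempty α] in
theorem fal_up (hp : POn r σ) (ht : Tot r σ) {u v : α} (hu : u ∈ σ) (hv : v ∈ σ) :
    ¬ r u v ↔ u ≠ v ∧ r v u :=
  ⟨fun h => ⟨fun e => h (e ▸ hp.refl u hu), (ht u hu v hv).resolve_left h⟩,
    fun h h1 => h.1 (hp.anti u hu v hv h1 h.2)⟩

omit [Nonempty α] in
theorem fal_sg_self (v : α) : sg r σ v = (-1) ^ ((σ.filter (fun w => r w v)).erase v).card := by
  rw [sg]
  congr 2
  ext w
  simp only [Finset.mem_filter, Finset.mem_erase]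
  tauto

omit [Nonempty α] in
theorem fal_sg_up (hp : POn r σ) (ht : Tot r σ) {u v : α} (hu : u ∈ σ) (hv : v ∈ σ) (h : r v u) :
    sg r σ u = sg r σ v * sg r (σ.filter (fun w => r v w)) u := by
  rw [sg, sg, sg, ← pow_add, ← Finset.card_filter_add_card_filter_not
    (s := σ.filter (fun w => r w u ∧ w ≠ u)) (fun w => r v w), add_comm]
  congr 3
  · ext w
    simp only [Finset.mem_filter]
    refine and_assoc.trans (and_congr_right fun hw => ?_)
    rw [fal_up hp ht hv hw]
    refine ⟨fun h1 => ⟨h1.2.2, h1.2.1.symm⟩, fun h1 => ⟨⟨hp.trans w hw v hv u hu h1.1 h, ?_⟩,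
      h1.2.symm, h1.1⟩⟩
    rintro rfl
    exact h1.2 (hp.anti w hw v hv h1.1 h)
  · ext w
    simp only [Finset.mem_filter]
    tauto

/-- Expand both sides as double sums over pairs `(u, v)` of vertices (`u` deleted, `v` the cut
point). The terms with `u ≠ v` match. The diagonal term of the first product at the successor of
`v` cancels the diagonal term of the second product at `v`; the extreme ones contain `f ∅` or
`g ∅`. It may help to enumerate the chain by an order isomorphism with `Fin n`, or to induct by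
removing the top vertex. -/
theorem leibniz {A : Type} [CommRing A] {z : A} (hz : z ^ 8 = 1) {κ κ' : α → α → ZMod 8}
    {f g : Finset α → A} (hp : POn r σ) (ht : Tot r σ) (hκ : KF r κ σ) (hκ' : KF r κ' σ)
    (hf : f ∅ = 0) (hg : g ∅ = 0) :
    dl r z (fun a b => κ a b + κ' a b) (cup r z κ' f g) σ =
      cup r z κ' (dl r z κ f) g σ + cup r z κ' (sgn f) (dl r z κ' g) σ := by
  have h0 : ∀ {k : α → α → ZMod 8}, KF r k σ → ∀ a ∈ σ, k a a = 0 := fun hk a ha =>
    add_eq_left.1 (hk a ha a ha a ha (hp.refl a ha) (hp.refl a ha))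
  rcases σ.eq_empty_or_nonempty with rfl | hn
  · simp [dl, cup]
  obtain ⟨hm, hm'⟩ := bt_spec hp ht hn
  have h1 := fal_tel (fun T => (-1) ^ T.card * f T * pw z (κ' (bt r σ) (bt r (σ \ T))) * g (σ \ T))
    hp ht
  rw [hf, Finset.sdiff_self, hg, mul_zero, zero_mul, zero_mul, mul_zero, sub_zero] at h1
  rw [← add_zero (dl r z _ _ σ), ← h1]
  simp only [dl, cup, Finset.mul_sum]
  rw [Finset.sum_comm' (t' := σ) (s' := fun v => σ.erase v) (fun u v => by
    simp only [Finset.mem_erase]
    tauto), ← Finset.sum_add_distrib, ← Finset.sum_add_distrib]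
  refine Finset.sum_congr rfl fun v hv => ?_
  have hs := Finset.filter_subset (fun u => r u v) σ
  have hs' := Finset.filter_subset (fun u => r v u) σ
  have hL : v ∈ σ.filter (fun u => r u v) := Finset.mem_filter.2 ⟨hv, hp.refl v hv⟩
  have hU : v ∈ σ.filter (fun u => r v u) := Finset.mem_filter.2 ⟨hv, hp.refl v hv⟩
  have h2 : bt r (σ.filter (fun u => r u v)) = bt r σ :=
    bt_eq (hp.mono hs) (Finset.mem_filter.2 ⟨hm, hm' v hv⟩) fun u hu => hm' u (hs hu)
  have h3 : bt r (σ.filter (fun u => r v u)) = v :=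
    bt_eq (hp.mono hs') hU fun u hu => (Finset.mem_filter.1 hu).2
  have h4 : (σ.erase v).filter (fun u => ¬ r u v) = (σ.filter (fun u => r v u)).erase v := by
    ext u
    simp only [Finset.mem_filter, Finset.mem_erase]
    exact ⟨fun h => ⟨h.1.1, h.1.2, ((fal_up hp ht h.1.2 hv).1 h.2).2⟩,
      fun h => ⟨⟨h.1, h.2.1⟩, (fal_up hp ht h.2.1 hv).2 ⟨h.1, h.2.2⟩⟩⟩
  have h5 : σ \ σ.filter (fun u => r u v) = (σ.filter (fun u => r v u)).erase v := by
    rw [← Finset.filter_not, ← h4, Finset.filter_erase]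
    exact (Finset.erase_eq_of_notMem (by simp [hp.refl v hv])).symm
  have h6 : σ \ (σ.filter (fun u => r u v)).erase v = σ.filter (fun u => r v u) := by
    rw [Finset.sdiff_erase hv, h5, Finset.insert_erase hU]
  rw [← Finset.sum_filter_add_sum_filter_not (σ.erase v) (fun u => r u v), h4, Finset.filter_erase,
    h5, h6, h2, h3, ← Finset.add_sum_erase _ _ hL, ← Finset.add_sum_erase _ _ hU, add_mul, add_mul,
    Finset.sum_mul, Finset.sum_mul, sgn, ← Finset.card_erase_of_mem hL]
  refine fal_four (Finset.sum_congr rfl fun u hu => ?_) (Finset.sum_congr rfl fun u hu => ?_) ?_ ?_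
  · obtain ⟨h7, h8, h9⟩ := Finset.mem_erase.trans (and_congr_right' Finset.mem_filter) |>.1 hu
    have h10 : v ∈ σ.erase u := Finset.mem_erase.2 ⟨h7.symm, hv⟩
    obtain ⟨h11, h12⟩ := bt_spec (hp.mono (Finset.erase_subset u σ))
      (fal_tot ht (Finset.erase_subset u σ)) ⟨v, h10⟩
    have h13 := Finset.mem_of_mem_erase h11
    have h14 : bt r ((σ.filter (fun u => r u v)).erase u) = bt r (σ.erase u) :=
      bt_eq (hp.mono ((Finset.erase_subset _ _).trans hs)) (Finset.mem_erase.2
        ⟨Finset.ne_of_mem_erase h11, Finset.mem_filter.2 ⟨h13, h12 v h10⟩⟩)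
        fun w hw => h12 w (Finset.erase_subset_erase u hs hw)
    have h15 : u ∉ σ.filter (fun u => r v u) := fun h =>
      h7 (hp.anti u h8 v hv h9 (Finset.mem_filter.1 h).2)
    rw [Finset.filter_erase, Finset.filter_erase, Finset.erase_eq_of_notMem h15, h14,
      fal_sg_lo hp h8 hv h9, ← hκ' _ hm _ h13 v hv (hm' _ h13) (h12 v h10), pw_add hz, pw_add hz]
    ring
  · obtain ⟨h7, h8, h9⟩ := Finset.mem_erase.trans (and_congr_right' Finset.mem_filter) |>.1 hu
    have h10 : bt r (σ.erase u) = bt r σ :=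
      bt_eq (hp.mono (Finset.erase_subset u σ)) (Finset.mem_erase.2
        ⟨fun e => h7 (hp.anti u h8 v hv (e ▸ hm' v hv) h9), hm⟩)
        fun w hw => hm' w (Finset.mem_of_mem_erase hw)
    have h11 : bt r ((σ.filter (fun u => r v u)).erase u) = v :=
      bt_eq (hp.mono ((Finset.erase_subset _ _).trans hs')) (Finset.mem_erase.2 ⟨h7.symm, hU⟩)
        fun w hw => (Finset.mem_filter.1 (Finset.mem_of_mem_erase hw)).2
    have h12 : u ∉ σ.filter (fun u => r u v) := fun h =>
      h7 (hp.anti u h8 v hv (Finset.mem_filter.1 h).2 h9)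
    rw [Finset.filter_erase, Finset.filter_erase, Finset.erase_eq_of_notMem h12, h10, h11,
      h0 hκ _ hm, h0 hκ' _ hm, h0 hκ' v hv, add_zero, pw_zero, fal_sg_up hp ht h8 hv h9,
      fal_sg_self v]
    push_cast
    ring
  · rcases ((σ.filter (fun u => r u v)).erase v).eq_empty_or_nonempty with h7 | ⟨u, h7⟩
    · simp only [h7, hf, mul_zero, zero_mul]
    obtain ⟨h8, h9, h10⟩ := Finset.mem_erase.trans (and_congr_right' Finset.mem_filter) |>.1 h7
    have h11 : bt r ((σ.filter (fun u => r u v)).erase v) = bt r σ :=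
      bt_eq (hp.mono ((Finset.erase_subset _ _).trans hs)) (Finset.mem_erase.2
        ⟨fun e => h8 (hp.anti u h9 v hv h10 (e ▸ hm' u h9)), Finset.mem_filter.2 ⟨hm, hm' v hv⟩⟩)
        fun w hw => hm' w (hs (Finset.mem_of_mem_erase hw))
    rw [h11, h0 hκ _ hm, pw_zero, fal_sg_lo hp hv hv (hp.refl v hv), fal_sg_self v]
    push_cast
    ring
  · rcases ((σ.filter (fun u => r v u)).erase v).eq_empty_or_nonempty with h7 | h7
    · simp only [h7, hg, mul_zero, neg_zero]
    have h8 := (Finset.erase_subset v _).trans hs'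
    have h9 := (bt_spec (hp.mono h8) (fal_tot ht h8) h7).1
    have h10 : sg r (σ.filter (fun u => r v u)) v = 1 := by
      rw [sg, Finset.filter_false_of_mem fun w hw h => h.2
        (hp.anti w (hs' hw) v hv h.1 (Finset.mem_filter.1 hw).2), Finset.card_empty, pow_zero]
    rw [← hκ' _ hm v hv _ (h8 h9) (hm' v hv) (Finset.mem_filter.1 (Finset.mem_of_mem_erase h9)).2,
      pw_add hz, h10, ← Finset.card_erase_add_one hL]
    push_cast
    ring

end Pool.Agent.Lib.MP_5ceaf9_gt
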