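import Pool.Agent.Lib.MP_5ceaf9_gt.Alg

/-! The field with 25 elements, its lift modulo 25, and the affine group that carries a class
modulo eight together with eight twisted classes. -/

noncomputable section

namespace Pool.Agent.Lib.MP_5ceaf9_gt

instance fact5 : Fact (Nat.Prime 5) := ⟨by norm_num⟩

instance fact25 : Fact (∀ r : ZMod 5, r ^ 2 ≠ 2 + 0 * r) := ⟨by decide⟩

/-- The field with 25 elements. -/
abbrev F25 : Type := QuadraticAlgebra (ZMod 5) 2 0

/-- The lift of `F25` modulo 25. -/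
abbrev R25 : Type := QuadraticAlgebra (ZMod 25) 7 0

/-- A primitive eighth root of unity in `F25`. -/
def zF : F25 := ⟨0, 1⟩

/-- Its lift. -/
def zR : R25 := ⟨0, 1⟩

theorem zF8 : zF ^ 8 = 1 := by decide

theorem zR8 : zR ^ 8 = 1 := by decide

/-- Powers with exponent modulo eight. -/
def pw {A : Type} [Monoid A] (z : A) (k : ZMod 8) : A := z ^ k.val

theorem pw_add {A : Type} [Monoid A] {z : A} (h : z ^ 8 = 1) (a b : ZMod 8) :
    pw z (a + b) = pw z a * pw z b := by
  unfold pw
  rw [← pow_add, ZMod.val_add, ← pow_eq_pow_mod _ h]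

theorem pw_zero {A : Type} [Monoid A] (z : A) : pw z 0 = 1 := by simp [pw]

theorem pw_pow8 {A : Type} [Monoid A] {z : A} (h : z ^ 8 = 1) (a : ZMod 8) : pw z a ^ 8 = 1 := by
  unfold pw
  rw [← pow_mul, mul_comm, pow_mul, h, one_pow]

/-- Reduction modulo five. -/
def red : R25 →+* F25 where
  toFun x := ⟨ZMod.castHom (by norm_num : 5 ∣ 25) (ZMod 5) x.re,
    ZMod.castHom (by norm_num : 5 ∣ 25) (ZMod 5) x.im⟩
  map_one' := by decide
  map_mul' x y := by
    have h7 : ZMod.castHom (by norm_num : 5 ∣ 25) (ZMod 5) 7 = 2 := by decide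
    ext
    · simp only [QuadraticAlgebra.re_mul, map_add, map_mul, h7]
    · simp only [QuadraticAlgebra.im_mul, map_add, map_mul, map_zero]
  map_zero' := by decide
  map_add' x y := by
    ext
    · simp only [QuadraticAlgebra.re_add, map_add]
    · simp only [QuadraticAlgebra.im_add, map_add]

theorem red_zR : red zR = zF := by decide

/-- The affine group. -/
@[ext] structure Aff where
  /-- The class modulo eight. -/
  k : ZMod 8
  /-- The twisted classes. -/
  y : ZMod 8 → F25

instance : Mul Aff := ⟨fun a b => ⟨a.k + b.k, fun i => a.y i + pw zF (i * a.k) * b.y i⟩⟩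

instance : One Aff := ⟨⟨0, fun _ => 0⟩⟩

instance : Inv Aff := ⟨fun a => ⟨-a.k, fun i => -(pw zF (i * -a.k) * a.y i)⟩⟩

@[simp] theorem Aff.mul_k (a b : Aff) : (a * b).k = a.k + b.k := rfl

@[simp] theorem Aff.mul_y (a b : Aff) (i : ZMod 8) :
    (a * b).y i = a.y i + pw zF (i * a.k) * b.y i := rfl

@[simp] theorem Aff.one_k : (1 : Aff).k = 0 := rfl

@[simp] theorem Aff.one_y (i : ZMod 8) : (1 : Aff).y i = 0 := rfl

@[simp] theorem Aff.inv_k (a : Aff) : a⁻¹.k = -a.k := rfl

@[simp] theorem Aff.inv_y (a : Aff) (i : ZMod 8) :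
    a⁻¹.y i = -(pw zF (i * -a.k) * a.y i) := rfl

instance : Group Aff := Group.ofLeftAxioms
  (fun a b c => by
    refine Aff.ext (by simp [add_assoc]) (funext fun i => ?_)
    simp only [Aff.mul_y, Aff.mul_k, mul_add, pw_add zF8]
    ring)
  (fun a => Aff.ext (by simp) (funext fun i => by simp [pw_zero]))
  (fun a => Aff.ext (by simp) (funext fun i => by simp))

/-- The character number `j`. -/
def chi (j : ZMod 8) : Aff →* F25 where
  toFun a := pw zF (j * a.k)
  map_one' := by simp [pw_zero]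
  map_mul' a b := by simp [mul_add, pw_add zF8]

/-- The ring map defined by the character number `j`. -/
def ph (j : ZMod 8) : ZG Aff →+* F25 := (MonoidAlgebra.lift ℤ F25 Aff (chi j)).toRingHom

theorem ph_single (j : ZMod 8) (a : Aff) (n : ℤ) :
    ph j (MonoidAlgebra.single a n) = (n : F25) * pw zF (j * a.k) := by
  simp [ph, chi]

theorem ph_mem (j : ZMod 8) : ph j ∈ PhiG Aff F25 := by
  intro g
  rw [ph_single]
  simp [pw_pow8 zF8]

/-- Reduction modulo two. -/
def par2 : ZMod 8 →+* ZMod 2 := ZMod.castHom (by norm_num : 2 ∣ 8) (ZMod 2)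

end Pool.Agent.Lib.MP_5ceaf9_gt
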