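import Mathlib

/-! The two presentations define the same group. -/

namespace Pool.Agent.Lib.MP_5ceaf9_gt.G

variable {Γ : Type} [Group Γ]

/-- The conjugates of `a` by the powers of `h`. -/
def cj (h a : Γ) (i : ℤ) : Γ := h ^ i * a * (h ^ i)⁻¹

theorem cj_zero (h a : Γ) : cj h a 0 = a := by simp [cj]

theorem cj_add (h a : Γ) (i j : ℤ) : cj h a (i + j) = h ^ i * cj h a j * (h ^ i)⁻¹ := by
  simp only [cj, zpow_add, mul_inv_rev, mul_assoc]

theorem cj_zpow (h a : Γ) (i n : ℤ) : cj h a i ^ n = cj h (a ^ n) i := by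
  simp only [cj, conj_zpow]

theorem cj_pow (h a : Γ) (i : ℤ) (n : ℕ) : cj h a i ^ n = cj h (a ^ n) i := by
  simp only [cj, conj_pow]

theorem commute_conj {x y : Γ} (g : Γ) (h : Commute x y) :
    Commute (g * x * g⁻¹) (g * y * g⁻¹) := by
  have := h.map (MulAut.conj g)
  simpa using this

theorem commute_cj_shift {h a : Γ} {i j : ℤ} (k : ℤ) (c : Commute (cj h a i) (cj h a j)) :
    Commute (cj h a (k + i)) (cj h a (k + j)) := by
  rw [cj_add, cj_add]
  exact commute_conj _ c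

/-- The four relators common to both presentations. -/
structure Rel4 (h a : Γ) : Prop where
  c1 : Commute a (cj h a 1)
  c2 : Commute a (cj h a 2)
  c3 : Commute a (cj h a 3)
  r4 : h ^ 8 * (a * cj h a 4 * a⁻¹ * (cj h a 4)⁻¹) = 1

namespace Rel4

variable {h a : Γ}

theorem c01 (r : Rel4 h a) : Commute (cj h a 0) (cj h a 1) := by rw [cj_zero]; exact r.c1

theorem c02 (r : Rel4 h a) : Commute (cj h a 0) (cj h a 2) := by rw [cj_zero]; exact r.c2

theorem c03 (r : Rel4 h a) : Commute (cj h a 0) (cj h a 3) := by rw [cj_zero]; exact r.c3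

theorem h8_eq (r : Rel4 h a) : h ^ 8 = (a * cj h a 4 * a⁻¹ * (cj h a 4)⁻¹)⁻¹ :=
  eq_inv_of_mul_eq_one_left r.r4

theorem h8_a (r : Rel4 h a) : Commute (h ^ 8) a := by
  have a0 : Commute (cj h a 1) a := r.c1.symm
  have a4 : Commute (cj h a 1) (cj h a 4) := by simpa using commute_cj_shift 1 r.c03
  have c : Commute (cj h a 1) (h ^ 8) := by
    rw [r.h8_eq]
    exact (((a0.mul_right a4).mul_right a0.inv_right).mul_right a4.inv_right).inv_right
  have := commute_conj h⁻¹ c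
  have e1 : h⁻¹ * cj h a 1 * h⁻¹⁻¹ = a := by simp [cj, mul_assoc]
  have e2 : h⁻¹ * h ^ 8 * h⁻¹⁻¹ = h ^ 8 := by group
  rw [e1, e2] at this
  exact this.symm

theorem h8_cj (r : Rel4 h a) (i : ℤ) : Commute (h ^ 8) (cj h a i) := by
  have c : Commute (h ^ 8) (h ^ i) := ((Commute.refl h).pow_left 8).zpow_right i
  exact (c.mul_right r.h8_a).mul_right c.inv_right

theorem cj_add8 (r : Rel4 h a) (i : ℤ) : cj h a (8 + i) = cj h a i := by
  rw [cj_add]
  have : h ^ (8 : ℤ) = h ^ 8 := zpow_ofNat h 8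
  rw [this, (r.h8_cj i).eq, mul_inv_cancel_right]

theorem cj_add8k (r : Rel4 h a) (k i : ℤ) : cj h a (8 * k + i) = cj h a i := by
  induction k using Int.induction_on with
  | zero => simp
  | succ k ih => rw [← ih, ← r.cj_add8 (8 * k + i)]; congr 1; ring
  | pred k ih => rw [← ih, ← r.cj_add8]; congr 1; ring

theorem cj_mod (r : Rel4 h a) (i : ℤ) : cj h a (i % 8) = cj h a i := by
  rw [← r.cj_add8k (i / 8)]
  congr 1
  omega

theorem swap4 (r : Rel4 h a) (i : ℤ) :
    h ^ 8 * (cj h a i * cj h a (i + 4)) = cj h a (i + 4) * cj h a i := by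
  have e : h ^ 8 * (a * cj h a 4) = cj h a 4 * a := by
    have := r.r4
    calc h ^ 8 * (a * cj h a 4)
        = h ^ 8 * (a * cj h a 4 * a⁻¹ * (cj h a 4)⁻¹) * (cj h a 4 * a) := by group
      _ = _ := by rw [this, one_mul]
  have c : h ^ 8 * h ^ i = h ^ i * h ^ 8 := (((Commute.refl h).pow_left 8).zpow_right i).eq
  rw [cj_add h a i 4, cj]
  calc h ^ 8 * (h ^ i * a * (h ^ i)⁻¹ * (h ^ i * cj h a 4 * (h ^ i)⁻¹))
      = (h ^ 8 * h ^ i) * (a * cj h a 4) * (h ^ i)⁻¹ := by group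
    _ = h ^ i * (h ^ 8 * (a * cj h a 4)) * (h ^ i)⁻¹ := by rw [c]; simp only [mul_assoc]
    _ = _ := by rw [e]; group

theorem h16 (r : Rel4 h a) : h ^ 8 * h ^ 8 = 1 := by
  have e1 := r.swap4 0
  have e2 := r.swap4 4
  have e3 : cj h a (4 + 4) = cj h a 0 := r.cj_add8 0
  rw [e3] at e2
  rw [zero_add] at e1
  rw [← e1, ← mul_assoc] at e2
  exact mul_eq_right.1 e2

theorem commute_cj (r : Rel4 h a) {i j : ℤ} (hij : (j - i) % 8 ≠ 4) :
    Commute (cj h a i) (cj h a j) := by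
  have k : ∀ m : ℤ, m % 8 ≠ 4 → Commute (cj h a 0) (cj h a m) := by
    intro m hm
    rw [← r.cj_mod m]
    have : m % 8 = 0 ∨ m % 8 = 1 ∨ m % 8 = 2 ∨ m % 8 = 3 ∨ m % 8 = 5 ∨ m % 8 = 6 ∨ m % 8 = 7 := by
      omega
    have z : cj h a 0 = cj h a 8 := (r.cj_add8 0).symm
    rcases this with e | e | e | e | e | e | e <;> rw [e]
    · exact r.c01
    · exact r.c02
    · exact r.c03
    · rw [z]; exact (commute_cj_shift 5 r.c03).symm
    · rw [z]; exact (commute_cj_shift 6 r.c02).symm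
    · rw [z]; exact (commute_cj_shift 7 r.c01).symm
  simpa using commute_cj_shift i (k (j - i) hij)

theorem h8_of_commute (r : Rel4 h a) {i : ℤ} (c : Commute (cj h a i ^ 5) (cj h a (i + 4))) :
    h ^ 8 = 1 := by
  have e := r.swap4 i
  have cz := (r.h8_cj i).eq
  have k : ∀ n : ℕ, (h ^ 8) ^ n * (cj h a i ^ n * cj h a (i + 4)) =
      cj h a (i + 4) * cj h a i ^ n := by
    intro n
    induction n with
    | zero => simp
    | succ n ih =>
      have cn : h ^ 8 * cj h a i ^ n = cj h a i ^ n * h ^ 8 := ((r.h8_cj i).pow_right n).eq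
      calc (h ^ 8) ^ (n + 1) * (cj h a i ^ (n + 1) * cj h a (i + 4))
          = (h ^ 8) ^ n * ((h ^ 8 * cj h a i ^ n) * (cj h a i * cj h a (i + 4))) := by
            rw [pow_succ, pow_succ (cj h a i)]; simp only [mul_assoc]
        _ = (h ^ 8) ^ n * (cj h a i ^ n * cj h a (i + 4)) * cj h a i := by
            rw [cn, mul_assoc (cj h a i ^ n), e]; simp only [mul_assoc]
        _ = _ := by rw [ih, pow_succ (cj h a i), mul_assoc]
  have k5 := k 5
  rw [c.eq] at k5
  have h5 : (h ^ 8) ^ 5 = 1 := mul_eq_right.1 k5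
  have h2 := r.h16
  calc h ^ 8 = (h ^ 8) ^ 5 * ((h ^ 8 * h ^ 8) * (h ^ 8 * h ^ 8))⁻¹ := by group
    _ = 1 := by rw [h5, h2]; simp

theorem commute_all (r : Rel4 h a) (h8 : h ^ 8 = 1) (i j : ℤ) :
    Commute (cj h a i) (cj h a j) := by
  by_cases e : (j - i) % 8 = 4
  · have e1 := r.swap4 i
    rw [h8, one_mul] at e1
    have : cj h a j = cj h a (i + 4) := by
      rw [← r.cj_mod j, ← r.cj_mod (i + 4)]
      congr 1
      omega
    rw [this]
    exact e1
  · exact r.commute_cj e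

/-- the first presentation -/
theorem h8_X (r : Rel4 h a) (h5 : a ^ 5 = 1) : h ^ 8 = 1 := by
  apply r.h8_of_commute (i := 0)
  rw [cj_zero, h5]
  exact Commute.one_left _

/-- the second presentation: a relator with one factor `a_1 ^ (-5)` -/
theorem h8_Y (r : Rel4 h a) {u w : Γ} (hu : Commute u (cj h a 5)) (hw : Commute w (cj h a 5))
    (e : u * (cj h a 1 ^ 5)⁻¹ * w = 1) : h ^ 8 = 1 := by
  apply r.h8_of_commute (i := 1)
  have : cj h a 1 ^ 5 = w * u := by
    calc cj h a 1 ^ 5 = w * (u * (cj h a 1 ^ 5)⁻¹ * w)⁻¹ * u := by group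
      _ = _ := by rw [e]; simp
  rw [this]
  exact hw.mul_left hu

end Rel4

/-- The last relator of the second presentation, in terms of `b = a ^ 5`. -/
def relY (h b : Γ) : Γ :=
  cj h b 0 * cj h b 0 * (cj h b 1)⁻¹ * cj h b 3 * (cj h b 4)⁻¹ * cj h b 5 * (cj h b 7)⁻¹

theorem relY_one (h : Γ) : relY h 1 = 1 := by simp [relY, cj]

/-- `v` is a unit of the group ring of the cyclic group of order eight. -/
theorem unit_v {h b : Γ} (c : ∀ i j, Commute (cj h b i) (cj h b j))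
    (p : ∀ i, cj h b (8 + i) = cj h b i) (e : relY h b = 1) : b = 1 := by
  let H := Subgroup.closure (Set.range (cj h b))
  have hc : IsMulCommutative H := Subgroup.isMulCommutative_closure (by
    rintro _ ⟨i, rfl⟩ _ ⟨j, rfl⟩
    exact (c i j).eq)
  let _ : CommGroup H := { (inferInstance : Group H) with mul_comm := hc.is_comm.comm }
  let x : ℤ → Additive H := fun i =>
    Additive.ofMul ⟨cj h b i, Subgroup.subset_closure ⟨i, rfl⟩⟩
  have px : ∀ i, x (8 + i) = x i := fun i => by simp only [x, p]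
  have E : ∀ k, x (k + 0) + x (k + 0) - x (k + 1) + x (k + 3) - x (k + 4) + x (k + 5) -
      x (k + 7) = 0 := by
    intro k
    have : h ^ k * relY h b * (h ^ k)⁻¹ = 1 := by rw [e]; simp
    apply Additive.toMul.injective
    apply Subtype.ext
    simp only [x, sub_eq_add_neg, toMul_add, toMul_neg, toMul_ofMul, toMul_zero,
      Subgroup.coe_mul, Subgroup.coe_inv, Subgroup.coe_one, cj_add]
    rw [← this, relY]
    group
  have E0 := E 0
  have E1 := E 1
  have E7 := E 7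
  have E3 := E 3
  have E4 := E 4
  have E5 := E 5
  have p0 : x 8 = x 0 := px 0
  have p1 : x 9 = x 1 := px 1
  have p2 : x 10 = x 2 := px 2
  have p3 : x 11 = x 3 := px 3
  have p4 : x 12 = x 4 := px 4
  have p6 : x 14 = x 6 := px 6
  norm_num only at E0 E1 E7 E3 E4 E5
  rw [p0] at E1 E7 E3 E4 E5
  rw [p1] at E4 E5
  rw [p2] at E7 E3 E5
  rw [p3] at E7 E4
  rw [p4] at E7 E5
  rw [p6] at E7
  have z : x 0 = 0 := by
    have := congrArg₂ (· - ·) (congrArg₂ (· + ·) (congrArg₂ (· + ·) E0 E0)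
      (congrArg₂ (· + ·) E1 E7)) (congrArg₂ (· + ·) E3 (congrArg₂ (· + ·) E4 E5))
    simp only [add_zero, sub_zero] at this
    rw [← this]
    abel
  have := congrArg (fun t : Additive H => ((Additive.toMul t : H) : Γ)) z
  simpa [x, cj_zero] using this

theorem Rel4.of_Y {h a : Γ} (r : Rel4 h a) (e : relY h (a ^ 5) = 1) : a ^ 5 = 1 := by
  have c5 : ∀ i : ℤ, (5 - i) % 8 ≠ 4 → Commute (cj h (a ^ 5) i) (cj h a 5) := fun i hi => by
    rw [← cj_pow]
    exact (r.commute_cj hi).pow_left 5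
  have h8 : h ^ 8 = 1 := by
    refine r.h8_Y (u := cj h (a ^ 5) 0 * cj h (a ^ 5) 0) (w := cj h (a ^ 5) 3 *
      (cj h (a ^ 5) 4)⁻¹ * cj h (a ^ 5) 5 * (cj h (a ^ 5) 7)⁻¹) ?_ ?_ ?_
    · exact (c5 0 (by decide)).mul_left (c5 0 (by decide))
    · exact (((c5 3 (by decide)).mul_left (c5 4 (by decide)).inv_left).mul_left
        (c5 5 (by decide))).mul_left (c5 7 (by decide)).inv_left
    · rw [← e, relY, cj_pow]
      simp only [mul_assoc]
  refine unit_v (h := h) (fun i j => ?_) (fun i => ?_) e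
  · rw [← cj_pow, ← cj_pow]
    exact ((r.commute_all h8 i j).pow_left 5).pow_right 5
  · rw [← cj_pow, ← cj_pow, r.cj_add8]

theorem Rel4.iff_XY {h a : Γ} (r : Rel4 h a) : relY h (a ^ 5) = 1 ↔ a ^ 5 = 1 :=
  ⟨r.of_Y, fun e => by rw [e, relY_one]⟩

end Pool.Agent.Lib.MP_5ceaf9_gt.G
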