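import Pool.Agent.Lib.MP_5ceaf9_gt.GT

/-! Classification of flat cocycles. -/

noncomputable section

namespace Pool.Agent.Lib.MP_5ceaf9_gt.G

open Function

namespace Tab

variable {T : Tab} {Γ : Type} [Group Γ] {c : ℕ → ℕ → Γ} {an : ℕ → ℕ}

theorem gc_okK (hk : T.okK an = true) : 7 ≤ T.N ∧
    (an 0 = 0 ∧ an 1 = 0 ∧ an 2 = 1 ∧ an 3 = 2 ∧ an 4 = 0 ∧ an 5 = 4 ∧ an 6 = 5) ∧
    (T.le 0 1 ∧ T.le 2 1 ∧ T.le 2 3 ∧ T.le 0 3 ∧ T.le 0 4 ∧ T.le 5 4 ∧ T.le 5 6 ∧ T.le 0 6) ∧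
    (T.wd 1 0 = [] ∧ T.wd 1 2 = [] ∧ T.wd 3 2 = [] ∧ T.wd 3 0 = [(false, 1)] ∧ T.wd 4 0 = [] ∧
      T.wd 4 5 = [] ∧ T.wd 6 5 = [] ∧ T.wd 6 0 = [(true, 1)]) ∧
    ∀ y < T.N, y ≠ 0 → an y < y ∧ (T.le (an y) y ∨ T.le y (an y)) := by
  simp only [okK, allB_iff, Bool.and_eq_true, Bool.or_eq_true, decide_eq_true_eq,
    List.cons.injEq, and_true] at hk
  obtain ⟨⟨⟨⟨⟨⟨⟨⟨⟨⟨⟨⟨h1, -⟩, h2⟩, l1⟩, l2⟩, l3⟩, l4⟩, l5⟩, l6⟩, l7⟩, l8⟩, h3⟩, h4⟩ := hk
  exact ⟨h1, h2, ⟨l1, l2, l3, l4, l5, l6, l7, l8⟩, h3, fun y hy h0 => (h4 y hy).resolve_left h0⟩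

theorem gc_tri (H A : Γ) (a b d : ℕ) : ew H A (nf false (T.tri a b d)) = 1 ↔
    T.std H A a b * T.std H A b d = T.std H A a d := by
  rw [ew_nf_false, tri, ew_append, ew_append, ew_winv, mul_inv_eq_one, std, std, std,
    ← mul_inv_rev, inv_inj]

theorem gc_mul (H A : Γ) {a b d : ℕ} (h : T.mulB a b d = true) :
    T.le a b ∧ T.le b d ∧ T.std H A a b * T.std H A b d = T.std H A a d := by
  simp only [mulB, Bool.and_eq_true, decide_eq_true_eq] at h
  exact ⟨h.1.1, h.1.2, (gc_tri H A a b d).1 (by rw [h.2, ew])⟩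

theorem gc_hol (g : ℕ → Γ) (c : ℕ → ℕ → Γ) : holH (gau g c) = g 0 * holH c * (g 0)⁻¹ ∧
    holA (gau g c) = g 0 * holA c * (g 0)⁻¹ := by
  constructor
  · simp only [holH, gau]
    group
  · simp only [holA, gau]
    group

/-- A gauge that is standard along the tree: induction on a bound `n` for `y`
(`Function.update`). -/
theorem exists_tree (h : T.okP = true) (hk : T.okK an = true) (H A γ : Γ) (c : ℕ → ℕ → Γ) :
    ∃ g : ℕ → Γ, g 0 = γ ∧ ∀ y < T.N, y ≠ 0 →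
      (T.le (an y) y → gau g c (an y) y = T.std H A (an y) y) ∧
      (T.le y (an y) → gau g c y (an y) = T.std H A y (an y)) := by
  obtain ⟨-, -, -, -, ht⟩ := gc_okK hk
  suffices k : ∀ n, ∃ g : ℕ → Γ, g 0 = γ ∧ ∀ y < n, y < T.N → y ≠ 0 →
      (T.le (an y) y → gau g c (an y) y = T.std H A (an y) y) ∧
      (T.le y (an y) → gau g c y (an y) = T.std H A y (an y)) by
    obtain ⟨g, h1, h2⟩ := k T.N
    exact ⟨g, h1, fun y hy => h2 y hy hy⟩
  intro n
  induction n with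
  | zero => exact ⟨fun _ => γ, rfl, fun y hy => absurd hy (Nat.not_lt_zero y)⟩
  | succ n ih =>
    obtain ⟨g, h1, h2⟩ := ih
    by_cases hn : n < T.N ∧ n ≠ 0
    swap
    · refine ⟨g, h1, fun y hy hN h0 => h2 y ?_ hN h0⟩
      rcases Nat.lt_succ_iff_lt_or_eq.1 hy with e | rfl
      · exact e
      · exact absurd ⟨hN, h0⟩ hn
    have ha := (ht n hn.1 hn.2).1
    obtain ⟨v, hv⟩ : ∃ v : Γ,
        (T.le (an n) n → g (an n) * c (an n) n * v⁻¹ = T.std H A (an n) n) ∧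
        (T.le n (an n) → v * c n (an n) * (g (an n))⁻¹ = T.std H A n (an n)) := by
      by_cases e : T.le (an n) n
      · exact ⟨(T.std H A (an n) n)⁻¹ * g (an n) * c (an n) n, fun _ => by group,
          fun e' => absurd ((pon h).anti _ (mem_el.2 (ha.trans hn.1)) _ (mem_el.2 hn.1) e e') ha.ne⟩
      · exact ⟨T.std H A n (an n) * g (an n) * (c n (an n))⁻¹, fun e' => absurd e' e,
          fun _ => by group⟩
    refine ⟨update g n v, (update_of_ne hn.2.symm _ _).trans h1, fun y hy hN h0 => ?_⟩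
    rcases Nat.lt_succ_iff_lt_or_eq.1 hy with e | rfl
    · have := h2 y e hN h0
      simp only [gau] at this ⊢
      rwa [update_of_ne e.ne, update_of_ne ((ht y hN h0).1.trans e).ne]
    · simp only [gau]
      rwa [update_self, update_of_ne ha.ne]

/-- Strong induction on the time of a pair. -/
theorem classify (h : T.okP = true) (hk : T.okK an = true) {tw : ℕ → ℕ → ℕ × ℕ}
    (hc : T.okC an tw = true) (hf : Flat T.le (OC T.le T.el) c) (γ : Γ) :
    ∃ g : ℕ → Γ, g 0 = γ ∧ T.Nrm (γ * holH c * γ⁻¹) (γ * holA c * γ⁻¹) g c := by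
  obtain ⟨g, g0, ht⟩ := exists_tree h hk (γ * holH c * γ⁻¹) (γ * holA c * γ⁻¹) γ c
  refine ⟨g, g0, ?_⟩
  obtain ⟨eH, eA⟩ := gc_hol g c
  rw [g0] at eH eA
  generalize γ * holH c * γ⁻¹ = H at *
  generalize γ * holA c * γ⁻¹ = A at *
  have hf' := hf.gau g
  unfold Nrm
  generalize gau g c = c' at *
  obtain ⟨h7, ⟨a0, a1, a2, a3, a4, a5, a6⟩, ⟨l1, l2, l3, -, l5, l6, l7, -⟩,
    ⟨w1, w2, w3, w4, w5, w6, w7, w8⟩, -⟩ := gc_okK hk
  have po := pon h
  have fl : ∀ {a b d : ℕ}, d < T.N → T.le a b → T.le b d → c' a b * c' b d = c' a d :=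
    fun hd hab hbd => (flat_OC po).1 hf' _ (mem_el.2 (lt_of_le h (lt_of_le h hd hbd) hab)) _
      (mem_el.2 (lt_of_le h hd hbd)) _ (mem_el.2 hd) hab hbd
  have tr : ∀ {a b d : ℕ}, d < T.N → T.le a b → T.le b d → T.le a d :=
    fun hd hab hbd => po.trans _ (mem_el.2 (lt_of_le h (lt_of_le h hd hbd) hab)) _
      (mem_el.2 (lt_of_le h hd hbd)) _ (mem_el.2 hd) hab hbd
  have rf : ∀ y < T.N, c' y y = T.std H A y y := fun y hy => by
    rw [hf'.refl (cx_OC po) ((single_mem_OC po).2 (mem_el.2 hy)), std, wd_self h hy, ew, inv_one]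
  have s3 : c' 0 3 = T.std H A 0 3 := by
    have e1 := (ht 1 (by omega) (by omega)).1
    have e2 := (ht 2 (by omega) (by omega)).2
    have e3 := (ht 3 (by omega) (by omega)).1
    rw [a1] at e1
    rw [a2] at e2
    rw [a3] at e3
    rw [holH, e1 l1, e2 l2, e3 l3] at eH
    simp only [std, w1, w2, w3, w4, ew] at eH ⊢
    simp [← eH]
  have s6 : c' 0 6 = T.std H A 0 6 := by
    have e1 := (ht 4 (by omega) (by omega)).1
    have e2 := (ht 5 (by omega) (by omega)).2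
    have e3 := (ht 6 (by omega) (by omega)).1
    rw [a4] at e1
    rw [a5] at e2
    rw [a6] at e3
    rw [holA, e1 l5, e2 l6, e3 l7] at eA
    simp only [std, w5, w6, w7, w8, ew] at eA ⊢
    simp [← eA]
  simp only [okC, allB_iff, List.all_eq_true, Bool.and_eq_true, Bool.or_eq_true,
    decide_eq_true_eq] at hc
  suffices k : ∀ n, ∀ y < T.N, ∀ x, T.le x y → (tw y x).1 = n → c' x y = T.std H A x y from
    fun y hy x e => k _ y hy x e rfl
  intro n
  induction n using Nat.strong_induction_on with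
  | _ n ih =>
  rintro y hy x e rfl
  have hx := lt_of_le h hy e
  obtain ⟨t, h1, rfl⟩ := le_iff.1 e
  rcases hc y hy t h1 with (((((k | k) | k) | ⟨k, k'⟩) | ⟨⟨k, k1⟩, k2⟩) | ⟨⟨k, k1⟩, k2⟩) |
    ⟨⟨⟨hw, k⟩, k1⟩, k2⟩
  · rw [k]
    exact rf y hy
  · by_cases h0 : y = 0
    · rw [← k, h0, a0]
      exact rf 0 (by omega)
    · rw [← k] at e ⊢
      exact (ht y hy h0).1 e
  · by_cases h0 : t.1 = 0
    · rw [← k, h0, a0]
      exact rf 0 (by omega)
    · rw [← k] at e ⊢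
      exact (ht _ hx h0).2 e
  · rw [k]
    rcases k' with rfl | rfl
    · exact s3
    · exact s6
  · obtain ⟨m1, m2, m3⟩ := gc_mul H A k
    have := fl hy m1 m2
    rw [ih _ k1 _ hx _ m1 rfl, ih _ k2 _ hy _ (tr hy m1 m2) rfl, ← m3] at this
    exact mul_left_cancel this
  · obtain ⟨m1, m2, m3⟩ := gc_mul H A k
    rw [← fl hy m1 m2, ih _ k1 _ (lt_of_le h hy m2) _ m1 rfl, ih _ k2 _ hy _ m2 rfl, m3]
  · obtain ⟨m1, m2, m3⟩ := gc_mul H A k
    have := fl hw m1 m2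
    rw [ih _ k1 _ hw _ (tr hw m1 m2) rfl, ih _ k2 _ hw _ m2 rfl, ← m3] at this
    exact mul_right_cancel this

theorem Nrm.tri {H A : Γ} {g : ℕ → Γ} (hn : T.Nrm H A g c) (h : T.okP = true)
    (hf : Flat T.le (OC T.le T.el) c) {a b d : ℕ} (hd : d < T.N) (hab : T.leb a b = true)
    (hbd : T.leb b d = true) : ew H A (nf false (T.tri a b d)) = 1 := by
  have hb := lt_of_le h hd hbd
  have ha := lt_of_le h hb hab
  rw [gc_tri, ← hn b hb a hab, ← hn d hd b hbd, ← hn d hd a ((pon h).trans _ (mem_el.2 ha) _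
    (mem_el.2 hb) _ (mem_el.2 hd) hab hbd)]
  exact (flat_OC (pon h)).1 (hf.gau g) _ (mem_el.2 ha) _ (mem_el.2 hb) _ (mem_el.2 hd) hab hbd

theorem hol_std (hk : T.okK an = true) (H A : Γ) :
    holH (T.std H A) = H ∧ holA (T.std H A) = A := by
  obtain ⟨-, -, -, ⟨w1, w2, w3, w4, w5, w6, w7, w8⟩, -⟩ := gc_okK hk
  simp [holH, holA, std, w1, w2, w3, w4, w5, w6, w7, w8, ew]

/-- Holonomy under a gauge transformation. -/
theorem hol_gau (hk : T.okK an = true) {c' : ℕ → ℕ → Γ} {g : ℕ → Γ}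
    (e : ∀ y < 7, ∀ x < 7, T.le x y → gau g c x y = c' x y) :
    holH c' = g 0 * holH c * (g 0)⁻¹ ∧ holA c' = g 0 * holA c * (g 0)⁻¹ := by
  obtain ⟨-, -, ⟨l1, l2, l3, l4, l5, l6, l7, l8⟩, -⟩ := gc_okK hk
  rw [← (gc_hol g c).1, ← (gc_hol g c).2, holH, holH, holA, holA,
    e 1 (by omega) 0 (by omega) l1, e 1 (by omega) 2 (by omega) l2,
    e 3 (by omega) 2 (by omega) l3, e 3 (by omega) 0 (by omega) l4,
    e 4 (by omega) 0 (by omega) l5, e 4 (by omega) 5 (by omega) l6,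
    e 6 (by omega) 5 (by omega) l7, e 6 (by omega) 0 (by omega) l8]
  exact ⟨rfl, rfl⟩

end Tab

/-- A commutator word. -/
def cw0 (n : ℤ) : Wd :=
  [(true, 1), (false, n), (true, 1), (false, -n), (true, -1), (false, n), (true, -1), (false, -n)]

/-- The last relator of the second presentation. -/
def wY : Wd := [(true, 10), (false, 1), (true, -5), (false, 2), (true, 5), (false, 1), (true, -5),
  (false, 1), (true, 5), (false, 2), (true, -5), (false, -7)]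

theorem gc_cw0 {Γ : Type} [Group Γ] (H A : Γ) (n : ℤ) :
    ew H A (cw0 n) = A * cj H A n * A⁻¹ * (cj H A n)⁻¹ := by
  simp only [ew, cw0, cj, if_true, Bool.false_eq_true, if_false]
  group

theorem rel4_of_words {Γ : Type} [Group Γ] {H A : Γ} (h1 : ew H A (cw0 1) = 1)
    (h2 : ew H A (cw0 2) = 1) (h3 : ew H A (cw0 3) = 1)
    (h4 : ew H A ((false, 8) :: cw0 4) = 1) : Rel4 H A := by
  have k : ∀ n, ew H A (cw0 n) = 1 → Commute A (cj H A n) := fun n e =>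
    commutatorElement_eq_one_iff_commute.1 ((gc_cw0 H A n).symm.trans e)
  refine ⟨k 1 h1, k 2 h2, k 3 h3, ?_⟩
  rw [ew, gc_cw0] at h4
  exact (congrArg (· * _) (zpow_ofNat H 8)).symm.trans h4

theorem gp_of_X {Γ : Type} [Group Γ] {H A : Γ} (h : Rel4 H A) (h5 : ew H A [(true, 5)] = 1) :
    Gp H A := by
  simp only [ew, if_true, mul_one] at h5
  exact ⟨h, (zpow_ofNat A 5).symm.trans h5⟩

/-- The value of `wY` is `relY H (A ^ 5)`. -/
theorem gp_of_Y {Γ : Type} [Group Γ] {H A : Γ} (h : Rel4 H A) (h5 : ew H A wY = 1) :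
    Gp H A := by
  refine ⟨h, h.of_Y (Eq.trans ?_ h5)⟩
  simp only [ew, wY, relY, cj, if_true, Bool.false_eq_true, if_false]
  group

end Pool.Agent.Lib.MP_5ceaf9_gt.G
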