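import Pool.Agent.Lib.MP_5ceaf9_gt.GTabX

/-! The checks for the table X. -/

namespace Pool.Agent.Lib.MP_5ceaf9_gt.G

theorem x_okP : tabX.okP = true := by decide +kernel

theorem x_okQ : tabX.okQ = true := by decide +kernel

theorem x_okK : tabX.okK anX = true := by decide +kernel

theorem x_okC : tabX.okC anX twX = true := by decide +kernel

theorem x_okF : tabX.okF = true := by decide +kernel

theorem x_okFx : okFx FxX = true := by decide +kernel

theorem x_okJ : tabX.okJ JX FxX tmX ivX = true := by decide +kernel

end Pool.Agent.Lib.MP_5ceaf9_gt.G
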