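import Pool.Agent.Lib.MP_5ceaf9_gt.GDefs

/-! The table Y and its certificates. -/

namespace Pool.Agent.Lib.MP_5ceaf9_gt.G

/-- Rows of the table. -/
def clY0 : List FS :=
  [[(0, 0, [])], [(0, -1, []), (2, 1, []), (1, 0, [])], [(2, 0, [])], [(2, -1, []), (0, 1, [(false,
  1)]), (3, 0, [])], [(0, -1, []), (5, 1, []), (4, 0, [])], [(5, 0, [])], [(5, -1, []), (0, 1,
  [(true, 1)]), (6, 0, [])], [(8, -1, []), (0, 1, []), (7, 0, [])], [(8, 0, [])], [(8, -1, []), (5,
  1, []), (9, 0, [])], [(8, -1, []), (0, 1, [(true, 1)]), (10, 0, [])], [(8, -1, []), (2, 1,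
  [(true, 1)]), (11, 0, [])], [(8, -1, []), (0, 1, [(true, 1), (false, 1)]), (12, 0, [])], [(8, -1,
  []), (5, 1, [(true, 1), (false, 1)]), (13, 0, [])], [(8, -1, []), (0, 1, [(true, 1), (false, 1),
  (true, 1)]), (14, 0, [])], [(8, -1, []), (2, 1, [(true, 1), (false, 1), (true, 1), (false, -1)]),
  (15, 0, [])]]

/-- Rows of the table. -/
def clY1 : List FS :=
  [[(8, -1, []), (0, 1, [(true, 1), (false, 1), (true, 1), (false, -1)]), (16, 0, [])], [(8, -1,
  []), (5, 1, [(true, 1), (false, 1), (true, 1), (false, -1), (true, -1)]), (17, 0, [])], [(8, -1,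
  []), (0, 1, [(true, 1), (false, 1), (true, 1), (false, -1), (true, -1)]), (18, 0, [])], [(8, -1,
  []), (2, 1, [(true, 1), (false, 1), (true, 1), (false, -1), (true, -1)]), (19, 0, [])], [(8, -1,
  []), (0, 1, [(true, 1), (false, 1), (true, 1), (false, -1), (true, -1), (false, 1)]), (20, 0,
  [])], [(8, -1, []), (5, 1, [(true, 1), (false, 1), (true, 1), (false, -1), (true, -1), (false,
  1), (true, -1)]), (21, 0, [])], [(8, -1, []), (0, 1, [(true, 1), (false, 1), (true, 1), (false,
  -1), (true, -1), (false, 1), (true, -1)]), (22, 0, [])], [(8, -1, []), (2, 1, [(true, 1), (false,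
  1), (true, 1), (false, -1), (true, -1), (false, 1), (true, -1), (false, -1)]), (23, 0, [])], [(8,
  0, []), (0, 0, []), (7, 1, []), (5, 0, []), (4, 1, []), (9, -1, []), (24, 0, [])], [(8, 0, []),
  (5, 0, []), (9, 1, []), (0, 0, [(true, 1)]), (6, 1, []), (10, -1, []), (25, 0, [])], [(8, 0, []),
  (0, 0, [(true, 1)]), (10, 1, []), (2, 0, [(true, 1)]), (1, 1, [(true, 1)]), (11, -1, []), (26, 0,
  [])], [(8, 0, []), (2, 0, [(true, 1)]), (11, 1, []), (0, 0, [(true, 1), (false, 1)]), (3, 1,
  [(true, 1)]), (12, -1, []), (27, 0, [])], [(8, 0, []), (0, 0, [(true, 1), (false, 1)]), (12, 1,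
  []), (5, 0, [(true, 1), (false, 1)]), (4, 1, [(true, 1), (false, 1)]), (13, -1, []), (28, 0,
  [])], [(8, 0, []), (5, 0, [(true, 1), (false, 1)]), (13, 1, []), (0, 0, [(true, 1), (false, 1),
  (true, 1)]), (6, 1, [(true, 1), (false, 1)]), (14, -1, []), (29, 0, [])], [(8, 0, []), (0, 0,
  [(true, 1), (false, 1), (true, 1)]), (14, 1, []), (2, 0, [(true, 1), (false, 1), (true, 1),
  (false, -1)]), (3, -1, [(true, 1), (false, 1), (true, 1), (false, -1)]), (15, -1, []), (30, 0,
  [])], [(8, 0, []), (2, 0, [(true, 1), (false, 1), (true, 1), (false, -1)]), (15, 1, []), (0, 0,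
  [(true, 1), (false, 1), (true, 1), (false, -1)]), (1, -1, [(true, 1), (false, 1), (true, 1),
  (false, -1)]), (16, -1, []), (31, 0, [])]]

/-- Rows of the table. -/
def clY2 : List FS :=
  [[(8, 0, []), (0, 0, [(true, 1), (false, 1), (true, 1), (false, -1)]), (16, 1, []), (5, 0,
  [(true, 1), (false, 1), (true, 1), (false, -1), (true, -1)]), (6, -1, [(true, 1), (false, 1),
  (true, 1), (false, -1), (true, -1)]), (17, -1, []), (32, 0, [])], [(8, 0, []), (5, 0, [(true, 1),
  (false, 1), (true, 1), (false, -1), (true, -1)]), (17, 1, []), (0, 0, [(true, 1), (false, 1),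
  (true, 1), (false, -1), (true, -1)]), (4, -1, [(true, 1), (false, 1), (true, 1), (false, -1),
  (true, -1)]), (18, -1, []), (33, 0, [])], [(8, 0, []), (0, 0, [(true, 1), (false, 1), (true, 1),
  (false, -1), (true, -1)]), (18, 1, []), (2, 0, [(true, 1), (false, 1), (true, 1), (false, -1),
  (true, -1)]), (1, 1, [(true, 1), (false, 1), (true, 1), (false, -1), (true, -1)]), (19, -1, []),
  (34, 0, [])], [(8, 0, []), (2, 0, [(true, 1), (false, 1), (true, 1), (false, -1), (true, -1)]),
  (19, 1, []), (0, 0, [(true, 1), (false, 1), (true, 1), (false, -1), (true, -1), (false, 1)]), (3,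
  1, [(true, 1), (false, 1), (true, 1), (false, -1), (true, -1)]), (20, -1, []), (35, 0, [])], [(8,
  0, []), (0, 0, [(true, 1), (false, 1), (true, 1), (false, -1), (true, -1), (false, 1)]), (20, 1,
  []), (5, 0, [(true, 1), (false, 1), (true, 1), (false, -1), (true, -1), (false, 1), (true, -1)]),
  (6, -1, [(true, 1), (false, 1), (true, 1), (false, -1), (true, -1), (false, 1), (true, -1)]),
  (21, -1, []), (36, 0, [])], [(8, 0, []), (5, 0, [(true, 1), (false, 1), (true, 1), (false, -1),
  (true, -1), (false, 1), (true, -1)]), (21, 1, []), (0, 0, [(true, 1), (false, 1), (true, 1),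
  (false, -1), (true, -1), (false, 1), (true, -1)]), (4, -1, [(true, 1), (false, 1), (true, 1),
  (false, -1), (true, -1), (false, 1), (true, -1)]), (22, -1, []), (37, 0, [])], [(8, 0, []), (0,
  0, [(true, 1), (false, 1), (true, 1), (false, -1), (true, -1), (false, 1), (true, -1)]), (22, 1,
  []), (2, 0, [(true, 1), (false, 1), (true, 1), (false, -1), (true, -1), (false, 1), (true, -1),
  (false, -1)]), (3, -1, [(true, 1), (false, 1), (true, 1), (false, -1), (true, -1), (false, 1),
  (true, -1), (false, -1)]), (23, -1, []), (38, 0, [])], [(8, 0, []), (2, 0, [(true, 1), (false,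
  1), (true, 1), (false, -1), (true, -1), (false, 1), (true, -1), (false, -1)]), (23, 1, []), (0,
  0, []), (1, -1, [(true, 1), (false, 1), (true, 1), (false, -1), (true, -1), (false, 1), (true,
  -1), (false, -1)]), (7, -1, []), (39, 0, [])], [(41, -1, []), (0, 1, []), (40, 0, [])], [(41, 0,
  [])], [(41, -1, []), (5, 1, []), (42, 0, [])], [(41, -1, []), (0, 1, [(true, 1)]), (43, 0, [])],
  [(41, -1, []), (2, 1, [(true, 1)]), (44, 0, [])], [(41, -1, []), (0, 1, [(true, 1), (false, 1)]),
  (45, 0, [])], [(41, -1, []), (2, 1, [(true, 1), (false, 1)]), (46, 0, [])], [(41, -1, []), (0, 1,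
  [(true, 1), (false, 2)]), (47, 0, [])]]

/-- Rows of the table. -/
def clY3 : List FS :=
  [[(41, -1, []), (5, 1, [(true, 1), (false, 2)]), (48, 0, [])], [(41, -1, []), (0, 1, [(true, 1),
  (false, 2), (true, 1)]), (49, 0, [])], [(41, -1, []), (2, 1, [(true, 1), (false, 2), (true, 1),
  (false, -1)]), (50, 0, [])], [(41, -1, []), (0, 1, [(true, 1), (false, 2), (true, 1), (false,
  -1)]), (51, 0, [])], [(41, -1, []), (2, 1, [(true, 1), (false, 2), (true, 1), (false, -2)]), (52,
  0, [])], [(41, -1, []), (0, 1, [(true, 1), (false, 2), (true, 1), (false, -2)]), (53, 0, [])],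
  [(41, -1, []), (5, 1, [(true, 1), (false, 2), (true, 1), (false, -2), (true, -1)]), (54, 0, [])],
  [(41, -1, []), (0, 1, [(true, 1), (false, 2), (true, 1), (false, -2), (true, -1)]), (55, 0, [])],
  [(41, -1, []), (2, 1, [(true, 1), (false, 2), (true, 1), (false, -2), (true, -1)]), (56, 0, [])],
  [(41, -1, []), (0, 1, [(true, 1), (false, 2), (true, 1), (false, -2), (true, -1), (false, 1)]),
  (57, 0, [])], [(41, -1, []), (2, 1, [(true, 1), (false, 2), (true, 1), (false, -2), (true, -1),
  (false, 1)]), (58, 0, [])], [(41, -1, []), (0, 1, [(true, 1), (false, 2), (true, 1), (false, -2),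
  (true, -1), (false, 2)]), (59, 0, [])], [(41, -1, []), (5, 1, [(true, 1), (false, 2), (true, 1),
  (false, -2), (true, -1), (false, 2), (true, -1)]), (60, 0, [])], [(41, -1, []), (0, 1, [(true,
  1), (false, 2), (true, 1), (false, -2), (true, -1), (false, 2), (true, -1)]), (61, 0, [])], [(41,
  -1, []), (2, 1, [(true, 1), (false, 2), (true, 1), (false, -2), (true, -1), (false, 2), (true,
  -1), (false, -1)]), (62, 0, [])], [(41, -1, []), (0, 1, [(true, 1), (false, 2), (true, 1),
  (false, -2), (true, -1), (false, 2), (true, -1), (false, -1)]), (63, 0, [])]]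

/-- Rows of the table. -/
def clY4 : List FS :=
  [[(41, -1, []), (2, 1, [(true, 1), (false, 2), (true, 1), (false, -2), (true, -1), (false, 2),
  (true, -1), (false, -2)]), (64, 0, [])], [(41, 0, []), (0, 0, []), (40, 1, []), (5, 0, []), (4,
  1, []), (42, -1, []), (65, 0, [])], [(41, 0, []), (5, 0, []), (42, 1, []), (0, 0, [(true, 1)]),
  (6, 1, []), (43, -1, []), (66, 0, [])], [(41, 0, []), (0, 0, [(true, 1)]), (43, 1, []), (2, 0,
  [(true, 1)]), (1, 1, [(true, 1)]), (44, -1, []), (67, 0, [])], [(41, 0, []), (2, 0, [(true, 1)]),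
  (44, 1, []), (0, 0, [(true, 1), (false, 1)]), (3, 1, [(true, 1)]), (45, -1, []), (68, 0, [])],
  [(41, 0, []), (0, 0, [(true, 1), (false, 1)]), (45, 1, []), (2, 0, [(true, 1), (false, 1)]), (1,
  1, [(true, 1), (false, 1)]), (46, -1, []), (69, 0, [])], [(41, 0, []), (2, 0, [(true, 1), (false,
  1)]), (46, 1, []), (0, 0, [(true, 1), (false, 2)]), (3, 1, [(true, 1), (false, 1)]), (47, -1,
  []), (70, 0, [])], [(41, 0, []), (0, 0, [(true, 1), (false, 2)]), (47, 1, []), (5, 0, [(true, 1),
  (false, 2)]), (4, 1, [(true, 1), (false, 2)]), (48, -1, []), (71, 0, [])], [(41, 0, []), (5, 0,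
  [(true, 1), (false, 2)]), (48, 1, []), (0, 0, [(true, 1), (false, 2), (true, 1)]), (6, 1, [(true,
  1), (false, 2)]), (49, -1, []), (72, 0, [])], [(41, 0, []), (0, 0, [(true, 1), (false, 2), (true,
  1)]), (49, 1, []), (2, 0, [(true, 1), (false, 2), (true, 1), (false, -1)]), (3, -1, [(true, 1),
  (false, 2), (true, 1), (false, -1)]), (50, -1, []), (73, 0, [])], [(41, 0, []), (2, 0, [(true,
  1), (false, 2), (true, 1), (false, -1)]), (50, 1, []), (0, 0, [(true, 1), (false, 2), (true, 1),
  (false, -1)]), (1, -1, [(true, 1), (false, 2), (true, 1), (false, -1)]), (51, -1, []), (74, 0,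
  [])], [(41, 0, []), (0, 0, [(true, 1), (false, 2), (true, 1), (false, -1)]), (51, 1, []), (2, 0,
  [(true, 1), (false, 2), (true, 1), (false, -2)]), (3, -1, [(true, 1), (false, 2), (true, 1),
  (false, -2)]), (52, -1, []), (75, 0, [])], [(41, 0, []), (2, 0, [(true, 1), (false, 2), (true,
  1), (false, -2)]), (52, 1, []), (0, 0, [(true, 1), (false, 2), (true, 1), (false, -2)]), (1, -1,
  [(true, 1), (false, 2), (true, 1), (false, -2)]), (53, -1, []), (76, 0, [])], [(41, 0, []), (0,
  0, [(true, 1), (false, 2), (true, 1), (false, -2)]), (53, 1, []), (5, 0, [(true, 1), (false, 2),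
  (true, 1), (false, -2), (true, -1)]), (6, -1, [(true, 1), (false, 2), (true, 1), (false, -2),
  (true, -1)]), (54, -1, []), (77, 0, [])], [(41, 0, []), (5, 0, [(true, 1), (false, 2), (true, 1),
  (false, -2), (true, -1)]), (54, 1, []), (0, 0, [(true, 1), (false, 2), (true, 1), (false, -2),
  (true, -1)]), (4, -1, [(true, 1), (false, 2), (true, 1), (false, -2), (true, -1)]), (55, -1, []),
  (78, 0, [])], [(41, 0, []), (0, 0, [(true, 1), (false, 2), (true, 1), (false, -2), (true, -1)]),
  (55, 1, []), (2, 0, [(true, 1), (false, 2), (true, 1), (false, -2), (true, -1)]), (1, 1, [(true,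
  1), (false, 2), (true, 1), (false, -2), (true, -1)]), (56, -1, []), (79, 0, [])]]

/-- Rows of the table. -/
def clY5 : List FS :=
  [[(41, 0, []), (2, 0, [(true, 1), (false, 2), (true, 1), (false, -2), (true, -1)]), (56, 1, []),
  (0, 0, [(true, 1), (false, 2), (true, 1), (false, -2), (true, -1), (false, 1)]), (3, 1, [(true,
  1), (false, 2), (true, 1), (false, -2), (true, -1)]), (57, -1, []), (80, 0, [])], [(41, 0, []),
  (0, 0, [(true, 1), (false, 2), (true, 1), (false, -2), (true, -1), (false, 1)]), (57, 1, []), (2,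
  0, [(true, 1), (false, 2), (true, 1), (false, -2), (true, -1), (false, 1)]), (1, 1, [(true, 1),
  (false, 2), (true, 1), (false, -2), (true, -1), (false, 1)]), (58, -1, []), (81, 0, [])], [(41,
  0, []), (2, 0, [(true, 1), (false, 2), (true, 1), (false, -2), (true, -1), (false, 1)]), (58, 1,
  []), (0, 0, [(true, 1), (false, 2), (true, 1), (false, -2), (true, -1), (false, 2)]), (3, 1,
  [(true, 1), (false, 2), (true, 1), (false, -2), (true, -1), (false, 1)]), (59, -1, []), (82, 0,
  [])], [(41, 0, []), (0, 0, [(true, 1), (false, 2), (true, 1), (false, -2), (true, -1), (false,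
  2)]), (59, 1, []), (5, 0, [(true, 1), (false, 2), (true, 1), (false, -2), (true, -1), (false, 2),
  (true, -1)]), (6, -1, [(true, 1), (false, 2), (true, 1), (false, -2), (true, -1), (false, 2),
  (true, -1)]), (60, -1, []), (83, 0, [])], [(41, 0, []), (5, 0, [(true, 1), (false, 2), (true, 1),
  (false, -2), (true, -1), (false, 2), (true, -1)]), (60, 1, []), (0, 0, [(true, 1), (false, 2),
  (true, 1), (false, -2), (true, -1), (false, 2), (true, -1)]), (4, -1, [(true, 1), (false, 2),
  (true, 1), (false, -2), (true, -1), (false, 2), (true, -1)]), (61, -1, []), (84, 0, [])], [(41,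
  0, []), (0, 0, [(true, 1), (false, 2), (true, 1), (false, -2), (true, -1), (false, 2), (true,
  -1)]), (61, 1, []), (2, 0, [(true, 1), (false, 2), (true, 1), (false, -2), (true, -1), (false,
  2), (true, -1), (false, -1)]), (3, -1, [(true, 1), (false, 2), (true, 1), (false, -2), (true,
  -1), (false, 2), (true, -1), (false, -1)]), (62, -1, []), (85, 0, [])], [(41, 0, []), (2, 0,
  [(true, 1), (false, 2), (true, 1), (false, -2), (true, -1), (false, 2), (true, -1), (false,
  -1)]), (62, 1, []), (0, 0, [(true, 1), (false, 2), (true, 1), (false, -2), (true, -1), (false,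
  2), (true, -1), (false, -1)]), (1, -1, [(true, 1), (false, 2), (true, 1), (false, -2), (true,
  -1), (false, 2), (true, -1), (false, -1)]), (63, -1, []), (86, 0, [])], [(41, 0, []), (0, 0,
  [(true, 1), (false, 2), (true, 1), (false, -2), (true, -1), (false, 2), (true, -1), (false,
  -1)]), (63, 1, []), (2, 0, [(true, 1), (false, 2), (true, 1), (false, -2), (true, -1), (false,
  2), (true, -1), (false, -2)]), (3, -1, [(true, 1), (false, 2), (true, 1), (false, -2), (true,
  -1), (false, 2), (true, -1), (false, -2)]), (64, -1, []), (87, 0, [])], [(41, 0, []), (2, 0,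
  [(true, 1), (false, 2), (true, 1), (false, -2), (true, -1), (false, 2), (true, -1), (false,
  -2)]), (64, 1, []), (0, 0, []), (1, -1, [(true, 1), (false, 2), (true, 1), (false, -2), (true,
  -1), (false, 2), (true, -1), (false, -2)]), (40, -1, []), (88, 0, [])], [(90, -1, []), (0, 1,
  []), (89, 0, [])], [(90, 0, [])], [(90, -1, []), (5, 1, []), (91, 0, [])], [(90, -1, []), (0, 1,
  [(true, 1)]), (92, 0, [])], [(90, -1, []), (2, 1, [(true, 1)]), (93, 0, [])], [(90, -1, []), (0,
  1, [(true, 1), (false, 1)]), (94, 0, [])], [(90, -1, []), (2, 1, [(true, 1), (false, 1)]), (95,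
  0, [])]]

/-- Rows of the table. -/
def clY6 : List FS :=
  [[(90, -1, []), (0, 1, [(true, 1), (false, 2)]), (96, 0, [])], [(90, -1, []), (2, 1, [(true, 1),
  (false, 2)]), (97, 0, [])], [(90, -1, []), (0, 1, [(true, 1), (false, 3)]), (98, 0, [])], [(90,
  -1, []), (5, 1, [(true, 1), (false, 3)]), (99, 0, [])], [(90, -1, []), (0, 1, [(true, 1), (false,
  3), (true, 1)]), (100, 0, [])], [(90, -1, []), (2, 1, [(true, 1), (false, 3), (true, 1), (false,
  -1)]), (101, 0, [])], [(90, -1, []), (0, 1, [(true, 1), (false, 3), (true, 1), (false, -1)]),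
  (102, 0, [])], [(90, -1, []), (2, 1, [(true, 1), (false, 3), (true, 1), (false, -2)]), (103, 0,
  [])], [(90, -1, []), (0, 1, [(true, 1), (false, 3), (true, 1), (false, -2)]), (104, 0, [])],
  [(90, -1, []), (2, 1, [(true, 1), (false, 3), (true, 1), (false, -3)]), (105, 0, [])], [(90, -1,
  []), (0, 1, [(true, 1), (false, 3), (true, 1), (false, -3)]), (106, 0, [])], [(90, -1, []), (5,
  1, [(true, 1), (false, 3), (true, 1), (false, -3), (true, -1)]), (107, 0, [])], [(90, -1, []),
  (0, 1, [(true, 1), (false, 3), (true, 1), (false, -3), (true, -1)]), (108, 0, [])], [(90, -1,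
  []), (2, 1, [(true, 1), (false, 3), (true, 1), (false, -3), (true, -1)]), (109, 0, [])], [(90,
  -1, []), (0, 1, [(true, 1), (false, 3), (true, 1), (false, -3), (true, -1), (false, 1)]), (110,
  0, [])], [(90, -1, []), (2, 1, [(true, 1), (false, 3), (true, 1), (false, -3), (true, -1),
  (false, 1)]), (111, 0, [])]]

/-- Rows of the table. -/
def clY7 : List FS :=
  [[(90, -1, []), (0, 1, [(true, 1), (false, 3), (true, 1), (false, -3), (true, -1), (false, 2)]),
  (112, 0, [])], [(90, -1, []), (2, 1, [(true, 1), (false, 3), (true, 1), (false, -3), (true, -1),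
  (false, 2)]), (113, 0, [])], [(90, -1, []), (0, 1, [(true, 1), (false, 3), (true, 1), (false,
  -3), (true, -1), (false, 3)]), (114, 0, [])], [(90, -1, []), (5, 1, [(true, 1), (false, 3),
  (true, 1), (false, -3), (true, -1), (false, 3), (true, -1)]), (115, 0, [])], [(90, -1, []), (0,
  1, [(true, 1), (false, 3), (true, 1), (false, -3), (true, -1), (false, 3), (true, -1)]), (116, 0,
  [])], [(90, -1, []), (2, 1, [(true, 1), (false, 3), (true, 1), (false, -3), (true, -1), (false,
  3), (true, -1), (false, -1)]), (117, 0, [])], [(90, -1, []), (0, 1, [(true, 1), (false, 3),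
  (true, 1), (false, -3), (true, -1), (false, 3), (true, -1), (false, -1)]), (118, 0, [])], [(90,
  -1, []), (2, 1, [(true, 1), (false, 3), (true, 1), (false, -3), (true, -1), (false, 3), (true,
  -1), (false, -2)]), (119, 0, [])], [(90, -1, []), (0, 1, [(true, 1), (false, 3), (true, 1),
  (false, -3), (true, -1), (false, 3), (true, -1), (false, -2)]), (120, 0, [])], [(90, -1, []), (2,
  1, [(true, 1), (false, 3), (true, 1), (false, -3), (true, -1), (false, 3), (true, -1), (false,
  -3)]), (121, 0, [])], [(90, 0, []), (0, 0, []), (89, 1, []), (5, 0, []), (4, 1, []), (91, -1,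
  []), (122, 0, [])], [(90, 0, []), (5, 0, []), (91, 1, []), (0, 0, [(true, 1)]), (6, 1, []), (92,
  -1, []), (123, 0, [])], [(90, 0, []), (0, 0, [(true, 1)]), (92, 1, []), (2, 0, [(true, 1)]), (1,
  1, [(true, 1)]), (93, -1, []), (124, 0, [])], [(90, 0, []), (2, 0, [(true, 1)]), (93, 1, []), (0,
  0, [(true, 1), (false, 1)]), (3, 1, [(true, 1)]), (94, -1, []), (125, 0, [])], [(90, 0, []), (0,
  0, [(true, 1), (false, 1)]), (94, 1, []), (2, 0, [(true, 1), (false, 1)]), (1, 1, [(true, 1),
  (false, 1)]), (95, -1, []), (126, 0, [])], [(90, 0, []), (2, 0, [(true, 1), (false, 1)]), (95, 1,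
  []), (0, 0, [(true, 1), (false, 2)]), (3, 1, [(true, 1), (false, 1)]), (96, -1, []), (127, 0,
  [])]]

/-- Rows of the table. -/
def clY8 : List FS :=
  [[(90, 0, []), (0, 0, [(true, 1), (false, 2)]), (96, 1, []), (2, 0, [(true, 1), (false, 2)]), (1,
  1, [(true, 1), (false, 2)]), (97, -1, []), (128, 0, [])], [(90, 0, []), (2, 0, [(true, 1),
  (false, 2)]), (97, 1, []), (0, 0, [(true, 1), (false, 3)]), (3, 1, [(true, 1), (false, 2)]), (98,
  -1, []), (129, 0, [])], [(90, 0, []), (0, 0, [(true, 1), (false, 3)]), (98, 1, []), (5, 0,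
  [(true, 1), (false, 3)]), (4, 1, [(true, 1), (false, 3)]), (99, -1, []), (130, 0, [])], [(90, 0,
  []), (5, 0, [(true, 1), (false, 3)]), (99, 1, []), (0, 0, [(true, 1), (false, 3), (true, 1)]),
  (6, 1, [(true, 1), (false, 3)]), (100, -1, []), (131, 0, [])], [(90, 0, []), (0, 0, [(true, 1),
  (false, 3), (true, 1)]), (100, 1, []), (2, 0, [(true, 1), (false, 3), (true, 1), (false, -1)]),
  (3, -1, [(true, 1), (false, 3), (true, 1), (false, -1)]), (101, -1, []), (132, 0, [])], [(90, 0,
  []), (2, 0, [(true, 1), (false, 3), (true, 1), (false, -1)]), (101, 1, []), (0, 0, [(true, 1),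
  (false, 3), (true, 1), (false, -1)]), (1, -1, [(true, 1), (false, 3), (true, 1), (false, -1)]),
  (102, -1, []), (133, 0, [])], [(90, 0, []), (0, 0, [(true, 1), (false, 3), (true, 1), (false,
  -1)]), (102, 1, []), (2, 0, [(true, 1), (false, 3), (true, 1), (false, -2)]), (3, -1, [(true, 1),
  (false, 3), (true, 1), (false, -2)]), (103, -1, []), (134, 0, [])], [(90, 0, []), (2, 0, [(true,
  1), (false, 3), (true, 1), (false, -2)]), (103, 1, []), (0, 0, [(true, 1), (false, 3), (true, 1),
  (false, -2)]), (1, -1, [(true, 1), (false, 3), (true, 1), (false, -2)]), (104, -1, []), (135, 0,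
  [])], [(90, 0, []), (0, 0, [(true, 1), (false, 3), (true, 1), (false, -2)]), (104, 1, []), (2, 0,
  [(true, 1), (false, 3), (true, 1), (false, -3)]), (3, -1, [(true, 1), (false, 3), (true, 1),
  (false, -3)]), (105, -1, []), (136, 0, [])], [(90, 0, []), (2, 0, [(true, 1), (false, 3), (true,
  1), (false, -3)]), (105, 1, []), (0, 0, [(true, 1), (false, 3), (true, 1), (false, -3)]), (1, -1,
  [(true, 1), (false, 3), (true, 1), (false, -3)]), (106, -1, []), (137, 0, [])], [(90, 0, []), (0,
  0, [(true, 1), (false, 3), (true, 1), (false, -3)]), (106, 1, []), (5, 0, [(true, 1), (false, 3),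
  (true, 1), (false, -3), (true, -1)]), (6, -1, [(true, 1), (false, 3), (true, 1), (false, -3),
  (true, -1)]), (107, -1, []), (138, 0, [])], [(90, 0, []), (5, 0, [(true, 1), (false, 3), (true,
  1), (false, -3), (true, -1)]), (107, 1, []), (0, 0, [(true, 1), (false, 3), (true, 1), (false,
  -3), (true, -1)]), (4, -1, [(true, 1), (false, 3), (true, 1), (false, -3), (true, -1)]), (108,
  -1, []), (139, 0, [])], [(90, 0, []), (0, 0, [(true, 1), (false, 3), (true, 1), (false, -3),
  (true, -1)]), (108, 1, []), (2, 0, [(true, 1), (false, 3), (true, 1), (false, -3), (true, -1)]),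
  (1, 1, [(true, 1), (false, 3), (true, 1), (false, -3), (true, -1)]), (109, -1, []), (140, 0,
  [])], [(90, 0, []), (2, 0, [(true, 1), (false, 3), (true, 1), (false, -3), (true, -1)]), (109, 1,
  []), (0, 0, [(true, 1), (false, 3), (true, 1), (false, -3), (true, -1), (false, 1)]), (3, 1,
  [(true, 1), (false, 3), (true, 1), (false, -3), (true, -1)]), (110, -1, []), (141, 0, [])], [(90,
  0, []), (0, 0, [(true, 1), (false, 3), (true, 1), (false, -3), (true, -1), (false, 1)]), (110, 1,
  []), (2, 0, [(true, 1), (false, 3), (true, 1), (false, -3), (true, -1), (false, 1)]), (1, 1,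
  [(true, 1), (false, 3), (true, 1), (false, -3), (true, -1), (false, 1)]), (111, -1, []), (142, 0,
  [])], [(90, 0, []), (2, 0, [(true, 1), (false, 3), (true, 1), (false, -3), (true, -1), (false,
  1)]), (111, 1, []), (0, 0, [(true, 1), (false, 3), (true, 1), (false, -3), (true, -1), (false,
  2)]), (3, 1, [(true, 1), (false, 3), (true, 1), (false, -3), (true, -1), (false, 1)]), (112, -1,
  []), (143, 0, [])]]

/-- Rows of the table. -/
def clY9 : List FS :=
  [[(90, 0, []), (0, 0, [(true, 1), (false, 3), (true, 1), (false, -3), (true, -1), (false, 2)]),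
  (112, 1, []), (2, 0, [(true, 1), (false, 3), (true, 1), (false, -3), (true, -1), (false, 2)]),
  (1, 1, [(true, 1), (false, 3), (true, 1), (false, -3), (true, -1), (false, 2)]), (113, -1, []),
  (144, 0, [])], [(90, 0, []), (2, 0, [(true, 1), (false, 3), (true, 1), (false, -3), (true, -1),
  (false, 2)]), (113, 1, []), (0, 0, [(true, 1), (false, 3), (true, 1), (false, -3), (true, -1),
  (false, 3)]), (3, 1, [(true, 1), (false, 3), (true, 1), (false, -3), (true, -1), (false, 2)]),
  (114, -1, []), (145, 0, [])], [(90, 0, []), (0, 0, [(true, 1), (false, 3), (true, 1), (false,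
  -3), (true, -1), (false, 3)]), (114, 1, []), (5, 0, [(true, 1), (false, 3), (true, 1), (false,
  -3), (true, -1), (false, 3), (true, -1)]), (6, -1, [(true, 1), (false, 3), (true, 1), (false,
  -3), (true, -1), (false, 3), (true, -1)]), (115, -1, []), (146, 0, [])], [(90, 0, []), (5, 0,
  [(true, 1), (false, 3), (true, 1), (false, -3), (true, -1), (false, 3), (true, -1)]), (115, 1,
  []), (0, 0, [(true, 1), (false, 3), (true, 1), (false, -3), (true, -1), (false, 3), (true, -1)]),
  (4, -1, [(true, 1), (false, 3), (true, 1), (false, -3), (true, -1), (false, 3), (true, -1)]),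
  (116, -1, []), (147, 0, [])], [(90, 0, []), (0, 0, [(true, 1), (false, 3), (true, 1), (false,
  -3), (true, -1), (false, 3), (true, -1)]), (116, 1, []), (2, 0, [(true, 1), (false, 3), (true,
  1), (false, -3), (true, -1), (false, 3), (true, -1), (false, -1)]), (3, -1, [(true, 1), (false,
  3), (true, 1), (false, -3), (true, -1), (false, 3), (true, -1), (false, -1)]), (117, -1, []),
  (148, 0, [])], [(90, 0, []), (2, 0, [(true, 1), (false, 3), (true, 1), (false, -3), (true, -1),
  (false, 3), (true, -1), (false, -1)]), (117, 1, []), (0, 0, [(true, 1), (false, 3), (true, 1),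
  (false, -3), (true, -1), (false, 3), (true, -1), (false, -1)]), (1, -1, [(true, 1), (false, 3),
  (true, 1), (false, -3), (true, -1), (false, 3), (true, -1), (false, -1)]), (118, -1, []), (149,
  0, [])], [(90, 0, []), (0, 0, [(true, 1), (false, 3), (true, 1), (false, -3), (true, -1), (false,
  3), (true, -1), (false, -1)]), (118, 1, []), (2, 0, [(true, 1), (false, 3), (true, 1), (false,
  -3), (true, -1), (false, 3), (true, -1), (false, -2)]), (3, -1, [(true, 1), (false, 3), (true,
  1), (false, -3), (true, -1), (false, 3), (true, -1), (false, -2)]), (119, -1, []), (150, 0, [])],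
  [(90, 0, []), (2, 0, [(true, 1), (false, 3), (true, 1), (false, -3), (true, -1), (false, 3),
  (true, -1), (false, -2)]), (119, 1, []), (0, 0, [(true, 1), (false, 3), (true, 1), (false, -3),
  (true, -1), (false, 3), (true, -1), (false, -2)]), (1, -1, [(true, 1), (false, 3), (true, 1),
  (false, -3), (true, -1), (false, 3), (true, -1), (false, -2)]), (120, -1, []), (151, 0, [])],
  [(90, 0, []), (0, 0, [(true, 1), (false, 3), (true, 1), (false, -3), (true, -1), (false, 3),
  (true, -1), (false, -2)]), (120, 1, []), (2, 0, [(true, 1), (false, 3), (true, 1), (false, -3),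
  (true, -1), (false, 3), (true, -1), (false, -3)]), (3, -1, [(true, 1), (false, 3), (true, 1),
  (false, -3), (true, -1), (false, 3), (true, -1), (false, -3)]), (121, -1, []), (152, 0, [])],
  [(90, 0, []), (2, 0, [(true, 1), (false, 3), (true, 1), (false, -3), (true, -1), (false, 3),
  (true, -1), (false, -3)]), (121, 1, []), (0, 0, []), (1, -1, [(true, 1), (false, 3), (true, 1),
  (false, -3), (true, -1), (false, 3), (true, -1), (false, -3)]), (89, -1, []), (153, 0, [])],
  [(155, -1, []), (0, 1, []), (154, 0, [])], [(155, 0, [])], [(155, -1, []), (2, 1, []), (156, 0,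
  [])], [(155, -1, []), (0, 1, [(false, 1)]), (157, 0, [])], [(155, -1, []), (2, 1, [(false, 1)]),
  (158, 0, [])], [(155, -1, []), (0, 1, [(false, 2)]), (159, 0, [])]]

/-- Rows of the table. -/
def clY10 : List FS :=
  [[(155, -1, []), (2, 1, [(false, 2)]), (160, 0, [])], [(155, -1, []), (0, 1, [(false, 3)]), (161,
  0, [])], [(155, -1, []), (2, 1, [(false, 3)]), (162, 0, [])], [(155, -1, []), (0, 1, [(false,
  4)]), (163, 0, [])], [(155, -1, []), (2, 1, [(false, 4)]), (164, 0, [])], [(155, -1, []), (0, 1,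
  [(false, 5)]), (165, 0, [])], [(155, -1, []), (2, 1, [(false, 5)]), (166, 0, [])], [(155, -1,
  []), (0, 1, [(false, 6)]), (167, 0, [])], [(155, -1, []), (2, 1, [(false, 6)]), (168, 0, [])],
  [(155, -1, []), (0, 1, [(false, 7)]), (169, 0, [])], [(155, -1, []), (2, 1, [(false, 7)]), (170,
  0, [])], [(155, -1, []), (0, 1, [(false, 8)]), (171, 0, [])], [(155, -1, []), (5, 1, [(false,
  8)]), (172, 0, [])], [(155, -1, []), (0, 1, [(false, 8), (true, 1)]), (173, 0, [])], [(155, -1,
  []), (2, 1, [(false, 8), (true, 1)]), (174, 0, [])], [(155, -1, []), (0, 1, [(false, 8), (true,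
  1), (false, 1)]), (175, 0, [])]]

/-- Rows of the table. -/
def clY11 : List FS :=
  [[(155, -1, []), (2, 1, [(false, 8), (true, 1), (false, 1)]), (176, 0, [])], [(155, -1, []), (0,
  1, [(false, 8), (true, 1), (false, 2)]), (177, 0, [])], [(155, -1, []), (2, 1, [(false, 8),
  (true, 1), (false, 2)]), (178, 0, [])], [(155, -1, []), (0, 1, [(false, 8), (true, 1), (false,
  3)]), (179, 0, [])], [(155, -1, []), (2, 1, [(false, 8), (true, 1), (false, 3)]), (180, 0, [])],
  [(155, -1, []), (0, 1, [(false, 8), (true, 1), (false, 4)]), (181, 0, [])], [(155, -1, []), (5,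
  1, [(false, 8), (true, 1), (false, 4)]), (182, 0, [])], [(155, -1, []), (0, 1, [(false, 8),
  (true, 1), (false, 4), (true, 1)]), (183, 0, [])], [(155, -1, []), (2, 1, [(false, 8), (true, 1),
  (false, 4), (true, 1), (false, -1)]), (184, 0, [])], [(155, -1, []), (0, 1, [(false, 8), (true,
  1), (false, 4), (true, 1), (false, -1)]), (185, 0, [])], [(155, -1, []), (2, 1, [(false, 8),
  (true, 1), (false, 4), (true, 1), (false, -2)]), (186, 0, [])], [(155, -1, []), (0, 1, [(false,
  8), (true, 1), (false, 4), (true, 1), (false, -2)]), (187, 0, [])], [(155, -1, []), (2, 1,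
  [(false, 8), (true, 1), (false, 4), (true, 1), (false, -3)]), (188, 0, [])], [(155, -1, []), (0,
  1, [(false, 8), (true, 1), (false, 4), (true, 1), (false, -3)]), (189, 0, [])], [(155, -1, []),
  (2, 1, [(false, 8), (true, 1), (false, 4), (true, 1), (false, -4)]), (190, 0, [])], [(155, -1,
  []), (0, 1, [(false, 8), (true, 1), (false, 4), (true, 1), (false, -4)]), (191, 0, [])]]

/-- Rows of the table. -/
def clY12 : List FS :=
  [[(155, -1, []), (5, 1, [(false, 8), (true, 1), (false, 4), (true, 1), (false, -4), (true, -1)]),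
  (192, 0, [])], [(155, -1, []), (0, 1, [(false, 8), (true, 1), (false, 4), (true, 1), (false, -4),
  (true, -1)]), (193, 0, [])], [(155, -1, []), (2, 1, [(false, 8), (true, 1), (false, 4), (true,
  1), (false, -4), (true, -1)]), (194, 0, [])], [(155, -1, []), (0, 1, [(false, 8), (true, 1),
  (false, 4), (true, 1), (false, -4), (true, -1), (false, 1)]), (195, 0, [])], [(155, -1, []), (2,
  1, [(false, 8), (true, 1), (false, 4), (true, 1), (false, -4), (true, -1), (false, 1)]), (196, 0,
  [])], [(155, -1, []), (0, 1, [(false, 8), (true, 1), (false, 4), (true, 1), (false, -4), (true,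
  -1), (false, 2)]), (197, 0, [])], [(155, -1, []), (2, 1, [(false, 8), (true, 1), (false, 4),
  (true, 1), (false, -4), (true, -1), (false, 2)]), (198, 0, [])], [(155, -1, []), (0, 1, [(false,
  8), (true, 1), (false, 4), (true, 1), (false, -4), (true, -1), (false, 3)]), (199, 0, [])],
  [(155, -1, []), (2, 1, [(false, 8), (true, 1), (false, 4), (true, 1), (false, -4), (true, -1),
  (false, 3)]), (200, 0, [])], [(155, -1, []), (0, 1, [(false, 8), (true, 1), (false, 4), (true,
  1), (false, -4), (true, -1), (false, 4)]), (201, 0, [])], [(155, -1, []), (5, 1, [(false, 8),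
  (true, 1), (false, 4), (true, 1), (false, -4), (true, -1), (false, 4), (true, -1)]), (202, 0,
  [])], [(155, -1, []), (0, 1, [(false, 8), (true, 1), (false, 4), (true, 1), (false, -4), (true,
  -1), (false, 4), (true, -1)]), (203, 0, [])], [(155, -1, []), (2, 1, [(false, 8), (true, 1),
  (false, 4), (true, 1), (false, -4), (true, -1), (false, 4), (true, -1), (false, -1)]), (204, 0,
  [])], [(155, -1, []), (0, 1, [(false, 8), (true, 1), (false, 4), (true, 1), (false, -4), (true,
  -1), (false, 4), (true, -1), (false, -1)]), (205, 0, [])], [(155, -1, []), (2, 1, [(false, 8),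
  (true, 1), (false, 4), (true, 1), (false, -4), (true, -1), (false, 4), (true, -1), (false, -2)]),
  (206, 0, [])], [(155, -1, []), (0, 1, [(false, 8), (true, 1), (false, 4), (true, 1), (false, -4),
  (true, -1), (false, 4), (true, -1), (false, -2)]), (207, 0, [])]]

/-- Rows of the table. -/
def clY13 : List FS :=
  [[(155, -1, []), (2, 1, [(false, 8), (true, 1), (false, 4), (true, 1), (false, -4), (true, -1),
  (false, 4), (true, -1), (false, -3)]), (208, 0, [])], [(155, -1, []), (0, 1, [(false, 8), (true,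
  1), (false, 4), (true, 1), (false, -4), (true, -1), (false, 4), (true, -1), (false, -3)]), (209,
  0, [])], [(155, -1, []), (2, 1, [(false, 8), (true, 1), (false, 4), (true, 1), (false, -4),
  (true, -1), (false, 4), (true, -1), (false, -4)]), (210, 0, [])], [(155, 0, []), (0, 0, []),
  (154, 1, []), (2, 0, []), (1, 1, []), (156, -1, []), (211, 0, [])], [(155, 0, []), (2, 0, []),
  (156, 1, []), (0, 0, [(false, 1)]), (3, 1, []), (157, -1, []), (212, 0, [])], [(155, 0, []), (0,
  0, [(false, 1)]), (157, 1, []), (2, 0, [(false, 1)]), (1, 1, [(false, 1)]), (158, -1, []), (213,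
  0, [])], [(155, 0, []), (2, 0, [(false, 1)]), (158, 1, []), (0, 0, [(false, 2)]), (3, 1, [(false,
  1)]), (159, -1, []), (214, 0, [])], [(155, 0, []), (0, 0, [(false, 2)]), (159, 1, []), (2, 0,
  [(false, 2)]), (1, 1, [(false, 2)]), (160, -1, []), (215, 0, [])], [(155, 0, []), (2, 0, [(false,
  2)]), (160, 1, []), (0, 0, [(false, 3)]), (3, 1, [(false, 2)]), (161, -1, []), (216, 0, [])],
  [(155, 0, []), (0, 0, [(false, 3)]), (161, 1, []), (2, 0, [(false, 3)]), (1, 1, [(false, 3)]),
  (162, -1, []), (217, 0, [])], [(155, 0, []), (2, 0, [(false, 3)]), (162, 1, []), (0, 0, [(false,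
  4)]), (3, 1, [(false, 3)]), (163, -1, []), (218, 0, [])], [(155, 0, []), (0, 0, [(false, 4)]),
  (163, 1, []), (2, 0, [(false, 4)]), (1, 1, [(false, 4)]), (164, -1, []), (219, 0, [])], [(155, 0,
  []), (2, 0, [(false, 4)]), (164, 1, []), (0, 0, [(false, 5)]), (3, 1, [(false, 4)]), (165, -1,
  []), (220, 0, [])], [(155, 0, []), (0, 0, [(false, 5)]), (165, 1, []), (2, 0, [(false, 5)]), (1,
  1, [(false, 5)]), (166, -1, []), (221, 0, [])], [(155, 0, []), (2, 0, [(false, 5)]), (166, 1,
  []), (0, 0, [(false, 6)]), (3, 1, [(false, 5)]), (167, -1, []), (222, 0, [])], [(155, 0, []), (0,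
  0, [(false, 6)]), (167, 1, []), (2, 0, [(false, 6)]), (1, 1, [(false, 6)]), (168, -1, []), (223,
  0, [])]]

/-- Rows of the table. -/
def clY14 : List FS :=
  [[(155, 0, []), (2, 0, [(false, 6)]), (168, 1, []), (0, 0, [(false, 7)]), (3, 1, [(false, 6)]),
  (169, -1, []), (224, 0, [])], [(155, 0, []), (0, 0, [(false, 7)]), (169, 1, []), (2, 0, [(false,
  7)]), (1, 1, [(false, 7)]), (170, -1, []), (225, 0, [])], [(155, 0, []), (2, 0, [(false, 7)]),
  (170, 1, []), (0, 0, [(false, 8)]), (3, 1, [(false, 7)]), (171, -1, []), (226, 0, [])], [(155, 0,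
  []), (0, 0, [(false, 8)]), (171, 1, []), (5, 0, [(false, 8)]), (4, 1, [(false, 8)]), (172, -1,
  []), (227, 0, [])], [(155, 0, []), (5, 0, [(false, 8)]), (172, 1, []), (0, 0, [(false, 8), (true,
  1)]), (6, 1, [(false, 8)]), (173, -1, []), (228, 0, [])], [(155, 0, []), (0, 0, [(false, 8),
  (true, 1)]), (173, 1, []), (2, 0, [(false, 8), (true, 1)]), (1, 1, [(false, 8), (true, 1)]),
  (174, -1, []), (229, 0, [])], [(155, 0, []), (2, 0, [(false, 8), (true, 1)]), (174, 1, []), (0,
  0, [(false, 8), (true, 1), (false, 1)]), (3, 1, [(false, 8), (true, 1)]), (175, -1, []), (230, 0,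
  [])], [(155, 0, []), (0, 0, [(false, 8), (true, 1), (false, 1)]), (175, 1, []), (2, 0, [(false,
  8), (true, 1), (false, 1)]), (1, 1, [(false, 8), (true, 1), (false, 1)]), (176, -1, []), (231, 0,
  [])], [(155, 0, []), (2, 0, [(false, 8), (true, 1), (false, 1)]), (176, 1, []), (0, 0, [(false,
  8), (true, 1), (false, 2)]), (3, 1, [(false, 8), (true, 1), (false, 1)]), (177, -1, []), (232, 0,
  [])], [(155, 0, []), (0, 0, [(false, 8), (true, 1), (false, 2)]), (177, 1, []), (2, 0, [(false,
  8), (true, 1), (false, 2)]), (1, 1, [(false, 8), (true, 1), (false, 2)]), (178, -1, []), (233, 0,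
  [])], [(155, 0, []), (2, 0, [(false, 8), (true, 1), (false, 2)]), (178, 1, []), (0, 0, [(false,
  8), (true, 1), (false, 3)]), (3, 1, [(false, 8), (true, 1), (false, 2)]), (179, -1, []), (234, 0,
  [])], [(155, 0, []), (0, 0, [(false, 8), (true, 1), (false, 3)]), (179, 1, []), (2, 0, [(false,
  8), (true, 1), (false, 3)]), (1, 1, [(false, 8), (true, 1), (false, 3)]), (180, -1, []), (235, 0,
  [])], [(155, 0, []), (2, 0, [(false, 8), (true, 1), (false, 3)]), (180, 1, []), (0, 0, [(false,
  8), (true, 1), (false, 4)]), (3, 1, [(false, 8), (true, 1), (false, 3)]), (181, -1, []), (236, 0,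
  [])], [(155, 0, []), (0, 0, [(false, 8), (true, 1), (false, 4)]), (181, 1, []), (5, 0, [(false,
  8), (true, 1), (false, 4)]), (4, 1, [(false, 8), (true, 1), (false, 4)]), (182, -1, []), (237, 0,
  [])], [(155, 0, []), (5, 0, [(false, 8), (true, 1), (false, 4)]), (182, 1, []), (0, 0, [(false,
  8), (true, 1), (false, 4), (true, 1)]), (6, 1, [(false, 8), (true, 1), (false, 4)]), (183, -1,
  []), (238, 0, [])], [(155, 0, []), (0, 0, [(false, 8), (true, 1), (false, 4), (true, 1)]), (183,
  1, []), (2, 0, [(false, 8), (true, 1), (false, 4), (true, 1), (false, -1)]), (3, -1, [(false, 8),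
  (true, 1), (false, 4), (true, 1), (false, -1)]), (184, -1, []), (239, 0, [])]]

/-- Rows of the table. -/
def clY15 : List FS :=
  [[(155, 0, []), (2, 0, [(false, 8), (true, 1), (false, 4), (true, 1), (false, -1)]), (184, 1,
  []), (0, 0, [(false, 8), (true, 1), (false, 4), (true, 1), (false, -1)]), (1, -1, [(false, 8),
  (true, 1), (false, 4), (true, 1), (false, -1)]), (185, -1, []), (240, 0, [])], [(155, 0, []), (0,
  0, [(false, 8), (true, 1), (false, 4), (true, 1), (false, -1)]), (185, 1, []), (2, 0, [(false,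
  8), (true, 1), (false, 4), (true, 1), (false, -2)]), (3, -1, [(false, 8), (true, 1), (false, 4),
  (true, 1), (false, -2)]), (186, -1, []), (241, 0, [])], [(155, 0, []), (2, 0, [(false, 8), (true,
  1), (false, 4), (true, 1), (false, -2)]), (186, 1, []), (0, 0, [(false, 8), (true, 1), (false,
  4), (true, 1), (false, -2)]), (1, -1, [(false, 8), (true, 1), (false, 4), (true, 1), (false,
  -2)]), (187, -1, []), (242, 0, [])], [(155, 0, []), (0, 0, [(false, 8), (true, 1), (false, 4),
  (true, 1), (false, -2)]), (187, 1, []), (2, 0, [(false, 8), (true, 1), (false, 4), (true, 1),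
  (false, -3)]), (3, -1, [(false, 8), (true, 1), (false, 4), (true, 1), (false, -3)]), (188, -1,
  []), (243, 0, [])], [(155, 0, []), (2, 0, [(false, 8), (true, 1), (false, 4), (true, 1), (false,
  -3)]), (188, 1, []), (0, 0, [(false, 8), (true, 1), (false, 4), (true, 1), (false, -3)]), (1, -1,
  [(false, 8), (true, 1), (false, 4), (true, 1), (false, -3)]), (189, -1, []), (244, 0, [])],
  [(155, 0, []), (0, 0, [(false, 8), (true, 1), (false, 4), (true, 1), (false, -3)]), (189, 1, []),
  (2, 0, [(false, 8), (true, 1), (false, 4), (true, 1), (false, -4)]), (3, -1, [(false, 8), (true,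
  1), (false, 4), (true, 1), (false, -4)]), (190, -1, []), (245, 0, [])], [(155, 0, []), (2, 0,
  [(false, 8), (true, 1), (false, 4), (true, 1), (false, -4)]), (190, 1, []), (0, 0, [(false, 8),
  (true, 1), (false, 4), (true, 1), (false, -4)]), (1, -1, [(false, 8), (true, 1), (false, 4),
  (true, 1), (false, -4)]), (191, -1, []), (246, 0, [])], [(155, 0, []), (0, 0, [(false, 8), (true,
  1), (false, 4), (true, 1), (false, -4)]), (191, 1, []), (5, 0, [(false, 8), (true, 1), (false,
  4), (true, 1), (false, -4), (true, -1)]), (6, -1, [(false, 8), (true, 1), (false, 4), (true, 1),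
  (false, -4), (true, -1)]), (192, -1, []), (247, 0, [])], [(155, 0, []), (5, 0, [(false, 8),
  (true, 1), (false, 4), (true, 1), (false, -4), (true, -1)]), (192, 1, []), (0, 0, [(false, 8),
  (true, 1), (false, 4), (true, 1), (false, -4), (true, -1)]), (4, -1, [(false, 8), (true, 1),
  (false, 4), (true, 1), (false, -4), (true, -1)]), (193, -1, []), (248, 0, [])], [(155, 0, []),
  (0, 0, [(false, 8), (true, 1), (false, 4), (true, 1), (false, -4), (true, -1)]), (193, 1, []),
  (2, 0, [(false, 8), (true, 1), (false, 4), (true, 1), (false, -4), (true, -1)]), (1, 1, [(false,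
  8), (true, 1), (false, 4), (true, 1), (false, -4), (true, -1)]), (194, -1, []), (249, 0, [])],
  [(155, 0, []), (2, 0, [(false, 8), (true, 1), (false, 4), (true, 1), (false, -4), (true, -1)]),
  (194, 1, []), (0, 0, [(false, 8), (true, 1), (false, 4), (true, 1), (false, -4), (true, -1),
  (false, 1)]), (3, 1, [(false, 8), (true, 1), (false, 4), (true, 1), (false, -4), (true, -1)]),
  (195, -1, []), (250, 0, [])], [(155, 0, []), (0, 0, [(false, 8), (true, 1), (false, 4), (true,
  1), (false, -4), (true, -1), (false, 1)]), (195, 1, []), (2, 0, [(false, 8), (true, 1), (false,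
  4), (true, 1), (false, -4), (true, -1), (false, 1)]), (1, 1, [(false, 8), (true, 1), (false, 4),
  (true, 1), (false, -4), (true, -1), (false, 1)]), (196, -1, []), (251, 0, [])], [(155, 0, []),
  (2, 0, [(false, 8), (true, 1), (false, 4), (true, 1), (false, -4), (true, -1), (false, 1)]),
  (196, 1, []), (0, 0, [(false, 8), (true, 1), (false, 4), (true, 1), (false, -4), (true, -1),
  (false, 2)]), (3, 1, [(false, 8), (true, 1), (false, 4), (true, 1), (false, -4), (true, -1),
  (false, 1)]), (197, -1, []), (252, 0, [])], [(155, 0, []), (0, 0, [(false, 8), (true, 1), (false,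
  4), (true, 1), (false, -4), (true, -1), (false, 2)]), (197, 1, []), (2, 0, [(false, 8), (true,
  1), (false, 4), (true, 1), (false, -4), (true, -1), (false, 2)]), (1, 1, [(false, 8), (true, 1),
  (false, 4), (true, 1), (false, -4), (true, -1), (false, 2)]), (198, -1, []), (253, 0, [])],
  [(155, 0, []), (2, 0, [(false, 8), (true, 1), (false, 4), (true, 1), (false, -4), (true, -1),
  (false, 2)]), (198, 1, []), (0, 0, [(false, 8), (true, 1), (false, 4), (true, 1), (false, -4),
  (true, -1), (false, 3)]), (3, 1, [(false, 8), (true, 1), (false, 4), (true, 1), (false, -4),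
  (true, -1), (false, 2)]), (199, -1, []), (254, 0, [])], [(155, 0, []), (0, 0, [(false, 8), (true,
  1), (false, 4), (true, 1), (false, -4), (true, -1), (false, 3)]), (199, 1, []), (2, 0, [(false,
  8), (true, 1), (false, 4), (true, 1), (false, -4), (true, -1), (false, 3)]), (1, 1, [(false, 8),
  (true, 1), (false, 4), (true, 1), (false, -4), (true, -1), (false, 3)]), (200, -1, []), (255, 0,
  [])]]

/-- Rows of the table. -/
def clY16 : List FS :=
  [[(155, 0, []), (2, 0, [(false, 8), (true, 1), (false, 4), (true, 1), (false, -4), (true, -1),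
  (false, 3)]), (200, 1, []), (0, 0, [(false, 8), (true, 1), (false, 4), (true, 1), (false, -4),
  (true, -1), (false, 4)]), (3, 1, [(false, 8), (true, 1), (false, 4), (true, 1), (false, -4),
  (true, -1), (false, 3)]), (201, -1, []), (256, 0, [])], [(155, 0, []), (0, 0, [(false, 8), (true,
  1), (false, 4), (true, 1), (false, -4), (true, -1), (false, 4)]), (201, 1, []), (5, 0, [(false,
  8), (true, 1), (false, 4), (true, 1), (false, -4), (true, -1), (false, 4), (true, -1)]), (6, -1,
  [(false, 8), (true, 1), (false, 4), (true, 1), (false, -4), (true, -1), (false, 4), (true, -1)]),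
  (202, -1, []), (257, 0, [])], [(155, 0, []), (5, 0, [(false, 8), (true, 1), (false, 4), (true,
  1), (false, -4), (true, -1), (false, 4), (true, -1)]), (202, 1, []), (0, 0, [(false, 8), (true,
  1), (false, 4), (true, 1), (false, -4), (true, -1), (false, 4), (true, -1)]), (4, -1, [(false,
  8), (true, 1), (false, 4), (true, 1), (false, -4), (true, -1), (false, 4), (true, -1)]), (203,
  -1, []), (258, 0, [])], [(155, 0, []), (0, 0, [(false, 8), (true, 1), (false, 4), (true, 1),
  (false, -4), (true, -1), (false, 4), (true, -1)]), (203, 1, []), (2, 0, [(false, 8), (true, 1),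
  (false, 4), (true, 1), (false, -4), (true, -1), (false, 4), (true, -1), (false, -1)]), (3, -1,
  [(false, 8), (true, 1), (false, 4), (true, 1), (false, -4), (true, -1), (false, 4), (true, -1),
  (false, -1)]), (204, -1, []), (259, 0, [])], [(155, 0, []), (2, 0, [(false, 8), (true, 1),
  (false, 4), (true, 1), (false, -4), (true, -1), (false, 4), (true, -1), (false, -1)]), (204, 1,
  []), (0, 0, [(false, 8), (true, 1), (false, 4), (true, 1), (false, -4), (true, -1), (false, 4),
  (true, -1), (false, -1)]), (1, -1, [(false, 8), (true, 1), (false, 4), (true, 1), (false, -4),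
  (true, -1), (false, 4), (true, -1), (false, -1)]), (205, -1, []), (260, 0, [])], [(155, 0, []),
  (0, 0, [(false, 8), (true, 1), (false, 4), (true, 1), (false, -4), (true, -1), (false, 4), (true,
  -1), (false, -1)]), (205, 1, []), (2, 0, [(false, 8), (true, 1), (false, 4), (true, 1), (false,
  -4), (true, -1), (false, 4), (true, -1), (false, -2)]), (3, -1, [(false, 8), (true, 1), (false,
  4), (true, 1), (false, -4), (true, -1), (false, 4), (true, -1), (false, -2)]), (206, -1, []),
  (261, 0, [])], [(155, 0, []), (2, 0, [(false, 8), (true, 1), (false, 4), (true, 1), (false, -4),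
  (true, -1), (false, 4), (true, -1), (false, -2)]), (206, 1, []), (0, 0, [(false, 8), (true, 1),
  (false, 4), (true, 1), (false, -4), (true, -1), (false, 4), (true, -1), (false, -2)]), (1, -1,
  [(false, 8), (true, 1), (false, 4), (true, 1), (false, -4), (true, -1), (false, 4), (true, -1),
  (false, -2)]), (207, -1, []), (262, 0, [])], [(155, 0, []), (0, 0, [(false, 8), (true, 1),
  (false, 4), (true, 1), (false, -4), (true, -1), (false, 4), (true, -1), (false, -2)]), (207, 1,
  []), (2, 0, [(false, 8), (true, 1), (false, 4), (true, 1), (false, -4), (true, -1), (false, 4),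
  (true, -1), (false, -3)]), (3, -1, [(false, 8), (true, 1), (false, 4), (true, 1), (false, -4),
  (true, -1), (false, 4), (true, -1), (false, -3)]), (208, -1, []), (263, 0, [])], [(155, 0, []),
  (2, 0, [(false, 8), (true, 1), (false, 4), (true, 1), (false, -4), (true, -1), (false, 4), (true,
  -1), (false, -3)]), (208, 1, []), (0, 0, [(false, 8), (true, 1), (false, 4), (true, 1), (false,
  -4), (true, -1), (false, 4), (true, -1), (false, -3)]), (1, -1, [(false, 8), (true, 1), (false,
  4), (true, 1), (false, -4), (true, -1), (false, 4), (true, -1), (false, -3)]), (209, -1, []),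
  (264, 0, [])], [(155, 0, []), (0, 0, [(false, 8), (true, 1), (false, 4), (true, 1), (false, -4),
  (true, -1), (false, 4), (true, -1), (false, -3)]), (209, 1, []), (2, 0, [(false, 8), (true, 1),
  (false, 4), (true, 1), (false, -4), (true, -1), (false, 4), (true, -1), (false, -4)]), (3, -1,
  [(false, 8), (true, 1), (false, 4), (true, 1), (false, -4), (true, -1), (false, 4), (true, -1),
  (false, -4)]), (210, -1, []), (265, 0, [])], [(155, 0, []), (2, 0, [(false, 8), (true, 1),
  (false, 4), (true, 1), (false, -4), (true, -1), (false, 4), (true, -1), (false, -4)]), (210, 1,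
  []), (0, 0, []), (1, -1, [(false, 8), (true, 1), (false, 4), (true, 1), (false, -4), (true, -1),
  (false, 4), (true, -1), (false, -4)]), (154, -1, []), (266, 0, [])], [(268, -1, []), (0, 1, []),
  (267, 0, [])], [(268, 0, [])], [(268, -1, []), (270, 1, []), (269, 0, [])], [(270, 0, [])],
  [(270, -1, []), (272, 1, [(false, 1)]), (271, 0, [])]]

/-- Rows of the table. -/
def clY17 : List FS :=
  [[(272, 0, [])], [(272, -1, []), (274, 1, []), (273, 0, [])], [(274, 0, [])], [(274, -1, []),
  (276, 1, [(false, 1)]), (275, 0, [])], [(276, 0, [])], [(276, -1, []), (278, 1, []), (277, 0,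
  [])], [(278, 0, [])], [(278, -1, []), (280, 1, [(false, 1)]), (279, 0, [])], [(280, 0, [])],
  [(280, -1, []), (282, 1, []), (281, 0, [])], [(282, 0, [])], [(282, -1, []), (284, 1, [(false,
  1)]), (283, 0, [])], [(284, 0, [])], [(284, -1, []), (286, 1, []), (285, 0, [])], [(286, 0, [])],
  [(286, -1, []), (288, 1, [(false, 1)]), (287, 0, [])]]

/-- Rows of the table. -/
def clY18 : List FS :=
  [[(288, 0, [])], [(288, -1, []), (290, 1, []), (289, 0, [])], [(290, 0, [])], [(290, -1, []),
  (292, 1, [(false, 1)]), (291, 0, [])], [(292, 0, [])], [(292, -1, []), (294, 1, []), (293, 0,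
  [])], [(294, 0, [])], [(294, -1, []), (296, 1, [(false, 1)]), (295, 0, [])], [(296, 0, [])],
  [(268, -1, []), (5, 1, []), (297, 0, [])], [(268, -1, []), (0, 1, [(true, 1)]), (298, 0, [])],
  [(268, -1, []), (5, 1, [(true, 1)]), (299, 0, [])], [(268, -1, []), (0, 1, [(true, 2)]), (300, 0,
  [])], [(268, -1, []), (5, 1, [(true, 2)]), (301, 0, [])], [(268, -1, []), (0, 1, [(true, 3)]),
  (302, 0, [])], [(268, -1, []), (5, 1, [(true, 3)]), (303, 0, [])]]

/-- Rows of the table. -/
def clY19 : List FS :=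
  [[(268, -1, []), (0, 1, [(true, 4)]), (304, 0, [])], [(268, -1, []), (5, 1, [(true, 4)]), (305,
  0, [])], [(268, -1, []), (0, 1, [(true, 5)]), (306, 0, [])], [(268, -1, []), (5, 1, [(true, 5)]),
  (307, 0, [])], [(268, -1, []), (0, 1, [(true, 6)]), (308, 0, [])], [(268, -1, []), (5, 1, [(true,
  6)]), (309, 0, [])], [(268, -1, []), (0, 1, [(true, 7)]), (310, 0, [])], [(268, -1, []), (5, 1,
  [(true, 7)]), (311, 0, [])], [(268, -1, []), (0, 1, [(true, 8)]), (312, 0, [])], [(268, -1, []),
  (5, 1, [(true, 8)]), (313, 0, [])], [(268, -1, []), (0, 1, [(true, 9)]), (314, 0, [])], [(268,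
  -1, []), (5, 1, [(true, 9)]), (315, 0, [])], [(268, -1, []), (0, 1, [(true, 10)]), (316, 0, [])],
  [(270, -1, []), (2, 1, [(true, 10)]), (317, 0, [])], [(272, -1, []), (0, 1, [(false, -1), (true,
  10), (false, 1)]), (318, 0, [])], [(272, -1, []), (5, 1, [(false, -1), (true, 10), (false, 1),
  (true, -1)]), (319, 0, [])]]

/-- Rows of the table. -/
def clY20 : List FS :=
  [[(272, -1, []), (0, 1, [(false, -1), (true, 10), (false, 1), (true, -1)]), (320, 0, [])], [(272,
  -1, []), (5, 1, [(false, -1), (true, 10), (false, 1), (true, -2)]), (321, 0, [])], [(272, -1,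
  []), (0, 1, [(false, -1), (true, 10), (false, 1), (true, -2)]), (322, 0, [])], [(272, -1, []),
  (5, 1, [(false, -1), (true, 10), (false, 1), (true, -3)]), (323, 0, [])], [(272, -1, []), (0, 1,
  [(false, -1), (true, 10), (false, 1), (true, -3)]), (324, 0, [])], [(272, -1, []), (5, 1,
  [(false, -1), (true, 10), (false, 1), (true, -4)]), (325, 0, [])], [(272, -1, []), (0, 1,
  [(false, -1), (true, 10), (false, 1), (true, -4)]), (326, 0, [])], [(272, -1, []), (5, 1,
  [(false, -1), (true, 10), (false, 1), (true, -5)]), (327, 0, [])], [(272, -1, []), (0, 1,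
  [(false, -1), (true, 10), (false, 1), (true, -5)]), (328, 0, [])], [(274, -1, []), (2, 1,
  [(false, -1), (true, 10), (false, 1), (true, -5)]), (329, 0, [])], [(276, -1, []), (0, 1,
  [(false, -2), (true, 10), (false, 1), (true, -5), (false, 1)]), (330, 0, [])], [(278, -1, []),
  (2, 1, [(false, -2), (true, 10), (false, 1), (true, -5), (false, 1)]), (331, 0, [])], [(280, -1,
  []), (0, 1, [(false, -3), (true, 10), (false, 1), (true, -5), (false, 2)]), (332, 0, [])], [(280,
  -1, []), (5, 1, [(false, -3), (true, 10), (false, 1), (true, -5), (false, 2)]), (333, 0, [])],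
  [(280, -1, []), (0, 1, [(false, -3), (true, 10), (false, 1), (true, -5), (false, 2), (true, 1)]),
  (334, 0, [])], [(280, -1, []), (5, 1, [(false, -3), (true, 10), (false, 1), (true, -5), (false,
  2), (true, 1)]), (335, 0, [])]]

/-- Rows of the table. -/
def clY21 : List FS :=
  [[(280, -1, []), (0, 1, [(false, -3), (true, 10), (false, 1), (true, -5), (false, 2), (true,
  2)]), (336, 0, [])], [(280, -1, []), (5, 1, [(false, -3), (true, 10), (false, 1), (true, -5),
  (false, 2), (true, 2)]), (337, 0, [])], [(280, -1, []), (0, 1, [(false, -3), (true, 10), (false,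
  1), (true, -5), (false, 2), (true, 3)]), (338, 0, [])], [(280, -1, []), (5, 1, [(false, -3),
  (true, 10), (false, 1), (true, -5), (false, 2), (true, 3)]), (339, 0, [])], [(280, -1, []), (0,
  1, [(false, -3), (true, 10), (false, 1), (true, -5), (false, 2), (true, 4)]), (340, 0, [])],
  [(280, -1, []), (5, 1, [(false, -3), (true, 10), (false, 1), (true, -5), (false, 2), (true, 4)]),
  (341, 0, [])], [(280, -1, []), (0, 1, [(false, -3), (true, 10), (false, 1), (true, -5), (false,
  2), (true, 5)]), (342, 0, [])], [(282, -1, []), (2, 1, [(false, -3), (true, 10), (false, 1),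
  (true, -5), (false, 2), (true, 5)]), (343, 0, [])], [(284, -1, []), (0, 1, [(false, -4), (true,
  10), (false, 1), (true, -5), (false, 2), (true, 5), (false, 1)]), (344, 0, [])], [(284, -1, []),
  (5, 1, [(false, -4), (true, 10), (false, 1), (true, -5), (false, 2), (true, 5), (false, 1),
  (true, -1)]), (345, 0, [])], [(284, -1, []), (0, 1, [(false, -4), (true, 10), (false, 1), (true,
  -5), (false, 2), (true, 5), (false, 1), (true, -1)]), (346, 0, [])], [(284, -1, []), (5, 1,
  [(false, -4), (true, 10), (false, 1), (true, -5), (false, 2), (true, 5), (false, 1), (true,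
  -2)]), (347, 0, [])], [(284, -1, []), (0, 1, [(false, -4), (true, 10), (false, 1), (true, -5),
  (false, 2), (true, 5), (false, 1), (true, -2)]), (348, 0, [])], [(284, -1, []), (5, 1, [(false,
  -4), (true, 10), (false, 1), (true, -5), (false, 2), (true, 5), (false, 1), (true, -3)]), (349,
  0, [])], [(284, -1, []), (0, 1, [(false, -4), (true, 10), (false, 1), (true, -5), (false, 2),
  (true, 5), (false, 1), (true, -3)]), (350, 0, [])], [(284, -1, []), (5, 1, [(false, -4), (true,
  10), (false, 1), (true, -5), (false, 2), (true, 5), (false, 1), (true, -4)]), (351, 0, [])]]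

/-- Rows of the table. -/
def clY22 : List FS :=
  [[(284, -1, []), (0, 1, [(false, -4), (true, 10), (false, 1), (true, -5), (false, 2), (true, 5),
  (false, 1), (true, -4)]), (352, 0, [])], [(284, -1, []), (5, 1, [(false, -4), (true, 10), (false,
  1), (true, -5), (false, 2), (true, 5), (false, 1), (true, -5)]), (353, 0, [])], [(284, -1, []),
  (0, 1, [(false, -4), (true, 10), (false, 1), (true, -5), (false, 2), (true, 5), (false, 1),
  (true, -5)]), (354, 0, [])], [(286, -1, []), (2, 1, [(false, -4), (true, 10), (false, 1), (true,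
  -5), (false, 2), (true, 5), (false, 1), (true, -5)]), (355, 0, [])], [(288, -1, []), (0, 1,
  [(false, -5), (true, 10), (false, 1), (true, -5), (false, 2), (true, 5), (false, 1), (true, -5),
  (false, 1)]), (356, 0, [])], [(288, -1, []), (5, 1, [(false, -5), (true, 10), (false, 1), (true,
  -5), (false, 2), (true, 5), (false, 1), (true, -5), (false, 1)]), (357, 0, [])], [(288, -1, []),
  (0, 1, [(false, -5), (true, 10), (false, 1), (true, -5), (false, 2), (true, 5), (false, 1),
  (true, -5), (false, 1), (true, 1)]), (358, 0, [])], [(288, -1, []), (5, 1, [(false, -5), (true,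
  10), (false, 1), (true, -5), (false, 2), (true, 5), (false, 1), (true, -5), (false, 1), (true,
  1)]), (359, 0, [])], [(288, -1, []), (0, 1, [(false, -5), (true, 10), (false, 1), (true, -5),
  (false, 2), (true, 5), (false, 1), (true, -5), (false, 1), (true, 2)]), (360, 0, [])], [(288, -1,
  []), (5, 1, [(false, -5), (true, 10), (false, 1), (true, -5), (false, 2), (true, 5), (false, 1),
  (true, -5), (false, 1), (true, 2)]), (361, 0, [])], [(288, -1, []), (0, 1, [(false, -5), (true,
  10), (false, 1), (true, -5), (false, 2), (true, 5), (false, 1), (true, -5), (false, 1), (true,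
  3)]), (362, 0, [])], [(288, -1, []), (5, 1, [(false, -5), (true, 10), (false, 1), (true, -5),
  (false, 2), (true, 5), (false, 1), (true, -5), (false, 1), (true, 3)]), (363, 0, [])], [(288, -1,
  []), (0, 1, [(false, -5), (true, 10), (false, 1), (true, -5), (false, 2), (true, 5), (false, 1),
  (true, -5), (false, 1), (true, 4)]), (364, 0, [])], [(288, -1, []), (5, 1, [(false, -5), (true,
  10), (false, 1), (true, -5), (false, 2), (true, 5), (false, 1), (true, -5), (false, 1), (true,
  4)]), (365, 0, [])], [(288, -1, []), (0, 1, [(false, -5), (true, 10), (false, 1), (true, -5),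
  (false, 2), (true, 5), (false, 1), (true, -5), (false, 1), (true, 5)]), (366, 0, [])], [(290, -1,
  []), (2, 1, [(false, -5), (true, 10), (false, 1), (true, -5), (false, 2), (true, 5), (false, 1),
  (true, -5), (false, 1), (true, 5)]), (367, 0, [])]]

/-- Rows of the table. -/
def clY23 : List FS :=
  [[(292, -1, []), (0, 1, [(false, -6), (true, 10), (false, 1), (true, -5), (false, 2), (true, 5),
  (false, 1), (true, -5), (false, 1), (true, 5), (false, 1)]), (368, 0, [])], [(294, -1, []), (2,
  1, [(false, -6), (true, 10), (false, 1), (true, -5), (false, 2), (true, 5), (false, 1), (true,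
  -5), (false, 1), (true, 5), (false, 1)]), (369, 0, [])], [(296, -1, []), (0, 1, [(false, -7),
  (true, 10), (false, 1), (true, -5), (false, 2), (true, 5), (false, 1), (true, -5), (false, 1),
  (true, 5), (false, 2)]), (370, 0, [])], [(296, -1, []), (5, 1, [(false, -7), (true, 10), (false,
  1), (true, -5), (false, 2), (true, 5), (false, 1), (true, -5), (false, 1), (true, 5), (false, 2),
  (true, -1)]), (371, 0, [])], [(296, -1, []), (0, 1, [(false, -7), (true, 10), (false, 1), (true,
  -5), (false, 2), (true, 5), (false, 1), (true, -5), (false, 1), (true, 5), (false, 2), (true,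
  -1)]), (372, 0, [])], [(296, -1, []), (5, 1, [(false, -7), (true, 10), (false, 1), (true, -5),
  (false, 2), (true, 5), (false, 1), (true, -5), (false, 1), (true, 5), (false, 2), (true, -2)]),
  (373, 0, [])], [(296, -1, []), (0, 1, [(false, -7), (true, 10), (false, 1), (true, -5), (false,
  2), (true, 5), (false, 1), (true, -5), (false, 1), (true, 5), (false, 2), (true, -2)]), (374, 0,
  [])], [(296, -1, []), (5, 1, [(false, -7), (true, 10), (false, 1), (true, -5), (false, 2), (true,
  5), (false, 1), (true, -5), (false, 1), (true, 5), (false, 2), (true, -3)]), (375, 0, [])],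
  [(296, -1, []), (0, 1, [(false, -7), (true, 10), (false, 1), (true, -5), (false, 2), (true, 5),
  (false, 1), (true, -5), (false, 1), (true, 5), (false, 2), (true, -3)]), (376, 0, [])], [(296,
  -1, []), (5, 1, [(false, -7), (true, 10), (false, 1), (true, -5), (false, 2), (true, 5), (false,
  1), (true, -5), (false, 1), (true, 5), (false, 2), (true, -4)]), (377, 0, [])], [(296, -1, []),
  (0, 1, [(false, -7), (true, 10), (false, 1), (true, -5), (false, 2), (true, 5), (false, 1),
  (true, -5), (false, 1), (true, 5), (false, 2), (true, -4)]), (378, 0, [])], [(296, -1, []), (5,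
  1, [(false, -7), (true, 10), (false, 1), (true, -5), (false, 2), (true, 5), (false, 1), (true,
  -5), (false, 1), (true, 5), (false, 2), (true, -5)]), (379, 0, [])], [(296, -1, []), (0, 1,
  [(false, -7), (true, 10), (false, 1), (true, -5), (false, 2), (true, 5), (false, 1), (true, -5),
  (false, 1), (true, 5), (false, 2), (true, -5)]), (380, 0, [])], [(294, -1, []), (2, 1, [(false,
  -6), (true, 10), (false, 1), (true, -5), (false, 2), (true, 5), (false, 1), (true, -5), (false,
  1), (true, 5), (false, 2), (true, -5), (false, -1)]), (381, 0, [])], [(292, -1, []), (0, 1,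
  [(false, -6), (true, 10), (false, 1), (true, -5), (false, 2), (true, 5), (false, 1), (true, -5),
  (false, 1), (true, 5), (false, 2), (true, -5), (false, -1)]), (382, 0, [])], [(290, -1, []), (2,
  1, [(false, -5), (true, 10), (false, 1), (true, -5), (false, 2), (true, 5), (false, 1), (true,
  -5), (false, 1), (true, 5), (false, 2), (true, -5), (false, -2)]), (383, 0, [])]]

/-- Rows of the table. -/
def clY24 : List FS :=
  [[(288, -1, []), (0, 1, [(false, -5), (true, 10), (false, 1), (true, -5), (false, 2), (true, 5),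
  (false, 1), (true, -5), (false, 1), (true, 5), (false, 2), (true, -5), (false, -2)]), (384, 0,
  [])], [(286, -1, []), (2, 1, [(false, -4), (true, 10), (false, 1), (true, -5), (false, 2), (true,
  5), (false, 1), (true, -5), (false, 1), (true, 5), (false, 2), (true, -5), (false, -3)]), (385,
  0, [])], [(284, -1, []), (0, 1, [(false, -4), (true, 10), (false, 1), (true, -5), (false, 2),
  (true, 5), (false, 1), (true, -5), (false, 1), (true, 5), (false, 2), (true, -5), (false, -3)]),
  (386, 0, [])], [(282, -1, []), (2, 1, [(false, -3), (true, 10), (false, 1), (true, -5), (false,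
  2), (true, 5), (false, 1), (true, -5), (false, 1), (true, 5), (false, 2), (true, -5), (false,
  -4)]), (387, 0, [])], [(280, -1, []), (0, 1, [(false, -3), (true, 10), (false, 1), (true, -5),
  (false, 2), (true, 5), (false, 1), (true, -5), (false, 1), (true, 5), (false, 2), (true, -5),
  (false, -4)]), (388, 0, [])], [(278, -1, []), (2, 1, [(false, -2), (true, 10), (false, 1), (true,
  -5), (false, 2), (true, 5), (false, 1), (true, -5), (false, 1), (true, 5), (false, 2), (true,
  -5), (false, -5)]), (389, 0, [])], [(276, -1, []), (0, 1, [(false, -2), (true, 10), (false, 1),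
  (true, -5), (false, 2), (true, 5), (false, 1), (true, -5), (false, 1), (true, 5), (false, 2),
  (true, -5), (false, -5)]), (390, 0, [])], [(274, -1, []), (2, 1, [(false, -1), (true, 10),
  (false, 1), (true, -5), (false, 2), (true, 5), (false, 1), (true, -5), (false, 1), (true, 5),
  (false, 2), (true, -5), (false, -6)]), (391, 0, [])], [(272, -1, []), (0, 1, [(false, -1), (true,
  10), (false, 1), (true, -5), (false, 2), (true, 5), (false, 1), (true, -5), (false, 1), (true,
  5), (false, 2), (true, -5), (false, -6)]), (392, 0, [])], [(270, -1, []), (2, 1, [(true, 10),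
  (false, 1), (true, -5), (false, 2), (true, 5), (false, 1), (true, -5), (false, 1), (true, 5),
  (false, 2), (true, -5), (false, -7)]), (393, 0, [])], [(268, 0, []), (0, 0, []), (267, 1, []),
  (5, 0, []), (4, 1, []), (297, -1, []), (394, 0, [])], [(268, 0, []), (5, 0, []), (297, 1, []),
  (0, 0, [(true, 1)]), (6, 1, []), (298, -1, []), (395, 0, [])], [(268, 0, []), (0, 0, [(true,
  1)]), (298, 1, []), (5, 0, [(true, 1)]), (4, 1, [(true, 1)]), (299, -1, []), (396, 0, [])],
  [(268, 0, []), (5, 0, [(true, 1)]), (299, 1, []), (0, 0, [(true, 2)]), (6, 1, [(true, 1)]), (300,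
  -1, []), (397, 0, [])], [(268, 0, []), (0, 0, [(true, 2)]), (300, 1, []), (5, 0, [(true, 2)]),
  (4, 1, [(true, 2)]), (301, -1, []), (398, 0, [])], [(268, 0, []), (5, 0, [(true, 2)]), (301, 1,
  []), (0, 0, [(true, 3)]), (6, 1, [(true, 2)]), (302, -1, []), (399, 0, [])]]

/-- Rows of the table. -/
def clY25 : List FS :=
  [[(268, 0, []), (0, 0, [(true, 3)]), (302, 1, []), (5, 0, [(true, 3)]), (4, 1, [(true, 3)]),
  (303, -1, []), (400, 0, [])], [(268, 0, []), (5, 0, [(true, 3)]), (303, 1, []), (0, 0, [(true,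
  4)]), (6, 1, [(true, 3)]), (304, -1, []), (401, 0, [])], [(268, 0, []), (0, 0, [(true, 4)]),
  (304, 1, []), (5, 0, [(true, 4)]), (4, 1, [(true, 4)]), (305, -1, []), (402, 0, [])], [(268, 0,
  []), (5, 0, [(true, 4)]), (305, 1, []), (0, 0, [(true, 5)]), (6, 1, [(true, 4)]), (306, -1, []),
  (403, 0, [])], [(268, 0, []), (0, 0, [(true, 5)]), (306, 1, []), (5, 0, [(true, 5)]), (4, 1,
  [(true, 5)]), (307, -1, []), (404, 0, [])], [(268, 0, []), (5, 0, [(true, 5)]), (307, 1, []), (0,
  0, [(true, 6)]), (6, 1, [(true, 5)]), (308, -1, []), (405, 0, [])], [(268, 0, []), (0, 0, [(true,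
  6)]), (308, 1, []), (5, 0, [(true, 6)]), (4, 1, [(true, 6)]), (309, -1, []), (406, 0, [])],
  [(268, 0, []), (5, 0, [(true, 6)]), (309, 1, []), (0, 0, [(true, 7)]), (6, 1, [(true, 6)]), (310,
  -1, []), (407, 0, [])], [(268, 0, []), (0, 0, [(true, 7)]), (310, 1, []), (5, 0, [(true, 7)]),
  (4, 1, [(true, 7)]), (311, -1, []), (408, 0, [])], [(268, 0, []), (5, 0, [(true, 7)]), (311, 1,
  []), (0, 0, [(true, 8)]), (6, 1, [(true, 7)]), (312, -1, []), (409, 0, [])], [(268, 0, []), (0,
  0, [(true, 8)]), (312, 1, []), (5, 0, [(true, 8)]), (4, 1, [(true, 8)]), (313, -1, []), (410, 0,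
  [])], [(268, 0, []), (5, 0, [(true, 8)]), (313, 1, []), (0, 0, [(true, 9)]), (6, 1, [(true, 8)]),
  (314, -1, []), (411, 0, [])], [(268, 0, []), (0, 0, [(true, 9)]), (314, 1, []), (5, 0, [(true,
  9)]), (4, 1, [(true, 9)]), (315, -1, []), (412, 0, [])], [(268, 0, []), (5, 0, [(true, 9)]),
  (315, 1, []), (0, 0, [(true, 10)]), (6, 1, [(true, 9)]), (316, -1, []), (413, 0, [])], [(268, 0,
  []), (0, 0, [(true, 10)]), (316, 1, []), (2, 0, [(true, 10)]), (1, 1, [(true, 10)]), (270, 0,
  []), (317, -1, []), (269, -1, []), (414, 0, [])], [(270, 0, []), (2, 0, [(true, 10)]), (317, 1,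
  []), (0, 0, [(true, 10), (false, 1)]), (3, 1, [(true, 10)]), (272, 0, [(false, 1)]), (318, -1,
  [(false, 1)]), (271, -1, []), (415, 0, [])]]

/-- Rows of the table. -/
def clY26 : List FS :=
  [[(272, 0, []), (5, 0, [(false, -1), (true, 10), (false, 1), (true, -1)]), (319, 1, []), (0, 0,
  [(false, -1), (true, 10), (false, 1)]), (6, 1, [(false, -1), (true, 10), (false, 1), (true,
  -1)]), (318, -1, []), (416, 0, [])], [(272, 0, []), (0, 0, [(false, -1), (true, 10), (false, 1),
  (true, -1)]), (320, 1, []), (5, 0, [(false, -1), (true, 10), (false, 1), (true, -1)]), (4, 1,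
  [(false, -1), (true, 10), (false, 1), (true, -1)]), (319, -1, []), (417, 0, [])], [(272, 0, []),
  (5, 0, [(false, -1), (true, 10), (false, 1), (true, -2)]), (321, 1, []), (0, 0, [(false, -1),
  (true, 10), (false, 1), (true, -1)]), (6, 1, [(false, -1), (true, 10), (false, 1), (true, -2)]),
  (320, -1, []), (418, 0, [])], [(272, 0, []), (0, 0, [(false, -1), (true, 10), (false, 1), (true,
  -2)]), (322, 1, []), (5, 0, [(false, -1), (true, 10), (false, 1), (true, -2)]), (4, 1, [(false,
  -1), (true, 10), (false, 1), (true, -2)]), (321, -1, []), (419, 0, [])], [(272, 0, []), (5, 0,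
  [(false, -1), (true, 10), (false, 1), (true, -3)]), (323, 1, []), (0, 0, [(false, -1), (true,
  10), (false, 1), (true, -2)]), (6, 1, [(false, -1), (true, 10), (false, 1), (true, -3)]), (322,
  -1, []), (420, 0, [])], [(272, 0, []), (0, 0, [(false, -1), (true, 10), (false, 1), (true, -3)]),
  (324, 1, []), (5, 0, [(false, -1), (true, 10), (false, 1), (true, -3)]), (4, 1, [(false, -1),
  (true, 10), (false, 1), (true, -3)]), (323, -1, []), (421, 0, [])], [(272, 0, []), (5, 0,
  [(false, -1), (true, 10), (false, 1), (true, -4)]), (325, 1, []), (0, 0, [(false, -1), (true,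
  10), (false, 1), (true, -3)]), (6, 1, [(false, -1), (true, 10), (false, 1), (true, -4)]), (324,
  -1, []), (422, 0, [])], [(272, 0, []), (0, 0, [(false, -1), (true, 10), (false, 1), (true, -4)]),
  (326, 1, []), (5, 0, [(false, -1), (true, 10), (false, 1), (true, -4)]), (4, 1, [(false, -1),
  (true, 10), (false, 1), (true, -4)]), (325, -1, []), (423, 0, [])], [(272, 0, []), (5, 0,
  [(false, -1), (true, 10), (false, 1), (true, -5)]), (327, 1, []), (0, 0, [(false, -1), (true,
  10), (false, 1), (true, -4)]), (6, 1, [(false, -1), (true, 10), (false, 1), (true, -5)]), (326,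
  -1, []), (424, 0, [])], [(272, 0, []), (0, 0, [(false, -1), (true, 10), (false, 1), (true, -5)]),
  (328, 1, []), (5, 0, [(false, -1), (true, 10), (false, 1), (true, -5)]), (4, 1, [(false, -1),
  (true, 10), (false, 1), (true, -5)]), (327, -1, []), (425, 0, [])], [(272, 0, []), (0, 0,
  [(false, -1), (true, 10), (false, 1), (true, -5)]), (328, 1, []), (2, 0, [(false, -1), (true,
  10), (false, 1), (true, -5)]), (1, 1, [(false, -1), (true, 10), (false, 1), (true, -5)]), (274,
  0, []), (329, -1, []), (273, -1, []), (426, 0, [])], [(274, 0, []), (2, 0, [(false, -1), (true,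
  10), (false, 1), (true, -5)]), (329, 1, []), (0, 0, [(false, -1), (true, 10), (false, 1), (true,
  -5), (false, 1)]), (3, 1, [(false, -1), (true, 10), (false, 1), (true, -5)]), (276, 0, [(false,
  1)]), (330, -1, [(false, 1)]), (275, -1, []), (427, 0, [])], [(276, 0, []), (0, 0, [(false, -2),
  (true, 10), (false, 1), (true, -5), (false, 1)]), (330, 1, []), (2, 0, [(false, -2), (true, 10),
  (false, 1), (true, -5), (false, 1)]), (1, 1, [(false, -2), (true, 10), (false, 1), (true, -5),
  (false, 1)]), (278, 0, []), (331, -1, []), (277, -1, []), (428, 0, [])], [(278, 0, []), (2, 0,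
  [(false, -2), (true, 10), (false, 1), (true, -5), (false, 1)]), (331, 1, []), (0, 0, [(false,
  -2), (true, 10), (false, 1), (true, -5), (false, 2)]), (3, 1, [(false, -2), (true, 10), (false,
  1), (true, -5), (false, 1)]), (280, 0, [(false, 1)]), (332, -1, [(false, 1)]), (279, -1, []),
  (429, 0, [])], [(280, 0, []), (0, 0, [(false, -3), (true, 10), (false, 1), (true, -5), (false,
  2)]), (332, 1, []), (5, 0, [(false, -3), (true, 10), (false, 1), (true, -5), (false, 2)]), (4, 1,
  [(false, -3), (true, 10), (false, 1), (true, -5), (false, 2)]), (333, -1, []), (430, 0, [])],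
  [(280, 0, []), (5, 0, [(false, -3), (true, 10), (false, 1), (true, -5), (false, 2)]), (333, 1,
  []), (0, 0, [(false, -3), (true, 10), (false, 1), (true, -5), (false, 2), (true, 1)]), (6, 1,
  [(false, -3), (true, 10), (false, 1), (true, -5), (false, 2)]), (334, -1, []), (431, 0, [])]]

/-- Rows of the table. -/
def clY27 : List FS :=
  [[(280, 0, []), (0, 0, [(false, -3), (true, 10), (false, 1), (true, -5), (false, 2), (true, 1)]),
  (334, 1, []), (5, 0, [(false, -3), (true, 10), (false, 1), (true, -5), (false, 2), (true, 1)]),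
  (4, 1, [(false, -3), (true, 10), (false, 1), (true, -5), (false, 2), (true, 1)]), (335, -1, []),
  (432, 0, [])], [(280, 0, []), (5, 0, [(false, -3), (true, 10), (false, 1), (true, -5), (false,
  2), (true, 1)]), (335, 1, []), (0, 0, [(false, -3), (true, 10), (false, 1), (true, -5), (false,
  2), (true, 2)]), (6, 1, [(false, -3), (true, 10), (false, 1), (true, -5), (false, 2), (true,
  1)]), (336, -1, []), (433, 0, [])], [(280, 0, []), (0, 0, [(false, -3), (true, 10), (false, 1),
  (true, -5), (false, 2), (true, 2)]), (336, 1, []), (5, 0, [(false, -3), (true, 10), (false, 1),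
  (true, -5), (false, 2), (true, 2)]), (4, 1, [(false, -3), (true, 10), (false, 1), (true, -5),
  (false, 2), (true, 2)]), (337, -1, []), (434, 0, [])], [(280, 0, []), (5, 0, [(false, -3), (true,
  10), (false, 1), (true, -5), (false, 2), (true, 2)]), (337, 1, []), (0, 0, [(false, -3), (true,
  10), (false, 1), (true, -5), (false, 2), (true, 3)]), (6, 1, [(false, -3), (true, 10), (false,
  1), (true, -5), (false, 2), (true, 2)]), (338, -1, []), (435, 0, [])], [(280, 0, []), (0, 0,
  [(false, -3), (true, 10), (false, 1), (true, -5), (false, 2), (true, 3)]), (338, 1, []), (5, 0,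
  [(false, -3), (true, 10), (false, 1), (true, -5), (false, 2), (true, 3)]), (4, 1, [(false, -3),
  (true, 10), (false, 1), (true, -5), (false, 2), (true, 3)]), (339, -1, []), (436, 0, [])], [(280,
  0, []), (5, 0, [(false, -3), (true, 10), (false, 1), (true, -5), (false, 2), (true, 3)]), (339,
  1, []), (0, 0, [(false, -3), (true, 10), (false, 1), (true, -5), (false, 2), (true, 4)]), (6, 1,
  [(false, -3), (true, 10), (false, 1), (true, -5), (false, 2), (true, 3)]), (340, -1, []), (437,
  0, [])], [(280, 0, []), (0, 0, [(false, -3), (true, 10), (false, 1), (true, -5), (false, 2),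
  (true, 4)]), (340, 1, []), (5, 0, [(false, -3), (true, 10), (false, 1), (true, -5), (false, 2),
  (true, 4)]), (4, 1, [(false, -3), (true, 10), (false, 1), (true, -5), (false, 2), (true, 4)]),
  (341, -1, []), (438, 0, [])], [(280, 0, []), (5, 0, [(false, -3), (true, 10), (false, 1), (true,
  -5), (false, 2), (true, 4)]), (341, 1, []), (0, 0, [(false, -3), (true, 10), (false, 1), (true,
  -5), (false, 2), (true, 5)]), (6, 1, [(false, -3), (true, 10), (false, 1), (true, -5), (false,
  2), (true, 4)]), (342, -1, []), (439, 0, [])], [(280, 0, []), (0, 0, [(false, -3), (true, 10),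
  (false, 1), (true, -5), (false, 2), (true, 5)]), (342, 1, []), (2, 0, [(false, -3), (true, 10),
  (false, 1), (true, -5), (false, 2), (true, 5)]), (1, 1, [(false, -3), (true, 10), (false, 1),
  (true, -5), (false, 2), (true, 5)]), (282, 0, []), (343, -1, []), (281, -1, []), (440, 0, [])],
  [(282, 0, []), (2, 0, [(false, -3), (true, 10), (false, 1), (true, -5), (false, 2), (true, 5)]),
  (343, 1, []), (0, 0, [(false, -3), (true, 10), (false, 1), (true, -5), (false, 2), (true, 5),
  (false, 1)]), (3, 1, [(false, -3), (true, 10), (false, 1), (true, -5), (false, 2), (true, 5)]),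
  (284, 0, [(false, 1)]), (344, -1, [(false, 1)]), (283, -1, []), (441, 0, [])], [(284, 0, []), (5,
  0, [(false, -4), (true, 10), (false, 1), (true, -5), (false, 2), (true, 5), (false, 1), (true,
  -1)]), (345, 1, []), (0, 0, [(false, -4), (true, 10), (false, 1), (true, -5), (false, 2), (true,
  5), (false, 1)]), (6, 1, [(false, -4), (true, 10), (false, 1), (true, -5), (false, 2), (true, 5),
  (false, 1), (true, -1)]), (344, -1, []), (442, 0, [])], [(284, 0, []), (0, 0, [(false, -4),
  (true, 10), (false, 1), (true, -5), (false, 2), (true, 5), (false, 1), (true, -1)]), (346, 1,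
  []), (5, 0, [(false, -4), (true, 10), (false, 1), (true, -5), (false, 2), (true, 5), (false, 1),
  (true, -1)]), (4, 1, [(false, -4), (true, 10), (false, 1), (true, -5), (false, 2), (true, 5),
  (false, 1), (true, -1)]), (345, -1, []), (443, 0, [])], [(284, 0, []), (5, 0, [(false, -4),
  (true, 10), (false, 1), (true, -5), (false, 2), (true, 5), (false, 1), (true, -2)]), (347, 1,
  []), (0, 0, [(false, -4), (true, 10), (false, 1), (true, -5), (false, 2), (true, 5), (false, 1),
  (true, -1)]), (6, 1, [(false, -4), (true, 10), (false, 1), (true, -5), (false, 2), (true, 5),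
  (false, 1), (true, -2)]), (346, -1, []), (444, 0, [])], [(284, 0, []), (0, 0, [(false, -4),
  (true, 10), (false, 1), (true, -5), (false, 2), (true, 5), (false, 1), (true, -2)]), (348, 1,
  []), (5, 0, [(false, -4), (true, 10), (false, 1), (true, -5), (false, 2), (true, 5), (false, 1),
  (true, -2)]), (4, 1, [(false, -4), (true, 10), (false, 1), (true, -5), (false, 2), (true, 5),
  (false, 1), (true, -2)]), (347, -1, []), (445, 0, [])], [(284, 0, []), (5, 0, [(false, -4),
  (true, 10), (false, 1), (true, -5), (false, 2), (true, 5), (false, 1), (true, -3)]), (349, 1,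
  []), (0, 0, [(false, -4), (true, 10), (false, 1), (true, -5), (false, 2), (true, 5), (false, 1),
  (true, -2)]), (6, 1, [(false, -4), (true, 10), (false, 1), (true, -5), (false, 2), (true, 5),
  (false, 1), (true, -3)]), (348, -1, []), (446, 0, [])], [(284, 0, []), (0, 0, [(false, -4),
  (true, 10), (false, 1), (true, -5), (false, 2), (true, 5), (false, 1), (true, -3)]), (350, 1,
  []), (5, 0, [(false, -4), (true, 10), (false, 1), (true, -5), (false, 2), (true, 5), (false, 1),
  (true, -3)]), (4, 1, [(false, -4), (true, 10), (false, 1), (true, -5), (false, 2), (true, 5),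
  (false, 1), (true, -3)]), (349, -1, []), (447, 0, [])]]

/-- Rows of the table. -/
def clY28 : List FS :=
  [[(284, 0, []), (5, 0, [(false, -4), (true, 10), (false, 1), (true, -5), (false, 2), (true, 5),
  (false, 1), (true, -4)]), (351, 1, []), (0, 0, [(false, -4), (true, 10), (false, 1), (true, -5),
  (false, 2), (true, 5), (false, 1), (true, -3)]), (6, 1, [(false, -4), (true, 10), (false, 1),
  (true, -5), (false, 2), (true, 5), (false, 1), (true, -4)]), (350, -1, []), (448, 0, [])], [(284,
  0, []), (0, 0, [(false, -4), (true, 10), (false, 1), (true, -5), (false, 2), (true, 5), (false,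
  1), (true, -4)]), (352, 1, []), (5, 0, [(false, -4), (true, 10), (false, 1), (true, -5), (false,
  2), (true, 5), (false, 1), (true, -4)]), (4, 1, [(false, -4), (true, 10), (false, 1), (true, -5),
  (false, 2), (true, 5), (false, 1), (true, -4)]), (351, -1, []), (449, 0, [])], [(284, 0, []), (5,
  0, [(false, -4), (true, 10), (false, 1), (true, -5), (false, 2), (true, 5), (false, 1), (true,
  -5)]), (353, 1, []), (0, 0, [(false, -4), (true, 10), (false, 1), (true, -5), (false, 2), (true,
  5), (false, 1), (true, -4)]), (6, 1, [(false, -4), (true, 10), (false, 1), (true, -5), (false,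
  2), (true, 5), (false, 1), (true, -5)]), (352, -1, []), (450, 0, [])], [(284, 0, []), (0, 0,
  [(false, -4), (true, 10), (false, 1), (true, -5), (false, 2), (true, 5), (false, 1), (true,
  -5)]), (354, 1, []), (5, 0, [(false, -4), (true, 10), (false, 1), (true, -5), (false, 2), (true,
  5), (false, 1), (true, -5)]), (4, 1, [(false, -4), (true, 10), (false, 1), (true, -5), (false,
  2), (true, 5), (false, 1), (true, -5)]), (353, -1, []), (451, 0, [])], [(284, 0, []), (0, 0,
  [(false, -4), (true, 10), (false, 1), (true, -5), (false, 2), (true, 5), (false, 1), (true,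
  -5)]), (354, 1, []), (2, 0, [(false, -4), (true, 10), (false, 1), (true, -5), (false, 2), (true,
  5), (false, 1), (true, -5)]), (1, 1, [(false, -4), (true, 10), (false, 1), (true, -5), (false,
  2), (true, 5), (false, 1), (true, -5)]), (286, 0, []), (355, -1, []), (285, -1, []), (452, 0,
  [])], [(286, 0, []), (2, 0, [(false, -4), (true, 10), (false, 1), (true, -5), (false, 2), (true,
  5), (false, 1), (true, -5)]), (355, 1, []), (0, 0, [(false, -4), (true, 10), (false, 1), (true,
  -5), (false, 2), (true, 5), (false, 1), (true, -5), (false, 1)]), (3, 1, [(false, -4), (true,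
  10), (false, 1), (true, -5), (false, 2), (true, 5), (false, 1), (true, -5)]), (288, 0, [(false,
  1)]), (356, -1, [(false, 1)]), (287, -1, []), (453, 0, [])], [(288, 0, []), (0, 0, [(false, -5),
  (true, 10), (false, 1), (true, -5), (false, 2), (true, 5), (false, 1), (true, -5), (false, 1)]),
  (356, 1, []), (5, 0, [(false, -5), (true, 10), (false, 1), (true, -5), (false, 2), (true, 5),
  (false, 1), (true, -5), (false, 1)]), (4, 1, [(false, -5), (true, 10), (false, 1), (true, -5),
  (false, 2), (true, 5), (false, 1), (true, -5), (false, 1)]), (357, -1, []), (454, 0, [])], [(288,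
  0, []), (5, 0, [(false, -5), (true, 10), (false, 1), (true, -5), (false, 2), (true, 5), (false,
  1), (true, -5), (false, 1)]), (357, 1, []), (0, 0, [(false, -5), (true, 10), (false, 1), (true,
  -5), (false, 2), (true, 5), (false, 1), (true, -5), (false, 1), (true, 1)]), (6, 1, [(false, -5),
  (true, 10), (false, 1), (true, -5), (false, 2), (true, 5), (false, 1), (true, -5), (false, 1)]),
  (358, -1, []), (455, 0, [])], [(288, 0, []), (0, 0, [(false, -5), (true, 10), (false, 1), (true,
  -5), (false, 2), (true, 5), (false, 1), (true, -5), (false, 1), (true, 1)]), (358, 1, []), (5, 0,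
  [(false, -5), (true, 10), (false, 1), (true, -5), (false, 2), (true, 5), (false, 1), (true, -5),
  (false, 1), (true, 1)]), (4, 1, [(false, -5), (true, 10), (false, 1), (true, -5), (false, 2),
  (true, 5), (false, 1), (true, -5), (false, 1), (true, 1)]), (359, -1, []), (456, 0, [])], [(288,
  0, []), (5, 0, [(false, -5), (true, 10), (false, 1), (true, -5), (false, 2), (true, 5), (false,
  1), (true, -5), (false, 1), (true, 1)]), (359, 1, []), (0, 0, [(false, -5), (true, 10), (false,
  1), (true, -5), (false, 2), (true, 5), (false, 1), (true, -5), (false, 1), (true, 2)]), (6, 1,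
  [(false, -5), (true, 10), (false, 1), (true, -5), (false, 2), (true, 5), (false, 1), (true, -5),
  (false, 1), (true, 1)]), (360, -1, []), (457, 0, [])], [(288, 0, []), (0, 0, [(false, -5), (true,
  10), (false, 1), (true, -5), (false, 2), (true, 5), (false, 1), (true, -5), (false, 1), (true,
  2)]), (360, 1, []), (5, 0, [(false, -5), (true, 10), (false, 1), (true, -5), (false, 2), (true,
  5), (false, 1), (true, -5), (false, 1), (true, 2)]), (4, 1, [(false, -5), (true, 10), (false, 1),
  (true, -5), (false, 2), (true, 5), (false, 1), (true, -5), (false, 1), (true, 2)]), (361, -1,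
  []), (458, 0, [])], [(288, 0, []), (5, 0, [(false, -5), (true, 10), (false, 1), (true, -5),
  (false, 2), (true, 5), (false, 1), (true, -5), (false, 1), (true, 2)]), (361, 1, []), (0, 0,
  [(false, -5), (true, 10), (false, 1), (true, -5), (false, 2), (true, 5), (false, 1), (true, -5),
  (false, 1), (true, 3)]), (6, 1, [(false, -5), (true, 10), (false, 1), (true, -5), (false, 2),
  (true, 5), (false, 1), (true, -5), (false, 1), (true, 2)]), (362, -1, []), (459, 0, [])], [(288,
  0, []), (0, 0, [(false, -5), (true, 10), (false, 1), (true, -5), (false, 2), (true, 5), (false,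
  1), (true, -5), (false, 1), (true, 3)]), (362, 1, []), (5, 0, [(false, -5), (true, 10), (false,
  1), (true, -5), (false, 2), (true, 5), (false, 1), (true, -5), (false, 1), (true, 3)]), (4, 1,
  [(false, -5), (true, 10), (false, 1), (true, -5), (false, 2), (true, 5), (false, 1), (true, -5),
  (false, 1), (true, 3)]), (363, -1, []), (460, 0, [])], [(288, 0, []), (5, 0, [(false, -5), (true,
  10), (false, 1), (true, -5), (false, 2), (true, 5), (false, 1), (true, -5), (false, 1), (true,
  3)]), (363, 1, []), (0, 0, [(false, -5), (true, 10), (false, 1), (true, -5), (false, 2), (true,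
  5), (false, 1), (true, -5), (false, 1), (true, 4)]), (6, 1, [(false, -5), (true, 10), (false, 1),
  (true, -5), (false, 2), (true, 5), (false, 1), (true, -5), (false, 1), (true, 3)]), (364, -1,
  []), (461, 0, [])], [(288, 0, []), (0, 0, [(false, -5), (true, 10), (false, 1), (true, -5),
  (false, 2), (true, 5), (false, 1), (true, -5), (false, 1), (true, 4)]), (364, 1, []), (5, 0,
  [(false, -5), (true, 10), (false, 1), (true, -5), (false, 2), (true, 5), (false, 1), (true, -5),
  (false, 1), (true, 4)]), (4, 1, [(false, -5), (true, 10), (false, 1), (true, -5), (false, 2),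
  (true, 5), (false, 1), (true, -5), (false, 1), (true, 4)]), (365, -1, []), (462, 0, [])], [(288,
  0, []), (5, 0, [(false, -5), (true, 10), (false, 1), (true, -5), (false, 2), (true, 5), (false,
  1), (true, -5), (false, 1), (true, 4)]), (365, 1, []), (0, 0, [(false, -5), (true, 10), (false,
  1), (true, -5), (false, 2), (true, 5), (false, 1), (true, -5), (false, 1), (true, 5)]), (6, 1,
  [(false, -5), (true, 10), (false, 1), (true, -5), (false, 2), (true, 5), (false, 1), (true, -5),
  (false, 1), (true, 4)]), (366, -1, []), (463, 0, [])]]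

/-- Rows of the table. -/
def clY29 : List FS :=
  [[(288, 0, []), (0, 0, [(false, -5), (true, 10), (false, 1), (true, -5), (false, 2), (true, 5),
  (false, 1), (true, -5), (false, 1), (true, 5)]), (366, 1, []), (2, 0, [(false, -5), (true, 10),
  (false, 1), (true, -5), (false, 2), (true, 5), (false, 1), (true, -5), (false, 1), (true, 5)]),
  (1, 1, [(false, -5), (true, 10), (false, 1), (true, -5), (false, 2), (true, 5), (false, 1),
  (true, -5), (false, 1), (true, 5)]), (290, 0, []), (367, -1, []), (289, -1, []), (464, 0, [])],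
  [(290, 0, []), (2, 0, [(false, -5), (true, 10), (false, 1), (true, -5), (false, 2), (true, 5),
  (false, 1), (true, -5), (false, 1), (true, 5)]), (367, 1, []), (0, 0, [(false, -5), (true, 10),
  (false, 1), (true, -5), (false, 2), (true, 5), (false, 1), (true, -5), (false, 1), (true, 5),
  (false, 1)]), (3, 1, [(false, -5), (true, 10), (false, 1), (true, -5), (false, 2), (true, 5),
  (false, 1), (true, -5), (false, 1), (true, 5)]), (292, 0, [(false, 1)]), (368, -1, [(false, 1)]),
  (291, -1, []), (465, 0, [])], [(292, 0, []), (0, 0, [(false, -6), (true, 10), (false, 1), (true,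
  -5), (false, 2), (true, 5), (false, 1), (true, -5), (false, 1), (true, 5), (false, 1)]), (368, 1,
  []), (2, 0, [(false, -6), (true, 10), (false, 1), (true, -5), (false, 2), (true, 5), (false, 1),
  (true, -5), (false, 1), (true, 5), (false, 1)]), (1, 1, [(false, -6), (true, 10), (false, 1),
  (true, -5), (false, 2), (true, 5), (false, 1), (true, -5), (false, 1), (true, 5), (false, 1)]),
  (294, 0, []), (369, -1, []), (293, -1, []), (466, 0, [])], [(294, 0, []), (2, 0, [(false, -6),
  (true, 10), (false, 1), (true, -5), (false, 2), (true, 5), (false, 1), (true, -5), (false, 1),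
  (true, 5), (false, 1)]), (369, 1, []), (0, 0, [(false, -6), (true, 10), (false, 1), (true, -5),
  (false, 2), (true, 5), (false, 1), (true, -5), (false, 1), (true, 5), (false, 2)]), (3, 1,
  [(false, -6), (true, 10), (false, 1), (true, -5), (false, 2), (true, 5), (false, 1), (true, -5),
  (false, 1), (true, 5), (false, 1)]), (296, 0, [(false, 1)]), (370, -1, [(false, 1)]), (295, -1,
  []), (467, 0, [])], [(296, 0, []), (5, 0, [(false, -7), (true, 10), (false, 1), (true, -5),
  (false, 2), (true, 5), (false, 1), (true, -5), (false, 1), (true, 5), (false, 2), (true, -1)]),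
  (371, 1, []), (0, 0, [(false, -7), (true, 10), (false, 1), (true, -5), (false, 2), (true, 5),
  (false, 1), (true, -5), (false, 1), (true, 5), (false, 2)]), (6, 1, [(false, -7), (true, 10),
  (false, 1), (true, -5), (false, 2), (true, 5), (false, 1), (true, -5), (false, 1), (true, 5),
  (false, 2), (true, -1)]), (370, -1, []), (468, 0, [])], [(296, 0, []), (0, 0, [(false, -7),
  (true, 10), (false, 1), (true, -5), (false, 2), (true, 5), (false, 1), (true, -5), (false, 1),
  (true, 5), (false, 2), (true, -1)]), (372, 1, []), (5, 0, [(false, -7), (true, 10), (false, 1),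
  (true, -5), (false, 2), (true, 5), (false, 1), (true, -5), (false, 1), (true, 5), (false, 2),
  (true, -1)]), (4, 1, [(false, -7), (true, 10), (false, 1), (true, -5), (false, 2), (true, 5),
  (false, 1), (true, -5), (false, 1), (true, 5), (false, 2), (true, -1)]), (371, -1, []), (469, 0,
  [])], [(296, 0, []), (5, 0, [(false, -7), (true, 10), (false, 1), (true, -5), (false, 2), (true,
  5), (false, 1), (true, -5), (false, 1), (true, 5), (false, 2), (true, -2)]), (373, 1, []), (0, 0,
  [(false, -7), (true, 10), (false, 1), (true, -5), (false, 2), (true, 5), (false, 1), (true, -5),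
  (false, 1), (true, 5), (false, 2), (true, -1)]), (6, 1, [(false, -7), (true, 10), (false, 1),
  (true, -5), (false, 2), (true, 5), (false, 1), (true, -5), (false, 1), (true, 5), (false, 2),
  (true, -2)]), (372, -1, []), (470, 0, [])], [(296, 0, []), (0, 0, [(false, -7), (true, 10),
  (false, 1), (true, -5), (false, 2), (true, 5), (false, 1), (true, -5), (false, 1), (true, 5),
  (false, 2), (true, -2)]), (374, 1, []), (5, 0, [(false, -7), (true, 10), (false, 1), (true, -5),
  (false, 2), (true, 5), (false, 1), (true, -5), (false, 1), (true, 5), (false, 2), (true, -2)]),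
  (4, 1, [(false, -7), (true, 10), (false, 1), (true, -5), (false, 2), (true, 5), (false, 1),
  (true, -5), (false, 1), (true, 5), (false, 2), (true, -2)]), (373, -1, []), (471, 0, [])], [(296,
  0, []), (5, 0, [(false, -7), (true, 10), (false, 1), (true, -5), (false, 2), (true, 5), (false,
  1), (true, -5), (false, 1), (true, 5), (false, 2), (true, -3)]), (375, 1, []), (0, 0, [(false,
  -7), (true, 10), (false, 1), (true, -5), (false, 2), (true, 5), (false, 1), (true, -5), (false,
  1), (true, 5), (false, 2), (true, -2)]), (6, 1, [(false, -7), (true, 10), (false, 1), (true, -5),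
  (false, 2), (true, 5), (false, 1), (true, -5), (false, 1), (true, 5), (false, 2), (true, -3)]),
  (374, -1, []), (472, 0, [])], [(296, 0, []), (0, 0, [(false, -7), (true, 10), (false, 1), (true,
  -5), (false, 2), (true, 5), (false, 1), (true, -5), (false, 1), (true, 5), (false, 2), (true,
  -3)]), (376, 1, []), (5, 0, [(false, -7), (true, 10), (false, 1), (true, -5), (false, 2), (true,
  5), (false, 1), (true, -5), (false, 1), (true, 5), (false, 2), (true, -3)]), (4, 1, [(false, -7),
  (true, 10), (false, 1), (true, -5), (false, 2), (true, 5), (false, 1), (true, -5), (false, 1),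
  (true, 5), (false, 2), (true, -3)]), (375, -1, []), (473, 0, [])], [(296, 0, []), (5, 0, [(false,
  -7), (true, 10), (false, 1), (true, -5), (false, 2), (true, 5), (false, 1), (true, -5), (false,
  1), (true, 5), (false, 2), (true, -4)]), (377, 1, []), (0, 0, [(false, -7), (true, 10), (false,
  1), (true, -5), (false, 2), (true, 5), (false, 1), (true, -5), (false, 1), (true, 5), (false, 2),
  (true, -3)]), (6, 1, [(false, -7), (true, 10), (false, 1), (true, -5), (false, 2), (true, 5),
  (false, 1), (true, -5), (false, 1), (true, 5), (false, 2), (true, -4)]), (376, -1, []), (474, 0,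
  [])], [(296, 0, []), (0, 0, [(false, -7), (true, 10), (false, 1), (true, -5), (false, 2), (true,
  5), (false, 1), (true, -5), (false, 1), (true, 5), (false, 2), (true, -4)]), (378, 1, []), (5, 0,
  [(false, -7), (true, 10), (false, 1), (true, -5), (false, 2), (true, 5), (false, 1), (true, -5),
  (false, 1), (true, 5), (false, 2), (true, -4)]), (4, 1, [(false, -7), (true, 10), (false, 1),
  (true, -5), (false, 2), (true, 5), (false, 1), (true, -5), (false, 1), (true, 5), (false, 2),
  (true, -4)]), (377, -1, []), (475, 0, [])], [(296, 0, []), (5, 0, [(false, -7), (true, 10),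
  (false, 1), (true, -5), (false, 2), (true, 5), (false, 1), (true, -5), (false, 1), (true, 5),
  (false, 2), (true, -5)]), (379, 1, []), (0, 0, [(false, -7), (true, 10), (false, 1), (true, -5),
  (false, 2), (true, 5), (false, 1), (true, -5), (false, 1), (true, 5), (false, 2), (true, -4)]),
  (6, 1, [(false, -7), (true, 10), (false, 1), (true, -5), (false, 2), (true, 5), (false, 1),
  (true, -5), (false, 1), (true, 5), (false, 2), (true, -5)]), (378, -1, []), (476, 0, [])], [(296,
  0, []), (0, 0, [(false, -7), (true, 10), (false, 1), (true, -5), (false, 2), (true, 5), (false,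
  1), (true, -5), (false, 1), (true, 5), (false, 2), (true, -5)]), (380, 1, []), (5, 0, [(false,
  -7), (true, 10), (false, 1), (true, -5), (false, 2), (true, 5), (false, 1), (true, -5), (false,
  1), (true, 5), (false, 2), (true, -5)]), (4, 1, [(false, -7), (true, 10), (false, 1), (true, -5),
  (false, 2), (true, 5), (false, 1), (true, -5), (false, 1), (true, 5), (false, 2), (true, -5)]),
  (379, -1, []), (477, 0, [])], [(294, 0, []), (2, 0, [(false, -6), (true, 10), (false, 1), (true,
  -5), (false, 2), (true, 5), (false, 1), (true, -5), (false, 1), (true, 5), (false, 2), (true,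
  -5), (false, -1)]), (381, 1, []), (0, 0, [(false, -6), (true, 10), (false, 1), (true, -5),
  (false, 2), (true, 5), (false, 1), (true, -5), (false, 1), (true, 5), (false, 2), (true, -5)]),
  (3, 1, [(false, -6), (true, 10), (false, 1), (true, -5), (false, 2), (true, 5), (false, 1),
  (true, -5), (false, 1), (true, 5), (false, 2), (true, -5), (false, -1)]), (296, 0, [(false, 1)]),
  (380, -1, [(false, 1)]), (295, -1, []), (478, 0, [])], [(292, 0, []), (0, 0, [(false, -6), (true,
  10), (false, 1), (true, -5), (false, 2), (true, 5), (false, 1), (true, -5), (false, 1), (true,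
  5), (false, 2), (true, -5), (false, -1)]), (382, 1, []), (2, 0, [(false, -6), (true, 10), (false,
  1), (true, -5), (false, 2), (true, 5), (false, 1), (true, -5), (false, 1), (true, 5), (false, 2),
  (true, -5), (false, -1)]), (1, 1, [(false, -6), (true, 10), (false, 1), (true, -5), (false, 2),
  (true, 5), (false, 1), (true, -5), (false, 1), (true, 5), (false, 2), (true, -5), (false, -1)]),
  (294, 0, []), (381, -1, []), (293, -1, []), (479, 0, [])]]

/-- Rows of the table. -/
def clY30 : List FS :=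
  [[(290, 0, []), (2, 0, [(false, -5), (true, 10), (false, 1), (true, -5), (false, 2), (true, 5),
  (false, 1), (true, -5), (false, 1), (true, 5), (false, 2), (true, -5), (false, -2)]), (383, 1,
  []), (0, 0, [(false, -5), (true, 10), (false, 1), (true, -5), (false, 2), (true, 5), (false, 1),
  (true, -5), (false, 1), (true, 5), (false, 2), (true, -5), (false, -1)]), (3, 1, [(false, -5),
  (true, 10), (false, 1), (true, -5), (false, 2), (true, 5), (false, 1), (true, -5), (false, 1),
  (true, 5), (false, 2), (true, -5), (false, -2)]), (292, 0, [(false, 1)]), (382, -1, [(false,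
  1)]), (291, -1, []), (480, 0, [])], [(288, 0, []), (0, 0, [(false, -5), (true, 10), (false, 1),
  (true, -5), (false, 2), (true, 5), (false, 1), (true, -5), (false, 1), (true, 5), (false, 2),
  (true, -5), (false, -2)]), (384, 1, []), (2, 0, [(false, -5), (true, 10), (false, 1), (true, -5),
  (false, 2), (true, 5), (false, 1), (true, -5), (false, 1), (true, 5), (false, 2), (true, -5),
  (false, -2)]), (1, 1, [(false, -5), (true, 10), (false, 1), (true, -5), (false, 2), (true, 5),
  (false, 1), (true, -5), (false, 1), (true, 5), (false, 2), (true, -5), (false, -2)]), (290, 0,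
  []), (383, -1, []), (289, -1, []), (481, 0, [])], [(286, 0, []), (2, 0, [(false, -4), (true, 10),
  (false, 1), (true, -5), (false, 2), (true, 5), (false, 1), (true, -5), (false, 1), (true, 5),
  (false, 2), (true, -5), (false, -3)]), (385, 1, []), (0, 0, [(false, -4), (true, 10), (false, 1),
  (true, -5), (false, 2), (true, 5), (false, 1), (true, -5), (false, 1), (true, 5), (false, 2),
  (true, -5), (false, -2)]), (3, 1, [(false, -4), (true, 10), (false, 1), (true, -5), (false, 2),
  (true, 5), (false, 1), (true, -5), (false, 1), (true, 5), (false, 2), (true, -5), (false, -3)]),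
  (288, 0, [(false, 1)]), (384, -1, [(false, 1)]), (287, -1, []), (482, 0, [])], [(284, 0, []), (0,
  0, [(false, -4), (true, 10), (false, 1), (true, -5), (false, 2), (true, 5), (false, 1), (true,
  -5), (false, 1), (true, 5), (false, 2), (true, -5), (false, -3)]), (386, 1, []), (2, 0, [(false,
  -4), (true, 10), (false, 1), (true, -5), (false, 2), (true, 5), (false, 1), (true, -5), (false,
  1), (true, 5), (false, 2), (true, -5), (false, -3)]), (1, 1, [(false, -4), (true, 10), (false,
  1), (true, -5), (false, 2), (true, 5), (false, 1), (true, -5), (false, 1), (true, 5), (false, 2),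
  (true, -5), (false, -3)]), (286, 0, []), (385, -1, []), (285, -1, []), (483, 0, [])], [(282, 0,
  []), (2, 0, [(false, -3), (true, 10), (false, 1), (true, -5), (false, 2), (true, 5), (false, 1),
  (true, -5), (false, 1), (true, 5), (false, 2), (true, -5), (false, -4)]), (387, 1, []), (0, 0,
  [(false, -3), (true, 10), (false, 1), (true, -5), (false, 2), (true, 5), (false, 1), (true, -5),
  (false, 1), (true, 5), (false, 2), (true, -5), (false, -3)]), (3, 1, [(false, -3), (true, 10),
  (false, 1), (true, -5), (false, 2), (true, 5), (false, 1), (true, -5), (false, 1), (true, 5),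
  (false, 2), (true, -5), (false, -4)]), (284, 0, [(false, 1)]), (386, -1, [(false, 1)]), (283, -1,
  []), (484, 0, [])], [(280, 0, []), (0, 0, [(false, -3), (true, 10), (false, 1), (true, -5),
  (false, 2), (true, 5), (false, 1), (true, -5), (false, 1), (true, 5), (false, 2), (true, -5),
  (false, -4)]), (388, 1, []), (2, 0, [(false, -3), (true, 10), (false, 1), (true, -5), (false, 2),
  (true, 5), (false, 1), (true, -5), (false, 1), (true, 5), (false, 2), (true, -5), (false, -4)]),
  (1, 1, [(false, -3), (true, 10), (false, 1), (true, -5), (false, 2), (true, 5), (false, 1),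
  (true, -5), (false, 1), (true, 5), (false, 2), (true, -5), (false, -4)]), (282, 0, []), (387, -1,
  []), (281, -1, []), (485, 0, [])], [(278, 0, []), (2, 0, [(false, -2), (true, 10), (false, 1),
  (true, -5), (false, 2), (true, 5), (false, 1), (true, -5), (false, 1), (true, 5), (false, 2),
  (true, -5), (false, -5)]), (389, 1, []), (0, 0, [(false, -2), (true, 10), (false, 1), (true, -5),
  (false, 2), (true, 5), (false, 1), (true, -5), (false, 1), (true, 5), (false, 2), (true, -5),
  (false, -4)]), (3, 1, [(false, -2), (true, 10), (false, 1), (true, -5), (false, 2), (true, 5),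
  (false, 1), (true, -5), (false, 1), (true, 5), (false, 2), (true, -5), (false, -5)]), (280, 0,
  [(false, 1)]), (388, -1, [(false, 1)]), (279, -1, []), (486, 0, [])], [(276, 0, []), (0, 0,
  [(false, -2), (true, 10), (false, 1), (true, -5), (false, 2), (true, 5), (false, 1), (true, -5),
  (false, 1), (true, 5), (false, 2), (true, -5), (false, -5)]), (390, 1, []), (2, 0, [(false, -2),
  (true, 10), (false, 1), (true, -5), (false, 2), (true, 5), (false, 1), (true, -5), (false, 1),
  (true, 5), (false, 2), (true, -5), (false, -5)]), (1, 1, [(false, -2), (true, 10), (false, 1),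
  (true, -5), (false, 2), (true, 5), (false, 1), (true, -5), (false, 1), (true, 5), (false, 2),
  (true, -5), (false, -5)]), (278, 0, []), (389, -1, []), (277, -1, []), (487, 0, [])], [(274, 0,
  []), (2, 0, [(false, -1), (true, 10), (false, 1), (true, -5), (false, 2), (true, 5), (false, 1),
  (true, -5), (false, 1), (true, 5), (false, 2), (true, -5), (false, -6)]), (391, 1, []), (0, 0,
  [(false, -1), (true, 10), (false, 1), (true, -5), (false, 2), (true, 5), (false, 1), (true, -5),
  (false, 1), (true, 5), (false, 2), (true, -5), (false, -5)]), (3, 1, [(false, -1), (true, 10),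
  (false, 1), (true, -5), (false, 2), (true, 5), (false, 1), (true, -5), (false, 1), (true, 5),
  (false, 2), (true, -5), (false, -6)]), (276, 0, [(false, 1)]), (390, -1, [(false, 1)]), (275, -1,
  []), (488, 0, [])], [(272, 0, []), (0, 0, [(false, -1), (true, 10), (false, 1), (true, -5),
  (false, 2), (true, 5), (false, 1), (true, -5), (false, 1), (true, 5), (false, 2), (true, -5),
  (false, -6)]), (392, 1, []), (2, 0, [(false, -1), (true, 10), (false, 1), (true, -5), (false, 2),
  (true, 5), (false, 1), (true, -5), (false, 1), (true, 5), (false, 2), (true, -5), (false, -6)]),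
  (1, 1, [(false, -1), (true, 10), (false, 1), (true, -5), (false, 2), (true, 5), (false, 1),
  (true, -5), (false, 1), (true, 5), (false, 2), (true, -5), (false, -6)]), (274, 0, []), (391, -1,
  []), (273, -1, []), (489, 0, [])], [(270, 0, []), (2, 0, [(true, 10), (false, 1), (true, -5),
  (false, 2), (true, 5), (false, 1), (true, -5), (false, 1), (true, 5), (false, 2), (true, -5),
  (false, -7)]), (393, 1, []), (0, 0, [(true, 10), (false, 1), (true, -5), (false, 2), (true, 5),
  (false, 1), (true, -5), (false, 1), (true, 5), (false, 2), (true, -5), (false, -6)]), (3, 1,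
  [(true, 10), (false, 1), (true, -5), (false, 2), (true, 5), (false, 1), (true, -5), (false, 1),
  (true, 5), (false, 2), (true, -5), (false, -7)]), (272, 0, [(false, 1)]), (392, -1, [(false,
  1)]), (271, -1, []), (490, 0, [])], [(268, 0, []), (0, 0, []), (267, 1, []), (2, 0, [(true, 10),
  (false, 1), (true, -5), (false, 2), (true, 5), (false, 1), (true, -5), (false, 1), (true, 5),
  (false, 2), (true, -5), (false, -7)]), (1, 1, [(true, 10), (false, 1), (true, -5), (false, 2),
  (true, 5), (false, 1), (true, -5), (false, 1), (true, 5), (false, 2), (true, -5), (false, -7)]),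
  (270, 0, []), (393, -1, []), (269, -1, []), (491, 0, [])]]

/-- Dimensions. -/
def dmY : ℕ → ℕ := tb
  [[0, 1, 0, 1, 1, 0, 1, 1, 0, 1, 1, 1, 1, 1, 1, 1], [1, 1, 1, 1, 1, 1, 1, 1, 2, 2, 2, 2, 2, 2, 2,
  2], [2, 2, 2, 2, 2, 2, 2, 2, 1, 0, 1, 1, 1, 1, 1, 1], [1, 1, 1, 1, 1, 1, 1, 1, 1, 1, 1, 1, 1, 1,
  1, 1], [1, 2, 2, 2, 2, 2, 2, 2, 2, 2, 2, 2, 2, 2, 2, 2], [2, 2, 2, 2, 2, 2, 2, 2, 2, 1, 0, 1, 1,
  1, 1, 1], [1, 1, 1, 1, 1, 1, 1, 1, 1, 1, 1, 1, 1, 1, 1, 1], [1, 1, 1, 1, 1, 1, 1, 1, 1, 1, 2, 2,
  2, 2, 2, 2], [2, 2, 2, 2, 2, 2, 2, 2, 2, 2, 2, 2, 2, 2, 2, 2], [2, 2, 2, 2, 2, 2, 2, 2, 2, 2, 1,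
  0, 1, 1, 1, 1], [1, 1, 1, 1, 1, 1, 1, 1, 1, 1, 1, 1, 1, 1, 1, 1], [1, 1, 1, 1, 1, 1, 1, 1, 1, 1,
  1, 1, 1, 1, 1, 1], [1, 1, 1, 1, 1, 1, 1, 1, 1, 1, 1, 1, 1, 1, 1, 1], [1, 1, 1, 2, 2, 2, 2, 2, 2,
  2, 2, 2, 2, 2, 2, 2], [2, 2, 2, 2, 2, 2, 2, 2, 2, 2, 2, 2, 2, 2, 2, 2], [2, 2, 2, 2, 2, 2, 2, 2,
  2, 2, 2, 2, 2, 2, 2, 2], [2, 2, 2, 2, 2, 2, 2, 2, 2, 2, 2, 1, 0, 1, 0, 1], [0, 1, 0, 1, 0, 1, 0,
  1, 0, 1, 0, 1, 0, 1, 0, 1], [0, 1, 0, 1, 0, 1, 0, 1, 0, 1, 1, 1, 1, 1, 1, 1], [1, 1, 1, 1, 1, 1,
  1, 1, 1, 1, 1, 1, 1, 1, 1, 1], [1, 1, 1, 1, 1, 1, 1, 1, 1, 1, 1, 1, 1, 1, 1, 1], [1, 1, 1, 1, 1,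
  1, 1, 1, 1, 1, 1, 1, 1, 1, 1, 1], [1, 1, 1, 1, 1, 1, 1, 1, 1, 1, 1, 1, 1, 1, 1, 1], [1, 1, 1, 1,
  1, 1, 1, 1, 1, 1, 1, 1, 1, 1, 1, 1], [1, 1, 1, 1, 1, 1, 1, 1, 1, 1, 2, 2, 2, 2, 2, 2], [2, 2, 2,
  2, 2, 2, 2, 2, 2, 2, 2, 2, 2, 2, 2, 2], [2, 2, 2, 2, 2, 2, 2, 2, 2, 2, 2, 2, 2, 2, 2, 2], [2, 2,
  2, 2, 2, 2, 2, 2, 2, 2, 2, 2, 2, 2, 2, 2], [2, 2, 2, 2, 2, 2, 2, 2, 2, 2, 2, 2, 2, 2, 2, 2], [2,
  2, 2, 2, 2, 2, 2, 2, 2, 2, 2, 2, 2, 2, 2, 2], [2, 2, 2, 2, 2, 2, 2, 2, 2, 2, 2, 2]] 0

/-- The table. -/
def tabY : Tab :=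
  ⟨492, tb [clY0, clY1, clY2, clY3, clY4, clY5, clY6, clY7, clY8, clY9, clY10, clY11, clY12, clY13,
  clY14, clY15, clY16, clY17, clY18, clY19, clY20, clY21, clY22, clY23, clY24, clY25, clY26, clY27,
  clY28, clY29, clY30] [], dmY⟩

/-- The spanning tree. -/
def anY : ℕ → ℕ := tb
  [[0, 0, 1, 2, 0, 4, 5, 0, 7, 8, 8, 8, 8, 8, 8, 8], [8, 8, 8, 8, 8, 8, 8, 8, 8, 8, 8, 8, 8, 8, 8,
  8], [8, 8, 8, 8, 8, 8, 8, 8, 0, 40, 41, 41, 41, 41, 41, 41], [41, 41, 41, 41, 41, 41, 41, 41, 41,
  41, 41, 41, 41, 41, 41, 41], [41, 41, 41, 41, 41, 41, 41, 41, 41, 41, 41, 41, 41, 41, 41, 41],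
  [41, 41, 41, 41, 41, 41, 41, 41, 41, 0, 89, 90, 90, 90, 90, 90], [90, 90, 90, 90, 90, 90, 90, 90,
  90, 90, 90, 90, 90, 90, 90, 90], [90, 90, 90, 90, 90, 90, 90, 90, 90, 90, 90, 90, 90, 90, 90,
  90], [90, 90, 90, 90, 90, 90, 90, 90, 90, 90, 90, 90, 90, 90, 90, 90], [90, 90, 90, 90, 90, 90,
  90, 90, 90, 90, 0, 154, 155, 155, 155, 155], [155, 155, 155, 155, 155, 155, 155, 155, 155, 155,
  155, 155, 155, 155, 155, 155], [155, 155, 155, 155, 155, 155, 155, 155, 155, 155, 155, 155, 155,
  155, 155, 155], [155, 155, 155, 155, 155, 155, 155, 155, 155, 155, 155, 155, 155, 155, 155, 155],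
  [155, 155, 155, 155, 155, 155, 155, 155, 155, 155, 155, 155, 155, 155, 155, 155], [155, 155, 155,
  155, 155, 155, 155, 155, 155, 155, 155, 155, 155, 155, 155, 155], [155, 155, 155, 155, 155, 155,
  155, 155, 155, 155, 155, 155, 155, 155, 155, 155], [155, 155, 155, 155, 155, 155, 155, 155, 155,
  155, 155, 0, 267, 268, 269, 270], [271, 272, 273, 274, 275, 276, 277, 278, 279, 280, 281, 282,
  283, 284, 285, 286], [287, 288, 289, 290, 291, 292, 293, 294, 295, 268, 268, 268, 268, 268, 268,
  268], [268, 268, 268, 268, 268, 268, 268, 268, 268, 268, 268, 268, 268, 270, 272, 272], [272,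
  272, 272, 272, 272, 272, 272, 272, 272, 274, 276, 278, 280, 280, 280, 280], [280, 280, 280, 280,
  280, 280, 280, 282, 284, 284, 284, 284, 284, 284, 284, 284], [284, 284, 284, 286, 288, 288, 288,
  288, 288, 288, 288, 288, 288, 288, 288, 290], [292, 294, 296, 296, 296, 296, 296, 296, 296, 296,
  296, 296, 296, 294, 292, 290], [288, 286, 284, 282, 280, 278, 276, 274, 272, 270, 268, 268, 268,
  268, 268, 268], [268, 268, 268, 268, 268, 268, 268, 268, 268, 268, 268, 268, 268, 268, 268, 270],
  [272, 272, 272, 272, 272, 272, 272, 272, 272, 272, 272, 274, 276, 278, 280, 280], [280, 280, 280,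
  280, 280, 280, 280, 280, 280, 282, 284, 284, 284, 284, 284, 284], [284, 284, 284, 284, 284, 286,
  288, 288, 288, 288, 288, 288, 288, 288, 288, 288], [288, 290, 292, 294, 296, 296, 296, 296, 296,
  296, 296, 296, 296, 296, 294, 292], [290, 288, 286, 284, 282, 280, 278, 276, 274, 272, 270, 268]] 0

/-- Times and witnesses. -/
def twY0 : List (List (ℕ × ℕ × ℕ)) :=
  [[], [], [], [], [], [], [], [], [], [(5, 5, 24)], [(0, 9, 25)], [(2, 13, 26)], [(0, 17, 27)],
  [(5, 21, 28)], [(0, 25, 29)], [(2, 29, 30)]]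

/-- Times and witnesses. -/
def twY1 : List (List (ℕ × ℕ × ℕ)) :=
  [[(0, 33, 31)], [(5, 37, 32)], [(0, 41, 33)], [(2, 45, 34)], [(0, 49, 35)], [(5, 53, 36)], [(0,
  57, 37)], [(2, 61, 38)], [(0, 2, 7), (7, 1, 8), (5, 4, 4), (4, 3, 0), (9, 1, 8)], [(5, 6, 9), (9,
  1, 8), (0, 8, 6), (6, 7, 5), (10, 1, 8)], [(0, 10, 10), (10, 1, 8), (2, 12, 1), (1, 11, 0), (11,
  1, 8)], [(2, 14, 11), (11, 1, 8), (0, 16, 3), (3, 15, 2), (12, 1, 8)], [(0, 18, 12), (12, 1, 8),
  (5, 20, 4), (4, 19, 0), (13, 1, 8)], [(5, 22, 13), (13, 1, 8), (0, 24, 6), (6, 23, 5), (14, 1,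
  8)], [(0, 26, 14), (14, 1, 8), (2, 28, 3), (3, 27, 0), (15, 1, 8)], [(2, 30, 15), (15, 1, 8), (0,
  32, 1), (1, 31, 2), (16, 1, 8)]]

/-- Times and witnesses. -/
def twY2 : List (List (ℕ × ℕ × ℕ)) :=
  [[(0, 34, 16), (16, 1, 8), (5, 36, 6), (6, 35, 0), (17, 1, 8)], [(5, 38, 17), (17, 1, 8), (0, 40,
  4), (4, 39, 5), (18, 1, 8)], [(0, 42, 18), (18, 1, 8), (2, 44, 1), (1, 43, 0), (19, 1, 8)], [(2,
  46, 19), (19, 1, 8), (0, 48, 3), (3, 47, 2), (20, 1, 8)], [(0, 50, 20), (20, 1, 8), (5, 52, 6),
  (6, 51, 0), (21, 1, 8)], [(5, 54, 21), (21, 1, 8), (0, 56, 4), (4, 55, 5), (22, 1, 8)], [(0, 58,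
  22), (22, 1, 8), (2, 60, 3), (3, 59, 0), (23, 1, 8)], [(2, 62, 23), (23, 1, 8), (0, 2, 7), (1,
  63, 2), (7, 1, 8)], [], [], [(5, 5, 65)], [(0, 9, 66)], [(2, 13, 67)], [(0, 17, 68)], [(2, 21,
  69)], [(0, 25, 70)]]

/-- Times and witnesses. -/
def twY3 : List (List (ℕ × ℕ × ℕ)) :=
  [[(5, 29, 71)], [(0, 33, 72)], [(2, 37, 73)], [(0, 41, 74)], [(2, 45, 75)], [(0, 49, 76)], [(5,
  53, 77)], [(0, 57, 78)], [(2, 61, 79)], [(0, 65, 80)], [(2, 69, 81)], [(0, 73, 82)], [(5, 77,
  83)], [(0, 81, 84)], [(2, 85, 85)], [(0, 89, 86)]]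

/-- Times and witnesses. -/
def twY4 : List (List (ℕ × ℕ × ℕ)) :=
  [[(2, 93, 87)], [(0, 2, 40), (40, 1, 41), (5, 4, 4), (4, 3, 0), (42, 1, 41)], [(5, 6, 42), (42,
  1, 41), (0, 8, 6), (6, 7, 5), (43, 1, 41)], [(0, 10, 43), (43, 1, 41), (2, 12, 1), (1, 11, 0),
  (44, 1, 41)], [(2, 14, 44), (44, 1, 41), (0, 16, 3), (3, 15, 2), (45, 1, 41)], [(0, 18, 45), (45,
  1, 41), (2, 20, 1), (1, 19, 0), (46, 1, 41)], [(2, 22, 46), (46, 1, 41), (0, 24, 3), (3, 23, 2),
  (47, 1, 41)], [(0, 26, 47), (47, 1, 41), (5, 28, 4), (4, 27, 0), (48, 1, 41)], [(5, 30, 48), (48,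
  1, 41), (0, 32, 6), (6, 31, 5), (49, 1, 41)], [(0, 34, 49), (49, 1, 41), (2, 36, 3), (3, 35, 0),
  (50, 1, 41)], [(2, 38, 50), (50, 1, 41), (0, 40, 1), (1, 39, 2), (51, 1, 41)], [(0, 42, 51), (51,
  1, 41), (2, 44, 3), (3, 43, 0), (52, 1, 41)], [(2, 46, 52), (52, 1, 41), (0, 48, 1), (1, 47, 2),
  (53, 1, 41)], [(0, 50, 53), (53, 1, 41), (5, 52, 6), (6, 51, 0), (54, 1, 41)], [(5, 54, 54), (54,
  1, 41), (0, 56, 4), (4, 55, 5), (55, 1, 41)], [(0, 58, 55), (55, 1, 41), (2, 60, 1), (1, 59, 0),
  (56, 1, 41)]]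

/-- Times and witnesses. -/
def twY5 : List (List (ℕ × ℕ × ℕ)) :=
  [[(2, 62, 56), (56, 1, 41), (0, 64, 3), (3, 63, 2), (57, 1, 41)], [(0, 66, 57), (57, 1, 41), (2,
  68, 1), (1, 67, 0), (58, 1, 41)], [(2, 70, 58), (58, 1, 41), (0, 72, 3), (3, 71, 2), (59, 1,
  41)], [(0, 74, 59), (59, 1, 41), (5, 76, 6), (6, 75, 0), (60, 1, 41)], [(5, 78, 60), (60, 1, 41),
  (0, 80, 4), (4, 79, 5), (61, 1, 41)], [(0, 82, 61), (61, 1, 41), (2, 84, 3), (3, 83, 0), (62, 1,
  41)], [(2, 86, 62), (62, 1, 41), (0, 88, 1), (1, 87, 2), (63, 1, 41)], [(0, 90, 63), (63, 1, 41),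
  (2, 92, 3), (3, 91, 0), (64, 1, 41)], [(2, 94, 64), (64, 1, 41), (0, 2, 40), (1, 95, 2), (40, 1,
  41)], [], [], [(5, 5, 122)], [(0, 9, 123)], [(2, 13, 124)], [(0, 17, 125)], [(2, 21, 126)]]

/-- Times and witnesses. -/
def twY6 : List (List (ℕ × ℕ × ℕ)) :=
  [[(0, 25, 127)], [(2, 29, 128)], [(0, 33, 129)], [(5, 37, 130)], [(0, 41, 131)], [(2, 45, 132)],
  [(0, 49, 133)], [(2, 53, 134)], [(0, 57, 135)], [(2, 61, 136)], [(0, 65, 137)], [(5, 69, 138)],
  [(0, 73, 139)], [(2, 77, 140)], [(0, 81, 141)], [(2, 85, 142)]]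

/-- Times and witnesses. -/
def twY7 : List (List (ℕ × ℕ × ℕ)) :=
  [[(0, 89, 143)], [(2, 93, 144)], [(0, 97, 145)], [(5, 101, 146)], [(0, 105, 147)], [(2, 109,
  148)], [(0, 113, 149)], [(2, 117, 150)], [(0, 121, 151)], [(2, 125, 152)], [(0, 2, 89), (89, 1,
  90), (5, 4, 4), (4, 3, 0), (91, 1, 90)], [(5, 6, 91), (91, 1, 90), (0, 8, 6), (6, 7, 5), (92, 1,
  90)], [(0, 10, 92), (92, 1, 90), (2, 12, 1), (1, 11, 0), (93, 1, 90)], [(2, 14, 93), (93, 1, 90),
  (0, 16, 3), (3, 15, 2), (94, 1, 90)], [(0, 18, 94), (94, 1, 90), (2, 20, 1), (1, 19, 0), (95, 1,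
  90)], [(2, 22, 95), (95, 1, 90), (0, 24, 3), (3, 23, 2), (96, 1, 90)]]

/-- Times and witnesses. -/
def twY8 : List (List (ℕ × ℕ × ℕ)) :=
  [[(0, 26, 96), (96, 1, 90), (2, 28, 1), (1, 27, 0), (97, 1, 90)], [(2, 30, 97), (97, 1, 90), (0,
  32, 3), (3, 31, 2), (98, 1, 90)], [(0, 34, 98), (98, 1, 90), (5, 36, 4), (4, 35, 0), (99, 1,
  90)], [(5, 38, 99), (99, 1, 90), (0, 40, 6), (6, 39, 5), (100, 1, 90)], [(0, 42, 100), (100, 1,
  90), (2, 44, 3), (3, 43, 0), (101, 1, 90)], [(2, 46, 101), (101, 1, 90), (0, 48, 1), (1, 47, 2),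
  (102, 1, 90)], [(0, 50, 102), (102, 1, 90), (2, 52, 3), (3, 51, 0), (103, 1, 90)], [(2, 54, 103),
  (103, 1, 90), (0, 56, 1), (1, 55, 2), (104, 1, 90)], [(0, 58, 104), (104, 1, 90), (2, 60, 3), (3,
  59, 0), (105, 1, 90)], [(2, 62, 105), (105, 1, 90), (0, 64, 1), (1, 63, 2), (106, 1, 90)], [(0,
  66, 106), (106, 1, 90), (5, 68, 6), (6, 67, 0), (107, 1, 90)], [(5, 70, 107), (107, 1, 90), (0,
  72, 4), (4, 71, 5), (108, 1, 90)], [(0, 74, 108), (108, 1, 90), (2, 76, 1), (1, 75, 0), (109, 1,
  90)], [(2, 78, 109), (109, 1, 90), (0, 80, 3), (3, 79, 2), (110, 1, 90)], [(0, 82, 110), (110, 1,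
  90), (2, 84, 1), (1, 83, 0), (111, 1, 90)], [(2, 86, 111), (111, 1, 90), (0, 88, 3), (3, 87, 2),
  (112, 1, 90)]]

/-- Times and witnesses. -/
def twY9 : List (List (ℕ × ℕ × ℕ)) :=
  [[(0, 90, 112), (112, 1, 90), (2, 92, 1), (1, 91, 0), (113, 1, 90)], [(2, 94, 113), (113, 1, 90),
  (0, 96, 3), (3, 95, 2), (114, 1, 90)], [(0, 98, 114), (114, 1, 90), (5, 100, 6), (6, 99, 0),
  (115, 1, 90)], [(5, 102, 115), (115, 1, 90), (0, 104, 4), (4, 103, 5), (116, 1, 90)], [(0, 106,
  116), (116, 1, 90), (2, 108, 3), (3, 107, 0), (117, 1, 90)], [(2, 110, 117), (117, 1, 90), (0,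
  112, 1), (1, 111, 2), (118, 1, 90)], [(0, 114, 118), (118, 1, 90), (2, 116, 3), (3, 115, 0),
  (119, 1, 90)], [(2, 118, 119), (119, 1, 90), (0, 120, 1), (1, 119, 2), (120, 1, 90)], [(0, 122,
  120), (120, 1, 90), (2, 124, 3), (3, 123, 0), (121, 1, 90)], [(2, 126, 121), (121, 1, 90), (0, 2,
  89), (1, 127, 2), (89, 1, 90)], [], [], [(2, 5, 211)], [(0, 9, 212)], [(2, 13, 213)], [(0, 17,
  214)]]

/-- Times and witnesses. -/
def twY10 : List (List (ℕ × ℕ × ℕ)) :=
  [[(2, 21, 215)], [(0, 25, 216)], [(2, 29, 217)], [(0, 33, 218)], [(2, 37, 219)], [(0, 41, 220)],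
  [(2, 45, 221)], [(0, 49, 222)], [(2, 53, 223)], [(0, 57, 224)], [(2, 61, 225)], [(0, 65, 226)],
  [(5, 69, 227)], [(0, 73, 228)], [(2, 77, 229)], [(0, 81, 230)]]

/-- Times and witnesses. -/
def twY11 : List (List (ℕ × ℕ × ℕ)) :=
  [[(2, 85, 231)], [(0, 89, 232)], [(2, 93, 233)], [(0, 97, 234)], [(2, 101, 235)], [(0, 105,
  236)], [(5, 109, 237)], [(0, 113, 238)], [(2, 117, 239)], [(0, 121, 240)], [(2, 125, 241)], [(0,
  129, 242)], [(2, 133, 243)], [(0, 137, 244)], [(2, 141, 245)], [(0, 145, 246)]]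

/-- Times and witnesses. -/
def twY12 : List (List (ℕ × ℕ × ℕ)) :=
  [[(5, 149, 247)], [(0, 153, 248)], [(2, 157, 249)], [(0, 161, 250)], [(2, 165, 251)], [(0, 169,
  252)], [(2, 173, 253)], [(0, 177, 254)], [(2, 181, 255)], [(0, 185, 256)], [(5, 189, 257)], [(0,
  193, 258)], [(2, 197, 259)], [(0, 201, 260)], [(2, 205, 261)], [(0, 209, 262)]]

/-- Times and witnesses. -/
def twY13 : List (List (ℕ × ℕ × ℕ)) :=
  [[(2, 213, 263)], [(0, 217, 264)], [(2, 221, 265)], [(0, 2, 154), (154, 1, 155), (2, 4, 1), (1,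
  3, 0), (156, 1, 155)], [(2, 6, 156), (156, 1, 155), (0, 8, 3), (3, 7, 2), (157, 1, 155)], [(0,
  10, 157), (157, 1, 155), (2, 12, 1), (1, 11, 0), (158, 1, 155)], [(2, 14, 158), (158, 1, 155),
  (0, 16, 3), (3, 15, 2), (159, 1, 155)], [(0, 18, 159), (159, 1, 155), (2, 20, 1), (1, 19, 0),
  (160, 1, 155)], [(2, 22, 160), (160, 1, 155), (0, 24, 3), (3, 23, 2), (161, 1, 155)], [(0, 26,
  161), (161, 1, 155), (2, 28, 1), (1, 27, 0), (162, 1, 155)], [(2, 30, 162), (162, 1, 155), (0,
  32, 3), (3, 31, 2), (163, 1, 155)], [(0, 34, 163), (163, 1, 155), (2, 36, 1), (1, 35, 0), (164,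
  1, 155)], [(2, 38, 164), (164, 1, 155), (0, 40, 3), (3, 39, 2), (165, 1, 155)], [(0, 42, 165),
  (165, 1, 155), (2, 44, 1), (1, 43, 0), (166, 1, 155)], [(2, 46, 166), (166, 1, 155), (0, 48, 3),
  (3, 47, 2), (167, 1, 155)], [(0, 50, 167), (167, 1, 155), (2, 52, 1), (1, 51, 0), (168, 1, 155)]]

/-- Times and witnesses. -/
def twY14 : List (List (ℕ × ℕ × ℕ)) :=
  [[(2, 54, 168), (168, 1, 155), (0, 56, 3), (3, 55, 2), (169, 1, 155)], [(0, 58, 169), (169, 1,
  155), (2, 60, 1), (1, 59, 0), (170, 1, 155)], [(2, 62, 170), (170, 1, 155), (0, 64, 3), (3, 63,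
  2), (171, 1, 155)], [(0, 66, 171), (171, 1, 155), (5, 68, 4), (4, 67, 0), (172, 1, 155)], [(5,
  70, 172), (172, 1, 155), (0, 72, 6), (6, 71, 5), (173, 1, 155)], [(0, 74, 173), (173, 1, 155),
  (2, 76, 1), (1, 75, 0), (174, 1, 155)], [(2, 78, 174), (174, 1, 155), (0, 80, 3), (3, 79, 2),
  (175, 1, 155)], [(0, 82, 175), (175, 1, 155), (2, 84, 1), (1, 83, 0), (176, 1, 155)], [(2, 86,
  176), (176, 1, 155), (0, 88, 3), (3, 87, 2), (177, 1, 155)], [(0, 90, 177), (177, 1, 155), (2,
  92, 1), (1, 91, 0), (178, 1, 155)], [(2, 94, 178), (178, 1, 155), (0, 96, 3), (3, 95, 2), (179,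
  1, 155)], [(0, 98, 179), (179, 1, 155), (2, 100, 1), (1, 99, 0), (180, 1, 155)], [(2, 102, 180),
  (180, 1, 155), (0, 104, 3), (3, 103, 2), (181, 1, 155)], [(0, 106, 181), (181, 1, 155), (5, 108,
  4), (4, 107, 0), (182, 1, 155)], [(5, 110, 182), (182, 1, 155), (0, 112, 6), (6, 111, 5), (183,
  1, 155)], [(0, 114, 183), (183, 1, 155), (2, 116, 3), (3, 115, 0), (184, 1, 155)]]

/-- Times and witnesses. -/
def twY15 : List (List (ℕ × ℕ × ℕ)) :=
  [[(2, 118, 184), (184, 1, 155), (0, 120, 1), (1, 119, 2), (185, 1, 155)], [(0, 122, 185), (185,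
  1, 155), (2, 124, 3), (3, 123, 0), (186, 1, 155)], [(2, 126, 186), (186, 1, 155), (0, 128, 1),
  (1, 127, 2), (187, 1, 155)], [(0, 130, 187), (187, 1, 155), (2, 132, 3), (3, 131, 0), (188, 1,
  155)], [(2, 134, 188), (188, 1, 155), (0, 136, 1), (1, 135, 2), (189, 1, 155)], [(0, 138, 189),
  (189, 1, 155), (2, 140, 3), (3, 139, 0), (190, 1, 155)], [(2, 142, 190), (190, 1, 155), (0, 144,
  1), (1, 143, 2), (191, 1, 155)], [(0, 146, 191), (191, 1, 155), (5, 148, 6), (6, 147, 0), (192,
  1, 155)], [(5, 150, 192), (192, 1, 155), (0, 152, 4), (4, 151, 5), (193, 1, 155)], [(0, 154,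
  193), (193, 1, 155), (2, 156, 1), (1, 155, 0), (194, 1, 155)], [(2, 158, 194), (194, 1, 155), (0,
  160, 3), (3, 159, 2), (195, 1, 155)], [(0, 162, 195), (195, 1, 155), (2, 164, 1), (1, 163, 0),
  (196, 1, 155)], [(2, 166, 196), (196, 1, 155), (0, 168, 3), (3, 167, 2), (197, 1, 155)], [(0,
  170, 197), (197, 1, 155), (2, 172, 1), (1, 171, 0), (198, 1, 155)], [(2, 174, 198), (198, 1,
  155), (0, 176, 3), (3, 175, 2), (199, 1, 155)], [(0, 178, 199), (199, 1, 155), (2, 180, 1), (1,
  179, 0), (200, 1, 155)]]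

/-- Times and witnesses. -/
def twY16 : List (List (ℕ × ℕ × ℕ)) :=
  [[(2, 182, 200), (200, 1, 155), (0, 184, 3), (3, 183, 2), (201, 1, 155)], [(0, 186, 201), (201,
  1, 155), (5, 188, 6), (6, 187, 0), (202, 1, 155)], [(5, 190, 202), (202, 1, 155), (0, 192, 4),
  (4, 191, 5), (203, 1, 155)], [(0, 194, 203), (203, 1, 155), (2, 196, 3), (3, 195, 0), (204, 1,
  155)], [(2, 198, 204), (204, 1, 155), (0, 200, 1), (1, 199, 2), (205, 1, 155)], [(0, 202, 205),
  (205, 1, 155), (2, 204, 3), (3, 203, 0), (206, 1, 155)], [(2, 206, 206), (206, 1, 155), (0, 208,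
  1), (1, 207, 2), (207, 1, 155)], [(0, 210, 207), (207, 1, 155), (2, 212, 3), (3, 211, 0), (208,
  1, 155)], [(2, 214, 208), (208, 1, 155), (0, 216, 1), (1, 215, 2), (209, 1, 155)], [(0, 218,
  209), (209, 1, 155), (2, 220, 3), (3, 219, 0), (210, 1, 155)], [(2, 222, 210), (210, 1, 155), (0,
  2, 154), (1, 223, 2), (154, 1, 155)], [], [], [], [], []]

/-- Times and witnesses. -/
def twY17 : List (List (ℕ × ℕ × ℕ)) :=
  [[], [], [], [], [], [], [], [], [], [], [], [], [], [], [], []]

/-- Times and witnesses. -/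
def twY18 : List (List (ℕ × ℕ × ℕ)) :=
  [[], [], [], [], [], [], [], [], [], [(5, 5, 394)], [(0, 9, 395)], [(5, 13, 396)], [(0, 17,
  397)], [(5, 21, 398)], [(0, 25, 399)], [(5, 29, 400)]]

/-- Times and witnesses. -/
def twY19 : List (List (ℕ × ℕ × ℕ)) :=
  [[(0, 33, 401)], [(5, 37, 402)], [(0, 41, 403)], [(5, 45, 404)], [(0, 49, 405)], [(5, 53, 406)],
  [(0, 57, 407)], [(5, 61, 408)], [(0, 65, 409)], [(5, 69, 410)], [(0, 73, 411)], [(5, 77, 412)],
  [(0, 81, 413)], [(2, 85, 414)], [(0, 89, 415)], [(5, 93, 416)]]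

/-- Times and witnesses. -/
def twY20 : List (List (ℕ × ℕ × ℕ)) :=
  [[(0, 97, 417)], [(5, 101, 418)], [(0, 105, 419)], [(5, 109, 420)], [(0, 113, 421)], [(5, 117,
  422)], [(0, 121, 423)], [(5, 125, 424)], [(0, 129, 425)], [(2, 133, 426)], [(0, 137, 427)], [(2,
  141, 428)], [(0, 145, 429)], [(5, 149, 430)], [(0, 153, 431)], [(5, 157, 432)]]

/-- Times and witnesses. -/
def twY21 : List (List (ℕ × ℕ × ℕ)) :=
  [[(0, 161, 433)], [(5, 165, 434)], [(0, 169, 435)], [(5, 173, 436)], [(0, 177, 437)], [(5, 181,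
  438)], [(0, 185, 439)], [(2, 189, 440)], [(0, 193, 441)], [(5, 197, 442)], [(0, 201, 443)], [(5,
  205, 444)], [(0, 209, 445)], [(5, 213, 446)], [(0, 217, 447)], [(5, 221, 448)]]

/-- Times and witnesses. -/
def twY22 : List (List (ℕ × ℕ × ℕ)) :=
  [[(0, 225, 449)], [(5, 229, 450)], [(0, 233, 451)], [(2, 237, 452)], [(0, 241, 453)], [(5, 245,
  454)], [(0, 249, 455)], [(5, 253, 456)], [(0, 257, 457)], [(5, 261, 458)], [(0, 265, 459)], [(5,
  269, 460)], [(0, 273, 461)], [(5, 277, 462)], [(0, 281, 463)], [(2, 285, 464)]]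

/-- Times and witnesses. -/
def twY23 : List (List (ℕ × ℕ × ℕ)) :=
  [[(0, 289, 465)], [(2, 293, 466)], [(0, 297, 467)], [(5, 301, 468)], [(0, 305, 469)], [(5, 309,
  470)], [(0, 313, 471)], [(5, 317, 472)], [(0, 321, 473)], [(5, 325, 474)], [(0, 329, 475)], [(5,
  333, 476)], [(0, 337, 477)], [(2, 341, 478)], [(0, 345, 479)], [(2, 349, 480)]]

/-- Times and witnesses. -/
def twY24 : List (List (ℕ × ℕ × ℕ)) :=
  [[(0, 353, 481)], [(2, 357, 482)], [(0, 361, 483)], [(2, 365, 484)], [(0, 369, 485)], [(2, 373,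
  486)], [(0, 377, 487)], [(2, 381, 488)], [(0, 385, 489)], [(2, 389, 490)], [(0, 2, 267), (267, 1,
  268), (5, 4, 4), (4, 3, 0), (297, 1, 268)], [(5, 6, 297), (297, 1, 268), (0, 8, 6), (6, 7, 5),
  (298, 1, 268)], [(0, 10, 298), (298, 1, 268), (5, 12, 4), (4, 11, 0), (299, 1, 268)], [(5, 14,
  299), (299, 1, 268), (0, 16, 6), (6, 15, 5), (300, 1, 268)], [(0, 18, 300), (300, 1, 268), (5,
  20, 4), (4, 19, 0), (301, 1, 268)], [(5, 22, 301), (301, 1, 268), (0, 24, 6), (6, 23, 5), (302,
  1, 268)]]

/-- Times and witnesses. -/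
def twY25 : List (List (ℕ × ℕ × ℕ)) :=
  [[(0, 26, 302), (302, 1, 268), (5, 28, 4), (4, 27, 0), (303, 1, 268)], [(5, 30, 303), (303, 1,
  268), (0, 32, 6), (6, 31, 5), (304, 1, 268)], [(0, 34, 304), (304, 1, 268), (5, 36, 4), (4, 35,
  0), (305, 1, 268)], [(5, 38, 305), (305, 1, 268), (0, 40, 6), (6, 39, 5), (306, 1, 268)], [(0,
  42, 306), (306, 1, 268), (5, 44, 4), (4, 43, 0), (307, 1, 268)], [(5, 46, 307), (307, 1, 268),
  (0, 48, 6), (6, 47, 5), (308, 1, 268)], [(0, 50, 308), (308, 1, 268), (5, 52, 4), (4, 51, 0),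
  (309, 1, 268)], [(5, 54, 309), (309, 1, 268), (0, 56, 6), (6, 55, 5), (310, 1, 268)], [(0, 58,
  310), (310, 1, 268), (5, 60, 4), (4, 59, 0), (311, 1, 268)], [(5, 62, 311), (311, 1, 268), (0,
  64, 6), (6, 63, 5), (312, 1, 268)], [(0, 66, 312), (312, 1, 268), (5, 68, 4), (4, 67, 0), (313,
  1, 268)], [(5, 70, 313), (313, 1, 268), (0, 72, 6), (6, 71, 5), (314, 1, 268)], [(0, 74, 314),
  (314, 1, 268), (5, 76, 4), (4, 75, 0), (315, 1, 268)], [(5, 78, 315), (315, 1, 268), (0, 80, 6),
  (6, 79, 5), (316, 1, 268)], [(0, 82, 316), (316, 1, 268), (2, 84, 1), (1, 83, 0), (270, 2, 269),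
  (317, 3, 270), (269, 1, 268)], [(2, 86, 317), (317, 1, 270), (0, 88, 3), (3, 87, 2), (272, 2,
  271), (318, 3, 272), (271, 1, 270)]]

/-- Times and witnesses. -/
def twY26 : List (List (ℕ × ℕ × ℕ)) :=
  [[(5, 92, 6), (319, 1, 272), (0, 90, 318), (6, 91, 0), (318, 1, 272)], [(0, 96, 4), (320, 1,
  272), (5, 94, 319), (4, 95, 5), (319, 1, 272)], [(5, 100, 6), (321, 1, 272), (0, 98, 320), (6,
  99, 0), (320, 1, 272)], [(0, 104, 4), (322, 1, 272), (5, 102, 321), (4, 103, 5), (321, 1, 272)],
  [(5, 108, 6), (323, 1, 272), (0, 106, 322), (6, 107, 0), (322, 1, 272)], [(0, 112, 4), (324, 1,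
  272), (5, 110, 323), (4, 111, 5), (323, 1, 272)], [(5, 116, 6), (325, 1, 272), (0, 114, 324), (6,
  115, 0), (324, 1, 272)], [(0, 120, 4), (326, 1, 272), (5, 118, 325), (4, 119, 5), (325, 1, 272)],
  [(5, 124, 6), (327, 1, 272), (0, 122, 326), (6, 123, 0), (326, 1, 272)], [(0, 128, 4), (328, 1,
  272), (5, 126, 327), (4, 127, 5), (327, 1, 272)], [(0, 130, 328), (328, 1, 272), (2, 132, 1), (1,
  131, 0), (274, 2, 273), (329, 3, 274), (273, 1, 272)], [(2, 134, 329), (329, 1, 274), (0, 136,
  3), (3, 135, 2), (276, 2, 275), (330, 3, 276), (275, 1, 274)], [(0, 138, 330), (330, 1, 276), (2,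
  140, 1), (1, 139, 0), (278, 2, 277), (331, 3, 278), (277, 1, 276)], [(2, 142, 331), (331, 1,
  278), (0, 144, 3), (3, 143, 2), (280, 2, 279), (332, 3, 280), (279, 1, 278)], [(0, 146, 332),
  (332, 1, 280), (5, 148, 4), (4, 147, 0), (333, 1, 280)], [(5, 150, 333), (333, 1, 280), (0, 152,
  6), (6, 151, 5), (334, 1, 280)]]

/-- Times and witnesses. -/
def twY27 : List (List (ℕ × ℕ × ℕ)) :=
  [[(0, 154, 334), (334, 1, 280), (5, 156, 4), (4, 155, 0), (335, 1, 280)], [(5, 158, 335), (335,
  1, 280), (0, 160, 6), (6, 159, 5), (336, 1, 280)], [(0, 162, 336), (336, 1, 280), (5, 164, 4),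
  (4, 163, 0), (337, 1, 280)], [(5, 166, 337), (337, 1, 280), (0, 168, 6), (6, 167, 5), (338, 1,
  280)], [(0, 170, 338), (338, 1, 280), (5, 172, 4), (4, 171, 0), (339, 1, 280)], [(5, 174, 339),
  (339, 1, 280), (0, 176, 6), (6, 175, 5), (340, 1, 280)], [(0, 178, 340), (340, 1, 280), (5, 180,
  4), (4, 179, 0), (341, 1, 280)], [(5, 182, 341), (341, 1, 280), (0, 184, 6), (6, 183, 5), (342,
  1, 280)], [(0, 186, 342), (342, 1, 280), (2, 188, 1), (1, 187, 0), (282, 2, 281), (343, 3, 282),
  (281, 1, 280)], [(2, 190, 343), (343, 1, 282), (0, 192, 3), (3, 191, 2), (284, 2, 283), (344, 3,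
  284), (283, 1, 282)], [(5, 196, 6), (345, 1, 284), (0, 194, 344), (6, 195, 0), (344, 1, 284)],
  [(0, 200, 4), (346, 1, 284), (5, 198, 345), (4, 199, 5), (345, 1, 284)], [(5, 204, 6), (347, 1,
  284), (0, 202, 346), (6, 203, 0), (346, 1, 284)], [(0, 208, 4), (348, 1, 284), (5, 206, 347), (4,
  207, 5), (347, 1, 284)], [(5, 212, 6), (349, 1, 284), (0, 210, 348), (6, 211, 0), (348, 1, 284)],
  [(0, 216, 4), (350, 1, 284), (5, 214, 349), (4, 215, 5), (349, 1, 284)]]

/-- Times and witnesses. -/
def twY28 : List (List (ℕ × ℕ × ℕ)) :=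
  [[(5, 220, 6), (351, 1, 284), (0, 218, 350), (6, 219, 0), (350, 1, 284)], [(0, 224, 4), (352, 1,
  284), (5, 222, 351), (4, 223, 5), (351, 1, 284)], [(5, 228, 6), (353, 1, 284), (0, 226, 352), (6,
  227, 0), (352, 1, 284)], [(0, 232, 4), (354, 1, 284), (5, 230, 353), (4, 231, 5), (353, 1, 284)],
  [(0, 234, 354), (354, 1, 284), (2, 236, 1), (1, 235, 0), (286, 2, 285), (355, 3, 286), (285, 1,
  284)], [(2, 238, 355), (355, 1, 286), (0, 240, 3), (3, 239, 2), (288, 2, 287), (356, 3, 288),
  (287, 1, 286)], [(0, 242, 356), (356, 1, 288), (5, 244, 4), (4, 243, 0), (357, 1, 288)], [(5,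
  246, 357), (357, 1, 288), (0, 248, 6), (6, 247, 5), (358, 1, 288)], [(0, 250, 358), (358, 1,
  288), (5, 252, 4), (4, 251, 0), (359, 1, 288)], [(5, 254, 359), (359, 1, 288), (0, 256, 6), (6,
  255, 5), (360, 1, 288)], [(0, 258, 360), (360, 1, 288), (5, 260, 4), (4, 259, 0), (361, 1, 288)],
  [(5, 262, 361), (361, 1, 288), (0, 264, 6), (6, 263, 5), (362, 1, 288)], [(0, 266, 362), (362, 1,
  288), (5, 268, 4), (4, 267, 0), (363, 1, 288)], [(5, 270, 363), (363, 1, 288), (0, 272, 6), (6,
  271, 5), (364, 1, 288)], [(0, 274, 364), (364, 1, 288), (5, 276, 4), (4, 275, 0), (365, 1, 288)],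
  [(5, 278, 365), (365, 1, 288), (0, 280, 6), (6, 279, 5), (366, 1, 288)]]

/-- Times and witnesses. -/
def twY29 : List (List (ℕ × ℕ × ℕ)) :=
  [[(0, 282, 366), (366, 1, 288), (2, 284, 1), (1, 283, 0), (290, 2, 289), (367, 3, 290), (289, 1,
  288)], [(2, 286, 367), (367, 1, 290), (0, 288, 3), (3, 287, 2), (292, 2, 291), (368, 3, 292),
  (291, 1, 290)], [(0, 290, 368), (368, 1, 292), (2, 292, 1), (1, 291, 0), (294, 2, 293), (369, 3,
  294), (293, 1, 292)], [(2, 294, 369), (369, 1, 294), (0, 296, 3), (3, 295, 2), (296, 2, 295),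
  (370, 3, 296), (295, 1, 294)], [(5, 300, 6), (371, 1, 296), (0, 298, 370), (6, 299, 0), (370, 1,
  296)], [(0, 304, 4), (372, 1, 296), (5, 302, 371), (4, 303, 5), (371, 1, 296)], [(5, 308, 6),
  (373, 1, 296), (0, 306, 372), (6, 307, 0), (372, 1, 296)], [(0, 312, 4), (374, 1, 296), (5, 310,
  373), (4, 311, 5), (373, 1, 296)], [(5, 316, 6), (375, 1, 296), (0, 314, 374), (6, 315, 0), (374,
  1, 296)], [(0, 320, 4), (376, 1, 296), (5, 318, 375), (4, 319, 5), (375, 1, 296)], [(5, 324, 6),
  (377, 1, 296), (0, 322, 376), (6, 323, 0), (376, 1, 296)], [(0, 328, 4), (378, 1, 296), (5, 326,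
  377), (4, 327, 5), (377, 1, 296)], [(5, 332, 6), (379, 1, 296), (0, 330, 378), (6, 331, 0), (378,
  1, 296)], [(0, 336, 4), (380, 1, 296), (5, 334, 379), (4, 335, 5), (379, 1, 296)], [(2, 340, 3),
  (381, 1, 294), (0, 338, 380), (3, 339, 0), (296, 2, 295), (380, 3, 296), (295, 1, 294)], [(0,
  344, 1), (382, 1, 292), (2, 342, 381), (1, 343, 2), (294, 2, 293), (381, 3, 294), (293, 1, 292)]]

/-- Times and witnesses. -/
def twY30 : List (List (ℕ × ℕ × ℕ)) :=
  [[(2, 348, 3), (383, 1, 290), (0, 346, 382), (3, 347, 0), (292, 2, 291), (382, 3, 292), (291, 1,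
  290)], [(0, 352, 1), (384, 1, 288), (2, 350, 383), (1, 351, 2), (290, 2, 289), (383, 3, 290),
  (289, 1, 288)], [(2, 356, 3), (385, 1, 286), (0, 354, 384), (3, 355, 0), (288, 2, 287), (384, 3,
  288), (287, 1, 286)], [(0, 360, 1), (386, 1, 284), (2, 358, 385), (1, 359, 2), (286, 2, 285),
  (385, 3, 286), (285, 1, 284)], [(2, 364, 3), (387, 1, 282), (0, 362, 386), (3, 363, 0), (284, 2,
  283), (386, 3, 284), (283, 1, 282)], [(0, 368, 1), (388, 1, 280), (2, 366, 387), (1, 367, 2),
  (282, 2, 281), (387, 3, 282), (281, 1, 280)], [(2, 372, 3), (389, 1, 278), (0, 370, 388), (3,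
  371, 0), (280, 2, 279), (388, 3, 280), (279, 1, 278)], [(0, 376, 1), (390, 1, 276), (2, 374,
  389), (1, 375, 2), (278, 2, 277), (389, 3, 278), (277, 1, 276)], [(2, 380, 3), (391, 1, 274), (0,
  378, 390), (3, 379, 0), (276, 2, 275), (390, 3, 276), (275, 1, 274)], [(0, 384, 1), (392, 1,
  272), (2, 382, 391), (1, 383, 2), (274, 2, 273), (391, 3, 274), (273, 1, 272)], [(2, 388, 3),
  (393, 1, 270), (0, 386, 392), (3, 387, 0), (272, 2, 271), (392, 3, 272), (271, 1, 270)], [(0, 2,
  267), (267, 1, 268), (2, 390, 393), (1, 391, 2), (270, 2, 269), (393, 3, 270), (269, 1, 268)]]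

/-- Times and witnesses. -/
def twY (y x : ℕ) : ℕ × ℕ :=
  ((tb [twY0, twY1, twY2, twY3, twY4, twY5, twY6, twY7, twY8, twY9, twY10, twY11, twY12, twY13,
  twY14, twY15, twY16, twY17, twY18, twY19, twY20, twY21, twY22, twY23, twY24, twY25, twY26, twY27,
  twY28, twY29, twY30] [] y).lookup x).getD (0, 0)

/-- Times of the matching. -/
def tmY : ℕ → ℕ := tb
  [[0, 3, 2, 6, 5, 4, 8, 11, 10, 12, 14, 16, 18, 20, 22, 24], [26, 28, 30, 32, 34, 36, 38, 40, 13,
  15, 17, 19, 21, 23, 25, 27], [29, 31, 33, 35, 37, 39, 41, 42, 45, 44, 46, 48, 50, 52, 54, 56],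
  [58, 60, 62, 64, 66, 68, 70, 72, 74, 76, 78, 80, 82, 84, 86, 88], [90, 47, 49, 51, 53, 55, 57,
  59, 61, 63, 65, 67, 69, 71, 73, 75], [77, 79, 81, 83, 85, 87, 89, 91, 92, 95, 94, 96, 98, 100,
  102, 104], [106, 108, 110, 112, 114, 116, 118, 120, 122, 124, 126, 128, 130, 132, 134, 136],
  [138, 140, 142, 144, 146, 148, 150, 152, 154, 156, 97, 99, 101, 103, 105, 107], [109, 111, 113,
  115, 117, 119, 121, 123, 125, 127, 129, 131, 133, 135, 137, 139], [141, 143, 145, 147, 149, 151,
  153, 155, 157, 158, 161, 160, 162, 164, 166, 168], [170, 172, 174, 176, 178, 180, 182, 184, 186,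
  188, 190, 192, 194, 196, 198, 200], [202, 204, 206, 208, 210, 212, 214, 216, 218, 220, 222, 224,
  226, 228, 230, 232], [234, 236, 238, 240, 242, 244, 246, 248, 250, 252, 254, 256, 258, 260, 262,
  264], [266, 268, 270, 163, 165, 167, 169, 171, 173, 175, 177, 179, 181, 183, 185, 187], [189,
  191, 193, 195, 197, 199, 201, 203, 205, 207, 209, 211, 213, 215, 217, 219], [221, 223, 225, 227,
  229, 231, 233, 235, 237, 239, 241, 243, 245, 247, 249, 251], [253, 255, 257, 259, 261, 263, 265,
  267, 269, 271, 272, 275, 274, 277, 276, 279], [278, 281, 280, 283, 282, 285, 284, 287, 286, 289,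
  288, 291, 290, 293, 292, 295], [294, 297, 296, 299, 298, 301, 300, 303, 302, 304, 306, 308, 310,
  312, 314, 316], [318, 320, 322, 324, 326, 328, 330, 332, 334, 336, 338, 340, 342, 344, 346, 348],
  [350, 352, 354, 356, 358, 360, 362, 364, 366, 368, 370, 372, 374, 376, 378, 380], [382, 384, 386,
  388, 390, 392, 394, 396, 398, 400, 402, 404, 406, 408, 410, 412], [414, 416, 418, 420, 422, 424,
  426, 428, 430, 432, 434, 436, 438, 440, 442, 444], [446, 448, 450, 452, 454, 456, 458, 460, 462,
  464, 466, 468, 470, 472, 474, 476], [478, 480, 482, 484, 486, 488, 490, 492, 494, 496, 305, 307,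
  309, 311, 313, 315], [317, 319, 321, 323, 325, 327, 329, 331, 333, 335, 337, 339, 341, 343, 345,
  347], [349, 351, 353, 355, 357, 359, 361, 363, 365, 367, 369, 371, 373, 375, 377, 379], [381,
  383, 385, 387, 389, 391, 393, 395, 397, 399, 401, 403, 405, 407, 409, 411], [413, 415, 417, 419,
  421, 423, 425, 427, 429, 431, 433, 435, 437, 439, 441, 443], [445, 447, 449, 451, 453, 455, 457,
  459, 461, 463, 465, 467, 469, 471, 473, 475], [477, 479, 481, 483, 485, 487, 489, 491, 493, 495,
  497, 498, 1, 7, 9, 43], [93, 159, 273, 499]] 0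

/-- The inverse of the times. -/
def ivY : ℕ → ℕ := tb
  [[0, 492, 2, 1, 5, 4, 3, 493, 6, 494, 8, 7, 9, 24, 10, 25], [11, 26, 12, 27, 13, 28, 14, 29, 15,
  30, 16, 31, 17, 32, 18, 33], [19, 34, 20, 35, 21, 36, 22, 37, 23, 38, 39, 495, 41, 40, 42, 65],
  [43, 66, 44, 67, 45, 68, 46, 69, 47, 70, 48, 71, 49, 72, 50, 73], [51, 74, 52, 75, 53, 76, 54,
  77, 55, 78, 56, 79, 57, 80, 58, 81], [59, 82, 60, 83, 61, 84, 62, 85, 63, 86, 64, 87, 88, 496,
  90, 89], [91, 122, 92, 123, 93, 124, 94, 125, 95, 126, 96, 127, 97, 128, 98, 129], [99, 130, 100,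
  131, 101, 132, 102, 133, 103, 134, 104, 135, 105, 136, 106, 137], [107, 138, 108, 139, 109, 140,
  110, 141, 111, 142, 112, 143, 113, 144, 114, 145], [115, 146, 116, 147, 117, 148, 118, 149, 119,
  150, 120, 151, 121, 152, 153, 497], [155, 154, 156, 211, 157, 212, 158, 213, 159, 214, 160, 215,
  161, 216, 162, 217], [163, 218, 164, 219, 165, 220, 166, 221, 167, 222, 168, 223, 169, 224, 170,
  225], [171, 226, 172, 227, 173, 228, 174, 229, 175, 230, 176, 231, 177, 232, 178, 233], [179,
  234, 180, 235, 181, 236, 182, 237, 183, 238, 184, 239, 185, 240, 186, 241], [187, 242, 188, 243,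
  189, 244, 190, 245, 191, 246, 192, 247, 193, 248, 194, 249], [195, 250, 196, 251, 197, 252, 198,
  253, 199, 254, 200, 255, 201, 256, 202, 257], [203, 258, 204, 259, 205, 260, 206, 261, 207, 262,
  208, 263, 209, 264, 210, 265], [266, 498, 268, 267, 270, 269, 272, 271, 274, 273, 276, 275, 278,
  277, 280, 279], [282, 281, 284, 283, 286, 285, 288, 287, 290, 289, 292, 291, 294, 293, 296, 295],
  [297, 394, 298, 395, 299, 396, 300, 397, 301, 398, 302, 399, 303, 400, 304, 401], [305, 402, 306,
  403, 307, 404, 308, 405, 309, 406, 310, 407, 311, 408, 312, 409], [313, 410, 314, 411, 315, 412,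
  316, 413, 317, 414, 318, 415, 319, 416, 320, 417], [321, 418, 322, 419, 323, 420, 324, 421, 325,
  422, 326, 423, 327, 424, 328, 425], [329, 426, 330, 427, 331, 428, 332, 429, 333, 430, 334, 431,
  335, 432, 336, 433], [337, 434, 338, 435, 339, 436, 340, 437, 341, 438, 342, 439, 343, 440, 344,
  441], [345, 442, 346, 443, 347, 444, 348, 445, 349, 446, 350, 447, 351, 448, 352, 449], [353,
  450, 354, 451, 355, 452, 356, 453, 357, 454, 358, 455, 359, 456, 360, 457], [361, 458, 362, 459,
  363, 460, 364, 461, 365, 462, 366, 463, 367, 464, 368, 465], [369, 466, 370, 467, 371, 468, 372,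
  469, 373, 470, 374, 471, 375, 472, 376, 473], [377, 474, 378, 475, 379, 476, 380, 477, 381, 478,
  382, 479, 383, 480, 384, 481], [385, 482, 386, 483, 387, 484, 388, 485, 389, 486, 390, 487, 391,
  488, 392, 489], [393, 490, 491, 499]] 0

/-- The chain map. -/
def JY : ℕ → FS := tb
  [[[(0, 1, [])], [(1, 1, []), (3, 1, [])], [(4, 1, []), (6, 1, [])], [(24, 1, []), (25, 1, []),
  (26, 1, []), (27, 1, []), (28, 1, []), (29, 1, []), (30, 1, []), (31, 1, []), (32, 1, []), (33,
  1, []), (34, 1, []), (35, 1, []), (36, 1, []), (37, 1, []), (38, 1, []), (39, 1, [])], [(65, 1,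
  []), (66, 1, []), (67, 1, []), (68, 1, []), (69, 1, []), (70, 1, []), (71, 1, []), (72, 1, []),
  (73, 1, []), (74, 1, []), (75, 1, []), (76, 1, []), (77, 1, []), (78, 1, []), (79, 1, []), (80,
  1, []), (81, 1, []), (82, 1, []), (83, 1, []), (84, 1, []), (85, 1, []), (86, 1, []), (87, 1,
  []), (88, 1, [])], [(122, 1, []), (123, 1, []), (124, 1, []), (125, 1, []), (126, 1, []), (127,
  1, []), (128, 1, []), (129, 1, []), (130, 1, []), (131, 1, []), (132, 1, []), (133, 1, []), (134,
  1, []), (135, 1, []), (136, 1, []), (137, 1, []), (138, 1, []), (139, 1, []), (140, 1, []), (141,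
  1, []), (142, 1, []), (143, 1, []), (144, 1, []), (145, 1, []), (146, 1, []), (147, 1, []), (148,
  1, []), (149, 1, []), (150, 1, []), (151, 1, []), (152, 1, []), (153, 1, [])], [(211, 1, []),
  (212, 1, []), (213, 1, []), (214, 1, []), (215, 1, []), (216, 1, []), (217, 1, []), (218, 1, []),
  (219, 1, []), (220, 1, []), (221, 1, []), (222, 1, []), (223, 1, []), (224, 1, []), (225, 1, []),
  (226, 1, []), (227, 1, []), (228, 1, []), (229, 1, []), (230, 1, []), (231, 1, []), (232, 1, []),
  (233, 1, []), (234, 1, []), (235, 1, []), (236, 1, []), (237, 1, []), (238, 1, []), (239, 1, []),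
  (240, 1, []), (241, 1, []), (242, 1, []), (243, 1, []), (244, 1, []), (245, 1, []), (246, 1, []),
  (247, 1, []), (248, 1, []), (249, 1, []), (250, 1, []), (251, 1, []), (252, 1, []), (253, 1, []),
  (254, 1, []), (255, 1, []), (256, 1, []), (257, 1, []), (258, 1, []), (259, 1, []), (260, 1, []),
  (261, 1, []), (262, 1, []), (263, 1, []), (264, 1, []), (265, 1, []), (266, 1, [])], [(394, 1,
  []), (395, 1, []), (396, 1, []), (397, 1, []), (398, 1, []), (399, 1, []), (400, 1, []), (401, 1,
  []), (402, 1, []), (403, 1, []), (404, 1, []), (405, 1, []), (406, 1, []), (407, 1, []), (408, 1,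
  []), (409, 1, []), (410, 1, []), (411, 1, []), (412, 1, []), (413, 1, []), (414, 1, []), (415, 1,
  []), (416, -1, [(false, 1)]), (417, -1, [(false, 1)]), (418, -1, [(false, 1)]), (419, -1,
  [(false, 1)]), (420, -1, [(false, 1)]), (421, -1, [(false, 1)]), (422, -1, [(false, 1)]), (423,
  -1, [(false, 1)]), (424, -1, [(false, 1)]), (425, -1, [(false, 1)]), (426, 1, [(false, 1)]),
  (427, 1, [(false, 1)]), (428, 1, [(false, 2)]), (429, 1, [(false, 2)]), (430, 1, [(false, 3)]),
  (431, 1, [(false, 3)]), (432, 1, [(false, 3)]), (433, 1, [(false, 3)]), (434, 1, [(false, 3)]),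
  (435, 1, [(false, 3)]), (436, 1, [(false, 3)]), (437, 1, [(false, 3)]), (438, 1, [(false, 3)]),
  (439, 1, [(false, 3)]), (440, 1, [(false, 3)]), (441, 1, [(false, 3)]), (442, -1, [(false, 4)]),
  (443, -1, [(false, 4)]), (444, -1, [(false, 4)]), (445, -1, [(false, 4)]), (446, -1, [(false,
  4)]), (447, -1, [(false, 4)]), (448, -1, [(false, 4)]), (449, -1, [(false, 4)]), (450, -1,
  [(false, 4)]), (451, -1, [(false, 4)]), (452, 1, [(false, 4)]), (453, 1, [(false, 4)]), (454, 1,
  [(false, 5)]), (455, 1, [(false, 5)]), (456, 1, [(false, 5)]), (457, 1, [(false, 5)]), (458, 1,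
  [(false, 5)]), (459, 1, [(false, 5)]), (460, 1, [(false, 5)]), (461, 1, [(false, 5)]), (462, 1,
  [(false, 5)]), (463, 1, [(false, 5)]), (464, 1, [(false, 5)]), (465, 1, [(false, 5)]), (466, 1,
  [(false, 6)]), (467, 1, [(false, 6)]), (468, -1, [(false, 7)]), (469, -1, [(false, 7)]), (470,
  -1, [(false, 7)]), (471, -1, [(false, 7)]), (472, -1, [(false, 7)]), (473, -1, [(false, 7)]),
  (474, -1, [(false, 7)]), (475, -1, [(false, 7)]), (476, -1, [(false, 7)]), (477, -1, [(false,
  7)]), (478, -1, [(false, 6)]), (479, -1, [(false, 6)]), (480, -1, [(false, 5)]), (481, -1,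
  [(false, 5)]), (482, -1, [(false, 4)]), (483, -1, [(false, 4)]), (484, -1, [(false, 3)]), (485,
  -1, [(false, 3)]), (486, -1, [(false, 2)]), (487, -1, [(false, 2)]), (488, -1, [(false, 1)]),
  (489, -1, [(false, 1)]), (490, -1, []), (491, -1, [])]]] []

/-- The free derivatives. -/
def FxY : ℕ → FS := tb
  [[[], [(0, 1, [(false, 1)]), (0, -1, [])], [(0, 1, [(true, 1)]), (0, -1, [])], [(2, 1, []), (1,
  1, [(true, 1)]), (2, 1, [(true, 1), (false, 1)]), (1, -1, [(true, 1), (false, 1), (true, 1),
  (false, -1)]), (2, -1, [(true, 1), (false, 1), (true, 1), (false, -1), (true, -1)]), (1, 1,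
  [(true, 1), (false, 1), (true, 1), (false, -1), (true, -1)]), (2, -1, [(true, 1), (false, 1),
  (true, 1), (false, -1), (true, -1), (false, 1), (true, -1)]), (1, -1, [(true, 1), (false, 1),
  (true, 1), (false, -1), (true, -1), (false, 1), (true, -1), (false, -1)])], [(2, 1, []), (1, 1,
  [(true, 1)]), (1, 1, [(true, 1), (false, 1)]), (2, 1, [(true, 1), (false, 2)]), (1, -1, [(true,
  1), (false, 2), (true, 1), (false, -1)]), (1, -1, [(true, 1), (false, 2), (true, 1), (false,
  -2)]), (2, -1, [(true, 1), (false, 2), (true, 1), (false, -2), (true, -1)]), (1, 1, [(true, 1),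
  (false, 2), (true, 1), (false, -2), (true, -1)]), (1, 1, [(true, 1), (false, 2), (true, 1),
  (false, -2), (true, -1), (false, 1)]), (2, -1, [(true, 1), (false, 2), (true, 1), (false, -2),
  (true, -1), (false, 2), (true, -1)]), (1, -1, [(true, 1), (false, 2), (true, 1), (false, -2),
  (true, -1), (false, 2), (true, -1), (false, -1)]), (1, -1, [(true, 1), (false, 2), (true, 1),
  (false, -2), (true, -1), (false, 2), (true, -1), (false, -2)])], [(2, 1, []), (1, 1, [(true,
  1)]), (1, 1, [(true, 1), (false, 1)]), (1, 1, [(true, 1), (false, 2)]), (2, 1, [(true, 1),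
  (false, 3)]), (1, -1, [(true, 1), (false, 3), (true, 1), (false, -1)]), (1, -1, [(true, 1),
  (false, 3), (true, 1), (false, -2)]), (1, -1, [(true, 1), (false, 3), (true, 1), (false, -3)]),
  (2, -1, [(true, 1), (false, 3), (true, 1), (false, -3), (true, -1)]), (1, 1, [(true, 1), (false,
  3), (true, 1), (false, -3), (true, -1)]), (1, 1, [(true, 1), (false, 3), (true, 1), (false, -3),
  (true, -1), (false, 1)]), (1, 1, [(true, 1), (false, 3), (true, 1), (false, -3), (true, -1),
  (false, 2)]), (2, -1, [(true, 1), (false, 3), (true, 1), (false, -3), (true, -1), (false, 3),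
  (true, -1)]), (1, -1, [(true, 1), (false, 3), (true, 1), (false, -3), (true, -1), (false, 3),
  (true, -1), (false, -1)]), (1, -1, [(true, 1), (false, 3), (true, 1), (false, -3), (true, -1),
  (false, 3), (true, -1), (false, -2)]), (1, -1, [(true, 1), (false, 3), (true, 1), (false, -3),
  (true, -1), (false, 3), (true, -1), (false, -3)])], [(1, 1, []), (1, 1, [(false, 1)]), (1, 1,
  [(false, 2)]), (1, 1, [(false, 3)]), (1, 1, [(false, 4)]), (1, 1, [(false, 5)]), (1, 1, [(false,
  6)]), (1, 1, [(false, 7)]), (2, 1, [(false, 8)]), (1, 1, [(false, 8), (true, 1)]), (1, 1,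
  [(false, 8), (true, 1), (false, 1)]), (1, 1, [(false, 8), (true, 1), (false, 2)]), (1, 1,
  [(false, 8), (true, 1), (false, 3)]), (2, 1, [(false, 8), (true, 1), (false, 4)]), (1, -1,
  [(false, 8), (true, 1), (false, 4), (true, 1), (false, -1)]), (1, -1, [(false, 8), (true, 1),
  (false, 4), (true, 1), (false, -2)]), (1, -1, [(false, 8), (true, 1), (false, 4), (true, 1),
  (false, -3)]), (1, -1, [(false, 8), (true, 1), (false, 4), (true, 1), (false, -4)]), (2, -1,
  [(false, 8), (true, 1), (false, 4), (true, 1), (false, -4), (true, -1)]), (1, 1, [(false, 8),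
  (true, 1), (false, 4), (true, 1), (false, -4), (true, -1)]), (1, 1, [(false, 8), (true, 1),
  (false, 4), (true, 1), (false, -4), (true, -1), (false, 1)]), (1, 1, [(false, 8), (true, 1),
  (false, 4), (true, 1), (false, -4), (true, -1), (false, 2)]), (1, 1, [(false, 8), (true, 1),
  (false, 4), (true, 1), (false, -4), (true, -1), (false, 3)]), (2, -1, [(false, 8), (true, 1),
  (false, 4), (true, 1), (false, -4), (true, -1), (false, 4), (true, -1)]), (1, -1, [(false, 8),
  (true, 1), (false, 4), (true, 1), (false, -4), (true, -1), (false, 4), (true, -1), (false, -1)]),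
  (1, -1, [(false, 8), (true, 1), (false, 4), (true, 1), (false, -4), (true, -1), (false, 4),
  (true, -1), (false, -2)]), (1, -1, [(false, 8), (true, 1), (false, 4), (true, 1), (false, -4),
  (true, -1), (false, 4), (true, -1), (false, -3)]), (1, -1, [(false, 8), (true, 1), (false, 4),
  (true, 1), (false, -4), (true, -1), (false, 4), (true, -1), (false, -4)])], [(2, 1, []), (2, 1,
  [(true, 1)]), (2, 1, [(true, 2)]), (2, 1, [(true, 3)]), (2, 1, [(true, 4)]), (2, 1, [(true, 5)]),
  (2, 1, [(true, 6)]), (2, 1, [(true, 7)]), (2, 1, [(true, 8)]), (2, 1, [(true, 9)]), (1, 1,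
  [(true, 10)]), (2, -1, [(true, 10), (false, 1), (true, -1)]), (2, -1, [(true, 10), (false, 1),
  (true, -2)]), (2, -1, [(true, 10), (false, 1), (true, -3)]), (2, -1, [(true, 10), (false, 1),
  (true, -4)]), (2, -1, [(true, 10), (false, 1), (true, -5)]), (1, 1, [(true, 10), (false, 1),
  (true, -5)]), (1, 1, [(true, 10), (false, 1), (true, -5), (false, 1)]), (2, 1, [(true, 10),
  (false, 1), (true, -5), (false, 2)]), (2, 1, [(true, 10), (false, 1), (true, -5), (false, 2),
  (true, 1)]), (2, 1, [(true, 10), (false, 1), (true, -5), (false, 2), (true, 2)]), (2, 1, [(true,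
  10), (false, 1), (true, -5), (false, 2), (true, 3)]), (2, 1, [(true, 10), (false, 1), (true, -5),
  (false, 2), (true, 4)]), (1, 1, [(true, 10), (false, 1), (true, -5), (false, 2), (true, 5)]), (2,
  -1, [(true, 10), (false, 1), (true, -5), (false, 2), (true, 5), (false, 1), (true, -1)]), (2, -1,
  [(true, 10), (false, 1), (true, -5), (false, 2), (true, 5), (false, 1), (true, -2)]), (2, -1,
  [(true, 10), (false, 1), (true, -5), (false, 2), (true, 5), (false, 1), (true, -3)]), (2, -1,
  [(true, 10), (false, 1), (true, -5), (false, 2), (true, 5), (false, 1), (true, -4)]), (2, -1,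
  [(true, 10), (false, 1), (true, -5), (false, 2), (true, 5), (false, 1), (true, -5)]), (1, 1,
  [(true, 10), (false, 1), (true, -5), (false, 2), (true, 5), (false, 1), (true, -5)]), (2, 1,
  [(true, 10), (false, 1), (true, -5), (false, 2), (true, 5), (false, 1), (true, -5), (false, 1)]),
  (2, 1, [(true, 10), (false, 1), (true, -5), (false, 2), (true, 5), (false, 1), (true, -5),
  (false, 1), (true, 1)]), (2, 1, [(true, 10), (false, 1), (true, -5), (false, 2), (true, 5),
  (false, 1), (true, -5), (false, 1), (true, 2)]), (2, 1, [(true, 10), (false, 1), (true, -5),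
  (false, 2), (true, 5), (false, 1), (true, -5), (false, 1), (true, 3)]), (2, 1, [(true, 10),
  (false, 1), (true, -5), (false, 2), (true, 5), (false, 1), (true, -5), (false, 1), (true, 4)]),
  (1, 1, [(true, 10), (false, 1), (true, -5), (false, 2), (true, 5), (false, 1), (true, -5),
  (false, 1), (true, 5)]), (1, 1, [(true, 10), (false, 1), (true, -5), (false, 2), (true, 5),
  (false, 1), (true, -5), (false, 1), (true, 5), (false, 1)]), (2, -1, [(true, 10), (false, 1),
  (true, -5), (false, 2), (true, 5), (false, 1), (true, -5), (false, 1), (true, 5), (false, 2),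
  (true, -1)]), (2, -1, [(true, 10), (false, 1), (true, -5), (false, 2), (true, 5), (false, 1),
  (true, -5), (false, 1), (true, 5), (false, 2), (true, -2)]), (2, -1, [(true, 10), (false, 1),
  (true, -5), (false, 2), (true, 5), (false, 1), (true, -5), (false, 1), (true, 5), (false, 2),
  (true, -3)]), (2, -1, [(true, 10), (false, 1), (true, -5), (false, 2), (true, 5), (false, 1),
  (true, -5), (false, 1), (true, 5), (false, 2), (true, -4)]), (2, -1, [(true, 10), (false, 1),
  (true, -5), (false, 2), (true, 5), (false, 1), (true, -5), (false, 1), (true, 5), (false, 2),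
  (true, -5)]), (1, -1, [(true, 10), (false, 1), (true, -5), (false, 2), (true, 5), (false, 1),
  (true, -5), (false, 1), (true, 5), (false, 2), (true, -5), (false, -1)]), (1, -1, [(true, 10),
  (false, 1), (true, -5), (false, 2), (true, 5), (false, 1), (true, -5), (false, 1), (true, 5),
  (false, 2), (true, -5), (false, -2)]), (1, -1, [(true, 10), (false, 1), (true, -5), (false, 2),
  (true, 5), (false, 1), (true, -5), (false, 1), (true, 5), (false, 2), (true, -5), (false, -3)]),
  (1, -1, [(true, 10), (false, 1), (true, -5), (false, 2), (true, 5), (false, 1), (true, -5),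
  (false, 1), (true, 5), (false, 2), (true, -5), (false, -4)]), (1, -1, [(true, 10), (false, 1),
  (true, -5), (false, 2), (true, 5), (false, 1), (true, -5), (false, 1), (true, 5), (false, 2),
  (true, -5), (false, -5)]), (1, -1, [(true, 10), (false, 1), (true, -5), (false, 2), (true, 5),
  (false, 1), (true, -5), (false, 1), (true, 5), (false, 2), (true, -5), (false, -6)]), (1, -1,
  [(true, 10), (false, 1), (true, -5), (false, 2), (true, 5), (false, 1), (true, -5), (false, 1),
  (true, 5), (false, 2), (true, -5), (false, -7)])]]] []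

/-- The map of tables. -/
def fYX : ℕ → ℕ := tb
  [[0, 1, 2, 3, 4, 5, 6, 7, 8, 9, 10, 11, 12, 13, 14, 15], [16, 17, 18, 19, 20, 21, 22, 23, 24, 25,
  26, 27, 28, 29, 30, 31], [32, 33, 34, 35, 36, 37, 38, 39, 40, 41, 42, 43, 44, 45, 46, 47], [48,
  49, 50, 51, 52, 53, 54, 55, 56, 57, 58, 59, 60, 61, 62, 63], [64, 65, 66, 67, 68, 69, 70, 71, 72,
  73, 74, 75, 76, 77, 78, 79], [80, 81, 82, 83, 84, 85, 86, 87, 88, 89, 90, 91, 92, 93, 94, 95],
  [96, 97, 98, 99, 100, 101, 102, 103, 104, 105, 106, 107, 108, 109, 110, 111], [112, 113, 114,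
  115, 116, 117, 118, 119, 120, 121, 122, 123, 124, 125, 126, 127], [128, 129, 130, 131, 132, 133,
  134, 135, 136, 137, 138, 139, 140, 141, 142, 143], [144, 145, 146, 147, 148, 149, 150, 151, 152,
  153, 154, 155, 156, 157, 158, 159], [160, 161, 162, 163, 164, 165, 166, 167, 168, 169, 170, 171,
  172, 173, 174, 175], [176, 177, 178, 179, 180, 181, 182, 183, 184, 185, 186, 187, 188, 189, 190,
  191], [192, 193, 194, 195, 196, 197, 198, 199, 200, 201, 202, 203, 204, 205, 206, 207], [208,
  209, 210, 211, 212, 213, 214, 215, 216, 217, 218, 219, 220, 221, 222, 223], [224, 225, 226, 227,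
  228, 229, 230, 231, 232, 233, 234, 235, 236, 237, 238, 239], [240, 241, 242, 243, 244, 245, 246,
  247, 248, 249, 250, 251, 252, 253, 254, 255], [256, 257, 258, 259, 260, 261, 262, 263, 264, 265,
  266, 267, 268, 290, 289, 291], [268, 290, 289, 291, 268, 290, 289, 291, 268, 290, 289, 291, 268,
  290, 289, 291], [268, 290, 289, 291, 268, 290, 289, 291, 268, 269, 270, 271, 272, 273, 274, 275],
  [276, 277, 267, 269, 270, 271, 272, 273, 274, 275, 276, 277, 267, 288, 267, 277], [276, 275, 274,
  273, 272, 271, 270, 269, 267, 288, 267, 288, 267, 269, 270, 271], [272, 273, 274, 275, 276, 277,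
  267, 288, 267, 277, 276, 275, 274, 273, 272, 271], [270, 269, 267, 288, 267, 269, 270, 271, 272,
  273, 274, 275, 276, 277, 267, 288], [267, 288, 267, 277, 276, 275, 274, 273, 272, 271, 270, 269,
  267, 288, 267, 288], [267, 288, 267, 288, 267, 288, 267, 288, 267, 288, 278, 279, 280, 281, 282,
  283], [284, 285, 286, 287, 278, 279, 280, 281, 282, 283, 284, 285, 286, 287, 292, 293], [287,
  286, 285, 284, 283, 282, 281, 280, 279, 278, 292, 293, 292, 293, 278, 279], [280, 281, 282, 283,
  284, 285, 286, 287, 292, 293, 287, 286, 285, 284, 283, 282], [281, 280, 279, 278, 292, 293, 278,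
  279, 280, 281, 282, 283, 284, 285, 286, 287], [292, 293, 292, 293, 287, 286, 285, 284, 283, 282,
  281, 280, 279, 278, 293, 292], [293, 292, 293, 292, 293, 292, 293, 292, 293, 292, 293, 292]] 0

end Pool.Agent.Lib.MP_5ceaf9_gt.G
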