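import Pool.Agent.Lib.MP_5ceaf9_gt.GTabX
import Pool.Agent.Lib.MP_5ceaf9_gt.GTabY

/-! The checks for the table Y and the map of tables. -/

namespace Pool.Agent.Lib.MP_5ceaf9_gt.G

theorem y_okP : tabY.okP = true := by decide +kernel

theorem y_okQ : tabY.okQ = true := by decide +kernel

theorem y_okK : tabY.okK anY = true := by decide +kernel

theorem y_okC : tabY.okC anY twY = true := by decide +kernel

theorem y_okFx : okFx FxY = true := by decide +kernel

theorem y_okJ : tabY.okJ JY FxY tmY ivY = true := by decide +kernel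

theorem y_okM : okM tabY tabX fYX = true := by decide +kernel

/-- The diagonal matrix with the unit `v` in the last place. -/
def Mv (x : ℕ) : FS := if x = 7 then [(7, 2, []), (7, -1, [(false, 1)]), (7, -1, [(false, 7)]),
  (7, 1, [(false, 3)]), (7, -1, [(false, 4)]), (7, 1, [(false, 5)])] else [(x, 1, [])]

/-- Its inverse. -/
def Mu (x : ℕ) : FS := if x = 7 then [(7, 2, []), (7, 1, [(false, 1)]), (7, 1, [(false, 7)]),
  (7, -1, [(false, 3)]), (7, -1, [(false, 4)]), (7, -1, [(false, 5)])] else [(x, 1, [])]

theorem y_okU : okU fYX JY JX FxY FxX Mv Mu = true := by decide +kernel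

end Pool.Agent.Lib.MP_5ceaf9_gt.G
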