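import Pool.Agent.Lib.MP_5ceaf9_gt.GW

/-! Derivations of the group ring of the affine group, and the classes as their values. -/

noncomputable section

namespace Pool.Agent.Lib.MP_5ceaf9_gt.G

open Function

/-- The triangular representation attached to a twisted class and a character. -/
def rho2 (i m : ZMod 8) : Aff →* Matrix (Fin 2) (Fin 2) F25 where
  toFun a := !![pw zF ((i + m) * a.k), a.y i * pw zF (m * a.k); 0, pw zF (m * a.k)]
  map_one' := by
    refine Matrix.ext fun u v => ?_
    fin_cases u <;> fin_cases v <;> simp [pw_zero]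
  map_mul' a b := by
    refine Matrix.ext fun u v => ?_
    fin_cases u <;> fin_cases v <;>
      simp [Matrix.mul_apply, Fin.sum_univ_two, mul_add, add_mul, pw_add zF8] <;> ring

/-- The derivation attached to a twisted class and a character. -/
def Dv (i m : ZMod 8) : ZG Aff →+ F25 where
  toFun x := MonoidAlgebra.lift ℤ (Matrix (Fin 2) (Fin 2) F25) Aff (rho2 i m) x 0 1
  map_zero' := by simp
  map_add' x y := by simp

/-- The lifted character. -/
def chiR (j : ZMod 8) : Aff →* R25 where
  toFun a := pw zR (j * a.k)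
  map_one' := by simp [pw_zero]
  map_mul' a b := by simp [mul_add, pw_add zR8]

/-- The ring map defined by the lifted character. -/
def phR (j : ZMod 8) : ZG Aff →+* R25 := (MonoidAlgebra.lift ℤ R25 Aff (chiR j)).toRingHom

theorem phR_single (j : ZMod 8) (a : Aff) (n : ℤ) :
    phR j (MonoidAlgebra.single a n) = (n : R25) * pw zR (j * a.k) := by
  simp [phR, chiR]

theorem red_pw (k : ZMod 8) : red (pw zR k) = pw zF k := by
  unfold pw
  rw [map_pow, red_zR]

theorem red_phR (j : ZMod 8) (x : ZG Aff) : red (phR j x) = ph j x := by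
  induction x using MonoidAlgebra.induction_linear with
  | zero => simp
  | add x y hx hy => rw [map_add, map_add, map_add, hx, hy]
  | single a n => rw [phR_single, ph_single, map_mul, red_pw, map_intCast]

theorem gd_five_re (x : R25) : (5 * x).re = 5 * x.re := by
  have e : (5 : R25) * x = x + x + x + x + x := by ring
  rw [e]
  simp only [QuadraticAlgebra.re_add]
  ring

theorem gd_five_im (x : R25) : (5 * x).im = 5 * x.im := by
  have e : (5 : R25) * x = x + x + x + x + x := by ring
  rw [e]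
  simp only [QuadraticAlgebra.im_add]
  ring

theorem gd_cast_eq : ∀ u v : ZMod 25, 5 * u = 5 * v →
    ZMod.castHom (by norm_num : 5 ∣ 25) (ZMod 5) u =
      ZMod.castHom (by norm_num : 5 ∣ 25) (ZMod 5) v := by
  decide +kernel

theorem gd_cast_zero : ∀ u : ZMod 25, ZMod.castHom (by norm_num : 5 ∣ 25) (ZMod 5) u = 0 →
    ∃ v, u = 5 * v := by
  decide +kernel

theorem gd_cast_surj : ∀ u : ZMod 5, ∃ v : ZMod 25,
    ZMod.castHom (by norm_num : 5 ∣ 25) (ZMod 5) v = u := by
  decide +kernel

theorem red_of_five {x y : R25} (h : 5 * x = 5 * y) : red x = red y := by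
  have h1 : 5 * x.re = 5 * y.re := by
    rw [← gd_five_re, ← gd_five_re, h]
  have h2 : 5 * x.im = 5 * y.im := by
    rw [← gd_five_im, ← gd_five_im, h]
  exact QuadraticAlgebra.ext (gd_cast_eq _ _ h1) (gd_cast_eq _ _ h2)

theorem exists_five {x : R25} (h : red x = 0) : ∃ y, x = 5 * y := by
  obtain ⟨u, hu⟩ := gd_cast_zero x.re (congrArg QuadraticAlgebra.re h)
  obtain ⟨v, hv⟩ := gd_cast_zero x.im (congrArg QuadraticAlgebra.im h)
  exact ⟨⟨u, v⟩, QuadraticAlgebra.ext (by rw [gd_five_re]; exact hu) (by rw [gd_five_im]; exact hv)⟩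

theorem red_surj : Surjective red := by
  intro x
  obtain ⟨u, hu⟩ := gd_cast_surj x.re
  obtain ⟨v, hv⟩ := gd_cast_surj x.im
  exact ⟨⟨u, v⟩, QuadraticAlgebra.ext hu hv⟩

theorem Dv_single (i m : ZMod 8) (a : Aff) (n : ℤ) :
    Dv i m (MonoidAlgebra.single a n) = (n : F25) * (a.y i * pw zF (m * a.k)) := by
  change MonoidAlgebra.lift ℤ (Matrix (Fin 2) (Fin 2) F25) Aff (rho2 i m)
    (MonoidAlgebra.single a n) 0 1 = _
  rw [MonoidAlgebra.lift_single, Matrix.smul_apply, zsmul_eq_mul]
  rfl

theorem gd_diag (i m : ZMod 8) (x : ZG Aff) :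
    MonoidAlgebra.lift ℤ (Matrix (Fin 2) (Fin 2) F25) Aff (rho2 i m) x 0 0 = ph (i + m) x ∧
      MonoidAlgebra.lift ℤ (Matrix (Fin 2) (Fin 2) F25) Aff (rho2 i m) x 1 1 = ph m x := by
  induction x using MonoidAlgebra.induction_linear with
  | zero => simp
  | add x y hx hy =>
    rw [map_add, map_add, map_add, Matrix.add_apply, Matrix.add_apply, hx.1, hx.2, hy.1, hy.2]
    exact ⟨rfl, rfl⟩
  | single a n =>
    rw [MonoidAlgebra.lift_single, Matrix.smul_apply, Matrix.smul_apply, zsmul_eq_mul,
      zsmul_eq_mul, ph_single, ph_single]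
    exact ⟨rfl, rfl⟩

theorem Dv_mul (i m : ZMod 8) (x y : ZG Aff) :
    Dv i m (x * y) = ph (i + m) x * Dv i m y + Dv i m x * ph m y := by
  change MonoidAlgebra.lift ℤ (Matrix (Fin 2) (Fin 2) F25) Aff (rho2 i m) (x * y) 0 1 = _
  rw [map_mul, Matrix.mul_apply, Fin.sum_univ_two, (gd_diag i m x).1, (gd_diag i m y).2]
  rfl

theorem Dv_matrix {ι κ μ : Type} [Fintype κ] (i m : ZMod 8) (X : Matrix ι κ (ZG Aff))
    (Y : Matrix κ μ (ZG Aff)) :
    (X * Y).map (Dv i m) = X.map (ph (i + m)) * Y.map (Dv i m) + X.map (Dv i m) * Y.map (ph m) := by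
  refine Matrix.ext fun u v => ?_
  simp only [Matrix.map_apply, Matrix.add_apply, Matrix.mul_apply, map_sum, Dv_mul,
    Finset.sum_add_distrib]

theorem gd_zpow_h (m : ZMod 8) (n : ℤ) : (⟨m, 0⟩ : Aff) ^ n = ⟨m * (n : ZMod 8), 0⟩ := by
  induction n using Int.induction_on with
  | zero => exact Aff.ext (by simp) rfl
  | succ n ih =>
    rw [zpow_add_one, ih]
    exact Aff.ext (by simp [mul_add]) (funext fun i => by simp)
  | pred n ih =>
    rw [zpow_sub_one, ih]
    exact Aff.ext (by simp [mul_add, sub_eq_add_neg]) (funext fun i => by simp)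

theorem gd_zpow_a (a : ZMod 8 → F25) (n : ℤ) :
    (⟨0, a⟩ : Aff) ^ n = ⟨0, fun i => (n : F25) * a i⟩ := by
  induction n using Int.induction_on with
  | zero => exact Aff.ext rfl (funext fun i => by simp)
  | succ n ih =>
    rw [zpow_add_one, ih]
    exact Aff.ext (by simp) (funext fun i => by simp [pw_zero, add_mul])
  | pred n ih =>
    rw [zpow_sub_one, ih]
    exact Aff.ext (by simp) (funext fun i => by simp [pw_zero, add_mul, sub_eq_add_neg])

theorem ew_k (m : ZMod 8) (a : ZMod 8 → F25) (w : Wd) :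
    (ew (⟨m, 0⟩ : Aff) ⟨0, a⟩ w).k = m * (hx w : ZMod 8) := by
  induction w with
  | nil => simp [ew, hx]
  | cons s w ih =>
    have e : hx (s :: w) = (if s.1 then 0 else s.2) + hx w := by simp [hx]
    rw [ew, Aff.mul_k, ih, e]
    rcases s with ⟨_ | _, n⟩
    · simp [gd_zpow_h, mul_add]
    · simp [gd_zpow_a]

theorem ew_y (m : ZMod 8) (a : ZMod 8 → F25) (w : Wd) (i : ZMod 8) :
    (ew (⟨m, 0⟩ : Aff) ⟨0, a⟩ w).y i = a i * etw (i * m) w := by
  induction w with
  | nil => simp [ew, etw]
  | cons s w ih =>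
    rw [ew, Aff.mul_y, ih, etw]
    rcases s with ⟨_ | _, n⟩
    · simp only [Bool.false_eq_true, if_false, gd_zpow_h, Pi.zero_apply, zero_add, ← mul_assoc]
      ring
    · simp only [if_true, gd_zpow_a, mul_zero, pw_zero]
      ring

theorem ph_evF (j m : ZMod 8) (a : ZMod 8 → F25) (l : FS) (y : ℕ) :
    ph j (evF (⟨m, 0⟩ : Aff) ⟨0, a⟩ l y) = nC zF (j * m) l y := by
  unfold evF nC
  rw [map_list_sum, List.map_map]
  refine congrArg List.sum (List.map_congr_left fun t _ => ?_)
  by_cases h : t.1 = y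
  · simp only [Function.comp_apply, if_pos h, ph_single, ew_k, mul_assoc]
  · simp only [Function.comp_apply, if_neg h, map_zero]

theorem phR_evF (j m : ZMod 8) (a : ZMod 8 → F25) (l : FS) (y : ℕ) :
    phR j (evF (⟨m, 0⟩ : Aff) ⟨0, a⟩ l y) = nC zR (j * m) l y := by
  unfold evF nC
  rw [map_list_sum, List.map_map]
  refine congrArg List.sum (List.map_congr_left fun t _ => ?_)
  by_cases h : t.1 = y
  · simp only [Function.comp_apply, if_pos h, phR_single, ew_k, mul_assoc]
  · simp only [Function.comp_apply, if_neg h, map_zero]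

theorem Dv_evF (i k m : ZMod 8) (a : ZMod 8 → F25) (l : FS) (y : ℕ) :
    Dv i k (evF (⟨m, 0⟩ : Aff) ⟨0, a⟩ l y) = a i * nD (i * m) (k * m) l y := by
  unfold evF nD
  rw [map_list_sum, List.map_map, ← List.sum_map_mul_left]
  refine congrArg List.sum (List.map_congr_left fun t _ => ?_)
  by_cases h : t.1 = y
  · simp only [Function.comp_apply, if_pos h, Dv_single, ew_k, ew_y, ← mul_assoc]
    ring
  · simp only [Function.comp_apply, if_neg h, map_zero, mul_zero]

theorem red_nC (q : ZMod 8) (l : FS) (y : ℕ) : red (nC zR q l y) = nC zF q l y := by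
  unfold nC
  rw [map_list_sum, List.map_map]
  refine congrArg List.sum (List.map_congr_left fun t _ => ?_)
  by_cases h : t.1 = y
  · simp only [Function.comp_apply, if_pos h, map_mul, map_intCast, red_pw]
  · simp only [Function.comp_apply, if_neg h, map_zero]

theorem det4_eq (M : Fin 4 → Fin 4 → F25) : (Matrix.of M).det = det4 M := by
  rw [Matrix.det_succ_row_zero, Fin.sum_univ_four]
  simp only [Matrix.det_fin_three, Matrix.submatrix_apply, Matrix.of_apply, det4, det3]
  have e : ∀ k : Fin 4, ∀ j : Fin 3, k.succAbove j =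
      ![![1, 2, 3], ![0, 2, 3], ![0, 1, 3], ![0, 1, 2]] k j := by decide
  have e' : ∀ j : Fin 3, j.succ = ![1, 2, 3] j := by decide
  simp only [e, e', Matrix.cons_val_zero, Matrix.cons_val_one, Matrix.cons_val]
  norm_num
  ring

end Pool.Agent.Lib.MP_5ceaf9_gt.G
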