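import Pool.Agent.Lib.MP_5ceaf9_gt.Shared
import Pool.Agent.Lib.MP_5ceaf9_gt.GA1

/-! Part G: words, formal sums, tables of cells and the checks run on them. -/

namespace Pool.Agent.Lib.MP_5ceaf9_gt.G

/-- Words in two letters: `(false, n)` is `h ^ n`, `(true, n)` is `a ^ n`. -/
abbrev Wd : Type := List (Bool × ℤ)

/-- The value of a word. -/
def ew {Γ : Type} [Group Γ] (H A : Γ) : Wd → Γ
  | [] => 1
  | s :: w => (if s.1 then A else H) ^ s.2 * ew H A w

/-- The inverse word. -/
def winv (w : Wd) : Wd := (w.map fun s => (s.1, -s.2)).reverse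

/-- Reduction of an exponent. -/
def wred (m b : Bool) (n : ℤ) : ℤ := if m then (if b then n % 5 else n % 8) else n

/-- Put a syllable in front unless it is trivial. -/
def wput (b : Bool) (n : ℤ) (w : Wd) : Wd := if n = 0 then w else (b, n) :: w

/-- Multiply a reduced word by a syllable. -/
def wpush (m : Bool) (s : Bool × ℤ) : Wd → Wd
  | [] => wput s.1 (wred m s.1 s.2) []
  | t :: w => if s.1 = t.1 then wput s.1 (wred m s.1 (s.2 + t.2)) w
      else wput s.1 (wred m s.1 s.2) (t :: w)

/-- Normal form in the free group (`m = false`) or in the free product of the cyclic groups of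
orders eight and five (`m = true`). -/
def nf (m : Bool) (w : Wd) : Wd := w.foldr (wpush m) []

/-- A commutator in normal form. -/
def cmw (n : ℤ) : Wd :=
  [(true, 1), (false, n), (true, 1), (false, 8 - n), (true, 4), (false, n), (true, 4),
    (false, 8 - n)]

/-- Its inverse in normal form. -/
def cmw' (n : ℤ) : Wd :=
  [(false, n), (true, 1), (false, 8 - n), (true, 1), (false, n), (true, 4), (false, 8 - n),
    (true, 4)]

/-- Words that are known to be trivial. -/
def rels : List Wd := [cmw 1, cmw 2, cmw 3, cmw 4, cmw' 1, cmw' 2, cmw' 3, cmw' 4]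

/-- Normal form, the known trivial words being deleted. -/
def nfr (w : Wd) : Wd := if nf true w ∈ rels then [] else nf true w

/-- The relations of the group. -/
def Gp {Γ : Type} [Group Γ] (H A : Γ) : Prop := Rel4 H A ∧ A ^ 5 = 1

/-- Formal sums: index, coefficient, word. -/
abbrev FS : Type := List (ℕ × ℤ × Wd)

/-- The coefficient of the index `y` in a formal sum. -/
noncomputable def evF {Γ : Type} [Group Γ] (H A : Γ) (l : FS) (y : ℕ) : ZG Γ :=
  (l.map fun t => if t.1 = y then MonoidAlgebra.single (ew H A t.2.2) t.2.1 else 0).sum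

/-- The integral coefficient of the index `y`. -/
def evZ (l : FS) (y : ℕ) : ℤ := (l.map fun t => if t.1 = y then t.2.1 else 0).sum

/-- Product of a row with a matrix. -/
def bindF (l : FS) (U : ℕ → FS) : FS :=
  l.flatMap fun t => (U t.1).map fun s => (s.1, t.2.1 * s.2.1, t.2.2 ++ s.2.2)

/-- Zero test for a formal sum with keys. -/
def zt {K : Type} [DecidableEq K] : ℕ → List (K × ℤ) → Bool
  | _, [] => true
  | 0, _ :: _ => false
  | n + 1, a :: l => decide (a.2 + ((l.filter fun b => b.1 = a.1).map fun b => b.2).sum = 0) &&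
      zt n (l.filter fun b => !decide (b.1 = a.1))

/-- The keys of a formal sum, without the terms with coefficient zero. -/
def keys (ε : ℤ) (l : FS) : List ((ℕ × Wd) × ℤ) :=
  (l.filter fun t => !decide (t.2.1 = 0)).map fun t => ((t.1, nfr t.2.2), ε * t.2.1)

/-- Equality test for formal sums. -/
def eqF (l l' : FS) : Bool := zt (l.length + l'.length) (keys 1 l ++ keys (-1) l')

/-- Zero test for the integral coefficients. -/
def zeroZ (l : FS) : Bool := zt l.length (l.map fun t => (t.1, t.2.1))

/-- The matrix with rows given by formal sums. -/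
noncomputable def mF {Γ : Type} [Group Γ] (H A : Γ) (X Y : Finset ℕ) (U : ℕ → FS) :
    Matrix X Y (ZG Γ) := rs X Y (fun x y => evF H A (U x) y)

/-- Lookup in a table with rows of length sixteen. -/
def tb {X : Type} (L : List (List X)) (d : X) (n : ℕ) : X := (L.getD (n / 16) []).getD (n % 16) d

/-- For all numbers below `N`. -/
def allB (N : ℕ) (p : ℕ → Bool) : Bool := (List.range N).all p

theorem allB_iff {N : ℕ} {p : ℕ → Bool} : allB N p = true ↔ ∀ y < N, p y = true := by
  simp [allB]

/-- A table of cells. The row of `y` lists the cells `x` of the closed cell `y` with the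
incidence number and the word of the transport from `x` to `y`. -/
structure Tab where
  /-- The number of cells. -/
  N : ℕ
  /-- The closed cells. -/
  cl : ℕ → FS
  /-- The dimension. -/
  dm : ℕ → ℕ

namespace Tab

variable (T : Tab)

/-- The entry of `x` in the row of `y`. -/
def ent (y x : ℕ) : ℤ × Wd := ((T.cl y).lookup x).getD (0, [])

/-- The order, as a test. -/
def leb (x y : ℕ) : Bool := (T.cl y).any fun t => t.1 == x

/-- The order. -/
def le (x y : ℕ) : Prop := T.leb x y = true

/-- The incidence numbers. -/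
def inc (y x : ℕ) : ℤ := (T.ent y x).1

/-- The words. -/
def wd (y x : ℕ) : Wd := (T.ent y x).2

/-- The standard cocycle. -/
def std {Γ : Type} [Group Γ] (H A : Γ) (x y : ℕ) : Γ := (ew H A (T.wd y x))⁻¹

/-- The cells. -/
def el : Finset ℕ := Finset.range T.N

/-- The table describes a ranked poset. -/
def okP : Bool := allB T.N fun y =>
  decide ((T.cl y).map fun t => t.1).Nodup && T.leb y y && decide (T.ent y y = (0, [])) &&
    decide (T.dm y ≤ 2) && (T.cl y).all fun t => decide (t.1 < T.N) &&
      (decide (t.1 = y) || decide (T.dm t.1 < T.dm y)) &&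
      (decide (t.2.1 = 0) || decide (T.dm y = T.dm t.1 + 1)) &&
      (T.cl t.1).all fun s => T.leb s.1 y

/-- The augmented incidence matrix. -/
def augb : Option ℕ → Option ℕ → ℤ
  | some a, some b => T.inc a b
  | some a, none => if T.dm a = 0 then 1 else 0
  | none, _ => 0

/-- The augmented closed cell as a list. -/
def cll (y : ℕ) : List (Option ℕ) := none :: (T.cl y).map fun t => some t.1

/-- The incidence numbers form a complex, and every closed cell is listed in matched pairs. -/
def okQ : Bool := allB T.N fun y =>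
  zeroZ (bindF (T.cl y) T.cl) &&
    (!decide (T.dm y = 1) || decide (((T.cl y).map fun t => t.2.1).sum = 0)) &&
    decide ((T.cll y).length % 2 = 0) &&
    (T.cll y).zipIdx.all fun u => (T.cll y).zipIdx.all fun v =>
      if u.2 = v.2 + 1 ∧ v.2 % 2 = 0 then decide (T.augb u.1 v.1 * T.augb u.1 v.1 = 1)
      else decide (v.2 / 2 < u.2 / 2) || decide (T.augb u.1 v.1 = 0)

/-- The first seven cells are the two loops, `an` is a spanning tree. -/
def okK (an : ℕ → ℕ) : Bool :=
  decide (7 ≤ T.N) && decide (T.dm 0 = 0) &&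
    decide ([an 0, an 1, an 2, an 3, an 4, an 5, an 6] = [0, 0, 1, 2, 0, 4, 5]) &&
    T.leb 0 1 && T.leb 2 1 && T.leb 2 3 && T.leb 0 3 &&
    T.leb 0 4 && T.leb 5 4 && T.leb 5 6 && T.leb 0 6 &&
    decide ([T.wd 1 0, T.wd 1 2, T.wd 3 2, T.wd 3 0, T.wd 4 0, T.wd 4 5, T.wd 6 5, T.wd 6 0] =
      [[], [], [], [(false, 1)], [], [], [], [(true, 1)]]) &&
    allB T.N fun y => decide (y = 0) ||
      (decide (an y < y) && (T.leb (an y) y || T.leb y (an y)))

/-- The word of a chain. -/
def tri (a b d : ℕ) : Wd := T.wd d b ++ T.wd b a ++ winv (T.wd d a)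

/-- A chain on which the words are multiplicative in the free group. -/
def mulB (a b d : ℕ) : Bool := T.leb a b && T.leb b d && decide (nf false (T.tri a b d) = [])

/-- Every pair is a pair of the tree, one of the two special pairs, or the third side of a
multiplicative chain whose other sides come earlier. `tw y x` is the time and the witness. -/
def okC (an : ℕ → ℕ) (tw : ℕ → ℕ → ℕ × ℕ) : Bool := allB T.N fun y => (T.cl y).all fun t =>
  decide (t.1 = y) || decide (an y = t.1) || decide (an t.1 = y) ||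
    (decide (t.1 = 0) && (decide (y = 3) || decide (y = 6))) ||
    (T.mulB (tw y t.1).2 t.1 y && decide ((tw t.1 (tw y t.1).2).1 < (tw y t.1).1) &&
      decide ((tw y (tw y t.1).2).1 < (tw y t.1).1)) ||
    (T.mulB t.1 (tw y t.1).2 y && decide ((tw (tw y t.1).2 t.1).1 < (tw y t.1).1) &&
      decide ((tw y (tw y t.1).2).1 < (tw y t.1).1)) ||
    (decide ((tw y t.1).2 < T.N) && T.mulB t.1 y (tw y t.1).2 &&
      decide ((tw (tw y t.1).2 t.1).1 < (tw y t.1).1) &&
      decide ((tw (tw y t.1).2 y).1 < (tw y t.1).1))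

/-- The words are multiplicative modulo the relations. -/
def okF : Bool := allB T.N fun d => (T.cl d).all fun b => (T.cl b.1).all fun a =>
  decide (nfr (T.tri a.1 b.1 d) = [])

end Tab

/-- Holonomy along the first loop. -/
def holH {Γ : Type} [Group Γ] (c : ℕ → ℕ → Γ) : Γ := c 0 1 * (c 2 1)⁻¹ * c 2 3 * (c 0 3)⁻¹

/-- Holonomy along the second loop. -/
def holA {Γ : Type} [Group Γ] (c : ℕ → ℕ → Γ) : Γ := c 0 4 * (c 5 4)⁻¹ * c 5 6 * (c 0 6)⁻¹

/-- The eight cells of the presentation complex. -/
def c8 : Finset ℕ := Finset.range 8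

/-- Their dimensions. -/
def dgF (x : ℕ) : ℕ := if x = 0 then 0 else if x ≤ 2 then 1 else 2

/-- The shape of a matrix of free derivatives. -/
def okFx (Fx : ℕ → FS) : Bool :=
  decide (Fx 0 = []) && decide (Fx 1 = [(0, 1, [(false, 1)]), (0, -1, [])]) &&
    decide (Fx 2 = [(0, 1, [(true, 1)]), (0, -1, [])]) &&
    allB 8 fun x => eqF (bindF (Fx x) Fx) [] &&
      (Fx x).all fun t => decide (t.1 < 8) && decide (dgF x = dgF t.1 + 1)

/-- The condition of a matching for an entry from `j` to `i`. -/
def mtB (tm : ℕ → ℕ) (i j : ℕ) : Bool :=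
  decide (tm j / 2 < tm i / 2) || (decide (tm i = tm j + 1) && decide (tm j % 2 = 0))

/-- `J` is a chain map to the small complex and `tm` (with inverse `iv`) is an acyclic matching
of its cone; the small cell `x` has the number `T.N + x`. -/
def Tab.okJ (T : Tab) (J Fx : ℕ → FS) (tm iv : ℕ → ℕ) : Bool :=
  decide (J 0 = [(0, 1, [])]) &&
  (allB 8 fun x => eqF (bindF (J x) T.cl) (bindF (Fx x) J) &&
    decide ((J x).map fun t => t.1).Nodup &&
    ((J x).all fun t => decide (t.1 < T.N) && decide (T.dm t.1 = dgF x) &&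
      decide (t.2.1 * t.2.1 = 1) && mtB tm (T.N + x) t.1) &&
    ((Fx x).all fun t => decide (tm (T.N + t.1) / 2 < tm (T.N + x) / 2)) &&
    decide (tm (T.N + x) % 2 = 1) && (J x).any fun t => t.1 == iv (tm (T.N + x) - 1)) &&
  (allB T.N fun y => ((T.cl y).all fun t => decide (t.2.1 = 0) || mtB tm y t.1) &&
    (decide (tm y % 2 = 0) || decide (T.inc y (iv (tm y - 1)) * T.inc y (iv (tm y - 1)) = 1))) &&
  decide ((T.N + 8) % 2 = 0) &&
  allB (T.N + 8) fun i => decide (tm i < T.N + 8) && decide (iv (tm i) = i) &&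
    decide (iv i < T.N + 8) && decide (tm (iv i) = i)

/-- `f` maps every closed cell of `Y` isomorphically onto a closed cell of `X`. -/
def okM (Y X : Tab) (f : ℕ → ℕ) : Bool :=
  decide ([f 0, f 1, f 2, f 3, f 4, f 5, f 6] = [0, 1, 2, 3, 4, 5, 6]) &&
  allB Y.N fun y => decide (f y < X.N) && decide (Y.dm y = X.dm (f y)) &&
    decide (((Y.cl y).map fun t => (f t.1, t.2.1, nf true t.2.2)) =
      (X.cl (f y)).map fun t => (t.1, t.2.1, nf true t.2.2)) &&
    (Y.cl y).all fun s => (Y.cl y).all fun t => !X.leb (f s.1) (f t.1) || Y.leb s.1 t.1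

/-- `M` is an invertible diagonal chain map with inverse `M'` that covers `f`. -/
def okU (f : ℕ → ℕ) (JY JX FY FX M M' : ℕ → FS) : Bool := allB 8 fun x =>
  ((M x).all fun t => t.1 == x) && ((M' x).all fun t => t.1 == x) &&
    eqF (bindF (M x) M') [(x, 1, [])] && eqF (bindF (M' x) M) [(x, 1, [])] &&
    eqF (bindF (FY x) M) (bindF (M x) FX) &&
    eqF ((JY x).map fun t => (f t.1, t.2)) (bindF (M x) JX)

/-- The exponent of `h`. -/
def hx (w : Wd) : ℤ := (w.map fun s => if s.1 then 0 else s.2).sum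

/-- The crossed homomorphism with `h` acting by the power `q` of the root of unity. -/
def etw (q : ZMod 8) : Wd → F25
  | [] => 0
  | s :: w => if s.1 then (s.2 : F25) + etw q w else pw zF (q * (s.2 : ZMod 8)) * etw q w

/-- The value of a character on a formal sum. -/
def nC {B : Type} [CommRing B] (z : B) (q : ZMod 8) (l : FS) (y : ℕ) : B :=
  (l.map fun t => if t.1 = y then (t.2.1 : B) * pw z (q * (hx t.2.2 : ZMod 8)) else 0).sum

/-- The value of a derivation on a formal sum. -/
def nD (q q' : ZMod 8) (l : FS) (y : ℕ) : F25 :=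
  (l.map fun t => if t.1 = y then
    (t.2.1 : F25) * etw q t.2.2 * pw zF (q' * (hx t.2.2 : ZMod 8)) else 0).sum

/-- A determinant of size three. -/
def det3 (a b c d e f g h i : F25) : F25 :=
  a * (e * i - f * h) - b * (d * i - f * g) + c * (d * h - e * g)

/-- A determinant of size four. -/
def det4 (M : Fin 4 → Fin 4 → F25) : F25 :=
  M 0 0 * det3 (M 1 1) (M 1 2) (M 1 3) (M 2 1) (M 2 2) (M 2 3) (M 3 1) (M 3 2) (M 3 3) -
  M 0 1 * det3 (M 1 0) (M 1 2) (M 1 3) (M 2 0) (M 2 2) (M 2 3) (M 3 0) (M 3 2) (M 3 3) +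
  M 0 2 * det3 (M 1 0) (M 1 1) (M 1 3) (M 2 0) (M 2 1) (M 2 3) (M 3 0) (M 3 1) (M 3 3) -
  M 0 3 * det3 (M 1 0) (M 1 1) (M 1 2) (M 2 0) (M 2 1) (M 2 2) (M 3 0) (M 3 1) (M 3 2)

/-- The determinant of the values of the products on the first four relators. -/
def dE4 (Fx : ℕ → FS) (j m : ZMod 8) (p : Fin 4 → ZMod 8) : F25 :=
  det4 fun n k => nD (p k * m) ((j - p k) * m) (Fx (3 + n.val)) 2

/-- The lifted character kills the free derivatives except for the value `5 μ` on the last. -/
def okB (Fx : ℕ → FS) (q : ZMod 8) (μ : R25) : Bool := allB 8 fun x => decide (x < 3) ||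
  (decide (nC zR q (Fx x) 1 = 0) && decide (nC zR q (Fx x) 2 = if x = 7 then 5 * μ else 0))

/-- A small model of the twisted cochain complex of `K`. -/
structure Model {α Γ : Type} [DecidableEq α] [Nonempty α] [Group Γ] (r : α → α → Prop)
    (K : Finset (Finset α)) (c : α → α → Γ) (D : Matrix c8 c8 (ZG Γ)) (I : Matrix c8 K (ZG Γ))
    (x0 : α) (γ0 : Γ) : Prop where
  cm : CM (fun x : ↥c8 => pc dgF x.1) (fun x : ↥K => ps x.1) D (rs K K (DG r c)) I
  gd : Gd 2 (PhiG Γ F25) (cpar (fun x : ↥c8 => pc dgF x.1) (fun x : ↥K => ps x.1))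
    (cone D (rs K K (DG r c)) I)
  deg : ∀ x σ, I x σ ≠ 0 → σ.1.card = dgF x.1 + 1
  mem : ({x0} : Finset α) ∈ K
  base : ∀ x σ, x.1 = 0 → I x σ = if σ.1 = {x0} then MonoidAlgebra.single γ0 1 else 0

/-- The chain map from simplicial cochains to the small complex. -/
noncomputable def Tab.bigI (T : Tab) (J : ℕ → FS) {Γ : Type} [Group Γ] (H A : Γ) (g : ℕ → Γ)
    (c : ℕ → ℕ → Γ) : Matrix c8 (OC T.le T.el) (ZG Γ) :=
  mF H A c8 T.el J * Matrix.diagonal (fun x : ↥T.el => (MonoidAlgebra.single (g x.1) 1 : ZG Γ)) *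
    rs T.el (OC T.le T.el) (EV T.le T.dm T.inc c)

/-- `g` transforms `c` into the standard cocycle. -/
def Tab.Nrm (T : Tab) {Γ : Type} [Group Γ] (H A : Γ) (g : ℕ → Γ) (c : ℕ → ℕ → Γ) : Prop :=
  ∀ y < T.N, ∀ x, T.le x y → gau g c x y = T.std H A x y

end Pool.Agent.Lib.MP_5ceaf9_gt.G
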