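import Pool.Agent.Lib.MP_5ceaf9_gt.GD

/-! The classes in terms of the coboundary matrix. -/

noncomputable section

namespace Pool.Agent.Lib.MP_5ceaf9_gt.G

open Function

variable {α : Type} [DecidableEq α] [Nonempty α] {r : α → α → Prop} {K : Finset (Finset α)}
  {C : α → α → Aff} {σ : Finset α}

/-- The constant cochain of degree zero. -/
def one0 (σ : Finset α) : F25 := if σ.card = 1 then 1 else 0

/-- A row of the coboundary matrix as a sum over vertices. -/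
theorem sum_DG {B : Type} [Ring B] (Ψ : ZG Aff →+ B) (hK : Cx r K) (hσ : σ ∈ K)
    {f : Finset α → B} (h0 : f ∅ = 0) :
    ∑ ρ : ↥K, Ψ (DG r C σ ρ.1) * f ρ.1 = ∑ v ∈ σ,
      Ψ (MonoidAlgebra.single (C (bt r σ) (bt r (σ.erase v))) (sg r σ v)) * f (σ.erase v) := by
  have h1 : ∀ ρ : Finset α, Ψ (DG r C σ ρ) * f ρ = ∑ v ∈ σ, if σ.erase v = ρ then
      Ψ (MonoidAlgebra.single (C (bt r σ) (bt r (σ.erase v))) (sg r σ v)) * f (σ.erase v)
      else 0 := by
    intro ρ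
    have h2 : DG r C σ ρ = ∑ v ∈ σ, MonoidAlgebra.single (C (bt r σ) (bt r ρ))
        (if ρ = σ.erase v then sg r σ v else 0) :=
      map_sum (MonoidAlgebra.singleAddHom (C (bt r σ) (bt r ρ))) _ _
    rw [h2, map_sum, Finset.sum_mul]
    refine Finset.sum_congr rfl fun v _ => ?_
    by_cases h : ρ = σ.erase v
    · rw [if_pos h, if_pos h.symm, h]
    · rw [if_neg h, if_neg (Ne.symm h), MonoidAlgebra.single_zero, map_zero, zero_mul]
  rw [Finset.sum_coe_sort K fun ρ => Ψ (DG r C σ ρ) * f ρ]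
  simp only [h1]
  rw [Finset.sum_comm]
  refine Finset.sum_congr rfl fun v _ => ?_
  rw [Finset.sum_ite_eq]
  split_ifs with h
  · rfl
  · rw [Finset.not_nonempty_iff_eq_empty.1 fun h3 => h (hK.down σ hσ _ (σ.erase_subset v) h3), h0,
      mul_zero]

theorem sum_ph (hK : Cx r K) (hσ : σ ∈ K) (j : ZMod 8) {f : Finset α → F25} (h0 : f ∅ = 0) :
    ∑ ρ : ↥K, ph j (DG r C σ ρ.1) * f ρ.1 = dl r zF (kj j C) f σ := by
  refine (sum_DG (ph j).toAddMonoidHom hK hσ h0).trans (Finset.sum_congr rfl fun v _ => ?_)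
  exact congrArg (· * _) (ph_single _ _ _)

theorem sum_phR (hK : Cx r K) (hσ : σ ∈ K) (j : ZMod 8) {f : Finset α → R25} (h0 : f ∅ = 0) :
    ∑ ρ : ↥K, phR j (DG r C σ ρ.1) * f ρ.1 = dl r zR (kj j C) f σ := by
  refine (sum_DG (phR j).toAddMonoidHom hK hσ h0).trans (Finset.sum_congr rfl fun v _ => ?_)
  exact congrArg (· * _) (phR_single _ _ _)

open Classical in
theorem ge1_sg (hK : Cx r K) (hσ : σ ∈ K) : sg r σ (bt r σ) = 1 := by
  obtain ⟨h1, h2⟩ := bt_spec (hK.po σ hσ) (hK.tot σ hσ) (hK.ne σ hσ)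
  unfold sg
  rw [Finset.filter_eq_empty_iff.2 fun u hu h => h.2 ((hK.po σ hσ).anti u hu _ h1 h.1 (h2 u hu))]
  rfl

theorem ge1_bt (hK : Cx r K) (hσ : σ ∈ K) {v : α} (hv : v ≠ bt r σ) :
    bt r (σ.erase v) = bt r σ := by
  obtain ⟨h1, h2⟩ := bt_spec (hK.po σ hσ) (hK.tot σ hσ) (hK.ne σ hσ)
  exact bt_eq ((hK.po σ hσ).mono (σ.erase_subset v)) (Finset.mem_erase.2 ⟨hv.symm, h1⟩)
    fun u hu => h2 u (Finset.mem_of_mem_erase hu)

theorem ge1_two (hK : Cx r K) (hσ : σ ∈ K) (h : σ.card = 2) : ∃ a b, a ≠ b ∧ σ = {a, b} ∧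
    r a b ∧ bt r σ = a ∧ bt (swap r) σ = b ∧ bt r {b} = b ∧ sg r σ b = -1 := by
  have hp := hK.po σ hσ
  obtain ⟨a, b, hab, hr, rfl⟩ : ∃ a b, a ≠ b ∧ r a b ∧ σ = {a, b} := by
    obtain ⟨a, b, hab, rfl⟩ := Finset.card_eq_two.1 h
    rcases hK.tot _ hσ a (by simp) b (by simp) with h1 | h1
    · exact ⟨a, b, hab, h1, rfl⟩
    · exact ⟨b, a, hab.symm, h1, Finset.pair_comm a b⟩
  have ha := hp.refl a (by simp)
  have hb := hp.refl b (by simp)
  refine ⟨a, b, hab, rfl, hr, bt_eq hp (by simp) (by simp [ha, hr]),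
    bt_eq hp.swap (by simp) (by simp [swap, hb, hr]),
    bt_eq (hp.mono (by simp)) (by simp) (by simp [hb]), ?_⟩
  unfold sg
  simp [Finset.filter_insert, Finset.filter_singleton, hr, hab]

theorem ge1_Dv (hK : Cx r K) (hC : Flat r K C) (hσ : σ ∈ K) (i m : ZMod 8)
    {f : Finset α → F25} (h0 : f ∅ = 0) :
    ∑ ρ : ↥K, Dv i m (DG r C σ ρ.1) * f ρ.1 = (C (bt r σ) (bt r (σ.erase (bt r σ)))).y i *
      pw zF (m * (C (bt r σ) (bt r (σ.erase (bt r σ)))).k) * f (σ.erase (bt r σ)) := by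
  have h1 := (bt_spec (hK.po σ hσ) (hK.tot σ hσ) (hK.ne σ hσ)).1
  rw [sum_DG _ hK hσ h0, Finset.sum_eq_single_of_mem _ h1, Dv_single, ge1_sg hK hσ, Int.cast_one,
    one_mul]
  intro v _ hv
  rw [Dv_single, ge1_bt hK hσ hv, hC.refl hK
    (hK.down σ hσ _ (Finset.singleton_subset_iff.2 h1) (Finset.singleton_nonempty _))]
  simp

open Classical in
omit [Nonempty α] in
theorem ge1_card (hK : Cx r K) (hσ : σ ∈ K) {v : α} (hv : v ∈ σ) :
    (σ.filter (fun u => r u v)).card + (σ.filter (fun u => r v u)).card = σ.card + 1 := by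
  rw [← Finset.card_union_add_card_inter, ← Finset.filter_or, ← Finset.filter_and,
    Finset.filter_true_of_mem fun u hu => hK.tot σ hσ u hu v hv]
  congr 1
  refine Finset.card_eq_one.2 ⟨v, Finset.eq_singleton_iff_unique_mem.2
    ⟨Finset.mem_filter.2 ⟨hv, (hK.po σ hσ).refl v hv, (hK.po σ hσ).refl v hv⟩, fun u hu => ?_⟩⟩
  obtain ⟨h1, h2, h3⟩ := Finset.mem_filter.1 hu
  exact (hK.po σ hσ).anti u h1 v hv h2 h3

omit [DecidableEq α] in
theorem ge1_yc {i : ZMod 8} (h : yc r C i σ ≠ 0) : σ.card = 2 :=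
  by_contra fun h1 => h (if_neg h1)

theorem ge1_cup (hK : Cx r K) (hσ : σ ∈ K) {κ : α → α → ZMod 8} {i m : ZMod 8}
    (h : cup r zF κ (yc r C i) (yc r C m) σ ≠ 0) : σ.card = 3 := by
  obtain ⟨v, hv, h1⟩ := Finset.exists_ne_zero_of_sum_ne_zero h
  have h2 := ge1_yc (left_ne_zero_of_mul (left_ne_zero_of_mul h1))
  have h3 := ge1_yc (right_ne_zero_of_mul h1)
  have h4 := ge1_card hK hσ hv
  omega

theorem sum_ph_one0 (hK : Cx r K) (hσ : σ ∈ K) :
    ∑ ρ : ↥K, ph 0 (DG r C σ ρ.1) * one0 ρ.1 = 0 := by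
  rw [sum_ph hK hσ 0 (by simp [one0])]
  unfold dl
  by_cases h : σ.card = 2
  · have h1 := ge1_sg hK hσ
    obtain ⟨a, b, hab, rfl, -, h2, -, -, h3⟩ := ge1_two hK hσ h
    rw [h2] at h1
    rw [Finset.sum_pair hab, h1, h3]
    simp [kj, pw_zero, one0, Finset.card_erase_of_mem, h, Finset.erase_eq_of_notMem, hab, hab.symm]
  · refine Finset.sum_eq_zero fun v hv => ?_
    have h1 := Finset.card_erase_add_one hv
    rw [one0, if_neg (by omega), mul_zero]

theorem sum_Dv_one0 (hK : Cx r K) (hC : Flat r K C) (hσ : σ ∈ K) (i : ZMod 8) :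
    ∑ ρ : ↥K, Dv i 0 (DG r C σ ρ.1) * one0 ρ.1 = yc r C i σ := by
  have h1 := Finset.card_erase_add_one (bt_spec (hK.po σ hσ) (hK.tot σ hσ) (hK.ne σ hσ)).1
  rw [ge1_Dv hK hC hσ i 0 (by simp [one0]), zero_mul, pw_zero, mul_one, one0, yc]
  by_cases h : σ.card = 2
  · rw [if_pos h, if_pos (by omega), mul_one]
    obtain ⟨a, b, hab, rfl, -, h2, h3, h4, -⟩ := ge1_two hK hσ h
    rw [h2, h3, Finset.erase_insert (by simpa using hab), h4]
  · rw [if_neg h, if_neg (by omega), mul_zero]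

/-- Only the face opposite to the least vertex contributes on the left, only the middle vertex of
a triangle on the right. -/
theorem sum_Dv_yc (hK : Cx r K) (hC : Flat r K C) (hσ : σ ∈ K) (i m : ZMod 8) :
    ∑ ρ : ↥K, Dv i m (DG r C σ ρ.1) * yc r C m ρ.1 =
      cup r zF (kj m C) (yc r C i) (yc r C m) σ := by
  have hp := hK.po σ hσ
  obtain ⟨h1, h2⟩ := bt_spec hp (hK.tot σ hσ) (hK.ne σ hσ)
  have h3 := Finset.card_erase_add_one h1
  rw [ge1_Dv hK hC hσ i m (by simp [yc])]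
  by_cases h : σ.card = 3
  · have h4 : σ.erase (bt r σ) ∈ K :=
      hK.down σ hσ _ (σ.erase_subset _) (Finset.card_pos.1 (by omega))
    obtain ⟨b, d, hbd, e, h5, h6, -, -, -⟩ := ge1_two hK h4 (by omega)
    generalize ha : bt r σ = a at h1 h2 e h6 ⊢
    have e' : σ = {a, b, d} := by rw [← e, Finset.insert_erase h1]
    have hb : b ∈ σ.erase a := by simp [e]
    have hd : d ∈ σ.erase a := by simp [e]
    obtain ⟨hba, hb⟩ := Finset.mem_erase.1 hb
    obtain ⟨hda, hd⟩ := Finset.mem_erase.1 hd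
    have n1 : ¬ r b a := fun h0 => hba (hp.anti b hb a h1 h0 (h2 b hb))
    have n2 : ¬ r d a := fun h0 => hda (hp.anti d hd a h1 h0 (h2 d hd))
    have n3 : ¬ r d b := fun h0 => hbd (hp.anti b hb d hd h5 h0)
    have p1 := hp.refl a h1
    have p2 := hp.refl b hb
    have p3 := hp.refl d hd
    have p4 := h2 b hb
    have p5 := h2 d hd
    have hab : POn r {a, b} := hp.mono (by simp [Finset.insert_subset_iff, h1, hb])
    have q1 : bt r {a, b} = a := bt_eq hab (by simp) (by simp [p1, p4])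
    have q2 : bt (swap r) {a, b} = b := bt_eq hab.swap (by simp) (by simp [swap, p2, p4])
    rw [h6, e]
    unfold cup
    rw [ha, e', Finset.sum_insert (by simp [hba.symm, hda.symm]), Finset.sum_pair hbd]
    simp [Finset.filter_insert, Finset.filter_singleton, n1, n2, n3, p1, p2, p3, p4, p5, h5, yc, kj,
      q1, q2, Finset.card_pair hba.symm]
  · rw [by_contra fun h0 => h (ge1_cup hK hσ h0 : σ.card = 3), yc, if_neg (by omega), mul_zero]

theorem ge1_sq (hK : Cx r K) (hC : Flat r K C) (hσ : σ ∈ K) (i m : ZMod 8) {f g : Finset α → F25}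
    (h1 : ∀ ρ ∈ K, ∑ τ : ↥K, ph m (DG r C ρ τ.1) * f τ.1 = 0)
    (h2 : ∀ ρ ∈ K, ∑ τ : ↥K, Dv i m (DG r C ρ τ.1) * f τ.1 = g ρ) :
    ∑ ρ : ↥K, ph (i + m) (DG r C σ ρ.1) * g ρ.1 = 0 := by
  have e1 : ((rs K K (DG r C)).map (ph m)).mulVec (fun τ => f τ.1) = 0 :=
    funext fun ρ => h1 ρ.1 ρ.2
  have e2 : ((rs K K (DG r C)).map (Dv i m)).mulVec (fun τ => f τ.1) = fun τ => g τ.1 :=
    funext fun ρ => h2 ρ.1 ρ.2
  have e3 := congrArg (fun M => Matrix.mulVec M (fun τ : ↥K => f τ.1) ⟨σ, hσ⟩)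
    (Dv_matrix i m (rs K K (DG r C)) (rs K K (DG r C)))
  simp only [(dm_DG_abs hK hC).1, Matrix.add_mulVec, ← Matrix.mulVec_mulVec, e1, e2,
    Matrix.mulVec_zero, add_zero, Matrix.map_zero _ (map_zero (Dv i m)), Matrix.zero_mulVec] at e3
  exact e3.symm

/-- Apply `Dv m 0` to the square of the coboundary matrix (`dm_DG_abs`). -/
theorem sum_ph_yc (hK : Cx r K) (hC : Flat r K C) (hσ : σ ∈ K) (m : ZMod 8) :
    ∑ ρ : ↥K, ph m (DG r C σ ρ.1) * yc r C m ρ.1 = 0 := by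
  have h := ge1_sq hK hC hσ m 0 (fun _ hρ => sum_ph_one0 hK hρ) fun _ hρ => sum_Dv_one0 hK hC hρ m
  rwa [add_zero] at h

theorem cls_card (hK : Cx r K) (hσ : σ ∈ K) {j : ZMod 8} {p : Fin 4 → ZMod 8}
    {b : Finset α → F25} (hb : Hom 2 b) {m : Fin 6} (h : cls r j p C b m σ ≠ 0) :
    σ.card = dg m + 1 := by
  fin_cases m
  · exact ge1_yc h
  · exact ge1_cup hK hσ h
  · exact ge1_cup hK hσ h
  · exact ge1_cup hK hσ h
  · exact ge1_cup hK hσ h
  · exact hb σ h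

/-- The six classes are cocycles. -/
theorem g_cm_cls (hK : Cx r K) (hC : Flat r K C) {j : ZMod 8} (p : Fin 4 → ZMod 8)
    {b : Finset α → F25} (hb : Bock r K j C b) :
    CM (fun x : ↥K => ps x.1) pj (rs K K (DF r j C)) 0 (cm K (cls r j p C b)) := by
  refine ⟨(dm_DG_abs hK hC).map (ph j), ⟨mul_zero _, fun _ _ h => absurd rfl h⟩,
    fun σ m h => ?_, ?_⟩
  · have h1 := cls_card hK σ.2 hb.1 h
    simp only [ps, pj, decide_eq_decide]
    omega
  have h1 : ∀ σ ∈ K, ∀ i, ∑ ρ : ↥K, ph j (DG r C σ ρ.1) * yy r C j i ρ.1 = 0 := fun σ hσ i => by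
    have h := ge1_sq hK hC hσ i (j - i) (fun _ hρ => sum_ph_yc hK hC hρ _)
      fun _ hρ => sum_Dv_yc hK hC hρ i (j - i)
    rwa [add_sub_cancel] at h
  rw [Matrix.mul_zero]
  refine Matrix.ext fun σ m => ?_
  fin_cases m
  · exact sum_ph_yc hK hC σ.2 j
  · exact h1 _ σ.2 _
  · exact h1 _ σ.2 _
  · exact h1 _ σ.2 _
  · exact h1 _ σ.2 _
  obtain ⟨-, y', b', hy, h2⟩ := hb
  have h3 : y' ∅ = 0 := by_contra fun h => by simpa using hy _ h
  have e1 : ((rs K K (DG r C)).map (phR j)).mulVec (fun τ => y' τ.1) =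
      (5 : R25) • fun τ : ↥K => b' τ.1 :=
    funext fun ρ => (sum_phR hK ρ.2 j h3).trans (h2 _ ρ.2).2.2
  have e2 := congrArg (fun u => ((rs K K (DG r C)).map (phR j)).mulVec u σ) e1
  simp only [Matrix.mulVec_mulVec, ((dm_DG_abs hK hC).map (phR j)).1, Matrix.zero_mulVec,
    Matrix.mulVec_smul] at e2
  have e3 := red_of_five (e2.symm.trans (mul_zero 5).symm)
  rw [map_zero] at e3
  refine Eq.trans ?_ e3
  rw [Matrix.mulVec, dotProduct, map_sum, Matrix.mul_apply]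
  refine Finset.sum_congr rfl fun ρ _ => ?_
  rw [map_mul, (h2 _ ρ.2).2.1]
  exact congrArg (· * _) (red_phR j _).symm

theorem g_exists_bock (hK : Cx r K) (hC : Flat r K C) (j : ZMod 8) : ∃ b, Bock r K j C b := by
  obtain ⟨y', hy, h1⟩ : ∃ y' : Finset α → R25, Hom 1 y' ∧ ∀ σ, red (y' σ) = yc r C j σ := by
    choose s hs using red_surj
    refine ⟨fun σ => if σ.card = 2 then s (yc r C j σ) else 0,
      fun σ h => by_contra fun h0 => h (if_neg h0), fun σ => ?_⟩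
    by_cases h : σ.card = 2
    · simp only [if_pos h, hs]
    · simp only [yc, if_neg h, map_zero]
  have h3 : y' ∅ = 0 := by_contra fun h => by simpa using hy _ h
  have h2 : ∀ σ, ∃ t : R25, (t ≠ 0 → σ.card = 3) ∧ (σ ∈ K → dl r zR (kj j C) y' σ = 5 * t) := by
    intro σ
    by_cases hσ : σ ∈ K
    · by_cases h : σ.card = 3
      · obtain ⟨t, ht⟩ : ∃ t, dl r zR (kj j C) y' σ = 5 * t := by
          refine exists_five ?_
          rw [← sum_phR hK hσ j h3, map_sum, ← sum_ph_yc hK hC hσ j]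
          exact Finset.sum_congr rfl fun ρ _ => by rw [map_mul, red_phR, h1]
        exact ⟨t, fun _ => h, fun _ => ht⟩
      · refine ⟨0, fun h0 => absurd rfl h0, fun _ => ?_⟩
        rw [mul_zero]
        refine Finset.sum_eq_zero fun v hv => ?_
        have h4 := Finset.card_erase_add_one hv
        rw [by_contra fun h0 : y' (σ.erase v) ≠ 0 => h (by have := hy _ h0; omega), mul_zero]
    · exact ⟨0, fun h0 => absurd rfl h0, fun h => absurd h hσ⟩
  choose b' h4 h5 using h2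
  exact ⟨fun σ => red (b' σ), fun σ h => h4 σ fun h0 => h (by simp only [h0, map_zero]), y', b', hy,
    fun σ hσ => ⟨h1 σ, rfl, h5 σ hσ⟩⟩

end Pool.Agent.Lib.MP_5ceaf9_gt.G
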