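import Pool.Agent.Lib.MP_5ceaf9_gt.GW

/-! Acyclic matchings, cones of isomorphisms, matrices of free derivatives. -/

noncomputable section

namespace Pool.Agent.Lib.MP_5ceaf9_gt.G

open Function

variable {ι : Type} [Fintype ι] [DecidableEq ι] {p : ι → Bool} {l : ℕ}

theorem gm_match {Λ F : Type} [Ring Λ] [Field F] {Φ : Set (Λ →+* F)} {d : Matrix ι ι Λ}
    (hd : Dm p d) (t : ι → ℕ) (inj : Injective t)
    (mate : ∀ x, ∃ y, (t y = t x + 1 ∧ t x % 2 = 0) ∨ (t x = t y + 1 ∧ t y % 2 = 0))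
    (tri : ∀ x y, d x y ≠ 0 → t y / 2 < t x / 2 ∨ (t x = t y + 1 ∧ t y % 2 = 0))
    (pair : ∀ (k : ℕ) (x y : {z // t z / 2 = k}), t x = t y + 1 → t y % 2 = 0 →
      (∀ z, z = x ∨ z = y) → (∀ u v, ¬ (u = x ∧ v = y) → blk d (fun z => t z / 2 = k) u v = 0) →
        Gd l Φ (fun z : {z // t z / 2 = k} => p z) (blk d fun z => t z / 2 = k)) :
    Gd l Φ p d := by
  refine gd_filt hd (fun x => t x / 2) id (fun x y h => ?_) fun k => ?_
  · rcases tri x y h with h1 | h1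
    · exact Or.inr h1
    · exact Or.inl (by omega)
  rcases isEmpty_or_nonempty {z // t z / 2 = k} with h | ⟨⟨z, hz⟩⟩
  · exact gd_empty
  obtain ⟨x, y, h1, h2⟩ : ∃ x y : {z // t z / 2 = k}, t x = t y + 1 ∧ t y % 2 = 0 := by
    obtain ⟨w, h | h⟩ := mate z
    · exact ⟨⟨w, by omega⟩, ⟨z, hz⟩, h⟩
    · exact ⟨⟨z, hz⟩, ⟨w, by omega⟩, h⟩
  have hx := x.2
  have hy := y.2
  refine pair k x y h1 h2 (fun u => ?_) fun u v h => ?_
  · have hu := u.2
    by_cases h : t u = t x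
    · exact Or.inl (Subtype.ext (inj h))
    · exact Or.inr (Subtype.ext (inj (by omega)))
  · have hu := u.2
    have hv := v.2
    by_contra h0
    have h3 := tri u v h0
    exact h ⟨Subtype.ext (inj (by omega)), Subtype.ext (inj (by omega))⟩

/-- `gd_filt` with `π x = t x / 2` and rank the identity; a piece is empty or a pair
(`gd_pair` after `Gd.gauge`, or `gd_of_int`). -/
theorem gd_match {Γ : Type} [Group Γ] {d : Matrix ι ι (ZG Γ)} (hd : Dm p d) (t : ι → ℕ)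
    (inj : Injective t)
    (mate : ∀ x, ∃ y, (t y = t x + 1 ∧ t x % 2 = 0) ∨ (t x = t y + 1 ∧ t y % 2 = 0))
    (tri : ∀ x y, d x y ≠ 0 → t y / 2 < t x / 2 ∨ (t x = t y + 1 ∧ t y % 2 = 0))
    (unit : ∀ x y, t x = t y + 1 → t y % 2 = 0 →
      ∃ (γ : Γ) (ε : ℤ), ε * ε = 1 ∧ d x y = MonoidAlgebra.single γ ε) :
    Gd l (PhiG Γ F25) p d := by
  refine gm_match hd t inj mate tri fun k x y h1 h2 hall h0 => ?_
  obtain ⟨γ, ε, hε, e⟩ := unit x y h1 h2
  have hne : x ≠ y := fun h => by rw [h] at h1; omega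
  have hp : p x ≠ p y := hd.2 _ _ (by
    rw [e]
    refine fun h => ?_
    rw [MonoidAlgebra.single_eq_zero.1 h] at hε
    omega)
  have h3 : Gd 1 (∅ : Set (ℤ →+* F25)) (fun z : {z // t z / 2 = k} => p z) (Matrix.single x y ε) :=
    gd_pair hp hall hε (by simp) fun u v h => Matrix.single_apply_of_ne _ _ _ _ _
      fun h' => h ⟨h'.1.symm, h'.2.symm⟩
  refine gd_of_int h3.1 (h3.2.1 le_rfl) (fun z => if z = x then γ else 1) fun u v => ?_
  by_cases h : u = x ∧ v = y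
  · rw [h.1, h.2, if_pos rfl, if_neg hne.symm, inv_one, mul_one, Matrix.single_apply_same]
    exact e
  · rw [h0 u v h, Matrix.single_apply_of_ne _ _ _ _ _ fun h' => h ⟨h'.1.symm, h'.2.symm⟩,
      MonoidAlgebra.single_zero]

/-- The same over the integers (level one, empty set of ring maps to `F25`). -/
theorem ctr_match {d : Matrix ι ι ℤ} (hd : Dm p d) (t : ι → ℕ) (inj : Injective t)
    (mate : ∀ x, ∃ y, (t y = t x + 1 ∧ t x % 2 = 0) ∨ (t x = t y + 1 ∧ t y % 2 = 0))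
    (tri : ∀ x y, d x y ≠ 0 → t y / 2 < t x / 2 ∨ (t x = t y + 1 ∧ t y % 2 = 0))
    (unit : ∀ x y, t x = t y + 1 → t y % 2 = 0 → d x y * d x y = 1) : Ctr d := by
  refine (gm_match (l := 1) (Φ := (∅ : Set (ℤ →+* F25))) hd t inj mate tri
    fun k x y h1 h2 hall h0 => ?_).2.1 le_rfl
  have hε := unit x y h1 h2
  exact gd_pair (hd.2 _ _ fun h => by rw [h] at hε; omega) hall hε rfl h0

/-- The contraction is `fromBlocks 0 0 M' 0`. -/
theorem gd_cone_iso {Λ F : Type} [Ring Λ] [Field F] {Φ : Set (Λ →+* F)} {p' : ι → Bool}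
    {d d' M M' : Matrix ι ι Λ} (h : CM p' p d' d M) (h1 : M * M' = 1) (h2 : M' * M = 1) :
    Gd 1 Φ (cpar p' p) (cone d' d M) := by
  refine ⟨h.cone, fun _ => ⟨Matrix.fromBlocks 0 0 M' 0, ?_⟩, fun h2 => absurd h2 (by decide)⟩
  have h3 : -(d * M') + M' * d' = 0 := by
    rw [← Matrix.one_mul (d * M'), ← h2, Matrix.mul_assoc, ← Matrix.mul_assoc M, ← h.comm,
      Matrix.mul_assoc d', h1, Matrix.mul_one, neg_add_cancel]
  simp only [cone, Matrix.fromBlocks_multiply, Matrix.fromBlocks_add, Matrix.mul_zero,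
    Matrix.zero_mul, add_zero, zero_add, h1, h2, Matrix.neg_mul, h3, Matrix.fromBlocks_one]

variable {Γ : Type} [Group Γ] {H A : Γ}

theorem gm_one {X : Finset ℕ} : mF H A X X (fun x => [(x, 1, [])]) = 1 := by
  refine Matrix.ext fun x y => ?_
  simp only [mF, rs, evF, Matrix.of_apply, List.map_cons, List.map_nil, List.sum_cons,
    List.sum_nil, add_zero, Matrix.one_apply, Subtype.ext_iff]
  rfl

theorem dm_fox {Fx : ℕ → FS} (h : Gp H A) (hF : okFx Fx = true) :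
    Dm (fun x : ↥c8 => pc dgF x.1) (mF H A c8 c8 Fx) := by
  simp only [okFx, allB_iff, Bool.and_eq_true, List.all_eq_true, decide_eq_true_eq] at hF
  refine ⟨?_, fun x y hxy => ?_⟩
  · rw [mF_mul (X := c8) (Y := c8) fun x hx t ht =>
        Finset.mem_range.2 ((hF.2 x (Finset.mem_range.1 hx)).2 t ht).1,
      h.mF_congr (X := c8) (V := fun _ => []) fun x hx => (hF.2 x (Finset.mem_range.1 hx)).1]
    rfl
  · obtain ⟨t, ht, e, -⟩ := evF_ne hxy
    have h1 := ((hF.2 x (Finset.mem_range.1 x.2)).2 t ht).2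
    rw [e] at h1
    simp only [pc, ne_eq, decide_eq_decide]
    omega

theorem okU.cm {f : ℕ → ℕ} {JY JX FY FX M M' : ℕ → FS} (hU : okU f JY JX FY FX M M' = true)
    (h : Gp H A) (hY : okFx FY = true) (hX : okFx FX = true) :
    CM (fun x : ↥c8 => pc dgF x.1) (fun x : ↥c8 => pc dgF x.1) (mF H A c8 c8 FY)
      (mF H A c8 c8 FX) (mF H A c8 c8 M) := by
  have dY := dm_fox h hY
  have dX := dm_fox h hX
  simp only [okFx, allB_iff, Bool.and_eq_true, List.all_eq_true, decide_eq_true_eq] at hY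
  simp only [okU, allB_iff, Bool.and_eq_true, List.all_eq_true, beq_iff_eq] at hU
  refine ⟨dY, dX, fun x y hxy => ?_, ?_⟩
  · obtain ⟨t, ht, e, -⟩ := evF_ne hxy
    rw [← e, (hU x (Finset.mem_range.1 x.2)).1.1.1.1.1 t ht]
  · rw [mF_mul (X := c8) (Y := c8) fun x hx t ht =>
        Finset.mem_range.2 ((hY.2 x (Finset.mem_range.1 hx)).2 t ht).1,
      mF_mul (X := c8) (Y := c8) fun x hx t ht =>
        ((hU x (Finset.mem_range.1 hx)).1.1.1.1.1 t ht).symm ▸ hx]
    exact h.mF_congr fun x hx => (hU x (Finset.mem_range.1 hx)).1.2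

theorem okU.gd {f : ℕ → ℕ} {JY JX FY FX M M' : ℕ → FS} (hU : okU f JY JX FY FX M M' = true)
    (h : Gp H A) (hY : okFx FY = true) (hX : okFx FX = true) :
    Gd 1 (PhiG Γ F25) (cpar (fun x : ↥c8 => pc dgF x.1) (fun x : ↥c8 => pc dgF x.1))
      (cone (mF H A c8 c8 FY) (mF H A c8 c8 FX) (mF H A c8 c8 M)) := by
  have hc := okU.cm hU h hY hX
  simp only [okU, allB_iff, Bool.and_eq_true, List.all_eq_true, beq_iff_eq] at hU
  refine gd_cone_iso (M' := mF H A c8 c8 M') hc ?_ ?_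
  · rw [mF_mul (X := c8) (Y := c8) fun x hx t ht =>
        ((hU x (Finset.mem_range.1 hx)).1.1.1.1.1 t ht).symm ▸ hx,
      ← gm_one (H := H) (A := A)]
    exact h.mF_congr fun x hx => (hU x (Finset.mem_range.1 hx)).1.1.1.2
  · rw [mF_mul (X := c8) (Y := c8) fun x hx t ht =>
        ((hU x (Finset.mem_range.1 hx)).1.1.1.1.2 t ht).symm ▸ hx,
      ← gm_one (H := H) (A := A)]
    exact h.mF_congr fun x hx => (hU x (Finset.mem_range.1 hx)).1.1.2

end Pool.Agent.Lib.MP_5ceaf9_gt.G
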