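import Pool.Agent.Lib.MP_5ceaf9_gt.GE1
import Pool.Agent.Lib.MP_5ceaf9_gt.GM

/-! The classes in the small model. -/

noncomputable section

namespace Pool.Agent.Lib.MP_5ceaf9_gt.G

open Function

variable {α : Type} [DecidableEq α] [Nonempty α] {r : α → α → Prop} {K : Finset (Finset α)}
  {C : α → α → Aff} {Fx : ℕ → FS} {m : ZMod 8} {a : ZMod 8 → F25}
  {I : Matrix c8 K (ZG Aff)} {x0 : α} {γ0 : Aff}

/-- The cochain of degree zero with value `u`. -/
def e0 (u : F25) (x : ↥c8) : F25 := if x.1 = 0 then u else 0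

/-- The cochain of degree one with value `u` on the second loop. -/
def e2 (u : F25) (x : ↥c8) : F25 := if x.1 = 2 then u else 0

theorem ge2_mem {n : ℕ} (h : n < 8) : n ∈ c8 := Finset.mem_range.2 h

theorem ge2_mv {B ι κ : Type} [CommRing B] [Fintype κ] (M : Matrix ι κ B) (v : κ → B) (x : ι) :
    M.mulVec v x = ∑ y, M x y * v y := rfl

theorem ge2_e {B : Type} [CommRing B] (M : Matrix c8 c8 B) {n : ℕ} (hn : n < 8) (u : B) (x : ↥c8) :
    M.mulVec (fun y => if y.1 = n then u else 0) x = M x ⟨n, ge2_mem hn⟩ * u := by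
  rw [ge2_mv, Finset.sum_eq_single ⟨n, ge2_mem hn⟩]
  · rw [if_pos rfl]
  · intro y _ hy
    rw [if_neg fun e => hy (Subtype.ext e), mul_zero]
  · intro hn
    exact absurd (Finset.mem_univ _) hn

theorem ge2_fx (hF : okFx Fx = true) : Fx 0 = [] ∧ Fx 1 = [(0, 1, [(false, 1)]), (0, -1, [])] ∧
    Fx 2 = [(0, 1, [(true, 1)]), (0, -1, [])] ∧
      ∀ x < 8, ∀ t ∈ Fx x, dgF x = dgF t.1 + 1 := by
  simp only [okFx, allB_iff, Bool.and_eq_true, decide_eq_true_eq, List.all_eq_true] at hF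
  exact ⟨hF.1.1.1, hF.1.1.2, hF.1.2, fun x hx t ht => ((hF.2 x hx).2 t ht).2⟩

theorem ge2_deg {Γ : Type} [Group Γ] {H A : Γ} (hF : okFx Fx = true) {x y : ↥c8}
    (h : mF H A c8 c8 Fx x y ≠ 0) : dgF x.1 = dgF y.1 + 1 := by
  obtain ⟨t, ht, e, -⟩ := evF_ne (H := H) (A := A) (l := Fx x.1) (y := y.1) h
  rw [← e]
  exact (ge2_fx hF).2.2.2 x.1 (Finset.mem_range.1 x.2) t ht

theorem ge2_dg0 {n : ℕ} (h : dgF n = 0) : n = 0 := by
  unfold dgF at h
  split_ifs at h with h1 h2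
  exact h1

theorem ge2_supp {B : Type} [CommRing B] {D : Matrix c8 c8 (ZG Aff)} (h : Model r K C D I x0 γ0)
    (Ψ : ZG Aff →+ B) {f : Finset α → B} {n : ℕ} (hf : Hom n f) {x : ↥c8}
    (hx : (I.map Ψ).mulVec (fun σ => f σ.1) x ≠ 0) : dgF x.1 = n := by
  rw [ge2_mv] at hx
  obtain ⟨σ, -, hσ⟩ := Finset.exists_ne_zero_of_sum_ne_zero hx
  have h1 : I x σ ≠ 0 := fun e => hσ (by rw [Matrix.map_apply, e, map_zero, zero_mul])
  have h2 := hf σ.1 fun e => hσ (by rw [e, mul_zero])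
  have h3 := h.deg x σ h1
  omega

theorem ge2_one0 {D : Matrix c8 c8 (ZG Aff)} (h : Model r K C D I x0 γ0) (Ψ : ZG Aff →+ F25) :
    (I.map Ψ).mulVec (fun σ => one0 σ.1) = e0 (Ψ (MonoidAlgebra.single γ0 1)) := by
  funext x
  unfold e0
  split_ifs with hx
  · rw [ge2_mv, Finset.sum_eq_single ⟨{x0}, h.mem⟩]
    · rw [Matrix.map_apply, h.base x _ hx, if_pos rfl, one0, if_pos (Finset.card_singleton x0),
        mul_one]
    · intro σ _ hσ
      rw [Matrix.map_apply, h.base x σ hx, if_neg fun e => hσ (Subtype.ext e), map_zero, zero_mul]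
    · intro hn
      exact absurd (Finset.mem_univ _) hn
  · by_contra hne
    refine hx (ge2_dg0 (ge2_supp h Ψ (n := 0) (fun σ hσ => ?_) hne))
    by_contra hc
    exact hσ (if_neg hc)

omit [DecidableEq α] in
theorem ge2_hom_yc (i : ZMod 8) : Hom 1 (yc r C i) := fun _ hσ => by
  by_contra hc
  exact hσ (if_neg hc)

theorem ge2_Dv {D : Matrix c8 c8 (ZG Aff)} (h : Model r K C D I x0 γ0) (i k : ZMod 8)
    {f g : Finset α → F25} (h1 : ∀ σ ∈ K, ∑ ρ : ↥K, Dv i k (DG r C σ ρ.1) * f ρ.1 = g σ)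
    (h2 : ∀ σ ∈ K, ∑ ρ : ↥K, ph k (DG r C σ ρ.1) * f ρ.1 = 0) :
    (I.map (ph (i + k))).mulVec (fun σ => g σ.1) =
      (D.map (Dv i k)).mulVec ((I.map (ph k)).mulVec fun σ => f σ.1) +
        (D.map (ph (i + k))).mulVec ((I.map (Dv i k)).mulVec fun σ => f σ.1) := by
  have e := congrArg (fun M => Matrix.mulVec (M.map (Dv i k)) fun σ : ↥K => f σ.1) h.cm.comm
  have e1 : ((rs K K (DG r C)).map (Dv i k)).mulVec (fun σ => f σ.1) = fun σ => g σ.1 :=
    funext fun σ => h1 σ.1 σ.2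
  have e2 : ((rs K K (DG r C)).map (ph k)).mulVec (fun σ => f σ.1) = 0 :=
    funext fun σ => h2 σ.1 σ.2
  simp only [Dv_matrix, Matrix.add_mulVec, ← Matrix.mulVec_mulVec, e1, e2, Matrix.mulVec_zero,
    add_zero] at e
  rw [← e, add_comm]

/-- Write `D` for the small matrix and `d` for the coboundary matrix. Apply `Dv i 0` to
`D * I = I * d` and evaluate on `one0`. -/
theorem Model.int_yc (h : Model r K C (mF (⟨m, 0⟩ : Aff) ⟨0, a⟩ c8 c8 Fx) I x0 γ0) (hK : Cx r K)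
    (hC : Flat r K C) (hF : okFx Fx = true) (i : ZMod 8) :
    (I.map (ph i)).mulVec (fun σ => yc r C i σ.1) =
      e2 (a i) + ((mF (⟨m, 0⟩ : Aff) ⟨0, a⟩ c8 c8 Fx).map (ph i)).mulVec (e0 (γ0.y i)) := by
  have e := ge2_Dv h i 0 (fun σ hσ => sum_Dv_one0 hK hC hσ i) fun σ hσ => sum_ph_one0 hK hσ
  have e1 : (I.map (ph 0)).mulVec (fun σ => one0 σ.1) = e0 (ph 0 (MonoidAlgebra.single γ0 1)) :=
    ge2_one0 h (ph 0).toAddMonoidHom
  rw [ge2_one0 h, e1, add_zero, Dv_single, ph_single, zero_mul, pw_zero, Int.cast_one, mul_one,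
    mul_one, one_mul] at e
  rw [e]
  congr 1
  funext x
  obtain ⟨f0, f1, f2, -⟩ := ge2_fx hF
  refine (ge2_e _ (by norm_num : 0 < 8) 1 x).trans ?_
  rw [mul_one, Matrix.map_apply]
  unfold e2
  split_ifs with hx
  · show Dv i 0 (evF _ _ (Fx x.1) 0) = _
    rw [Dv_evF, hx, f2]
    simp [nD, etw, pw_zero]
  · by_cases h1 : x.1 = 1
    · show Dv i 0 (evF _ _ (Fx x.1) 0) = _
      rw [Dv_evF, h1, f1]
      simp [nD, etw]
    · have : mF (⟨m, 0⟩ : Aff) ⟨0, a⟩ c8 c8 Fx x ⟨0, ge2_mem (by norm_num)⟩ = 0 := by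
        by_contra hne
        have h2 := ge2_deg hF hne
        simp only [dgF] at h2
        split_ifs at h2 <;> omega
      rw [this, map_zero]

/-- Apply `Dv i k` to `D * I = I * d` and evaluate on `yc k`; apply it to `D * D = 0` to absorb
the coboundary of `int_yc`. -/
theorem Model.int_cup (h : Model r K C (mF (⟨m, 0⟩ : Aff) ⟨0, a⟩ c8 c8 Fx) I x0 γ0) (hK : Cx r K)
    (hC : Flat r K C) (hF : okFx Fx = true) (i k : ZMod 8) :
    ∃ θ : ↥c8 → F25, (∀ x, θ x ≠ 0 → dgF x.1 = 1) ∧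
      (I.map (ph (i + k))).mulVec (fun σ => cup r zF (kj k C) (yc r C i) (yc r C k) σ.1) =
        (fun x => a i * a k * nD (i * m) (k * m) (Fx x.1) 2) +
          ((mF (⟨m, 0⟩ : Aff) ⟨0, a⟩ c8 c8 Fx).map (ph (i + k))).mulVec θ := by
  have e := ge2_Dv h i k (fun σ hσ => sum_Dv_yc hK hC hσ i k) fun σ hσ => sum_ph_yc hK hC hσ k
  have e1 := congrArg (fun M => Matrix.mulVec (M.map (Dv i k)) (e0 (γ0.y k))) h.cm.dm'.1
  simp only [Dv_matrix, Matrix.add_mulVec, ← Matrix.mulVec_mulVec,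
    Matrix.map_zero _ (map_zero (Dv i k)), Matrix.zero_mulVec] at e1
  rw [h.int_yc hK hC hF k, Matrix.mulVec_add, eq_neg_of_add_eq_zero_right e1] at e
  refine ⟨(I.map (Dv i k)).mulVec (fun σ => yc r C k σ.1) -
    ((mF (⟨m, 0⟩ : Aff) ⟨0, a⟩ c8 c8 Fx).map (Dv i k)).mulVec (e0 (γ0.y k)), fun x hx => ?_, ?_⟩
  · by_contra hc
    refine hx ?_
    rw [Pi.sub_apply, not_not.1 (mt (ge2_supp h (Dv i k) (ge2_hom_yc k)) hc), zero_sub, neg_eq_zero]
    refine (ge2_e _ (by norm_num : 0 < 8) _ x).trans ?_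
    rw [Matrix.map_apply, not_not.1 (mt (ge2_deg hF) hc), map_zero, zero_mul]
  · rw [e, Matrix.mulVec_sub]
    have e2 : ((mF (⟨m, 0⟩ : Aff) ⟨0, a⟩ c8 c8 Fx).map (Dv i k)).mulVec (e2 (a k)) =
        fun x => a i * a k * nD (i * m) (k * m) (Fx x.1) 2 := by
      funext x
      refine (ge2_e _ (by norm_num : 2 < 8) _ x).trans ?_
      show Dv i k (evF _ _ (Fx x.1) 2) * _ = _
      rw [Dv_evF]
      ring
    rw [e2]
    abel

/-- Apply `phR j` to `D * I = I * d` and evaluate on the lift `y'`. Rows of degree two: the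
columns 1 and 2 of the lifted matrix are given by `okB`. -/
theorem Model.int_bock (h : Model r K C (mF (⟨m, 0⟩ : Aff) ⟨0, a⟩ c8 c8 Fx) I x0 γ0)
    (hK : Cx r K) (hC : Flat r K C) (hF : okFx Fx = true) {j : ZMod 8} {b : Finset α → F25}
    (hb : Bock r K j C b) {μ : R25} (hB : okB Fx (j * m) μ = true) :
    (I.map (ph j)).mulVec (fun σ => b σ.1) = fun x => if x.1 = 7 then a j * red μ else 0 := by
  obtain ⟨hb2, y', b', hy', hK'⟩ := hb
  have hred : ∀ (f : Finset α → R25) (g : Finset α → F25), (∀ σ ∈ K, red (f σ) = g σ) → ∀ x,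
      red ((I.map (phR j)).mulVec (fun σ => f σ.1) x) =
        (I.map (ph j)).mulVec (fun σ => g σ.1) x := by
    intro f g hfg x
    rw [ge2_mv, ge2_mv, map_sum]
    refine Finset.sum_congr rfl fun σ _ => ?_
    rw [map_mul, Matrix.map_apply, Matrix.map_apply, red_phR, hfg σ.1 σ.2]
  funext x
  have hx8 : x.1 < 8 := Finset.mem_range.1 x.2
  by_cases h3 : x.1 < 3
  · rw [if_neg (by omega)]
    by_contra hne
    have h1 := ge2_supp h (ph j).toAddMonoidHom hb2 hne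
    simp only [dgF] at h1
    split_ifs at h1 <;> omega
  have e := congrArg (fun M => Matrix.mulVec (M.map (phR j)) (fun σ : ↥K => y' σ.1) x) h.cm.comm
  have e1 : ((rs K K (DG r C)).map (phR j)).mulVec (fun σ => y' σ.1) =
      (5 : R25) • fun σ : ↥K => b' σ.1 := funext fun σ =>
    (sum_phR hK σ.2 j (not_not.1 fun hc => absurd (hy' _ hc) (by simp))).trans (hK' σ.1 σ.2).2.2
  simp only [Matrix.map_mul, ← Matrix.mulVec_mulVec, e1, Matrix.mulVec_smul, Pi.smul_apply,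
    smul_eq_mul] at e
  have hw2 := hred y' (yc r C j) (fun σ hσ => (hK' σ hσ).1) ⟨2, ge2_mem (by norm_num)⟩
  have hw : ∀ z : ↥c8, (I.map (phR j)).mulVec (fun σ => y' σ.1) z ≠ 0 → dgF z.1 = 1 :=
    fun z hz => ge2_supp h (phR j).toAddMonoidHom hy' hz
  generalize (I.map (phR j)).mulVec (fun σ => y' σ.1) = w at e hw2 hw
  have hw3 : red (w ⟨2, ge2_mem (by norm_num)⟩) = a j := by
    rw [hw2, h.int_yc hK hC hF j, Pi.add_apply]
    have e5 : ((mF (⟨m, 0⟩ : Aff) ⟨0, a⟩ c8 c8 Fx).map (ph j)).mulVec (e0 (γ0.y j))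
        ⟨2, ge2_mem (by norm_num)⟩ = _ := ge2_e _ (by norm_num : 0 < 8) _ _
    have e3 : ph j (evF (⟨m, 0⟩ : Aff) ⟨0, a⟩ (Fx 2) 0) = 0 := by
      rw [ph_evF, (ge2_fx hF).2.2.1]
      simp [nC, hx, pw_zero]
    rw [e5.trans ((congrArg (· * γ0.y j) e3).trans (zero_mul _)), add_zero]
    rfl
  simp only [okB, allB_iff, Bool.or_eq_true, Bool.and_eq_true, decide_eq_true_eq] at hB
  obtain ⟨b1, b2⟩ := (hB x.1 hx8).resolve_left h3
  have e4 : ((mF (⟨m, 0⟩ : Aff) ⟨0, a⟩ c8 c8 Fx).map (phR j)).mulVec w x =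
      (if x.1 = 7 then 5 * μ else 0) * w ⟨2, ge2_mem (by norm_num)⟩ := by
    rw [ge2_mv, Finset.sum_eq_single ⟨2, ge2_mem (by norm_num)⟩]
    · show phR j (evF _ _ (Fx x.1) 2) * _ = _
      rw [phR_evF, b2]
    · intro z _ hz
      by_cases h1 : z.1 = 1
      · show phR j (evF _ _ (Fx x.1) z.1) * _ = _
        rw [phR_evF, h1, b1, zero_mul]
      · have : w z = 0 := by
          by_contra hne
          have h2 := hw z hne
          have h4 : z.1 ≠ 2 := fun e => hz (Subtype.ext e)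
          simp only [dgF] at h2
          split_ifs at h2 <;> omega
        rw [this, mul_zero]
    · intro hn
      exact absurd (Finset.mem_univ _) hn
  rw [← hred b' b (fun σ hσ => (hK' σ hσ).2.1) x]
  rw [e4] at e
  split_ifs at e ⊢
  · rw [mul_assoc] at e
    rw [← red_of_five e, map_mul, hw3, mul_comm]
  · rw [zero_mul, ← mul_zero 5] at e
    rw [← red_of_five e, map_zero]

/-- The classes in the small complex. -/
def sml (Fx : ℕ → FS) (m : ZMod 8) (a : ZMod 8 → F25) (j : ZMod 8) (p : Fin 4 → ZMod 8)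
    (ν : F25) : Matrix c8 (Fin 6) F25 := Matrix.of fun x =>
  ![e2 (a j) x,
    a (p 0) * a (j - p 0) * nD (p 0 * m) ((j - p 0) * m) (Fx x.1) 2,
    a (p 1) * a (j - p 1) * nD (p 1 * m) ((j - p 1) * m) (Fx x.1) 2,
    a (p 2) * a (j - p 2) * nD (p 2 * m) ((j - p 2) * m) (Fx x.1) 2,
    a (p 3) * a (j - p 3) * nD (p 3 * m) ((j - p 3) * m) (Fx x.1) 2,
    if x.1 = 7 then a j * ν else 0]

/-- `tor_cls_map` and `tor_cls_cob`. -/
theorem Model.tc_eq (h : Model r K C (mF (⟨m, 0⟩ : Aff) ⟨0, a⟩ c8 c8 Fx) I x0 γ0) (hK : Cx r K)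
    (hC : Flat r K C) (hF : okFx Fx = true) {j : ZMod 8} (p : Fin 4 → ZMod 8)
    {b : Finset α → F25} (hb : Bock r K j C b) {μ : R25} (hB : okB Fx (j * m) μ = true) :
    tc r K j C pj (cls r j p C b) =
      tor (cpar (fun x : ↥c8 => pc dgF x.1) pj)
        (cone ((mF (⟨m, 0⟩ : Aff) ⟨0, a⟩ c8 c8 Fx).map (ph j)) 0 (sml Fx m a j p (red μ))) := by
  have hg := h.cm.map (ph j)
  have hh : CM (fun x : ↥K => ps x.1) pj ((rs K K (DG r C)).map (ph j)) 0
      (MP_5ceaf9_gt.cm K (cls r j p C b)) := g_cm_cls hK hC p hb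
  have h1 := h.gd.2.2 le_rfl (ph j) (ph_mem j)
  rw [cone_map] at h1
  choose θ hθ1 hθ2 using fun n : Fin 4 => h.int_cup hK hC hF (p n) (j - p n)
  simp only [add_sub_cancel] at hθ2
  have hodd : OddM (fun x : ↥c8 => pc dgF x.1) pj (-Matrix.of fun x : ↥c8 =>
      (![e0 (γ0.y j) x, θ 0 x, θ 1 x, θ 2 x, θ 3 x, 0] : Fin 6 → F25)) := by
    intro x n hn
    rw [Matrix.neg_apply, neg_ne_zero] at hn
    have h2 : ∀ k : Fin 4, θ k x ≠ 0 → pc dgF x.1 = true := fun k hk => by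
      simp only [pc, hθ1 k x hk, decide_eq_true_eq]
    fin_cases n
    · have h3 : x.1 = 0 := by
        by_contra hc
        exact hn (if_neg hc)
      show pc dgF x.1 ≠ pj 0
      rw [h3]
      decide
    · show pc dgF x.1 ≠ pj 1
      rw [h2 0 hn]
      decide
    · show pc dgF x.1 ≠ pj 2
      rw [h2 1 hn]
      decide
    · show pc dgF x.1 ≠ pj 3
      rw [h2 2 hn]
      decide
    · show pc dgF x.1 ≠ pj 4
      rw [h2 3 hn]
      decide
    · exact absurd rfl hn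
  have key : sml Fx m a j p (red μ) = I.map (ph j) * MP_5ceaf9_gt.cm K (cls r j p C b) +
      (mF (⟨m, 0⟩ : Aff) ⟨0, a⟩ c8 c8 Fx).map (ph j) * -Matrix.of fun x : ↥c8 =>
        (![e0 (γ0.y j) x, θ 0 x, θ 1 x, θ 2 x, θ 3 x, 0] : Fin 6 → F25) := by
    rw [Matrix.mul_neg, ← sub_eq_add_neg, eq_sub_iff_add_eq]
    refine Matrix.ext fun x n => Eq.symm ?_
    fin_cases n
    · exact congrFun (h.int_yc hK hC hF j) x
    · exact congrFun (hθ2 0) x
    · exact congrFun (hθ2 1) x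
    · exact congrFun (hθ2 2) x
    · exact congrFun (hθ2 3) x
    · refine (congrFun (h.int_bock hK hC hF hb hB) x).trans ?_
      refine (add_zero _).symm.trans (congrArg _ (Eq.symm ?_))
      rw [Matrix.mul_apply]
      exact Finset.sum_eq_zero fun z _ => mul_zero _
  rw [key, tor_cls_cob (hg.comp hh) hodd, tor_cls_map hg hh h1]
  rfl

end Pool.Agent.Lib.MP_5ceaf9_gt.G
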