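import Pool.Agent.Lib.MP_5ceaf9_gt.GE2

/-! The torsion of the small model. -/

noncomputable section

namespace Pool.Agent.Lib.MP_5ceaf9_gt.G

open Function

variable {Fx : ℕ → FS} {m : ZMod 8} {a : ZMod 8 → F25}

theorem ge3_F (hF : okFx Fx = true) : Fx 0 = [] ∧ Fx 1 = [(0, 1, [(false, 1)]), (0, -1, [])] ∧
    Fx 2 = [(0, 1, [(true, 1)]), (0, -1, [])] ∧ ∀ x < 8, ∀ t ∈ Fx x, dgF x = dgF t.1 + 1 := by
  simp only [okFx, allB_iff, Bool.and_eq_true, decide_eq_true_eq, List.all_eq_true] at hF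
  exact ⟨hF.1.1.1, hF.1.1.2, hF.1.2, fun x hx t ht => ((hF.2 x hx).2 t ht).2⟩

/-- The only entry of the small matrix is `z - 1` in the place `(1, 0)`. -/
theorem small_entry (hF : okFx Fx = true) {j : ZMod 8} {μ : R25} (hB : okB Fx (j * m) μ = true)
    (x y : ↥c8) : ((mF (⟨m, 0⟩ : Aff) ⟨0, a⟩ c8 c8 Fx).map (ph j)) x y =
      if x.1 = 1 ∧ y.1 = 0 then pw zF (j * m) - 1 else 0 := by
  obtain ⟨h0, h1, h2, h3⟩ := ge3_F hF
  obtain ⟨x, hx⟩ := x
  obtain ⟨y, -⟩ := y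
  refine (ph_evF j m a (Fx x) y).trans ?_
  have hx' : x < 8 := Finset.mem_range.1 hx
  dsimp only
  by_cases e : x < 3
  · by_cases hy : y = 0
    · interval_cases x <;> simp [h0, h1, h2, nC, G.hx, hy, pw_zero, sub_eq_add_neg]
    · interval_cases x <;> simp [h0, h1, h2, nC, hy, Ne.symm hy]
  rw [if_neg (by omega)]
  simp only [okB, allB_iff, Bool.and_eq_true, Bool.or_eq_true, decide_eq_true_eq] at hB
  obtain ⟨h4, h5⟩ := (hB x hx').resolve_left e
  by_cases e1 : y = 1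
  · rw [e1, ← red_nC, h4, map_zero]
  by_cases e2 : y = 2
  · rw [e2, ← red_nC, h5]
    split_ifs
    · rw [map_mul, show red 5 = 0 by decide, zero_mul]
    · exact map_zero _
  refine List.sum_eq_zero fun u hu => ?_
  obtain ⟨t, ht, rfl⟩ := List.mem_map.1 hu
  refine if_neg fun e3 => ?_
  have h6 := h3 x hx' t ht
  rw [e3] at h6
  unfold dgF at h6
  split_ifs at h6 <;> omega

/-- The reindexing. -/
def ge3_f : (Fin 2 ⊕ Fin 2) ⊕ ((Fin 4 ⊕ Unit) ⊕ (Fin 4 ⊕ Unit)) → ↥c8 ⊕ Fin 6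
  | .inl (.inl i) => .inl ⟨1 + i, Finset.mem_range.2 (by omega)⟩
  | .inl (.inr i) => ![.inl ⟨0, by decide⟩, .inr 0] i
  | .inr (.inl (.inl n)) => .inl ⟨3 + n, Finset.mem_range.2 (by omega)⟩
  | .inr (.inl (.inr _)) => .inl ⟨7, by decide⟩
  | .inr (.inr (.inl k)) => .inr k.castSucc.succ
  | .inr (.inr (.inr _)) => .inr 5

theorem ge3_bij : Bijective ge3_f := by decide +kernel

theorem ge3_par : (fun x => cpar (fun x : ↥c8 => pc dgF x.1) pj (ge3_f x)) =
    Sum.elim (Sum.elim (fun _ => true) (fun _ => false))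
      (Sum.elim (fun _ => false) (fun _ => true)) := funext (by decide +kernel)

/-- Reindex to the shape of `tor_four` with `ι = Fin 2` (targets: cells 1, 2; sources: cell 0,
class 0) and `κ = Fin 4 ⊕ Unit` (targets: cells 3 to 7; sources: classes 1 to 5); the second
matrix is block triangular. -/
theorem tor_small (hF : okFx Fx = true) {j : ZMod 8} {μ : R25} (hB : okB Fx (j * m) μ = true)
    (p : Fin 4 → ZMod 8) (hz : pw zF (j * m) ≠ 1) (ha : ∀ i, a i ≠ 0)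
    (hE : dE4 Fx j m p * red μ ≠ 0) :
    tor (cpar (fun x : ↥c8 => pc dgF x.1) pj)
        (cone ((mF (⟨m, 0⟩ : Aff) ⟨0, a⟩ c8 c8 Fx).map (ph j)) 0 (sml Fx m a j p (red μ))) *
        (pw zF (j * m) - 1) ^ 8 =
      (∏ k, a (p k) * a (j - p k)) ^ 8 * (dE4 Fx j m p * red μ) ^ 8 := by
  obtain ⟨h0, h1, h2, -⟩ := ge3_F hF
  have hD := small_entry (a := a) hF hB
  generalize (mF (⟨m, 0⟩ : Aff) ⟨0, a⟩ c8 c8 Fx).map (ph j) = D at hD ⊢
  let E : ℕ → Fin 4 → F25 := fun x k => nD (p k * m) ((j - p k) * m) (Fx x) 2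
  have hS0 : ∀ x, sml Fx m a j p (red μ) x 0 = if x.1 = 2 then a j else 0 := fun _ => rfl
  have hS5 : ∀ x, sml Fx m a j p (red μ) x 5 = if x.1 = 7 then a j * red μ else 0 := fun _ => rfl
  have hS : ∀ x, sml Fx m a j p (red μ) x 1 = a (p 0) * a (j - p 0) * E x.1 0 ∧
      sml Fx m a j p (red μ) x 2 = a (p 1) * a (j - p 1) * E x.1 1 ∧
      sml Fx m a j p (red μ) x 3 = a (p 2) * a (j - p 2) * E x.1 2 ∧
      sml Fx m a j p (red μ) x 4 = a (p 3) * a (j - p 3) * E x.1 3 :=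
    fun x => ⟨rfl, rfl, rfl, rfl⟩
  have hE0 : ∀ k, E 0 k = 0 ∧ E 1 k = 0 ∧ E 2 k = 0 := fun k => by simp [E, h0, h1, h2, nD]
  generalize sml Fx m a j p (red μ) = S at hS0 hS5 hS ⊢
  let M : Matrix (Fin 2) (Fin 2) F25 := !![pw zF (j * m) - 1, 0; 0, a j]
  let N : Matrix (Fin 4 ⊕ Unit) (Fin 4 ⊕ Unit) F25 := Matrix.fromBlocks
    (Matrix.of fun n k => a (p k) * a (j - p k) * E (3 + n.val) k) 0
    (Matrix.of fun _ k => a (p k) * a (j - p k) * E 7 k) (Matrix.of fun _ _ => a j * red μ)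
  have hM : M.det = (pw zF (j * m) - 1) * a j := by simp [M]
  have hN : N.det = (∏ k, a (p k) * a (j - p k)) * (dE4 Fx j m p * red μ) * a j := by
    have := Matrix.det_mul_row (fun k => a (p k) * a (j - p k))
      (Matrix.of fun n k : Fin 4 => E (3 + n.val) k)
    simp only [Matrix.of_apply] at this
    rw [Matrix.det_fromBlocks_zero₁₂, this, det4_eq, Matrix.det_unique, Matrix.of_apply, dE4]
    ring
  have key : (cone D 0 S).submatrix (Equiv.ofBijective _ ge3_bij) (Equiv.ofBijective _ ge3_bij) =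
      Matrix.fromBlocks (Matrix.fromBlocks 0 M 0 0) 0 0 (Matrix.fromBlocks 0 N 0 0) := by
    refine Matrix.ext ?_
    rintro ((x | x) | ((x | x) | (x | x))) ((y | y) | ((y | y) | (y | y))) <;>
      simp only [Matrix.submatrix_apply, Equiv.ofBijective_apply, ge3_f] <;>
      (try fin_cases x) <;> (try fin_cases y) <;>
      simp [cone, hD, hS0, hS5, hS, hE0, M, N]
  have h4 := tor_four (M := M) (N := N) (by
    rw [hM]
    exact mul_ne_zero (sub_ne_zero.2 hz) (ha j)) (by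
    rw [hN]
    exact mul_ne_zero (mul_ne_zero
      (Finset.prod_ne_zero_iff.2 fun k _ => mul_ne_zero (ha _) (ha _)) hE) (ha j))
  have h5 : Dm (cpar (fun x : ↥c8 => pc dgF x.1) pj) (cone D 0 S) :=
    (dm_reindex (Equiv.ofBijective _ ge3_bij)).1 (by
      rw [key]
      exact ge3_par ▸ algd_dm (algd_dm2 M false) (algd_dm2 N true))
  rw [← key, ← ge3_par, hM, hN, mul_pow, mul_pow, mul_pow, ← mul_assoc] at h4
  rw [← tor_reindex h5 (Equiv.ofBijective _ ge3_bij)]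
  exact mul_right_cancel₀ (pow_ne_zero 8 (ha j)) h4

theorem prod_p1 (a : ZMod 8 → F25) : ∏ k, a (p1 k) * a (1 - p1 k) = ∏ i, a i := by
  refine (Fin.prod_univ_four _).trans (Eq.trans ?_ (Fin.prod_univ_eight (M := F25) a).symm)
  change a 0 * a 1 * (a 2 * a 7) * (a 3 * a 6) * (a 4 * a 5) =
    a 0 * a 1 * a 2 * a 3 * a 4 * a 5 * a 6 * a 7
  ring

theorem prod_p3 (a : ZMod 8 → F25) : ∏ k, a (p3 k) * a (3 - p3 k) = ∏ i, a i := by
  refine (Fin.prod_univ_four _).trans (Eq.trans ?_ (Fin.prod_univ_eight (M := F25) a).symm)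
  change a 0 * a 3 * (a 1 * a 2) * (a 4 * a 7) * (a 5 * a 6) =
    a 0 * a 1 * a 2 * a 3 * a 4 * a 5 * a 6 * a 7
  ring

/-- The class modulo eight as a homomorphism. -/
def ge3_k : Aff →* Multiplicative (ZMod 8) where
  toFun x := Multiplicative.ofAdd x.k
  map_one' := rfl
  map_mul' _ _ := rfl

theorem ge3_zpow (x : Aff) (n : ℤ) : (x ^ n).k = n * x.k := by
  simpa [ge3_k] using congrArg Multiplicative.toAdd (map_zpow ge3_k x n)

theorem ge3_pow (x : Aff) (n : ℕ) : (x ^ n).k = n * x.k := by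
  simpa using ge3_zpow x n

theorem ge3_pow_y (x : Aff) {i : ZMod 8} (h : i * x.k = 0 ∨ x.y i = 0) (n : ℕ) :
    (x ^ n).y i = n * x.y i := by
  induction n with
  | zero => simp
  | succ n ih =>
    rw [pow_succ', Aff.mul_y, ih]
    rcases h with h | h <;> simp [h, pw_zero, add_mul, add_comm]

theorem ge3_k0 {H A : Aff} (h : Gp H A) : A.k = 0 := by
  have h1 := ge3_pow A 5
  rw [h.2, Aff.one_k] at h1
  revert h1
  generalize A.k = k
  revert k
  decide

/-- Normal form of a pair of elements of the affine group. -/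
theorem Gp.aff {H A : Aff} (h : Gp H A) (ho : par2 H.k ≠ 0) :
    ∃ (γ : Aff) (a : ZMod 8 → F25), γ * H * γ⁻¹ = ⟨H.k, 0⟩ ∧ γ * A * γ⁻¹ = ⟨0, a⟩ := by
  have h1 : H.y 0 = 0 := by
    have := ge3_pow_y H (Or.inl (zero_mul _)) 8
    rw [h.h8, Aff.one_y] at this
    exact (mul_eq_zero.1 this.symm).resolve_left (by decide)
  have h2 : ∀ i k : ZMod 8, par2 k ≠ 0 → i ≠ 0 → pw zF (i * k) - 1 ≠ 0 := by decide
  refine ⟨⟨0, fun i => H.y i / (pw zF (i * H.k) - 1)⟩, _, Aff.ext (by simp) (funext fun i => ?_),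
    Aff.ext (by simp [ge3_k0 h]) rfl⟩
  by_cases hi : i = 0
  · simp [hi, h1]
  · have h3 := h2 i _ ho hi
    simp only [Aff.mul_y, Aff.mul_k, Aff.inv_y, neg_zero, mul_zero, pw_zero, one_mul, zero_add,
      Pi.zero_apply]
    field_simp
    ring

theorem Gp.aff_k {H A : Aff} (h : Gp H A) : A.k = 0 := by
  exact ge3_k0 h

theorem ge3_comm {x y : Aff} (hx : x.k = 0) (hy : y.k = 0) : Commute x y :=
  Aff.ext (by simp [hx, hy]) (funext fun i => by simp [hx, hy, pw_zero, add_comm])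

theorem gp_std (m : ZMod 8) (a : ZMod 8 → F25) : Gp (⟨m, 0⟩ : Aff) ⟨0, a⟩ := by
  have h1 : ∀ n, Commute (⟨0, a⟩ : Aff) (cj ⟨m, 0⟩ ⟨0, a⟩ n) := fun n =>
    ge3_comm rfl (by simp [cj])
  refine ⟨⟨h1 1, h1 2, h1 3, ?_⟩, Aff.ext (by simp [ge3_pow]) (funext fun i => ?_)⟩
  · rw [(h1 4).eq, mul_inv_cancel_right, mul_inv_cancel, mul_one]
    refine Aff.ext ?_ (funext fun i => by simp [ge3_pow_y])
    rw [ge3_pow, show ((8 : ℕ) : ZMod 8) = 0 by decide, zero_mul, Aff.one_k]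
  · rw [ge3_pow_y _ (Or.inl (mul_zero _)), show ((5 : ℕ) : F25) = 0 by decide, zero_mul, Aff.one_y]

theorem ew_k' {H A : Aff} (hA : A.k = 0) (w : Wd) : (ew H A w).k = H.k * (hx w : ZMod 8) := by
  induction w with
  | nil => simp [ew, hx]
  | cons s w ih =>
    rw [ew, Aff.mul_k, ih, ge3_zpow]
    obtain ⟨b, n⟩ := s
    cases b <;> simp [hx, hA, mul_add, mul_comm]

end Pool.Agent.Lib.MP_5ceaf9_gt.G
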