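import Pool.Agent.Lib.MP_5ceaf9_gt.GO
import Pool.Agent.Lib.MP_5ceaf9_gt.GE3

/-! The invariants of a table. -/

noncomputable section

namespace Pool.Agent.Lib.MP_5ceaf9_gt.G

open Function

variable {T : Tab} {J Fx : ℕ → FS}

/-- The orientation character of a table. -/
def Tab.om (T : Tab) (x y : ℕ) : ZMod 2 := (hx (T.wd y x) : ZMod 2)

/-- The numbers attached to the character `j` and the exponent `m`. -/
def okN (Fx : ℕ → FS) (j m : ZMod 8) (p : Fin 4 → ZMod 8) (μ : R25) : Prop :=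
  okB Fx (j * m) μ = true ∧ pw zF (j * m) ≠ 1 ∧ dE4 Fx j m p * red μ ≠ 0

theorem gf_par (T : Tab) {H A : Aff} (hA : A.k = 0) (x y : ℕ) :
    par2 (T.std H A x y).k = par2 H.k * T.om x y := by
  rw [Tab.std, Aff.inv_k, ew_k' hA, map_neg, map_mul, map_intCast, ZMod.neg_eq_self_mod_two,
    Tab.om]

theorem gf_k {an : ℕ → ℕ} (hk : T.okK an = true) : 7 ≤ T.N ∧ T.le 0 1 ∧ T.le 2 1 ∧ T.le 2 3 ∧
    T.le 0 3 ∧ T.le 0 4 ∧ T.le 5 4 ∧ T.le 5 6 ∧ T.le 0 6 := by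
  simp only [Tab.okK, Bool.and_eq_true, decide_eq_true_eq] at hk
  obtain ⟨⟨⟨⟨⟨⟨⟨⟨⟨⟨⟨⟨h0, -⟩, -⟩, h1⟩, h2⟩, h3⟩, h4⟩, h5⟩, h6⟩, h7⟩, h8⟩, -⟩, -⟩ := hk
  exact ⟨h0, h1, h2, h3, h4, h5, h6, h7, h8⟩

theorem gf_hol {an : ℕ → ℕ} (hk : T.okK an = true) {C : ℕ → ℕ → Aff} {H A : Aff}
    (hn : T.Nrm H A (fun _ => 1) C) : holH C = H ∧ holA C = A := by
  have h1 := Tab.hol_gau hk (c := C) (g := fun _ => 1) (c' := T.std H A)
    fun y hy x _ hxy => hn y (hy.trans_le (gf_k hk).1) x hxy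
  rw [(Tab.hol_std hk H A).1, (Tab.hol_std hk H A).2, one_mul, one_mul, inv_one, mul_one,
    mul_one] at h1
  exact ⟨h1.1.symm, h1.2.symm⟩

theorem Good.tc_eval (h : Good T J Fx) {C : ℕ → ℕ → Aff} (hC : Flat T.le (OC T.le T.el) C)
    {m : ZMod 8} {a : ZMod 8 → F25} {g : ℕ → Aff} (hn : T.Nrm ⟨m, 0⟩ ⟨0, a⟩ g C)
    (ha : ∀ i, a i ≠ 0) {j : ZMod 8} {p : Fin 4 → ZMod 8} {μ : R25} (hN : okN Fx j m p μ)
    {b : Finset ℕ → F25} (hb : Bock T.le (OC T.le T.el) j C b) :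
    tc T.le (OC T.le T.el) j C pj (cls T.le j p C b) * (pw zF (j * m) - 1) ^ 8 =
      (∏ k, a (p k) * a (j - p k)) ^ 8 * (dE4 Fx j m p * red μ) ^ 8 := by
  obtain ⟨an, tw, hk, -⟩ := h.kc
  obtain ⟨tm, iv, hJ⟩ := h.j
  have hM := Tab.model h.p h.q hk h.fx hJ (h.gp Aff _ _ g C hC hn) hC hn
  rw [hM.tc_eq (cx_OC (Tab.pon h.p)) hC h.fx p hb hN.1]
  exact tor_small h.fx hN.1 p hN.2.1 ha hN.2.2

theorem Tab.flat_om (hp : T.okP = true) (hf : T.okF = true) : Flat2 T.le (OC T.le T.el) T.om := by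
  intro a b d hm hab hbd
  have e := congrArg (fun x : Aff => par2 x.k)
    (Tab.flat_std hp hf (gp_std 1 0) a b d hm hab hbd)
  simp only [Aff.mul_k, map_add, gf_par T (H := ⟨1, 0⟩) (A := ⟨0, 0⟩) rfl, map_one, one_mul] at e
  exact congrArg Multiplicative.ofAdd e

theorem Tab.Nrm.geq (hp : T.okP = true) {C : ℕ → ℕ → Aff} {H A : Aff} {g : ℕ → Aff}
    (hn : T.Nrm H A g C) (hA : A.k = 0) :
    Geq T.le (OC T.le T.el) C (fun x y => par2 H.k * T.om x y) := by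
  refine ⟨fun x => par2 (g x).k, (agree_OC (Tab.pon hp)).2 fun x _ y hy hxy => ?_⟩
  have e := congrArg (fun x : Aff => par2 x.k) (hn y (Tab.mem_el.1 hy) x hxy)
  simp only [gau, Aff.mul_k, Aff.inv_k, map_add, map_neg, gf_par T hA] at e
  beta_reduce
  rw [← e]
  generalize par2 (g x).k = u
  generalize par2 (g y).k = v
  generalize par2 (C x y).k = w
  revert u v w
  decide

theorem Tab.Nrm.triv (hp : T.okP = true) {C : ℕ → ℕ → Aff} {m : ZMod 8} {a : ZMod 8 → F25}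
    {g : ℕ → Aff} (hn : T.Nrm ⟨m, 0⟩ ⟨0, a⟩ g C) {i : ZMod 8} (hi : a i = 0) :
    Triv T.le (OC T.le T.el) C i := by
  refine ⟨fun x => (g x)⁻¹.y i, (agree_OC (Tab.pon hp)).2 fun x _ y hy hxy => ?_⟩
  have e : C x y * (g y)⁻¹ = (g x)⁻¹ * T.std ⟨m, 0⟩ ⟨0, a⟩ x y := by
    rw [← hn y (Tab.mem_el.1 hy) x hxy, gau]
    group
  have e1 : (T.std (⟨m, 0⟩ : Aff) ⟨0, a⟩ x y).y i = 0 := by
    rw [Tab.std, Aff.inv_y, ew_y, hi, zero_mul, mul_zero, neg_zero]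
  have e2 := congrArg (fun x : Aff => x.y i) e
  simp only [Aff.mul_y, e1, mul_zero, add_zero] at e2
  exact eq_sub_of_add_eq e2

/-- Classify with `γ = 1`, get `Gp`, oddness (`Nrm.geq`), `Gp.aff`, classify again. -/
theorem Good.tv (h : Good T J Fx)
    (hN : ∀ m : ZMod 8, par2 m ≠ 0 → okN Fx 1 m p1 1 ∧ okN Fx 3 m p3 1 ∧
      (dE4 Fx 1 m p1 * (pw zF (3 * m) - 1)) ^ 8 ≠ (dE4 Fx 3 m p3 * (pw zF (1 * m) - 1)) ^ 8) :
    TV T.le (OC T.le T.el) T.om := by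
  intro C b1 b3 hA
  obtain ⟨an, tw, hk, hc⟩ := h.kc
  obtain ⟨g, -, hn⟩ := Tab.classify h.p hk hc hA.flat 1
  rw [one_mul, one_mul, inv_one, mul_one, mul_one] at hn
  have hg := h.gp Aff _ _ g C hA.flat hn
  have h1 := hn.geq h.p hg.aff_k
  have ho : par2 (holH C).k ≠ 0 := fun h0 => hA.odd (by simpa only [h0, zero_mul] using h1)
  have ho' : par2 (holH C).k = 1 := by
    revert ho
    generalize par2 (holH C).k = u
    revert u
    decide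
  obtain ⟨γ, a, e1, e2⟩ := hg.aff ho
  obtain ⟨g', -, hn'⟩ := Tab.classify h.p hk hc hA.flat γ
  rw [e1, e2] at hn'
  have ha : ∀ i, a i ≠ 0 := fun i hi => hA.nt i (hn'.triv h.p hi)
  obtain ⟨n1, n3, hne⟩ := hN _ ho
  have t1e := h.tc_eval hA.flat hn' ha n1 hA.b1
  have t3e := h.tc_eval hA.flat hn' ha n3 hA.b3
  rw [prod_p1] at t1e
  rw [prod_p3] at t3e
  have hP : (∏ i, a i) ^ 8 ≠ 0 := pow_ne_zero 8 (Finset.prod_ne_zero_iff.2 fun i _ => ha i)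
  refine ⟨by simpa only [ho', one_mul] using h1, ?_, ?_, fun he => hne ?_⟩
  · exact left_ne_zero_of_mul (t1e.trans_ne (mul_ne_zero hP (pow_ne_zero 8 n1.2.2)))
  · exact left_ne_zero_of_mul (t3e.trans_ne (mul_ne_zero hP (pow_ne_zero 8 n3.2.2)))
  · rw [map_one, mul_one] at t1e t3e
    unfold t1 t3 at he
    refine mul_left_cancel₀ hP ?_
    rw [mul_pow, mul_pow, ← mul_assoc, ← mul_assoc, ← t1e, ← t3e, mul_right_comm, he]

/-- Sum the cocycle condition along the first loop. -/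
theorem Tab.Nrm.odd (hp : T.okP = true) {an : ℕ → ℕ} (hk : T.okK an = true) {C : ℕ → ℕ → Aff}
    {H A : Aff} (hn : T.Nrm H A (fun _ => 1) C) (ho : par2 H.k ≠ 0) :
    ¬ Geq T.le (OC T.le T.el) C (fun _ _ => 0) := by
  rintro ⟨g, hg⟩
  obtain ⟨hN, l01, l21, l23, l03, -⟩ := gf_k hk
  have key : ∀ x y, x < 7 → y < 7 → T.le x y → par2 (C x y).k = g x + 0 + g y :=
    fun x y hx hy hxy => (agree_OC (Tab.pon hp)).1 hg x (Tab.mem_el.2 (by omega)) y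
      (Tab.mem_el.2 (by omega)) hxy
  apply ho
  rw [← (gf_hol hk hn).1]
  simp only [holH, Aff.mul_k, Aff.inv_k, map_add, map_neg]
  rw [key 0 1 (by omega) (by omega) l01, key 2 1 (by omega) (by omega) l21,
    key 2 3 (by omega) (by omega) l23, key 0 3 (by omega) (by omega) l03]
  ring

/-- Sum the cocycle condition along the second loop. -/
theorem Tab.Nrm.nt (hp : T.okP = true) {an : ℕ → ℕ} (hk : T.okK an = true) {C : ℕ → ℕ → Aff}
    {H : Aff} {a : ZMod 8 → F25} (hn : T.Nrm H ⟨0, a⟩ (fun _ => 1) C) {i : ZMod 8}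
    (hi : a i ≠ 0) : ¬ Triv T.le (OC T.le T.el) C i := by
  rintro ⟨g, hg⟩
  obtain ⟨hN, -, -, -, -, l04, l54, l56, l06⟩ := gf_k hk
  have key : ∀ x y, x < 7 → y < 7 → T.le x y →
      (gau (fun x => (⟨0, fun _ => -g x⟩ : Aff)) C x y).y i = 0 := fun x y hx hy hxy => by
    have e := (agree_OC (Tab.pon hp)).1 hg x (Tab.mem_el.2 (by omega)) y
      (Tab.mem_el.2 (by omega)) hxy
    simp only [gau, Aff.mul_y, Aff.inv_y, Aff.mul_k, e, kj, neg_zero, mul_zero, pw_zero, zero_add]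
    ring
  have e := congrArg (fun x : Aff => x.y i) (Tab.hol_gau hk (c := C)
    (g := fun x => (⟨0, fun _ => -g x⟩ : Aff)) fun _ _ _ _ _ => rfl).2
  rw [(gf_hol hk hn).2] at e
  simp only [holA, Aff.mul_y, Aff.inv_y, Aff.mul_k, key 0 4 (by omega) (by omega) l04,
    key 5 4 (by omega) (by omega) l54, key 5 6 (by omega) (by omega) l56,
    key 0 6 (by omega) (by omega) l06, neg_zero, mul_zero, pw_zero, add_zero] at e
  apply hi
  linear_combination -e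

/-- Take the pullback of `X.std ⟨1, 0⟩ ⟨0, 1⟩`. -/
theorem Good.ex {Y X : Tab} {f : ℕ → ℕ} (h : Good Y J Fx) (hX : X.okP = true)
    (hf : X.okF = true) (hM : okM Y X f = true) {μ ν : R25} (h1 : okN Fx 1 1 p1 μ)
    (h3 : okN Fx 3 1 p3 ν)
    (e : (dE4 Fx 1 1 p1 * red μ * (pw zF (3 * 1) - 1)) ^ 8 =
      (dE4 Fx 3 1 p3 * red ν * (pw zF (1 * 1) - 1)) ^ 8) :
    EX Y.le (OC Y.le Y.el) (fun x y => X.om (f x) (f y)) := by
  obtain ⟨an, tw, hk, -⟩ := h.kc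
  have hg := gp_std 1 1
  have hC := (okM.mo hM h.p hX).flat (Tab.flat_std hX hf hg)
  have hn := okM.nrm hM h.p hX hg (c := X.std ⟨1, 0⟩ ⟨0, 1⟩) (g := fun _ => 1)
    fun y _ x _ => by rw [gau, one_mul, inv_one, mul_one]
  have ha : ∀ i, (1 : ZMod 8 → F25) i ≠ 0 := fun _ => one_ne_zero
  obtain ⟨b1, hb1⟩ := g_exists_bock (cx_OC (Tab.pon h.p)) hC 1
  obtain ⟨b3, hb3⟩ := g_exists_bock (cx_OC (Tab.pon h.p)) hC 3
  have t1e := h.tc_eval hC hn ha h1 hb1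
  have t3e := h.tc_eval hC hn ha h3 hb3
  simp only [Pi.one_apply, mul_one, Finset.prod_const_one, one_pow, one_mul] at t1e t3e e
  have z1 := pow_ne_zero 8 (sub_ne_zero.2 h1.2.1)
  have z3 := pow_ne_zero 8 (sub_ne_zero.2 h3.2.1)
  rw [mul_one] at z1 z3
  refine ⟨_, b1, b3, ⟨hC, hn.odd h.p hk (by rw [map_one]; exact one_ne_zero),
    fun i => hn.nt h.p hk (ha i), hb1, hb3⟩, ⟨fun _ => 0, fun x y _ _ => ?_⟩, ?_, ?_⟩
  · simp only [gf_par X (H := ⟨1, 0⟩) (A := ⟨0, 1⟩) rfl, map_one, one_mul, zero_add, add_zero]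
  · exact left_ne_zero_of_mul (t1e.trans_ne (pow_ne_zero 8 h1.2.2))
  · rw [mul_pow, mul_pow _ (pw zF 1 - 1), ← t1e, ← t3e, mul_right_comm] at e
    exact mul_right_cancel₀ z3 (mul_right_cancel₀ z1 e)

end Pool.Agent.Lib.MP_5ceaf9_gt.G
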