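import Pool.Agent.Lib.MP_5ceaf9_gt.GT

/-! The small model of a table. -/

noncomputable section

namespace Pool.Agent.Lib.MP_5ceaf9_gt.G

open Function

namespace Tab

variable {T : Tab} {Γ : Type} [Group Γ] {H A : Γ} {J Fx : ℕ → FS} {tm iv : ℕ → ℕ}
  {c : ℕ → ℕ → Γ} {g : ℕ → Γ}

theorem gj_c8 {x : ℕ} : x ∈ c8 ↔ x < 8 := Finset.mem_range

theorem gj_F (hF : okFx Fx = true) {x : ℕ} (hx : x < 8) {t : ℕ × ℤ × Wd} (ht : t ∈ Fx x) :
    t.1 < 8 := by
  simp only [okFx, allB_iff, Bool.and_eq_true, decide_eq_true_eq, List.all_eq_true] at hF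
  exact ((hF.2 x hx).2 t ht).1

theorem gj_J (hJ : T.okJ J Fx tm iv = true) : J 0 = [(0, 1, [])] ∧
    (∀ x < 8, eqF (bindF (J x) T.cl) (bindF (Fx x) J) = true ∧ ((J x).map fun t => t.1).Nodup ∧
      (∀ t ∈ J x, t.1 < T.N ∧ T.dm t.1 = dgF x ∧ t.2.1 * t.2.1 = 1 ∧
        (tm t.1 / 2 < tm (T.N + x) / 2 ∨ (tm (T.N + x) = tm t.1 + 1 ∧ tm t.1 % 2 = 0))) ∧
      (∀ t ∈ Fx x, tm (T.N + t.1) / 2 < tm (T.N + x) / 2) ∧ tm (T.N + x) % 2 = 1 ∧
      ∃ t ∈ J x, t.1 = iv (tm (T.N + x) - 1)) ∧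
    (∀ y < T.N, (∀ t ∈ T.cl y, t.2.1 = 0 ∨
        (tm t.1 / 2 < tm y / 2 ∨ (tm y = tm t.1 + 1 ∧ tm t.1 % 2 = 0))) ∧
      (tm y % 2 = 0 ∨ T.inc y (iv (tm y - 1)) * T.inc y (iv (tm y - 1)) = 1)) ∧
    (T.N + 8) % 2 = 0 ∧
    ∀ i < T.N + 8, tm i < T.N + 8 ∧ iv (tm i) = i ∧ iv i < T.N + 8 ∧ tm (iv i) = i := by
  simpa only [okJ, mtB, allB_iff, Bool.and_eq_true, Bool.or_eq_true, decide_eq_true_eq,
    List.all_eq_true, List.any_eq_true, beq_iff_eq, and_assoc] using hJ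

theorem gj_ne {X Y : Finset ℕ} {x : X} {y : Y} (e : (mF H A X Y J *
    Matrix.diagonal (fun x : Y => (MonoidAlgebra.single (g x.1) 1 : ZG Γ))) x y ≠ 0) :
    ∃ t ∈ J x.1, t.1 = y.1 := by
  rw [Matrix.mul_diagonal] at e
  obtain ⟨t, ht, e1, -⟩ := evF_ne (H := H) (A := A) (left_ne_zero_of_mul e)
  exact ⟨t, ht, e1⟩

theorem gj_le {x y : ℕ} (e : T.inc y x ≠ 0) : T.le x y :=
  by_contra fun e1 => e (by rw [inc, ent_not_le e1])

/-- The number of an index of the cone. -/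
def gjc (T : Tab) : ↥c8 ⊕ ↥T.el → ℕ := Sum.elim (fun x => T.N + x.1) fun y => y.1

theorem gjc_lt (x : ↥c8 ⊕ ↥T.el) : T.gjc x < T.N + 8 := by
  rcases x with x | x
  · exact Nat.add_lt_add_left (gj_c8.1 x.2) _
  · exact Nat.lt_add_right _ (mem_el.1 x.2)

theorem gjc_inj : Injective T.gjc := by
  rintro (x | x) (y | y) e
  · exact congrArg _ (Subtype.ext (Nat.add_left_cancel e))
  · exact absurd (mem_el.1 y.2) (Nat.not_lt.2 (Nat.le.intro e))
  · exact absurd (mem_el.1 x.2) (Nat.not_lt.2 (Nat.le.intro e.symm))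
  · exact congrArg _ (Subtype.ext e)

theorem gjc_surj {i : ℕ} (hi : i < T.N + 8) : ∃ x, T.gjc x = i := by
  by_cases e : i < T.N
  · exact ⟨Sum.inr ⟨i, mem_el.2 e⟩, rfl⟩
  · exact ⟨Sum.inl ⟨i - T.N, gj_c8.2 (by omega)⟩, Nat.add_sub_cancel' (Nat.not_lt.1 e)⟩

/-- The cell matrix of `c` is a gauge transform of the matrix of the table. -/
theorem Nrm.dc (hn : T.Nrm H A g c) (h : T.okP = true) :
    Matrix.diagonal (fun x : ↥T.el => (MonoidAlgebra.single (g x.1) 1 : ZG Γ)) *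
        rs T.el T.el (Dc T.inc (cop c)) =
      mF H A T.el T.el T.cl *
        Matrix.diagonal (fun x : ↥T.el => (MonoidAlgebra.single (g x.1) 1 : ZG Γ)) := by
  refine Matrix.ext fun x y => ?_
  have hx := mem_el.1 x.2
  rw [Matrix.diagonal_mul, Matrix.mul_diagonal]
  change _ * MonoidAlgebra.single (c y.1 x.1)⁻¹ (T.inc x.1 y.1) = evF H A (T.cl x.1) y.1 * _
  rw [evF_cl h H A hx, MonoidAlgebra.single_mul_single, MonoidAlgebra.single_mul_single, one_mul,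
    mul_one]
  by_cases e : T.le y.1 x.1
  · have e1 : g y.1 * c y.1 x.1 * (g x.1)⁻¹ = (ew H A (T.wd x.1 y.1))⁻¹ := hn x.1 hx y.1 e
    rw [← inv_inv (ew H A (T.wd x.1 y.1)), ← e1]
    congr 1
    group
  · rw [inc, ent_not_le e, MonoidAlgebra.single_zero, MonoidAlgebra.single_zero]

theorem cm_J (h : T.okP = true) (hq : T.okQ = true) (hF : okFx Fx = true)
    (hJ : T.okJ J Fx tm iv = true) (hg : Gp H A) (hf : Flat T.le (OC T.le T.el) c)
    (hn : T.Nrm H A g c) :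
    CM (fun x : ↥c8 => pc dgF x.1) (fun x : ↥T.el => pc T.dm x.1) (mF H A c8 c8 Fx)
      (rs T.el T.el (Dc T.inc (cop c)))
      (mF H A c8 T.el J *
        Matrix.diagonal (fun x : ↥T.el => (MonoidAlgebra.single (g x.1) 1 : ZG Γ))) := by
  obtain ⟨-, h1, -⟩ := gj_J hJ
  refine ⟨dm_fox hg hF, (cm_EV (cocell h hq) hf).dm', fun x y e => ?_, ?_⟩
  · obtain ⟨t, ht, e1⟩ := gj_ne e
    have e2 := ((h1 x.1 (gj_c8.1 x.2)).2.2.1 t ht).2.1
    simp only [pc, ← e2, e1]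
  · rw [Matrix.mul_assoc, hn.dc h, ← Matrix.mul_assoc, ← Matrix.mul_assoc,
      mF_mul fun x hx t ht => gj_c8.2 (gj_F hF (gj_c8.1 hx) ht),
      mF_mul fun x hx t ht => mem_el.2 ((h1 x (gj_c8.1 hx)).2.2.1 t ht).1,
      hg.mF_congr fun x hx => (h1 x (gj_c8.1 hx)).1]

/-- `gd_match` with the time `Sum.elim (fun x => tm (T.N + x)) (fun y => tm y)`. -/
theorem gd_J (h : T.okP = true) (hq : T.okQ = true) (hF : okFx Fx = true)
    (hJ : T.okJ J Fx tm iv = true) (hg : Gp H A) (hf : Flat T.le (OC T.le T.el) c)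
    (hn : T.Nrm H A g c) :
    Gd 2 (PhiG Γ F25) (cpar (fun x : ↥c8 => pc dgF x.1) (fun x : ↥T.el => pc T.dm x.1))
      (cone (mF H A c8 c8 Fx) (rs T.el T.el (Dc T.inc (cop c)))
        (mF H A c8 T.el J *
          Matrix.diagonal (fun x : ↥T.el => (MonoidAlgebra.single (g x.1) 1 : ZG Γ)))) := by
  obtain ⟨-, h1, h2, h3, h4⟩ := gj_J hJ
  have key (x y : ↥c8 ⊕ ↥T.el) (e : tm (T.gjc x) = tm (T.gjc y) + 1) :
      iv (tm (T.gjc x) - 1) = T.gjc y := by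
    rw [e, Nat.add_sub_cancel, (h4 _ (gjc_lt y)).2.1]
  refine gd_match (cm_J h hq hF hJ hg hf hn).cone (fun x => tm (T.gjc x)) (fun x y e => ?_)
    (fun x => ?_) (fun x y e => ?_) (fun x y e e' => ?_)
  · refine gjc_inj ?_
    rw [← (h4 _ (gjc_lt x)).2.1, ← (h4 _ (gjc_lt y)).2.1]
    exact congrArg iv e
  · have e := (h4 _ (gjc_lt x)).1
    by_cases e1 : tm (T.gjc x) % 2 = 0
    · have e2 := h4 (tm (T.gjc x) + 1) (by omega)
      obtain ⟨y, hy⟩ := gjc_surj e2.2.2.1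
      exact ⟨y, Or.inl ⟨by rw [hy, e2.2.2.2], e1⟩⟩
    · have e2 := h4 (tm (T.gjc x) - 1) (by omega)
      obtain ⟨y, hy⟩ := gjc_surj e2.2.2.1
      refine ⟨y, Or.inr ?_⟩
      rw [hy, e2.2.2.2]
      omega
  · rcases x with x | x <;> rcases y with y | y
    · obtain ⟨t, ht, e1, -⟩ := evF_ne (H := H) (A := A) e
      have e2 := (h1 x.1 (gj_c8.1 x.2)).2.2.2.1 t ht
      rw [e1] at e2
      exact Or.inl e2
    · obtain ⟨t, ht, e1⟩ := gj_ne (H := H) (A := A) (J := J) (g := g) (x := x) (y := y) e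
      have e2 := ((h1 x.1 (gj_c8.1 x.2)).2.2.1 t ht).2.2.2
      rw [e1] at e2
      exact e2
    · exact absurd rfl e
    · have e1 : T.inc x.1 y.1 ≠ 0 := fun e1 => e (by
        change -MonoidAlgebra.single _ (T.inc x.1 y.1) = 0
        rw [e1, MonoidAlgebra.single_zero, neg_zero])
      obtain ⟨t, ht, e2⟩ := le_iff.1 (gj_le e1)
      have e3 := (h2 x.1 (mem_el.1 x.2)).1 t ht
      rw [← ent_mem h (mem_el.1 x.2) ht, e2] at e3
      exact e3.resolve_left e1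
  · have e1 := key x y e
    rcases x with x | x
    · obtain ⟨-, n1, n2, -, -, t, ht, e2⟩ := h1 x.1 (gj_c8.1 x.2)
      have e3 : t.1 = T.gjc y := e2.trans e1
      rcases y with y | y
      · exact absurd (e3 ▸ (n2 t ht).1) (Nat.not_lt.2 (Nat.le_add_right _ _))
      · refine ⟨ew H A t.2.2 * g y.1, t.2.1, (n2 t ht).2.2.1, ?_⟩
        refine (Matrix.mul_diagonal _ _ x y).trans ?_
        change evF H A (J x.1) (T.gjc (Sum.inr y)) * _ = _
        rw [← e3, evF_nodup n1 ht, MonoidAlgebra.single_mul_single, mul_one]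
    · have e2 : T.inc x.1 (T.gjc y) * T.inc x.1 (T.gjc y) = 1 := by
        rw [← e1]
        refine (h2 x.1 (mem_el.1 x.2)).2.resolve_left ?_
        change ¬ tm (T.gjc (Sum.inr x)) % 2 = 0
        omega
      rcases y with y | y
      · exact absurd (lt_of_le h (mem_el.1 x.2) (gj_le (left_ne_zero_of_mul_eq_one e2)))
          (Nat.not_lt.2 (Nat.le_add_right _ _))
      · exact ⟨cop c x.1 y.1, -T.inc x.1 y.1, (neg_mul_neg _ _).trans e2,
          (MonoidAlgebra.single_neg _ _).symm⟩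

/-- `cm_EV`, `gd_EV`, `gd_cone_comp`, `sd_ne`. -/
theorem model (h : T.okP = true) (hq : T.okQ = true) {an : ℕ → ℕ} (hk : T.okK an = true)
    (hF : okFx Fx = true) (hJ : T.okJ J Fx tm iv = true) (hg : Gp H A)
    (hf : Flat T.le (OC T.le T.el) c) (hn : T.Nrm H A g c) :
    Model T.le (OC T.le T.el) c (mF H A c8 c8 Fx) (T.bigI J H A g c) 0 (g 0) := by
  obtain ⟨h0, h1, -⟩ := gj_J hJ
  have hc := cocell h hq
  have k : 7 ≤ T.N ∧ T.dm 0 = 0 := by
    simp only [okK, Bool.and_eq_true, decide_eq_true_eq, and_assoc] at hk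
    exact ⟨hk.1, hk.2.1⟩
  have z : 0 ∈ T.el := mem_el.2 (by omega)
  have m : ({0} : Finset ℕ) ∈ OC T.le T.el :=
    mem_OC.2 ⟨Finset.singleton_subset_iff.2 z, Finset.singleton_nonempty _, fun a ha b hb => by
      rw [Finset.mem_singleton.1 ha, Finset.mem_singleton.1 hb]
      exact Or.inl ((pon h).refl 0 z)⟩
  refine ⟨(cm_J h hq hF hJ hg hf hn).comp (cm_EV hc hf), gd_cone_comp (cm_J h hq hF hJ hg hf hn)
    (cm_EV hc hf) (gd_J h hq hF hJ hg hf hn) (gd_EV hc hf), fun x σ e => ?_, m, fun x σ e => ?_⟩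
  · rw [bigI, Matrix.mul_apply] at e
    obtain ⟨y, -, e1⟩ := Finset.exists_ne_zero_of_sum_ne_zero e
    obtain ⟨t, ht, e2⟩ := gj_ne (left_ne_zero_of_mul e1)
    have e3 : sd T.dm T.inc y.1 σ.1 ≠ 0 := fun e3 => right_ne_zero_of_mul e1 (by
      change MonoidAlgebra.single _ (_ * sd T.dm T.inc y.1 σ.1) = 0
      rw [e3, mul_zero, MonoidAlgebra.single_zero])
    rw [(sd_ne hc y.2 (mem_OC.1 σ.2).1 e3).2.2.2, ← e2, ((h1 x.1 (gj_c8.1 x.2)).2.2.1 t ht).2.1]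
  · rw [bigI, Matrix.mul_apply, Finset.sum_eq_single ⟨0, z⟩ (fun y _ hy => ?_)
      fun e1 => absurd (Finset.mem_univ _) e1]
    · rw [Matrix.mul_diagonal]
      change evF H A (J x.1) 0 * MonoidAlgebra.single (g 0) 1 *
        MonoidAlgebra.single (c (bt T.le σ.1) 0)⁻¹ (eps σ.1 * sd T.dm T.inc 0 σ.1) = _
      rw [e, h0, sxl_zero k.2]
      split_ifs with e1
      · rw [e1, bt_eq ((pon h).mono (Finset.singleton_subset_iff.2 z)) (Finset.mem_singleton_self 0)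
          fun u hu => Finset.mem_singleton.1 hu ▸ (pon h).refl 0 z, hf.refl (cx_OC (pon h)) m]
        simp [evF, ew, eps, MonoidAlgebra.single_mul_single]
      · rw [mul_zero, MonoidAlgebra.single_zero, mul_zero]
    · refine mul_eq_zero_of_left (by_contra fun e1 => hy ?_) _
      obtain ⟨t, ht, e2⟩ := gj_ne e1
      rw [e, h0, List.mem_singleton] at ht
      exact Subtype.ext (by rw [← e2, ht])

end Tab

end Pool.Agent.Lib.MP_5ceaf9_gt.G
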