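import Pool.Agent.Lib.MP_5ceaf9_gt.GT

/-! Naturality of the subdivision under a map of tables. -/

noncomputable section

namespace Pool.Agent.Lib.MP_5ceaf9_gt.G

open Function

variable {Y X : Tab} {f : ℕ → ℕ}

theorem gn_row (hM : okM Y X f = true) {y : ℕ} (hy : y < Y.N) :
    f y < X.N ∧ Y.dm y = X.dm (f y) ∧ ((Y.cl y).map fun t => (f t.1, t.2.1, nf true t.2.2)) =
      ((X.cl (f y)).map fun t => (t.1, t.2.1, nf true t.2.2)) ∧
      ∀ u v, Y.le u y → Y.le v y → X.le (f u) (f v) → Y.le u v := by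
  simp only [okM, allB_iff, Bool.and_eq_true, decide_eq_true_eq, List.all_eq_true,
    Bool.or_eq_true, Bool.not_eq_true'] at hM
  obtain ⟨⟨⟨h1, h2⟩, h3⟩, h4⟩ := hM.2 y hy
  refine ⟨h1, h2, h3, fun u v hu hv e => ?_⟩
  obtain ⟨s, hs, rfl⟩ := Tab.le_iff.1 hu
  obtain ⟨t, ht, rfl⟩ := Tab.le_iff.1 hv
  exact (h4 s hs t ht).resolve_left fun e' => Bool.false_ne_true (e'.symm.trans e)

theorem gn_mem (hM : okM Y X f = true) {y : ℕ} (hy : y < Y.N) {t : ℕ × ℤ × Wd} (ht : t ∈ Y.cl y) :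
    ∃ s ∈ X.cl (f y), s.1 = f t.1 ∧ s.2.1 = t.2.1 ∧ nf true s.2.2 = nf true t.2.2 := by
  have h := List.mem_map_of_mem (f := fun t => (f t.1, t.2.1, nf true t.2.2)) ht
  rw [(gn_row hM hy).2.2.1] at h
  simpa only [List.mem_map, Prod.mk.injEq] using h

theorem gn_le (hM : okM Y X f = true) {x y : ℕ} (hy : y < Y.N) (e : Y.le x y) :
    X.le (f x) (f y) := by
  obtain ⟨t, ht, rfl⟩ := Tab.le_iff.1 e
  obtain ⟨s, hs, h, -⟩ := gn_mem hM hy ht
  exact Tab.le_iff.2 ⟨s, hs, h⟩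

theorem gn_ent (hM : okM Y X f = true) (hY : Y.okP = true) (hX : X.okP = true) {x y : ℕ}
    (hy : y < Y.N) (e : Y.le x y) :
    X.inc (f y) (f x) = Y.inc y x ∧ nf true (X.wd (f y) (f x)) = nf true (Y.wd y x) := by
  obtain ⟨t, ht, rfl⟩ := Tab.le_iff.1 e
  obtain ⟨s, hs, h, h'⟩ := gn_mem hM hy ht
  rw [Tab.inc, Tab.inc, Tab.wd, Tab.wd, ← h, Tab.ent_mem hX (gn_row hM hy).1 hs,
    Tab.ent_mem hY hy ht]
  exact h'

theorem okM.mo (hM : okM Y X f = true) (hY : Y.okP = true) (hX : X.okP = true) :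
    Mo Y.le X.le Y.el X.el f := by
  exact ⟨Tab.pon hY, Tab.pon hX, fun a ha => Tab.mem_el.2 (gn_row hM (Tab.mem_el.1 ha)).1,
    fun a _ b hb e => gn_le hM (Tab.mem_el.1 hb) e⟩

theorem okM.fix (hM : okM Y X f = true) {x : ℕ} (hx : x < 7) : f x = x := by
  simp only [okM, Bool.and_eq_true, decide_eq_true_eq, List.cons.injEq] at hM
  obtain ⟨⟨h0, h1, h2, h3, h4, h5, h6, -⟩, -⟩ := hM
  interval_cases x <;> assumption

theorem okM.inj (hM : okM Y X f = true) (hX : X.okP = true) {t u v : ℕ} (ht : t < Y.N)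
    (hu : Y.le u t) (hv : Y.le v t) (e : f u = f v) : u = v := by
  obtain ⟨a, ha, rfl⟩ := Tab.le_iff.1 hu
  obtain ⟨b, hb, rfl⟩ := Tab.le_iff.1 hv
  obtain ⟨h1, -, h2, -⟩ := gn_row hM ht
  have h3 := congrArg (List.map Prod.fst) h2
  rw [List.map_map, List.map_map] at h3
  have h4 : ((Y.cl t).map fun s => f s.1).Nodup := (show _ = _ from h3) ▸ Tab.nodup hX h1
  rw [List.inj_on_of_nodup_map h4 ha hb e]

theorem okM.surj (hM : okM Y X f = true) {t x : ℕ} (ht : t < Y.N) (hx : X.le x (f t)) :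
    ∃ u, Y.le u t ∧ f u = x := by
  obtain ⟨s, hs, rfl⟩ := Tab.le_iff.1 hx
  have h := List.mem_map_of_mem (f := fun t => (t.1, t.2.1, nf true t.2.2)) hs
  rw [← (gn_row hM ht).2.2.1, List.mem_map] at h
  obtain ⟨u, hu, e⟩ := h
  exact ⟨u.1, Tab.le_iff.2 ⟨u, hu, rfl⟩, congrArg Prod.fst e⟩

theorem okM.le_iff (hM : okM Y X f = true) (hY : Y.okP = true) (hX : X.okP = true) {t u v : ℕ}
    (ht : t < Y.N) (hu : Y.le u t) (hv : Y.le v t) : X.le (f u) (f v) ↔ Y.le u v := by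
  have _ := hX
  exact ⟨(gn_row hM ht).2.2.2 u v hu hv, gn_le hM (Tab.lt_of_le hY ht hv)⟩

theorem okM.inc (hM : okM Y X f = true) (hY : Y.okP = true) (hX : X.okP = true) {t u v : ℕ}
    (ht : t < Y.N) (hu : Y.le u t) (hv : Y.le v t) : X.inc (f u) (f v) = Y.inc u v := by
  by_cases e : Y.le v u
  · exact (gn_ent hM hY hX (Tab.lt_of_le hY ht hu) e).1
  · rw [Tab.inc, Tab.inc, Tab.ent_not_le e,
      Tab.ent_not_le fun e' => e ((okM.le_iff hM hY hX ht hv hu).1 e')]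

theorem okM.std (hM : okM Y X f = true) (hY : Y.okP = true) (hX : X.okP = true) {Γ : Type}
    [Group Γ] {H A : Γ} (hg : Gp H A) {x y : ℕ} (hy : y < Y.N) (e : Y.le x y) :
    X.std H A (f x) (f y) = Y.std H A x y := by
  rw [Tab.std, Tab.std, ← hg.ew_nf, (gn_ent hM hY hX hy e).2, hg.ew_nf]

theorem okM.nrm (hM : okM Y X f = true) (hY : Y.okP = true) (hX : X.okP = true) {Γ : Type}
    [Group Γ] {H A : Γ} (hg : Gp H A) {c : ℕ → ℕ → Γ} {g : ℕ → Γ} (hn : X.Nrm H A g c) :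
    Y.Nrm H A (fun x => g (f x)) (fun a b => c (f a) (f b)) := by
  exact fun y hy x e => (hn _ (gn_row hM hy).1 _ (gn_le hM hy e)).trans (okM.std hM hY hX hg hy e)

theorem gn_img (hM : okM Y X f = true) (hX : X.okP = true) {t : ℕ} (ht : t < Y.N)
    {σ ρ : Finset ℕ} (hσ : ∀ u ∈ σ, Y.le u t) (hρ : ∀ u ∈ ρ, Y.le u t)
    (e : σ.image f = ρ.image f) : σ = ρ := by
  have key : ∀ {σ ρ : Finset ℕ}, (∀ u ∈ σ, Y.le u t) → (∀ u ∈ ρ, Y.le u t) →
      σ.image f = ρ.image f → σ ⊆ ρ := fun h h' e u hu => by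
    obtain ⟨v, hv, e'⟩ := Finset.mem_image.1 (e ▸ Finset.mem_image_of_mem f hu)
    rwa [← okM.inj hM hX ht (h' v hv) (h u hu) e']
  exact (key hσ hρ e).antisymm (key hρ hσ e.symm)

/-- Induction on `n`, for all `e` and `σ` inside the closed cell `t`. -/
theorem okM.sdN (hM : okM Y X f = true) (hY : Y.okP = true) (hX : X.okP = true) {t : ℕ}
    (ht : t < Y.N) (n : ℕ) (e : ℕ) (σ : Finset ℕ) (he : Y.le e t) (hσ : ∀ u ∈ σ, Y.le u t) :
    Pool.Agent.Lib.MP_5ceaf9_gt.sdN X.inc n (f e) (σ.image f) =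
      Pool.Agent.Lib.MP_5ceaf9_gt.sdN Y.inc n e σ := by
  induction n generalizing e σ with
  | zero =>
    refine if_congr ⟨fun h => gn_img hM hX ht hσ (fun u hu => ?_) ?_, fun h => ?_⟩ rfl rfl
    · rwa [Finset.mem_singleton.1 hu]
    · rwa [Finset.image_singleton]
    · rw [h, Finset.image_singleton]
  | succ n ih =>
    have h1 : ∀ u ∈ σ.erase e, Y.le u t := fun u hu => hσ u (Finset.mem_of_mem_erase hu)
    have h2 : (σ.image f).erase (f e) = (σ.erase e).image f := by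
      ext x
      simp only [Finset.mem_erase, Finset.mem_image]
      refine ⟨?_, ?_⟩
      · rintro ⟨h, u, hu, rfl⟩
        exact ⟨u, ⟨fun e' => h (e' ▸ rfl), hu⟩, rfl⟩
      · rintro ⟨u, ⟨h, hu⟩, rfl⟩
        exact ⟨fun e' => h (okM.inj hM hX ht (hσ u hu) he e'), u, hu, rfl⟩
    refine if_congr ⟨fun h => ?_, Finset.mem_image_of_mem f⟩ ?_ rfl
    · obtain ⟨u, hu, e'⟩ := Finset.mem_image.1 h
      rwa [← okM.inj hM hX ht (hσ u hu) he e']
    · rw [h2, Finset.sum_image fun u hu v hv => okM.inj hM hX ht (h1 u hu) (h1 v hv)]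
      exact Finset.sum_congr rfl fun u hu => by
        rw [okM.inc hM hY hX ht he (h1 u hu), ih u _ (h1 u hu) h1]

/-- Only chains inside the closed cell `t` contribute (`sd_ne` for the opposite order); on them
`f` is an order isomorphism onto the chains of the closed cell `f t`. -/
theorem okM.ev (hM : okM Y X f = true) (hY : Y.okP = true) (hX : X.okP = true)
    (qY : Y.okQ = true) (qX : X.okQ = true) {Γ : Type} [Group Γ] (c : ℕ → ℕ → Γ) :
    rs Y.el (OC Y.le Y.el) (EV Y.le Y.dm Y.inc (fun a b => c (f a) (f b))) *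
        rs (OC Y.le Y.el) (OC X.le X.el) (PB (ZG Γ) f) =
      rs Y.el X.el (fun y x => if f y = x then (1 : ZG Γ) else 0) *
        rs X.el (OC X.le X.el) (EV X.le X.dm X.inc c) := by
  refine Matrix.ext fun y τ => ?_
  have hy := Tab.mem_el.1 y.2
  obtain ⟨a1, a2, -, a3⟩ := gn_row hM hy
  obtain ⟨b1, b2, b3⟩ := mem_OC.1 τ.2
  have pY := Tab.pon hY
  have pX := Tab.pon hX
  have ne : ∀ σ : ↥(OC Y.le Y.el), EV Y.le Y.dm Y.inc (fun a b => c (f a) (f b)) y σ ≠ 0 →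
      ∀ u ∈ σ.1, Y.le u y := fun σ h => (sd_ne (Tab.cocell hY qY) y.2 (mem_OC.1 σ.2).1 fun e =>
        h (by rw [EV, e, mul_zero, MonoidAlgebra.single_zero])).2.1
  simp only [Matrix.mul_apply, rs, Matrix.of_apply]
  rw [Finset.sum_eq_single (⟨f y, Tab.mem_el.2 a1⟩ : ↥X.el)
    (fun x _ hx => by rw [if_neg fun e => hx (Subtype.ext e.symm), zero_mul])
    (fun h => absurd (Finset.mem_univ _) h), if_pos rfl, one_mul]
  by_cases hτ : ∀ x ∈ τ.1, X.le x (f y)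
  · obtain ⟨σ, c1, c2, c3⟩ : ∃ σ : Finset ℕ, σ ⊆ Y.el ∧ (∀ u ∈ σ, Y.le u y) ∧ σ.image f = τ.1 := by
      refine ⟨Y.el.filter fun u => Y.leb u y = true ∧ f u ∈ τ.1, Finset.filter_subset _ _,
        fun u hu => (Finset.mem_filter.1 hu).2.1, (Finset.image_subset_iff.2 fun u hu =>
          (Finset.mem_filter.1 hu).2.2).antisymm fun x hx => ?_⟩
      obtain ⟨u, hu, rfl⟩ := okM.surj hM hy (hτ x hx)
      exact Finset.mem_image_of_mem f (Finset.mem_filter.2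
        ⟨Tab.mem_el.2 (Tab.lt_of_le hY hy hu), hu, hx⟩)
    have c4 : ∀ u ∈ σ, f u ∈ τ.1 := fun u hu => c3 ▸ Finset.mem_image_of_mem f hu
    have c5 : σ.Nonempty := Finset.image_nonempty.1 (c3 ▸ b2 : (σ.image f).Nonempty)
    have c6 : Tot Y.le σ := fun u hu v hv => (b3 _ (c4 u hu) _ (c4 v hv)).imp
      (a3 u v (c2 u hu) (c2 v hv)) (a3 v u (c2 v hv) (c2 u hu))
    have c7 : σ.card = τ.1.card := by
      rw [← c3, Finset.card_image_of_injOn fun u hu v hv => okM.inj hM hX hy (c2 u hu) (c2 v hv)]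
    obtain ⟨d1, d2⟩ := bt_spec (pY.mono c1) c6 c5
    have d3 : bt X.le τ.1 = f (bt Y.le σ) := bt_eq (pX.mono b1) (c4 _ d1) fun x hx => by
      obtain ⟨u, hu, rfl⟩ := Finset.mem_image.1 (c3 ▸ hx : x ∈ σ.image f)
      exact gn_le hM (Tab.mem_el.1 (c1 hu)) (d2 u hu)
    rw [Finset.sum_eq_single (⟨σ, mem_OC.2 ⟨c1, c5, c6⟩⟩ : ↥(OC Y.le Y.el)) (fun ρ _ hρ => ?_)
      fun h => absurd (Finset.mem_univ _) h]
    · rw [PB, if_pos ⟨c3, c7⟩, mul_one, EV, EV, d3, eps, eps, c7, sd, sd, ← a2, ← c3,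
        okM.sdN hM hY hX hy _ _ _ (pY.refl _ y.2) c2]
    · by_contra h
      refine right_ne_zero_of_mul h (if_neg fun e => hρ (Subtype.ext ?_))
      exact gn_img hM hX hy (ne ρ (left_ne_zero_of_mul h)) c2 (e.1.trans c3.symm)
  · rw [EV, show sd X.dm X.inc (f y) τ = 0 from by_contra fun e =>
      hτ (sd_ne (Tab.cocell hX qX) (Tab.mem_el.2 a1) b1 e).2.1, mul_zero, MonoidAlgebra.single_zero]
    refine Finset.sum_eq_zero fun ρ _ => by_contra fun h => ?_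
    refine right_ne_zero_of_mul h (if_neg fun e => hτ fun x hx => ?_)
    obtain ⟨u, hu, rfl⟩ := Finset.mem_image.1 (e.1 ▸ hx : x ∈ ρ.1.image f)
    exact gn_le hM hy (ne ρ (left_ne_zero_of_mul h) u hu)

end Pool.Agent.Lib.MP_5ceaf9_gt.G
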