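import Pool.Agent.Lib.MP_5ceaf9_gt.GF
import Pool.Agent.Lib.MP_5ceaf9_gt.GChkX
import Pool.Agent.Lib.MP_5ceaf9_gt.GChkY

/-! The two tables are good, and the numbers attached to them. -/

namespace Pool.Agent.Lib.MP_5ceaf9_gt.G

theorem x_tri : nf false (tabX.tri 0 1 39) = cw0 1 ∧ nf false (tabX.tri 0 1 88) = cw0 2 ∧
    nf false (tabX.tri 0 1 153) = cw0 3 ∧ nf false (tabX.tri 0 1 266) = (false, 8) :: cw0 4 ∧
    nf false (tabX.tri 0 6 287) = [(true, 5)] := by decide +kernel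

theorem y_tri : nf false (tabY.tri 0 1 39) = cw0 1 ∧ nf false (tabY.tri 0 1 88) = cw0 2 ∧
    nf false (tabY.tri 0 1 153) = cw0 3 ∧ nf false (tabY.tri 0 1 266) = (false, 8) :: cw0 4 ∧
    nf false (tabY.tri 0 1 491) = wY := by decide +kernel

theorem x_leb : tabX.N = 294 ∧ tabX.leb 0 1 = true ∧ tabX.leb 0 6 = true ∧ tabX.leb 1 39 = true ∧
    tabX.leb 1 88 = true ∧ tabX.leb 1 153 = true ∧ tabX.leb 1 266 = true ∧
    tabX.leb 6 287 = true := by decide +kernel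

theorem y_leb : tabY.N = 492 ∧ tabY.leb 0 1 = true ∧ tabY.leb 1 39 = true ∧
    tabY.leb 1 88 = true ∧ tabY.leb 1 153 = true ∧ tabY.leb 1 266 = true ∧
    tabY.leb 1 491 = true := by decide +kernel

theorem goodX : Good tabX JX FxX where
  p := x_okP
  q := x_okQ
  kc := ⟨anX, twX, x_okK, x_okC⟩
  fx := x_okFx
  j := ⟨tmX, ivX, x_okJ⟩
  gp := by
    intro Γ _ H A g c hf hn
    obtain ⟨e, l1, l6, a1, a2, a3, a4, a5⟩ := x_leb
    obtain ⟨t1, t2, t3, t4, t5⟩ := x_tri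
    refine gp_of_X (rel4_of_words ?_ ?_ ?_ ?_) ?_
    · rw [← t1]; exact hn.tri x_okP hf (by rw [e]; norm_num) l1 a1
    · rw [← t2]; exact hn.tri x_okP hf (by rw [e]; norm_num) l1 a2
    · rw [← t3]; exact hn.tri x_okP hf (by rw [e]; norm_num) l1 a3
    · rw [← t4]; exact hn.tri x_okP hf (by rw [e]; norm_num) l1 a4
    · rw [← t5]; exact hn.tri x_okP hf (by rw [e]; norm_num) l6 a5

theorem goodY : Good tabY JY FxY where
  p := y_okP
  q := y_okQ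
  kc := ⟨anY, twY, y_okK, y_okC⟩
  fx := y_okFx
  j := ⟨tmY, ivY, y_okJ⟩
  gp := by
    intro Γ _ H A g c hf hn
    obtain ⟨e, l1, a1, a2, a3, a4, a5⟩ := y_leb
    obtain ⟨t1, t2, t3, t4, t5⟩ := y_tri
    refine gp_of_Y (rel4_of_words ?_ ?_ ?_ ?_) ?_
    · rw [← t1]; exact hn.tri y_okP hf (by rw [e]; norm_num) l1 a1
    · rw [← t2]; exact hn.tri y_okP hf (by rw [e]; norm_num) l1 a2
    · rw [← t3]; exact hn.tri y_okP hf (by rw [e]; norm_num) l1 a3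
    · rw [← t4]; exact hn.tri y_okP hf (by rw [e]; norm_num) l1 a4
    · rw [← t5]; exact hn.tri y_okP hf (by rw [e]; norm_num) l1 a5

instance decOkN (Fx : ℕ → FS) (j m : ZMod 8) (p : Fin 4 → ZMod 8) (μ : R25) :
    Decidable (okN Fx j m p μ) := by
  unfold okN
  infer_instance

theorem x_num : ∀ m : ZMod 8, par2 m ≠ 0 → okN FxX 1 m p1 1 ∧ okN FxX 3 m p3 1 ∧
    (dE4 FxX 1 m p1 * (pw zF (3 * m) - 1)) ^ 8 ≠ (dE4 FxX 3 m p3 * (pw zF (1 * m) - 1)) ^ 8 := by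
  decide +kernel

/-- The value of the unit `v` at a root of unity. -/
def vR (z : R25) : R25 := 2 - z - z ^ 7 + z ^ 3 - z ^ 4 + z ^ 5

theorem y_num : okN FxY 1 1 p1 (vR zR) ∧ okN FxY 3 1 p3 (vR (zR ^ 3)) ∧
    (dE4 FxY 1 1 p1 * red (vR zR) * (pw zF (3 * 1) - 1)) ^ 8 =
      (dE4 FxY 3 1 p3 * red (vR (zR ^ 3)) * (pw zF (1 * 1) - 1)) ^ 8 := by
  decide +kernel

theorem gdata : GData tabY.le tabX.le tabY.el tabX.el tabY.dm tabX.dm fYX tabX.om where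
  rkY := Tab.rk y_okP
  rkX := Tab.rk x_okP
  me := me_tab goodY goodX x_okF y_okM y_okU
  flat := Tab.flat_om x_okP x_okF
  conn := Tab.conn x_okP x_okK
  tv := goodX.tv x_num
  ex := goodY.ex x_okP x_okF y_okM y_num.1 y_num.2.1 y_num.2.2

end Pool.Agent.Lib.MP_5ceaf9_gt.G
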