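import Pool.Agent.Lib.MP_5ceaf9_gt.GC
import Pool.Agent.Lib.MP_5ceaf9_gt.GJ
import Pool.Agent.Lib.MP_5ceaf9_gt.GN

/-! The map of tables is an equivalence of level one. -/

noncomputable section

namespace Pool.Agent.Lib.MP_5ceaf9_gt.G

open Function

variable {Y X : Tab} {f : ℕ → ℕ} {JY JX FY FX M M' : ℕ → FS}

/-- `okM.ev`, the diagonal gauge commutes with the matrix of `f`, `sum_evF_map`, `okU`. -/
theorem bigI_nat (hM : okM Y X f = true) (hY : Y.okP = true) (hX : X.okP = true)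
    (qY : Y.okQ = true) (qX : X.okQ = true) (hU : okU f JY JX FY FX M M' = true)
    (hJ : ∀ x < 8, ∀ t ∈ JY x, t.1 < Y.N) {Γ : Type} [Group Γ] {H A : Γ} (hg : Gp H A)
    (g : ℕ → Γ) (c : ℕ → ℕ → Γ) :
    Y.bigI JY H A (fun x => g (f x)) (fun a b => c (f a) (f b)) *
        rs (OC Y.le Y.el) (OC X.le X.el) (PB (ZG Γ) f) =
      mF H A c8 c8 M * X.bigI JX H A g c := by
  simp only [okU, allB_iff, Bool.and_eq_true, List.all_eq_true, beq_iff_eq] at hU
  have h8 : ∀ {x : ℕ}, x ∈ c8 → x < 8 := fun hx => Finset.mem_range.1 hx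
  have e1 : Matrix.diagonal (fun x : ↥Y.el => (MonoidAlgebra.single (g (f x.1)) 1 : ZG Γ)) *
      rs Y.el X.el (fun y x => if f y = x then (1 : ZG Γ) else 0) =
      rs Y.el X.el (fun y x => if f y = x then (1 : ZG Γ) else 0) *
        Matrix.diagonal (fun x : ↥X.el => (MonoidAlgebra.single (g x.1) 1 : ZG Γ)) := by
    refine Matrix.ext fun u v => ?_
    rw [Matrix.diagonal_mul, Matrix.mul_diagonal]
    simp only [rs, Matrix.of_apply]
    split_ifs with h
    · rw [h, mul_one, one_mul]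
    · rw [mul_zero, zero_mul]
  have e2 : mF H A c8 Y.el JY * rs Y.el X.el (fun y x => if f y = x then (1 : ZG Γ) else 0) =
      mF H A c8 c8 M * mF H A c8 X.el JX := by
    rw [mF_mul fun x hx t ht => ((hU x (h8 hx)).1.1.1.1.1 t ht).symm ▸ hx,
      ← hg.mF_congr (U := fun x => (JY x).map fun t => (f t.1, t.2)) fun x hx => (hU x (h8 hx)).2]
    refine Matrix.ext fun u v => ?_
    simp only [Matrix.mul_apply, mF, rs, Matrix.of_apply]
    rw [← sum_evF_map (X := Y.el) fun t ht => Tab.mem_el.2 (hJ u.1 (h8 u.2) t ht)]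
    exact Finset.sum_coe_sort Y.el fun y => evF H A (JY u.1) y * if f y = v.1 then 1 else 0
  rw [Tab.bigI, Tab.bigI, Matrix.mul_assoc, okM.ev hM hY hX qY qX c, ← Matrix.mul_assoc,
    Matrix.mul_assoc (mF H A c8 Y.el JY), e1, ← Matrix.mul_assoc, e2]
  simp only [Matrix.mul_assoc]

/-- All the checks for one table, and the relations of the group that follow from them. -/
structure Good (T : Tab) (J Fx : ℕ → FS) : Prop where
  p : T.okP = true
  q : T.okQ = true
  kc : ∃ an tw, T.okK an = true ∧ T.okC an tw = true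
  fx : okFx Fx = true
  j : ∃ tm iv, T.okJ J Fx tm iv = true
  gp : ∀ (Γ : Type) [Group Γ] (H A : Γ) (g : ℕ → Γ) (c : ℕ → ℕ → Γ),
    Flat T.le (OC T.le T.el) c → T.Nrm H A g c → Gp H A

theorem go_seven {an : ℕ → ℕ} (hk : Y.okK an = true) : 7 ≤ Y.N := by
  simp only [Tab.okK, Bool.and_eq_true, decide_eq_true_eq] at hk
  tauto

theorem go_hol (hM : okM Y X f = true) {Γ : Type} [Group Γ] (c : ℕ → ℕ → Γ) :
    holH (fun a b => c (f a) (f b)) = holH c ∧ holA (fun a b => c (f a) (f b)) = holA c := by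
  have e : ∀ x < 7, f x = x := fun x hx => okM.fix hM hx
  simp only [holH, holA, e 0 (by omega), e 1 (by omega), e 2 (by omega), e 3 (by omega),
    e 4 (by omega), e 5 (by omega), e 6 (by omega), and_self]

theorem go_J {tm iv : ℕ → ℕ} (hJ : Y.okJ JY FY tm iv = true) :
    ∀ x < 8, ∀ t ∈ JY x, t.1 < Y.N := by
  simp only [Tab.okJ, allB_iff, Bool.and_eq_true, List.all_eq_true, decide_eq_true_eq] at hJ
  exact fun x hx t ht => ((hJ.1.1.1.2 x hx).1.1.1.2 t ht).1.1.1

/-- `eq1_cyl`. Extension: classify `c` on `Y`, take `X.std H A`. Uniqueness: classify `c` with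
`γ = g 0` and `c'` with `γ = 1`; the holonomies agree by `hol_gau`; put `g' = g2⁻¹ g1` and use
`tree_ind` on `Y`. -/
theorem eq1_tab (gY : Good Y JY FY) (gX : Good X JX FX) (hf : X.okF = true)
    (hM : okM Y X f = true) :
    Eq1 (cy Y.le X.le f) (OC (cy Y.le X.le f) (Y.el.image Sum.inl))
      (OC (cy Y.le X.le f) (Y.el.disjSum X.el)) := by
  obtain ⟨aY, tY, kY, cY⟩ := gY.kc
  obtain ⟨aX, tX, kX, cX⟩ := gX.kc
  have h := okM.mo hM gY.p gX.p
  have h7 := go_seven kY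
  refine eq1_cyl h ⟨0, Tab.mem_el.2 (by omega)⟩ (Tab.conn gX.p kX) (fun Γ _ c hc => ?_)
    fun Γ _ c c' g hc hc' ha => ?_
  · obtain ⟨g, -, hn⟩ := Tab.classify gY.p kY cY hc 1
    have hg := gY.gp Γ _ _ g c hc hn
    refine ⟨X.std _ _, fun x => (g x)⁻¹, Tab.flat_std gX.p hf hg,
      (agree_OC h.pA).2 fun a _ b hb hab => ?_⟩
    have hb' := Tab.mem_el.1 hb
    rw [gau, okM.std hM gY.p gX.p hg hb' hab, ← hn b hb' a hab, gau]
    group
  · obtain ⟨g1, e1, n1⟩ := Tab.classify gX.p kX cX hc (g 0)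
    obtain ⟨g2, e2, n2⟩ := Tab.classify gX.p kX cX hc' 1
    rw [agree_OC h.pA] at ha
    obtain ⟨h1, h2⟩ := Tab.hol_gau kY (c := fun a b => c (f a) (f b))
      (c' := fun a b => c' (f a) (f b)) (g := g) fun y hy x hx e =>
        ha x (Tab.mem_el.2 (by omega)) y (Tab.mem_el.2 (by omega)) e
    rw [(go_hol hM c).1, (go_hol hM c').1] at h1
    rw [(go_hol hM c).2, (go_hol hM c').2] at h2
    rw [one_mul, one_mul, inv_one, mul_one, mul_one, h1, h2] at n2
    have key : ∀ a ∈ X.el, ∀ b ∈ X.el, X.le a b →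
        gau (fun x => (g2 x)⁻¹ * g1 x) c a b = c' a b := fun a _ b hb hab => by
      have h3 := (n1 b (Tab.mem_el.1 hb) a hab).trans (n2 b (Tab.mem_el.1 hb) a hab).symm
      simp only [gau] at h3 ⊢
      calc _ = (g2 a)⁻¹ * (g1 a * c a b * (g1 b)⁻¹) * g2 b := by group
        _ = _ := by rw [h3]; group
    refine ⟨fun x => (g2 x)⁻¹ * g1 x, fun a ha' => ?_, (agree_OC h.pB).2 key⟩
    refine Tab.tree_ind kY {a | (g2 (f a))⁻¹ * g1 (f a) = g a} ?_ (fun y hy x hx e => ?_) a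
      (Tab.mem_el.1 ha')
    · rw [Set.mem_ofPred_eq, okM.fix hM (by omega), e1, e2, inv_one, one_mul]
    · have hx' := Tab.mem_el.2 hx
      have hy' := Tab.mem_el.2 hy
      have h3 := (key _ (h.maps x hx') _ (h.maps y hy') (h.mono x hx' y hy' e)).trans
        (ha x hx' y hy' e).symm
      simp only [gau] at h3
      simp only [Set.mem_ofPred_eq]
      constructor <;> intro h4 <;> rw [h4] at h3
      · exact inv_injective (mul_left_cancel h3)
      · exact mul_right_cancel (mul_right_cancel h3)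

/-- `me_of_cone`: `cm_PB`, `Tab.model` for both tables, `bigI_nat`, `gd_cone_comp`,
`gd_cone_right`. -/
theorem me_tab (gY : Good Y JY FY) (gX : Good X JX FX) (hf : X.okF = true)
    (hM : okM Y X f = true) (hU : okU f JY JX FY FX M M' = true) :
    ME Y.le X.le 1 Y.el X.el f := by
  have h := okM.mo hM gY.p gX.p
  refine me_of_cone h (eq1_tab gY gX hf hM) fun Γ _ c hc => ?_
  obtain ⟨aY, tY, kY, -⟩ := gY.kc
  obtain ⟨aX, tX, kX, cX⟩ := gX.kc
  obtain ⟨mY, iY, jY⟩ := gY.j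
  obtain ⟨mX, iX, jX⟩ := gX.j
  obtain ⟨g, -, hn⟩ := Tab.classify gX.p kX cX hc 1
  have hg := gX.gp Γ _ _ g c hc hn
  have oX := Tab.model gX.p gX.q kX gX.fx jX hg hc hn
  have oY := Tab.model gY.p gY.q kY gY.fx jY hg (h.flat hc) (okM.nrm hM gY.p gX.p hg hn)
  refine gd_cone_right oY.cm (cm_PB h hc) ?_ (oY.gd.mono one_le_two)
  rw [bigI_nat hM gY.p gX.p gY.q gX.q hU (go_J jY) hg g c]
  exact gd_cone_comp (okU.cm hU hg gY.fx gX.fx) oX.cm (okU.gd hU hg gY.fx gX.fx)
    (oX.gd.mono one_le_two)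

end Pool.Agent.Lib.MP_5ceaf9_gt.G
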