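import Pool.Agent.Lib.MP_5ceaf9_gt.GM

/-! Tables as posets and cell complexes. -/

noncomputable section

namespace Pool.Agent.Lib.MP_5ceaf9_gt.G

open Function

namespace Tab

variable {T : Tab}

theorem le_iff {x y : ℕ} : T.le x y ↔ ∃ t ∈ T.cl y, t.1 = x := by
  simp only [le, leb, List.any_eq_true, beq_iff_eq]

theorem mem_el {x : ℕ} : x ∈ T.el ↔ x < T.N := by
  exact Finset.mem_range

theorem gt_p (h : T.okP = true) {y : ℕ} (hy : y < T.N) :
    (((((T.cl y).map fun t => t.1).Nodup ∧ T.le y y) ∧ T.ent y y = (0, [])) ∧ T.dm y ≤ 2) ∧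
      ∀ t ∈ T.cl y, ((t.1 < T.N ∧ (t.1 = y ∨ T.dm t.1 < T.dm y)) ∧
        (t.2.1 = 0 ∨ T.dm y = T.dm t.1 + 1)) ∧ ∀ s ∈ T.cl t.1, T.le s.1 y := by
  have h1 := allB_iff.1 h y hy
  simpa only [Bool.and_eq_true, Bool.or_eq_true, decide_eq_true_eq, List.all_eq_true, le] using h1

theorem nodup (h : T.okP = true) {y : ℕ} (hy : y < T.N) :
    ((T.cl y).map fun t => t.1).Nodup := by
  exact (gt_p h hy).1.1.1.1

theorem lt_of_le (h : T.okP = true) {x y : ℕ} (hy : y < T.N) (e : T.le x y) : x < T.N := by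
  obtain ⟨t, ht, rfl⟩ := le_iff.1 e
  exact ((gt_p h hy).2 t ht).1.1.1

theorem ent_mem (h : T.okP = true) {y : ℕ} (hy : y < T.N) {t : ℕ × ℤ × Wd} (ht : t ∈ T.cl y) :
    T.ent y t.1 = t.2 := by
  exact lookup_mem (nodup h hy) ht

theorem ent_not_le {x y : ℕ} (e : ¬ T.le x y) : T.ent y x = (0, []) := by
  rw [ent, List.lookup_eq_none_iff.2 fun t ht => bne_iff_ne.2 fun h => e (le_iff.2 ⟨t, ht, h.symm⟩)]
  rfl

theorem wd_self (h : T.okP = true) {y : ℕ} (hy : y < T.N) : T.wd y y = [] := by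
  rw [wd, (gt_p h hy).1.1.2]

theorem gt_lt (h : T.okP = true) {x y : ℕ} (hy : y < T.N) (e : T.le x y) (hn : x ≠ y) :
    T.dm x < T.dm y := by
  obtain ⟨t, ht, rfl⟩ := le_iff.1 e
  exact ((gt_p h hy).2 t ht).1.1.2.resolve_left hn

theorem gt_trans (h : T.okP = true) {x y z : ℕ} (hz : z < T.N) (e : T.le x y) (e' : T.le y z) :
    T.le x z := by
  obtain ⟨t, ht, rfl⟩ := le_iff.1 e'
  obtain ⟨s, hs, rfl⟩ := le_iff.1 e
  exact ((gt_p h hz).2 t ht).2 s hs

theorem pon (h : T.okP = true) : POn T.le T.el := by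
  refine ⟨fun a ha => (gt_p h (mem_el.1 ha)).1.1.1.2, fun a ha b hb h1 h2 => ?_,
    fun a _ b _ d hd => gt_trans h (mem_el.1 hd)⟩
  by_contra hn
  exact lt_asymm (gt_lt h (mem_el.1 hb) h1 hn) (gt_lt h (mem_el.1 ha) h2 (Ne.symm hn))

theorem rk (h : T.okP = true) : Rk T.le T.el T.dm := by
  exact ⟨fun a ha => (gt_p h (mem_el.1 ha)).1.2, fun a _ b hb => gt_lt h (mem_el.1 hb)⟩

theorem evF_cl (h : T.okP = true) {Γ : Type} [Group Γ] (H A : Γ) {y : ℕ} (hy : y < T.N) (x : ℕ) :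
    evF H A (T.cl y) x = MonoidAlgebra.single (ew H A (T.wd y x)) (T.inc y x) := by
  exact evF_lookup (nodup h hy) x

theorem gt_face (h : T.okP = true) {x y : ℕ} (hy : y < T.N) (e : T.inc y x ≠ 0) :
    T.le x y ∧ T.dm y = T.dm x + 1 := by
  have h1 : T.le x y := not_not.1 fun h1 => e (by rw [inc, ent_not_le h1])
  obtain ⟨t, ht, rfl⟩ := le_iff.1 h1
  rw [inc, ent_mem h hy ht] at e
  exact ⟨h1, ((gt_p h hy).2 t ht).1.2.resolve_left e⟩

theorem gt_evZ (h : T.okP = true) {y : ℕ} (hy : y < T.N) (x : ℕ) :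
    T.inc y x = evZ (T.cl y) x := (evZ_lookup (nodup h hy) x).symm

theorem gt_sum {X : Finset ℕ} {l : FS} (hl : ∀ t ∈ l, t.1 ∈ X) :
    ∑ y ∈ X, evZ l y = (l.map fun t => t.2.1).sum := by
  induction l with
  | nil => simp [evZ]
  | cons t l ih =>
    have h1 := ih fun s hs => hl s (List.mem_cons_of_mem _ hs)
    simp only [evZ, List.map_cons, List.sum_cons, Finset.sum_add_distrib, Finset.sum_ite_eq,
      if_pos (hl t List.mem_cons_self)] at h1 ⊢
    rw [h1]

theorem gt_q (hq : T.okQ = true) {y : ℕ} (hy : y < T.N) :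
    ((zeroZ (bindF (T.cl y) T.cl) = true ∧
      (T.dm y ≠ 1 ∨ ((T.cl y).map fun t => t.2.1).sum = 0)) ∧ (T.cll y).length % 2 = 0) ∧
      ∀ u ∈ (T.cll y).zipIdx, ∀ v ∈ (T.cll y).zipIdx,
        (u.2 = v.2 + 1 ∧ v.2 % 2 = 0 → T.augb u.1 v.1 * T.augb u.1 v.1 = 1) ∧
        (¬(u.2 = v.2 + 1 ∧ v.2 % 2 = 0) → v.2 / 2 < u.2 / 2 ∨ T.augb u.1 v.1 = 0) := by
  have h1 := allB_iff.1 hq y hy
  simp only [Bool.and_eq_true, Bool.or_eq_true, decide_eq_true_eq, List.all_eq_true,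
    Bool.not_eq_true', decide_eq_false_iff_not] at h1
  refine ⟨h1.1, fun u hu v hv => ⟨fun e => ?_, fun e => ?_⟩⟩
  · simpa only [if_pos e, decide_eq_true_eq] using h1.2 u hu v hv
  · simpa only [if_neg e, Bool.or_eq_true, decide_eq_true_eq] using h1.2 u hu v hv

theorem gt_sq (h : T.okP = true) (hq : T.okQ = true) {e : ℕ} (he : e < T.N) (g : ℕ) :
    ∑ f ∈ T.el, T.inc e f * T.inc f g = 0 := by
  rw [← zeroZ_sound (gt_q hq he).1.1.1 g,
    ← sum_evZ (X := T.el) fun t ht => mem_el.2 ((gt_p h he).2 t ht).1.1.1]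
  exact Finset.sum_congr rfl fun f hf => by rw [gt_evZ h he, gt_evZ h (mem_el.1 hf)]

theorem gt_au (h : T.okP = true) (hq : T.okQ = true) {e : ℕ} (he : e < T.N) (h1 : T.dm e = 1) :
    ∑ f ∈ T.el, T.inc e f = 0 := by
  rw [← (gt_q hq he).1.1.2.resolve_left (not_not.2 h1),
    ← gt_sum (X := T.el) fun t ht => mem_el.2 ((gt_p h he).2 t ht).1.1.1]
  exact Finset.sum_congr rfl fun f _ => gt_evZ h he f

theorem gt_aug (u v : Option ℕ) : aug T.dm T.inc u v = T.augb u v := by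
  cases u <;> cases v <;> rfl

theorem gt_ctr (h : T.okP = true) (hq : T.okQ = true) {e : ℕ} (he : e < T.N) {S : Finset ℕ}
    (hS : ∀ x, x ∈ S ↔ x ∈ T.el ∧ T.le x e) :
    Ctr (rs (Finset.insertNone S) (Finset.insertNone S) (aug T.dm T.inc)) := by
  have hm : ∀ x, x ∈ Finset.insertNone S ↔ x ∈ T.cll e := by
    rintro (_ | x)
    · exact iff_of_true (Finset.none_mem_insertNone) List.mem_cons_self
    · rw [Finset.some_mem_insertNone, hS, mem_el, and_iff_right_of_imp (lt_of_le h he), le_iff]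
      simp only [cll, List.mem_cons, reduceCtorEq, false_or, List.mem_map, Option.some.injEq]
  have hn : (T.cll e).Nodup := by
    refine List.nodup_cons.2 ⟨by simp, ?_⟩
    have := (nodup h he).map (Option.some_injective ℕ)
    rwa [List.map_map] at this
  have hz : ∀ x : ↥(Finset.insertNone S), (x.1, (T.cll e).idxOf x.1) ∈ (T.cll e).zipIdx :=
    fun x => List.mem_zipIdx_iff_getElem?.2 (List.getElem?_idxOf ((hm _).1 x.2))
  have hi : ∀ i < (T.cll e).length, ∃ y : ↥(Finset.insertNone S), (T.cll e).idxOf y.1 = i :=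
    fun i hi => ⟨⟨(T.cll e)[i], (hm _).2 (List.getElem_mem hi)⟩, hn.idxOf_getElem i hi⟩
  have hN : ∀ a, some a ∈ Finset.insertNone S → a < T.N ∧ T.le a e := fun a ha => by
    rwa [Finset.some_mem_insertNone, hS, mem_el] at ha
  refine ctr_match (p := fun x => paug T.dm x.1) ⟨Matrix.ext fun x z => ?_, ?_⟩
    (fun x => (T.cll e).idxOf x.1)
    (fun x y hxy => Subtype.ext ((List.idxOf_inj ((hm _).1 x.2)).1 hxy)) (fun x => ?_)
    (fun x y h0 => ?_) fun x y h1 h2 => ?_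
  · rw [Matrix.mul_apply, Matrix.zero_apply]
    refine (Finset.sum_coe_sort _ fun y => aug T.dm T.inc x y * aug T.dm T.inc y z).trans ?_
    obtain ⟨_ | a, ha⟩ := x
    · exact Finset.sum_eq_zero fun y _ => zero_mul _
    obtain ⟨a1, a2⟩ := hN a ha
    have e1 : ∑ y ∈ S, T.inc a y * aug T.dm T.inc (some y) z =
        ∑ y ∈ T.el, T.inc a y * aug T.dm T.inc (some y) z :=
      Finset.sum_subset (fun y hy => ((hS y).1 hy).1) fun y hy hy' => by
        rw [not_not.1 fun h0 => hy' ((hS y).2 ⟨hy, gt_trans h he (gt_face h a1 h0).1 a2⟩),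
          zero_mul]
    rw [Finset.sum_insertNone]
    refine (congrArg₂ (· + ·) (mul_zero _) e1).trans ((zero_add _).trans ?_)
    obtain ⟨_ | g, hg⟩ := z
    · by_cases h1 : T.dm a = 1
      · rw [← gt_au h hq a1 h1]
        refine Finset.sum_congr rfl fun y _ => ?_
        by_cases h0 : T.inc a y = 0
        · rw [h0, zero_mul]
        · have := (gt_face h a1 h0).2
          exact (congrArg _ (if_pos (by omega))).trans (mul_one _)
      · refine Finset.sum_eq_zero fun y _ => ?_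
        by_cases h0 : T.inc a y = 0
        · rw [h0, zero_mul]
        · have := (gt_face h a1 h0).2
          exact (congrArg _ (if_neg (by omega))).trans (mul_zero _)
    · exact gt_sq h hq a1 g
  · rintro ⟨_ | a, ha⟩ ⟨_ | b, hb⟩ h0
    · exact absurd rfl h0
    · exact absurd rfl h0
    · have h1 : T.dm a = 0 := not_not.1 fun h1 => h0 (if_neg h1)
      simp [paug, h1]
    · have h1 := (gt_face h (hN a ha).1 h0).2
      simp only [paug, ne_eq, decide_eq_decide]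
      omega
  · have h1 := List.idxOf_lt_length_of_mem ((hm _).1 x.2)
    have h2 := (gt_q hq he).1.2
    by_cases h3 : (T.cll e).idxOf x.1 % 2 = 0
    · obtain ⟨y, hy⟩ := hi ((T.cll e).idxOf x.1 + 1) (by omega)
      exact ⟨y, Or.inl ⟨hy, h3⟩⟩
    · obtain ⟨y, hy⟩ := hi ((T.cll e).idxOf x.1 - 1) (by omega)
      exact ⟨y, Or.inr ⟨by omega, by omega⟩⟩
  · refine or_iff_not_imp_right.2 fun h1 => ?_
    exact (((gt_q hq he).2 _ (hz x) _ (hz y)).2 h1).resolve_right
      fun h2 => h0 ((gt_aug _ _).trans h2)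
  · have h3 := ((gt_q hq he).2 _ (hz x) _ (hz y)).1 ⟨h1, h2⟩
    rwa [← gt_aug] at h3

/-- For `ctr` use `ctr_match` with the position in the list `T.cll e` (`List.idxOf`); the square
of the augmented matrix vanishes by `sq` and `au`, because the closed cell is closed
downwards. -/
theorem cocell (h : T.okP = true) (hq : T.okQ = true) :
    CoCell (swap T.le) T.el T.dm T.inc := by
  exact ⟨(pon h).swap, fun e he f _ => gt_face h (mem_el.1 he),
    fun e he f _ h1 h2 => gt_lt h (mem_el.1 he) h1 h2.symm,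
    fun e he g _ => gt_sq h hq (mem_el.1 he) g, fun e he => gt_au h hq (mem_el.1 he),
    fun e he => gt_ctr h hq (mem_el.1 he) fun x => by classical exact Finset.mem_filter⟩

theorem gt_k {an : ℕ → ℕ} (hk : T.okK an = true) : 7 ≤ T.N ∧
    ∀ y < T.N, y = 0 ∨ an y < y ∧ (T.le (an y) y ∨ T.le y (an y)) := by
  simp only [okK, allB_iff, Bool.and_eq_true, Bool.or_eq_true, decide_eq_true_eq] at hk
  exact ⟨hk.1.1.1.1.1.1.1.1.1.1.1.1, hk.2⟩

/-- Strong induction along the tree. -/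
theorem tree_ind {an : ℕ → ℕ} (hk : T.okK an = true) (S : Set ℕ) (h0 : 0 ∈ S)
    (hS : ∀ y < T.N, ∀ x < T.N, T.le x y → (x ∈ S ↔ y ∈ S)) : ∀ y < T.N, y ∈ S := by
  intro y
  induction y using Nat.strong_induction_on with
  | _ y ih =>
    intro hy
    rcases (gt_k hk).2 y hy with rfl | ⟨h1, h2 | h2⟩
    · exact h0
    · exact (hS y hy _ (h1.trans hy) h2).1 (ih _ h1 (h1.trans hy))
    · exact (hS _ (h1.trans hy) y hy h2).2 (ih _ h1 (h1.trans hy))

theorem conn (h : T.okP = true) {an : ℕ → ℕ} (hk : T.okK an = true) :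
    Conn T.le (OC T.le T.el) := by
  have hp := pon h
  refine ⟨⟨0, (single_mem_OC hp).2 (mem_el.2 (by have := (gt_k hk).1; omega))⟩, ?_⟩
  rintro U hU ⟨b, hb, hbU⟩ a ha
  have key := tree_ind hk {x | x ∈ U ↔ 0 ∈ U} Iff.rfl fun y hy x hx e =>
    iff_congr (hU x y ((pair_mem_OC hp e).2 ⟨mem_el.2 hx, mem_el.2 hy⟩) e) Iff.rfl
  exact (key a (mem_el.1 ((single_mem_OC hp).1 ha))).2
    ((key b (mem_el.1 ((single_mem_OC hp).1 hb))).1 hbU)

theorem flat_std (h : T.okP = true) (hf : T.okF = true) {Γ : Type} [Group Γ] {H A : Γ}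
    (hg : Gp H A) : Flat T.le (OC T.le T.el) (T.std H A) := by
  refine (flat_OC (pon h)).2 fun a _ b _ d hd h1 h2 => ?_
  obtain ⟨t, ht, rfl⟩ := le_iff.1 h2
  obtain ⟨s, hs, rfl⟩ := le_iff.1 h1
  have h3 := allB_iff.1 hf d (mem_el.1 hd)
  simp only [List.all_eq_true, decide_eq_true_eq] at h3
  have h4 := hg.ew_nfr (T.tri s.1 t.1 d)
  rw [h3 t ht s hs, tri, ew_append, ew_append, ew_winv, eq_mul_inv_iff_mul_eq] at h4
  rw [std, std, std, ← mul_inv_rev, ← h4]
  exact congrArg _ (one_mul _)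

end Tab

end Pool.Agent.Lib.MP_5ceaf9_gt.G
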