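import Pool.Agent.Lib.MP_5ceaf9_gt.GDefs

/-! The table X and its certificates. -/

namespace Pool.Agent.Lib.MP_5ceaf9_gt.G

/-- Rows of the table. -/
def clX0 : List FS :=
  [[(0, 0, [])], [(0, -1, []), (2, 1, []), (1, 0, [])], [(2, 0, [])], [(2, -1, []), (0, 1, [(false,
  1)]), (3, 0, [])], [(0, -1, []), (5, 1, []), (4, 0, [])], [(5, 0, [])], [(5, -1, []), (0, 1,
  [(true, 1)]), (6, 0, [])], [(8, -1, []), (0, 1, []), (7, 0, [])], [(8, 0, [])], [(8, -1, []), (5,
  1, []), (9, 0, [])], [(8, -1, []), (0, 1, [(true, 1)]), (10, 0, [])], [(8, -1, []), (2, 1,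
  [(true, 1)]), (11, 0, [])], [(8, -1, []), (0, 1, [(true, 1), (false, 1)]), (12, 0, [])], [(8, -1,
  []), (5, 1, [(true, 1), (false, 1)]), (13, 0, [])], [(8, -1, []), (0, 1, [(true, 1), (false, 1),
  (true, 1)]), (14, 0, [])], [(8, -1, []), (2, 1, [(true, 1), (false, 1), (true, 1), (false, -1)]),
  (15, 0, [])]]

/-- Rows of the table. -/
def clX1 : List FS :=
  [[(8, -1, []), (0, 1, [(true, 1), (false, 1), (true, 1), (false, -1)]), (16, 0, [])], [(8, -1,
  []), (5, 1, [(true, 1), (false, 1), (true, 1), (false, -1), (true, -1)]), (17, 0, [])], [(8, -1,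
  []), (0, 1, [(true, 1), (false, 1), (true, 1), (false, -1), (true, -1)]), (18, 0, [])], [(8, -1,
  []), (2, 1, [(true, 1), (false, 1), (true, 1), (false, -1), (true, -1)]), (19, 0, [])], [(8, -1,
  []), (0, 1, [(true, 1), (false, 1), (true, 1), (false, -1), (true, -1), (false, 1)]), (20, 0,
  [])], [(8, -1, []), (5, 1, [(true, 1), (false, 1), (true, 1), (false, -1), (true, -1), (false,
  1), (true, -1)]), (21, 0, [])], [(8, -1, []), (0, 1, [(true, 1), (false, 1), (true, 1), (false,
  -1), (true, -1), (false, 1), (true, -1)]), (22, 0, [])], [(8, -1, []), (2, 1, [(true, 1), (false,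
  1), (true, 1), (false, -1), (true, -1), (false, 1), (true, -1), (false, -1)]), (23, 0, [])], [(8,
  0, []), (0, 0, []), (7, 1, []), (5, 0, []), (4, 1, []), (9, -1, []), (24, 0, [])], [(8, 0, []),
  (5, 0, []), (9, 1, []), (0, 0, [(true, 1)]), (6, 1, []), (10, -1, []), (25, 0, [])], [(8, 0, []),
  (0, 0, [(true, 1)]), (10, 1, []), (2, 0, [(true, 1)]), (1, 1, [(true, 1)]), (11, -1, []), (26, 0,
  [])], [(8, 0, []), (2, 0, [(true, 1)]), (11, 1, []), (0, 0, [(true, 1), (false, 1)]), (3, 1,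
  [(true, 1)]), (12, -1, []), (27, 0, [])], [(8, 0, []), (0, 0, [(true, 1), (false, 1)]), (12, 1,
  []), (5, 0, [(true, 1), (false, 1)]), (4, 1, [(true, 1), (false, 1)]), (13, -1, []), (28, 0,
  [])], [(8, 0, []), (5, 0, [(true, 1), (false, 1)]), (13, 1, []), (0, 0, [(true, 1), (false, 1),
  (true, 1)]), (6, 1, [(true, 1), (false, 1)]), (14, -1, []), (29, 0, [])], [(8, 0, []), (0, 0,
  [(true, 1), (false, 1), (true, 1)]), (14, 1, []), (2, 0, [(true, 1), (false, 1), (true, 1),
  (false, -1)]), (3, -1, [(true, 1), (false, 1), (true, 1), (false, -1)]), (15, -1, []), (30, 0,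
  [])], [(8, 0, []), (2, 0, [(true, 1), (false, 1), (true, 1), (false, -1)]), (15, 1, []), (0, 0,
  [(true, 1), (false, 1), (true, 1), (false, -1)]), (1, -1, [(true, 1), (false, 1), (true, 1),
  (false, -1)]), (16, -1, []), (31, 0, [])]]

/-- Rows of the table. -/
def clX2 : List FS :=
  [[(8, 0, []), (0, 0, [(true, 1), (false, 1), (true, 1), (false, -1)]), (16, 1, []), (5, 0,
  [(true, 1), (false, 1), (true, 1), (false, -1), (true, -1)]), (6, -1, [(true, 1), (false, 1),
  (true, 1), (false, -1), (true, -1)]), (17, -1, []), (32, 0, [])], [(8, 0, []), (5, 0, [(true, 1),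
  (false, 1), (true, 1), (false, -1), (true, -1)]), (17, 1, []), (0, 0, [(true, 1), (false, 1),
  (true, 1), (false, -1), (true, -1)]), (4, -1, [(true, 1), (false, 1), (true, 1), (false, -1),
  (true, -1)]), (18, -1, []), (33, 0, [])], [(8, 0, []), (0, 0, [(true, 1), (false, 1), (true, 1),
  (false, -1), (true, -1)]), (18, 1, []), (2, 0, [(true, 1), (false, 1), (true, 1), (false, -1),
  (true, -1)]), (1, 1, [(true, 1), (false, 1), (true, 1), (false, -1), (true, -1)]), (19, -1, []),
  (34, 0, [])], [(8, 0, []), (2, 0, [(true, 1), (false, 1), (true, 1), (false, -1), (true, -1)]),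
  (19, 1, []), (0, 0, [(true, 1), (false, 1), (true, 1), (false, -1), (true, -1), (false, 1)]), (3,
  1, [(true, 1), (false, 1), (true, 1), (false, -1), (true, -1)]), (20, -1, []), (35, 0, [])], [(8,
  0, []), (0, 0, [(true, 1), (false, 1), (true, 1), (false, -1), (true, -1), (false, 1)]), (20, 1,
  []), (5, 0, [(true, 1), (false, 1), (true, 1), (false, -1), (true, -1), (false, 1), (true, -1)]),
  (6, -1, [(true, 1), (false, 1), (true, 1), (false, -1), (true, -1), (false, 1), (true, -1)]),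
  (21, -1, []), (36, 0, [])], [(8, 0, []), (5, 0, [(true, 1), (false, 1), (true, 1), (false, -1),
  (true, -1), (false, 1), (true, -1)]), (21, 1, []), (0, 0, [(true, 1), (false, 1), (true, 1),
  (false, -1), (true, -1), (false, 1), (true, -1)]), (4, -1, [(true, 1), (false, 1), (true, 1),
  (false, -1), (true, -1), (false, 1), (true, -1)]), (22, -1, []), (37, 0, [])], [(8, 0, []), (0,
  0, [(true, 1), (false, 1), (true, 1), (false, -1), (true, -1), (false, 1), (true, -1)]), (22, 1,
  []), (2, 0, [(true, 1), (false, 1), (true, 1), (false, -1), (true, -1), (false, 1), (true, -1),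
  (false, -1)]), (3, -1, [(true, 1), (false, 1), (true, 1), (false, -1), (true, -1), (false, 1),
  (true, -1), (false, -1)]), (23, -1, []), (38, 0, [])], [(8, 0, []), (2, 0, [(true, 1), (false,
  1), (true, 1), (false, -1), (true, -1), (false, 1), (true, -1), (false, -1)]), (23, 1, []), (0,
  0, []), (1, -1, [(true, 1), (false, 1), (true, 1), (false, -1), (true, -1), (false, 1), (true,
  -1), (false, -1)]), (7, -1, []), (39, 0, [])], [(41, -1, []), (0, 1, []), (40, 0, [])], [(41, 0,
  [])], [(41, -1, []), (5, 1, []), (42, 0, [])], [(41, -1, []), (0, 1, [(true, 1)]), (43, 0, [])],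
  [(41, -1, []), (2, 1, [(true, 1)]), (44, 0, [])], [(41, -1, []), (0, 1, [(true, 1), (false, 1)]),
  (45, 0, [])], [(41, -1, []), (2, 1, [(true, 1), (false, 1)]), (46, 0, [])], [(41, -1, []), (0, 1,
  [(true, 1), (false, 2)]), (47, 0, [])]]

/-- Rows of the table. -/
def clX3 : List FS :=
  [[(41, -1, []), (5, 1, [(true, 1), (false, 2)]), (48, 0, [])], [(41, -1, []), (0, 1, [(true, 1),
  (false, 2), (true, 1)]), (49, 0, [])], [(41, -1, []), (2, 1, [(true, 1), (false, 2), (true, 1),
  (false, -1)]), (50, 0, [])], [(41, -1, []), (0, 1, [(true, 1), (false, 2), (true, 1), (false,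
  -1)]), (51, 0, [])], [(41, -1, []), (2, 1, [(true, 1), (false, 2), (true, 1), (false, -2)]), (52,
  0, [])], [(41, -1, []), (0, 1, [(true, 1), (false, 2), (true, 1), (false, -2)]), (53, 0, [])],
  [(41, -1, []), (5, 1, [(true, 1), (false, 2), (true, 1), (false, -2), (true, -1)]), (54, 0, [])],
  [(41, -1, []), (0, 1, [(true, 1), (false, 2), (true, 1), (false, -2), (true, -1)]), (55, 0, [])],
  [(41, -1, []), (2, 1, [(true, 1), (false, 2), (true, 1), (false, -2), (true, -1)]), (56, 0, [])],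
  [(41, -1, []), (0, 1, [(true, 1), (false, 2), (true, 1), (false, -2), (true, -1), (false, 1)]),
  (57, 0, [])], [(41, -1, []), (2, 1, [(true, 1), (false, 2), (true, 1), (false, -2), (true, -1),
  (false, 1)]), (58, 0, [])], [(41, -1, []), (0, 1, [(true, 1), (false, 2), (true, 1), (false, -2),
  (true, -1), (false, 2)]), (59, 0, [])], [(41, -1, []), (5, 1, [(true, 1), (false, 2), (true, 1),
  (false, -2), (true, -1), (false, 2), (true, -1)]), (60, 0, [])], [(41, -1, []), (0, 1, [(true,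
  1), (false, 2), (true, 1), (false, -2), (true, -1), (false, 2), (true, -1)]), (61, 0, [])], [(41,
  -1, []), (2, 1, [(true, 1), (false, 2), (true, 1), (false, -2), (true, -1), (false, 2), (true,
  -1), (false, -1)]), (62, 0, [])], [(41, -1, []), (0, 1, [(true, 1), (false, 2), (true, 1),
  (false, -2), (true, -1), (false, 2), (true, -1), (false, -1)]), (63, 0, [])]]

/-- Rows of the table. -/
def clX4 : List FS :=
  [[(41, -1, []), (2, 1, [(true, 1), (false, 2), (true, 1), (false, -2), (true, -1), (false, 2),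
  (true, -1), (false, -2)]), (64, 0, [])], [(41, 0, []), (0, 0, []), (40, 1, []), (5, 0, []), (4,
  1, []), (42, -1, []), (65, 0, [])], [(41, 0, []), (5, 0, []), (42, 1, []), (0, 0, [(true, 1)]),
  (6, 1, []), (43, -1, []), (66, 0, [])], [(41, 0, []), (0, 0, [(true, 1)]), (43, 1, []), (2, 0,
  [(true, 1)]), (1, 1, [(true, 1)]), (44, -1, []), (67, 0, [])], [(41, 0, []), (2, 0, [(true, 1)]),
  (44, 1, []), (0, 0, [(true, 1), (false, 1)]), (3, 1, [(true, 1)]), (45, -1, []), (68, 0, [])],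
  [(41, 0, []), (0, 0, [(true, 1), (false, 1)]), (45, 1, []), (2, 0, [(true, 1), (false, 1)]), (1,
  1, [(true, 1), (false, 1)]), (46, -1, []), (69, 0, [])], [(41, 0, []), (2, 0, [(true, 1), (false,
  1)]), (46, 1, []), (0, 0, [(true, 1), (false, 2)]), (3, 1, [(true, 1), (false, 1)]), (47, -1,
  []), (70, 0, [])], [(41, 0, []), (0, 0, [(true, 1), (false, 2)]), (47, 1, []), (5, 0, [(true, 1),
  (false, 2)]), (4, 1, [(true, 1), (false, 2)]), (48, -1, []), (71, 0, [])], [(41, 0, []), (5, 0,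
  [(true, 1), (false, 2)]), (48, 1, []), (0, 0, [(true, 1), (false, 2), (true, 1)]), (6, 1, [(true,
  1), (false, 2)]), (49, -1, []), (72, 0, [])], [(41, 0, []), (0, 0, [(true, 1), (false, 2), (true,
  1)]), (49, 1, []), (2, 0, [(true, 1), (false, 2), (true, 1), (false, -1)]), (3, -1, [(true, 1),
  (false, 2), (true, 1), (false, -1)]), (50, -1, []), (73, 0, [])], [(41, 0, []), (2, 0, [(true,
  1), (false, 2), (true, 1), (false, -1)]), (50, 1, []), (0, 0, [(true, 1), (false, 2), (true, 1),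
  (false, -1)]), (1, -1, [(true, 1), (false, 2), (true, 1), (false, -1)]), (51, -1, []), (74, 0,
  [])], [(41, 0, []), (0, 0, [(true, 1), (false, 2), (true, 1), (false, -1)]), (51, 1, []), (2, 0,
  [(true, 1), (false, 2), (true, 1), (false, -2)]), (3, -1, [(true, 1), (false, 2), (true, 1),
  (false, -2)]), (52, -1, []), (75, 0, [])], [(41, 0, []), (2, 0, [(true, 1), (false, 2), (true,
  1), (false, -2)]), (52, 1, []), (0, 0, [(true, 1), (false, 2), (true, 1), (false, -2)]), (1, -1,
  [(true, 1), (false, 2), (true, 1), (false, -2)]), (53, -1, []), (76, 0, [])], [(41, 0, []), (0,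
  0, [(true, 1), (false, 2), (true, 1), (false, -2)]), (53, 1, []), (5, 0, [(true, 1), (false, 2),
  (true, 1), (false, -2), (true, -1)]), (6, -1, [(true, 1), (false, 2), (true, 1), (false, -2),
  (true, -1)]), (54, -1, []), (77, 0, [])], [(41, 0, []), (5, 0, [(true, 1), (false, 2), (true, 1),
  (false, -2), (true, -1)]), (54, 1, []), (0, 0, [(true, 1), (false, 2), (true, 1), (false, -2),
  (true, -1)]), (4, -1, [(true, 1), (false, 2), (true, 1), (false, -2), (true, -1)]), (55, -1, []),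
  (78, 0, [])], [(41, 0, []), (0, 0, [(true, 1), (false, 2), (true, 1), (false, -2), (true, -1)]),
  (55, 1, []), (2, 0, [(true, 1), (false, 2), (true, 1), (false, -2), (true, -1)]), (1, 1, [(true,
  1), (false, 2), (true, 1), (false, -2), (true, -1)]), (56, -1, []), (79, 0, [])]]

/-- Rows of the table. -/
def clX5 : List FS :=
  [[(41, 0, []), (2, 0, [(true, 1), (false, 2), (true, 1), (false, -2), (true, -1)]), (56, 1, []),
  (0, 0, [(true, 1), (false, 2), (true, 1), (false, -2), (true, -1), (false, 1)]), (3, 1, [(true,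
  1), (false, 2), (true, 1), (false, -2), (true, -1)]), (57, -1, []), (80, 0, [])], [(41, 0, []),
  (0, 0, [(true, 1), (false, 2), (true, 1), (false, -2), (true, -1), (false, 1)]), (57, 1, []), (2,
  0, [(true, 1), (false, 2), (true, 1), (false, -2), (true, -1), (false, 1)]), (1, 1, [(true, 1),
  (false, 2), (true, 1), (false, -2), (true, -1), (false, 1)]), (58, -1, []), (81, 0, [])], [(41,
  0, []), (2, 0, [(true, 1), (false, 2), (true, 1), (false, -2), (true, -1), (false, 1)]), (58, 1,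
  []), (0, 0, [(true, 1), (false, 2), (true, 1), (false, -2), (true, -1), (false, 2)]), (3, 1,
  [(true, 1), (false, 2), (true, 1), (false, -2), (true, -1), (false, 1)]), (59, -1, []), (82, 0,
  [])], [(41, 0, []), (0, 0, [(true, 1), (false, 2), (true, 1), (false, -2), (true, -1), (false,
  2)]), (59, 1, []), (5, 0, [(true, 1), (false, 2), (true, 1), (false, -2), (true, -1), (false, 2),
  (true, -1)]), (6, -1, [(true, 1), (false, 2), (true, 1), (false, -2), (true, -1), (false, 2),
  (true, -1)]), (60, -1, []), (83, 0, [])], [(41, 0, []), (5, 0, [(true, 1), (false, 2), (true, 1),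
  (false, -2), (true, -1), (false, 2), (true, -1)]), (60, 1, []), (0, 0, [(true, 1), (false, 2),
  (true, 1), (false, -2), (true, -1), (false, 2), (true, -1)]), (4, -1, [(true, 1), (false, 2),
  (true, 1), (false, -2), (true, -1), (false, 2), (true, -1)]), (61, -1, []), (84, 0, [])], [(41,
  0, []), (0, 0, [(true, 1), (false, 2), (true, 1), (false, -2), (true, -1), (false, 2), (true,
  -1)]), (61, 1, []), (2, 0, [(true, 1), (false, 2), (true, 1), (false, -2), (true, -1), (false,
  2), (true, -1), (false, -1)]), (3, -1, [(true, 1), (false, 2), (true, 1), (false, -2), (true,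
  -1), (false, 2), (true, -1), (false, -1)]), (62, -1, []), (85, 0, [])], [(41, 0, []), (2, 0,
  [(true, 1), (false, 2), (true, 1), (false, -2), (true, -1), (false, 2), (true, -1), (false,
  -1)]), (62, 1, []), (0, 0, [(true, 1), (false, 2), (true, 1), (false, -2), (true, -1), (false,
  2), (true, -1), (false, -1)]), (1, -1, [(true, 1), (false, 2), (true, 1), (false, -2), (true,
  -1), (false, 2), (true, -1), (false, -1)]), (63, -1, []), (86, 0, [])], [(41, 0, []), (0, 0,
  [(true, 1), (false, 2), (true, 1), (false, -2), (true, -1), (false, 2), (true, -1), (false,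
  -1)]), (63, 1, []), (2, 0, [(true, 1), (false, 2), (true, 1), (false, -2), (true, -1), (false,
  2), (true, -1), (false, -2)]), (3, -1, [(true, 1), (false, 2), (true, 1), (false, -2), (true,
  -1), (false, 2), (true, -1), (false, -2)]), (64, -1, []), (87, 0, [])], [(41, 0, []), (2, 0,
  [(true, 1), (false, 2), (true, 1), (false, -2), (true, -1), (false, 2), (true, -1), (false,
  -2)]), (64, 1, []), (0, 0, []), (1, -1, [(true, 1), (false, 2), (true, 1), (false, -2), (true,
  -1), (false, 2), (true, -1), (false, -2)]), (40, -1, []), (88, 0, [])], [(90, -1, []), (0, 1,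
  []), (89, 0, [])], [(90, 0, [])], [(90, -1, []), (5, 1, []), (91, 0, [])], [(90, -1, []), (0, 1,
  [(true, 1)]), (92, 0, [])], [(90, -1, []), (2, 1, [(true, 1)]), (93, 0, [])], [(90, -1, []), (0,
  1, [(true, 1), (false, 1)]), (94, 0, [])], [(90, -1, []), (2, 1, [(true, 1), (false, 1)]), (95,
  0, [])]]

/-- Rows of the table. -/
def clX6 : List FS :=
  [[(90, -1, []), (0, 1, [(true, 1), (false, 2)]), (96, 0, [])], [(90, -1, []), (2, 1, [(true, 1),
  (false, 2)]), (97, 0, [])], [(90, -1, []), (0, 1, [(true, 1), (false, 3)]), (98, 0, [])], [(90,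
  -1, []), (5, 1, [(true, 1), (false, 3)]), (99, 0, [])], [(90, -1, []), (0, 1, [(true, 1), (false,
  3), (true, 1)]), (100, 0, [])], [(90, -1, []), (2, 1, [(true, 1), (false, 3), (true, 1), (false,
  -1)]), (101, 0, [])], [(90, -1, []), (0, 1, [(true, 1), (false, 3), (true, 1), (false, -1)]),
  (102, 0, [])], [(90, -1, []), (2, 1, [(true, 1), (false, 3), (true, 1), (false, -2)]), (103, 0,
  [])], [(90, -1, []), (0, 1, [(true, 1), (false, 3), (true, 1), (false, -2)]), (104, 0, [])],
  [(90, -1, []), (2, 1, [(true, 1), (false, 3), (true, 1), (false, -3)]), (105, 0, [])], [(90, -1,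
  []), (0, 1, [(true, 1), (false, 3), (true, 1), (false, -3)]), (106, 0, [])], [(90, -1, []), (5,
  1, [(true, 1), (false, 3), (true, 1), (false, -3), (true, -1)]), (107, 0, [])], [(90, -1, []),
  (0, 1, [(true, 1), (false, 3), (true, 1), (false, -3), (true, -1)]), (108, 0, [])], [(90, -1,
  []), (2, 1, [(true, 1), (false, 3), (true, 1), (false, -3), (true, -1)]), (109, 0, [])], [(90,
  -1, []), (0, 1, [(true, 1), (false, 3), (true, 1), (false, -3), (true, -1), (false, 1)]), (110,
  0, [])], [(90, -1, []), (2, 1, [(true, 1), (false, 3), (true, 1), (false, -3), (true, -1),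
  (false, 1)]), (111, 0, [])]]

/-- Rows of the table. -/
def clX7 : List FS :=
  [[(90, -1, []), (0, 1, [(true, 1), (false, 3), (true, 1), (false, -3), (true, -1), (false, 2)]),
  (112, 0, [])], [(90, -1, []), (2, 1, [(true, 1), (false, 3), (true, 1), (false, -3), (true, -1),
  (false, 2)]), (113, 0, [])], [(90, -1, []), (0, 1, [(true, 1), (false, 3), (true, 1), (false,
  -3), (true, -1), (false, 3)]), (114, 0, [])], [(90, -1, []), (5, 1, [(true, 1), (false, 3),
  (true, 1), (false, -3), (true, -1), (false, 3), (true, -1)]), (115, 0, [])], [(90, -1, []), (0,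
  1, [(true, 1), (false, 3), (true, 1), (false, -3), (true, -1), (false, 3), (true, -1)]), (116, 0,
  [])], [(90, -1, []), (2, 1, [(true, 1), (false, 3), (true, 1), (false, -3), (true, -1), (false,
  3), (true, -1), (false, -1)]), (117, 0, [])], [(90, -1, []), (0, 1, [(true, 1), (false, 3),
  (true, 1), (false, -3), (true, -1), (false, 3), (true, -1), (false, -1)]), (118, 0, [])], [(90,
  -1, []), (2, 1, [(true, 1), (false, 3), (true, 1), (false, -3), (true, -1), (false, 3), (true,
  -1), (false, -2)]), (119, 0, [])], [(90, -1, []), (0, 1, [(true, 1), (false, 3), (true, 1),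
  (false, -3), (true, -1), (false, 3), (true, -1), (false, -2)]), (120, 0, [])], [(90, -1, []), (2,
  1, [(true, 1), (false, 3), (true, 1), (false, -3), (true, -1), (false, 3), (true, -1), (false,
  -3)]), (121, 0, [])], [(90, 0, []), (0, 0, []), (89, 1, []), (5, 0, []), (4, 1, []), (91, -1,
  []), (122, 0, [])], [(90, 0, []), (5, 0, []), (91, 1, []), (0, 0, [(true, 1)]), (6, 1, []), (92,
  -1, []), (123, 0, [])], [(90, 0, []), (0, 0, [(true, 1)]), (92, 1, []), (2, 0, [(true, 1)]), (1,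
  1, [(true, 1)]), (93, -1, []), (124, 0, [])], [(90, 0, []), (2, 0, [(true, 1)]), (93, 1, []), (0,
  0, [(true, 1), (false, 1)]), (3, 1, [(true, 1)]), (94, -1, []), (125, 0, [])], [(90, 0, []), (0,
  0, [(true, 1), (false, 1)]), (94, 1, []), (2, 0, [(true, 1), (false, 1)]), (1, 1, [(true, 1),
  (false, 1)]), (95, -1, []), (126, 0, [])], [(90, 0, []), (2, 0, [(true, 1), (false, 1)]), (95, 1,
  []), (0, 0, [(true, 1), (false, 2)]), (3, 1, [(true, 1), (false, 1)]), (96, -1, []), (127, 0,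
  [])]]

/-- Rows of the table. -/
def clX8 : List FS :=
  [[(90, 0, []), (0, 0, [(true, 1), (false, 2)]), (96, 1, []), (2, 0, [(true, 1), (false, 2)]), (1,
  1, [(true, 1), (false, 2)]), (97, -1, []), (128, 0, [])], [(90, 0, []), (2, 0, [(true, 1),
  (false, 2)]), (97, 1, []), (0, 0, [(true, 1), (false, 3)]), (3, 1, [(true, 1), (false, 2)]), (98,
  -1, []), (129, 0, [])], [(90, 0, []), (0, 0, [(true, 1), (false, 3)]), (98, 1, []), (5, 0,
  [(true, 1), (false, 3)]), (4, 1, [(true, 1), (false, 3)]), (99, -1, []), (130, 0, [])], [(90, 0,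
  []), (5, 0, [(true, 1), (false, 3)]), (99, 1, []), (0, 0, [(true, 1), (false, 3), (true, 1)]),
  (6, 1, [(true, 1), (false, 3)]), (100, -1, []), (131, 0, [])], [(90, 0, []), (0, 0, [(true, 1),
  (false, 3), (true, 1)]), (100, 1, []), (2, 0, [(true, 1), (false, 3), (true, 1), (false, -1)]),
  (3, -1, [(true, 1), (false, 3), (true, 1), (false, -1)]), (101, -1, []), (132, 0, [])], [(90, 0,
  []), (2, 0, [(true, 1), (false, 3), (true, 1), (false, -1)]), (101, 1, []), (0, 0, [(true, 1),
  (false, 3), (true, 1), (false, -1)]), (1, -1, [(true, 1), (false, 3), (true, 1), (false, -1)]),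
  (102, -1, []), (133, 0, [])], [(90, 0, []), (0, 0, [(true, 1), (false, 3), (true, 1), (false,
  -1)]), (102, 1, []), (2, 0, [(true, 1), (false, 3), (true, 1), (false, -2)]), (3, -1, [(true, 1),
  (false, 3), (true, 1), (false, -2)]), (103, -1, []), (134, 0, [])], [(90, 0, []), (2, 0, [(true,
  1), (false, 3), (true, 1), (false, -2)]), (103, 1, []), (0, 0, [(true, 1), (false, 3), (true, 1),
  (false, -2)]), (1, -1, [(true, 1), (false, 3), (true, 1), (false, -2)]), (104, -1, []), (135, 0,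
  [])], [(90, 0, []), (0, 0, [(true, 1), (false, 3), (true, 1), (false, -2)]), (104, 1, []), (2, 0,
  [(true, 1), (false, 3), (true, 1), (false, -3)]), (3, -1, [(true, 1), (false, 3), (true, 1),
  (false, -3)]), (105, -1, []), (136, 0, [])], [(90, 0, []), (2, 0, [(true, 1), (false, 3), (true,
  1), (false, -3)]), (105, 1, []), (0, 0, [(true, 1), (false, 3), (true, 1), (false, -3)]), (1, -1,
  [(true, 1), (false, 3), (true, 1), (false, -3)]), (106, -1, []), (137, 0, [])], [(90, 0, []), (0,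
  0, [(true, 1), (false, 3), (true, 1), (false, -3)]), (106, 1, []), (5, 0, [(true, 1), (false, 3),
  (true, 1), (false, -3), (true, -1)]), (6, -1, [(true, 1), (false, 3), (true, 1), (false, -3),
  (true, -1)]), (107, -1, []), (138, 0, [])], [(90, 0, []), (5, 0, [(true, 1), (false, 3), (true,
  1), (false, -3), (true, -1)]), (107, 1, []), (0, 0, [(true, 1), (false, 3), (true, 1), (false,
  -3), (true, -1)]), (4, -1, [(true, 1), (false, 3), (true, 1), (false, -3), (true, -1)]), (108,
  -1, []), (139, 0, [])], [(90, 0, []), (0, 0, [(true, 1), (false, 3), (true, 1), (false, -3),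
  (true, -1)]), (108, 1, []), (2, 0, [(true, 1), (false, 3), (true, 1), (false, -3), (true, -1)]),
  (1, 1, [(true, 1), (false, 3), (true, 1), (false, -3), (true, -1)]), (109, -1, []), (140, 0,
  [])], [(90, 0, []), (2, 0, [(true, 1), (false, 3), (true, 1), (false, -3), (true, -1)]), (109, 1,
  []), (0, 0, [(true, 1), (false, 3), (true, 1), (false, -3), (true, -1), (false, 1)]), (3, 1,
  [(true, 1), (false, 3), (true, 1), (false, -3), (true, -1)]), (110, -1, []), (141, 0, [])], [(90,
  0, []), (0, 0, [(true, 1), (false, 3), (true, 1), (false, -3), (true, -1), (false, 1)]), (110, 1,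
  []), (2, 0, [(true, 1), (false, 3), (true, 1), (false, -3), (true, -1), (false, 1)]), (1, 1,
  [(true, 1), (false, 3), (true, 1), (false, -3), (true, -1), (false, 1)]), (111, -1, []), (142, 0,
  [])], [(90, 0, []), (2, 0, [(true, 1), (false, 3), (true, 1), (false, -3), (true, -1), (false,
  1)]), (111, 1, []), (0, 0, [(true, 1), (false, 3), (true, 1), (false, -3), (true, -1), (false,
  2)]), (3, 1, [(true, 1), (false, 3), (true, 1), (false, -3), (true, -1), (false, 1)]), (112, -1,
  []), (143, 0, [])]]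

/-- Rows of the table. -/
def clX9 : List FS :=
  [[(90, 0, []), (0, 0, [(true, 1), (false, 3), (true, 1), (false, -3), (true, -1), (false, 2)]),
  (112, 1, []), (2, 0, [(true, 1), (false, 3), (true, 1), (false, -3), (true, -1), (false, 2)]),
  (1, 1, [(true, 1), (false, 3), (true, 1), (false, -3), (true, -1), (false, 2)]), (113, -1, []),
  (144, 0, [])], [(90, 0, []), (2, 0, [(true, 1), (false, 3), (true, 1), (false, -3), (true, -1),
  (false, 2)]), (113, 1, []), (0, 0, [(true, 1), (false, 3), (true, 1), (false, -3), (true, -1),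
  (false, 3)]), (3, 1, [(true, 1), (false, 3), (true, 1), (false, -3), (true, -1), (false, 2)]),
  (114, -1, []), (145, 0, [])], [(90, 0, []), (0, 0, [(true, 1), (false, 3), (true, 1), (false,
  -3), (true, -1), (false, 3)]), (114, 1, []), (5, 0, [(true, 1), (false, 3), (true, 1), (false,
  -3), (true, -1), (false, 3), (true, -1)]), (6, -1, [(true, 1), (false, 3), (true, 1), (false,
  -3), (true, -1), (false, 3), (true, -1)]), (115, -1, []), (146, 0, [])], [(90, 0, []), (5, 0,
  [(true, 1), (false, 3), (true, 1), (false, -3), (true, -1), (false, 3), (true, -1)]), (115, 1,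
  []), (0, 0, [(true, 1), (false, 3), (true, 1), (false, -3), (true, -1), (false, 3), (true, -1)]),
  (4, -1, [(true, 1), (false, 3), (true, 1), (false, -3), (true, -1), (false, 3), (true, -1)]),
  (116, -1, []), (147, 0, [])], [(90, 0, []), (0, 0, [(true, 1), (false, 3), (true, 1), (false,
  -3), (true, -1), (false, 3), (true, -1)]), (116, 1, []), (2, 0, [(true, 1), (false, 3), (true,
  1), (false, -3), (true, -1), (false, 3), (true, -1), (false, -1)]), (3, -1, [(true, 1), (false,
  3), (true, 1), (false, -3), (true, -1), (false, 3), (true, -1), (false, -1)]), (117, -1, []),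
  (148, 0, [])], [(90, 0, []), (2, 0, [(true, 1), (false, 3), (true, 1), (false, -3), (true, -1),
  (false, 3), (true, -1), (false, -1)]), (117, 1, []), (0, 0, [(true, 1), (false, 3), (true, 1),
  (false, -3), (true, -1), (false, 3), (true, -1), (false, -1)]), (1, -1, [(true, 1), (false, 3),
  (true, 1), (false, -3), (true, -1), (false, 3), (true, -1), (false, -1)]), (118, -1, []), (149,
  0, [])], [(90, 0, []), (0, 0, [(true, 1), (false, 3), (true, 1), (false, -3), (true, -1), (false,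
  3), (true, -1), (false, -1)]), (118, 1, []), (2, 0, [(true, 1), (false, 3), (true, 1), (false,
  -3), (true, -1), (false, 3), (true, -1), (false, -2)]), (3, -1, [(true, 1), (false, 3), (true,
  1), (false, -3), (true, -1), (false, 3), (true, -1), (false, -2)]), (119, -1, []), (150, 0, [])],
  [(90, 0, []), (2, 0, [(true, 1), (false, 3), (true, 1), (false, -3), (true, -1), (false, 3),
  (true, -1), (false, -2)]), (119, 1, []), (0, 0, [(true, 1), (false, 3), (true, 1), (false, -3),
  (true, -1), (false, 3), (true, -1), (false, -2)]), (1, -1, [(true, 1), (false, 3), (true, 1),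
  (false, -3), (true, -1), (false, 3), (true, -1), (false, -2)]), (120, -1, []), (151, 0, [])],
  [(90, 0, []), (0, 0, [(true, 1), (false, 3), (true, 1), (false, -3), (true, -1), (false, 3),
  (true, -1), (false, -2)]), (120, 1, []), (2, 0, [(true, 1), (false, 3), (true, 1), (false, -3),
  (true, -1), (false, 3), (true, -1), (false, -3)]), (3, -1, [(true, 1), (false, 3), (true, 1),
  (false, -3), (true, -1), (false, 3), (true, -1), (false, -3)]), (121, -1, []), (152, 0, [])],
  [(90, 0, []), (2, 0, [(true, 1), (false, 3), (true, 1), (false, -3), (true, -1), (false, 3),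
  (true, -1), (false, -3)]), (121, 1, []), (0, 0, []), (1, -1, [(true, 1), (false, 3), (true, 1),
  (false, -3), (true, -1), (false, 3), (true, -1), (false, -3)]), (89, -1, []), (153, 0, [])],
  [(155, -1, []), (0, 1, []), (154, 0, [])], [(155, 0, [])], [(155, -1, []), (2, 1, []), (156, 0,
  [])], [(155, -1, []), (0, 1, [(false, 1)]), (157, 0, [])], [(155, -1, []), (2, 1, [(false, 1)]),
  (158, 0, [])], [(155, -1, []), (0, 1, [(false, 2)]), (159, 0, [])]]

/-- Rows of the table. -/
def clX10 : List FS :=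
  [[(155, -1, []), (2, 1, [(false, 2)]), (160, 0, [])], [(155, -1, []), (0, 1, [(false, 3)]), (161,
  0, [])], [(155, -1, []), (2, 1, [(false, 3)]), (162, 0, [])], [(155, -1, []), (0, 1, [(false,
  4)]), (163, 0, [])], [(155, -1, []), (2, 1, [(false, 4)]), (164, 0, [])], [(155, -1, []), (0, 1,
  [(false, 5)]), (165, 0, [])], [(155, -1, []), (2, 1, [(false, 5)]), (166, 0, [])], [(155, -1,
  []), (0, 1, [(false, 6)]), (167, 0, [])], [(155, -1, []), (2, 1, [(false, 6)]), (168, 0, [])],
  [(155, -1, []), (0, 1, [(false, 7)]), (169, 0, [])], [(155, -1, []), (2, 1, [(false, 7)]), (170,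
  0, [])], [(155, -1, []), (0, 1, [(false, 8)]), (171, 0, [])], [(155, -1, []), (5, 1, [(false,
  8)]), (172, 0, [])], [(155, -1, []), (0, 1, [(false, 8), (true, 1)]), (173, 0, [])], [(155, -1,
  []), (2, 1, [(false, 8), (true, 1)]), (174, 0, [])], [(155, -1, []), (0, 1, [(false, 8), (true,
  1), (false, 1)]), (175, 0, [])]]

/-- Rows of the table. -/
def clX11 : List FS :=
  [[(155, -1, []), (2, 1, [(false, 8), (true, 1), (false, 1)]), (176, 0, [])], [(155, -1, []), (0,
  1, [(false, 8), (true, 1), (false, 2)]), (177, 0, [])], [(155, -1, []), (2, 1, [(false, 8),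
  (true, 1), (false, 2)]), (178, 0, [])], [(155, -1, []), (0, 1, [(false, 8), (true, 1), (false,
  3)]), (179, 0, [])], [(155, -1, []), (2, 1, [(false, 8), (true, 1), (false, 3)]), (180, 0, [])],
  [(155, -1, []), (0, 1, [(false, 8), (true, 1), (false, 4)]), (181, 0, [])], [(155, -1, []), (5,
  1, [(false, 8), (true, 1), (false, 4)]), (182, 0, [])], [(155, -1, []), (0, 1, [(false, 8),
  (true, 1), (false, 4), (true, 1)]), (183, 0, [])], [(155, -1, []), (2, 1, [(false, 8), (true, 1),
  (false, 4), (true, 1), (false, -1)]), (184, 0, [])], [(155, -1, []), (0, 1, [(false, 8), (true,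
  1), (false, 4), (true, 1), (false, -1)]), (185, 0, [])], [(155, -1, []), (2, 1, [(false, 8),
  (true, 1), (false, 4), (true, 1), (false, -2)]), (186, 0, [])], [(155, -1, []), (0, 1, [(false,
  8), (true, 1), (false, 4), (true, 1), (false, -2)]), (187, 0, [])], [(155, -1, []), (2, 1,
  [(false, 8), (true, 1), (false, 4), (true, 1), (false, -3)]), (188, 0, [])], [(155, -1, []), (0,
  1, [(false, 8), (true, 1), (false, 4), (true, 1), (false, -3)]), (189, 0, [])], [(155, -1, []),
  (2, 1, [(false, 8), (true, 1), (false, 4), (true, 1), (false, -4)]), (190, 0, [])], [(155, -1,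
  []), (0, 1, [(false, 8), (true, 1), (false, 4), (true, 1), (false, -4)]), (191, 0, [])]]

/-- Rows of the table. -/
def clX12 : List FS :=
  [[(155, -1, []), (5, 1, [(false, 8), (true, 1), (false, 4), (true, 1), (false, -4), (true, -1)]),
  (192, 0, [])], [(155, -1, []), (0, 1, [(false, 8), (true, 1), (false, 4), (true, 1), (false, -4),
  (true, -1)]), (193, 0, [])], [(155, -1, []), (2, 1, [(false, 8), (true, 1), (false, 4), (true,
  1), (false, -4), (true, -1)]), (194, 0, [])], [(155, -1, []), (0, 1, [(false, 8), (true, 1),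
  (false, 4), (true, 1), (false, -4), (true, -1), (false, 1)]), (195, 0, [])], [(155, -1, []), (2,
  1, [(false, 8), (true, 1), (false, 4), (true, 1), (false, -4), (true, -1), (false, 1)]), (196, 0,
  [])], [(155, -1, []), (0, 1, [(false, 8), (true, 1), (false, 4), (true, 1), (false, -4), (true,
  -1), (false, 2)]), (197, 0, [])], [(155, -1, []), (2, 1, [(false, 8), (true, 1), (false, 4),
  (true, 1), (false, -4), (true, -1), (false, 2)]), (198, 0, [])], [(155, -1, []), (0, 1, [(false,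
  8), (true, 1), (false, 4), (true, 1), (false, -4), (true, -1), (false, 3)]), (199, 0, [])],
  [(155, -1, []), (2, 1, [(false, 8), (true, 1), (false, 4), (true, 1), (false, -4), (true, -1),
  (false, 3)]), (200, 0, [])], [(155, -1, []), (0, 1, [(false, 8), (true, 1), (false, 4), (true,
  1), (false, -4), (true, -1), (false, 4)]), (201, 0, [])], [(155, -1, []), (5, 1, [(false, 8),
  (true, 1), (false, 4), (true, 1), (false, -4), (true, -1), (false, 4), (true, -1)]), (202, 0,
  [])], [(155, -1, []), (0, 1, [(false, 8), (true, 1), (false, 4), (true, 1), (false, -4), (true,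
  -1), (false, 4), (true, -1)]), (203, 0, [])], [(155, -1, []), (2, 1, [(false, 8), (true, 1),
  (false, 4), (true, 1), (false, -4), (true, -1), (false, 4), (true, -1), (false, -1)]), (204, 0,
  [])], [(155, -1, []), (0, 1, [(false, 8), (true, 1), (false, 4), (true, 1), (false, -4), (true,
  -1), (false, 4), (true, -1), (false, -1)]), (205, 0, [])], [(155, -1, []), (2, 1, [(false, 8),
  (true, 1), (false, 4), (true, 1), (false, -4), (true, -1), (false, 4), (true, -1), (false, -2)]),
  (206, 0, [])], [(155, -1, []), (0, 1, [(false, 8), (true, 1), (false, 4), (true, 1), (false, -4),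
  (true, -1), (false, 4), (true, -1), (false, -2)]), (207, 0, [])]]

/-- Rows of the table. -/
def clX13 : List FS :=
  [[(155, -1, []), (2, 1, [(false, 8), (true, 1), (false, 4), (true, 1), (false, -4), (true, -1),
  (false, 4), (true, -1), (false, -3)]), (208, 0, [])], [(155, -1, []), (0, 1, [(false, 8), (true,
  1), (false, 4), (true, 1), (false, -4), (true, -1), (false, 4), (true, -1), (false, -3)]), (209,
  0, [])], [(155, -1, []), (2, 1, [(false, 8), (true, 1), (false, 4), (true, 1), (false, -4),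
  (true, -1), (false, 4), (true, -1), (false, -4)]), (210, 0, [])], [(155, 0, []), (0, 0, []),
  (154, 1, []), (2, 0, []), (1, 1, []), (156, -1, []), (211, 0, [])], [(155, 0, []), (2, 0, []),
  (156, 1, []), (0, 0, [(false, 1)]), (3, 1, []), (157, -1, []), (212, 0, [])], [(155, 0, []), (0,
  0, [(false, 1)]), (157, 1, []), (2, 0, [(false, 1)]), (1, 1, [(false, 1)]), (158, -1, []), (213,
  0, [])], [(155, 0, []), (2, 0, [(false, 1)]), (158, 1, []), (0, 0, [(false, 2)]), (3, 1, [(false,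
  1)]), (159, -1, []), (214, 0, [])], [(155, 0, []), (0, 0, [(false, 2)]), (159, 1, []), (2, 0,
  [(false, 2)]), (1, 1, [(false, 2)]), (160, -1, []), (215, 0, [])], [(155, 0, []), (2, 0, [(false,
  2)]), (160, 1, []), (0, 0, [(false, 3)]), (3, 1, [(false, 2)]), (161, -1, []), (216, 0, [])],
  [(155, 0, []), (0, 0, [(false, 3)]), (161, 1, []), (2, 0, [(false, 3)]), (1, 1, [(false, 3)]),
  (162, -1, []), (217, 0, [])], [(155, 0, []), (2, 0, [(false, 3)]), (162, 1, []), (0, 0, [(false,
  4)]), (3, 1, [(false, 3)]), (163, -1, []), (218, 0, [])], [(155, 0, []), (0, 0, [(false, 4)]),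
  (163, 1, []), (2, 0, [(false, 4)]), (1, 1, [(false, 4)]), (164, -1, []), (219, 0, [])], [(155, 0,
  []), (2, 0, [(false, 4)]), (164, 1, []), (0, 0, [(false, 5)]), (3, 1, [(false, 4)]), (165, -1,
  []), (220, 0, [])], [(155, 0, []), (0, 0, [(false, 5)]), (165, 1, []), (2, 0, [(false, 5)]), (1,
  1, [(false, 5)]), (166, -1, []), (221, 0, [])], [(155, 0, []), (2, 0, [(false, 5)]), (166, 1,
  []), (0, 0, [(false, 6)]), (3, 1, [(false, 5)]), (167, -1, []), (222, 0, [])], [(155, 0, []), (0,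
  0, [(false, 6)]), (167, 1, []), (2, 0, [(false, 6)]), (1, 1, [(false, 6)]), (168, -1, []), (223,
  0, [])]]

/-- Rows of the table. -/
def clX14 : List FS :=
  [[(155, 0, []), (2, 0, [(false, 6)]), (168, 1, []), (0, 0, [(false, 7)]), (3, 1, [(false, 6)]),
  (169, -1, []), (224, 0, [])], [(155, 0, []), (0, 0, [(false, 7)]), (169, 1, []), (2, 0, [(false,
  7)]), (1, 1, [(false, 7)]), (170, -1, []), (225, 0, [])], [(155, 0, []), (2, 0, [(false, 7)]),
  (170, 1, []), (0, 0, [(false, 8)]), (3, 1, [(false, 7)]), (171, -1, []), (226, 0, [])], [(155, 0,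
  []), (0, 0, [(false, 8)]), (171, 1, []), (5, 0, [(false, 8)]), (4, 1, [(false, 8)]), (172, -1,
  []), (227, 0, [])], [(155, 0, []), (5, 0, [(false, 8)]), (172, 1, []), (0, 0, [(false, 8), (true,
  1)]), (6, 1, [(false, 8)]), (173, -1, []), (228, 0, [])], [(155, 0, []), (0, 0, [(false, 8),
  (true, 1)]), (173, 1, []), (2, 0, [(false, 8), (true, 1)]), (1, 1, [(false, 8), (true, 1)]),
  (174, -1, []), (229, 0, [])], [(155, 0, []), (2, 0, [(false, 8), (true, 1)]), (174, 1, []), (0,
  0, [(false, 8), (true, 1), (false, 1)]), (3, 1, [(false, 8), (true, 1)]), (175, -1, []), (230, 0,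
  [])], [(155, 0, []), (0, 0, [(false, 8), (true, 1), (false, 1)]), (175, 1, []), (2, 0, [(false,
  8), (true, 1), (false, 1)]), (1, 1, [(false, 8), (true, 1), (false, 1)]), (176, -1, []), (231, 0,
  [])], [(155, 0, []), (2, 0, [(false, 8), (true, 1), (false, 1)]), (176, 1, []), (0, 0, [(false,
  8), (true, 1), (false, 2)]), (3, 1, [(false, 8), (true, 1), (false, 1)]), (177, -1, []), (232, 0,
  [])], [(155, 0, []), (0, 0, [(false, 8), (true, 1), (false, 2)]), (177, 1, []), (2, 0, [(false,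
  8), (true, 1), (false, 2)]), (1, 1, [(false, 8), (true, 1), (false, 2)]), (178, -1, []), (233, 0,
  [])], [(155, 0, []), (2, 0, [(false, 8), (true, 1), (false, 2)]), (178, 1, []), (0, 0, [(false,
  8), (true, 1), (false, 3)]), (3, 1, [(false, 8), (true, 1), (false, 2)]), (179, -1, []), (234, 0,
  [])], [(155, 0, []), (0, 0, [(false, 8), (true, 1), (false, 3)]), (179, 1, []), (2, 0, [(false,
  8), (true, 1), (false, 3)]), (1, 1, [(false, 8), (true, 1), (false, 3)]), (180, -1, []), (235, 0,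
  [])], [(155, 0, []), (2, 0, [(false, 8), (true, 1), (false, 3)]), (180, 1, []), (0, 0, [(false,
  8), (true, 1), (false, 4)]), (3, 1, [(false, 8), (true, 1), (false, 3)]), (181, -1, []), (236, 0,
  [])], [(155, 0, []), (0, 0, [(false, 8), (true, 1), (false, 4)]), (181, 1, []), (5, 0, [(false,
  8), (true, 1), (false, 4)]), (4, 1, [(false, 8), (true, 1), (false, 4)]), (182, -1, []), (237, 0,
  [])], [(155, 0, []), (5, 0, [(false, 8), (true, 1), (false, 4)]), (182, 1, []), (0, 0, [(false,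
  8), (true, 1), (false, 4), (true, 1)]), (6, 1, [(false, 8), (true, 1), (false, 4)]), (183, -1,
  []), (238, 0, [])], [(155, 0, []), (0, 0, [(false, 8), (true, 1), (false, 4), (true, 1)]), (183,
  1, []), (2, 0, [(false, 8), (true, 1), (false, 4), (true, 1), (false, -1)]), (3, -1, [(false, 8),
  (true, 1), (false, 4), (true, 1), (false, -1)]), (184, -1, []), (239, 0, [])]]

/-- Rows of the table. -/
def clX15 : List FS :=
  [[(155, 0, []), (2, 0, [(false, 8), (true, 1), (false, 4), (true, 1), (false, -1)]), (184, 1,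
  []), (0, 0, [(false, 8), (true, 1), (false, 4), (true, 1), (false, -1)]), (1, -1, [(false, 8),
  (true, 1), (false, 4), (true, 1), (false, -1)]), (185, -1, []), (240, 0, [])], [(155, 0, []), (0,
  0, [(false, 8), (true, 1), (false, 4), (true, 1), (false, -1)]), (185, 1, []), (2, 0, [(false,
  8), (true, 1), (false, 4), (true, 1), (false, -2)]), (3, -1, [(false, 8), (true, 1), (false, 4),
  (true, 1), (false, -2)]), (186, -1, []), (241, 0, [])], [(155, 0, []), (2, 0, [(false, 8), (true,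
  1), (false, 4), (true, 1), (false, -2)]), (186, 1, []), (0, 0, [(false, 8), (true, 1), (false,
  4), (true, 1), (false, -2)]), (1, -1, [(false, 8), (true, 1), (false, 4), (true, 1), (false,
  -2)]), (187, -1, []), (242, 0, [])], [(155, 0, []), (0, 0, [(false, 8), (true, 1), (false, 4),
  (true, 1), (false, -2)]), (187, 1, []), (2, 0, [(false, 8), (true, 1), (false, 4), (true, 1),
  (false, -3)]), (3, -1, [(false, 8), (true, 1), (false, 4), (true, 1), (false, -3)]), (188, -1,
  []), (243, 0, [])], [(155, 0, []), (2, 0, [(false, 8), (true, 1), (false, 4), (true, 1), (false,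
  -3)]), (188, 1, []), (0, 0, [(false, 8), (true, 1), (false, 4), (true, 1), (false, -3)]), (1, -1,
  [(false, 8), (true, 1), (false, 4), (true, 1), (false, -3)]), (189, -1, []), (244, 0, [])],
  [(155, 0, []), (0, 0, [(false, 8), (true, 1), (false, 4), (true, 1), (false, -3)]), (189, 1, []),
  (2, 0, [(false, 8), (true, 1), (false, 4), (true, 1), (false, -4)]), (3, -1, [(false, 8), (true,
  1), (false, 4), (true, 1), (false, -4)]), (190, -1, []), (245, 0, [])], [(155, 0, []), (2, 0,
  [(false, 8), (true, 1), (false, 4), (true, 1), (false, -4)]), (190, 1, []), (0, 0, [(false, 8),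
  (true, 1), (false, 4), (true, 1), (false, -4)]), (1, -1, [(false, 8), (true, 1), (false, 4),
  (true, 1), (false, -4)]), (191, -1, []), (246, 0, [])], [(155, 0, []), (0, 0, [(false, 8), (true,
  1), (false, 4), (true, 1), (false, -4)]), (191, 1, []), (5, 0, [(false, 8), (true, 1), (false,
  4), (true, 1), (false, -4), (true, -1)]), (6, -1, [(false, 8), (true, 1), (false, 4), (true, 1),
  (false, -4), (true, -1)]), (192, -1, []), (247, 0, [])], [(155, 0, []), (5, 0, [(false, 8),
  (true, 1), (false, 4), (true, 1), (false, -4), (true, -1)]), (192, 1, []), (0, 0, [(false, 8),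
  (true, 1), (false, 4), (true, 1), (false, -4), (true, -1)]), (4, -1, [(false, 8), (true, 1),
  (false, 4), (true, 1), (false, -4), (true, -1)]), (193, -1, []), (248, 0, [])], [(155, 0, []),
  (0, 0, [(false, 8), (true, 1), (false, 4), (true, 1), (false, -4), (true, -1)]), (193, 1, []),
  (2, 0, [(false, 8), (true, 1), (false, 4), (true, 1), (false, -4), (true, -1)]), (1, 1, [(false,
  8), (true, 1), (false, 4), (true, 1), (false, -4), (true, -1)]), (194, -1, []), (249, 0, [])],
  [(155, 0, []), (2, 0, [(false, 8), (true, 1), (false, 4), (true, 1), (false, -4), (true, -1)]),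
  (194, 1, []), (0, 0, [(false, 8), (true, 1), (false, 4), (true, 1), (false, -4), (true, -1),
  (false, 1)]), (3, 1, [(false, 8), (true, 1), (false, 4), (true, 1), (false, -4), (true, -1)]),
  (195, -1, []), (250, 0, [])], [(155, 0, []), (0, 0, [(false, 8), (true, 1), (false, 4), (true,
  1), (false, -4), (true, -1), (false, 1)]), (195, 1, []), (2, 0, [(false, 8), (true, 1), (false,
  4), (true, 1), (false, -4), (true, -1), (false, 1)]), (1, 1, [(false, 8), (true, 1), (false, 4),
  (true, 1), (false, -4), (true, -1), (false, 1)]), (196, -1, []), (251, 0, [])], [(155, 0, []),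
  (2, 0, [(false, 8), (true, 1), (false, 4), (true, 1), (false, -4), (true, -1), (false, 1)]),
  (196, 1, []), (0, 0, [(false, 8), (true, 1), (false, 4), (true, 1), (false, -4), (true, -1),
  (false, 2)]), (3, 1, [(false, 8), (true, 1), (false, 4), (true, 1), (false, -4), (true, -1),
  (false, 1)]), (197, -1, []), (252, 0, [])], [(155, 0, []), (0, 0, [(false, 8), (true, 1), (false,
  4), (true, 1), (false, -4), (true, -1), (false, 2)]), (197, 1, []), (2, 0, [(false, 8), (true,
  1), (false, 4), (true, 1), (false, -4), (true, -1), (false, 2)]), (1, 1, [(false, 8), (true, 1),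
  (false, 4), (true, 1), (false, -4), (true, -1), (false, 2)]), (198, -1, []), (253, 0, [])],
  [(155, 0, []), (2, 0, [(false, 8), (true, 1), (false, 4), (true, 1), (false, -4), (true, -1),
  (false, 2)]), (198, 1, []), (0, 0, [(false, 8), (true, 1), (false, 4), (true, 1), (false, -4),
  (true, -1), (false, 3)]), (3, 1, [(false, 8), (true, 1), (false, 4), (true, 1), (false, -4),
  (true, -1), (false, 2)]), (199, -1, []), (254, 0, [])], [(155, 0, []), (0, 0, [(false, 8), (true,
  1), (false, 4), (true, 1), (false, -4), (true, -1), (false, 3)]), (199, 1, []), (2, 0, [(false,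
  8), (true, 1), (false, 4), (true, 1), (false, -4), (true, -1), (false, 3)]), (1, 1, [(false, 8),
  (true, 1), (false, 4), (true, 1), (false, -4), (true, -1), (false, 3)]), (200, -1, []), (255, 0,
  [])]]

/-- Rows of the table. -/
def clX16 : List FS :=
  [[(155, 0, []), (2, 0, [(false, 8), (true, 1), (false, 4), (true, 1), (false, -4), (true, -1),
  (false, 3)]), (200, 1, []), (0, 0, [(false, 8), (true, 1), (false, 4), (true, 1), (false, -4),
  (true, -1), (false, 4)]), (3, 1, [(false, 8), (true, 1), (false, 4), (true, 1), (false, -4),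
  (true, -1), (false, 3)]), (201, -1, []), (256, 0, [])], [(155, 0, []), (0, 0, [(false, 8), (true,
  1), (false, 4), (true, 1), (false, -4), (true, -1), (false, 4)]), (201, 1, []), (5, 0, [(false,
  8), (true, 1), (false, 4), (true, 1), (false, -4), (true, -1), (false, 4), (true, -1)]), (6, -1,
  [(false, 8), (true, 1), (false, 4), (true, 1), (false, -4), (true, -1), (false, 4), (true, -1)]),
  (202, -1, []), (257, 0, [])], [(155, 0, []), (5, 0, [(false, 8), (true, 1), (false, 4), (true,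
  1), (false, -4), (true, -1), (false, 4), (true, -1)]), (202, 1, []), (0, 0, [(false, 8), (true,
  1), (false, 4), (true, 1), (false, -4), (true, -1), (false, 4), (true, -1)]), (4, -1, [(false,
  8), (true, 1), (false, 4), (true, 1), (false, -4), (true, -1), (false, 4), (true, -1)]), (203,
  -1, []), (258, 0, [])], [(155, 0, []), (0, 0, [(false, 8), (true, 1), (false, 4), (true, 1),
  (false, -4), (true, -1), (false, 4), (true, -1)]), (203, 1, []), (2, 0, [(false, 8), (true, 1),
  (false, 4), (true, 1), (false, -4), (true, -1), (false, 4), (true, -1), (false, -1)]), (3, -1,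
  [(false, 8), (true, 1), (false, 4), (true, 1), (false, -4), (true, -1), (false, 4), (true, -1),
  (false, -1)]), (204, -1, []), (259, 0, [])], [(155, 0, []), (2, 0, [(false, 8), (true, 1),
  (false, 4), (true, 1), (false, -4), (true, -1), (false, 4), (true, -1), (false, -1)]), (204, 1,
  []), (0, 0, [(false, 8), (true, 1), (false, 4), (true, 1), (false, -4), (true, -1), (false, 4),
  (true, -1), (false, -1)]), (1, -1, [(false, 8), (true, 1), (false, 4), (true, 1), (false, -4),
  (true, -1), (false, 4), (true, -1), (false, -1)]), (205, -1, []), (260, 0, [])], [(155, 0, []),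
  (0, 0, [(false, 8), (true, 1), (false, 4), (true, 1), (false, -4), (true, -1), (false, 4), (true,
  -1), (false, -1)]), (205, 1, []), (2, 0, [(false, 8), (true, 1), (false, 4), (true, 1), (false,
  -4), (true, -1), (false, 4), (true, -1), (false, -2)]), (3, -1, [(false, 8), (true, 1), (false,
  4), (true, 1), (false, -4), (true, -1), (false, 4), (true, -1), (false, -2)]), (206, -1, []),
  (261, 0, [])], [(155, 0, []), (2, 0, [(false, 8), (true, 1), (false, 4), (true, 1), (false, -4),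
  (true, -1), (false, 4), (true, -1), (false, -2)]), (206, 1, []), (0, 0, [(false, 8), (true, 1),
  (false, 4), (true, 1), (false, -4), (true, -1), (false, 4), (true, -1), (false, -2)]), (1, -1,
  [(false, 8), (true, 1), (false, 4), (true, 1), (false, -4), (true, -1), (false, 4), (true, -1),
  (false, -2)]), (207, -1, []), (262, 0, [])], [(155, 0, []), (0, 0, [(false, 8), (true, 1),
  (false, 4), (true, 1), (false, -4), (true, -1), (false, 4), (true, -1), (false, -2)]), (207, 1,
  []), (2, 0, [(false, 8), (true, 1), (false, 4), (true, 1), (false, -4), (true, -1), (false, 4),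
  (true, -1), (false, -3)]), (3, -1, [(false, 8), (true, 1), (false, 4), (true, 1), (false, -4),
  (true, -1), (false, 4), (true, -1), (false, -3)]), (208, -1, []), (263, 0, [])], [(155, 0, []),
  (2, 0, [(false, 8), (true, 1), (false, 4), (true, 1), (false, -4), (true, -1), (false, 4), (true,
  -1), (false, -3)]), (208, 1, []), (0, 0, [(false, 8), (true, 1), (false, 4), (true, 1), (false,
  -4), (true, -1), (false, 4), (true, -1), (false, -3)]), (1, -1, [(false, 8), (true, 1), (false,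
  4), (true, 1), (false, -4), (true, -1), (false, 4), (true, -1), (false, -3)]), (209, -1, []),
  (264, 0, [])], [(155, 0, []), (0, 0, [(false, 8), (true, 1), (false, 4), (true, 1), (false, -4),
  (true, -1), (false, 4), (true, -1), (false, -3)]), (209, 1, []), (2, 0, [(false, 8), (true, 1),
  (false, 4), (true, 1), (false, -4), (true, -1), (false, 4), (true, -1), (false, -4)]), (3, -1,
  [(false, 8), (true, 1), (false, 4), (true, 1), (false, -4), (true, -1), (false, 4), (true, -1),
  (false, -4)]), (210, -1, []), (265, 0, [])], [(155, 0, []), (2, 0, [(false, 8), (true, 1),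
  (false, 4), (true, 1), (false, -4), (true, -1), (false, 4), (true, -1), (false, -4)]), (210, 1,
  []), (0, 0, []), (1, -1, [(false, 8), (true, 1), (false, 4), (true, 1), (false, -4), (true, -1),
  (false, 4), (true, -1), (false, -4)]), (154, -1, []), (266, 0, [])], [(268, -1, []), (0, 1, []),
  (267, 0, [])], [(268, 0, [])], [(268, -1, []), (5, 1, []), (269, 0, [])], [(268, -1, []), (0, 1,
  [(true, 1)]), (270, 0, [])], [(268, -1, []), (5, 1, [(true, 1)]), (271, 0, [])]]

/-- Rows of the table. -/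
def clX17 : List FS :=
  [[(268, -1, []), (0, 1, [(true, 2)]), (272, 0, [])], [(268, -1, []), (5, 1, [(true, 2)]), (273,
  0, [])], [(268, -1, []), (0, 1, [(true, 3)]), (274, 0, [])], [(268, -1, []), (5, 1, [(true, 3)]),
  (275, 0, [])], [(268, -1, []), (0, 1, [(true, 4)]), (276, 0, [])], [(268, -1, []), (5, 1, [(true,
  4)]), (277, 0, [])], [(268, 0, []), (0, 0, []), (267, 1, []), (5, 0, []), (4, 1, []), (269, -1,
  []), (278, 0, [])], [(268, 0, []), (5, 0, []), (269, 1, []), (0, 0, [(true, 1)]), (6, 1, []),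
  (270, -1, []), (279, 0, [])], [(268, 0, []), (0, 0, [(true, 1)]), (270, 1, []), (5, 0, [(true,
  1)]), (4, 1, [(true, 1)]), (271, -1, []), (280, 0, [])], [(268, 0, []), (5, 0, [(true, 1)]),
  (271, 1, []), (0, 0, [(true, 2)]), (6, 1, [(true, 1)]), (272, -1, []), (281, 0, [])], [(268, 0,
  []), (0, 0, [(true, 2)]), (272, 1, []), (5, 0, [(true, 2)]), (4, 1, [(true, 2)]), (273, -1, []),
  (282, 0, [])], [(268, 0, []), (5, 0, [(true, 2)]), (273, 1, []), (0, 0, [(true, 3)]), (6, 1,
  [(true, 2)]), (274, -1, []), (283, 0, [])], [(268, 0, []), (0, 0, [(true, 3)]), (274, 1, []), (5,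
  0, [(true, 3)]), (4, 1, [(true, 3)]), (275, -1, []), (284, 0, [])], [(268, 0, []), (5, 0, [(true,
  3)]), (275, 1, []), (0, 0, [(true, 4)]), (6, 1, [(true, 3)]), (276, -1, []), (285, 0, [])],
  [(268, 0, []), (0, 0, [(true, 4)]), (276, 1, []), (5, 0, [(true, 4)]), (4, 1, [(true, 4)]), (277,
  -1, []), (286, 0, [])], [(268, 0, []), (5, 0, [(true, 4)]), (277, 1, []), (0, 0, []), (6, 1,
  [(true, 4)]), (267, -1, []), (287, 0, [])]]

/-- Rows of the table. -/
def clX18 : List FS :=
  [[(289, -1, []), (2, 1, []), (288, 0, [])], [(289, 0, [])], [(268, -1, []), (289, 1, []), (290,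
  0, [])], [(289, -1, []), (268, 1, [(false, 1)]), (291, 0, [])], [(268, 0, []), (0, 0, []), (267,
  1, []), (2, 0, []), (1, 1, []), (289, 0, []), (288, -1, []), (290, -1, []), (292, 0, [])], [(289,
  0, []), (2, 0, []), (288, 1, []), (0, 0, [(false, 1)]), (3, 1, []), (268, 0, [(false, 1)]), (267,
  -1, [(false, 1)]), (291, -1, []), (293, 0, [])]]

/-- Dimensions. -/
def dmX : ℕ → ℕ := tb
  [[0, 1, 0, 1, 1, 0, 1, 1, 0, 1, 1, 1, 1, 1, 1, 1], [1, 1, 1, 1, 1, 1, 1, 1, 2, 2, 2, 2, 2, 2, 2,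
  2], [2, 2, 2, 2, 2, 2, 2, 2, 1, 0, 1, 1, 1, 1, 1, 1], [1, 1, 1, 1, 1, 1, 1, 1, 1, 1, 1, 1, 1, 1,
  1, 1], [1, 2, 2, 2, 2, 2, 2, 2, 2, 2, 2, 2, 2, 2, 2, 2], [2, 2, 2, 2, 2, 2, 2, 2, 2, 1, 0, 1, 1,
  1, 1, 1], [1, 1, 1, 1, 1, 1, 1, 1, 1, 1, 1, 1, 1, 1, 1, 1], [1, 1, 1, 1, 1, 1, 1, 1, 1, 1, 2, 2,
  2, 2, 2, 2], [2, 2, 2, 2, 2, 2, 2, 2, 2, 2, 2, 2, 2, 2, 2, 2], [2, 2, 2, 2, 2, 2, 2, 2, 2, 2, 1,
  0, 1, 1, 1, 1], [1, 1, 1, 1, 1, 1, 1, 1, 1, 1, 1, 1, 1, 1, 1, 1], [1, 1, 1, 1, 1, 1, 1, 1, 1, 1,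
  1, 1, 1, 1, 1, 1], [1, 1, 1, 1, 1, 1, 1, 1, 1, 1, 1, 1, 1, 1, 1, 1], [1, 1, 1, 2, 2, 2, 2, 2, 2,
  2, 2, 2, 2, 2, 2, 2], [2, 2, 2, 2, 2, 2, 2, 2, 2, 2, 2, 2, 2, 2, 2, 2], [2, 2, 2, 2, 2, 2, 2, 2,
  2, 2, 2, 2, 2, 2, 2, 2], [2, 2, 2, 2, 2, 2, 2, 2, 2, 2, 2, 1, 0, 1, 1, 1], [1, 1, 1, 1, 1, 1, 2,
  2, 2, 2, 2, 2, 2, 2, 2, 2], [1, 0, 1, 1, 2, 2]] 0

/-- The table. -/
def tabX : Tab :=
  ⟨294, tb [clX0, clX1, clX2, clX3, clX4, clX5, clX6, clX7, clX8, clX9, clX10, clX11, clX12, clX13,
  clX14, clX15, clX16, clX17, clX18] [], dmX⟩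

/-- The spanning tree. -/
def anX : ℕ → ℕ := tb
  [[0, 0, 1, 2, 0, 4, 5, 0, 7, 8, 8, 8, 8, 8, 8, 8], [8, 8, 8, 8, 8, 8, 8, 8, 8, 8, 8, 8, 8, 8, 8,
  8], [8, 8, 8, 8, 8, 8, 8, 8, 0, 40, 41, 41, 41, 41, 41, 41], [41, 41, 41, 41, 41, 41, 41, 41, 41,
  41, 41, 41, 41, 41, 41, 41], [41, 41, 41, 41, 41, 41, 41, 41, 41, 41, 41, 41, 41, 41, 41, 41],
  [41, 41, 41, 41, 41, 41, 41, 41, 41, 0, 89, 90, 90, 90, 90, 90], [90, 90, 90, 90, 90, 90, 90, 90,
  90, 90, 90, 90, 90, 90, 90, 90], [90, 90, 90, 90, 90, 90, 90, 90, 90, 90, 90, 90, 90, 90, 90,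
  90], [90, 90, 90, 90, 90, 90, 90, 90, 90, 90, 90, 90, 90, 90, 90, 90], [90, 90, 90, 90, 90, 90,
  90, 90, 90, 90, 0, 154, 155, 155, 155, 155], [155, 155, 155, 155, 155, 155, 155, 155, 155, 155,
  155, 155, 155, 155, 155, 155], [155, 155, 155, 155, 155, 155, 155, 155, 155, 155, 155, 155, 155,
  155, 155, 155], [155, 155, 155, 155, 155, 155, 155, 155, 155, 155, 155, 155, 155, 155, 155, 155],
  [155, 155, 155, 155, 155, 155, 155, 155, 155, 155, 155, 155, 155, 155, 155, 155], [155, 155, 155,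
  155, 155, 155, 155, 155, 155, 155, 155, 155, 155, 155, 155, 155], [155, 155, 155, 155, 155, 155,
  155, 155, 155, 155, 155, 155, 155, 155, 155, 155], [155, 155, 155, 155, 155, 155, 155, 155, 155,
  155, 155, 0, 267, 268, 268, 268], [268, 268, 268, 268, 268, 268, 268, 268, 268, 268, 268, 268,
  268, 268, 268, 268], [2, 288, 289, 289, 289, 289]] 0

/-- Times and witnesses. -/
def twX0 : List (List (ℕ × ℕ × ℕ)) :=
  [[], [], [], [], [], [], [], [], [], [(5, 5, 24)], [(0, 9, 25)], [(2, 13, 26)], [(0, 17, 27)],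
  [(5, 21, 28)], [(0, 25, 29)], [(2, 29, 30)]]

/-- Times and witnesses. -/
def twX1 : List (List (ℕ × ℕ × ℕ)) :=
  [[(0, 33, 31)], [(5, 37, 32)], [(0, 41, 33)], [(2, 45, 34)], [(0, 49, 35)], [(5, 53, 36)], [(0,
  57, 37)], [(2, 61, 38)], [(0, 2, 7), (7, 1, 8), (5, 4, 4), (4, 3, 0), (9, 1, 8)], [(5, 6, 9), (9,
  1, 8), (0, 8, 6), (6, 7, 5), (10, 1, 8)], [(0, 10, 10), (10, 1, 8), (2, 12, 1), (1, 11, 0), (11,
  1, 8)], [(2, 14, 11), (11, 1, 8), (0, 16, 3), (3, 15, 2), (12, 1, 8)], [(0, 18, 12), (12, 1, 8),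
  (5, 20, 4), (4, 19, 0), (13, 1, 8)], [(5, 22, 13), (13, 1, 8), (0, 24, 6), (6, 23, 5), (14, 1,
  8)], [(0, 26, 14), (14, 1, 8), (2, 28, 3), (3, 27, 0), (15, 1, 8)], [(2, 30, 15), (15, 1, 8), (0,
  32, 1), (1, 31, 2), (16, 1, 8)]]

/-- Times and witnesses. -/
def twX2 : List (List (ℕ × ℕ × ℕ)) :=
  [[(0, 34, 16), (16, 1, 8), (5, 36, 6), (6, 35, 0), (17, 1, 8)], [(5, 38, 17), (17, 1, 8), (0, 40,
  4), (4, 39, 5), (18, 1, 8)], [(0, 42, 18), (18, 1, 8), (2, 44, 1), (1, 43, 0), (19, 1, 8)], [(2,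
  46, 19), (19, 1, 8), (0, 48, 3), (3, 47, 2), (20, 1, 8)], [(0, 50, 20), (20, 1, 8), (5, 52, 6),
  (6, 51, 0), (21, 1, 8)], [(5, 54, 21), (21, 1, 8), (0, 56, 4), (4, 55, 5), (22, 1, 8)], [(0, 58,
  22), (22, 1, 8), (2, 60, 3), (3, 59, 0), (23, 1, 8)], [(2, 62, 23), (23, 1, 8), (0, 2, 7), (1,
  63, 2), (7, 1, 8)], [], [], [(5, 5, 65)], [(0, 9, 66)], [(2, 13, 67)], [(0, 17, 68)], [(2, 21,
  69)], [(0, 25, 70)]]

/-- Times and witnesses. -/
def twX3 : List (List (ℕ × ℕ × ℕ)) :=
  [[(5, 29, 71)], [(0, 33, 72)], [(2, 37, 73)], [(0, 41, 74)], [(2, 45, 75)], [(0, 49, 76)], [(5,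
  53, 77)], [(0, 57, 78)], [(2, 61, 79)], [(0, 65, 80)], [(2, 69, 81)], [(0, 73, 82)], [(5, 77,
  83)], [(0, 81, 84)], [(2, 85, 85)], [(0, 89, 86)]]

/-- Times and witnesses. -/
def twX4 : List (List (ℕ × ℕ × ℕ)) :=
  [[(2, 93, 87)], [(0, 2, 40), (40, 1, 41), (5, 4, 4), (4, 3, 0), (42, 1, 41)], [(5, 6, 42), (42,
  1, 41), (0, 8, 6), (6, 7, 5), (43, 1, 41)], [(0, 10, 43), (43, 1, 41), (2, 12, 1), (1, 11, 0),
  (44, 1, 41)], [(2, 14, 44), (44, 1, 41), (0, 16, 3), (3, 15, 2), (45, 1, 41)], [(0, 18, 45), (45,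
  1, 41), (2, 20, 1), (1, 19, 0), (46, 1, 41)], [(2, 22, 46), (46, 1, 41), (0, 24, 3), (3, 23, 2),
  (47, 1, 41)], [(0, 26, 47), (47, 1, 41), (5, 28, 4), (4, 27, 0), (48, 1, 41)], [(5, 30, 48), (48,
  1, 41), (0, 32, 6), (6, 31, 5), (49, 1, 41)], [(0, 34, 49), (49, 1, 41), (2, 36, 3), (3, 35, 0),
  (50, 1, 41)], [(2, 38, 50), (50, 1, 41), (0, 40, 1), (1, 39, 2), (51, 1, 41)], [(0, 42, 51), (51,
  1, 41), (2, 44, 3), (3, 43, 0), (52, 1, 41)], [(2, 46, 52), (52, 1, 41), (0, 48, 1), (1, 47, 2),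
  (53, 1, 41)], [(0, 50, 53), (53, 1, 41), (5, 52, 6), (6, 51, 0), (54, 1, 41)], [(5, 54, 54), (54,
  1, 41), (0, 56, 4), (4, 55, 5), (55, 1, 41)], [(0, 58, 55), (55, 1, 41), (2, 60, 1), (1, 59, 0),
  (56, 1, 41)]]

/-- Times and witnesses. -/
def twX5 : List (List (ℕ × ℕ × ℕ)) :=
  [[(2, 62, 56), (56, 1, 41), (0, 64, 3), (3, 63, 2), (57, 1, 41)], [(0, 66, 57), (57, 1, 41), (2,
  68, 1), (1, 67, 0), (58, 1, 41)], [(2, 70, 58), (58, 1, 41), (0, 72, 3), (3, 71, 2), (59, 1,
  41)], [(0, 74, 59), (59, 1, 41), (5, 76, 6), (6, 75, 0), (60, 1, 41)], [(5, 78, 60), (60, 1, 41),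
  (0, 80, 4), (4, 79, 5), (61, 1, 41)], [(0, 82, 61), (61, 1, 41), (2, 84, 3), (3, 83, 0), (62, 1,
  41)], [(2, 86, 62), (62, 1, 41), (0, 88, 1), (1, 87, 2), (63, 1, 41)], [(0, 90, 63), (63, 1, 41),
  (2, 92, 3), (3, 91, 0), (64, 1, 41)], [(2, 94, 64), (64, 1, 41), (0, 2, 40), (1, 95, 2), (40, 1,
  41)], [], [], [(5, 5, 122)], [(0, 9, 123)], [(2, 13, 124)], [(0, 17, 125)], [(2, 21, 126)]]

/-- Times and witnesses. -/
def twX6 : List (List (ℕ × ℕ × ℕ)) :=
  [[(0, 25, 127)], [(2, 29, 128)], [(0, 33, 129)], [(5, 37, 130)], [(0, 41, 131)], [(2, 45, 132)],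
  [(0, 49, 133)], [(2, 53, 134)], [(0, 57, 135)], [(2, 61, 136)], [(0, 65, 137)], [(5, 69, 138)],
  [(0, 73, 139)], [(2, 77, 140)], [(0, 81, 141)], [(2, 85, 142)]]

/-- Times and witnesses. -/
def twX7 : List (List (ℕ × ℕ × ℕ)) :=
  [[(0, 89, 143)], [(2, 93, 144)], [(0, 97, 145)], [(5, 101, 146)], [(0, 105, 147)], [(2, 109,
  148)], [(0, 113, 149)], [(2, 117, 150)], [(0, 121, 151)], [(2, 125, 152)], [(0, 2, 89), (89, 1,
  90), (5, 4, 4), (4, 3, 0), (91, 1, 90)], [(5, 6, 91), (91, 1, 90), (0, 8, 6), (6, 7, 5), (92, 1,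
  90)], [(0, 10, 92), (92, 1, 90), (2, 12, 1), (1, 11, 0), (93, 1, 90)], [(2, 14, 93), (93, 1, 90),
  (0, 16, 3), (3, 15, 2), (94, 1, 90)], [(0, 18, 94), (94, 1, 90), (2, 20, 1), (1, 19, 0), (95, 1,
  90)], [(2, 22, 95), (95, 1, 90), (0, 24, 3), (3, 23, 2), (96, 1, 90)]]

/-- Times and witnesses. -/
def twX8 : List (List (ℕ × ℕ × ℕ)) :=
  [[(0, 26, 96), (96, 1, 90), (2, 28, 1), (1, 27, 0), (97, 1, 90)], [(2, 30, 97), (97, 1, 90), (0,
  32, 3), (3, 31, 2), (98, 1, 90)], [(0, 34, 98), (98, 1, 90), (5, 36, 4), (4, 35, 0), (99, 1,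
  90)], [(5, 38, 99), (99, 1, 90), (0, 40, 6), (6, 39, 5), (100, 1, 90)], [(0, 42, 100), (100, 1,
  90), (2, 44, 3), (3, 43, 0), (101, 1, 90)], [(2, 46, 101), (101, 1, 90), (0, 48, 1), (1, 47, 2),
  (102, 1, 90)], [(0, 50, 102), (102, 1, 90), (2, 52, 3), (3, 51, 0), (103, 1, 90)], [(2, 54, 103),
  (103, 1, 90), (0, 56, 1), (1, 55, 2), (104, 1, 90)], [(0, 58, 104), (104, 1, 90), (2, 60, 3), (3,
  59, 0), (105, 1, 90)], [(2, 62, 105), (105, 1, 90), (0, 64, 1), (1, 63, 2), (106, 1, 90)], [(0,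
  66, 106), (106, 1, 90), (5, 68, 6), (6, 67, 0), (107, 1, 90)], [(5, 70, 107), (107, 1, 90), (0,
  72, 4), (4, 71, 5), (108, 1, 90)], [(0, 74, 108), (108, 1, 90), (2, 76, 1), (1, 75, 0), (109, 1,
  90)], [(2, 78, 109), (109, 1, 90), (0, 80, 3), (3, 79, 2), (110, 1, 90)], [(0, 82, 110), (110, 1,
  90), (2, 84, 1), (1, 83, 0), (111, 1, 90)], [(2, 86, 111), (111, 1, 90), (0, 88, 3), (3, 87, 2),
  (112, 1, 90)]]

/-- Times and witnesses. -/
def twX9 : List (List (ℕ × ℕ × ℕ)) :=
  [[(0, 90, 112), (112, 1, 90), (2, 92, 1), (1, 91, 0), (113, 1, 90)], [(2, 94, 113), (113, 1, 90),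
  (0, 96, 3), (3, 95, 2), (114, 1, 90)], [(0, 98, 114), (114, 1, 90), (5, 100, 6), (6, 99, 0),
  (115, 1, 90)], [(5, 102, 115), (115, 1, 90), (0, 104, 4), (4, 103, 5), (116, 1, 90)], [(0, 106,
  116), (116, 1, 90), (2, 108, 3), (3, 107, 0), (117, 1, 90)], [(2, 110, 117), (117, 1, 90), (0,
  112, 1), (1, 111, 2), (118, 1, 90)], [(0, 114, 118), (118, 1, 90), (2, 116, 3), (3, 115, 0),
  (119, 1, 90)], [(2, 118, 119), (119, 1, 90), (0, 120, 1), (1, 119, 2), (120, 1, 90)], [(0, 122,
  120), (120, 1, 90), (2, 124, 3), (3, 123, 0), (121, 1, 90)], [(2, 126, 121), (121, 1, 90), (0, 2,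
  89), (1, 127, 2), (89, 1, 90)], [], [], [(2, 5, 211)], [(0, 9, 212)], [(2, 13, 213)], [(0, 17,
  214)]]

/-- Times and witnesses. -/
def twX10 : List (List (ℕ × ℕ × ℕ)) :=
  [[(2, 21, 215)], [(0, 25, 216)], [(2, 29, 217)], [(0, 33, 218)], [(2, 37, 219)], [(0, 41, 220)],
  [(2, 45, 221)], [(0, 49, 222)], [(2, 53, 223)], [(0, 57, 224)], [(2, 61, 225)], [(0, 65, 226)],
  [(5, 69, 227)], [(0, 73, 228)], [(2, 77, 229)], [(0, 81, 230)]]

/-- Times and witnesses. -/
def twX11 : List (List (ℕ × ℕ × ℕ)) :=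
  [[(2, 85, 231)], [(0, 89, 232)], [(2, 93, 233)], [(0, 97, 234)], [(2, 101, 235)], [(0, 105,
  236)], [(5, 109, 237)], [(0, 113, 238)], [(2, 117, 239)], [(0, 121, 240)], [(2, 125, 241)], [(0,
  129, 242)], [(2, 133, 243)], [(0, 137, 244)], [(2, 141, 245)], [(0, 145, 246)]]

/-- Times and witnesses. -/
def twX12 : List (List (ℕ × ℕ × ℕ)) :=
  [[(5, 149, 247)], [(0, 153, 248)], [(2, 157, 249)], [(0, 161, 250)], [(2, 165, 251)], [(0, 169,
  252)], [(2, 173, 253)], [(0, 177, 254)], [(2, 181, 255)], [(0, 185, 256)], [(5, 189, 257)], [(0,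
  193, 258)], [(2, 197, 259)], [(0, 201, 260)], [(2, 205, 261)], [(0, 209, 262)]]

/-- Times and witnesses. -/
def twX13 : List (List (ℕ × ℕ × ℕ)) :=
  [[(2, 213, 263)], [(0, 217, 264)], [(2, 221, 265)], [(0, 2, 154), (154, 1, 155), (2, 4, 1), (1,
  3, 0), (156, 1, 155)], [(2, 6, 156), (156, 1, 155), (0, 8, 3), (3, 7, 2), (157, 1, 155)], [(0,
  10, 157), (157, 1, 155), (2, 12, 1), (1, 11, 0), (158, 1, 155)], [(2, 14, 158), (158, 1, 155),
  (0, 16, 3), (3, 15, 2), (159, 1, 155)], [(0, 18, 159), (159, 1, 155), (2, 20, 1), (1, 19, 0),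
  (160, 1, 155)], [(2, 22, 160), (160, 1, 155), (0, 24, 3), (3, 23, 2), (161, 1, 155)], [(0, 26,
  161), (161, 1, 155), (2, 28, 1), (1, 27, 0), (162, 1, 155)], [(2, 30, 162), (162, 1, 155), (0,
  32, 3), (3, 31, 2), (163, 1, 155)], [(0, 34, 163), (163, 1, 155), (2, 36, 1), (1, 35, 0), (164,
  1, 155)], [(2, 38, 164), (164, 1, 155), (0, 40, 3), (3, 39, 2), (165, 1, 155)], [(0, 42, 165),
  (165, 1, 155), (2, 44, 1), (1, 43, 0), (166, 1, 155)], [(2, 46, 166), (166, 1, 155), (0, 48, 3),
  (3, 47, 2), (167, 1, 155)], [(0, 50, 167), (167, 1, 155), (2, 52, 1), (1, 51, 0), (168, 1, 155)]]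

/-- Times and witnesses. -/
def twX14 : List (List (ℕ × ℕ × ℕ)) :=
  [[(2, 54, 168), (168, 1, 155), (0, 56, 3), (3, 55, 2), (169, 1, 155)], [(0, 58, 169), (169, 1,
  155), (2, 60, 1), (1, 59, 0), (170, 1, 155)], [(2, 62, 170), (170, 1, 155), (0, 64, 3), (3, 63,
  2), (171, 1, 155)], [(0, 66, 171), (171, 1, 155), (5, 68, 4), (4, 67, 0), (172, 1, 155)], [(5,
  70, 172), (172, 1, 155), (0, 72, 6), (6, 71, 5), (173, 1, 155)], [(0, 74, 173), (173, 1, 155),
  (2, 76, 1), (1, 75, 0), (174, 1, 155)], [(2, 78, 174), (174, 1, 155), (0, 80, 3), (3, 79, 2),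
  (175, 1, 155)], [(0, 82, 175), (175, 1, 155), (2, 84, 1), (1, 83, 0), (176, 1, 155)], [(2, 86,
  176), (176, 1, 155), (0, 88, 3), (3, 87, 2), (177, 1, 155)], [(0, 90, 177), (177, 1, 155), (2,
  92, 1), (1, 91, 0), (178, 1, 155)], [(2, 94, 178), (178, 1, 155), (0, 96, 3), (3, 95, 2), (179,
  1, 155)], [(0, 98, 179), (179, 1, 155), (2, 100, 1), (1, 99, 0), (180, 1, 155)], [(2, 102, 180),
  (180, 1, 155), (0, 104, 3), (3, 103, 2), (181, 1, 155)], [(0, 106, 181), (181, 1, 155), (5, 108,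
  4), (4, 107, 0), (182, 1, 155)], [(5, 110, 182), (182, 1, 155), (0, 112, 6), (6, 111, 5), (183,
  1, 155)], [(0, 114, 183), (183, 1, 155), (2, 116, 3), (3, 115, 0), (184, 1, 155)]]

/-- Times and witnesses. -/
def twX15 : List (List (ℕ × ℕ × ℕ)) :=
  [[(2, 118, 184), (184, 1, 155), (0, 120, 1), (1, 119, 2), (185, 1, 155)], [(0, 122, 185), (185,
  1, 155), (2, 124, 3), (3, 123, 0), (186, 1, 155)], [(2, 126, 186), (186, 1, 155), (0, 128, 1),
  (1, 127, 2), (187, 1, 155)], [(0, 130, 187), (187, 1, 155), (2, 132, 3), (3, 131, 0), (188, 1,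
  155)], [(2, 134, 188), (188, 1, 155), (0, 136, 1), (1, 135, 2), (189, 1, 155)], [(0, 138, 189),
  (189, 1, 155), (2, 140, 3), (3, 139, 0), (190, 1, 155)], [(2, 142, 190), (190, 1, 155), (0, 144,
  1), (1, 143, 2), (191, 1, 155)], [(0, 146, 191), (191, 1, 155), (5, 148, 6), (6, 147, 0), (192,
  1, 155)], [(5, 150, 192), (192, 1, 155), (0, 152, 4), (4, 151, 5), (193, 1, 155)], [(0, 154,
  193), (193, 1, 155), (2, 156, 1), (1, 155, 0), (194, 1, 155)], [(2, 158, 194), (194, 1, 155), (0,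
  160, 3), (3, 159, 2), (195, 1, 155)], [(0, 162, 195), (195, 1, 155), (2, 164, 1), (1, 163, 0),
  (196, 1, 155)], [(2, 166, 196), (196, 1, 155), (0, 168, 3), (3, 167, 2), (197, 1, 155)], [(0,
  170, 197), (197, 1, 155), (2, 172, 1), (1, 171, 0), (198, 1, 155)], [(2, 174, 198), (198, 1,
  155), (0, 176, 3), (3, 175, 2), (199, 1, 155)], [(0, 178, 199), (199, 1, 155), (2, 180, 1), (1,
  179, 0), (200, 1, 155)]]

/-- Times and witnesses. -/
def twX16 : List (List (ℕ × ℕ × ℕ)) :=
  [[(2, 182, 200), (200, 1, 155), (0, 184, 3), (3, 183, 2), (201, 1, 155)], [(0, 186, 201), (201,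
  1, 155), (5, 188, 6), (6, 187, 0), (202, 1, 155)], [(5, 190, 202), (202, 1, 155), (0, 192, 4),
  (4, 191, 5), (203, 1, 155)], [(0, 194, 203), (203, 1, 155), (2, 196, 3), (3, 195, 0), (204, 1,
  155)], [(2, 198, 204), (204, 1, 155), (0, 200, 1), (1, 199, 2), (205, 1, 155)], [(0, 202, 205),
  (205, 1, 155), (2, 204, 3), (3, 203, 0), (206, 1, 155)], [(2, 206, 206), (206, 1, 155), (0, 208,
  1), (1, 207, 2), (207, 1, 155)], [(0, 210, 207), (207, 1, 155), (2, 212, 3), (3, 211, 0), (208,
  1, 155)], [(2, 214, 208), (208, 1, 155), (0, 216, 1), (1, 215, 2), (209, 1, 155)], [(0, 218,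
  209), (209, 1, 155), (2, 220, 3), (3, 219, 0), (210, 1, 155)], [(2, 222, 210), (210, 1, 155), (0,
  2, 154), (1, 223, 2), (154, 1, 155)], [], [], [(5, 5, 278)], [(0, 9, 279)], [(5, 13, 280)]]

/-- Times and witnesses. -/
def twX17 : List (List (ℕ × ℕ × ℕ)) :=
  [[(0, 17, 281)], [(5, 21, 282)], [(0, 25, 283)], [(5, 29, 284)], [(0, 33, 285)], [(5, 37, 286)],
  [(0, 2, 267), (267, 1, 268), (5, 4, 4), (4, 3, 0), (269, 1, 268)], [(5, 6, 269), (269, 1, 268),
  (0, 8, 6), (6, 7, 5), (270, 1, 268)], [(0, 10, 270), (270, 1, 268), (5, 12, 4), (4, 11, 0), (271,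
  1, 268)], [(5, 14, 271), (271, 1, 268), (0, 16, 6), (6, 15, 5), (272, 1, 268)], [(0, 18, 272),
  (272, 1, 268), (5, 20, 4), (4, 19, 0), (273, 1, 268)], [(5, 22, 273), (273, 1, 268), (0, 24, 6),
  (6, 23, 5), (274, 1, 268)], [(0, 26, 274), (274, 1, 268), (5, 28, 4), (4, 27, 0), (275, 1, 268)],
  [(5, 30, 275), (275, 1, 268), (0, 32, 6), (6, 31, 5), (276, 1, 268)], [(0, 34, 276), (276, 1,
  268), (5, 36, 4), (4, 35, 0), (277, 1, 268)], [(5, 38, 277), (277, 1, 268), (0, 2, 267), (6, 39,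
  5), (267, 1, 268)]]

/-- Times and witnesses. -/
def twX18 : List (List (ℕ × ℕ × ℕ)) :=
  [[], [], [(268, 7, 292)], [(268, 7, 293)], [(268, 6, 267), (0, 4, 1), (267, 5, 0), (2, 2, 288),
  (1, 3, 2), (288, 1, 289), (290, 1, 289)], [(2, 2, 288), (288, 1, 289), (0, 4, 3), (3, 3, 2),
  (268, 6, 267), (267, 5, 0), (291, 1, 289)]]

/-- Times and witnesses. -/
def twX (y x : ℕ) : ℕ × ℕ :=
  ((tb [twX0, twX1, twX2, twX3, twX4, twX5, twX6, twX7, twX8, twX9, twX10, twX11, twX12, twX13,
  twX14, twX15, twX16, twX17, twX18] [] y).lookup x).getD (0, 0)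

/-- Times of the matching. -/
def tmX : ℕ → ℕ := tb
  [[0, 3, 2, 6, 5, 4, 8, 11, 10, 12, 14, 16, 18, 20, 22, 24], [26, 28, 30, 32, 34, 36, 38, 40, 13,
  15, 17, 19, 21, 23, 25, 27], [29, 31, 33, 35, 37, 39, 41, 42, 45, 44, 46, 48, 50, 52, 54, 56],
  [58, 60, 62, 64, 66, 68, 70, 72, 74, 76, 78, 80, 82, 84, 86, 88], [90, 47, 49, 51, 53, 55, 57,
  59, 61, 63, 65, 67, 69, 71, 73, 75], [77, 79, 81, 83, 85, 87, 89, 91, 92, 95, 94, 96, 98, 100,
  102, 104], [106, 108, 110, 112, 114, 116, 118, 120, 122, 124, 126, 128, 130, 132, 134, 136],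
  [138, 140, 142, 144, 146, 148, 150, 152, 154, 156, 97, 99, 101, 103, 105, 107], [109, 111, 113,
  115, 117, 119, 121, 123, 125, 127, 129, 131, 133, 135, 137, 139], [141, 143, 145, 147, 149, 151,
  153, 155, 157, 158, 161, 160, 162, 164, 166, 168], [170, 172, 174, 176, 178, 180, 182, 184, 186,
  188, 190, 192, 194, 196, 198, 200], [202, 204, 206, 208, 210, 212, 214, 216, 218, 220, 222, 224,
  226, 228, 230, 232], [234, 236, 238, 240, 242, 244, 246, 248, 250, 252, 254, 256, 258, 260, 262,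
  264], [266, 268, 270, 163, 165, 167, 169, 171, 173, 175, 177, 179, 181, 183, 185, 187], [189,
  191, 193, 195, 197, 199, 201, 203, 205, 207, 209, 211, 213, 215, 217, 219], [221, 223, 225, 227,
  229, 231, 233, 235, 237, 239, 241, 243, 245, 247, 249, 251], [253, 255, 257, 259, 261, 263, 265,
  267, 269, 271, 272, 275, 274, 276, 278, 280], [282, 284, 286, 288, 290, 292, 277, 279, 281, 283,
  285, 287, 289, 291, 293, 300], [295, 294, 296, 298, 297, 299, 1, 7, 9, 43, 93, 159, 273, 301]] 0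

/-- The inverse of the times. -/
def ivX : ℕ → ℕ := tb
  [[0, 294, 2, 1, 5, 4, 3, 295, 6, 296, 8, 7, 9, 24, 10, 25], [11, 26, 12, 27, 13, 28, 14, 29, 15,
  30, 16, 31, 17, 32, 18, 33], [19, 34, 20, 35, 21, 36, 22, 37, 23, 38, 39, 297, 41, 40, 42, 65],
  [43, 66, 44, 67, 45, 68, 46, 69, 47, 70, 48, 71, 49, 72, 50, 73], [51, 74, 52, 75, 53, 76, 54,
  77, 55, 78, 56, 79, 57, 80, 58, 81], [59, 82, 60, 83, 61, 84, 62, 85, 63, 86, 64, 87, 88, 298,
  90, 89], [91, 122, 92, 123, 93, 124, 94, 125, 95, 126, 96, 127, 97, 128, 98, 129], [99, 130, 100,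
  131, 101, 132, 102, 133, 103, 134, 104, 135, 105, 136, 106, 137], [107, 138, 108, 139, 109, 140,
  110, 141, 111, 142, 112, 143, 113, 144, 114, 145], [115, 146, 116, 147, 117, 148, 118, 149, 119,
  150, 120, 151, 121, 152, 153, 299], [155, 154, 156, 211, 157, 212, 158, 213, 159, 214, 160, 215,
  161, 216, 162, 217], [163, 218, 164, 219, 165, 220, 166, 221, 167, 222, 168, 223, 169, 224, 170,
  225], [171, 226, 172, 227, 173, 228, 174, 229, 175, 230, 176, 231, 177, 232, 178, 233], [179,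
  234, 180, 235, 181, 236, 182, 237, 183, 238, 184, 239, 185, 240, 186, 241], [187, 242, 188, 243,
  189, 244, 190, 245, 191, 246, 192, 247, 193, 248, 194, 249], [195, 250, 196, 251, 197, 252, 198,
  253, 199, 254, 200, 255, 201, 256, 202, 257], [203, 258, 204, 259, 205, 260, 206, 261, 207, 262,
  208, 263, 209, 264, 210, 265], [266, 300, 268, 267, 269, 278, 270, 279, 271, 280, 272, 281, 273,
  282, 274, 283], [275, 284, 276, 285, 277, 286, 289, 288, 290, 292, 291, 293, 287, 301]] 0

/-- The chain map. -/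
def JX : ℕ → FS := tb
  [[[(0, 1, [])], [(1, 1, []), (3, 1, [])], [(4, 1, []), (6, 1, [])], [(24, 1, []), (25, 1, []),
  (26, 1, []), (27, 1, []), (28, 1, []), (29, 1, []), (30, 1, []), (31, 1, []), (32, 1, []), (33,
  1, []), (34, 1, []), (35, 1, []), (36, 1, []), (37, 1, []), (38, 1, []), (39, 1, [])], [(65, 1,
  []), (66, 1, []), (67, 1, []), (68, 1, []), (69, 1, []), (70, 1, []), (71, 1, []), (72, 1, []),
  (73, 1, []), (74, 1, []), (75, 1, []), (76, 1, []), (77, 1, []), (78, 1, []), (79, 1, []), (80,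
  1, []), (81, 1, []), (82, 1, []), (83, 1, []), (84, 1, []), (85, 1, []), (86, 1, []), (87, 1,
  []), (88, 1, [])], [(122, 1, []), (123, 1, []), (124, 1, []), (125, 1, []), (126, 1, []), (127,
  1, []), (128, 1, []), (129, 1, []), (130, 1, []), (131, 1, []), (132, 1, []), (133, 1, []), (134,
  1, []), (135, 1, []), (136, 1, []), (137, 1, []), (138, 1, []), (139, 1, []), (140, 1, []), (141,
  1, []), (142, 1, []), (143, 1, []), (144, 1, []), (145, 1, []), (146, 1, []), (147, 1, []), (148,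
  1, []), (149, 1, []), (150, 1, []), (151, 1, []), (152, 1, []), (153, 1, [])], [(211, 1, []),
  (212, 1, []), (213, 1, []), (214, 1, []), (215, 1, []), (216, 1, []), (217, 1, []), (218, 1, []),
  (219, 1, []), (220, 1, []), (221, 1, []), (222, 1, []), (223, 1, []), (224, 1, []), (225, 1, []),
  (226, 1, []), (227, 1, []), (228, 1, []), (229, 1, []), (230, 1, []), (231, 1, []), (232, 1, []),
  (233, 1, []), (234, 1, []), (235, 1, []), (236, 1, []), (237, 1, []), (238, 1, []), (239, 1, []),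
  (240, 1, []), (241, 1, []), (242, 1, []), (243, 1, []), (244, 1, []), (245, 1, []), (246, 1, []),
  (247, 1, []), (248, 1, []), (249, 1, []), (250, 1, []), (251, 1, []), (252, 1, []), (253, 1, []),
  (254, 1, []), (255, 1, []), (256, 1, []), (257, 1, []), (258, 1, []), (259, 1, []), (260, 1, []),
  (261, 1, []), (262, 1, []), (263, 1, []), (264, 1, []), (265, 1, []), (266, 1, [])], [(278, 1,
  []), (279, 1, []), (280, 1, []), (281, 1, []), (282, 1, []), (283, 1, []), (284, 1, []), (285, 1,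
  []), (286, 1, []), (287, 1, [])]]] []

/-- The free derivatives. -/
def FxX : ℕ → FS := tb
  [[[], [(0, 1, [(false, 1)]), (0, -1, [])], [(0, 1, [(true, 1)]), (0, -1, [])], [(2, 1, []), (1,
  1, [(true, 1)]), (2, 1, [(true, 1), (false, 1)]), (1, -1, [(true, 1), (false, 1), (true, 1),
  (false, -1)]), (2, -1, [(true, 1), (false, 1), (true, 1), (false, -1), (true, -1)]), (1, 1,
  [(true, 1), (false, 1), (true, 1), (false, -1), (true, -1)]), (2, -1, [(true, 1), (false, 1),
  (true, 1), (false, -1), (true, -1), (false, 1), (true, -1)]), (1, -1, [(true, 1), (false, 1),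
  (true, 1), (false, -1), (true, -1), (false, 1), (true, -1), (false, -1)])], [(2, 1, []), (1, 1,
  [(true, 1)]), (1, 1, [(true, 1), (false, 1)]), (2, 1, [(true, 1), (false, 2)]), (1, -1, [(true,
  1), (false, 2), (true, 1), (false, -1)]), (1, -1, [(true, 1), (false, 2), (true, 1), (false,
  -2)]), (2, -1, [(true, 1), (false, 2), (true, 1), (false, -2), (true, -1)]), (1, 1, [(true, 1),
  (false, 2), (true, 1), (false, -2), (true, -1)]), (1, 1, [(true, 1), (false, 2), (true, 1),
  (false, -2), (true, -1), (false, 1)]), (2, -1, [(true, 1), (false, 2), (true, 1), (false, -2),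
  (true, -1), (false, 2), (true, -1)]), (1, -1, [(true, 1), (false, 2), (true, 1), (false, -2),
  (true, -1), (false, 2), (true, -1), (false, -1)]), (1, -1, [(true, 1), (false, 2), (true, 1),
  (false, -2), (true, -1), (false, 2), (true, -1), (false, -2)])], [(2, 1, []), (1, 1, [(true,
  1)]), (1, 1, [(true, 1), (false, 1)]), (1, 1, [(true, 1), (false, 2)]), (2, 1, [(true, 1),
  (false, 3)]), (1, -1, [(true, 1), (false, 3), (true, 1), (false, -1)]), (1, -1, [(true, 1),
  (false, 3), (true, 1), (false, -2)]), (1, -1, [(true, 1), (false, 3), (true, 1), (false, -3)]),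
  (2, -1, [(true, 1), (false, 3), (true, 1), (false, -3), (true, -1)]), (1, 1, [(true, 1), (false,
  3), (true, 1), (false, -3), (true, -1)]), (1, 1, [(true, 1), (false, 3), (true, 1), (false, -3),
  (true, -1), (false, 1)]), (1, 1, [(true, 1), (false, 3), (true, 1), (false, -3), (true, -1),
  (false, 2)]), (2, -1, [(true, 1), (false, 3), (true, 1), (false, -3), (true, -1), (false, 3),
  (true, -1)]), (1, -1, [(true, 1), (false, 3), (true, 1), (false, -3), (true, -1), (false, 3),
  (true, -1), (false, -1)]), (1, -1, [(true, 1), (false, 3), (true, 1), (false, -3), (true, -1),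
  (false, 3), (true, -1), (false, -2)]), (1, -1, [(true, 1), (false, 3), (true, 1), (false, -3),
  (true, -1), (false, 3), (true, -1), (false, -3)])], [(1, 1, []), (1, 1, [(false, 1)]), (1, 1,
  [(false, 2)]), (1, 1, [(false, 3)]), (1, 1, [(false, 4)]), (1, 1, [(false, 5)]), (1, 1, [(false,
  6)]), (1, 1, [(false, 7)]), (2, 1, [(false, 8)]), (1, 1, [(false, 8), (true, 1)]), (1, 1,
  [(false, 8), (true, 1), (false, 1)]), (1, 1, [(false, 8), (true, 1), (false, 2)]), (1, 1,
  [(false, 8), (true, 1), (false, 3)]), (2, 1, [(false, 8), (true, 1), (false, 4)]), (1, -1,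
  [(false, 8), (true, 1), (false, 4), (true, 1), (false, -1)]), (1, -1, [(false, 8), (true, 1),
  (false, 4), (true, 1), (false, -2)]), (1, -1, [(false, 8), (true, 1), (false, 4), (true, 1),
  (false, -3)]), (1, -1, [(false, 8), (true, 1), (false, 4), (true, 1), (false, -4)]), (2, -1,
  [(false, 8), (true, 1), (false, 4), (true, 1), (false, -4), (true, -1)]), (1, 1, [(false, 8),
  (true, 1), (false, 4), (true, 1), (false, -4), (true, -1)]), (1, 1, [(false, 8), (true, 1),
  (false, 4), (true, 1), (false, -4), (true, -1), (false, 1)]), (1, 1, [(false, 8), (true, 1),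
  (false, 4), (true, 1), (false, -4), (true, -1), (false, 2)]), (1, 1, [(false, 8), (true, 1),
  (false, 4), (true, 1), (false, -4), (true, -1), (false, 3)]), (2, -1, [(false, 8), (true, 1),
  (false, 4), (true, 1), (false, -4), (true, -1), (false, 4), (true, -1)]), (1, -1, [(false, 8),
  (true, 1), (false, 4), (true, 1), (false, -4), (true, -1), (false, 4), (true, -1), (false, -1)]),
  (1, -1, [(false, 8), (true, 1), (false, 4), (true, 1), (false, -4), (true, -1), (false, 4),
  (true, -1), (false, -2)]), (1, -1, [(false, 8), (true, 1), (false, 4), (true, 1), (false, -4),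
  (true, -1), (false, 4), (true, -1), (false, -3)]), (1, -1, [(false, 8), (true, 1), (false, 4),
  (true, 1), (false, -4), (true, -1), (false, 4), (true, -1), (false, -4)])], [(2, 1, []), (2, 1,
  [(true, 1)]), (2, 1, [(true, 2)]), (2, 1, [(true, 3)]), (2, 1, [(true, 4)])]]] []

end Pool.Agent.Lib.MP_5ceaf9_gt.G
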