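import Pool.Agent.Lib.MP_5ceaf9_gt.GDefs

/-! Words and formal sums. -/

noncomputable section

namespace Pool.Agent.Lib.MP_5ceaf9_gt.G

open Function

variable {Γ : Type} [Group Γ] {H A : Γ}

theorem ew_append (u w : Wd) : ew H A (u ++ w) = ew H A u * ew H A w := by
  induction u with
  | nil => simp [ew]
  | cons s u ih => simp only [List.cons_append, ew, ih, mul_assoc]

theorem ew_winv (w : Wd) : ew H A (winv w) = (ew H A w)⁻¹ := by
  induction w with
  | nil => simp [ew, winv]
  | cons s w ih =>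
    have e : winv (s :: w) = winv w ++ [(s.1, -s.2)] := by simp [winv]
    rw [e, ew_append, ih]
    simp only [ew, zpow_neg, mul_one, mul_inv_rev]

theorem gw_wput (b : Bool) (n : ℤ) (w : Wd) :
    ew H A (wput b n w) = (if b then A else H) ^ n * ew H A w := by
  unfold wput
  split_ifs with h1 h2 h3 <;> simp_all [ew]

theorem gw_wpush {m : Bool}
    (hm : ∀ (b : Bool) (n : ℤ), (if b then A else H) ^ wred m b n = (if b then A else H) ^ n)
    (s : Bool × ℤ) (w : Wd) :
    ew H A (wpush m s w) = (if s.1 then A else H) ^ s.2 * ew H A w := by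
  cases w with
  | nil => rw [wpush, gw_wput, hm]
  | cons t w =>
    rw [wpush]
    by_cases e : s.1 = t.1
    · rw [if_pos e, gw_wput, hm, ew, ← e, zpow_add, mul_assoc]
    · rw [if_neg e, gw_wput, hm]

theorem gw_nf {m : Bool}
    (hm : ∀ (b : Bool) (n : ℤ), (if b then A else H) ^ wred m b n = (if b then A else H) ^ n)
    (w : Wd) : ew H A (nf m w) = ew H A w := by
  induction w with
  | nil => simp [nf]
  | cons s w ih =>
    have e : nf m (s :: w) = wpush m s (nf m w) := rfl
    rw [e, gw_wpush hm, ih, ew]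

theorem ew_nf_false (w : Wd) : ew H A (nf false w) = ew H A w := by
  exact gw_nf (fun b n => by simp [wred]) w

theorem Gp.h8 (h : Gp H A) : H ^ 8 = 1 := by
  exact h.1.h8_X h.2

theorem gw_cj (γ : Γ) (i : ℤ) :
    cj (γ * H * γ⁻¹) (γ * A * γ⁻¹) i = γ * cj H A i * γ⁻¹ := by
  simp only [cj, conj_zpow]
  group

theorem Gp.conj (h : Gp H A) (γ : Γ) : Gp (γ * H * γ⁻¹) (γ * A * γ⁻¹) := by
  refine ⟨⟨?_, ?_, ?_, ?_⟩, ?_⟩
  · rw [gw_cj]; exact commute_conj γ h.1.c1
  · rw [gw_cj]; exact commute_conj γ h.1.c2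
  · rw [gw_cj]; exact commute_conj γ h.1.c3
  · rw [gw_cj, conj_pow]
    calc γ * H ^ 8 * γ⁻¹ * (γ * A * γ⁻¹ * (γ * cj H A 4 * γ⁻¹) * (γ * A * γ⁻¹)⁻¹ *
          (γ * cj H A 4 * γ⁻¹)⁻¹)
        = γ * (H ^ 8 * (A * cj H A 4 * A⁻¹ * (cj H A 4)⁻¹)) * γ⁻¹ := by group
      _ = 1 := by rw [h.1.r4]; simp
  · rw [conj_pow, h.2]; simp

theorem gw_zpow_mod {x : Γ} {k : ℕ} (h : x ^ k = 1) (n : ℤ) : x ^ (n % (k : ℤ)) = x ^ n := by
  conv_rhs => rw [← Int.emod_add_mul_ediv n k, zpow_add, zpow_mul, zpow_natCast, h]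
  simp

theorem Gp.ew_nf (h : Gp H A) (w : Wd) : ew H A (nf true w) = ew H A w := by
  refine gw_nf (fun b n => ?_) w
  cases b with
  | false =>
    have := gw_zpow_mod h.h8 n
    simpa [wred] using this
  | true =>
    have := gw_zpow_mod h.2 n
    simpa [wred] using this

theorem gw_comm (h : Gp H A) (n : ℤ) : A * cj H A n = cj H A n * A := by
  have := h.1.commute_all h.h8 0 n
  rw [cj_zero] at this
  exact this.eq

theorem gw_h8 (h : Gp H A) (n : ℤ) : H ^ (8 - n) = (H ^ n)⁻¹ := by
  have e : H ^ (8 : ℤ) = 1 := by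
    rw [← h.h8, ← zpow_natCast]
    rfl
  rw [zpow_sub, e, one_mul]

theorem gw_a4 (h : Gp H A) : A ^ (4 : ℤ) = A⁻¹ := by
  have e : A ^ (4 : ℤ) * A = 1 := by
    rw [← h.2, ← zpow_add_one, ← zpow_natCast]
    rfl
  exact eq_inv_of_mul_eq_one_left e

theorem gw_cmw (h : Gp H A) (n : ℤ) : ew H A (cmw n) = ew H A [] := by
  have e := gw_comm h n
  simp only [cmw, ew, gw_h8 h, if_true, Bool.false_eq_true, if_false, gw_a4 h, zpow_one]
  calc _ = A * cj H A n * A⁻¹ * (cj H A n)⁻¹ := by simp only [cj]; group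
    _ = 1 := by rw [e]; group

theorem gw_cmw' (h : Gp H A) (n : ℤ) : ew H A (cmw' n) = ew H A [] := by
  have e := gw_comm h n
  simp only [cmw', ew, gw_h8 h, if_true, Bool.false_eq_true, if_false, gw_a4 h, zpow_one]
  calc _ = cj H A n * A * (cj H A n)⁻¹ * A⁻¹ := by simp only [cj]; group
    _ = 1 := by rw [← e]; group

/-- The words in `rels` are commutators of `A` and `cj H A n` (`Rel4.commute_all`). -/
theorem Gp.ew_nfr (h : Gp H A) (w : Wd) : ew H A (nfr w) = ew H A w := by
  unfold nfr
  split_ifs with hr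
  · rw [← h.ew_nf w]
    simp only [rels, List.mem_cons, List.not_mem_nil, or_false] at hr
    rcases hr with e | e | e | e | e | e | e | e <;> rw [e]
    all_goals first
      | exact (gw_cmw h _).symm
      | exact (gw_cmw' h _).symm
  · exact h.ew_nf w

theorem gw_split {X M : Type} [AddCommGroup M] (p : X → Bool) (f : X → M) (l : List X) :
    (l.map f).sum = ((l.filter p).map f).sum + ((l.filter fun b => !p b).map f).sum := by
  induction l with
  | nil => simp
  | cons a l ih =>
    cases e : p a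
    · simp [e, ih, add_left_comm]
    · simp [e, ih, add_assoc]

theorem zt_sound {K M : Type} [DecidableEq K] [AddCommGroup M] (F : K → ℤ →+ M) (n : ℕ)
    (l : List (K × ℤ)) (h : zt n l = true) : (l.map fun a => F a.1 a.2).sum = 0 := by
  induction n generalizing l with
  | zero =>
    cases l with
    | nil => simp
    | cons a l => simp [zt] at h
  | succ n ih =>
    cases l with
    | nil => simp
    | cons a l =>
      simp only [zt, Bool.and_eq_true, decide_eq_true_eq] at h
      obtain ⟨h1, h2⟩ := h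
      have h3 := ih _ h2
      rw [List.map_cons, List.sum_cons, gw_split (fun b : K × ℤ => decide (b.1 = a.1)), h3,
        add_zero]
      have h4 : ((l.filter fun b => decide (b.1 = a.1)).map fun b => F b.1 b.2).sum =
          F a.1 ((l.filter fun b => decide (b.1 = a.1)).map fun b => b.2).sum := by
        rw [map_list_sum, List.map_map]
        congr 1
        refine List.map_congr_left fun b hb => ?_
        have := (List.mem_filter.1 hb).2
        simp only [decide_eq_true_eq] at this
        simp [this]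
      rw [h4, ← map_add, h1, map_zero]

theorem gw_evF_cons (t : ℕ × ℤ × Wd) (l : FS) (y : ℕ) : evF H A (t :: l) y =
    (if t.1 = y then MonoidAlgebra.single (ew H A t.2.2) t.2.1 else 0) + evF H A l y := by
  simp [evF]

theorem gw_evZ_cons (t : ℕ × ℤ × Wd) (l : FS) (y : ℕ) :
    evZ (t :: l) y = (if t.1 = y then t.2.1 else 0) + evZ l y := by
  simp [evZ]

theorem gw_evF_append (l l' : FS) (y : ℕ) :
    evF H A (l ++ l') y = evF H A l y + evF H A l' y := by
  simp [evF]

theorem gw_evZ_append (l l' : FS) (y : ℕ) : evZ (l ++ l') y = evZ l y + evZ l' y := by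
  simp [evZ]

theorem gw_evF_smul (c : ℤ) (w : Wd) (l : FS) (z : ℕ) :
    evF H A (l.map fun s => (s.1, c * s.2.1, w ++ s.2.2)) z =
      MonoidAlgebra.single (ew H A w) c * evF H A l z := by
  induction l with
  | nil => simp [evF]
  | cons s l ih =>
    rw [List.map_cons, gw_evF_cons, gw_evF_cons, ih, mul_add]
    congr 1
    by_cases e : s.1 = z
    · simp [e, ew_append, MonoidAlgebra.single_mul_single]
    · simp [e]

theorem gw_evZ_smul (c : ℤ) (w : Wd) (l : FS) (z : ℕ) :
    evZ (l.map fun s => (s.1, c * s.2.1, w ++ s.2.2)) z = c * evZ l z := by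
  induction l with
  | nil => simp [evZ]
  | cons s l ih =>
    rw [List.map_cons, gw_evZ_cons, gw_evZ_cons, ih, mul_add]
    congr 1
    by_cases e : s.1 = z <;> simp [e]

theorem gw_keys (h : Gp H A) (y : ℕ) (ε : ℤ) (l : FS) :
    ((keys ε l).map fun a => (if a.1.1 = y then
      (MonoidAlgebra.singleAddHom (ew H A a.1.2) : ℤ →+ ZG Γ) else 0) a.2).sum =
      ε • evF H A l y := by
  induction l with
  | nil => simp [keys, evF]
  | cons t l ih =>
    rw [gw_evF_cons, smul_add, ← ih]
    by_cases e0 : t.2.1 = 0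
    · have : keys ε (t :: l) = keys ε l := by simp [keys, e0]
      rw [this]
      simp [e0]
    · have : keys ε (t :: l) = ((t.1, nfr t.2.2), ε * t.2.1) :: keys ε l := by simp [keys, e0]
      rw [this, List.map_cons, List.sum_cons]
      congr 1
      by_cases e : t.1 = y
      · simp [e, h.ew_nfr]
      · simp [e]

theorem Gp.eqF (h : Gp H A) {l l' : FS} (e : eqF l l' = true) (y : ℕ) :
    evF H A l y = evF H A l' y := by
  have z := zt_sound (fun k : ℕ × Wd => if k.1 = y then
    (MonoidAlgebra.singleAddHom (ew H A k.2) : ℤ →+ ZG Γ) else 0) _ _ e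
  rw [List.map_append, List.sum_append, gw_keys h, gw_keys h] at z
  simpa [add_neg_eq_zero] using z

theorem zeroZ_sound {l : FS} (e : zeroZ l = true) (y : ℕ) : evZ l y = 0 := by
  have z := zt_sound (fun k : ℕ => if k = y then AddMonoidHom.id ℤ else 0) _ _ e
  rw [List.map_map] at z
  rw [← z, evZ]
  congr 1
  refine List.map_congr_left fun t _ => ?_
  by_cases ht : t.1 = y <;> simp [ht]

theorem sum_evF {X : Finset ℕ} {l : FS} (hl : ∀ t ∈ l, t.1 ∈ X) (U : ℕ → FS) (z : ℕ) :
    ∑ y ∈ X, evF H A l y * evF H A (U y) z = evF H A (bindF l U) z := by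
  induction l with
  | nil => simp [evF, bindF]
  | cons t l ih =>
    have e : bindF (t :: l) U =
        ((U t.1).map fun s => (s.1, t.2.1 * s.2.1, t.2.2 ++ s.2.2)) ++ bindF l U := by
      simp [bindF]
    rw [e, gw_evF_append, ← ih fun s hs => hl s (List.mem_cons_of_mem _ hs), gw_evF_smul]
    simp only [gw_evF_cons, add_mul, Finset.sum_add_distrib, ite_mul, zero_mul]
    rw [Finset.sum_ite_eq, if_pos (hl t List.mem_cons_self)]

theorem sum_evZ {X : Finset ℕ} {l : FS} (hl : ∀ t ∈ l, t.1 ∈ X) (U : ℕ → FS) (z : ℕ) :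
    ∑ y ∈ X, evZ l y * evZ (U y) z = evZ (bindF l U) z := by
  induction l with
  | nil => simp [evZ, bindF]
  | cons t l ih =>
    have e : bindF (t :: l) U =
        ((U t.1).map fun s => (s.1, t.2.1 * s.2.1, t.2.2 ++ s.2.2)) ++ bindF l U := by
      simp [bindF]
    rw [e, gw_evZ_append, ← ih fun s hs => hl s (List.mem_cons_of_mem _ hs), gw_evZ_smul]
    simp only [gw_evZ_cons, add_mul, Finset.sum_add_distrib, ite_mul, zero_mul]
    rw [Finset.sum_ite_eq, if_pos (hl t List.mem_cons_self)]

theorem mF_mul {X Y Z : Finset ℕ} {U V : ℕ → FS} (h : ∀ x ∈ X, ∀ t ∈ U x, t.1 ∈ Y) :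
    mF H A X Y U * mF H A Y Z V = mF H A X Z (fun x => bindF (U x) V) := by
  refine Matrix.ext fun x z => ?_
  rw [Matrix.mul_apply]
  simp only [mF, rs, Matrix.of_apply]
  rw [← sum_evF (h x.1 x.2) V z.1]
  exact Finset.sum_coe_sort Y fun y => evF H A (U x.1) y * evF H A (V y) z.1

theorem Gp.mF_congr (h : Gp H A) {X Y : Finset ℕ} {U V : ℕ → FS}
    (e : ∀ x ∈ X, G.eqF (U x) (V x) = true) :
    mF H A X Y U = mF H A X Y V := by
  refine Matrix.ext fun x y => ?_
  simp only [mF, rs, Matrix.of_apply]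
  exact h.eqF (e x.1 x.2) y.1

theorem evF_ne {l : FS} {y : ℕ} (h : evF H A l y ≠ 0) : ∃ t ∈ l, t.1 = y ∧ t.2.1 ≠ 0 := by
  by_contra hc
  push Not at hc
  apply h
  unfold evF
  refine List.sum_eq_zero fun x hx => ?_
  obtain ⟨t, ht, rfl⟩ := List.mem_map.1 hx
  by_cases e : t.1 = y
  · simp [e, hc t ht e]
  · simp [e]

theorem gw_lookup_mem {l : FS} (h : (l.map fun t => t.1).Nodup) {t : ℕ × ℤ × Wd} (ht : t ∈ l) :
    (l.lookup t.1).getD (0, []) = t.2 := by
  induction l with
  | nil => simp at ht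
  | cons s l ih =>
    obtain ⟨a, b⟩ := s
    rw [List.map_cons, List.nodup_cons] at h
    rw [List.lookup_cons]
    rcases List.mem_cons.1 ht with e | e
    · subst e
      simp
    · have e' : (t.1 == a) = false := by
        simpa using fun e2 => h.1 (List.mem_map.2 ⟨t, e, e2⟩)
      simp [e', ih h.2 e]

theorem gw_evF_lookup {l : FS} (h : (l.map fun t => t.1).Nodup) (y : ℕ) :
    evF H A l y = MonoidAlgebra.single (ew H A ((l.lookup y).getD (0, [])).2)
      ((l.lookup y).getD (0, [])).1 := by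
  induction l with
  | nil => simp [evF]
  | cons t l ih =>
    obtain ⟨a, b⟩ := t
    rw [List.map_cons, List.nodup_cons] at h
    rw [gw_evF_cons, List.lookup_cons]
    by_cases e : a = y
    · subst e
      have z : evF H A l a = 0 := by
        by_contra hz
        obtain ⟨s, hs, e, -⟩ := evF_ne hz
        exact h.1 (List.mem_map.2 ⟨s, hs, e⟩)
      simp [z]
    · have e' : (y == a) = false := by simpa using fun e2 => e e2.symm
      simp [e, e', ih h.2]

theorem evF_nodup {l : FS} (h : (l.map fun t => t.1).Nodup) {t : ℕ × ℤ × Wd} (ht : t ∈ l) :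
    evF H A l t.1 = MonoidAlgebra.single (ew H A t.2.2) t.2.1 := by
  rw [gw_evF_lookup h, gw_lookup_mem h ht]

theorem evF_lookup {l : FS} (h : (l.map fun t => t.1).Nodup) (y : ℕ) :
    evF H A l y = MonoidAlgebra.single (ew H A ((l.lookup y).getD (0, [])).2)
      ((l.lookup y).getD (0, [])).1 := by
  exact gw_evF_lookup h y

theorem evZ_lookup {l : FS} (h : (l.map fun t => t.1).Nodup) (y : ℕ) :
    evZ l y = ((l.lookup y).getD (0, [])).1 := by
  induction l with
  | nil => simp [evZ]
  | cons t l ih =>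
    obtain ⟨a, b⟩ := t
    rw [List.map_cons, List.nodup_cons] at h
    rw [gw_evZ_cons, List.lookup_cons]
    by_cases e : a = y
    · subst e
      have z : evZ l a = 0 := by
        unfold evZ
        refine List.sum_eq_zero fun x hx => ?_
        obtain ⟨s, hs, rfl⟩ := List.mem_map.1 hx
        exact if_neg fun e => h.1 (List.mem_map.2 ⟨s, hs, e⟩)
      simp [z]
    · have e' : (y == a) = false := by simpa using fun e2 => e e2.symm
      simp [e, e', ih h.2]

theorem lookup_mem {l : FS} (h : (l.map fun t => t.1).Nodup) {t : ℕ × ℤ × Wd} (ht : t ∈ l) :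
    (l.lookup t.1).getD (0, []) = t.2 := by
  exact gw_lookup_mem h ht

/-- Pushing the indices forward. -/
theorem sum_evF_map {X : Finset ℕ} {l : FS} (hl : ∀ t ∈ l, t.1 ∈ X) (f : ℕ → ℕ) (z : ℕ) :
    ∑ y ∈ X, evF H A l y * (if f y = z then 1 else 0) =
      evF H A (l.map fun t => (f t.1, t.2)) z := by
  induction l with
  | nil => simp [evF]
  | cons t l ih =>
    rw [List.map_cons, gw_evF_cons, ← ih fun s hs => hl s (List.mem_cons_of_mem _ hs)]
    simp only [gw_evF_cons, add_mul, Finset.sum_add_distrib, ite_mul, zero_mul]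
    rw [Finset.sum_ite_eq, if_pos (hl t List.mem_cons_self)]
    congr 1
    by_cases e : f t.1 = z <;> simp [e]

end Pool.Agent.Lib.MP_5ceaf9_gt.G
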