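import Pool.Agent.Lib.MP_5ceaf9_gt.ABA
import Pool.Agent.Lib.MP_5ceaf9_gt.ABB
import Pool.Agent.Lib.MP_5ceaf9_gt.ABT1
import Pool.Agent.Lib.MP_5ceaf9_gt.ABT2
import Pool.Agent.Lib.MP_5ceaf9_gt.ABT3
import Pool.Agent.Lib.MP_5ceaf9_gt.ABT4

/-! Parts A and B: smoothing of voxel complexes, and their triangulation. -/

noncomputable section

namespace Pool.Agent.Lib.MP_5ceaf9_gt

/-- The smooth h-cobordism. `S0` lies deep inside `S1`; `L`, `B0`, `B1` are the voxel models of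
the cobordism and of its two ends. -/
theorem thmAB {S0 S1 L B0 B1 : Finset (Lat 5)} (d0 : DnC S0) (d1 : DnC S1) (i0 : Invt η5 S0)
    (i1 : Invt η5 S1) (f1 : Free η5 S1) (deep : ∀ a ∈ S0, ∀ b, le1 a b → b ∈ S1)
    (hL : ∀ e, e ∈ L ↔ cw a1 e ∈ S1 ∧ cw b1 e ∉ S0)
    (hB0 : ∀ e, e ∈ B0 ↔ cw a1 e ∈ S0 ∧ cw b1 e ∉ S0)
    (hB1 : ∀ e, e ∈ B1 ↔ cw a1 e ∈ S1 ∧ cw b1 e ∉ S1)
    (s0 : B0 ⊆ L) (s1 : B1 ⊆ L)
    (e0 : IsHE (ContinuousMap.inclusion (vq_mono η5 s0)))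
    (e1 : IsHE (ContinuousMap.inclusion (vq_mono η5 s1))) :
    ∃ A B : Closed4, Nonempty (HCob A B) ∧ Nonempty (vq η5 B0 ≃ₜ A.M) ∧
      Nonempty (vq η5 B1 ≃ₜ B.M) := by
  obtain ⟨g, cg, bg, eg, q0, r0, q1, r1⟩ := exists_push2 η5 d0 d1 i0 i1 deep
  have img : ∀ (A A' : Set (Fin 5 → ℝ)), (∀ x, g x ∈ A' ↔ x ∈ A) → g '' A = A' := by
    intro A A' h
    ext y
    obtain ⟨x, rfl⟩ := bg.2 y
    rw [bg.1.mem_set_image, h]
  have hWi : ∀ y, 0 ≤ FF S1 y - FF S0 y - 1 / 2 ↔ ¬ FF S1 y < 1 / 2 ∧ ¬ 1 / 2 < FF S0 y := by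
    intro y
    have a0 := FF_nonneg S0 y
    have a1 := FF_le_one S1 y
    refine ⟨fun h => ⟨by linarith, by linarith⟩, fun h => ?_⟩
    rcases a0.eq_or_lt with h0 | h0
    · linarith [not_lt.1 h.1]
    · rw [FF_deep d0 d1 deep h0]
      linarith [not_lt.1 h.2]
  have mW : g '' vox L = {y | 0 ≤ FF S1 y - FF S0 y - 1 / 2} := img _ _ fun x => by
    rw [Set.mem_ofPred_eq, hWi, r1, q0, not_not, mem_vox_iff d0 d1 hL]
  have m0 : g '' vox B0 = {y | FF S0 y = 1 / 2} := img _ _ fun x => by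
    rw [Set.mem_ofPred_eq, le_antisymm_iff, ← not_lt, ← not_lt, r0, q0, not_not,
      mem_vox_iff d0 d0 hB0, and_comm]
  have m1 : g '' vox B1 = {y | FF S1 y = 1 / 2} := img _ _ fun x => by
    rw [Set.mem_ofPred_eq, le_antisymm_iff, ← not_lt, ← not_lt, r1, q1, not_not,
      mem_vox_iff d1 d1 hB1, and_comm]
  have vm : ∀ {A B : Finset (Lat 5)}, A ⊆ B → vox A ⊆ vox B :=
    fun h x ⟨e, he, hx⟩ => ⟨e, h he, hx⟩
  have t0 : pr η5 '' {y | FF S0 y = 1 / 2} ⊆ pr η5 '' {y | 0 ≤ FF S1 y - FF S0 y - 1 / 2} := by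
    rw [← m0, ← mW]
    exact Set.image_mono (Set.image_mono (vm s0))
  have t1 : pr η5 '' {y | FF S1 y = 1 / 2} ⊆ pr η5 '' {y | 0 ≤ FF S1 y - FF S0 y - 1 / 2} := by
    rw [← m1, ← mW]
    exact Set.image_mono (Set.image_mono (vm s1))
  obtain ⟨hW, hW'⟩ := exists_homeo_image η5 cg bg.1 eg (isCompact_vox L) mW
  obtain ⟨h0, h0'⟩ := exists_homeo_image η5 cg bg.1 eg (isCompact_vox B0) m0
  obtain ⟨h1, h1'⟩ := exists_homeo_image η5 cg bg.1 eg (isCompact_vox B1) m1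
  obtain ⟨A, B, hc, ⟨a⟩, ⟨b⟩⟩ := thmA (G := fun y => FF S1 y - FF S0 y - 1 / 2)
    (((FF_contDiff S1).sub (FF_contDiff S0)).sub contDiff_const)
    (fun x => by simp only [FF_fl η5 i0, FF_fl η5 i1])
    (W := {y | 0 ≤ FF S1 y - FF S0 y - 1 / 2}) (T0 := {y | FF S0 y = 1 / 2})
    (T1 := {y | FF S1 y = 1 / 2}) (fun _ => Iff.rfl)
    (fun x => by
      simp only [Set.mem_ofPred_eq]
      constructor
      · rintro (h | h)
        · rw [FF_deep d0 d1 deep (by linarith : 0 < FF S0 x), h]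
          norm_num
        · rw [FF_deep' d0 d1 deep (by linarith : FF S1 x < 1), h]
          norm_num
      · intro h
        rcases (FF_nonneg S0 x).eq_or_lt with h0 | h0
        · exact Or.inr (by linarith)
        · exact Or.inl (by linarith [FF_deep d0 d1 deep h0]))
    (mW ▸ (isCompact_vox L).image cg) (m0 ▸ (isCompact_vox B0).image cg)
    (m1 ▸ (isCompact_vox B1).image cg)
    (fun x h h' => by
      simp only [Set.mem_ofPred_eq] at h h'
      linarith [FF_deep d0 d1 deep (by linarith : 0 < FF S0 x)])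
    (fun x h => by simpa only [Set.mem_ofPred_eq, FF_fl η5 i0] using h)
    (fun x h => by simpa only [Set.mem_ofPred_eq, FF_fl η5 i1] using h)
    (fun x h => FF_free η5 f1 (by linarith [not_lt.1 ((hWi x).1 h).1]))
    (fun x h => reg_sub d0 d1 deep h) t0 t1
    (IsHE.conj h0 hW (fun q => Subtype.ext (by
      obtain ⟨x, hx⟩ := pr_surj η5 (q : QR η5)
      exact (h0' q x hx.symm).trans (hW' _ x hx.symm).symm)) e0)
    (IsHE.conj h1 hW (fun q => Subtype.ext (by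
      obtain ⟨x, hx⟩ := pr_surj η5 (q : QR η5)
      exact (h1' q x hx.symm).trans (hW' _ x hx.symm).symm)) e1)
  exact ⟨A, B, hc, ⟨h0.trans a⟩, ⟨h1.trans b⟩⟩

open Classical in
/-- The order complex of the quotient poset triangulates the quotient of a voxel complex. The
simplices of `K` are the images under `ℓ` of the nonempty chains of the image of `B`. -/
theorem thmT {n : ℕ} (η : Fin n → Bool) {B : Finset (Lat n)} (uB : UpC B) (iB : Invt η B)
    (fB : Free η B) (ℓ : QL η → ℕ) (hℓ : Set.InjOn ℓ (B.image (pq η))) (K : SC)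
    (hK : ∀ ρ, ρ ∈ K.faces ↔ ∃ σ : Finset (QL η), σ ⊆ B.image (pq η) ∧ σ.Nonempty ∧
      (∀ a ∈ σ, ∀ b ∈ σ, lq η a b ∨ lq η b a) ∧ ρ = σ.image ℓ) :
    Nonempty (K.space ≃ₜ vq η B) := by
  have : CompactSpace (Dl B) := isCompact_iff_compactSpace.1 (isCompact_Dl B)
  obtain ⟨e, -⟩ := homeo_of_ker (D := Dl B) (X := K.space) (Y := vq η B)
    (f := fun u => ⟨wt η B ℓ u, wt_mem η ℓ K hK u.2⟩)
    (g := fun u => ⟨pr η (bary B u), _, bary_mem_vox u.2, rfl⟩)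
    (((continuous_wt η B ℓ).comp continuous_subtype_val).subtype_mk _)
    (((continuous_pr η).comp ((continuous_bary B).comp continuous_subtype_val)).subtype_mk _)
    (fun w => by
      obtain ⟨u, hu, h⟩ := wt_surj η iB fB ℓ hℓ K hK w.2
      exact ⟨⟨u, hu⟩, Subtype.ext h⟩)
    (by
      rintro ⟨_, x, hx, rfl⟩
      obtain ⟨u, hu, rfl⟩ := bary_surj uB hx
      exact ⟨⟨u, hu⟩, rfl⟩)
    (fun u u' => by
      refine Subtype.ext_iff.trans (Iff.trans ?_ Subtype.ext_iff.symm)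
      change wt η B ℓ u = wt η B ℓ u' ↔ pr η (bary B u) = pr η (bary B u')
      rw [pr_eq_iff]
      constructor
      · intro h
        rcases wt_ker η iB fB ℓ hℓ u.2 u'.2 h with h | h
        · exact Or.inl (by rw [h])
        · exact Or.inr (by rw [h, bary_fl η iB])
      · rintro (h | h)
        · rw [bary_inj u'.2 u.2 h]
        · rw [← bary_fl η iB] at h
          rw [bary_inj u'.2 (Dl_fl η iB u.2) h, wt_fl η iB])
  exact ⟨e⟩

end Pool.Agent.Lib.MP_5ceaf9_gt
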