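import Pool.Agent.Lib.MP_5ceaf9_gt.CCylB
import Pool.Agent.Lib.MP_5ceaf9_gt.CDesc

/-! Part C: cubical obstruction theory. -/

noncomputable section

namespace Pool.Agent.Lib.MP_5ceaf9_gt

open OC Set

/-- If flat cocycles extend uniquely and the twisted cohomology of the pair vanishes, the
inclusion of voxel complexes is a homotopy equivalence. -/
theorem thmC {n : ℕ} (η : Fin n → Bool) {K L : Finset (Lat n)} (hKL : K ⊆ L) (uK : UpC K)
    (uL : UpC L) (iK : Invt η K) (iL : Invt η L) (fL : Free η L) (cK : ConnL η K)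
    (cL : ConnL η L) (h1 : E1 η K L) (h2 : E2 η K L) (h3 : H2 η K L) :
    IsHE (ContinuousMap.inclusion (vq_mono η hKL)) := by
  classical
  have hp : Pair η K L := ⟨hKL, uK, uL, iK, iL, fL⟩
  have := pathConnected_vq cK
  have := pathConnected_vq cL
  obtain ⟨zK⟩ : Nonempty (vq η K) := inferInstance
  obtain ⟨zL⟩ : Nonempty (vq η L) := inferInstance
  obtain ⟨pK, pKc, pKi, pKe⟩ := exists_proj zK
  obtain ⟨pL, pLc, pLi, pLe⟩ := exists_proj zL
  obtain ⟨r, rc, ri, re⟩ := ext hp h1 (h3_of_h2 h3) pKc pKi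
  obtain ⟨ρ, hρ⟩ := desc iL rc ri
  let ι := ContinuousMap.inclusion (vq_mono η hKL)
  have hK : ∀ x ∈ vox K, ι (r x) = pL x := fun x hx => by
    rw [re x hx, pKe x ((pr_mem_vq iK).2 hx), pLe x ((pr_mem_vq iL).2 (vox_mono hKL hx))]
    rfl
  let H : ℝ × E n → vq η L := fun p => if p.1 ≤ -1 then ι (r p.2) else pL p.2
  have c1 : ContinuousOn H (Icc (-1 : ℝ) 1 ×ˢ vox K) :=
    ((pLc.mono (vox_mono hKL)).comp continuous_snd.continuousOn fun p hp => hp.2).congr
      fun p hp => by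
        by_cases h0 : p.1 ≤ -1
        · simp only [H, if_pos h0, Function.comp]
          exact hK _ hp.2
        · simp only [H, if_neg h0, Function.comp]
  have c2 : ContinuousOn H (({-1} : Set ℝ) ×ˢ vox L) :=
    (ι.continuous.comp_continuousOn
      (rc.comp continuous_snd.continuousOn fun p hp => hp.2)).congr fun p hp => by
        have h0 : p.1 ≤ -1 := le_of_eq hp.1
        simp only [H, if_pos h0, Function.comp]
  have c3 : ContinuousOn H (({1} : Set ℝ) ×ˢ vox L) :=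
    (pLc.comp continuous_snd.continuousOn fun p hp => hp.2).congr fun p hp => by
      have h0 : ¬ p.1 ≤ -1 := by
        rw [show p.1 = 1 from hp.1]
        norm_num
      simp only [H, if_neg h0, Function.comp]
  have hc : ContinuousOn H (Icc (-1 : ℝ) 1 ×ˢ vox K ∪ ({-1, 1} : Set ℝ) ×ˢ vox L) := by
    rw [insert_eq, union_prod]
    have k2 : IsClosed (({-1} : Set ℝ) ×ˢ vox L) := isClosed_singleton.prod (isClosed_vox L)
    have k3 : IsClosed (({1} : Set ℝ) ×ˢ vox L) := isClosed_singleton.prod (isClosed_vox L)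
    exact c1.union_of_isClosed (c2.union_of_isClosed c3 k2 k3)
      (isClosed_Icc.prod (isClosed_vox K)) (k2.union k3)
  obtain ⟨G, Gc, Gi, Ge⟩ := ext2 hp h2 h3 hc fun t x => by simp only [H, ri, pLi]
  obtain ⟨Φ, hΦ⟩ := desc2 iL Gc Gi
  refine ⟨ρ, ?_, ⟨⟨Φ, ?_, ?_⟩⟩⟩
  · have : ρ.comp ι = ContinuousMap.id _ := by
      ext1 ⟨_, x, hx, rfl⟩
      have hx' := (pr_mem_vq iL).2 (vox_mono hKL hx)
      exact (hρ x hx').trans ((re x hx).trans (pKe x _))
    rw [this]
  · rintro ⟨_, x, hx, rfl⟩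
    refine (hΦ 0 x _).trans ((Ge _ (Or.inr ⟨Or.inl (by simp), hx⟩)).trans ?_)
    have h0 : 2 * ((0 : unitInterval) : ℝ) - 1 ≤ -1 := by simp
    simp only [H, if_pos h0]
    exact congrArg ι (hρ x _).symm
  · rintro ⟨_, x, hx, rfl⟩
    refine (hΦ 1 x _).trans ((Ge _ (Or.inr ⟨Or.inr (by simp; norm_num), hx⟩)).trans ?_)
    have h0 : ¬ 2 * ((1 : unitInterval) : ℝ) - 1 ≤ -1 := by simp
    simp only [H, if_neg h0]
    exact pLe x _

end Pool.Agent.Lib.MP_5ceaf9_gt
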