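import Pool.Agent.Lib.MP_5ceaf9_gt.EMain

/-! Part E: the lattice models. -/

noncomputable section

namespace Pool.Agent.Lib.MP_5ceaf9_gt

open Classical Function

theorem thmE {α β : Type} [DecidableEq α] [DecidableEq β] [Nonempty α] [Nonempty β]
    {r : α → α → Prop} {r' : β → β → Prop} {Y : Finset α} {X : Finset β} {kY : α → ℕ}
    {kX : β → ℕ} {f : α → β} {ω : β → β → ZMod 2} (h : GData r r' Y X kY kX f ω) :
    ∃ S0 S1 L B0 B1 : Finset (Lat 5), DnC S0 ∧ DnC S1 ∧ Invt η5 S0 ∧ Invt η5 S1 ∧ Free η5 S1 ∧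
      (∀ a ∈ S0, ∀ b, le1 a b → b ∈ S1) ∧
      (∀ e, e ∈ L ↔ cw a1 e ∈ S1 ∧ cw b1 e ∉ S0) ∧
      (∀ e, e ∈ B0 ↔ cw a1 e ∈ S0 ∧ cw b1 e ∉ S0) ∧
      (∀ e, e ∈ B1 ↔ cw a1 e ∈ S1 ∧ cw b1 e ∉ S1) ∧ CHyp B0 L ∧ CHyp B1 L ∧
      POn (lq η5) (L.image (pq η5)) ∧
      PD (lq η5) (OC (lq η5) (B0.image (pq η5))) ∧
      ¬ PD (lq η5) (OC (lq η5) (B1.image (pq η5))) := by
  have hX : POn r' X := h.me.1.pB
  have hF := mo_graph h.rkY h.me.1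
  have hq : ∀ l, ME (r3 r') r' l (X3 X) X Prod.fst := fun l => me_X3 hX h.rkX
  have hω : Flat2 (r3 r') (OC (r3 r') (X3 X)) (fun a b => ω a.1 b.1) := (mo_X3 hX).flat h.flat
  obtain ⟨lamX, lamY, LX, LY, M, hN⟩ := LD.exists_nest h.rkY rk_X3 hF (fun _ _ => rfl) hω
  exact hN.main (ME.left hF (hq 1) h.me) ((hq 0).conn_iff.2 h.conn)
    (((hq 2).tv_iff h.flat).2 h.tv) h.ex

end Pool.Agent.Lib.MP_5ceaf9_gt
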