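import Pool.Agent.Lib.MP_5ceaf9_gt.GNum

/-! Part G: the two presentation posets. -/

noncomputable section

namespace Pool.Agent.Lib.MP_5ceaf9_gt

open Classical Function

theorem thmG : ∃ (α β : Type) (_ : DecidableEq α) (_ : DecidableEq β) (_ : Nonempty α)
    (_ : Nonempty β) (r : α → α → Prop) (r' : β → β → Prop) (Y : Finset α) (X : Finset β)
    (kY : α → ℕ) (kX : β → ℕ) (f : α → β) (ω : β → β → ZMod 2), GData r r' Y X kY kX f ω :=
  ⟨ℕ, ℕ, _, _, _, _, _, _, _, _, _, _, _, _, G.gdata⟩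

end Pool.Agent.Lib.MP_5ceaf9_gt
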