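import Pool.Agent.Lib.MP_5ceaf9_gt.Cx

/-! Twisted cochains, cup products, the Bockstein relation and the torsion invariants. -/

noncomputable section

namespace Pool.Agent.Lib.MP_5ceaf9_gt

open Classical

variable {α : Type} [DecidableEq α] [Nonempty α] (r : α → α → Prop)

/-- The twisted coboundary of a cochain. -/
def dl {A : Type} [CommRing A] (z : A) (κ : α → α → ZMod 8) (f : Finset α → A)
    (σ : Finset α) : A :=
  ∑ v ∈ σ, (sg r σ v : A) * pw z (κ (bt r σ) (bt r (σ.erase v))) * f (σ.erase v)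

/-- The cup product; `κ` twists the second factor. -/
def cup {A : Type} [CommRing A] (z : A) (κ : α → α → ZMod 8) (f g : Finset α → A)
    (σ : Finset α) : A :=
  ∑ v ∈ σ, f (σ.filter (fun u => r u v)) * pw z (κ (bt r σ) v) * g (σ.filter (fun u => r v u))

/-- A cochain of degree `n`. -/
def Hom {A : Type} [Zero A] (n : ℕ) (f : Finset α → A) : Prop := ∀ σ, f σ ≠ 0 → σ.card = n + 1

/-- The exponent cocycle of the character number `j`. -/
def kj (j : ZMod 8) (C : α → α → Aff) : α → α → ZMod 8 := fun a b => j * (C a b).k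

/-- The one-cochain number `i`. -/
def yc (C : α → α → Aff) (i : ZMod 8) (σ : Finset α) : F25 :=
  if σ.card = 2 then (C (bt r σ) (bt (Function.swap r) σ)).y i else 0

/-- First indices of the four products for `j = 1`. -/
def p1 : Fin 4 → ZMod 8 := ![0, 2, 3, 4]

/-- First indices of the four products for `j = 3`. -/
def p3 : Fin 4 → ZMod 8 := ![0, 1, 4, 5]

/-- The product of two one-cochains. -/
def yy (C : α → α → Aff) (j i : ZMod 8) : Finset α → F25 :=
  cup r zF (kj (j - i) C) (yc r C i) (yc r C (j - i))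

/-- The six classes. -/
def cls (j : ZMod 8) (p : Fin 4 → ZMod 8) (C : α → α → Aff) (b : Finset α → F25) :
    Fin 6 → Finset α → F25 :=
  ![yc r C j, yy r C j (p 0), yy r C j (p 1), yy r C j (p 2), yy r C j (p 3), b]

/-- Their degrees. -/
def dg : Fin 6 → ℕ := ![1, 2, 2, 2, 2, 2]

/-- Their parities. -/
def pj (m : Fin 6) : Bool := decide (dg m % 2 = 1)

/-- The coboundary matrix over the field. -/
def DF (j : ZMod 8) (C : α → α → Aff) (σ ρ : Finset α) : F25 := ph j (DG r C σ ρ)

/-- The matrix of a family of cochains. -/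
def cm {J : Type} (K : Finset (Finset α)) (h : J → Finset α → F25) : Matrix K J F25 :=
  Matrix.of fun σ m => h m σ

/-- The torsion of a complex with respect to a family of classes. -/
def tc {J : Type} [Fintype J] [DecidableEq J] (K : Finset (Finset α)) (j : ZMod 8)
    (C : α → α → Aff) (pJ : J → Bool) (h : J → Finset α → F25) : F25 :=
  tor (cpar (fun x : ↥K => ps x.1) pJ) (cone (rs K K (DF r j C)) 0 (cm K h))

/-- The torsion for the character one. -/
def t1 (K : Finset (Finset α)) (C : α → α → Aff) (b : Finset α → F25) : F25 :=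
  tc r K 1 C pj (cls r 1 p1 C b)

/-- The torsion for the character three. -/
def t3 (K : Finset (Finset α)) (C : α → α → Aff) (b : Finset α → F25) : F25 :=
  tc r K 3 C pj (cls r 3 p3 C b)

/-- `b` represents the Bockstein of the one-cochain number `j`. -/
def Bock (K : Finset (Finset α)) (j : ZMod 8) (C : α → α → Aff) (b : Finset α → F25) : Prop :=
  Hom 2 b ∧ ∃ y' b' : Finset α → R25, Hom 1 y' ∧ ∀ σ ∈ K,
    red (y' σ) = yc r C j σ ∧ red (b' σ) = b σ ∧ dl r zR (kj j C) y' σ = 5 * b' σ

/-- The class modulo two is equivalent to `ω`. -/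
def Geq (K : Finset (Finset α)) (C : α → α → Aff) (ω : α → α → ZMod 2) : Prop :=
  ∃ g : α → ZMod 2, Agree r K (fun a b => par2 (C a b).k) (fun a b => g a + ω a b + g b)

/-- The one-cochain number `i` is a coboundary. -/
def Triv (K : Finset (Finset α)) (C : α → α → Aff) (i : ZMod 8) : Prop :=
  ∃ g : α → F25, Agree r K (fun a b => (C a b).y i) (fun a b => g a - pw zF (kj i C a b) * g b)

/-- An additive flat cocycle modulo two. -/
def Flat2 (K : Finset (Finset α)) (ω : α → α → ZMod 2) : Prop :=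
  Flat r K (fun a b => Multiplicative.ofAdd (ω a b))

/-- Admissible data. -/
structure Adm (K : Finset (Finset α)) (C : α → α → Aff) (b1 b3 : Finset α → F25) : Prop where
  flat : Flat r K C
  odd : ¬ Geq r K C (fun _ _ => 0)
  nt : ∀ i, ¬ Triv r K C i
  b1 : Bock r K 1 C b1
  b3 : Bock r K 3 C b3

/-- For all admissible data the two torsions differ. -/
def TV (K : Finset (Finset α)) (ω : α → α → ZMod 2) : Prop :=
  ∀ C b1 b3, Adm r K C b1 b3 →
    Geq r K C ω ∧ t1 r K C b1 ≠ 0 ∧ t3 r K C b3 ≠ 0 ∧ t1 r K C b1 ≠ t3 r K C b3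

/-- For some admissible data the two torsions agree. -/
def EX (K : Finset (Finset α)) (ω : α → α → ZMod 2) : Prop :=
  ∃ C b1 b3, Adm r K C b1 b3 ∧ Geq r K C ω ∧ t1 r K C b1 ≠ 0 ∧ t1 r K C b1 = t3 r K C b3

/-- Evaluation of a cochain on a chain. -/
def ev (K : Finset (Finset α)) (μ f : Finset α → F25) : F25 := ∑ σ ∈ K, μ σ * f σ

/-- A fundamental cycle and dual classes. -/
structure Dual (K : Finset (Finset α)) (C : α → α → Aff) (b3 μ : Finset α → F25)
    (ξ : Fin 6 → Finset α → F25) : Prop where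
  hom : Hom 4 μ
  rat : ∀ σ, μ σ ^ 5 = μ σ
  cyc : ∀ ρ ∈ K, ∑ σ ∈ K, μ σ * DF r 4 C σ ρ = 0
  deg : ∀ m, Hom (4 - dg m) (ξ m)
  coc : ∀ m, ∀ σ ∈ K, dl r zF (kj 1 C) (ξ m) σ = 0
  pair : ∀ m m', ev K μ (cup r zF (kj 1 C) (cls r 3 p3 C b3 m') (ξ m)) = if m = m' then 1 else 0

/-- The torsion with respect to the twelve classes. -/
def t12 (K : Finset (Finset α)) (C : α → α → Aff) (b1 : Finset α → F25)
    (ξ : Fin 6 → Finset α → F25) : F25 :=
  tc r K 1 C (Sum.elim pj pj) (Sum.elim (cls r 1 p1 C b1) ξ)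

/-- The simple homotopy invariant. -/
def PD (K : Finset (Finset α)) : Prop :=
  ∃ C b1 b3 μ ξ, Adm r K C b1 b3 ∧ Dual r K C b3 μ ξ ∧ t12 r K C b1 ξ = 1

end Pool.Agent.Lib.MP_5ceaf9_gt
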