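import Pool.Agent.Lib.MP_5ceaf9_gt.Defs

/-! The integer lattice as a poset of cells, the sign flip, voxel complexes and their quotients,
and the cocycle conditions used by obstruction theory. -/

noncomputable section

namespace Pool.Agent.Lib.MP_5ceaf9_gt

/-- Lattice points. -/
abbrev Lat (n : ℕ) : Type := Fin n → ℤ

/-- The order in one coordinate: an even number is below its two odd neighbours. -/
def le0 (a b : ℤ) : Prop := a = b ∨ (b % 2 = 1 ∧ (a = b + 1 ∨ a = b - 1))

instance decLe0 (a b : ℤ) : Decidable (le0 a b) := by unfold le0; infer_instance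

/-- The primary order of the lattice. -/
def le1 {n : ℕ} (a b : Lat n) : Prop := ∀ i, le0 (a i) (b i)

instance decLe1 {n : ℕ} (a b : Lat n) : Decidable (le1 a b) := by unfold le1; infer_instance

/-- The sign flip of the coordinates marked by `η`. -/
def fl {n : ℕ} {A : Type} [Neg A] (η : Fin n → Bool) (x : Fin n → A) : Fin n → A :=
  fun i => if η i then -x i else x i

theorem fl_fl {n : ℕ} {A : Type} [InvolutiveNeg A] (η : Fin n → Bool) (x : Fin n → A) :
    fl η (fl η x) = x := by
  funext i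
  by_cases h : η i <;> simp [fl, h]

/-- Two points are equivalent when they are equal or flips of each other. -/
def fs {n : ℕ} (A : Type) [InvolutiveNeg A] (η : Fin n → Bool) : Setoid (Fin n → A) where
  r x y := y = x ∨ y = fl η x
  iseqv := ⟨fun _ => Or.inl rfl, by
    rintro x y (h | h)
    · exact Or.inl h.symm
    · exact Or.inr (by rw [h, fl_fl]), by
    rintro x y z (h | h) (h' | h')
    · exact Or.inl (h'.trans h)
    · exact Or.inr (by rw [h', h])
    · exact Or.inr (h'.trans h)
    · exact Or.inl (by rw [h', h, fl_fl])⟩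

/-- The quotient of real space by the flip. -/
abbrev QR {n : ℕ} (η : Fin n → Bool) : Type := Quotient (fs ℝ η)

/-- The projection to the quotient of real space. -/
def pr {n : ℕ} (η : Fin n → Bool) (x : Fin n → ℝ) : QR η := Quotient.mk (fs ℝ η) x

/-- The quotient of the lattice by the flip. -/
abbrev QL {n : ℕ} (η : Fin n → Bool) : Type := Quotient (fs ℤ η)

/-- The projection to the quotient of the lattice. -/
def pq {n : ℕ} (η : Fin n → Bool) (x : Lat n) : QL η := Quotient.mk (fs ℤ η) x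

/-- The order of the quotient lattice. -/
def lq {n : ℕ} (η : Fin n → Bool) (x y : QL η) : Prop :=
  le1 x.out y.out ∨ le1 (fl η x.out) y.out

/-- The closed voxel cell with centre `e`: the even coordinates are its directions. -/
def cube {n : ℕ} (e : Lat n) : Set (Fin n → ℝ) :=
  {x | ∀ i, if e i % 2 = 0 then |x i - e i| ≤ 1 else x i = e i}

/-- The union of the voxel cells of `A`. -/
def vox {n : ℕ} (A : Finset (Lat n)) : Set (Fin n → ℝ) := {x | ∃ e ∈ A, x ∈ cube e}

/-- The image of a voxel complex in the quotient. -/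
def vq {n : ℕ} (η : Fin n → Bool) (A : Finset (Lat n)) : Set (QR η) := pr η '' vox A

theorem vq_mono {n : ℕ} (η : Fin n → Bool) {A B : Finset (Lat n)} (h : A ⊆ B) :
    vq η A ⊆ vq η B := by
  rintro _ ⟨x, ⟨e, he, hx⟩, rfl⟩
  exact ⟨x, ⟨e, h he, hx⟩, rfl⟩

/-- Closed upwards in the primary order (a voxel subcomplex). -/
def UpC {n : ℕ} (A : Finset (Lat n)) : Prop := ∀ a ∈ A, ∀ b, le1 a b → b ∈ A

/-- Closed downwards in the primary order. -/
def DnC {n : ℕ} (A : Finset (Lat n)) : Prop := ∀ b ∈ A, ∀ a, le1 a b → a ∈ A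

/-- Invariant under the flip. -/
def Invt {n : ℕ} (η : Fin n → Bool) (A : Finset (Lat n)) : Prop := ∀ a ∈ A, fl η a ∈ A

/-- The flip has no fixed point in `A`. -/
def Free {n : ℕ} (η : Fin n → Bool) (A : Finset (Lat n)) : Prop := ∀ a ∈ A, fl η a ≠ a

/-- Lower end of the interval with doubled midpoint `e`. -/
def a1 (e : ℤ) : ℤ := (e + 2) / 4 - (2 - e) / 4

/-- Upper end of the interval with doubled midpoint `e`. -/
def b1 (e : ℤ) : ℤ := (e + 3) / 4 - (3 - e) / 4

/-- Apply a map in every coordinate. -/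
def cw {n : ℕ} (θ : ℤ → ℤ) (e : Lat n) : Lat n := fun i => θ (e i)

/-- The flip of the first three of five coordinates. -/
def η5 : Fin 5 → Bool := ![true, true, true, false, false]

section upstairs

variable {n : ℕ} (η : Fin n → Bool)

/-- A group valued function on pairs is a flat cocycle on `A`. -/
def FlatL {Γ : Type} [Group Γ] (A : Finset (Lat n)) (c : Lat n → Lat n → Γ) : Prop :=
  ∀ a ∈ A, ∀ b ∈ A, ∀ d ∈ A, le1 a b → le1 b d → c a b * c b d = c a d

/-- Two functions agree on the comparable pairs of `A`. -/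
def AgreeL {Γ : Type} (A : Finset (Lat n)) (c c' : Lat n → Lat n → Γ) : Prop :=
  ∀ a ∈ A, ∀ b ∈ A, le1 a b → c a b = c' a b

/-- Invariance of a function of pairs under the flip. -/
def InvC {Γ : Type} (c : Lat n → Lat n → Γ) : Prop := ∀ a b, c (fl η a) (fl η b) = c a b

/-- Invariant flat cocycles extend from `Q` to `P`. -/
def E1 (Q P : Finset (Lat n)) : Prop :=
  ∀ (Γ : Type) [Group Γ] (c : Lat n → Lat n → Γ), InvC η c → FlatL Q c →
    ∃ c' : Lat n → Lat n → Γ, InvC η c' ∧ FlatL P c' ∧ AgreeL Q c c'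

/-- Invariant flat cocycles on `P` that agree on `Q` differ by a gauge trivial on `Q`. -/
def E2 (Q P : Finset (Lat n)) : Prop :=
  ∀ (Γ : Type) [Group Γ] (c c' : Lat n → Lat n → Γ), InvC η c → InvC η c' → FlatL P c →
    FlatL P c' → AgreeL Q c c' →
    ∃ g : Lat n → Γ, (∀ a, g (fl η a) = g a) ∧ (∀ a ∈ Q, g a = 1) ∧
      AgreeL P (fun a b => g a * c a b * (g b)⁻¹) c'

/-- The quotient of `A` is connected. -/
def ConnL (A : Finset (Lat n)) : Prop :=
  A.Nonempty ∧ ∀ T : Set (Lat n), (∀ a, a ∈ T → fl η a ∈ T) →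
    (∀ a ∈ A, ∀ b ∈ A, le1 a b → (a ∈ T ↔ b ∈ T)) → (∃ a ∈ A, a ∈ T) → ∀ a ∈ A, a ∈ T

/-- Dimension of a voxel cell. -/
def dimE (e : Lat n) : ℕ := (Finset.univ.filter (fun j => e j % 2 = 0)).card

/-- Sign of the direction `i` of a voxel cell. -/
def sgE (e : Lat n) (i : Fin n) : ℤ :=
  (-1) ^ (Finset.univ.filter (fun j => j < i ∧ e j % 2 = 0)).card

/-- Orientation sign of the flip on a voxel cell. -/
def orE (e : Lat n) : ℤ := (-1) ^ (Finset.univ.filter (fun j => η j ∧ e j % 2 = 0)).card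

/-- The twisted cubical coboundary. -/
def dE {Γ A : Type} [Group Γ] [AddCommGroup A] [DistribMulAction Γ A] (c : Lat n → Lat n → Γ)
    (ψ : Lat n → A) (e : Lat n) : A :=
  ∑ i ∈ Finset.univ.filter (fun i => e i % 2 = 0),
    sgE e i • (c e (e + Pi.single i 1) • ψ (e + Pi.single i 1) -
      c e (e - Pi.single i 1) • ψ (e - Pi.single i 1))

/-- An equivariant cochain of degree `k` of the pair. -/
def CochL {A : Type} [AddCommGroup A] (Q P : Finset (Lat n)) (k : ℕ) (φ : Lat n → A) : Prop :=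
  (∀ e, φ (fl η e) = orE η e • φ e) ∧ ∀ e, φ e ≠ 0 → e ∈ P ∧ e ∉ Q ∧ dimE e = k

/-- Twisted equivariant cubical cohomology of the pair vanishes in positive degrees. -/
def H2 (Q P : Finset (Lat n)) : Prop :=
  ∀ (Γ A : Type) [Group Γ] [AddCommGroup A] [DistribMulAction Γ A] (c : Lat n → Lat n → Γ),
    InvC η c → FlatL P c → ∀ (k : ℕ) (φ : Lat n → A), CochL η Q P (k + 1) φ →
      (∀ e ∈ P, dE c φ e = 0) → ∃ ψ : Lat n → A, CochL η Q P k ψ ∧ ∀ e ∈ P, dE c ψ e = φ e

end upstairs

end Pool.Agent.Lib.MP_5ceaf9_gt
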