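import Pool.Agent.Lib.MP_5ceaf9_gt.SxB

/-! The calculus of good inclusions. -/

noncomputable section

namespace Pool.Agent.Lib.MP_5ceaf9_gt

open Classical Function

variable {α β : Type} [DecidableEq α] [DecidableEq β] [Nonempty α] [Nonempty β]
  {r : α → α → Prop} {r' : β → β → Prop} {l : ℕ}

variable {K L M : Finset (Finset α)} {A B C : Finset α}

/-- The block outside `L` of the matrix on `M \ K` is the matrix on `M \ L`. -/
theorem sxc_out (hKL : K ⊆ L) {Γ : Type} [Group Γ] (c : α → α → Γ) :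
    Gd l (PhiG Γ F25) (fun x : {x : ↥(M \ K) // x.1 ∉ L} => ps x.1.1)
        (blk (rs (M \ K) (M \ K) (DG r c)) (fun x => x.1 ∉ L)) ↔
      Gd l (PhiG Γ F25) (fun x : ↥(M \ L) => ps x.1) (rs (M \ L) (M \ L) (DG r c)) := by
  refine gd_blk_rs (p := ps) (fun x : ↥(M \ K) => x.1 ∉ L) fun x => ?_
  simp only [Finset.mem_sdiff]
  constructor
  · rintro ⟨h1, h2⟩
    exact ⟨⟨h1, fun h => h2 (hKL h)⟩, h2⟩
  · rintro ⟨⟨h1, _⟩, h2⟩
    exact ⟨h1, h2⟩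

/-- The block inside `L` of the matrix on `M \ K` is the matrix on `L \ K`. -/
theorem sxc_in (hLM : L ⊆ M) {Γ : Type} [Group Γ] (c : α → α → Γ) :
    Gd l (PhiG Γ F25) (fun x : {x : ↥(M \ K) // ¬ x.1 ∉ L} => ps x.1.1)
        (blk (rs (M \ K) (M \ K) (DG r c)) (fun x => ¬ x.1 ∉ L)) ↔
      Gd l (PhiG Γ F25) (fun x : ↥(L \ K) => ps x.1) (rs (L \ K) (L \ K) (DG r c)) := by
  refine gd_blk_rs (p := ps) (fun x : ↥(M \ K) => ¬ x.1 ∉ L) fun x => ?_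
  simp only [Finset.mem_sdiff, not_not]
  constructor
  · rintro ⟨h1, h2⟩
    exact ⟨⟨hLM h1, h2⟩, h1⟩
  · rintro ⟨⟨_, h1⟩, h2⟩
    exact ⟨h2, h1⟩

theorem sxc_sub (cL : Cx r L) (cM : Cx r M) {Γ : Type} [Group Γ] (c : α → α → Γ) :
    Sub (rs (M \ K) (M \ K) (DG r c)) (fun x => x.1 ∉ L) :=
  sub_DG cL fun σ hσ => cM.ne σ (Finset.mem_sdiff.1 hσ).1

theorem GE.mono (h : GE r l K L) {l' : ℕ} (hl : l' ≤ l) : GE r l' K L := by
  exact ⟨h.cK, h.cL, h.sub, h.eq1, fun Γ _ c hc => (h.gd Γ c hc).mono hl⟩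

theorem ge_zero (cK : Cx r K) (cL : Cx r L) (hKL : K ⊆ L) (h : Eq1 r K L) : GE r 0 K L := by
  exact ⟨cK, cL, hKL, h, fun Γ _ c hc =>
    ⟨dm_DG cK cL hc, fun h1 => absurd h1 (by omega), fun h2 => absurd h2 (by omega)⟩⟩

theorem GE.refl (hK : Cx r K) : GE r l K K := by
  refine ⟨hK, hK, Finset.Subset.refl K, Eq1.refl hK, fun Γ _ c _ => ?_⟩
  have : IsEmpty ↥(K \ K) :=
    ⟨fun x => (Finset.mem_sdiff.1 x.2).2 (Finset.mem_sdiff.1 x.2).1⟩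
  exact gd_empty

theorem GE.trans (h1 : GE r l K L) (h2 : GE r l L M) : GE r l K M := by
  refine ⟨h1.cK, h2.cL, h1.sub.trans h2.sub,
    Eq1.trans h1.cK h1.cL h2.cL h1.sub h2.sub h1.eq1 h2.eq1, fun Γ _ c hc => ?_⟩
  exact gd_of_blocks (dm_DG h1.cK h2.cL hc) (sxc_sub h1.cL h2.cL c)
    ((sxc_out h1.sub c).2 (h2.gd Γ c hc))
    ((sxc_in h2.sub c).2 (h1.gd Γ c (hc.mono h2.sub)))

theorem GE.left (cL : Cx r L) (hKL : K ⊆ L) (h : GE r l K M) (h2 : GE r l L M) : GE r l K L := by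
  refine ⟨h.cK, cL, hKL, Eq1.left h.cK cL h.cL hKL h2.sub h.eq1 h2.eq1, fun Γ _ c hc => ?_⟩
  obtain ⟨c', hc', ha⟩ := h2.eq1.ext Γ c hc
  have e : rs (L \ K) (L \ K) (DG r c) = rs (L \ K) (L \ K) (DG r c') :=
    Matrix.ext fun x y =>
      DG_congr cL ha (Finset.mem_sdiff.1 x.2).1 (Finset.mem_sdiff.1 y.2).1
  rw [e]
  exact (sxc_in h2.sub c').1 ((h.gd Γ c' hc').quot (sxc_sub cL h.cL c')
    ((sxc_out hKL c').2 (h2.gd Γ c' hc')))

theorem GE.right (hLM : L ⊆ M) (h : GE r l K M) (h1 : GE r l K L) : GE r l L M := by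
  refine ⟨h1.cL, h.cL, hLM, Eq1.right h.cK h1.cL h.cL h1.sub hLM h.eq1 h1.eq1,
    fun Γ _ c hc => ?_⟩
  exact (sxc_out h1.sub c).1 ((h.gd Γ c hc).sub (sxc_sub h1.cL h.cL c)
    ((sxc_in hLM c).2 (h1.gd Γ c (hc.mono hLM))))

theorem GP.mono (h : GP r l A B) {l' : ℕ} (hl : l' ≤ l) : GP r l' A B := by
  exact ⟨h.1, h.2.1, h.2.2.mono hl⟩

theorem GP.refl (h : POn r A) : GP r l A A := by
  exact ⟨h, Finset.Subset.refl A, GE.refl (cx_OC h)⟩

theorem GP.trans (h1 : GP r l A B) (h2 : GP r l B C) : GP r l A C := by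
  exact ⟨h2.1, h1.2.1.trans h2.2.1, h1.2.2.trans h2.2.2⟩

theorem GP.left (hAB : A ⊆ B) (h : GP r l A C) (h2 : GP r l B C) : GP r l A B := by
  have hB : POn r B := h.1.mono h2.2.1
  exact ⟨hB, hAB, GE.left (cx_OC hB) (OC_mono hAB) h.2.2 h2.2.2⟩

theorem GP.right (hBC : B ⊆ C) (h : GP r l A C) (h1 : GP r l A B) : GP r l B C := by
  exact ⟨h.1, hBC, GE.right (OC_mono hBC) h.2.2 h1.2.2⟩

theorem CT.mono (h : CT r l A) {l' : ℕ} (hl : l' ≤ l) : CT r l' A := by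
  obtain ⟨a, ha, h⟩ := h
  exact ⟨a, ha, h.mono hl⟩

theorem CT.po (h : CT r l A) : POn r A := by
  obtain ⟨a, _, h⟩ := h
  exact h.1

theorem ct_single {a : α} (h : r a a) : CT r l {a} := by
  refine ⟨a, Finset.mem_singleton_self a, GP.refl ⟨?_, ?_, ?_⟩⟩
  · intro b hb
    rw [Finset.mem_singleton.1 hb]
    exact h
  · intro b hb d hd _ _
    rw [Finset.mem_singleton.1 hb, Finset.mem_singleton.1 hd]
  · intro b hb d _ e he _ _
    rw [Finset.mem_singleton.1 hb, Finset.mem_singleton.1 he]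
    exact h

theorem CT.up (h : CT r l A) (h' : GP r l A B) : CT r l B := by
  obtain ⟨a, ha, h⟩ := h
  exact ⟨a, h'.2.1 ha, h.trans h'⟩

theorem CT.conn (h : CT r l A) : Conn r (OC r A) := by
  obtain ⟨a, ha, hp, hs, h⟩ := h
  have hpa : POn r {a} := hp.mono hs
  refine (Eq1.conn_iff h.cK h.cL h.sub h.eq1).1
    ⟨⟨a, (single_mem_OC hpa).2 (Finset.mem_singleton_self a)⟩, ?_⟩
  rintro T _ ⟨b, hb, hT⟩ d hd
  rw [Finset.mem_singleton.1 ((single_mem_OC hpa).1 hb)] at hT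
  rw [Finset.mem_singleton.1 ((single_mem_OC hpa).1 hd)]
  exact hT

/-- On a contractible poset every flat cocycle is a coboundary. -/
theorem CT.triv (h : CT r l A) {Γ : Type} [Group Γ] {c : α → α → Γ} (hc : Flat r (OC r A) c) :
    ∃ g : α → Γ, ∀ a ∈ A, ∀ b ∈ A, r a b → c a b = g a * (g b)⁻¹ := by
  obtain ⟨a, ha, hp, hs, h⟩ := h
  have hpa : POn r {a} := hp.mono hs
  have h1 : Flat r (OC r A) (fun _ _ => (1 : Γ)) := fun _ _ _ _ _ _ => mul_one 1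
  have hag : Agree r (OC r {a}) (fun _ _ => (1 : Γ)) c := by
    refine (agree_OC hpa).2 fun b hb d hd _ => ?_
    rw [Finset.mem_singleton.1 hb, Finset.mem_singleton.1 hd]
    exact (Flat.refl h.cL hc ((single_mem_OC hp).2 ha)).symm
  obtain ⟨g, _, hg⟩ := h.eq1.uniq Γ _ c h1 hc hag
  refine ⟨g, fun b hb d hd hbd => ?_⟩
  rw [← (agree_OC hp).1 hg b hb d hd hbd, gau, mul_one]

end Pool.Agent.Lib.MP_5ceaf9_gt
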