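import Pool.Agent.Lib.MP_5ceaf9_gt.Defs
import Pool.Agent.Lib.MP_5ceaf9_gt.SxC

/-! Elementary expansions and renamings. -/

noncomputable section

namespace Pool.Agent.Lib.MP_5ceaf9_gt

open Classical Function

theorem SC.cx (K : SC) : Cx (· ≤ ·) K.faces := by
  refine ⟨K.nonempty, K.down, fun σ _ => ⟨fun a _ => le_rfl, fun a _ b _ h h' => le_antisymm h h',
    fun a _ b _ d _ h h' => le_trans h h'⟩, fun σ _ a _ b _ => le_total a b⟩

/-- The cocycle extended to all ordered pairs. -/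
def sxo_sym {Γ : Type} [Group Γ] (c : ℕ → ℕ → Γ) (a b : ℕ) : Γ :=
  if a ≤ b then c a b else (c b a)⁻¹

theorem sxo_sym_le {Γ : Type} [Group Γ] (c : ℕ → ℕ → Γ) {a b : ℕ} (h : a ≤ b) :
    sxo_sym c a b = c a b := if_pos h

theorem sxo_sym_mul {Γ : Type} [Group Γ] {c : ℕ → ℕ → Γ} {K : SC} (hc : Flat (· ≤ ·) K.faces c)
    {σ : Finset ℕ} (hσ : σ ∈ K.faces) {a b d : ℕ} (ha : a ∈ σ) (hb : b ∈ σ) (hd : d ∈ σ) :
    sxo_sym c a b * sxo_sym c b d = sxo_sym c a d := by
  have m : ∀ {x y z : ℕ}, x ∈ σ → y ∈ σ → z ∈ σ → x ≤ y → y ≤ z → c x y * c y z = c x z :=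
    fun hx hy hz h1 h2 => hc.mul K.cx hσ hx hy hz h1 h2
  unfold sxo_sym
  by_cases h1 : a ≤ b <;> by_cases h2 : b ≤ d <;> by_cases h3 : a ≤ d <;>
    simp only [h1, h2, h3, if_true, if_false]
  · exact m ha hb hd h1 h2
  · omega
  · rw [← m ha hd hb h3 (by omega)]
    group
  · rw [← m hd ha hb (by omega) h1]
    group
  · rw [← m hb ha hd (by omega) h3]
    group
  · rw [← m hb hd ha h2 (by omega)]
    group
  · omega
  · rw [← m hd hb ha (by omega) (by omega)]
    group

theorem sxo_sym_agree {Γ : Type} [Group Γ] {c c' : ℕ → ℕ → Γ} {K : Finset (Finset ℕ)}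
    (h : Agree (· ≤ ·) K c c') {a b : ℕ} (hab : ({a, b} : Finset ℕ) ∈ K) :
    sxo_sym c a b = sxo_sym c' a b := by
  unfold sxo_sym
  split_ifs with h1
  · exact h a b hab h1
  · rw [h b a (by rwa [Finset.pair_comm]) (by show b ≤ a; omega)]

theorem sxo_ins {K L : SC} {σ : Finset ℕ} {v : ℕ} (hv : v ∈ σ) (hτ : σ.erase v ∉ K.faces)
    (hne : (σ.erase v).Nonempty) (hL : L.faces = insert σ (insert (σ.erase v) K.faces))
    {ρ : Finset ℕ} (hρ : ρ ⊆ σ) (hK : ρ.Nonempty → ρ ∈ K.faces) : insert v ρ ∈ K.faces := by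
  have h1 : insert v ρ ∈ L.faces :=
    L.down σ (by rw [hL]; exact Finset.mem_insert_self _ _) _ (Finset.insert_subset hv hρ)
      (Finset.insert_nonempty _ _)
  rw [hL, Finset.mem_insert, Finset.mem_insert] at h1
  rcases h1 with h1 | h1 | h1
  · have h2 : σ.erase v ⊆ ρ := by
      rw [← h1]
      exact Finset.erase_insert_subset v ρ
    exact absurd (K.down ρ (hK (hne.mono h2)) _ h2 hne) hτ
  · exact absurd (h1 ▸ Finset.mem_insert_self v ρ) (Finset.notMem_erase v σ)
  · exact h1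

theorem sxo_or {K L : SC} {σ : Finset ℕ} {v : ℕ}
    (hL : L.faces = insert σ (insert (σ.erase v) K.faces)) {ρ : Finset ℕ} (hρ : ρ ∈ L.faces) :
    ρ ⊆ σ ∨ ρ ∈ K.faces := by
  rw [hL, Finset.mem_insert, Finset.mem_insert] at hρ
  rcases hρ with h | h | h
  · exact Or.inl h.subset
  · exact Or.inl (h ▸ Finset.erase_subset v σ)
  · exact Or.inr h

/-- Cases: the new face is a vertex, an edge, a triangle, or larger. -/
theorem Expands.eq1 {K L : SC} (h : Expands K L) : Eq1 (· ≤ ·) K.faces L.faces := by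
  obtain ⟨σ, v, hv, -, hτ, hne, hL⟩ := h
  have hσL : σ ∈ L.faces := by
    rw [hL]
    exact Finset.mem_insert_self _ _
  refine ⟨fun Γ _ c hc => ?_, fun Γ _ c c' hc hc' hag => ?_, fun T hT hE a ha => ?_⟩
  · let g : ℕ → Γ := fun a => sxo_sym c a v
    let c' : ℕ → ℕ → Γ := fun a b => if a ∈ σ ∧ b ∈ σ then g a * (g b)⁻¹ else c a b
    have hag : Agree (· ≤ ·) K.faces c c' := by
      intro a b hab hle
      by_cases h1 : a ∈ σ ∧ b ∈ σ
      · have h2 : insert v ({a, b} : Finset ℕ) ∈ K.faces :=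
          sxo_ins hv hτ hne hL (Finset.insert_subset h1.1 (Finset.singleton_subset_iff.2 h1.2))
            (fun _ => hab)
        have h3 := sxo_sym_mul hc h2 (a := a) (b := b) (d := v) (by simp) (by simp) (by simp)
        simp only [c', g, h1, and_self, if_true]
        rw [← h3, sxo_sym_le c hle, mul_inv_cancel_right]
      · simp only [c', h1, if_false]
    refine ⟨c', fun a b d habd h1 h2 => ?_, hag⟩
    rcases sxo_or hL habd with h3 | h3
    · have ha : a ∈ σ := h3 (by simp)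
      have hb : b ∈ σ := h3 (by simp)
      have hd : d ∈ σ := h3 (by simp)
      simp only [c', ha, hb, hd, and_self, if_true]
      group
    · exact hc.of_agree K.cx hag a b d h3 h1 h2
  · let g : ℕ → Γ := fun a =>
      if ({a} : Finset ℕ) ∈ K.faces then 1 else sxo_sym c' a v * (sxo_sym c a v)⁻¹
    have hg1 : ∀ a, ({a} : Finset ℕ) ∈ K.faces → g a = 1 := fun a ha => if_pos ha
    have hg2 : ∀ a ∈ σ, g a = sxo_sym c' a v * (sxo_sym c a v)⁻¹ := by
      intro a ha
      by_cases h1 : ({a} : Finset ℕ) ∈ K.faces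
      · have h2 : insert v ({a} : Finset ℕ) ∈ K.faces :=
          sxo_ins hv hτ hne hL (Finset.singleton_subset_iff.2 ha) (fun _ => h1)
        rw [hg1 a h1, sxo_sym_agree hag (a := a) (b := v) (by rwa [Finset.pair_comm]),
          mul_inv_cancel]
      · exact if_neg h1
    refine ⟨g, hg1, fun a b hab hle => ?_⟩
    rcases sxo_or hL hab with h3 | h3
    · have ha : a ∈ σ := h3 (by simp)
      have hb : b ∈ σ := h3 (by simp)
      have h4 := sxo_sym_mul hc hσL ha hb hv
      have h5 := sxo_sym_mul hc' hσL ha hb hv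
      rw [sxo_sym_le _ hle] at h4 h5
      show g a * c a b * (g b)⁻¹ = c' a b
      rw [hg2 a ha, hg2 b hb, ← h4, ← h5]
      group
    · show g a * c a b * (g b)⁻¹ = c' a b
      rw [hg1 a (K.down _ h3 _ (by simp) (by simp)), hg1 b (K.down _ h3 _ (by simp) (by simp)),
        hag a b h3 hle]
      group
  · rcases sxo_or hL ha with h3 | h3
    · have ha' : a ∈ σ := h3 (by simp)
      have hvK : ({v} : Finset ℕ) ∈ K.faces :=
        sxo_ins hv hτ hne hL (Finset.empty_subset σ) (fun h => absurd h (by simp))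
      have hav : ({a, v} : Finset ℕ) ∈ L.faces :=
        L.down σ hσL _ (Finset.insert_subset ha' (Finset.singleton_subset_iff.2 hv)) (by simp)
      rcases le_total a v with h4 | h4
      · exact (hE a v hav h4).2 (hT v hvK)
      · exact (hE v a (by rwa [Finset.pair_comm]) h4).1 (hT v hvK)
    · exact hT a h3

/-- `gd_pair` after a gauge. -/
theorem Expands.ge {K L : SC} (h : Expands K L) : GE (· ≤ ·) 2 K.faces L.faces := by
  have h1 := h.eq1
  obtain ⟨σ, v, hv, hσ, hτ, hne, hL⟩ := h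
  refine ⟨K.cx, L.cx, ?_, h1, fun Γ _ c _ => ?_⟩
  · rw [hL]
    exact (Finset.subset_insert _ _).trans (Finset.subset_insert _ _)
  · have hx : σ ∈ L.faces \ K.faces := by
      rw [hL]
      simp [hσ]
    have hy : σ.erase v ∈ L.faces \ K.faces := by
      rw [hL]
      simp [hτ]
    have hall : ∀ z : ↥(L.faces \ K.faces), z = ⟨σ, hx⟩ ∨ z = ⟨σ.erase v, hy⟩ := by
      rintro ⟨z, hz⟩
      have hz' := Finset.mem_sdiff.1 hz
      rw [hL, Finset.mem_insert, Finset.mem_insert] at hz'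
      rcases hz'.1 with h2 | h2 | h2
      · exact Or.inl (Subtype.ext h2)
      · exact Or.inr (Subtype.ext h2)
      · exact absurd h2 hz'.2
    have hcard := Finset.card_erase_add_one hv
    have hz : ∀ x y : ↥(L.faces \ K.faces), ¬ (x = ⟨σ, hx⟩ ∧ y = ⟨σ.erase v, hy⟩) →
        Dz (· ≤ ·) x.1 y.1 = 0 := by
      intro x y hxy
      by_contra h0
      obtain ⟨u, hu, e⟩ := Dz_ne h0
      have h2 := Finset.card_erase_add_one hu
      rw [← e] at h2
      rcases hall x with rfl | rfl <;> rcases hall y with rfl | rfl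
      · simp only at h2
        omega
      · exact hxy ⟨rfl, rfl⟩
      · simp only at h2
        omega
      · simp only at h2
        omega
    have hsg := sg_mul_self (r := (· ≤ ·)) (σ := σ) v
    have hD : Dz (· ≤ ·) σ (σ.erase v) = sg (· ≤ ·) σ v := Dz_erase hv
    have hp : ps σ ≠ ps (σ.erase v) := by
      refine ps_ne (r := (· ≤ ·)) ?_
      rw [hD]
      intro h0
      rw [h0] at hsg
      simp at hsg
    have h0 : Gd 2 (PhiG Γ F25) (fun x : ↥(L.faces \ K.faces) => ps x.1)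
        (Matrix.of fun x y => ((Dz (· ≤ ·) x.1 y.1 : ℤ) : ZG Γ)) :=
      gd_pair (x := ⟨σ, hx⟩) (y := ⟨σ.erase v, hy⟩) hp hall hsg (by simp [hD])
        (fun x y hxy => by simp [hz x y hxy])
    have hne' : (⟨σ.erase v, hy⟩ : ↥(L.faces \ K.faces)) ≠ ⟨σ, hx⟩ := by
      intro e
      have := congrArg (fun z : ↥(L.faces \ K.faces) => z.1.card) e
      simp only at this
      omega
    refine (h0.gauge (fun x => if x = ⟨σ, hx⟩ then
      c (bt (· ≤ ·) σ) (bt (· ≤ ·) (σ.erase v)) else 1)).of_equiv (Equiv.refl _) (fun _ => rfl) ?_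
    intro x y
    by_cases hxy : x = ⟨σ, hx⟩ ∧ y = ⟨σ.erase v, hy⟩
    · obtain ⟨rfl, rfl⟩ := hxy
      have e1 : ∀ k : ℤ, ((k : ℤ) : ZG Γ) = MonoidAlgebra.single 1 k := fun k => by
        rw [MonoidAlgebra.intCast_def]; rfl
      simp only [rs, DG, Matrix.of_apply, Equiv.refl_apply, if_true, hne', if_false, e1,
        MonoidAlgebra.single_mul_single, inv_one, mul_one, one_mul]
    · simp [rs, DG, hz x y hxy]

theorem IsSimple.equiv {K L : SC} {f : C(K.space, L.space)} (h : IsSimple K L f) :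
    SimpleEquiv K L := by
  induction h with
  | expand h _ _ => exact Relation.EqvGen.rel _ _ (Or.inl h)
  | collapse h _ _ _ _ => exact Relation.EqvGen.symm _ _ (Relation.EqvGen.rel _ _ (Or.inl h))
  | rename e h _ _ => exact Relation.EqvGen.rel _ _ (Or.inr ⟨e, h⟩)
  | comp _ _ h1 h2 => exact Relation.EqvGen.trans _ _ _ h1 h2
  | homotopic _ _ h => exact h

end Pool.Agent.Lib.MP_5ceaf9_gt
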