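import Pool.Agent.Lib.MP_5ceaf9_gt.Defs

/-! Renamings are formal deformations. -/

noncomputable section

namespace Pool.Agent.Lib.MP_5ceaf9_gt

open Classical Function

theorem sxp_ext {K L : SC} (h : K.faces = L.faces) : K = L := by
  cases K
  cases L
  congr

/-- The image of a complex under a map of the vertices. -/
def sxp_map (K : SC) (f : ℕ → ℕ) : SC where
  faces := K.faces.image fun σ => σ.image f
  nonempty σ h := by
    obtain ⟨τ, hτ, rfl⟩ := Finset.mem_image.1 h
    exact (K.nonempty τ hτ).image f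
  down σ h ρ hρ hn := by
    obtain ⟨τ, hτ, rfl⟩ := Finset.mem_image.1 h
    obtain ⟨ρ', h1, rfl⟩ := Finset.subset_image_iff.1 hρ
    exact Finset.mem_image_of_mem _ (K.down τ hτ ρ' h1 (Finset.image_nonempty.1 hn))

/-- The data of a cone with a new vertex `w` over a part of the star of `v`. -/
structure sxp_Ok (K : SC) (v w : ℕ) (T : Finset (Finset ℕ)) : Prop where
  ne : v ≠ w
  fresh : ∀ σ ∈ K.faces, w ∉ σ
  nv : ∀ τ ∈ T, v ∉ τ
  mem : ∀ τ ∈ T, insert v τ ∈ K.faces
  down : ∀ τ ∈ T, ∀ ρ ⊆ τ, ρ ∈ T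

/-- The faces of the cone. -/
def sxp_Is (K J : SC) (v w : ℕ) (T : Finset (Finset ℕ)) : Prop :=
  ∀ σ, σ ∈ J.faces ↔ σ ∈ K.faces ∨ ∃ τ ∈ T, σ = insert w τ ∨ σ = insert v (insert w τ)

theorem sxp_ex {K : SC} {v w : ℕ} {T : Finset (Finset ℕ)} (h : sxp_Ok K v w T) :
    ∃ J, sxp_Is K J v w T := by
  have key : ∀ σ, σ ∈ K.faces ∪ (T.image (insert w) ∪ T.image fun τ => insert v (insert w τ)) ↔
      σ ∈ K.faces ∨ ∃ τ ∈ T, σ = insert w τ ∨ σ = insert v (insert w τ) := by
    intro σ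
    simp only [Finset.mem_union, Finset.mem_image, and_or_left, exists_or, eq_comm (a := σ)]
  refine ⟨⟨_, fun σ hσ => ?_, fun σ hσ ρ hρ hn => (key ρ).2 ?_⟩, key⟩
  · rcases (key σ).1 hσ with h1 | ⟨τ, -, rfl | rfl⟩
    · exact K.nonempty σ h1
    · exact Finset.insert_nonempty _ _
    · exact Finset.insert_nonempty _ _
  · rcases (key σ).1 hσ with h1 | ⟨τ, hτ, h1⟩
    · exact Or.inl (K.down σ h1 ρ hρ hn)
    have h2 : ∀ x ∈ ρ, x = v ∨ x = w ∨ x ∈ τ := fun x hx => by
      have := hρ hx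
      rcases h1 with rfl | rfl
      · exact Or.inr (Finset.mem_insert.1 this)
      · simpa only [Finset.mem_insert] using this
    by_cases hw : w ∈ ρ
    · refine Or.inr ⟨(ρ.erase v).erase w, h.down τ hτ _ fun x hx => ?_, ?_⟩
      · simp only [Finset.mem_erase] at hx
        exact ((h2 x hx.2.2).resolve_left hx.2.1).resolve_left hx.1
      · rw [Finset.insert_erase (Finset.mem_erase.2 ⟨h.ne.symm, hw⟩)]
        by_cases hv : v ∈ ρ
        · exact Or.inr (Finset.insert_erase hv).symm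
        · exact Or.inl (Finset.erase_eq_of_notMem hv).symm
    · refine Or.inl (K.down _ (h.mem τ hτ) ρ (fun x hx => Finset.mem_insert.2 ?_) hn)
      exact (h2 x hx).imp_right fun h3 => h3.resolve_left fun e => hw (e ▸ hx)

theorem sxp_cone {K : SC} {v w : ℕ} (T : Finset (Finset ℕ)) (h : sxp_Ok K v w T) {J : SC}
    (hJ : sxp_Is K J v w T) : Relation.EqvGen Expands K J := by
  induction T using Finset.induction_on_max_value (ι := Finset ℕ) Finset.card generalizing J with
  | empty =>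
    rw [sxp_ext (K := J) (L := K) (Finset.ext fun σ => by simpa using hJ σ)]
    exact Relation.EqvGen.refl _
  | insert τ T hτ hm ih =>
    have h' : sxp_Ok K v w T := ⟨h.ne, h.fresh, fun ρ hρ => h.nv ρ (Finset.mem_insert_of_mem hρ),
      fun ρ hρ => h.mem ρ (Finset.mem_insert_of_mem hρ), fun ρ hρ ρ' h1 =>
        (Finset.mem_insert.1 (h.down ρ (Finset.mem_insert_of_mem hρ) ρ' h1)).resolve_left fun e =>
          hτ (Finset.eq_of_subset_of_card_le (e ▸ h1) (hm ρ hρ) ▸ hρ)⟩
    obtain ⟨J', hJ'⟩ := sxp_ex h'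
    have nw : ∀ ρ ∈ insert τ T, w ∉ ρ := fun ρ hρ e =>
      h.fresh _ (h.mem ρ hρ) (Finset.mem_insert_of_mem e)
    have nv : ∀ ρ ∈ insert τ T, v ∉ insert w ρ := fun ρ hρ e =>
      (Finset.mem_insert.1 e).elim h.ne (h.nv ρ hρ)
    have m0 := Finset.mem_insert_self τ T
    have inj : ∀ ρ ∈ T, insert w τ ≠ insert w ρ := fun ρ hρ e => hτ (by
      rw [← Finset.erase_insert (nw τ m0), e, Finset.erase_insert (nw ρ (Finset.mem_insert_of_mem hρ))]
      exact hρ)
    refine (ih h' hJ').trans _ _ _ (Relation.EqvGen.rel _ _ ⟨insert v (insert w τ), v,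
      Finset.mem_insert_self _ _, fun h1 => ?_, fun h1 => ?_, ?_, Finset.ext fun σ => ?_⟩)
    · rcases (hJ' _).1 h1 with h1 | ⟨ρ, hρ, e | e⟩
      · exact h.fresh _ h1 (by simp)
      · exact nv ρ (Finset.mem_insert_of_mem hρ) (e ▸ Finset.mem_insert_self _ _)
      · refine inj ρ hρ ?_
        rw [← Finset.erase_insert (nv τ m0), e, Finset.erase_insert (nv ρ (Finset.mem_insert_of_mem hρ))]
    · rw [Finset.erase_insert (nv τ m0)] at h1
      rcases (hJ' _).1 h1 with h1 | ⟨ρ, hρ, e | e⟩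
      · exact h.fresh _ h1 (by simp)
      · exact inj ρ hρ e
      · exact nv τ m0 (e ▸ Finset.mem_insert_self _ _)
    · rw [Finset.erase_insert (nv τ m0)]
      exact Finset.insert_nonempty _ _
    · rw [Finset.erase_insert (nv τ m0), Finset.mem_insert, Finset.mem_insert, hJ, hJ']
      simp only [Finset.mem_insert, exists_eq_or_imp]
      rw [or_left_comm, or_comm (a := σ = insert w τ), or_assoc]

/-- Rename one vertex `v` to a fresh vertex `w`. The complex obtained from `K` by adding all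
`σ ∪ {w}` with `σ ∪ {v}` in `K` expands both `K` and the renamed complex: add the pairs
`(σ ∪ {w}, σ ∪ {v, w})`, `v ∉ σ`, in the order of increasing cardinality. -/
theorem eqv_rename_one (K L : SC) {v w : ℕ} (hw : ∀ σ ∈ K.faces, w ∉ σ)
    (h : L.faces = K.faces.image (fun σ => σ.image (fun x => if x = v then w else x))) :
    Relation.EqvGen Expands K L := by
  by_cases hvw : v = w
  · subst hvw
    have e : (fun x => if x = v then v else x) = id := funext fun x => by
      split_ifs with h1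
      · exact h1.symm
      · rfl
    rw [sxp_ext (K := L) (L := K) (by simpa [e] using h)]
    exact Relation.EqvGen.refl _
  have f1 : ∀ σ : Finset ℕ, v ∉ σ → σ.image (fun x => if x = v then w else x) = σ := fun σ hσ =>
    (Finset.image_congr (g := id) fun x hx => if_neg fun e : x = v => hσ (e ▸ hx)).trans
      Finset.image_id
  obtain ⟨T, hT⟩ : ∃ T : Finset (Finset ℕ), ∀ τ, τ ∈ T ↔ v ∉ τ ∧ insert v τ ∈ K.faces := by
    refine ⟨(K.faces.filter (v ∈ ·)).image (·.erase v), fun τ => ?_⟩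
    simp only [Finset.mem_image, Finset.mem_filter]
    constructor
    · rintro ⟨σ, ⟨h1, h2⟩, rfl⟩
      exact ⟨Finset.notMem_erase _ _, by rwa [Finset.insert_erase h2]⟩
    · exact fun h1 => ⟨_, ⟨h1.2, Finset.mem_insert_self _ _⟩, Finset.erase_insert h1.1⟩
  have hK : ∀ σ, σ ∈ K.faces ↔ (σ ∈ K.faces ∧ v ∉ σ) ∨ ∃ τ ∈ T, σ = insert v τ := by
    intro σ
    constructor
    · intro h1
      by_cases h2 : v ∈ σ
      · exact Or.inr ⟨σ.erase v, (hT _).2 ⟨Finset.notMem_erase _ _, by rwa [Finset.insert_erase h2]⟩,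
          (Finset.insert_erase h2).symm⟩
      · exact Or.inl ⟨h1, h2⟩
    · rintro (h1 | ⟨τ, h1, rfl⟩)
      · exact h1.1
      · exact ((hT τ).1 h1).2
  have hL : ∀ σ, σ ∈ L.faces ↔ (σ ∈ K.faces ∧ v ∉ σ) ∨ ∃ τ ∈ T, σ = insert w τ := by
    intro σ
    rw [h, Finset.mem_image]
    constructor
    · rintro ⟨ρ, h1, rfl⟩
      rcases (hK ρ).1 h1 with h2 | ⟨τ, h2, rfl⟩
      · exact Or.inl (by rwa [f1 ρ h2.2])
      · exact Or.inr ⟨τ, h2, by rw [Finset.image_insert, if_pos rfl, f1 τ ((hT τ).1 h2).1]⟩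
    · rintro (h1 | ⟨τ, h1, rfl⟩)
      · exact ⟨σ, h1.1, f1 σ h1.2⟩
      · exact ⟨_, ((hT τ).1 h1).2, by rw [Finset.image_insert, if_pos rfl, f1 τ ((hT τ).1 h1).1]⟩
  have dn : ∀ τ ∈ T, ∀ ρ ⊆ τ, ρ ∈ T := fun τ h1 ρ h2 => (hT ρ).2 ⟨fun e => ((hT τ).1 h1).1 (h2 e),
    K.down _ ((hT τ).1 h1).2 _ (Finset.insert_subset_insert v h2) (Finset.insert_nonempty _ _)⟩
  have o1 : sxp_Ok K v w T := ⟨hvw, hw, fun τ h1 => ((hT τ).1 h1).1, fun τ h1 => ((hT τ).1 h1).2, dn⟩
  have o2 : sxp_Ok L w v T := by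
    refine ⟨Ne.symm hvw, fun σ h1 => ?_, fun τ h1 e => hw _ (o1.mem τ h1) (Finset.mem_insert_of_mem e),
      fun τ h1 => (hL _).2 (Or.inr ⟨τ, h1, rfl⟩), dn⟩
    rcases (hL σ).1 h1 with h2 | ⟨τ, h2, rfl⟩
    · exact h2.2
    · exact fun e => (Finset.mem_insert.1 e).elim hvw (o1.nv τ h2)
  obtain ⟨J, hJ⟩ := sxp_ex o1
  refine (sxp_cone T o1 hJ).trans _ _ _ ((sxp_cone T o2 fun σ => ?_).symm _ _)
  rw [hJ, hL]
  conv_lhs => rw [hK]
  simp only [and_or_left, exists_or, Finset.insert_comm w v]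
  exact or_or_or_comm

/-- Rename all vertices to fresh ones, one at a time. -/
theorem eqv_rename_fresh (K L : SC) {g : ℕ → ℕ} (hg : Injective g)
    (hw : ∀ σ ∈ K.faces, ∀ ρ ∈ K.faces, ∀ x ∈ σ, g x ∉ ρ)
    (h : L.faces = K.faces.image (fun σ => σ.image g)) : Relation.EqvGen Expands K L := by
  have key : ∀ S : Finset ℕ, (∀ a ∈ S, ∃ ρ ∈ K.faces, a ∈ ρ) →
      Relation.EqvGen Expands K (sxp_map K fun x => if x ∈ S then g x else x) := by
    intro S
    induction S using Finset.induction_on with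
    | empty =>
      intro _
      rw [sxp_ext (K := sxp_map K _) (L := K) (by simp [sxp_map])]
      exact Relation.EqvGen.refl _
    | insert a S ha ih =>
      intro hS
      obtain ⟨ρ, hρ, haρ⟩ := hS a (Finset.mem_insert_self _ _)
      refine (ih fun b hb => hS b (Finset.mem_insert_of_mem hb)).trans _ _ _
        (eqv_rename_one _ _ (v := a) (w := g a) (fun σ hσ e => ?_) ?_)
      · obtain ⟨τ, hτ, rfl⟩ := Finset.mem_image.1 hσ
        obtain ⟨x, hx, e⟩ := Finset.mem_image.1 e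
        split_ifs at e with h1
        · exact ha (hg e ▸ h1)
        · exact hw ρ hρ τ hτ a haρ (e ▸ hx)
      · simp only [sxp_map, Finset.image_image]
        refine Finset.image_congr fun σ hσ => ?_
        simp only [comp, Finset.image_image]
        refine Finset.image_congr fun x hx => ?_
        by_cases h1 : x = a
        · simp [h1, ha]
        · by_cases h2 : x ∈ S
          · have h3 : g x ≠ a := fun e => hw σ hσ ρ hρ x hx (e ▸ haρ)
            simp [h2, h3]
          · simp [h1, h2]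
  have h1 := key (K.faces.biUnion id) fun a ha => Finset.mem_biUnion.1 ha
  rwa [sxp_ext (K := sxp_map K _) (L := L) (h ▸ Finset.image_congr fun σ hσ =>
    Finset.image_congr fun x hx => if_pos (Finset.mem_biUnion.2 ⟨σ, hσ, hx⟩))] at h1

/-- Go through the labels `N + x` with `N` large. -/
theorem eqv_rename {e : ℕ ≃ ℕ} {K L : SC} (h : Renames e K L) : Relation.EqvGen Expands K L := by
  obtain ⟨N, hN⟩ := ((K.faces ∪ L.faces).biUnion id).exists_nat_subset_range
  have h1 : ∀ ρ ∈ K.faces ∪ L.faces, ∀ y, N + y ∉ ρ := fun ρ hρ y e => by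
    have := Finset.mem_range.1 (hN (Finset.mem_biUnion.2 ⟨ρ, hρ, e⟩))
    omega
  refine (eqv_rename_fresh K (sxp_map K (N + ·)) (add_right_injective N)
    (fun _ _ ρ hρ x _ => h1 ρ (Finset.mem_union_left _ hρ) x) rfl).trans _ _ _
    ((eqv_rename_fresh L _ (g := fun x => N + e.symm x) ((add_right_injective N).comp e.symm.injective)
      (fun _ _ ρ hρ x _ => h1 ρ (Finset.mem_union_right _ hρ) _) ?_).symm _ _)
  rw [h, Finset.image_image]
  refine Finset.image_congr fun σ _ => ?_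
  simp only [comp, Finset.image_image]
  exact Finset.image_congr fun x _ => by simp

theorem SimpleEquiv.invariant {P : SC → Prop} (hP : ∀ K L, Expands K L → (P K ↔ P L)) {K L : SC}
    (h : SimpleEquiv K L) : P K ↔ P L := by
  have key : ∀ K L, Relation.EqvGen Expands K L → (P K ↔ P L) := by
    intro K L h
    induction h with
    | rel K L h => exact hP K L h
    | refl => rfl
    | symm _ _ _ ih => exact ih.symm
    | trans _ _ _ _ _ ih ih' => exact ih.trans ih'
  induction h with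
  | rel K L h => exact h.elim (hP K L) fun ⟨_, h⟩ => key K L (eqv_rename h)
  | refl => rfl
  | symm _ _ _ ih => exact ih.symm
  | trans _ _ _ _ _ ih ih' => exact ih.trans ih'

end Pool.Agent.Lib.MP_5ceaf9_gt
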