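import Pool.Agent.Lib.MP_5ceaf9_gt.IfAB
import Pool.Agent.Lib.MP_5ceaf9_gt.IfC
import Pool.Agent.Lib.MP_5ceaf9_gt.IfE
import Pool.Agent.Lib.MP_5ceaf9_gt.IfG
import Pool.Agent.Lib.MP_5ceaf9_gt.SxO
import Pool.Agent.Lib.MP_5ceaf9_gt.SxP

/-! Assembly. -/

noncomputable section

namespace Pool.Agent.Lib.MP_5ceaf9_gt

open Classical Function

/-- A finite poset has an injective monotone labelling by natural numbers. -/
theorem exists_label {α : Type} [DecidableEq α] {r : α → α → Prop} {P : Finset α}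
    (hp : POn r P) : ∃ ℓ : α → ℕ, Set.InjOn ℓ P ∧ ∀ a ∈ P, ∀ b ∈ P, r a b → ℓ a ≤ ℓ b := by
  let i : α → ℕ := fun a => P.toList.idxOf a
  have hi : ∀ a ∈ P, i a < P.card := fun a ha => by
    rw [← Finset.length_toList]
    exact List.idxOf_lt_length_iff.2 (Finset.mem_toList.2 ha)
  have hinj : ∀ a ∈ P, ∀ b ∈ P, i a = i b → a = b := fun a ha b _ h =>
    (List.idxOf_inj (Finset.mem_toList.2 ha)).1 h
  refine ⟨fun a => i a + P.card * (P.filter (fun x => r x a)).card, ?_, ?_⟩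
  · intro a ha b hb h
    have h' := congrArg (fun n => n % P.card) h
    simp only [Nat.add_mul_mod_self_left] at h'
    rw [Nat.mod_eq_of_lt (hi a ha), Nat.mod_eq_of_lt (hi b hb)] at h'
    exact hinj a ha b hb h'
  · intro a ha b hb hab
    by_cases e : a = b
    · subst e; exact le_rfl
    · have hlt : (P.filter (fun x => r x a)).card < (P.filter (fun x => r x b)).card := by
        apply Finset.card_lt_card
        refine ⟨fun x hx => ?_, fun hs => e ?_⟩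
        · rw [Finset.mem_filter] at hx ⊢
          exact ⟨hx.1, hp.trans x hx.1 a ha b hb hx.2 hab⟩
        · have : b ∈ P.filter (fun x => r x a) := hs (Finset.mem_filter.2 ⟨hb, hp.refl b hb⟩)
          exact hp.anti a ha b hb hab (Finset.mem_filter.1 this).2
      have h1 := hi a ha
      have h2 : P.card * ((P.filter (fun x => r x a)).card + 1) ≤
          P.card * (P.filter (fun x => r x b)).card := Nat.mul_le_mul_left _ hlt
      rw [Nat.mul_succ] at h2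
      show i a + _ ≤ i b + _
      omega

/-- The triangulation of an end carries the invariant of its poset. -/
theorem exists_tri_end {B L : Finset (Lat 5)} (h : CHyp B L)
    (hp : POn (lq η5) (L.image (pq η5))) :
    ∃ K : SC, Nonempty (K.space ≃ₜ vq η5 B) ∧
      (PD (· ≤ ·) K.faces ↔ PD (lq η5) (OC (lq η5) (B.image (pq η5)))) := by
  have hB : POn (lq η5) (B.image (pq η5)) := hp.mono (Finset.image_subset_image h.sub)
  obtain ⟨ℓ, hinj, hmono⟩ := exists_label hB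
  have hc := cx_OC hB
  have he : Emb (lq η5) (· ≤ ·) (OC (lq η5) (B.image (pq η5))) ℓ := by
    refine ⟨fun a b ha hb e => hinj ((single_mem_OC hB).1 ha) ((single_mem_OC hB).1 hb) e, ?_⟩
    intro σ hσ a ha b hb
    obtain ⟨hs, -, ht⟩ := mem_OC.1 hσ
    refine ⟨fun hle => ?_, hmono a (hs ha) b (hs hb)⟩
    rcases ht a ha b hb with h1 | h1
    · exact h1
    · have e : a = b := hinj (hs ha) (hs hb) (le_antisymm hle (hmono b (hs hb) a (hs ha) h1))
      rw [e]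
      exact hB.refl b (hs hb)
  have hk := he.cx hc
  refine ⟨⟨im ℓ (OC (lq η5) (B.image (pq η5))), hk.ne, hk.down⟩, ?_, he.pd_iff hc⟩
  refine thmT η5 h.uK h.iK (fun a ha => h.fL a (h.sub ha)) ℓ hinj _ fun ρ => ?_
  show ρ ∈ im ℓ _ ↔ _
  unfold im
  rw [Finset.mem_image]
  constructor
  · rintro ⟨σ, hσ, rfl⟩
    obtain ⟨h1, h2, h3⟩ := mem_OC.1 hσ
    exact ⟨σ, h1, h2, h3, rfl⟩
  · rintro ⟨σ, h1, h2, h3, rfl⟩
    exact ⟨σ, mem_OC.2 ⟨h1, h2, h3⟩, rfl⟩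

theorem CHyp.isHE {B L : Finset (Lat 5)} (h : CHyp B L) :
    IsHE (ContinuousMap.inclusion (vq_mono η5 h.sub)) :=
  thmC η5 h.sub h.uK h.uL h.iK h.iL h.fL h.cK h.cL h.e1 h.e2 h.h2

theorem main : ∃ A B : Closed4, Nonempty (HCob A B) ∧ (∀ h : HCob A B, ¬ h.IsS) ∧
    ∃ K0 K1 : SC, Nonempty (K0.space ≃ₜ A.M) ∧ Nonempty (K1.space ≃ₜ B.M) ∧
      ¬ SimpleEquiv K0 K1 := by
  obtain ⟨α, β, _, _, _, _, r, r', Y, X, kY, kX, f, ω, hG⟩ := thmG
  obtain ⟨S0, S1, L, B0, B1, d0, d1, i0, i1, f1, deep, hL, hB0, hB1, c0, c1, hp, p0, p1⟩ := thmE hG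
  obtain ⟨A, B, hW, ⟨φ0⟩, ⟨φ1⟩⟩ :=
    thmAB d0 d1 i0 i1 f1 deep hL hB0 hB1 c0.sub c1.sub c0.isHE c1.isHE
  obtain ⟨K0, ⟨ψ0⟩, q0⟩ := exists_tri_end c0 hp
  obtain ⟨K1, ⟨ψ1⟩, q1⟩ := exists_tri_end c1 hp
  have hne : ¬ SimpleEquiv K0 K1 := fun h =>
    p1 (q1.1 ((SimpleEquiv.invariant (P := fun K => PD (· ≤ ·) K.faces)
      (fun _ _ e => e.ge.pd_iff) h).1 (q0.2 p0)))
  refine ⟨A, B, hW, ?_, K0, K1, ⟨ψ0.trans φ0⟩, ⟨ψ1.trans φ1⟩, hne⟩
  rintro h ⟨T, t, h0, h1⟩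
  exact hne (Relation.EqvGen.trans _ _ _ (h0 K0 (ψ0.trans φ0)).equiv
    (Relation.EqvGen.symm _ _ (h1 K1 (ψ1.trans φ1)).equiv))

end Pool.Agent.Lib.MP_5ceaf9_gt
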