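import Mathlib

/-! The holonomy of a cocycle on an open cover. -/

noncomputable section

namespace Pool.Agent.Lib.MP_5ceaf9_gt

/-- The fibre bundle with discrete fibre `Γ` glued by the cocycle `c`. -/
def tzb_core {X ι Γ : Type} [TopologicalSpace X] [Group Γ] [TopologicalSpace Γ]
    [DiscreteTopology Γ] (U : ι → Set X)
    (hU : ∀ a, IsOpen (U a)) (i : X → ι) (hi : ∀ x, x ∈ U (i x)) (c : ι → ι → Γ)
    (hc : ∀ a b d x, x ∈ U a → x ∈ U b → x ∈ U d → c a b * c b d = c a d) :
    FiberBundleCore ι X Γ where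
  baseSet := U
  isOpen_baseSet := hU
  indexAt := i
  mem_baseSet_at := hi
  coordChange := fun a b _ v => c b a * v
  coordChange_self := fun a x hx v => by
    have h := hc a a a x hx hx hx
    have h1 : c a a = 1 := mul_left_cancel (a := c a a) (by rw [h, mul_one])
    rw [h1, one_mul]
  continuousOn_coordChange := fun a b =>
    ((continuous_of_discreteTopology (f := fun v : Γ => c b a * v)).comp
      continuous_snd).continuousOn
  coordChange_comp := fun a b d x hx v => by
    rw [← mul_assoc, hc d b a x hx.2 hx.1.2 hx.1.1]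

theorem tzb_main {X ι Γ : Type} [TopologicalSpace X] [Group Γ] [TopologicalSpace Γ]
    [DiscreteTopology Γ] (U : ι → Set X)
    (hU : ∀ a, IsOpen (U a)) (i : X → ι) (hi : ∀ x, x ∈ U (i x)) (c : ι → ι → Γ)
    (hc : ∀ a b d x, x ∈ U a → x ∈ U b → x ∈ U d → c a b * c b d = c a d) :
    ∃ T : ∀ x y : X, Path.Homotopic.Quotient x y → Γ,
      (∀ x y z (α : Path.Homotopic.Quotient x y) (β : Path.Homotopic.Quotient y z),
        T x z (α.trans β) = T y z β * T x y α) ∧
      ∀ x y (α : Path x y) (S : Set ι) (k : ι → Γ), (∀ t, ∃ a ∈ S, α t ∈ U a) →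
        (∀ t, ∀ a ∈ S, ∀ b ∈ S, α t ∈ U a → α t ∈ U b → c a b = k a * (k b)⁻¹) →
        ∀ a ∈ S, ∀ b ∈ S, x ∈ U a → y ∈ U b →
          T x y (Path.Homotopic.Quotient.mk α) = c (i y) b * k b * (k a)⁻¹ * c a (i x) := by
  let Z := tzb_core U hU i hi c hc
  have cov : IsCoveringMap Z.proj := FiberBundle.isCoveringMap (F := Γ) (E := Z.Fiber)
  let sn : Z.TotalSpace → Γ := fun p => p.2
  let mk : X → Γ → Z.TotalSpace := fun x v => ⟨x, v⟩
  -- the coordinate in the chart `a` is continuous
  have hco : ∀ a (p : Z.TotalSpace), p.1 ∈ U a →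
      ContinuousAt (fun q : Z.TotalSpace => c a (i q.1) * sn q) p := by
    intro a p hp
    have h1 : ContinuousAt (Z.localTriv a) p :=
      (Z.localTriv a).continuousAt (show p ∈ (Z.localTriv a).source from hp)
    exact continuous_snd.continuousAt.comp h1
  -- right multiplication
  let R : Γ → Z.TotalSpace → Z.TotalSpace := fun g p => mk p.1 (sn p * g)
  have hR : ∀ g, Continuous (R g) := by
    intro g
    refine continuous_iff_continuousAt.2 fun p => ?_
    refine (FiberBundle.continuousAt_totalSpace Γ (R g)).2 ⟨Z.continuous_proj.continuousAt, ?_⟩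
    have h1 := (continuous_of_discreteTopology (f := fun v : Γ => v * g)).continuousAt.comp
      (hco (i p.1) p (hi p.1))
    refine h1.congr (Filter.Eventually.of_forall fun q => ?_)
    exact mul_assoc (c (i p.1) (i q.1)) (sn q) g
  have hmon : ∀ (x y : X) (β : Path.Homotopic.Quotient x y) (g : Γ),
      sn (cov.monodromy β ⟨mk x g, rfl⟩).1 = sn (cov.monodromy β ⟨mk x 1, rfl⟩).1 * g := by
    intro x y β g
    obtain ⟨β⟩ := β
    have h1 : (R g) ∘ (cov.liftPath β (mk x 1) β.source) = cov.liftPath β (mk x g) β.source := by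
      refine (cov.eq_liftPath_iff _).2 ⟨(hR g).comp (ContinuousMap.continuous _), ?_, ?_⟩
      · exact cov.liftPath_lifts β (mk x 1) β.source
      · have h0 := cov.liftPath_zero β (mk x 1) β.source
        show R g (cov.liftPath β (mk x 1) β.source 0) = mk x g
        rw [h0]
        show mk x (1 * g) = mk x g
        rw [one_mul]
    have h2 := congrArg sn (congrFun h1 1)
    exact h2.symm
  refine ⟨fun x y α => sn (cov.monodromy α ⟨mk x 1, rfl⟩).1, ?_, ?_⟩
  · intro x y z α β
    have hq : ∀ q : Z.proj ⁻¹' {y}, q = ⟨mk y (sn q.1), rfl⟩ := by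
      rintro ⟨p, hp⟩
      have hp' : p.1 = y := hp
      subst hp'
      rfl
    show sn (cov.monodromy (α.trans β) ⟨mk x 1, rfl⟩).1 =
      sn (cov.monodromy β ⟨mk y 1, rfl⟩).1 * sn (cov.monodromy α ⟨mk x 1, rfl⟩).1
    rw [cov.monodromy_trans_apply, ← hmon]
    exact congrArg (fun q => sn (cov.monodromy β q).1) (hq _)
  · intro x y α S k hS hk a ha b hb hxa hyb
    let L : C(unitInterval, Z.TotalSpace) := cov.liftPath α (mk x 1) α.source
    have hL : ∀ t, (L t).1 = α t := fun t =>
      congrFun (cov.liftPath_lifts α (mk x 1) α.source) t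
    have hL0 : L 0 = mk x 1 := cov.liftPath_zero α (mk x 1) α.source
    choose s hsS hsU using hS
    let w : ι → unitInterval → Γ := fun d t => (k d)⁻¹ * (c d (i (L t).1) * sn (L t))
    have hw : ∀ t, ∀ d ∈ S, ∀ e ∈ S, α t ∈ U d → α t ∈ U e → w d t = w e t := by
      intro t d hd e he h1 h2
      have h3 : c d (i (L t).1) = k d * (k e)⁻¹ * c e (i (L t).1) := by
        rw [← hk t d hd e he h1 h2, hL t]
        exact (hc d e (i (α t)) (α t) h1 h2 (hi _)).symm
      simp only [w, h3, mul_assoc, inv_mul_cancel_left]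
    have hcont : Continuous fun t => w (s t) t := by
      refine continuous_iff_continuousAt.2 fun t => ?_
      have h1 : ContinuousAt (fun u => c (s t) (i (L u).1) * sn (L u)) t :=
        ContinuousAt.comp (f := L) (hco (s t) (L t) (by rw [hL]; exact hsU t))
          L.continuous.continuousAt
      have h2 : ContinuousAt (w (s t)) t :=
        ContinuousAt.comp (f := fun u => c (s t) (i (L u).1) * sn (L u))
          (continuous_of_discreteTopology (f := fun v : Γ => (k (s t))⁻¹ * v)).continuousAt h1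
      refine h2.congr ?_
      have h3 : ∀ᶠ u in nhds t, α u ∈ U (s t) :=
        α.continuous.continuousAt.eventually ((hU _).mem_nhds (hsU t))
      filter_upwards [h3] with u hu
      exact hw u _ (hsS t) _ (hsS u) hu (hsU u)
    have h01 : w (s 0) 0 = w (s 1) 1 :=
      ((IsLocallyConstant.iff_continuous _).2 hcont).apply_eq_of_preconnectedSpace 0 1
    have ha0 : α 0 ∈ U a := by rw [α.source]; exact hxa
    have hb1 : α 1 ∈ U b := by rw [α.target]; exact hyb
    rw [hw 0 _ (hsS 0) a ha (hsU 0) ha0, hw 1 _ (hsS 1) b hb (hsU 1) hb1] at h01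
    have e0 : w a 0 = (k a)⁻¹ * c a (i x) := by
      simp only [w, hL0]
      show (k a)⁻¹ * (c a (i x) * 1) = _
      rw [mul_one]
    have e1 : w b 1 = (k b)⁻¹ * (c b (i y) * sn (L 1)) := by
      simp only [w, hL 1, α.target]
    have hyy : c (i y) b * c b (i y) = 1 := by
      have h := hc (i y) (i y) (i y) y (hi y) (hi y) (hi y)
      rw [hc (i y) b (i y) y (hi y) hyb (hi y)]
      exact mul_left_cancel (a := c (i y) (i y)) (by rw [h, mul_one])
    show sn (L 1) = _
    rw [e0, e1] at h01
    rw [mul_assoc, mul_assoc, h01, mul_inv_cancel_left, ← mul_assoc, hyy, one_mul]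

/-- Build a `FiberBundleCore ι X Γ` (discrete topology on `Γ`) with base sets `U`, index `i` and
coordinate change `v ↦ c b a * v` from `a` to `b`; its projection is a covering map
(`FiberBundle.isCoveringMap`). Let `T α` be the fibre coordinate of the monodromy of `α` applied
to the point `1` of the fibre. Right multiplication by an element of `Γ` is a continuous map over
`X`, so it commutes with the monodromy (uniqueness of lifts); this gives the product formula.
For the last clause, along the lift the value `(k a)⁻¹ * (localTriv a _).2` does not depend on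
`a ∈ S` and is locally constant. -/
theorem exists_holonomy {X ι Γ : Type} [TopologicalSpace X] [Group Γ] (U : ι → Set X)
    (hU : ∀ a, IsOpen (U a)) (i : X → ι) (hi : ∀ x, x ∈ U (i x)) (c : ι → ι → Γ)
    (hc : ∀ a b d x, x ∈ U a → x ∈ U b → x ∈ U d → c a b * c b d = c a d) :
    ∃ T : ∀ x y : X, Path.Homotopic.Quotient x y → Γ,
      (∀ x y z (α : Path.Homotopic.Quotient x y) (β : Path.Homotopic.Quotient y z),
        T x z (α.trans β) = T y z β * T x y α) ∧
      ∀ x y (α : Path x y) (S : Set ι) (k : ι → Γ), (∀ t, ∃ a ∈ S, α t ∈ U a) →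
        (∀ t, ∀ a ∈ S, ∀ b ∈ S, α t ∈ U a → α t ∈ U b → c a b = k a * (k b)⁻¹) →
        ∀ a ∈ S, ∀ b ∈ S, x ∈ U a → y ∈ U b →
          T x y (Path.Homotopic.Quotient.mk α) = c (i y) b * k b * (k a)⁻¹ * c a (i x) := by
  let _ : TopologicalSpace Γ := ⊥
  have _ : DiscreteTopology Γ := ⟨rfl⟩
  exact tzb_main U hU i hi c hc

end Pool.Agent.Lib.MP_5ceaf9_gt
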