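import Pool.Agent.Lib.MP_5ceaf9_gt.TZA
import Pool.Agent.Lib.MP_5ceaf9_gt.TZB
import Pool.Agent.Lib.MP_5ceaf9_gt.SxO

/-! Vanishing Whitehead torsion gives a good inclusion of level two. -/

noncomputable section

namespace Pool.Agent.Lib.MP_5ceaf9_gt

open Classical

/-- The symmetric extension of a cocycle. -/
def sy {Γ : Type} [Group Γ] (c : ℕ → ℕ → Γ) (a b : ℕ) : Γ := if a ≤ b then c a b else (c b a)⁻¹

theorem sy_mul {L : SC} {Γ : Type} [Group Γ] {c : ℕ → ℕ → Γ} (hc : Flat (· ≤ ·) L.faces c)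
    {a b d : ℕ} (h : {a, b, d} ∈ L.faces) : sy c a b * sy c b d = sy c a d := by
  exact sxo_sym_mul hc h (by simp) (by simp) (by simp)

/-- Vertices with positive coordinate span a face. -/
theorem SC.mem_of_pos (L : SC) (x : L.space) {σ : Finset ℕ} (hn : σ.Nonempty)
    (h : ∀ v ∈ σ, 0 < (x : ℕ → ℝ) v) : σ ∈ L.faces := by
  obtain ⟨-, τ, hτ, hz, -⟩ := x.2
  exact L.down τ hτ σ (fun v hv => by_contra fun h' => (h v hv).ne' (hz v h')) hn

theorem SC.exists_pos (L : SC) (x : L.space) : ∃ v, 0 < (x : ℕ → ℝ) v := by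
  obtain ⟨h0, τ, -, -, h1⟩ := x.2
  obtain ⟨v, -, hv⟩ := Finset.exists_ne_zero_of_sum_ne_zero (h1.trans_ne one_ne_zero)
  exact ⟨v, (h0 v).lt_of_ne' hv⟩

/-- `exists_holonomy` for the open stars `{x | 0 < x a}` and `sy c'`. Take `ψ α = T x0 x0 α` and
`g a = sy c' a (i (p a)) * T x0 (p a) (γ a)`; on an edge use `S = {a, b}`, `k a = sy c' a b`,
`k b = 1`. -/
theorem EdgeLoops.hol {L : SC} {x0 : L.space} {c : ℕ → ℕ → FundamentalGroup L.space x0}
    (h : EdgeLoops L x0 c) {Γ : Type} [Group Γ] {c' : ℕ → ℕ → Γ}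
    (hc : Flat (· ≤ ·) L.faces c') :
    ∃ (ψ : FundamentalGroup L.space x0 →* Γ) (g : ℕ → Γ),
      Agree (· ≤ ·) L.faces c' (gau g (fun a b => ψ (c a b))) := by
  obtain ⟨p, γ, hp, he⟩ := h
  choose i hi using L.exists_pos
  have hm : ∀ a b d (x : L.space), 0 < (x : ℕ → ℝ) a → 0 < (x : ℕ → ℝ) b → 0 < (x : ℕ → ℝ) d →
      sy c' a b * sy c' b d = sy c' a d := fun a b d x ha hb hd =>
    sy_mul hc (L.mem_of_pos x (Finset.insert_nonempty _ _) (by simpa using ⟨ha, hb, hd⟩))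
  obtain ⟨T, hT, hS⟩ := exists_holonomy (fun a => {x : L.space | 0 < (x : ℕ → ℝ) a})
    (fun a => isOpen_lt continuous_const ((continuous_apply a).comp continuous_subtype_val))
    i hi (sy c') hm
  let ψ : FundamentalGroup L.space x0 →* Γ :=
    MonoidHom.mk' (fun f => T x0 x0 f.toPath) fun f g => hT _ _ _ g.toPath f.toPath
  refine ⟨ψ, fun a => sy c' a (i (p a)) * T x0 (p a) (Path.Homotopic.Quotient.mk (γ a)),
    fun a b hab hle => ?_⟩
  obtain ⟨e, h0, h1⟩ := he a b hab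
  have pos : ∀ u ∈ ({a, b} : Finset ℕ), 0 < (p u : ℕ → ℝ) u := fun u hu => by
    rw [hp u (L.down _ hab _ (Finset.singleton_subset_iff.2 hu) (Finset.singleton_nonempty u))]
    exact one_pos
  have pa := pos a (by simp)
  have pb := pos b (by simp)
  have one : ∀ u (x : L.space), 0 < (x : ℕ → ℝ) u → sy c' u u = 1 := fun u x hu =>
    mul_left_cancel ((hm u u u x hu hu hu).trans (mul_one _).symm)
  have h2 := hS _ _ e {a, b} (fun u => sy c' u b) (fun t => by
      refine ⟨i (e t), by_contra fun hn => (hi (e t)).ne' (h0 t _ ?_ ?_), hi _⟩ <;>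
        exact fun h => hn (by simp [h]))
    (fun t u hu v hv _ _ => eq_mul_inv_of_mul_eq (sxo_sym_mul hc hab (by simpa using hu)
      (by simpa using hv) (by simp))) b (by simp) a (by simp) pb pa
  have h3 : T (p a) x0 (Path.Homotopic.Quotient.mk (γ a)).symm *
      T x0 (p a) (Path.Homotopic.Quotient.mk (γ a)) = 1 := by
    rw [← hT, Path.Homotopic.Quotient.trans_symm]
    exact ψ.map_one
  have h4 : ψ (c a b) = (T x0 (p a) (Path.Homotopic.Quotient.mk (γ a)))⁻¹ *
      (T _ _ (Path.Homotopic.Quotient.mk e) * T x0 (p b) (Path.Homotopic.Quotient.mk (γ b))) := by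
    rw [← eq_inv_of_mul_eq_one_left h3, ← hT, ← hT, h1]
    rfl
  have h5 := eq_inv_of_mul_eq_one_right ((hm a _ a _ pa (hi _) pa).trans (one a _ pa))
  simp only [gau, h4, h2, h5, one b _ pb, show sy c' a b = c' a b from if_pos hle]
  group

theorem bdM_eq {Γ : Type} (c : ℕ → ℕ → Γ) {σ ρ : Finset ℕ} (hσ : σ.Nonempty) (hρ : ρ.Nonempty) :
    bdM c σ ρ = DG (· ≤ ·) c σ ρ := by
  have h : ∀ τ : Finset ℕ, τ.Nonempty → bt (· ≤ ·) τ = sInf (τ : Set ℕ) := fun τ hτ =>
    bt_eq ⟨fun _ _ => le_rfl, fun _ _ _ _ => le_antisymm, fun _ _ _ _ _ _ => le_trans⟩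
      (Nat.sInf_mem (s := (τ : Set ℕ)) hτ) fun u hu => Nat.sInf_le hu
  rw [bdM, DG, Dz, ← sxa2_sum, h σ hσ, h ρ hρ]
  refine Finset.sum_congr rfl fun v _ => ?_
  split_ifs
  · simp only [sg, lt_iff_le_and_ne]
  · exact (MonoidAlgebra.single_zero _).symm

/-- Given `c'` and `φ`, use `EdgeLoops.hol`, `DG_congr`, `DG_gau`, `tor_gauge`, and the ring map
`φ'` from the group ring of the fundamental group with `φ' (single γ n) = φ (single (ψ γ) n)`
(`MonoidAlgebra.lift` or `MonoidAlgebra.mapDomainRingHom`); then `tor_mul_det` with the grading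
by the cardinality and `WhTriv.det`. -/
theorem tau0_ge {K L : SC} (h : GE (· ≤ ·) 1 K.faces L.faces) (ht : Tau0 K L) :
    GE (· ≤ ·) 2 K.faces L.faces := by
  obtain ⟨x0, c, hE, s, ⟨hs, hc⟩, e, hW⟩ := ht
  generalize hD' : (Matrix.of fun σ ρ : ↥(L.faces \ K.faces) => bdM c σ.1 ρ.1) = D at hc hW
  have hD : ∀ σ ρ, D σ ρ = bdM c σ.1 ρ.1 := fun σ ρ => by rw [← hD']; rfl
  refine ⟨h.cK, h.cL, h.sub, h.eq1, fun Γ _ c' hc' =>
    ⟨(h.gd Γ c' hc').1, fun _ => (h.gd Γ c' hc').2.1 le_rfl, fun _ φ hφ => ?_⟩⟩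
  obtain ⟨ψ, g, hA⟩ := hE.hol hc'
  have hF : Flat (· ≤ ·) L.faces fun a b => ψ (c a b) := by
    convert (hc'.of_agree h.cL hA).gau fun a => (g a)⁻¹ using 3
    simp only [gau]
    group
  let φ' := φ.comp (MonoidAlgebra.mapDomainRingHom ℤ ψ)
  have h1 : ∀ γ n, φ' (MonoidAlgebra.single γ n) = φ (MonoidAlgebra.single (ψ γ) n) :=
    fun γ n => congrArg φ MonoidAlgebra.mapDomain_single
  have hφ' : φ' ∈ PhiG _ F25 := fun γ => by rw [h1]; exact hφ _
  have hL : ∀ x : ↥(L.faces \ K.faces), x.1 ∈ L.faces := fun x => (Finset.mem_sdiff.1 x.2).1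
  have h2 : (rs (L.faces \ K.faces) (L.faces \ K.faces)
      (DG (· ≤ ·) fun a b => ψ (c a b))).map φ = D.map φ' := by
    ext1 x y
    rw [Matrix.map_apply, Matrix.map_apply, hD,
      bdM_eq c (L.nonempty _ (hL x)) (L.nonempty _ (hL y))]
    exact (h1 _ _).symm
  have hd := (dm_DG h.cK h.cL hF).map φ
  have h3 : (rs (L.faces \ K.faces) (L.faces \ K.faces) (DG (· ≤ ·) c')).map φ =
      Matrix.of fun x y => φ (MonoidAlgebra.single (g (bt (· ≤ ·) x.1)) 1) *
        (rs (L.faces \ K.faces) (L.faces \ K.faces) (DG (· ≤ ·) fun a b => ψ (c a b))).map φ x y *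
          φ (MonoidAlgebra.single (g (bt (· ≤ ·) y.1))⁻¹ 1) := by
    ext1 x y
    simp only [Matrix.map_apply, Matrix.of_apply, rs, DG_congr h.cL hA (hL x) (hL y), DG_gau,
      map_mul]
  rw [h3, tor_gauge hd (fun x => by
    rw [← map_mul, MonoidAlgebra.single_mul_single, mul_inv_cancel, mul_one]
    exact φ.map_one) fun x => hφ _]
  let e1 : {x : ↥(L.faces \ K.faces) // ps x.1 = true} ≃
      {x : ↥(L.faces \ K.faces) // x.1.card % 2 = 0} :=
    Equiv.subtypeEquivRight fun x => by simp [ps]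
  let e2 : {x : ↥(L.faces \ K.faces) // x.1.card % 2 = 1} ≃
      {x : ↥(L.faces \ K.faces) // ps x.1 = false} :=
    Equiv.subtypeEquivRight fun x => by simp [ps]
  have h4 := tor_mul_det (s := s.map φ') (g := fun x => (x.1.card : ℤ)) hd
    (fun x => by rw [ps, decide_eq_decide]; omega)
    (fun x y hxy => by
      have := gr_DG _ _ x y fun h0 => hxy (by rw [Matrix.map_apply, h0, map_zero])
      simp only at this ⊢
      omega)
    (fun x y hxy => by
      have := hs x y fun h0 => hxy (by rw [Matrix.map_apply, h0, map_zero])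
      simp only at this ⊢
      omega)
    (by
      rw [h2, ← Matrix.map_mul, ← Matrix.map_mul, ← Matrix.map_add _ (map_add φ'), hc,
        Matrix.map_one _ (map_zero φ') (map_one φ')])
    (e1.trans (e.trans e2))
  have h5 := hW.det hφ'
  rw [← Matrix.det_submatrix_equiv_self e1] at h5
  rw [← h4]
  refine (mul_one _).symm.trans (congrArg _ (h5.symm.trans (congrArg (fun M => Matrix.det M ^ 8) ?_)))
  rw [h2, ← Matrix.map_add _ (map_add φ')]
  rfl

/-- A complex is determined by its realisation (look at barycentres). -/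
theorem SC.faces_subset {K L : SC} (h : K.space ⊆ L.space) : K.faces ⊆ L.faces := by
  intro σ hσ
  have hn := K.nonempty σ hσ
  have h0 : (0 : ℝ) < (σ.card : ℝ)⁻¹ := inv_pos.2 (Nat.cast_pos.2 hn.card_pos)
  have hw : (fun v => if v ∈ σ then (σ.card : ℝ)⁻¹ else 0) ∈ K.space := by
    refine ⟨fun v => ?_, σ, hσ, fun v hv => if_neg hv, ?_⟩
    · simp only
      split_ifs
      exacts [h0.le, le_rfl]
    · rw [Finset.sum_congr rfl fun v hv => if_pos hv, Finset.sum_const, nsmul_eq_mul,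
        mul_inv_cancel₀ (Nat.cast_ne_zero.2 hn.card_pos.ne')]
  exact L.mem_of_pos ⟨_, h hw⟩ hn fun v hv => h0.trans_eq (if_pos hv).symm

end Pool.Agent.Lib.MP_5ceaf9_gt
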