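import Pool.Agent.Lib.MP_5ceaf9_gt.VCell

/-! Good inclusions of simplicial complexes and of their face posets. -/

noncomputable section

namespace Pool.Agent.Lib.MP_5ceaf9_gt.V

open Classical Function

variable {K L : Finset (Finset ℕ)} {Γ : Type} [Group Γ] {c c' : ℕ → ℕ → Γ}
  {C C' : Finset ℕ → Finset ℕ → Γ} {l : ℕ}

/-- The cocycle on faces defined by a cocycle on vertices. -/
def upc (c : ℕ → ℕ → Γ) (τ σ : Finset ℕ) : Γ := c (bt (· ≤ ·) τ) (bt (· ≤ ·) σ)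

/-- The cocycle on vertices defined by a cocycle on faces. -/
def dnc (C : Finset ℕ → Finset ℕ → Γ) (a b : ℕ) : Γ := (C {a, b} {a})⁻¹ * C {a, b} {b}

theorem vbr_po (L : Finset (Finset ℕ)) : POn (swap (· ⊆ ·)) L := (pon_faces L).swap

theorem vbr_bt1 (a : ℕ) : bt (· ≤ ·) ({a} : Finset ℕ) = a :=
  bt_eq ⟨fun _ _ => le_rfl, fun _ _ _ _ => le_antisymm, fun _ _ _ _ _ _ => le_trans⟩
    (Finset.mem_singleton_self a) fun u hu => (Finset.mem_singleton.1 hu).ge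

theorem vbr_bt2 {a b : ℕ} (h : a ≤ b) : bt (· ≤ ·) ({a, b} : Finset ℕ) = a :=
  bt_eq ⟨fun _ _ => le_rfl, fun _ _ _ _ => le_antisymm, fun _ _ _ _ _ _ => le_trans⟩
    (Finset.mem_insert_self a _) fun u hu => by
      rcases Finset.mem_insert.1 hu with e | e
      · exact e.ge
      · exact h.trans (Finset.mem_singleton.1 e).ge

theorem vbr_one (hL : Cx (· ≤ ·) L) {τ : Finset ℕ} (hτ : τ ∈ L) {a : ℕ} (ha : a ∈ τ) :
    ({a} : Finset ℕ) ∈ L := hL.down τ hτ _ (Finset.singleton_subset_iff.2 ha) (by simp)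

theorem vbr_two (hL : Cx (· ≤ ·) L) {τ : Finset ℕ} (hτ : τ ∈ L) {a b : ℕ} (ha : a ∈ τ)
    (hb : b ∈ τ) : ({a, b} : Finset ℕ) ∈ L :=
  hL.down τ hτ _ (Finset.insert_subset ha (Finset.singleton_subset_iff.2 hb)) (by simp)

theorem vbr_bt (hL : Cx (· ≤ ·) L) {τ σ : Finset ℕ} (hτ : τ ∈ L) (hσ : σ ∈ L) (h : σ ⊆ τ) :
    bt (· ≤ ·) τ ∈ τ ∧ bt (· ≤ ·) σ ∈ τ ∧ bt (· ≤ ·) τ ≤ bt (· ≤ ·) σ :=
  ⟨(sxa2_bt hL hτ).1, h (sxa2_bt hL hσ).1, (sxa2_bt hL hτ).2 _ (h (sxa2_bt hL hσ).1)⟩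

theorem flat_upc (hL : Cx (· ≤ ·) L) (h : Flat (· ≤ ·) L c) :
    Flat (swap (· ⊆ ·)) (OC (swap (· ⊆ ·)) L) (upc c) :=
  (flat_OC (vbr_po L)).2 fun a ha b hb d hd hab hbd =>
    h.mul hL ha (vbr_bt hL ha hb hab).1 (vbr_bt hL ha hb hab).2.1
      (hab (vbr_bt hL hb hd hbd).2.1) (vbr_bt hL ha hb hab).2.2 (vbr_bt hL hb hd hbd).2.2

theorem dnc_eq (hL : Cx (· ≤ ·) L) (h : Flat (swap (· ⊆ ·)) (OC (swap (· ⊆ ·)) L) C)
    {τ : Finset ℕ} (hτ : τ ∈ L) {a b : ℕ} (ha : a ∈ τ) (hb : b ∈ τ) :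
    dnc C a b = (C τ {a})⁻¹ * C τ {b} := by
  have f := (flat_OC (vbr_po L)).1 h
  have s : ({a, b} : Finset ℕ) ⊆ τ := Finset.insert_subset ha (Finset.singleton_subset_iff.2 hb)
  rw [← f τ hτ _ (vbr_two hL hτ ha hb) _ (vbr_one hL hτ ha) s (by simp [swap]),
    ← f τ hτ _ (vbr_two hL hτ ha hb) _ (vbr_one hL hτ hb) s (by simp [swap]), dnc]
  group

theorem flat_dnc (hL : Cx (· ≤ ·) L) (h : Flat (swap (· ⊆ ·)) (OC (swap (· ⊆ ·)) L) C) :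
    Flat (· ≤ ·) L (dnc C) := fun a b d hm _ _ => by
  rw [dnc_eq hL h hm (a := a) (b := b) (by simp) (by simp),
    dnc_eq hL h hm (a := b) (b := d) (by simp) (by simp),
    dnc_eq hL h hm (a := a) (b := d) (by simp) (by simp)]
  group

theorem dnc_upc (hL : Cx (· ≤ ·) L) (h : Flat (· ≤ ·) L c) {a b : ℕ}
    (hm : ({a, b} : Finset ℕ) ∈ L) (hab : a ≤ b) : dnc (upc c) a b = c a b := by
  rw [dnc, upc, upc, vbr_bt1, vbr_bt1, vbr_bt2 hab, h.refl hL (vbr_one hL hm (by simp)), inv_one,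
    one_mul]

theorem upc_dnc (hL : Cx (· ≤ ·) L) (h : Flat (swap (· ⊆ ·)) (OC (swap (· ⊆ ·)) L) C)
    {τ σ : Finset ℕ} (hτ : τ ∈ L) (hσ : σ ∈ L) (hs : σ ⊆ τ) :
    C τ σ = C τ {bt (· ≤ ·) τ} * upc (dnc C) τ σ * (C σ {bt (· ≤ ·) σ})⁻¹ := by
  have f := (flat_OC (vbr_po L)).1 h
  have m := (sxa2_bt hL hσ).1
  rw [upc, dnc_eq hL h hτ (vbr_bt hL hτ hσ hs).1 (hs m),
    ← f τ hτ σ hσ _ (vbr_one hL hσ m) hs (Finset.singleton_subset_iff.2 m)]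
  group

theorem agree_dnc (hL : Cx (· ≤ ·) L) (h : Agree (swap (· ⊆ ·)) (OC (swap (· ⊆ ·)) L) C C') :
    Agree (· ≤ ·) L (dnc C) (dnc C') := fun a b hm _ => by
  have f := (agree_OC (vbr_po L)).1 h
  rw [dnc, dnc, f _ hm _ (vbr_one hL hm (a := a) (by simp)) (by simp [swap]),
    f _ hm _ (vbr_one hL hm (a := b) (by simp)) (by simp [swap])]

omit [Group Γ] in
theorem agree_upc (hL : Cx (· ≤ ·) L) (h : Agree (· ≤ ·) L c c') :
    Agree (swap (· ⊆ ·)) (OC (swap (· ⊆ ·)) L) (upc c) (upc c') :=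
  (agree_OC (vbr_po L)).2 fun _ ha _ hb hab =>
    h _ _ (vbr_two hL ha (vbr_bt hL ha hb hab).1 (vbr_bt hL ha hb hab).2.1)
      (vbr_bt hL ha hb hab).2.2

theorem eq1_up (hK : Cx (· ≤ ·) K) (hL : Cx (· ≤ ·) L) (hKL : K ⊆ L) (h : Eq1 (· ≤ ·) K L) :
    Eq1 (swap (· ⊆ ·)) (OC (swap (· ⊆ ·)) K) (OC (swap (· ⊆ ·)) L) := by
  refine ⟨fun Γ _ C hC => ?_, fun Γ _ C C' hC hC' ha => ?_, fun T h1 h2 τ hτ => ?_⟩
  · obtain ⟨c', f, a⟩ := h.ext Γ _ (flat_dnc hK hC)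
    refine ⟨gau (fun τ => if τ ∈ K then C τ {bt (· ≤ ·) τ} else 1) (upc c'),
      (flat_upc hL f).gau _, (agree_OC (vbr_po K)).2 fun τ hτ σ hσ hs => ?_⟩
    rw [gau, if_pos hτ, if_pos hσ, ← (agree_OC (vbr_po K)).1 (agree_upc hK a) τ hτ σ hσ hs]
    exact upc_dnc hK hC hτ hσ hs
  · obtain ⟨g, g1, a⟩ := h.uniq Γ _ _ (flat_dnc hL hC) (flat_dnc hL hC') (agree_dnc hK ha)
    refine ⟨fun τ => C' τ {bt (· ≤ ·) τ} * g (bt (· ≤ ·) τ) * (C τ {bt (· ≤ ·) τ})⁻¹,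
      fun τ hτ => ?_, (agree_OC (vbr_po L)).2 fun τ hτ σ hσ hs => ?_⟩
    · have hτ' := (single_mem_OC (vbr_po K)).1 hτ
      have m := (sxa2_bt hK hτ').1
      beta_reduce
      rw [g1 _ (vbr_one hK hτ' m), (agree_OC (vbr_po K)).1 ha τ hτ' _ (vbr_one hK hτ' m)
        (Finset.singleton_subset_iff.2 m)]
      group
    · rw [gau, upc_dnc hL hC hτ hσ hs, upc_dnc hL hC' hτ hσ hs,
        ← (agree_OC (vbr_po L)).1 (agree_upc hL a) τ hτ σ hσ hs]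
      simp only [upc, gau]
      group
  · have k : ∀ σ ∈ L, ∀ a ∈ σ, (σ ∈ T ↔ {a} ∈ T) := fun σ hσ a ha =>
      h2 σ {a} ((pair_mem_OC (vbr_po L) (Finset.singleton_subset_iff.2 ha)).2
        ⟨hσ, vbr_one hL hσ ha⟩) (Finset.singleton_subset_iff.2 ha)
    have hτ' := (single_mem_OC (vbr_po L)).1 hτ
    have m := (sxa2_bt hL hτ').1
    exact (k τ hτ' _ m).2 (h.conn {a : ℕ | ({a} : Finset ℕ) ∈ T}
      (fun a ha => h1 _ ((single_mem_OC (vbr_po K)).2 ha))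
      (fun a b hm _ => (k _ hm a (by simp)).symm.trans (k _ hm b (by simp))) _ (vbr_one hL hτ' m))

theorem eq1_dn (hK : Cx (· ≤ ·) K) (hL : Cx (· ≤ ·) L)
    (h : Eq1 (swap (· ⊆ ·)) (OC (swap (· ⊆ ·)) K) (OC (swap (· ⊆ ·)) L)) : Eq1 (· ≤ ·) K L := by
  refine ⟨fun Γ _ c hc => ?_, fun Γ _ c c' hc hc' ha => ?_, fun T h1 h2 a ha => ?_⟩
  · obtain ⟨C', f, a⟩ := h.ext Γ _ (flat_upc hK hc)
    exact ⟨dnc C', flat_dnc hL f, fun u v hm huv =>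
      (dnc_upc hK hc hm huv).symm.trans (agree_dnc hK a u v hm huv)⟩
  · obtain ⟨g, g1, a⟩ := h.uniq Γ _ _ (flat_upc hL hc) (flat_upc hL hc') (agree_upc hK ha)
    refine ⟨fun v => g {v}, fun v hv => g1 _ ((single_mem_OC (vbr_po K)).2 hv),
      fun u v hm huv => ?_⟩
    rw [← dnc_upc hL hc' hm huv, ← agree_dnc hL a u v hm huv, gau, ← dnc_upc hL hc hm huv]
    simp only [dnc, gau]
    group
  · have k := h.conn {τ | bt (· ≤ ·) τ ∈ T}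
      (fun τ hτ => by
        have hτ' := (single_mem_OC (vbr_po K)).1 hτ
        exact h1 _ (vbr_one hK hτ' (sxa2_bt hK hτ').1))
      (fun τ σ hm hs => by
        obtain ⟨hτ, hσ⟩ := (pair_mem_OC (vbr_po L) hs).1 hm
        exact h2 _ _ (vbr_two hL hτ (vbr_bt hL hτ hσ hs).1 (vbr_bt hL hτ hσ hs).2.1)
          (vbr_bt hL hτ hσ hs).2.2) {a} ((single_mem_OC (vbr_po L)).2 ha)
    rwa [Set.mem_ofPred_eq, vbr_bt1] at k

theorem vbr_pc {σ : Finset ℕ} (h : σ.Nonempty) : pc (fun σ : Finset ℕ => σ.card - 1) σ = ps σ := by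
  have := h.card_pos
  unfold pc ps
  rw [decide_eq_decide]
  beta_reduce
  omega

/-- A pair of simplicial complexes is good exactly when the pair of face posets is good. -/
theorem ge_iff_gp (hK : Cx (· ≤ ·) K) (hL : Cx (· ≤ ·) L) (hKL : K ⊆ L) :
    GE (· ≤ ·) l K L ↔ GP (· ⊆ ·) l K L := by
  have hd : ∀ a ∈ K, ∀ b ∈ L, b ⊆ a → b ∈ K :=
    fun a ha b hb hab => hK.down a ha b hab (hL.ne b hb)
  have hp : (fun x : ↥(L \ K) => pc (fun σ : Finset ℕ => σ.card - 1) x.1) = fun x => ps x.1 :=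
    funext fun x => vbr_pc (hL.ne _ (Finset.mem_sdiff.1 x.2).1)
  constructor
  · intro h
    refine GP.swap (r := swap (· ⊆ ·)) ⟨vbr_po L, hKL, cx_OC (vbr_po K), cx_OC (vbr_po L),
      OC_mono hKL, eq1_up hK hL hKL h.eq1, fun Γ _ C hC => ?_⟩
    refine (gd_iff_of_cone (cm_SD (cocell_faces hL) hKL hd hC)
      (gd_SD (cocell_faces hL) hKL hd hC)).1 ?_
    rw [hp]
    refine ((h.gd Γ _ (flat_dnc hL hC)).gauge fun x => C x.1 {bt (· ≤ ·) x.1}).of_equiv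
      (Equiv.refl _) (fun _ => rfl) fun x y => ?_
    show MonoidAlgebra.single (C x.1 y.1) (Dz (· ≤ ·) x.1 y.1) =
      _ * MonoidAlgebra.single (upc (dnc C) x.1 y.1) (Dz (· ≤ ·) x.1 y.1) * _
    by_cases h0 : Dz (· ≤ ·) x.1 y.1 = 0
    · simp [h0]
    · rw [MonoidAlgebra.single_mul_single, MonoidAlgebra.single_mul_single, one_mul, mul_one,
        upc_dnc hL hC (Finset.mem_sdiff.1 x.2).1 (Finset.mem_sdiff.1 y.2).1 (sxa2_sub h0)]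
      rfl
  · intro h
    refine ⟨hK, hL, hKL, eq1_dn hK hL h.swap.2.2.eq1, fun Γ _ c hc => ?_⟩
    have k := gd_Dc (cocell_faces hL) hd h.swap (flat_upc hL hc)
    rw [hp] at k
    exact k

end Pool.Agent.Lib.MP_5ceaf9_gt.V
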