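import Pool.Agent.Lib.MP_5ceaf9_gt.TMain
import Pool.Agent.Lib.MP_5ceaf9_gt.TZC
import Pool.Agent.Lib.MP_5ceaf9_gt.VBr

/-! No h-cobordism between the two manifolds has vanishing Whitehead torsion. -/

noncomputable section

namespace Pool.Agent.Lib.MP_5ceaf9_gt

open Classical Function Topology

theorem cx_faces (K : SC) : Cx (· ≤ ·) K.faces :=
  ⟨K.nonempty, K.down, fun _ _ => ⟨fun _ _ => le_rfl, fun _ _ _ _ => le_antisymm,
    fun _ _ _ _ _ _ => le_trans⟩, fun _ _ a _ b _ => le_total a b⟩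

theorem exists_subTri {X Y : Type} [TopologicalSpace X] [TopologicalSpace Y] {K L : SC}
    (t : L.space ≃ₜ Y) {f : C(X, Y)} (hf : IsEmbedding f) (h : K.faces ⊆ L.faces)
    (hr : ∀ x, t x ∈ Set.range f ↔ (x : ℕ → ℝ) ∈ K.space) :
    ∃ s : K.space ≃ₜ X, ∀ x, ((readIn s t f x : L.space) : ℕ → ℝ) = x := by
  have hsub := space_mono h
  have e1 : IsEmbedding (fun x : K.space => t (Set.inclusion hsub x)) :=
    t.isEmbedding.comp (IsEmbedding.inclusion hsub)
  have hr' : Set.range (fun x : K.space => t (Set.inclusion hsub x)) = Set.range f := by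
    ext y
    obtain ⟨z, rfl⟩ := t.surjective y
    rw [hr]
    exact ⟨fun ⟨x, hx⟩ => by rw [← t.injective hx]; exact x.2, fun hz => ⟨⟨z, hz⟩, rfl⟩⟩
  refine ⟨e1.toHomeomorph.trans ((Homeomorph.setCongr hr').trans hf.toHomeomorph.symm), fun x => ?_⟩
  have e2 : ∀ y : Set.range f, f (hf.toHomeomorph.symm y) = y := fun y =>
    congrArg Subtype.val (hf.toHomeomorph.apply_symm_apply y)
  have e3 : f ((e1.toHomeomorph.trans ((Homeomorph.setCongr hr').trans hf.toHomeomorph.symm)) x) =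
      t (Set.inclusion hsub x) := e2 _
  exact congrArg Subtype.val ((congrArg t.symm e3).trans (t.symm_apply_apply _))

theorem good_of_tau0 {X Y : Type} [TopologicalSpace X] [TopologicalSpace Y] {K L : SC}
    (t : L.space ≃ₜ Y) {f : C(X, Y)} (hf : IsEmbedding f) (he : IsHE f) (h : K.faces ⊆ L.faces)
    (hr : ∀ x, t x ∈ Set.range f ↔ (x : ℕ → ℝ) ∈ K.space) (h0 : Tau0 K L) :
    ∃ s : K.space ≃ₜ X, GoodM 2 (readIn s t f) := by
  obtain ⟨s, hs⟩ := exists_subTri t hf h hr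
  have g1 := (goodM_incl one_le_two h hs).1 (isHE_readIn s t he).good
  exact ⟨s, (goodM_incl le_rfl h hs).2 ((V.ge_iff_gp (cx_faces K) (cx_faces L) h).1
    (tau0_ge ((V.ge_iff_gp (cx_faces K) (cx_faces L) h).2 g1) h0))⟩

theorem main2 : ∃ A B : Closed4, ConnectedSpace A.M ∧ Nonempty (HCob A B) ∧
    ∀ h : HCob A B, ¬ h.IsSCob := by
  obtain ⟨A, B, cA, hc, H⟩ := tmain_good
  refine ⟨A, B, cA, hc, ?_⟩
  rintro h ⟨K, L, t, hKL, hr, h0⟩
  obtain ⟨s, hs⟩ := good_of_tau0 t h.hi.isEmbedding h.hei hKL hr h0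
  exact (H h K L t).1 s hs

end Pool.Agent.Lib.MP_5ceaf9_gt
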