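import Pool.Agent.Lib.MP_5ceaf9_gt.TMain

/-! The two manifolds are not simple homotopy equivalent. -/

noncomputable section

namespace Pool.Agent.Lib.MP_5ceaf9_gt

open Classical Function

variable {K L : SC}

/-- Push away from the free face: subtract the least coordinate on `σ.erase v` and move the mass
to `v`. -/
theorem Expands.retr (h : Expands K L) :
    ∃ g : L.space → K.space, Continuous g ∧ ∀ x : L.space, x.1 ∈ K.space → (g x).1 = x.1 := by
  obtain ⟨σ, v, hv, hσ, hτ, hn, e⟩ := h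
  have hL : σ ∈ L.faces := e ▸ Finset.mem_insert_self _ _
  have tri : ∀ a ∈ L.faces, a = σ ∨ a = σ.erase v ∨ a ∈ K.faces := fun a ha => by
    rwa [e, Finset.mem_insert, Finset.mem_insert] at ha
  have key : ∀ a ∈ L.faces, ¬σ.erase v ⊆ a → a ∈ K.faces := fun a h1 h3 => by
    rcases tri a h1 with rfl | rfl | h4
    · exact absurd (Finset.erase_subset _ _) h3
    · exact absurd (Finset.Subset.refl _) h3
    · exact h4
  obtain ⟨m, hm⟩ : ∃ m : L.space → ℝ, m = fun x => (σ.erase v).inf' hn fun u => x.1 u := ⟨_, rfl⟩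
  have cm : Continuous m := hm ▸ Continuous.finset_inf'_apply hn fun u _ => continuous_coord L u
  have m0 : ∀ x, 0 ≤ m x := fun x => hm ▸ (Finset.le_inf'_iff hn _).2 fun u _ => x.2.1 u
  have m1 : ∀ x, ∀ u ∈ σ.erase v, m x ≤ x.1 u := fun x u hu => hm ▸ Finset.inf'_le _ hu
  have m2 : ∀ x, ∃ u ∈ σ.erase v, m x = x.1 u := fun x => hm ▸ Finset.exists_mem_eq_inf' hn _
  have m3 : ∀ x, ¬σ.erase v ⊆ spp L x → m x = 0 := fun x hx => by
    obtain ⟨u, h1, h2⟩ := Finset.not_subset.1 hx
    exact le_antisymm ((m1 x u h1).trans_eq (zero_of_not_spp x h2)) (m0 x)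
  obtain ⟨G, hG⟩ : ∃ G : L.space → ℕ → ℝ, G = fun x u => x.1 u -
      (if u ∈ σ.erase v then m x else 0) + if u = v then (σ.erase v).card * m x else 0 := ⟨_, rfl⟩
  have G0 : ∀ x, m x = 0 → G x = x.1 := fun x hx => by
    funext u
    simp [hG, hx]
  have GK : ∀ x, G x ∈ K.space := fun x => by
    by_cases hx : σ.erase v ⊆ spp L x
    · have hs : spp L x ⊆ σ := by
        rcases tri _ (spp_mem x) with h1 | h1 | h1
        · exact h1.le
        · exact h1.le.trans (Finset.erase_subset _ _)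
        · exact absurd (K.down _ h1 _ hx hn) hτ
      obtain ⟨u, hu, eu⟩ := m2 x
      have uv : u ≠ v := Finset.ne_of_mem_erase hu
      have Gu : G x u = 0 := by simp only [hG, if_pos hu, if_neg uv, eu, sub_self, add_zero]
      refine ⟨fun w => ?_, σ.erase u, key _ (L.down σ hL _ (Finset.erase_subset _ _)
        ⟨v, Finset.mem_erase.2 ⟨uv.symm, hv⟩⟩) fun c => Finset.notMem_erase u σ (c hu),
        fun w hw => ?_, ?_⟩
      · rw [hG]
        refine add_nonneg (sub_nonneg.2 ?_) ?_
        · split_ifs with c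
          · exact m1 x w c
          · exact x.2.1 w
        · split_ifs
          · exact mul_nonneg (Nat.cast_nonneg _) (m0 x)
          · exact le_rfl
      · by_cases c : w = u
        · exact c ▸ Gu
        · have c1 : w ∉ σ := fun c1 => hw (Finset.mem_erase.2 ⟨c, c1⟩)
          have c2 : w ∉ σ.erase v := fun c2 => c1 (Finset.mem_of_mem_erase c2)
          have c3 : w ≠ v := fun c3 => c1 (c3 ▸ hv)
          simp only [hG, if_neg c2, if_neg c3, zero_of_not_spp x fun c4 => c1 (hs c4), sub_self,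
            add_zero]
      · rw [Finset.sum_erase σ Gu, hG]
        simp only
        rw [Finset.sum_add_distrib, Finset.sum_sub_distrib, sum_of_spp x hs, Finset.sum_ite_mem,
          Finset.inter_eq_right.2 (Finset.erase_subset _ _), Finset.sum_const, nsmul_eq_mul,
          Finset.sum_ite_eq', if_pos hv, sub_add_cancel]
    · rw [G0 x (m3 x hx)]
      exact mem_space_of_spp x (key _ (spp_mem x) hx)
  refine ⟨fun x => ⟨G x, GK x⟩, Continuous.subtype_mk (continuous_pi fun u => ?_) _,
    fun x hx => G0 x (m3 x fun c => hτ (K.down _ (spp_mem ⟨x.1, hx⟩) _ (fun u hu => ?_) hn))⟩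
  · rw [hG]
    refine ((continuous_coord L u).sub ?_).add ?_
    · split_ifs
      · exact cm
      · exact continuous_const
    · split_ifs
      · exact continuous_const.mul cm
      · exact continuous_const
  · exact mem_spp.2 (mem_spp.1 (c hu) :)

theorem Expands.thin_pdk (h : Expands K L) : ThinS K ∧ PDK K ↔ ThinS L ∧ PDK L := by
  obtain ⟨g, cg, hg⟩ := h.retr
  have hs := (h.gp (l := 2)).2.1
  have cf : Continuous (Set.inclusion (space_mono hs)) := continuous_inclusion _
  have gf : GoodM 2 (Set.inclusion (space_mono hs)) := (goodM_incl le_rfl hs fun _ => rfl).2 h.gp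
  have e : g ∘ Set.inclusion (space_mono hs) = id := funext fun x => Subtype.ext (hg _ x.2)
  have gg : GoodM 2 g := GoodM.right le_rfl cf cg gf (e ▸ goodM_id le_rfl)
  exact and_congr ⟨ThinS.pull cg (gg.mono (Nat.zero_le 2)),
    ThinS.pull cf (gf.mono (Nat.zero_le 2))⟩ gf.pdk

theorem thin_pdk_homeo (e : K.space ≃ₜ L.space) (h : ThinS L ∧ PDK L) : ThinS K ∧ PDK K :=
  ⟨h.1.pull e.continuous ((isHE_homeo e).good.mono zero_le_one), (h.1.good e).pdk.2 h.2⟩

theorem not_simple : ∃ A B : Closed4, ConnectedSpace A.M ∧ Nonempty (HCob A B) ∧ ∃ K L : SC,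
    Nonempty (K.space ≃ₜ A.M) ∧ Nonempty (L.space ≃ₜ B.M) ∧
      ¬ Relation.EqvGen (fun P Q : SC => Expands P Q ∨ Nonempty (P.space ≃ₜ Q.space)) K L := by
  obtain ⟨A, B, cA, hc, K0, K1, t0, t1, p0, p1, th⟩ := tmain_pair
  have key : ∀ K L, Relation.EqvGen
      (fun P Q : SC => Expands P Q ∨ Nonempty (P.space ≃ₜ Q.space)) K L →
      (ThinS K ∧ PDK K ↔ ThinS L ∧ PDK L) := fun K L h => by
    induction h with
    | rel K L h =>
      exact h.elim Expands.thin_pdk fun ⟨e⟩ => ⟨thin_pdk_homeo e.symm, thin_pdk_homeo e⟩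
    | refl => rfl
    | symm _ _ _ ih => exact ih.symm
    | trans _ _ _ _ _ ih ih' => exact ih.trans ih'
  exact ⟨A, B, cA, hc, K0, K1, t0, t1, fun h => p1 ((key _ _ h).1 ⟨th, p0⟩).2⟩

end Pool.Agent.Lib.MP_5ceaf9_gt
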