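import Pool.Agent.Lib.MP_5ceaf9_gt.Main2

/-! Closed smooth four-manifolds that are smoothly h-cobordant but not smoothly s-cobordant. -/

namespace Pool.Agent.Results.MP_5ceaf9_gt.HNotSCob

open Pool.Agent.Lib.MP_5ceaf9_gt

theorem result : ∃ A B : Closed4, ConnectedSpace A.M ∧ Nonempty (HCob A B) ∧
    ∀ h : HCob A B, ¬ h.IsSCob :=
  main2

end Pool.Agent.Results.MP_5ceaf9_gt.HNotSCob
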