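import Pool.Agent.Lib.MP_5ceaf9_gt.Cx
import Pool.Agent.Lib.MP_5ceaf9_gt.AlgH

/-! Basic facts on complexes of chains. -/

noncomputable section

namespace Pool.Agent.Lib.MP_5ceaf9_gt

open Classical Function

variable {α β : Type} [DecidableEq α] [DecidableEq β] [Nonempty α] [Nonempty β]
  {r : α → α → Prop} {r' : β → β → Prop} {l : ℕ}

variable {A B σ ρ : Finset α} {K L : Finset (Finset α)} {Γ : Type} [Group Γ] {c c' : α → α → Γ}

theorem POn.mono (h : POn r B) (hAB : A ⊆ B) : POn r A := by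
  exact ⟨fun a ha => h.refl a (hAB ha), fun a ha b hb => h.anti a (hAB ha) b (hAB hb),
    fun a ha b hb d hd => h.trans a (hAB ha) b (hAB hb) d (hAB hd)⟩

theorem POn.swap (h : POn r A) : POn (swap r) A := by
  exact ⟨h.refl, fun a ha b hb h1 h2 => h.anti a ha b hb h2 h1,
    fun a ha b hb d hd h1 h2 => h.trans d hd b hb a ha h2 h1⟩

theorem Cx.swap (h : Cx r K) : Cx (swap r) K := by
  exact ⟨h.ne, h.down, fun σ hσ => (h.po σ hσ).swap,
    fun σ hσ a ha b hb => (h.tot σ hσ a ha b hb).symm⟩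

theorem mem_OC : σ ∈ OC r A ↔ σ ⊆ A ∧ σ.Nonempty ∧ Tot r σ := by
  simp only [OC, Finset.mem_filter, Finset.mem_powerset]

theorem cx_OC (h : POn r A) : Cx r (OC r A) := by
  refine ⟨fun σ hσ => (mem_OC.1 hσ).2.1, fun σ hσ ρ hρ hn => ?_,
    fun σ hσ => h.mono (mem_OC.1 hσ).1, fun σ hσ => (mem_OC.1 hσ).2.2⟩
  obtain ⟨h1, -, h2⟩ := mem_OC.1 hσ
  exact mem_OC.2 ⟨hρ.trans h1, hn, fun a ha b hb => h2 a (hρ ha) b (hρ hb)⟩

theorem OC_mono (h : A ⊆ B) : OC r A ⊆ OC r B := by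
  intro σ hσ
  obtain ⟨h1, h2⟩ := mem_OC.1 hσ
  exact mem_OC.2 ⟨h1.trans h, h2⟩

theorem OC_swap : OC (swap r) A = OC r A := by
  ext σ
  rw [mem_OC, mem_OC]
  exact and_congr_right fun _ => and_congr_right fun _ =>
    ⟨fun h a ha b hb => (h a ha b hb).symm, fun h a ha b hb => (h a ha b hb).symm⟩

theorem single_mem_OC (h : POn r A) {a : α} : ({a} : Finset α) ∈ OC r A ↔ a ∈ A := by
  rw [mem_OC, Finset.singleton_subset_iff]
  refine ⟨fun h' => h'.1, fun ha => ⟨ha, Finset.singleton_nonempty a, fun x hx y hy => ?_⟩⟩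
  rw [Finset.mem_singleton.1 hx, Finset.mem_singleton.1 hy]
  exact Or.inl (h.refl a ha)

theorem pair_mem_OC (h : POn r A) {a b : α} (hab : r a b) :
    ({a, b} : Finset α) ∈ OC r A ↔ a ∈ A ∧ b ∈ A := by
  rw [mem_OC, Finset.insert_subset_iff, Finset.singleton_subset_iff]
  refine ⟨fun h' => h'.1, fun h' => ⟨h', Finset.insert_nonempty _ _, fun x hx y hy => ?_⟩⟩
  simp only [Finset.mem_insert, Finset.mem_singleton] at hx hy
  rcases hx with rfl | rfl <;> rcases hy with rfl | rfl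
  · exact Or.inl (h.refl _ h'.1)
  · exact Or.inl hab
  · exact Or.inr hab
  · exact Or.inl (h.refl _ h'.2)

theorem flat_OC (h : POn r A) : Flat r (OC r A) c ↔
    ∀ a ∈ A, ∀ b ∈ A, ∀ d ∈ A, r a b → r b d → c a b * c b d = c a d := by
  constructor
  · intro hf a ha b hb d hd hab hbd
    have had := h.trans a ha b hb d hd hab hbd
    refine hf a b d (mem_OC.2 ⟨?_, Finset.insert_nonempty _ _, fun x hx y hy => ?_⟩) hab hbd
    · simp only [Finset.insert_subset_iff, Finset.singleton_subset_iff]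
      exact ⟨ha, hb, hd⟩
    · simp only [Finset.mem_insert, Finset.mem_singleton] at hx hy
      have h1 := h.refl a ha
      have h2 := h.refl b hb
      have h3 := h.refl d hd
      rcases hx with rfl | rfl | rfl <;> rcases hy with rfl | rfl | rfl <;>
        first | exact Or.inl ‹_› | exact Or.inr ‹_›
  · intro hf a b d hm hab hbd
    have h1 := (mem_OC.1 hm).1
    simp only [Finset.insert_subset_iff, Finset.singleton_subset_iff] at h1
    exact hf a h1.1 b h1.2.1 d h1.2.2 hab hbd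

theorem agree_OC {T : Type} {c c' : α → α → T} (h : POn r A) :
    Agree r (OC r A) c c' ↔ ∀ a ∈ A, ∀ b ∈ A, r a b → c a b = c' a b := by
  exact ⟨fun h' a ha b hb hab => h' a b ((pair_mem_OC h hab).2 ⟨ha, hb⟩) hab,
    fun h' a b hm hab => h' a ((pair_mem_OC h hab).1 hm).1 b ((pair_mem_OC h hab).1 hm).2 hab⟩

theorem bt_eq (h : POn r σ) {m : α} (hm : m ∈ σ) (hle : ∀ u ∈ σ, r m u) : bt r σ = m := by
  have h1 : bt r σ ∈ σ ∧ ∀ u ∈ σ, r (bt r σ) u :=
    Classical.epsilon_spec (p := fun m => m ∈ σ ∧ ∀ u ∈ σ, r m u) ⟨m, hm, hle⟩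
  exact h.anti _ h1.1 m hm (h1.2 m hm) (hle _ h1.1)

theorem bt_spec (h : POn r σ) (ht : Tot r σ) (hn : σ.Nonempty) :
    bt r σ ∈ σ ∧ ∀ u ∈ σ, r (bt r σ) u := by
  refine Classical.epsilon_spec (p := fun m => m ∈ σ ∧ ∀ u ∈ σ, r m u) ?_
  obtain ⟨m, hm, hmin⟩ := σ.exists_min_image (fun m => (σ.filter (fun u => r u m)).card) hn
  refine ⟨m, hm, fun u hu => by_contra fun hc => ?_⟩
  have h1 := (ht m hm u hu).resolve_left hc
  refine absurd (hmin u hu) (not_le.2 (Finset.card_lt_card ⟨fun x hx => ?_, fun hs => ?_⟩))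
  · rw [Finset.mem_filter] at hx ⊢
    exact ⟨hx.1, h.trans x hx.1 u hu m hm hx.2 h1⟩
  · exact hc (Finset.mem_filter.1 (hs (Finset.mem_filter.2 ⟨hm, h.refl m hm⟩))).2

theorem Flat.refl (hK : Cx r K) (h : Flat r K c) {a : α} (ha : ({a} : Finset α) ∈ K) :
    c a a = 1 := by
  have h1 := (hK.po _ ha).refl a (Finset.mem_singleton_self a)
  have h2 := h a a a (by simpa using ha) h1 h1
  exact mul_left_cancel (h2.trans (mul_one _).symm)

theorem Flat.mono (h : Flat r L c) (hKL : K ⊆ L) : Flat r K c := by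
  exact fun a b d hm => h a b d (hKL hm)

theorem Flat.gau (h : Flat r K c) (g : α → Γ) : Flat r K (gau g c) := by
  intro a b d hm hab hbd
  simp only [Pool.Agent.Lib.MP_5ceaf9_gt.gau, ← h a b d hm hab hbd]
  group

theorem Flat.hom (h : Flat r K c) {Γ' : Type} [Group Γ'] (φ : Γ →* Γ') :
    Flat r K (fun a b => φ (c a b)) := by
  intro a b d hm hab hbd
  simp only [← map_mul, h a b d hm hab hbd]

theorem Flat.of_agree (hK : Cx r K) (h : Flat r K c) (h' : Agree r K c c') : Flat r K c' := by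
  intro a b d hm hab hbd
  have had := (hK.po _ hm).trans a (by simp) b (by simp) d (by simp) hab hbd
  have hp : ∀ x y, x ∈ ({a, b, d} : Finset α) → y ∈ ({a, b, d} : Finset α) →
      ({x, y} : Finset α) ∈ K := fun x y hx hy =>
    hK.down _ hm _ (Finset.insert_subset hx (Finset.singleton_subset_iff.2 hy))
      (Finset.insert_nonempty _ _)
  rw [← h' a b (hp a b (by simp) (by simp)) hab, ← h' b d (hp b d (by simp) (by simp)) hbd,
    ← h' a d (hp a d (by simp) (by simp)) had]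
  exact h a b d hm hab hbd

theorem Flat.cop (hK : Cx r K) (h : Flat r K c) : Flat (swap r) K (cop c) := by
  intro a b d hm hab hbd
  have e : ({d, b, a} : Finset α) = {a, b, d} := by
    ext x
    simp only [Finset.mem_insert, Finset.mem_singleton]
    tauto
  simp only [Pool.Agent.Lib.MP_5ceaf9_gt.cop, ← h d b a (e ▸ hm) hbd hab, mul_inv_rev]

/-- Flatness inside one simplex. -/
theorem Flat.mul (hK : Cx r K) (h : Flat r K c) (hσ : σ ∈ K) {a b d : α} (ha : a ∈ σ) (hb : b ∈ σ)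
    (hd : d ∈ σ) (hab : r a b) (hbd : r b d) : c a b * c b d = c a d := by
  exact h a b d (hK.down σ hσ _ (Finset.insert_subset ha (Finset.insert_subset hb
    (Finset.singleton_subset_iff.2 hd))) (Finset.insert_nonempty _ _)) hab hbd

theorem sg_mul_self (v : α) : sg r σ v * sg r σ v = 1 := by
  rw [sg, ← mul_pow]
  norm_num

theorem Dz_erase {v : α} (hv : v ∈ σ) : Dz r σ (σ.erase v) = sg r σ v := by
  rw [Dz, Finset.sum_eq_single v]
  · rw [if_pos rfl]
  · intro w _ hw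
    exact if_neg fun e => hw ((Finset.erase_inj σ hv).1 e).symm
  · intro h
    exact absurd hv h

theorem Dz_ne (h : Dz r σ ρ ≠ 0) : ∃ v ∈ σ, ρ = σ.erase v := by
  obtain ⟨v, hv, h1⟩ := Finset.exists_ne_zero_of_sum_ne_zero h
  exact ⟨v, hv, by_contra fun e => h1 (if_neg e)⟩

theorem sxa_sg_lt {u v : α} (hu : u ∈ σ) (h : r u v) (huv : u ≠ v) :
    sg r σ v = -sg r (σ.erase u) v := by
  have h1 : u ∈ σ.filter (fun w => r w v ∧ w ≠ v) := Finset.mem_filter.2 ⟨hu, h, huv⟩
  rw [sg, sg, Finset.filter_erase, ← Finset.card_erase_add_one h1, pow_succ]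
  ring

theorem sxa_sg_gt {u v : α} (h : ¬ r v u) : sg r (σ.erase v) u = sg r σ u := by
  rw [sg, sg, Finset.filter_erase, Finset.erase_eq_of_notMem fun h1 => h (Finset.mem_filter.1 h1).2.1]

theorem sg_erase (h : POn r σ) (ht : Tot r σ) {u v : α} (hu : u ∈ σ) (hv : v ∈ σ) (huv : u ≠ v) :
    sg r σ u * sg r (σ.erase u) v = -(sg r σ v * sg r (σ.erase v) u) := by
  rcases ht u hu v hv with h1 | h1
  · rw [sxa_sg_lt hu h1 huv, sxa_sg_gt (u := u) (v := v) fun h2 => huv (h.anti u hu v hv h1 h2)]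
    ring
  · rw [sxa_sg_lt hv h1 huv.symm,
      sxa_sg_gt (u := v) (v := u) fun h2 => huv (h.anti u hu v hv h2 h1)]
    ring

end Pool.Agent.Lib.MP_5ceaf9_gt
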