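import Pool.Agent.Lib.MP_5ceaf9_gt.SxA

/-! The coboundary matrices are differentials. -/

noncomputable section

namespace Pool.Agent.Lib.MP_5ceaf9_gt

open Classical Function

variable {α β : Type} [DecidableEq α] [DecidableEq β] [Nonempty α] [Nonempty β]
  {r : α → α → Prop} {r' : β → β → Prop} {l : ℕ}

variable {σ ρ : Finset α} {K L X : Finset (Finset α)} {Γ : Type} [Group Γ] {c c' : α → α → Γ}

theorem sxa2_sub (h : Dz r σ ρ ≠ 0) : ρ ⊆ σ := by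
  obtain ⟨v, -, rfl⟩ := Dz_ne h
  exact Finset.erase_subset _ _

theorem sxa2_ne (h : DG r c σ ρ ≠ 0) : Dz r σ ρ ≠ 0 := by
  intro h0
  apply h
  unfold DG
  rw [h0]
  exact MonoidAlgebra.single_zero _

theorem sxa2_bt (hL : Cx r L) (hσ : σ ∈ L) : bt r σ ∈ σ ∧ ∀ u ∈ σ, r (bt r σ) u :=
  bt_spec (hL.po _ hσ) (hL.tot _ hσ) (hL.ne _ hσ)

omit [Group Γ] in
theorem sxa2_sum {ι : Type} (s : Finset ι) (g : Γ) (f : ι → ℤ) :
    ∑ i ∈ s, (MonoidAlgebra.single g (f i) : ZG Γ) = MonoidAlgebra.single g (∑ i ∈ s, f i) := by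
  induction s using Finset.cons_induction with
  | empty => rw [Finset.sum_empty, Finset.sum_empty, MonoidAlgebra.single_zero]
  | cons a s ha ih => rw [Finset.sum_cons, Finset.sum_cons, ih, MonoidAlgebra.single_add]

theorem ps_ne (h : Dz r σ ρ ≠ 0) : ps σ ≠ ps ρ := by
  obtain ⟨v, hv, rfl⟩ := Dz_ne h
  have h1 := Finset.card_erase_add_one hv
  unfold ps
  intro h2
  rw [decide_eq_decide] at h2
  omega

/-- If `τ = σ - u - v`, exactly the two terms `σ - u`, `σ - v` contribute (`sg_erase`). -/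
theorem Dz_sq (h : POn r σ) (ht : Tot r σ) {τ : Finset α}
    (hX : ∀ v ∈ σ, τ ⊆ σ.erase v → σ.erase v ∈ X) : ∑ ρ ∈ X, Dz r σ ρ * Dz r ρ τ = 0 := by
  have h1 : ∑ ρ ∈ X, Dz r σ ρ * Dz r ρ τ = ∑ v ∈ σ, sg r σ v * Dz r (σ.erase v) τ := by
    have e : ∀ ρ, Dz r σ ρ * Dz r ρ τ =
        ∑ v ∈ σ, if ρ = σ.erase v then sg r σ v * Dz r (σ.erase v) τ else 0 := fun ρ => by
      rw [show Dz r σ ρ = ∑ v ∈ σ, if ρ = σ.erase v then sg r σ v else 0 from rfl,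
        Finset.sum_mul]
      refine Finset.sum_congr rfl fun v _ => ?_
      split_ifs with h2
      · rw [h2]
      · exact zero_mul _
    rw [Finset.sum_congr rfl fun ρ _ => e ρ, Finset.sum_comm]
    refine Finset.sum_congr rfl fun v hv => ?_
    rw [Finset.sum_ite_eq']
    split_ifs with h2
    · rfl
    · have h3 : Dz r (σ.erase v) τ = 0 := by
        by_contra h3
        exact h2 (hX v hv (sxa2_sub h3))
      rw [h3, mul_zero]
  have h2 : ∑ v ∈ σ, sg r σ v * Dz r (σ.erase v) τ = ∑ v ∈ σ, ∑ u ∈ σ,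
      if u ≠ v ∧ τ = (σ.erase v).erase u then sg r σ v * sg r (σ.erase v) u else 0 := by
    refine Finset.sum_congr rfl fun v _ => ?_
    rw [show Dz r (σ.erase v) τ = ∑ u ∈ σ.erase v,
      if τ = (σ.erase v).erase u then sg r (σ.erase v) u else 0 from rfl, Finset.mul_sum]
    conv_lhs => arg 1; rw [← Finset.filter_ne' σ v]
    rw [Finset.sum_filter]
    refine Finset.sum_congr rfl fun u _ => ?_
    by_cases a : u ≠ v <;> by_cases b : τ = (σ.erase v).erase u <;> simp [a, b]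
  rw [h1, h2]
  have h3 : ∀ (f : α → α → ℤ), (∀ v ∈ σ, ∀ u ∈ σ, f v u = -f u v) →
      ∑ v ∈ σ, ∑ u ∈ σ, f v u = 0 := fun f hf => by
    have h4 : ∑ v ∈ σ, ∑ u ∈ σ, f v u = -∑ v ∈ σ, ∑ u ∈ σ, f v u := by
      conv_rhs => rw [Finset.sum_comm]
      rw [← Finset.sum_neg_distrib]
      refine Finset.sum_congr rfl fun v hv => ?_
      rw [← Finset.sum_neg_distrib]
      exact Finset.sum_congr rfl fun u hu => hf v hv u hu
    omega
  refine h3 _ fun v hv u hu => ?_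
  by_cases a : u = v
  · simp [a]
  · have a' : v ≠ u := fun e => a e.symm
    rw [Finset.erase_right_comm (a := u) (b := v)]
    by_cases b : τ = (σ.erase v).erase u
    · rw [if_pos ⟨a, b⟩, if_pos ⟨a', b⟩, sg_erase h ht hv hu a']
    · rw [if_neg fun e => b e.2, if_neg fun e => b e.2, neg_zero]

/-- A convex family of simplices of `L`. -/
theorem dm_DG_conv (hL : Cx r L) (hc : Flat r L c) (hX : X ⊆ L)
    (conv : ∀ σ ∈ X, ∀ τ ∈ X, ∀ ρ, τ ⊆ ρ → ρ ⊆ σ → ρ ∈ X) :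
    Dm (fun x : ↥X => ps x.1) (rs X X (DG r c)) := by
  refine ⟨?_, fun x y hxy => ps_ne (sxa2_ne hxy)⟩
  ext1 x y
  have e : ∀ ρ ∈ X, DG r c x.1 ρ * DG r c ρ y.1 = MonoidAlgebra.single
      (c (bt r x.1) (bt r y.1)) (Dz r x.1 ρ * Dz r ρ y.1) := fun ρ hρ => by
    unfold DG
    rw [MonoidAlgebra.single_mul_single]
    by_cases h0 : Dz r x.1 ρ * Dz r ρ y.1 = 0
    · rw [h0, MonoidAlgebra.single_zero, MonoidAlgebra.single_zero]
    · have s1 := sxa2_sub (left_ne_zero_of_mul h0)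
      have s2 := sxa2_sub (right_ne_zero_of_mul h0)
      have b1 := sxa2_bt hL (hX x.2)
      have b2 := sxa2_bt hL (hX hρ)
      have b3 := sxa2_bt hL (hX y.2)
      rw [hc.mul hL (hX x.2) b1.1 (s1 b2.1) (s1 (s2 b3.1)) (b1.2 _ (s1 b2.1))
        (b2.2 _ (s2 b3.1))]
  have h0 := Dz_sq (X := X) (τ := y.1) (hL.po _ (hX x.2)) (hL.tot _ (hX x.2))
    fun v _ hv => conv _ x.2 _ y.2 _ hv (Finset.erase_subset _ _)
  rw [Matrix.mul_apply, Matrix.zero_apply]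
  calc ∑ ρ : ↥X, rs X X (DG r c) x ρ * rs X X (DG r c) ρ y
      = ∑ ρ ∈ X, DG r c x.1 ρ * DG r c ρ y.1 :=
        Finset.sum_coe_sort X fun ρ => DG r c x.1 ρ * DG r c ρ y.1
    _ = 0 := by
        rw [Finset.sum_congr rfl e, sxa2_sum, h0, MonoidAlgebra.single_zero]

theorem dm_DG (hK : Cx r K) (hL : Cx r L) (hc : Flat r L c) :
    Dm (fun x : ↥(L \ K) => ps x.1) (rs (L \ K) (L \ K) (DG r c)) := by
  refine dm_DG_conv hL hc Finset.sdiff_subset fun σ hσ τ hτ ρ h1 h2 => ?_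
  rw [Finset.mem_sdiff] at hσ hτ ⊢
  have hn := hL.ne _ hτ.1
  exact ⟨hL.down _ hσ.1 _ h2 (hn.mono h1), fun h => hτ.2 (hK.down _ h _ h1 hn)⟩

theorem dm_DG_abs (hL : Cx r L) (hc : Flat r L c) :
    Dm (fun x : ↥L => ps x.1) (rs L L (DG r c)) := by
  exact dm_DG_conv hL hc subset_rfl fun σ hσ τ hτ ρ h1 h2 =>
    hL.down _ hσ _ h2 ((hL.ne _ hτ).mono h1)

/-- The integral version; `X` may contain the empty simplex. -/
theorem dm_Dz (hX : ∀ σ ∈ X, POn r σ ∧ Tot r σ)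
    (conv : ∀ σ ∈ X, ∀ τ ∈ X, ∀ ρ, τ ⊆ ρ → ρ ⊆ σ → ρ ∈ X) :
    Dm (fun x : ↥X => ps x.1) (rs X X (Dz r)) := by
  refine ⟨?_, fun x y hxy => ps_ne hxy⟩
  ext1 x y
  rw [Matrix.mul_apply, Matrix.zero_apply]
  calc ∑ ρ : ↥X, rs X X (Dz r) x ρ * rs X X (Dz r) ρ y
      = ∑ ρ ∈ X, Dz r x.1 ρ * Dz r ρ y.1 :=
        Finset.sum_coe_sort X fun ρ => Dz r x.1 ρ * Dz r ρ y.1
    _ = 0 := Dz_sq (hX _ x.2).1 (hX _ x.2).2
        fun v _ hv => conv _ x.2 _ y.2 _ hv (Finset.erase_subset _ _)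

theorem DG_congr (hL : Cx r L) (h : Agree r L c c') (hσ : σ ∈ L) (hρ : ρ ∈ L) :
    DG r c σ ρ = DG r c' σ ρ := by
  unfold DG
  by_cases h0 : Dz r σ ρ = 0
  · rw [h0, MonoidAlgebra.single_zero, MonoidAlgebra.single_zero]
  · have s1 := sxa2_sub h0
    have b1 := sxa2_bt hL hσ
    have b2 := sxa2_bt hL hρ
    rw [h _ _ (hL.down _ hσ _ ?_ (Finset.insert_nonempty _ _)) (b1.2 _ (s1 b2.1))]
    exact Finset.insert_subset b1.1 (Finset.singleton_subset_iff.2 (s1 b2.1))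

theorem DG_gau (g : α → Γ) : DG r (gau g c) σ ρ =
    MonoidAlgebra.single (g (bt r σ)) 1 * DG r c σ ρ *
      MonoidAlgebra.single (g (bt r ρ))⁻¹ 1 := by
  unfold DG gau
  rw [MonoidAlgebra.single_mul_single, MonoidAlgebra.single_mul_single, one_mul, mul_one]

/-- The degree of a simplex rises by one. -/
theorem gr_DG (X Y : Finset (Finset α)) :
    Gr (fun x : ↥X => (x.1.card : ℤ) - 1) (fun x : ↥Y => (x.1.card : ℤ) - 1) 1
      (rs X Y (DG r c)) := by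
  intro x y hxy
  obtain ⟨v, hv, e⟩ := Dz_ne (sxa2_ne (c := c) hxy)
  have h1 := Finset.card_erase_add_one hv
  rw [← e] at h1
  change (x.1.card : ℤ) - 1 = (y.1.card : ℤ) - 1 + 1
  omega

/-- Simplices outside a subcomplex span a sub-block. -/
theorem sub_DG (hK : Cx r K) (hX : ∀ σ ∈ X, σ.Nonempty) :
    Sub (rs X X (DG r c)) (fun x => x.1 ∉ K) := by
  intro x y hxy hy hx
  exact hy (hK.down _ hx _ (sxa2_sub (sxa2_ne (c := c) hxy)) (hX _ y.2))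

/-- Blocks of restricted matrices are restricted matrices. -/
theorem gd_blk_rs {ι Λ F : Type} [DecidableEq ι] [Ring Λ] [Field F] {Φ : Set (Λ →+* F)}
    {X Y : Finset ι} {p : ι → Bool} {M : ι → ι → Λ} (q : ↥X → Prop) [DecidablePred q]
    (h : ∀ x, x ∈ Y ↔ ∃ hx : x ∈ X, q ⟨x, hx⟩) :
    Gd l Φ (fun x : {x // q x} => p x.1.1) (blk (rs X X M) q) ↔
      Gd l Φ (fun x : ↥Y => p x.1) (rs Y Y M) := by
  let e : ↥Y ≃ {x // q x} :=
    { toFun := fun y => ⟨⟨y.1, ((h y.1).1 y.2).1⟩, ((h y.1).1 y.2).2⟩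
      invFun := fun x => ⟨x.1.1, (h x.1.1).2 ⟨x.1.2, x.2⟩⟩
      left_inv := fun _ => rfl
      right_inv := fun _ => rfl }
  exact ⟨fun g => g.of_equiv e (fun _ => rfl) fun _ _ => rfl,
    fun g => g.of_equiv e.symm (fun _ => rfl) fun _ _ => rfl⟩

end Pool.Agent.Lib.MP_5ceaf9_gt
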