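import Pool.Agent.Lib.MP_5ceaf9_gt.SxA2

/-! The calculus of flat cocycles. -/

noncomputable section

namespace Pool.Agent.Lib.MP_5ceaf9_gt

open Classical Function

variable {α β : Type} [DecidableEq α] [DecidableEq β] [Nonempty α] [Nonempty β]
  {r : α → α → Prop} {r' : β → β → Prop} {l : ℕ}

variable {K L M : Finset (Finset α)}

omit [Nonempty α] in
theorem sxb_l (hK : Cx r K) {a b : α} (h : ({a, b} : Finset α) ∈ K) : ({a} : Finset α) ∈ K :=
  hK.down _ h _ (by simp) (by simp)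

omit [Nonempty α] in
theorem sxb_r (hK : Cx r K) {a b : α} (h : ({a, b} : Finset α) ∈ K) : ({b} : Finset α) ∈ K :=
  hK.down _ h _ (by simp) (by simp)

omit [DecidableEq α] [Nonempty α] in
theorem sxb_gau {Γ : Type} [Group Γ] (g g' : α → Γ) (c : α → α → Γ) :
    gau g' (gau g c) = gau (fun a => g' a * g a) c := by
  funext a b
  simp only [gau, mul_inv_rev, mul_assoc]

/-- A union of components of `K` extends to a union of components of `L`. -/
theorem sxb_trick (cK : Cx r K) (h : Eq1 r K L) (T : Set α)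
    (hT : ∀ a b, ({a, b} : Finset α) ∈ K → r a b → (a ∈ T ↔ b ∈ T)) :
    ∃ T' : Set α, (∀ a b, ({a, b} : Finset α) ∈ L → r a b → (a ∈ T' ↔ b ∈ T')) ∧
      ∀ a, ({a} : Finset α) ∈ K → (a ∈ T' ↔ a ∈ T) := by
  have h1 : Flat r L (fun _ _ => (1 : ℤˣ)) := fun _ _ _ _ _ _ => one_mul _
  obtain ⟨g, hg⟩ : ∃ g : α → ℤˣ, g = fun a => if a ∈ T then 1 else -1 := ⟨_, rfl⟩
  obtain ⟨g', k1, k2⟩ := h.uniq ℤˣ _ _ (h1.gau g) h1 fun a b hab hr => by
    simp only [gau, hg, hT a b hab hr, mul_one, mul_inv_cancel]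
  rw [sxb_gau] at k2
  refine ⟨{a | g' a * g a = 1}, fun a b hab hr => ?_, fun a ha => ?_⟩
  · have e := k2 a b hab hr
    simp only [gau, mul_one, mul_inv_eq_one] at e
    simp only [Set.mem_ofPred_eq, e]
  · simp only [Set.mem_ofPred_eq, k1 a ha, one_mul, hg]
    split_ifs with hT'
    · simp [hT']
    · simp [hT']

theorem Eq1.refl (hK : Cx r K) : Eq1 r K K := by
  refine ⟨fun Γ _ c hc => ⟨c, hc, fun _ _ _ _ => rfl⟩, fun Γ _ c c' _ _ h => ⟨fun _ => 1,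
    fun _ _ => rfl, fun a b hab hr => ?_⟩, fun T h _ => h⟩
  simpa only [gau, one_mul, inv_one, mul_one] using h a b hab hr

theorem Eq1.trans (cK : Cx r K) (cL : Cx r L) (cM : Cx r M) (hKL : K ⊆ L) (hLM : L ⊆ M)
    (h1 : Eq1 r K L) (h2 : Eq1 r L M) : Eq1 r K M := by
  refine ⟨fun Γ _ c hc => ?_, fun Γ _ c c' hc hc' h => ?_, fun T k1 k2 => ?_⟩
  · obtain ⟨c', k1, k2⟩ := h1.ext Γ c hc
    obtain ⟨c'', k3, k4⟩ := h2.ext Γ c' k1
    exact ⟨c'', k3, fun a b hab hr => (k2 a b hab hr).trans (k4 a b (hKL hab) hr)⟩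
  · obtain ⟨g, k1, k2⟩ := h1.uniq Γ c c' (hc.mono hLM) (hc'.mono hLM) h
    obtain ⟨g', k3, k4⟩ := h2.uniq Γ _ c' (hc.gau g) hc' k2
    rw [sxb_gau] at k4
    exact ⟨_, fun a ha => by rw [k1 a ha, k3 a (hKL ha), one_mul], k4⟩
  · exact h2.conn T (h1.conn T k1 fun a b hab => k2 a b (hLM hab)) k2

/-- For `conn`: given `T`, use the cocycle trick below with `Γ = Multiplicative (ZMod 2)`. The
indicator `g` of the complement of `T` on the vertices of `L` (one elsewhere) is locally constant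
on `L`; `gau g 1` and `1` agree on `L`, so `h2.uniq` extends it to a locally constant function
on `M`, which is trivial on `K`, hence trivial by `h.conn`. -/
theorem Eq1.left (cK : Cx r K) (cL : Cx r L) (cM : Cx r M) (hKL : K ⊆ L) (hLM : L ⊆ M)
    (h : Eq1 r K M) (h2 : Eq1 r L M) : Eq1 r K L := by
  refine ⟨fun Γ _ c hc => ?_, fun Γ _ c c' hc hc' k => ?_, fun T k1 k2 a ha => ?_⟩
  · obtain ⟨c', k1, k2⟩ := h.ext Γ c hc
    exact ⟨c', k1.mono hLM, k2⟩
  · obtain ⟨d, k1, k2⟩ := h2.ext Γ c hc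
    obtain ⟨d', k3, k4⟩ := h2.ext Γ c' hc'
    obtain ⟨g, k5, k6⟩ := h.uniq Γ d d' k1 k3 fun a b hab hr => by
      rw [← k2 a b (hKL hab) hr, ← k4 a b (hKL hab) hr, k a b hab hr]
    refine ⟨g, k5, fun a b hab hr => ?_⟩
    rw [k4 a b hab hr, ← k6 a b (hLM hab) hr]
    simp only [gau, k2 a b hab hr]
  · obtain ⟨T', k3, k4⟩ := sxb_trick cL h2 T k2
    exact (k4 a ha).1 (h.conn T' (fun b hb => (k4 b (hKL hb)).2 (k1 b hb)) k3 a (hLM ha))

theorem Eq1.right (cK : Cx r K) (cL : Cx r L) (cM : Cx r M) (hKL : K ⊆ L) (hLM : L ⊆ M)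
    (h : Eq1 r K M) (h1 : Eq1 r K L) : Eq1 r L M := by
  refine ⟨fun Γ _ c hc => ?_, fun Γ _ c c' hc hc' k => ?_, fun T k1 k2 => ?_⟩
  · obtain ⟨d, k1, k2⟩ := h.ext Γ c (hc.mono hKL)
    obtain ⟨g, -, k3⟩ := h1.uniq Γ d c (k1.mono hLM) hc fun a b hab hr => (k2 a b hab hr).symm
    exact ⟨gau g d, k1.gau g, fun a b hab hr => (k3 a b hab hr).symm⟩
  · obtain ⟨g, k1, k2⟩ := h.uniq Γ c c' hc hc' fun a b hab => k a b (hKL hab)
    refine ⟨g, h1.conn {a | g a = 1} k1 fun a b hab hr => ?_, k2⟩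
    have e := k2 a b (hLM hab) hr
    rw [← k a b hab hr] at e
    simp only [gau] at e
    refine ⟨fun k3 => ?_, fun k3 => ?_⟩
    · change g a = 1 at k3
      change g b = 1
      simpa [k3] using e
    · change g b = 1 at k3
      change g a = 1
      simpa [k3] using e
  · exact h.conn T (fun a ha => k1 a (hKL ha)) k2

theorem Eq1.conn_iff (cK : Cx r K) (cL : Cx r L) (hKL : K ⊆ L) (h : Eq1 r K L) :
    Conn r K ↔ Conn r L := by
  constructor
  · rintro ⟨⟨a₀, h₀⟩, hc⟩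
    refine ⟨⟨a₀, hKL h₀⟩, fun T k1 ⟨a, ha, haT⟩ => h.conn T (hc T (fun a b hab => k1 a b (hKL hab)) ?_) k1⟩
    by_contra k2
    exact h.conn Tᶜ (fun b hb hbT => k2 ⟨b, hb, hbT⟩) (fun a b hab hr => not_congr (k1 a b hab hr))
      a ha haT
  · rintro ⟨⟨a₀, h₀⟩, hc⟩
    refine ⟨?_, fun T k1 ⟨a, ha, haT⟩ b hb => ?_⟩
    · by_contra k2
      exact h.conn ∅ (fun b hb => k2 ⟨b, hb⟩) (fun _ _ _ _ => Iff.rfl) a₀ h₀
    · obtain ⟨T', k3, k4⟩ := sxb_trick cK h T k1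
      exact (k4 b hb).1 (hc T' k3 ⟨a, hKL ha, (k4 a ha).2 haT⟩ b (hKL hb))

/-- Gauge equivalence by a gauge with values in a normal subgroup can be tested on `K`. -/
theorem Eq1.geq_iff (cK : Cx r K) (cL : Cx r L) (hKL : K ⊆ L) (h : Eq1 r K L) {Γ : Type}
    [Group Γ] (H : Subgroup Γ) [H.Normal] {c c' : α → α → Γ} (hc : Flat r L c)
    (hc' : Flat r L c')
    (hH : ∀ a b, ({a, b} : Finset α) ∈ L → r a b → c a b * (c' a b)⁻¹ ∈ H) :
    (∃ g : α → Γ, (∀ a, g a ∈ H) ∧ Agree r K (gau g c) c') ↔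
      ∃ g : α → Γ, (∀ a, g a ∈ H) ∧ Agree r L (gau g c) c' := by
  refine ⟨fun ⟨g, k1, k2⟩ => ?_, fun ⟨g, k1, k2⟩ => ⟨g, k1, fun a b hab => k2 a b (hKL hab)⟩⟩
  obtain ⟨g', k3, k4⟩ := h.uniq Γ _ c' (hc.gau g) hc' k2
  rw [sxb_gau] at k4
  obtain ⟨k, hk⟩ : ∃ k : α → Γ, k = fun a => g' a * g a := ⟨_, rfl⟩
  rw [← hk] at k4
  have hN : H.Normal := inferInstance
  have k5 := h.conn {a | k a ∈ H} (fun a ha => by
    simpa only [Set.mem_ofPred_eq, hk, k3 a ha, one_mul] using k1 a) fun a b hab hr => by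
      have e := k4 a b hab hr
      have e' := hH a b hab hr
      simp only [gau] at e
      refine ⟨fun k6 => ?_, fun k6 => ?_⟩
      · have e2 : k b = (c' a b)⁻¹ * (k a * (c a b * (c' a b)⁻¹)) * c' a b := by
          rw [← e]
          group
        change k b ∈ H
        rw [e2]
        exact hN.conj_mem' _ (H.mul_mem k6 e') _
      · have e2 : k a = c' a b * k b * (c' a b)⁻¹ * (c a b * (c' a b)⁻¹)⁻¹ := by
          rw [← e]
          group
        change k a ∈ H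
        rw [e2]
        exact H.mul_mem (hN.conj_mem _ k6 _) (H.inv_mem e')
  refine ⟨fun a => if ({a} : Finset α) ∈ L then k a else 1, fun a => ?_, fun a b hab hr => ?_⟩
  · by_cases ha : ({a} : Finset α) ∈ L
    · simp only [if_pos ha]
      exact k5 a ha
    · simp only [if_neg ha]
      exact H.one_mem
  · rw [← k4 a b hab hr]
    simp only [gau, if_pos (sxb_l cL hab), if_pos (sxb_r cL hab)]

theorem Eq1.swap (cK : Cx r K) (cL : Cx r L) (h : Eq1 r K L) : Eq1 (swap r) K L := by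
  refine ⟨fun Γ _ c hc => ?_, fun Γ _ c c' hc hc' k => ?_, fun T k1 k2 => ?_⟩
  · obtain ⟨c', k1, k2⟩ := h.ext Γ (cop c) (Flat.cop cK.swap hc)
    refine ⟨cop c', k1.cop cL, fun a b hab hr => ?_⟩
    have e := k2 b a (Finset.pair_comm a b ▸ hab) hr
    simp only [cop, ← e, inv_inv]
  · obtain ⟨g, k1, k2⟩ := h.uniq Γ (cop c) (cop c') (Flat.cop cL.swap hc) (Flat.cop cL.swap hc')
      fun a b hab hr => congrArg (·⁻¹) (k b a (Finset.pair_comm a b ▸ hab) hr)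
    refine ⟨g, k1, fun a b hab hr => ?_⟩
    have e := congrArg (·⁻¹) (k2 b a (Finset.pair_comm a b ▸ hab) hr)
    simpa only [gau, cop, mul_inv_rev, inv_inv, mul_assoc] using e
  · exact h.conn T k1 fun a b hab hr => (k2 b a (Finset.pair_comm a b ▸ hab) hr).symm

end Pool.Agent.Lib.MP_5ceaf9_gt
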