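import Pool.Agent.Lib.MP_5ceaf9_gt.SxC

/-! Reversal of the order. -/

noncomputable section

namespace Pool.Agent.Lib.MP_5ceaf9_gt

open Classical Function

variable {α β : Type} [DecidableEq α] [DecidableEq β] [Nonempty α] [Nonempty β]
  {r : α → α → Prop} {r' : β → β → Prop} {l : ℕ}

variable {K L : Finset (Finset α)} {A B σ ρ : Finset α} {Γ : Type} [Group Γ] {c : α → α → Γ}

/-- The gauge that turns cochains for `r` into cochains for the opposite order. -/
def Gop (r : α → α → Prop) (c : α → α → Γ) (σ : Finset α) : ZG Γ :=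
  MonoidAlgebra.single (c (bt r σ) (bt (swap r) σ))⁻¹ (eps σ)

theorem sg_swap (h : POn r σ) (ht : Tot r σ) {v : α} (hv : v ∈ σ) :
    sg (swap r) σ v = (-1) ^ (σ.card - 1) * sg r σ v := by
  have e : (σ.filter fun u => r u v ∧ u ≠ v).card + (σ.filter fun u => swap r u v ∧ u ≠ v).card =
      σ.card - 1 := by
    rw [← Finset.card_erase_of_mem hv, ← Finset.card_union_of_disjoint]
    · congr 1
      ext u
      simp only [Finset.mem_union, Finset.mem_filter, Finset.mem_erase, swap]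
      constructor
      · rintro (h1 | h1) <;> exact ⟨h1.2.2, h1.1⟩
      · rintro ⟨h1, h2⟩
        exact (ht u h2 v hv).imp (fun h3 => ⟨h2, h3, h1⟩) fun h3 => ⟨h2, h3, h1⟩
    · refine Finset.disjoint_left.2 fun u h1 h2 => ?_
      rw [Finset.mem_filter] at h1 h2
      exact h1.2.2 (h.anti u h1.1 v hv h1.2.1 h2.2.1)
  rw [← e, sg, sg, pow_add, mul_right_comm, ← mul_pow]
  simp

theorem eps_erase {v : α} (hv : v ∈ σ) : eps σ = (-1) ^ (σ.card - 1) * eps (σ.erase v) := by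
  rw [eps, eps, Finset.card_erase_of_mem hv, ← pow_add]
  obtain ⟨n, hn⟩ : ∃ n, σ.card = n + 1 :=
    Nat.exists_eq_succ_of_ne_zero (Finset.card_ne_zero_of_mem hv)
  rw [hn, Nat.add_sub_cancel, Nat.choose_succ_succ' n 1, Nat.choose_one_right]

theorem eps_mul_self : eps σ * eps σ = 1 := by
  rw [eps, ← mul_pow]
  simp

theorem DG_swap (hL : Cx r L) (hc : Flat r L c) (hσ : σ ∈ L) (hρ : ρ ∈ L) :
    DG (swap r) (cop c) σ ρ * Gop r c ρ = Gop r c σ * DG r c σ ρ := by
  rw [DG, DG, Gop, Gop, MonoidAlgebra.single_mul_single, MonoidAlgebra.single_mul_single]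
  by_cases h : ∃ v ∈ σ, ρ = σ.erase v
  · obtain ⟨v, hv, rfl⟩ := h
    have hs := Finset.erase_subset v σ
    obtain ⟨a1, a2⟩ := bt_spec (hL.po σ hσ) (hL.tot σ hσ) (hL.ne σ hσ)
    obtain ⟨b1, b2⟩ := bt_spec (hL.po _ hρ) (hL.tot _ hρ) (hL.ne _ hρ)
    obtain ⟨c1, c2⟩ := bt_spec (hL.swap.po σ hσ) (hL.swap.tot σ hσ) (hL.ne σ hσ)
    obtain ⟨d1, -⟩ := bt_spec (hL.swap.po _ hρ) (hL.swap.tot _ hρ) (hL.ne _ hρ)
    have e1 := hc.mul hL hσ (hs b1) (hs d1) c1 (b2 _ d1) (c2 _ (hs d1))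
    have e2 := hc.mul hL hσ a1 (hs b1) c1 (a2 _ (hs b1)) (c2 _ (hs b1))
    rw [Dz_erase hv, Dz_erase hv, sg_swap (hL.po σ hσ) (hL.tot σ hσ) hv, eps_erase hv, cop, ← e2,
      ← e1, mul_inv_rev, mul_inv_rev, inv_mul_cancel_right, mul_right_comm]
  · have h1 : Dz r σ ρ = 0 := by_contra fun h1 => h (Dz_ne h1)
    have h2 : Dz (swap r) σ ρ = 0 := by_contra fun h2 => h (Dz_ne h2)
    rw [h1, h2, zero_mul, mul_zero, MonoidAlgebra.single_zero, MonoidAlgebra.single_zero]

/-- Use `Gd.gauge` and `Gd.sign`; every cocycle is `cop` of a cocycle. -/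
theorem GE.swap (h : GE r l K L) : GE (swap r) l K L := by
  refine ⟨h.cK.swap, h.cL.swap, h.sub, h.eq1.swap h.cK h.cL, fun Γ _ c hc => ?_⟩
  have hc' : Flat r L (cop c) := hc.cop h.cL.swap
  have e : cop (cop c) = c := by
    funext a b
    exact inv_inv _
  refine (((h.gd Γ _ hc').gauge fun x => (cop c (bt r x.1) (bt (Function.swap r) x.1))⁻¹).sign
    (fun x => eps x.1) fun _ => eps_mul_self).of_equiv (Equiv.refl _) (fun _ => rfl) fun x y => ?_
  have h1 := congrArg (· * MonoidAlgebra.single (cop c (bt r y.1) (bt (Function.swap r) y.1))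
    (eps y.1)) (DG_swap h.cL hc' (Finset.mem_sdiff.1 x.2).1 (Finset.mem_sdiff.1 y.2).1)
  simp only [e, Gop] at h1
  rw [mul_assoc, MonoidAlgebra.single_mul_single, inv_mul_cancel, eps_mul_self,
    ← MonoidAlgebra.one_def, mul_one] at h1
  refine h1.trans ?_
  simp only [Matrix.of_apply, Equiv.refl_apply, rs, DG, MonoidAlgebra.single_mul_single,
    MonoidAlgebra.smul_single, inv_inv, smul_eq_mul]
  congr 1
  ring

theorem GP.swap (h : GP r l A B) : GP (swap r) l A B := by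
  refine ⟨h.1.swap, h.2.1, ?_⟩
  rw [OC_swap (r := r), OC_swap (r := r)]
  exact h.2.2.swap

theorem CT.swap (h : CT r l A) : CT (swap r) l A := by
  obtain ⟨a, ha, h1⟩ := h
  exact ⟨a, ha, h1.swap⟩

theorem Conn.swap (h : Conn r K) : Conn (swap r) K := by
  exact ⟨h.1, fun T hT => h.2 T fun a b hab hr =>
    (hT b a (by rwa [Finset.pair_comm]) hr).symm⟩

end Pool.Agent.Lib.MP_5ceaf9_gt
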