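import Pool.Agent.Lib.MP_5ceaf9_gt.SxD

/-! Transport along order embeddings. -/

noncomputable section

namespace Pool.Agent.Lib.MP_5ceaf9_gt

open Classical Function

variable {α β : Type} [DecidableEq α] [DecidableEq β] [Nonempty α] [Nonempty β]
  {r : α → α → Prop} {r' : β → β → Prop} {l : ℕ}

variable {K L : Finset (Finset α)} {A B σ ρ : Finset α} {f : α → β}

/-- `f` embeds the complex `L` with its order. -/
structure Emb (r : α → α → Prop) (r' : β → β → Prop) (L : Finset (Finset α)) (f : α → β) :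
    Prop where
  inj : ∀ a b, ({a} : Finset α) ∈ L → ({b} : Finset α) ∈ L → f a = f b → a = b
  rel : ∀ σ ∈ L, ∀ a ∈ σ, ∀ b ∈ σ, (r' (f a) (f b) ↔ r a b)

/-- The image of a complex. -/
def im (f : α → β) (K : Finset (Finset α)) : Finset (Finset β) := K.image (fun σ => σ.image f)

omit [DecidableEq α] [Nonempty α] [Nonempty β] in
theorem sxe_pon (hr : ∀ a ∈ B, ∀ b ∈ B, (r' (f a) (f b) ↔ r a b)) (h : POn r B) :
    POn r' (B.image f) := by
  refine ⟨fun x hx => ?_, fun x hx y hy h1 h2 => ?_, fun x hx y hy z hz h1 h2 => ?_⟩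
  · obtain ⟨a, ha, rfl⟩ := Finset.mem_image.1 hx
    exact (hr a ha a ha).2 (h.refl a ha)
  · obtain ⟨a, ha, rfl⟩ := Finset.mem_image.1 hx
    obtain ⟨b, hb, rfl⟩ := Finset.mem_image.1 hy
    exact congrArg f (h.anti a ha b hb ((hr a ha b hb).1 h1) ((hr b hb a ha).1 h2))
  · obtain ⟨a, ha, rfl⟩ := Finset.mem_image.1 hx
    obtain ⟨b, hb, rfl⟩ := Finset.mem_image.1 hy
    obtain ⟨d, hd, rfl⟩ := Finset.mem_image.1 hz
    exact (hr a ha d hd).2 (h.trans a ha b hb d hd ((hr a ha b hb).1 h1) ((hr b hb d hd).1 h2))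

omit [DecidableEq α] [Nonempty α] [Nonempty β] in
theorem sxe_tot (hr : ∀ a ∈ B, ∀ b ∈ B, (r' (f a) (f b) ↔ r a b)) :
    Tot r' (B.image f) ↔ Tot r B := by
  constructor
  · intro h a ha b hb
    exact (h _ (Finset.mem_image_of_mem f ha) _ (Finset.mem_image_of_mem f hb)).imp
      (hr a ha b hb).1 (hr b hb a ha).1
  · intro h x hx y hy
    obtain ⟨a, ha, rfl⟩ := Finset.mem_image.1 hx
    obtain ⟨b, hb, rfl⟩ := Finset.mem_image.1 hy
    exact (h a ha b hb).imp (hr a ha b hb).2 (hr b hb a ha).2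

omit [DecidableEq α] [Nonempty α] in
theorem sxe_vert (hL : Cx r L) (hσ : σ ∈ L) : ∀ a ∈ σ, ({a} : Finset α) ∈ L := fun a ha =>
  hL.down σ hσ _ (Finset.singleton_subset_iff.2 ha) (Finset.singleton_nonempty a)

omit [DecidableEq α] [DecidableEq β] [Nonempty α] [Nonempty β] in
theorem sxe_injOn (h : Emb r r' L f) (hL : Cx r L) (hσ : σ ∈ L) : Set.InjOn f σ :=
  fun a ha b hb e => h.inj a b (sxe_vert hL hσ a ha) (sxe_vert hL hσ b hb) e

omit [DecidableEq α] [Nonempty α] [Nonempty β] in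
theorem sxe_inj (h : Emb r r' L f) (hσ : ∀ a ∈ σ, ({a} : Finset α) ∈ L)
    (hρ : ∀ a ∈ ρ, ({a} : Finset α) ∈ L) (e : σ.image f = ρ.image f) : σ = ρ := by
  ext a
  constructor
  · intro ha
    obtain ⟨b, hb, e'⟩ := Finset.mem_image.1 (e ▸ Finset.mem_image_of_mem f ha)
    exact h.inj b a (hρ b hb) (hσ a ha) e' ▸ hb
  · intro ha
    obtain ⟨b, hb, e'⟩ := Finset.mem_image.1 (e.symm ▸ Finset.mem_image_of_mem f ha)
    exact h.inj b a (hσ b hb) (hρ a ha) e' ▸ hb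

theorem Emb.mono (h : Emb r r' L f) (hKL : K ⊆ L) : Emb r r' K f := by
  exact ⟨fun a b ha hb => h.inj a b (hKL ha) (hKL hb), fun σ hσ => h.rel σ (hKL hσ)⟩

theorem Emb.cx (h : Emb r r' L f) (hL : Cx r L) : Cx r' (im f L) := by
  refine ⟨fun τ hτ => ?_, fun τ hτ ρ' hρ hn => ?_, fun τ hτ => ?_, fun τ hτ => ?_⟩
  · obtain ⟨σ, hσ, rfl⟩ := Finset.mem_image.1 hτ
    exact (hL.ne σ hσ).image f
  · obtain ⟨σ, hσ, rfl⟩ := Finset.mem_image.1 hτ
    obtain ⟨ρ, h1, rfl⟩ := Finset.subset_image_iff.1 hρ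
    exact Finset.mem_image_of_mem _ (hL.down σ hσ ρ h1 (Finset.image_nonempty.1 hn))
  · obtain ⟨σ, hσ, rfl⟩ := Finset.mem_image.1 hτ
    exact sxe_pon (h.rel σ hσ) (hL.po σ hσ)
  · obtain ⟨σ, hσ, rfl⟩ := Finset.mem_image.1 hτ
    exact (sxe_tot (h.rel σ hσ)).2 (hL.tot σ hσ)

theorem Emb.image_inj (h : Emb r r' L f) (hL : Cx r L) (hσ : σ ∈ L) (hρ : ρ ∈ L)
    (e : σ.image f = ρ.image f) : σ = ρ := by
  exact sxe_inj h (sxe_vert hL hσ) (sxe_vert hL hρ) e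

theorem Emb.card (h : Emb r r' L f) (hL : Cx r L) (hσ : σ ∈ L) : (σ.image f).card = σ.card := by
  exact Finset.card_image_of_injOn (sxe_injOn h hL hσ)

theorem Emb.bt (h : Emb r r' L f) (hL : Cx r L) (hσ : σ ∈ L) :
    bt r' (σ.image f) = f (bt r σ) := by
  obtain ⟨h1, h2⟩ := bt_spec (hL.po σ hσ) (hL.tot σ hσ) (hL.ne σ hσ)
  refine bt_eq (sxe_pon (h.rel σ hσ) (hL.po σ hσ)) (Finset.mem_image_of_mem f h1) fun u hu => ?_
  obtain ⟨a, ha, rfl⟩ := Finset.mem_image.1 hu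
  exact (h.rel σ hσ _ h1 a ha).2 (h2 a ha)

theorem Emb.sg (h : Emb r r' L f) (hL : Cx r L) (hσ : σ ∈ L) {v : α} (hv : v ∈ σ) :
    sg r' (σ.image f) (f v) = sg r σ v := by
  have hi := sxe_injOn h hL hσ
  unfold Lib.MP_5ceaf9_gt.sg
  rw [Finset.filter_image, Finset.card_image_of_injOn
    (hi.mono (Finset.coe_subset.2 (Finset.filter_subset _ _)))]
  refine congrArg (fun t : Finset α => (-1 : ℤ) ^ t.card) (Finset.filter_congr fun u hu => ?_)
  exact and_congr (h.rel σ hσ u hu v hv) (not_congr ⟨fun e => hi hu hv e, congrArg f⟩)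

theorem Emb.Dz (h : Emb r r' L f) (hL : Cx r L) (hσ : σ ∈ L) (hρ : ρ ∈ L) :
    Dz r' (σ.image f) (ρ.image f) = Dz r σ ρ := by
  have hi := sxe_injOn h hL hσ
  unfold Lib.MP_5ceaf9_gt.Dz
  rw [Finset.sum_image hi]
  refine Finset.sum_congr rfl fun v hv => ?_
  have e : (σ.image f).erase (f v) = (σ.erase v).image f := by
    ext y
    simp only [Finset.mem_erase, Finset.mem_image]
    constructor
    · rintro ⟨h1, a, ha, rfl⟩
      exact ⟨a, ⟨fun e => h1 (congrArg f e), ha⟩, rfl⟩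
    · rintro ⟨a, ⟨h1, ha⟩, rfl⟩
      exact ⟨fun e => h1 (hi ha hv e), a, ha, rfl⟩
  rw [e, h.sg hL hσ hv]
  refine if_congr ⟨fun e' => sxe_inj h (sxe_vert hL hρ)
    (fun a ha => sxe_vert hL hσ a (Finset.mem_of_mem_erase ha)) e', fun e' => by rw [e']⟩ rfl rfl

theorem Emb.flat (h : Emb r r' L f) (hL : Cx r L) {Γ : Type} [Group Γ] {c : β → β → Γ} :
    Flat r' (im f L) c ↔ Flat r L (fun a b => c (f a) (f b)) := by
  constructor
  · intro hc a b d hm hab hbd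
    refine hc (f a) (f b) (f d) ?_ ((h.rel _ hm a (by simp) b (by simp)).2 hab)
      ((h.rel _ hm b (by simp) d (by simp)).2 hbd)
    exact Finset.mem_image.2 ⟨_, hm, by simp⟩
  · intro hc x y z hm hxy hyz
    obtain ⟨σ, hσ, e⟩ := Finset.mem_image.1 hm
    obtain ⟨a, ha, rfl⟩ := Finset.mem_image.1 (show x ∈ σ.image f by rw [e]; simp)
    obtain ⟨b, hb, rfl⟩ := Finset.mem_image.1 (show y ∈ σ.image f by rw [e]; simp)
    obtain ⟨d, hd, rfl⟩ := Finset.mem_image.1 (show z ∈ σ.image f by rw [e]; simp)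
    refine hc a b d (hL.down σ hσ _ ?_ (by simp)) ((h.rel σ hσ a ha b hb).1 hxy)
      ((h.rel σ hσ b hb d hd).1 hyz)
    simp only [Finset.insert_subset_iff, Finset.singleton_subset_iff]
    exact ⟨ha, hb, hd⟩

theorem Emb.agree (h : Emb r r' L f) (hL : Cx r L) {T : Type} {c c' : β → β → T} :
    Agree r' (im f L) c c' ↔
      Agree r L (fun a b => c (f a) (f b)) (fun a b => c' (f a) (f b)) := by
  constructor
  · intro hc a b hm hab
    refine hc (f a) (f b) ?_ ((h.rel _ hm a (by simp) b (by simp)).2 hab)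
    exact Finset.mem_image.2 ⟨_, hm, by simp⟩
  · intro hc x y hm hxy
    obtain ⟨σ, hσ, e⟩ := Finset.mem_image.1 hm
    obtain ⟨a, ha, rfl⟩ := Finset.mem_image.1 (show x ∈ σ.image f by rw [e]; simp)
    obtain ⟨b, hb, rfl⟩ := Finset.mem_image.1 (show y ∈ σ.image f by rw [e]; simp)
    refine hc a b (hL.down σ hσ _ ?_ (by simp)) ((h.rel σ hσ a ha b hb).1 hxy)
    simp only [Finset.insert_subset_iff, Finset.singleton_subset_iff]
    exact ⟨ha, hb⟩

/-- A left inverse on the vertices. -/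
theorem Emb.exists_inv (h : Emb r r' L f) :
    ∃ g : β → α, ∀ a, ({a} : Finset α) ∈ L → g (f a) = a := by
  have hi : Set.InjOn f {a | ({a} : Finset α) ∈ L} := fun a ha b hb e => h.inj a b ha hb e
  exact ⟨invFunOn f {a | ({a} : Finset α) ∈ L}, fun a ha => hi.leftInvOn_invFunOn ha⟩

theorem emb_OC (hinj : Set.InjOn f B) (hr : ∀ a ∈ B, ∀ b ∈ B, (r' (f a) (f b) ↔ r a b))
    (hB : POn r B) : Emb r r' (OC r B) f := by
  exact ⟨fun a b ha hb e => hinj ((single_mem_OC hB).1 ha) ((single_mem_OC hB).1 hb) e,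
    fun σ hσ a ha b hb => hr a ((mem_OC.1 hσ).1 ha) b ((mem_OC.1 hσ).1 hb)⟩

theorem OC_image (hinj : Set.InjOn f B) (hr : ∀ a ∈ B, ∀ b ∈ B, (r' (f a) (f b) ↔ r a b)) :
    OC r' (B.image f) = im f (OC r B) := by
  have _ := hinj
  ext τ
  rw [mem_OC, im, Finset.mem_image]
  constructor
  · rintro ⟨h1, h2, h3⟩
    obtain ⟨σ, h4, rfl⟩ := Finset.subset_image_iff.1 h1
    exact ⟨σ, mem_OC.2 ⟨h4, Finset.image_nonempty.1 h2,
      (sxe_tot fun a ha b hb => hr a (h4 ha) b (h4 hb)).1 h3⟩, rfl⟩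
  · rintro ⟨σ, hσ, rfl⟩
    obtain ⟨h4, h2, h3⟩ := mem_OC.1 hσ
    exact ⟨Finset.image_subset_image h4, h2.image f,
      (sxe_tot fun a ha b hb => hr a (h4 ha) b (h4 hb)).2 h3⟩

theorem pon_image (hinj : Set.InjOn f B) (hr : ∀ a ∈ B, ∀ b ∈ B, (r' (f a) (f b) ↔ r a b)) :
    POn r' (B.image f) ↔ POn r B := by
  refine ⟨fun h => ⟨fun a ha => ?_, fun a ha b hb h1 h2 => ?_, fun a ha b hb d hd h1 h2 => ?_⟩,
    sxe_pon hr⟩
  · exact (hr a ha a ha).1 (h.refl _ (Finset.mem_image_of_mem f ha))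
  · exact hinj ha hb (h.anti _ (Finset.mem_image_of_mem f ha) _ (Finset.mem_image_of_mem f hb)
      ((hr a ha b hb).2 h1) ((hr b hb a ha).2 h2))
  · exact (hr a ha d hd).1 (h.trans _ (Finset.mem_image_of_mem f ha) _
      (Finset.mem_image_of_mem f hb) _ (Finset.mem_image_of_mem f hd) ((hr a ha b hb).2 h1)
      ((hr b hb d hd).2 h2))

end Pool.Agent.Lib.MP_5ceaf9_gt
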