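import Pool.Agent.Lib.MP_5ceaf9_gt.SxE

/-! Good inclusions and order embeddings. -/

noncomputable section

namespace Pool.Agent.Lib.MP_5ceaf9_gt

open Classical Function

variable {α β : Type} [DecidableEq α] [DecidableEq β] [Nonempty α] [Nonempty β]
  {r : α → α → Prop} {r' : β → β → Prop} {l : ℕ}

variable {K L : Finset (Finset α)} {A B : Finset α} {f : α → β}

omit [DecidableEq α] [Nonempty α] in
theorem sxe2_single (hL : Cx r L) {σ : Finset α} (hσ : σ ∈ L) {a : α} (ha : a ∈ σ) :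
    ({a} : Finset α) ∈ L :=
  hL.down σ hσ _ (Finset.singleton_subset_iff.2 ha) (Finset.singleton_nonempty a)

omit [DecidableEq α] [Nonempty α] [Nonempty β] in
theorem sxe2_vert (hL : Cx r L) {x : β} :
    ({x} : Finset β) ∈ im f L ↔ ∃ a, ({a} : Finset α) ∈ L ∧ f a = x := by
  refine ⟨fun h => ?_, ?_⟩
  · obtain ⟨σ, hσ, e⟩ := Finset.mem_image.1 h
    obtain ⟨a, ha, rfl⟩ := Finset.mem_image.1 (e ▸ Finset.mem_singleton_self x : x ∈ σ.image f)
    exact ⟨a, sxe2_single hL hσ ha, rfl⟩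
  · rintro ⟨a, ha, rfl⟩
    exact Finset.mem_image.2 ⟨{a}, ha, Finset.image_singleton f a⟩

omit [Nonempty α] [Nonempty β] in
theorem sxe2_im_im (hK : Cx r K) {g : β → α} (hg : ∀ a, ({a} : Finset α) ∈ K → g (f a) = a) :
    im g (im f K) = K := by
  unfold im
  rw [Finset.image_image]
  refine (Finset.image_congr (g := id) fun σ hσ => ?_).trans Finset.image_id
  change (σ.image f).image g = σ
  rw [Finset.image_image]
  exact (Finset.image_congr (g := id) fun a ha => hg a (sxe2_single hK hσ ha)).trans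
    Finset.image_id

omit [DecidableEq α] [Nonempty α] [Nonempty β] in
theorem sxe2_inv (h : Emb r r' L f) (hL : Cx r L) {g : β → α}
    (hg : ∀ a, ({a} : Finset α) ∈ L → g (f a) = a) : Emb r' r (im f L) g := by
  refine ⟨fun x y hx hy e => ?_, fun τ hτ x hx y hy => ?_⟩
  · obtain ⟨a, ha, rfl⟩ := (sxe2_vert hL).1 hx
    obtain ⟨b, hb, rfl⟩ := (sxe2_vert hL).1 hy
    rw [hg a ha, hg b hb] at e
    rw [e]
  · obtain ⟨σ, hσ, rfl⟩ := Finset.mem_image.1 hτ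
    obtain ⟨a, ha, rfl⟩ := Finset.mem_image.1 hx
    obtain ⟨b, hb, rfl⟩ := Finset.mem_image.1 hy
    rw [hg a (sxe2_single hL hσ ha), hg b (sxe2_single hL hσ hb)]
    exact (h.rel σ hσ a ha b hb).symm

omit [DecidableEq α] [Nonempty α] [Nonempty β] in
theorem sxe2_mono (hKL : K ⊆ L) : im f K ⊆ im f L := Finset.image_subset_image hKL

omit [DecidableEq β] [Nonempty α] [Nonempty β] in
theorem sxe2_pair (hL : Cx r L) {g : β → α} (hg : ∀ a, ({a} : Finset α) ∈ L → g (f a) = a)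
    {a b : α} (hab : ({a, b} : Finset α) ∈ L) : g (f a) = a ∧ g (f b) = b :=
  ⟨hg a (sxe2_single hL hab (by simp)), hg b (sxe2_single hL hab (by simp))⟩

theorem sxe2_flat (h : Emb r r' L f) (hL : Cx r L) {g : β → α}
    (hg : ∀ a, ({a} : Finset α) ∈ L → g (f a) = a) {Γ : Type} [Group Γ] {c : α → α → Γ}
    (hc : Flat r L c) : Flat r' (im f L) fun x y => c (g x) (g y) :=
  (h.flat hL).2 (hc.of_agree hL fun a b hab _ => by
    rw [(sxe2_pair hL hg hab).1, (sxe2_pair hL hg hab).2])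

theorem sxe2_edge (h : Emb r r' L f) (hL : Cx r L) {g : β → α}
    (hg : ∀ a, ({a} : Finset α) ∈ L → g (f a) = a) {T : Set α}
    (hT : ∀ a b, ({a, b} : Finset α) ∈ L → r a b → (a ∈ T ↔ b ∈ T)) (x y : β)
    (hxy : ({x, y} : Finset β) ∈ im f L) (hr : r' x y) : g x ∈ T ↔ g y ∈ T :=
  iff_of_eq ((h.agree hL (c := fun x _ => g x ∈ T) (c' := fun _ y => g y ∈ T)).2
    (fun a b hab hr => by
      beta_reduce
      rw [(sxe2_pair hL hg hab).1, (sxe2_pair hL hg hab).2]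
      exact propext (hT a b hab hr)) x y hxy hr)

theorem sxe2_eq1 (h : Emb r r' L f) (hK : Cx r K) (hL : Cx r L) (hKL : K ⊆ L)
    (H : Eq1 r' (im f K) (im f L)) : Eq1 r K L := by
  obtain ⟨g, hg⟩ := h.exists_inv
  have hg' : ∀ a, ({a} : Finset α) ∈ K → g (f a) = a := fun a ha => hg a (hKL ha)
  refine ⟨fun Γ _ c hc => ?_, fun Γ _ c c' hc hc' hcc => ?_, fun T hT hE a ha => ?_⟩
  · obtain ⟨c', h1, h2⟩ := H.ext Γ _ (sxe2_flat (h.mono hKL) hK hg' hc)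
    refine ⟨_, (h.flat hL).1 h1, fun a b hab hr => ?_⟩
    have := ((h.mono hKL).agree hK).1 h2 a b hab hr
    beta_reduce at this
    rwa [(sxe2_pair hK hg' hab).1, (sxe2_pair hK hg' hab).2] at this
  · obtain ⟨G, h1, h2⟩ := H.uniq Γ _ _ (sxe2_flat h hL hg hc) (sxe2_flat h hL hg hc')
      (((h.mono hKL).agree hK).2 fun a b hab hr => by
        beta_reduce
        rw [(sxe2_pair hK hg' hab).1, (sxe2_pair hK hg' hab).2]
        exact hcc a b hab hr)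
    refine ⟨fun a => G (f a), fun a ha => h1 _ ((sxe2_vert hK).2 ⟨a, ha, rfl⟩),
      fun a b hab hr => ?_⟩
    have := (h.agree hL).1 h2 a b hab hr
    unfold gau at this ⊢
    beta_reduce at this
    rwa [(sxe2_pair hL hg hab).1, (sxe2_pair hL hg hab).2] at this
  · have := H.conn {x | g x ∈ T} (fun x hx => by
      obtain ⟨b, hb, rfl⟩ := (sxe2_vert hK).1 hx
      change g (f b) ∈ T
      rw [hg' b hb]
      exact hT b hb) (sxe2_edge h hL hg hE) (f a) ((sxe2_vert hL).2 ⟨a, ha, rfl⟩)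
    rwa [Set.mem_ofPred_eq, hg a ha] at this

theorem sxe2_conn (h : Emb r r' L f) (hL : Cx r L) (H : Conn r' (im f L)) : Conn r L := by
  obtain ⟨g, hg⟩ := h.exists_inv
  obtain ⟨⟨x, hx⟩, H⟩ := H
  obtain ⟨b, hb, -⟩ := (sxe2_vert hL).1 hx
  refine ⟨⟨b, hb⟩, fun T hE ⟨d, hd, hdT⟩ a ha => ?_⟩
  have := H {x | g x ∈ T} (sxe2_edge h hL hg hE)
    ⟨f d, (sxe2_vert hL).2 ⟨d, hd, rfl⟩, by rwa [Set.mem_ofPred_eq, hg d hd]⟩ (f a)
    ((sxe2_vert hL).2 ⟨a, ha, rfl⟩)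
  rwa [Set.mem_ofPred_eq, hg a ha] at this

theorem sxe2_ge (h : Emb r r' L f) (hK : Cx r K) (hL : Cx r L) (hKL : K ⊆ L)
    (H : GE r' l (im f K) (im f L)) : GE r l K L := by
  obtain ⟨g, hg⟩ := h.exists_inv
  refine ⟨hK, hL, hKL, sxe2_eq1 h hK hL hKL H.eq1, fun Γ _ c hc => ?_⟩
  have hm : ∀ σ : ↥(L \ K), σ.1.image f ∈ im f L \ im f K := fun σ => by
    obtain ⟨h1, h2⟩ := Finset.mem_sdiff.1 σ.2
    refine Finset.mem_sdiff.2 ⟨Finset.mem_image.2 ⟨σ, h1, rfl⟩, fun h3 => h2 ?_⟩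
    obtain ⟨ρ, hρ, e⟩ := Finset.mem_image.1 h3
    rwa [← h.image_inj hL (hKL hρ) h1 e]
  have hb : Bijective fun σ : ↥(L \ K) => (⟨σ.1.image f, hm σ⟩ : ↥(im f L \ im f K)) := by
    refine ⟨fun σ ρ e => Subtype.ext (h.image_inj hL (Finset.mem_sdiff.1 σ.2).1
      (Finset.mem_sdiff.1 ρ.2).1 (congrArg Subtype.val e)), ?_⟩
    rintro ⟨τ, hτ⟩
    obtain ⟨h1, h2⟩ := Finset.mem_sdiff.1 hτ
    obtain ⟨σ, hσ, rfl⟩ := Finset.mem_image.1 h1
    exact ⟨⟨σ, Finset.mem_sdiff.2 ⟨hσ, fun h3 => h2 (Finset.mem_image.2 ⟨σ, h3, rfl⟩)⟩⟩, rfl⟩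
  have hbt : ∀ σ ∈ L, g (bt r' (σ.image f)) = bt r σ := fun σ hσ => by
    rw [h.bt hL hσ]
    exact hg _ (sxe2_single hL hσ (bt_spec (hL.po σ hσ) (hL.tot σ hσ) (hL.ne σ hσ)).1)
  refine (H.gd Γ _ (sxe2_flat h hL hg hc)).of_equiv (Equiv.ofBijective _ hb) (fun σ => ?_)
    fun σ ρ => ?_
  · change ps σ.1 = ps (σ.1.image f)
    unfold ps
    rw [h.card hL (Finset.mem_sdiff.1 σ.2).1]
  · have h1 := (Finset.mem_sdiff.1 σ.2).1
    have h2 := (Finset.mem_sdiff.1 ρ.2).1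
    change DG r c σ.1 ρ.1 = DG r' (fun x y => c (g x) (g y)) (σ.1.image f) (ρ.1.image f)
    unfold DG
    rw [h.Dz hL h1 h2]
    simp only [hbt _ h1, hbt _ h2]

theorem Emb.eq1 (h : Emb r r' L f) (hK : Cx r K) (hL : Cx r L) (hKL : K ⊆ L) :
    Eq1 r' (im f K) (im f L) ↔ Eq1 r K L := by
  refine ⟨sxe2_eq1 h hK hL hKL, fun H => ?_⟩
  obtain ⟨g, hg⟩ := h.exists_inv
  refine sxe2_eq1 (sxe2_inv h hL hg) ((h.mono hKL).cx hK) (h.cx hL) (sxe2_mono hKL) ?_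
  rwa [sxe2_im_im hK fun a ha => hg a (hKL ha), sxe2_im_im hL hg]

theorem Emb.conn (h : Emb r r' L f) (hL : Cx r L) : Conn r' (im f L) ↔ Conn r L := by
  refine ⟨sxe2_conn h hL, fun H => ?_⟩
  obtain ⟨g, hg⟩ := h.exists_inv
  refine sxe2_conn (sxe2_inv h hL hg) (h.cx hL) ?_
  rwa [sxe2_im_im hL hg]

theorem Emb.ge (h : Emb r r' L f) (hK : Cx r K) (hL : Cx r L) (hKL : K ⊆ L) :
    GE r' l (im f K) (im f L) ↔ GE r l K L := by
  refine ⟨sxe2_ge h hK hL hKL, fun H => ?_⟩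
  obtain ⟨g, hg⟩ := h.exists_inv
  refine sxe2_ge (sxe2_inv h hL hg) ((h.mono hKL).cx hK) (h.cx hL) (sxe2_mono hKL) ?_
  rwa [sxe2_im_im hK fun a ha => hg a (hKL ha), sxe2_im_im hL hg]

theorem gp_image (hinj : Set.InjOn f B) (hr : ∀ a ∈ B, ∀ b ∈ B, (r' (f a) (f b) ↔ r a b))
    (hAB : A ⊆ B) : GP r' l (A.image f) (B.image f) ↔ GP r l A B := by
  unfold GP
  rw [pon_image hinj hr, OC_image hinj hr,
    OC_image (hinj.mono hAB) fun a ha b hb => hr a (hAB ha) b (hAB hb)]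
  refine and_congr_right fun hB => ?_
  rw [(emb_OC hinj hr hB).ge (cx_OC (hB.mono hAB)) (cx_OC hB) (OC_mono hAB)]
  exact and_congr_left fun _ => iff_of_true (Finset.image_subset_image hAB) hAB

theorem ct_image (hinj : Set.InjOn f B) (hr : ∀ a ∈ B, ∀ b ∈ B, (r' (f a) (f b) ↔ r a b)) :
    CT r' l (B.image f) ↔ CT r l B := by
  refine ⟨?_, ?_⟩
  · rintro ⟨x, hx, H⟩
    obtain ⟨a, ha, rfl⟩ := Finset.mem_image.1 hx
    rw [← Finset.image_singleton] at H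
    exact ⟨a, ha, (gp_image hinj hr (Finset.singleton_subset_iff.2 ha)).1 H⟩
  · rintro ⟨a, ha, H⟩
    refine ⟨f a, Finset.mem_image_of_mem f ha, ?_⟩
    rw [← Finset.image_singleton]
    exact (gp_image hinj hr (Finset.singleton_subset_iff.2 ha)).2 H

/-- Change of the relation outside the simplices. -/
theorem GE.congr {s : α → α → Prop} (h : GE r l K L)
    (hr : ∀ σ ∈ L, ∀ a ∈ σ, ∀ b ∈ σ, (s a b ↔ r a b)) : GE s l K L := by
  have he : Emb r s L id := ⟨fun _ _ _ _ e => e, hr⟩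
  have hi : ∀ X : Finset (Finset α), im id X = X := fun X => by simp [im]
  have := (he.ge h.cK h.cL h.sub).2 h
  rwa [hi, hi] at this

end Pool.Agent.Lib.MP_5ceaf9_gt
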