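import Pool.Agent.Lib.MP_5ceaf9_gt.SxE2

/-! Adding one element to a poset. -/

noncomputable section

namespace Pool.Agent.Lib.MP_5ceaf9_gt

open Classical Function

variable {α β : Type} [DecidableEq α] [DecidableEq β] [Nonempty α] [Nonempty β]
  {r : α → α → Prop} {r' : β → β → Prop} {l : ℕ}

variable {A : Finset α} {y : α}

/-- A function that is constant along the order is constant on a connected poset. -/
theorem sxf_const {T : Type} (h : CT r l A) (f : α → T)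
    (hf : ∀ a ∈ A, ∀ b ∈ A, r a b → f a = f b) {a b : α} (ha : a ∈ A) (hb : b ∈ A) : f a = f b :=
  h.conn.2 {x | f x = f b} (fun u v h1 h2 => by
    obtain ⟨h3, h4⟩ := (pair_mem_OC h.po h2).1 h1
    show f u = f b ↔ f v = f b
    rw [hf u h3 v h4 h2])
    ⟨b, (single_mem_OC h.po).2 hb, rfl⟩ a ((single_mem_OC h.po).2 ha)

/-- Trivialise `c` on the lower link by `g` (`CT.triv`), put `c x y = g x`, `c y y = 1`, and for
`z` above `y` put `c y z = (g x)⁻¹ c x z`, which does not depend on `x` by connectedness. -/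
theorem eq1_add (hy : y ∉ A) (hp : POn r (insert y A))
    (h : CT r 0 (A.filter (fun x => r x y))) : Eq1 r (OC r A) (OC r (insert y A)) := by
  have sA : A ⊆ insert y A := Finset.subset_insert y A
  have pA := hp.mono sA
  have my := Finset.mem_insert_self y A
  have ne : ∀ a ∈ A, a ≠ y := fun a ha e => hy (e ▸ ha)
  have mA : ∀ a ∈ insert y A, a ≠ y → a ∈ A := fun a ha e => (Finset.mem_insert.1 ha).resolve_left e
  obtain ⟨x, hx, -⟩ := id h
  obtain ⟨xA, xy⟩ := Finset.mem_filter.1 hx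
  refine ⟨fun Γ _ c hc => ?_, fun Γ _ c c' hc hc' ha => ?_, fun T h1 h2 a ha => ?_⟩
  · obtain ⟨g, hg⟩ := h.triv (hc.mono (OC_mono (Finset.filter_subset _ _)))
    rw [flat_OC pA] at hc
    have K : ∀ z ∈ A, r y z → ∀ a ∈ A, r a y → (g a)⁻¹ * c a z = (g x)⁻¹ * c x z :=
      fun z hz yz a ha ay => sxf_const h (fun a => (g a)⁻¹ * c a z) (fun u hu v hv uv => by
        obtain ⟨h1, -⟩ := Finset.mem_filter.1 hu
        obtain ⟨h3, h4⟩ := Finset.mem_filter.1 hv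
        rw [← hc u h1 v h3 z hz uv (hp.trans v (sA h3) y my z (sA hz) h4 yz), hg u hu v hv uv]
        group) (Finset.mem_filter.2 ⟨ha, ay⟩) hx
    refine ⟨fun a b => if a = y then (if b = y then 1 else (g x)⁻¹ * c x b) else
      if b = y then g a else c a b, (flat_OC hp).2 fun a ha b hb d hd ab bd => ?_,
      (agree_OC pA).2 fun a ha b hb _ => by rw [if_neg (ne a ha), if_neg (ne b hb)]⟩
    by_cases e1 : a = y <;> by_cases e2 : b = y <;> by_cases e3 : d = y <;>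
      simp only [e1, e2, e3, if_true, if_false, one_mul, mul_one]
    · exact absurd (hp.anti b hb y my (e3 ▸ bd) (e1 ▸ ab)) e2
    · rw [mul_assoc, hc x xA b (mA b hb e2) d (mA d hd e3)
        (hp.trans x (sA xA) y my b hb xy (e1 ▸ ab)) bd]
    · rw [← K d (mA d hd e3) (e2 ▸ bd) a (mA a ha e1) (e2 ▸ ab), mul_inv_cancel_left]
    · subst e3
      rw [hg a (Finset.mem_filter.2 ⟨mA a ha e1, hp.trans a ha b hb d hd ab bd⟩) b
        (Finset.mem_filter.2 ⟨mA b hb e2, bd⟩) ab, inv_mul_cancel_right]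
    · exact hc a (mA a ha e1) b (mA b hb e2) d (mA d hd e3) ab bd
  · rw [flat_OC hp] at hc hc'
    rw [agree_OC pA] at ha
    have ry := hp.refl y my
    have K : ∀ a ∈ A, r a y → (c' a y)⁻¹ * c a y = (c' x y)⁻¹ * c x y :=
      fun a h1 ay => sxf_const h (fun a => (c' a y)⁻¹ * c a y) (fun u hu v hv uv => by
        obtain ⟨h1, -⟩ := Finset.mem_filter.1 hu
        obtain ⟨h3, h4⟩ := Finset.mem_filter.1 hv
        rw [← hc u (sA h1) v (sA h3) y my uv h4, ← hc' u (sA h1) v (sA h3) y my uv h4,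
          ha u h1 v h3 uv]
        group) (Finset.mem_filter.2 ⟨h1, ay⟩) hx
    refine ⟨fun a => if a = y then (c' x y)⁻¹ * c x y else 1,
      fun a h1 => if_neg (ne a ((single_mem_OC pA).1 h1)),
      (agree_OC hp).2 fun a h1 b h2 ab => ?_⟩
    unfold gau
    by_cases e1 : a = y <;> by_cases e2 : b = y <;>
      simp only [e1, e2, if_true, if_false, one_mul, inv_one, mul_one]
    · rw [mul_eq_left.1 (hc y my y my y my ry ry), mul_eq_left.1 (hc' y my y my y my ry ry),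
        mul_one, mul_inv_cancel]
    · subst e1
      rw [mul_assoc, hc x (sA xA) a my b h2 xy ab,
        ha x xA b (mA b h2 e2) (hp.trans x (sA xA) a my b h2 xy ab), ← hc' x (sA xA) a my b h2 xy ab,
        inv_mul_cancel_left]
    · rw [← K a (mA a h1 e1) (e2 ▸ ab)]
      group
    · exact ha a (mA a h1 e1) b (mA b h2 e2) ab
  · rcases Finset.mem_insert.1 ((single_mem_OC hp).1 ha) with e | e
    · exact e ▸ (h2 x y ((pair_mem_OC hp xy).2 ⟨sA xA, my⟩) xy).1 (h1 x ((single_mem_OC pA).2 xA))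
    · exact h1 a ((single_mem_OC pA).2 e)

theorem sxf_mem {σ : Finset α} : σ ∈ insert ∅ (OC r A) ↔ σ ⊆ A ∧ Tot r σ := by
  rw [Finset.mem_insert, mem_OC]
  refine ⟨?_, fun h => σ.eq_empty_or_nonempty.imp_right fun e => ⟨h.1, e, h.2⟩⟩
  rintro (rfl | h)
  exacts [⟨Finset.empty_subset _, fun a ha => absurd ha (Finset.notMem_empty a)⟩, ⟨h.1, h.2.2⟩]

/-- Take `Γ = PUnit`, map the group ring to the integers, and add the pair formed by the empty
simplex and the base point. -/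
theorem CT.ctr_aug (h : CT r 1 A) :
    Ctr (rs (insert ∅ (OC r A)) (insert ∅ (OC r A)) (Dz r)) := by
  obtain ⟨a, ha, pA, -, hg⟩ := h
  have m1 : ∀ σ, σ ∈ OC r {a} ↔ σ = {a} := fun σ => by
    refine ⟨fun e => ?_, fun e => e ▸ (single_mem_OC (pA.mono (Finset.singleton_subset_iff.2 ha))).2
      (Finset.mem_singleton_self a)⟩
    exact (mem_OC.1 e).2.1.subset_singleton_iff.1 (mem_OC.1 e).1
  have h1 := ((hg.gd PUnit (fun _ _ => 1) fun _ _ _ _ _ _ => rfl).2.1 le_rfl).map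
    (MonoidAlgebra.lift ℤ ℤ PUnit 1).toRingHom
  have e1 : (rs (OC r A \ OC r {a}) (OC r A \ OC r {a}) (DG r fun _ _ => (1 : PUnit))).map
      (MonoidAlgebra.lift ℤ ℤ PUnit 1).toRingHom =
      rs (OC r A \ OC r {a}) (OC r A \ OC r {a}) (Dz r) := by
    ext x z
    simp [rs, DG]
  rw [e1] at h1
  have hd := dm_Dz (r := r) (X := insert ∅ (OC r A))
    (fun σ hσ => ⟨pA.mono (sxf_mem.1 hσ).1, (sxf_mem.1 hσ).2⟩) fun σ hσ τ _ ρ _ h2 =>
      sxf_mem.2 ⟨h2.trans (sxf_mem.1 hσ).1, fun u hu v hv => (sxf_mem.1 hσ).2 u (h2 hu) v (h2 hv)⟩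
  have hq : Sub (rs (insert ∅ (OC r A)) (insert ∅ (OC r A)) (Dz r))
      fun x => x.1 ≠ ∅ ∧ x.1 ≠ {a} := fun x z h2 h3 => by
    obtain ⟨v, h4, h5⟩ := Dz_ne h2
    refine ⟨Finset.ne_empty_of_mem h4, fun e => h3.1 ?_⟩
    rw [e, Finset.mem_singleton] at h4
    rw [h5, e, h4, Finset.erase_singleton]
  refine (gd_of_blocks (l := 1) (Φ := (∅ : Set (ℤ →+* F25))) hd hq
    ((gd_blk_rs (p := ps) (Y := OC r A \ OC r {a}) _ fun x => ?_).2 ⟨?_, fun _ => h1, by omega⟩)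
    ((gd_blk_rs (p := ps) (Y := {{a}, ∅}) (fun x : ↥(insert ∅ (OC r A)) =>
      ¬ (x.1 ≠ ∅ ∧ x.1 ≠ {a})) fun x => ?_).2 ?_)).2.1 le_rfl
  · rw [Finset.mem_sdiff, m1]
    exact ⟨fun e => ⟨Finset.mem_insert_of_mem e.1, (mem_OC.1 e.1).2.1.ne_empty, e.2⟩,
      fun ⟨e, e'⟩ => ⟨(Finset.mem_insert.1 e).resolve_left e'.1, e'.2⟩⟩
  · refine dm_Dz (fun σ hσ => ?_) fun σ hσ τ hτ ρ h2 h3 => ?_
    · have := mem_OC.1 (Finset.mem_sdiff.1 hσ).1
      exact ⟨pA.mono this.1, this.2.2⟩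
    · rw [Finset.mem_sdiff, m1] at hσ hτ ⊢
      have h4 := (mem_OC.1 hτ.1).2.1
      exact ⟨(cx_OC pA).down σ hσ.1 ρ h3 (h4.mono h2),
        fun e => hτ.2 (h4.subset_singleton_iff.1 (e ▸ h2))⟩
  · rw [Finset.mem_insert, Finset.mem_singleton]
    refine ⟨?_, fun ⟨_, e⟩ => by tauto⟩
    rintro (rfl | rfl)
    exacts [⟨Finset.mem_insert_of_mem ((single_mem_OC pA).2 ha), fun e => e.2 rfl⟩,
      ⟨Finset.mem_insert_self _ _, fun e => e.1 rfl⟩]
  · refine gd_pair (x := ⟨{a}, by simp⟩) (y := ⟨∅, by simp⟩) (by simp [ps]) (fun z => ?_)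
      (sg_mul_self (r := r) (σ := {a}) a) ?_ fun u v huv => by_contra fun e => huv ?_
    · simpa only [Subtype.ext_iff, Finset.mem_insert, Finset.mem_singleton] using z.2
    · rw [← Dz_erase (Finset.mem_singleton_self a), Finset.erase_singleton]
      rfl
    · obtain ⟨w, h4, h5⟩ := Dz_ne e
      have h6 : u.1 = {a} := (Finset.mem_insert.1 u.2).resolve_right fun e' =>
        Finset.ne_empty_of_mem h4 (Finset.mem_singleton.1 e')
      rw [h6, Finset.mem_singleton] at h4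
      exact ⟨Subtype.ext h6, Subtype.ext (by rw [h5, h6, h4, Finset.erase_singleton])⟩

omit [Nonempty α] in
theorem sxf_cancel {T u τ ρ : Finset α} (h : ∀ w ∈ u, w ∉ T) (h1 : τ ⊆ T) (h2 : ρ ⊆ T)
    (e : τ ∪ u = ρ ∪ u) : τ = ρ := by
  rw [← Finset.union_sdiff_cancel_right (Finset.disjoint_right.2 fun w hw e => h w hw (h1 e)), e,
    Finset.union_sdiff_cancel_right (Finset.disjoint_right.2 fun w hw e => h w hw (h2 e))]

omit [Nonempty α] in
/-- Adding the same vertices on top does not change the coefficients. -/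
theorem sxf_Dz {T u τ ρ : Finset α} (h : ∀ w ∈ u, w ∉ T) (h' : ∀ w ∈ u, ∀ v ∈ T, ¬ r w v)
    (h1 : τ ⊆ T) (h2 : ρ ⊆ T) : Dz r (τ ∪ u) (ρ ∪ u) = Dz r τ ρ := by
  unfold Dz
  rw [Finset.sum_union (Finset.disjoint_right.2 fun w hw e => h w hw (h1 e)),
    Finset.sum_eq_zero (s := u) fun v hv => if_neg fun e =>
      Finset.notMem_erase v _ (e ▸ Finset.mem_union_right _ hv), add_zero]
  refine Finset.sum_congr rfl fun v hv => if_congr ?_ ?_ rfl
  · rw [Finset.erase_union_distrib, Finset.erase_eq_of_notMem fun e => h v e (h1 hv)]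
    exact ⟨sxf_cancel h h2 ((Finset.erase_subset _ _).trans h1), fun e => by rw [e]⟩
  · unfold sg
    rw [Finset.filter_union, Finset.filter_false_of_mem (s := u) fun w hw e => h' w hw v (h1 hv) e.1,
      Finset.union_empty]

/-- The new simplices are the chains through `y`. Use `gd_filt` with the part of the chain above
`y` as piece and its cardinality as rank; a piece is the augmented complex of the lower link,
gauged by `c (bt σ) y` (`gd_of_int`). -/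
theorem gd_add (hy : y ∉ A) (hp : POn r (insert y A)) (h : CT r 1 (A.filter (fun x => r x y)))
    {Γ : Type} [Group Γ] {c : α → α → Γ} (hc : Flat r (OC r (insert y A)) c) :
    Gd l (PhiG Γ F25) (fun x : ↥(OC r (insert y A) \ OC r A) => ps x.1)
      (rs (OC r (insert y A) \ OC r A) (OC r (insert y A) \ OC r A) (DG r c)) := by
  have sA : A ⊆ insert y A := Finset.subset_insert y A
  have my := Finset.mem_insert_self y A
  have cB := cx_OC hp
  have mN : ∀ σ, σ ∈ OC r (insert y A) \ OC r A ↔ σ ⊆ insert y A ∧ y ∈ σ ∧ Tot r σ := fun σ => by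
    rw [Finset.mem_sdiff, mem_OC, mem_OC]
    exact ⟨fun ⟨e, e'⟩ => ⟨e.1, by_contra fun k =>
        e' ⟨(Finset.subset_insert_iff_of_notMem k).1 e.1, e.2⟩, e.2.2⟩,
      fun ⟨e1, e2, e3⟩ => ⟨⟨e1, ⟨y, e2⟩, e3⟩, fun e => hy (e.1 e2)⟩⟩
  have dz : ∀ {σ ρ}, DG r c σ ρ ≠ 0 → Dz r σ ρ ≠ 0 := fun e e' => e (by rw [DG, e']; simp)
  refine gd_filt (dm_DG (cx_OC (hp.mono sA)) cB hc)
    (fun σ => σ.1.filter fun z => r y z ∧ z ≠ y) Finset.card (fun σ ρ e => ?_) fun k => ?_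
  · obtain ⟨v, -, h2⟩ := Dz_ne (dz e)
    have h3 : (ρ.1.filter fun z => r y z ∧ z ≠ y) ⊆ σ.1.filter fun z => r y z ∧ z ≠ y :=
      Finset.filter_subset_filter _ (h2 ▸ Finset.erase_subset _ _)
    exact h3.eq_or_ssubset.imp Eq.symm Finset.card_lt_card
  set P := (OC r (insert y A) \ OC r A).filter fun σ => (σ.filter fun z => r y z ∧ z ≠ y) = k
    with hP
  have mP : ∀ σ, σ ∈ P ↔ (σ ⊆ insert y A ∧ y ∈ σ ∧ Tot r σ) ∧
      (σ.filter fun z => r y z ∧ z ≠ y) = k := fun σ => by rw [hP, Finset.mem_filter, mN]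
  refine (gd_blk_rs (p := ps) (Y := P) _ fun x => by
    rw [hP, Finset.mem_filter]; exact exists_prop.symm).2 ?_
  rcases P.eq_empty_or_nonempty with e | ⟨σ0, h0⟩
  · have : IsEmpty ↥P := ⟨fun x => Finset.ne_empty_of_mem x.2 e⟩
    exact gd_empty
  obtain ⟨⟨a1, a2, a3⟩, a4⟩ := (mP σ0).1 h0
  have u0 : insert y k ⊆ σ0 := Finset.insert_subset a2 (a4 ▸ Finset.filter_subset _ _)
  have kk : ∀ w ∈ k, r y w ∧ w ≠ y := fun w hw => by
    rw [← a4] at hw
    exact (Finset.mem_filter.1 hw).2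
  have u1 : ∀ w ∈ insert y k, r y w :=
    Finset.forall_mem_insert _ _ _ |>.2 ⟨hp.refl y my, fun w hw => (kk w hw).1⟩
  have u2 : ∀ w ∈ insert y k, ∀ v ∈ A.filter (fun x => r x y), ¬ r w v := fun w hw v hv e => by
    obtain ⟨h1, h2⟩ := Finset.mem_filter.1 hv
    exact hy (hp.anti v (sA h1) y my h2 (hp.trans y my w (a1 (u0 hw)) v (sA h1) (u1 w hw) e) ▸ h1)
  have u3 : ∀ w ∈ insert y k, w ∉ A.filter (fun x => r x y) := fun w hw e =>
    u2 w hw w e (hp.refl w (a1 (u0 hw)))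
  have up : ∀ τ ∈ insert ∅ (OC r (A.filter fun x => r x y)), τ ∪ insert y k ∈ P := fun τ hτ => by
    obtain ⟨b1, b2⟩ := sxf_mem.1 hτ
    have b3 : ∀ v ∈ τ, ∀ w ∈ insert y k, r v w := fun v hv w hw =>
      hp.trans v (sA (Finset.mem_filter.1 (b1 hv)).1) y my w (a1 (u0 hw))
        (Finset.mem_filter.1 (b1 hv)).2 (u1 w hw)
    refine (mP _).2 ⟨⟨Finset.union_subset (b1.trans ((Finset.filter_subset _ _).trans sA))
      (u0.trans a1), Finset.mem_union_right _ (Finset.mem_insert_self _ _), fun v hv w hw => ?_⟩, ?_⟩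
    · rcases Finset.mem_union.1 hv with e | e <;> rcases Finset.mem_union.1 hw with e' | e'
      exacts [b2 v e w e', Or.inl (b3 v e w e'), Or.inr (b3 w e' v e), a3 v (u0 e) w (u0 e')]
    · ext z
      rw [Finset.mem_filter, Finset.mem_union, Finset.mem_insert]
      refine ⟨fun ⟨e1, e2⟩ => ?_, fun e => ⟨Or.inr (Or.inr e), kk z e⟩⟩
      exact (e1.resolve_left fun e => u2 y (Finset.mem_insert_self _ _) z (b1 e) e2.1).resolve_left
        e2.2
  have bj : Bijective fun τ : ↥(insert ∅ (OC r (A.filter fun x => r x y))) =>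
      (⟨τ.1 ∪ insert y k, up τ.1 τ.2⟩ : ↥P) := by
    refine ⟨fun τ ρ e => Subtype.ext (sxf_cancel u3 (sxf_mem.1 τ.2).1 (sxf_mem.1 ρ.2).1
      (congrArg Subtype.val e)), fun σ => ?_⟩
    obtain ⟨⟨b1, b2, b3⟩, b4⟩ := (mP σ.1).1 σ.2
    refine ⟨⟨σ.1.filter (· ∈ A.filter fun x => r x y), sxf_mem.2
      ⟨fun v hv => (Finset.mem_filter.1 hv).2, fun v hv w hw =>
        b3 v (Finset.mem_filter.1 hv).1 w (Finset.mem_filter.1 hw).1⟩⟩, Subtype.ext ?_⟩
    refine (Finset.union_subset (Finset.filter_subset _ _) (Finset.insert_subset b2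
      (b4 ▸ Finset.filter_subset _ _))).antisymm fun z hz => ?_
    rw [Finset.mem_union, Finset.mem_insert, ← b4]
    by_cases e : z = y
    · exact Or.inr (Or.inl e)
    · exact (b3 z hz y b2).imp (fun e' => Finset.mem_filter.2 ⟨hz, Finset.mem_filter.2
        ⟨(Finset.mem_insert.1 (b1 hz)).resolve_left e, e'⟩⟩)
        fun e' => Or.inr (Finset.mem_filter.2 ⟨hz, e', e⟩)
  refine gd_of_int (m := rs P P (Dz r)) (dm_Dz (fun σ hσ => ?_) fun σ hσ τ hτ ρ h1 h2 => ?_)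
    ((ctr_reindex (Equiv.ofBijective _ bj)).1 ?_) (fun σ => c (bt r σ.1) y) fun σ ρ => ?_
  · exact ⟨hp.mono ((mP σ).1 hσ).1.1, ((mP σ).1 hσ).1.2.2⟩
  · obtain ⟨⟨b1, -, b3⟩, b4⟩ := (mP σ).1 hσ
    obtain ⟨⟨-, b5, -⟩, b6⟩ := (mP τ).1 hτ
    exact (mP ρ).2 ⟨⟨h2.trans b1, h1 b5, fun v hv w hw => b3 v (h2 hv) w (h2 hw)⟩,
      (b4 ▸ Finset.filter_subset_filter _ h2).antisymm (b6 ▸ Finset.filter_subset_filter _ h1)⟩
  · convert h.ctr_aug using 1
    ext τ ρ
    exact sxf_Dz u3 u2 (sxf_mem.1 τ.2).1 (sxf_mem.1 ρ.2).1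
  · show DG r c σ.1 ρ.1 = MonoidAlgebra.single _ (Dz r σ.1 ρ.1)
    by_cases e : Dz r σ.1 ρ.1 = 0
    · rw [DG, e]
      simp
    obtain ⟨v, -, h2⟩ := Dz_ne e
    have h3 : ρ.1 ⊆ σ.1 := h2 ▸ Finset.erase_subset _ _
    obtain ⟨⟨b1, b2, b3⟩, -⟩ := (mP σ.1).1 σ.2
    obtain ⟨⟨b4, b5, b6⟩, -⟩ := (mP ρ.1).1 ρ.2
    obtain ⟨c1, c2⟩ := bt_spec (hp.mono b1) b3 ⟨y, b2⟩
    obtain ⟨c3, c4⟩ := bt_spec (hp.mono b4) b6 ⟨y, b5⟩
    rw [DG, ← hc.mul cB (mem_OC.2 ⟨b1, ⟨y, b2⟩, b3⟩) c1 (h3 c3) b2 (c2 _ (h3 c3)) (c4 y b5),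
      mul_inv_cancel_right]

theorem gp_add (hy : y ∉ A) (hp : POn r (insert y A))
    (h : CT r l (A.filter (fun x => r x y))) : GP r l A (insert y A) := by
  have sA : A ⊆ insert y A := Finset.subset_insert y A
  have h0 := ge_zero (cx_OC (hp.mono sA)) (cx_OC hp) (OC_mono sA)
    (eq1_add hy hp (h.mono (Nat.zero_le l)))
  refine ⟨hp, sA, ?_⟩
  rcases Nat.eq_zero_or_pos l with rfl | hl
  · exact h0
  · exact ⟨h0.cK, h0.cL, h0.sub, h0.eq1, fun _ _ _ hc => gd_add hy hp (h.mono hl) hc⟩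

end Pool.Agent.Lib.MP_5ceaf9_gt
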