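import Pool.Agent.Lib.MP_5ceaf9_gt.SxH

/-! Mapping cylinders. -/

noncomputable section

namespace Pool.Agent.Lib.MP_5ceaf9_gt

open Classical Function

variable {α β : Type} [DecidableEq α] [DecidableEq β] [Nonempty α] [Nonempty β]
  {r : α → α → Prop} {r' : β → β → Prop} {l : ℕ}

variable {A A' : Finset α} {B B' : Finset β} {f g : α → β}

theorem Mo.pon_cy (h : Mo r r' A B f) : POn (cy r r' f) (A.disjSum B) := by
  refine ⟨?_, ?_, ?_⟩
  · rintro (a | a) ha
    · exact h.pA.refl a (Finset.inl_mem_disjSum.1 ha)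
    · exact h.pB.refl a (Finset.inr_mem_disjSum.1 ha)
  · rintro (a | a) ha (b | b) hb h1 h2
    · rw [h.pA.anti a (Finset.inl_mem_disjSum.1 ha) b (Finset.inl_mem_disjSum.1 hb) h1 h2]
    · exact h2.elim
    · exact h1.elim
    · rw [h.pB.anti a (Finset.inr_mem_disjSum.1 ha) b (Finset.inr_mem_disjSum.1 hb) h1 h2]
  · rintro (a | a) ha (b | b) hb (d | d) hd h1 h2 <;>
      simp only [Finset.inl_mem_disjSum, Finset.inr_mem_disjSum] at ha hb hd
    · exact h.pA.trans a ha b hb d hd h1 h2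
    · exact h.pB.trans _ (h.maps a ha) _ (h.maps b hb) d hd (h.mono a ha b hb h1) h2
    · exact h2.elim
    · exact h.pB.trans _ (h.maps a ha) b hb d hd h1 h2
    · exact h1.elim
    · exact h1.elim
    · exact h2.elim
    · exact h.pB.trans a ha b hb d hd h1 h2

theorem Mo.swap (h : Mo r r' A B f) : Mo (swap r) (swap r') A B f := by
  exact ⟨h.pA.swap, h.pB.swap, h.maps, fun a ha b hb hab => h.mono b hb a ha hab⟩

theorem sxi_inl (A : Finset α) (B : Finset β) : A.image Sum.inl ⊆ A.disjSum B := by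
  intro x hx
  obtain ⟨a, ha, rfl⟩ := Finset.mem_image.1 hx
  exact Finset.inl_mem_disjSum.2 ha

theorem sxi_inr (A : Finset α) (B : Finset β) : B.image Sum.inr ⊆ A.disjSum B := by
  intro x hx
  obtain ⟨a, ha, rfl⟩ := Finset.mem_image.1 hx
  exact Finset.inr_mem_disjSum.2 ha

theorem Mo.gp_inr (h : Mo r r' A B f) :
    GP (cy r r' f) l (B.image Sum.inr) (A.disjSum B) := by
  refine gp_retr_ge h.pon_cy (sxi_inr A B) (ρ := fun x => Sum.inr (Sum.elim f id x)) ?_ ?_ ?_ ?_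
  · rintro (a | a) ha
    · exact Finset.mem_image_of_mem _ (h.maps a (Finset.inl_mem_disjSum.1 ha))
    · exact Finset.mem_image_of_mem _ (Finset.inr_mem_disjSum.1 ha)
  · intro x hx
    obtain ⟨a, -, rfl⟩ := Finset.mem_image.1 hx
    rfl
  · rintro (a | a) ha (b | b) hb h1
    · exact h.mono a (Finset.inl_mem_disjSum.1 ha) b (Finset.inl_mem_disjSum.1 hb) h1
    · exact h1
    · exact h1.elim
    · exact h1
  · rintro (a | a) ha
    · exact h.pB.refl _ (h.maps a (Finset.inl_mem_disjSum.1 ha))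
    · exact h.pB.refl a (Finset.inr_mem_disjSum.1 ha)

theorem ME.mono (h : ME r r' l A B f) {l' : ℕ} (hl : l' ≤ l) : ME r r' l' A B f := by
  exact ⟨h.1, h.2.mono hl⟩

theorem sxi_ct_inl (f : α → β) (A : Finset α) :
    CT (cy r r' f) l (A.image Sum.inl) ↔ CT r l A :=
  ct_image Sum.inl_injective.injOn fun _ _ _ _ => Iff.rfl

theorem sxi_ct_inr (f : α → β) (B : Finset β) :
    CT (cy r r' f) l (B.image Sum.inr) ↔ CT r' l B :=
  ct_image Sum.inr_injective.injOn fun _ _ _ _ => Iff.rfl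

/-- The fibre lemma. -/
theorem me_of_fibres (h : Mo r r' A B f)
    (hf : ∀ y ∈ B, CT r l (A.filter (fun a => r' (f a) y))) : ME r r' l A B f := by
  refine ⟨h, gp_of_lower h.pon_cy (sxi_inl A B) ?_⟩
  rintro (y | y) hy hn
  · exact absurd (Finset.mem_image_of_mem _ (Finset.inl_mem_disjSum.1 hy)) hn
  · have h1 := (sxi_ct_inl (r' := r') f _).2 (hf y (Finset.inr_mem_disjSum.1 hy))
    refine Eq.subst (motive := fun S => CT (cy r r' f) l S) (Finset.ext fun x => ?_) h1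
    simp only [Finset.mem_image, Finset.mem_filter]
    constructor
    · rintro ⟨a, ⟨ha, h2⟩, rfl⟩
      exact ⟨⟨a, ha, rfl⟩, h2⟩
    · rintro ⟨⟨a, ha, rfl⟩, h2⟩
      exact ⟨a, ⟨ha, h2⟩, rfl⟩

theorem sxi_gp_congr {s : α → α → Prop} (h : GP r l A A')
    (hr : ∀ a ∈ A', ∀ b ∈ A', (s a b ↔ r a b)) : GP s l A A' := by
  have h1 := (gp_image (r' := s) (f := id) (Set.injOn_id _) hr h.2.1).2 h
  rwa [Finset.image_id, Finset.image_id] at h1

theorem ME.congr (h : ME r r' l A B f) (hfg : ∀ a ∈ A, g a = f a) : ME r r' l A B g := by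
  refine ⟨⟨h.1.pA, h.1.pB, fun a ha => hfg a ha ▸ h.1.maps a ha, fun a ha b hb hab => ?_⟩,
    sxi_gp_congr h.2 ?_⟩
  · rw [hfg a ha, hfg b hb]
    exact h.1.mono a ha b hb hab
  · rintro (a | a) ha (b | b) -
    · exact Iff.rfl
    · change r' (g a) b ↔ r' (f a) b
      rw [hfg a (Finset.inl_mem_disjSum.1 ha)]
    · exact Iff.rfl
    · exact Iff.rfl

theorem ME.ct_iff (h : ME r r' l A B f) : CT r l A ↔ CT r' l B := by
  rw [← sxi_ct_inl (r' := r') f, ← sxi_ct_inr (r := r) f]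
  exact ⟨fun h1 => (h1.up h.2).down h.1.gp_inr, fun h1 => (h1.up h.1.gp_inr).down h.2⟩

theorem sxi_conn_image (hA : POn r A) (hinj : Set.InjOn f A)
    (hr : ∀ a ∈ A, ∀ b ∈ A, (r' (f a) (f b) ↔ r a b)) :
    Conn r' (OC r' (A.image f)) ↔ Conn r (OC r A) := by
  rw [OC_image hinj hr]
  exact (emb_OC hinj hr hA).conn (cx_OC hA)

theorem sxi_conn (h : GP r l A A') : Conn r (OC r A) ↔ Conn r (OC r A') :=
  h.2.2.eq1.conn_iff h.2.2.cK h.2.2.cL h.2.2.sub

theorem ME.conn_iff (h : ME r r' l A B f) : Conn r (OC r A) ↔ Conn r' (OC r' B) := by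
  rw [← sxi_conn_image (r' := cy r r' f) h.1.pA Sum.inl_injective.injOn fun _ _ _ _ => Iff.rfl,
    ← sxi_conn_image (r' := cy r r' f) h.1.pB Sum.inr_injective.injOn fun _ _ _ _ => Iff.rfl,
    sxi_conn h.2, sxi_conn (h.1.gp_inr (l := l))]

theorem sxi_OC_le {s : α → α → Prop} (h : ∀ a ∈ A, ∀ b ∈ A, s a b → r a b) :
    OC s A ⊆ OC r A := by
  intro σ hσ
  obtain ⟨h1, h2, h3⟩ := mem_OC.1 hσ
  exact mem_OC.2 ⟨h1, h2, fun a ha b hb =>
    (h3 a ha b hb).imp (h a (h1 ha) b (h1 hb)) (h b (h1 hb) a (h1 ha))⟩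

theorem sxi_OC_eq {s : α → α → Prop} (h : ∀ a ∈ A, ∀ b ∈ A, (s a b ↔ r a b)) :
    OC s A = OC r A :=
  Finset.Subset.antisymm (sxi_OC_le fun a ha b hb => (h a ha b hb).1)
    (sxi_OC_le fun a ha b hb => (h a ha b hb).2)

/-- A refinement of the order that has a common good subposet with it. -/
theorem sxi_refine {s : α → α → Prop} {P : Finset α} (h : ∀ a ∈ P, ∀ b ∈ P, s a b → r a b)
    (h1 : GP r l A P) (h2 : GP s l A P) (hA : ∀ a ∈ A, ∀ b ∈ A, (s a b ↔ r a b))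
    (hP : A' ⊆ P) (hA' : ∀ a ∈ A', ∀ b ∈ A', (s a b ↔ r a b)) : GP r l A' P ↔ GP s l A' P := by
  have e1 : ∀ σ ∈ OC s P, ∀ a ∈ σ, ∀ b ∈ σ, (r a b ↔ s a b) := fun σ hσ a ha b hb => by
    obtain ⟨k1, -, k3⟩ := mem_OC.1 hσ
    refine ⟨fun hab => (k3 a ha b hb).elim id fun hba => ?_, h a (k1 ha) b (k1 hb)⟩
    obtain rfl := h1.1.anti a (k1 ha) b (k1 hb) hab (h b (k1 hb) a (k1 ha) hba)
    exact hba
  have e2 : GE r l (OC s A) (OC s P) := h2.2.2.congr e1
  rw [sxi_OC_eq hA] at e2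
  have e3 : GE r l (OC s P) (OC r P) := GE.right (sxi_OC_le h) h1.2.2 e2
  constructor
  · intro h3
    have e4 := h3.2.2
    rw [← sxi_OC_eq hA'] at e4
    exact ⟨h2.1, hP, (GE.left e3.cK (OC_mono hP) e4 e3).congr
      fun σ hσ a ha b hb => (e1 σ hσ a ha b hb).symm⟩
  · intro h3
    have e4 := (h3.2.2.congr e1).trans e3
    rw [sxi_OC_eq hA'] at e4
    exact ⟨h1.1, hP, e4⟩

/-- The order complex of the cylinder of the larger map lies in that of the smaller map; both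
contain `B` as a good subcomplex (`GE.congr`). -/
theorem me_homotopy (hf : Mo r r' A B f) (hg : Mo r r' A B g) (hle : ∀ a ∈ A, r' (f a) (g a)) :
    ME r r' l A B f ↔ ME r r' l A B g := by
  refine and_congr (iff_of_true hf hg)
    (sxi_refine ?_ hf.gp_inr hg.gp_inr ?_ (sxi_inl A B) ?_)
  · rintro (a | a) ha (b | b) hb h1
    · exact h1
    · rw [Finset.inl_mem_disjSum] at ha
      exact hf.pB.trans _ (hf.maps a ha) _ (hg.maps a ha) b (Finset.inr_mem_disjSum.1 hb)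
        (hle a ha) h1
    · exact h1
    · exact h1
  · intro x hx y hy
    obtain ⟨a, -, rfl⟩ := Finset.mem_image.1 hx
    obtain ⟨b, -, rfl⟩ := Finset.mem_image.1 hy
    exact Iff.rfl
  · intro x hx y hy
    obtain ⟨a, -, rfl⟩ := Finset.mem_image.1 hx
    obtain ⟨b, -, rfl⟩ := Finset.mem_image.1 hy
    exact Iff.rfl

/-- An order embedding is an equivalence when its image is a good subposet. -/
theorem me_emb_iff (hA : POn r A) (hB : POn r' B) (hinj : Set.InjOn f A)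
    (hr : ∀ a ∈ A, ∀ b ∈ A, (r' (f a) (f b) ↔ r a b)) (hm : ∀ a ∈ A, f a ∈ B) :
    ME r r' l A B f ↔ GP r' l (A.image f) B := by
  have hs : A.image f ⊆ B := Finset.image_subset_iff.2 hm
  have m1 : Mo r r' A B f := ⟨hA, hB, hm, fun a ha b hb => (hr a ha b hb).2⟩
  have m2 : Mo r r' A (A.image f) f :=
    ⟨hA, hB.mono hs, fun a ha => Finset.mem_image_of_mem _ ha, m1.mono⟩
  have g1 : GP (cy r r' f) l (A.image Sum.inl) (A.disjSum (A.image f)) := by
    refine (me_of_fibres m2 fun y hy => ?_).2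
    obtain ⟨a, ha, rfl⟩ := Finset.mem_image.1 hy
    refine ct_top (hA.mono (Finset.filter_subset _ _)) (m := a)
      (Finset.mem_filter.2 ⟨ha, hB.refl _ (hm a ha)⟩) fun b hb => ?_
    rw [Finset.mem_filter] at hb
    exact (hr b hb.1 a ha).1 hb.2
  have g2 := m2.gp_inr (l := l)
  have g3 := m1.gp_inr (l := l)
  have s1 : A.disjSum (A.image f) ⊆ A.disjSum B := Finset.disjSum_mono le_rfl hs
  rw [← gp_image (r := r') (r' := cy r r' f) Sum.inr_injective.injOn
    (fun _ _ _ _ => Iff.rfl) hs]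
  exact ⟨fun h => GP.left (Finset.image_subset_image hs) (g2.trans (GP.right s1 h.2 g1)) g3,
    fun h => ⟨m1, g1.trans (GP.right s1 (h.trans g3) g2)⟩⟩

theorem me_incl_iff (hA : POn r A') (h : A ⊆ A') : ME r r l A A' id ↔ GP r l A A' := by
  rw [me_emb_iff (hA.mono h) hA (Set.injOn_id _) (fun _ _ _ _ => Iff.rfl) fun a ha => h ha,
    Finset.image_id]

end Pool.Agent.Lib.MP_5ceaf9_gt
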