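import Pool.Agent.Lib.MP_5ceaf9_gt.SxI

/-! Two out of three for monotone maps. -/

noncomputable section

namespace Pool.Agent.Lib.MP_5ceaf9_gt

open Classical Function

variable {α β : Type} [DecidableEq α] [DecidableEq β] [Nonempty α] [Nonempty β]
  {r : α → α → Prop} {r' : β → β → Prop} {l : ℕ}

variable {γ : Type} [DecidableEq γ] [Nonempty γ] {r'' : γ → γ → Prop} {A A' : Finset α}
  {B B' : Finset β} {C : Finset γ} {f : α → β} {g : β → γ}

omit [DecidableEq α] [DecidableEq β] [Nonempty α] [Nonempty β] [DecidableEq γ] [Nonempty γ] in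
theorem Mo.comp (hf : Mo r r' A B f) (hg : Mo r' r'' B C g) : Mo r r'' A C (g ∘ f) := by
  exact ⟨hf.pA, hg.pB, fun a ha => hg.maps _ (hf.maps a ha), fun a ha b hb h =>
    hg.mono _ (hf.maps a ha) _ (hf.maps b hb) (hf.mono a ha b hb h)⟩

theorem sxj_emb {e : α → β} (he : Injective e) (hr : ∀ a b, r' (e a) (e b) ↔ r a b)
    (hm : ∀ a ∈ A, e a ∈ B) (hA : POn r A) (hg : Mo r' r'' B C g) :
    ME r r'' l A C (g ∘ e) ↔
      GP (cy r' r'' g) l ((A.image e).image Sum.inl) (B.disjSum C) := by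
  have hk : Mo r r'' A C (g ∘ e) := Mo.comp ⟨hA, hg.pA, hm, fun a _ b _ h => (hr a b).2 h⟩ hg
  have i1 : Set.InjOn (Sum.map e id : α ⊕ γ → β ⊕ γ) (A.disjSum C) :=
    (he.sumMap injective_id).injOn
  have i2 : ∀ x ∈ A.disjSum C, ∀ y ∈ A.disjSum C,
      (cy r' r'' g (Sum.map e id x) (Sum.map e id y) ↔ cy r r'' (g ∘ e) x y) := by
    rintro (a | a) - (b | b) -
    · exact hr a b
    · exact Iff.rfl
    · exact Iff.rfl
    · exact Iff.rfl
  have s1 : (A.disjSum C).image (Sum.map e id) ⊆ B.disjSum C := by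
    rw [Finset.image_subset_iff]
    rintro (a | a) h
    · exact Finset.inl_mem_disjSum.2 (hm a (Finset.inl_mem_disjSum.1 h))
    · exact Finset.inr_mem_disjSum.2 (Finset.inr_mem_disjSum.1 h)
  have s2 : A.image Sum.inl ⊆ A.disjSum C :=
    Finset.image_subset_iff.2 fun a ha => Finset.inl_mem_disjSum.2 ha
  have e1 : (C.image Sum.inr).image (Sum.map e id : α ⊕ γ → β ⊕ γ) = C.image Sum.inr :=
    Finset.image_image
  have e2 : (A.image e).image Sum.inl = (A.image Sum.inl).image (Sum.map e id : α ⊕ γ → β ⊕ γ) := by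
    rw [Finset.image_image, Finset.image_image]
    rfl
  have g1 := (gp_image (l := l) i1 i2 (hk.gp_inr (l := l)).2.1).2 hk.gp_inr
  rw [e1] at g1
  have g2 := GP.right s1 hg.gp_inr g1
  rw [ME, and_iff_right hk, ← gp_image i1 i2 s2, e2]
  exact ⟨fun h => h.trans g2, fun h => GP.left (Finset.image_subset_image s2) h g2⟩

omit [DecidableEq γ] [Nonempty γ] in
theorem sxj_mo (hf : Mo r r' A B f) (hg : Mo r' r'' B C g) :
    Mo (cy r r' f) r'' (A.disjSum B) C (Sum.elim (g ∘ f) g) := by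
  refine ⟨hf.pon_cy, hg.pB, ?_, ?_⟩
  · rintro (a | a) h
    · exact hg.maps _ (hf.maps a (Finset.inl_mem_disjSum.1 h))
    · exact hg.maps _ (Finset.inr_mem_disjSum.1 h)
  · rintro (a | a) ha (b | b) hb h
    · exact (hf.comp hg).mono a (Finset.inl_mem_disjSum.1 ha) b (Finset.inl_mem_disjSum.1 hb) h
    · exact hg.mono _ (hf.maps a (Finset.inl_mem_disjSum.1 ha)) b (Finset.inr_mem_disjSum.1 hb) h
    · exact h.elim
    · exact hg.mono a (Finset.inr_mem_disjSum.1 ha) b (Finset.inr_mem_disjSum.1 hb) h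

theorem sxj_inl (hAA : A ⊆ A') : GP (cy r r' f) l (A.image Sum.inl) (A'.image Sum.inl) ↔
    GP r l A A' :=
  gp_image Sum.inl_injective.injOn (fun _ _ _ _ => Iff.rfl) hAA

/-- Let `T` be the cylinder of `Sum.elim (g ∘ f) g` from the cylinder of `f` to `C`. The cylinders
of `g` and of `g ∘ f` embed in `T` and contain the good subposet `C`. -/
theorem me_cyl_iff (hf : Mo r r' A B f) (hg : Mo r' r'' B C g) :
    (ME r' r'' l B C g ↔ ME (cy r r' f) r'' l (A.disjSum B) C (Sum.elim (g ∘ f) g)) ∧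
    (ME r r'' l A C (g ∘ f) ↔
      GP (cy (cy r r' f) r'' (Sum.elim (g ∘ f) g)) l ((A.image Sum.inl).image Sum.inl)
        ((A.disjSum B).disjSum C)) := by
  have hh := sxj_mo hf hg
  refine ⟨?_, sxj_emb (r := r) (r' := cy r r' f) Sum.inl_injective (fun _ _ => Iff.rfl)
    (fun _ ha => Finset.inl_mem_disjSum.2 ha) hf.pA hh⟩
  have h1 := sxj_emb (l := l) (r := r') (r' := cy r r' f) Sum.inr_injective (fun _ _ => Iff.rfl)
    (fun _ ha => Finset.inr_mem_disjSum.2 ha) hf.pB hh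
  have h2 := (sxj_inl (r' := r'') (f := Sum.elim (g ∘ f) g) (hf.gp_inr (l := l)).2.1).2
    (hf.gp_inr (l := l))
  refine h1.trans ⟨fun h => ⟨hh, GP.right ?_ h h2⟩, fun h => h2.trans h.2⟩
  exact Finset.image_subset_iff.2 fun a ha => Finset.inl_mem_disjSum.2 ha

theorem ME.comp (hf : ME r r' l A B f) (hg : ME r' r'' l B C g) : ME r r'' l A C (g ∘ f) := by
  obtain ⟨h1, h2⟩ := me_cyl_iff (l := l) hf.1 hg.1
  exact h2.2 (((sxj_inl hf.2.2.1).2 hf.2).trans (h1.1 hg).2)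

theorem ME.left (hf : Mo r r' A B f) (hg : ME r' r'' l B C g) (h : ME r r'' l A C (g ∘ f)) :
    ME r r' l A B f := by
  obtain ⟨h1, h2⟩ := me_cyl_iff (l := l) hf hg.1
  have s : A.image Sum.inl ⊆ A.disjSum B :=
    Finset.image_subset_iff.2 fun a ha => Finset.inl_mem_disjSum.2 ha
  exact ⟨hf, (sxj_inl s).1 (GP.left (Finset.image_subset_image s) (h2.1 h) (h1.1 hg).2)⟩

theorem ME.right (hf : ME r r' l A B f) (hg : Mo r' r'' B C g) (h : ME r r'' l A C (g ∘ f)) :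
    ME r' r'' l B C g := by
  obtain ⟨h1, h2⟩ := me_cyl_iff (l := l) hf.1 hg
  refine h1.2 ⟨sxj_mo hf.1 hg, GP.right ?_ (h2.1 h) ((sxj_inl hf.2.2.1).2 hf.2)⟩
  exact Finset.image_subset_iff.2 fun a ha => Finset.inl_mem_disjSum.2 ha

/-- Maps of pairs. -/
theorem gp_pair_iff (hA : A ⊆ A') (hB : B ⊆ B') (h : ME r r' l A B f) (h' : ME r r' l A' B' f) :
    GP r l A A' ↔ GP r' l B B' := by
  rw [← me_incl_iff h'.1.pA hA, ← me_incl_iff h'.1.pB hB]
  exact ⟨fun h1 => h.right ⟨h.1.pB, h'.1.pB, hB, fun _ _ _ _ => id⟩ (h1.comp h'),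
    fun h1 => ME.left ⟨h.1.pA, h'.1.pA, hA, fun _ _ _ _ => id⟩ h' (h.comp h1)⟩

end Pool.Agent.Lib.MP_5ceaf9_gt
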