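import Pool.Agent.Lib.MP_5ceaf9_gt.SxJ

/-! Pullback along monotone maps. -/

noncomputable section

namespace Pool.Agent.Lib.MP_5ceaf9_gt

open Classical Function

variable {α β : Type} [DecidableEq α] [DecidableEq β] [Nonempty α] [Nonempty β]
  {r : α → α → Prop} {r' : β → β → Prop} {l : ℕ}

variable {A : Finset α} {B : Finset β} {f : α → β}

theorem Mo.flat (h : Mo r r' A B f) {Γ : Type} [Group Γ] {c : β → β → Γ}
    (hc : Flat r' (OC r' B) c) : Flat r (OC r A) (fun a b => c (f a) (f b)) :=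
  (flat_OC h.pA).2 fun a ha b hb d hd hab hbd => (flat_OC h.pB).1 hc _ (h.maps a ha) _
    (h.maps b hb) _ (h.maps d hd) (h.mono a ha b hb hab) (h.mono b hb d hd hbd)

theorem sxk_image (h : Mo r r' A B f) {ρ : Finset α} (hρ : ρ ∈ OC r A) :
    ρ.image f ∈ OC r' B := by
  obtain ⟨h1, h2, h3⟩ := mem_OC.1 hρ
  refine mem_OC.2 ⟨Finset.image_subset_iff.2 fun a ha => h.maps a (h1 ha), h2.image f, ?_⟩
  intro x hx y hy
  obtain ⟨a, ha, rfl⟩ := Finset.mem_image.1 hx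
  obtain ⟨b, hb, rfl⟩ := Finset.mem_image.1 hy
  exact (h3 a ha b hb).imp (h.mono a (h1 ha) b (h1 hb)) (h.mono b (h1 hb) a (h1 ha))

theorem sxk_bt (h : Mo r r' A B f) {ρ : Finset α} (hρ : ρ ∈ OC r A) :
    bt r' (ρ.image f) = f (bt r ρ) := by
  obtain ⟨h1, h2, h3⟩ := mem_OC.1 hρ
  obtain ⟨h4, h5⟩ := bt_spec (h.pA.mono h1) h3 h2
  refine bt_eq (h.pB.mono (mem_OC.1 (sxk_image h hρ)).1) (Finset.mem_image_of_mem f h4) ?_
  intro u hu
  obtain ⟨a, ha, rfl⟩ := Finset.mem_image.1 hu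
  exact h.mono _ (h1 h4) a (h1 ha) (h5 a ha)

omit [DecidableEq β] [Nonempty β] in
theorem sxk_sg (h : Mo r r' A B f) {ρ : Finset α} (hρ : ρ ∈ OC r A) {u v : α} (hu : u ∈ ρ)
    (hv : v ∈ ρ) (huv : u ≠ v) (hr : r u v) (e : f u = f v)
    (hx : ∀ x ∈ ρ, f x = f u → x = u ∨ x = v) : sg r ρ u + sg r ρ v = 0 := by
  obtain ⟨h1, -, h3⟩ := mem_OC.1 hρ
  have po := h.pA.mono h1
  have h4 : ρ.filter (fun x => r x v ∧ x ≠ v) = insert u (ρ.filter fun x => r x u ∧ x ≠ u) := by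
    ext x
    simp only [Finset.mem_insert, Finset.mem_filter]
    constructor
    · rintro ⟨hxρ, h5, h6⟩
      by_cases h7 : x = u
      · exact Or.inl h7
      refine Or.inr ⟨hxρ, (h3 x hxρ u hu).resolve_right fun h8 => ?_, h7⟩
      refine (hx x hxρ (h.pB.anti _ (h.maps x (h1 hxρ)) _ (h.maps u (h1 hu)) ?_
        (h.mono u (h1 hu) x (h1 hxρ) h8))).elim h7 h6
      rw [e]
      exact h.mono x (h1 hxρ) v (h1 hv) h5
    · rintro (rfl | ⟨hxρ, h5, h6⟩)
      · exact ⟨hu, hr, huv⟩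
      · refine ⟨hxρ, po.trans x hxρ u hu v hv h5 hr, fun h7 => huv ?_⟩
        exact po.anti u hu v hv hr (h7 ▸ h5)
  rw [sg, sg, h4, Finset.card_insert_of_notMem (by simp), pow_succ]
  ring

theorem sxk_int (h : Mo r r' A B f) {ρ : Finset α} (hρ : ρ ∈ OC r A) (τ : Finset β) :
    (∑ v ∈ ρ, if (ρ.erase v).image f = τ ∧ (ρ.erase v).card = τ.card then sg r ρ v else 0) =
      if ρ.card = (ρ.image f).card then Dz r' (ρ.image f) τ else 0 := by
  obtain ⟨h1, -, h3⟩ := mem_OC.1 hρ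
  have po := h.pA.mono h1
  split_ifs with hc
  · have hi : Set.InjOn f ρ := Finset.card_image_iff.1 hc.symm
    have he : Emb r r' (OC r ρ) f := emb_OC hi (fun a ha b hb => ⟨fun h4 =>
      (h3 a ha b hb).elim id fun h5 => by
        rw [hi ha hb (h.pB.anti _ (h.maps a (h1 ha)) _ (h.maps b (h1 hb)) h4
          (h.mono b (h1 hb) a (h1 ha) h5))]
        exact po.refl b hb, h.mono a (h1 ha) b (h1 hb)⟩) po
    rw [Dz, Finset.sum_image hi]
    refine Finset.sum_congr rfl fun v hv => ?_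
    have h4 : (ρ.image f).erase (f v) = (ρ.erase v).image f := by
      ext y
      simp only [Finset.mem_erase, Finset.mem_image]
      constructor
      · rintro ⟨h5, a, ha, rfl⟩
        exact ⟨a, ⟨fun h6 => h5 (by rw [h6]), ha⟩, rfl⟩
      · rintro ⟨a, ⟨h5, ha⟩, rfl⟩
        exact ⟨fun h6 => h5 (hi ha hv h6), a, ha, rfl⟩
    rw [h4, he.sg (cx_OC po) (mem_OC.2 ⟨subset_rfl, ⟨v, hv⟩, h3⟩) hv]
    refine if_congr ⟨fun h5 => h5.1.symm, fun h5 => ⟨h5.symm, ?_⟩⟩ rfl rfl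
    rw [h5, Finset.card_image_of_injOn (hi.mono (by simp))]
  · by_contra hne
    obtain ⟨v, hv, h4⟩ := Finset.exists_ne_zero_of_sum_ne_zero hne
    have inj : ∀ w, (ρ.erase w).image f = τ ∧ (ρ.erase w).card = τ.card →
        Set.InjOn f (ρ.erase w) := fun w hw =>
      Finset.card_image_iff.1 (by rw [hw.1, hw.2])
    have h5 : (ρ.erase v).image f = τ ∧ (ρ.erase v).card = τ.card := by
      by_contra h5
      exact h4 (if_neg h5)
    have hi := inj v h5
    have mem : ∀ {x w : α}, x ∈ ρ → x ≠ w → x ∈ (↑(ρ.erase w) : Set α) := fun hx hw =>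
      Finset.mem_coe.2 (Finset.mem_erase.2 ⟨hw, hx⟩)
    obtain ⟨u, hu, huv, e⟩ : ∃ u ∈ ρ, u ≠ v ∧ f u = f v := by
      by_contra h6
      refine hc (Finset.card_image_of_injOn fun a ha b hb hab => ?_).symm
      by_contra h7
      by_cases h8 : a = v
      · exact h6 ⟨b, hb, fun h9 => h7 (h8.trans h9.symm), h8 ▸ hab.symm⟩
      by_cases h9 : b = v
      · exact h6 ⟨a, ha, h8, h9 ▸ hab⟩
      exact h7 (hi (mem ha h8) (mem hb h9) hab)
    have hx : ∀ x ∈ ρ, f x = f u → x = u ∨ x = v := fun x hx e' =>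
      (_root_.em (x = v)).symm.imp_left fun h6 => hi (mem hx h6) (mem hu huv) e'
    have h6 : (ρ.erase u).image f = τ ∧ (ρ.erase u).card = τ.card := by
      refine ⟨?_, by rw [← h5.2, Finset.card_erase_of_mem hu, Finset.card_erase_of_mem hv]⟩
      rw [← h5.1]
      ext y
      simp only [Finset.mem_erase, Finset.mem_image]
      constructor
      · rintro ⟨a, ⟨-, ha⟩, rfl⟩
        by_cases h7 : a = v
        · exact ⟨u, ⟨huv, hu⟩, h7 ▸ e⟩
        · exact ⟨a, ⟨h7, ha⟩, rfl⟩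
      · rintro ⟨a, ⟨-, ha⟩, rfl⟩
        by_cases h7 : a = u
        · exact ⟨v, ⟨huv.symm, hv⟩, h7 ▸ e.symm⟩
        · exact ⟨a, ⟨h7, ha⟩, rfl⟩
    refine hne ?_
    rw [Finset.sum_eq_add_of_mem u v hu hv huv fun w _ hw => if_neg fun h7 =>
      huv (inj w h7 (mem hu hw.1.symm) (mem hv hw.2.symm) e), if_pos h5, if_pos h6]
    rcases h3 u hu v hv with h7 | h7
    · exact sxk_sg h hρ hu hv huv h7 e hx
    · rw [add_comm]
      exact sxk_sg h hρ hv hu huv.symm h7 e.symm fun x h8 e' => (hx x h8 (e'.trans e.symm)).symm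

theorem sxk_PB (h : Mo r r' A B f) {Λ : Type} [Ring Λ] {ρ : Finset α} (hρ : ρ ∈ OC r A)
    (M : Finset β → Λ) : ∑ σ : ↥(OC r' B), PB Λ f ρ σ * M σ =
      if ρ.card = (ρ.image f).card then M (ρ.image f) else 0 := by
  rw [Finset.sum_eq_single ⟨_, sxk_image h hρ⟩ (fun σ _ hσ => ?_) (by simp)]
  · simp [PB]
  · rw [PB, if_neg fun h1 => hσ (Subtype.ext h1.1.symm), zero_mul]

/-- For a degenerate `ρ` the two faces obtained by deleting one of two adjacent vertices with the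
same image cancel. -/
theorem cm_PB (h : Mo r r' A B f) {Γ : Type} [Group Γ] {c : β → β → Γ}
    (hc : Flat r' (OC r' B) c) :
    CM (fun x : ↥(OC r A) => ps x.1) (fun x : ↥(OC r' B) => ps x.1)
      (rs (OC r A) (OC r A) (DG r (fun a b => c (f a) (f b)))) (rs (OC r' B) (OC r' B) (DG r' c))
      (rs (OC r A) (OC r' B) (PB (ZG Γ) f)) := by
  refine ⟨dm_DG_abs (cx_OC h.pA) (h.flat hc), dm_DG_abs (cx_OC h.pB) hc, fun x y hxy => ?_, ?_⟩
  · have h1 : x.1.image f = y.1 ∧ x.1.card = y.1.card := by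
      by_contra h1
      exact hxy (if_neg h1)
    simp only [ps, h1.2]
  refine Matrix.ext fun ρ τ => ?_
  simp only [Matrix.mul_apply, rs, Matrix.of_apply]
  rw [sxk_PB h ρ.2 fun σ => DG r' c σ τ]
  have h1 : ∀ ρ' : ↥(OC r A), DG r (fun a b => c (f a) (f b)) ρ ρ' * PB (ZG Γ) f ρ' τ =
      MonoidAlgebra.singleAddHom (c (f (bt r ρ)) (bt r' τ))
        (if ρ'.1.image f = τ ∧ ρ'.1.card = τ.1.card then Dz r ρ ρ' else 0) := fun ρ' => by
    rw [PB]
    split_ifs with h1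
    · rw [mul_one, DG, ← sxk_bt h ρ'.2, h1.1]
      rfl
    · rw [mul_zero, map_zero]
  have h2 : (∑ ρ' : ↥(OC r A), if ρ'.1.image f = τ ∧ ρ'.1.card = τ.1.card then Dz r ρ ρ' else 0) =
      ∑ v ∈ ρ.1, if (ρ.1.erase v).image f = τ ∧ (ρ.1.erase v).card = τ.1.card then sg r ρ v
        else 0 := by
    rw [Finset.sum_coe_sort (OC r A) fun ρ' => if ρ'.image f = τ ∧ ρ'.card = τ.1.card then
      Dz r ρ ρ' else 0]
    simp only [Dz, Finset.ite_sum_zero]
    rw [Finset.sum_comm]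
    refine Finset.sum_congr rfl fun v _ => ?_
    refine (Finset.sum_eq_single (ρ.1.erase v) (fun σ _ hσ => by simp [hσ]) fun h2 => ?_).trans
      (by rw [if_pos rfl])
    refine if_neg fun h3 => h2 ((cx_OC h.pA).down _ ρ.2 _ (Finset.erase_subset _ _) ?_)
    have h4 : (ρ.1.erase v).card = τ.1.card := h3.2
    exact Finset.card_pos.1 (h4 ▸ Finset.card_pos.2 (mem_OC.1 τ.2).2.1)
  rw [Finset.sum_congr rfl fun ρ' _ => h1 ρ', ← map_sum, h2, sxk_int h ρ.2]
  split_ifs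
  · rw [DG, sxk_bt h ρ.2]
    rfl
  · exact map_zero _

theorem PB_comp {γ : Type} [DecidableEq γ] [Nonempty γ] {r'' : γ → γ → Prop} {C : Finset γ}
    {g : β → γ} (hf : Mo r r' A B f) (hg : Mo r' r'' B C g) (Λ : Type) [Ring Λ] :
    rs (OC r A) (OC r' B) (PB Λ f) * rs (OC r' B) (OC r'' C) (PB Λ g) =
      rs (OC r A) (OC r'' C) (PB Λ (g ∘ f)) := by
  refine Matrix.ext fun ρ τ => ?_
  simp only [Matrix.mul_apply, rs, Matrix.of_apply]
  rw [sxk_PB hf ρ.2 fun σ => PB Λ g σ τ, PB, PB, ← Finset.image_image, ← ite_and]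
  refine if_congr ⟨fun h => ⟨h.2.1, h.1.trans h.2.2⟩, fun h => ?_⟩ rfl rfl
  have h1 : (ρ.1.image f).card ≤ ρ.1.card := Finset.card_image_le
  have h2 : ((ρ.1.image f).image g).card ≤ (ρ.1.image f).card := Finset.card_image_le
  rw [h.1] at h2
  exact ⟨by omega, h.1, by omega⟩

/-- For an order embedding the pullback is a restriction up to reindexing (`gd_cone_res`). -/
theorem gd_cone_PB_emb (h : Mo r r' A B f) (hinj : Set.InjOn f A)
    (hr : ∀ a ∈ A, ∀ b ∈ A, (r' (f a) (f b) ↔ r a b)) {Γ : Type} [Group Γ] {c : β → β → Γ}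
    (hc : Flat r' (OC r' B) c) :
    Gd l (PhiG Γ F25) (cpar (fun x : ↥(OC r A) => ps x.1) (fun x : ↥(OC r' B) => ps x.1))
      (cone (rs (OC r A) (OC r A) (DG r (fun a b => c (f a) (f b))))
        (rs (OC r' B) (OC r' B) (DG r' c)) (rs (OC r A) (OC r' B) (PB (ZG Γ) f))) ↔
    Gd l (PhiG Γ F25) (fun x : ↥(OC r' B \ OC r' (A.image f)) => ps x.1)
      (rs (OC r' B \ OC r' (A.image f)) (OC r' B \ OC r' (A.image f)) (DG r' c)) := by
  have he := emb_OC hinj hr h.pA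
  have hA := cx_OC h.pA
  have hK : Cx r' (OC r' (A.image f)) := cx_OC ((pon_image hinj hr).2 h.pA)
  have hq := sub_DG (c := c) hK (cx_OC h.pB).ne
  rw [← gd_blk_rs (X := OC r' B) (fun x => x.1 ∉ OC r' (A.image f)) fun x => by
    simp only [Finset.mem_sdiff, exists_prop], ← gd_cone_res (dm_DG_abs (cx_OC h.pB) hc) hq]
  let e : ↥(OC r A) ≃ {x : ↥(OC r' B) // ¬ x.1 ∉ OC r' (A.image f)} :=
    Equiv.ofBijective (fun ρ => ⟨⟨ρ.1.image f, sxk_image h ρ.2⟩, not_not.2 (by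
      rw [OC_image hinj hr]
      exact Finset.mem_image_of_mem _ ρ.2)⟩) ⟨fun ρ ρ' e => Subtype.ext
        (he.image_inj hA ρ.2 ρ'.2 (congrArg (fun x => x.1.1) e)), fun x => by
      obtain ⟨ρ, h2, h3⟩ := Finset.mem_image.1 ((OC_image hinj hr).subset (not_not.1 x.2))
      exact ⟨⟨ρ, h2⟩, Subtype.ext (Subtype.ext h3)⟩⟩
  rw [← gd_reindex (e.sumCongr (Equiv.refl _))]
  refine iff_of_eq ?_
  congr 1
  · funext x
    rcases x with x | x
    · change ps x.1 = ps (x.1.image f)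
      rw [ps, ps, he.card hA x.2]
    · rfl
  · refine Matrix.ext ?_
    rintro (x | x) (y | y)
    · change DG r (fun a b => c (f a) (f b)) x.1 y.1 = DG r' c (x.1.image f) (y.1.image f)
      rw [DG, DG, he.bt hA x.2, he.bt hA y.2, he.Dz hA x.2 y.2]
    · change PB _ f x.1 y.1 = if (⟨x.1.image f, sxk_image h x.2⟩ : ↥(OC r' B)) = y then 1 else 0
      rw [PB]
      refine if_congr ⟨fun h1 => Subtype.ext h1.1, fun h1 => ?_⟩ rfl rfl
      rw [← h1]
      exact ⟨rfl, (he.card hA x.2).symm⟩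
    · rfl
    · rfl

end Pool.Agent.Lib.MP_5ceaf9_gt
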