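import Pool.Agent.Lib.MP_5ceaf9_gt.SxH

/-! The subdivision chain map. -/

noncomputable section

namespace Pool.Agent.Lib.MP_5ceaf9_gt

open Classical Function

variable {α β : Type} [DecidableEq α] [DecidableEq β] [Nonempty α] [Nonempty β]
  {r : α → α → Prop} {r' : β → β → Prop} {l : ℕ}

variable {A B σ : Finset α} {dm : α → ℕ} {inc : α → α → ℤ} {e f : α}

omit [Nonempty α] in
theorem sxl_zero (h0 : dm e = 0) : sd dm inc e σ = if σ = {e} then 1 else 0 := by
  rw [sd, h0, sdN]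

omit [Nonempty α] in
theorem sxl_succ (h : CoCell r A dm inc) (he : e ∈ A) (hσ : σ ⊆ A) (h0 : dm e ≠ 0) :
    sd dm inc e σ =
      if e ∈ σ then ∑ f ∈ σ.erase e, inc e f * sd dm inc f (σ.erase e) else 0 := by
  obtain ⟨n, hn⟩ := Nat.exists_eq_succ_of_ne_zero h0
  rw [sd, hn, sdN]
  refine if_congr Iff.rfl (Finset.sum_congr rfl fun f hf => ?_) rfl
  by_cases hi : inc e f = 0
  · rw [hi, zero_mul, zero_mul]
  · have h1 := (h.face e he f (hσ (Finset.mem_of_mem_erase hf)) hi).2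
    rw [sd, show dm f = n by omega]

omit [Nonempty α] in
theorem sxl_ne (h : CoCell r A dm inc) (n : ℕ) : ∀ e σ, dm e = n → e ∈ A → σ ⊆ A →
    sd dm inc e σ ≠ 0 → e ∈ σ ∧ (∀ u ∈ σ, r e u) ∧ Tot r σ ∧ σ.card = dm e + 1 := by
  induction n with
  | zero =>
    intro e σ hn he _ h0
    rw [sxl_zero hn] at h0
    obtain rfl : σ = {e} := by
      by_contra h1
      exact h0 (if_neg h1)
    refine ⟨Finset.mem_singleton_self e, fun u hu => ?_, fun a ha b hb => ?_, by simp [hn]⟩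
    · rw [Finset.mem_singleton.1 hu]
      exact h.po.refl e he
    · rw [Finset.mem_singleton.1 ha, Finset.mem_singleton.1 hb]
      exact Or.inl (h.po.refl e he)
  | succ n ih =>
    intro e σ hn he hσ h0
    rw [sxl_succ h he hσ (by omega)] at h0
    have h1 : e ∈ σ := by
      by_contra h1
      exact h0 (if_neg h1)
    rw [if_pos h1] at h0
    obtain ⟨f, hf, h2⟩ := Finset.exists_ne_zero_of_sum_ne_zero h0
    have hfA := hσ (Finset.mem_of_mem_erase hf)
    obtain ⟨h3, h4⟩ := h.face e he f hfA (left_ne_zero_of_mul h2)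
    obtain ⟨-, h5, h6, h7⟩ := ih f (σ.erase e) (by omega) hfA ((σ.erase_subset e).trans hσ)
      (right_ne_zero_of_mul h2)
    have h8 : ∀ u ∈ σ, r e u := fun u hu => by
      by_cases hue : u = e
      · rw [hue]
        exact h.po.refl e he
      · exact h.po.trans e he f hfA u (hσ hu) h3 (h5 u (Finset.mem_erase.2 ⟨hue, hu⟩))
    refine ⟨h1, h8, fun a ha b hb => ?_, ?_⟩
    · by_cases hae : a = e
      · exact Or.inl (hae ▸ h8 b hb)
      by_cases hbe : b = e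
      · exact Or.inr (hbe ▸ h8 a ha)
      exact h6 a (Finset.mem_erase.2 ⟨hae, ha⟩) b (Finset.mem_erase.2 ⟨hbe, hb⟩)
    · rw [← Finset.card_erase_add_one h1]
      omega

omit [Nonempty α] in
/-- Only flags that start at `e` occur. -/
theorem sd_ne (h : CoCell r A dm inc) (he : e ∈ A) (hσ : σ ⊆ A) (h0 : sd dm inc e σ ≠ 0) :
    e ∈ σ ∧ (∀ u ∈ σ, r e u) ∧ Tot r σ ∧ σ.card = dm e + 1 :=
  sxl_ne h _ e σ rfl he hσ h0

omit [Nonempty α] in
theorem sd_single (h : CoCell r A dm inc) (he : e ∈ A) :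
    sd dm inc e {e} = if dm e = 0 then 1 else 0 := by
  split_ifs with h0
  · rw [sxl_zero h0, if_pos rfl]
  · by_contra h1
    have h2 := (sd_ne h he (Finset.singleton_subset_iff.2 he) h1).2.2.2
    rw [Finset.card_singleton] at h2
    omega

omit [Nonempty α] in
/-- One step of the recursion along a chain whose two least elements are `e` and `f`. -/
theorem sd_step (h : CoCell r A dm inc) (hσ : σ ⊆ A) (he : e ∈ σ) (hf : f ∈ σ.erase e)
    (hle : ∀ u ∈ σ.erase e, r f u) :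
    sd dm inc e σ = inc e f * sd dm inc f (σ.erase e) := by
  have hτ := (σ.erase_subset e).trans hσ
  by_cases h0 : dm e = 0
  · rw [sxl_zero h0, if_neg fun h1 => by simp [h1] at hf]
    by_cases hi : inc e f = 0
    · rw [hi, zero_mul]
    · have h1 := (h.face e (hσ he) f (hτ hf) hi).2
      omega
  · rw [sxl_succ h (hσ he) hσ h0, if_pos he]
    refine Finset.sum_eq_single_of_mem f hf fun g hg hgf => ?_
    by_contra h1
    exact hgf (h.po.anti g (hτ hg) f (hτ hf)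
      ((sd_ne h (hτ hg) hτ (right_ne_zero_of_mul h1)).2.1 f hf) (hle g hg))

omit [Nonempty α] in
theorem sxl_rec (h : CoCell r A dm inc) (hσ : σ ⊆ A) (he : e ∈ σ) (h0 : dm e ≠ 0) :
    sd dm inc e σ = ∑ f ∈ A, inc e f * sd dm inc f (σ.erase e) := by
  have hτ := (σ.erase_subset e).trans hσ
  rw [sxl_succ h (hσ he) hσ h0, if_pos he]
  refine Finset.sum_subset hτ fun f hf hn => ?_
  by_contra h1
  exact hn (sd_ne h hf hτ (right_ne_zero_of_mul h1)).1

omit [Nonempty α] in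
/-- The boundary of a cone. -/
theorem sxl_cone {τ : Finset α} (he : e ∉ τ) (h1 : ∀ u ∈ τ, r e u) (h2 : ∀ u ∈ τ, ¬ r u e)
    (ρ : Finset α) : Dz r (insert e τ) ρ =
      (if ρ = τ then 1 else 0) - if e ∈ ρ then Dz r τ (ρ.erase e) else 0 := by
  have s0 : sg r (insert e τ) e = 1 := by
    rw [sg, Finset.filter_eq_empty_iff.2, Finset.card_empty, pow_zero]
    rintro u hu ⟨h3, h4⟩
    exact h2 u ((Finset.mem_insert.1 hu).resolve_left h4) h3
  have s1 : ∀ v ∈ τ, sg r (insert e τ) v = -sg r τ v := fun v hv => by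
    rw [sg, sg, Finset.filter_insert, if_pos ⟨h1 v hv, fun h3 => he (h3 ▸ hv)⟩,
      Finset.card_insert_of_notMem fun h3 => he (Finset.mem_filter.1 h3).1, pow_succ, mul_neg_one]
  rw [Dz, Finset.sum_insert he, Finset.erase_insert he, s0, sub_eq_add_neg]
  congr 1
  have e1 : ∀ v ∈ τ, (ρ = (insert e τ).erase v ↔ e ∈ ρ ∧ ρ.erase e = τ.erase v) := fun v hv => by
    have hev : e ≠ v := fun h3 => he (h3 ▸ hv)
    rw [Finset.erase_insert_of_ne hev]
    constructor
    · rintro rfl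
      exact ⟨Finset.mem_insert_self _ _,
        Finset.erase_insert fun h3 => he (Finset.mem_of_mem_erase h3)⟩
    · rintro ⟨h3, h4⟩
      rw [← h4, Finset.insert_erase h3]
  by_cases hρ : e ∈ ρ
  · rw [if_pos hρ, Dz, ← Finset.sum_neg_distrib]
    refine Finset.sum_congr rfl fun v hv => ?_
    by_cases h3 : ρ.erase e = τ.erase v
    · rw [if_pos ((e1 v hv).2 ⟨hρ, h3⟩), if_pos h3, s1 v hv]
    · rw [if_neg fun h4 => h3 ((e1 v hv).1 h4).2, if_neg h3, neg_zero]
  · rw [if_neg hρ, neg_zero]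
    exact Finset.sum_eq_zero fun v hv => if_neg fun h4 => hρ ((e1 v hv).1 h4).1

/-- The chains that carry the subdivided boundary of `e`. -/
theorem sxl_supp (h : CoCell r A dm inc) (he : e ∈ A) {τ : Finset α} (hτ : τ ⊆ A)
    (h0 : ∑ f ∈ A, inc e f * sd dm inc f τ ≠ 0) :
    τ ∈ OC r A ∧ e ∉ τ ∧ (∀ u ∈ τ, r e u) ∧ ∀ u ∈ τ, ¬ r u e := by
  obtain ⟨f, hf, h2⟩ := Finset.exists_ne_zero_of_sum_ne_zero h0
  obtain ⟨h3, h4⟩ := h.face e he f hf (left_ne_zero_of_mul h2)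
  obtain ⟨h5, h6, h7, -⟩ := sd_ne h hf hτ (right_ne_zero_of_mul h2)
  have h8 : ∀ u ∈ τ, ¬ r u e := fun u hu h9 => by
    have h10 := h.po.anti e he f hf h3 (h.po.trans f hf u (hτ hu) e he (h6 u hu) h9)
    rw [h10] at h4
    omega
  exact ⟨mem_OC.2 ⟨hτ, ⟨f, h5⟩, h7⟩, fun h9 => h8 e h9 (h.po.refl e he),
    fun u hu => h.po.trans e he f hf u (hτ hu) h3 (h6 u hu), h8⟩

theorem sxl_reindex (h : CoCell r A dm inc) (he : e ∈ A) (h0 : dm e ≠ 0) (ρ : Finset α) :
    ∑ σ ∈ OC r A, sd dm inc e σ * Dz r σ ρ =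
      ∑ τ ∈ OC r A, (∑ f ∈ A, inc e f * sd dm inc f τ) * Dz r (insert e τ) ρ := by
  have mem : ∀ σ ∈ OC r A, sd dm inc e σ * Dz r σ ρ ≠ 0 → e ∈ σ := fun σ hσ h1 =>
    (sd_ne h he (mem_OC.1 hσ).1 (left_ne_zero_of_mul h1)).1
  refine Finset.sum_bij_ne_zero (fun σ _ _ => σ.erase e) (fun σ hσ h1 => ?_)
    (fun σ hσ h1 σ' hσ' h1' h2 => ?_) (fun τ hτ h1 => ?_) fun σ hσ h1 => ?_
  · have h2 := left_ne_zero_of_mul h1
    rw [sxl_rec h (mem_OC.1 hσ).1 (mem σ hσ h1) h0] at h2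
    exact (sxl_supp h he ((σ.erase_subset e).trans (mem_OC.1 hσ).1) h2).1
  · rw [← Finset.insert_erase (mem σ hσ h1), ← Finset.insert_erase (mem σ' hσ' h1')]
    exact congrArg _ h2
  · obtain ⟨h2, h3, h4⟩ := mem_OC.1 hτ
    obtain ⟨-, h5, h6, -⟩ := sxl_supp h he h2 (left_ne_zero_of_mul h1)
    have h7 : insert e τ ⊆ A := Finset.insert_subset he h2
    have h8 : ∀ u ∈ insert e τ, r e u := fun u hu => by
      rcases Finset.mem_insert.1 hu with rfl | hu
      · exact h.po.refl _ he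
      · exact h6 u hu
    refine ⟨insert e τ, mem_OC.2 ⟨h7, Finset.insert_nonempty _ _, fun a ha b hb => ?_⟩, ?_,
      Finset.erase_insert h5⟩
    · rcases Finset.mem_insert.1 ha with rfl | ha'
      · exact Or.inl (h8 b hb)
      rcases Finset.mem_insert.1 hb with rfl | hb'
      · exact Or.inr (h8 a ha)
      exact h4 a ha' b hb'
    · rwa [sxl_rec h h7 (Finset.mem_insert_self _ _) h0, Finset.erase_insert h5]
  · rw [Finset.insert_erase (mem σ hσ h1), sxl_rec h (mem_OC.1 hσ).1 (mem σ hσ h1) h0]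

theorem sxl_bd (h : CoCell r A dm inc) (n : ℕ) : ∀ e ρ, dm e = n → e ∈ A → ρ ⊆ A →
    ∑ σ ∈ OC r A, sd dm inc e σ * Dz r σ ρ =
      (if dm e = 0 ∧ ρ = ∅ then 1 else 0) + ∑ f ∈ A, inc e f * sd dm inc f ρ := by
  induction n with
  | zero =>
    intro e ρ hn he _
    have h1 : ∑ f ∈ A, inc e f * sd dm inc f ρ = 0 := Finset.sum_eq_zero fun f hf => by
      by_contra h1
      have h2 := (h.face e he f hf (left_ne_zero_of_mul h1)).2
      omega
    have h2 := sxl_cone (r := r) (Finset.notMem_empty e) (fun _ h => absurd h (by simp))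
      (fun _ h => absurd h (by simp)) ρ
    rw [h1, add_zero, Finset.sum_eq_single_of_mem {e} ((single_mem_OC h.po).2 he)
      fun σ _ hσ => by rw [sxl_zero hn, if_neg hσ, zero_mul], sxl_zero hn, if_pos rfl, one_mul]
    simpa [hn, Dz] using h2
  | succ n ih =>
    intro e ρ hn he hρ
    have hρ' := (ρ.erase_subset e).trans hρ
    have h1 : ∀ τ ∈ OC r A, (∑ f ∈ A, inc e f * sd dm inc f τ) * Dz r (insert e τ) ρ =
        (if ρ = τ then ∑ f ∈ A, inc e f * sd dm inc f τ else 0) -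
          if e ∈ ρ then ∑ f ∈ A, inc e f * (sd dm inc f τ * Dz r τ (ρ.erase e)) else 0 := by
      intro τ hτ
      simp only [← mul_assoc, ← Finset.sum_mul]
      by_cases h0 : ∑ f ∈ A, inc e f * sd dm inc f τ = 0
      · simp [h0]
      · obtain ⟨-, h2, h3, h4⟩ := sxl_supp h he (mem_OC.1 hτ).1 h0
        rw [sxl_cone h2 h3 h4, mul_sub]
        simp only [mul_ite, mul_one, mul_zero]
    have h2 : ∑ τ ∈ OC r A, (if ρ = τ then ∑ f ∈ A, inc e f * sd dm inc f τ else 0) =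
        ∑ f ∈ A, inc e f * sd dm inc f ρ := by
      rw [Finset.sum_ite_eq]
      split_ifs with h2
      · rfl
      · by_contra h3
        exact h2 (sxl_supp h he hρ (Ne.symm h3)).1
    have h3 : ∑ τ ∈ OC r A, ∑ f ∈ A, inc e f * (sd dm inc f τ * Dz r τ (ρ.erase e)) = 0 := by
      have h4 : ∀ f ∈ A, ∑ τ ∈ OC r A, inc e f * (sd dm inc f τ * Dz r τ (ρ.erase e)) =
          (if n = 0 ∧ ρ.erase e = ∅ then inc e f else 0) +
            ∑ g ∈ A, inc e f * inc f g * sd dm inc g (ρ.erase e) := fun f hf => by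
        by_cases hi : inc e f = 0
        · simp [hi]
        · have h5 := (h.face e he f hf hi).2
          have h6 : dm f = n := by omega
          rw [← Finset.mul_sum, ih f _ h6 hf hρ', h6, mul_add, Finset.mul_sum]
          simp only [mul_ite, mul_one, mul_zero, mul_assoc]
      rw [Finset.sum_comm, Finset.sum_congr rfl h4, Finset.sum_add_distrib, Finset.sum_comm,
        Finset.sum_eq_zero (f := fun g => ∑ f ∈ A, inc e f * inc f g * sd dm inc g (ρ.erase e))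
          fun g hg => by rw [← Finset.sum_mul, h.sq e he g hg, zero_mul], add_zero]
      split_ifs with h5
      · exact h.au e he (by omega)
      · exact Finset.sum_const_zero
    rw [sxl_reindex h he (by omega), Finset.sum_congr rfl h1, Finset.sum_sub_distrib, h2,
      if_neg fun h4 => by omega, zero_add, sub_eq_self]
    split_ifs
    · exact h3
    · exact Finset.sum_const_zero

/-- The boundary of the subdivided cell, integral form. Induct on the dimension of `e`. -/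
theorem sd_boundary (h : CoCell r A dm inc) (he : e ∈ A) {ρ : Finset α} (hρ : ρ ∈ OC r A) :
    ∑ σ ∈ OC r A, sd dm inc e σ * Dz r σ ρ = ∑ f ∈ A, inc e f * sd dm inc f ρ := by
  rw [sxl_bd h _ e ρ rfl he (mem_OC.1 hρ).1, if_neg fun h1 => (mem_OC.1 hρ).2.1.ne_empty h1.2,
    zero_add]

/-- The augmentation of a subdivided cell. -/
theorem sd_aug (h : CoCell r A dm inc) (he : e ∈ A) :
    ∑ σ ∈ OC r A, sd dm inc e σ * Dz r σ ∅ = if dm e = 0 then 1 else 0 := by
  have h1 : ∑ f ∈ A, inc e f * sd dm inc f ∅ = 0 := by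
    by_contra h1
    exact (mem_OC.1 (sxl_supp h he (Finset.empty_subset A) h1).1).2.1.ne_empty rfl
  rw [sxl_bd h _ e ∅ rfl he (Finset.empty_subset A), h1, add_zero]
  simp

/-- An entry of a product of matrices with monomial entries. -/
theorem sxl_mul {ι κ μ Γ : Type} [DecidableEq κ] [Group Γ] {X : Finset ι} {Y Y' : Finset κ}
    {Z : Finset μ} {M : ι → κ → ZG Γ} {N : κ → μ → ZG Γ} (x : ↥X) (z : ↥Z) {g g' : κ → Γ}
    {a a' : κ → ℤ} (hM : ∀ y, M x y = MonoidAlgebra.single (g y) (a y))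
    (hN : ∀ y, N y z = MonoidAlgebra.single (g' y) (a' y)) {g₀ : Γ}
    (h : ∀ y ∈ Y, a y * a' y ≠ 0 → y ∉ Y' ∧ g y * g' y = g₀) :
    (rs X (Y \ Y') M * rs (Y \ Y') Z N) x z = MonoidAlgebra.single g₀ (∑ y ∈ Y, a y * a' y) := by
  rw [Matrix.mul_apply]
  refine (Finset.sum_coe_sort (Y \ Y') fun y => M x y * N y z).trans ?_
  rw [← Finset.sum_subset (Finset.sdiff_subset (s := Y) (t := Y')) fun y hy hn => by
    by_contra h1
    exact hn (Finset.mem_sdiff.2 ⟨hy, (h y hy h1).1⟩)]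
  refine Eq.trans (Finset.sum_congr rfl fun y hy => ?_)
    (map_sum (MonoidAlgebra.singleAddHom g₀) (fun y => a y * a' y) (Y \ Y')).symm
  rw [hM, hN, MonoidAlgebra.single_mul_single]
  change _ = MonoidAlgebra.single g₀ _
  by_cases h1 : a y * a' y = 0
  · rw [h1, MonoidAlgebra.single_zero, MonoidAlgebra.single_zero]
  · rw [(h y (Finset.mem_sdiff.1 hy).1 h1).2]

theorem dm_Dc (h : CoCell r A dm inc) (hB : ∀ a ∈ B, ∀ b ∈ A, r a b → b ∈ B)
    {Γ : Type} [Group Γ] {c : α → α → Γ} (hc : Flat r (OC r A) c) :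
    Dm (fun x : ↥(A \ B) => pc dm x.1) (rs (A \ B) (A \ B) (Dc inc c)) := by
  refine ⟨Matrix.ext fun x z => ?_, fun x y hxy => ?_⟩
  · obtain ⟨hx, -⟩ := Finset.mem_sdiff.1 x.2
    obtain ⟨hz, hz'⟩ := Finset.mem_sdiff.1 z.2
    rw [sxl_mul (M := Dc inc c) (N := Dc inc c) x z (fun _ => rfl) (fun _ => rfl) (g₀ := c x z)
        fun y hy h0 => ?_,
      h.sq _ hx _ hz, MonoidAlgebra.single_zero, Matrix.zero_apply]
    have h1 := (h.face _ hx y hy (left_ne_zero_of_mul h0)).1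
    have h2 := (h.face y hy _ hz (right_ne_zero_of_mul h0)).1
    exact ⟨fun h3 => hz' (hB y h3 _ hz h2), (flat_OC h.po).1 hc _ hx y hy _ hz h1 h2⟩
  · have h1 := (h.face _ (Finset.mem_sdiff.1 x.2).1 _ (Finset.mem_sdiff.1 y.2).1
      (MonoidAlgebra.single_ne_zero.1 hxy)).2
    simp only [pc, ne_eq, decide_eq_decide]
    omega

theorem cm_SD (h : CoCell r A dm inc) (hBA : B ⊆ A) (hB : ∀ a ∈ B, ∀ b ∈ A, r a b → b ∈ B)
    {Γ : Type} [Group Γ] {c : α → α → Γ} (hc : Flat r (OC r A) c) :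
    CM (fun x : ↥(A \ B) => pc dm x.1) (fun x : ↥(OC r A \ OC r B) => ps x.1)
      (rs (A \ B) (A \ B) (Dc inc c)) (rs (OC r A \ OC r B) (OC r A \ OC r B) (DG r c))
      (rs (A \ B) (OC r A \ OC r B) (SD Γ dm inc)) := by
  refine ⟨dm_Dc h hB hc, dm_DG (cx_OC (h.po.mono hBA)) (cx_OC h.po) hc, fun x σ h0 => ?_,
    Matrix.ext fun x ρ => ?_⟩
  · have h1 := (sd_ne h (Finset.mem_sdiff.1 x.2).1 (mem_OC.1 (Finset.mem_sdiff.1 σ.2).1).1
      (MonoidAlgebra.single_ne_zero.1 h0)).2.2.2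
    simp only [pc, ps, decide_eq_decide]
    omega
  · obtain ⟨hx, hx'⟩ := Finset.mem_sdiff.1 x.2
    obtain ⟨hρ, hρ'⟩ := Finset.mem_sdiff.1 ρ.2
    obtain ⟨h1, h2, h3⟩ := mem_OC.1 hρ
    rw [sxl_mul (M := Dc inc c) (N := SD Γ dm inc) x ρ (fun _ => rfl) (fun _ => rfl)
        (g₀ := c x (bt r ρ.1)) fun f hf h0 => ?_,
      sxl_mul (M := SD Γ dm inc) (N := DG r c) x ρ (fun _ => rfl) (fun _ => rfl)
        (g₀ := c x (bt r ρ.1)) fun σ hσ h0 => ?_,
      sd_boundary h hx hρ]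
    · have h4 := (mem_OC.1 hσ).1
      obtain ⟨h5, h6, -⟩ := sd_ne h hx h4 (left_ne_zero_of_mul h0)
      exact ⟨fun h7 => hx' ((mem_OC.1 h7).1 h5), by rw [one_mul, bt_eq (h.po.mono h4) h5 h6]⟩
    · obtain ⟨h5, h6, -⟩ := sd_ne h hf h1 (right_ne_zero_of_mul h0)
      exact ⟨fun h7 => hρ' (mem_OC.2 ⟨fun u hu => hB f h7 u (h1 hu) (h6 u hu), h2, h3⟩),
        by rw [mul_one, bt_eq (h.po.mono h1) h5 h6]⟩

end Pool.Agent.Lib.MP_5ceaf9_gt
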