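import Pool.Agent.Lib.MP_5ceaf9_gt.TDefs

/-! Supports, star maps and subdivisions. -/

noncomputable section

namespace Pool.Agent.Lib.MP_5ceaf9_gt

open Classical Function

variable {K K' K'' L M : SC} {σ ρ : Finset ℕ} {l : ℕ}

theorem mem_vts {v : ℕ} : v ∈ vts K ↔ ({v} : Finset ℕ) ∈ K.faces := by
  rw [vts, Finset.mem_biUnion]
  exact ⟨fun ⟨σ, h1, h2⟩ => K.down σ h1 _ (Finset.singleton_subset_iff.2 h2)
    (Finset.singleton_nonempty v), fun h => ⟨_, h, Finset.mem_singleton_self v⟩⟩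

theorem sub_vts (h : σ ∈ K.faces) : σ ⊆ vts K := by
  exact fun v hv => Finset.mem_biUnion.2 ⟨σ, h, hv⟩

theorem mem_spp {x : K.space} {v : ℕ} : v ∈ spp K x ↔ 0 < x.1 v := by
  refine ⟨fun h => (Finset.mem_filter.1 h).2, fun h => Finset.mem_filter.2 ⟨?_, h⟩⟩
  obtain ⟨-, σ, h1, h2, -⟩ := x.2
  exact sub_vts h1 (by_contra fun hv => h.ne' (h2 v hv))

theorem spp_mem (x : K.space) : spp K x ∈ K.faces := by
  obtain ⟨h0, σ, h1, h2, h3⟩ := x.2
  refine K.down σ h1 _ (fun v hv => by_contra fun hn => (mem_spp.1 hv).ne' (h2 v hn)) ?_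
  obtain ⟨v, -, hv⟩ := Finset.exists_ne_zero_of_sum_ne_zero (h3.trans_ne one_ne_zero)
  exact ⟨v, mem_spp.2 ((h0 v).lt_of_ne' hv)⟩

theorem sum_spp (x : K.space) : ∑ v ∈ spp K x, x.1 v = 1 := by
  obtain ⟨h0, σ, -, h2, h3⟩ := x.2
  rw [← h3]
  exact Finset.sum_subset (fun v hv => by_contra fun hn => (mem_spp.1 hv).ne' (h2 v hn))
    fun v _ hv => le_antisymm (not_lt.1 fun k => hv (mem_spp.2 k)) (h0 v)

theorem zero_of_not_spp (x : K.space) {v : ℕ} (h : v ∉ spp K x) : x.1 v = 0 := by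
  exact le_antisymm (not_lt.1 fun k => h (mem_spp.2 k)) (x.2.1 v)

/-- The sum over any set that contains the support. -/
theorem sum_of_spp (x : K.space) (h : spp K x ⊆ σ) : ∑ v ∈ σ, x.1 v = 1 := by
  rw [← sum_spp x]
  exact (Finset.sum_subset h fun v _ hv => zero_of_not_spp x hv).symm

/-- The barycentre. -/
theorem exists_spp (h : σ ∈ K.faces) : ∃ x : K.space, spp K x = σ := by
  have hc : (0 : ℝ) < σ.card := Nat.cast_pos.2 (K.nonempty σ h).card_pos
  refine ⟨⟨fun v => if v ∈ σ then (σ.card : ℝ)⁻¹ else 0, fun v => ?_, σ, h, fun v hv => if_neg hv,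
    ?_⟩, ?_⟩
  · simp only
    split_ifs
    · exact (inv_pos.2 hc).le
    · exact le_rfl
  · rw [Finset.sum_congr rfl fun v hv => if_pos hv, Finset.sum_const, nsmul_eq_mul,
      mul_inv_cancel₀ hc.ne']
  · ext v
    rw [mem_spp]
    by_cases hv : v ∈ σ
    · simpa [hv] using K.nonempty σ h
    · simp [hv]

theorem space_mono (h : K.faces ⊆ L.faces) : K.space ⊆ L.space := by
  rintro w ⟨h0, σ, h1, h2⟩
  exact ⟨h0, σ, h h1, h2⟩

/-- A point of `L` whose support is a simplex of `K` lies in `K`. -/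
theorem mem_space_of_spp (x : L.space) (h : spp L x ∈ K.faces) : x.1 ∈ K.space := by
  exact ⟨x.2.1, _, h, fun v hv => zero_of_not_spp x hv, sum_spp x⟩

/-- A finite union of compact sets: each closed simplex is a closed subset of a product of
intervals. -/
instance SC.compactSpace (K : SC) : CompactSpace K.space := by
  refine isCompact_iff_compactSpace.1 ((isCompact_univ_pi fun _ : ℕ =>
    isCompact_Icc (a := (0 : ℝ)) (b := 1)).of_isClosed_subset ?_ fun w hw v _ => ⟨hw.1 v, ?_⟩)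
  · have e : K.space = (⋂ v, {w : ℕ → ℝ | 0 ≤ w v}) ∩ ⋃ σ ∈ K.faces,
        (⋂ v, ⋂ _ : v ∉ σ, {w : ℕ → ℝ | w v = 0}) ∩ {w | ∑ v ∈ σ, w v = 1} := by
      ext w
      simp only [SC.space, Set.mem_ofPred_eq, Set.mem_inter_iff, Set.mem_iInter, Set.mem_iUnion,
        exists_prop]
    rw [e]
    exact (isClosed_iInter fun v => isClosed_le continuous_const (continuous_apply v)).inter
      (isClosed_biUnion_finset fun σ _ => (isClosed_iInter fun v => isClosed_iInter fun _ =>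
        isClosed_eq (continuous_apply v) continuous_const).inter
        (isClosed_eq (by fun_prop) continuous_const))
  · obtain ⟨h0, σ, -, h2, h3⟩ := hw
    by_cases hv : v ∈ σ
    · exact (Finset.single_le_sum (fun u _ => h0 u) hv).trans_eq h3
    · rw [h2 v hv]
      exact zero_le_one

theorem continuous_coord (K : SC) (v : ℕ) : Continuous (fun x : K.space => x.1 v) := by
  exact (continuous_apply v).comp continuous_subtype_val

theorem mem_Psi {f : K.space → L.space} (h : σ ∈ K.faces) {v : ℕ} :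
    v ∈ Psi f σ ↔ ∀ x : K.space, σ ⊆ spp K x → v ∈ spp L (f x) := by
  refine ⟨fun k x hx => mem_spp.2 ((Finset.mem_filter.1 k).2 x fun u hu => mem_spp.1 (hx hu)),
    fun k => Finset.mem_filter.2 ⟨?_, fun x hx => mem_spp.1 (k x fun u hu => mem_spp.2 (hx u hu))⟩⟩
  obtain ⟨x, hx⟩ := exists_spp h
  exact (Finset.mem_filter.1 (k x hx.ge)).1

theorem Psi_mono {f : K.space → L.space} (h : σ ⊆ ρ) : Psi f σ ⊆ Psi f ρ := by
  intro v hv
  obtain ⟨h1, h2⟩ := Finset.mem_filter.1 hv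
  exact Finset.mem_filter.2 ⟨h1, fun x hx => h2 x fun u hu => hx u (h hu)⟩

theorem Psi_sub {f : K.space → L.space} (x : K.space) : Psi f (spp K x) ⊆ spp L (f x) := by
  exact fun v hv => (mem_Psi (spp_mem x)).1 hv x subset_rfl

theorem Fine.mo {f : K.space → L.space} (h : Fine f) : Mo sbs sbs K.faces L.faces (Psi f) := by
  refine ⟨pon_sbs _, pon_sbs _, fun σ hσ => ?_, fun _ _ _ _ hab => Psi_mono hab⟩
  obtain ⟨x, rfl⟩ := exists_spp hσ
  exact L.down _ (spp_mem (f x)) _ (Psi_sub x) (h _ hσ)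

theorem Psi_comp {f : K.space → L.space} {g : L.space → M.space} (σ : Finset ℕ) :
    Psi g (Psi f σ) ⊆ Psi (g ∘ f) σ := by
  intro v hv
  obtain ⟨h1, h2⟩ := Finset.mem_filter.1 hv
  exact Finset.mem_filter.2 ⟨h1, fun x hx => h2 (f x) fun u hu => (Finset.mem_filter.1 hu).2 x hx⟩

theorem Fine.comp {f : K.space → L.space} {g : L.space → M.space} (hf : Fine f) (hg : Fine g) :
    Fine (g ∘ f) := by
  exact fun σ hσ => (hg _ (hf.mo.maps σ hσ)).mono (Psi_comp σ)

/-- A map with a monotone carrier map. -/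
theorem Psi_eq {f : K.space → L.space} {τ : Finset ℕ → Finset ℕ}
    (hm : ∀ ρ ρ', ρ ⊆ ρ' → τ ρ ⊆ τ ρ') (hs : ∀ x, spp L (f x) = τ (spp K x))
    (h : σ ∈ K.faces) : Psi f σ = τ σ ∧ τ σ ∈ L.faces := by
  obtain ⟨x, rfl⟩ := exists_spp h
  refine ⟨Finset.Subset.antisymm (hs x ▸ Psi_sub x) fun v hv => (mem_Psi h).2 fun y hy => ?_,
    hs x ▸ spp_mem (f x)⟩
  rw [hs]
  exact hm _ _ hy hv

variable {β : K'.space ≃ₜ K.space} {β' : K''.space ≃ₜ K'.space} {τ τ' : Finset ℕ → Finset ℕ}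

theorem Sbd.psi (h : Sbd K' K β τ) (hρ : ρ ∈ K'.faces) : Psi β ρ = τ ρ := by
  exact (Psi_eq h.mono h.supp hρ).1

theorem Sbd.fine (h : Sbd K' K β τ) : Fine β := by
  intro ρ hρ
  rw [h.psi hρ]
  exact K.nonempty _ (Psi_eq h.mono h.supp hρ).2

theorem Sbd.mo (h : Sbd K' K β τ) : Mo sbs sbs K'.faces K.faces τ := by
  exact ⟨pon_sbs _, pon_sbs _, fun ρ hρ => (Psi_eq h.mono h.supp hρ).2,
    fun _ _ _ _ hab => h.mono _ _ hab⟩

theorem Sbd.me (h : Sbd K' K β τ) : ME sbs sbs 2 K'.faces K.faces τ := by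
  exact me_of_fibres h.mo h.fib

/-- The fibre lemma over a down-closed subset. -/
theorem me_fib_restr {α γ : Type} [DecidableEq α] [DecidableEq γ] [Nonempty α] [Nonempty γ]
    {r : α → α → Prop} {r' : γ → γ → Prop} {A A' : Finset α} {B B' : Finset γ} {f : α → γ}
    (h : Mo r r' A B f) (hf : ∀ y ∈ B, CT r l (A.filter (fun a => r' (f a) y))) (hB : B' ⊆ B)
    (hd : ∀ y ∈ B', ∀ x ∈ B, r' x y → x ∈ B') (hA : ∀ a, a ∈ A' ↔ a ∈ A ∧ f a ∈ B') :
    ME r r' l A' B' f := by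
  have hs : A' ⊆ A := fun a ha => ((hA a).1 ha).1
  refine me_of_fibres ⟨h.pA.mono hs, h.pB.mono hB, fun a ha => ((hA a).1 ha).2,
    fun a ha b hb => h.mono a (hs ha) b (hs hb)⟩ fun y hy => ?_
  have e : A'.filter (fun a => r' (f a) y) = A.filter (fun a => r' (f a) y) := by
    ext a
    simp only [Finset.mem_filter, hA]
    exact ⟨fun k => ⟨k.1.1, k.2⟩, fun k => ⟨⟨k.1, hd y hy _ (h.maps a k.1) k.2⟩, k.2⟩⟩
  rw [e]
  exact hf y (hB hy)

theorem Sbd.refl (K : SC) : Sbd K K (Homeomorph.refl _) id := by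
  exact ⟨fun _ _ h => h, fun _ => rfl, fun σ hσ => ct_top (pon_sbs _)
    (Finset.mem_filter.2 ⟨hσ, Finset.Subset.refl σ⟩) fun ρ hρ => (Finset.mem_filter.1 hρ).2,
    fun _ h => h⟩

/-- For the fibres use `me_fib_restr` and `ME.ct_iff`. -/
theorem Sbd.trans (h' : Sbd K'' K' β' τ') (h : Sbd K' K β τ) :
    Sbd K'' K (β'.trans β) (τ ∘ τ') := by
  refine ⟨fun _ _ k => h.mono _ _ (h'.mono _ _ k), fun x => ?_, fun σ hσ => ?_,
    fun n k => h'.dim n (h.dim n k)⟩
  · exact (h.supp (β' x)).trans (congrArg τ (h'.supp x))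
  · refine (me_fib_restr h'.mo h'.fib (Finset.filter_subset _ _) (fun y hy x hx hxy => ?_)
      fun a => ?_).ct_iff.2 (h.fib σ hσ)
    · exact Finset.mem_filter.2
        ⟨hx, Finset.Subset.trans (h.mono _ _ hxy) (Finset.mem_filter.1 hy).2⟩
    · simp only [Finset.mem_filter]
      exact and_congr_right fun ha => ⟨fun k => ⟨h'.mo.maps a ha, k⟩, And.right⟩

end Pool.Agent.Lib.MP_5ceaf9_gt
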