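import Pool.Agent.Lib.MP_5ceaf9_gt.Defs

/-! Homotopy equivalences. -/

noncomputable section

namespace Pool.Agent.Lib.MP_5ceaf9_gt

open Classical Function

variable {X Y Z : Type} [TopologicalSpace X] [TopologicalSpace Y] [TopologicalSpace Z]

theorem isHE_homeo (e : X ≃ₜ Y) : IsHE (⟨e, e.continuous⟩ : C(X, Y)) := by
  refine ⟨⟨e.symm, e.symm.continuous⟩, ?_, ?_⟩
  · convert ContinuousMap.Homotopic.refl (ContinuousMap.id X)
    ext x
    simp
  · convert ContinuousMap.Homotopic.refl (ContinuousMap.id Y)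
    ext x
    simp

theorem IsHE.comp' {f : C(X, Y)} {g : C(Y, Z)} (hf : IsHE f) (hg : IsHE g) : IsHE (g.comp f) := by
  obtain ⟨f', a, b⟩ := hf
  obtain ⟨g', c, d⟩ := hg
  refine ⟨f'.comp g', ?_, ?_⟩
  · exact ((ContinuousMap.Homotopic.refl f').comp
      (c.comp (ContinuousMap.Homotopic.refl f))).trans a
  · exact ((ContinuousMap.Homotopic.refl g).comp
      (b.comp (ContinuousMap.Homotopic.refl g'))).trans d

theorem IsHE.inv {f : C(X, Y)} (hf : IsHE f) : ∃ g : C(Y, X), IsHE g := by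
  obtain ⟨g, a, b⟩ := hf
  exact ⟨g, f, b, a⟩

end Pool.Agent.Lib.MP_5ceaf9_gt
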