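import Pool.Agent.Lib.MP_5ceaf9_gt.TKM1

/-! The torsion of a controlled pair of posets. -/

noncomputable section

namespace Pool.Agent.Lib.MP_5ceaf9_gt

open Classical Function Matrix

variable {α : Type} [DecidableEq α] [Nonempty α] {r : α → α → Prop} {A B : Finset α}
  {φ : α → ℕ} {k : ℕ}

/-- The least vertices of a simplex and of a face. -/
theorem tkm_bt (hp : POn r B) {σ ρ : Finset α} (hσ : σ ∈ OC r B) (hρ : ρ ∈ OC r B)
    (h : Dz r σ ρ ≠ 0) :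
    ρ ⊆ σ ∧ bt r σ ∈ σ ∧ bt r ρ ∈ σ ∧ bt r σ ∈ B ∧ bt r ρ ∈ B ∧ r (bt r σ) (bt r ρ) := by
  obtain ⟨v, -, hv⟩ := Dz_ne h
  have hs : ρ ⊆ σ := hv ▸ Finset.erase_subset v σ
  have hc := cx_OC hp
  have h1 := bt_spec (hc.po _ hσ) (hc.tot _ hσ) (hc.ne _ hσ)
  have h2 := bt_spec (hc.po _ hρ) (hc.tot _ hρ) (hc.ne _ hρ)
  exact ⟨hs, h1.1, hs h2.1, (mem_OC.1 hσ).1 h1.1, (mem_OC.1 hρ).1 h2.1, h1.2 _ (hs h2.1)⟩

theorem tkm_dLP {c : α → α → ℤ} {σ ρ : Finset α} (h : σ.sup φ ≤ k) :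
    dLP r φ k c σ ρ =
      (Dz r σ ρ : LP) * LaurentPolynomial.T (c (bt r σ) (bt r ρ)) := by
  rw [dLP, if_pos h, DG, toS_single]
  rfl

theorem tkm_gauge {ι : Type} [Fintype ι] [DecidableEq ι] {p : ι → Bool} {d : Matrix ι ι F25}
    (hd : Dm p d) (hC : Ctr d) {g g' : ι → F25} (hg : ∀ x, g x * g' x = 1) :
    Dm p (Matrix.of fun x y => g x * d x y * g' y) ∧
      Ctr (Matrix.of fun x y => g x * d x y * g' y) := by
  have h1 : ∀ f : ι → F25, EvenM p p (Matrix.diagonal f) := fun f x y hxy => by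
    rw [not_not.1 fun h => hxy (Matrix.diagonal_apply_ne f h)]
  have h3 : Matrix.diagonal g * d * Matrix.diagonal g' =
      Matrix.of fun x y => g x * d x y * g' y := by
    ext1 x y
    rw [Matrix.mul_diagonal, Matrix.diagonal_mul, Matrix.of_apply]
  have e1 : Matrix.diagonal g * Matrix.diagonal g' = 1 := by
    simp only [Matrix.diagonal_mul_diagonal, hg, Matrix.diagonal_one]
  have e2 : Matrix.diagonal g' * Matrix.diagonal g = 1 := by
    simp only [Matrix.diagonal_mul_diagonal, mul_comm (g' _), hg, Matrix.diagonal_one]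
  rw [← h3]
  exact ⟨hd.conj e2 (h1 g) (h1 g'), hC.conj e1 e2⟩

/-- The normalised case: `κ` vanishes on the high part. Apply `tor_cut` with
`mP σ ρ = Dz σ ρ * T (c (bt σ) (bt ρ) / 8)` and `m0 σ ρ = Dz σ ρ`. -/
theorem tor_norm (hp : POn r B) (hN : ∀ σ ∈ OC r B, σ.card + 3 ≤ k) {κ : α → α → ZMod 8}
    (lip : ∀ a ∈ B, ∀ b ∈ B, r a b → φ a ≤ φ b + 1 ∧ φ b ≤ φ a + 1)
    (h1 : ∀ a ∈ B, ∀ b ∈ B, r a b → 1 ≤ φ a → 1 ≤ φ b → κ a b = 0) {c : α → α → ℤ}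
    (hc : FlA r B (fun a => φ a < k + 1) c)
    (h2 : ∀ a ∈ B, ∀ b ∈ B, r a b → φ a < k + 1 → φ b < k + 1 → (c a b : ZMod 8) = κ a b)
    (hn : ∀ n < k, NulP r (A.filter (fun a => φ a ≤ n)) (B.filter (fun a => φ a ≤ n))
      (A.filter (fun a => φ a ≤ n + 1)) (B.filter (fun a => φ a ≤ n + 1)))
    {d : Matrix ↥(OC r B \ OC r A) ↥(OC r B \ OC r A) F25}
    (hd : ∀ x y, d x y = (Dz r x.1 y.1 : F25) * pw zF (κ (bt r x.1) (bt r y.1)))
    (hD : Dm (fun x => ps x.1) d) (hC : Ctr d) : tor (fun x => ps x.1) d = 1 := by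
  have : IsPrincipalIdealRing LP := lp_pid
  have mem : ∀ x : ↥(OC r B \ OC r A), x.1 ∈ OC r B := fun x => (Finset.mem_sdiff.1 x.2).1
  refine tor_cut (g := fun x : ↥(OC r B \ OC r A) => x.1.card) (lv := fun x => x.1.sup φ)
    (k := k) (dS := rs (OC r B \ OC r A) (OC r B \ OC r A) (dLP r φ k c))
    (mP := Matrix.of fun x y => (Dz r x.1 y.1 : LP) *
      LaurentPolynomial.T (c (bt r x.1) (bt r y.1) / 8))
    (m0 := Matrix.of fun x y => (Dz r x.1 y.1 : ZMod 5))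
    i8 i8_inj e1 evz jF evz_i8 evz_unit jF_pow hD hC (dm_dLP hp hc) ?_ (lv_dLP c _) ?_ ?_ ?_
    (fun x => hN _ (mem x)) (fun n hnk z hz h0 => ctl_dLP hp hc hnk (hn n hnk) z hz h0)
  · intro x y hxy
    simp only [ps, hxy]
  · intro x y hx
    have e : rs (OC r B \ OC r A) (OC r B \ OC r A) (dLP r φ k c) x y =
        dLP r φ k c x.1 y.1 := rfl
    rw [e, tkm_dLP hx, map_mul, map_intCast, evz_T, hd]
    by_cases h0 : Dz r x.1 y.1 = 0
    · simp only [h0, Int.cast_zero, zero_mul]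
    · obtain ⟨-, a1, a2, a3, a4, a5⟩ := tkm_bt hp (mem x) (mem y) h0
      rw [h2 _ a3 _ a4 a5 (Nat.lt_succ_of_le ((Finset.le_sup a1).trans hx))
        (Nat.lt_succ_of_le ((Finset.le_sup a2).trans hx))]
  · intro x y hy
    rw [hd, Matrix.of_apply, map_intCast]
    by_cases h0 : Dz r x.1 y.1 = 0
    · simp only [h0, Int.cast_zero, zero_mul]
    · obtain ⟨a0, a1, a2, a3, a4, a5⟩ := tkm_bt hp (mem x) (mem y) h0
      have b := one_le_bt hp lip (mem x) a0 hy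
      rw [h1 _ a3 _ a4 a5 (b _ a1) (b _ a2), pw_zero, mul_one]
  · intro x y hx hy
    have e : rs (OC r B \ OC r A) (OC r B \ OC r A) (dLP r φ k c) x y =
        dLP r φ k c x.1 y.1 := rfl
    rw [e, tkm_dLP hx, Matrix.of_apply, map_mul, map_intCast, i8_T]
    by_cases h0 : Dz r x.1 y.1 = 0
    · simp only [h0, Int.cast_zero, zero_mul]
    · obtain ⟨a0, a1, a2, a3, a4, a5⟩ := tkm_bt hp (mem x) (mem y) h0
      have b := one_le_bt hp lip (mem x) a0 hy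
      have b1 := h2 _ a3 _ a4 a5 (Nat.lt_succ_of_le ((Finset.le_sup a1).trans hx))
        (Nat.lt_succ_of_le ((Finset.le_sup a2).trans hx))
      rw [h1 _ a3 _ a4 a5 (b _ a1) (b _ a2)] at b1
      have b2 : ((8 : ℕ) : ℤ) ∣ c (bt r x.1) (bt r y.1) :=
        (ZMod.intCast_zmod_eq_zero_iff_dvd _ 8).1 b1
      rw [Int.mul_ediv_cancel' (by exact_mod_cast b2)]

/-- Gauge by `pw zF (- g (bt σ))` (`tor_gauge`) to reach `tor_norm`. -/
theorem tor_of_pot (h : GP r 1 A B) (hN : ∀ σ ∈ OC r B, σ.card + 3 ≤ k) {Γ : Type} [Group Γ]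
    {c : α → α → Γ} (hc : Flat r (OC r B) c) (φ0 : ZG Γ →+* F25) {κ : α → α → ZMod 8}
    (hκ : ∀ a b, φ0 (MonoidAlgebra.single (c a b) 1) = pw zF (κ a b))
    (hp : Pot r B (k + 1) κ φ)
    (hn : ∀ n < k, NulP r (A.filter (fun a => φ a ≤ n)) (B.filter (fun a => φ a ≤ n))
      (A.filter (fun a => φ a ≤ n + 1)) (B.filter (fun a => φ a ≤ n + 1))) :
    tor (fun x : ↥(OC r B \ OC r A) => ps x.1)
      ((rs (OC r B \ OC r A) (OC r B \ OC r A) (DG r c)).map φ0) = 1 := by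
  have mem : ∀ x : ↥(OC r B \ OC r A), x.1 ∈ OC r B := fun x => (Finset.mem_sdiff.1 x.2).1
  obtain ⟨hD, hC, -⟩ := h.2.2.gd Γ c hc
  have hD0 := hD.map φ0
  have hC0 := (hC le_rfl).map φ0
  obtain ⟨g, hg⟩ := hp.triv
  obtain ⟨l, hl1, hl2⟩ := hp.lift
  have hinv : ∀ x : ↥(OC r B \ OC r A),
      pw zF (-g (bt r x.1)) * pw zF (g (bt r x.1)) = 1 := fun x => by
    rw [← pw_add zF8, neg_add_cancel, pw_zero]
  rw [← tor_gauge hD0 hinv fun x => pw_pow8 zF8 _]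
  obtain ⟨hD1, hC1⟩ := tkm_gauge hD0 hC0 hinv
  refine tor_norm (κ := fun a b => -g a + κ a b + g b)
    (c := fun a b => -((g a).val : ℤ) + l a b + ((g b).val : ℤ)) h.1 hN hp.lip ?_ ?_ ?_ hn ?_
    hD1 hC1
  · intro a ha b hb hab h1 h2
    rw [hg a ha b hb hab h1 h2]
    ring
  · intro a ha b hb d hd qa qb qd hab hbd
    have e := hl1 a ha b hb d hd qa qb qd hab hbd
    simp only
    rw [← e]
    ring
  · intro a ha b hb hab qa qb
    push_cast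
    rw [hl2 a ha b hb hab qa qb, ZMod.natCast_zmod_val, ZMod.natCast_zmod_val]
  · intro x y
    have e : ((rs (OC r B \ OC r A) (OC r B \ OC r A) (DG r c)).map φ0) x y =
        φ0 (DG r c x.1 y.1) := rfl
    rw [Matrix.of_apply, e, DG, map_single_int, hκ, pw_add zF8, pw_add zF8]
    ring

end Pool.Agent.Lib.MP_5ceaf9_gt
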