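import Pool.Agent.Lib.MP_5ceaf9_gt.TKP1

/-! Potentials: base case, pullback, monotone form. -/

noncomputable section

namespace Pool.Agent.Lib.MP_5ceaf9_gt

open Classical Function

variable {α β : Type} [DecidableEq α] [DecidableEq β] [Nonempty α] [Nonempty β]
  {r : α → α → Prop} {r' : β → β → Prop} {A : Finset α} {B : Finset β} {f : α → β} {R : ℕ}

/-- Extend the cocycle (as a cocycle in `Multiplicative (ZMod 8)`, `flat_OC`) to the cylinder and
use `Pot.pull` with the gauge `c (inl a) (inr (f a))`. -/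
theorem Sp.of_me (h : ME r r' 0 A B f) (hs : Sp r' B R) : Sp r A R := by
  intro κ hκ
  obtain ⟨m, hp, hsub, hge⟩ := h
  let c : α ⊕ β → α ⊕ β → Multiplicative (ZMod 8) := fun x y =>
    match x, y with
    | .inl a, .inl b => Multiplicative.ofAdd (κ a b)
    | _, _ => 1
  have hc : Flat (cy r r' f) (OC (cy r r' f) (A.image Sum.inl)) c := by
    refine (flat_OC (hp.mono hsub)).2 fun x hx y hy z hz h1 h2 => ?_
    obtain ⟨a, ha, rfl⟩ := Finset.mem_image.1 hx
    obtain ⟨b, hb, rfl⟩ := Finset.mem_image.1 hy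
    obtain ⟨d, hd, rfl⟩ := Finset.mem_image.1 hz
    exact congrArg Multiplicative.ofAdd (hκ a ha b hb d hd trivial trivial trivial h1 h2)
  obtain ⟨c', h1, h2⟩ := hge.eq1.ext _ c hc
  rw [flat_OC hp] at h1
  rw [agree_OC (hp.mono hsub)] at h2
  obtain ⟨φ, hφ⟩ := hs (fun x y => Multiplicative.toAdd (c' (.inr x) (.inr y)))
    fun a ha b hb d hd _ _ _ e1 e2 => congrArg Multiplicative.toAdd
      (h1 _ (Finset.inr_mem_disjSum.2 ha) _ (Finset.inr_mem_disjSum.2 hb) _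
        (Finset.inr_mem_disjSum.2 hd) e1 e2)
  refine ⟨_, hφ.pull m.maps m.mono (fun a => Multiplicative.toAdd (c' (.inl a) (.inr (f a))))
    fun a ha b hb hab => ?_⟩
  have e0 : κ a b = Multiplicative.toAdd (c' (.inl a) (.inl b)) := congrArg Multiplicative.toAdd
    (h2 _ (Finset.mem_image_of_mem _ ha) _ (Finset.mem_image_of_mem _ hb) hab)
  have e1 := congrArg Multiplicative.toAdd (h1 _ (Finset.inl_mem_disjSum.2 ha) _
    (Finset.inl_mem_disjSum.2 hb) _ (Finset.inr_mem_disjSum.2 (m.maps b hb)) hab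
    (m.pB.refl _ (m.maps b hb)))
  have e2 := congrArg Multiplicative.toAdd (h1 _ (Finset.inl_mem_disjSum.2 ha) _
    (Finset.inr_mem_disjSum.2 (m.maps a ha)) _ (Finset.inr_mem_disjSum.2 (m.maps b hb))
    (m.pB.refl _ (m.maps a ha)) (m.mono a ha b hb hab))
  rw [toAdd_mul] at e1 e2
  rw [e0, e2, ← e1, add_sub_cancel_right]

theorem Sp.of_gp {B : Finset α} (h : GP r 0 A B) (hs : Sp r B R) : Sp r A R := by
  exact Sp.of_me ((me_incl_iff h.1 h.2.1).2 h) hs

/-- An order embedding onto `B`. -/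
theorem Sp.of_iso (hA : POn r A) (hinj : Set.InjOn f A)
    (hr : ∀ a ∈ A, ∀ b ∈ A, (r' (f a) (f b) ↔ r a b)) (hs : Sp r' (A.image f) R) : Sp r A R := by
  intro κ hκ
  have hi : ∀ a ∈ A, invFunOn f A (f a) = a := fun a ha => hinj.leftInvOn_invFunOn ha
  obtain ⟨φ, hφ⟩ := hs (fun x y => κ (invFunOn f A x) (invFunOn f A y))
    fun x hx y hy z hz _ _ _ e1 e2 => by
      obtain ⟨a, ha, rfl⟩ := Finset.mem_image.1 hx
      obtain ⟨b, hb, rfl⟩ := Finset.mem_image.1 hy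
      obtain ⟨d, hd, rfl⟩ := Finset.mem_image.1 hz
      simp only [hi a ha, hi b hb, hi d hd]
      exact hκ a ha b hb d hd trivial trivial trivial ((hr a ha b hb).1 e1) ((hr b hb d hd).1 e2)
  refine ⟨_, hφ.pull (fun a ha => Finset.mem_image_of_mem f ha)
    (fun a ha b hb => (hr a ha b hb).2) (fun _ => 0) fun a ha b hb _ => ?_⟩
  simp only [hi a ha, hi b hb, zero_add, sub_zero]

/-- Take half of the supremum of `φ` over the elements below. -/
theorem Pot.monotone {κ : α → α → ZMod 8} {φ : α → ℕ} (hp : POn r A) (h : Pot r A R κ φ) {k : ℕ}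
    (hk : 2 * k + 2 ≤ R) :
    ∃ ψ : α → ℕ, Pot r A (k + 1) κ ψ ∧ ∀ a ∈ A, ∀ b ∈ A, r a b → ψ a ≤ ψ b := by
  let Φ : α → ℕ := fun a => (A.filter fun b => r b a).sup φ
  have h1 : ∀ a ∈ A, φ a ≤ Φ a := fun a ha =>
    Finset.le_sup (f := φ) (Finset.mem_filter.2 ⟨ha, hp.refl a ha⟩)
  have h2 : ∀ a ∈ A, Φ a ≤ φ a + 1 := fun a ha => Finset.sup_le fun b hb =>
    (h.lip b (Finset.mem_filter.1 hb).1 a ha (Finset.mem_filter.1 hb).2).1
  have h3 : ∀ a ∈ A, ∀ b ∈ A, r a b → Φ a ≤ Φ b := fun a ha b hb hab =>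
    Finset.sup_mono fun x hx => Finset.mem_filter.2 ⟨(Finset.mem_filter.1 hx).1,
      hp.trans x (Finset.mem_filter.1 hx).1 a ha b hb (Finset.mem_filter.1 hx).2 hab⟩
  obtain ⟨g, hg⟩ := h.triv
  obtain ⟨c, hc, hc'⟩ := h.lift
  have h4 : ∀ a ∈ A, Φ a / 2 < k + 1 → φ a < R := fun a ha e => by
    have := h1 a ha
    omega
  have h5 : ∀ a ∈ A, 1 ≤ Φ a / 2 → 1 ≤ φ a := fun a ha e => by
    have := h2 a ha
    omega
  refine ⟨fun a => Φ a / 2, ⟨fun a ha b hb hab => ?_,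
    ⟨g, fun a ha b hb hab e1 e2 => hg a ha b hb hab (h5 a ha e1) (h5 b hb e2)⟩,
    ⟨c, fun a ha b hb d hd e1 e2 e3 => hc a ha b hb d hd (h4 a ha e1) (h4 b hb e2) (h4 d hd e3),
      fun a ha b hb hab e1 e2 => hc' a ha b hb hab (h4 a ha e1) (h4 b hb e2)⟩⟩,
    fun a ha b hb hab => Nat.div_le_div_right (h3 a ha b hb hab)⟩
  have := h1 a ha
  have := h2 b hb
  have := h3 a ha b hb hab
  have := (h.lip a ha b hb hab).2
  constructor <;> omega

end Pool.Agent.Lib.MP_5ceaf9_gt
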