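import Pool.Agent.Lib.MP_5ceaf9_gt.TKG
import Pool.Agent.Lib.MP_5ceaf9_gt.TKM
import Pool.Agent.Lib.MP_5ceaf9_gt.TKP

/-! Controlled equivalences have trivial torsion. -/

noncomputable section

namespace Pool.Agent.Lib.MP_5ceaf9_gt

open Classical Function

variable {α β : Type} [DecidableEq α] [DecidableEq β] [Nonempty α] [Nonempty β]
  {r : α → α → Prop} {r' : β → β → Prop} {X : Finset α} {Y : Finset β} {f : α → β}

/-- A chain of the cylinder is the union of a chain of `X` and a chain of `Y`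
(`Finset.toLeft`, `Finset.toRight`). -/
theorem card_cy {N : ℕ} (hX : ∀ σ ∈ OC r X, σ.card ≤ N) (hY : ∀ σ ∈ OC r' Y, σ.card ≤ N) :
    ∀ σ ∈ OC (cy r r' f) (X.disjSum Y), σ.card ≤ 2 * N := by
  intro σ hσ
  obtain ⟨h1, -, h2⟩ := mem_OC.1 hσ
  have e := σ.card_toLeft_add_card_toRight
  have a1 : σ.toLeft.card ≤ N := by
    rcases σ.toLeft.eq_empty_or_nonempty with h0 | h0
    · simp [h0]
    · exact hX _ (mem_OC.2 ⟨fun a ha => Finset.inl_mem_disjSum.1 (h1 (Finset.mem_toLeft.1 ha)), h0,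
        fun a ha b hb => h2 _ (Finset.mem_toLeft.1 ha) _ (Finset.mem_toLeft.1 hb)⟩)
  have a2 : σ.toRight.card ≤ N := by
    rcases σ.toRight.eq_empty_or_nonempty with h0 | h0
    · simp [h0]
    · exact hY _ (mem_OC.2 ⟨fun a ha => Finset.inr_mem_disjSum.1 (h1 (Finset.mem_toRight.1 ha)), h0,
        fun a ha b hb => h2 _ (Finset.mem_toRight.1 ha) _ (Finset.mem_toRight.1 hb)⟩)
  omega

theorem CE.me_one (h : CE r r' X Y f) (hf : Mo r r' X Y f) : ME r r' 1 X Y f := by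
  have hl : Low r' Y Y := ⟨subset_rfl, fun _ _ a ha _ => ha⟩
  have hm : ∀ a, a ∈ X ↔ a ∈ X ∧ f a ∈ Y := fun a => ⟨fun ha => ⟨ha, hf.maps a ha⟩, And.left⟩
  exact (h Y Y hl hl (fun _ _ b hb _ => hb) X X hm hm).me hf

/-- The sublevel sets of a monotone potential pulled back to the cylinder. -/
theorem CE.nulP (h : CE r r' X Y f) (hf : Mo r r' X Y f) {φ : β → ℕ}
    (hm : ∀ a ∈ Y, ∀ b ∈ Y, r' a b → φ a ≤ φ b) (hl : ∀ a ∈ Y, ∀ b ∈ Y, r' a b → φ b ≤ φ a + 1)
    (n : ℕ) :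
    NulP (cy r r' f) ((X.image Sum.inl).filter (fun z => φ (Sum.elim f id z) ≤ n))
      ((X.disjSum Y).filter (fun z => φ (Sum.elim f id z) ≤ n))
      ((X.image Sum.inl).filter (fun z => φ (Sum.elim f id z) ≤ n + 1))
      ((X.disjSum Y).filter (fun z => φ (Sum.elim f id z) ≤ n + 1)) := by
  have e1 : ∀ m, (X.image Sum.inl).filter (fun z => φ (Sum.elim f id z) ≤ m) =
      (X.filter (fun a => φ (f a) ≤ m)).image (Sum.inl : α → α ⊕ β) := by
    intro m
    ext (a | b) <;> simp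
  have e2 : ∀ m, (X.disjSum Y).filter (fun z => φ (Sum.elim f id z) ≤ m) =
      (X.filter (fun a => φ (f a) ≤ m)).disjSum (Y.filter (fun b => φ b ≤ m)) := by
    intro m
    ext (a | b) <;> simp
  have hL : ∀ m, Low r' Y (Y.filter (fun b => φ b ≤ m)) := fun m =>
    ⟨Finset.filter_subset _ _, fun b hb a ha hab => Finset.mem_filter.2
      ⟨ha, (hm a ha b (Finset.mem_filter.1 hb).1 hab).trans (Finset.mem_filter.1 hb).2⟩⟩
  have hR : ∀ m a, a ∈ X.filter (fun a => φ (f a) ≤ m) ↔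
      a ∈ X ∧ f a ∈ Y.filter (fun b => φ b ≤ m) := fun m a => by
    simp only [Finset.mem_filter]
    exact and_congr_right fun ha => ⟨fun k => ⟨hf.maps a ha, k⟩, And.right⟩
  rw [e1, e1, e2, e2]
  refine (h _ _ (hL n) (hL (n + 1)) (fun a ha b hb hab => ?_) _ _ (hR n) (hR (n + 1))).nulP
    ⟨hf.pA.mono (Finset.filter_subset _ _), hf.pB.mono (Finset.filter_subset _ _),
      fun a ha => ((hR _ a).1 ha).2, fun a ha b hb =>
        hf.mono a (Finset.mem_filter.1 ha).1 b (Finset.mem_filter.1 hb).1⟩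
    (Finset.monotone_filter_right _ fun a _ k => Nat.le_succ_of_le k)
    (Finset.monotone_filter_right _ fun a _ k => Nat.le_succ_of_le k)
  obtain ⟨k1, k2⟩ := Finset.mem_filter.1 ha
  exact Finset.mem_filter.2 ⟨hb, (hl a k1 b hb hab).trans (Nat.succ_le_succ k2)⟩

/-- Given `c` and `φ0`, choose `κ` by `exists_log`; it is flat by `pw_injK`. Restrict it to `Y`,
take a monotone potential (`Pot.monotone` with `k = 2 * N + 3`) and pull it back to the cylinder
along `Sum.elim f id` with the gauge `κ z (inr (Sum.elim f id z))`. -/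
theorem t4_me (h : CE r r' X Y f) (hf : Mo r r' X Y f) {N R : ℕ}
    (hX : ∀ σ ∈ OC r X, σ.card ≤ N) (hY : ∀ σ ∈ OC r' Y, σ.card ≤ N) (hs : Sp r' Y R)
    (hR : 4 * N + 8 ≤ R) : ME r r' 2 X Y f := by
  have h1 := (h.me_one hf).2
  have hp := hf.pon_cy
  refine ⟨hf, hp, h1.2.1, h1.2.2.cK, h1.2.2.cL, h1.2.2.sub, h1.2.2.eq1, fun Γ _ c hc =>
    ⟨(h1.2.2.gd Γ c hc).1, fun _ => (h1.2.2.gd Γ c hc).2.1 le_rfl, fun _ φ0 hφ => ?_⟩⟩
  choose κ hκ using fun a b => exists_log _ (hφ (c a b))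
  have hF : ∀ a ∈ X.disjSum Y, ∀ b ∈ X.disjSum Y, ∀ d ∈ X.disjSum Y, cy r r' f a b →
      cy r r' f b d → κ a b + κ b d = κ a d := by
    intro a ha b hb d hd hab hbd
    refine pw_injK ?_
    rw [pw_add zF8, ← hκ, ← hκ, ← hκ, ← map_mul, MonoidAlgebra.single_mul_single, mul_one,
      (flat_OC hp).1 hc a ha b hb d hd hab hbd]
  have hI : ∀ b ∈ Y, Sum.inr b ∈ X.disjSum Y := fun b hb => Finset.inr_mem_disjSum.2 hb
  obtain ⟨φ, hφ'⟩ := hs (fun a b => κ (.inr a) (.inr b)) fun a ha b hb d hd _ _ _ hab hbd =>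
    hF _ (hI a ha) _ (hI b hb) _ (hI d hd) hab hbd
  obtain ⟨ψ, k1, k2⟩ := hφ'.monotone hf.pB (k := 2 * N + 3) (by omega)
  have m1 : ∀ z ∈ X.disjSum Y, Sum.elim f id z ∈ Y := by
    rintro (a | a) ha
    · exact hf.maps a (Finset.inl_mem_disjSum.1 ha)
    · exact Finset.inr_mem_disjSum.1 ha
  have m2 : ∀ z ∈ X.disjSum Y, cy r r' f z (.inr (Sum.elim f id z)) := by
    intro z hz
    have := hf.pB.refl _ (m1 z hz)
    cases z <;> exact this
  have m3 : ∀ a ∈ X.disjSum Y, ∀ b ∈ X.disjSum Y, cy r r' f a b →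
      r' (Sum.elim f id a) (Sum.elim f id b) := by
    rintro (a | a) ha (b | b) hb hab
    · exact hf.mono a (Finset.inl_mem_disjSum.1 ha) b (Finset.inl_mem_disjSum.1 hb) hab
    · exact hab
    · exact hab.elim
    · exact hab
  have k3 := k1.pull (r := cy r r' f) (κ := κ) m1 m3 (fun z => κ z (.inr (Sum.elim f id z)))
    fun a ha b hb hab => by
      have e1 := hF a ha b hb _ (hI _ (m1 b hb)) hab (m2 b hb)
      have e2 := hF a ha _ (hI _ (m1 a ha)) _ (hI _ (m1 b hb)) (m2 a ha) (m3 a ha b hb hab)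
      rw [e2, ← e1, add_sub_cancel_right]
  exact tor_of_pot h1 (fun σ hσ => Nat.add_le_add_right (card_cy hX hY σ hσ) 3) hc φ0 hκ k3
    fun n _ => h.nulP hf k2 (fun a ha b hb hab => (k1.lip a ha b hb hab).2) n

end Pool.Agent.Lib.MP_5ceaf9_gt
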