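import Pool.Agent.Lib.MP_5ceaf9_gt.TKP

/-! Subdivision doubles the range of a potential. -/

noncomputable section

namespace Pool.Agent.Lib.MP_5ceaf9_gt

open Classical Function

variable {α : Type} [DecidableEq α] [Nonempty α] {r : α → α → Prop} {A : Finset α} {R : ℕ}

/-- The largest element of a chain with the property `q`. -/
def topq (r : α → α → Prop) (q : α → Prop) (σ : Finset α) : α := bt (swap r) (σ.filter q)

theorem topq_spec (hp : POn r A) {q : α → Prop} {σ : Finset α} (hσ : σ ∈ OC r A)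
    (h : ∃ a ∈ σ, q a) : topq r q σ ∈ σ ∧ q (topq r q σ) ∧ ∀ a ∈ σ, q a → r a (topq r q σ) := by
  obtain ⟨h1, -, h2⟩ := mem_OC.1 hσ
  obtain ⟨a, ha, hq⟩ := h
  have hs : σ.filter q ⊆ σ := Finset.filter_subset _ _
  obtain ⟨b1, b2⟩ := bt_spec (r := swap r) (σ := σ.filter q) (hp.mono (hs.trans h1)).swap
    (fun u hu v hv => (h2 u (hs hu) v (hs hv)).symm) ⟨a, Finset.mem_filter.2 ⟨ha, hq⟩⟩
  exact ⟨hs b1, (Finset.mem_filter.1 b1).2, fun u hu hqu => b2 u (Finset.mem_filter.2 ⟨hu, hqu⟩)⟩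

/-- A cocycle on the chains comes from the cocycle
`κ a b = κ' {a} {a, b} - κ' {b} {a, b}` on the poset: for `a ∈ σ`, `b ∈ τ`, `σ ⊆ τ`, `r a b` one
has `κ' σ τ = κ a b - κ' {a} σ + κ' {b} τ`. -/
theorem exists_unsd (hp : POn r A) {κ' : Finset α → Finset α → ZMod 8}
    (h : FlA (· ⊆ ·) (OC r A) (fun _ => True) κ') :
    ∃ κ : α → α → ZMod 8, FlA r A (fun _ => True) κ ∧ ∀ σ ∈ OC r A, ∀ τ ∈ OC r A, σ ⊆ τ →
      ∀ a ∈ σ, ∀ b ∈ τ, r a b → κ' σ τ = κ a b - κ' {a} σ + κ' {b} τ := by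
  have hc := cx_OC hp
  have one : ∀ τ ∈ OC r A, ∀ a ∈ τ, ({a} : Finset α) ∈ OC r A := fun τ hτ a ha =>
    hc.down τ hτ _ (Finset.singleton_subset_iff.2 ha) (Finset.singleton_nonempty a)
  have key : ∀ τ ∈ OC r A, ∀ a ∈ τ, ∀ b ∈ τ,
      κ' {a} {a, b} - κ' {b} {a, b} = κ' {a} τ - κ' {b} τ := by
    intro τ hτ a ha b hb
    have hs : ({a, b} : Finset α) ⊆ τ :=
      Finset.insert_subset ha (Finset.singleton_subset_iff.2 hb)
    have hab : ({a, b} : Finset α) ∈ OC r A := hc.down τ hτ _ hs (Finset.insert_nonempty _ _)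
    have e1 := h _ (one τ hτ a ha) _ hab _ hτ trivial trivial trivial
      (Finset.singleton_subset_iff.2 (Finset.mem_insert_self _ _)) hs
    have e2 := h _ (one τ hτ b hb) _ hab _ hτ trivial trivial trivial
      (Finset.singleton_subset_iff.2 (Finset.mem_insert_of_mem (Finset.mem_singleton_self _))) hs
    rw [← e1, ← e2]
    ring
  refine ⟨fun a b => κ' {a} {a, b} - κ' {b} {a, b}, fun a ha b hb d hd _ _ _ hab hbd => ?_,
    fun σ hσ τ hτ hs a ha b hb _ => ?_⟩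
  · have had := hp.trans a ha b hb d hd hab hbd
    have hτ : ({a, b, d} : Finset α) ∈ OC r A := by
      refine mem_OC.2 ⟨?_, Finset.insert_nonempty _ _, ?_⟩
      · exact Finset.insert_subset ha (Finset.insert_subset hb (Finset.singleton_subset_iff.2 hd))
      · have ra := hp.refl a ha
        have rb := hp.refl b hb
        have rd := hp.refl d hd
        intro u hu v hv
        simp only [Finset.mem_insert, Finset.mem_singleton] at hu hv
        rcases hu with rfl | rfl | rfl <;> rcases hv with rfl | rfl | rfl <;>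
          first | exact Or.inl ‹_› | exact Or.inr ‹_›
    have ma : a ∈ ({a, b, d} : Finset α) := by simp
    have mb : b ∈ ({a, b, d} : Finset α) := by simp
    have md : d ∈ ({a, b, d} : Finset α) := by simp
    show (κ' {a} {a, b} - κ' {b} {a, b}) + (κ' {b} {b, d} - κ' {d} {b, d}) =
      κ' {a} {a, d} - κ' {d} {a, d}
    rw [key _ hτ a ma b mb, key _ hτ b mb d md, key _ hτ a ma d md]
    ring
  · have e := h _ (one σ hσ a ha) _ hσ _ hτ trivial trivial trivial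
      (Finset.singleton_subset_iff.2 ha) hs
    show κ' σ τ = (κ' {a} {a, b} - κ' {b} {a, b}) - κ' {a} σ + κ' {b} τ
    rw [key τ hτ a (hs ha) b hb, ← e]
    ring

/-- The new potential of a chain is the sum of the least and the largest value of the old one
(for the least value use `sInf (φ '' σ)` or `Finset.inf'`). Where it is positive use
`topq r (1 ≤ φ ·)`, where it is below `2 * R` use `topq r (φ · < R)`. -/
theorem Sp.sd (hp : POn r A) (h : Sp r A R) : Sp (· ⊆ ·) (OC r A) (2 * R) := by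
  intro κ' hκ'
  obtain ⟨κ, hκ, hf⟩ := exists_unsd hp hκ'
  obtain ⟨φ, lip, ⟨g, hg⟩, c, hc, hcκ⟩ := h κ hκ
  have hlo : ∀ σ : Finset α, ∃ a, σ.Nonempty → a ∈ σ ∧ ∀ b ∈ σ, φ a ≤ φ b := fun σ => by
    by_cases hn : σ.Nonempty
    · obtain ⟨a, ha⟩ := σ.exists_min_image φ hn
      exact ⟨a, fun _ => ha⟩
    · exact ⟨Classical.arbitrary α, fun hn' => absurd hn' hn⟩
  have hhi : ∀ σ : Finset α, ∃ a, σ.Nonempty → a ∈ σ ∧ ∀ b ∈ σ, φ b ≤ φ a := fun σ => by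
    by_cases hn : σ.Nonempty
    · obtain ⟨a, ha⟩ := σ.exists_max_image φ hn
      exact ⟨a, fun _ => ha⟩
    · exact ⟨Classical.arbitrary α, fun hn' => absurd hn' hn⟩
  choose lo hlo using hlo
  choose hi hhi using hhi
  have pos : ∀ σ ∈ OC r A, 1 ≤ φ (lo σ) + φ (hi σ) → ∃ a ∈ σ, 1 ≤ φ a := by
    intro σ hσ h1
    have hn := (mem_OC.1 hσ).2.1
    have := (hlo σ hn).2 _ (hhi σ hn).1
    exact ⟨hi σ, (hhi σ hn).1, by omega⟩
  have low : ∀ σ ∈ OC r A, φ (lo σ) + φ (hi σ) < 2 * R → ∃ a ∈ σ, φ a < R := by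
    intro σ hσ h1
    have hn := (mem_OC.1 hσ).2.1
    have := (hlo σ hn).2 _ (hhi σ hn).1
    exact ⟨lo σ, (hlo σ hn).1, by omega⟩
  refine ⟨fun σ => φ (lo σ) + φ (hi σ), fun σ hσ τ hτ hs => ?_,
    ⟨fun σ => g (topq r (fun a => 1 ≤ φ a) σ) - κ' {topq r (fun a => 1 ≤ φ a) σ} σ,
      fun σ hσ τ hτ hs h1 h2 => ?_⟩,
    fun σ τ => c (topq r (fun a => φ a < R) σ) (topq r (fun a => φ a < R) τ) -
      ((κ' {topq r (fun a => φ a < R) σ} σ).val : ℤ) +
      ((κ' {topq r (fun a => φ a < R) τ} τ).val : ℤ),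
    fun σ hσ τ hτ υ hυ h1 h2 h3 hs ht => ?_, fun σ hσ τ hτ hs h1 h2 => ?_⟩
  · have hn := (mem_OC.1 hσ).2.1
    obtain ⟨t1, tn, t2⟩ := mem_OC.1 hτ
    obtain ⟨a1, a2⟩ := hlo σ hn
    obtain ⟨b1, -⟩ := hhi σ hn
    obtain ⟨c1, c2⟩ := hlo τ tn
    obtain ⟨d1, d2⟩ := hhi τ tn
    have e1 := a2 _ b1
    have e2 := c2 _ (hs a1)
    have e3 := d2 _ (hs b1)
    have e4 : φ (hi τ) ≤ φ (lo τ) + 1 := by
      rcases t2 _ c1 _ d1 with e | e
      · exact (lip _ (t1 c1) _ (t1 d1) e).2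
      · exact (lip _ (t1 d1) _ (t1 c1) e).1
    constructor <;> omega
  · obtain ⟨a1, a2, -⟩ := topq_spec hp hσ (pos σ hσ h1)
    obtain ⟨b1, b2, b3⟩ := topq_spec hp hτ (pos τ hτ h2)
    have hab := b3 _ (hs a1) a2
    rw [hf σ hσ τ hτ hs _ a1 _ b1 hab,
      hg _ ((mem_OC.1 hσ).1 a1) _ ((mem_OC.1 hτ).1 b1) hab a2 b2]
    ring
  · obtain ⟨a1, a2, -⟩ := topq_spec hp hσ (low σ hσ h1)
    obtain ⟨b1, b2, b3⟩ := topq_spec hp hτ (low τ hτ h2)
    obtain ⟨d1, d2, d3⟩ := topq_spec hp hυ (low υ hυ h3)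
    have e := hc _ ((mem_OC.1 hσ).1 a1) _ ((mem_OC.1 hτ).1 b1) _ ((mem_OC.1 hυ).1 d1) a2 b2 d2
      (b3 _ (hs a1) a2) (d3 _ (ht b1) b2)
    simp only
    rw [← e]
    ring
  · obtain ⟨a1, a2, -⟩ := topq_spec hp hσ (low σ hσ h1)
    obtain ⟨b1, b2, b3⟩ := topq_spec hp hτ (low τ hτ h2)
    have hab := b3 _ (hs a1) a2
    rw [hf σ hσ τ hτ hs _ a1 _ b1 hab,
      ← hcκ _ ((mem_OC.1 hσ).1 a1) _ ((mem_OC.1 hτ).1 b1) hab a2 b2]
    push_cast
    rw [ZMod.natCast_zmod_val, ZMod.natCast_zmod_val]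

omit [Nonempty α] in
theorem tkq_chain {K : Finset (Finset α)} {N : ℕ} (h : ∀ σ ∈ K, σ.Nonempty ∧ σ.card ≤ N) :
    ∀ σ ∈ OC (· ⊆ ·) K, σ.card ≤ N := by
  intro σ hσ
  obtain ⟨h1, -, h2⟩ := mem_OC.1 hσ
  have e : σ.card ≤ (Finset.Icc 1 N).card := by
    refine Finset.card_le_card_of_injOn Finset.card (fun u hu => ?_) fun u hu v hv e => ?_
    · exact Finset.mem_coe.2 (Finset.mem_Icc.2 ⟨(h u (h1 hu)).1.card_pos, (h u (h1 hu)).2⟩)
    · rcases h2 u hu v hv with e' | e'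
      · exact Finset.eq_of_subset_of_card_le e' e.ge
      · exact (Finset.eq_of_subset_of_card_le e' e.le).symm
  rwa [Nat.card_Icc, Nat.add_sub_cancel] at e

/-- Chains of chains are not longer than chains. -/
theorem card_sd {N : ℕ} (h : ∀ σ ∈ OC r A, σ.card ≤ N) :
    ∀ σ ∈ OC (· ⊆ ·) (OC r A), σ.card ≤ N := by
  exact tkq_chain fun σ hσ => ⟨(mem_OC.1 hσ).2.1, h σ hσ⟩

/-- A chain of nonempty sets of cardinality at most `N` has at most `N` elements. -/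
theorem card_chainK {K : Finset (Finset α)} {N : ℕ} (h : ∀ σ ∈ K, σ.Nonempty ∧ σ.card ≤ N) :
    ∀ σ ∈ OC (· ⊆ ·) K, σ.card ≤ N := by
  exact tkq_chain h

end Pool.Agent.Lib.MP_5ceaf9_gt
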