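import Pool.Agent.Lib.MP_5ceaf9_gt.TTel
import Pool.Agent.Lib.MP_5ceaf9_gt.THe
import Pool.Agent.Lib.MP_5ceaf9_gt.TKN
import Pool.Agent.Lib.MP_5ceaf9_gt.TKQ

/-! Homeomorphisms onto thin complexes have trivial torsion. -/

noncomputable section

namespace Pool.Agent.Lib.MP_5ceaf9_gt

open Classical Function

/-- Subdivisions carry potentials of any range. -/
def ThinS (K : SC) : Prop :=
  ∀ R, ∃ (K' : SC) (β : K'.space ≃ₜ K.space) (τ : Finset ℕ → Finset ℕ) (R' : ℕ),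
    Sbd K' K β τ ∧ R ≤ R' ∧ Sp sbs K'.faces R'

theorem thinS_of_sp {K : SC} {R0 : ℕ} (h0 : 1 ≤ R0) (h : Sp sbs K.faces R0) : ThinS K := by
  intro R
  induction R with
  | zero => exact ⟨K, _, _, R0, Sbd.refl K, Nat.zero_le _, h⟩
  | succ R ih =>
    rcases Nat.eq_zero_or_pos R with rfl | hR
    · exact ⟨K, _, _, R0, Sbd.refl K, h0, h⟩
    · obtain ⟨K', β, τ, R', hs, hR', hp⟩ := ih
      obtain ⟨β', -, hs'⟩ := exists_bar K'
      exact ⟨sdK K', _, _, 2 * R', hs'.trans hs, by omega,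
        Sp.of_me (me_unlab (pon_sbs K'.faces) enc_inj.injOn) (Sp.sd (pon_sbs K'.faces) hp)⟩

theorem thinS_lab {α : Type} [DecidableEq α] [Nonempty α] {r : α → α → Prop} {A : Finset α}
    (h : POn r A) {ℓ : α → ℕ} (hi : Set.InjOn ℓ A) (ht : Sp r A 1) : ThinS (labK h ℓ) :=
  thinS_of_sp (R0 := 2 * 1) (by norm_num) (Sp.of_me (me_unlab h hi) (Sp.sd h ht))

theorem ThinS.pull {K L : SC} {f : K.space → L.space} (cf : Continuous f) (hf : GoodM 0 f)
    (h : ThinS L) : ThinS K := by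
  intro R
  obtain ⟨L', β, τ, R', hs, hR, hp⟩ := h R
  have c1 : Continuous (β.symm ∘ f) := β.symm.continuous.comp cf
  obtain ⟨K', β', τ', hs', hfi⟩ := exists_fine c1
  have g1 : GoodM 0 (β.symm ∘ f) := by
    refine GoodM.left (Nat.zero_le 2) c1 β.continuous (hs.good (Nat.zero_le 2)) ?_
    have e : β ∘ β.symm ∘ f = f := funext fun x => β.apply_symm_apply _
    rwa [e]
  exact ⟨K', β', τ', R', hs', hR, Sp.of_me ((goodM_iff (Nat.zero_le 2) hs' hfi).1 g1) hp⟩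

theorem ce_homeo {X Y : SC} (e : X.space ≃ₜ Y.space) (he : Fine e) :
    CE sbs sbs X.faces Y.faces (Psi e) := by
  intro T T' hT hT' hu R R' hR hR'
  obtain ⟨Y', β1, τ1, s1, f1⟩ := exists_fine e.symm.continuous
  obtain ⟨X', β2, τ2, s2, f2⟩ := exists_fine (β1.symm.continuous.comp e.continuous)
  have mψ := he.mo
  have mg := f1.mo
  have mf := f2.mo
  set g := Psi (e.symm ∘ β1) with hg
  set f := Psi ((β1.symm ∘ e) ∘ β2) with hf
  have l1 : ∀ q ∈ Y'.faces, sbs (Psi e (g q)) (τ1 q) := fun q hq => by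
    have h1 := Psi_comp (f := e.symm ∘ β1) (g := e) q
    have e1 : e ∘ e.symm ∘ β1 = β1 := funext fun x => e.apply_symm_apply _
    rwa [e1, s1.psi hq] at h1
  have l2 : ∀ p ∈ X'.faces, sbs (g (f p)) (τ2 p) := fun p hp => by
    have h1 := Psi_comp (f := (β1.symm ∘ e) ∘ β2) (g := e.symm ∘ β1) p
    have e1 : (e.symm ∘ β1) ∘ (β1.symm ∘ e) ∘ β2 = β2 := funext fun x => by simp
    rwa [e1, s2.psi hp] at h1
  have dR : ∀ y ∈ R, ∀ x ∈ X.faces, sbs x y → x ∈ R := fun y hy x hx hxy =>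
    (hR x).2 ⟨hx, hT.2 _ ((hR y).1 hy).2 _ (mψ.maps x hx) (mψ.mono x hx y ((hR y).1 hy).1 hxy)⟩
  have m2 : ME sbs sbs 1 (X'.faces.filter (fun p => τ2 p ∈ R)) R τ2 :=
    me_fib_restr s2.mo (fun y hy => (s2.fib y hy).mono one_le_two) (fun a ha => ((hR a).1 ha).1)
      dR fun a => Finset.mem_filter
  have m1 : ME sbs sbs 1 (Y'.faces.filter (fun q => τ1 q ∈ T')) T' τ1 :=
    me_fib_restr s1.mo (fun y hy => (s1.fib y hy).mono one_le_two) hT'.1 hT'.2
      fun a => Finset.mem_filter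
  have gf : ∀ p ∈ X'.faces.filter (fun p => τ2 p ∈ R), g (f p) ∈ R := fun p hp => by
    obtain ⟨h1, h2⟩ := Finset.mem_filter.1 hp
    exact dR _ h2 _ (mg.maps _ (mf.maps p h1)) (l2 p h1)
  have pg : ∀ q ∈ Y'.faces.filter (fun q => τ1 q ∈ T'), Psi e (g q) ∈ T' := fun q hq => by
    obtain ⟨h1, h2⟩ := Finset.mem_filter.1 hq
    exact hT'.2 _ h2 _ (mψ.maps _ (mg.maps q h1)) (l1 q h1)
  have ma : Mo sbs sbs (X'.faces.filter (fun p => τ2 p ∈ R))
      (Y'.faces.filter (fun q => τ1 q ∈ T')) f := by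
    refine ⟨pon_sbs _, pon_sbs _, fun p hp => ?_, fun _ _ _ _ h => Psi_mono h⟩
    have h1 := mf.maps p (Finset.mem_filter.1 hp).1
    exact Finset.mem_filter.2 ⟨h1, hu _ ((hR _).1 (gf p hp)).2 _ (s1.mo.maps _ h1) (l1 _ h1)⟩
  have mb : Mo sbs sbs (Y'.faces.filter (fun q => τ1 q ∈ T')) R' g :=
    ⟨pon_sbs _, pon_sbs _, fun q hq => (hR' _).2 ⟨mg.maps q (Finset.mem_filter.1 hq).1, pg q hq⟩,
      fun _ _ _ _ h => Psi_mono h⟩
  refine ⟨Finset ℕ, Finset ℕ, inferInstance, inferInstance, inferInstance, inferInstance, sbs, sbs,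
    _, _, f, g, ma, mb, ?_, ?_⟩
  · exact (me_homotopy ⟨pon_sbs _, pon_sbs _, gf, fun _ _ _ _ h => Psi_mono (Psi_mono h)⟩ m2.1
      fun p hp => l2 p (Finset.mem_filter.1 hp).1).2 m2
  · exact (me_homotopy ⟨pon_sbs _, pon_sbs _, pg, fun _ _ _ _ h => Psi_mono (Psi_mono h)⟩ m1.1
      fun q hq => l1 q (Finset.mem_filter.1 hq).1).2 m1

theorem ThinS.good {K L : SC} (h : ThinS L) (e : K.space ≃ₜ L.space) : GoodM 2 e := by
  obtain ⟨N, hK, hL⟩ : ∃ N, (∀ σ ∈ K.faces, σ.card ≤ N) ∧ ∀ σ ∈ L.faces, σ.card ≤ N :=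
    ⟨(K.faces ∪ L.faces).sup Finset.card,
      fun σ hσ => Finset.le_sup (f := Finset.card) (Finset.mem_union_left _ hσ),
      fun σ hσ => Finset.le_sup (f := Finset.card) (Finset.mem_union_right _ hσ)⟩
  obtain ⟨Y, β, τ, R, hs, hR, hp⟩ := h (4 * N + 8)
  obtain ⟨X, β', τ', hs', hf⟩ := exists_fine (β.symm.continuous.comp e.continuous)
  let e' : X.space ≃ₜ Y.space := β'.trans (e.trans β.symm)
  have hf' : Fine e' := hf
  have g1 : GoodM 2 e' := (goodM_fine le_rfl hf').2 (t4_me (ce_homeo e' hf') hf'.mo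
    (fun _ hσ => card_chain (hs'.dim N hK) hσ) (fun _ hσ => card_chain (hs.dim N hL) hσ) hp hR)
  refine GoodM.right le_rfl β'.continuous e.continuous (hs'.good le_rfl) ?_
  have e1 : e ∘ β' = β ∘ e' := funext fun x => (β.apply_symm_apply _).symm
  rw [e1]
  exact g1.comp le_rfl e'.continuous β.continuous (hs.good le_rfl)

end Pool.Agent.Lib.MP_5ceaf9_gt
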