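import Pool.Agent.Lib.MP_5ceaf9_gt.DefsT

/-! Edge loops exist and are flat; a contraction can be taken of degree one. -/

noncomputable section

namespace Pool.Agent.Lib.MP_5ceaf9_gt

open Classical

theorem SC.sum_one {L : SC} (x : L.space) {σ : Finset ℕ} (h : ∀ v, v ∉ σ → (x : ℕ → ℝ) v = 0) :
    ∑ v ∈ σ, (x : ℕ → ℝ) v = 1 := by
  obtain ⟨-, τ, -, hz, h1⟩ := x.2
  rw [← h1, Finset.sum_subset (Finset.subset_union_left (s₂ := τ)) fun v _ hv => h v hv,
    Finset.sum_subset (Finset.subset_union_right (s₁ := σ)) fun v _ hv => hz v hv]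

theorem SC.mix_mem {L : SC} {σ : Finset ℕ} (hσ : σ ∈ L.faces) (x y : L.space)
    (hx : ∀ v, v ∉ σ → (x : ℕ → ℝ) v = 0) (hy : ∀ v, v ∉ σ → (y : ℕ → ℝ) v = 0)
    (s : unitInterval) : (fun v => (1 - (s : ℝ)) * (x : ℕ → ℝ) v + s * (y : ℕ → ℝ) v) ∈ L.space := by
  refine ⟨fun v => add_nonneg (mul_nonneg (sub_nonneg.2 s.2.2) (x.2.1 v)) (mul_nonneg s.2.1 (y.2.1 v)),
    σ, hσ, fun v hv => by simp only [hx v hv, hy v hv, mul_zero, add_zero], ?_⟩
  rw [Finset.sum_add_distrib, ← Finset.mul_sum, ← Finset.mul_sum, SC.sum_one x hx, SC.sum_one y hy]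
  ring

theorem SC.homotopic {L : SC} {σ : Finset ℕ} (hσ : σ ∈ L.faces) {x y : L.space} (f g : Path x y)
    (hf : ∀ t v, v ∉ σ → (f t : ℕ → ℝ) v = 0) (hg : ∀ t v, v ∉ σ → (g t : ℕ → ℝ) v = 0) :
    f.Homotopic g := by
  refine ⟨⟨⟨⟨fun z => ⟨_, SC.mix_mem hσ (f z.2) (g z.2) (hf _) (hg _) z.1⟩, ?_⟩, fun t => ?_,
    fun t => ?_⟩, fun s t ht => ?_⟩⟩
  · have k : ∀ (f : Path x y) v, Continuous fun z : unitInterval × unitInterval =>
        (f z.2 : ℕ → ℝ) v := fun f v => (continuous_apply v).comp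
          (continuous_subtype_val.comp (f.continuous.comp continuous_snd))
    exact Continuous.subtype_mk (continuous_pi fun v =>
      (Continuous.mul (by fun_prop) (k f v)).add (Continuous.mul (by fun_prop) (k g v))) _
  · ext v
    simp
  · ext v
    simp
  · ext v
    rcases ht with rfl | rfl <;> simp <;> ring

theorem EdgeLoops.mul {L : SC} {x0 : L.space} {c : ℕ → ℕ → FundamentalGroup L.space x0}
    (h : EdgeLoops L x0 c) {a b d : ℕ} (hσ : {a, b, d} ∈ L.faces) : c a b * c b d = c a d := by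
  obtain ⟨p, γ, -, he⟩ := h
  obtain ⟨e1, s1, h1⟩ := he a b (L.down _ hσ _ (by grind) (by simp))
  obtain ⟨e2, s2, h2⟩ := he b d (L.down _ hσ _ (by grind) (by simp))
  obtain ⟨e3, s3, h3⟩ := he a d (L.down _ hσ _ (by grind) (by simp))
  have h4 : (e2.trans e1).Homotopic e3 := by
    refine SC.homotopic hσ _ _ (fun t v hv => ?_) fun t v hv => s3 t v (by grind) (by grind)
    rw [Path.trans_apply]
    split_ifs
    · exact s2 _ v (by grind) (by grind)
    · exact s1 _ v (by grind) (by grind)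
  rw [h1, h2, h3, FundamentalGroup.mul_def]
  simp only [Path.Homotopic.Quotient.mk_trans, Path.Homotopic.Quotient.mk_symm,
    ← Path.Homotopic.Quotient.eq.2 h4, Path.Homotopic.Quotient.trans_assoc]
  rw [← Path.Homotopic.Quotient.trans_assoc (Path.Homotopic.Quotient.mk (γ b)).symm,
    Path.Homotopic.Quotient.symm_trans, Path.Homotopic.Quotient.refl_trans]

theorem exists_edgeLoops (L : SC) [PathConnectedSpace L.space] (x0 : L.space) :
    ∃ c, EdgeLoops L x0 c := by
  have hv : ∀ v, {v} ∈ L.faces → (Pi.single v 1 : ℕ → ℝ) ∈ L.space := fun v h =>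
    ⟨fun u => by rw [Pi.single_apply]; split_ifs <;> simp, {v}, h,
      fun u hu => Pi.single_eq_of_ne (by simpa using hu) _, by simp⟩
  let p : ℕ → L.space := fun v => if h : {v} ∈ L.faces then ⟨_, hv v h⟩ else x0
  have hp : ∀ v, {v} ∈ L.faces → (p v : ℕ → ℝ) = Pi.single v 1 := fun v h => by simp only [p, dif_pos h]
  have he : ∀ a b, ∃ e : Path (p b) (p a), {a, b} ∈ L.faces →
      ∀ t u, u ≠ a → u ≠ b → (e t : ℕ → ℝ) u = 0 := by
    intro a b
    by_cases h : {a, b} ∈ L.faces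
    swap
    · exact ⟨PathConnectedSpace.somePath _ _, fun h' => absurd h' h⟩
    have ha : ∀ u, u ∉ ({a, b} : Finset ℕ) → (p a : ℕ → ℝ) u = 0 := fun u hu => by
      rw [hp a (L.down _ h _ (by simp) (by simp)), Pi.single_eq_of_ne (by grind)]
    have hb : ∀ u, u ∉ ({a, b} : Finset ℕ) → (p b : ℕ → ℝ) u = 0 := fun u hu => by
      rw [hp b (L.down _ h _ (by simp) (by simp)), Pi.single_eq_of_ne (by grind)]
    refine ⟨⟨⟨fun s => ⟨_, SC.mix_mem h (p b) (p a) hb ha s⟩,
      Continuous.subtype_mk (continuous_pi fun v => by fun_prop) _⟩, ?_, ?_⟩, fun _ t u h1 h2 => ?_⟩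
    · ext v
      simp
    · ext v
      simp
    · show (1 - (t : ℝ)) * (p b : ℕ → ℝ) u + t * (p a : ℕ → ℝ) u = 0
      rw [ha u (by grind), hb u (by grind), mul_zero, mul_zero, add_zero]
  choose e he using he
  exact ⟨_, p, fun v => PathConnectedSpace.somePath x0 (p v), fun v h => by simp [hp v h],
    fun a b h => ⟨e a b, he a b h, rfl⟩⟩

theorem IsHE.pathConnected {X Y : Type} [TopologicalSpace X] [TopologicalSpace Y]
    [PathConnectedSpace X] {f : C(X, Y)} (h : IsHE f) : PathConnectedSpace Y := by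
  obtain ⟨g, -, ⟨H⟩⟩ := h
  have k : ∀ y, Joined (f (g y)) y := fun y => ⟨H.evalAt y⟩
  exact ⟨(PathConnectedSpace.nonempty (X := X)).map f, fun x y => ((k x).symm.trans
    ⟨(PathConnectedSpace.somePath (g x) (g y)).map f.continuous⟩).trans (k y)⟩

variable {R ι : Type} [Ring R] [Fintype ι] [DecidableEq ι] {n : ι → ℕ} {D s : Matrix ι ι R}

theorem contr_graded (hD : ∀ σ ρ, D σ ρ ≠ 0 → n σ = n ρ + 1) (h : D * s + s * D = 1) :
    ∃ s, IsContr n D s := by
  refine ⟨Matrix.of fun σ ρ => if n ρ = n σ + 1 then s σ ρ else 0, fun σ ρ hs => ?_, ?_⟩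
  · by_contra hn
    exact hs (if_neg hn)
  ext1 σ ρ
  simp only [Matrix.add_apply, Matrix.mul_apply, Matrix.of_apply]
  by_cases e : n σ = n ρ
  · rw [← h, Matrix.add_apply, Matrix.mul_apply, Matrix.mul_apply]
    congr 1 <;> refine Finset.sum_congr rfl fun τ _ => ?_
    · by_cases h0 : D σ τ = 0
      · rw [h0, zero_mul, zero_mul]
      · rw [if_pos (e ▸ hD _ _ h0)]
    · by_cases h0 : D τ ρ = 0
      · rw [h0, mul_zero, mul_zero]
      · rw [if_pos (e ▸ hD _ _ h0)]
  · rw [Matrix.one_apply_ne fun h1 => e (congrArg n h1), Finset.sum_eq_zero, Finset.sum_eq_zero,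
      add_zero] <;> intro τ _
    · by_cases h0 : D τ ρ = 0
      · rw [h0, mul_zero]
      · rw [if_neg (by have := hD _ _ h0; omega), zero_mul]
    · by_cases h0 : D σ τ = 0
      · rw [h0, zero_mul]
      · rw [if_neg (by have := hD _ _ h0; omega), mul_zero]

theorem contr_equiv (φ : R →+* ℤ) (hD : ∀ σ ρ, D σ ρ ≠ 0 → n σ = n ρ + 1) (h : D * s + s * D = 1) :
    Nonempty ({σ // n σ % 2 = 0} ≃ {σ // n σ % 2 = 1}) := by
  have h1 : ∑ σ, (-1 : ℤ) ^ n σ = 0 := by
    have h2 : ∀ σ, (-1 : ℤ) ^ n σ = ∑ τ, (-1) ^ n σ * (φ (D σ τ) * φ (s τ σ)) +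
        ∑ τ, (-1) ^ n σ * (φ (D τ σ) * φ (s σ τ)) := fun σ => by
      have h3 := congrArg φ (congrFun (congrFun h σ) σ)
      simp only [Matrix.add_apply, Matrix.mul_apply, Matrix.one_apply_eq, map_add, map_sum, map_mul,
        map_one] at h3
      simp only [mul_comm (φ (s _ _))] at h3
      rw [← Finset.mul_sum, ← Finset.mul_sum, ← mul_add, h3, mul_one]
    rw [Finset.sum_congr rfl fun σ _ => h2 σ, Finset.sum_add_distrib, Finset.sum_comm,
      ← Finset.sum_add_distrib]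
    refine Finset.sum_eq_zero fun σ _ => ?_
    rw [← Finset.sum_add_distrib]
    refine Finset.sum_eq_zero fun τ _ => ?_
    by_cases h0 : D τ σ = 0
    · simp [h0]
    · rw [hD _ _ h0]
      ring
  rw [← Finset.sum_filter_add_sum_filter_not _ fun σ => n σ % 2 = 0,
    Finset.sum_congr rfl (g := fun _ => 1) fun σ hσ =>
      (Nat.even_iff.2 (Finset.mem_filter.1 hσ).2).neg_one_pow,
    Finset.sum_congr rfl (g := fun _ => -1) fun σ hσ =>
      (Nat.odd_iff.2 (by have := (Finset.mem_filter.1 hσ).2; omega)).neg_one_pow] at h1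
  refine Fintype.card_eq.1 ?_
  rw [Fintype.card_subtype, Fintype.card_subtype,
    Finset.filter_congr (p := fun σ => n σ % 2 = 1) (q := fun σ => ¬ n σ % 2 = 0)
      fun σ _ => by omega]
  simp only [Finset.sum_const, nsmul_eq_mul, mul_one, mul_neg] at h1
  omega

end Pool.Agent.Lib.MP_5ceaf9_gt
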