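import Pool.Agent.Lib.MP_5ceaf9_gt.Main2
import Pool.Agent.Lib.MP_5ceaf9_gt.TDefd

/-! The torsion of an h-cobordism is defined in every triangulation. -/

noncomputable section

namespace Pool.Agent.Lib.MP_5ceaf9_gt

open Classical

theorem hcob_defined {A B : Closed4} (cA : ConnectedSpace A.M) (h : HCob A B) {K L : SC}
    (t : L.space ≃ₜ h.W) (hKL : K.faces ⊆ L.faces)
    (hr : ∀ x, t x ∈ Set.range h.i ↔ (x : ℕ → ℝ) ∈ K.space) :
    ∃ x0 c, EdgeLoops L x0 c ∧ (∃ s, IsContr (fun σ : ↥(L.faces \ K.faces) => σ.1.card)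
      (Matrix.of fun σ ρ => bdM c σ.1 ρ.1) s) ∧
      Nonempty ({σ : ↥(L.faces \ K.faces) // σ.1.card % 2 = 0} ≃
        {σ : ↥(L.faces \ K.faces) // σ.1.card % 2 = 1}) := by
  have := ChartedSpace.locallyPathConnectedSpace (EuclideanSpace ℝ (Fin 4)) A.M
  have : PathConnectedSpace A.M := pathConnectedSpace_iff_connectedSpace.2 cA
  have := h.hei.pathConnected
  have : PathConnectedSpace L.space := t.symm.surjective.pathConnectedSpace t.symm.continuous
  obtain ⟨x0⟩ : Nonempty L.space := PathConnectedSpace.nonempty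
  obtain ⟨c, hc⟩ := exists_edgeLoops L x0
  obtain ⟨s, hs⟩ := exists_subTri t h.hi.isEmbedding hKL hr
  have g := (V.ge_iff_gp (cx_faces K) (cx_faces L) hKL).2
    ((goodM_incl one_le_two hKL hs).1 (isHE_readIn s t h.hei).good)
  obtain ⟨u, hu⟩ := (g.gd _ c fun a b d hσ _ _ => hc.mul hσ).2.1 le_rfl
  have hL : ∀ x : ↥(L.faces \ K.faces), x.1.Nonempty := fun x =>
    L.nonempty _ (Finset.mem_sdiff.1 x.2).1
  have e : rs (L.faces \ K.faces) (L.faces \ K.faces) (DG (· ≤ ·) c) =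
      Matrix.of fun σ ρ : ↥(L.faces \ K.faces) => bdM c σ.1 ρ.1 := by
    ext1 x y
    exact (bdM_eq c (hL x) (hL y)).symm
  have hD : ∀ σ ρ : ↥(L.faces \ K.faces), (Matrix.of fun σ ρ : ↥(L.faces \ K.faces) =>
      bdM c σ.1 ρ.1) σ ρ ≠ 0 → σ.1.card = ρ.1.card + 1 := fun σ ρ h0 => by
    have := gr_DG (r := (· ≤ ·)) (c := c) _ _ σ ρ (e ▸ h0)
    simp only at this
    omega
  rw [e] at hu
  exact ⟨x0, c, hc, contr_graded hD hu, contr_equiv
    (MonoidAlgebra.lift ℤ ℤ _ 1).toRingHom hD hu⟩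

end Pool.Agent.Lib.MP_5ceaf9_gt
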