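import Pool.Agent.Lib.MP_5ceaf9_gt.Shared
import Pool.Agent.Lib.MP_5ceaf9_gt.SxO

/-! Definitions for the comparison of triangulations: simplicial approximation on face posets. -/

noncomputable section

namespace Pool.Agent.Lib.MP_5ceaf9_gt

open Classical Function

section faces

/-- Inclusion of finite sets, as an explicit relation. -/
def sbs {α : Type} (σ τ : Finset α) : Prop := σ ⊆ τ

/-- The vertices of a complex. -/
def vts (K : SC) : Finset ℕ := K.faces.biUnion id

/-- The support of a point. -/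
def spp (K : SC) (x : K.space) : Finset ℕ := (vts K).filter (fun v => 0 < x.1 v)

/-- The vertices whose open star contains the image of the open star of `σ`. -/
def Psi {K L : SC} (f : K.space → L.space) (σ : Finset ℕ) : Finset ℕ :=
  (vts L).filter (fun v => ∀ x : K.space, (∀ u ∈ σ, 0 < x.1 u) → 0 < (f x).1 v)

/-- The star condition. -/
def Fine {K L : SC} (f : K.space → L.space) : Prop := ∀ σ ∈ K.faces, (Psi f σ).Nonempty

/-- `K'` is a subdivision of `K`, with carrier map `τ`. -/
structure Sbd (K' K : SC) (β : K'.space ≃ₜ K.space) (τ : Finset ℕ → Finset ℕ) : Prop where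
  mono : ∀ ρ ρ', ρ ⊆ ρ' → τ ρ ⊆ τ ρ'
  supp : ∀ x, spp K (β x) = τ (spp K' x)
  fib : ∀ σ ∈ K.faces, CT sbs 2 (K'.faces.filter (fun ρ => sbs (τ ρ) σ))
  dim : ∀ n, (∀ σ ∈ K.faces, σ.card ≤ n) → ∀ ρ ∈ K'.faces, ρ.card ≤ n

/-- The map is an equivalence of level `l` after subdivision. -/
def GoodM (l : ℕ) {K L : SC} (f : K.space → L.space) : Prop :=
  ∃ (K' : SC) (β : K'.space ≃ₜ K.space) (τ : Finset ℕ → Finset ℕ), Sbd K' K β τ ∧
    Fine (f ∘ β) ∧ ME sbs sbs l K'.faces L.faces (Psi (f ∘ β))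

/-- The invariant of the face poset. -/
def PDK (K : SC) : Prop := PD sbs (OC sbs K.faces)

/-- The code of a finite set. -/
def enc (σ : Finset ℕ) : ℕ := Encodable.encode σ

/-- The finite set with a given code. -/
def dec (n : ℕ) : Finset ℕ := (Encodable.decode (α := Finset ℕ) n).getD ∅

theorem dec_enc (σ : Finset ℕ) : dec (enc σ) = σ := by simp [dec, enc]

theorem enc_inj : Injective enc := LeftInverse.injective dec_enc

theorem pon_sbs {α : Type} (A : Finset (Finset α)) : POn sbs A :=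
  ⟨fun _ _ => Finset.Subset.refl _, fun _ _ _ _ h h' => Finset.Subset.antisymm h h',
    fun _ _ _ _ _ _ h h' => Finset.Subset.trans h h'⟩

/-- The order complex of a poset, labelled by natural numbers. -/
def labK {α : Type} [DecidableEq α] [Nonempty α] {r : α → α → Prop} {A : Finset α} (h : POn r A)
    (ℓ : α → ℕ) : SC where
  faces := im ℓ (OC r A)
  nonempty ρ hρ := by
    obtain ⟨σ, hσ, rfl⟩ := Finset.mem_image.1 hρ
    exact ((cx_OC h).ne σ hσ).image ℓ
  down ρ hρ τ hτ hn := by
    obtain ⟨σ, hσ, rfl⟩ := Finset.mem_image.1 hρ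
    obtain ⟨σ', h1, rfl⟩ := Finset.subset_image_iff.1 hτ
    exact Finset.mem_image.2 ⟨σ', (cx_OC h).down σ hσ σ' h1 (Finset.image_nonempty.1 hn), rfl⟩

/-- The barycentric subdivision. -/
def sdK (K : SC) : SC := labK (pon_sbs K.faces) enc

/-- The carrier of a simplex of the barycentric subdivision. -/
def topK (ρ : Finset ℕ) : Finset ℕ := ρ.biUnion dec

/-- The barycentric map. -/
def barF (K : SC) (w : ℕ → ℝ) (v : ℕ) : ℝ :=
  ∑ σ ∈ K.faces, w (enc σ) * (if v ∈ σ then (σ.card : ℝ)⁻¹ else 0)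

end faces

section twist

variable {α : Type} [DecidableEq α] [Nonempty α] (r : α → α → Prop)

/-- The order of a telescope. -/
def tel (G : ℕ → ℕ → α → α) (p q : ℕ × α) : Prop := p.1 ≤ q.1 ∧ r (G p.1 q.1 p.2) q.2

/-- A layer of a telescope. -/
def ly (i : ℕ) (A : Finset α) : Finset (ℕ × α) := A.image (Prod.mk i)

/-- A sequence of posets and monotone maps. -/
structure Tel (G : ℕ → ℕ → α → α) (P : ℕ → Finset α) : Prop where
  id : ∀ i a, G i i a = a
  comp : ∀ i j k a, i ≤ j → j ≤ k → G j k (G i j a) = G i k a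
  mo : ∀ i j, i ≤ j → Mo r r (P i) (P j) (G i j)

end twist

end Pool.Agent.Lib.MP_5ceaf9_gt
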