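import Pool.Agent.Lib.MP_5ceaf9_gt.TGood

/-! Simple homotopy equivalences are good. -/

noncomputable section

namespace Pool.Agent.Lib.MP_5ceaf9_gt

open Classical Function

variable {K L : SC} {l : ℕ}

/-- Put `τ = σ.erase v`. First add `σ`: the faces of `σ` in `K` retract (add `v`) onto those through
`v`, which have the least element `{v}` (`gp_of_lower`). Then add `τ`: the only element above it is
`σ` (`gp_of_upper`). -/
theorem Expands.gp (h : Expands K L) : GP sbs l K.faces L.faces := by
  obtain ⟨σ, v, hv, hσ, hτ, hn, e⟩ := h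
  have hL : σ ∈ L.faces := e ▸ Finset.mem_insert_self _ _
  have nτ : ∀ a ∈ K.faces, ¬σ.erase v ⊆ a := fun a ha h => hτ (K.down a ha _ h hn)
  have key : ∀ a, a ⊆ σ → v ∈ a → ¬σ.erase v ⊆ a → a ∈ K.faces := fun a h1 h2 h3 => by
    have h4 := L.down σ hL a h1 ⟨v, h2⟩
    rw [e, Finset.mem_insert, Finset.mem_insert] at h4
    rcases h4 with rfl | rfl | h4
    · exact absurd (Finset.erase_subset _ _) h3
    · exact absurd (Finset.Subset.refl _) h3
    · exact h4
  have g1 : GP sbs l K.faces (insert σ K.faces) := by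
    refine gp_of_lower (pon_sbs _) (Finset.subset_insert _ _) fun y hy hy' => ?_
    obtain rfl : y = σ := (Finset.mem_insert.1 hy).resolve_right hy'
    refine CT.up (A := K.faces.filter fun a => a ⊆ y ∧ v ∈ a)
      (ct_bot (pon_sbs _) (m := {v}) (Finset.mem_filter.2 ⟨key _ (Finset.singleton_subset_iff.2 hv)
        (Finset.mem_singleton_self v) fun h => ?_, Finset.singleton_subset_iff.2 hv,
        Finset.mem_singleton_self v⟩)
        fun a ha => Finset.singleton_subset_iff.2 (Finset.mem_filter.1 ha).2.2)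
      (gp_retr_ge (pon_sbs _) (ρ := insert v) (fun a ha => ?_) (fun a ha => ?_)
        (fun a ha => Finset.insert_eq_of_mem (Finset.mem_filter.1 ha).2.2)
        (fun a _ b _ hab => Finset.insert_subset_insert v hab) fun a _ => Finset.subset_insert v a)
    · obtain ⟨u, hu⟩ := hn
      exact Finset.ne_of_mem_erase hu (Finset.mem_singleton.1 (h hu))
    · obtain ⟨h1, h2⟩ := Finset.mem_filter.1 ha
      exact Finset.mem_filter.2 ⟨h1, h2.1⟩
    · obtain ⟨h1, h2⟩ := Finset.mem_filter.1 ha
      have h3 : insert v a ⊆ y := Finset.insert_subset hv h2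
      refine Finset.mem_filter.2 ⟨key _ h3 (Finset.mem_insert_self _ _) fun h => nτ a h1 ?_, h3,
        Finset.mem_insert_self _ _⟩
      exact fun u hu => (Finset.mem_insert.1 (h hu)).resolve_left (Finset.ne_of_mem_erase hu)
  refine g1.trans (gp_of_upper (pon_sbs _) ?_ fun y hy hy' => ?_)
  · rw [e]
    exact Finset.insert_subset_insert _ (Finset.subset_insert _ _)
  · rw [e, Finset.insert_comm] at hy
    obtain rfl : y = σ.erase v := (Finset.mem_insert.1 hy).resolve_right hy'
    refine ct_top (pon_sbs _) (m := σ)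
      (Finset.mem_filter.2 ⟨Finset.mem_insert_self _ _, Finset.erase_subset _ _⟩) fun a ha => ?_
    obtain ⟨h1, h2⟩ := Finset.mem_filter.1 ha
    rcases Finset.mem_insert.1 h1 with rfl | h1
    · exact Finset.Subset.refl _
    · exact absurd h2 (nτ a h1)

theorem Renames.good {e : ℕ ≃ ℕ} (h : Renames e K L) {f : K.space → L.space}
    (hf : ∀ x v, (f x).1 (e v) = x.1 v) : GoodM 2 f := by
  have hs : ∀ x, spp L (f x) = (spp K x).image e := fun x => by
    ext w
    obtain ⟨v, rfl⟩ := e.surjective w
    rw [mem_spp, hf, e.injective.mem_finset_image, mem_spp]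
  have hP : ∀ σ ∈ K.faces, Psi f σ = σ.image e ∧ σ.image e ∈ L.faces := fun σ hσ =>
    Psi_eq (τ := fun σ => σ.image e) (fun _ _ => Finset.image_subset_image) hs hσ
  refine (goodM_fine le_rfl fun σ hσ => ?_).2 (ME.congr (f := fun σ => σ.image e) ?_
    fun σ hσ => (hP σ hσ).1)
  · rw [(hP σ hσ).1]
    exact (K.nonempty σ hσ).image e
  · refine (me_emb_iff (pon_sbs _) (pon_sbs _) (Finset.image_injective e.injective).injOn
      (fun a _ b _ => Finset.image_subset_image_iff e.injective) fun σ hσ => (hP σ hσ).2).2 ?_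
    rw [show L.faces = _ from h]
    exact GP.refl (pon_sbs _)

theorem IsSimple.good {f : C(K.space, L.space)} (h : IsSimple K L f) : GoodM 2 f := by
  induction h with
  | expand h f hf => exact (goodM_incl le_rfl (h.gp (l := 2)).2.1 hf).2 h.gp
  | collapse h f g hg hfg =>
    exact GoodM.right le_rfl g.continuous f.continuous
      ((goodM_incl le_rfl (h.gp (l := 2)).2.1 hg).2 h.gp)
      (GoodM.homotopic le_rfl hfg.symm (goodM_id le_rfl))
  | rename e h f hf => exact h.good hf
  | @comp K L M f g _ _ h1 h2 =>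
    exact GoodM.comp (f := f) (g := g) le_rfl f.continuous g.continuous h1 h2
  | homotopic _ h h1 => exact GoodM.homotopic le_rfl h h1

end Pool.Agent.Lib.MP_5ceaf9_gt
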