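import Pool.Agent.Lib.MP_5ceaf9_gt.TMesh

/-! Good maps. -/

noncomputable section

namespace Pool.Agent.Lib.MP_5ceaf9_gt

open Classical Function

variable {K K' L M : SC} {l : ℕ} {f f' : K.space → L.space} {g : L.space → M.space}
  {β : K'.space ≃ₜ K.space} {τ : Finset ℕ → Finset ℕ}

theorem tgood_cmp (hf : Fine f) (hg : Fine g) :
    ME sbs sbs l K.faces M.faces (Psi g ∘ Psi f) ↔ ME sbs sbs l K.faces M.faces (Psi (g ∘ f)) :=
  me_homotopy (hf.mo.comp hg.mo) (hf.comp hg).mo fun σ _ => Psi_comp σ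

theorem tgood_right (hf : Fine f) (hg : Fine g) (h : ME sbs sbs l K.faces L.faces (Psi f)) :
    ME sbs sbs l L.faces M.faces (Psi g) ↔ ME sbs sbs l K.faces M.faces (Psi (g ∘ f)) := by
  rw [← tgood_cmp hf hg]
  exact ⟨fun h1 => h.comp h1, fun h1 => h.right hg.mo h1⟩

theorem tgood_left (hf : Fine f) (hg : Fine g) (h : ME sbs sbs l L.faces M.faces (Psi g)) :
    ME sbs sbs l K.faces L.faces (Psi f) ↔ ME sbs sbs l K.faces M.faces (Psi (g ∘ f)) := by
  rw [← tgood_cmp hf hg]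
  exact ⟨fun h1 => h1.comp h, fun h1 => ME.left hf.mo h h1⟩

theorem tgood_sbd (hl : l ≤ 2) (h : Sbd K' K β τ) : ME sbs sbs l K'.faces K.faces (Psi β) :=
  (h.me.mono hl).congr fun _ hρ => h.psi hρ

/-- Given two subdivisions `K1`, `K2`, subdivide `K1` until `β2.symm ∘ β1 ∘ β3` is fine; its star
map `γ` is an equivalence because `τ2 ∘ γ ≤ Psi (β1 ∘ β3) = τ1 ∘ τ3` (`Psi_comp`, `me_homotopy`,
`ME.left`), and `Psi (f ∘ β2) ∘ γ ≤ Psi (f ∘ β1 ∘ β3) ≥ Psi (f ∘ β1) ∘ τ3`. -/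
theorem goodM_iff (hl : l ≤ 2) (h : Sbd K' K β τ) (hf : Fine (f ∘ β)) :
    GoodM l f ↔ ME sbs sbs l K'.faces L.faces (Psi (f ∘ β)) := by
  refine ⟨?_, fun h1 => ⟨K', β, τ, h, hf, h1⟩⟩
  rintro ⟨K1, β1, τ1, h1, f1, m1⟩
  obtain ⟨K3, β3, τ3, h3, f3⟩ := exists_fine (f := β.symm ∘ β1)
    (β.symm.continuous.comp β1.continuous)
  have e1 : β ∘ ((β.symm ∘ β1) ∘ β3) = β1 ∘ β3 := by
    funext x
    simp
  have e2 : (f ∘ β) ∘ ((β.symm ∘ β1) ∘ β3) = (f ∘ β1) ∘ β3 := by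
    funext x
    simp
  have m2 := (tgood_right h3.fine h1.fine (tgood_sbd hl h3)).1 (tgood_sbd hl h1)
  rw [← e1] at m2
  have m3 := (tgood_left f3 h.fine (tgood_sbd hl h)).2 m2
  rw [tgood_right f3 hf m3, e2]
  exact (tgood_right h3.fine f1 (tgood_sbd hl h3)).1 m1

theorem GoodM.mono (h : GoodM l f) {l' : ℕ} (hl : l' ≤ l) : GoodM l' f := by
  obtain ⟨K1, β1, τ1, h1, f1, m1⟩ := h
  exact ⟨K1, β1, τ1, h1, f1, m1.mono hl⟩

theorem goodM_fine (hl : l ≤ 2) (hf : Fine f) :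
    GoodM l f ↔ ME sbs sbs l K.faces L.faces (Psi f) := by
  exact goodM_iff hl (Sbd.refl K) hf

theorem Sbd.good (hl : l ≤ 2) (h : Sbd K' K β τ) : GoodM l β := by
  exact (goodM_fine hl h.fine).2 (tgood_sbd hl h)

/-- Subdivide `L` until `g ∘ βL` is fine, then `K` until `βL.symm ∘ f ∘ βK` is fine. With
`a = Psi (βL.symm ∘ f ∘ βK)` and `b = Psi (g ∘ βL)`: `f` is good when `a` is an equivalence
(`τL ∘ a ≤ Psi (f ∘ βK)`), `g` when `b` is, and `g ∘ f` when `b ∘ a` is. -/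
theorem goodM_tri (hl : l ≤ 2) (cf : Continuous f) (cg : Continuous g) :
    ∃ (A B : Finset (Finset ℕ)) (a b : Finset ℕ → Finset ℕ), Mo sbs sbs A B a ∧
      Mo sbs sbs B M.faces b ∧ (GoodM l f ↔ ME sbs sbs l A B a) ∧
      (GoodM l g ↔ ME sbs sbs l B M.faces b) ∧
      (GoodM l (g ∘ f) ↔ ME sbs sbs l A M.faces (b ∘ a)) := by
  obtain ⟨L1, βL, τL, hL, fL⟩ := exists_fine cg
  obtain ⟨K1, βK, τK, hK, fK⟩ := exists_fine (f := βL.symm ∘ f) (βL.symm.continuous.comp cf)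
  have e1 : βL ∘ ((βL.symm ∘ f) ∘ βK) = f ∘ βK := by
    funext x
    simp
  have e2 : (g ∘ βL) ∘ ((βL.symm ∘ f) ∘ βK) = (g ∘ f) ∘ βK := by
    funext x
    simp
  have f1 : Fine (f ∘ βK) := e1 ▸ fK.comp hL.fine
  have f2 : Fine ((g ∘ f) ∘ βK) := e2 ▸ fK.comp fL
  refine ⟨K1.faces, L1.faces, Psi ((βL.symm ∘ f) ∘ βK), Psi (g ∘ βL), fK.mo, fL.mo, ?_,
    goodM_iff hl hL fL, ?_⟩
  · rw [goodM_iff hl hK f1, tgood_left fK hL.fine (tgood_sbd hl hL), e1]
  · rw [goodM_iff hl hK f2, tgood_cmp fK fL, e2]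

theorem GoodM.comp (hl : l ≤ 2) (cf : Continuous f) (cg : Continuous g) (hf : GoodM l f)
    (hg : GoodM l g) : GoodM l (g ∘ f) := by
  obtain ⟨A, B, a, b, -, -, h1, h2, h3⟩ := goodM_tri hl cf cg
  exact h3.2 ((h1.1 hf).comp (h2.1 hg))

theorem GoodM.left (hl : l ≤ 2) (cf : Continuous f) (cg : Continuous g) (hg : GoodM l g)
    (h : GoodM l (g ∘ f)) : GoodM l f := by
  obtain ⟨A, B, a, b, ma, -, h1, h2, h3⟩ := goodM_tri hl cf cg
  exact h1.2 (ME.left ma (h2.1 hg) (h3.1 h))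

theorem GoodM.right (hl : l ≤ 2) (cf : Continuous f) (cg : Continuous g) (hf : GoodM l f)
    (h : GoodM l (g ∘ f)) : GoodM l g := by
  obtain ⟨A, B, a, b, -, mb, h1, h2, h3⟩ := goodM_tri hl cf cg
  exact h2.2 ((h1.1 hf).right mb (h3.1 h))

/-- The set of good stages is open and closed (`exists_close`; the intersection of the two star
maps is monotone and below both). -/
theorem GoodM.homotopic (hl : l ≤ 2) {f f' : C(K.space, L.space)} (h : f.Homotopic f')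
    (hf : GoodM l f) : GoodM l f' := by
  obtain ⟨H⟩ := h
  have lc : IsLocallyConstant (fun t : unitInterval => GoodM l (fun x => H (t, x))) := by
    rw [IsLocallyConstant.iff_eventually_eq]
    intro t
    obtain ⟨K1, β1, τ1, h1, hev⟩ := exists_close H.continuous t
    filter_upwards [hev] with s hs
    have fs : Fine ((fun x => H (s, x)) ∘ β1) := fun σ hσ =>
      (hs σ hσ).mono Finset.inter_subset_left
    have ft : Fine ((fun x => H (t, x)) ∘ β1) := fun σ hσ =>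
      (hs σ hσ).mono Finset.inter_subset_right
    have mi : Mo sbs sbs K1.faces L.faces (fun σ => Psi ((fun x => H (s, x)) ∘ β1) σ ∩
        Psi ((fun x => H (t, x)) ∘ β1) σ) :=
      ⟨pon_sbs _, pon_sbs _, fun σ hσ =>
        L.down _ (fs.mo.maps σ hσ) _ Finset.inter_subset_left (hs σ hσ),
        fun σ _ ρ _ hσρ => Finset.inter_subset_inter (Psi_mono hσρ) (Psi_mono hσρ)⟩
    refine propext ?_
    rw [goodM_iff hl h1 fs, goodM_iff hl h1 ft,
      ← me_homotopy mi fs.mo fun _ _ => Finset.inter_subset_left,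
      ← me_homotopy mi ft.mo fun _ _ => Finset.inter_subset_right]
  have e := lc.apply_eq_of_preconnectedSpace 0 1
  simp only [ContinuousMap.Homotopy.apply_zero, ContinuousMap.Homotopy.apply_one] at e
  exact e ▸ hf

theorem goodM_incl (hl : l ≤ 2) (h : K.faces ⊆ L.faces) (hf : ∀ x, (f x).1 = x.1) :
    GoodM l f ↔ GP sbs l K.faces L.faces := by
  have hs : ∀ x, spp L (f x) = id (spp K x) := fun x => by
    ext v
    rw [id, mem_spp, mem_spp, hf]
  have hp : ∀ σ ∈ K.faces, Psi f σ = id σ := fun σ hσ =>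
    (Psi_eq (τ := id) (fun _ _ h => h) hs hσ).1
  have ff : Fine f := fun σ hσ => by
    rw [hp σ hσ]
    exact K.nonempty σ hσ
  rw [goodM_fine hl ff, ← me_incl_iff (pon_sbs _) h]
  exact ⟨fun h1 => h1.congr fun σ hσ => (hp σ hσ).symm, fun h1 => h1.congr hp⟩

theorem goodM_id (hl : l ≤ 2) : GoodM l (id : K.space → K.space) := by
  exact (goodM_incl hl (Finset.Subset.refl _) fun _ => rfl).2 (GP.refl (pon_sbs _))

theorem GoodM.pdk (h : GoodM 2 f) : PDK K ↔ PDK L := by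
  obtain ⟨K1, β1, τ1, h1, -, m1⟩ := h
  exact h1.me.pd_iff'.symm.trans m1.pd_iff'

end Pool.Agent.Lib.MP_5ceaf9_gt
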