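import Pool.Agent.Lib.MP_5ceaf9_gt.TKDefs

/-! Exact graded complexes are contractible; torsion of matrices that come from a subring. -/

noncomputable section

namespace Pool.Agent.Lib.MP_5ceaf9_gt

open Classical Function Matrix

variable {ι : Type} [Fintype ι] [DecidableEq ι] {p : ι → Bool}

omit [DecidableEq ι] in
/-- The part of degree `n + 1` of a chain has the same boundary. -/
theorem vec_part {Λ : Type} [Ring Λ] {d : Matrix ι ι Λ} {g : ι → ℕ}
    (hg : ∀ x y, d x y ≠ 0 → g x = g y + 1) {n : ℕ} {z u : ι → Λ}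
    (hz : ∀ x, g x ≠ n → z x = 0) (hu : u ᵥ* d = z) :
    (fun x => if g x = n + 1 then u x else 0) ᵥ* d = z := by
  funext y
  by_cases hy : g y = n
  · rw [← hu]
    refine Finset.sum_congr rfl fun x _ => ?_
    by_cases hx : d x y = 0
    · simp only [hx, mul_zero]
    · simp only [if_pos ((hg x y hx).trans (congrArg (· + 1) hy))]
  · rw [hz y hy]
    refine Finset.sum_eq_zero fun x _ => ?_
    by_cases hx : d x y = 0
    · simp only [hx, mul_zero]
    · have h1 : ¬ g x = n + 1 := by
        have := hg x y hx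
        omega
      simp only [if_neg h1, zero_mul]

omit [DecidableEq ι] in
theorem tka_row {Λ : Type} [Ring Λ] {d a b : Matrix ι ι Λ} {x : ι}
    (h : ∀ w, d x w ≠ 0 → a w = b w) : (d * a) x = (d * b) x := by
  funext y
  rw [Matrix.mul_apply, Matrix.mul_apply]
  refine Finset.sum_congr rfl fun w _ => ?_
  by_cases hw : d x w = 0
  · rw [hw, zero_mul, zero_mul]
  · rw [h w hw]

/-- Induct on `n`: there is `s` with `s x y ≠ 0 → g y = g x + 1` such that the rows `x` with
`g x < n` of `d * s + s * d` and of `1` agree. In the step the new rows of degree `n` are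
preimages (`vec_part`) of the cycles `(1 - d * s) x`. -/
theorem ctr_of_exact {Λ : Type} [Ring Λ] {d : Matrix ι ι Λ} (g : ι → ℕ)
    (hg : ∀ x y, d x y ≠ 0 → g x = g y + 1) (h2 : d * d = 0)
    (hex : ∀ (n : ℕ) (z : ι → Λ), (∀ x, g x ≠ n → z x = 0) → z ᵥ* d = 0 → ∃ u, u ᵥ* d = z) :
    Ctr d := by
  have key : ∀ n : ℕ, ∃ s : Matrix ι ι Λ, (∀ x y, s x y ≠ 0 → g y = g x + 1) ∧
      ∀ x, g x < n → (d * s + s * d) x = (1 : Matrix ι ι Λ) x := by
    intro n
    induction n with
    | zero => exact ⟨0, fun _ _ h => absurd rfl h, fun _ h => absurd h (Nat.not_lt_zero _)⟩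
    | succ n ih =>
      obtain ⟨s, hs, hr⟩ := ih
      have h3 : ∀ x, ∃ u : ι → Λ, g x = n →
          (∀ y, u y ≠ 0 → g y = n + 1) ∧ u ᵥ* d = (1 - d * s) x := by
        intro x
        by_cases hx : g x = n
        · have h4 : ∀ y, g y ≠ n → (1 - d * s) x y = 0 := by
            intro y hy
            have h5 : (d * s) x y = 0 := by
              by_contra h6
              obtain ⟨w, h7, h8⟩ := alga_ne h6
              have := hg _ _ h7
              have := hs _ _ h8
              omega
            rw [Matrix.sub_apply, h5, sub_zero]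
            exact Matrix.one_apply_ne fun e : x = y => hy (e ▸ hx)
          have h5 : (d * (d * s + s * d)) x = (d * (1 : Matrix ι ι Λ)) x :=
            tka_row fun w hw => hr w (by
              have := hg _ _ hw
              omega)
          rw [mul_add, ← mul_assoc, h2, zero_mul, zero_add, mul_one] at h5
          have h6 : (1 - d * s) x ᵥ* d = 0 := by
            rw [← Matrix.mul_apply_eq_vecMul, sub_mul, one_mul, mul_assoc]
            funext y
            rw [Matrix.sub_apply, h5, sub_self, Pi.zero_apply]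
          obtain ⟨u, hu⟩ := hex n _ h4 h6
          exact ⟨_, fun _ => ⟨fun y hy => not_not.1 fun h7 => hy (if_neg h7), vec_part hg h4 hu⟩⟩
        · exact ⟨0, fun h => absurd h hx⟩
      choose u hu using h3
      refine ⟨Matrix.of fun x => if g x = n then u x else s x, fun x y h => ?_, fun x hx => ?_⟩
      · rw [Matrix.of_apply] at h
        by_cases hx : g x = n
        · rw [if_pos hx] at h
          rw [hx, (hu x hx).1 y h]
        · rw [if_neg hx] at h
          exact hs x y h
      · have h4 : (d * Matrix.of fun x => if g x = n then u x else s x) x = (d * s) x :=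
          tka_row fun w hw => if_neg (by
            have := hg _ _ hw
            omega)
        have h5 : ((Matrix.of fun x => if g x = n then u x else s x) * d) x =
            (if g x = n then u x else s x) ᵥ* d := Matrix.mul_apply_eq_vecMul _ _ _
        funext y
        rw [Matrix.add_apply, h4, h5]
        by_cases h6 : g x = n
        · rw [if_pos h6, (hu x h6).2, Matrix.sub_apply, add_sub_cancel]
        · rw [if_neg h6, ← hr x (by omega), ← Matrix.mul_apply_eq_vecMul, Matrix.add_apply]
  obtain ⟨s, -, hs⟩ := key (Finset.univ.sup g + 1)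
  exact ⟨s, funext fun x => hs x (Nat.lt_succ_of_le (Finset.le_sup (Finset.mem_univ x)))⟩

variable {F K : Type} [Field F] [Field K]

/-- As `tor_int`, with `algb_unit`. -/
theorem tor_map_unit {Λ : Type} [CommRing Λ] {m : Matrix ι ι Λ} (hm : Dm p m) (h : Ctr m)
    (φ : Λ →+* F) (hu : ∀ u : Λ, IsUnit u → φ u ^ 8 = 1) : tor p (m.map φ) = 1 := by
  have := φ.domain_nontrivial
  obtain ⟨s, h1, h2, h3, e, h4⟩ := algb_unit hm h
  refine tor_eq (hm.map _) ⟨s.map φ, fun x y h => h1 x y fun h' => h ?_, ?_, ?_, e, ?_⟩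
  · rw [Matrix.map_apply, h', map_zero]
  · rw [← Matrix.map_mul, h2, Matrix.map_zero _ (map_zero _)]
  · rw [← Matrix.map_mul, ← Matrix.map_mul, ← Matrix.map_add _ (map_add _), h3,
      Matrix.map_one _ (map_zero _) (map_one _)]
  · have h5 := RingHom.map_det φ ((algbB p (m + s) false true).submatrix e id)
    have h6 : φ.mapMatrix ((algbB p (m + s) false true).submatrix e id) =
        Matrix.of fun x y : {x // p x = true} => (m.map φ + s.map φ) (e x).1 y.1 := by
      ext x y
      exact map_add φ _ _
    rw [← h6, ← h5, hu _ h4]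

/-- Apply a `K`-linear left inverse of `j` to the entries of a contraction. -/
theorem ctr_descend (j : K →+* F) {m : Matrix ι ι K} (h : Ctr (m.map j)) : Ctr m := by
  let _ : Algebra K F := j.toAlgebra
  obtain ⟨r, hr⟩ := (Algebra.linearMap K F).exists_leftInverse_of_injective
    (LinearMap.ker_eq_bot.2 j.injective)
  have h1 : ∀ a, r (j a) = a := fun a => LinearMap.congr_fun hr a
  have h2 : ∀ a b, r (j a * b) = a * r b := fun a b => r.map_smul a b
  obtain ⟨s, hs⟩ := h
  refine ⟨s.map r, ?_⟩
  ext x y
  have h3 := congrArg r (congrFun (congrFun hs x) y)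
  rw [← Matrix.map_one j (map_zero j) (map_one j), Matrix.map_apply, h1, Matrix.add_apply,
    Matrix.mul_apply, Matrix.mul_apply, map_add, map_sum, map_sum] at h3
  rw [← h3, Matrix.add_apply, Matrix.mul_apply, Matrix.mul_apply]
  congr 1
  · exact Finset.sum_congr rfl fun w _ => (h2 _ _).symm
  · refine Finset.sum_congr rfl fun w _ => ?_
    rw [mul_comm, mul_comm (s x w)]
    exact (h2 _ _).symm

theorem tor_sub_field (j : K →+* F) (hj : ∀ a, a ≠ 0 → j a ^ 8 = 1) {m : Matrix ι ι K}
    (hd : Dm p (m.map j)) (h : Ctr (m.map j)) : tor p (m.map j) = 1 := by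
  refine tor_map_unit ⟨?_, fun x y hxy => hd.2 x y ((map_ne_zero j).2 hxy)⟩ (ctr_descend j h) j
    fun u hu => hj u hu.ne_zero
  refine Matrix.map_injective j.injective ?_
  change (m * m).map j = (0 : Matrix ι ι K).map j
  rw [Matrix.map_mul, hd.1, Matrix.map_zero _ (map_zero j)]

/-- `tor_conj`; the diagonal blocks of `Q` and `Q'` are inverse to each other (`algb_mul`). -/
theorem tor_conj_sub (j : K →+* F) (hj : ∀ a, a ≠ 0 → j a ^ 8 = 1) {d : Matrix ι ι F}
    (hd : Dm p d) {Q Q' : Matrix ι ι K} (h1 : Q * Q' = 1) (h2 : Q' * Q = 1) (hQ : EvenM p p Q)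
    (hQ' : EvenM p p Q') : tor p (Q.map j * d * Q'.map j) = tor p d := by
  have h3 : ∀ b : Bool, (blk (Q.map j) fun x => p x = b).det ^ 8 = 1 := by
    intro b
    have h4 : algbB p Q b b * algbB p Q' b b = 1 := by
      rw [← algb_mul b, h1, algb_one]
      intro x z y hx _ hz
      by_contra h5
      exact hz ((hQ x z (left_ne_zero_of_mul h5)).symm.trans hx)
    have h5 : (blk (Q.map j) fun x => p x = b) = j.mapMatrix (algbB p Q b b) := rfl
    rw [h5, ← RingHom.map_det]
    exact hj _ (Matrix.isUnit_det_of_right_inverse h4).ne_zero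
  have h4 := tor_conj hd (P := Q.map j) (Q := Q'.map j)
    (by rw [← Matrix.map_mul, h1, Matrix.map_one _ (map_zero j) (map_one j)])
    (by rw [← Matrix.map_mul, h2, Matrix.map_one _ (map_zero j) (map_one j)])
    (fun x y h => hQ x y ((map_ne_zero j).1 h)) fun x y h => hQ' x y ((map_ne_zero j).1 h)
  rwa [h3, h3, mul_one, mul_one] at h4

end Pool.Agent.Lib.MP_5ceaf9_gt
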