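import Pool.Agent.Lib.MP_5ceaf9_gt.TKDefs

/-! The left kernel of a matrix over a principal ideal domain is spanned by part of a basis. -/

noncomputable section

namespace Pool.Agent.Lib.MP_5ceaf9_gt

open Classical Function Matrix

variable {P S : Type} [CommRing P] [IsDomain P] [IsPrincipalIdealRing P] [CommRing S] [IsDomain S]

/-- Take `Submodule.smithNormalForm` of the kernel of `M.vecMulLinear`; the rows of `Q` are the
basis vectors `bM`, and `T` is the range of `f`. The rows of `Q * M` outside `T` are linearly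
independent over `P`, hence over `S` (`linearIndependent_algebraMap_comp_iff` with
`i.toAlgebra`). -/
theorem exists_sat (i : P →+* S) (hi : Injective i) {W V : Type} [Fintype W] [DecidableEq W]
    [Fintype V] (M : Matrix W V P) :
    ∃ (Q Q' : Matrix W W P) (T : W → Prop), Q * Q' = 1 ∧ Q' * Q = 1 ∧
      (∀ x, T x → ∀ y, (Q * M) x y = 0) ∧
      ∀ z : W → S, z ᵥ* (Q * M).map i = 0 → ∀ x, ¬ T x → z x = 0 := by
  obtain ⟨n, snf⟩ := (LinearMap.ker M.vecMulLinear).smithNormalForm (Pi.basisFun P W)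
  have hrow : ∀ x, (((Pi.basisFun P W).toMatrix snf.bM)ᵀ * M) x = snf.bM x ᵥ* M := fun x => rfl
  have h0 : ∀ x, x ∈ Set.range snf.f → snf.bM x ᵥ* M = 0 := by
    rintro _ ⟨j, rfl⟩
    have h1 : (snf.bN j : W → P) ᵥ* M = 0 := (snf.bN j).2
    rw [snf.snf, smul_vecMul, smul_eq_zero] at h1
    refine h1.resolve_left fun h2 => snf.bN.ne_zero j (Subtype.ext ?_)
    rw [snf.snf, h2, zero_smul]
    rfl
  refine ⟨((Pi.basisFun P W).toMatrix snf.bM)ᵀ, (snf.bM.toMatrix (Pi.basisFun P W))ᵀ,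
    fun x => x ∈ Set.range snf.f, ?_, ?_, fun x hx y => by rw [hrow, h0 x hx]; rfl,
    fun z hz x hx => ?_⟩
  · rw [← transpose_mul, Module.Basis.toMatrix_mul_toMatrix_flip, transpose_one]
  · rw [← transpose_mul, Module.Basis.toMatrix_mul_toMatrix_flip, transpose_one]
  have h1 : LinearIndependent P fun x : {x // x ∉ Set.range snf.f} => snf.bM x ᵥ* M := by
    refine Fintype.linearIndependent_iff.2 fun c hc x => ?_
    have h2 : ∑ x : {x // x ∉ Set.range snf.f}, c x • snf.bM x ∈ LinearMap.ker M.vecMulLinear := by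
      rw [LinearMap.mem_ker, map_sum, ← hc]
      exact Finset.sum_congr rfl fun x _ => map_smul _ _ _
    have h3 := snf.repr_eq_zero_of_notMem_range ⟨_, h2⟩ x.2
    simpa [Finsupp.single_apply, Subtype.val_inj] using h3
  let _ := i.toAlgebra
  have : FaithfulSMul P S := (faithfulSMul_iff_algebraMap_injective P S).2 hi
  refine Fintype.linearIndependent_iff.1 ((linearIndependent_algebraMap_comp_iff (S := S)).2 h1)
    (fun x => z x) (funext fun y => ?_) ⟨x, hx⟩
  have h2 := congrFun hz y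
  simp only [vecMul, dotProduct, map_apply, Pi.zero_apply] at h2
  rw [← Fintype.sum_subtype_add_sum_subtype (fun x => x ∈ Set.range snf.f),
    Finset.sum_eq_zero fun x _ => by rw [hrow, h0 x x.2, Pi.zero_apply, map_zero, mul_zero],
    zero_add] at h2
  rw [Finset.sum_apply]
  exact h2

/-- Assembly of blocks along the fibres of `π`. -/
def tkb_asm {ι μ : Type} [DecidableEq μ] (π : ι → μ)
    (A : ∀ m, Matrix {x // π x = m} {x // π x = m} P) : Matrix ι ι P :=
  fun x y => if h : π y = π x then A (π x) ⟨x, rfl⟩ ⟨y, h⟩ else 0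

omit [IsDomain P] [IsPrincipalIdealRing P] in
theorem tkb_fib {ι μ : Type} [DecidableEq μ] {π : ι → μ}
    (A : ∀ m, Matrix {x // π x = m} {x // π x = m} P) {m : μ} (x y : {x // π x = m}) :
    tkb_asm π A x y = A m x y := by
  obtain ⟨x, rfl⟩ := x
  exact dif_pos y.2

omit [IsDomain P] [IsPrincipalIdealRing P] in
theorem tkb_ne {ι μ : Type} [DecidableEq μ] {π : ι → μ}
    (A : ∀ m, Matrix {x // π x = m} {x // π x = m} P) (x y : ι) (h : tkb_asm π A x y ≠ 0) :
    π x = π y := not_not.1 fun k => h (dif_neg fun l => k l.symm)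

theorem tkb_sum {ι μ R : Type} [Fintype ι] [DecidableEq μ] [AddCommMonoid R] {π : ι → μ} {m : μ}
    {f : ι → R} (h : ∀ y, π y ≠ m → f y = 0) : ∑ y, f y = ∑ y : {x // π x = m}, f y := by
  rw [← Fintype.sum_subtype_add_sum_subtype (fun x => π x = m),
    Finset.sum_eq_zero (s := Finset.univ) fun (y : {x // ¬ π x = m}) _ => h y y.2, add_zero]

omit [IsDomain P] [IsPrincipalIdealRing P] in
theorem tkb_mul {ι μ : Type} [Fintype ι] [DecidableEq μ] {π : ι → μ}
    (A : ∀ m, Matrix {x // π x = m} {x // π x = m} P) (N : Matrix ι ι P) {m : μ}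
    (x : {x // π x = m}) (y : ι) :
    (tkb_asm π A * N) x y =
      (A m * N.submatrix (Subtype.val : {x // π x = m} → ι) (id : ι → ι) :) x y := by
  rw [mul_apply, mul_apply, tkb_sum (π := π) (m := m) fun z hz => by
    rw [not_not.1 fun k => hz ((tkb_ne A x z k).symm.trans x.2), zero_mul]]
  exact Finset.sum_congr rfl fun z _ => by rw [tkb_fib]; rfl

omit [IsDomain P] [IsPrincipalIdealRing P] in
theorem tkb_one {ι μ : Type} [Fintype ι] [DecidableEq ι] [DecidableEq μ] {π : ι → μ}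
    {A B : ∀ m, Matrix {x // π x = m} {x // π x = m} P} (h : ∀ m, A m * B m = 1) :
    tkb_asm π A * tkb_asm π B = 1 := by
  ext x y
  rw [tkb_mul A _ (⟨x, rfl⟩ : {z // π z = π x}) y, mul_apply]
  by_cases k : π y = π x
  · have h1 := congrFun (congrFun (h (π x)) ⟨x, rfl⟩) ⟨y, k⟩
    rw [mul_apply, one_apply] at h1
    simp only [Subtype.mk.injEq] at h1
    rw [one_apply, ← h1]
    exact Finset.sum_congr rfl fun z _ => congrArg _ (tkb_fib B z ⟨y, k⟩)
  · rw [one_apply_ne fun l => k (congrArg π l).symm]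
    exact Finset.sum_eq_zero fun z _ => mul_eq_zero_of_right _
      (not_not.1 fun l => k ((tkb_ne B z y l).symm.trans z.2))

/-- Apply `exists_sat` to the rows in each fibre of `π` and assemble the blocks:
`Q x y = if h : π y = π x then Q (π x) ⟨x, rfl⟩ ⟨y, h⟩ else 0`. -/
theorem exists_sat_fib (i : P →+* S) (hi : Injective i) {ι μ : Type} [Fintype ι] [DecidableEq ι]
    [DecidableEq μ] (π : ι → μ) (M : Matrix ι ι P) :
    ∃ (Q Q' : Matrix ι ι P) (T : ι → Prop), Q * Q' = 1 ∧ Q' * Q = 1 ∧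
      (∀ x y, Q x y ≠ 0 → π x = π y) ∧ (∀ x y, Q' x y ≠ 0 → π x = π y) ∧
      (∀ x, T x → ∀ y, (Q * M) x y = 0) ∧
      ∀ (z : ι → S) (x : ι), (∀ y, π y ≠ π x → z y = 0) → z ᵥ* (Q * M).map i = 0 → ¬ T x →
        z x = 0 := by
  choose Q Q' T h1 h2 h3 h4 using fun m =>
    exists_sat i hi (M.submatrix (Subtype.val : {x // π x = m} → ι) id)
  refine ⟨tkb_asm π Q, tkb_asm π Q', fun x => T (π x) ⟨x, rfl⟩, tkb_one h1, tkb_one h2, tkb_ne Q,
    tkb_ne Q', fun x hx y => (tkb_mul Q M (⟨x, rfl⟩ : {z // π z = π x}) y).trans (h3 _ _ hx y),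
    fun z x hz h hx => h4 (π x) (fun y => z y) (funext fun y => ?_) ⟨x, rfl⟩ hx⟩
  have h5 := congrFun h y
  simp only [vecMul, dotProduct, map_apply] at h5 ⊢
  rw [tkb_sum (π := π) (m := π x) fun w hw => by rw [hz w hw, zero_mul]] at h5
  exact (Finset.sum_congr rfl fun w _ => by rw [tkb_mul]).trans h5

end Pool.Agent.Lib.MP_5ceaf9_gt
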