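import Pool.Agent.Lib.MP_5ceaf9_gt.TKC1

/-! Cutting a filtered complex along a wall. -/

noncomputable section

namespace Pool.Agent.Lib.MP_5ceaf9_gt

open Classical Function Matrix

variable {ι P S : Type} [Fintype ι] [DecidableEq ι] [CommRing P] [IsDomain P]
  [IsPrincipalIdealRing P] [CommRing S] [IsDomain S] {g lv : ι → ℕ} {k : ℕ}
  {dS : Matrix ι ι S} {mP : Matrix ι ι P}

omit [DecidableEq ι] [IsDomain S] in
theorem tkc_blk {U : ι → Prop} [DecidablePred U] (d : Matrix ι ι S) {z : ι → S}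
    (hz : ∀ x, U x → z x = 0) (y : {x // ¬ U x}) :
    ((fun x : {x // ¬ U x} => z x) ᵥ* blk d fun x => ¬ U x) y = (z ᵥ* d) y := by
  have h := Fintype.sum_subtype_add_sum_subtype U fun x => z x * d x y
  rw [Finset.sum_eq_zero fun x _ => by rw [hz x x.2, zero_mul], zero_add] at h
  exact h

omit [IsDomain S] in
/-- A homogeneous cycle of the cut complex bounds in the cut complex (`vec_part`). -/
theorem Cut.exact (hL : Lv g lv dS) (hk : ∀ x, g x + 3 ≤ k)
    (hn : ∀ n < k, ∀ z : ι → S, (∀ x, n < lv x → z x = 0) → z ᵥ* dS = 0 →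
      ∃ u : ι → S, (∀ x, n + 1 < lv x → u x = 0) ∧ u ᵥ* dS = z)
    {n : ℕ} {c : ι → S} (hc : Cut g lv dS c) (hd : ∀ x, g x ≠ n → c x = 0) (h0 : c ᵥ* dS = 0) :
    ∃ u, Cut g lv dS u ∧ u ᵥ* dS = c := by
  by_cases h : c = 0
  · exact ⟨0, ⟨fun _ _ => rfl, fun y _ => congrFun (zero_vecMul dS) y⟩, by rw [h, zero_vecMul]⟩
  · obtain ⟨x, hx⟩ := Function.ne_iff.1 h
    have h1 : g x = n := by
      by_contra h1
      exact hx (hd x h1)
    have h2 := hk x
    obtain ⟨u, h3, h4⟩ := hn (n + 2) (by omega) c (fun y hy => by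
      by_cases h5 : g y = n
      · exact hc.1 y (by omega)
      · exact hd y h5) h0
    have h5 := vec_part hL.deg hd h4
    refine ⟨_, ⟨fun y hy => ?_, fun y hy => ?_⟩, h5⟩
    · by_cases h6 : g y = n + 1
      · exact (if_pos h6).trans (h3 y (by omega))
      · exact if_neg h6
    · rw [h5]
      exact hc.1 y hy

/-- In the new basis the cut complex is the block outside `U`; it is exact in each degree
(`Cut.exact`, extend a vector on the subtype by zero), so `ctr_of_exact` applies. -/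
theorem exists_cut (i : P →+* S) (hi : Injective i) (hL : Lv g lv dS) (h2 : dS * dS = 0)
    (hP : ∀ x y, lv x ≤ k → 2 ≤ lv y → dS x y = i (mP x y)) (hk : ∀ x, g x + 3 ≤ k)
    (hn : ∀ n < k, ∀ z : ι → S, (∀ x, n < lv x → z x = 0) → z ᵥ* dS = 0 →
      ∃ u : ι → S, (∀ x, n + 1 < lv x → u x = 0) ∧ u ᵥ* dS = z) :
    ∃ (Q Q' : Matrix ι ι P) (U : ι → Prop) (_ : DecidablePred U), Q * Q' = 1 ∧ Q' * Q = 1 ∧
      (∀ x y, Q x y ≠ 0 → g x = g y ∧ lv x = lv y) ∧
      (∀ x y, Q' x y ≠ 0 → g x = g y ∧ lv x = lv y) ∧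
      (∀ x, U x → 2 ≤ lv x) ∧ (∀ x, ¬ U x → lv x ≤ k) ∧
      Sub (Q.map i * dS * Q'.map i) U ∧
      Ctr (blk (Q.map i * dS * Q'.map i) (fun x => ¬ U x)) := by
  obtain ⟨Q, Q', U, q1, q2, q3, q4, q5, q6, hC⟩ := exists_cut_basis i hi hL hP hk
  have a1 : Q.map i * Q'.map i = 1 := by
    rw [← Matrix.map_mul, q1, Matrix.map_one _ (map_zero i) (map_one i)]
  have a2 : Q'.map i * Q.map i = 1 := by
    rw [← Matrix.map_mul, q2, Matrix.map_one _ (map_zero i) (map_one i)]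
  have a3 : ∀ x y, Q.map i x y ≠ 0 → g x = g y := fun x y h =>
    (q3 x y fun h1 => h (by rw [map_apply, h1, map_zero])).1
  have a4 : ∀ x y, Q'.map i x y ≠ 0 → g x = g y := fun x y h =>
    (q4 x y fun h1 => h (by rw [map_apply, h1, map_zero])).1
  have b1 : ∀ z : ι → S, z ᵥ* (Q.map i * dS * Q'.map i) ᵥ* Q.map i = z ᵥ* Q.map i ᵥ* dS := by
    intro z
    rw [vecMul_vecMul, vecMul_vecMul, mul_assoc, a2, mul_one]
  have b2 : ∀ z : ι → S, (∀ x, U x → z x = 0) → ∀ y, U y →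
      (z ᵥ* (Q.map i * dS * Q'.map i)) y = 0 := by
    intro z hz
    rw [← hC, b1]
    refine ⟨((hC z).2 hz).2, fun y _ => ?_⟩
    rw [vecMul_vecMul, h2, vecMul_zero]
    rfl
  have b3 : Sub (Q.map i * dS * Q'.map i) U := by
    intro x y h hy
    by_contra hx
    have h1 := b2 (Pi.single x 1) (fun w hw => Pi.single_eq_of_ne (by rintro rfl; exact hx hw) _) y hy
    rw [single_one_vecMul] at h1
    exact h h1
  have b4 : Q.map i * dS * Q'.map i * (Q.map i * dS * Q'.map i) = 0 := by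
    have e : Q.map i * dS * Q'.map i * (Q.map i * dS * Q'.map i) =
        Q.map i * (dS * (Q'.map i * Q.map i) * dS) * Q'.map i := by simp only [mul_assoc]
    rw [e, a2, mul_one, h2, mul_zero, zero_mul]
  refine ⟨Q, Q', U, inferInstance, q1, q2, q3, q4, fun x h => ?_, fun x h => ?_, b3,
    ctr_of_exact (fun x => g x.1) (fun x y h => ?_) (alga_blocks b4 b3).choose_spec.2.2.2
      fun n z hz h0 => ?_⟩
  · have := q5 x h
    omega
  · have := q6 x h
    have := hk x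
    omega
  · obtain ⟨w, h3, h4⟩ := alga_ne (show (Q.map i * dS * Q'.map i) x.1 y.1 ≠ 0 from h)
    obtain ⟨v, h5, h6⟩ := alga_ne h3
    show g x.1 = g y.1 + 1
    rw [a3 _ _ h5, hL.deg _ _ h6, a4 _ _ h4]
  · obtain ⟨z', c1, rfl⟩ : ∃ z' : ι → S, (∀ x, U x → z' x = 0) ∧
        z = fun x : {x // ¬ U x} => z' x :=
      ⟨fun x => if h : U x then 0 else z ⟨x, h⟩, fun x h => dif_pos h,
        funext fun x => by simp only [dif_neg x.2]⟩
    have c2 : z' ᵥ* (Q.map i * dS * Q'.map i) = 0 := by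
      funext y
      by_cases h : U y
      · exact b2 z' c1 y h
      · exact (tkc_blk _ c1 ⟨y, h⟩).symm.trans (congrFun h0 ⟨y, h⟩)
    obtain ⟨u, c3, c4⟩ := Cut.exact hL hk hn (n := n) ((hC z').2 c1) (fun x hx => by
      refine Finset.sum_eq_zero fun w _ => ?_
      by_cases h : Q.map i w x = 0
      · exact mul_eq_zero_of_right _ h
      · refine mul_eq_zero_of_left ?_ _
        by_cases h1 : U w
        · exact c1 w h1
        · exact hz ⟨w, h1⟩ (a3 w x h ▸ hx)) (by rw [← b1, c2, zero_vecMul])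
    have c5 : u ᵥ* Q'.map i ᵥ* Q.map i = u := by rw [vecMul_vecMul, a2, vecMul_one]
    refine ⟨fun x => (u ᵥ* Q'.map i) x, funext fun y => ?_⟩
    rw [tkc_blk _ ((hC _).1 (by rwa [c5])), ← vecMul_vecMul, ← vecMul_vecMul, c5, c4,
      vecMul_vecMul, a1, vecMul_one]

end Pool.Agent.Lib.MP_5ceaf9_gt
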