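import Pool.Agent.Lib.MP_5ceaf9_gt.TKA
import Pool.Agent.Lib.MP_5ceaf9_gt.TKB

/-! Cutting a filtered complex along a wall. -/

noncomputable section

namespace Pool.Agent.Lib.MP_5ceaf9_gt

open Classical Function Matrix

variable {ι P S : Type} [Fintype ι] [DecidableEq ι] [CommRing P] [IsDomain P]
  [IsPrincipalIdealRing P] [CommRing S] [IsDomain S] {g lv : ι → ℕ} {k : ℕ}
  {dS : Matrix ι ι S} {mP : Matrix ι ι P}

/-- The chains below the wall whose boundary lies below the wall. -/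
def Cut (g lv : ι → ℕ) (dS : Matrix ι ι S) (c : ι → S) : Prop :=
  (∀ x, g x + 2 < lv x → c x = 0) ∧ ∀ y, g y + 2 < lv y → (c ᵥ* dS) y = 0

omit [DecidableEq ι] [IsDomain P] [IsPrincipalIdealRing P] [IsDomain S] in
theorem tkc1_blk (i : P →+* S) {Q : Matrix ι ι P}
    (hQ : ∀ x y, Q x y ≠ 0 → (g x, lv x) = (g y, lv y)) {z : ι → S}
    (hz : ∀ x, g x + 2 < lv x → z x = 0) (y : ι) (hy : g y + 2 < lv y) :
    (z ᵥ* Q.map i) y = 0 := by
  refine Finset.sum_eq_zero fun x _ => ?_
  by_cases h : Q x y = 0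
  · simp only [map_apply, h, map_zero, mul_zero]
  · obtain ⟨h1, h2⟩ := Prod.mk.inj (hQ x y h)
    rw [hz x (by omega), zero_mul]

/-- Apply `exists_sat_fib` with `π x = (g x, lv x)` to the matrix `M x y = mP x y` for
`lv x = g x + 2` and `g y + 2 < lv y`, zero otherwise. Put
`U x = (g x + 2 < lv x ∨ (lv x = g x + 2 ∧ ¬ T x))`. -/
theorem exists_cut_basis (i : P →+* S) (hi : Injective i) (hL : Lv g lv dS)
    (hP : ∀ x y, lv x ≤ k → 2 ≤ lv y → dS x y = i (mP x y)) (hk : ∀ x, g x + 3 ≤ k) :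
    ∃ (Q Q' : Matrix ι ι P) (U : ι → Prop), Q * Q' = 1 ∧ Q' * Q = 1 ∧
      (∀ x y, Q x y ≠ 0 → g x = g y ∧ lv x = lv y) ∧
      (∀ x y, Q' x y ≠ 0 → g x = g y ∧ lv x = lv y) ∧
      (∀ x, U x → g x + 2 ≤ lv x) ∧ (∀ x, ¬ U x → lv x ≤ g x + 2) ∧
      ∀ z : ι → S, Cut g lv dS (z ᵥ* Q.map i) ↔ ∀ x, U x → z x = 0 := by
  let M : Matrix ι ι P := of fun x y => if lv x = g x + 2 ∧ g y + 2 < lv y then mP x y else 0
  obtain ⟨Q, Q', T, h1, h2, h3, h4, h5, h6⟩ := exists_sat_fib i hi (fun x => (g x, lv x)) M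
  have hM : ∀ x y, lv x ≤ g x + 2 → g y + 2 < lv y → dS x y = i (M x y) := by
    intro x y hx hy
    have := hk x
    by_cases h : lv x = g x + 2
    · rw [hP x y (by omega) (by omega)]
      exact congrArg i (if_pos ⟨h, hy⟩).symm
    · rw [show M x y = 0 from if_neg fun h0 => h h0.1, map_zero]
      by_contra h0
      have := hL.deg x y h0
      have := hL.lev x y h0
      omega
  have hQ : ∀ w y, (Q * M) w y ≠ 0 → g w = g y + 1 ∧ lv w = g y + 3 := by
    intro w y h
    obtain ⟨v, -, hv⟩ := Finset.exists_ne_zero_of_sum_ne_zero h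
    obtain ⟨e1, e2⟩ := Prod.mk.inj (h3 w v (left_ne_zero_of_mul hv))
    have e3 := right_ne_zero_of_mul hv
    obtain ⟨e4, e5⟩ : lv v = g v + 2 ∧ g y + 2 < lv y := by_contra fun h0 => e3 (if_neg h0)
    have := hL.deg v y (by rw [hM v y e4.le e5]; exact (map_ne_zero_iff i hi).2 e3)
    omega
  have hC : ∀ z : ι → S, (∀ x, g x + 2 < lv x → z x = 0) →
      (Cut g lv dS (z ᵥ* Q.map i) ↔ z ᵥ* (Q * M).map i = 0) := by
    intro z hz
    have hc := tkc1_blk i h3 hz
    rw [Matrix.map_mul, ← vecMul_vecMul]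
    generalize z ᵥ* Q.map i = c at hc
    have e : ∀ y, g y + 2 < lv y → (c ᵥ* dS) y = (c ᵥ* M.map i) y := fun y hy =>
      Finset.sum_congr rfl fun x _ => by
        by_cases hx : lv x ≤ g x + 2
        · exact congrArg (c x * ·) (hM x y hx hy)
        · rw [hc x (by omega), zero_mul, zero_mul]
    refine ⟨fun h => funext fun y => ?_, fun h => ⟨hc, fun y hy => (e y hy).trans (congrFun h y)⟩⟩
    by_cases hy : g y + 2 < lv y
    · exact (e y hy).symm.trans (h.2 y hy)
    · refine Finset.sum_eq_zero fun x _ => ?_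
      simp only [map_apply, show M x y = 0 from if_neg fun h0 => hy h0.2, map_zero, mul_zero]
  refine ⟨Q, Q', fun x => g x + 2 < lv x ∨ (lv x = g x + 2 ∧ ¬ T x), h1, h2,
    fun x y h => Prod.mk.inj (h3 x y h), fun x y h => Prod.mk.inj (h4 x y h),
    fun x h => by omega, fun x h => not_lt.1 fun h0 => h (Or.inl h0), fun z => ⟨fun h => ?_,
    fun h => (hC z fun x hx => h x (Or.inl hx)).2 (funext fun y => ?_)⟩⟩
  · have hz : ∀ x, g x + 2 < lv x → z x = 0 := fun x hx => by
      have e := tkc1_blk i h4 h.1 x hx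
      rwa [vecMul_vecMul, ← Matrix.map_mul, h1, Matrix.map_one _ (map_zero i) (map_one i),
        vecMul_one] at e
    have e := (hC z hz).1 h
    rintro x (hx | ⟨-, hx⟩)
    · exact hz x hx
    refine (if_pos rfl).symm.trans (h6 (fun w => if (g w, lv w) = (g x, lv x) then z w else 0) x
      (fun y hy => if_neg hy) (funext fun y => ?_) hx)
    by_cases hy : g x = g y + 1 ∧ lv x = g y + 3
    · refine Eq.trans (Finset.sum_congr rfl fun w _ => ?_) (congrFun e y)
      by_cases hw : (Q * M) w y = 0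
      · simp only [map_apply, hw, map_zero, mul_zero]
      · have := hQ w y hw
        have h0 : (g w, lv w) = (g x, lv x) := by rw [this.1, this.2, hy.1, hy.2]
        simp only [if_pos h0]
    · refine Finset.sum_eq_zero fun w _ => ?_
      by_cases hw : (Q * M) w y = 0
      · simp only [map_apply, hw, map_zero, mul_zero]
      · have := hQ w y hw
        have h0 : (g w, lv w) ≠ (g x, lv x) := fun h0 => hy (by have := Prod.mk.inj h0; omega)
        simp only [if_neg h0, zero_mul]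
  · refine Finset.sum_eq_zero fun w _ => ?_
    by_cases hw : (Q * M) w y = 0
    · simp only [map_apply, hw, map_zero, mul_zero]
    · have := hQ w y hw
      rw [h w (Or.inr ⟨by omega, fun h0 => hw (h5 w h0 y)⟩), zero_mul]

end Pool.Agent.Lib.MP_5ceaf9_gt
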