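import Pool.Agent.Lib.MP_5ceaf9_gt.TKC

/-! The torsion of a complex that can be cut. -/

noncomputable section

namespace Pool.Agent.Lib.MP_5ceaf9_gt

open Classical Function Matrix

variable {ι P S K F : Type} [Fintype ι] [DecidableEq ι] [CommRing P] [IsDomain P]
  [IsPrincipalIdealRing P] [CommRing S] [IsDomain S] [Field K] [Field F] {g lv : ι → ℕ} {k : ℕ}
  {dS : Matrix ι ι S} {mP : Matrix ι ι P} {p : ι → Bool} {d : Matrix ι ι F} {m0 : Matrix ι ι K}

/-- Take `Q`, `Q'`, `U` from `exists_cut` and conjugate `d` by the images of `Q.map e`, `Q'.map e`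
(`tor_conj_sub`). The rows outside `U` are the images under `ev` of the rows of the conjugate of
`dS`; the block on `U` is the image under `j` of the block of the conjugate of `m0`. Conclude
with `tor_block`, `ctr_sub`, `tor_map_unit`, `tor_sub_field`. -/
theorem tor_cut (i : P →+* S) (hi : Injective i) (e : P →+* K) (ev : S →+* F) (j : K →+* F)
    (hc : ∀ a, ev (i a) = j (e a)) (hu : ∀ u, IsUnit u → ev u ^ 8 = 1)
    (hj : ∀ a, a ≠ 0 → j a ^ 8 = 1) (hd : Dm p d) (hC : Ctr d) (hdS : Dm p dS)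
    (hp : ∀ x y, g x = g y → p x = p y) (hL : Lv g lv dS)
    (hS : ∀ x y, lv x ≤ k → d x y = ev (dS x y)) (h0 : ∀ x y, 2 ≤ lv y → d x y = j (m0 x y))
    (hP : ∀ x y, lv x ≤ k → 2 ≤ lv y → dS x y = i (mP x y)) (hk : ∀ x, g x + 3 ≤ k)
    (hn : ∀ n < k, ∀ z : ι → S, (∀ x, n < lv x → z x = 0) → z ᵥ* dS = 0 →
      ∃ u : ι → S, (∀ x, n + 1 < lv x → u x = 0) ∧ u ᵥ* dS = z) : tor p d = 1 := by
  obtain ⟨Q, Q', U, _, h1, h2, hQ, hQ', hU, hU', hs, hct⟩ := exists_cut i hi hL hdS.1 hP hk hn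
  have hm : ∀ {T : Type} [CommRing T] (φ : P →+* T) {A B : Matrix ι ι P}, A * B = 1 →
      A.map φ * B.map φ = 1 := fun φ A B h => by
    rw [← Matrix.map_mul, h, Matrix.map_one _ (map_zero φ) (map_one φ)]
  have hev : ∀ {T : Type} [CommRing T] (φ : P →+* T) {A : Matrix ι ι P},
      (∀ x y, A x y ≠ 0 → g x = g y ∧ lv x = lv y) → EvenM p p (A.map φ) :=
    fun φ A h x y hxy => hp x y (h x y fun h' => hxy (by rw [Matrix.map_apply, h', map_zero])).1
  rw [← tor_conj_sub j hj hd (hm e h1) (hm e h2) (hev e hQ) (hev e hQ')]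
  have a1 : (Q.map e).map j * (Q'.map e).map j = 1 := hm (j.comp e) h1
  have a2 : (Q'.map e).map j * (Q.map e).map j = 1 := hm (j.comp e) h2
  have hD : Dm p ((Q.map e).map j * d * (Q'.map e).map j) :=
    hd.conj a2 (hev (j.comp e) hQ) (hev (j.comp e) hQ')
  have hDC : Ctr ((Q.map e).map j * d * (Q'.map e).map j) := hC.conj a1 a2
  have hDS : Dm p (Q.map i * dS * Q'.map i) := hdS.conj (hm i h2) (hev i hQ) (hev i hQ')
  have row : ∀ x y, ¬ U x → ((Q.map e).map j * d * (Q'.map e).map j) x y =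
      ev ((Q.map i * dS * Q'.map i) x y) := by
    intro x y hx
    simp only [Matrix.mul_apply, Matrix.map_apply, map_sum, map_mul, hc]
    refine Finset.sum_congr rfl fun b _ => congrArg (· * _) (Finset.sum_congr rfl fun a _ => ?_)
    by_cases h : Q x a = 0
    · rw [h, map_zero, map_zero, zero_mul, zero_mul]
    · rw [hS a b ((hQ x a h).2 ▸ hU' x hx)]
  have col : ∀ x y, U y → ((Q.map e).map j * d * (Q'.map e).map j) x y =
      j ((Q.map e * m0 * Q'.map e) x y) := by
    intro x y hy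
    simp only [Matrix.mul_apply, Matrix.map_apply, map_sum, map_mul]
    refine Finset.sum_congr rfl fun b _ => ?_
    by_cases h : Q' b y = 0
    · rw [h, map_zero, map_zero, mul_zero, mul_zero]
    · refine congrArg (· * _) (Finset.sum_congr rfl fun a _ => ?_)
      rw [h0 a b ((hQ' b y h).2 ▸ hU y hy)]
  generalize (Q.map e).map j * d * (Q'.map e).map j = D at hD hDC row col ⊢
  have hsub : Sub D U := fun x y hxy hy => by
    by_contra hx
    refine hx (hs x y (fun h => hxy ?_) hy)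
    rw [row x y hx, h, map_zero]
  have e1 : blk D (fun x => ¬ U x) = (blk (Q.map i * dS * Q'.map i) (fun x => ¬ U x)).map ev := by
    ext x y
    exact row x y x.2
  have e2 : blk D U = (blk (Q.map e * m0 * Q'.map e) U).map j := by
    ext x y
    exact col x y y.2
  have c1 : Ctr (blk D (fun x => ¬ U x)) := e1 ▸ hct.map ev
  have c2 : Ctr (blk D U) := ctr_sub hD.1 hsub hDC c1
  have d2 := hD.blk_sub hsub
  rw [tor_block hD hsub c2 c1, e1, tor_map_unit (hDS.blk_quot hs) hct ev hu, mul_one]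
  rw [e2] at c2 d2 ⊢
  exact tor_sub_field j hj d2 c2

end Pool.Agent.Lib.MP_5ceaf9_gt
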