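import Pool.Agent.Lib.MP_5ceaf9_gt.SxJ

/-! Definitions for the controlled vanishing of the torsion. -/

noncomputable section

namespace Pool.Agent.Lib.MP_5ceaf9_gt

open Classical Function

section alg

variable {ι Λ : Type}

/-- A matrix that lowers the degree by one and does not raise the level (rows are chains). -/
structure Lv [Zero Λ] (g lv : ι → ℕ) (d : Matrix ι ι Λ) : Prop where
  deg : ∀ x y, d x y ≠ 0 → g x = g y + 1
  lev : ∀ x y, d x y ≠ 0 → lv y ≤ lv x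

/-- Relative cycles of `(B, A)` bound in `(B', A')`. -/
def NulC [DecidableEq ι] [Ring Λ] (M : ι → ι → Λ) (A B A' B' : Finset ι) : Prop :=
  ∀ z : ι → Λ, (∀ y ∈ B \ A, ∑ x ∈ B \ A, z x * M x y = 0) →
    ∃ u : ι → Λ, ∀ y ∈ B' \ A', ∑ x ∈ B' \ A', u x * M x y = if y ∈ B \ A then z y else 0

/-- `L` is a subset of `Z` that is closed under faces. -/
def Clo [Zero Λ] (M : ι → ι → Λ) (Z L : Finset ι) : Prop :=
  L ⊆ Z ∧ ∀ x ∈ L, ∀ y ∈ Z, M x y ≠ 0 → y ∈ L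

end alg

section pos

variable {α β : Type} [DecidableEq α] [DecidableEq β] [Nonempty α] [Nonempty β]
  (r : α → α → Prop) (r' : β → β → Prop)

/-- Twisted relative cycles of the pair of posets `(B, A)` bound in `(B', A')`. -/
def NulP (A B A' B' : Finset α) : Prop :=
  ∀ (Γ : Type) [Group Γ] (c : α → α → Γ), Flat r (OC r B') c →
    ∀ (Λ : Type) [Ring Λ] (φ : ZG Γ →+* Λ),
      NulC (fun σ ρ => φ (DG r c σ ρ)) (OC r A) (OC r B) (OC r A') (OC r B')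

/-- Four good pairs. -/
structure Four (A B A' B' E F G H Z : Finset α) : Prop where
  ef : GP r 1 E F
  gz : GP r 1 G Z
  ah : GP r 1 A' H
  bz : GP r 1 B' Z
  af : A ⊆ F
  fh : F ⊆ H
  eg : E ⊆ G
  gh : G ⊆ H
  hz : H ⊆ Z
  aa : A ⊆ A'
  bb : B ⊆ B'
  ab : A' ⊆ B'

/-- An interleaving `P → Q → R' → T'` over `R`. -/
def Ilv (f : α → β) (R R' : Finset α) (T' : Finset β) : Prop :=
  ∃ (γ δ : Type) (_ : DecidableEq γ) (_ : DecidableEq δ) (_ : Nonempty γ) (_ : Nonempty δ)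
    (s : γ → γ → Prop) (s' : δ → δ → Prop) (P : Finset γ) (Q : Finset δ) (a : γ → δ)
    (b : δ → α), Mo s s' P Q a ∧ Mo s' r Q R' b ∧ ME s r 1 P R (b ∘ a) ∧
      ME s' r' 1 Q T' (f ∘ b)

/-- `T` is a lower set of `Y`. -/
def Low (Y T : Finset α) : Prop := T ⊆ Y ∧ ∀ b ∈ T, ∀ a ∈ Y, r a b → a ∈ T

/-- A controlled equivalence. -/
def CE (X : Finset α) (Y : Finset β) (f : α → β) : Prop :=
  ∀ T T' : Finset β, Low r' Y T → Low r' Y T' → (∀ a ∈ T, ∀ b ∈ Y, r' a b → b ∈ T') →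
    ∀ R R' : Finset α, (∀ a, a ∈ R ↔ a ∈ X ∧ f a ∈ T) → (∀ a, a ∈ R' ↔ a ∈ X ∧ f a ∈ T') →
      Ilv r r' f R R' T'

/-- An additive flat cocycle on the elements of `A` with `q`. -/
def FlA {G : Type} [Add G] (A : Finset α) (q : α → Prop) (κ : α → α → G) : Prop :=
  ∀ a ∈ A, ∀ b ∈ A, ∀ d ∈ A, q a → q b → q d → r a b → r b d → κ a b + κ b d = κ a d

/-- A potential for the cocycle `κ`: trivial on the high part, integral on the low part. -/
structure Pot (A : Finset α) (R : ℕ) (κ : α → α → ZMod 8) (φ : α → ℕ) : Prop where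
  lip : ∀ a ∈ A, ∀ b ∈ A, r a b → φ a ≤ φ b + 1 ∧ φ b ≤ φ a + 1
  triv : ∃ g : α → ZMod 8, ∀ a ∈ A, ∀ b ∈ A, r a b → 1 ≤ φ a → 1 ≤ φ b → κ a b = g a - g b
  lift : ∃ c : α → α → ℤ, FlA r A (fun a => φ a < R) c ∧
    ∀ a ∈ A, ∀ b ∈ A, r a b → φ a < R → φ b < R → (c a b : ZMod 8) = κ a b

/-- Every flat cocycle modulo eight has a potential of range `R`. -/
def Sp (A : Finset α) (R : ℕ) : Prop :=
  ∀ κ : α → α → ZMod 8, FlA r A (fun _ => True) κ → ∃ φ, Pot r A R κ φ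

end pos

end Pool.Agent.Lib.MP_5ceaf9_gt
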