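import Pool.Agent.Lib.MP_5ceaf9_gt.TKE1

/-! Relative cycles that bound in a larger pair. -/

noncomputable section

namespace Pool.Agent.Lib.MP_5ceaf9_gt

open Classical Function Matrix

variable {ι Λ : Type} [DecidableEq ι] [Ring Λ] {M M' : ι → ι → Λ}
  {K L A B A' B' E F G H Z : Finset ι}

omit [DecidableEq ι] in
theorem tke_add (a b : ι → Λ) (y : ι) : bdZ M Z (a + b) y = bdZ M Z a y + bdZ M Z b y := by
  simp only [bdZ, Pi.add_apply, add_mul, Finset.sum_add_distrib]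

omit [DecidableEq ι] in
theorem tke_sub (a b : ι → Λ) (y : ι) : bdZ M Z (a - b) y = bdZ M Z a y - bdZ M Z b y := by
  simp only [bdZ, Pi.sub_apply, sub_mul, Finset.sum_sub_distrib]

omit [DecidableEq ι] in
theorem tke_sq (sq : ∀ x ∈ Z, ∀ w ∈ Z, ∑ y ∈ Z, M x y * M y w = 0) (a : ι → Λ) {y : ι}
    (hy : y ∈ Z) : bdZ M Z (bdZ M Z a) y = 0 := by
  simp only [bdZ, Finset.sum_mul, mul_assoc]
  rw [Finset.sum_comm]
  exact Finset.sum_eq_zero fun x hx => by rw [← Finset.mul_sum, sq x hx y hy, mul_zero]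

/-- Let `z` be supported in `B \ A` with boundary in `A`, and write `∂` for `bdZ M Z`. Then
`∂ z = ∂ b` off `E` with `b` in `F`; `z - b = ∂ e` off `G`; `z - ∂ e` lies in `H` and equals
`∂ h` off `A'` with `h` in `H`; `e + h = ∂ w` off `B'`; take `u = e + h - ∂ w`. -/
theorem nulC_four (sq : ∀ x ∈ Z, ∀ w ∈ Z, ∑ y ∈ Z, M x y * M y w = 0) (cB : Clo M Z B)
    (cA' : Clo M Z A') (cB' : Clo M Z B') (cE : Clo M Z E) (cF : Clo M Z F) (cG : Clo M Z G)
    (cH : Clo M Z H) (af : A ⊆ F) (fh : F ⊆ H) (eg : E ⊆ G) (gh : G ⊆ H) (aa : A ⊆ A')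
    (bb : B ⊆ B') (ab : A' ⊆ B') (ef : NulC M E F E F) (gz : NulC M G Z G Z)
    (ah : NulC M A' H A' H) (bz : NulC M B' Z B' Z) : NulC M A B A' B' := by
  intro z hz
  have cZ : Clo M Z Z := ⟨Finset.Subset.refl Z, fun _ _ _ hy _ => hy⟩
  obtain ⟨z0, hz0⟩ : ∃ z0 : ι → Λ, ∀ y, z0 y = if y ∈ B \ A then z y else 0 := ⟨_, fun _ => rfl⟩
  have h1 : ∀ y ∈ Z, y ∉ A → bdZ M Z z0 y = 0 := fun y hy hA => by
    have e : bdZ M Z z0 y = ∑ x ∈ B \ A, z x * M x y := by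
      rw [bdZ, ← Finset.sum_subset (Finset.sdiff_subset.trans cB.1)
        fun x _ hx => by rw [hz0, if_neg hx, zero_mul]]
      exact Finset.sum_congr rfl fun x hx => by rw [hz0, if_pos hx]
    rw [e]
    by_cases hB : y ∈ B
    · exact hz y (Finset.mem_sdiff.2 ⟨hB, hA⟩)
    · refine Finset.sum_eq_zero fun x hx => ?_
      rw [not_not.1 fun h => hB (cB.2 x (Finset.mem_sdiff.1 hx).1 y hy h), mul_zero]
  obtain ⟨b, hb, hb'⟩ := ef.amb cE cF (bdZ M Z z0) (fun x hx hF => h1 x hx fun h => hF (af h))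
    fun y hy _ => tke_sq sq z0 hy
  obtain ⟨e, -, he⟩ := gz.amb cG cZ (z0 - b) (fun x hx h => absurd hx h) fun y hy hG => by
    rw [tke_sub, hb' y hy fun h => hG (eg h), sub_self]
  obtain ⟨h, -, hh⟩ := ah.amb cA' cH (z0 - bdZ M Z e) (fun x hx hH => by
    rw [Pi.sub_apply, ← he x hx fun h => hH (gh h), Pi.sub_apply, hb x hx fun h => hH (fh h),
      sub_zero, sub_self]) fun y hy hA => by
    rw [tke_sub, tke_sq sq e hy, h1 y hy fun h => hA (aa h), sub_self]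
  have h2 : ∀ y ∈ Z, y ∉ A' → bdZ M Z (e + h) y = z0 y := fun y hy hA => by
    rw [tke_add, ← hh y hy hA, Pi.sub_apply, add_sub_cancel]
  obtain ⟨w, -, hw⟩ := bz.amb cB' cZ (e + h) (fun x hx h => absurd hx h) fun y hy hB => by
    rw [h2 y hy fun h => hB (ab h), hz0, if_neg fun h => hB (bb (Finset.mem_sdiff.1 h).1)]
  refine ⟨e + h - bdZ M Z w, fun y hy => ?_⟩
  obtain ⟨hB, hA⟩ := Finset.mem_sdiff.1 hy
  have hZ := cB'.1 hB
  rw [← hz0, ← h2 y hZ hA, ← sub_zero (bdZ M Z (e + h) y), ← tke_sq sq w hZ, ← tke_sub]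
  refine Finset.sum_subset (Finset.sdiff_subset.trans cB'.1) fun x hx hx' => ?_
  by_cases h3 : x ∈ B'
  · rw [not_not.1 fun h => hA (cA'.2 x (not_not.1 fun h4 => hx' (Finset.mem_sdiff.2 ⟨h3, h4⟩))
      y hZ h), mul_zero]
  · rw [Pi.sub_apply, hw x hx h3, sub_self, zero_mul]

end Pool.Agent.Lib.MP_5ceaf9_gt
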