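import Pool.Agent.Lib.MP_5ceaf9_gt.TKA

/-! Relative cycles that bound in a larger pair. -/

noncomputable section

namespace Pool.Agent.Lib.MP_5ceaf9_gt

open Classical Function Matrix

variable {ι Λ : Type} [DecidableEq ι] [Ring Λ] {M M' : ι → ι → Λ}
  {K L A B A' B' E F G H Z : Finset ι}

theorem tke1_iff : NulC M K L K L ↔ ∀ z : ↥(L \ K) → Λ, z ᵥ* rs (L \ K) (L \ K) M = 0 →
    ∃ u, u ᵥ* rs (L \ K) (L \ K) M = z := by
  have key : ∀ (z : ι → Λ) (y : ↥(L \ K)), ((fun x : ↥(L \ K) => z x) ᵥ* rs (L \ K) (L \ K) M) y =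
      ∑ x ∈ L \ K, z x * M x y := fun z y => Finset.sum_coe_sort (L \ K) fun x => z x * M x y
  have ext : ∀ z : ↥(L \ K) → Λ, ∃ z' : ι → Λ, z = fun x => z' x.1 := fun z =>
    ⟨fun x => if h : x ∈ L \ K then z ⟨x, h⟩ else 0, funext fun x => by simp only [dif_pos x.2]⟩
  refine ⟨fun h z hz => ?_, fun h z hz => ?_⟩
  · obtain ⟨z, rfl⟩ := ext z
    obtain ⟨u, hu⟩ := h z fun y hy => (key z ⟨y, hy⟩).symm.trans (congrFun hz _)
    exact ⟨fun x => u x, funext fun y => by rw [key, hu y y.2, if_pos y.2]⟩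
  · obtain ⟨u, hu⟩ := h (fun x => z x) (funext fun y => (key z y).trans (hz y y.2))
    obtain ⟨u, rfl⟩ := ext u
    exact ⟨u, fun y hy => by rw [if_pos hy, ← key u ⟨y, hy⟩, hu]⟩

/-- From `d s + s d = 1`: a cycle `z` is the boundary of `z s`. -/
theorem nulC_of_ctr (h : Ctr (rs (L \ K) (L \ K) M)) : NulC M K L K L := by
  obtain ⟨s, hs⟩ := h
  refine tke1_iff.2 fun z hz => ⟨z ᵥ* s, ?_⟩
  have := congrArg (z ᵥ* ·) hs
  simp only [vecMul_add, ← vecMul_vecMul, hz, zero_vecMul, zero_add, vecMul_one] at this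
  exact this

theorem ctr_of_nulC (g : ι → ℕ) (hg : ∀ x ∈ L \ K, ∀ y ∈ L \ K, M x y ≠ 0 → g x = g y + 1)
    (h2 : rs (L \ K) (L \ K) M * rs (L \ K) (L \ K) M = 0) (h : NulC M K L K L) :
    Ctr (rs (L \ K) (L \ K) M) := by
  exact ctr_of_exact (fun x => g x.1) (fun x y => hg x x.2 y y.2) h2 fun _ z _ => tke1_iff.1 h z

theorem NulC.congr (h : NulC M A B A' B') (hB : B ⊆ B')
    (e : ∀ x ∈ B', ∀ y ∈ B', M' x y = M x y) : NulC M' A B A' B' := by
  intro z hz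
  have hs : B \ A ⊆ B' := Finset.sdiff_subset.trans hB
  obtain ⟨u, hu⟩ := h z fun y hy => (Finset.sum_congr rfl fun x hx => by
    rw [e x (hs hx) y (hs hy)]).trans (hz y hy)
  exact ⟨u, fun y hy => (Finset.sum_congr rfl fun x hx => by
    rw [e x (Finset.sdiff_subset hx) y (Finset.sdiff_subset hy)]).trans (hu y hy)⟩

/-- Transfer along an injection (`Finset.sum_image`, `Function.invFunOn`). -/
theorem NulC.of_image {κ : Type} [DecidableEq κ] {N : κ → κ → Λ} {j : ι → κ}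
    (hj : Set.InjOn j B') (hA : A ⊆ B') (hB : B ⊆ B') (hA' : A' ⊆ B')
    (h : NulC N (A.image j) (B.image j) (A'.image j) (B'.image j)) :
    NulC (fun x y => N (j x) (j y)) A B A' B' := by
  intro z hz
  have mem : ∀ {S : Finset ι}, S ⊆ B' → ∀ x ∈ B', j x ∈ S.image j ↔ x ∈ S := fun hS x hx =>
    ⟨fun e => by
      obtain ⟨y, hy, e'⟩ := Finset.mem_image.1 e
      exact hj (hS hy) hx e' ▸ hy, Finset.mem_image_of_mem j⟩
  have sd : ∀ {S T : Finset ι}, S ⊆ B' → T ⊆ B' → S.image j \ T.image j = (S \ T).image j :=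
    fun hS hT => Finset.ext fun k => ⟨fun e => by
      obtain ⟨e1, e2⟩ := Finset.mem_sdiff.1 e
      obtain ⟨x, hx, rfl⟩ := Finset.mem_image.1 e1
      exact Finset.mem_image_of_mem j (Finset.mem_sdiff.2 ⟨hx, mt (mem hT x (hS hx)).2 e2⟩),
    fun e => by
      obtain ⟨x, hx, rfl⟩ := Finset.mem_image.1 e
      obtain ⟨e1, e2⟩ := Finset.mem_sdiff.1 hx
      exact Finset.mem_sdiff.2 ⟨Finset.mem_image_of_mem j e1, mt (mem hT x (hS e1)).1 e2⟩⟩
  obtain ⟨z', hz'⟩ : ∃ z' : κ → Λ, ∀ x ∈ B', z' (j x) = z x :=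
    ⟨fun k => if h : ∃ x ∈ B', j x = k then z h.choose else 0, fun x hx => by
      have e : ∃ y ∈ B', j y = j x := ⟨x, hx, rfl⟩
      simp only [dif_pos e]
      rw [hj e.choose_spec.1 hx e.choose_spec.2]⟩
  have hs : B \ A ⊆ B' := Finset.sdiff_subset.trans hB
  unfold NulC at h
  rw [sd hB hA, sd subset_rfl hA'] at h
  obtain ⟨u, hu⟩ := h z' fun k hk => by
    obtain ⟨y, hy, rfl⟩ := Finset.mem_image.1 hk
    rw [Finset.sum_image (hj.mono hs), ← hz y hy]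
    exact Finset.sum_congr rfl fun x hx => by rw [hz' x (hs hx)]
  refine ⟨fun x => u (j x), fun y hy => ?_⟩
  have := hu _ (Finset.mem_image_of_mem j hy)
  rw [Finset.sum_image (hj.mono Finset.sdiff_subset), hz' y (Finset.sdiff_subset hy)] at this
  exact this.trans (if_congr (mem hs y (Finset.sdiff_subset hy)) rfl rfl)

/-- The boundary in the ambient complex. -/
def bdZ (M : ι → ι → Λ) (Z : Finset ι) (z : ι → Λ) (y : ι) : Λ := ∑ x ∈ Z, z x * M x y

/-- The ambient form of an acyclic pair. -/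
theorem NulC.amb (h : NulC M K L K L) (cK : Clo M Z K) (cL : Clo M Z L) (w : ι → Λ)
    (hw : ∀ x ∈ Z, x ∉ L → w x = 0) (h0 : ∀ y ∈ Z, y ∉ K → bdZ M Z w y = 0) :
    ∃ u : ι → Λ, (∀ x ∈ Z, x ∉ L → u x = 0) ∧ ∀ y ∈ Z, y ∉ K → w y = bdZ M Z u y := by
  have hs : L \ K ⊆ Z := Finset.sdiff_subset.trans cL.1
  obtain ⟨u, hu⟩ := h w fun y hy => by
    obtain ⟨h1, h2⟩ := Finset.mem_sdiff.1 hy
    rw [← h0 y (cL.1 h1) h2]
    refine Finset.sum_subset hs fun x hx hx' => ?_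
    by_cases e : x ∈ L
    · have e' : x ∈ K := by_contra fun e' => hx' (Finset.mem_sdiff.2 ⟨e, e'⟩)
      rw [show M x y = 0 from by_contra fun e'' => h2 (cK.2 x e' y (cL.1 h1) e''), mul_zero]
    · rw [hw x hx e, zero_mul]
  refine ⟨fun x => if x ∈ L \ K then u x else 0,
    fun x _ e => if_neg fun e' => e (Finset.sdiff_subset e'), fun y hy e => ?_⟩
  rw [bdZ, ← Finset.sum_subset hs fun x _ hx => by rw [if_neg hx, zero_mul],
    Finset.sum_congr rfl fun x hx => by rw [if_pos hx]]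
  by_cases e' : y ∈ L
  · rw [hu y (Finset.mem_sdiff.2 ⟨e', e⟩), if_pos (Finset.mem_sdiff.2 ⟨e', e⟩)]
  · rw [hw y hy e', Finset.sum_eq_zero fun x hx => ?_]
    rw [show M x y = 0 from by_contra fun e'' => e' (cL.2 x (Finset.sdiff_subset hx) y hy e''),
      mul_zero]

end Pool.Agent.Lib.MP_5ceaf9_gt
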