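import Pool.Agent.Lib.MP_5ceaf9_gt.TKF1

/-! Four good pairs of posets. -/

noncomputable section

namespace Pool.Agent.Lib.MP_5ceaf9_gt

open Classical Function

variable {α β : Type} [DecidableEq α] [DecidableEq β] [Nonempty α] [Nonempty β]
  {r : α → α → Prop} {r' : β → β → Prop} {A B A' B' E F G H Z : Finset α}

/-- Transfer along an order embedding (`emb_OC`, `OC_image`, `Emb.exists_inv`, `Emb.bt`,
`Emb.Dz`, `NulC.of_image`). -/
theorem NulP.of_image {j : α → β} (hp : POn r B') (hj : Set.InjOn j B')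
    (hr : ∀ a ∈ B', ∀ b ∈ B', (r' (j a) (j b) ↔ r a b)) (hA : A ⊆ B') (hB : B ⊆ B')
    (hA' : A' ⊆ B') (h : NulP r' (A.image j) (B.image j) (A'.image j) (B'.image j)) :
    NulP r A B A' B' := by
  intro Γ _ c hc Λ _ φ
  have he := emb_OC hj hr hp
  have cL := cx_OC hp
  obtain ⟨g, hg⟩ := he.exists_inv
  have io : ∀ X : Finset α, X ⊆ B' → OC r' (X.image j) = (OC r X).image (fun σ => σ.image j) :=
    fun X hX => OC_image (hj.mono hX) fun a ha b hb => hr a (hX ha) b (hX hb)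
  have hf : Flat r' (OC r' (B'.image j)) (fun x y => c (g x) (g y)) := by
    rw [OC_image hj hr, he.flat cL]
    refine Flat.of_agree cL hc fun a b hab _ => ?_
    obtain ⟨e1, e2⟩ := sxe2_pair cL hg hab
    simp only [e1, e2]
  have k := h Γ _ hf Λ φ
  rw [io A hA, io B hB, io A' hA', io B' subset_rfl] at k
  refine (NulC.of_image (fun σ hσ ρ hρ e => he.image_inj cL hσ hρ e) (OC_mono hA) (OC_mono hB)
    (OC_mono hA') k).congr (OC_mono hB) fun x hx y hy => ?_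
  have hb : ∀ σ ∈ OC r B', g (j (bt r σ)) = bt r σ := fun σ hσ =>
    hg _ (sxe_vert cL hσ _ (bt_spec (cL.po σ hσ) (cL.tot σ hσ) (cL.ne σ hσ)).1)
  simp only [DG, he.bt cL hx, he.bt cL hy, he.Dz cL hx hy, hb x hx, hb y hy]

/-- `ctr_of_nulC` with the cardinality as degree and the identity as ring map. -/
theorem NulP.ctr (hp : POn r B) (hAB : A ⊆ B) (h : NulP r A B A B) {Γ : Type} [Group Γ]
    {c : α → α → Γ} (hc : Flat r (OC r B) c) :
    Ctr (rs (OC r B \ OC r A) (OC r B \ OC r A) (DG r c)) := by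
  refine ctr_of_nulC Finset.card (fun x _ y _ hxy => ?_)
    (dm_DG (cx_OC (hp.mono hAB)) (cx_OC hp) hc).1 (h Γ c hc (ZG Γ) (RingHom.id _))
  have hz : Dz r x y ≠ 0 := fun e => hxy (by rw [DG, e, MonoidAlgebra.single_zero])
  obtain ⟨v, hv, rfl⟩ := Dz_ne hz
  exact (Finset.card_erase_add_one hv).symm

/-- Two out of six. Extension: restrict to `G`, extend to `Z`, correct by the gauge given by
`h1.uniq`. Uniqueness: the gauge given by `h2.uniq` is trivial on `H` by `h1.conn` applied to the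
set of vertices where it is trivial. -/
theorem Eq1.sixK {E G H Z : Finset (Finset α)} (cE : Cx r E) (cG : Cx r G) (cH : Cx r H)
    (cZ : Cx r Z) (eg : E ⊆ G) (gh : G ⊆ H) (hz : H ⊆ Z) (h1 : Eq1 r E H) (h2 : Eq1 r G Z) :
    Eq1 r H Z := by
  refine ⟨fun Γ _ c hc => ?_, fun Γ _ c c' hc hc' k => ?_, fun T k1 k2 => ?_⟩
  · obtain ⟨d, k1, k2⟩ := h2.ext Γ c (hc.mono gh)
    obtain ⟨g, -, k3⟩ := h1.uniq Γ d c (k1.mono hz) hc
      fun a b hab hr => (k2 a b (eg hab) hr).symm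
    exact ⟨gau g d, k1.gau g, fun a b hab hr => (k3 a b hab hr).symm⟩
  · obtain ⟨g, k1, k2⟩ := h2.uniq Γ c c' hc hc' fun a b hab => k a b (gh hab)
    refine ⟨g, h1.conn {a | g a = 1} (fun a ha => k1 a (eg ha)) fun a b hab hr => ?_, k2⟩
    have e := k2 a b (hz hab) hr
    rw [← k a b hab hr] at e
    simp only [gau] at e
    refine ⟨fun k3 => ?_, fun k3 => ?_⟩
    · change g a = 1 at k3
      change g b = 1
      simpa [k3] using e
    · change g b = 1 at k3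
      change g a = 1
      simpa [k3] using e
  · exact h2.conn T (fun a ha => k1 a (gh ha)) k2

/-- `Eq1.sixK`, `Eq1.trans`, `Eq1.left`, `dm_DG`, `NulP.ctr`. -/
theorem Four.gp (h : Four r A B A B E F G H Z) (eh : GP r 0 E H) : GP r 1 A B := by
  have pZ : POn r Z := h.bz.1
  have pB : POn r B := pZ.mono h.bz.2.1
  have cA := h.ah.2.2.cK
  have cB := h.bz.2.2.cK
  have cH := h.ah.2.2.cL
  have cZ := h.bz.2.2.cL
  have e1 : Eq1 r (OC r H) (OC r Z) := Eq1.sixK eh.2.2.cK h.gz.2.2.cK cH cZ (OC_mono h.eg)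
    (OC_mono h.gh) (OC_mono h.hz) eh.2.2.eq1 h.gz.2.2.eq1
  have e2 : Eq1 r (OC r A) (OC r Z) :=
    Eq1.trans cA cH cZ h.ah.2.2.sub (OC_mono h.hz) h.ah.2.2.eq1 e1
  have e3 : Eq1 r (OC r A) (OC r B) :=
    Eq1.left cA cB cZ (OC_mono h.ab) h.bz.2.2.sub e2 h.bz.2.2.eq1
  exact ⟨pB, h.ab, cA, cB, OC_mono h.ab, e3, fun Γ _ c hc => ⟨dm_DG cA cB hc,
    fun _ => h.nulP.ctr pB h.ab hc, fun h2 => absurd h2 (by omega)⟩⟩

end Pool.Agent.Lib.MP_5ceaf9_gt
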