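import Pool.Agent.Lib.MP_5ceaf9_gt.TKE

/-! Four good pairs of posets. -/

noncomputable section

namespace Pool.Agent.Lib.MP_5ceaf9_gt

open Classical Function

variable {α β : Type} [DecidableEq α] [DecidableEq β] [Nonempty α] [Nonempty β]
  {r : α → α → Prop} {r' : β → β → Prop} {A B A' B' E F G H Z : Finset α}

/-- Subcomplexes are closed under faces (`Dz_ne`). -/
theorem clo_DG {K L : Finset (Finset α)} (hK : Cx r K) (hL : Cx r L) (h : K ⊆ L) {Γ Λ : Type}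
    [Group Γ] [Ring Λ] (φ : ZG Γ →+* Λ) (c : α → α → Γ) :
    Clo (fun σ ρ => φ (DG r c σ ρ)) L K := by
  refine ⟨h, fun x hx y hy h0 => hK.down _ hx _ (sxa2_sub (sxa2_ne (c := c) (r := r) fun h1 => ?_))
    (hL.ne _ hy)⟩
  exact h0 ((congrArg φ h1).trans (map_zero φ))

theorem GE.nulC {K L : Finset (Finset α)} (h : GE r 1 K L) {Γ Λ : Type} [Group Γ] [Ring Λ]
    (φ : ZG Γ →+* Λ) {c : α → α → Γ} (hc : Flat r L c) :
    NulC (fun σ ρ => φ (DG r c σ ρ)) K L K L := by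
  exact nulC_of_ctr (((h.gd Γ c hc).2.1 le_rfl).map φ)

/-- Extend the cocycle from `B'` to `Z` (`eq1.ext` of `h.bz`), use `nulC_four` with
`dm_DG_abs`, and return with `NulC.congr` and `DG_congr`. -/
theorem Four.nulP (h : Four r A B A' B' E F G H Z) : NulP r A B A' B' := by
  intro Γ _ c hc Λ _ φ
  obtain ⟨c', hc', ha⟩ := h.bz.2.2.eq1.ext Γ c hc
  have pZ := h.bz.1
  have bz := h.bz.2.1
  have cl : ∀ {X : Finset α}, X ⊆ Z → Clo (fun σ ρ => φ (DG r c' σ ρ)) (OC r Z) (OC r X) :=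
    fun hX => clo_DG (cx_OC (pZ.mono hX)) (cx_OC pZ) (OC_mono hX) φ c'
  have fz := h.fh.trans h.hz
  have gz := h.gh.trans h.hz
  refine NulC.congr (M := fun σ ρ => φ (DG r c' σ ρ)) (nulC_four (fun x hx w hw => ?_)
    (cl (h.bb.trans bz)) (cl (h.ab.trans bz)) (cl bz) (cl (h.eg.trans gz)) (cl fz) (cl gz) (cl h.hz)
    (OC_mono h.af) (OC_mono h.fh) (OC_mono h.eg) (OC_mono h.gh) (OC_mono h.aa) (OC_mono h.bb)
    (OC_mono h.ab) (h.ef.2.2.nulC φ (hc'.mono (OC_mono fz))) (h.gz.2.2.nulC φ hc')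
    (h.ah.2.2.nulC φ (hc'.mono (OC_mono h.hz))) (h.bz.2.2.nulC φ hc')) (OC_mono h.bb)
    fun x hx y hy => congrArg φ (DG_congr (cx_OC (pZ.mono bz)) ha hx hy)
  have h1 := congrFun (congrFun ((dm_DG_abs (cx_OC pZ) hc').map φ).1 ⟨x, hx⟩) ⟨w, hw⟩
  rw [Matrix.mul_apply, Matrix.zero_apply] at h1
  exact (Finset.sum_coe_sort (OC r Z) fun y => φ (DG r c' x y) * φ (DG r c' y w)).symm.trans h1

end Pool.Agent.Lib.MP_5ceaf9_gt
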