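import Pool.Agent.Lib.MP_5ceaf9_gt.TKG1

/-! The telescope of an interleaving. -/

noncomputable section

namespace Pool.Agent.Lib.MP_5ceaf9_gt

open Classical Function

variable {α β γ δ : Type} [DecidableEq α] [DecidableEq β] [DecidableEq γ] [DecidableEq δ]
  [Nonempty α] [Nonempty β] [Nonempty γ] [Nonempty δ] {r : α → α → Prop} {r' : β → β → Prop}
  {s : γ → γ → Prop} {s' : δ → δ → Prop} {P : Finset γ} {Q : Finset δ} {R R' X : Finset α}
  {T T' Y : Finset β} {a : γ → δ} {b : δ → α} {f : α → β} {l : ℕ}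

theorem tel_image (R : Finset α) (T : Finset β) :
    (R.disjSum T).image (Sum.inr ∘ Sum.inr) = telK (∅ : Finset γ) (∅ : Finset δ) R T := by
  ext x
  rcases x with x | x | x | x <;> simp [telK]

theorem tel_image_inl (R : Finset α) :
    (R.image (Sum.inl : α → α ⊕ β)).image (Sum.inr ∘ Sum.inr) =
      telK (∅ : Finset γ) (∅ : Finset δ) R ∅ := by
  ext x
  rcases x with x | x | x | x <;> simp [telK]

theorem TelK.four (h : TelK s s' r r' P Q R' T' a b f) (hR : R ⊆ R') (hT : T ⊆ T')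
    (h1 : ME s r 1 P R (b ∘ a)) (h2 : ME s' r' 1 Q T' (f ∘ b)) :
    Four (rtel s s' r r' a b f) (telK ∅ ∅ R ∅) (telK ∅ ∅ R T) (telK ∅ ∅ R' ∅) (telK ∅ ∅ R' T')
      (telK P ∅ ∅ ∅) (telK P ∅ R ∅) (telK P Q ∅ ∅) (telK P Q R' ∅) (telK P Q R' T') := by
  have e := @Finset.Subset.refl
  have z := @Finset.empty_subset
  have q1 : telK (∅ : Finset γ) Q (∅ : Finset α) T' ⊆ telK P Q R' T' :=
    tel_mono (z _) (e _) (z _) (e _)
  have q2 : telK P Q (∅ : Finset α) (∅ : Finset β) ⊆ telK P Q R' T' :=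
    tel_mono (e _) (e _) (z _) (z _)
  have g1 : GP (rtel s s' r r' a b f) 1 (telK ∅ Q ∅ T') (telK P Q R' T') :=
    GP.right q1 (h.gp_last (e _) (e _) (e _)) (h.gp_last (z _) (e _) (z _))
  have m1 : ∀ x ∈ P, b (a x) ∈ R' := fun x hx => h.mb.maps _ (h.ma.maps x hx)
  exact ⟨tel_gp_ef h1, GP.right q2 ((tel_gp_qt h2).trans g1) h.gp_two,
    h.gp_three (e _) (e _) (e _) (z _) m1 h.mb.maps,
    h.gp_three (e _) (e _) (e _) (e _) m1 h.mb.maps,
    tel_mono (z _) (e _) (e _) (e _), tel_mono (e _) (z _) hR (e _),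
    tel_mono (e _) (z _) (e _) (e _), tel_mono (e _) (e _) (z _) (e _),
    tel_mono (e _) (e _) (e _) (z _), tel_mono (e _) (e _) hR (e _),
    tel_mono (e _) (e _) hR hT, tel_mono (e _) (e _) (e _) (z _)⟩

omit [DecidableEq γ] [DecidableEq δ] [Nonempty α] [Nonempty β] [Nonempty γ] [Nonempty δ] in
theorem tkg_sub (h : R ⊆ R') (T : Finset β) : R.image Sum.inl ⊆ R'.disjSum T := by
  intro x hx
  obtain ⟨y, hy, rfl⟩ := Finset.mem_image.1 hx
  exact Finset.inl_mem_disjSum.2 (h hy)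

theorem Ilv.nulP (h : Ilv r r' f R R' T') (hf : Mo r r' R' T' f) (hR : R ⊆ R') (hT : T ⊆ T') :
    NulP (cy r r' f) (R.image Sum.inl) (R.disjSum T) (R'.image Sum.inl) (R'.disjSum T') := by
  obtain ⟨γ, δ, _, _, _, _, s, s', P, Q, a, b, ma, mb, h1, h2⟩ := h
  have h4 := (TelK.four ⟨ma, mb, hf⟩ hR hT h1 h2).nulP
  rw [← tel_image_inl, ← tel_image_inl, ← tel_image, ← tel_image] at h4
  exact NulP.of_image hf.pon_cy (Sum.inr_injective.comp Sum.inr_injective).injOn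
    (fun _ _ _ _ => Iff.rfl) (tkg_sub hR _) (Finset.disjSum_mono hR hT)
    (tkg_sub (Finset.Subset.refl _) _) h4

/-- Two out of six for monotone maps (`Four.gp`, `gp_image`). -/
theorem Ilv.me (h : Ilv r r' f X X Y) (hf : Mo r r' X Y f) : ME r r' 1 X Y f := by
  obtain ⟨γ, δ, _, _, _, _, s, s', P, Q, a, b, ma, mb, h1, h2⟩ := h
  have ht : TelK s s' r r' P Q X Y a b f := ⟨ma, mb, hf⟩
  have h4 := ht.four (Finset.Subset.refl _) (Finset.Subset.refl _) h1 h2
  have g1 : GP (rtel s s' r r' a b f) 1 (telK ∅ ∅ X ∅) (telK P ∅ X ∅) :=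
    ht.gp_three (Finset.Subset.refl _) (Finset.empty_subset _) (Finset.Subset.refl _)
      (Finset.empty_subset _) h1.1.maps (fun x hx => absurd hx (Finset.notMem_empty x))
  have g2 := h4.gp ((h4.ef.trans (GP.right h4.fh h4.ah g1)).mono (Nat.zero_le 1))
  rw [← tel_image_inl, ← tel_image] at g2
  exact ⟨hf, (gp_image (r := cy r r' f) (Sum.inr_injective.comp Sum.inr_injective).injOn
    (fun _ _ _ _ => Iff.rfl) (tkg_sub (Finset.Subset.refl _) _)).1 g2⟩

end Pool.Agent.Lib.MP_5ceaf9_gt
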