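import Pool.Agent.Lib.MP_5ceaf9_gt.TKF

/-! The telescope of an interleaving. -/

noncomputable section

namespace Pool.Agent.Lib.MP_5ceaf9_gt

open Classical Function

variable {α β γ δ : Type} [DecidableEq α] [DecidableEq β] [DecidableEq γ] [DecidableEq δ]
  [Nonempty α] [Nonempty β] [Nonempty γ] [Nonempty δ] {r : α → α → Prop} {r' : β → β → Prop}
  {s : γ → γ → Prop} {s' : δ → δ → Prop} {P : Finset γ} {Q : Finset δ} {R R' X : Finset α}
  {T T' Y : Finset β} {a : γ → δ} {b : δ → α} {f : α → β} {l : ℕ}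

/-- The elements of the telescope. -/
def telK (P : Finset γ) (Q : Finset δ) (R : Finset α) (T : Finset β) :
    Finset (γ ⊕ (δ ⊕ (α ⊕ β))) := P.disjSum (Q.disjSum (R.disjSum T))

/-- The order of the telescope. -/
def rtel (s : γ → γ → Prop) (s' : δ → δ → Prop) (r : α → α → Prop) (r' : β → β → Prop)
    (a : γ → δ) (b : δ → α) (f : α → β) : γ ⊕ (δ ⊕ (α ⊕ β)) → γ ⊕ (δ ⊕ (α ⊕ β)) → Prop :=
  cy s (cy s' (cy r r' f) (Sum.inl ∘ b)) (Sum.inl ∘ a)

/-- A chain of three monotone maps. -/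
structure TelK (s : γ → γ → Prop) (s' : δ → δ → Prop) (r : α → α → Prop) (r' : β → β → Prop)
    (P : Finset γ) (Q : Finset δ) (R : Finset α) (T : Finset β) (a : γ → δ) (b : δ → α)
    (f : α → β) : Prop where
  ma : Mo s s' P Q a
  mb : Mo s' r Q R b
  mf : Mo r r' R T f

section

omit [DecidableEq α] [DecidableEq β] [DecidableEq γ] [DecidableEq δ] [Nonempty α] [Nonempty β]
  [Nonempty γ] [Nonempty δ]

theorem tkg1_m1 {x : γ} : Sum.inl x ∈ telK P Q R T ↔ x ∈ P := Finset.inl_mem_disjSum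

theorem tkg1_m2 {x : δ} : Sum.inr (Sum.inl x) ∈ telK P Q R T ↔ x ∈ Q :=
  Finset.inr_mem_disjSum.trans Finset.inl_mem_disjSum

theorem tkg1_m3 {x : α} : Sum.inr (Sum.inr (Sum.inl x)) ∈ telK P Q R T ↔ x ∈ R :=
  Finset.inr_mem_disjSum.trans (Finset.inr_mem_disjSum.trans Finset.inl_mem_disjSum)

theorem tkg1_m4 {x : β} : Sum.inr (Sum.inr (Sum.inr x)) ∈ telK P Q R T ↔ x ∈ T :=
  Finset.inr_mem_disjSum.trans (Finset.inr_mem_disjSum.trans Finset.inr_mem_disjSum)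

theorem tkg1_comp (h : Mo s' r Q R b) (h' : Mo r r' R T f) : Mo s' r' Q T (f ∘ b) :=
  ⟨h.pA, h'.pB, fun x hx => h'.maps _ (h.maps x hx), fun x hx y hy e =>
    h'.mono _ (h.maps x hx) _ (h.maps y hy) (h.mono x hx y hy e)⟩

end

theorem tkg1_q (h : Mo r r' R T f) : Mo (cy r r' f) r' (R.disjSum T) T (Sum.elim f id) where
  pA := h.pon_cy
  pB := h.pB
  maps := by
    rintro (x | x) hx
    · exact h.maps x (Finset.inl_mem_disjSum.1 hx)
    · exact Finset.inr_mem_disjSum.1 hx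
  mono := by
    rintro (x | x) hx (y | y) hy e
    · exact h.mono x (Finset.inl_mem_disjSum.1 hx) y (Finset.inl_mem_disjSum.1 hy) e
    · exact e
    · exact e.elim
    · exact e

omit [DecidableEq δ] [Nonempty δ] in
theorem tkg1_inl (h : Mo s' r Q R b) (h' : Mo r r' R T f) :
    Mo s' (cy r r' f) Q (R.disjSum T) (Sum.inl ∘ b) :=
  ⟨h.pA, h'.pon_cy, fun x hx => Finset.inl_mem_disjSum.2 (h.maps x hx), h.mono⟩

omit [DecidableEq γ] [Nonempty γ] in
theorem TelK.tkg1_a (h : TelK s s' r r' P Q R' T' a b f) :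
    Mo s (cy s' (cy r r' f) (Sum.inl ∘ b)) P (Q.disjSum (R'.disjSum T')) (Sum.inl ∘ a) :=
  tkg1_inl h.ma (tkg1_inl h.mb h.mf)

theorem TelK.tkg1_three (h : TelK s s' r r' P Q R' T' a b f) :
    Mo (rtel s s' r r' a b f) (cy r r' f) (telK P Q R' T') (R'.disjSum T')
      (Sum.elim (Sum.inl ∘ b) id ∘ Sum.elim (Sum.inl ∘ a) id) :=
  tkg1_comp (tkg1_q h.tkg1_a) (tkg1_q (tkg1_inl h.mb h.mf))

theorem TelK.tkg1_last (h : TelK s s' r r' P Q R' T' a b f) :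
    Mo (rtel s s' r r' a b f) r' (telK P Q R' T') T'
      (Sum.elim f id ∘ Sum.elim (Sum.inl ∘ b) id ∘ Sum.elim (Sum.inl ∘ a) id) :=
  tkg1_comp h.tkg1_three (tkg1_q h.mf)

omit [DecidableEq α] [DecidableEq β] [DecidableEq γ] [DecidableEq δ] [Nonempty α] [Nonempty β]
  [Nonempty γ] [Nonempty δ] in
theorem tel_mono {P' : Finset γ} {Q' : Finset δ} (h1 : P ⊆ P') (h2 : Q ⊆ Q') (h3 : R ⊆ R')
    (h4 : T ⊆ T') : telK P Q R T ⊆ telK P' Q' R' T' := by
  exact Finset.disjSum_mono h1 (Finset.disjSum_mono h2 (Finset.disjSum_mono h3 h4))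

theorem TelK.pon (h : TelK s s' r r' P Q R' T' a b f) :
    POn (rtel s s' r r' a b f) (telK P Q R' T') := by
  exact h.tkg1_a.pon_cy

/-- Retraction to the third stage (`gp_retr_ge`). -/
theorem TelK.gp_three (h : TelK s s' r r' P Q R' T' a b f) {P0 : Finset γ} {Q0 : Finset δ}
    {R0 : Finset α} {T0 : Finset β} (h1 : P0 ⊆ P) (h2 : Q0 ⊆ Q) (h3 : R0 ⊆ R') (h4 : T0 ⊆ T')
    (m1 : ∀ x ∈ P0, b (a x) ∈ R0) (m2 : ∀ x ∈ Q0, b x ∈ R0) :
    GP (rtel s s' r r' a b f) l (telK ∅ ∅ R0 T0) (telK P0 Q0 R0 T0) := by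
  have hs := tel_mono h1 h2 h3 h4
  refine gp_retr_ge (h.pon.mono hs)
    (tel_mono (Finset.empty_subset _) (Finset.empty_subset _) subset_rfl subset_rfl)
    (ρ := fun x => Sum.inr (Sum.inr (Sum.elim (Sum.inl ∘ b) id (Sum.elim (Sum.inl ∘ a) id x))))
    ?_ ?_ (fun x hx y hy e => h.tkg1_three.mono x (hs hx) y (hs hy) e) ?_
  · rintro (x | x | x | x) hx
    · exact tkg1_m3.2 (m1 x (tkg1_m1.1 hx))
    · exact tkg1_m3.2 (m2 x (tkg1_m2.1 hx))
    · exact tkg1_m3.2 (tkg1_m3.1 hx)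
    · exact tkg1_m4.2 (tkg1_m4.1 hx)
  · rintro (x | x | x) hx
    · exact absurd (tkg1_m1.1 hx) (Finset.notMem_empty x)
    · exact absurd (tkg1_m2.1 hx) (Finset.notMem_empty x)
    · rfl
  · rintro (x | x | x) hx <;>
      exact h.tkg1_three.pB.refl _ (h.tkg1_three.maps _ (hs hx))

/-- Retraction to the last stage. -/
theorem TelK.gp_last (h : TelK s s' r r' P Q R' T' a b f) {P0 : Finset γ} {Q0 : Finset δ}
    {R0 : Finset α} (h1 : P0 ⊆ P) (h2 : Q0 ⊆ Q) (h3 : R0 ⊆ R') :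
    GP (rtel s s' r r' a b f) l (telK ∅ ∅ ∅ T') (telK P0 Q0 R0 T') := by
  have hs := tel_mono h1 h2 h3 (subset_rfl : T' ⊆ T')
  refine gp_retr_ge (h.pon.mono hs)
    (tel_mono (Finset.empty_subset _) (Finset.empty_subset _) (Finset.empty_subset _) subset_rfl)
    (ρ := fun x => Sum.inr (Sum.inr (Sum.inr
      (Sum.elim f id (Sum.elim (Sum.inl ∘ b) id (Sum.elim (Sum.inl ∘ a) id x))))))
    (fun x hx => tkg1_m4.2 (h.tkg1_last.maps x (hs hx))) ?_
    (fun x hx y hy e => h.tkg1_last.mono x (hs hx) y (hs hy) e) ?_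
  · rintro (x | x | x | x) hx
    · exact absurd (tkg1_m1.1 hx) (Finset.notMem_empty x)
    · exact absurd (tkg1_m2.1 hx) (Finset.notMem_empty x)
    · exact absurd (tkg1_m3.1 hx) (Finset.notMem_empty x)
    · rfl
  · rintro (x | x | x | x) hx <;>
      exact h.mf.pB.refl _ (h.tkg1_last.maps _ (hs hx))

/-- Retraction to the second stage. -/
theorem TelK.gp_two (h : TelK s s' r r' P Q R' T' a b f) :
    GP (rtel s s' r r' a b f) l (telK ∅ Q ∅ ∅) (telK P Q ∅ ∅) := by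
  have hs : telK P Q (∅ : Finset α) (∅ : Finset β) ⊆ telK P Q R' T' :=
    tel_mono subset_rfl subset_rfl (Finset.empty_subset _) (Finset.empty_subset _)
  have hq := tkg1_q h.tkg1_a
  refine gp_retr_ge (h.pon.mono hs)
    (tel_mono (Finset.empty_subset _) subset_rfl subset_rfl subset_rfl)
    (ρ := fun x => Sum.inr (Sum.elim (Sum.inl ∘ a) id x)) ?_ ?_
    (fun x hx y hy e => hq.mono x (hs hx) y (hs hy) e) ?_
  · rintro (x | x | x | x) hx
    · exact tkg1_m2.2 (h.ma.maps x (tkg1_m1.1 hx))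
    · exact tkg1_m2.2 (tkg1_m2.1 hx)
    · exact tkg1_m3.2 (tkg1_m3.1 hx)
    · exact tkg1_m4.2 (tkg1_m4.1 hx)
  · rintro (x | x) hx
    · exact absurd (tkg1_m1.1 hx) (Finset.notMem_empty x)
    · rfl
  · rintro (x | x) hx <;> exact hq.pB.refl _ (hq.maps _ (hs hx))

/-- The cylinder of `b ∘ a` embeds by `Sum.elim inl (inr ∘ inr ∘ inl)` (`gp_image`). -/
theorem tel_gp_ef (h : ME s r l P R (b ∘ a)) :
    GP (rtel s s' r r' a b f) l (telK P ∅ ∅ ∅) (telK P ∅ R ∅) := by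
  have e := (gp_image (r' := rtel s s' r r' a b f)
    (f := Sum.elim Sum.inl (Sum.inr ∘ Sum.inr ∘ Sum.inl))
    (by rintro (x | x) - (y | y) - e <;> simpa using e)
    (by rintro (x | x) - (y | y) - <;> exact Iff.rfl) h.2.2.1).2 h.2
  have e1 : (P.image (Sum.inl : γ → γ ⊕ α)).image
      (Sum.elim Sum.inl (Sum.inr ∘ Sum.inr ∘ Sum.inl)) = telK P ∅ ∅ (∅ : Finset β) (δ := δ) := by
    ext (x | x | x | x) <;> simp [telK]
  have e2 : (P.disjSum R).image (Sum.elim Sum.inl (Sum.inr ∘ Sum.inr ∘ Sum.inl)) =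
      telK P ∅ R (∅ : Finset β) (δ := δ) := by
    ext (x | x | x | x) <;> simp [telK]
  rwa [e1, e2] at e

/-- The cylinder of `f ∘ b` embeds by `Sum.elim (inr ∘ inl) (inr ∘ inr ∘ inr)`. -/
theorem tel_gp_qt (h : ME s' r' l Q T' (f ∘ b)) :
    GP (rtel s s' r r' a b f) l (telK ∅ Q ∅ ∅) (telK ∅ Q ∅ T') := by
  have e := (gp_image (r' := rtel s s' r r' a b f)
    (f := Sum.elim (Sum.inr ∘ Sum.inl) (Sum.inr ∘ Sum.inr ∘ Sum.inr))
    (by rintro (x | x) - (y | y) - e <;> simpa using e)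
    (by rintro (x | x) - (y | y) - <;> exact Iff.rfl) h.2.2.1).2 h.2
  have e1 : (Q.image (Sum.inl : δ → δ ⊕ β)).image
      (Sum.elim (Sum.inr ∘ Sum.inl) (Sum.inr ∘ Sum.inr ∘ Sum.inr)) =
      telK (∅ : Finset γ) Q (∅ : Finset α) ∅ := by
    ext (x | x | x | x) <;> simp [telK]
  have e2 : (Q.disjSum T').image (Sum.elim (Sum.inr ∘ Sum.inl) (Sum.inr ∘ Sum.inr ∘ Sum.inr)) =
      telK (∅ : Finset γ) Q (∅ : Finset α) T' := by
    ext (x | x | x | x) <;> simp [telK]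
  rwa [e1, e2] at e

end Pool.Agent.Lib.MP_5ceaf9_gt
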