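import Pool.Agent.Lib.MP_5ceaf9_gt.TKP
import Pool.Agent.Lib.MP_5ceaf9_gt.ETr

/-! Potentials on the boundary of the neighbourhood of a two-dimensional lattice complex. -/

noncomputable section

namespace Pool.Agent.Lib.MP_5ceaf9_gt

open Classical Function

variable {n l : ℕ} {η : Fin n → Bool} {S : Finset (Lat n)}

theorem tkl_cq_pq (x : Lat n) : cq η a1 (pq η x) = pq η (cw a1 x) := by
  unfold cq
  rcases out_pq η x with e | e
  · rw [e]
  · rw [e, cwa_fl, pq_fl]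

theorem tkl_lq {x y : QL η} (hxy : lq η x y) : lq η (cq η a1 y) (cq η a1 x) := by
  refine (lq_pq' η).2 ?_
  rcases hxy with e | e
  · exact Or.inl (cwa_anti e)
  · exact Or.inr (by rw [← cwa_fl]; exact cwa_anti e)

theorem tkl_le {y e : ℤ} (h : le0 y (a1 e)) : le0 y (b1 e) := le0_trans h (a1_le0_b1 e)

theorem tkl_ct {y : Lat n} (hy : y ∈ S) {D : Finset (Lat n)}
    (hD : ∀ e, e ∈ D ↔ cw a1 e ∈ S ∧ le1 y (cw a1 e)) : CT le1 l D := by
  have hQ : D.filter (fun e => cw a1 e = y) ⊆ D := Finset.filter_subset _ _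
  have key : ∀ e : Lat n, cw a1 e = y → e ∈ D.filter (fun e => cw a1 e = y) := fun e he =>
    Finset.mem_filter.2 ⟨(hD e).2 (by rw [he]; exact ⟨hy, le1_refl y⟩), he⟩
  refine CT.up (ct_bot (pon_le1 _) (m := fun j => y j + y j) ?_ fun e he j => ?_)
    (gp_retr_ge (pon_le1 D) hQ (ρ := fun e j => y j + b1 (e j)) (fun e he => ?_)
      (fun e he => funext fun j => ?_) (fun e he g _ h j => ?_) fun e he j => ?_)
  · exact key _ (funext fun j => a1_of_le0 (Or.inl rfl))
  · have h : a1 (e j) = y j := congrFun (Finset.mem_filter.1 he).2 j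
    have h2 := le0_add (p := y j) (q := y j) (p' := a1 (e j)) (q' := b1 (e j)) (Or.inl rfl)
      (Or.inl h) (h ▸ a1_le0_b1 (e j))
    rwa [a1_add_b1] at h2
  · exact key _ (funext fun j => a1_of_le0 (tkl_le (((hD e).1 he).2 j)))
  · have h : a1 (e j) = y j := congrFun (Finset.mem_filter.1 he).2 j
    show y j + b1 (e j) = e j
    rw [← h, a1_add_b1]
  · exact le0_add (tkl_le (((hD e).1 he).2 j)) (Or.inl rfl) (st_b1.le _ _ (h j))
  · have h2 := le0_add (a1_le0_b1 (e j)) (((hD e).1 he).2 j) (Or.inl rfl : le0 (b1 (e j)) _)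
    rwa [a1_add_b1] at h2

/-- The fibre over `y` is the image of `{e | le1 y (cw a1 e), cw a1 e ∈ S}`, which retracts by
`e ↦ y + cw b1 e` (above the identity) to the intervals with lower end `y`; these have the least
element `2 y`. Compare `St.me_up` and `ct_below_UU`. -/
theorem me_NN (d : DnC S) (i : Invt η S) (f : Free η S) :
    ME (lq η) (swap (lq η)) l ((NN S).image (pq η)) (S.image (pq η)) (cq η a1) := by
  have hmo : Mo (lq η) (swap (lq η)) ((NN S).image (pq η)) (S.image (pq η)) (cq η a1) := by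
    refine ⟨pon_lq η _, (pon_lq η _).swap, ?_, fun a _ b _ hab => tkl_lq hab⟩
    intro a ha
    obtain ⟨x, hx, rfl⟩ := Finset.mem_image.1 ha
    rw [tkl_cq_pq]
    exact Finset.mem_image_of_mem _ (mem_NN.1 hx)
  refine me_of_fibres hmo ?_
  intro y hy
  obtain ⟨y, hyS, rfl⟩ := Finset.mem_image.1 hy
  have hm : ∀ e, e ∈ (NN S).filter (fun e => le1 y (cw a1 e)) ↔
      cw a1 e ∈ S ∧ le1 y (cw a1 e) := fun e => by rw [Finset.mem_filter, mem_NN]
  refine ct_bar (A := (NN S).filter (fun e => le1 y (cw a1 e))) ?_ (tkl_ct hyS hm) ?_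
  · intro a ha b hb hab
    have h1 := cwa_anti hab
    rw [cwa_fl] at h1
    exact not_le1_fl η (f y hyS) ((hm a).1 ha).2 (le1_trans ((hm b).1 hb).2 h1)
  · intro z
    rw [Finset.mem_filter]
    constructor
    · rintro ⟨hz, hl⟩
      obtain ⟨x, hx, rfl⟩ := Finset.mem_image.1 hz
      have hl' : lq η (pq η y) (cq η a1 (pq η x)) := hl
      rw [tkl_cq_pq, lq_pq'] at hl'
      rcases hl' with hl | hl
      · exact ⟨x, Finset.mem_filter.2 ⟨hx, hl⟩, rfl⟩
      · rw [← cwa_fl] at hl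
        exact ⟨fl η x, Finset.mem_filter.2 ⟨invt_NN i x hx, hl⟩, pq_fl η x⟩
    · rintro ⟨x, hx, rfl⟩
      refine ⟨Finset.mem_image_of_mem _ (Finset.mem_filter.1 hx).1, ?_⟩
      show lq η (pq η y) (cq η a1 (pq η x))
      rw [tkl_cq_pq]
      exact lq_of_le1 η ((hm x).1 hx).2

/-- `sp_two` with the rank `dmQ`. -/
theorem sp_bar (i : Invt η S) (dim : ∀ a ∈ S, odE a ≤ 2) : Sp (lq η) (S.image (pq η)) 1 := by
  refine sp_two (pon_lq η _) (dmQ η) (fun a ha => dim _ ((out_mem η i).2 ha)) ?_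
  intro a _ b _ hab hne
  obtain ⟨x, rfl⟩ : ∃ x, pq η x = a := ⟨a.out, pq_out η a⟩
  obtain ⟨z, rfl, hxz⟩ := lift_up η hab
  rw [dmQ_pq, dmQ_pq]
  by_contra hc
  have h1 := dimE_add_odE x
  have h2 := dimE_add_odE z
  exact hne (by rw [eq_of_le1_of_dimE hxz (by omega)])

theorem DD.sp {S : Finset (Lat 5)} (d : DnC S) (i : Invt η5 S) (f : Free η5 S)
    (dim : ∀ a ∈ S, odE a ≤ 2)
    (g : GP (lq η5) 0 ((NN S \ UU S).image (pq η5)) ((NN S).image (pq η5))) :
    Sp (lq η5) ((NN S \ UU S).image (pq η5)) 1 :=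
  Sp.of_gp g (Sp.of_me (me_NN d i f) (sp_bar i dim).swap)

end Pool.Agent.Lib.MP_5ceaf9_gt
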