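import Pool.Agent.Lib.MP_5ceaf9_gt.Fld

/-! Laurent polynomials over the field with five elements. -/

noncomputable section

namespace Pool.Agent.Lib.MP_5ceaf9_gt

open Function LaurentPolynomial

/-- Laurent polynomials modulo five. -/
abbrev LP : Type := LaurentPolynomial (ZMod 5)

/-- The eighth power of the variable as a unit. -/
def T8 : LPˣ := ⟨T 8, T (-8), by rw [← T_add]; rfl, by rw [← T_add]; rfl⟩

/-- The eighth root of unity as a unit. -/
def zUK : F25ˣ := ⟨zF, zF ^ 7, by decide, by decide⟩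

/-- The inclusion of the prime field. -/
def jF : ZMod 5 →+* F25 := algebraMap (ZMod 5) F25

/-- Substitution of the eighth power of the variable. -/
def i8 : LP →+* LP := LaurentPolynomial.eval₂ LaurentPolynomial.C T8

/-- Evaluation at one. -/
def e1 : LP →+* ZMod 5 := LaurentPolynomial.eval₂ (RingHom.id _) 1

/-- Evaluation at the eighth root of unity. -/
def evz : LP →+* F25 := LaurentPolynomial.eval₂ jF zUK

/-- The powers of the variable. -/
def Thom : Multiplicative ℤ →* LP where
  toFun n := T n.toAdd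
  map_one' := T_zero
  map_mul' a b := T_add _ _

/-- The map from the group ring of the integers. -/
def toS : ZG (Multiplicative ℤ) →+* LP := (MonoidAlgebra.lift ℤ LP (Multiplicative ℤ) Thom).toRingHom

/-- A localisation of a principal ideal ring: every ideal is the extension of its contraction. -/
theorem lp_pid : IsPrincipalIdealRing LP := by
  refine ⟨fun I => ?_⟩
  rw [← IsLocalization.map_under (Submonoid.powers (Polynomial.X : Polynomial (ZMod 5))) LP I]
  exact (IsPrincipalIdealRing.principal _).map_ringHom _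

theorem i8_T (n : ℤ) : i8 (T n) = T (8 * n) := by
  have h : ∀ m : ℕ, ((T8 ^ m : LPˣ) : LP) = T (8 * m) ∧ ((T8⁻¹ ^ m : LPˣ) : LP) = T (8 * -m) :=
    fun m => by
      rw [Units.val_pow_eq_pow_val, Units.val_pow_eq_pow_val]
      refine ⟨(T_pow 8 m).trans ?_, (T_pow (-8) m).trans ?_⟩
      · rw [mul_comm]
      · rw [mul_neg, mul_neg, mul_comm]
  rw [i8, eval₂_T]
  obtain ⟨m, rfl | rfl⟩ := n.eq_nat_or_neg
  · rw [zpow_natCast, (h m).1]
  · rw [zpow_neg, zpow_natCast, ← inv_pow, (h m).2]

/-- Write `x * T n = toLaurent f`; then `i8 (toLaurent f) = toLaurent (expand 8 f)`. -/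
theorem i8_inj : Injective i8 := by
  refine (injective_iff_map_eq_zero _).2 fun x hx => ?_
  obtain ⟨n, f, hf⟩ := exists_T_pow x
  have h1 : ∀ f : Polynomial (ZMod 5),
      i8 (Polynomial.toLaurent f) = Polynomial.toLaurent (Polynomial.expand _ 8 f) := fun f => by
    induction f using Polynomial.induction_on' with
    | add p q hp hq => rw [map_add, map_add, map_add, map_add, hp, hq]
    | monomial k a =>
      rw [Polynomial.expand_monomial, Polynomial.toLaurent_C_mul_T, Polynomial.toLaurent_C_mul_T,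
        map_mul, i8_T, i8, eval₂_C, Nat.cast_mul, mul_comm (k : ℤ)]
      rfl
  have h2 := h1 f
  rw [hf, map_mul, hx, zero_mul, eq_comm, Polynomial.toLaurent_eq_zero,
    Polynomial.expand_eq_zero (by norm_num)] at h2
  rw [h2, map_zero, eq_comm] at hf
  exact (isUnit_T _).mul_left_eq_zero.1 hf

theorem evz_T (n : ℤ) : evz (T n) = pw zF (n : ZMod 8) := by
  have h8 : zUK ^ 8 = 1 := Units.ext zF8
  have h : zUK ^ n = zUK ^ ((n : ZMod 8).val : ℤ) := by
    rw [ZMod.val_intCast, zpow_eq_zpow_emod' n h8]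
  rw [evz, eval₂_T, h, zpow_natCast, Units.val_pow_eq_pow_val]
  rfl

theorem evz_i8 (x : LP) : evz (i8 x) = jF (e1 x) := by
  induction x using LaurentPolynomial.induction_on' with
  | add p q hp hq => rw [map_add, map_add, map_add, map_add, hp, hq]
  | C_mul_T n a =>
    have h : ((8 * n : ℤ) : ZMod 8) = 0 := by
      rw [Int.cast_mul, show ((8 : ℤ) : ZMod 8) = 0 from rfl, zero_mul]
    rw [map_mul, map_mul, map_mul, i8_T, evz_T, h, pw_zero, i8, e1, evz, eval₂_C, eval₂_C, eval₂_C,
      eval₂_T, one_zpow, Units.val_one, mul_one, mul_one, RingHom.id_apply]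

theorem jF_pow (a : ZMod 5) (h : a ≠ 0) : jF a ^ 8 = 1 := by
  rw [← map_pow, show a ^ 8 = 1 by revert a; decide, map_one]

/-- Clear denominators: two polynomials whose product is a power of `X` are monomials
(`dvd_prime_pow`). -/
theorem evz_unit (u : LP) (h : IsUnit u) : evz u ^ 8 = 1 := by
  obtain ⟨v, hv⟩ := h.exists_right_inv
  obtain ⟨n, f, hf⟩ := exists_T_pow u
  obtain ⟨m, g, hg⟩ := exists_T_pow v
  have h1 : f * g = Polynomial.X ^ (n + m) := Polynomial.toLaurent_injective (by
    rw [map_mul, hf, hg, mul_mul_mul_comm, hv, one_mul, ← T_add, Polynomial.toLaurent_X_pow,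
      Nat.cast_add])
  obtain ⟨k, -, c, hc⟩ := (dvd_prime_pow Polynomial.prime_X (n + m)).1 ⟨g, h1.symm⟩
  obtain ⟨a, ha, e⟩ := Polynomial.isUnit_iff.1 c.isUnit
  have h2 := congrArg (fun x => evz (Polynomial.toLaurent x) ^ 8) hc
  simp only [map_mul, hf, ← e, Polynomial.toLaurent_C, Polynomial.toLaurent_X_pow, evz_T, mul_pow,
    pw_pow8 zF8, mul_one] at h2
  rwa [show evz (C a) = jF a from eval₂_C _ _ _, jF_pow a ha.ne_zero, mul_one] at h2

theorem toS_single (n : Multiplicative ℤ) (m : ℤ) :
    toS (MonoidAlgebra.single n m) = (m : LP) * T n.toAdd := by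
  simp [toS, Thom]

theorem exists_log (x : F25) (h : x ^ 8 = 1) : ∃ k : ZMod 8, x = pw zF k := by
  obtain ⟨a, b⟩ := x
  revert a b
  decide +kernel

theorem pw_injK {a b : ZMod 8} (h : pw zF a = pw zF b) : a = b := by
  revert a b
  decide +kernel

/-- A ring map on a term of the group ring. -/
theorem map_single_int {Γ Λ : Type} [Group Γ] [Ring Λ] (φ : ZG Γ →+* Λ) (x : Γ) (m : ℤ) :
    φ (MonoidAlgebra.single x m) = (m : Λ) * φ (MonoidAlgebra.single x 1) := by
  rw [← map_intCast φ, ← map_mul, MonoidAlgebra.intCast_def, MonoidAlgebra.single_mul_single,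
    one_mul, mul_one, Int.cast_id]

end Pool.Agent.Lib.MP_5ceaf9_gt
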