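import Pool.Agent.Lib.MP_5ceaf9_gt.TKD
import Pool.Agent.Lib.MP_5ceaf9_gt.TKR

/-! The torsion of a controlled pair of posets. -/

noncomputable section

namespace Pool.Agent.Lib.MP_5ceaf9_gt

open Classical Function Matrix

variable {α : Type} [DecidableEq α] [Nonempty α] {r : α → α → Prop} {A B : Finset α}
  {φ : α → ℕ} {k : ℕ}

/-- The chains in a sublevel set. -/
theorem mem_OC_level {n : ℕ} {σ : Finset α} :
    σ ∈ OC r (B.filter (fun a => φ a ≤ n)) ↔ σ ∈ OC r B ∧ σ.sup φ ≤ n := by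
  simp only [mem_OC, Finset.subset_iff, Finset.mem_filter, Finset.sup_le_iff]
  exact ⟨fun h => ⟨⟨fun a ha => (h.1 ha).1, h.2⟩, fun a ha => (h.1 ha).2⟩,
    fun h => ⟨fun a ha => ⟨h.1.1 ha, h.2 a ha⟩, h.1.2⟩⟩

/-- If a face has level at least two, the least vertices have positive potential. -/
theorem one_le_bt (hp : POn r B)
    (lip : ∀ a ∈ B, ∀ b ∈ B, r a b → φ a ≤ φ b + 1 ∧ φ b ≤ φ a + 1) {σ ρ : Finset α}
    (hσ : σ ∈ OC r B) (h : ρ ⊆ σ) (h2 : 2 ≤ ρ.sup φ) : ∀ a ∈ σ, 1 ≤ φ a := by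
  intro a ha
  obtain ⟨h1, -, h3⟩ := mem_OC.1 hσ
  obtain ⟨b, hb, h4⟩ := (Finset.le_sup_iff (by decide : (⊥ : ℕ) < 2)).1 h2
  rcases h3 a ha b (h hb) with e | e
  · have := lip a (h1 ha) b (h1 (h hb)) e
    omega
  · have := lip b (h1 (h hb)) a (h1 ha) e
    omega

/-- The matrix over Laurent polynomials: zero on the rows of level above `k`. -/
def dLP (r : α → α → Prop) (φ : α → ℕ) (k : ℕ) (c : α → α → ℤ) (σ ρ : Finset α) : LP :=
  if σ.sup φ ≤ k then toS (DG r (fun a b => Multiplicative.ofAdd (c a b)) σ ρ) else 0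

theorem tkm1_le {c : α → α → ℤ} {σ ρ : Finset α} (h : dLP r φ k c σ ρ ≠ 0) : σ.sup φ ≤ k :=
  by_contra fun e => h (if_neg e)

theorem tkm1_ne {c : α → α → ℤ} {σ ρ : Finset α} (h : dLP r φ k c σ ρ ≠ 0) : Dz r σ ρ ≠ 0 := by
  refine sxa2_ne (c := fun a b => Multiplicative.ofAdd (c a b)) fun e => h ?_
  rw [dLP, e, map_zero, ite_self]

theorem tkm1_flat (hp : POn r B) {c : α → α → ℤ} (hc : FlA r B (fun a => φ a < k + 1) c) {m : ℕ}
    (hm : m ≤ k) :
    Flat r (OC r (B.filter (fun a => φ a ≤ m))) (fun a b => Multiplicative.ofAdd (c a b)) := by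
  rw [flat_OC (hp.mono (Finset.filter_subset _ B))]
  intro a ha b hb d hd hab hbd
  rw [Finset.mem_filter] at ha hb hd
  rw [← ofAdd_add, hc a ha.1 b hb.1 d hd.1 (Nat.lt_succ_of_le (ha.2.trans hm))
    (Nat.lt_succ_of_le (hb.2.trans hm)) (Nat.lt_succ_of_le (hd.2.trans hm)) hab hbd]

theorem tkm1_sd {m : ℕ} :
    OC r (B.filter (fun a => φ a ≤ m)) \ OC r (A.filter (fun a => φ a ≤ m)) =
      (OC r B \ OC r A).filter (fun σ => σ.sup φ ≤ m) := by
  ext σ
  simp only [Finset.mem_sdiff, Finset.mem_filter, mem_OC_level]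
  tauto

theorem lv_dLP (c : α → α → ℤ) (X : Finset (Finset α)) :
    Lv (fun x : ↥X => x.1.card) (fun x : ↥X => x.1.sup φ) (rs X X (dLP r φ k c)) := by
  refine ⟨fun x y hxy => ?_, fun x y hxy => ?_⟩
  · obtain ⟨v, hv, e⟩ := Dz_ne (tkm1_ne (c := c) (φ := φ) (k := k) hxy)
    rw [e]
    exact (Finset.card_erase_add_one hv).symm
  · exact Finset.sup_mono (sxa2_sub (tkm1_ne (c := c) (φ := φ) (k := k) hxy))

/-- The rows of level at most `k` form the matrix of the pair of sublevel sets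
(`dm_DG_conv` for the family of simplices of level at most `k`). -/
theorem dm_dLP (hp : POn r B) {c : α → α → ℤ} (hc : FlA r B (fun a => φ a < k + 1) c) :
    Dm (fun x : ↥(OC r B \ OC r A) => ps x.1)
      (rs (OC r B \ OC r A) (OC r B \ OC r A) (dLP r φ k c)) := by
  refine ⟨?_, fun x y hxy => ps_ne (tkm1_ne (c := c) (φ := φ) (k := k) hxy)⟩
  ext1 x y
  rw [Matrix.mul_apply, Matrix.zero_apply]
  have e : ∑ ρ : ↥(OC r B \ OC r A),
      rs (OC r B \ OC r A) (OC r B \ OC r A) (dLP r φ k c) x ρ *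
        rs (OC r B \ OC r A) (OC r B \ OC r A) (dLP r φ k c) ρ y =
      ∑ ρ ∈ OC r B \ OC r A, dLP r φ k c x.1 ρ * dLP r φ k c ρ y.1 :=
    Finset.sum_coe_sort _ fun ρ => dLP r φ k c x.1 ρ * dLP r φ k c ρ y.1
  rw [e]
  by_cases hx : x.1.sup φ ≤ k
  swap
  · exact Finset.sum_eq_zero fun ρ _ => by rw [dLP, if_neg hx, zero_mul]
  by_cases hy : y.1.sup φ ≤ k
  swap
  · refine Finset.sum_eq_zero fun ρ _ => ?_
    have h0 : dLP r φ k c ρ y.1 = 0 := by
      by_contra h0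
      exact hy ((Finset.sup_mono (sxa2_sub (tkm1_ne h0))).trans (tkm1_le h0))
    rw [h0, mul_zero]
  have hD := dm_DG_conv (X := (OC r B \ OC r A).filter (fun σ => σ.sup φ ≤ k))
    (cx_OC (hp.mono (Finset.filter_subset (fun a => φ a ≤ k) B))) (tkm1_flat hp hc le_rfl)
    (fun σ hσ => mem_OC_level.2 ⟨(Finset.mem_sdiff.1 (Finset.mem_filter.1 hσ).1).1,
      (Finset.mem_filter.1 hσ).2⟩) (by
      intro σ hσ τ hτ ρ h1 h2
      rw [Finset.mem_filter, Finset.mem_sdiff] at hσ hτ ⊢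
      have hn := (mem_OC.1 hτ.1.1).2
      exact ⟨⟨(cx_OC hp).down _ hσ.1.1 _ h2 (hn.1.mono h1),
        fun h => hτ.1.2 (mem_OC.2 ⟨h1.trans (mem_OC.1 h).1, hn⟩)⟩,
        (Finset.sup_mono h2).trans hσ.2⟩)
  have e2 := congrFun (congrFun hD.1 ⟨x.1, Finset.mem_filter.2 ⟨x.2, hx⟩⟩)
    ⟨y.1, Finset.mem_filter.2 ⟨y.2, hy⟩⟩
  rw [Matrix.mul_apply, Matrix.zero_apply] at e2
  have e3 := (Finset.sum_coe_sort ((OC r B \ OC r A).filter (fun σ => σ.sup φ ≤ k)) fun ρ =>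
    DG r (fun a b => Multiplicative.ofAdd (c a b)) x.1 ρ *
      DG r (fun a b => Multiplicative.ofAdd (c a b)) ρ y.1).symm.trans e2
  have e4 := congrArg toS e3
  rw [map_sum, map_zero, Finset.sum_filter] at e4
  refine (Finset.sum_congr rfl fun ρ _ => ?_).trans e4
  by_cases hρ : ρ.sup φ ≤ k
  · rw [if_pos hρ, dLP, dLP, if_pos hx, if_pos hρ, map_mul]
  · rw [if_neg hρ, show dLP r φ k c ρ y.1 = 0 from if_neg hρ, mul_zero]

/-- Translate `NulP` for the sublevel sets: extend `z` by zero to all finsets, use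
`mem_OC_level`, and cut the answer off above level `n + 1`. -/
theorem ctl_dLP (hp : POn r B) {c : α → α → ℤ} (hc : FlA r B (fun a => φ a < k + 1) c) {n : ℕ}
    (hn : n < k)
    (h : NulP r (A.filter (fun a => φ a ≤ n)) (B.filter (fun a => φ a ≤ n))
      (A.filter (fun a => φ a ≤ n + 1)) (B.filter (fun a => φ a ≤ n + 1)))
    (z : ↥(OC r B \ OC r A) → LP) (hz : ∀ x, n < x.1.sup φ → z x = 0)
    (h0 : z ᵥ* rs (OC r B \ OC r A) (OC r B \ OC r A) (dLP r φ k c) = 0) :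
    ∃ u : ↥(OC r B \ OC r A) → LP, (∀ x, n + 1 < x.1.sup φ → u x = 0) ∧
      u ᵥ* rs (OC r B \ OC r A) (OC r B \ OC r A) (dLP r φ k c) = z := by
  let z' : Finset α → LP := fun σ => if hσ : σ ∈ OC r B \ OC r A then z ⟨σ, hσ⟩ else 0
  have hz' : ∀ x : ↥(OC r B \ OC r A), z' x.1 = z x := fun x => dif_pos x.2
  obtain ⟨u, hu⟩ := h (Multiplicative ℤ) _ (tkm1_flat hp hc (Nat.succ_le_of_lt hn)) LP toS z' (by
    intro y hy
    rw [tkm1_sd] at hy ⊢
    obtain ⟨hy1, -⟩ := Finset.mem_filter.1 hy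
    have e := congrFun h0 ⟨y, hy1⟩
    have e2 : ∑ x : ↥(OC r B \ OC r A), z' x.1 * dLP r φ k c x.1 y = 0 := by
      simp only [hz']
      exact e
    rw [Finset.sum_coe_sort _ fun x => z' x * dLP r φ k c x y] at e2
    rw [Finset.sum_filter]
    refine (Finset.sum_congr rfl fun x hx => ?_).trans e2
    by_cases h1 : x.sup φ ≤ n
    · rw [if_pos h1, dLP, if_pos (h1.trans hn.le)]
    · rw [if_neg h1, hz' ⟨x, hx⟩, hz ⟨x, hx⟩ (not_le.1 h1), zero_mul])
  refine ⟨fun x => if x.1.sup φ ≤ n + 1 then u x.1 else 0, fun x hx => if_neg (not_le.2 hx), ?_⟩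
  funext y
  have e : ((fun x : ↥(OC r B \ OC r A) => if x.1.sup φ ≤ n + 1 then u x.1 else 0) ᵥ*
      rs (OC r B \ OC r A) (OC r B \ OC r A) (dLP r φ k c)) y =
      ∑ x ∈ OC r B \ OC r A, (if x.sup φ ≤ n + 1 then u x else 0) * dLP r φ k c x y.1 :=
    Finset.sum_coe_sort _ fun x => (if x.sup φ ≤ n + 1 then u x else 0) * dLP r φ k c x y.1
  rw [e]
  by_cases hy : y.1.sup φ ≤ n + 1
  · have e2 := hu y.1 (by rw [tkm1_sd]; exact Finset.mem_filter.2 ⟨y.2, hy⟩)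
    have e3 : (if y.1 ∈ OC r (B.filter (fun a => φ a ≤ n)) \ OC r (A.filter (fun a => φ a ≤ n))
        then z' y.1 else 0) = z y := by
      split_ifs with h1
      · exact hz' y
      · refine (hz y (not_le.1 fun h2 => h1 ?_)).symm
        rw [tkm1_sd]
        exact Finset.mem_filter.2 ⟨y.2, h2⟩
    rw [← e3, ← e2, tkm1_sd, Finset.sum_filter]
    refine Finset.sum_congr rfl fun x _ => ?_
    by_cases h1 : x.sup φ ≤ n + 1
    · rw [if_pos h1, if_pos h1, dLP, if_pos (h1.trans hn)]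
    · rw [if_neg h1, if_neg h1, zero_mul]
  · rw [hz y (by omega)]
    refine Finset.sum_eq_zero fun x _ => ?_
    by_cases h1 : x.sup φ ≤ n + 1
    · have h2 : dLP r φ k c x y.1 = 0 := by
        by_contra h2
        exact hy ((Finset.sup_mono (sxa2_sub (tkm1_ne h2))).trans h1)
      rw [h2, mul_zero]
    · rw [if_neg h1, zero_mul]

end Pool.Agent.Lib.MP_5ceaf9_gt
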