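import Pool.Agent.Lib.MP_5ceaf9_gt.TKDefs

/-! Potentials: base case, pullback, monotone form. -/

noncomputable section

namespace Pool.Agent.Lib.MP_5ceaf9_gt

open Classical Function

variable {α β : Type} [DecidableEq α] [DecidableEq β] [Nonempty α] [Nonempty β]
  {r : α → α → Prop} {r' : β → β → Prop} {A : Finset α} {B : Finset β} {f : α → β} {R : ℕ}

/-- Lift the gauge to the integers with `ZMod.val`. -/
theorem Pot.pull {κ : α → α → ZMod 8} {κ' : β → β → ZMod 8} {φ : β → ℕ} (h : Pot r' B R κ' φ)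
    (hm : ∀ a ∈ A, f a ∈ B) (hf : ∀ a ∈ A, ∀ b ∈ A, r a b → r' (f a) (f b)) (g : α → ZMod 8)
    (hg : ∀ a ∈ A, ∀ b ∈ A, r a b → κ a b = g a + κ' (f a) (f b) - g b) :
    Pot r A R κ (fun a => φ (f a)) := by
  obtain ⟨h1, ⟨g', h2⟩, c, h3, h4⟩ := h
  refine ⟨fun a ha b hb hab => h1 _ (hm a ha) _ (hm b hb) (hf a ha b hb hab),
    ⟨fun a => g a + g' (f a), fun a ha b hb hab e1 e2 => ?_⟩,
    fun a b => ((g a).val : ℤ) + c (f a) (f b) - ((g b).val : ℤ),
    fun a ha b hb d hd e1 e2 e3 hab hbd => ?_, fun a ha b hb hab e1 e2 => ?_⟩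
  · rw [hg a ha b hb hab, h2 _ (hm a ha) _ (hm b hb) (hf a ha b hb hab) e1 e2]
    ring
  · have := h3 _ (hm a ha) _ (hm b hb) _ (hm d hd) e1 e2 e3 (hf a ha b hb hab) (hf b hb d hd hbd)
    dsimp only
    rw [← this]
    ring
  · rw [hg a ha b hb hab, ← h4 _ (hm a ha) _ (hm b hb) (hf a ha b hb hab) e1 e2, Int.cast_sub,
      Int.cast_add, Int.cast_natCast, Int.cast_natCast, ZMod.natCast_zmod_val,
      ZMod.natCast_zmod_val]

/-- The potential is one on rank two and zero elsewhere; the lift is `0` on the diagonal and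
`(κ a b).val` off it. -/
theorem sp_two (hp : POn r A) (k : α → ℕ) (hle : ∀ a ∈ A, k a ≤ 2)
    (hlt : ∀ a ∈ A, ∀ b ∈ A, r a b → a ≠ b → k a < k b) : Sp r A 1 := by
  intro κ hκ
  have h0 : ∀ a ∈ A, κ a a = 0 := fun a ha =>
    add_eq_left.1 (hκ a ha a ha a ha trivial trivial trivial (hp.refl a ha) (hp.refl a ha))
  refine ⟨fun a => if k a = 2 then 1 else 0, fun a _ b _ _ => ?_,
    ⟨0, fun a ha b hb hab e1 e2 => ?_⟩, fun a b => if a = b then 0 else ((κ a b).val : ℤ),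
    fun a ha b hb d hd _ _ e3 hab hbd => ?_, fun a ha b _ _ _ _ => ?_⟩
  · split_ifs <;> omega
  · have h1 : a = b := by
      by_contra h
      have h2 := hlt a ha b hb hab h
      have h3 := hle b hb
      split_ifs at e1 <;> omega
    rw [← h1, h0 a ha, sub_self]
  · dsimp only at e3 ⊢
    by_cases h1 : a = b
    · rw [if_pos h1, zero_add, h1]
    by_cases h2 : b = d
    · rw [if_pos h2, add_zero, h2]
    have h3 := hlt a ha b hb hab h1
    have h4 := hlt b hb d hd hbd h2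
    have h5 := hle d hd
    split_ifs at e3 <;> omega
  · dsimp only
    split_ifs with h1
    · rw [← h1, h0 a ha, Int.cast_zero]
    · rw [Int.cast_natCast, ZMod.natCast_zmod_val]

/-- Use `κ' a b = - κ b a`. -/
theorem Sp.swap (h : Sp r A R) : Sp (swap r) A R := by
  intro κ hκ
  obtain ⟨φ, h1, ⟨g, h2⟩, c, h3, h4⟩ := h (fun a b => -κ b a)
    fun a ha b hb d hd _ _ _ hab hbd => by
      dsimp only
      rw [← hκ d hd b hb a ha trivial trivial trivial hbd hab]
      ring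
  refine ⟨φ, fun a ha b hb hab => (h1 b hb a ha hab).symm, ⟨g, fun a ha b hb hab e1 e2 => ?_⟩,
    fun a b => -c b a, fun a ha b hb d hd e1 e2 e3 hab hbd => ?_, fun a ha b hb hab e1 e2 => ?_⟩
  · rw [← neg_inj, h2 b hb a ha hab e2 e1, neg_sub]
  · dsimp only
    rw [← h3 d hd b hb a ha e3 e2 e1 hbd hab]
    ring
  · rw [Int.cast_neg, h4 b hb a ha hab e2 e1, neg_neg]

end Pool.Agent.Lib.MP_5ceaf9_gt
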