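import Pool.Agent.Lib.MP_5ceaf9_gt.VDefs

/-! Geometric realisations: supports, stars and subcomplexes. -/

noncomputable section

namespace Pool.Agent.Lib.MP_5ceaf9_gt.V

open Classical Function

variable {L : SC} {σ : Finset ℕ}

/-- Hint: a finite union of closed subsets of the compact set `Set.pi univ (fun _ => Icc 0 1)`. -/
theorem sc_compact (K : SC) : CompactSpace K.space := by
  refine isCompact_iff_compactSpace.1 ((isCompact_univ_pi fun _ => isCompact_Icc (a := (0 : ℝ))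
    (b := 1)).of_isClosed_subset ?_ ?_)
  · have e : K.space = ⋃ σ ∈ K.faces, (⋂ v, {w | 0 ≤ w v}) ∩
        ((⋂ v, ⋂ _ : v ∉ σ, {w | w v = 0}) ∩ {w | ∑ v ∈ σ, w v = 1}) := by
      ext w
      simp only [SC.space, Set.mem_iUnion, Set.mem_inter_iff, Set.mem_iInter, Set.mem_ofPred_eq]
      tauto
    rw [e]
    exact isClosed_biUnion_finset fun σ _ =>
      (isClosed_iInter fun v => isClosed_le continuous_const (continuous_apply v)).inter
        ((isClosed_iInter fun v => isClosed_iInter fun _ =>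
          isClosed_eq (continuous_apply v) continuous_const).inter
            (isClosed_eq (by fun_prop) continuous_const))
  · rintro w ⟨h0, σ, -, h1, h2⟩ v -
    refine ⟨h0 v, ?_⟩
    by_cases hv : v ∈ σ
    · exact h2 ▸ Finset.single_le_sum (fun v _ => h0 v) hv
    · exact (h1 v hv).trans_le zero_le_one

theorem vsc_zero {w : ℕ → ℝ} (hw : w ∈ L.space) (h : Supp w σ) (v : ℕ) (hv : v ∉ σ) : w v = 0 :=
  le_antisymm (not_lt.1 (mt (h v).1 hv)) (hw.1 v)

theorem vsc_supp {w : ℕ → ℝ} (hw : w ∈ L.space) (h : Supp w σ) :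
    σ ∈ L.faces ∧ ∑ v ∈ σ, w v = 1 := by
  obtain ⟨τ, hτ, h1, h2⟩ := hw.2
  have s : σ ⊆ τ := fun v hv => by_contra fun e => ((h v).2 hv).ne' (h1 v e)
  have e := (Finset.sum_subset s fun v _ hv => vsc_zero hw h v hv).trans h2
  exact ⟨L.down τ hτ σ s (Finset.nonempty_of_sum_ne_zero (e ▸ one_ne_zero)), e⟩

theorem exists_supp (x : L.space) : ∃ σ ∈ L.faces, Supp x.1 σ := by
  obtain ⟨τ, -, h1, -⟩ := x.2.2
  have h : Supp x.1 (τ.filter fun v => 0 < x.1 v) := fun v =>
    ⟨fun h => Finset.mem_filter.2 ⟨by_contra fun e => h.ne' (h1 v e), h⟩,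
      fun h => (Finset.mem_filter.1 h).2⟩
  exact ⟨_, (vsc_supp x.2 h).1, h⟩

theorem Supp.mem {x : L.space} (h : Supp x.1 σ) : σ ∈ L.faces :=
  (vsc_supp x.2 h).1

theorem Supp.sum {x : L.space} (h : Supp x.1 σ) : ∑ v ∈ σ, x.1 v = 1 :=
  (vsc_supp x.2 h).2

/-- The barycentre. -/
theorem exists_point (h : σ ∈ L.faces) : ∃ x : L.space, Supp x.1 σ := by
  have c : (0 : ℝ) < σ.card := Nat.cast_pos.2 (L.nonempty σ h).card_pos
  refine ⟨⟨fun v => if v ∈ σ then (σ.card : ℝ)⁻¹ else 0, fun v => ?_, σ, h, fun v hv => if_neg hv,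
    ?_⟩, fun v => ?_⟩
  · positivity
  · rw [Finset.sum_congr rfl fun v hv => if_pos hv, Finset.sum_const, nsmul_eq_mul,
      mul_inv_cancel₀ c.ne']
  · by_cases hv : v ∈ σ <;> simp [hv, c]

theorem mem_space_iff {K : SC} (hK : K.faces ⊆ L.faces) {x : L.space} (h : Supp x.1 σ) :
    x.1 ∈ K.space ↔ σ ∈ K.faces :=
  have _ := hK
  ⟨fun hx => (vsc_supp hx h).1, fun hσ => ⟨x.2.1, σ, hσ, vsc_zero x.2 h, h.sum⟩⟩

/-- The clamp to the unit interval. -/
def vsc_k (s : ℝ) : ℝ := max 0 (min s 1)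

theorem vsc_k0 (s : ℝ) : 0 ≤ vsc_k s := le_max_left _ _

theorem vsc_k1 (s : ℝ) : vsc_k s ≤ 1 := max_le zero_le_one (min_le_right _ _)

theorem vsc_k_eq {s : ℝ} (h0 : 0 ≤ s) (h1 : s ≤ 1) : vsc_k s = s := by
  rw [vsc_k, min_eq_left h1, max_eq_right h0]

theorem vsc_kc : Continuous vsc_k := by
  unfold vsc_k
  fun_prop

theorem vsc_mem {x y : ℕ → ℝ} {ρ : Finset ℕ} (h : ρ ∪ σ ∈ L.faces) (x0 : ∀ v, 0 ≤ x v)
    (y0 : ∀ v, 0 ≤ y v) (x1 : ∀ v, v ∉ σ → x v = 0) (y1 : ∀ v, v ∉ ρ → y v = 0)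
    (x2 : ∑ v ∈ σ, x v = 1) (y2 : ∑ v ∈ ρ, y v = 1) (s : ℝ) :
    (fun v => (1 - vsc_k s) * x v + vsc_k s * y v) ∈ L.space := by
  refine ⟨fun v => add_nonneg (mul_nonneg (sub_nonneg.2 (vsc_k1 s)) (x0 v))
    (mul_nonneg (vsc_k0 s) (y0 v)), _, h, fun v hv => ?_, ?_⟩
  · rw [Finset.notMem_union] at hv
    simp only [x1 v hv.2, y1 v hv.1, mul_zero, add_zero]
  · rw [Finset.sum_add_distrib, ← Finset.mul_sum, ← Finset.mul_sum,
      ← Finset.sum_subset Finset.subset_union_right fun v _ => x1 v,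
      ← Finset.sum_subset Finset.subset_union_left fun v _ => y1 v, x2, y2]
    ring

/-- The open star is a cone neighbourhood. Hint: `U = {w | ∀ v ∈ σ, 0 < w v}`,
`m w = σ.inf' _ (fun v => w v / x v)` (continuous, `0 < m w ≤ 1` on `U`, `m w = 1` only for
`w = x`), `ρ w = 1 - m w`, `π w = (w - m w • x) / (1 - m w)` (it lies on the face
`(supp w).erase v` for a vertex `v` where the minimum is attained),
`c p s = (1 - k s) • x + k s • p` with the clamp `k s = max 0 (min s 1)`; a point `p` of the base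
vanishes at some vertex of `σ`, so `m (c p s) = 1 - s`. -/
theorem cn_sc {x : L.space} (h : Supp x.1 σ) : Nonempty (CN x (base L σ).space) := by
  have hσ := L.nonempty σ h.mem
  have x1 := vsc_zero x.2 h
  let m : (ℕ → ℝ) → ℝ := fun w => σ.inf' hσ fun v => w v / x.1 v
  have mc : Continuous m := Continuous.finset_inf'_apply hσ fun v _ => by fun_prop
  have mx : m x = 1 := (Finset.inf'_congr hσ rfl fun v hv => div_self ((h v).2 hv).ne').trans
    (Finset.inf'_const hσ 1)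
  have m1 : ∀ (w : L.space) v, m w * x.1 v ≤ w.1 v := fun w v => by
    by_cases hv : v ∈ σ
    · exact (le_div_iff₀ ((h v).2 hv)).1 (Finset.inf'_le (fun v => w.1 v / x.1 v) hv)
    · rw [x1 v hv, mul_zero]
      exact w.2.1 v
  have m2 : ∀ w : L.space, (∀ v ∈ σ, 0 < w.1 v) → w ≠ x → 0 < m w ∧ m w < 1 ∧
      (fun v => (w.1 v - m w * x.1 v) / (1 - m w)) ∈ (base L σ).space := fun w hw hne => by
    obtain ⟨τ, hτ, ht⟩ := exists_supp w
    have s : σ ⊆ τ := fun v hv => (ht v).1 (hw v hv)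
    have e : ∑ v ∈ τ, (w.1 v - m w * x.1 v) = 1 - m w := by
      rw [Finset.sum_sub_distrib, ← Finset.mul_sum, ← Finset.sum_subset s fun v _ => x1 v, h.sum,
        ht.sum, mul_one]
    have z : ∀ v, v ∉ τ → w.1 v - m w * x.1 v = 0 := fun v hv => by
      rw [vsc_zero w.2 ht v hv, x1 v (mt (@s v) hv), mul_zero, sub_zero]
    have l : 0 < 1 - m w := (e ▸ Finset.sum_nonneg fun v _ => sub_nonneg.2 (m1 w v)).lt_of_ne
      fun e' => hne (Subtype.ext (funext fun v => by
        have := (_root_.em (v ∈ τ)).elim ((Finset.sum_eq_zero_iff_of_nonneg fun v _ =>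
          sub_nonneg.2 (m1 w v)).1 (e.trans e'.symm) v) (z v)
        rwa [← sub_eq_zero.1 e'.symm, one_mul, sub_eq_zero] at this))
    obtain ⟨u, hu, eu⟩ := Finset.exists_mem_eq_inf' hσ fun v => w.1 v / x.1 v
    have zu : (w.1 u - m w * x.1 u) / (1 - m w) = 0 := by
      rw [show m w = _ from eu, div_mul_cancel₀ _ ((h u).2 hu).ne', sub_self, zero_div]
    have sm : ∑ v ∈ τ.erase u, (w.1 v - m w * x.1 v) / (1 - m w) = 1 := by
      rw [Finset.sum_erase (f := fun v => (w.1 v - m w * x.1 v) / (1 - m w)) _ zu,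
        ← Finset.sum_div, e, div_self l.ne']
    refine ⟨(Finset.lt_inf'_iff hσ).2 fun v hv => div_pos (hw v hv) ((h v).2 hv), sub_pos.1 l,
      fun v => div_nonneg (sub_nonneg.2 (m1 w v)) l.le, τ.erase u, Finset.mem_filter.2
        ⟨L.down τ hτ _ (Finset.erase_subset _ _)
          (Finset.nonempty_of_sum_ne_zero (sm ▸ one_ne_zero)),
        L.down τ hτ _ (Finset.union_subset (Finset.erase_subset _ _) s)
          (hσ.mono Finset.subset_union_right), fun e => Finset.notMem_erase u τ (e hu)⟩,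
      fun v hv => ?_, sm⟩
    by_cases e : v = u
    · exact e ▸ zu
    · exact div_eq_zero_iff.2 (Or.inl (z v fun e' => hv (Finset.mem_erase.2 ⟨e, e'⟩)))
  have cm : ∀ (p : (base L σ).space) s,
      (fun v => (1 - vsc_k s) * x.1 v + vsc_k s * p.1 v) ∈ L.space := fun p s => by
    obtain ⟨ρ, hρ, p1, p2⟩ := p.2.2
    exact vsc_mem (Finset.mem_filter.1 hρ).2.1 x.2.1 p.2.1 x1 p1 h.sum p2 s
  have m3 : ∀ (p : (base L σ).space) s, 0 < s → s < 1 →
      m (fun v => (1 - vsc_k s) * x.1 v + vsc_k s * p.1 v) = 1 - s := fun p s s0 s1 => by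
    obtain ⟨ρ, hρ, p1, -⟩ := p.2.2
    obtain ⟨u, hu, hu'⟩ := Finset.not_subset.1 (Finset.mem_filter.1 hρ).2.2
    rw [vsc_k_eq s0.le s1.le]
    refine le_antisymm ((Finset.inf'_le _ hu).trans_eq ?_) (Finset.le_inf' _ _ fun v hv => ?_)
    · simp only [p1 u hu', mul_zero, add_zero, mul_div_cancel_right₀ _ ((h u).2 hu).ne']
    · exact (le_div_iff₀ ((h v).2 hv)).2 (le_add_of_nonneg_right (mul_nonneg s0.le (p.2.1 v)))
  refine ⟨⟨fun p s => ⟨_, cm p s⟩, {w | ∀ v ∈ σ, 0 < w.1 v}, fun w => 1 - m w,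
    fun y => ⟨_, (m2 y.1 y.2.1 y.2.2).2.2⟩, ?_, ?_, fun v hv => (h v).2 hv, fun p => ?_,
    fun p s s0 s1 => ⟨fun v hv => ?_, fun e => ?_⟩, fun p s s0 s1 => ?_, fun p s _ s0 s1 => ?_,
    (continuous_const.sub (mc.comp continuous_subtype_val)).continuousOn, ?_, ?_,
    fun y hy => ?_⟩⟩
  · exact Continuous.subtype_mk (continuous_pi fun v => ((continuous_const.sub
      (vsc_kc.comp continuous_snd)).mul continuous_const).add ((vsc_kc.comp continuous_snd).mul
        ((continuous_apply v).comp (continuous_subtype_val.comp continuous_fst)))) _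
  · simp only [Set.ofPred_forall]
    exact isOpen_biInter_finset fun v _ => isOpen_lt continuous_const
      ((continuous_apply v).comp continuous_subtype_val)
  · exact Subtype.ext (funext fun v => by simp [vsc_k])
  · show 0 < (1 - vsc_k s) * _ + vsc_k s * _
    rw [vsc_k_eq s0.le s1.le]
    exact add_pos_of_pos_of_nonneg (mul_pos (sub_pos.2 s1) ((h v).2 hv))
      (mul_nonneg s0.le (p.2.1 v))
  · have := (m3 p s s0 s1).symm.trans ((congrArg (fun w : L.space => m w) e).trans mx)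
    linarith
  · exact (congrArg (1 - ·) (m3 p s s0 s1)).trans (sub_sub_cancel _ _)
  · refine Subtype.ext (funext fun v => ?_)
    dsimp only
    rw [m3 p s s0 s1, vsc_k_eq s0.le s1.le, sub_sub_cancel, add_sub_cancel_left,
      mul_div_cancel_left₀ _ s0.ne']
  · rw [mx, sub_self]
  · have c : Continuous fun y : {y : L.space // (∀ v ∈ σ, 0 < y.1 v) ∧ y ≠ x} => y.1.1 :=
      continuous_subtype_val.comp continuous_subtype_val
    exact Continuous.subtype_mk (continuous_pi fun v => (((continuous_apply v).comp c).sub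
      ((mc.comp c).mul continuous_const)).div (continuous_const.sub (mc.comp c))
        fun y => (sub_pos.2 (m2 y.1 y.2.1 y.2.2).2.1).ne') _
  · obtain ⟨a, b, -⟩ := m2 y hy.1 hy.2
    refine ⟨sub_pos.2 b, sub_lt_self _ a, Subtype.ext (funext fun v => ?_)⟩
    dsimp only
    rw [vsc_k_eq (sub_pos.2 b).le (sub_lt_self _ a).le, mul_div_cancel₀ _ (sub_pos.2 b).ne']
    ring

theorem vsc_seg {ρ : Finset ℕ} {x y : L.space} (hx : Supp x.1 ρ) (hy : Supp y.1 σ) (h : ρ ⊆ σ) :
    ∃ γ : ℝ → L.space, Continuous γ ∧ γ 0 = x ∧ γ 1 = y ∧ (∀ s, 0 < s → Supp (γ s).1 σ) ∧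
      ∀ s, s ≤ 0 → γ s = x := by
  have := vsc_kc
  have e : ∀ s, s ≤ 0 → vsc_k s = 0 := fun s hs => max_eq_left ((min_le_left _ _).trans hs)
  refine ⟨fun s => ⟨_, vsc_mem (by rw [Finset.union_eq_left.2 h]; exact hy.mem) x.2.1 y.2.1
    (vsc_zero x.2 hx) (vsc_zero y.2 hy) hx.sum hy.sum s⟩, Continuous.subtype_mk (by fun_prop) _,
    Subtype.ext (funext fun v => by simp [vsc_k]), Subtype.ext (funext fun v => by simp [vsc_k]),
    fun s hs v => ⟨fun l => by_contra fun hv => ?_, fun hv => add_pos_of_nonneg_of_pos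
      (mul_nonneg (sub_nonneg.2 (vsc_k1 s)) (x.2.1 v))
      (mul_pos (lt_max_of_lt_right (lt_min hs one_pos)) ((hy v).2 hv))⟩,
    fun s hs => Subtype.ext (funext fun v => by simp [e s hs])⟩
  simp [vsc_zero x.2 hx v (mt (@h v) hv), vsc_zero y.2 hy v hv] at l

/-- Hint: the faces `σ ∈ L.faces` all of whose points of support `σ` lie in `C0`. The points of
support `σ` form a convex, so preconnected set (join two of them by a segment and use
`isPreconnected_iff_subset_of_disjoint_closed` on the unit interval); a point of support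
`ρ ⊆ σ` is a limit of points of support `σ`. -/
theorem sub_of_closed {C0 C1 : Set L.space} (h0 : IsClosed C0) (h1 : IsClosed C1)
    (hd : Disjoint C0 C1)
    (ht : ∀ σ (x y : L.space), Supp x.1 σ → Supp y.1 σ → x ∈ C0 ∪ C1 → y ∈ C0 ∪ C1) :
    ∃ K : SC, K.faces ⊆ L.faces ∧ ∀ σ (x : L.space), Supp x.1 σ → (σ ∈ K.faces ↔ x ∈ C0) := by
  refine ⟨⟨L.faces.filter fun σ => ∀ x : L.space, Supp x.1 σ → x ∈ C0,
    fun σ h => L.nonempty σ (Finset.mem_filter.1 h).1, fun σ h ρ s n => ?_⟩,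
    Finset.filter_subset _ _, fun σ x hx => ⟨fun h => (Finset.mem_filter.1 h).2 x hx,
      fun h => Finset.mem_filter.2 ⟨hx.mem, fun y hy => ?_⟩⟩⟩
  · obtain ⟨a, b⟩ := Finset.mem_filter.1 h
    refine Finset.mem_filter.2 ⟨L.down σ a ρ s n, fun x hx => ?_⟩
    obtain ⟨y, hy⟩ := exists_point a
    obtain ⟨γ, c, rfl, -, g, -⟩ := vsc_seg hx hy s
    exact (h0.preimage c).closure_subset_iff.2 (show Set.Ioi 0 ⊆ _ from fun t ht => b _ (g t ht))
      (by rw [closure_Ioi]; exact Set.self_mem_Ici)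
  · obtain ⟨γ, c, rfl, rfl, g, g'⟩ := vsc_seg hx hy subset_rfl
    refine (isPreconnected_iff_subset_of_disjoint_closed.1 (isPreconnected_range c) C0 C1 h0 h1 ?_
      (by rw [hd.inter_eq, Set.inter_empty])).elim (fun e => e ⟨1, rfl⟩)
        fun e => (Set.disjoint_left.1 hd h (e ⟨0, rfl⟩)).elim
    rintro _ ⟨t, rfl⟩
    exact (le_or_gt t 0).elim (fun e => g' t e ▸ Or.inl h) fun e => ht σ _ _ hx (g t e) (Or.inl h)

/-- Hint: `hi.toHomeomorph : M ≃ₜ Set.range i`, and `t` restricts to a homeomorphism from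
`K.space` to `Set.range i`. -/
theorem exists_homeo {M W : Type} [TopologicalSpace M] [TopologicalSpace W] {i : C(M, W)}
    (hi : Topology.IsEmbedding i) (t : L.space ≃ₜ W) {K : SC} (hK : K.faces ⊆ L.faces)
    (h : ∀ x : L.space, x.1 ∈ K.space ↔ t x ∈ Set.range i) :
    ∃ s : K.space ≃ₜ M, ∀ x, ((readIn s t i x : L.space) : ℕ → ℝ) = x := by
  have inc : ∀ x : K.space, x.1 ∈ L.space := fun x =>
    ⟨x.2.1, x.2.2.imp fun _ e => ⟨hK e.1, e.2⟩⟩
  let e : K.space ≃ₜ Set.range i :=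
    { toFun := fun x => ⟨t ⟨x.1, inc x⟩, (h ⟨x.1, inc x⟩).1 x.2⟩
      invFun := fun y => ⟨(t.symm y.1).1, (h _).2 (by rw [t.apply_symm_apply]; exact y.2)⟩
      left_inv := fun x => Subtype.ext (congrArg Subtype.val (t.symm_apply_apply ⟨x.1, inc x⟩) :)
      right_inv := fun y => Subtype.ext (t.apply_symm_apply y.1)
      continuous_toFun := by fun_prop
      continuous_invFun := by fun_prop }
  refine ⟨e.trans hi.toHomeomorph.symm, fun x => ?_⟩
  have : i (hi.toHomeomorph.symm (e x)) = t ⟨x.1, inc x⟩ :=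
    congrArg Subtype.val (hi.toHomeomorph.apply_symm_apply (e x))
  exact congrArg Subtype.val (t.symm_apply_eq.2 this)

end Pool.Agent.Lib.MP_5ceaf9_gt.V
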