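import Pool.Agent.Lib.MP_5ceaf9_gt.VCN
import Pool.Agent.Lib.MP_5ceaf9_gt.VSc

/-! Cone neighbourhoods in Euclidean space, in the half space and in manifolds. -/

open scoped Manifold ContDiff

noncomputable section

namespace Pool.Agent.Lib.MP_5ceaf9_gt.V

open Classical Function

/-- Barycentric coordinates from affine coordinates. -/
def vchart_up (n : ℕ) (z : Fin n → ℝ) : ℕ → ℝ :=
  fun v => if h : v < n then z ⟨v, h⟩ else if v = n then 1 - ∑ i, z i else 0

theorem vchart_up_cont (n : ℕ) : Continuous (vchart_up n) := by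
  refine continuous_pi fun v => ?_
  unfold vchart_up
  split_ifs <;> fun_prop

theorem vchart_up_fin {n : ℕ} (z : Fin n → ℝ) (i : Fin n) : vchart_up n z i = z i := by
  simp [vchart_up]

theorem vchart_up_last {n : ℕ} (z : Fin n → ℝ) : vchart_up n z n = 1 - ∑ i, z i := by
  simp [vchart_up]

theorem vchart_up_gt {n : ℕ} (z : Fin n → ℝ) {v : ℕ} (h : n < v) : vchart_up n z v = 0 := by
  simp [vchart_up, h.ne', h.le.not_gt]

theorem vchart_sum (n : ℕ) (w : ℕ → ℝ) :
    ∑ v ∈ Finset.range (n + 1), w v = ∑ i : Fin n, w i + w n := by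
  rw [Finset.sum_range_succ, Finset.sum_range]

theorem vchart_mem_simplex {n : ℕ} {w : ℕ → ℝ} : w ∈ (simplex n).space ↔
    (∀ v, 0 ≤ w v) ∧ (∀ v, n < v → w v = 0) ∧ ∑ i : Fin n, w i + w n = 1 := by
  rw [← vchart_sum]
  constructor
  · rintro ⟨h0, σ, hσ, h1, h2⟩
    have hs : σ ⊆ Finset.range (n + 1) :=
      Finset.mem_powerset.1 (Finset.mem_filter.1 hσ).1
    refine ⟨h0, fun v hv => h1 v fun h => ?_, ?_⟩
    · have := Finset.mem_range.1 (hs h)
      omega
    · rw [← h2]
      exact (Finset.sum_subset hs fun v _ hv => h1 v hv).symm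
  · rintro ⟨h0, h1, h2⟩
    refine ⟨h0, Finset.range (n + 1), Finset.mem_filter.2 ⟨Finset.mem_powerset.2 le_rfl,
      Finset.nonempty_range_add_one⟩, fun v hv => h1 v ?_, h2⟩
    have : ¬ v < n + 1 := fun h => hv (Finset.mem_range.2 h)
    omega

theorem vchart_up_mem {n : ℕ} {z : Fin n → ℝ} (h0 : ∀ i, 0 ≤ z i) (h1 : ∑ i, z i ≤ 1) :
    vchart_up n z ∈ (simplex n).space := by
  refine vchart_mem_simplex.2 ⟨fun v => ?_, fun v hv => vchart_up_gt z hv, ?_⟩
  · unfold vchart_up
    split_ifs
    · exact h0 _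
    · linarith
    · exact le_rfl
  · simp only [vchart_up_fin, vchart_up_last]
    ring

theorem vchart_up_down {n : ℕ} {w : ℕ → ℝ} (h : w ∈ (simplex n).space) :
    vchart_up n (fun i => w i) = w := by
  obtain ⟨-, h1, h2⟩ := vchart_mem_simplex.1 h
  funext v
  unfold vchart_up
  split_ifs with ha hb
  · rfl
  · subst hb
    linarith
  · exact (h1 v (by omega)).symm

/-- The model: a point of a coordinate sector has a cone neighbourhood whose base is the boundary
of the star of a face of the simplex. -/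
theorem vchart_gen (n : ℕ) (σ : Finset ℕ) (hs : ∀ v ∈ σ, v ≤ n) (hn : n ∈ σ)
    (p : EuclideanSpace ℝ (Fin n) → Prop) (hp : ∀ z, p z ↔ ∀ i : Fin n, i.1 ∉ σ → 0 ≤ z i)
    (y : {z // p z}) (hy : ∀ i : Fin n, i.1 ∉ σ → y.1 i = 0) :
    Nonempty (CN y (base (simplex n) σ).space) := by
  have := sc_compact (base (simplex n) σ)
  set b : Fin n → ℝ := fun i => if i.1 ∈ σ then 1 / ((n : ℝ) + 1) else 0 with hb
  set u : Fin n → ℝ := fun i => y.1 i - b i with hu
  have hu0 : ∀ i : Fin n, i.1 ∉ σ → u i = 0 := fun i hi => by simp [hu, hb, hi, hy i hi]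
  have hpos : (0 : ℝ) < 1 / ((n : ℝ) + 1) := by positivity
  have hb0 : ∀ i, 0 ≤ b i := fun i => by
    simp only [hb]
    split_ifs
    · exact hpos.le
    · exact le_rfl
  have hb1 : ∑ i, b i < 1 := by
    have h1 : ∑ i, b i ≤ ∑ _i : Fin n, 1 / ((n : ℝ) + 1) := Finset.sum_le_sum fun i _ => by
      simp only [hb]
      split_ifs
      · exact le_rfl
      · exact hpos.le
    have h2 : ∑ _i : Fin n, 1 / ((n : ℝ) + 1) < 1 := by
      rw [Finset.sum_const, Finset.card_univ, Fintype.card_fin, nsmul_eq_mul, mul_one_div,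
        div_lt_one (by positivity)]
      linarith
    linarith
  let O : Set (simplex n).space := {w | ∀ v ∈ σ, 0 < w.1 v}
  let O' : Set {z // p z} :=
    {z | (∀ i : Fin n, i.1 ∈ σ → 0 < z.1 i - u i) ∧ ∑ i, (z.1 i - u i) < 1}
  have hO : IsOpen O := by
    have : O = ⋂ v ∈ σ, {w : (simplex n).space | 0 < w.1 v} := by
      ext w
      simp [O]
    rw [this]
    exact isOpen_biInter_finset fun v _ => isOpen_lt continuous_const
      ((continuous_apply v).comp continuous_subtype_val)
  have hO' : IsOpen O' := by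
    have : O' = (⋂ i ∈ (Finset.univ.filter fun i : Fin n => i.1 ∈ σ),
        {z : {z // p z} | 0 < z.1 i - u i}) ∩ {z | ∑ i, (z.1 i - u i) < 1} := by
      ext z
      simp [O']
    rw [this]
    exact (isOpen_biInter_finset fun v _ => isOpen_lt continuous_const (by fun_prop)).inter
      (isOpen_lt (by fun_prop) continuous_const)
  have hnn : ∀ z : O', ∀ i, 0 ≤ z.1.1 i - u i := fun z i => by
    by_cases hi : i.1 ∈ σ
    · exact (z.2.1 i hi).le
    · rw [hu0 i hi, sub_zero]
      exact (hp _).1 z.1.2 i hi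
  have hup : ∀ z : Fin n → ℝ, (∀ i : Fin n, i.1 ∈ σ → 0 < z i) → ∑ i, z i < 1 →
      ∀ v ∈ σ, 0 < vchart_up n z v := fun z h1 h2 v hv => by
    rcases (hs v hv).lt_or_eq with h | h
    · exact (h1 ⟨v, h⟩ hv).trans_eq (vchart_up_fin z ⟨v, h⟩).symm
    · subst h
      rw [vchart_up_last]
      linarith
  let φ : O ≃ₜ O' :=
    { toFun := fun w => ⟨⟨WithLp.toLp 2 fun i => w.1.1 i + u i, (hp _).2 fun i hi => by
          have := w.1.2.1 i
          simpa [hu0 i hi] using this⟩, fun i hi => by simpa using w.2 i hi, by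
          have h1 := (vchart_mem_simplex.1 w.1.2).2.2
          have h2 := w.2 n hn
          simp only [add_sub_cancel_right]
          linarith⟩
      invFun := fun z => ⟨⟨vchart_up n fun i => z.1.1 i - u i, vchart_up_mem (hnn z) z.2.2.le⟩,
        hup _ z.2.1 z.2.2⟩
      left_inv := fun w => by
        refine Subtype.ext (Subtype.ext ?_)
        simp only [add_sub_cancel_right]
        exact vchart_up_down w.1.2
      right_inv := fun z => by
        refine Subtype.ext (Subtype.ext ?_)
        ext i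
        simp [vchart_up_fin]
      continuous_toFun := by
        refine Continuous.subtype_mk (Continuous.subtype_mk ?_ _) _
        refine (PiLp.continuous_toLp 2 _).comp (continuous_pi fun i => ?_)
        exact ((continuous_apply i.1).comp
          (continuous_subtype_val.comp continuous_subtype_val)).add continuous_const
      continuous_invFun := by
        refine Continuous.subtype_mk (Continuous.subtype_mk ?_ _) _
        refine (vchart_up_cont n).comp ?_
        fun_prop }
  let x : (simplex n).space := ⟨vchart_up n b, vchart_up_mem hb0 hb1.le⟩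
  have hxO : x ∈ O := hup b (fun i hi => by simpa [hb, hi] using hpos) hb1
  have hx : Supp x.1 σ := fun v => ⟨fun h => by
    by_contra hv
    rcases lt_trichotomy v n with h1 | h1 | h1
    · have h2 : x.1 v = b ⟨v, h1⟩ := vchart_up_fin b ⟨v, h1⟩
      rw [h2] at h
      simp [hb, hv] at h
    · exact hv (h1 ▸ hn)
    · have h2 : x.1 v = 0 := vchart_up_gt b h1
      rw [h2] at h
      exact lt_irrefl _ h, hxO v⟩
  obtain ⟨a⟩ := cn_sc hx
  have h := a.transport hO hO' φ hxO
  have he : (φ ⟨x, hxO⟩ : {z // p z}) = y := by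
    refine Subtype.ext ?_
    ext i
    change vchart_up n b i + u i = y.1 i
    rw [vchart_up_fin, hu]
    ring
  rwa [he] at h

theorem vchart_bd {A B : Closed4} (h : HCob A B) (w : h.W) : w ∈ (𝓡∂ 5).boundary h.W ↔
    (chartAt (EuclideanHalfSpace 5) w w).1 0 = 0 := by
  change extChartAt (𝓡∂ 5) w w ∈ frontier (Set.range (𝓡∂ 5)) ↔ _
  rw [frontier_range_modelWithCornersEuclideanHalfSpace]
  exact eq_comm

theorem vchart_he {X H : Type} [TopologicalSpace X] [TopologicalSpace H] [ChartedSpace H X]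
    {K Q : SC} (s : K.space ≃ₜ X) {σ : Finset ℕ} {x : K.space} (hx : Supp x.1 σ)
    (h : Nonempty (CN (chartAt H (s x) (s x)) Q.space)) :
    ∃ f : C((base K σ).space, Q.space), IsHE f := by
  have := sc_compact (base K σ)
  have := sc_compact Q
  obtain ⟨a⟩ := cn_sc hx
  obtain ⟨b⟩ := h
  obtain ⟨c⟩ := CN.chart (chartAt H (s x)) (mem_chart_source H (s x)) b
  obtain ⟨d⟩ := a.homeo s
  exact cn_he d c

/-- Hint: `CN.transport` of `cn_sc` at the barycentre `b` of `simplex n` along the homeomorphism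
`w ↦ (y i + w i - b i)` from `{w | ∀ v < n + 1, 0 < w v}` to
`{z | (∀ i, 0 < b i + z i - y i) ∧ ∑ i, (b i + z i - y i) < 1}`; the last barycentric coordinate is
one minus the sum of the others. -/
theorem cn_euclid (n : ℕ) (y : EuclideanSpace ℝ (Fin n)) : Nonempty (CN y (sphere n).space) := by
  have := sc_compact (base (simplex n) (Finset.range (n + 1)))
  obtain ⟨a⟩ := vchart_gen n (Finset.range (n + 1))
    (fun v hv => Nat.lt_succ_iff.1 (Finset.mem_range.1 hv)) (Finset.self_mem_range_succ n)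
    (fun z => z ∈ (Set.univ : Set (EuclideanSpace ℝ (Fin n))))
    (fun z => ⟨fun _ i hi => absurd (Finset.mem_range.2 (by omega)) hi, fun _ => trivial⟩)
    ⟨y, trivial⟩ (fun i hi => absurd (Finset.mem_range.2 (by omega)) hi)
  exact a.homeo (Homeomorph.Set.univ _)

/-- Hint: `CN.transport` of `cn_euclid 5 y.1` along the obvious homeomorphism between the two sets
`0 < z 0`. -/
theorem cn_half_int (y : EuclideanHalfSpace 5) (h : 0 < y.1 0) :
    Nonempty (CN y (sphere 5).space) := by
  have := sc_compact (sphere 5)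
  obtain ⟨a⟩ := cn_euclid 5 y.1
  let O : Set (EuclideanSpace ℝ (Fin 5)) := {z | 0 < z 0}
  let O' : Set (EuclideanHalfSpace 5) := {z | 0 < z.1 0}
  have hc : Continuous fun z : EuclideanHalfSpace 5 => z.1 := continuous_subtype_val
  have hO : IsOpen O := isOpen_lt continuous_const (by fun_prop)
  have hO' : IsOpen O' := hO.preimage hc
  let φ : O ≃ₜ O' :=
    { toFun := fun z => ⟨⟨z.1, le_of_lt z.2⟩, z.2⟩
      invFun := fun z => ⟨z.1.1, z.2⟩
      left_inv := fun _ => rfl
      right_inv := fun _ => rfl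
      continuous_toFun := (continuous_subtype_val.subtype_mk _).subtype_mk _
      continuous_invFun := (hc.comp continuous_subtype_val).subtype_mk _ }
  exact a.transport hO hO' φ h

/-- Hint: as in `cn_euclid`, with `b` the barycentre of the facet `(range 6).erase 0`, the set
`{w | ∀ v ∈ (range 6).erase 0, 0 < w v}` and no strict condition on the coordinate `0`. -/
theorem cn_half_bd (y : EuclideanHalfSpace 5) (h : y.1 0 = 0) : Nonempty (CN y disc.space) := by
  have h0 : ∀ i : Fin 5, i.1 ∉ (Finset.range 6).erase 0 ↔ i = 0 := by decide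
  exact vchart_gen 5 ((Finset.range 6).erase 0) (by decide) (by decide) (fun z => 0 ≤ z 0)
    (fun z => ⟨fun hz i hi => (h0 i).1 hi ▸ hz, fun hz => hz 0 ((h0 0).2 rfl)⟩) y
    (fun i hi => (h0 i).1 hi ▸ h)

/-- Hint: `CN.chart (chartAt _ (s x))`, `CN.homeo`, `cn_he`, `exists_point`, `sc_compact`. -/
theorem he_closed (A : Closed4) {K : SC} (s : K.space ≃ₜ A.M) {σ : Finset ℕ} (hσ : σ ∈ K.faces) :
    ∃ f : C((base K σ).space, (sphere 4).space), IsHE f := by
  obtain ⟨x, hx⟩ := exists_point hσ
  exact vchart_he (H := EuclideanSpace ℝ (Fin 4)) s hx (cn_euclid 4 _)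

/-- Hint: `ModelWithCorners.IsBoundaryPoint` and
`frontier_range_modelWithCornersEuclideanHalfSpace`: `t x` is a boundary point exactly when the
coordinate `0` of `chartAt _ (t x) (t x)` vanishes. -/
theorem he_int {A B : Closed4} (h : HCob A B) {L : SC} (t : L.space ≃ₜ h.W) {σ : Finset ℕ}
    {x : L.space} (hx : Supp x.1 σ) (hb : t x ∉ (𝓡∂ 5).boundary h.W) :
    ∃ f : C((base L σ).space, (sphere 5).space), IsHE f := by
  refine vchart_he (H := EuclideanHalfSpace 5) t hx (cn_half_int _ ?_)
  exact lt_of_le_of_ne (chartAt (EuclideanHalfSpace 5) (t x) (t x)).2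
    fun h0 => hb ((vchart_bd h _).2 h0.symm)

theorem he_bd {A B : Closed4} (h : HCob A B) {L : SC} (t : L.space ≃ₜ h.W) {σ : Finset ℕ}
    {x : L.space} (hx : Supp x.1 σ) (hb : t x ∈ (𝓡∂ 5).boundary h.W) :
    ∃ f : C((base L σ).space, disc.space), IsHE f := by
  exact vchart_he (H := EuclideanHalfSpace 5) t hx (cn_half_bd _ ((vchart_bd h _).1 hb))

end Pool.Agent.Lib.MP_5ceaf9_gt.V
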