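import Pool.Agent.Lib.MP_5ceaf9_gt.VDa

/-! The augmentation of the double complex in the first variable. -/

noncomputable section

namespace Pool.Agent.Lib.MP_5ceaf9_gt.V

open Classical Function

variable {L P0 P1 : Finset (Finset ℕ)} {χ : Finset ℕ → Finset ℕ → F25}

theorem vdb_card {σ ρ : Finset ℕ} (h : Dz (· ≤ ·) σ ρ ≠ 0) : ρ.card + 1 = σ.card := by
  obtain ⟨v, hv, rfl⟩ := Dz_ne h
  exact Finset.card_erase_add_one hv

theorem vdb_tw {σ ρ : Finset ℕ} (h : tw χ σ ρ ≠ 0) : Dz (· ≤ ·) σ ρ ≠ 0 := fun h0 =>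
  h (by rw [tw, h0, Int.cast_zero, mul_zero])

theorem vdb_self (σ : Finset ℕ) : tw χ σ σ = 0 := by
  by_contra h
  have := vdb_card (vdb_tw h)
  omega

theorem vdb_nil (σ : Finset ℕ) : Dz (· ≤ ·) ∅ σ = 0 := Finset.sum_empty

theorem vdb_empty (ρ : Finset ℕ) : Dz (· ≤ ·) ρ ∅ = if ρ.card = 1 then 1 else 0 := by
  split_ifs with h
  · obtain ⟨v, rfl⟩ := Finset.card_eq_one.1 h
    rw [← Finset.erase_singleton v, Dz_erase (Finset.mem_singleton_self v), sg,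
      Finset.filter_singleton, if_neg (by simp), Finset.card_empty, pow_zero]
  · by_contra h0
    exact h (vdb_card h0).symm

theorem vdb_ord (σ : Finset ℕ) : POn (· ≤ ·) σ ∧ Tot (· ≤ ·) σ :=
  ⟨⟨fun _ _ => le_rfl, fun _ _ _ _ => le_antisymm, fun _ _ _ _ _ _ => le_trans⟩,
    fun _ _ _ _ => le_total _ _⟩

theorem vdb_sum (hL : Cx (· ≤ ·) L) {σ τ : Finset ℕ} (hτ : τ ∈ L) (hs : σ ⊆ τ) :
    ∑ ρ ∈ L.filter (fun ρ => ρ ⊆ τ), (if ρ.card = 1 then (Dz (· ≤ ·) σ ρ : F25) else 0) = 0 := by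
  have h1 := Dz_sq (X := τ.powerset) (τ := ∅) (vdb_ord σ).1 (vdb_ord σ).2
    fun v _ _ => Finset.mem_powerset.2 ((Finset.erase_subset _ _).trans hs)
  rw [Finset.sum_subset (s₂ := τ.powerset)
    (fun ρ hρ => Finset.mem_powerset.2 (Finset.mem_filter.1 hρ).2) fun ρ h2 h3 => if_neg fun h4 =>
      h3 (Finset.mem_filter.2 ⟨hL.down _ hτ _ (Finset.mem_powerset.1 h2)
        (Finset.card_pos.1 (by omega)), Finset.mem_powerset.1 h2⟩)]
  simpa [vdb_empty] using congrArg (Int.cast : ℤ → F25) h1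

theorem vdb_gd {τ : Finset ℕ} (hτ : τ.Nonempty) (n : ℕ) :
    Gd 1 (∅ : Set (ℤ →+* F25)) (fun σ : ↥τ.powerset => decide ((σ.1.card + n) % 2 = 0))
      (rs τ.powerset τ.powerset
        (fun σ ρ => if σ = ∅ then Dz (· ≤ ·) ρ σ else -Dz (· ≤ ·) ρ σ)) := by
  obtain ⟨v, hv⟩ := hτ
  have hc : Cv (· ≤ ·) τ.powerset := ⟨fun σ _ => vdb_ord σ, fun σ hσ _ _ ρ _ h2 =>
    Finset.mem_powerset.2 (h2.trans (Finset.mem_powerset.1 hσ))⟩
  obtain ⟨s, hs⟩ := ctr_cone hc v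
    (fun σ hσ => Finset.mem_powerset.2 (Finset.insert_subset hv (Finset.mem_powerset.1 hσ)))
    fun σ hσ => Finset.mem_powerset.2 ((Finset.erase_subset _ _).trans (Finset.mem_powerset.1 hσ))
  have h0 : Gd 1 (∅ : Set (ℤ →+* F25)) (fun σ : ↥τ.powerset => decide ((σ.1.card + n) % 2 = 0))
      (rs τ.powerset τ.powerset (Dz (· ≤ ·))).transpose := by
    refine ⟨⟨?_, fun x y hxy => ?_⟩, fun _ => ⟨s.transpose, ?_⟩, fun _ _ hφ => hφ.elim⟩
    · rw [← Matrix.transpose_mul, hc.sq, Matrix.transpose_zero]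
    · have := vdb_card (σ := y.1) (ρ := x.1) hxy
      rw [Ne, decide_eq_decide]
      omega
    · rw [← Matrix.transpose_mul, ← Matrix.transpose_mul, ← Matrix.transpose_add, add_comm, hs,
        Matrix.transpose_one]
  refine (h0.neg.sign (fun σ => if σ.1 = ∅ then -1 else 1) fun σ => ?_).of_equiv (Equiv.refl _)
    (fun _ => rfl) fun x y => ?_
  · split_ifs <;> rfl
  · by_cases h1 : x.1 = ∅ <;> by_cases h2 : y.1 = ∅ <;> simp [rs, h1, h2, vdb_nil]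

/-- Hint: `∑ v ∈ τ, Dz σ {v} = 0` for `σ ⊆ τ` (`Dz_sq` with the empty face when `σ` has two
vertices). -/
theorem cm_mE (T : Tri L P0 P1) (h : Chi L χ) :
    CM (fun x : ↥(L \ P1) => ps x.1) (fun x : ↥(prs L P1) => pp x.1)
      (rs (L \ P1) (L \ P1) (tw χ)) (rs (prs L P1) (prs L P1) (dd χ))
      (rs (L \ P1) (prs L P1) mE) := by
  refine ⟨dm_tw T.cL h T.d1, dm_dd T h, fun x y hxy => ?_, ?_⟩
  · have h1 : y.1.2 = x.1 ∧ y.1.1.card = 1 := by_contra fun h1 => hxy (if_neg h1)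
    simp only [ps, pp, h1.1, h1.2, decide_eq_decide]
    omega
  · ext1 τ y
    obtain ⟨y1, y2, y3, y4⟩ := mem_prs.1 y.2
    have e1 : ∀ υ, tw χ τ.1 υ * mE υ y.1 =
        if y.1.2 = υ then (if y.1.1.card = 1 then tw χ τ.1 y.1.2 else 0) else 0 := fun υ => by
      by_cases h1 : y.1.2 = υ <;> by_cases h2 : y.1.1.card = 1 <;> simp [mE, h1, h2]
    have e2 : ∀ x : Finset ℕ × Finset ℕ, mE τ.1 x * dd χ x y.1 =
        if x.2 = τ.1 then (if x.1 = y.1.1 then (if y.1.1.card = 1 then tw χ τ.1 y.1.2 else 0)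
          else 0) + (if τ.1 = y.1.2 then 1 else 0) *
            (if x.1.card = 1 then (Dz (· ≤ ·) y.1.1 x.1 : F25) else 0) else 0 := fun x => by
      by_cases h3 : x.1 = y.1.1
      · by_cases h1 : x.2 = τ.1 <;> by_cases h2 : x.1.card = 1 <;> simp [mE, dd, h1, h2, ← h3]
      · by_cases h1 : x.2 = τ.1 <;> by_cases h2 : x.1.card = 1 <;> simp [mE, dd, h1, h2, h3]
    rw [sxm_mul, sxm_mul]
    simp only [e1, e2]
    rw [Finset.sum_ite_eq, if_pos (Finset.mem_sdiff.2 ⟨y2, y3⟩), sum_snd τ.2,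
      Finset.sum_add_distrib, Finset.sum_ite_eq', ← Finset.mul_sum]
    have e3 : (if τ.1 = y.1.2 then (1 : F25) else 0) * ∑ ρ ∈ L.filter (fun ρ => ρ ⊆ τ.1),
        (if ρ.card = 1 then (Dz (· ≤ ·) y.1.1 ρ : F25) else 0) = 0 := by
      split_ifs with h1
      · rw [h1, vdb_sum T.cL y2 y4, mul_zero]
      · exact zero_mul _
    rw [e3, add_zero]
    by_cases h1 : tw χ τ.1 y.1.2 = 0
    · simp [h1]
    · have h2 : y.1.1 ⊆ τ.1 := fun v hv => sxa2_sub (vdb_tw h1) (y4 hv)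
      exact (if_pos (Finset.mem_filter.2 ⟨y1, h2⟩)).symm

/-- The augmented chain complex of a simplex. Hint: `ctr_cone` on `τ.powerset`, transpose,
negate, conjugate with the sign `-1` at the empty simplex. -/
theorem ctr_simplex {τ : Finset ℕ} (hτ : τ.Nonempty) :
    Ctr (rs τ.powerset τ.powerset
      (fun σ ρ => if σ = ∅ then Dz (· ≤ ·) ρ σ else -Dz (· ≤ ·) ρ σ)) := by
  exact (vdb_gd hτ 0).2.1 le_rfl

/-- Hint: `gd_filt` with `π (inl τ) = τ`, `π (inr y) = y.2`, rank the cardinality. The piece at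
`τ ∈ L \ P1` is the matrix of `ctr_simplex` (`inl τ` is the empty simplex): `gd_int`,
`Gd.of_equiv` or `sxm_blk`; other pieces are empty (`gd_empty`). -/
theorem g2_mE (T : Tri L P0 P1) (h : Chi L χ) :
    G2 (cpar (fun x : ↥(L \ P1) => ps x.1) (fun x : ↥(prs L P1) => pp x.1))
      (cone (rs (L \ P1) (L \ P1) (tw χ)) (rs (prs L P1) (prs L P1) (dd χ))
        (rs (L \ P1) (prs L P1) mE)) := by
  refine gd_filt (cm_mE T h).cone (Sum.elim (fun τ => τ.1) fun y => y.1.2) Finset.card ?_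
    fun k => ?_
  · rintro (x | x) (y | y) hxy
    · exact Or.inr (Nat.lt_of_succ_le (vdb_card (vdb_tw hxy)).le)
    · exact Or.inl (by_contra fun h1 => hxy (if_neg fun h2 => h1 h2.1.symm))
    · exact absurd rfl hxy
    · by_cases h1 : x.1.2 = y.1.2
      · exact Or.inl h1
      · refine Or.inr (Nat.lt_of_succ_le (vdb_card (vdb_tw (χ := χ) fun h2 => hxy ?_)).le)
        change -dd χ x.1 y.1 = 0
        change tw χ x.1.2 y.1.2 = 0 at h2
        simp [dd, h1, h2]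
  by_cases hk : k ∈ L \ P1
  swap
  · refine @gd_empty _ _ _ _ _ _ _ _ _ _ _ ⟨?_⟩
    rintro ⟨x | x, rfl⟩
    · exact hk x.2
    · exact hk (Finset.mem_sdiff.2 ⟨(mem_prs.1 x.2).2.1, (mem_prs.1 x.2).2.2.1⟩)
  obtain ⟨k1, k2⟩ := Finset.mem_sdiff.1 hk
  have g := vdb_gd (T.cL.ne k k1) k.card
  have hm : ∀ σ : ↥k.powerset, σ.1 ≠ ∅ → (σ.1, k) ∈ prs L P1 := fun σ hσ =>
    mem_prs.2 ⟨T.cL.down _ k1 _ (Finset.mem_powerset.1 σ.2) (Finset.nonempty_iff_ne_empty.2 hσ),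
      k1, k2, Finset.mem_powerset.1 σ.2⟩
  obtain ⟨f, f1, f2⟩ : ∃ f : ↥k.powerset → ↥(L \ P1) ⊕ ↥(prs L P1),
      (∀ σ : ↥k.powerset, σ.1 = ∅ → f σ = Sum.inl ⟨k, hk⟩) ∧
        ∀ (σ : ↥k.powerset) (hσ : σ.1 ≠ ∅), f σ = Sum.inr ⟨(σ.1, k), hm σ hσ⟩ :=
    ⟨fun σ => if hσ : σ.1 = ∅ then Sum.inl ⟨k, hk⟩ else Sum.inr ⟨(σ.1, k), hm σ hσ⟩,
      fun _ hσ => dif_pos hσ, fun _ hσ => dif_neg hσ⟩
  refine (sxm_blk f (fun x y hxy => ?_) (fun x => ⟨?_, ?_⟩) (fun x => ?_) fun x y => ?_).1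
    (gd_int g.1 (g.2.1 le_rfl))
  · by_cases h1 : x.1 = ∅ <;> by_cases h2 : y.1 = ∅
    · exact Subtype.ext (h1.trans h2.symm)
    · simp [f1 x h1, f2 y h2] at hxy
    · simp [f2 x h1, f1 y h2] at hxy
    · simpa [f2 x h1, f2 y h2] using hxy
  · rcases x with x | x
    · rintro rfl
      exact ⟨⟨∅, Finset.empty_mem_powerset _⟩, f1 _ rfl⟩
    · rintro rfl
      obtain ⟨x1, -, -, x4⟩ := mem_prs.1 x.2
      exact ⟨⟨x.1.1, Finset.mem_powerset.2 x4⟩, f2 _ (T.cL.ne _ x1).ne_empty⟩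
  · rintro ⟨σ, rfl⟩
    by_cases h1 : σ.1 = ∅
    · rw [f1 σ h1]; rfl
    · rw [f2 σ h1]; rfl
  · by_cases h1 : x.1 = ∅
    · simp [f1 x h1, h1, cpar, ps]
    · simp only [f2 x h1, cpar, pp, Sum.elim_inr, ← decide_not, decide_eq_decide]
      omega
  · by_cases h1 : x.1 = ∅ <;> by_cases h2 : y.1 = ∅
    · simp [f1 x h1, f1 y h2, cone, rs, h1, h2, vdb_nil, vdb_self]
    · simp [f1 x h1, f2 y h2, cone, rs, h1, vdb_empty, mE]
    · simp [f2 x h1, f1 y h2, cone, rs, h1, h2, vdb_nil]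
    · simp [f2 x h1, f2 y h2, cone, rs, h1, dd, vdb_self]

end Pool.Agent.Lib.MP_5ceaf9_gt.V
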