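import Pool.Agent.Lib.MP_5ceaf9_gt.VDa

/-! Evaluation of the double complex on the local fundamental cycles. -/

noncomputable section

namespace Pool.Agent.Lib.MP_5ceaf9_gt.V

open Classical Function

variable {L P0 P1 I : Finset (Finset ℕ)} {χ : Finset ℕ → Finset ℕ → F25}
  {z δ : Finset ℕ → Finset ℕ → ℤ}

theorem vdc_card {σ ρ : Finset ℕ} (h : Dz (· ≤ ·) σ ρ ≠ 0) : σ.card = ρ.card + 1 := by
  obtain ⟨v, hv, rfl⟩ := Dz_ne h
  exact (Finset.card_erase_add_one hv).symm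

theorem vdc_self (σ : Finset ℕ) : Dz (· ≤ ·) σ σ = 0 := by
  by_contra h
  have := vdc_card h
  omega

theorem vdc_cast {n : ℤ} (h : (n : F25) ≠ 0) : n ≠ 0 := fun h0 => h (by rw [h0, Int.cast_zero])

theorem vdc_mem {X : Finset (Finset ℕ)} {σ τ : Finset ℕ} : τ ∈ st X σ ↔ τ ∈ X ∧ σ ⊆ τ :=
  Finset.mem_filter

/-- A diagonal conjugate of an integral contractible matrix. -/
theorem vdc_piece {ι : Type} [Fintype ι] [DecidableEq ι] {p : ι → Bool} {m : Matrix ι ι ℤ}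
    (hm : Dm p m) (hc : Ctr m) (g : ι → F25) (hg : ∀ x, g x ^ 8 = 1) {d : Matrix ι ι F25}
    (hd : ∀ x y, d x y = g x * (m x y : F25) * (g y)⁻¹) : G2 p d := by
  have hn : ∀ x, g x ≠ 0 := fun x h0 => by
    have := hg x
    rw [h0, zero_pow (by norm_num)] at this
    exact zero_ne_one this
  have h0 : Gd 2 ({RingHom.id F25} : Set (F25 →+* F25)) p (m.map (Int.castRingHom F25)) :=
    gd_int hm hc
  have h1 := alge2_diag h0 (g := g) (g' := fun x => (g x)⁻¹) (fun x => mul_inv_cancel₀ (hn x))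
    (fun x => inv_mul_cancel₀ (hn x)) (fun φ hφ x => by
      rw [Set.mem_singleton_iff.1 hφ]
      exact hg x)
  exact h1.of_equiv (Equiv.refl _) (fun _ => rfl) fun x y => hd x y

/-- The signed coboundary on a star is a differential for the parity of pairs. -/
theorem vdc_dm (hL : Cx (· ≤ ·) L) {X : Finset (Finset ℕ)} (hX : X ⊆ L)
    (conv : ∀ σ ∈ X, ∀ τ ∈ X, ∀ ρ, τ ⊆ ρ → ρ ⊆ σ → ρ ∈ X) (k : Finset ℕ) (e : ℤ) :
    Dm (fun τ : ↥X => pp (k, τ.1)) (e • rs X X (Dz (· ≤ ·))) := by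
  have h1 := dm_Dz (r := (· ≤ ·)) (X := X)
    (fun σ hσ => ⟨hL.po σ (hX hσ), hL.tot σ (hX hσ)⟩) conv
  refine ⟨by rw [smul_mul_smul_comm, h1.1, smul_zero], fun x y hxy => ?_⟩
  have h2 : Dz (· ≤ ·) x.1 y.1 ≠ 0 := fun h0 => hxy (by simp [rs, h0])
  have h3 := vdc_card h2
  simp only [pp, ne_eq, decide_eq_decide]
  omega

/-- The entries of the double complex with equal first entries. -/
theorem vdc_dd (h : Chi L χ) {k τ ρ : Finset ℕ} (hk : k ∈ L) (hτ : τ ∈ L) (hρ : ρ ∈ L)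
    (h2 : k ⊆ ρ) : dd χ (k, τ) (k, ρ) =
      χ τ k * (((-1) ^ (k.card + 1) * Dz (· ≤ ·) τ ρ : ℤ) : F25) * (χ ρ k)⁻¹ := by
  simp only [dd, tw, if_true, vdc_self, Int.cast_zero, ite_self, add_zero]
  by_cases h0 : Dz (· ≤ ·) τ ρ = 0
  · simp [h0]
  · have h3 := h.ne hk hρ h2
    rw [← h.flat k hk ρ hρ τ hτ h2 (sxa2_sub h0)]
    push_cast
    field_simp

theorem chi_dch (h : Chi L χ) (o : Ori L I z δ) : Chi L (dch χ δ) := by
  refine ⟨fun σ hσ τ hτ hs => ?_, fun σ hσ τ hτ υ hυ h1 h2 => ?_⟩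
  · have h1 : (δ σ τ : F25) * (δ σ τ : F25) = 1 := by
      rw [← Int.cast_mul, o.sq σ hσ τ hτ hs, Int.cast_one]
    rw [dch, mul_pow, inv_pow, h.pow σ hσ τ hτ hs, inv_one, mul_one]
    calc (δ σ τ : F25) ^ 8 = ((δ σ τ : F25) * (δ σ τ : F25)) ^ 4 := by ring
      _ = 1 := by rw [h1, one_pow]
  · rw [dch, dch, dch, ← o.flat σ hσ τ hτ υ hυ h1 h2, ← h.flat σ hσ τ hτ υ hυ h1 h2, mul_inv,
      Int.cast_mul]
    ring

theorem st_int (T : Tri L P0 P1) (hI : ∀ τ, τ ∈ I ↔ τ ∈ L ∧ τ ∉ P0 ∧ τ ∉ P1) {σ : Finset ℕ}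
    (hσ : σ ∈ L \ P0) : st (L \ P1) σ = st I σ := by
  obtain ⟨h1, h2⟩ := Finset.mem_sdiff.1 hσ
  ext τ
  rw [vdc_mem, vdc_mem, hI, Finset.mem_sdiff]
  exact ⟨fun h => ⟨⟨h.1.1, fun h3 => h2 (T.d0 τ h3 σ h1 h.2), h.1.2⟩, h.2⟩,
    fun h => ⟨⟨h.1.1, h.1.2.2⟩, h.2⟩⟩

theorem st_bd (T : Tri L P0 P1) {σ : Finset ℕ} (hσ : σ ∈ P0) : st (L \ P1) σ = st L σ := by
  ext τ
  rw [vdc_mem, vdc_mem, Finset.mem_sdiff]
  exact ⟨fun h => ⟨h.1.1, h.2⟩,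
    fun h => ⟨⟨h.1, fun h3 => T.dj σ hσ (T.d1 τ h3 σ (T.s0 hσ) h.2)⟩, h.2⟩⟩

/-- Hint: `sum_fst`; the part of `dd` that changes the second entry is killed by `o.cyc` (use
`(χ τ' σ)⁻¹ * χ τ' τ = (χ τ σ)⁻¹`), the other part is `o.res`. -/
theorem cm_mZ (T : Tri L P0 P1) (hI : ∀ τ, τ ∈ I ↔ τ ∈ L ∧ τ ∉ P0 ∧ τ ∉ P1) (h : Chi L χ)
    (o : Ori L I z δ) :
    CM (fun x : ↥(L \ P0) => !ps x.1) (fun x : ↥(prs L P1) => pp x.1)
      (rs (L \ P0) (L \ P0) (tw (dch χ δ))).transpose (rs (prs L P1) (prs L P1) (dd χ))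
      (rs (L \ P0) (prs L P1) (mZ χ z)) := by
  have h1 := dm_tw T.cL (chi_dch h o) T.d0
  refine ⟨⟨by rw [← Matrix.transpose_mul, h1.1, Matrix.transpose_zero],
    fun x y hxy e => h1.2 y x hxy (Bool.not_inj e).symm⟩, dm_dd T h, ?_, ?_⟩
  · rintro ⟨σ, hσ⟩ ⟨y, hy⟩ hxy
    have h2 : mZ χ z σ y ≠ 0 := hxy
    unfold mZ at h2
    split_ifs at h2 with h3
    · have h4 := o.card σ y.2 (vdc_cast (left_ne_zero_of_mul h2))
      simp only [ps, pp, h3, h4, ← decide_not, decide_eq_decide]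
      omega
    · exact absurd rfl h2
  refine Matrix.ext ?_
  rintro ⟨σ, hσ⟩ ⟨⟨a, b⟩, hy⟩
  obtain ⟨ha, hb, hb1, hab⟩ := mem_prs.1 hy
  obtain ⟨hσL, hσ0⟩ := Finset.mem_sdiff.1 hσ
  simp only at ha hb hb1 hab
  have e1 : ((rs (L \ P0) (L \ P0) (tw (dch χ δ))).transpose *
      rs (L \ P0) (prs L P1) (mZ χ z)) ⟨σ, hσ⟩ ⟨(a, b), hy⟩ =
      ∑ τ ∈ L \ P0, tw (dch χ δ) τ σ * mZ χ z τ (a, b) := by
    rw [Matrix.mul_apply]
    exact Finset.sum_coe_sort (L \ P0) fun τ => tw (dch χ δ) τ σ * mZ χ z τ (a, b)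
  have e2 : ∑ y ∈ prs L P1, mZ χ z σ y * dd χ y (a, b) =
      ∑ τ ∈ st I σ, (z σ τ : F25) * (χ τ σ)⁻¹ * dd χ (σ, τ) (a, b) := by
    rw [← st_int T hI hσ, ← sum_fst hσL (fun y => (z σ y.2 : F25) * (χ y.2 σ)⁻¹ * dd χ y (a, b))]
    refine Finset.sum_congr rfl fun y _ => ?_
    unfold mZ
    split_ifs
    · rfl
    · rw [zero_mul]
  rw [e1, sxm_mul, e2]
  simp only [mZ, mul_ite, mul_zero, Finset.sum_ite_eq]
  by_cases h2 : σ = a
  · subst h2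
    have h3 : b ∈ st I σ := by
      rw [← st_int T hI hσ, vdc_mem, Finset.mem_sdiff]
      exact ⟨⟨hb, hb1⟩, hab⟩
    have h4 : ∀ τ ∈ st I σ, (z σ τ : F25) * (χ τ σ)⁻¹ * dd χ (σ, τ) (σ, b) =
        (-1) ^ (σ.card + 1) * (χ b σ)⁻¹ * ((z σ τ * Dz (· ≤ ·) τ b : ℤ) : F25) := by
      intro τ hτ
      have h5 : τ ∈ L := ((hI τ).1 (vdc_mem.1 hτ).1).1
      have h6 := h.ne hσL h5 (vdc_mem.1 hτ).2
      rw [vdc_dd h hσL h5 hb hab]
      push_cast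
      field_simp
    rw [Finset.sum_congr rfl h4, ← Finset.mul_sum, ← Int.cast_sum, o.cyc σ hσL b h3]
    simp [tw, vdc_self]
  · simp only [dd, if_neg h2, zero_add, mul_ite, mul_zero, Finset.sum_ite_eq']
    by_cases h3 : Dz (· ≤ ·) a σ = 0
    · simp [tw, h3]
    · have h4 := sxa2_sub h3
      have h5 : a ∈ L \ P0 := Finset.mem_sdiff.2 ⟨ha, fun h6 => hσ0 (T.d0 a h6 σ hσL h4)⟩
      have h6 : b ∈ st I a := by
        rw [← st_int T hI h5, vdc_mem, Finset.mem_sdiff]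
        exact ⟨⟨hb, hb1⟩, hab⟩
      have h7 : b ∈ st I σ := vdc_mem.2 ⟨(vdc_mem.1 h6).1, h4.trans hab⟩
      rw [if_pos h5, if_pos h7, tw, dch, o.res σ hσL a ha h4 b h6,
        ← h.flat σ hσL a ha b hb h4 hab, mul_inv, Int.cast_mul]
      ring

/-- Hint: `gd_filt` with `π (inl σ) = σ`, `π (inr y) = y.1`, rank `N - card` for a bound `N`. The
piece at `σ ∈ P0` is `± Dz` on `st L σ` conjugated by the diagonal matrix `χ τ σ` (`alge2_diag`,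
`gd_int`, `Ctr.neg`); the piece at `σ ∈ L \ P0` is the cone of `o.ctr` (or of `ctr_cone_neg`)
conjugated by the diagonal matrix with `1` at `inl σ` and `χ τ σ` at `inr (σ, τ)`. The
differential property of an integral piece can be read from degrees and `Cv.sq`, `o.cyc`. -/
theorem g2_mZ (T : Tri L P0 P1) (hI : ∀ τ, τ ∈ I ↔ τ ∈ L ∧ τ ∉ P0 ∧ τ ∉ P1) (h : Chi L χ)
    (o : Ori L I z δ) (h0 : ∀ σ ∈ P0, Ctr (rs (st L σ) (st L σ) (Dz (· ≤ ·)))) :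
    G2 (cpar (fun x : ↥(L \ P0) => !ps x.1) (fun x : ↥(prs L P1) => pp x.1))
      (cone (rs (L \ P0) (L \ P0) (tw (dch χ δ))).transpose (rs (prs L P1) (prs L P1) (dd χ))
        (rs (L \ P0) (prs L P1) (mZ χ z))) := by
  have hN : ∀ {σ τ : Finset ℕ}, τ ∈ L → Dz (· ≤ ·) τ σ ≠ 0 →
      L.sup Finset.card - τ.card < L.sup Finset.card - σ.card := fun hτ h1 => by
    have h2 := vdc_card h1
    have h3 := Finset.le_sup (f := Finset.card) hτ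
    omega
  refine gd_filt (cm_mZ T hI h o).cone (Sum.elim (fun x => x.1) fun y => y.1.1)
    (fun σ => L.sup Finset.card - σ.card) ?_ fun k => ?_
  · rintro (⟨σ, hσ⟩ | ⟨x, hx⟩) (⟨τ, hτ⟩ | ⟨y, hy⟩) h1
    · have h2 : Dz (· ≤ ·) τ σ ≠ 0 := fun h2 => h1 (by simp [cone, rs, tw, h2])
      exact Or.inr (hN (Finset.mem_sdiff.1 hτ).1 h2)
    · exact Or.inl (by_contra fun h2 => h1 (if_neg fun h3 => h2 h3.symm))
    · exact absurd rfl h1
    · by_cases h2 : x.1 = y.1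
      · exact Or.inl h2
      · have h3 : Dz (· ≤ ·) y.1 x.1 ≠ 0 := fun h3 => h1 (by simp [cone, rs, dd, h2, h3])
        exact Or.inr (hN (mem_prs.1 hy).1 h3)
  by_cases hk : k ∈ L
  swap
  · have : IsEmpty {x : ↥(L \ P0) ⊕ ↥(prs L P1) //
        Sum.elim (fun x => x.1) (fun y => y.1.1) x = k} := ⟨by
      rintro ⟨x | y, rfl⟩
      · exact hk (Finset.mem_sdiff.1 x.2).1
      · exact hk (mem_prs.1 y.2).1⟩
    exact gd_empty
  have h1 : ∀ τ, τ ∈ st (L \ P1) k ↔ (k, τ) ∈ prs L P1 := fun τ => by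
    rw [vdc_mem, mem_prs, Finset.mem_sdiff]
    exact ⟨fun h2 => ⟨hk, h2.1.1, h2.1.2, h2.2⟩, fun h2 => ⟨⟨h2.2.1, h2.2.2.1⟩, h2.2.2.2⟩⟩
  have h2 : ∀ τ ∈ st (L \ P1) k, τ ∈ L := fun τ hτ => (Finset.mem_sdiff.1 (vdc_mem.1 hτ).1).1
  have h3 := vdc_dm T.cL (X := st (L \ P1) k) h2 (fun σ hσ τ hτ ρ h3 h4 => by
    have h5 := T.cL.down σ (h2 σ hσ) ρ h4 ((T.cL.ne τ (h2 τ hτ)).mono h3)
    exact vdc_mem.2 ⟨Finset.mem_sdiff.2 ⟨h5, fun h6 => (Finset.mem_sdiff.1 (vdc_mem.1 hτ).1).2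
      (T.d1 ρ h6 τ (h2 τ hτ) h3)⟩, (vdc_mem.1 hτ).2.trans h3⟩) k ((-1) ^ (k.card + 1))
  have h4 : ∀ τ : ↥(st (L \ P1) k), χ τ.1 k ^ 8 = 1 := fun τ =>
    h.pow k hk τ.1 (h2 _ τ.2) (vdc_mem.1 τ.2).2
  have h5 : ∀ τ ρ : ↥(st (L \ P1) k), -dd χ (k, τ.1) (k, ρ.1) =
      χ τ.1 k * ((-((-1) ^ (k.card + 1) * Dz (· ≤ ·) τ.1 ρ.1) : ℤ) : F25) * (χ ρ.1 k)⁻¹ := by
    intro τ ρ
    rw [vdc_dd h hk (h2 _ τ.2) (h2 _ ρ.2) (vdc_mem.1 ρ.2).2, Int.cast_neg]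
    ring
  by_cases hk0 : k ∈ P0
  · have h6 : Ctr (-((-1 : ℤ) ^ (k.card + 1) •
        rs (st (L \ P1) k) (st (L \ P1) k) (Dz (· ≤ ·)))) := by
      rw [st_bd T hk0]
      rcases neg_one_pow_eq_or ℤ (k.card + 1) with e | e <;> rw [e]
      · rw [one_smul]
        exact (h0 k hk0).neg
      · rw [neg_smul, one_smul, neg_neg]
        exact h0 k hk0
    have h7 : G2 (fun τ : ↥(st (L \ P1) k) => !pp (k, τ.1))
        (Matrix.of fun τ ρ => -dd χ (k, τ.1) (k, ρ.1)) :=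
      vdc_piece ⟨h3.neg.1, fun x y hxy e => h3.neg.2 x y hxy (Bool.not_inj e)⟩ h6 _ h4 h5
    refine (sxm_blk (fun τ : ↥(st (L \ P1) k) => Sum.inr ⟨(k, τ.1), (h1 _).1 τ.2⟩)
      (fun _ _ e => Subtype.ext (congrArg (·.1.2) (Sum.inr.inj e))) ?_ ?_ ?_).1 h7
    rotate_left
    · exact fun _ => rfl
    · intro τ ρ
      simp [cone, rs]
    rintro (⟨σ, hσ⟩ | ⟨⟨a, b⟩, hy⟩)
    · constructor
      · rintro rfl
        exact absurd hk0 (Finset.mem_sdiff.1 hσ).2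
      · rintro ⟨_, e⟩
        cases e
    · constructor
      · rintro rfl
        exact ⟨⟨b, (h1 b).2 hy⟩, rfl⟩
      · rintro ⟨_, e⟩
        cases e
        rfl
  · have hk1 : k ∈ L \ P0 := Finset.mem_sdiff.2 ⟨hk, hk0⟩
    have h6 : Ctr (cone (0 : Matrix Unit Unit ℤ) ((-1 : ℤ) ^ (k.card + 1) •
        rs (st (L \ P1) k) (st (L \ P1) k) (Dz (· ≤ ·)))
        (Matrix.of fun _ (τ : ↥(st (L \ P1) k)) => z k τ.1)) := by
      rw [st_int T hI hk1]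
      rcases neg_one_pow_eq_or ℤ (k.card + 1) with e | e <;> rw [e]
      · rw [one_smul]
        exact o.ctr k hk
      · rw [neg_smul, one_smul]
        exact ctr_cone_neg (o.ctr k hk)
    have h7 : CM (fun _ : Unit => !ps k) (fun τ : ↥(st (L \ P1) k) => pp (k, τ.1))
        (0 : Matrix Unit Unit ℤ) ((-1 : ℤ) ^ (k.card + 1) •
        rs (st (L \ P1) k) (st (L \ P1) k) (Dz (· ≤ ·)))
        (Matrix.of fun _ (τ : ↥(st (L \ P1) k)) => z k τ.1) := by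
      refine ⟨⟨mul_zero _, fun _ _ e => absurd rfl e⟩, h3, fun _ τ e => ?_, ?_⟩
      · have h8 := o.card k τ.1 e
        simp only [ps, pp, h8, ← decide_not, decide_eq_decide]
        omega
      · rw [Matrix.zero_mul, Matrix.mul_smul]
        ext _ ⟨ρ, hρ⟩
        have h8 : ∑ τ ∈ st (L \ P1) k, z k τ * Dz (· ≤ ·) τ ρ = 0 := by
          rw [st_int T hI hk1] at hρ ⊢
          exact o.cyc k hk ρ hρ
        rw [← Finset.sum_coe_sort] at h8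
        rw [Matrix.smul_apply, Matrix.mul_apply]
        exact ((congrArg _ h8).trans (smul_zero _)).symm
    refine (sxm_blk (Sum.map (fun _ : Unit => ⟨k, hk1⟩)
      fun τ : ↥(st (L \ P1) k) => ⟨(k, τ.1), (h1 _).1 τ.2⟩)
      (Sum.map_injective.2 ⟨fun _ _ _ => rfl, fun _ _ e => Subtype.ext (congrArg (·.1.2) e)⟩)
      ?_ ?_ (fun _ _ => rfl)).1 (vdc_piece h7.cone h6
        (Sum.elim (fun _ => 1) fun τ => χ τ.1 k) ?_ ?_)
    · rintro (⟨σ, hσ⟩ | ⟨⟨a, b⟩, hy⟩)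
      · constructor
        · rintro rfl
          exact ⟨Sum.inl (), rfl⟩
        · rintro ⟨_ | _, e⟩ <;> cases e
          rfl
      · constructor
        · rintro rfl
          exact ⟨Sum.inr ⟨b, (h1 b).2 hy⟩, rfl⟩
        · rintro ⟨_ | _, e⟩ <;> cases e
          rfl
    · rintro (_ | _) <;> rfl
    · rintro (_ | τ)
      · exact one_pow _
      · exact h4 τ
    · rintro (_ | τ) (_ | ρ)
      · simp [cone, rs, tw, vdc_self]
      · simp [cone, rs, mZ]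
      · simp [cone]
      · exact h5 τ ρ

end Pool.Agent.Lib.MP_5ceaf9_gt.V
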