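import Pool.Agent.Lib.MP_5ceaf9_gt.VAlg

/-! Local fundamental cycles and the orientation cocycle. -/

noncomputable section

namespace Pool.Agent.Lib.MP_5ceaf9_gt.V

open Classical Function

variable {L I : Finset (Finset ℕ)}

/-- `y` is a cycle on the interior simplices around `σ`, with coefficients in `R`. -/
def Cyc (I : Finset (Finset ℕ)) (σ : Finset ℕ) {R : Type} [CommRing R] (y : Finset ℕ → R) : Prop :=
  (∀ τ ∈ st I σ, y τ ≠ 0 → τ.card = 6) ∧
    ∀ ρ ∈ st I σ, ∑ τ ∈ st I σ, y τ * (Dz (· ≤ ·) τ ρ : R) = 0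

/-- `z` is a fundamental cycle around `σ`. -/
structure Fu (I : Finset (Finset ℕ)) (σ : Finset ℕ) (z : Finset ℕ → ℤ) : Prop where
  card : ∀ τ, z τ ≠ 0 → τ.card = 6
  cyc : ∀ ρ ∈ st I σ, ∑ τ ∈ st I σ, z τ * Dz (· ≤ ·) τ ρ = 0
  ctr : Ctr (cone (0 : Matrix Unit Unit ℤ) (rs (st I σ) (st I σ) (Dz (· ≤ ·)))
    (Matrix.of fun _ (τ : ↥(st I σ)) => z τ.1))

theorem vori_mem {σ τ : Finset ℕ} : τ ∈ st I σ ↔ τ ∈ I ∧ σ ⊆ τ := Finset.mem_filter

theorem vori_mono {σ τ ρ : Finset ℕ} (h : σ ⊆ τ) (hρ : ρ ∈ st I τ) : ρ ∈ st I σ :=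
  vori_mem.2 ⟨(vori_mem.1 hρ).1, h.trans (vori_mem.1 hρ).2⟩

theorem vori_Dz {τ ρ : Finset ℕ} (h : Dz (· ≤ ·) τ ρ ≠ 0) : ρ ⊆ τ ∧ ρ.card + 1 = τ.card := by
  obtain ⟨v, hv, rfl⟩ := Dz_ne h
  exact ⟨Finset.erase_subset _ _, Finset.card_erase_add_one hv⟩

theorem vori_eps {τ ρ : Finset ℕ} (h : ρ ⊆ τ) (hc : ρ.card + 1 = τ.card) :
    Dz (· ≤ ·) τ ρ * Dz (· ≤ ·) τ ρ = 1 := by
  obtain ⟨v, hv, rfl⟩ := Finset.exists_eq_insert_iff.2 ⟨h, hc⟩
  have e := Dz_erase (r := (· ≤ ·)) (Finset.mem_insert_self v ρ)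
  rw [Finset.erase_insert hv] at e
  rw [e]
  exact sg_mul_self v

theorem vori_sum {σ τ ρ : Finset ℕ} {R : Type} [CommRing R] (y : Finset ℕ → R) (h : σ ⊆ τ)
    (hρ : τ ⊆ ρ) : ∑ υ ∈ st I τ, y υ * (Dz (· ≤ ·) υ ρ : R) =
      ∑ υ ∈ st I σ, y υ * (Dz (· ≤ ·) υ ρ : R) := by
  refine Finset.sum_subset (fun υ hυ => vori_mono h hυ) fun υ hυ hn => ?_
  have e : Dz (· ≤ ·) υ ρ = 0 := by
    by_contra hc
    exact hn (vori_mem.2 ⟨(vori_mem.1 hυ).1, hρ.trans (vori_Dz hc).1⟩)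
  rw [e, Int.cast_zero, mul_zero]

theorem vori_cyc {σ : Finset ℕ} {z : Finset ℕ → ℤ} (h : Fu I σ z) : Cyc I σ z :=
  ⟨fun τ _ => h.card τ, h.cyc⟩

theorem vori_unit {a b : ℤ} (h : a * b * (a * b) = 1) : b * b = 1 := by
  have e : b * (a * (a * b)) = 1 := by linear_combination h
  rcases Int.eq_one_or_neg_one_of_mul_eq_one e with h1 | h1 <;> rw [h1] <;> norm_num

/-- Hint: extend the row by zero. -/
theorem Sph.fu {σ : Finset ℕ} (h : Sph 6 (st I σ)) : ∃ z, Fu I σ z := by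
  obtain ⟨f, h1, h2, h3⟩ := h.ex
  refine ⟨fun τ => if hτ : τ ∈ st I σ then f () ⟨τ, hτ⟩ else 0, ?_, ?_, ?_⟩
  · intro τ hτ
    by_cases hm : τ ∈ st I σ
    · rw [dif_pos hm] at hτ
      have e := h1 _ _ hτ
      simp only [cd, add_zero] at e
      exact_mod_cast e.symm
    · rw [dif_neg hm] at hτ
      exact absurd rfl hτ
  · intro ρ hρ
    have e := congrFun (congrFun h2 ()) ⟨ρ, hρ⟩
    rw [Matrix.zero_mul, Matrix.zero_apply, Matrix.mul_apply] at e
    rw [e, ← Finset.sum_coe_sort (st I σ)]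
    refine Finset.sum_congr rfl fun τ _ => ?_
    rw [dif_pos τ.2]
    rfl
  · have e : (Matrix.of fun (_ : Unit) (τ : ↥(st I σ)) =>
        if hτ : τ.1 ∈ st I σ then f () ⟨τ.1, hτ⟩ else 0) = f := by
      ext u τ
      rw [Matrix.of_apply, dif_pos τ.2]
    rw [e]
    exact h3

/-- Hint: otherwise the entry of `d * s + s * d = 1` at the point of `Unit` reads `0 = 1`. -/
theorem Fu.ne {σ : Finset ℕ} {z : Finset ℕ → ℤ} (h : Fu I σ z) : ∃ ρ ∈ st I σ, z ρ ≠ 0 := by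
  by_contra hc
  push Not at hc
  obtain ⟨s, hs⟩ := h.ctr
  have e := congrFun (congrFun hs (Sum.inl ())) (Sum.inl ())
  have e0 : ∀ τ : ↥(st I σ), z τ.1 = 0 := fun τ => hc τ.1 τ.2
  simp [cone, Matrix.mul_apply, Fintype.sum_sum_type, e0] at e

/-- Hint: a simplex `ρ ∈ I` of largest cardinality has `st I ρ = {ρ}`; `Fu.ne`. -/
theorem card_le (hI : I ⊆ L) (h : ∀ σ ∈ L, ∃ z, Fu I σ z) : ∀ τ ∈ I, τ.card ≤ 6 := by
  intro τ hτ
  obtain ⟨z, hz⟩ := h τ (hI hτ)
  obtain ⟨ρ, h1, h2⟩ := hz.ne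
  rw [← hz.card ρ h2]
  exact Finset.card_le_card (vori_mem.1 h1).2

/-- Hint: `rank_one`, `gr_Dz`. -/
theorem Fu.mult {σ : Finset ℕ} {z : Finset ℕ → ℤ} (h : Fu I σ z) (h6 : ∀ τ ∈ I, τ.card ≤ 6)
    {R : Type} [CommRing R] {y : Finset ℕ → R} (hy : Cyc I σ y) :
    ∃ a : R, ∀ τ ∈ st I σ, y τ = a * (z τ : R) := by
  obtain ⟨a, ha⟩ := rank_one (n := 6) (z := fun x : ↥(st I σ) => z x.1) (gr_Dz (st I σ))
    (fun x hx => by
      have := h.card _ hx
      simp only [cd]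
      exact_mod_cast this) h.ctr
    (fun x => by
      have := h6 _ (vori_mem.1 x.2).1
      simp only [cd]
      exact_mod_cast this) (y := fun x : ↥(st I σ) => y x.1)
    (fun x hx => by
      have := hy.1 _ x.2 hx
      simp only [cd]
      exact_mod_cast this)
    (fun w => by
      rw [← hy.2 w.1 w.2, ← Finset.sum_coe_sort (st I σ)]
      rfl)
  exact ⟨a, fun τ hτ => ha ⟨τ, hτ⟩⟩

/-- Restriction of a cycle. Hint: for `ρ ⊇ τ` the terms with `Dz υ ρ ≠ 0` have `υ ⊇ ρ`. -/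
theorem Cyc.res {σ τ : Finset ℕ} {R : Type} [CommRing R] {y : Finset ℕ → R} (hy : Cyc I σ y)
    (h : σ ⊆ τ) : Cyc I τ y := by
  refine ⟨fun υ hυ => hy.1 υ (vori_mono h hυ), fun ρ hρ => ?_⟩
  rw [vori_sum y h (vori_mem.1 hρ).2]
  exact hy.2 ρ (vori_mono h hρ)

/-- Codimension one, interior. Hint: every `ρ ∈ st I σ` with six vertices is `insert v σ`, and
`ε ρ = Dz ρ σ` is a sign (`Dz_erase`, `sg_mul_self`). If there is another such `ρ'`, the function
`ε ρ` at `ρ`, `- ε ρ'` at `ρ'`, zero elsewhere is a cycle, so a multiple of `z`, so `z ρ` is a unit.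
Otherwise the cycle condition at `σ` gives `z ρ = 0`, so `z = 0`, against `Fu.ne`. -/
theorem Fu.unit5 {σ : Finset ℕ} {z : Finset ℕ → ℤ} (h : Fu I σ z) (h6 : ∀ τ ∈ I, τ.card ≤ 6)
    (hσ : σ ∈ I) (h5 : σ.card = 5) : ∀ ρ ∈ st I σ, ρ.card = 6 → z ρ * z ρ = 1 := by
  intro ρ hρ hc
  have hσσ : σ ∈ st I σ := vori_mem.2 ⟨hσ, subset_rfl⟩
  have eps : ∀ υ ∈ st I σ, υ.card = 6 → Dz (· ≤ ·) υ σ * Dz (· ≤ ·) υ σ = 1 := fun υ hυ hυc =>
    vori_eps (vori_mem.1 hυ).2 (by omega)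
  have zero : ∀ υ : Finset ℕ, υ.card = 6 → ∀ w ∈ st I σ, w ≠ σ → Dz (· ≤ ·) υ w = 0 := by
    intro υ hυc w hw hne
    by_contra hd
    have := (vori_Dz hd).2
    exact hne (Finset.eq_of_subset_of_card_le (vori_mem.1 hw).2 (by omega)).symm
  by_cases hex : ∃ ρ' ∈ st I σ, ρ'.card = 6 ∧ ρ' ≠ ρ
  · obtain ⟨ρ', hρ', hc', hne⟩ := hex
    have hy : Cyc I σ (fun υ => (if υ = ρ then Dz (· ≤ ·) ρ σ else 0) -
        if υ = ρ' then Dz (· ≤ ·) ρ' σ else 0) := by
      refine ⟨fun υ _ hυ => ?_, fun w hw => ?_⟩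
      · by_cases h1 : υ = ρ
        · rw [h1, hc]
        · by_cases h2 : υ = ρ'
          · rw [h2, hc']
          · simp [h1, h2] at hυ
      · simp only [sub_mul, ite_mul, zero_mul, Finset.sum_sub_distrib, Finset.sum_ite_eq',
          if_pos hρ, if_pos hρ', Int.cast_id]
        by_cases hw' : w = σ
        · rw [hw', eps ρ hρ hc, eps ρ' hρ' hc', sub_self]
        · rw [zero ρ hc w hw hw', zero ρ' hc' w hw hw', mul_zero, mul_zero, sub_self]
    obtain ⟨a, ha⟩ := h.mult h6 hy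
    have e := ha ρ hρ
    simp only [if_true, if_neg hne.symm, sub_zero, Int.cast_id] at e
    refine vori_unit (a := a) ?_
    rw [← e]
    exact eps ρ hρ hc
  · push Not at hex
    exfalso
    obtain ⟨ρ', h1, h2⟩ := h.ne
    rw [hex ρ' h1 (h.card _ h2)] at h2
    have e := h.cyc σ hσσ
    rw [Finset.sum_eq_single_of_mem ρ hρ] at e
    · have e2 := eps ρ hρ hc
      rcases mul_eq_zero.1 e with h3 | h3
      · exact h2 h3
      · rw [h3] at e2
        norm_num at e2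
    · intro υ hυ hne
      have : z υ = 0 := by
        by_contra h3
        exact hne (hex υ hυ (h.card _ h3))
      rw [this, zero_mul]

/-- All coefficients are signs. Hint: for `ρ₀` let `T` be the set of `ρ ∈ st I σ` with six vertices
and `z ρ * z ρ = z ρ₀ * z ρ₀`. Its indicator is a cycle over `ZMod 2`: at `υ ∈ st I σ` with five
vertices, `z = a * z'` on `st I υ` for a fundamental cycle `z'` around `υ` (`Cyc.res`, `Fu.mult`)
whose coefficients are signs (`unit5`), so `T` contains all or none of the top simplices over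
`υ`, and in the first case the indicator is `z'` modulo two. So the indicator is `a * z` modulo
two with `a = 1` (look at `ρ₀`), so `T` is the set of `ρ` with `z ρ` odd for every `ρ₀`. Hence all
squares are equal to some `q * q` with `q` odd, and `z / q` is an integral cycle, a multiple of
`z`; so `q` is a unit. -/
theorem Fu.unit (hI : I ⊆ L) (hall : ∀ σ ∈ L, ∃ z, Fu I σ z) {σ : Finset ℕ} {z : Finset ℕ → ℤ}
    (h : Fu I σ z) : ∀ ρ ∈ st I σ, ρ.card = 6 → z ρ * z ρ = 1 := by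
  have h6 := card_le hI hall
  have z2 : ∀ x : ZMod 2, x * x = 1 → x = 1 := by decide
  have z3 : ∀ a x : ZMod 2, 1 = a * x → a = 1 ∧ x = 1 := by decide
  have key : ∀ ρ₀ ∈ st I σ, ρ₀.card = 6 → (z ρ₀ : ZMod 2) = 1 ∧ ∀ ρ ∈ st I σ,
      (z ρ : ZMod 2) = 1 → z ρ * z ρ = z ρ₀ * z ρ₀ := by
    intro ρ₀ h0 c0
    have hy : Cyc I σ (fun ρ => if ρ.card = 6 ∧ z ρ * z ρ = z ρ₀ * z ρ₀ then (1 : ZMod 2)
        else 0) := by
      refine ⟨fun υ _ hυ => ?_, fun w hw => ?_⟩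
      · by_contra hc
        exact hυ (if_neg fun hh => hc hh.1)
      · by_cases h5 : w.card = 5
        · have hwI := (vori_mem.1 hw).1
          obtain ⟨z', hz'⟩ := hall w (hI hwI)
          obtain ⟨a, ha⟩ := hz'.mult h6 ((vori_cyc h).res (vori_mem.1 hw).2)
          have hu := hz'.unit5 h6 hwI h5
          have hsq : ∀ υ ∈ st I w, υ.card = 6 → z υ * z υ = a * a := by
            intro υ hυ hc
            have e1 := ha υ hυ
            have e2 := hu υ hυ hc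
            rw [Int.cast_id] at e1
            rw [e1]
            linear_combination a * a * e2
          rw [← vori_sum _ (vori_mem.1 hw).2 subset_rfl]
          by_cases haa : a * a = z ρ₀ * z ρ₀
          · have e := congrArg (Int.cast : ℤ → ZMod 2)
              (hz'.cyc w (vori_mem.2 ⟨hwI, subset_rfl⟩))
            rw [Int.cast_sum, Int.cast_zero] at e
            refine Eq.trans (Finset.sum_congr rfl fun υ hυ => ?_) e
            rw [Int.cast_mul]
            congr 1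
            by_cases hc : υ.card = 6
            · rw [if_pos ⟨hc, (hsq υ hυ hc).trans haa⟩]
              refine (z2 _ ?_).symm
              rw [← Int.cast_mul, hu υ hυ hc, Int.cast_one]
            · rw [if_neg fun hh => hc hh.1]
              have : z' υ = 0 := by
                by_contra h3
                exact hc (hz'.card _ h3)
              rw [this, Int.cast_zero]
          · refine Finset.sum_eq_zero fun υ hυ => ?_
            rw [if_neg fun hh => haa ((hsq υ hυ hh.1).symm.trans hh.2), zero_mul]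
        · refine Finset.sum_eq_zero fun υ _ => ?_
          beta_reduce
          by_cases hc : υ.card = 6
          · have : Dz (· ≤ ·) υ w = 0 := by
              by_contra hd
              have := (vori_Dz hd).2
              omega
            rw [this, Int.cast_zero, mul_zero]
          · rw [if_neg fun hh => hc hh.1, zero_mul]
    obtain ⟨a, ha⟩ := h.mult h6 hy
    have e0 := ha ρ₀ h0
    rw [if_pos ⟨c0, rfl⟩] at e0
    obtain ⟨a1, o0⟩ := z3 _ _ e0
    refine ⟨o0, fun ρ hρ ho => ?_⟩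
    have e := ha ρ hρ
    rw [a1, ho, mul_one] at e
    by_contra hc
    rw [if_neg fun hh => hc hh.2] at e
    exact zero_ne_one e
  intro ρ₀ h0 c0
  obtain ⟨o0, hk⟩ := key ρ₀ h0 c0
  have hq : z ρ₀ ≠ 0 := by
    intro e
    rw [e, Int.cast_zero] at o0
    exact zero_ne_one o0
  have hd : ∀ τ ∈ st I σ, z ρ₀ * (z τ / z ρ₀) = z τ := by
    intro τ hτ
    refine Int.mul_ediv_cancel' ?_
    by_cases hz : z τ = 0
    · rw [hz]
      exact dvd_zero _
    · rcases mul_self_eq_mul_self_iff.1 (hk τ hτ (key τ hτ (h.card _ hz)).1) with e | e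
      · rw [e]
      · rw [e]
        exact (dvd_refl _).neg_right
  have hy : Cyc I σ (fun τ => z τ / z ρ₀) := by
    refine ⟨fun τ hτ hne => h.card τ fun e => hne ?_, fun w hw => ?_⟩
    · simp only [e, Int.zero_ediv]
    · refine mul_left_cancel₀ hq ?_
      rw [mul_zero, Finset.mul_sum, ← h.cyc w hw]
      refine Finset.sum_congr rfl fun τ hτ => ?_
      rw [← mul_assoc, hd τ hτ, Int.cast_id]
  obtain ⟨a, ha⟩ := h.mult h6 hy
  have e := ha ρ₀ h0
  simp only [Int.ediv_self hq, Int.cast_id] at e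
  refine vori_unit (a := a) ?_
  rw [← e, mul_one]

/-- Hint: choose `z σ` (zero outside `L`) and for `τ ∈ L` a simplex `ρ τ ∈ st I τ` with
`z τ (ρ τ) ≠ 0`; put `δ σ τ = z σ (ρ τ) * z τ (ρ τ)`. -/
theorem exists_ori (hI : I ⊆ L) (h : ∀ σ ∈ L, Sph 6 (st I σ)) : ∃ z δ, Ori L I z δ := by
  have hall : ∀ σ ∈ L, ∃ z, Fu I σ z := fun σ hσ => (h σ hσ).fu
  have h6 := card_le hI hall
  have hall' : ∀ σ, ∃ z : Finset ℕ → ℤ, (∀ τ, z τ ≠ 0 → τ.card = 6) ∧ (σ ∈ L → Fu I σ z) := by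
    intro σ
    by_cases hσ : σ ∈ L
    · obtain ⟨z, hz⟩ := hall σ hσ
      exact ⟨z, hz.card, fun _ => hz⟩
    · exact ⟨0, fun _ hh => absurd rfl hh, fun hh => absurd hh hσ⟩
  choose z hc hz using hall'
  have hr : ∀ τ ∈ L, ∃ ρ ∈ st I τ, ρ.card = 6 := fun τ hτ => by
    obtain ⟨ρ, h1, h2⟩ := (hz τ hτ).ne
    exact ⟨ρ, h1, hc τ ρ h2⟩
  choose! r hr1 hr2 using hr
  have res : ∀ σ ∈ L, ∀ τ ∈ L, σ ⊆ τ → ∀ ρ ∈ st I τ, z σ ρ = z σ (r τ) * z τ (r τ) * z τ ρ := by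
    intro σ hσ τ hτ hs ρ hρ
    obtain ⟨a, ha⟩ := (hz τ hτ).mult h6 ((vori_cyc (hz σ hσ)).res hs)
    have e1 := ha ρ hρ
    have e2 := ha _ (hr1 τ hτ)
    have e3 := (hz τ hτ).unit hI hall _ (hr1 τ hτ) (hr2 τ hτ)
    rw [Int.cast_id] at e1 e2
    rw [e1, e2]
    linear_combination (-(a * z τ ρ)) * e3
  refine ⟨z, fun σ τ => z σ (r τ) * z τ (r τ), hc, fun σ hσ => (hz σ hσ).cyc,
    fun σ hσ => (hz σ hσ).ctr, res, ?_, ?_⟩
  · intro σ hσ τ hτ hs
    have e1 := (hz σ hσ).unit hI hall _ (vori_mono hs (hr1 τ hτ)) (hr2 τ hτ)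
    have e3 := (hz τ hτ).unit hI hall _ (hr1 τ hτ) (hr2 τ hτ)
    linear_combination z τ (r τ) * z τ (r τ) * e1 + e3
  · intro σ hσ τ hτ υ hυ h1 h2
    have e := res σ hσ τ hτ h1 _ (vori_mono h2 (hr1 υ hυ))
    rw [e]
    ring

end Pool.Agent.Lib.MP_5ceaf9_gt.V
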