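import Pool.Agent.Lib.MP_5ceaf9_gt.VLoc
import Pool.Agent.Lib.MP_5ceaf9_gt.VOri
import Pool.Agent.Lib.MP_5ceaf9_gt.VDb
import Pool.Agent.Lib.MP_5ceaf9_gt.VDc
import Pool.Agent.Lib.MP_5ceaf9_gt.VChart

/-! Duality for an arbitrary triangulation of a smooth h-cobordism. -/

open scoped Manifold ContDiff

noncomputable section

namespace Pool.Agent.Lib.MP_5ceaf9_gt.V

open Classical Function

theorem G2.transpose {ι : Type} [Fintype ι] [DecidableEq ι] {p : ι → Bool} {d : Matrix ι ι F25}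
    (h : G2 p d) : G2 (fun x => !p x) d.transpose := by
  obtain ⟨hd, ht⟩ := g2_iff.1 h
  have hc : Ctr d := h.2.1 (by norm_num)
  have h1 := tor_transpose hd hc
  rw [ht, mul_one] at h1
  refine Gd.not (g2_iff.2 ⟨⟨?_, fun x y h0 => (hd.2 y x h0).symm⟩, h1⟩)
  rw [← Matrix.transpose_mul, hd.1, Matrix.transpose_zero]

theorem gp_dual {L P0 P1 I : Finset (Finset ℕ)} (T : Tri L P0 P1)
    (hI : ∀ τ, τ ∈ I ↔ τ ∈ L ∧ τ ∉ P0 ∧ τ ∉ P1) (h1 : ∀ σ ∈ L, Sph 6 (st I σ))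
    (h0 : ∀ σ ∈ P0, Ctr (rs (st L σ) (st L σ) (Dz (· ≤ ·)))) (g0 : GP (· ⊆ ·) 2 P0 L)
    (g1 : GP (· ⊆ ·) 1 P1 L) : GP (· ⊆ ·) 2 P1 L := by
  obtain ⟨z, δ, o⟩ := exists_ori (fun τ hτ => ((hI τ).1 hτ).1) h1
  refine gp_of_cells T.cL T.d1 g1 fun χ hχ => ?_
  have a := (cells_of_gp T.cL T.d0 g0 (chi_dch hχ o)).transpose
  have b := (gd_iff_of_cone (cm_mZ T hI hχ o) (g2_mZ T hI hχ o h0)).1 a
  exact (gd_iff_of_cone (cm_mE T hχ) (g2_mE T hχ)).2 b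

theorem thm_dual (zz : ZZ) {A B : Closed4} (h : HCob A B) (L : SC) (t : L.space ≃ₜ h.W) :
    ∃ (L0 L1 : SC) (s0 : L0.space ≃ₜ A.M) (s1 : L1.space ≃ₜ B.M), L0.faces ⊆ L.faces ∧
      L1.faces ⊆ L.faces ∧ (∀ x, ((readIn s0 t h.i x : L.space) : ℕ → ℝ) = x) ∧
      (∀ x, ((readIn s1 t h.j x : L.space) : ℕ → ℝ) = x) ∧
      (GP (· ⊆ ·) 2 L0.faces L.faces → GP (· ⊆ ·) 1 L1.faces L.faces →
        GP (· ⊆ ·) 2 L1.faces L.faces) ∧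
      (GP (· ⊆ ·) 2 L1.faces L.faces → GP (· ⊆ ·) 1 L0.faces L.faces →
        GP (· ⊆ ·) 2 L0.faces L.faces) := by
  have cL := sc_cx L
  have hint : ∀ σ (x : L.space), Supp x.1 σ → t x ∉ (𝓡∂ 5).boundary h.W →
      Sph 6 (st L.faces σ) := fun σ x hx hb => by
    obtain ⟨f, hf⟩ := he_int h t hx hb
    exact sph_of_he zz hx.mem hf
  have hbd : ∀ σ (x : L.space), Supp x.1 σ → t x ∈ (𝓡∂ 5).boundary h.W →
      Ctr (rs (st L.faces σ) (st L.faces σ) (Dz (· ≤ ·))) := fun σ x hx hb => by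
    obtain ⟨f, hf⟩ := he_bd h t hx hb
    exact ctr_of_he zz hx.mem hf
  have c0 : IsClosed (t ⁻¹' Set.range h.i) :=
    (isCompact_range h.i.continuous).isClosed.preimage t.continuous
  have c1 : IsClosed (t ⁻¹' Set.range h.j) :=
    (isCompact_range h.j.continuous).isClosed.preimage t.continuous
  have dj : Disjoint (t ⁻¹' Set.range h.i) (t ⁻¹' Set.range h.j) := h.disj.preimage t
  have un : ∀ x : L.space, x ∈ t ⁻¹' Set.range h.i ∪ t ⁻¹' Set.range h.j ↔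
      t x ∈ (𝓡∂ 5).boundary h.W := fun x => by
    rw [← h.bdry]
    rfl
  have ht : ∀ σ (x y : L.space), Supp x.1 σ → Supp y.1 σ →
      x ∈ t ⁻¹' Set.range h.i ∪ t ⁻¹' Set.range h.j →
      y ∈ t ⁻¹' Set.range h.i ∪ t ⁻¹' Set.range h.j := fun σ x y hx hy hb => by
    rw [un] at hb ⊢
    by_contra hn
    exact (hint σ y hy hn).not_ctr (hbd σ x hx hb)
  obtain ⟨L0, k0, m0⟩ := sub_of_closed c0 c1 dj ht
  obtain ⟨L1, k1, m1⟩ := sub_of_closed c1 c0 dj.symm fun σ x y hx hy hb => by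
    rw [Set.union_comm] at hb ⊢
    exact ht σ x y hx hy hb
  obtain ⟨s0, e0⟩ := exists_homeo h.hi.isEmbedding t k0 fun x => by
    obtain ⟨σ, -, hx⟩ := exists_supp x
    exact (mem_space_iff k0 hx).trans (m0 σ x hx)
  obtain ⟨s1, e1⟩ := exists_homeo h.hj.isEmbedding t k1 fun x => by
    obtain ⟨σ, -, hx⟩ := exists_supp x
    exact (mem_space_iff k1 hx).trans (m1 σ x hx)
  have d0 : ∀ σ ∈ L0.faces, ∀ ρ ∈ L.faces, ρ ⊆ σ → ρ ∈ L0.faces :=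
    fun σ hσ ρ hρ hs => L0.down σ hσ ρ hs (L.nonempty ρ hρ)
  have d1 : ∀ σ ∈ L1.faces, ∀ ρ ∈ L.faces, ρ ⊆ σ → ρ ∈ L1.faces :=
    fun σ hσ ρ hρ hs => L1.down σ hσ ρ hs (L.nonempty ρ hρ)
  have dd : ∀ σ ∈ L0.faces, σ ∉ L1.faces := fun σ hσ hσ' => by
    obtain ⟨x, hx⟩ := exists_point (k0 hσ)
    exact Set.disjoint_left.1 dj ((m0 σ x hx).1 hσ) ((m1 σ x hx).1 hσ')
  have b0 : ∀ σ ∈ L0.faces, Ctr (rs (st L.faces σ) (st L.faces σ) (Dz (· ≤ ·))) := fun σ hσ => by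
    obtain ⟨x, hx⟩ := exists_point (k0 hσ)
    exact hbd σ x hx ((un x).1 (Or.inl ((m0 σ x hx).1 hσ)))
  have b1 : ∀ σ ∈ L1.faces, Ctr (rs (st L.faces σ) (st L.faces σ) (Dz (· ≤ ·))) := fun σ hσ => by
    obtain ⟨x, hx⟩ := exists_point (k1 hσ)
    exact hbd σ x hx ((un x).1 (Or.inr ((m1 σ x hx).1 hσ)))
  let I := L.faces.filter (fun τ => τ ∉ L0.faces ∧ τ ∉ L1.faces)
  have hI : ∀ τ, τ ∈ I ↔ τ ∈ L.faces ∧ τ ∉ L0.faces ∧ τ ∉ L1.faces := fun τ => Finset.mem_filter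
  have hs : ∀ σ ∈ L.faces, Sph 6 (st I σ) := fun σ hσ => by
    by_cases a0 : σ ∈ L0.faces
    · obtain ⟨f, hf⟩ := he_closed A s0 a0
      refine sph_rel cL k0 d0 hσ (fun τ => ?_) (b0 σ a0) (sph_of_he zz a0 hf)
      simp only [st, Finset.mem_filter, hI]
      exact ⟨fun e => ⟨⟨e.1.1, e.2⟩, e.1.2.1⟩,
        fun e => ⟨⟨e.1.1, e.2, fun e' => dd σ a0 (d1 τ e' σ hσ e.1.2)⟩, e.1.2⟩⟩
    by_cases a1 : σ ∈ L1.faces
    · obtain ⟨f, hf⟩ := he_closed B s1 a1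
      refine sph_rel cL k1 d1 hσ (fun τ => ?_) (b1 σ a1) (sph_of_he zz a1 hf)
      simp only [st, Finset.mem_filter, hI]
      exact ⟨fun e => ⟨⟨e.1.1, e.2⟩, e.1.2.2⟩,
        fun e => ⟨⟨e.1.1, fun e' => a0 (d0 τ e' σ hσ e.1.2), e.2⟩, e.1.2⟩⟩
    · obtain ⟨x, hx⟩ := exists_point hσ
      have e : st I σ = st L.faces σ := by
        ext τ
        simp only [st, Finset.mem_filter, hI]
        exact ⟨fun e => ⟨e.1.1, e.2⟩, fun e => ⟨⟨e.1, fun e' => a0 (d0 τ e' σ hσ e.2),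
          fun e' => a1 (d1 τ e' σ hσ e.2)⟩, e.2⟩⟩
      rw [e]
      refine hint σ x hx fun hb => ?_
      rcases (un x).2 hb with hb | hb
      · exact a0 ((m0 σ x hx).2 hb)
      · exact a1 ((m1 σ x hx).2 hb)
  exact ⟨L0, L1, s0, s1, k0, k1, e0, e1, gp_dual ⟨cL, k0, k1, d0, d1, dd⟩ hI hs b0,
    gp_dual ⟨cL, k1, k0, d1, d0, fun σ hσ hσ' => dd σ hσ' hσ⟩
      (fun τ => (hI τ).trans ⟨fun e => ⟨e.1, e.2.2, e.2.1⟩, fun e => ⟨e.1, e.2.2, e.2.1⟩⟩) hs b1⟩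

end Pool.Agent.Lib.MP_5ceaf9_gt.V
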