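import Pool.Agent.Lib.MP_5ceaf9_gt.IfAB
import Pool.Agent.Lib.MP_5ceaf9_gt.IfC
import Pool.Agent.Lib.MP_5ceaf9_gt.IfG
import Pool.Agent.Lib.MP_5ceaf9_gt.TE
import Pool.Agent.Lib.MP_5ceaf9_gt.TExp
import Pool.Agent.Lib.MP_5ceaf9_gt.TChap
import Pool.Agent.Lib.MP_5ceaf9_gt.TKL
import Pool.Agent.Lib.MP_5ceaf9_gt.VMain

/-! Assembly: no triangulated h-cobordism between the two manifolds has a simple first end. -/

noncomputable section

namespace Pool.Agent.Lib.MP_5ceaf9_gt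

open Classical Function

/-- A finite set has an injective labelling by natural numbers. -/
theorem tmain_lab {α : Type} (A : Finset α) : ∃ ℓ : α → ℕ, Set.InjOn ℓ A := by
  refine ⟨fun a => if ha : a ∈ A then (A.equivFin ⟨a, ha⟩ : ℕ) else 0, fun a ha b hb e => ?_⟩
  have ha' : a ∈ A := ha
  have hb' : b ∈ A := hb
  simp only [dif_pos ha', dif_pos hb'] at e
  exact congrArg Subtype.val (A.equivFin.injective (Fin.ext e))

theorem tmain_he {K L : Finset (Lat 5)} (h : CHyp K L) :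
    IsHE (ContinuousMap.inclusion (vq_mono η5 h.sub)) :=
  thmC η5 h.sub h.uK h.uL h.iK h.iL h.fL h.cK h.cL h.e1 h.e2 h.h2

theorem tmain_tri {K L : Finset (Lat 5)} (h : CHyp K L) :
    ∃ T : SC, Nonempty (T.space ≃ₜ vq η5 K) ∧
      (PDK T ↔ PD (lq η5) (OC (lq η5) (K.image (pq η5)))) ∧
      (Sp (lq η5) (K.image (pq η5)) 1 → ThinS T) := by
  obtain ⟨ℓ, hi⟩ := tmain_lab (K.image (pq η5))
  have po := pon_lq η5 (K.image (pq η5))
  refine ⟨labK po ℓ, thmT η5 h.uK h.iK (fun a ha => h.fL a (h.sub ha)) ℓ hi _ fun ρ => ?_,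
    pdk_lab po hi, thinS_lab po hi⟩
  refine Finset.mem_image.trans ⟨?_, ?_⟩
  · rintro ⟨σ, hσ, rfl⟩
    obtain ⟨h1, h2, h3⟩ := mem_OC.1 hσ
    exact ⟨σ, h1, h2, h3, rfl⟩
  · rintro ⟨σ, h1, h2, h3, rfl⟩
    exact ⟨σ, mem_OC.2 ⟨h1, h2, h3⟩, rfl⟩

theorem tmain_sp {S B : Finset (Lat 5)} (d : DnC S) (i : Invt η5 S) (f : Free η5 S)
    (dim : ∀ a ∈ S, odE a ≤ 2) (hB : ∀ e, e ∈ B ↔ cw a1 e ∈ S ∧ cw b1 e ∉ S) :
    Sp (lq η5) (B.image (pq η5)) 1 := by
  have e : B = NN S \ UU S := Finset.ext fun e => by rw [hB, Finset.mem_sdiff, mem_NN, mem_UU]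
  rw [e]
  refine DD.sp d i f dim (gp_link0 η5 (upC_NN d) (invt_NN i) (free_NN f) Finset.sdiff_subset ?_)
  intro a ha hb
  exact three_le_dimE dim (by_contra fun h => hb (Finset.mem_sdiff.2 ⟨ha, h⟩))

theorem tmain_pair : ∃ A B : Closed4, ConnectedSpace A.M ∧ Nonempty (HCob A B) ∧ ∃ K0 K1 : SC,
    Nonempty (K0.space ≃ₜ A.M) ∧ Nonempty (K1.space ≃ₜ B.M) ∧ PDK K0 ∧ ¬ PDK K1 ∧ ThinS K0 := by
  obtain ⟨α, β, _, _, _, _, r, r', Y, X, kY, kX, f, ω, hG⟩ := thmG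
  obtain ⟨S0, S1, L, B0, B1, d0, d1, i0, i1, f1, deep, hL, hB0, hB1, c0, c1, -, p0, p1, f0, dim⟩ :=
    thmE2 hG
  obtain ⟨A, B, hc, ⟨a⟩, ⟨b⟩⟩ :=
    thmAB d0 d1 i0 i1 f1 deep hL hB0 hB1 c0.sub c1.sub (tmain_he c0) (tmain_he c1)
  obtain ⟨K0, ⟨t0⟩, q0, th⟩ := tmain_tri c0
  obtain ⟨K1, ⟨t1⟩, q1, -⟩ := tmain_tri c1
  have := OC.pathConnected_vq c0.cK
  exact ⟨A, B, a.surjective.connectedSpace a.continuous, hc, K0, K1, ⟨t0.trans a⟩, ⟨t1.trans b⟩,
    q0.2 p0, fun h => p1 (q1.1 h), th (tmain_sp d0 i0 f0 dim hB0)⟩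

theorem isHE_readIn {X Y : Type} [TopologicalSpace X] [TopologicalSpace Y] {K L : SC}
    (s : K.space ≃ₜ X) (t : L.space ≃ₜ Y) {f : C(X, Y)} (h : IsHE f) : IsHE (readIn s t f) :=
  ((isHE_homeo s).comp' h).comp' (isHE_homeo t.symm)

theorem tmain_zz : V.ZZ := by
  intro K L f hf
  obtain ⟨K', β, τ, h, -, m⟩ := hf.good
  exact ⟨K', τ, _, h.me.mono one_le_two, m⟩

theorem ThinS.good_readIn {X Y : Type} [TopologicalSpace X] [TopologicalSpace Y] {K K' L : SC}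
    (h : ThinS K') (s : K.space ≃ₜ X) (s' : K'.space ≃ₜ X) (t : L.space ≃ₜ Y) {f : C(X, Y)}
    (g : GoodM 2 (readIn s t f)) : GoodM 2 (readIn s' t f) := by
  refine GoodM.right le_rfl (s.trans s'.symm).continuous (readIn s' t f).continuous
    (h.good (s.trans s'.symm)) ?_
  have e : (readIn s' t f) ∘ (s.trans s'.symm) = readIn s t f := by
    funext x
    simp [readIn]
  rwa [e]

/-- Two smoothly h-cobordant closed smooth four-manifolds such that in no h-cobordism between them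
an end is an equivalence of level two, in any triangulations. -/
theorem tmain_good : ∃ A B : Closed4, ConnectedSpace A.M ∧ Nonempty (HCob A B) ∧
    ∀ (h : HCob A B) (K L : SC) (t : L.space ≃ₜ h.W),
      (∀ s : K.space ≃ₜ A.M, ¬ GoodM 2 (readIn s t h.i)) ∧
      ∀ s : K.space ≃ₜ B.M, ¬ GoodM 2 (readIn s t h.j) := by
  obtain ⟨A, B, cA, hc, K0, K1, ⟨t0⟩, ⟨t1⟩, p0, p1, th⟩ := tmain_pair
  refine ⟨A, B, cA, hc, fun h K L t => ?_⟩
  obtain ⟨L0, L1, s0, s1, i0, i1, e0, e1, du, du'⟩ := V.thm_dual tmain_zz h L t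
  have thL0 : ThinS L0 := th.pull (s0.trans t0.symm).continuous
    ((isHE_homeo (s0.trans t0.symm)).good.mono zero_le_one)
  obtain ⟨g, hg⟩ := (isHE_readIn t0 t h.hei).inv
  have thK1 : ThinS K1 := th.pull (g.comp (readIn t1 t h.j)).continuous
    (((isHE_readIn t1 t h.hej).comp' hg).good.mono zero_le_one)
  have thL1 : ThinS L1 := thK1.pull (s1.trans t1.symm).continuous
    ((isHE_homeo (s1.trans t1.symm)).good.mono zero_le_one)
  have r0 : GP sbs 1 L0.faces L.faces :=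
    (goodM_incl one_le_two i0 e0).1 (isHE_readIn s0 t h.hei).good
  have r1 : GP sbs 1 L1.faces L.faces :=
    (goodM_incl one_le_two i1 e1).1 (isHE_readIn s1 t h.hej).good
  have key : GP sbs 2 L0.faces L.faces → GP sbs 2 L1.faces L.faces → False := fun q0 q2 => by
    have a0 : PDK L0 := (th.good (s0.trans t0.symm)).pdk.2 p0
    have a1 : PDK L := q0.2.2.pd_iff.1 a0
    have a2 : PDK L1 := q2.2.2.pd_iff.2 a1
    exact p1 ((thK1.good (s1.trans t1.symm)).pdk.1 a2)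
  refine ⟨fun s hs => ?_, fun s hs => ?_⟩
  · have q0 := (goodM_incl le_rfl i0 e0).1 (thL0.good_readIn s s0 t hs)
    exact key q0 (du q0 r1)
  · have q1 := (goodM_incl le_rfl i1 e1).1 (thL1.good_readIn s s1 t hs)
    exact key (du' q1 r0) q1

/-- In no h-cobordism between the two manifolds an end is a simple homotopy equivalence, in any
triangulations. -/
theorem tmain : ∃ A B : Closed4, ConnectedSpace A.M ∧ Nonempty (HCob A B) ∧
    ∀ (h : HCob A B) (K L : SC) (t : L.space ≃ₜ h.W),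
      (∀ s : K.space ≃ₜ A.M, ¬ IsSimple K L (readIn s t h.i)) ∧
      ∀ s : K.space ≃ₜ B.M, ¬ IsSimple K L (readIn s t h.j) := by
  obtain ⟨A, B, cA, hc, H⟩ := tmain_good
  exact ⟨A, B, cA, hc, fun h K L t =>
    ⟨fun s hs => (H h K L t).1 s hs.good, fun s hs => (H h K L t).2 s hs.good⟩⟩

end Pool.Agent.Lib.MP_5ceaf9_gt
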