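import Pool.Agent.Lib.MP_5ceaf9_gt.TSd

/-! Fine subdivisions. -/

noncomputable section

namespace Pool.Agent.Lib.MP_5ceaf9_gt

open Classical Function

variable {K K' L : SC}

theorem tmesh_avg {ι : Type} {s : Finset ι} {w f : ι → ℝ} {c δ : ℝ} (hw : ∀ i ∈ s, 0 ≤ w i)
    (h1 : ∑ i ∈ s, w i = 1) (hf : ∀ i ∈ s, 0 < w i → |f i - c| ≤ δ) :
    |∑ i ∈ s, w i * f i - c| ≤ δ := by
  have e : ∑ i ∈ s, w i * f i - c = ∑ i ∈ s, w i * (f i - c) := by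
    simp only [mul_sub, Finset.sum_sub_distrib, ← Finset.sum_mul, h1, one_mul]
  rw [e]
  refine (Finset.abs_sum_le_sum_abs _ _).trans ?_
  calc ∑ i ∈ s, |w i * (f i - c)| ≤ ∑ i ∈ s, w i * δ := Finset.sum_le_sum fun i hi => by
        rw [abs_mul, abs_of_nonneg (hw i hi)]
        rcases (hw i hi).eq_or_lt with h | h
        · rw [← h, zero_mul, zero_mul]
        · exact mul_le_mul_of_nonneg_left (hf i hi h) h.le
    _ = δ := by rw [← Finset.sum_mul, h1, one_mul]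

/-- A vertex is close to the centroid. -/
theorem tmesh_cen {σ : Finset ℕ} {f : ℕ → ℝ} {δ : ℝ} {n : ℕ} (hn : σ.card ≤ n)
    (hf : ∀ u ∈ σ, ∀ u' ∈ σ, |f u - f u'| ≤ δ) {u : ℕ} (hu : u ∈ σ) :
    |f u - ∑ a ∈ σ, (σ.card : ℝ)⁻¹ * f a| ≤ (1 - (n : ℝ)⁻¹) * δ := by
  have hc : (0 : ℝ) < σ.card := Nat.cast_pos.2 (Finset.card_pos.2 ⟨u, hu⟩)
  have hδ : 0 ≤ δ := (abs_nonneg _).trans (hf u hu u hu)
  have e : f u - ∑ a ∈ σ, (σ.card : ℝ)⁻¹ * f a =
      (σ.card : ℝ)⁻¹ * ∑ a ∈ σ.erase u, (f u - f a) := by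
    rw [Finset.sum_erase σ (sub_self (f u)), Finset.sum_sub_distrib, Finset.sum_const,
      nsmul_eq_mul, ← Finset.mul_sum, mul_sub, inv_mul_cancel_left₀ hc.ne']
  have h1 : |∑ a ∈ σ.erase u, (f u - f a)| ≤ ((σ.card : ℝ) - 1) * δ := by
    refine (Finset.abs_sum_le_sum_abs _ _).trans ((Finset.sum_le_card_nsmul _ _ δ
      fun a ha => hf u hu a (Finset.mem_of_mem_erase ha)).trans (le_of_eq ?_))
    rw [Finset.card_erase_of_mem hu, nsmul_eq_mul, Nat.cast_pred (Finset.card_pos.2 ⟨u, hu⟩)]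
  have h2 : (n : ℝ)⁻¹ ≤ (σ.card : ℝ)⁻¹ := inv_anti₀ hc (Nat.cast_le.2 hn)
  rw [e, abs_mul, abs_of_pos (inv_pos.2 hc)]
  calc (σ.card : ℝ)⁻¹ * |∑ a ∈ σ.erase u, (f u - f a)|
      ≤ (σ.card : ℝ)⁻¹ * (((σ.card : ℝ) - 1) * δ) :=
        mul_le_mul_of_nonneg_left h1 (inv_pos.2 hc).le
    _ = (1 - (σ.card : ℝ)⁻¹) * δ := by field_simp
    _ ≤ (1 - (n : ℝ)⁻¹) * δ := mul_le_mul_of_nonneg_right (by linarith) hδ

/-- The centroids of nested simplices are close. -/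
theorem tmesh_cen2 {σ σ' : Finset ℕ} {f : ℕ → ℝ} {δ : ℝ} {n : ℕ} (hn : σ'.card ≤ n)
    (hf : ∀ u ∈ σ', ∀ u' ∈ σ', |f u - f u'| ≤ δ) (h : σ ⊆ σ') (hσ : σ.Nonempty) :
    |∑ a ∈ σ, (σ.card : ℝ)⁻¹ * f a - ∑ a ∈ σ', (σ'.card : ℝ)⁻¹ * f a| ≤ (1 - (n : ℝ)⁻¹) * δ := by
  have hc : (0 : ℝ) < σ.card := Nat.cast_pos.2 (Finset.card_pos.2 hσ)
  refine tmesh_avg (fun _ _ => (inv_pos.2 hc).le) ?_ fun u hu _ => tmesh_cen hn hf (h hu)
  rw [Finset.sum_const, nsmul_eq_mul, mul_inv_cancel₀ hc.ne']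

theorem tmesh_vts (K : SC) : vts (sdK K) = K.faces.image enc := by
  ext a
  constructor
  · intro h
    obtain ⟨ρ, hρ, ha⟩ := Finset.mem_biUnion.1 h
    obtain ⟨c, hc, rfl⟩ := Finset.mem_image.1 hρ
    exact Finset.image_subset_image (mem_OC.1 hc).1 ha
  · intro h
    obtain ⟨σ, hσ, rfl⟩ := Finset.mem_image.1 h
    exact mem_vts.2 (Finset.mem_image.2
      ⟨{σ}, (single_mem_OC (pon_sbs _)).2 hσ, Finset.image_singleton _ _⟩)

theorem tmesh_iter (K : SC) {n : ℕ} (hn : ∀ σ ∈ K.faces, σ.card ≤ n) (k : ℕ) :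
    ∃ (K' : SC) (β : K'.space ≃ₜ K.space) (τ : Finset ℕ → Finset ℕ) (π : ℕ → ℕ → ℝ),
      Sbd K' K β τ ∧ (∀ x v, (β x).1 v = ∑ u ∈ vts K', x.1 u * π u v) ∧
      ∀ σ ∈ K'.faces, ∀ v, ∀ u ∈ σ, ∀ u' ∈ σ, |π u v - π u' v| ≤ (1 - (n : ℝ)⁻¹) ^ k := by
  induction k with
  | zero =>
    refine ⟨K, Homeomorph.refl _, id, fun u v => if u = v then 1 else 0, Sbd.refl K,
      fun x v => ?_, fun σ _ v u _ u' _ => ?_⟩
    · simp only [mul_ite, mul_one, mul_zero, Finset.sum_ite_eq']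
      split_ifs with h
      · rfl
      · exact zero_of_not_spp x fun h' => h (sub_vts (spp_mem x) h')
    · dsimp only
      split_ifs <;> simp
  | succ k ih =>
    obtain ⟨K', β, τ, π, hs, h1, h2⟩ := ih
    obtain ⟨β', h3, hs'⟩ := exists_bar K'
    refine ⟨sdK K', β'.trans β, τ ∘ topK,
      fun a v => ∑ u ∈ dec a, ((dec a).card : ℝ)⁻¹ * π u v, hs'.trans hs, fun x v => ?_,
      fun ρ hρ v a ha a' ha' => ?_⟩
    · rw [Homeomorph.trans_apply, h1, h3, tmesh_vts,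
        Finset.sum_image fun _ _ _ _ h => enc_inj h]
      simp only [barF, Finset.sum_mul, dec_enc]
      rw [Finset.sum_comm]
      refine Finset.sum_congr rfl fun σ hσ => ?_
      simp only [mul_assoc, ← Finset.mul_sum, ite_mul, zero_mul]
      rw [Finset.sum_ite_mem, Finset.inter_eq_right.2 (sub_vts hσ), ← Finset.mul_sum]
    · obtain ⟨c, hc, rfl⟩ := Finset.mem_image.1 hρ
      obtain ⟨σ, hσ, rfl⟩ := Finset.mem_image.1 ha
      obtain ⟨σ', hσ', rfl⟩ := Finset.mem_image.1 ha'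
      obtain ⟨h4, -, h5⟩ := mem_OC.1 hc
      simp only [dec_enc]
      rw [pow_succ']
      rcases h5 σ hσ σ' hσ' with h | h
      · exact tmesh_cen2 (hs.dim n hn _ (h4 hσ')) (h2 _ (h4 hσ') v) h (K'.nonempty _ (h4 hσ))
      · rw [abs_sub_comm]
        exact tmesh_cen2 (hs.dim n hn _ (h4 hσ)) (h2 _ (h4 hσ) v) h (K'.nonempty _ (h4 hσ'))

theorem tmesh_unif (K : SC) {V : Set (K.space × K.space)} (hV : V ∈ uniformity K.space) :
    ∃ ε : ℝ, 0 < ε ∧ ∀ x y : K.space, (∀ v, |x.1 v - y.1 v| ≤ ε) → (x, y) ∈ V := by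
  let S : ℝ → Set (K.space × K.space) := fun ε => {q | ∀ v, |q.1.1 v - q.2.1 v| ≤ ε}
  have hb : (⨅ (ε : ℝ) (_ : 0 < ε), Filter.principal (S ε)).HasBasis (fun ε => 0 < ε) S :=
    Filter.hasBasis_biInf_principal' (fun a ha b hb => ⟨min a b, lt_min ha hb,
      fun q h v => (h v).trans (min_le_left _ _), fun q h v => (h v).trans (min_le_right _ _)⟩)
      ⟨1, one_pos⟩
  have hle : (⨅ (ε : ℝ) (_ : 0 < ε), Filter.principal (S ε)) ≤ uniformity K.space := by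
    rw [uniformity_subtype, Pi.uniformity, Filter.comap_iInf]
    refine le_iInf fun v => ?_
    rw [Filter.comap_comap]
    refine (hb.le_basis_iff (Metric.uniformity_basis_dist_le.comap _)).2 fun ε hε => ?_
    exact ⟨ε, hε, fun q h => h v⟩
  obtain ⟨ε, hε, h⟩ := hb.mem_iff.1 (hle hV)
  exact ⟨ε, hε, fun x y hxy => h hxy⟩

theorem tmesh_pos (x : K.space) : ∃ v, 0 < x.1 v :=
  (K.nonempty _ (spp_mem x)).imp fun _ h => mem_spp.1 h

/-- Induct on the number of subdivisions with the statement: `β` is affine on simplices,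
`(β x).1 v = ∑ u ∈ vts K', x.1 u * π u v`, and `|π u v - π u' v| ≤ ε` for `u`, `u'` in a common
simplex. One barycentric subdivision replaces `π` by the centroids and multiplies `ε` by
`1 - 1 / n`, where `n` bounds the cardinality of the simplices. -/
theorem exists_mesh (K : SC) {ε : ℝ} (hε : 0 < ε) :
    ∃ (K' : SC) (β : K'.space ≃ₜ K.space) (τ : Finset ℕ → Finset ℕ), Sbd K' K β τ ∧
      ∀ x y : K'.space, ∀ u, 0 < x.1 u → 0 < y.1 u → ∀ v, |(β x).1 v - (β y).1 v| ≤ ε := by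
  have hn : ∀ σ ∈ K.faces, σ.card ≤ K.faces.sup Finset.card + 1 := fun σ hσ =>
    (Finset.le_sup (f := Finset.card) hσ).trans (Nat.le_succ _)
  have h0 : (0 : ℝ) < ((K.faces.sup Finset.card + 1 : ℕ) : ℝ)⁻¹ :=
    inv_pos.2 (Nat.cast_pos.2 (Nat.succ_pos _))
  obtain ⟨k, hk⟩ := exists_pow_lt_of_lt_one (half_pos hε) (sub_lt_self 1 h0)
  obtain ⟨K', β, τ, π, hs, h1, h2⟩ := tmesh_iter K hn k
  have h3 : ∀ (x : K'.space) u, 0 < x.1 u → ∀ v, |(β x).1 v - π u v| ≤ ε / 2 := by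
    intro x u hu v
    rw [h1]
    exact tmesh_avg (fun a _ => x.2.1 a) (sum_of_spp x (sub_vts (spp_mem x))) fun a _ ha =>
      (h2 _ (spp_mem x) v a (mem_spp.2 ha) u (mem_spp.2 hu)).trans hk.le
  refine ⟨K', β, τ, hs, fun x y u hx hy v => ?_⟩
  have h4 := abs_le.1 (h3 x u hx v)
  have h5 := abs_le.1 (h3 y u hy v)
  exact abs_le.2 ⟨by linarith [h4.1, h5.2], by linarith [h4.2, h5.1]⟩

/-- Lebesgue number lemma for the uniform structure of the product. -/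
theorem exists_sbd_cover (K : SC) {ι : Type} (W : ι → Set K.space) (ho : ∀ i, IsOpen (W i))
    (hc : ∀ x, ∃ i, x ∈ W i) :
    ∃ (K' : SC) (β : K'.space ≃ₜ K.space) (τ : Finset ℕ → Finset ℕ), Sbd K' K β τ ∧
      ∀ u, ({u} : Finset ℕ) ∈ K'.faces → ∃ i, ∀ x : K'.space, 0 < x.1 u → β x ∈ W i := by
  obtain ⟨V, hV, h⟩ := lebesgue_number_lemma (isCompact_univ (X := K.space)) ho
    fun x _ => Set.mem_iUnion.2 (hc x)
  obtain ⟨ε, hε, h1⟩ := tmesh_unif K hV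
  obtain ⟨K', β, τ, hs, h2⟩ := exists_mesh K hε
  refine ⟨K', β, τ, hs, fun u hu => ?_⟩
  obtain ⟨y, hy⟩ := exists_spp hu
  obtain ⟨i, hi⟩ := h (β y) (Set.mem_univ _)
  exact ⟨i, fun x hx => hi (h1 _ _
    (h2 y x u (mem_spp.1 (hy ▸ Finset.mem_singleton_self u)) hx))⟩

theorem exists_fine {f : K.space → L.space} (hf : Continuous f) :
    ∃ (K' : SC) (β : K'.space ≃ₜ K.space) (τ : Finset ℕ → Finset ℕ), Sbd K' K β τ ∧
      Fine (f ∘ β) := by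
  obtain ⟨K', β, τ, hs, h⟩ := exists_sbd_cover K (fun v : ℕ => {x | 0 < (f x).1 v})
    (fun v => isOpen_lt continuous_const ((continuous_coord L v).comp hf))
    fun x => tmesh_pos (f x)
  refine ⟨K', β, τ, hs, fun σ hσ => ?_⟩
  obtain ⟨u, hu⟩ := K'.nonempty σ hσ
  obtain ⟨v, hv⟩ := h u (mem_vts.1 (sub_vts hσ hu))
  exact ⟨v, (mem_Psi hσ).2 fun x hx => mem_spp.2 (hv x (mem_spp.1 (hx hu)))⟩

/-- Tube lemma and compactness: nearby stages of a homotopy satisfy a common star condition. -/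
theorem exists_close {H : unitInterval × K.space → L.space} (hH : Continuous H)
    (t : unitInterval) :
    ∃ (K' : SC) (β : K'.space ≃ₜ K.space) (τ : Finset ℕ → Finset ℕ), Sbd K' K β τ ∧
      ∀ᶠ s in nhds t, ∀ σ ∈ K'.faces,
        (Psi ((fun x => H (s, x)) ∘ β) σ ∩ Psi ((fun x => H (t, x)) ∘ β) σ).Nonempty := by
  obtain ⟨K', β, τ, hs, h⟩ := exists_sbd_cover K
    (ι := {W : Set K.space // IsOpen W ∧ ∃ v, ∀ᶠ s in nhds t, ∀ y ∈ W, 0 < (H (s, y)).1 v})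
    (fun W => W.1) (fun W => W.2.1) fun x => by
      obtain ⟨v, hv⟩ := tmesh_pos (H (t, x))
      have h1 : {q | 0 < (H q).1 v} ∈ nhds (t, x) :=
        (isOpen_lt continuous_const ((continuous_coord L v).comp hH)).mem_nhds hv
      obtain ⟨A, hA, B, hB, hAB⟩ := mem_nhds_prod_iff.1 h1
      exact ⟨⟨interior B, isOpen_interior, v, Filter.mem_of_superset hA fun s hs y hy =>
        hAB (Set.mk_mem_prod hs (interior_subset hy))⟩, mem_interior_iff_mem_nhds.2 hB⟩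
  refine ⟨K', β, τ, hs, (Filter.eventually_all_finset _).2 fun σ hσ => ?_⟩
  obtain ⟨u, hu⟩ := K'.nonempty σ hσ
  obtain ⟨⟨W, _, v, hv⟩, hW⟩ := h u (mem_vts.1 (sub_vts hσ hu))
  have h1 : ∀ s, (∀ y ∈ W, 0 < (H (s, y)).1 v) → v ∈ Psi ((fun x => H (s, x)) ∘ β) σ :=
    fun s h2 => (mem_Psi hσ).2 fun x hx => mem_spp.2 (h2 _ (hW x (mem_spp.1 (hx hu))))
  exact hv.mono fun s h2 => ⟨v, Finset.mem_inter.2 ⟨h1 s h2, h1 t hv.self_of_nhds⟩⟩

end Pool.Agent.Lib.MP_5ceaf9_gt
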