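import Pool.Agent.Lib.MP_5ceaf9_gt.TTop

/-! The barycentric subdivision is a subdivision. -/

noncomputable section

namespace Pool.Agent.Lib.MP_5ceaf9_gt

open Classical Function

variable {K : SC}

/-- A combination of barycentres. -/
def tsd_B (A : Finset (Finset ℕ)) (a : Finset ℕ → ℝ) (v : ℕ) : ℝ :=
  ∑ σ ∈ A, a σ * (if v ∈ σ then (σ.card : ℝ)⁻¹ else 0)

theorem tsd_nn {a : ℝ} (ha : 0 ≤ a) (σ : Finset ℕ) (v : ℕ) :
    0 ≤ a * (if v ∈ σ then (σ.card : ℝ)⁻¹ else 0) :=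
  mul_nonneg ha (by split_ifs <;> positivity)

theorem tsd_pos {A : Finset (Finset ℕ)} {a : Finset ℕ → ℝ} (ha : ∀ σ, 0 ≤ a σ) (v : ℕ) :
    0 < tsd_B A a v ↔ ∃ σ ∈ A, 0 < a σ ∧ v ∈ σ := by
  rw [tsd_B, Finset.sum_pos_iff_of_nonneg fun σ _ => tsd_nn (ha σ) σ v]
  refine exists_congr fun σ => and_congr_right fun _ => ?_
  by_cases hv : v ∈ σ
  · have : (0 : ℝ) < (σ.card : ℝ)⁻¹ := inv_pos.2 (Nat.cast_pos.2 (Finset.card_pos.2 ⟨v, hv⟩))
    rw [if_pos hv, mul_pos_iff_of_pos_right this, and_iff_left hv]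
  · simp only [hv, if_false, mul_zero, lt_irrefl, and_false]

theorem tsd_sum {A : Finset (Finset ℕ)} (a : Finset ℕ → ℝ) {T : Finset ℕ}
    (h : ∀ σ ∈ A, σ.Nonempty ∧ σ ⊆ T) : ∑ v ∈ T, tsd_B A a v = ∑ σ ∈ A, a σ := by
  unfold tsd_B
  rw [Finset.sum_comm]
  refine Finset.sum_congr rfl fun σ hσ => ?_
  have h1 : (σ.card : ℝ) ≠ 0 := Nat.cast_ne_zero.2 (h σ hσ).1.card_pos.ne'
  rw [← Finset.mul_sum, Finset.sum_ite_mem, Finset.inter_eq_right.2 (h σ hσ).2, Finset.sum_const,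
    nsmul_eq_mul, mul_inv_cancel₀ h1, mul_one]

theorem tsd_top {Θ : Finset (Finset ℕ)} (hn : Θ.Nonempty) (ht : Tot sbs Θ) :
    ∃ T ∈ Θ, ∀ σ ∈ Θ, σ ⊆ T := by
  obtain ⟨T, hT, h⟩ := Θ.exists_max_image Finset.card hn
  refine ⟨T, hT, fun σ hσ => ?_⟩
  rcases ht σ hσ T hT with h1 | h1
  · exact h1
  · exact (Finset.eq_of_subset_of_card_le h1 (h σ hσ)).ge

theorem tsd_mem {w : ℕ → ℝ} : w ∈ (sdK K).space ↔ (∀ n, 0 ≤ w n) ∧ ∃ Θ ∈ OC sbs K.faces,
    (∀ n, n ∉ Θ.image enc → w n = 0) ∧ ∑ σ ∈ Θ, w (enc σ) = 1 := by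
  refine and_congr_right fun _ => ⟨?_, ?_⟩
  · rintro ⟨ρ, hρ, h1, h2⟩
    obtain ⟨Θ, hΘ, rfl⟩ := mem_sdK.1 hρ
    rw [Finset.sum_image fun _ _ _ _ e => enc_inj e] at h2
    exact ⟨Θ, hΘ, h1, h2⟩
  · rintro ⟨Θ, hΘ, h1, h2⟩
    refine ⟨_, mem_sdK.2 ⟨Θ, hΘ, rfl⟩, h1, ?_⟩
    rwa [Finset.sum_image fun _ _ _ _ e => enc_inj e]

theorem tsd_of {w : ℕ → ℝ} {Θ : Finset (Finset ℕ)} (h : ∀ n, n ∉ Θ.image enc → w n = 0)
    {σ : Finset ℕ} (hσ : w (enc σ) ≠ 0) : σ ∈ Θ := by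
  obtain ⟨τ, h1, h2⟩ := Finset.mem_image.1 (not_not.1 fun h' => hσ (h _ h'))
  exact enc_inj h2 ▸ h1

theorem tsd_bar {w : ℕ → ℝ} {Θ : Finset (Finset ℕ)} (hΘ : Θ ⊆ K.faces)
    (h : ∀ n, n ∉ Θ.image enc → w n = 0) : barF K w = tsd_B Θ fun σ => w (enc σ) := by
  funext v
  refine (Finset.sum_subset hΘ fun σ _ hσ => ?_).symm
  rw [not_not.1 fun h' => hσ (tsd_of h h'), zero_mul]

theorem barF_mem {w : ℕ → ℝ} (h : w ∈ (sdK K).space) : barF K w ∈ K.space := by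
  obtain ⟨h0, Θ, hΘ, h1, h2⟩ := tsd_mem.1 h
  obtain ⟨h3, h4, h5⟩ := mem_OC.1 hΘ
  obtain ⟨T, hT, h6⟩ := tsd_top h4 h5
  rw [tsd_bar h3 h1]
  refine ⟨fun v => Finset.sum_nonneg fun σ _ => tsd_nn (h0 _) σ v, T, h3 hT, fun v hv => ?_, ?_⟩
  · exact Finset.sum_eq_zero fun σ hσ => by rw [if_neg fun h' => hv (h6 σ hσ h'), mul_zero]
  · rw [tsd_sum _ fun σ hσ => ⟨K.nonempty σ (h3 hσ), h6 σ hσ⟩, h2]

theorem barF_pos (w : (sdK K).space) (v : ℕ) :
    0 < barF K w.1 v ↔ v ∈ topK (spp (sdK K) w) := by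
  obtain ⟨h0, Θ, hΘ, h1, -⟩ := tsd_mem.1 w.2
  rw [tsd_bar (mem_OC.1 hΘ).1 h1, tsd_pos fun σ => h0 _, topK, Finset.mem_biUnion]
  constructor
  · rintro ⟨σ, -, h2, h3⟩
    exact ⟨enc σ, mem_spp.2 h2, by rwa [dec_enc]⟩
  · rintro ⟨n, h2, h3⟩
    have h4 := mem_spp.1 h2
    obtain ⟨σ, hσ, rfl⟩ := Finset.mem_image.1 (not_not.1 fun h' => h4.ne' (h1 n h'))
    exact ⟨σ, hσ, h4, by rwa [dec_enc] at h3⟩

theorem tsd_surj (S : Finset ℕ) : ∀ x : ℕ → ℝ, (∀ v, 0 ≤ x v) → (∀ v, v ∉ S → x v = 0) →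
    (S.Nonempty → S ∈ K.faces) → ∃ Θ ⊆ K.faces, Tot sbs Θ ∧ (∀ σ ∈ Θ, σ ⊆ S) ∧
      ∃ a : Finset ℕ → ℝ, (∀ σ, 0 ≤ a σ) ∧ tsd_B Θ a = x := by
  induction S using Finset.strongInduction with
  | H S ih =>
    intro x h0 h1 h2
    rcases S.eq_empty_or_nonempty with rfl | hS
    · refine ⟨∅, Finset.empty_subset _, fun _ h => absurd h (Finset.notMem_empty _),
        fun _ h => absurd h (Finset.notMem_empty _), 0, fun _ => le_rfl, funext fun v => ?_⟩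
      rw [h1 v (Finset.notMem_empty _), tsd_B, Finset.sum_empty]
    · obtain ⟨u, hu, hm⟩ := S.exists_min_image x hS
      obtain ⟨Θ, t1, t2, t3, a, t4, t5⟩ := ih (S.erase u) (Finset.erase_ssubset hu)
        (fun v => x v - if v ∈ S then x u else 0)
        (fun v => by
          split_ifs with hv
          · exact sub_nonneg.2 (hm v hv)
          · rw [sub_zero]; exact h0 v)
        (fun v hv => by
          split_ifs with hv'
          · rw [not_not.1 fun e => hv (Finset.mem_erase.2 ⟨e, hv'⟩), sub_self]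
          · rw [sub_zero]; exact h1 v hv')
        (K.down S (h2 hS) _ (Finset.erase_subset _ _))
      have t6 : ∀ σ ∈ Θ, σ ⊆ S := fun σ hσ => (t3 σ hσ).trans (Finset.erase_subset _ _)
      have t7 : S ∉ Θ := fun h => Finset.notMem_erase u S (t3 S h hu)
      have t8 : ∀ σ ∈ insert S Θ, σ ⊆ S := fun σ hσ => by
        rcases Finset.mem_insert.1 hσ with rfl | h
        · exact Finset.Subset.refl _
        · exact t6 σ h
      refine ⟨insert S Θ, Finset.insert_subset (h2 hS) t1, fun σ hσ τ hτ => ?_, t8,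
        fun σ => if σ = S then x u * S.card else a σ, fun σ => ?_, funext fun v => ?_⟩
      · rcases Finset.mem_insert.1 hσ with rfl | h
        · exact Or.inr (t8 τ hτ)
        · rcases Finset.mem_insert.1 hτ with rfl | h'
          · exact Or.inl (t6 σ h)
          · exact t2 σ h τ h'
      · dsimp only
        split_ifs
        · exact mul_nonneg (h0 u) (Nat.cast_nonneg _)
        · exact t4 σ
      · have h3 : (S.card : ℝ) ≠ 0 := Nat.cast_ne_zero.2 hS.card_pos.ne'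
        have h4 := congrFun t5 v
        rw [tsd_B] at h4
        rw [tsd_B, Finset.sum_insert t7, if_pos rfl, Finset.sum_congr rfl fun σ hσ => by
          rw [if_neg fun e : σ = S => t7 (e ▸ hσ)], h4]
        split_ifs
        · rw [mul_inv_cancel_right₀ h3, add_sub_cancel]
        · rw [mul_zero, zero_add, sub_zero]

/-- For `x` in `K` the sets `{v | t ≤ x v}` form a chain. Induct on the support: subtract the least
positive value times the indicator of the support. -/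
theorem barF_surj {x : ℕ → ℝ} (h : x ∈ K.space) : ∃ w ∈ (sdK K).space, barF K w = x := by
  obtain ⟨h0, S, hS, h1, h2⟩ := h
  obtain ⟨Θ, t1, t2, t3, a, t4, t5⟩ := tsd_surj S x h0 h1 fun _ => hS
  have h3 : ∑ σ ∈ Θ, a σ = 1 := by
    rw [← tsd_sum a fun σ hσ => ⟨K.nonempty σ (t1 hσ), t3 σ hσ⟩, t5, h2]
  have h4 : Θ.Nonempty := Finset.nonempty_of_sum_ne_zero (h3 ▸ one_ne_zero)
  have h5 : ∀ σ ∈ Θ, (if enc σ ∈ Θ.image enc then a (dec (enc σ)) else 0) = a σ := fun σ hσ => by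
    rw [if_pos (Finset.mem_image_of_mem _ hσ), dec_enc]
  refine ⟨fun n => if n ∈ Θ.image enc then a (dec n) else 0, tsd_mem.2 ⟨fun n => ?_, Θ,
    mem_OC.2 ⟨t1, h4, t2⟩, fun n hn => if_neg hn, (Finset.sum_congr rfl h5).trans h3⟩, ?_⟩
  · split_ifs
    · exact t4 _
    · exact le_rfl
  · rw [tsd_bar t1 fun n hn => if_neg hn, ← t5]
    funext v
    exact Finset.sum_congr rfl fun σ hσ => congrArg (· * _) (h5 σ hσ)

theorem tsd_supp {A Θ : Finset (Finset ℕ)} (ht : Tot sbs Θ) {d : Finset ℕ → ℝ} (h0 : ∀ σ, 0 ≤ d σ)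
    (h1 : ∀ σ, 0 < d σ → σ ∈ Θ) {σ : Finset ℕ} (hσ : σ ∈ A) (hd : 0 < d σ) :
    ∃ T ∈ A, 0 < d T ∧ ∀ v, 0 < tsd_B A d v ↔ v ∈ T := by
  obtain ⟨T, hT, h2⟩ := tsd_top (Θ := A.filter fun σ => 0 < d σ)
    ⟨σ, Finset.mem_filter.2 ⟨hσ, hd⟩⟩ fun a ha b hb =>
      ht a (h1 a (Finset.mem_filter.1 ha).2) b (h1 b (Finset.mem_filter.1 hb).2)
  rw [Finset.mem_filter] at hT
  refine ⟨T, hT.1, hT.2, fun v => (tsd_pos h0 v).trans ⟨?_, fun hv => ⟨T, hT.1, hT.2, hv⟩⟩⟩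
  rintro ⟨τ, h3, h4, h5⟩
  exact h2 τ (Finset.mem_filter.2 ⟨h3, h4⟩) h5

theorem tsd_le {w w' : ℕ → ℝ} (h : w ∈ (sdK K).space) (h' : w' ∈ (sdK K).space)
    (e : barF K w = barF K w') (n : ℕ) : w n ≤ w' n := by
  obtain ⟨h0, Θ, hΘ, h1, -⟩ := tsd_mem.1 h
  obtain ⟨h0', Θ', hΘ', h1', -⟩ := tsd_mem.1 h'
  by_contra hn
  have hn := not_le.1 hn
  obtain ⟨σ, hσ, rfl⟩ := Finset.mem_image.1
    (not_not.1 fun h2 => ((h0' n).trans_lt hn).ne' (h1 n h2))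
  have e1 : tsd_B K.faces (fun σ => w (enc σ) - min (w (enc σ)) (w' (enc σ))) =
      tsd_B K.faces fun σ => w' (enc σ) - min (w (enc σ)) (w' (enc σ)) := by
    funext v
    simp only [tsd_B, sub_mul, Finset.sum_sub_distrib]
    exact congrArg (· - _) (congrFun e v)
  have hm : ∀ σ, 0 ≤ min (w (enc σ)) (w' (enc σ)) := fun σ => le_min (h0 _) (h0' _)
  obtain ⟨T, t1, t2, t3⟩ := tsd_supp (A := K.faces) (mem_OC.1 hΘ).2.2
    (d := fun σ => w (enc σ) - min (w (enc σ)) (w' (enc σ)))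
    (fun σ => sub_nonneg.2 (min_le_left _ _))
    (fun σ h2 => tsd_of h1 ((hm σ).trans_lt (sub_pos.1 h2)).ne') ((mem_OC.1 hΘ).1 hσ)
    (sub_pos.2 ((min_le_right _ _).trans_lt hn))
  obtain ⟨v, hv⟩ := K.nonempty T t1
  rw [e1] at t3
  obtain ⟨τ, s1, s2, -⟩ := (tsd_pos (fun σ => sub_nonneg.2 (min_le_right _ _)) v).1 ((t3 v).2 hv)
  obtain ⟨T', -, u2, u3⟩ := tsd_supp (A := K.faces) (mem_OC.1 hΘ').2.2
    (d := fun σ => w' (enc σ) - min (w (enc σ)) (w' (enc σ)))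
    (fun σ => sub_nonneg.2 (min_le_right _ _))
    (fun σ h2 => tsd_of h1' ((hm σ).trans_lt (sub_pos.1 h2)).ne') s1 s2
  obtain rfl : T = T' := Finset.ext fun v => (t3 v).symm.trans (u3 v)
  exact lt_irrefl _ (lt_min (sub_pos.1 t2) (sub_pos.1 u2))

/-- A nonnegative combination of indicators of a chain of nonempty sets determines its
coefficients: the largest set is the support, its coefficient is the least positive value. -/
theorem barF_inj {w w' : ℕ → ℝ} (h : w ∈ (sdK K).space) (h' : w' ∈ (sdK K).space)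
    (e : barF K w = barF K w') : w = w' :=
  funext fun n => le_antisymm (tsd_le h h' e n) (tsd_le h' h e.symm n)

/-- A continuous bijection from a compact space to a Hausdorff space. -/
theorem exists_bar (K : SC) : ∃ β : (sdK K).space ≃ₜ K.space,
    (∀ w, (β w).1 = barF K w.1) ∧ Sbd (sdK K) K β topK := by
  let f : (sdK K).space → K.space := fun w => ⟨barF K w.1, barF_mem w.2⟩
  have h1 : Bijective f := ⟨fun w w' e => Subtype.ext (barF_inj w.2 w'.2 (congrArg Subtype.val e)),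
    fun x => by
      obtain ⟨w, hw, e⟩ := barF_surj x.2
      exact ⟨⟨w, hw⟩, Subtype.ext e⟩⟩
  have h2 : Continuous (Equiv.ofBijective f h1) :=
    Continuous.subtype_mk (continuous_pi fun v => continuous_finsetSum _ fun σ _ =>
      (continuous_coord _ _).mul continuous_const) _
  exact ⟨h2.homeoOfEquivCompactToT2, fun _ => rfl, fun _ _ => topK_mono,
    fun w => Finset.ext fun v => mem_spp.trans (barF_pos w v), fun _ => ct_topK,
    fun _ => card_sdK⟩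

end Pool.Agent.Lib.MP_5ceaf9_gt
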