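import Pool.Agent.Lib.MP_5ceaf9_gt.TDefs

/-! Two out of six for inclusions. -/

noncomputable section

namespace Pool.Agent.Lib.MP_5ceaf9_gt

open Classical Function

/-- From contractions of the two corner matrices (`alga_split`) one gets `u0`, `t`, `v0`, `s'` with
`y t + t y + u0 u = 1`, `y u0 + u0 x = 0`, `y s' + s' y + v v0 = 1`, `z v0 + v0 y = 0`; then
`t + u0 u s' + u0 w v0` contracts `y`. -/
theorem ctr_six {ι κ μ Λ : Type} [Ring Λ] [Fintype ι] [DecidableEq ι] [Fintype κ] [DecidableEq κ]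
    [Fintype μ] [DecidableEq μ] {x : Matrix ι ι Λ} {y : Matrix κ κ Λ} {z : Matrix μ μ Λ}
    {u : Matrix ι κ Λ} {v : Matrix κ μ Λ} {w : Matrix ι μ Λ} (h1 : x * u + u * y = 0)
    (h2 : x * w + u * v + w * z = 0) (c1 : Ctr (Matrix.fromBlocks x u 0 y))
    (c2 : Ctr (Matrix.fromBlocks y v 0 z)) : Ctr y := by
  obtain ⟨-, u0, t, -, a2, a3⟩ := alga_split c1
  obtain ⟨s', v0, -, b1, b2, -⟩ := alga_split c2
  refine ⟨t + u0 * u * s' + u0 * w * v0, ?_⟩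
  have e : y * (t + u0 * u * s' + u0 * w * v0) + (t + u0 * u * s' + u0 * w * v0) * y =
      y * t + (u0 * u + t * y) + (y * u0 + u0 * x) * (u * s' + w * v0) -
        u0 * (x * u + u * y) * s' + u0 * u * (y * s' + v * v0 + s' * y - 1) -
        u0 * (x * w + u * v + w * z) * v0 + u0 * w * (z * v0 + v0 * y) := by
    simp only [Matrix.mul_add, Matrix.add_mul, Matrix.mul_sub, Matrix.mul_assoc, Matrix.mul_one]
    abel
  rw [e, h1, h2, a2, a3, b1, b2]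
  simp

/-- The matrix on a disjoint union in block form. -/
theorem tsix_ctr {ι Λ : Type} [DecidableEq ι] [Ring Λ] {X Y Z : Finset ι} {M : ι → ι → Λ}
    (hZ : ∀ a, a ∈ Z ↔ a ∈ X ∨ a ∈ Y) (hd : ∀ a ∈ X, a ∉ Y) (h0 : ∀ a ∈ Y, ∀ b ∈ X, M a b = 0)
    (h : Ctr (rs Z Z M)) : Ctr (Matrix.fromBlocks (rs X X M) (rs X Y M) 0 (rs Y Y M)) := by
  let f : ↥X ⊕ ↥Y → ↥Z :=
    Sum.elim (fun a => ⟨a.1, (hZ _).2 (Or.inl a.2)⟩) (fun a => ⟨a.1, (hZ _).2 (Or.inr a.2)⟩)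
  have hf : Bijective f := by
    constructor
    · rintro (a | a) (b | b) e
      · have e' : a.1 = b.1 := congrArg (Subtype.val : ↥Z → ι) e
        exact congrArg Sum.inl (Subtype.ext e')
      · have e' : a.1 = b.1 := congrArg Subtype.val e
        exact absurd (e' ▸ b.2) (hd _ a.2)
      · have e' : a.1 = b.1 := congrArg Subtype.val e
        exact absurd (e' ▸ a.2) (hd _ b.2)
      · have e' : a.1 = b.1 := congrArg (Subtype.val : ↥Z → ι) e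
        exact congrArg Sum.inr (Subtype.ext e')
    · intro a
      rcases (hZ _).1 a.2 with e | e
      · exact ⟨Sum.inl ⟨a.1, e⟩, rfl⟩
      · exact ⟨Sum.inr ⟨a.1, e⟩, rfl⟩
  have e : Matrix.fromBlocks (rs X X M) (rs X Y M) 0 (rs Y Y M) =
      (rs Z Z M).submatrix (Equiv.ofBijective f hf) (Equiv.ofBijective f hf) := by
    ext (a | a) (b | b)
    · rfl
    · rfl
    · exact (h0 _ a.2 _ b.2).symm
    · rfl
  rw [e]
  exact alga_ctr h _

theorem tsix_mul {ι Λ : Type} [Ring Λ] (X Y Z : Finset ι) (M : ι → ι → Λ) (a : ↥X) (b : ↥Z) :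
    (rs X Y M * rs Y Z M) a b = ∑ ρ ∈ Y, M a ρ * M ρ b := by
  rw [Matrix.mul_apply]
  exact Finset.sum_coe_sort Y fun ρ => M a ρ * M ρ b

theorem tsix_sum {ι Λ : Type} [DecidableEq ι] [Ring Λ] {A B C : Finset ι} (h1 : A ⊆ B)
    (h2 : B ⊆ C) (f : ι → Λ) : ∑ ρ ∈ C \ B, f ρ + ∑ ρ ∈ B \ A, f ρ = ∑ ρ ∈ C \ A, f ρ := by
  rw [← Finset.sum_union (Finset.sdiff_disjoint.mono_right Finset.sdiff_subset),
    Finset.sdiff_union_sdiff_cancel h2 h1]

variable {α : Type} [DecidableEq α] [Nonempty α] {r : α → α → Prop}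
  {K1 K2 K3 K4 : Finset (Finset α)}

/-- `ext`: extend to `K4` and restrict. `uniq`: the gauge from `h13` is an automorphism of the
cocycle on `K2`; the set where it is trivial is a union of components of `K2`, its indicator extends
to a locally constant function on `K4` (as in `Eq1.left`), and `h13.conn` finishes. -/
theorem Eq1.six (c1 : Cx r K1) (c2 : Cx r K2) (c3 : Cx r K3) (c4 : Cx r K4) (s12 : K1 ⊆ K2)
    (s23 : K2 ⊆ K3) (s34 : K3 ⊆ K4) (h13 : Eq1 r K1 K3) (h24 : Eq1 r K2 K4) : Eq1 r K2 K3 := by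
  refine ⟨fun Γ _ c hc => ?_, fun Γ _ c c' hc hc' k => ?_,
    fun T k1 k2 => h13.conn T (fun a ha => k1 a (s12 ha)) k2⟩
  · obtain ⟨c', k1, k2⟩ := h24.ext Γ c hc
    exact ⟨c', k1.mono s34, k2⟩
  · obtain ⟨g, k1, k2⟩ := h13.uniq Γ c c' hc hc' fun a b hab => k a b (s12 hab)
    obtain ⟨T', k3, k4⟩ := sxb_trick c2 h24 {a | g a = 1} fun a b hab hr => by
      have e := k2 a b (s23 hab) hr
      rw [← k a b hab hr] at e
      simp only [gau] at e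
      refine ⟨fun k3 => ?_, fun k3 => ?_⟩
      · change g a = 1 at k3
        change g b = 1
        simpa [k3] using e
      · change g b = 1 at k3
        change g a = 1
        simpa [k3] using e
    refine ⟨g, fun a ha => (k4 a ha).1 ?_, k2⟩
    exact h13.conn T' (fun b hb => (k4 b (s12 hb)).2 (k1 b hb))
      (fun a b hab => k3 a b (s34 hab)) a (s23 ha)

theorem tsix_blk (cL : Cx r K2) (cM : Cx r K3) (s12 : K1 ⊆ K2) (s23 : K2 ⊆ K3) {Γ : Type}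
    [Group Γ] {c : α → α → Γ} (h : Ctr (rs (K3 \ K1) (K3 \ K1) (DG r c))) :
    Ctr (Matrix.fromBlocks (rs (K3 \ K2) (K3 \ K2) (DG r c)) (rs (K3 \ K2) (K2 \ K1) (DG r c)) 0
      (rs (K2 \ K1) (K2 \ K1) (DG r c))) := by
  refine tsix_ctr (fun a => ?_) (fun a ha hb => ?_) (fun a ha b hb => ?_) h
  · rw [← Finset.sdiff_union_sdiff_cancel s23 s12, Finset.mem_union]
  · exact (Finset.mem_sdiff.1 ha).2 (Finset.mem_sdiff.1 hb).1
  · by_contra h0
    exact (Finset.mem_sdiff.1 hb).2 (cL.down _ (Finset.mem_sdiff.1 ha).1 _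
      (sxa2_sub (sxa2_ne (c := c) h0)) (cM.ne _ (Finset.mem_sdiff.1 hb).1))

theorem tsix_sq (cK : Cx r K1) (cL : Cx r K2) {Γ : Type} [Group Γ] {c : α → α → Γ}
    (hc : Flat r K2 c) {a b : Finset α} (ha : a ∈ K2 \ K1) (hb : b ∈ K2 \ K1) :
    ∑ ρ ∈ K2 \ K1, DG r c a ρ * DG r c ρ b = 0 := by
  have e := tsix_mul (K2 \ K1) (K2 \ K1) (K2 \ K1) (DG r c) ⟨a, ha⟩ ⟨b, hb⟩
  rw [(dm_DG cK cL hc).1] at e
  exact e.symm

/-- A flat cocycle on `K3` is a gauge transform of the restriction of one on `K4` (`sxk2_tr`); the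
blocks are `K4 \ K3`, `K3 \ K2`, `K2 \ K1`. -/
theorem GE.six (s12 : K1 ⊆ K2) (s23 : K2 ⊆ K3) (s34 : K3 ⊆ K4) (h13 : GE r 1 K1 K3)
    (h24 : GE r 1 K2 K4) : GE r 1 K2 K3 := by
  have e23 := Eq1.six h13.cK h24.cK h13.cL h24.cL s12 s23 s34 h13.eq1 h24.eq1
  refine ⟨h24.cK, h13.cL, s23, e23, fun Γ _ c hc => ?_⟩
  refine ⟨dm_DG h24.cK h13.cL hc, fun _ => ?_, fun h2 => absurd h2 (by omega)⟩
  obtain ⟨c', k1, k2⟩ := h24.eq1.ext Γ c (hc.mono s23)
  obtain ⟨g, -, k3⟩ := e23.uniq Γ c' c (k1.mono s34) hc fun a b hab hr => (k2 a b hab hr).symm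
  have hd : Flat r K4 (gau g c') := k1.gau g
  generalize gau g c' = d at k3 hd
  have e : rs (K3 \ K2) (K3 \ K2) (DG r c) = rs (K3 \ K2) (K3 \ K2) (DG r d) :=
    Matrix.ext fun x y =>
      (DG_congr h13.cL k3 (Finset.mem_sdiff.1 x.2).1 (Finset.mem_sdiff.1 y.2).1).symm
  rw [e]
  refine ctr_six (w := rs (K4 \ K3) (K2 \ K1) (DG r d)) ?_ ?_
    (tsix_blk h13.cL h24.cL s23 s34 ((h24.gd Γ d hd).2.1 le_rfl))
    (tsix_blk h24.cK h13.cL s12 s23 ((h13.gd Γ d (hd.mono s34)).2.1 le_rfl))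
  · ext1 a b
    obtain ⟨a1, a2⟩ := Finset.mem_sdiff.1 a.2
    obtain ⟨b1, b2⟩ := Finset.mem_sdiff.1 b.2
    rw [Matrix.add_apply, tsix_mul, tsix_mul, tsix_sum s23 s34]
    exact tsix_sq h24.cK h24.cL hd (Finset.mem_sdiff.2 ⟨a1, fun h => a2 (s23 h)⟩)
      (Finset.mem_sdiff.2 ⟨s34 b1, b2⟩)
  · ext1 a b
    obtain ⟨a1, a2⟩ := Finset.mem_sdiff.1 a.2
    obtain ⟨b1, b2⟩ := Finset.mem_sdiff.1 b.2
    rw [Matrix.add_apply, Matrix.add_apply, tsix_mul, tsix_mul, tsix_mul, tsix_sum s23 s34,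
      tsix_sum s12 (s23.trans s34)]
    exact tsix_sq h13.cK h24.cL hd (Finset.mem_sdiff.2 ⟨a1, fun h => a2 (s23 (s12 h))⟩)
      (Finset.mem_sdiff.2 ⟨s34 (s23 b1), b2⟩)

theorem GP.six {A B C D : Finset α} (s12 : A ⊆ B) (s23 : B ⊆ C) (s34 : C ⊆ D)
    (h13 : GP r 1 A C) (h24 : GP r 1 B D) : GP r 1 B C := by
  exact ⟨h13.1, s23, GE.six (OC_mono s12) (OC_mono s23) (OC_mono s34) h13.2.2 h24.2.2⟩

end Pool.Agent.Lib.MP_5ceaf9_gt
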