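import Pool.Agent.Lib.MP_5ceaf9_gt.TSix
import Pool.Agent.Lib.MP_5ceaf9_gt.TGood

/-! Telescopes and two out of six for maps. -/

noncomputable section

namespace Pool.Agent.Lib.MP_5ceaf9_gt

open Classical Function

variable {α : Type} [DecidableEq α] [Nonempty α] {r : α → α → Prop} {G : ℕ → ℕ → α → α}
  {P : ℕ → Finset α} {l : ℕ}

theorem mem_ly {i : ℕ} {A : Finset α} {p : ℕ × α} : p ∈ ly i A ↔ p.1 = i ∧ p.2 ∈ A := by
  rw [ly, Finset.mem_image]
  exact ⟨fun ⟨a, ha, e⟩ => e ▸ ⟨rfl, ha⟩, fun ⟨e, ha⟩ => ⟨p.2, ha, e ▸ rfl⟩⟩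

theorem Tel.pon (h : Tel r G P) {T : Finset (ℕ × α)} (hT : ∀ p ∈ T, p.2 ∈ P p.1) :
    POn (tel r G) T := by
  refine ⟨fun p hp => ⟨le_rfl, ?_⟩, fun p hp q hq h1 h2 => ?_,
    fun p hp q hq s hs h1 h2 => ⟨h1.1.trans h2.1, ?_⟩⟩
  · rw [h.id]
    exact (h.mo _ _ le_rfl).pA.refl _ (hT p hp)
  · obtain ⟨i, a⟩ := p
    obtain ⟨j, b⟩ := q
    obtain rfl : i = j := h1.1.antisymm h2.1
    have e1 := h1.2
    have e2 := h2.2
    rw [h.id] at e1 e2
    exact congrArg _ ((h.mo i i le_rfl).pA.anti a (hT _ hp) b (hT _ hq) e1 e2)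
  · have m := h.mo _ _ h2.1
    have m' := (h.mo _ _ h1.1).maps _ (hT p hp)
    rw [← h.comp _ _ _ _ h1.1 h2.1]
    exact m.pB.trans _ (m.maps _ m') _ (m.maps _ (hT q hq)) _ (hT s hs)
      (m.mono _ m' _ (hT q hq) h1.2) h2.2

/-- `gp_image` along `Sum.elim (Prod.mk i) (Prod.mk j)`. -/
theorem Tel.me_iff (h : Tel r G P) {i j : ℕ} (hij : i < j) {A B : Finset α} (hA : A ⊆ P i)
    (hB : B ⊆ P j) (hm : ∀ a ∈ A, G i j a ∈ B) :
    ME r r l A B (G i j) ↔ GP (tel r G) l (ly i A) (ly i A ∪ ly j B) := by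
  have m := h.mo i j hij.le
  have e1 : (A.image Sum.inl).image (Sum.elim (Prod.mk i) (Prod.mk j)) = ly i A := by
    rw [Finset.image_image]
    rfl
  have e2 : (A.disjSum B).image (Sum.elim (Prod.mk i) (Prod.mk j)) = ly i A ∪ ly j B := by
    ext p
    simp only [ly, Finset.mem_image, Sum.exists, Finset.inl_mem_disjSum, Finset.inr_mem_disjSum,
      Sum.elim_inl, Sum.elim_inr, Finset.mem_union]
  rw [← e2, ← e1, gp_image (r := cy r r (G i j)) _ _ (sxi_inl A B)]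
  · exact and_iff_right ⟨m.pA.mono hA, m.pB.mono hB, hm, fun a ha b hb => m.mono a (hA ha) b (hA hb)⟩
  · rintro (a | a) - (b | b) - e <;> obtain ⟨e1, e2⟩ := Prod.mk.inj e
    exacts [congrArg _ e2, absurd e1 hij.ne, absurd e1 hij.ne', congrArg _ e2]
  · rintro (a | a) - (b | b) -
    · exact (and_iff_right le_rfl).trans (iff_of_eq (congrArg (r · b) (h.id i a)))
    · exact and_iff_right hij.le
    · exact iff_of_false (fun e => hij.not_ge e.1) fun e => e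
    · exact (and_iff_right le_rfl).trans (iff_of_eq (congrArg (r · b) (h.id j a)))

/-- `gp_retr_ge` with `p ↦ (j, G p.1 j p.2)`. -/
theorem Tel.retr (h : Tel r G P) {j : ℕ} {B : Finset α} {T : Finset (ℕ × α)} (hB : ly j B ⊆ T)
    (hT : ∀ p ∈ T, p.2 ∈ P p.1 ∧ p.1 ≤ j ∧ G p.1 j p.2 ∈ B) : GP (tel r G) l (ly j B) T := by
  refine gp_retr_ge (h.pon fun p hp => (hT p hp).1) hB (ρ := fun p => (j, G p.1 j p.2))
    (fun p hp => mem_ly.2 ⟨rfl, (hT p hp).2.2⟩) (fun p hp => ?_)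
    (fun p hp q hq e => ⟨le_rfl, ?_⟩) fun p hp => ⟨(hT p hp).2.1, ?_⟩
  · rw [← (mem_ly.1 hp).1, h.id]
  · rw [h.id, ← h.comp _ _ _ _ e.1 (hT q hq).2.1]
    exact (h.mo _ _ (hT q hq).2.1).mono _ ((h.mo _ _ e.1).maps _ (hT p hp).1) _ (hT q hq).1 e.2
  · have m := h.mo _ _ (hT p hp).2.1
    exact m.pB.refl _ (m.maps _ (hT p hp).1)

/-- The composite of `n` consecutive maps. -/
def ttelF {α : Type} (s : ℕ → α → α) (i : ℕ) : ℕ → α → α
  | 0 => id
  | n + 1 => s (i + n) ∘ ttelF s i n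

theorem exists_tel {A B C D : Finset α} {a b c : α → α} (ha : Mo r r A B a) (hb : Mo r r B C b)
    (hc : Mo r r C D c) : ∃ (G : ℕ → ℕ → α → α) (P : ℕ → Finset α), Tel r G P ∧ P 0 = A ∧
      P 1 = B ∧ P 2 = C ∧ P 3 = D ∧ G 0 1 = a ∧ G 1 2 = b ∧ G 2 3 = c ∧ G 0 2 = b ∘ a ∧
      G 1 3 = c ∘ b ∧ G 0 3 = c ∘ b ∘ a := by
  have mi : ∀ {X : Finset α}, POn r X → Mo r r X X id := fun e => ⟨e, e, fun _ => id, fun _ _ _ _ => id⟩
  let s : ℕ → α → α := fun n => match n with | 0 => a | 1 => b | 2 => c | _ + 3 => id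
  let P : ℕ → Finset α := fun n => match n with | 0 => A | 1 => B | 2 => C | _ + 3 => D
  have hs : ∀ n, Mo r r (P n) (P (n + 1)) (s n) := fun n => match n with
    | 0 => ha | 1 => hb | 2 => hc | _ + 3 => mi hc.pB
  refine ⟨fun i j => ttelF s i (j - i), P, ⟨fun i x => ?_, fun i j k x h1 h2 => ?_,
    fun i j h1 => ?_⟩, rfl, rfl, rfl, rfl, rfl, rfl, rfl, rfl, rfl, rfl⟩
  · rw [Nat.sub_self]
    rfl
  · obtain ⟨n, rfl⟩ := Nat.exists_eq_add_of_le h1
    obtain ⟨m, rfl⟩ := Nat.exists_eq_add_of_le h2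
    rw [Nat.add_sub_cancel_left, Nat.add_sub_cancel_left, add_assoc, Nat.add_sub_cancel_left]
    clear h2
    induction m with
    | zero => rfl
    | succ m ih => exact (congrArg (s (i + n + m)) ih).trans (by rw [add_assoc]; rfl)
  · obtain ⟨n, rfl⟩ := Nat.exists_eq_add_of_le h1
    rw [Nat.add_sub_cancel_left]
    clear h1
    induction n with
    | zero => exact mi (hs i).pA
    | succ n ih => exact ih.comp (hs (i + n))

/-- A union of layers. -/
def ttelW (P : ℕ → Finset α) (S : Finset ℕ) : Finset (ℕ × α) := S.biUnion fun i => ly i (P i)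

theorem ttel_mem {S : Finset ℕ} {p : ℕ × α} : p ∈ ttelW P S ↔ p.1 ∈ S ∧ p.2 ∈ P p.1 := by
  simp only [ttelW, Finset.mem_biUnion, mem_ly]
  exact ⟨fun ⟨i, h1, h2, h3⟩ => h2 ▸ ⟨h1, h3⟩, fun ⟨h1, h2⟩ => ⟨_, h1, rfl, h2⟩⟩

theorem ttel_mono {S S' : Finset ℕ} (h : S ⊆ S') : ttelW P S ⊆ ttelW P S' :=
  fun _ hp => ttel_mem.2 ((ttel_mem.1 hp).imp_left fun e => h e)

theorem ttel_top (h : Tel r G P) {j : ℕ} {S S' : Finset ℕ} (h1 : j ∈ S) (h2 : S ⊆ S')
    (h3 : ∀ i ∈ S', i ≤ j) : GP (tel r G) l (ttelW P S) (ttelW P S') := by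
  have key : ∀ T ⊆ S', j ∈ T → GP (tel r G) l (ly j (P j)) (ttelW P T) := fun T e e' =>
    h.retr (Finset.subset_biUnion_of_mem (fun i => ly i (P i)) e') fun p hp => by
      obtain ⟨a1, a2⟩ := ttel_mem.1 hp
      exact ⟨a2, h3 _ (e a1), (h.mo _ _ (h3 _ (e a1))).maps _ a2⟩
  exact GP.right (ttel_mono h2) (key _ subset_rfl (h2 h1)) (key _ h2 h1)

theorem ttel_me (h : Tel r G P) {i j : ℕ} (hij : i < j) : ME r r l (P i) (P j) (G i j) ↔
    GP (tel r G) l (ttelW P {i}) (ttelW P {i, j}) := by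
  rw [h.me_iff hij subset_rfl subset_rfl (h.mo i j hij.le).maps, ttelW, ttelW,
    Finset.biUnion_insert, Finset.singleton_biUnion, Finset.singleton_biUnion]

/-- Apply `GP.six` to the unions of the first one, two, three, four layers. -/
theorem ME.six {A B C D : Finset α} {a b c : α → α} (ha : Mo r r A B a) (hb : Mo r r B C b)
    (hc : Mo r r C D c) (h1 : ME r r 1 A C (b ∘ a)) (h2 : ME r r 1 B D (c ∘ b)) :
    ME r r 1 B C b := by
  obtain ⟨G, P, h, rfl, rfl, rfl, rfl, -, e1, -, e2, e3, -⟩ := exists_tel ha hb hc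
  rw [← e2, ttel_me h (by norm_num)] at h1
  rw [← e3, ttel_me h (by norm_num)] at h2
  rw [← e1, ttel_me h (by norm_num)]
  have g1 := ttel_top (l := 1) h (j := 1) (S := {1}) (S' := {0, 1}) (by decide) (by decide)
    (by decide)
  have g2 := GP.six (ttel_mono (by decide)) (ttel_mono (by decide)) (ttel_mono (by decide))
    (h1.trans (ttel_top h (j := 2) (S' := {0, 1, 2}) (by decide) (by decide) (by decide)))
    (GP.right (ttel_mono (by decide))
      (h2.trans (ttel_top h (j := 3) (S' := {0, 1, 2, 3}) (by decide) (by decide) (by decide))) g1)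
  exact GP.left (ttel_mono (by decide)) (g1.trans g2)
    (ttel_top h (j := 2) (by decide) (by decide) (by decide))

theorem ttel_comp {K L M : SC} {p : K.space → L.space} {q : L.space → M.space} (hp : Fine p)
    (hq : Fine q) (h : GoodM 1 (q ∘ p)) : ME sbs sbs 1 K.faces M.faces (Psi q ∘ Psi p) :=
  (me_homotopy (hp.mo.comp hq.mo) (hp.comp hq).mo fun σ _ => Psi_comp σ).2
    ((goodM_fine one_le_two (hp.comp hq)).1 h)

/-- With a homotopy inverse `g`: `c = Psi (f ∘ β0)`, `b = Psi (β0.symm ∘ g ∘ β1)`,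
`a = Psi (β1.symm ∘ f ∘ β2)`; `c ∘ b ≤ Psi (f ∘ g ∘ β1)` and `τ0 ∘ b ∘ a ≤ Psi (g ∘ f ∘ β2)`. -/
theorem IsHE.good {K L : SC} {f : C(K.space, L.space)} (h : IsHE f) : GoodM 1 f := by
  obtain ⟨g, h1, h2⟩ := h
  obtain ⟨K0, β0, τ0, s0, f0⟩ := exists_fine f.continuous
  have c1 : Continuous (β0.symm ∘ g) := β0.symm.continuous.comp g.continuous
  obtain ⟨L1, β1, τ1, s1, f1⟩ := exists_fine c1
  have c2 : Continuous (β1.symm ∘ f) := β1.symm.continuous.comp f.continuous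
  obtain ⟨K2, β2, τ2, s2, f2⟩ := exists_fine c2
  have i1 : GoodM 1 (g.comp f) := GoodM.homotopic one_le_two h1.symm (goodM_id one_le_two)
  have i2 : GoodM 1 (f.comp g) := GoodM.homotopic one_le_two h2.symm (goodM_id one_le_two)
  have m1 : GoodM 1 (((β0.symm ∘ g) ∘ β1) ∘ (β1.symm ∘ f) ∘ β2) := by
    refine GoodM.left one_le_two ((c1.comp β1.continuous).comp (c2.comp β2.continuous))
      β0.continuous (s0.good one_le_two) ?_
    convert (s2.good one_le_two).comp one_le_two β2.continuous (g.comp f).continuous i1 using 1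
    funext x
    simp
  have m2 : GoodM 1 ((f ∘ β0) ∘ (β0.symm ∘ g) ∘ β1) := by
    convert (s1.good one_le_two).comp one_le_two β1.continuous (f.comp g).continuous i2 using 1
    funext x
    simp
  have m3 := ttel_comp f1 f0 m2
  exact ⟨K0, β0, τ0, s0, f0, (ME.six f2.mo f1.mo f0.mo (ttel_comp f2 f1 m1) m3).right f0.mo m3⟩

end Pool.Agent.Lib.MP_5ceaf9_gt
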