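import Pool.Agent.Lib.MP_5ceaf9_gt.TBas
import Pool.Agent.Lib.MP_5ceaf9_gt.IfF

/-! The poset of chains and its top map. -/

noncomputable section

namespace Pool.Agent.Lib.MP_5ceaf9_gt

open Classical Function

variable {α : Type} [DecidableEq α] [Nonempty α] {r : α → α → Prop} {A : Finset α} {l : ℕ}

theorem ttop_top (h : POn r A) {σ : Finset α} (hσ : σ ∈ OC r A) :
    bt (swap r) σ ∈ σ ∧ ∀ u ∈ σ, r u (bt (swap r) σ) :=
  bt_spec ((cx_OC h).swap.po σ hσ) ((cx_OC h).swap.tot σ hσ) ((cx_OC h).ne σ hσ)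

omit [DecidableEq α] [Nonempty α] in
theorem ttop_filt {ℓ : α → ℕ} (hi : Set.InjOn ℓ A) {σ : Finset α} (hσ : σ ⊆ A) :
    A.filter (fun a => ℓ a ∈ σ.image ℓ) = σ := by
  ext a
  simp only [Finset.mem_filter, Finset.mem_image]
  exact ⟨fun ⟨ha, b, hb, e⟩ => hi (hσ hb) ha e ▸ hb, fun ha => ⟨hσ ha, a, ha, rfl⟩⟩

theorem mo_top (h : POn r A) : Mo sbs r (OC r A) A (bt (swap r)) := by
  exact ⟨pon_sbs _, h, fun σ hσ => (mem_OC.1 hσ).1 (ttop_top h hσ).1,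
    fun σ hσ ρ hρ hs => (ttop_top h hρ).2 _ (hs (ttop_top h hσ).1)⟩

/-- The chains below `y` retract (add `y`, `gp_retr_ge`) onto the chains through `y`, which have
the least element `{y}`. -/
theorem ct_top_fib (h : POn r A) {y : α} (hy : y ∈ A) :
    CT sbs l ((OC r A).filter (fun σ => r (bt (swap r) σ) y)) := by
  generalize hP : (OC r A).filter (fun σ => r (bt (swap r) σ) y) = P
  have h1 : ∀ σ, σ ∈ P ↔ (σ ⊆ A ∧ σ.Nonempty ∧ Tot r σ) ∧ ∀ u ∈ σ, r u y := by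
    intro σ
    rw [← hP, Finset.mem_filter, ← mem_OC]
    refine and_congr_right fun hσ => ⟨fun h2 u hu => ?_, fun h2 => h2 _ (ttop_top h hσ).1⟩
    have h3 := (mem_OC.1 hσ).1
    exact h.trans u (h3 hu) _ (h3 (ttop_top h hσ).1) y hy ((ttop_top h hσ).2 u hu) h2
  have hr := h.refl y hy
  have h2 : ∀ σ : Finset α, σ ⊆ A → Tot r σ → (∀ u ∈ σ, r u y) →
      insert y σ ∈ P.filter (fun σ => y ∈ σ) := by
    intro σ h3 h4 h5
    have h6 : ∀ u ∈ insert y σ, r u y := Finset.forall_mem_insert .. |>.2 ⟨hr, h5⟩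
    refine Finset.mem_filter.2 ⟨(h1 _).2 ⟨⟨Finset.insert_subset hy h3, Finset.insert_nonempty .., ?_⟩,
      h6⟩, Finset.mem_insert_self ..⟩
    intro a ha b hb
    rcases Finset.mem_insert.1 ha with rfl | ha'
    · exact Or.inr (h6 b hb)
    rcases Finset.mem_insert.1 hb with rfl | hb'
    · exact Or.inl (h6 a ha)
    · exact h4 a ha' b hb'
  refine CT.up (A := P.filter (fun σ => y ∈ σ)) (ct_bot (pon_sbs _) (m := {y})
    (h2 ∅ (Finset.empty_subset _) (by simp [Tot]) (by simp)) fun σ hσ =>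
      Finset.singleton_subset_iff.2 (Finset.mem_filter.1 hσ).2)
    (gp_retr_ge (ρ := insert y) (pon_sbs _) (Finset.filter_subset _ _) (fun σ hσ => ?_)
      (fun σ hσ => Finset.insert_eq_of_mem (Finset.mem_filter.1 hσ).2)
      (fun σ _ ρ _ hs => Finset.insert_subset_insert y hs) fun σ _ => Finset.subset_insert y σ)
  obtain ⟨⟨h3, -, h4⟩, h5⟩ := (h1 σ).1 hσ
  exact h2 σ h3 h4 h5

theorem me_top (h : POn r A) : ME sbs r l (OC r A) A (bt (swap r)) := by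
  exact me_of_fibres (mo_top h) fun y hy => ct_top_fib h hy

/-- Labelling is an isomorphism of face posets (`me_emb_iff`). -/
theorem me_lab (h : POn r A) {ℓ : α → ℕ} (hi : Set.InjOn ℓ A) :
    ME sbs sbs l (OC r A) (labK h ℓ).faces (fun σ => σ.image ℓ) := by
  have h1 : ∀ σ ∈ OC r A, ∀ ρ ∈ OC r A, (sbs (σ.image ℓ) (ρ.image ℓ) ↔ sbs σ ρ) := by
    refine fun σ hσ ρ hρ => ⟨fun hs => ?_, fun hs => Finset.image_subset_image hs⟩
    rw [← ttop_filt hi (mem_OC.1 hσ).1, ← ttop_filt hi (mem_OC.1 hρ).1]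
    exact Finset.monotone_filter_right A fun a _ ha => hs ha
  exact (me_emb_iff (pon_sbs _) (pon_sbs _) (fun σ hσ ρ hρ e => Finset.Subset.antisymm
    ((h1 σ hσ ρ hρ).1 (le_of_eq e)) ((h1 ρ hρ σ hσ).1 (ge_of_eq e))) h1
    fun σ hσ => Finset.mem_image_of_mem _ hσ).2 (GP.refl (pon_sbs _))

/-- The inverse isomorphism. -/
theorem me_unlab (h : POn r A) {ℓ : α → ℕ} (hi : Set.InjOn ℓ A) :
    ME sbs sbs l (labK h ℓ).faces (OC r A) (fun ρ => A.filter (fun a => ℓ a ∈ ρ)) := by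
  refine (me_lab h hi).right ⟨pon_sbs _, pon_sbs _, fun ρ hρ => ?_,
    fun σ _ ρ _ hs => Finset.monotone_filter_right A fun a _ ha => hs ha⟩
    (((me_incl_iff (pon_sbs _) (Finset.Subset.refl _)).2 (GP.refl (pon_sbs _))).congr
      fun σ hσ => ttop_filt hi (mem_OC.1 hσ).1)
  obtain ⟨σ, hσ, rfl⟩ := Finset.mem_image.1 hρ
  rwa [ttop_filt hi (mem_OC.1 hσ).1]

theorem mem_sdK {K : SC} {ρ : Finset ℕ} :
    ρ ∈ (sdK K).faces ↔ ∃ Θ ∈ OC sbs K.faces, ρ = Θ.image enc := by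
  exact Finset.mem_image.trans (exists_congr fun _ => and_congr_right fun _ => eq_comm)

theorem topK_image {K : SC} {Θ : Finset (Finset ℕ)} (h : Θ ∈ OC sbs K.faces) :
    topK (Θ.image enc) = bt (swap sbs) Θ := by
  obtain ⟨h1, h2⟩ := ttop_top (pon_sbs _) h
  ext v
  simp only [topK, Finset.mem_biUnion, Finset.mem_image]
  constructor
  · rintro ⟨_, ⟨σ, hσ, rfl⟩, hv⟩
    exact h2 σ hσ (dec_enc σ ▸ hv)
  · exact fun hv => ⟨_, ⟨_, h1, rfl⟩, (dec_enc _).symm ▸ hv⟩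

theorem topK_mono {ρ ρ' : Finset ℕ} (h : ρ ⊆ ρ') : topK ρ ⊆ topK ρ' := by
  exact Finset.biUnion_subset_biUnion_of_subset_left _ h

/-- `ct_image` along `fun Θ => Θ.image enc` and `ct_top_fib`. -/
theorem ct_topK {K : SC} {σ : Finset ℕ} (h : σ ∈ K.faces) :
    CT sbs l ((sdK K).faces.filter (fun ρ => sbs (topK ρ) σ)) := by
  have h1 := (ct_image (r' := sbs) (l := l) (f := fun Θ : Finset (Finset ℕ) => Θ.image enc)
    (Finset.image_injective enc_inj).injOn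
    fun _ _ _ _ => Finset.image_subset_image_iff enc_inj).2 (ct_top_fib (pon_sbs K.faces) h)
  refine (congrArg _ (Finset.ext fun ρ => ?_)).mp h1
  simp only [Finset.mem_image, Finset.mem_filter, mem_sdK]
  constructor
  · rintro ⟨Θ, ⟨h2, h3⟩, rfl⟩
    exact ⟨⟨Θ, h2, rfl⟩, (topK_image h2).symm ▸ h3⟩
  · rintro ⟨⟨Θ, h2, rfl⟩, h3⟩
    exact ⟨Θ, ⟨h2, topK_image h2 ▸ h3⟩, rfl⟩

/-- The cardinality is injective on a chain, with values in `1, ..., n`. -/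
theorem card_chain {K : SC} {n : ℕ} (h : ∀ σ ∈ K.faces, σ.card ≤ n) {Θ : Finset (Finset ℕ)}
    (hΘ : Θ ∈ OC sbs K.faces) : Θ.card ≤ n := by
  obtain ⟨h1, -, h2⟩ := mem_OC.1 hΘ
  refine (Finset.card_le_card_of_injOn (t := Finset.Icc 1 n) Finset.card
    (fun σ hσ => ?_) fun σ hσ ρ hρ e => ?_).trans (by simp)
  · exact Finset.mem_coe.2 (Finset.mem_Icc.2 ⟨(K.nonempty σ (h1 hσ)).card_pos, h σ (h1 hσ)⟩)
  · exact (h2 σ hσ ρ hρ).elim (fun h3 => Finset.eq_of_subset_of_card_le h3 e.ge)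
      fun h3 => (Finset.eq_of_subset_of_card_le h3 e.le).symm

theorem card_sdK {K : SC} {n : ℕ} (h : ∀ σ ∈ K.faces, σ.card ≤ n) :
    ∀ ρ ∈ (sdK K).faces, ρ.card ≤ n := by
  intro ρ hρ
  obtain ⟨Θ, h1, rfl⟩ := mem_sdK.1 hρ
  exact Finset.card_image_le.trans (card_chain h h1)

/-- Both ends of the cylinder are good (`Mo.gp_inr`); use `GE.pd_iff`, `Emb.pd_iff`, `emb_OC`,
`OC_image` as in the proof of `me_pd_iff`. -/
theorem ME.pd_iff' {γ : Type} [DecidableEq γ] [Nonempty γ] {r' : γ → γ → Prop} {B : Finset γ}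
    {f : α → γ} (h : ME r r' 2 A B f) : PD r (OC r A) ↔ PD r' (OC r' B) := by
  have hA := h.1.pA
  have hB := h.1.pB
  have g1 := h.2.2.2
  have g2 := (h.1.gp_inr (l := 2)).2.2
  rw [OC_image (r := r) Sum.inl_injective.injOn fun _ _ _ _ => Iff.rfl] at g1
  rw [OC_image (r := r') Sum.inr_injective.injOn fun _ _ _ _ => Iff.rfl] at g2
  rw [← (emb_OC (r := r) (r' := cy r r' f) Sum.inl_injective.injOn (fun _ _ _ _ => Iff.rfl)
      hA).pd_iff (cx_OC hA), ← (emb_OC (r := r') (r' := cy r r' f) Sum.inr_injective.injOn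
      (fun _ _ _ _ => Iff.rfl) hB).pd_iff (cx_OC hB)]
  exact g1.pd_iff.trans g2.pd_iff.symm

theorem pdk_lab (h : POn r A) {ℓ : α → ℕ} (hi : Set.InjOn ℓ A) :
    PDK (labK h ℓ) ↔ PD r (OC r A) := by
  exact (me_lab h hi).pd_iff'.symm.trans (me_top h).pd_iff'

end Pool.Agent.Lib.MP_5ceaf9_gt
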