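import Pool.Agent.Lib.MP_5ceaf9_gt.DefsT
import Pool.Agent.Lib.MP_5ceaf9_gt.AlgH

/-! Determinants of matrices that are trivial in the Whitehead group; graded contractions. -/

noncomputable section

namespace Pool.Agent.Lib.MP_5ceaf9_gt

variable {ι F : Type} [Field F] [Fintype ι] [DecidableEq ι]

/-- Induction on the closure; `Matrix.det_fromBlocks_zero₂₁`. -/
theorem WhTriv.det {Γ : Type} [Group Γ] {M : Matrix ι ι (ZG Γ)} (h : WhTriv M)
    {φ : ZG Γ →+* F} (hφ : φ ∈ PhiG Γ F) : (M.map φ).det ^ 8 = 1 := by
  obtain ⟨n, hn⟩ := h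
  have key : ∀ A ∈ Submonoid.closure
      ({A | ∃ i j r, i ≠ j ∧ A = 1 + Matrix.single i j r} ∪
        {A : Matrix (ι ⊕ Fin n) (ι ⊕ Fin n) (ZG Γ) | ∃ (g : ι ⊕ Fin n → Γ) (ε : ι ⊕ Fin n → ℤˣ),
          A = Matrix.diagonal fun i => MonoidAlgebra.single (g i) (ε i : ℤ)}),
      (A.map φ).det ^ 8 = 1 := fun A hA => by
    induction hA using Submonoid.closure_induction with
    | mem A hA =>
      rcases hA with ⟨i, j, r, hij, rfl⟩ | ⟨g, ε, rfl⟩
      · rw [Matrix.map_add _ (map_add φ), Matrix.map_one _ (map_zero φ) (map_one φ),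
          Matrix.map_single]
        exact (congrArg (· ^ 8) (Matrix.det_transvection_of_ne i j hij (φ r))).trans (one_pow 8)
      · rw [Matrix.diagonal_map (map_zero φ), Matrix.det_diagonal, ← Finset.prod_pow]
        refine Finset.prod_eq_one fun i _ => ?_
        rcases Int.units_eq_one_or (ε i) with h | h
        · rw [h]
          exact hφ (g i)
        · rw [h, Units.val_neg, Units.val_one, MonoidAlgebra.single_neg, map_neg,
            Even.neg_pow (by decide)]
          exact hφ (g i)
    | one => rw [Matrix.map_one _ (map_zero φ) (map_one φ), Matrix.det_one, one_pow]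
    | mul A B _ _ hA hB => rw [Matrix.map_mul, Matrix.det_mul, mul_pow, hA, hB, one_mul]
  have h1 := key _ hn
  rwa [Matrix.fromBlocks_map, Matrix.map_zero _ (map_zero φ), Matrix.map_zero _ (map_zero φ),
    Matrix.map_one _ (map_zero φ) (map_one φ), Matrix.det_fromBlocks_zero₂₁, Matrix.det_one,
    mul_one] at h1

/-- A matrix that lowers a grading is block triangular with zero diagonal blocks (or nilpotent). -/
theorem det_one_add_gr {g : ι → ℤ} {N : Matrix ι ι F} (h : Gr g g (-2) N) : (1 + N).det = 1 := by
  have h0 : ∀ x y, g y ≤ g x → N x y = 0 := fun x y l => not_not.1 fun k => by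
    have := h x y k
    omega
  have h1 : (1 + N).BlockTriangular g := fun x y l => by
    rw [Matrix.add_apply, h0 x y l.le, add_zero, Matrix.one_apply_ne fun k => l.ne' (congrArg g k)]
  rw [h1.det]
  refine Finset.prod_eq_one fun a _ => Eq.trans (congrArg Matrix.det ?_) Matrix.det_one
  ext x y
  rw [Matrix.toSquareBlock_def, Matrix.of_apply, Matrix.add_apply,
    h0 _ _ (y.2.trans x.2.symm).le, add_zero]
  simp only [Matrix.one_apply, Subtype.ext_iff]

/-- Put `s' = s d s`. It is a contraction with `s' s' = 0`, `s s` commutes with `d`, and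
`(d + s) (d + s') = 1 + s s'` with `s s'` of degree minus two. Read the block from `p = true` to
`p = true` of this identity, and use `tor_eq` with `s'`. -/
theorem tor_mul_det {p : ι → Bool} {d s : Matrix ι ι F} {g : ι → ℤ} (hd : Dm p d)
    (hp : ∀ x, p x = decide (g x % 2 = 0)) (gd : Gr g g 1 d) (gs : Gr g g (-1) s)
    (h : d * s + s * d = 1) (e : {x // p x = true} ≃ {x // p x = false}) :
    tor p d * (Matrix.of fun x y : {x // p x = true} => (d + s) x.1 (e y).1).det ^ 8 = 1 := by
  have odd : ∀ {t : Matrix ι ι F}, Gr g g (-1) t → OddM p p t := fun ht x y k => by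
    have := ht x y k
    rw [hp, hp, Ne, decide_eq_decide]
    omega
  have h3 : d * s * d = d := by
    rw [eq_sub_of_add_eq h, sub_mul, one_mul, mul_assoc, hd.1, mul_zero, sub_zero]
  have h4 : d * s * s = s * s * d := by
    rw [eq_sub_of_add_eq h, mul_assoc s s, eq_sub_of_add_eq' h, mul_sub, mul_one, sub_mul,
      one_mul, ← mul_assoc s d, eq_sub_of_add_eq' h]
  have g1 : Gr g g (-1) (s * d * s) := (gs.mul gd).mul gs
  have g2 : Gr g g (-2) (s * (s * d * s)) := gs.mul g1
  have h5 : s * d * s * (s * d * s) = 0 := by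
    have k : s * d * s * (s * d * s) = s * (d * s * s) * d * s := by simp only [mul_assoc]
    rw [k, h4, mul_assoc s, mul_assoc (s * s), hd.1, mul_zero, mul_zero, zero_mul]
  have h6 : d * (s * d * s) + s * d * s * d = 1 := by
    have k : d * (s * d * s) + s * d * s * d = d * s * d * s + s * (d * s * d) := by
      simp only [mul_assoc]
    rw [k, h3, h]
  have h7 : (d + s) * (d + s * d * s) = 1 + s * (s * d * s) := by
    rw [add_mul, mul_add, mul_add, hd.1, zero_add, ← add_assoc, ← mul_assoc d, ← mul_assoc d, h3, h]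
  have h8 := algc_mul (p := p) (d + s) (d + s * d * s) true false true fun x y z hx _ hy => by
    have k : p x = p y := hx.trans (by simpa using hy : p y = true).symm
    rw [Matrix.add_apply, not_not.1 fun l => hd.2 x y l k, not_not.1 fun l => odd gs x y l k,
      add_zero, zero_mul]
  have h9 : ((1 + s * (s * d * s)).toBlock (fun x => p x = true) fun x => p x = true).det = 1 := by
    rw [← det_one_add_gr (g := fun x : {x // p x = true} => g x)
      (N := (s * (s * d * s)).toBlock (fun x => p x = true) fun x => p x = true)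
      fun x y k => g2 x y k, ← Matrix.toBlock_one_self]
    rfl
  rw [tor_eq hd ⟨_, odd g1, h5, h6, e, rfl⟩, ← mul_pow, mul_comm, ← Matrix.det_mul]
  rw [h7] at h8
  have h10 := congrArg Matrix.det (h8.trans (Matrix.submatrix_mul_equiv _ _ id e id).symm)
  exact (congrArg (· ^ 8) (h10.symm.trans h9)).trans (one_pow 8)

end Pool.Agent.Lib.MP_5ceaf9_gt
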