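import Pool.Agent.Lib.MP_5ceaf9_gt.VDefs

/-! Chain equivalences over the integers. -/

noncomputable section

namespace Pool.Agent.Lib.MP_5ceaf9_gt.V

open Classical Function

section alg

variable {ι κ μ : Type} [Fintype ι] [DecidableEq ι] [Fintype κ] [DecidableEq κ] [Fintype μ]
  [DecidableEq μ] {g : ι → ℤ} {g' : κ → ℤ} {g'' : μ → ℤ} {d : Matrix ι ι ℤ} {d' : Matrix κ κ ℤ}
  {d'' : Matrix μ μ ℤ}

omit [DecidableEq ι] [DecidableEq κ] in
theorem valg_cm {f : Matrix κ ι ℤ} (s' : d' * d' = 0) (s : d * d = 0) (h' : Gr g' g' 1 d')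
    (h : Gr g g 1 d) (hf : Gr g' g 0 f) (hc : d' * f = f * d) :
    CM (fun x => decide (g' x % 2 = 1)) (fun x => decide (g x % 2 = 1)) d' d f := by
  refine ⟨⟨s', fun x y hxy => ?_⟩, ⟨s, fun x y hxy => ?_⟩, fun x y hxy => ?_, hc⟩
  · have := h' x y hxy
    simp only [ne_eq, decide_eq_decide]
    omega
  · have := h x y hxy
    simp only [ne_eq, decide_eq_decide]
    omega
  · have := hf x y hxy
    simp only [decide_eq_decide]
    omega

theorem valg_gd {p : ι → Bool} (h : Dm p d) (hc : Ctr d) :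
    Gd 1 (∅ : Set (ℤ →+* ℚ)) p d :=
  ⟨h, fun _ => hc, fun h2 => absurd h2 (by norm_num)⟩

theorem valg_id (d : Matrix ι ι ℤ) : Ctr (cone d d 1) := by
  refine ⟨Matrix.fromBlocks 0 0 1 0, ?_⟩
  simp [cone, Matrix.fromBlocks_multiply, Matrix.fromBlocks_add]

omit [DecidableEq ι] [DecidableEq κ] [DecidableEq μ] in
theorem valg_blocks (hd : d * d = 0) (e : κ ⊕ μ ≃ ι) {a : Matrix κ κ ℤ} {b : Matrix κ μ ℤ}
    {c : Matrix μ μ ℤ} (h : d.submatrix e e = Matrix.fromBlocks a b 0 c) :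
    a * a = 0 ∧ a * b + b * c = 0 ∧ c * c = 0 := by
  have h1 : d.submatrix e e * d.submatrix e e = 0 := by
    rw [Matrix.submatrix_mul_equiv, hd]
    rfl
  rw [h, Matrix.fromBlocks_multiply, ← Matrix.fromBlocks_zero, Matrix.fromBlocks_inj] at h1
  obtain ⟨h1, h2, _, h4⟩ := h1
  refine ⟨by simpa using h1, h2, by simpa using h4⟩

/-- Hint: parities `fun x => decide (g x % 2 = 1)` give `CM`; use `gd_cone_comp` with level one
and `Φ = (∅ : Set (ℤ →+* F25))`, where `Gd 1 ∅ p d` is `Dm p d` and `Ctr d`. -/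
theorem CQ.trans (h : CQ g'' g' d'' d') (h' : CQ g' g d' d) : CQ g'' g d'' d := by
  obtain ⟨f1, g1, c1, k1⟩ := h.ex
  obtain ⟨f2, g2, c2, k2⟩ := h'.ex
  have m1 := valg_cm h.sq' h.sq h.gr' h.gr g1 c1
  have m2 := valg_cm h'.sq' h'.sq h'.gr' h'.gr g2 c2
  refine ⟨h.sq', h'.sq, h.gr', h'.gr, f1 * f2, by simpa using g1.mul g2, (m1.comp m2).comm, ?_⟩
  exact (gd_cone_comp m1 m2 (valg_gd m1.cone k1) (valg_gd m2.cone k2)).2.1 le_rfl

/-- Homotopic maps have isomorphic cones. Hint: `Ctr.conj` with `fromBlocks 1 (± y) 0 1`. -/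
theorem ctr_cone_htpy {f y : Matrix κ ι ℤ} (h : Ctr (cone d' d f)) :
    Ctr (cone d' d (f + d' * y + y * d)) := by
  have h1 := h.conj (P := Matrix.fromBlocks 1 (-y) 0 1) (Q := Matrix.fromBlocks 1 y 0 1)
    (by simp [Matrix.fromBlocks_multiply]) (by simp [Matrix.fromBlocks_multiply])
  have h2 : Matrix.fromBlocks 1 (-y) 0 1 * cone d' d f * Matrix.fromBlocks 1 y 0 1 =
      cone d' d (f + d' * y + y * d) := by
    simp only [cone, Matrix.fromBlocks_multiply, Matrix.one_mul, Matrix.mul_one, Matrix.mul_zero,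
      Matrix.zero_mul, add_zero, zero_add, Matrix.neg_mul, Matrix.mul_neg, neg_neg]
    congr 1
    abel
  rwa [h2] at h1

/-- Hint: `algh_blocks` gives `C` with `f * C = 1 - d' * A - A * d'`; the cone of `f * C` is
contractible by `ctr_cone_htpy` and `gd_cone_id`; then `gd_cone_right`. -/
theorem CQ.symm (h : CQ g' g d' d) : CQ g g' d d' := by
  obtain ⟨f, gf, cf, kf⟩ := h.ex
  obtain ⟨A, C, E, _, gC, _, e1, e2, _⟩ := algh_blocks kf h.gr' h.gr gf
  have m1 := valg_cm h.sq' h.sq h.gr' h.gr gf cf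
  have m2 := valg_cm h.sq h.sq' h.gr h.gr' gC e2
  refine ⟨h.sq, h.sq', h.gr, h.gr', C, gC, e2, ?_⟩
  have e3 : f * C = 1 + d' * (-A) + (-A) * d' := by
    rw [← e1, Matrix.mul_neg, Matrix.neg_mul]
    abel
  have k : Ctr (cone d' d' (f * C)) := by
    rw [e3]
    exact ctr_cone_htpy (valg_id d')
  exact (gd_cone_right m1 m2 (valg_gd (m1.comp m2).cone k) (valg_gd m1.cone kf)).2.1 le_rfl

/-- Hint: use `-f`; the cone is the negative of the old cone. -/
theorem CQ.shift (h : CQ g' g d' d) :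
    CQ (fun x => g' x + 1) (fun x => g x + 1) (-d') (-d) := by
  obtain ⟨f, gf, cf, kf⟩ := h.ex
  refine ⟨by simpa using h.sq', by simpa using h.sq, fun x y hxy => ?_, fun x y hxy => ?_, -f,
    fun x y hxy => ?_, by simpa using cf, ?_⟩
  · have := h.gr' x y (by simpa using hxy)
    omega
  · have := h.gr x y (by simpa using hxy)
    omega
  · have := gf x y (by simpa using hxy)
    simp only
    omega
  · have e : cone (-d') (-d) (-f) = -cone d' d f := by
      simp [cone, Matrix.fromBlocks_neg]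
    rw [e]
    exact kf.neg

/-- Hint: `gd_iff_of_cone`. -/
theorem CQ.ctr (h : CQ g' g d' d) : Ctr d' ↔ Ctr d := by
  obtain ⟨f, gf, cf, kf⟩ := h.ex
  have m := valg_cm h.sq' h.sq h.gr' h.gr gf cf
  have k := gd_iff_of_cone m (valg_gd m.cone kf)
  exact ⟨fun c => (k.1 (valg_gd m.dm' c)).2.1 le_rfl, fun c => (k.2 (valg_gd m.dm c)).2.1 le_rfl⟩

/-- Reindexing. Hint: the map is the permutation matrix of `e`; its cone is a reindexed cone of
the identity. -/
theorem cq_of_equiv (h : d * d = 0) (hg : Gr g g 1 d) (e : κ ≃ ι) (h1 : ∀ x, g' x = g (e x))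
    (h2 : ∀ x y, d' x y = d (e x) (e y)) : CQ g' g d' d := by
  obtain rfl : d' = d.submatrix e e := by
    ext x y
    exact h2 x y
  refine ⟨?_, h, fun x y hxy => ?_, hg, (1 : Matrix ι ι ℤ).submatrix e (Equiv.refl ι),
    fun x y hxy => ?_, ?_, ?_⟩
  · rw [Matrix.submatrix_mul_equiv, h]
    rfl
  · rw [h1, h1]
    exact hg _ _ hxy
  · have : e x = y := by
      by_contra hne
      exact hxy (Matrix.one_apply_ne hne)
    rw [h1, this, add_zero]
  · rw [Matrix.submatrix_mul_equiv, Matrix.mul_one]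
    have := Matrix.submatrix_mul_equiv (1 : Matrix ι ι ℤ) d e (Equiv.refl ι) (Equiv.refl ι)
    rw [Matrix.one_mul] at this
    exact this.symm
  · have k := alga_ctr (valg_id d) (e.sumCongr (Equiv.refl ι))
    have e1 : (cone d d 1).submatrix (e.sumCongr (Equiv.refl ι)) (e.sumCongr (Equiv.refl ι)) =
        cone (d.submatrix e e) d ((1 : Matrix ι ι ℤ).submatrix e (Equiv.refl ι)) := by
      ext (x | x) (y | y) <;> rfl
    rwa [e1] at k

theorem not_ctr_unit : ¬ Ctr (0 : Matrix Unit Unit ℤ) := by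
  rintro ⟨s, hs⟩
  have := congrFun (congrFun hs ()) ()
  simp at this

/-- Hint: conjugate the negative of the cone by the diagonal matrix with blocks `-1` and `1`. -/
theorem ctr_cone_neg {z : Matrix Unit ι ℤ} (h : Ctr (cone (0 : Matrix Unit Unit ℤ) d z)) :
    Ctr (cone (0 : Matrix Unit Unit ℤ) (-d) z) := by
  have h1 := h.neg.conj (P := Matrix.fromBlocks (-1) 0 0 1) (Q := Matrix.fromBlocks (-1) 0 0 1)
    (by simp [Matrix.fromBlocks_multiply]) (by simp [Matrix.fromBlocks_multiply])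
  have h2 : Matrix.fromBlocks (-1) 0 0 1 * (-cone (0 : Matrix Unit Unit ℤ) d z) *
      Matrix.fromBlocks (-1) 0 0 1 = cone (0 : Matrix Unit Unit ℤ) (-d) z := by
    simp [cone, Matrix.fromBlocks_neg, Matrix.fromBlocks_multiply]
  rwa [h2] at h1

/-- In the top degree every cycle with coefficients in a ring is a multiple of the fundamental
cycle. Hint: `Ctr.map`, `cone_map`, `lift_cyc`; the correction term vanishes by degree. -/
theorem rank_one {n : ℤ} {z : ι → ℤ} (hg : Gr g g 1 d) (hz : ∀ x, z x ≠ 0 → g x = n)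
    (hc : Ctr (cone (0 : Matrix Unit Unit ℤ) d (Matrix.of fun _ x => z x))) (hn : ∀ x, g x ≤ n)
    {R : Type} [CommRing R] {y : ι → R} (hy : ∀ x, y x ≠ 0 → g x = n)
    (h0 : ∀ w, ∑ x, y x * (d x w : R) = 0) : ∃ a : R, ∀ x, y x = a * (z x : R) := by
  have k := hc.map (Int.castRingHom R)
  rw [cone_map] at k
  have hm : ∀ {a b : Type} {ga : a → ℤ} {gb : b → ℤ} {k : ℤ} {m : Matrix a b ℤ}, Gr ga gb k m →
      Gr ga gb k (m.map (Int.castRingHom R)) := by
    intro a b ga gb k m h x y hxy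
    refine h x y fun h1 => hxy ?_
    simp [h1]
  obtain ⟨a, b, _, gb, _, e⟩ := lift_cyc (g' := fun _ : Unit => n) (gJ := fun _ : Unit => n) k
    (hm fun _ _ h => absurd rfl h) (hm hg)
    (hm fun _ x h => by rw [add_zero]; exact (hz x h).symm)
    (z := Matrix.of fun (_ : Unit) x => y x)
    (by
      ext u w
      simpa [Matrix.mul_apply] using h0 w)
    (fun _ x h => by rw [add_zero]; exact (hy x h).symm)
  have hb : b = 0 := by
    ext u w
    by_contra hne
    have h1 := gb u w hne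
    have h2 := hn w
    simp only at h1
    omega
  refine ⟨a () (), fun x => ?_⟩
  have := congrFun (congrFun e ()) x
  simpa [hb, Matrix.mul_apply] using this

end alg

/-- A convex family of chains. -/
structure Cv {α : Type} (r : α → α → Prop) (Z : Finset (Finset α)) : Prop where
  ch : ∀ σ ∈ Z, POn r σ ∧ Tot r σ
  conv : ∀ σ ∈ Z, ∀ τ ∈ Z, ∀ ρ, τ ⊆ ρ → ρ ⊆ σ → ρ ∈ Z

variable {α β : Type} [DecidableEq α] [DecidableEq β] [Nonempty α] [Nonempty β]
  {r : α → α → Prop} {r' : β → β → Prop} {X Y Z : Finset (Finset α)}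

theorem valg_card {σ ρ : Finset α} (h : Dz r σ ρ ≠ 0) : (σ.card : ℤ) = ρ.card + 1 := by
  obtain ⟨v, hv, rfl⟩ := Dz_ne h
  exact_mod_cast (Finset.card_erase_add_one hv).symm

omit [Nonempty α] in
theorem valg_empty (ρ : Finset α) : Dz r ∅ ρ = 0 := by
  simp [Dz]

theorem valg_mul {ι κ μ : Type} {A : Finset ι} {B : Finset κ} {C : Finset μ} (M : ι → κ → ℤ)
    (N : κ → μ → ℤ) (x : ↥A) (y : ↥C) :
    (rs A B M * rs B C N) x y = ∑ u ∈ B, M x.1 u * N u y.1 := by
  rw [Matrix.mul_apply]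
  exact Finset.sum_coe_sort B fun u => M x.1 u * N u y.1

/-- The indices of a family with the empty simplex added. -/
def valg_ins {α : Type} [DecidableEq α] {K : Finset (Finset α)} (h : ∅ ∉ K) :
    ↥K ⊕ Unit ≃ ↥(insert ∅ K) where
  toFun := Sum.elim (fun x => ⟨x.1, Finset.mem_insert_of_mem x.2⟩)
    fun _ => ⟨∅, Finset.mem_insert_self _ _⟩
  invFun := fun z => if hz : z.1 ∈ K then Sum.inl ⟨z.1, hz⟩ else Sum.inr ()
  left_inv := by
    rintro (x | y)
    · simp
    · simp [h]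
  right_inv := by
    rintro ⟨z, hz⟩
    rcases Finset.mem_insert.1 hz with rfl | hz
    · simp [h]
    · simp [hz]

theorem gr_Dz (X : Finset (Finset α)) : Gr (cd X) (cd X) 1 (rs X X (Dz r)) := by
  intro x y h
  exact valg_card h

theorem Cv.sq (h : Cv r Z) : rs Z Z (Dz r) * rs Z Z (Dz r) = 0 :=
  (dm_Dz h.ch h.conv).1

omit [Nonempty α] in
theorem cv_aug {K : Finset (Finset α)} (h : Cx r K) : Cv r (insert ∅ K) := by
  refine ⟨fun σ hσ => ?_, fun σ hσ τ _ ρ _ h2 => ?_⟩
  · rcases Finset.mem_insert.1 hσ with rfl | hσ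
    · exact ⟨⟨by simp, by simp, by simp⟩, by simp [Tot]⟩
    · exact ⟨h.po σ hσ, h.tot σ hσ⟩
  · rcases ρ.eq_empty_or_nonempty with rfl | hρ
    · exact Finset.mem_insert_self _ _
    · rcases Finset.mem_insert.1 hσ with rfl | hσ
      · exact absurd (hρ.mono h2) (by simp)
      · exact Finset.mem_insert_of_mem (h.down σ hσ ρ h2 hρ)

/-- A contractible family split into an upper part `X` and the rest `Y`. Hint: the map is
`rs X Y (Dz r)` and the cone is the matrix on `Z` reindexed by `X ⊕ Y ≃ Z`. -/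
theorem cq_split (h : Cv r Z) (hX : X ⊆ Z) (hY : ∀ σ, σ ∈ Y ↔ σ ∈ Z ∧ σ ∉ X)
    (up : ∀ σ ∈ X, ∀ τ ∈ Z, σ ⊆ τ → τ ∈ X) (hc : Ctr (rs Z Z (Dz r))) :
    CQ (cd X) (fun y => cd Y y + 1) (rs X X (Dz r)) (-rs Y Y (Dz r)) := by
  let e : ↥X ⊕ ↥Y ≃ ↥Z :=
    { toFun := Sum.elim (fun x => ⟨x.1, hX x.2⟩) fun y => ⟨y.1, ((hY _).1 y.2).1⟩
      invFun := fun z => if hz : z.1 ∈ X then Sum.inl ⟨z.1, hz⟩
        else Sum.inr ⟨z.1, (hY _).2 ⟨z.2, hz⟩⟩
      left_inv := by
        rintro (x | y)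
        · simp
        · simp [((hY _).1 y.2).2]
      right_inv := by
        intro z
        by_cases hz : z.1 ∈ X <;> simp [hz] }
  have he : (rs Z Z (Dz r)).submatrix e e =
      Matrix.fromBlocks (rs X X (Dz r)) (rs X Y (Dz r)) 0 (rs Y Y (Dz r)) := by
    ext (x | x) (y | y)
    · rfl
    · rfl
    · by_contra hne
      exact ((hY _).1 x.2).2 (up y.1 y.2 x.1 ((hY _).1 x.2).1 (sxa2_sub hne))
    · rfl
  obtain ⟨s1, s2, s3⟩ := valg_blocks h.sq e he
  refine ⟨s1, by simpa using s3, gr_Dz X, fun x y hxy => ?_, rs X Y (Dz r), fun x y hxy => ?_,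
    ?_, ?_⟩
  · have := gr_Dz (r := r) Y x y (by simpa using hxy)
    omega
  · have := valg_card (r := r) (σ := x.1) (ρ := y.1) hxy
    simp only [cd]
    omega
  · rw [Matrix.mul_neg]
    exact eq_neg_of_add_eq_zero_left s2
  · have k := alga_ctr hc e
    rw [he] at k
    simpa [cone] using k

/-- A cone is contractible. Hint: `gd_filt` at level one with `π σ = σ.erase v`, rank the
cardinality, and `gd_pair` on the fibres `{ρ, insert v ρ}`; or the explicit contraction. -/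
theorem ctr_cone (h : Cv r Z) (v : α) (h1 : ∀ σ ∈ Z, insert v σ ∈ Z)
    (h2 : ∀ σ ∈ Z, σ.erase v ∈ Z) : Ctr (rs Z Z (Dz r)) := by
  refine (gd_filt (l := 1) (Φ := (∅ : Set (ℤ →+* ℚ))) (dm_Dz h.ch h.conv)
    (fun x : ↥Z => x.1.erase v) Finset.card (fun x y hxy => ?_) fun k => ?_).2.1 le_rfl
  · obtain ⟨u, hu, e⟩ := Dz_ne (r := r) (σ := x.1) (ρ := y.1) hxy
    by_cases huv : u = v
    · left
      rw [e, huv, Finset.erase_idem]
    · right
      rw [e, Finset.erase_right_comm]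
      exact Finset.card_erase_lt_of_mem (Finset.mem_erase.2 ⟨huv, hu⟩)
  · rcases isEmpty_or_nonempty {x : ↥Z // x.1.erase v = k} with hk | ⟨⟨x, hx⟩⟩
    · exact gd_empty
    have hv : v ∉ k := by
      rw [← hx]
      exact Finset.notMem_erase _ _
    have k0 : k ∈ Z := hx ▸ h2 _ x.2
    have e1 : (insert v k).erase v = k := Finset.erase_insert hv
    have e2 : k.erase v = k := Finset.erase_eq_of_notMem hv
    have e3 : Dz r (insert v k) k = sg r (insert v k) v := by
      have := Dz_erase (r := r) (Finset.mem_insert_self v k)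
      rwa [e1] at this
    have e4 := sg_mul_self (r := r) (σ := insert v k) v
    have hall : ∀ z : {x : ↥Z // x.1.erase v = k},
        z = ⟨⟨insert v k, h1 k k0⟩, e1⟩ ∨ z = ⟨⟨k, k0⟩, e2⟩ := by
      rintro ⟨⟨z, hz⟩, hz'⟩
      by_cases hvz : v ∈ z
      · left
        refine Subtype.ext (Subtype.ext ?_)
        exact ((congrArg (insert v) hz').symm.trans (Finset.insert_erase hvz)).symm
      · right
        refine Subtype.ext (Subtype.ext ?_)
        exact (Finset.erase_eq_of_notMem hvz).symm.trans hz'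
    refine gd_pair (x := ⟨⟨insert v k, h1 k k0⟩, e1⟩) (y := ⟨⟨k, k0⟩, e2⟩) ?_ hall e4 e3 ?_
    · refine ps_ne (r := r) (σ := insert v k) (ρ := k) fun h0 => ?_
      rw [← e3, h0] at e4
      simp at e4
    · intro a b hab
      by_contra hne
      have hc := valg_card (r := r) (σ := a.1.1) (ρ := b.1.1) hne
      have hc' := Finset.card_insert_of_notMem hv
      rcases hall a with rfl | rfl <;> rcases hall b with rfl | rfl
      · simp at hc
      · exact hab ⟨rfl, rfl⟩
      · simp only at hc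
        omega
      · simp at hc

/-- Adding the empty simplex. Hint: extend `f` by `f ∅ ∅ = 1` and zero elsewhere; in the cone the
indices other than the two empty simplices span a subcomplex (`ctr_of_blocks`), the quotient is
the cone of the identity of one point. -/
theorem eq_aug {K : Finset (Finset α)} {L : Finset (Finset β)}
    (hK : Cx r K) (hL : Cx r' L) {f : Finset α → Finset β → ℤ}
    (gr : ∀ x ∈ K, ∀ y ∈ L, f x y ≠ 0 → x.card = y.card)
    (comm : rs K K (Dz r) * rs K L f = rs K L f * rs L L (Dz r'))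
    (hc : Ctr (cone (rs K K (Dz r)) (rs L L (Dz r')) (rs K L f)))
    (au : ∀ x ∈ K, Dz r x ∅ = ∑ y ∈ L, f x y * Dz r' y ∅) :
    EQ r (insert ∅ K) r' (insert ∅ L) := by
  have nK : ∅ ∉ K := fun h => by simpa using hK.ne _ h
  have nL : ∅ ∉ L := fun h => by simpa using hL.ne _ h
  have zK : ∀ x ∈ K, x ≠ ∅ := fun x hx h => nK (h ▸ hx)
  have zL : ∀ x ∈ L, x ≠ ∅ := fun x hx h => nL (h ▸ hx)
  let F : Finset α → Finset β → ℤ := fun x y =>
    if x = ∅ then (if y = ∅ then 1 else 0) else if y = ∅ then 0 else f x y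
  have F0 : F ∅ ∅ = 1 := by simp [F]
  have F1 : ∀ y ∈ L, F ∅ y = 0 := fun y hy => by simp [F, zL y hy]
  have F2 : ∀ x ∈ K, F x ∅ = 0 := fun x hx => by simp [F, zK x hx]
  have F3 : ∀ x ∈ K, ∀ y ∈ L, F x y = f x y := fun x hx y hy => by simp [F, zK x hx, zL y hy]
  have gF : Gr (cd (insert ∅ K)) (cd (insert ∅ L)) 0 (rs (insert ∅ K) (insert ∅ L) F) := by
    rintro ⟨x, hx⟩ ⟨y, hy⟩ hxy
    change F x y ≠ 0 at hxy
    simp only [cd, add_zero]
    rcases Finset.mem_insert.1 hx with rfl | hx <;> rcases Finset.mem_insert.1 hy with rfl | hy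
    · rfl
    · exact absurd (F1 y hy) hxy
    · exact absurd (F2 x hx) hxy
    · rw [gr x hx y hy (F3 x hx y hy ▸ hxy)]
  have cF : rs (insert ∅ K) (insert ∅ K) (Dz r) * rs (insert ∅ K) (insert ∅ L) F =
      rs (insert ∅ K) (insert ∅ L) F * rs (insert ∅ L) (insert ∅ L) (Dz r') := by
    ext ⟨x, hx⟩ ⟨y, hy⟩
    rw [valg_mul, valg_mul, Finset.sum_insert nK, Finset.sum_insert nL, valg_empty, mul_zero,
      zero_add]
    rcases Finset.mem_insert.1 hx with rfl | hx
    · rw [valg_empty, zero_mul, zero_add, Finset.sum_eq_zero fun u _ => by rw [valg_empty, zero_mul],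
        Finset.sum_eq_zero fun u hu => by rw [F1 u hu, zero_mul]]
    · rw [Finset.sum_congr rfl fun u hu => show F x u * Dz r' u y = f x u * Dz r' u y by
        rw [F3 x hx u hu]]
      rcases Finset.mem_insert.1 hy with rfl | hy
      · rw [F0, mul_one, Finset.sum_eq_zero fun u hu => by rw [F2 u hu, mul_zero], add_zero]
        exact au x hx
      · rw [F1 y hy, mul_zero, zero_add, Finset.sum_congr rfl fun u hu =>
          show Dz r x u * F u y = Dz r x u * f u y by rw [F3 u hu y hy]]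
        have := congrFun (congrFun comm ⟨x, hx⟩) ⟨y, hy⟩
        rwa [valg_mul, valg_mul] at this
  have m := valg_cm (cv_aug hK).sq (cv_aug hL).sq (gr_Dz _) (gr_Dz _) gF cF
  refine ⟨(cv_aug hK).sq, (cv_aug hL).sq, gr_Dz _, gr_Dz _, _, gF, cF, ?_⟩
  let e : (↥K ⊕ ↥L) ⊕ (Unit ⊕ Unit) ≃ ↥(insert ∅ K) ⊕ ↥(insert ∅ L) :=
    (Equiv.sumSumSumComm _ _ _ _).trans ((valg_ins nK).sumCongr (valg_ins nL))
  rw [← ctr_reindex e]
  obtain ⟨b, hb⟩ : ∃ b, (cone (rs (insert ∅ K) (insert ∅ K) (Dz r))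
      (rs (insert ∅ L) (insert ∅ L) (Dz r')) (rs (insert ∅ K) (insert ∅ L) F)).submatrix e e =
      Matrix.fromBlocks (cone (rs K K (Dz r)) (rs L L (Dz r')) (rs K L f)) b 0
        (cone (0 : Matrix Unit Unit ℤ) 0 1) := by
    refine ⟨Matrix.toBlocks₁₂ ((cone (rs (insert ∅ K) (insert ∅ K) (Dz r))
      (rs (insert ∅ L) (insert ∅ L) (Dz r')) (rs (insert ∅ K) (insert ∅ L) F)).submatrix e e), ?_⟩
    ext ((x | x) | (x | x)) ((y | y) | (y | y))
    · rfl
    · exact F3 x.1 x.2 y.1 y.2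
    · rfl
    · rfl
    · rfl
    · rfl
    · rfl
    · rfl
    · exact valg_empty (r := r) y.1
    · exact F1 y.1 y.2
    · exact valg_empty (r := r) ∅
    · exact F0
    · rfl
    · exact neg_eq_zero.2 (valg_empty (r := r') y.1)
    · rfl
    · exact congrArg Neg.neg (valg_empty (r := r') ∅)
  rw [hb]
  exact alga_of (valg_blocks m.cone.1 e hb).2.1 hc (valg_id 0)

end Pool.Agent.Lib.MP_5ceaf9_gt.V
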