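import Pool.Agent.Lib.MP_5ceaf9_gt.VDefs

/-! Cone neighbourhoods. -/

noncomputable section

namespace Pool.Agent.Lib.MP_5ceaf9_gt.V

open Classical Function

variable {X Y P Q : Type} [TopologicalSpace X] [TopologicalSpace Y] [TopologicalSpace P]
  [TopologicalSpace Q] {x : X}

/-- Hint: tube lemma (`IsCompact.eventually_forall_of_forall_eventually` or
`generalized_tube_lemma`) at `s = 0`. -/
theorem CN.tube [CompactSpace P] (a : CN x P) {O : Set X} (hO : IsOpen O) (hx : x ∈ O) :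
    ∃ ε : ℝ, 0 < ε ∧ ε < 1 ∧ ∀ p s, 0 ≤ s → s ≤ ε → a.c p s ∈ O := by
  have h : ∀ᶠ s in nhds (0 : ℝ), ∀ p ∈ (Set.univ : Set P), a.c p s ∈ O := by
    refine isCompact_univ.eventually_forall_of_forall_eventually
      (P := fun s p => a.c p s ∈ O) fun p _ => ?_
    have hc : Continuous fun z : ℝ × P => a.c z.2 z.1 := a.cc.comp continuous_swap
    refine hc.continuousAt.eventually_mem (hO.mem_nhds ?_)
    show a.c p 0 ∈ O
    rw [a.c0]
    exact hx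
  obtain ⟨r, hr, hb⟩ := Metric.eventually_nhds_iff.1 h
  refine ⟨min (r / 2) (1 / 2), lt_min (by positivity) (by norm_num),
    (min_le_right _ _).trans_lt (by norm_num), fun p s h0 h1 => hb ?_ p trivial⟩
  rw [Real.dist_eq, sub_zero, abs_of_nonneg h0]
  have := min_le_left (r / 2) (1 / 2)
  linarith

theorem vcn_pi (a : CN x P) {y y' : X} (h : y ∈ a.U ∧ y ≠ x) (h' : y' ∈ a.U ∧ y' ≠ x)
    (e : y = y') : a.π ⟨y, h⟩ = a.π ⟨y', h'⟩ := by
  subst e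
  rfl

theorem vcn_pos {u v : ℝ} (hu : 0 < u) (hv : 0 < v) (t : unitInterval) :
    0 < (1 - (t : ℝ)) * u + t * v := by
  have h0 := t.2.1
  have h1 := t.2.2
  rcases le_total u v with h | h <;> nlinarith

theorem vcn_le {u v w : ℝ} (hu : u ≤ w) (hv : v ≤ w) (t : unitInterval) :
    (1 - (t : ℝ)) * u + t * v ≤ w := by
  have h0 := t.2.1
  have h1 := t.2.2
  nlinarith

/-- `ε` is admissible from `a` to `b`. -/
def CN.Ad (a : CN x P) (b : CN x Q) (ε : ℝ) : Prop :=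
  0 < ε ∧ ε < 1 ∧ ∀ p s, 0 ≤ s → s ≤ ε → a.c p s ∈ b.U

/-- The comparison map at level `ε`. -/
def CN.cmp (a : CN x P) (b : CN x Q) {ε : ℝ} (h : a.Ad b ε) : C(P, Q) :=
  ⟨fun p => b.π ⟨a.c p ε, h.2.2 p ε h.1.le le_rfl, (a.cU p ε h.1 h.2.1).2⟩,
    b.πC.comp ((a.cc.comp (continuous_id.prodMk continuous_const)).subtype_mk _)⟩

/-- Hint: move the level linearly from `ε` to `ε'`. -/
theorem CN.cmp_htpy (a : CN x P) (b : CN x Q) {ε ε' : ℝ} (h : a.Ad b ε) (h' : a.Ad b ε') :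
    (a.cmp b h).Homotopic (a.cmp b h') := by
  have h0 : ∀ t : unitInterval, 0 < (1 - (t : ℝ)) * ε + t * ε' := vcn_pos h.1 h'.1
  have h1 : ∀ t : unitInterval, (1 - (t : ℝ)) * ε + t * ε' ≤ max ε ε' :=
    vcn_le (le_max_left _ _) (le_max_right _ _)
  have hm : ∀ z : unitInterval × P, a.c z.2 ((1 - (z.1 : ℝ)) * ε + z.1 * ε') ∈ b.U ∧
      a.c z.2 ((1 - (z.1 : ℝ)) * ε + z.1 * ε') ≠ x := by
    intro z
    refine ⟨?_, (a.cU _ _ (h0 z.1) ((h1 z.1).trans_lt (max_lt h.2.1 h'.2.1))).2⟩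
    rcases le_max_iff.1 (h1 z.1) with e | e
    · exact h.2.2 _ _ (h0 z.1).le e
    · exact h'.2.2 _ _ (h0 z.1).le e
  have hc : Continuous fun z : unitInterval × P =>
      a.c z.2 ((1 - (z.1 : ℝ)) * ε + z.1 * ε') :=
    a.cc.comp (continuous_snd.prodMk (by fun_prop))
  refine ⟨⟨⟨fun z => b.π ⟨_, hm z⟩, b.πC.comp (hc.subtype_mk _)⟩, fun p => ?_, fun p => ?_⟩⟩
  · exact vcn_pi b _ _ (by simp)
  · exact vcn_pi b _ _ (by simp)

/-- Hint: apply `tube` to the open set `{y ∈ b.U | b.ρ y < δ}`. With `y = a.c p ε` the homotopy is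
`a.π (b.c (b.π y) ((1 - t) * δ + t * b.ρ y))`; at `t = 1` use `b.inv` and `a.πc`. -/
theorem CN.cmp_cmp [CompactSpace P] (a : CN x P) (b : CN x Q) {δ : ℝ} (h : b.Ad a δ) :
    ∃ (ε : ℝ) (h' : a.Ad b ε), ((b.cmp a h).comp (a.cmp b h')).Homotopic (ContinuousMap.id P) := by
  obtain ⟨ε, e0, e1, e2⟩ := a.tube (b.ρU.isOpen_inter_preimage b.Uo (isOpen_Iio (a := δ)))
    ⟨b.xU, by rw [Set.mem_preimage, b.ρx]; exact h.1⟩
  have h' : a.Ad b ε := ⟨e0, e1, fun p s h0 h1 => (e2 p s h0 h1).1⟩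
  refine ⟨ε, h', ?_⟩
  have hy : ∀ p, a.c p ε ∈ b.U ∧ a.c p ε ≠ x := fun p =>
    ⟨h'.2.2 p ε e0.le le_rfl, (a.cU p ε e0 e1).2⟩
  have yc : Continuous fun p => a.c p ε := a.cc.comp (continuous_id.prodMk continuous_const)
  have rc : Continuous fun p => b.ρ (a.c p ε) := b.ρU.comp_continuous yc fun p => (hy p).1
  have h0 : ∀ z : unitInterval × P, 0 < (1 - (z.1 : ℝ)) * δ + z.1 * b.ρ (a.c z.2 ε) := fun z =>
    vcn_pos h.1 (b.inv _ (hy z.2)).1 z.1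
  have h1 : ∀ z : unitInterval × P, (1 - (z.1 : ℝ)) * δ + z.1 * b.ρ (a.c z.2 ε) ≤ δ := fun z =>
    vcn_le le_rfl (le_of_lt (e2 z.2 ε e0.le le_rfl).2) z.1
  have hm : ∀ z : unitInterval × P,
      b.c (a.cmp b h' z.2) ((1 - (z.1 : ℝ)) * δ + z.1 * b.ρ (a.c z.2 ε)) ∈ a.U ∧
      b.c (a.cmp b h' z.2) ((1 - (z.1 : ℝ)) * δ + z.1 * b.ρ (a.c z.2 ε)) ≠ x := fun z =>
    ⟨h.2.2 _ _ (h0 z).le (h1 z), (b.cU _ _ (h0 z) ((h1 z).trans_lt h.2.1)).2⟩
  have r2 : Continuous fun z : unitInterval × P => b.ρ (a.c z.2 ε) := rc.comp continuous_snd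
  have hc : Continuous fun z : unitInterval × P =>
      b.c (a.cmp b h' z.2) ((1 - (z.1 : ℝ)) * δ + z.1 * b.ρ (a.c z.2 ε)) :=
    b.cc.comp (((a.cmp b h').continuous.comp continuous_snd).prodMk
      ((by fun_prop : Continuous fun z : unitInterval × P => (1 - (z.1 : ℝ)) * δ).add
        ((by fun_prop : Continuous fun z : unitInterval × P => (z.1 : ℝ)).mul r2)))
  refine ⟨⟨⟨fun z => a.π ⟨_, hm z⟩, a.πC.comp (hc.subtype_mk _)⟩, fun p => ?_, fun p => ?_⟩⟩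
  · exact vcn_pi a _ _ (by simp)
  · refine (vcn_pi a _ (a.cU p ε e0 e1) ?_).trans (a.πc p ε _ e0 e1)
    have e := (b.inv _ (hy p)).2.2
    simp only [Set.Icc.coe_one, sub_self, zero_mul, one_mul, zero_add]
    exact e

/-- Hint: take an admissible `δ`, then `ε` from `cmp_cmp`, then `δ'` from `cmp_cmp` for `b`, `a`,
`ε`, and `cmp_htpy` between `δ` and `δ'`. -/
theorem cn_he [CompactSpace P] [CompactSpace Q] (a : CN x P) (b : CN x Q) :
    ∃ f : C(P, Q), IsHE f := by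
  obtain ⟨δ, h⟩ : ∃ δ, b.Ad a δ := b.tube a.Uo a.xU
  obtain ⟨ε, h', H1⟩ := a.cmp_cmp b h
  obtain ⟨δ', h'', H2⟩ := b.cmp_cmp a h'
  exact ⟨a.cmp b h', b.cmp a h, H1,
    ((ContinuousMap.Homotopic.refl _).comp (b.cmp_htpy a h h'')).trans H2⟩

/-- Transport along a homeomorphism of open sets. Hint: with `ε` from `tube` for `O` and the clamp
`k s = max 0 (min s 1)` put `c' p s = φ ⟨a.c p (ε * k s), _⟩`,
`U' = {y | ∃ h : y ∈ O', (φ.symm ⟨y, h⟩).1 ∈ a.U ∧ a.ρ (φ.symm ⟨y, h⟩).1 < ε}`,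
`ρ' y = a.ρ (φ.symm y) / ε` on `O'`, `π' y = a.π (φ.symm y)`. -/
theorem CN.transport [CompactSpace P] (a : CN x P) {O : Set X} {O' : Set Y} (hO : IsOpen O)
    (hO' : IsOpen O') (φ : O ≃ₜ O') (hx : x ∈ O) : Nonempty (CN (φ ⟨x, hx⟩ : Y) P) := by
  obtain ⟨ε, e0, e1, e2⟩ := a.tube hO hx
  obtain ⟨k, kc, k0, k1, kz, ks⟩ : ∃ k : ℝ → ℝ, Continuous k ∧ (∀ s, 0 ≤ k s) ∧ (∀ s, k s ≤ ε) ∧
      k 0 = 0 ∧ ∀ s, 0 < s → s < 1 → k s = ε * s := by
    refine ⟨fun s => ε * max 0 (min s 1), by fun_prop, fun s => by positivity, fun s => ?_,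
      by simp, fun s h0 h1 => ?_⟩
    · exact mul_le_of_le_one_right e0.le (max_le zero_le_one (min_le_right _ _))
    · show ε * max 0 (min s 1) = ε * s
      rw [min_eq_left h1.le, max_eq_right h0.le]
  have km : ∀ p s, a.c p (k s) ∈ O := fun p s => e2 p _ (k0 s) (k1 s)
  obtain ⟨ψ, ψc, ψφ⟩ : ∃ ψ : Y → X, ContinuousOn ψ O' ∧ ∀ z : O, ψ (φ z : Y) = z := by
    refine ⟨fun y => if h : y ∈ O' then (φ.symm ⟨y, h⟩ : X) else x, ?_, fun z => ?_⟩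
    · rw [continuousOn_iff_continuous_domRestrict]
      refine (continuous_subtype_val.comp φ.symm.continuous).congr fun y => ?_
      simp [y.2]
    · simp [(φ z).2]
  have φψ : ∀ y ∈ O', ∀ z : O, (z : X) = ψ y → (φ z : Y) = y := by
    intro y hy z hz
    have e := ψφ (φ.symm ⟨y, hy⟩)
    rw [φ.apply_symm_apply] at e
    have e' : z = φ.symm ⟨y, hy⟩ := Subtype.ext (hz.trans e)
    rw [e', φ.apply_symm_apply]
  have lt : ∀ s : ℝ, 0 < s → s < 1 → 0 < ε * s ∧ ε * s < ε := fun s h0 h1 =>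
    ⟨mul_pos e0 h0, mul_lt_of_lt_one_right e0 h1⟩
  have hne : ∀ y : Y, y ∈ O' ∩ ψ ⁻¹' (a.U ∩ a.ρ ⁻¹' Set.Iio ε) ∧ y ≠ (φ ⟨x, hx⟩ : Y) →
      ψ y ∈ a.U ∧ ψ y ≠ x := fun y hy =>
    ⟨hy.1.2.1, fun e => hy.2 (φψ y hy.1.1 ⟨x, hx⟩ e.symm).symm⟩
  have ψk : ∀ p s, 0 < s → s < 1 → ψ (φ ⟨a.c p (k s), km p s⟩ : Y) = a.c p (ε * s) := by
    intro p s h0 h1
    rw [ψφ]
    show a.c p (k s) = _
    rw [ks s h0 h1]
  refine ⟨
    { c := fun p s => (φ ⟨a.c p (k s), km p s⟩ : Y)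
      U := O' ∩ ψ ⁻¹' (a.U ∩ a.ρ ⁻¹' Set.Iio ε)
      ρ := fun y => a.ρ (ψ y) / ε
      π := fun y => a.π ⟨ψ y.1, hne y.1 y.2⟩
      cc := continuous_subtype_val.comp (φ.continuous.comp
        ((a.cc.comp (continuous_fst.prodMk (kc.comp continuous_snd))).subtype_mk _))
      Uo := ψc.isOpen_inter_preimage hO' (a.ρU.isOpen_inter_preimage a.Uo isOpen_Iio)
      xU := ⟨(φ _).2, ?_⟩
      c0 := fun p => ?_
      cU := fun p s h0 h1 => ⟨⟨(φ _).2, ?_⟩, fun e => ?_⟩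
      ρc := fun p s h0 h1 => ?_
      πc := fun p s h h0 h1 => ?_
      ρU := (a.ρU.comp (ψc.mono Set.inter_subset_left) fun y hy => hy.2.1).div_const ε
      ρx := ?_
      πC := a.πC.comp ((ψc.comp_continuous continuous_subtype_val fun y => y.2.1.1).subtype_mk _)
      inv := fun y h => ?_ }⟩
  · rw [Set.mem_preimage, ψφ]
    exact ⟨a.xU, by rw [Set.mem_preimage]; show a.ρ x ∈ _; rw [a.ρx]; exact e0⟩
  · have e : (⟨a.c p (k 0), km p 0⟩ : O) = ⟨x, hx⟩ := Subtype.ext (by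
      show a.c p (k 0) = x
      rw [kz, a.c0])
    rw [e]
  · obtain ⟨l0, l1⟩ := lt s h0 h1
    rw [Set.mem_preimage, ψk p s h0 h1]
    refine ⟨(a.cU p _ l0 (l1.trans e1)).1, ?_⟩
    rw [Set.mem_preimage, a.ρc p _ l0 (l1.trans e1)]
    exact l1
  · obtain ⟨l0, l1⟩ := lt s h0 h1
    have e' := congrArg ψ e
    rw [ψk p s h0 h1, ψφ] at e'
    exact (a.cU p _ l0 (l1.trans e1)).2 e'
  · obtain ⟨l0, l1⟩ := lt s h0 h1
    show a.ρ (ψ _) / ε = s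
    rw [ψk p s h0 h1, a.ρc p _ l0 (l1.trans e1), mul_div_cancel_left₀ _ e0.ne']
  · obtain ⟨l0, l1⟩ := lt s h0 h1
    exact (vcn_pi a _ (a.cU p _ l0 (l1.trans e1)) (ψk p s h0 h1)).trans
      (a.πc p _ _ l0 (l1.trans e1))
  · show a.ρ (ψ _) / ε = 0
    rw [ψφ]
    show a.ρ x / ε = 0
    rw [a.ρx, zero_div]
  · obtain ⟨i0, -, i2⟩ := a.inv _ (hne y h)
    have r0 : 0 < a.ρ (ψ y) / ε := div_pos i0 e0
    have r1 : a.ρ (ψ y) / ε < 1 := (div_lt_one e0).2 h.1.2.2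
    refine ⟨r0, r1, φψ y h.1.1 _ ?_⟩
    show a.c _ (k (a.ρ (ψ y) / ε)) = ψ y
    rw [ks _ r0 r1, mul_div_cancel₀ _ e0.ne']
    exact i2

theorem CN.homeo [CompactSpace P] (a : CN x P) (φ : X ≃ₜ Y) : Nonempty (CN (φ x) P) := by
  exact a.transport isOpen_univ isOpen_univ
    ((Homeomorph.Set.univ X).trans (φ.trans (Homeomorph.Set.univ Y).symm)) (Set.mem_univ x)

/-- Hint: `transport` along `e.toHomeomorphSourceTarget.symm`. -/
theorem CN.chart [CompactSpace P] (e : OpenPartialHomeomorph X Y) (hx : x ∈ e.source)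
    (a : CN (e x) P) : Nonempty (CN x P) := by
  have h := a.transport e.open_target e.open_source e.toHomeomorphSourceTarget.symm
    (e.map_source hx)
  have e' : (e.toHomeomorphSourceTarget.symm ⟨e x, e.map_source hx⟩ : X) = x := e.left_inv hx
  rwa [e'] at h

end Pool.Agent.Lib.MP_5ceaf9_gt.V
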