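import Pool.Agent.Lib.MP_5ceaf9_gt.VAlg

/-! The face poset of a simplicial complex as a cell structure. -/

noncomputable section

namespace Pool.Agent.Lib.MP_5ceaf9_gt.V

open Classical Function

variable {L K : Finset (Finset ℕ)} {l : ℕ}

theorem pon_faces (L : Finset (Finset ℕ)) : POn (· ⊆ ·) L :=
  ⟨fun _ _ => Finset.Subset.refl _, fun _ _ _ _ h1 h2 => Finset.Subset.antisymm h1 h2,
    fun _ _ _ _ _ _ h1 h2 => h1.trans h2⟩

theorem vcell_empty {α : Type} [DecidableEq α] [Nonempty α] (r : α → α → Prop) (a : Finset α) :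
    Dz r a ∅ = if a.card = 1 then 1 else 0 := by
  split_ifs with h
  · obtain ⟨v, rfl⟩ := Finset.card_eq_one.1 h
    have h1 : (∅ : Finset α) = ({v} : Finset α).erase v := by simp
    rw [h1, Dz_erase (Finset.mem_singleton_self v)]
    unfold sg
    rw [Finset.card_eq_zero.2, pow_zero]
    refine Finset.filter_eq_empty_iff.2 fun u hu hh => hh.2 (Finset.mem_singleton.1 hu)
  · by_contra h0
    obtain ⟨v, hv, e⟩ := Dz_ne h0
    have h1 := Finset.card_erase_add_one hv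
    rw [← e] at h1
    exact h (by simpa using h1.symm)

theorem vcell_ctr {X : Finset (Finset ℕ)} {e : Finset ℕ} (he : e.Nonempty)
    (hX : ∀ σ, σ ∈ X ↔ σ ⊆ e ∧ σ.Nonempty) :
    Ctr (rs (Finset.insertNone X) (Finset.insertNone X)
      (aug (fun σ : Finset ℕ => σ.card - 1) (Dz (· ≤ ·)))) := by
  obtain ⟨v, hv⟩ := he
  have hcv : Cv (· ≤ ·) e.powerset := by
    refine ⟨fun σ _ => ⟨⟨fun _ _ => le_rfl, fun _ _ _ _ h1 h2 => le_antisymm h1 h2,
      fun _ _ _ _ _ _ h1 h2 => h1.trans h2⟩, fun a _ b _ => le_total a b⟩, ?_⟩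
    intro σ hσ τ _ ρ _ h2
    exact Finset.mem_powerset.2 (h2.trans (Finset.mem_powerset.1 hσ))
  have hc := ctr_cone hcv v
    (fun σ hσ => Finset.mem_powerset.2 (Finset.insert_subset hv (Finset.mem_powerset.1 hσ)))
    (fun σ hσ => Finset.mem_powerset.2
      ((Finset.erase_subset _ _).trans (Finset.mem_powerset.1 hσ)))
  have hm : ∀ x : ↥(Finset.insertNone X), x.1.getD ∅ ∈ e.powerset := by
    rintro ⟨_ | a, ha⟩
    · simp
    · exact Finset.mem_powerset.2 ((hX a).1 (Finset.some_mem_insertNone.1 ha)).1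
  let F : ↥(Finset.insertNone X) → ↥e.powerset := fun x => ⟨x.1.getD ∅, hm x⟩
  have hF : Bijective F := by
    constructor
    · rintro ⟨_ | a, ha⟩ ⟨_ | b, hb⟩ h
      · rfl
      · have h1 : (∅ : Finset ℕ) = b := congrArg Subtype.val h
        exact absurd h1.symm ((hX b).1 (Finset.some_mem_insertNone.1 hb)).2.ne_empty
      · have h1 : a = (∅ : Finset ℕ) := congrArg Subtype.val h
        exact absurd h1 ((hX a).1 (Finset.some_mem_insertNone.1 ha)).2.ne_empty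
      · have h1 : a = b := congrArg Subtype.val h
        subst h1
        rfl
    · rintro ⟨σ, hσ⟩
      rcases σ.eq_empty_or_nonempty with rfl | hn
      · exact ⟨⟨none, Finset.none_mem_insertNone⟩, rfl⟩
      · exact ⟨⟨some σ, Finset.some_mem_insertNone.2
          ((hX σ).2 ⟨Finset.mem_powerset.1 hσ, hn⟩)⟩, rfl⟩
  have h2 := (ctr_reindex (Equiv.ofBijective F hF)).2 hc
  convert h2 using 1
  ext ⟨_ | a, ha⟩ ⟨y, hb⟩
  · show (0 : ℤ) = Dz (· ≤ ·) (∅ : Finset ℕ) (y.getD ∅)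
    simp [Dz]
  · rcases y with _ | b
    · show (if a.card - 1 = 0 then (1 : ℤ) else 0) = Dz (· ≤ ·) a ∅
      rw [vcell_empty]
      have h3 := ((hX a).1 (Finset.some_mem_insertNone.1 ha)).2.card_pos
      by_cases h4 : a.card = 1
      · rw [if_pos h4, if_pos (by omega)]
      · rw [if_neg h4, if_neg (by omega)]
    · rfl

/-- Hint: `sq` by `Dz_sq`; `au` is `Dz_sq` with `τ = ∅`; for `ctr` reindex `insertNone` of the faces
of `e` to `e.powerset` and use `ctr_cone` with a vertex of `e`. -/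
theorem cocell_faces (hL : Cx (· ≤ ·) L) :
    CoCell (swap (· ⊆ ·)) L (fun σ => σ.card - 1) (Dz (· ≤ ·)) := by
  refine ⟨(pon_faces L).swap, ?_, ?_, ?_, ?_, ?_⟩
  · intro e _ f hf h0
    obtain ⟨v, hv, rfl⟩ := Dz_ne h0
    refine ⟨Finset.erase_subset _ _, ?_⟩
    have h1 := Finset.card_erase_add_one hv
    have h2 := (hL.ne _ hf).card_pos
    show e.card - 1 = (e.erase v).card - 1 + 1
    omega
  · intro e _ f hf h1 h2
    have h3 : f.card < e.card := Finset.card_lt_card (Finset.ssubset_iff_subset_ne.2 ⟨h1, h2.symm⟩)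
    have h4 := (hL.ne _ hf).card_pos
    show f.card - 1 < e.card - 1
    omega
  · intro e he g hg
    exact Dz_sq (hL.po e he) (hL.tot e he) fun v _ h1 =>
      hL.down e he _ (Finset.erase_subset _ _) ((hL.ne g hg).mono h1)
  · intro e he h1
    have h2 : e.card - 1 = 1 := h1
    have h3 := Dz_sq (X := L) (hL.po e he) (hL.tot e he) (τ := ∅) fun v hv _ =>
      hL.down e he _ (Finset.erase_subset _ _) (Finset.card_pos.1 (by
        have := Finset.card_erase_add_one hv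
        omega))
    rw [← h3]
    refine Finset.sum_congr rfl fun f _ => ?_
    by_cases h0 : Dz (· ≤ ·) e f = 0
    · rw [h0, zero_mul]
    · obtain ⟨v, hv, rfl⟩ := Dz_ne h0
      have h4 := Finset.card_erase_add_one hv
      rw [vcell_empty, if_pos (by omega), mul_one]
  · intro e he
    refine vcell_ctr (hL.ne e he) fun σ => ?_
    simp only [Finset.mem_filter]
    exact ⟨fun h => ⟨h.2, hL.ne σ h.1⟩, fun h => ⟨hL.down e he σ h.1 h.2, h.1⟩⟩

theorem g2_iff {ι : Type} [Fintype ι] [DecidableEq ι] {p : ι → Bool} {d : Matrix ι ι F25} :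
    G2 p d ↔ Dm p d ∧ tor p d = 1 := by
  constructor
  · intro h
    exact ⟨h.1, h.2.2 le_rfl (RingHom.id F25) rfl⟩
  · rintro ⟨h1, h2⟩
    refine ⟨h1, fun _ => (tor_ne_zero_iff h1).1 (by rw [h2]; exact one_ne_zero), fun _ φ hφ => ?_⟩
    rw [Set.mem_singleton_iff.1 hφ]
    exact h2

theorem vcell_par (hL : Cx (· ≤ ·) L) :
    (fun x : ↥(L \ K) => pc (fun σ : Finset ℕ => σ.card - 1) x.1) = fun x => ps x.1 := by
  funext x
  have h1 := (hL.ne _ (Finset.mem_sdiff.1 x.2).1).card_pos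
  unfold pc ps
  refine decide_eq_decide.2 ?_
  show (x.1.card - 1) % 2 = 1 ↔ _
  omega

theorem vcell_single {Γ R : Type} [Group Γ] [Ring R] (φ : ZG Γ →+* R) (g : Γ) (z : ℤ) :
    φ (MonoidAlgebra.single g z) = φ (MonoidAlgebra.single g 1) * (z : R) := by
  have h : (MonoidAlgebra.single g z : ZG Γ) = z • MonoidAlgebra.single g 1 := by
    rw [MonoidAlgebra.smul_single, smul_eq_mul, mul_one]
  rw [h, map_zsmul, zsmul_eq_mul, (Int.cast_commute z _).eq]

/-- Hint: `GP.swap`; take `Γ = rootsOfUnity 8 F25`, `c a b` the unit `χ a b` when its eighth power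
is one (else `1`), `φ = MonoidAlgebra.lift ℤ F25 Γ` of the inclusion; `gd_Dc` at level two with
`cocell_faces`; then map the matrix with `φ`; `pc dm σ = ps σ` for nonempty `σ`. -/
theorem cells_of_gp (hL : Cx (· ≤ ·) L) (hd : ∀ σ ∈ K, ∀ ρ ∈ L, ρ ⊆ σ → ρ ∈ K)
    (h : GP (· ⊆ ·) 2 K L) {χ : Finset ℕ → Finset ℕ → F25} (hχ : Chi L χ) :
    G2 (fun x : ↥(L \ K) => ps x.1) (rs (L \ K) (L \ K) (tw χ)) := by
  let c : Finset ℕ → Finset ℕ → ↥(rootsOfUnity 8 F25) := fun a b =>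
    if h : χ a b ^ 8 = 1 then rootsOfUnity.mkOfPowEq (χ a b) h else 1
  let ψ : ↥(rootsOfUnity 8 F25) →* F25 := (Units.coeHom F25).comp (rootsOfUnity 8 F25).subtype
  have hψ : ∀ g, ψ g = ((g : F25ˣ) : F25) := fun _ => rfl
  have hinj : Injective ψ := fun a b e => Subtype.ext (Units.ext e)
  have hc : ∀ a ∈ L, ∀ b ∈ L, b ⊆ a → ψ (c a b) = χ a b := by
    intro a ha b hb hab
    have h1 := hχ.pow b hb a ha hab
    simp only [c, dif_pos h1, hψ]
    rfl
  have hf : Flat (swap (· ⊆ ·)) (OC (swap (· ⊆ ·)) L) c := by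
    refine (flat_OC (pon_faces L).swap).2 fun a ha b hb d hd h1 h2 => hinj ?_
    rw [map_mul, hc a ha b hb h1, hc b hb d hd h2, hc a ha d hd (Finset.Subset.trans h2 h1)]
    exact hχ.flat d hd b hb a ha h2 h1
  have hg := gd_Dc (cocell_faces hL) hd h.swap hf
  let φ : ZG ↥(rootsOfUnity 8 F25) →+* F25 :=
    (MonoidAlgebra.lift ℤ F25 ↥(rootsOfUnity 8 F25) ψ).toRingHom
  have hφ1 : ∀ g, φ (MonoidAlgebra.single g 1) = ψ g := fun g => by simp [φ]
  have hφ : φ ∈ PhiG ↥(rootsOfUnity 8 F25) F25 := by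
    intro g
    rw [hφ1, ← map_pow]
    have h1 : g ^ 8 = 1 := Subtype.ext ((mem_rootsOfUnity 8 _).1 g.2)
    rw [h1, map_one]
  have hm : (rs (L \ K) (L \ K) (Dc (Dz (· ≤ ·)) c)).map φ = rs (L \ K) (L \ K) (tw χ) := by
    refine Matrix.ext fun x y => ?_
    show φ (MonoidAlgebra.single (c x.1 y.1) (Dz (· ≤ ·) x.1 y.1)) =
      χ x.1 y.1 * (Dz (· ≤ ·) x.1 y.1 : F25)
    rw [vcell_single, hφ1]
    by_cases h0 : Dz (· ≤ ·) x.1 y.1 = 0
    · rw [h0, Int.cast_zero, mul_zero, mul_zero]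
    · rw [hc _ (Finset.mem_sdiff.1 x.2).1 _ (Finset.mem_sdiff.1 y.2).1 (sxa2_sub h0)]
  rw [vcell_par hL] at hg
  rw [← hm]
  exact g2_iff.2 ⟨hg.1.map φ, hg.2.2 le_rfl φ hφ⟩

/-- Hint: pass to `swap` (`GP.swap` twice). For a flat `c` the cell matrix `Dc` is good at level
one by `gd_Dc`, and of torsion one under `φ` by the hypothesis with
`χ a b = φ (MonoidAlgebra.single (c a b) 1)`; then `gd_iff_of_cone (cm_SD ..) (gd_SD ..)`. -/
theorem gp_of_cells (hL : Cx (· ≤ ·) L) (hd : ∀ σ ∈ K, ∀ ρ ∈ L, ρ ⊆ σ → ρ ∈ K)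
    (h : GP (· ⊆ ·) 1 K L)
    (h2 : ∀ χ, Chi L χ → G2 (fun x : ↥(L \ K) => ps x.1) (rs (L \ K) (L \ K) (tw χ))) :
    GP (· ⊆ ·) 2 K L := by
  have h' := h.swap
  have hcell := cocell_faces hL
  have key : GP (swap (· ⊆ ·)) 2 K L := by
    refine ⟨h'.1, h'.2.1, h'.2.2.cK, h'.2.2.cL, h'.2.2.sub, h'.2.2.eq1, fun Γ _ c hc => ?_⟩
    refine (gd_iff_of_cone (cm_SD hcell h'.2.1 hd hc) (gd_SD hcell h'.2.1 hd hc)).1 ?_
    have g1 := gd_Dc hcell hd h' hc
    refine ⟨g1.1, fun _ => g1.2.1 le_rfl, fun _ φ hφ => ?_⟩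
    have hχ : Chi L fun a b => φ (MonoidAlgebra.single (c a b) 1) := by
      refine ⟨fun σ _ τ _ _ => hφ _, fun σ hσ τ hτ υ hυ h1 h3 => ?_⟩
      rw [← map_mul, MonoidAlgebra.single_mul_single, mul_one,
        (flat_OC (pon_faces L).swap).1 hc υ hυ τ hτ σ hσ h3 h1]
    have h3 := (g2_iff.1 (h2 _ hχ)).2
    have hm : (rs (L \ K) (L \ K) (Dc (Dz (· ≤ ·)) c)).map φ =
        rs (L \ K) (L \ K) (tw fun a b => φ (MonoidAlgebra.single (c a b) 1)) := by
      exact Matrix.ext fun x y => vcell_single φ _ _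
    rw [vcell_par hL, hm]
    exact h3
  exact key.swap

/-- Subdivision. Hint: `cm_EV`, `gd_EV` at level one for the trivial group `PUnit` and `c = 1`,
mapped to the integers by `MonoidAlgebra.lift` of the trivial character; the map is
`f t σ = eps σ * sd dm inc t σ`; `eq_aug` with `sd_ne`, `sd_single`. -/
theorem eq_sd (hL : Cx (· ≤ ·) L) :
    EQ (· ≤ ·) (insert ∅ L) (· ⊆ ·) (insert ∅ (OC (· ⊆ ·) L)) := by
  have hcell := cocell_faces hL
  let c : Finset ℕ → Finset ℕ → Unit := fun _ _ => 1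
  have hf : Flat (· ⊆ ·) (OC (· ⊆ ·) L) c := fun _ _ _ _ _ _ => rfl
  let φ : ZG Unit →+* ℤ := (MonoidAlgebra.lift ℤ ℤ Unit 1).toRingHom
  have hφ : ∀ g z, φ (MonoidAlgebra.single g z) = z := fun g z => by simp [φ]
  let f : Finset ℕ → Finset (Finset ℕ) → ℤ := fun t σ =>
    eps σ * sd (fun σ : Finset ℕ => σ.card - 1) (Dz (· ≤ ·)) t σ
  have m1 : (rs L L (Dc (Dz (· ≤ ·)) (cop c))).map φ = rs L L (Dz (· ≤ ·)) := by
    ext x y
    exact hφ _ _
  have m2 : (rs (OC (· ⊆ ·) L) (OC (· ⊆ ·) L) (DG (· ⊆ ·) c)).map φ =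
      rs (OC (· ⊆ ·) L) (OC (· ⊆ ·) L) (Dz (· ⊆ ·)) := by
    ext x y
    exact hφ _ _
  have m3 : (rs L (OC (· ⊆ ·) L)
      (EV (· ⊆ ·) (fun σ : Finset ℕ => σ.card - 1) (Dz (· ≤ ·)) c)).map φ =
      rs L (OC (· ⊆ ·) L) f := by
    ext x y
    exact hφ _ _
  have h1 := ((cm_EV hcell hf).map φ).comm
  have h2 := ((gd_EV (l := 1) hcell hf).2.1 le_rfl).map φ
  rw [cone_map] at h2
  rw [m1, m2, m3] at h1 h2
  refine eq_aug hL (cx_OC (pon_faces L)) (f := f) ?_ h1 h2 ?_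
  · intro x hx y hy h0
    have h3 := (sd_ne hcell hx (mem_OC.1 hy).1 (right_ne_zero_of_mul h0)).2.2.2
    have h4 := (hL.ne x hx).card_pos
    have h5 : y.card = x.card - 1 + 1 := h3
    omega
  · intro x hx
    have h3 := sd_aug hcell hx
    rw [OC_swap] at h3
    have h4 := (hL.ne x hx).card_pos
    have h5 : Dz (· ≤ ·) x ∅ = if x.card - 1 = 0 then 1 else 0 := by
      rw [vcell_empty]
      by_cases h6 : x.card = 1
      · rw [if_pos h6, if_pos (by omega)]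
      · rw [if_neg h6, if_neg (by omega)]
    rw [h5, ← h3]
    refine Finset.sum_congr rfl fun y _ => ?_
    rw [vcell_empty, vcell_empty]
    by_cases h6 : y.card = 1
    · simp [f, eps, h6]
    · rw [if_neg h6, mul_zero, mul_zero]

end Pool.Agent.Lib.MP_5ceaf9_gt.V
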