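import Pool.Agent.Lib.MP_5ceaf9_gt.VAlg

/-! The double complex of pairs of simplices, and its first augmentation. -/

noncomputable section

namespace Pool.Agent.Lib.MP_5ceaf9_gt.V

open Classical Function

variable {L P0 P1 : Finset (Finset ℕ)} {χ : Finset ℕ → Finset ℕ → F25}

theorem mem_prs {x : Finset ℕ × Finset ℕ} :
    x ∈ prs L P1 ↔ x.1 ∈ L ∧ x.2 ∈ L ∧ x.2 ∉ P1 ∧ x.1 ⊆ x.2 := by
  simp only [prs, Finset.mem_filter, Finset.mem_product, Finset.mem_sdiff, and_assoc]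

theorem Chi.ne (h : Chi L χ) {σ τ : Finset ℕ} (hσ : σ ∈ L) (hτ : τ ∈ L) (hs : σ ⊆ τ) :
    χ τ σ ≠ 0 := by
  intro h0
  have h1 := h.pow σ hσ τ hτ hs
  rw [h0, zero_pow (by norm_num)] at h1
  exact zero_ne_one h1

theorem vda_ne {σ τ : Finset ℕ} (h : tw χ τ σ ≠ 0) : Dz (· ≤ ·) τ σ ≠ 0 := fun h0 =>
  h (by rw [tw, h0, Int.cast_zero, mul_zero])

theorem vda_card {σ τ : Finset ℕ} (h : Dz (· ≤ ·) τ σ ≠ 0) : τ.card = σ.card + 1 := by
  obtain ⟨v, hv, rfl⟩ := Dz_ne h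
  exact (Finset.card_erase_add_one hv).symm

/-- The twisted coboundary has square zero on any family `X ⊆ L` that contains the simplices
between `σ` and `υ`. Hint: `Dz_sq`, `Dz_ne`, `Chi.flat`. -/
theorem tw_sq (hL : Cx (· ≤ ·) L) (h : Chi L χ) {X : Finset (Finset ℕ)} (hX : X ⊆ L)
    {σ υ : Finset ℕ} (hσ : σ ∈ L) (hυ : υ ∈ L) (conv : ∀ τ, σ ⊆ τ → τ ⊆ υ → τ ∈ X) :
    ∑ τ ∈ X, tw χ υ τ * tw χ τ σ = 0 := by
  have e : ∀ τ ∈ X, tw χ υ τ * tw χ τ σ =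
      χ υ σ * ((Dz (· ≤ ·) υ τ * Dz (· ≤ ·) τ σ : ℤ) : F25) := fun τ hτ => by
    rw [tw, tw, mul_mul_mul_comm, ← Int.cast_mul]
    by_cases h0 : Dz (· ≤ ·) υ τ * Dz (· ≤ ·) τ σ = 0
    · rw [h0, Int.cast_zero, mul_zero, mul_zero]
    · rw [h.flat σ hσ τ (hX hτ) υ hυ (sxa2_sub (right_ne_zero_of_mul h0))
        (sxa2_sub (left_ne_zero_of_mul h0))]
  rw [Finset.sum_congr rfl e, ← Finset.mul_sum, ← Int.cast_sum, Dz_sq (hL.po _ hυ) (hL.tot _ hυ)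
    fun v _ hv => conv _ hv (Finset.erase_subset _ _), Int.cast_zero, mul_zero]

theorem dm_tw (hL : Cx (· ≤ ·) L) (h : Chi L χ) {P : Finset (Finset ℕ)}
    (hd : ∀ σ ∈ P, ∀ ρ ∈ L, ρ ⊆ σ → ρ ∈ P) :
    Dm (fun x : ↥(L \ P) => ps x.1) (rs (L \ P) (L \ P) (tw χ)) := by
  refine ⟨Matrix.ext fun x y => ?_, fun x y hxy => ps_ne (vda_ne hxy)⟩
  obtain ⟨h1, -⟩ := Finset.mem_sdiff.1 x.2
  obtain ⟨h2, h3⟩ := Finset.mem_sdiff.1 y.2
  exact (Finset.sum_coe_sort (L \ P) fun τ => tw χ x.1 τ * tw χ τ y.1).trans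
    (tw_sq hL h Finset.sdiff_subset h2 h1 fun τ h4 h5 => Finset.mem_sdiff.2
      ⟨hL.down _ h1 _ h5 ((hL.ne _ h2).mono h4), fun h6 => h3 (hd _ h6 _ h2 h4)⟩)

/-- A sum over the pairs with fixed first entry. -/
theorem sum_fst {M : Type} [AddCommMonoid M] {σ : Finset ℕ} (hσ : σ ∈ L)
    (F : Finset ℕ × Finset ℕ → M) :
    ∑ y ∈ prs L P1, (if y.1 = σ then F y else 0) = ∑ τ ∈ st (L \ P1) σ, F (σ, τ) := by
  rw [← Finset.sum_filter]
  refine Finset.sum_nbij' Prod.snd (fun τ => (σ, τ)) (fun y hy => ?_) (fun τ hτ => ?_)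
    (fun y hy => ?_) (fun _ _ => rfl) fun y hy => ?_
  · obtain ⟨h1, rfl⟩ := Finset.mem_filter.1 hy
    obtain ⟨-, h2, h3, h4⟩ := mem_prs.1 h1
    exact Finset.mem_filter.2 ⟨Finset.mem_sdiff.2 ⟨h2, h3⟩, h4⟩
  · obtain ⟨h1, h2⟩ := Finset.mem_filter.1 hτ
    exact Finset.mem_filter.2 ⟨mem_prs.2 ⟨hσ, (Finset.mem_sdiff.1 h1).1, (Finset.mem_sdiff.1 h1).2,
      h2⟩, rfl⟩
  · rw [← (Finset.mem_filter.1 hy).2]
  · rw [← (Finset.mem_filter.1 hy).2]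

/-- A sum over the pairs with fixed second entry. -/
theorem sum_snd {M : Type} [AddCommMonoid M] {τ : Finset ℕ} (hτ : τ ∈ L \ P1)
    (F : Finset ℕ × Finset ℕ → M) :
    ∑ y ∈ prs L P1, (if y.2 = τ then F y else 0) = ∑ σ ∈ L.filter (fun σ => σ ⊆ τ), F (σ, τ) := by
  rw [← Finset.sum_filter]
  refine Finset.sum_nbij' Prod.fst (fun σ => (σ, τ)) (fun y hy => ?_) (fun σ hσ => ?_)
    (fun y hy => ?_) (fun _ _ => rfl) fun y hy => ?_
  · obtain ⟨h1, rfl⟩ := Finset.mem_filter.1 hy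
    obtain ⟨h2, -, -, h4⟩ := mem_prs.1 h1
    exact Finset.mem_filter.2 ⟨h2, h4⟩
  · obtain ⟨h1, h2⟩ := Finset.mem_filter.1 hσ
    exact Finset.mem_filter.2 ⟨mem_prs.2 ⟨h1, (Finset.mem_sdiff.1 hτ).1, (Finset.mem_sdiff.1 hτ).2,
      h2⟩, rfl⟩
  · rw [← (Finset.mem_filter.1 hy).2]
  · rw [← (Finset.mem_filter.1 hy).2]

theorem vda_mul (x y z : Finset ℕ × Finset ℕ) : dd χ x y * dd χ y z =
    (if y.1 = x.1 then (if x.1 = z.1 then tw χ x.2 y.2 * tw χ y.2 z.2 else 0) else 0) +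
    (if y = (x.1, z.2) then (-1) ^ (x.1.card + 1) * tw χ x.2 z.2 * (Dz (· ≤ ·) z.1 x.1 : F25)
      else 0) +
    ((if y = (z.1, x.2) then (-1) ^ (z.1.card + 1) * tw χ x.2 z.2 * (Dz (· ≤ ·) z.1 x.1 : F25)
      else 0) + if y.2 = x.2 then (if x.2 = z.2 then
        ((Dz (· ≤ ·) z.1 y.1 * Dz (· ≤ ·) y.1 x.1 : ℤ) : F25) else 0) else 0) := by
  obtain ⟨a, b⟩ := x
  obtain ⟨c, d⟩ := y
  obtain ⟨e, f⟩ := z
  rw [dd, dd, add_mul, mul_add, mul_add]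
  simp only [Prod.mk.injEq, ite_and, eq_comm (a := c) (b := a), eq_comm (a := d) (b := b)]
  refine congrArg₂ (· + ·) (congrArg₂ (· + ·) ?_ ?_) (congrArg₂ (· + ·) ?_ ?_)
  · by_cases h1 : a = c
    · subst h1
      simp only [if_true, mul_ite, mul_zero]
      rw [mul_mul_mul_comm, ← mul_pow, neg_one_mul, neg_neg, one_pow, one_mul]
    · simp only [if_neg h1, zero_mul]
  · by_cases h1 : a = c <;> by_cases h2 : d = f <;> simp only [h1, h2, if_true, if_false, mul_zero,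
      zero_mul]
  · by_cases h1 : c = e <;> by_cases h2 : b = d <;> simp only [h1, h2, if_true, if_false, mul_zero,
      zero_mul, mul_comm (Dz (· ≤ ·) _ a : F25)]
  · by_cases h1 : b = d
    · subst h1
      simp only [if_true, ite_mul, zero_mul, Int.cast_mul, mul_comm (Dz (· ≤ ·) c a : F25)]
    · simp only [if_neg h1, zero_mul]

/-- Hint: expand into four sums; the two squares vanish by `tw_sq` and `Dz_sq`; the mixed terms go
through `(x.1, y.2)` and `(y.1, x.2)` and cancel, because `Dz y.1 x.1 ≠ 0` changes the cardinality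
by one. -/
theorem dm_dd (T : Tri L P0 P1) (h : Chi L χ) :
    Dm (fun x : ↥(prs L P1) => pp x.1) (rs (prs L P1) (prs L P1) (dd χ)) := by
  refine ⟨Matrix.ext fun x z => ?_, fun x y hxy => ?_⟩
  · obtain ⟨x1, x2, x3, x4⟩ := mem_prs.1 x.2
    obtain ⟨z1, z2, z3, z4⟩ := mem_prs.1 z.2
    refine (Finset.sum_coe_sort (prs L P1) fun y => dd χ x.1 y * dd χ y z.1).trans ?_
    simp only [vda_mul, Finset.sum_add_distrib, Finset.sum_ite_eq', Matrix.zero_apply]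
    have e1 : x.1.1 = z.1.1 → ∑ τ ∈ st (L \ P1) x.1.1, tw χ x.1.2 τ * tw χ τ z.1.2 = 0 := fun e =>
      tw_sq T.cL h ((Finset.filter_subset _ _).trans Finset.sdiff_subset) z2 x2 fun τ h1 h2 =>
        Finset.mem_filter.2 ⟨Finset.mem_sdiff.2 ⟨T.cL.down _ x2 _ h2 ((T.cL.ne _ z2).mono h1),
          fun h3 => z3 (T.d1 _ h3 _ z2 h1)⟩, (e ▸ z4).trans h1⟩
    have e2 : x.1.2 = z.1.2 → ((∑ σ ∈ L.filter (fun σ => σ ⊆ x.1.2),
        Dz (· ≤ ·) z.1.1 σ * Dz (· ≤ ·) σ x.1.1 : ℤ) : F25) = 0 := fun e => by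
      rw [Dz_sq (X := L.filter (fun σ => σ ⊆ x.1.2)) (T.cL.po _ z1) (T.cL.tot _ z1) fun v _ hv =>
        Finset.mem_filter.2
        ⟨T.cL.down _ z1 _ (Finset.erase_subset _ _) ((T.cL.ne _ x1).mono hv),
        (Finset.erase_subset _ _).trans (e ▸ z4)⟩, Int.cast_zero]
    rw [sum_fst x1, sum_snd (Finset.mem_sdiff.2 ⟨x2, x3⟩), Finset.sum_ite_irrel,
      Finset.sum_ite_irrel, Finset.sum_const_zero, Finset.sum_const_zero, ← Int.cast_sum,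
      ite_eq_right_iff.2 e1, ite_eq_right_iff.2 e2, zero_add, add_zero]
    by_cases h1 : tw χ x.1.2 z.1.2 = 0
    · simp only [h1, mul_zero, zero_mul, ite_self, add_zero]
    by_cases h2 : Dz (· ≤ ·) z.1.1 x.1.1 = 0
    · simp only [h2, Int.cast_zero, mul_zero, ite_self, add_zero]
    rw [if_pos ((mem_prs (x := (x.1.1, z.1.2))).2 ⟨x1, z2, z3, (sxa2_sub h2).trans z4⟩),
      if_pos ((mem_prs (x := (z.1.1, x.1.2))).2 ⟨z1, x2, x3, z4.trans (sxa2_sub (vda_ne h1))⟩),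
      vda_card h2]
    ring
  · change dd χ x.1 y.1 ≠ 0 at hxy
    have h1 : x.1.1.card + x.1.2.card = y.1.1.card + y.1.2.card + 1 ∨
        x.1.1.card + x.1.2.card + 1 = y.1.1.card + y.1.2.card := by
      by_contra h1
      obtain ⟨h2, h3⟩ := not_or.1 h1
      refine hxy ?_
      rw [dd, ite_eq_right_iff.2 fun e => ?_, ite_eq_right_iff.2 fun e => ?_, add_zero]
      · rw [by_contra fun h4 : Dz (· ≤ ·) y.1.1 x.1.1 ≠ 0 => h3 (by rw [vda_card h4, e]; ring),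
          Int.cast_zero]
      · rw [by_contra fun h4 : tw χ x.1.2 y.1.2 ≠ 0 =>
          h2 (by rw [vda_card (vda_ne h4), e, add_assoc]), mul_zero]
    simp only [pp, ne_eq, decide_eq_decide]
    omega

end Pool.Agent.Lib.MP_5ceaf9_gt.V
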