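import Pool.Agent.Lib.MP_5ceaf9_gt.Defs
import Pool.Agent.Lib.MP_5ceaf9_gt.Shared

/-! Definitions for the duality of triangulated cobordisms: cone neighbourhoods, chain
equivalences over the integers, orientations and the double complex. -/

noncomputable section

namespace Pool.Agent.Lib.MP_5ceaf9_gt.V

open Classical Function

/-- `σ` is the set of positive coordinates of `w`. -/
def Supp (w : ℕ → ℝ) (σ : Finset ℕ) : Prop := ∀ v, 0 < w v ↔ v ∈ σ

/-- The boundary of the star of `σ`. -/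
def base (L : SC) (σ : Finset ℕ) : SC where
  faces := L.faces.filter (fun ρ => ρ ∪ σ ∈ L.faces ∧ ¬ σ ⊆ ρ)
  nonempty := fun ρ h => L.nonempty ρ (Finset.mem_filter.1 h).1
  down := fun ρ h τ hτ hn => by
    obtain ⟨h1, h2, h3⟩ := Finset.mem_filter.1 h
    exact Finset.mem_filter.2 ⟨L.down ρ h1 τ hτ hn, L.down _ h2 _
      (Finset.union_subset_union_left hτ) (hn.mono Finset.subset_union_left),
      fun h4 => h3 (h4.trans hτ)⟩

/-- The full simplex of dimension `n`. -/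
def simplex (n : ℕ) : SC where
  faces := (Finset.range (n + 1)).powerset.filter (fun ρ => ρ.Nonempty)
  nonempty := fun _ h => (Finset.mem_filter.1 h).2
  down := fun _ h _ hτ hn => Finset.mem_filter.2
    ⟨Finset.mem_powerset.2 (hτ.trans (Finset.mem_powerset.1 (Finset.mem_filter.1 h).1)), hn⟩

/-- The boundary of the simplex of dimension `n`. -/
def sphere (n : ℕ) : SC := base (simplex n) (Finset.range (n + 1))

/-- The boundary of the simplex of dimension five without one facet. -/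
def disc : SC := base (simplex 5) ((Finset.range 6).erase 0)

/-- A cone neighbourhood of `x` with base `P`. -/
structure CN {X : Type} [TopologicalSpace X] (x : X) (P : Type) [TopologicalSpace P] where
  /-- The cone. -/
  c : P → ℝ → X
  /-- The open neighbourhood. -/
  U : Set X
  /-- The radial coordinate. -/
  ρ : X → ℝ
  /-- The projection to the base. -/
  π : {y // y ∈ U ∧ y ≠ x} → P
  cc : Continuous (uncurry c)
  Uo : IsOpen U
  xU : x ∈ U
  c0 : ∀ p, c p 0 = x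
  cU : ∀ p s, 0 < s → s < 1 → c p s ∈ U ∧ c p s ≠ x
  ρc : ∀ p s, 0 < s → s < 1 → ρ (c p s) = s
  πc : ∀ p s h, 0 < s → s < 1 → π ⟨c p s, h⟩ = p
  ρU : ContinuousOn ρ U
  ρx : ρ x = 0
  πC : Continuous π
  inv : ∀ y (h : y ∈ U ∧ y ≠ x), 0 < ρ y ∧ ρ y < 1 ∧ c (π ⟨y, h⟩) (ρ y) = y

/-- Homotopy equivalent complexes are joined by a zigzag of equivalences of face posets. -/
def ZZ : Prop := ∀ (K L : SC) (f : C(K.space, L.space)), IsHE f →
  ∃ (K' : SC) (ψ ψ' : Finset ℕ → Finset ℕ), ME (· ⊆ ·) (· ⊆ ·) 1 K'.faces K.faces ψ ∧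
    ME (· ⊆ ·) (· ⊆ ·) 1 K'.faces L.faces ψ'

/-- Chain equivalent graded differential matrices over the integers. -/
structure CQ {ι κ : Type} [Fintype ι] [DecidableEq ι] [Fintype κ] [DecidableEq κ] (g' : κ → ℤ)
    (g : ι → ℤ) (d' : Matrix κ κ ℤ) (d : Matrix ι ι ℤ) : Prop where
  sq' : d' * d' = 0
  sq : d * d = 0
  gr' : Gr g' g' 1 d'
  gr : Gr g g 1 d
  ex : ∃ f : Matrix κ ι ℤ, Gr g' g 0 f ∧ d' * f = f * d ∧ Ctr (cone d' d f)

/-- The number of vertices as a degree. -/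
def cd {α : Type} (X : Finset (Finset α)) (x : ↥X) : ℤ := x.1.card

/-- Chain equivalent families of simplices. -/
def EQ {α β : Type} [DecidableEq α] [DecidableEq β] (r : α → α → Prop) (X : Finset (Finset α))
    (r' : β → β → Prop) (Y : Finset (Finset β)) : Prop :=
  CQ (cd X) (cd Y) (rs X X (Dz r)) (rs Y Y (Dz r'))

/-- The family `X` has the cohomology of one simplex with `n` vertices. -/
def Sph (n : ℤ) (X : Finset (Finset ℕ)) : Prop :=
  CQ (fun _ : Unit => n) (cd X) 0 (rs X X (Dz (· ≤ ·)))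

/-- The simplices of `X` that contain `σ`. -/
def st (X : Finset (Finset ℕ)) (σ : Finset ℕ) : Finset (Finset ℕ) := X.filter (fun τ => σ ⊆ τ)

/-- Local fundamental cycles `z σ` on the interior simplices `I` around the simplices of `L`, and
the orientation cocycle `δ`. -/
structure Ori (L I : Finset (Finset ℕ)) (z δ : Finset ℕ → Finset ℕ → ℤ) : Prop where
  card : ∀ σ τ, z σ τ ≠ 0 → τ.card = 6
  cyc : ∀ σ ∈ L, ∀ ρ ∈ st I σ, ∑ τ ∈ st I σ, z σ τ * Dz (· ≤ ·) τ ρ = 0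
  ctr : ∀ σ ∈ L, Ctr (cone (0 : Matrix Unit Unit ℤ) (rs (st I σ) (st I σ) (Dz (· ≤ ·)))
    (Matrix.of fun _ (τ : ↥(st I σ)) => z σ τ.1))
  res : ∀ σ ∈ L, ∀ τ ∈ L, σ ⊆ τ → ∀ ρ ∈ st I τ, z σ ρ = δ σ τ * z τ ρ
  sq : ∀ σ ∈ L, ∀ τ ∈ L, σ ⊆ τ → δ σ τ * δ σ τ = 1
  flat : ∀ σ ∈ L, ∀ τ ∈ L, ∀ υ ∈ L, σ ⊆ τ → τ ⊆ υ → δ σ τ * δ τ υ = δ σ υ

/-- A flat cocycle with values in the eighth roots of unity on the face poset. -/
structure Chi (L : Finset (Finset ℕ)) (χ : Finset ℕ → Finset ℕ → F25) : Prop where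
  pow : ∀ σ ∈ L, ∀ τ ∈ L, σ ⊆ τ → χ τ σ ^ 8 = 1
  flat : ∀ σ ∈ L, ∀ τ ∈ L, ∀ υ ∈ L, σ ⊆ τ → τ ⊆ υ → χ υ τ * χ τ σ = χ υ σ

/-- The twisted simplicial coboundary. -/
def tw (χ : Finset ℕ → Finset ℕ → F25) (τ σ : Finset ℕ) : F25 := χ τ σ * (Dz (· ≤ ·) τ σ : F25)

/-- Contractible with trivial torsion over the field. -/
def G2 {ι : Type} [Fintype ι] [DecidableEq ι] (p : ι → Bool) (d : Matrix ι ι F25) : Prop :=
  Gd 2 ({RingHom.id F25} : Set (F25 →+* F25)) p d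

/-- A complex with two disjoint subcomplexes. -/
structure Tri (L P0 P1 : Finset (Finset ℕ)) : Prop where
  cL : Cx (· ≤ ·) L
  s0 : P0 ⊆ L
  s1 : P1 ⊆ L
  d0 : ∀ σ ∈ P0, ∀ ρ ∈ L, ρ ⊆ σ → ρ ∈ P0
  d1 : ∀ σ ∈ P1, ∀ ρ ∈ L, ρ ⊆ σ → ρ ∈ P1
  dj : ∀ σ ∈ P0, σ ∉ P1

/-- The pairs `σ ⊆ τ` with `τ` outside `P1`. -/
def prs (L P1 : Finset (Finset ℕ)) : Finset (Finset ℕ × Finset ℕ) :=
  (L ×ˢ (L \ P1)).filter (fun x => x.1 ⊆ x.2)

/-- The parity of a pair. -/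
def pp (x : Finset ℕ × Finset ℕ) : Bool := decide ((x.1.card + x.2.card) % 2 = 1)

/-- The differential of the double complex. -/
def dd (χ : Finset ℕ → Finset ℕ → F25) (x y : Finset ℕ × Finset ℕ) : F25 :=
  (if x.1 = y.1 then (-1) ^ (x.1.card + 1) * tw χ x.2 y.2 else 0) +
    if x.2 = y.2 then (Dz (· ≤ ·) y.1 x.1 : F25) else 0

/-- The augmentation in the first variable. -/
def mE (τ : Finset ℕ) (y : Finset ℕ × Finset ℕ) : F25 := if y.2 = τ ∧ y.1.card = 1 then 1 else 0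

/-- Evaluation on the local fundamental cycles. -/
def mZ (χ : Finset ℕ → Finset ℕ → F25) (z : Finset ℕ → Finset ℕ → ℤ) (σ : Finset ℕ)
    (y : Finset ℕ × Finset ℕ) : F25 := if y.1 = σ then (z σ y.2 : F25) * (χ y.2 σ)⁻¹ else 0

/-- The dual character. -/
def dch (χ : Finset ℕ → Finset ℕ → F25) (δ : Finset ℕ → Finset ℕ → ℤ) (τ σ : Finset ℕ) : F25 :=
  (δ σ τ : F25) * (χ τ σ)⁻¹

end Pool.Agent.Lib.MP_5ceaf9_gt.V
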