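import Pool.Agent.Lib.MP_5ceaf9_gt.VCell

/-! Local cohomology from homotopy equivalences of the boundaries of stars. -/

noncomputable section

namespace Pool.Agent.Lib.MP_5ceaf9_gt.V

open Classical Function

section poset

variable {α β : Type} [DecidableEq α] [DecidableEq β] [Nonempty α] [Nonempty β]
  {r : α → α → Prop} {r' : β → β → Prop} {A : Finset α} {B : Finset β} {f : α → β} {l : ℕ}

/-- The converse of `me_of_cone`. Hint: copy its proof: `e3` is the cone of `PB q`, the cone of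
`PB inl` is good by `gd_cone_PB_emb` and `h.2`; `gd_cone_comp`, `PB_comp`. -/
theorem me_cone (h : ME r r' l A B f) {Γ : Type} [Group Γ] {c : β → β → Γ}
    (hc : Flat r' (OC r' B) c) :
    Gd l (PhiG Γ F25) (cpar (fun x : ↥(OC r A) => ps x.1) (fun x : ↥(OC r' B) => ps x.1))
      (cone (rs (OC r A) (OC r A) (DG r (fun a b => c (f a) (f b))))
        (rs (OC r' B) (OC r' B) (DG r' c)) (rs (OC r A) (OC r' B) (PB (ZG Γ) f))) := by
  have hm := h.1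
  have hp := hm.pon_cy
  have hq := sxk2_q hm hp
  have hl := sxk2_inl hm hp
  have hr := sxk2_inr hm hp
  have hcq := hq.flat hc
  have hid : Mo r' r' B B id := ⟨hm.pB, hm.pB, fun _ ha => ha, fun _ _ _ _ hab => hab⟩
  have e1 := (gd_cone_PB_emb (l := l) hid (Set.injOn_id _) (fun _ _ _ _ => Iff.rfl) hc).2 (by
    rw [Finset.image_id]
    exact (GE.refl (cx_OC hm.pB)).gd Γ _ hc)
  have e2 := (gd_cone_PB_emb (l := l) hr Sum.inr_injective.injOn (fun _ _ _ _ => Iff.rfl) hcq).2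
    ((hm.gp_inr (l := l)).2.2.gd Γ _ hcq)
  have e3 := gd_cone_right (cm_PB hr hcq) (cm_PB hq hc) (by
    rw [PB_comp hr hq]
    exact e1) e2
  have e4 := (gd_cone_PB_emb (l := l) hl Sum.inl_injective.injOn (fun _ _ _ _ => Iff.rfl) hcq).2
    (h.2.2.2.gd Γ _ hcq)
  have e5 := gd_cone_comp (cm_PB hl hcq) (cm_PB hq hc) e4 e3
  rw [PB_comp hl hq] at e5
  exact e5

/-- The augmentation. -/
def vlocφ : ZG Unit →+* ℤ := (MonoidAlgebra.lift ℤ ℤ Unit 1).toRingHom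

theorem vloc_DG (X : Finset (Finset α)) (c : α → α → Unit) :
    (rs X X (DG r c)).map vlocφ = rs X X (Dz r) :=
  Matrix.ext fun x y => by simp [vlocφ, rs, DG]

/-- Hint: `me_cone` and `cm_PB` for the trivial group, mapped to the integers; `eq_aug`. -/
theorem eq_me (h : ME r r' 1 A B f) : EQ r (insert ∅ (OC r A)) r' (insert ∅ (OC r' B)) := by
  have hc : Flat r' (OC r' B) (fun _ _ => (1 : Unit)) := fun _ _ _ _ _ _ => rfl
  have e : (rs (OC r A) (OC r' B) (PB (ZG Unit) f)).map vlocφ = rs (OC r A) (OC r' B) (PB ℤ f) := by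
    refine Matrix.ext fun x y => ?_
    change vlocφ (PB (ZG Unit) f x.1 y.1) = PB ℤ f x.1 y.1
    unfold PB
    split_ifs
    · exact map_one _
    · exact map_zero _
  have h1 := ((cm_PB h.1 hc).map vlocφ).comm
  have h2 := ((me_cone h hc).2.1 le_rfl).map vlocφ
  rw [cone_map] at h2
  rw [vloc_DG, vloc_DG, e] at h1 h2
  refine eq_aug (cx_OC h.1.pA) (cx_OC h.1.pB) (fun x _ y _ hxy => ?_) h1 h2 fun x hx => ?_
  · by_contra h3
    exact hxy (if_neg fun h4 => h3 h4.2)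
  · rw [← Finset.sum_coe_sort, sxk_PB h.1 hx fun y => Dz r' y ∅, ← sxk_int h.1 hx, Dz]
    refine Finset.sum_congr rfl fun v _ => if_congr ⟨fun h3 => ?_, fun h3 => ?_⟩ rfl rfl
    · rw [← h3]
      exact ⟨Finset.image_empty f, rfl⟩
    · exact (Finset.image_eq_empty.1 h3.1).symm

end poset

theorem vloc_ch (σ : Finset ℕ) : POn (· ≤ ·) σ ∧ Tot (· ≤ ·) σ :=
  ⟨⟨fun _ _ => le_rfl, fun _ _ _ _ => le_antisymm, fun _ _ _ _ _ _ => le_trans⟩,
    fun a _ b _ => le_total a b⟩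

theorem vloc_st {X : Finset (Finset ℕ)} {σ τ : Finset ℕ} : τ ∈ st X σ ↔ τ ∈ X ∧ σ ⊆ τ :=
  Finset.mem_filter

theorem vloc_base {L : SC} {σ ρ : Finset ℕ} :
    ρ ∈ (base L σ).faces ↔ ρ ∈ L.faces ∧ ρ ∪ σ ∈ L.faces ∧ ¬ σ ⊆ ρ := Finset.mem_filter

theorem vloc_simplex {n : ℕ} {ρ : Finset ℕ} :
    ρ ∈ (simplex n).faces ↔ ρ ⊆ Finset.range (n + 1) ∧ ρ.Nonempty :=
  Finset.mem_filter.trans (and_congr_left' Finset.mem_powerset)

theorem sc_cx (K : SC) : Cx (· ≤ ·) K.faces := by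
  exact ⟨K.nonempty, K.down, fun σ _ => (vloc_ch σ).1, fun σ _ => (vloc_ch σ).2⟩

theorem eq_of_he (zz : ZZ) {K L : SC} {f : C(K.space, L.space)} (h : IsHE f) :
    EQ (· ≤ ·) (insert ∅ K.faces) (· ≤ ·) (insert ∅ L.faces) := by
  obtain ⟨K', ψ, ψ', h1, h2⟩ := zz K L f h
  exact (eq_sd (sc_cx K)).trans (((eq_me h1).symm.trans (eq_me h2)).trans (eq_sd (sc_cx L)).symm)

/-- Hint: `cq_split` with `Z = insert ∅ {ρ ∈ L.faces | ρ ∪ σ ∈ L.faces}`, a cone on any vertex of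
`σ` (`ctr_cone`). -/
theorem cq_star (L : SC) {σ : Finset ℕ} (hσ : σ ∈ L.faces) :
    CQ (cd (st L.faces σ)) (fun y => cd (insert ∅ (base L σ).faces) y + 1)
      (rs (st L.faces σ) (st L.faces σ) (Dz (· ≤ ·)))
      (-rs (insert ∅ (base L σ).faces) (insert ∅ (base L σ).faces) (Dz (· ≤ ·))) := by
  obtain ⟨v, hv⟩ := L.nonempty σ hσ
  have hn (ρ : Finset ℕ) : (ρ ∪ σ).Nonempty := ⟨v, Finset.mem_union_right _ hv⟩
  have hz (ρ : Finset ℕ) :
      ρ ∈ insert ∅ (L.faces.filter fun ρ => ρ ∪ σ ∈ L.faces) ↔ ρ ∪ σ ∈ L.faces := by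
    rw [Finset.mem_insert, Finset.mem_filter]
    refine ⟨?_, fun h => ρ.eq_empty_or_nonempty.imp_right fun h1 =>
      ⟨L.down _ h ρ Finset.subset_union_left h1, h⟩⟩
    rintro (rfl | h)
    · rwa [Finset.empty_union]
    · exact h.2
  have hcv : Cv (· ≤ ·) (insert ∅ (L.faces.filter fun ρ => ρ ∪ σ ∈ L.faces)) :=
    ⟨fun ρ _ => vloc_ch ρ, fun υ hυ τ _ ρ _ h => (hz ρ).2
      (L.down _ ((hz υ).1 hυ) _ (Finset.union_subset_union_left h) (hn ρ))⟩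
  refine cq_split hcv (fun τ hτ => (hz τ).2 ?_) (fun ρ => ?_) (fun τ hτ ρ hρ h => ?_)
    (ctr_cone hcv v (fun ρ hρ => (hz _).2 ?_) fun ρ hρ => (hz _).2 ?_)
  · rw [Finset.union_eq_left.2 (vloc_st.1 hτ).2]
    exact (vloc_st.1 hτ).1
  · rw [hz, vloc_st, Finset.mem_insert, vloc_base]
    constructor
    · rintro (rfl | h)
      · exact ⟨by rwa [Finset.empty_union], fun h => Finset.notMem_empty v (h.2 hv)⟩
      · exact ⟨h.2.1, fun h1 => h.2.2 h1.2⟩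
    · refine fun h => ρ.eq_empty_or_nonempty.imp_right fun h1 => ?_
      have h2 := L.down _ h.1 ρ Finset.subset_union_left h1
      exact ⟨h2, h.1, fun h3 => h.2 ⟨h2, h3⟩⟩
  · have h1 := (vloc_st.1 hτ).2.trans h
    exact vloc_st.2 ⟨Finset.union_eq_left.2 h1 ▸ (hz ρ).1 hρ, h1⟩
  · rw [Finset.insert_union, Finset.insert_eq_of_mem (Finset.mem_union_right _ hv)]
    exact (hz ρ).1 hρ
  · exact L.down _ ((hz ρ).1 hρ) _ (Finset.union_subset_union_left (ρ.erase_subset v)) (hn _)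

/-- The star of the top simplex is one simplex. Hint: `cq_of_equiv`. -/
theorem sph_top (n : ℕ) : Sph (n + 1) (st (simplex n).faces (Finset.range (n + 1))) := by
  have h (τ : Finset ℕ) :
      τ ∈ st (simplex n).faces (Finset.range (n + 1)) ↔ τ = Finset.range (n + 1) := by
    rw [vloc_st, vloc_simplex]
    refine ⟨fun h => h.1.1.antisymm h.2, ?_⟩
    rintro rfl
    exact ⟨⟨subset_rfl, Finset.nonempty_range_add_one⟩, subset_rfl⟩
  have hcv : Cv (· ≤ ·) (st (simplex n).faces (Finset.range (n + 1))) :=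
    ⟨fun ρ _ => vloc_ch ρ, fun υ hυ τ hτ ρ h1 h2 => (h ρ).2
      ((h2.trans ((h υ).1 hυ).subset).antisymm (((h τ).1 hτ).superset.trans h1))⟩
  refine cq_of_equiv hcv.sq (gr_Dz _) ⟨fun _ => ⟨_, (h _).2 rfl⟩, fun _ => (), fun _ => rfl,
    fun x => Subtype.ext ((h _).1 x.2).symm⟩ (fun _ => ?_) fun x y => ?_
  · simp [cd]
  · by_contra h1
    have h2 := gr_Dz _ _ _ (Ne.symm h1)
    exact absurd h2 (lt_add_one _).ne

theorem top_mem (n : ℕ) : Finset.range (n + 1) ∈ (simplex n).faces := by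
  exact vloc_simplex.2 ⟨subset_rfl, Finset.nonempty_range_add_one⟩

/-- Hint: `ctr_cone` with the vertex `0`. -/
theorem ctr_disc : Ctr (rs (insert ∅ disc.faces) (insert ∅ disc.faces) (Dz (· ≤ ·))) := by
  have hz (ρ : Finset ℕ) : ρ ∈ insert ∅ disc.faces ↔
      ρ ⊆ Finset.range 6 ∧ ¬ (Finset.range 6).erase 0 ⊆ ρ := by
    rw [Finset.mem_insert, disc, vloc_base, vloc_simplex, vloc_simplex]
    constructor
    · rintro (rfl | h)
      · exact ⟨Finset.empty_subset _, by decide⟩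
      · exact ⟨h.1.1, h.2.2⟩
    · exact fun h => ρ.eq_empty_or_nonempty.imp_right fun h1 => ⟨⟨h.1, h1⟩,
        ⟨Finset.union_subset h.1 (Finset.erase_subset _ _), h1.mono Finset.subset_union_left⟩, h.2⟩
  refine ctr_cone (cv_aug (sc_cx disc)) 0 (fun ρ hρ => (hz _).2 ?_) fun ρ hρ => (hz _).2 ?_
  · refine ⟨Finset.insert_subset (by decide) ((hz ρ).1 hρ).1, fun h => ((hz ρ).1 hρ).2 ?_⟩
    rwa [Finset.subset_insert_iff, Finset.erase_idem] at h
  · exact ⟨(ρ.erase_subset 0).trans ((hz ρ).1 hρ).1,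
      fun h => ((hz ρ).1 hρ).2 (h.trans (ρ.erase_subset 0))⟩

theorem sph_of_he (zz : ZZ) {L : SC} {σ : Finset ℕ} (hσ : σ ∈ L.faces) {n : ℕ}
    {f : C((base L σ).space, (sphere n).space)} (h : IsHE f) : Sph (n + 1) (st L.faces σ) :=
  (sph_top n).trans (((cq_star (simplex n) (top_mem n)).trans
    (CQ.shift (eq_of_he zz h)).symm).trans (cq_star L hσ).symm)

theorem ctr_of_he (zz : ZZ) {L : SC} {σ : Finset ℕ} (hσ : σ ∈ L.faces)
    {f : C((base L σ).space, disc.space)} (h : IsHE f) :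
    Ctr (rs (st L.faces σ) (st L.faces σ) (Dz (· ≤ ·))) :=
  (cq_star L hσ).ctr.2 ((CQ.ctr (eq_of_he zz h)).2 ctr_disc).neg

theorem Sph.not_ctr {n : ℤ} {X : Finset (Finset ℕ)} (h : Sph n X) :
    ¬ Ctr (rs X X (Dz (· ≤ ·))) := fun hc => not_ctr_unit ((CQ.ctr h).2 hc)

/-- At a boundary simplex. Hint: `cq_split` with `Z = st L σ`, `X = st I σ`, `Y = st P σ`; then
`CQ.shift` of the hypothesis on `P` (`-0 = 0`), `CQ.symm`, `CQ.trans`. -/
theorem sph_rel {L P I : Finset (Finset ℕ)} (hL : Cx (· ≤ ·) L) (hP : P ⊆ L)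
    (hd : ∀ τ ∈ P, ∀ ρ ∈ L, ρ ⊆ τ → ρ ∈ P) {σ : Finset ℕ} (hσ : σ ∈ L)
    (hI : ∀ τ, τ ∈ st I σ ↔ τ ∈ st L σ ∧ τ ∉ P)
    (hc : Ctr (rs (st L σ) (st L σ) (Dz (· ≤ ·)))) (h : Sph 5 (st P σ)) : Sph 6 (st I σ) := by
  have hcv : Cv (· ≤ ·) (st L σ) := ⟨fun ρ _ => vloc_ch ρ, fun υ hυ τ hτ ρ h1 h2 =>
    have h3 := (vloc_st.1 hτ).2.trans h1
    vloc_st.2 ⟨hL.down υ (vloc_st.1 hυ).1 ρ h2 ((hL.ne σ hσ).mono h3), h3⟩⟩
  have h1 := cq_split (X := st I σ) (Y := st P σ) hcv (fun τ hτ => ((hI τ).1 hτ).1)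
    (fun τ => by
      rw [hI, vloc_st, vloc_st]
      exact ⟨fun h => ⟨⟨hP h.1, h.2⟩, fun h' => h'.2 h.1⟩,
        fun h => ⟨by_contra fun h' => h.2 ⟨h.1, h'⟩, h.1.2⟩⟩)
    (fun τ hτ ρ hρ h => (hI ρ).2 ⟨hρ, fun h' => ((hI τ).1 hτ).2
      (hd ρ h' τ (vloc_st.1 ((hI τ).1 hτ).1).1 h)⟩) hc
  have h2 := (CQ.shift h).trans h1.symm
  rw [neg_zero] at h2
  exact h2

end Pool.Agent.Lib.MP_5ceaf9_gt.V
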